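import Pool.Agent.MP_d802e4_co.Prob
import Pool.Agent.MP_7c51ae_co.TabRaw
import Pool.Agent.MP_7c51ae_co.LumpRaw

/-!
Directions in a cubic graph given by a permutation (the lines) and an involution (the matching).
-/

set_option autoImplicit false

namespace Pool.Agent.MP_7c51ae_co

/-- left and right along the lines, and across the matching -/
inductive Dir
  | L | R | M
  deriving DecidableEq, Fintype

/-- the opposite direction -/
def Dir.rev : Dir → Dir
  | .L => .R
  | .R => .L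
  | .M => .M

/-- a permutation and an involution -/
structure Sch (V : Type) where
  s : Equiv.Perm V
  m : V → V
  mm : ∀ v, m (m v) = v

variable {V : Type}

/-- one step -/
def Sch.step (G : Sch V) (v : V) : Dir → V
  | .L => G.s.symm v
  | .R => G.s v
  | .M => G.m v

/-- the end of the walk from `v` along a word -/
def Sch.walk (G : Sch V) (v : V) (w : List Dir) : V := w.foldl G.step v

/-- reduced words -/
def Red (w : List Dir) : Prop := w.IsChain (fun a b => b ≠ a.rev)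

/-- reduced words of length at most `n` lead to different vertices -/
def Sch.Inj (G : Sch V) (n : ℕ) : Prop :=
  ∀ (v : V) (w w' : List Dir), Red w → Red w' → w.length ≤ n → w'.length ≤ n →
    G.walk v w = G.walk v w' → w = w'

/-- two values of six bits that may sit on the ends of an edge -/
def ok6 (a b : Fin 4 × Fin 16) : Prop :=
  (a.1.val ^^^ b.1.val ^^^ 3) + 4 * (a.2.val ^^^ b.2.val ^^^ 15) ∈ [0, 1, 2, 4, 8, 16, 32]

/-- the statement proved by the probabilistic argument -/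
def Core : Prop :=
  ∃ n : ℕ, ∀ (V : Type) [Fintype V] [DecidableEq V] (G : Sch V), G.Inj n →
    ∃ f : V → Fin 4 × Fin 16, ∀ (v : V) (d : Dir), ok6 (f v) (f (G.step v d))

end Pool.Agent.MP_7c51ae_co

/-!
Lists in the four-dimensional cube and the abstract many-type recursion for their laws.
-/

set_option autoImplicit false

namespace Pool.Agent.MP_7c51ae_co

open Finset Pool.Agent.MP_d802e4_co

noncomputable section

/-- lists of admissible values -/
abbrev St := Finset (Fin 16)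

/-- sum in the cube -/
def xr (x y : Fin 16) : Fin 16 := ⟨x.val ^^^ y.val, Nat.xor_lt_two_pow (n := 4) x.isLt y.isLt⟩

/-- values allowed on the two ends of an edge; `e = true` for a rigid edge -/
def rel (e : Bool) (x y : Fin 16) : Bool :=
  if e then x.val ^^^ y.val == 15 else decide ((x.val ^^^ y.val ^^^ 15) ∈ [0, 1, 2, 4, 8])

/-- the list seen across an edge -/
def T (e : Bool) (A : St) : St := univ.filter fun x => ∃ y ∈ A, rel e x y = true

/-- translate of a list -/
def tr (t : Fin 16) (A : St) : St := A.image (xr t)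

/-- invariance under translations -/
def InvT (f : St → ℝ) : Prop := ∀ t A, f (tr t A) = f A

/-- an empty intersection counts as a single point -/
def tl (f : St → ℝ) (D : St) : ℝ := if D = ∅ then f {0} else f D

/-- uniform law on single points -/
def un (D : St) : ℝ := if D.card = 1 then 1 / 16 else 0

/-- the list `E`, or a uniform point if `E` is empty -/
def kr (E D : St) : ℝ := if E = ∅ then un D else if E = D then 1 else 0

/-- total mass -/
def ms (Z : St → ℝ) : ℝ := ∑ A, Z A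

/-- sender types `S`, receiver types `M`, mixing terms `X`, product terms `Y` -/
structure Sys (S M X Y : Type) where
  xm : X → M
  xs : X → S
  xe : X → Bool
  xw : X → ℝ
  ys : Y → S
  ya : Y → M
  yb : Y → M
  yi : Y → Fin 3
  yw : Y → ℝ

variable {S M X Y : Type} [Fintype S] [Fintype M] [Fintype X] [Fintype Y]
  [DecidableEq S] [DecidableEq M]

namespace Sys

variable (P : Sys S M X Y)

/-- laws seen by the receivers -/
def Z (N : S → St → ℝ) (m : M) (A : St) : ℝ :=
  ∑ x, if P.xm x = m then P.xw x * ∑ B, (if T (P.xe x) B = A then N (P.xs x) B else 0) else 0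

/-- laws of the senders one level higher; `q i` is the probability of a pin in phase `i` -/
def Phi (q : Fin 3 → ℝ) (Z : M → St → ℝ) (s : S) (D : St) : ℝ :=
  ∑ y, if P.ys y = s then P.yw y *
    ((1 - q (P.yi y)) * (∑ A, ∑ B, Z (P.ya y) A * Z (P.yb y) B * kr (A ∩ B) D) +
      q (P.yi y) * (ms (Z (P.ya y)) * ms (Z (P.yb y)) * un D)) else 0

/-- the laws at height `h` and time `t` -/
def nu (Q : ℕ → Fin 3 → ℝ) (m0 : S → ℝ) : ℕ → ℕ → S → St → ℝ
  | 0, _ => fun s D => if D = univ then m0 s else 0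
  | h + 1, t => P.Phi (Q (min t (h + 1))) (P.Z (nu Q m0 h t))

/-- adjoint of the product step, seen from the first (`j = false`) or second child -/
def PsiM (q : Fin 3 → ℝ) (Z : M → St → ℝ) (j : Bool) (f : S → St → ℝ) (m : M) (A : St) : ℝ :=
  ∑ y, if (if j then P.yb y else P.ya y) = m then P.yw y * ((1 - q (P.yi y)) *
    ∑ B, Z (if j then P.ya y else P.yb y) B * tl (f (P.ys y)) (A ∩ B)) else 0

/-- adjoint of the mixing step -/
def Up (g : M → St → ℝ) (s : S) (C : St) : ℝ :=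
  ∑ x, if P.xs x = s then P.xw x * g (P.xm x) (T (P.xe x) C) else 0

/-- one step down along a path -/
def PsiS (q : Fin 3 → ℝ) (N : S → St → ℝ) (j : Bool) (f : S → St → ℝ) : S → St → ℝ :=
  P.Up (P.PsiM q (P.Z N) j f)

/-- all paths of length `k` together; `N i` is the law of the siblings at step `i` -/
def It (q : Fin 3 → ℝ) (N : ℕ → S → St → ℝ) (f : S → St → ℝ) : ℕ → S → St → ℝ
  | 0 => f
  | k + 1 => fun s C => P.PsiS q (N k) false (It q N f k) s C + P.PsiS q (N k) true (It q N f k) s C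

/-- masses of the receivers -/
def z0 (m0 : S → ℝ) (m : M) : ℝ := ∑ x, if P.xm x = m then P.xw x * m0 (P.xs x) else 0

/-- nonnegative weights and stationary masses -/
structure Ok (m0 : S → ℝ) : Prop where
  xw : ∀ x, 0 ≤ P.xw x
  yw : ∀ y, 0 ≤ P.yw y
  mp : ∀ s, 0 ≤ m0 s
  st : ∀ s, m0 s = ∑ y, if P.ys y = s then P.yw y * (P.z0 m0 (P.ya y) * P.z0 m0 (P.yb y)) else 0

end Sys

/-- probability that the clock of phase `i` shows a window before `t` -/
def Qof {K : ℕ} (pk : Fin 3 → Fin K → ℝ) (t : ℕ) (i : Fin 3) : ℝ :=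
  ∑ a : Fin K, if a.val < t then pk i a else 0

/-- what the probabilistic argument needs from the abstract system -/
def AbsOut (P : Sys S M X Y) (m0 : S → ℝ) : Prop :=
  ∃ ρ C : ℝ, 0 ≤ ρ ∧ ρ < 1 ∧ 0 ≤ C ∧ ∀ δ : ℝ, 0 < δ → ∃ (K : ℕ) (pk : Fin 3 → Fin K → ℝ),
    (∀ i, IsP (pk i)) ∧ (∀ i a, pk i a ≤ δ) ∧
    (∀ h t s, K ≤ h → t < K →
      ∑ D, (P.nu (Qof pk) m0 h t s D - P.nu (Qof pk) m0 h (t + 1) s D) * (D.card : ℝ) ≤ δ) ∧
    ∀ (t : ℕ) (hs : ℕ → ℕ) (c : S → ℝ) (k : ℕ), t < K → (∀ i, K ≤ hs i) →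
      (∀ s, 0 ≤ c s ∧ c s ≤ 1) →
      ∑ s, (P.It (Qof pk t) (fun i => P.nu (Qof pk) m0 (hs i) t) (fun s D => c s * D.card) k s univ -
        P.It (Qof pk t) (fun i => P.nu (Qof pk) m0 (hs i) t) (fun s D => c s * D.card) k s {0}) ≤
        C * ρ ^ k

/-- the global constants of the certificate -/
structure Cst (M : Type) where
  rho : ℝ
  eps : ℝ
  xi : ℝ
  r : ℝ
  r2 : ℝ
  r3 : ℝ
  eM : ℝ
  B0 : ℝ
  kap : M → ℝ
  tau : M → ℝ

/-- the inequalities between the constants -/
structure Cst.Ok (c : Cst M) (P : Sys S M X Y) (m0 : S → ℝ) : Prop where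
  rho0 : 0 < c.rho
  rho1 : c.rho < 1
  eps0 : 0 ≤ c.eps
  xi0 : 0 < c.xi
  xi1 : c.xi < 1
  r20 : 0 < c.r2
  eM0 : 0 ≤ c.eM
  kap0 : ∀ m, 0 < c.kap m
  step : c.rho * ((1 + c.xi) * c.eps + c.r2) + c.r + c.r3 ≤ c.eps
  tau : ∀ m, 2 * ((1 + c.xi) * c.eps + c.r2) / ((1 - c.xi) * c.kap m) + c.eM ≤ c.tau m
  B0 : ∀ m, P.z0 m0 m + c.tau m ≤ c.B0

/-- the certificate at one time: pin probabilities `q`, approximate laws `N`, potentials `chi`,
bounds `F` for the oscillation of the potentials of the senders -/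
structure PtOk (P : Sys S M X Y) (m0 : S → ℝ) (c : Cst M) (q : Fin 3 → ℝ) (N : S → St → ℝ)
    (chi : M → St → ℝ) (F : S → ℝ) : Prop where
  invN : ∀ s, InvT (N s)
  emp : ∀ s, N s ∅ = 0
  mass : ∀ m, |ms (P.Z N m) - P.z0 m0 m| ≤ c.eM
  invC : ∀ m, InvT (chi m)
  osc : ∀ s, P.Up chi s univ - P.Up chi s {0} ≤ F s
  res : ∑ s, F s * ∑ D ∈ univ.erase univ, |P.Phi q (P.Z N) s D - N s D| ≤ c.r
  cov : ∀ (m : M) (A : St) (y : Fin 16), A.Nonempty → y ∉ A →
    2 * (c.rho * c.kap m) ≤ c.rho * (chi m (insert y A) - chi m A) -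
      ((P.PsiM q (P.Z N) false (P.Up chi) m (insert y A) +
        P.PsiM q (P.Z N) true (P.Up chi) m (insert y A)) -
       (P.PsiM q (P.Z N) false (P.Up chi) m A + P.PsiM q (P.Z N) true (P.Up chi) m A))
  err : ∀ m, ∑ y, ((if P.ya y = m then P.yw y * (c.tau (P.yb y) * F (P.ys y)) else 0) +
      (if P.yb y = m then P.yw y * (c.tau (P.ya y) * F (P.ys y)) else 0)) ≤ c.rho * c.kap m
  r3 : 2 * c.eM * c.B0 * ∑ y, P.yw y * F (P.ys y) ≤ c.r3

/-- the certificate: `J` segments, each parametrised by the interval from `-1` to `1` -/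
def Cert (P : Sys S M X Y) (m0 : S → ℝ) : Prop :=
  ∃ (J : ℕ) (c : Cst M) (q : ℕ → ℝ → Fin 3 → ℝ) (N : ℕ → ℝ → S → St → ℝ)
    (chi : ℕ → ℝ → M → St → ℝ) (F : ℕ → S → ℝ),
    c.Ok P m0 ∧
    (∀ j s, 0 ≤ F j s) ∧
    (∀ j ≤ J, ∀ x ∈ Set.Icc (-1 : ℝ) 1, PtOk P m0 c (q j x) (N j x) (chi j x) (F j)) ∧
    (∀ j ≤ J, ∀ i, MonotoneOn (fun x => q j x i) (Set.Icc (-1) 1) ∧
      ContinuousOn (fun x => q j x i) (Set.Icc (-1) 1)) ∧
    (∀ j ≤ J, ∀ s D, ContinuousOn (fun x => N j x s D) (Set.Icc (-1) 1)) ∧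
    (∀ j ≤ J, ∀ m A, ContinuousOn (fun x => chi j x m A) (Set.Icc (-1) 1)) ∧
    (∀ i, q 0 (-1) i = 0) ∧ (∀ i, q J 1 i = 1) ∧ (∀ j < J, q j 1 = q (j + 1) (-1)) ∧
    (∀ j < J, ∀ m A, |chi (j + 1) (-1) m A - chi j 1 m A| ≤ c.xi * c.kap m / 4) ∧
    (∀ j < J, ∑ s, F (j + 1) s * ∑ D ∈ univ.erase univ, |N (j + 1) (-1) s D - N j 1 s D| ≤
      c.r2 / 2) ∧
    (∀ (m : M) (A : St) (y : Fin 16), A.Nonempty → y ∉ A →
      c.kap m ≤ chi 0 (-1) m (insert y A) - chi 0 (-1) m A) ∧
    ∑ s, F 0 s * ∑ D ∈ univ.erase univ, |N 0 (-1) s D| ≤ c.eps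

/-- the increments of `g` along covers are at most `a` times those of `chi` -/
def Lip {I : Type} (chi : I → St → ℝ) (a : ℝ) (g : I → St → ℝ) : Prop :=
  ∀ (m : I) (A : St) (y : Fin 16), A.Nonempty → y ∉ A →
    |g m (insert y A) - g m A| ≤ a * (chi m (insert y A) - chi m A)

/-- the increments of `chi` along covers are at least `k` -/
def Inc {I : Type} (chi : I → St → ℝ) (k : I → ℝ) : Prop :=
  ∀ (m : I) (A : St) (y : Fin 16), A.Nonempty → y ∉ A → k m ≤ chi m (insert y A) - chi m A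

/-- invariant laws on nonempty lists with the masses `m0` -/
structure Law (m0 : S → ℝ) (N : S → St → ℝ) : Prop where
  pos : ∀ s D, 0 ≤ N s D
  inv : ∀ s, InvT (N s)
  emp : ∀ s, N s ∅ = 0
  mass : ∀ s, ms (N s) = m0 s

/-- the laws seen by the receivers are close in the norm dual to `chi` -/
def Sys.Near (P : Sys S M X Y) (chi : M → St → ℝ) (N N' : S → St → ℝ) (ε : ℝ) : Prop :=
  ∀ g : M → St → ℝ, (∀ m, InvT (g m)) → Lip chi 1 g → (∀ m, g m univ = 0) →
    |∑ m, ∑ A, (P.Z N m A - P.Z N' m A) * g m A| ≤ ε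

/-- both children together -/
def Sys.Psi2 (P : Sys S M X Y) (q : Fin 3 → ℝ) (Z : M → St → ℝ) (f : S → St → ℝ) (m : M)
    (A : St) : ℝ := P.PsiM q Z false f m A + P.PsiM q Z true f m A

/-- `chi` is a strict supersolution for the true law `N` -/
def Sys.Sub (P : Sys S M X Y) (c : Cst M) (q : Fin 3 → ℝ) (N : S → St → ℝ) (chi : M → St → ℝ) :
    Prop :=
  ∀ (m : M) (A : St) (y : Fin 16), A.Nonempty → y ∉ A →
    P.Psi2 q (P.Z N) (P.Up chi) m (insert y A) - P.Psi2 q (P.Z N) (P.Up chi) m A ≤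
      c.rho * (chi m (insert y A) - chi m A) - c.rho * c.kap m

/-- the constant for the first step -/
def Sys.C0 (P : Sys S M X Y) (m0 : S → ℝ) (c : Cst M) : ℝ :=
  (∑ y, P.yw y * (P.z0 m0 (P.ya y) + P.z0 m0 (P.yb y))) * ∑ m, 1 / c.kap m

/-- one path: `N i` is the law of the sibling at step `i` -/
def Sys.PF (P : Sys S M X Y) (q : Fin 3 → ℝ) :
    List Bool → (ℕ → S → St → ℝ) → (S → St → ℝ) → S → St → ℝ
  | [], _, f => f
  | j :: js, N, f => Sys.PF P q js (fun i => N (i + 1)) (P.PsiS q (N 0) j f)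

/-- the certificate on a grid of `K + 1` times -/
structure Grid (P : Sys S M X Y) (m0 : S → ℝ) (c : Cst M) (K : ℕ) (q : ℕ → Fin 3 → ℝ)
    (N : ℕ → S → St → ℝ) (chi : ℕ → M → St → ℝ) (F : ℕ → S → ℝ) (mesh Fm : ℝ) : Prop where
  pt : ∀ t ≤ K, PtOk P m0 c (q t) (N t) (chi t) (F t)
  F0 : ∀ t s, 0 ≤ F t s
  Fm : ∀ t ≤ K, ∑ s, F t s ≤ Fm
  q0 : ∀ i, q 0 i = 0
  qK : ∀ i, q K i = 1
  qm : ∀ t < K, ∀ i, 0 ≤ q (t + 1) i - q t i ∧ q (t + 1) i - q t i ≤ mesh
  dchi : ∀ t < K, ∀ m A, |chi (t + 1) m A - chi t m A| ≤ c.xi * c.kap m / 2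
  dN : ∀ t < K, ∑ s, F (t + 1) s * ∑ D ∈ univ.erase univ, |N (t + 1) s D - N t s D| ≤ c.r2
  inc0 : Inc (chi 0) c.kap
  N0 : ∑ s, F 0 s * ∑ D ∈ univ.erase univ, |N 0 s D| ≤ c.eps

end

end Pool.Agent.MP_7c51ae_co

/-!
The abstract system with 100 sender types and 118 receiver types.
-/

set_option autoImplicit false

namespace Pool.Agent.MP_7c51ae_co

noncomputable section

/-- the system given by the tables -/
def sys : Sys (Fin 100) (Fin 118) (Fin mixL.length) (Fin ruleL.length) where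
  xm x := Fin.ofNat 118 (mixL.get x).1
  xs x := Fin.ofNat 100 (mixL.get x).2.1
  xe x := (mixL.get x).2.2.1 == 1
  xw x := ((mixL.get x).2.2.2 : ℝ) / 2048
  ys y := Fin.ofNat 100 (ruleL.get y).1
  ya y := Fin.ofNat 118 (ruleL.get y).2.1
  yb y := Fin.ofNat 118 (ruleL.get y).2.2.1
  yi y := Fin.ofNat 3 (ruleL.get y).2.2.2.1
  yw y := ((ruleL.get y).2.2.2.2 : ℝ) / 8

/-- the stationary masses -/
def mass0 (s : Fin 100) : ℝ := ((massL.getD s.val (0, 1)).1 : ℝ) / ((massL.getD s.val (0, 1)).2 : ℝ)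

end

end Pool.Agent.MP_7c51ae_co

/-!
The local rules: the first two bits (levels, votes, look-ahead), the scores for the last four bits,
and the messages of bounded height.
-/

set_option autoImplicit false

namespace Pool.Agent.MP_7c51ae_co

open Finset Pool.Agent.MP_d802e4_co

noncomputable section

/-! ### scores -/

/-- a removal time (coarse part, fine part), or never -/
abbrev Sc := WithTop (ℕ ×ₗ ℕ)

/-- the coarse part of a score -/
def co (a : Sc) : WithTop ℕ := WithTop.map (fun p : ℕ ×ₗ ℕ => (ofLex p).1) a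

/-- scores seen across an edge -/
def Tm (e : Bool) (a : Fin 16 → Sc) (x : Fin 16) : Sc := (univ.filter fun y => rel e x y = true).sup a

/-- the minimum of the own clock and of the two incoming scores -/
def pre (θ : ℕ) (b1 b2 : Fin 16 → Sc) (x : Fin 16) : ℕ ×ₗ ℕ :=
  (min ((toLex (θ, 0) : ℕ ×ₗ ℕ) : Sc) (min (b1 x) (b2 x))).untopD (toLex (θ, 0))

/-- the same with ties broken by the own order -/
def vl (t : Fin 16) (θ : ℕ) (b1 b2 : Fin 16 → Sc) (x : Fin 16) : ℕ ×ₗ ℕ :=
  toLex ((ofLex (pre θ b1 b2 x)).1, 16 * (ofLex (pre θ b1 b2 x)).2 + (xr x t).val)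

/-- the outgoing scores: the best value is never removed -/
def comb (t : Fin 16) (θ : ℕ) (b1 b2 : Fin 16 → Sc) (x : Fin 16) : Sc :=
  if ∀ y, vl t θ b1 b2 y ≤ vl t θ b1 b2 x then ⊤ else (vl t θ b1 b2 x : Sc)

/-- the values not removed before time `θ` -/
def Ls (θ : ℕ) (a : Fin 16 → Sc) : St := univ.filter fun y => (θ : WithTop ℕ) ≤ co (a y)

/-- two score vectors agree up to time `θ` -/
def Agr (θ : ℕ) (a a' : Fin 16 → Sc) : Prop :=
  ∀ y, (co (a y) ≤ (θ : WithTop ℕ) ∨ co (a' y) ≤ (θ : WithTop ℕ)) → a y = a' y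

/-- a value is removed at time `θ` -/
def Rem (θ : ℕ) (a : Fin 16 → Sc) : Prop := ∃ y, co (a y) = (θ : WithTop ℕ)

/-- `a'` at time `1` looks like `a` at time `θ` -/
def Sim (θ : ℕ) (a a' : Fin 16 → Sc) : Prop :=
  (∀ y, (co (a y) < (θ : WithTop ℕ) ↔ co (a' y) < ((1 : ℕ) : WithTop ℕ)) ∧
    (co (a y) = (θ : WithTop ℕ) ↔ co (a' y) = ((1 : ℕ) : WithTop ℕ))) ∧
  ∀ y y', co (a y) = (θ : WithTop ℕ) → co (a y') = (θ : WithTop ℕ) → (a y ≤ a y' ↔ a' y ≤ a' y')

/-- model scores from ranks -/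
def emb (r : Fin 16 → Fin 18) (y : Fin 16) : Sc :=
  if (r y).val = 0 then ((toLex (0, 0) : ℕ ×ₗ ℕ) : Sc)
  else if (r y).val = 17 then ⊤ else ((toLex (1, (r y).val) : ℕ ×ₗ ℕ) : Sc)

/-- model scores of a list that does not change -/
def embS (A : St) (y : Fin 16) : Sc := if y ∈ A then ⊤ else ((toLex (0, 0) : ℕ ×ₗ ℕ) : Sc)

/-! ### the first two bits -/

/-- complement of two bits -/
def fl (x : Fin 4) : Fin 4 := ⟨x.val ^^^ 3, Nat.xor_lt_two_pow (n := 2) x.isLt (by decide)⟩

/-- Hamming distance of two bits -/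
def pc (a b : Fin 4) : ℕ := (a.val ^^^ b.val) % 2 + (a.val ^^^ b.val) / 2

/-- distance to a wish, if there is one -/
def od (o : Option (Fin 4)) (y : Fin 4) : ℕ :=
  match o with
  | none => 0
  | some a => pc y a

/-- what a vertex knows when it decides: level, designation, vote from the matching edge,
wish from the right (binding if `hard`), value from the left -/
structure Cfg where
  lam : Fin 4
  des : Bool
  a : Option (Fin 4)
  hard : Bool
  nx : Option (Fin 4)
  left : Option (Fin 4)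
  deriving DecidableEq

/-- the wish passed on to the left -/
def Cfg.b (k : Cfg) : Option (Fin 4) := k.a.or k.nx

/-- rank of a vertex -/
def rk (l : Fin 4) (d : Bool) : ℕ := 2 * l.val + d.toNat

def Cfg.rk (k : Cfg) : ℕ := MP_7c51ae_co.rk k.lam k.des

/-- renewal of the level, coin, seed, tie-break -/
abbrev L1 := Option (Fin 4) × Bool × Fin 4 × Bool

/-- the reference value on the left -/
def Cfg.l1 (k : Cfg) (sd : Fin 4) : Fin 4 := k.left.getD (k.b.getD sd)

def Cfg.feas (k : Cfg) (sd y : Fin 4) : Bool :=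
  decide (pc y (k.l1 sd) ≤ 1) && decide (od k.a y ≤ 1) && (!k.hard || decide (od k.nx y ≤ 1))

def Cfg.cost (k : Cfg) (sd y : Fin 4) : ℕ := 5 * pc y (k.l1 sd) + 4 * od k.a y + 4 * od k.nx y

/-- the optimal values -/
def Cfg.opt (k : Cfg) (sd : Fin 4) : List (Fin 4) :=
  [0, 1, 2, 3].filter fun y => k.feas sd y &&
    [0, 1, 2, 3].all fun z => !k.feas sd z || decide (k.cost sd y ≤ k.cost sd z)

/-- the value chosen -/
def Cfg.x (k : Cfg) (l : L1) : Fin 4 :=
  if l.2.2.2 then (k.opt l.2.2.1).headD 0 else (k.opt l.2.2.1).getLastD 0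

/-- the number of walls the vertex decides itself -/
def Cfg.cls (k : Cfg) (l : L1) : ℕ :=
  (decide (k.x l ≠ k.l1 l.2.2.1)).toNat + (decide (od k.a (k.x l) ≠ 0)).toNat +
    (k.hard && decide (od k.nx (k.x l) ≠ 0)).toNat

/-- the phase in which the clock of the vertex rings -/
def Cfg.ph (k : Cfg) (l : L1) : Fin 3 := if k.cls l = 3 then 0 else if k.cls l = 2 then 1 else 2

/-- information passed down to a message, and the early part of the information passed up -/
abbrev Dn := Fin 4 × Bool × Option (Fin 4)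

/-- information passed up: early part and value -/
abbrev Up := Dn × Fin 4

/-- the two-bit part of a message -/
structure M1 where
  e : Fin 4 → Dn
  x : Dn → Fin 4

/-- what is read from a message when `d` is passed down -/
def M1.up (m : M1) (d : Dn) : Up := (m.e d.1, m.x d)

/-- the constant message -/
def cst (u : Up) : M1 := ⟨fun _ => u.1, fun _ => u.2⟩

def desOf (lam : Fin 4) (c o : Bool) (W : M1) : Bool :=
  decide ((W.e 0).1 = lam) && (xor (xor c (W.e 0).2.1) o)

/-- designation of the partner -/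
def dW (lam : Fin 4) (des : Bool) (W : M1) : Bool := decide ((W.e 0).1 = lam) && !des

def vote (lam : Fin 4) (des : Bool) (W : M1) : Option (Fin 4) :=
  if rk (W.e 0).1 (dW lam des W) < rk lam des then some (fl (W.x (0, dW lam des W, none))) else none

def nxOf (lam : Fin 4) (des : Bool) (S : M1) : Bool × Option (Fin 4) :=
  if rk (S.e lam).1 (S.e lam).2.1 < rk lam des then (true, some (fl (S.x (lam, false, none))))
  else if rk (S.e lam).1 (S.e lam).2.1 = rk lam des then (false, (S.e lam).2.2.map fl)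
  else (false, none)

def dP0 (lam : Fin 4) (des : Bool) (b : Option (Fin 4)) (P : M1) : Dn :=
  (0, false, if rk (P.e 0).1 (P.e 0).2.1 = rk lam des then b.map fl else none)

def leftOf (lam : Fin 4) (des : Bool) (b : Option (Fin 4)) (P : M1) : Option (Fin 4) :=
  if rk (P.e 0).1 (P.e 0).2.1 ≤ rk lam des then some (fl (P.x (dP0 lam des b P))) else none

/-- the directions of the two children of a message sent in direction `δ` -/
def ch : Dir → Bool → Dir
  | .R, false => .L
  | .R, true => .M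
  | .L, false => .R
  | .L, true => .M
  | .M, false => .L
  | .M, true => .R

/-- the configuration of the sender of a message in direction `δ` -/
def cfg (δ : Dir) (l : L1) (o : Bool) (d : Dn) (m1 m2 : M1) : Cfg :=
  match δ with
  | .R =>
    let lam := l.1.getD (m1.e 0).1
    let des := desOf lam l.2.1 o m2
    let a := vote lam des m2
    ⟨lam, des, a, d.2.1, d.2.2, leftOf lam des (a.or d.2.2) m1⟩
  | .L =>
    let lam := l.1.getD d.1
    let des := desOf lam l.2.1 o m2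
    ⟨lam, des, vote lam des m2, (nxOf lam des m1).1, (nxOf lam des m1).2, d.2.2⟩
  | .M =>
    let lam := l.1.getD (m1.e 0).1
    ⟨lam, d.2.1, d.2.2, (nxOf lam d.2.1 m2).1, (nxOf lam d.2.1 m2).2,
      leftOf lam d.2.1 (d.2.2.or (nxOf lam d.2.1 m2).2) m1⟩

/-- what a vertex with configuration `k` and value `x` passes down to its neighbour in
direction `c`, whose message is `m` -/
def dnTo (c : Dir) (k : Cfg) (x : Fin 4) (m : M1) : Dn :=
  match c with
  | .L => if k.rk < rk (m.e 0).1 (m.e 0).2.1 then (0, true, some (fl x)) else dP0 k.lam k.des k.b m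
  | .R => (k.lam, false, if k.rk ≤ rk (m.e k.lam).1 (m.e k.lam).2.1 then some (fl x) else none)
  | .M => (0, dW k.lam k.des m,
      if k.rk < rk (m.e 0).1 (dW k.lam k.des m) then some (fl x) else none)

/-- the edge to the neighbour in direction `c` is rigid -/
def epsTo (c : Dir) (k : Cfg) (x : Fin 4) (m : M1) : Bool := decide (x ≠ fl (m.x (dnTo c k x m)))

/-- the early information sent in direction `δ` -/
def eOut (δ : Dir) (k : Cfg) (c : Bool) : Dn :=
  match δ with
  | .R => (k.lam, k.des, none)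
  | .L => (k.lam, k.des, k.b)
  | .M => (k.lam, c, none)

/-- the two-bit part of the outgoing message -/
def out1 (δ : Dir) (l : L1) (o : Bool) (m1 m2 : M1) : M1 :=
  ⟨fun lp => eOut δ (cfg δ l o (lp, false, none) m1 m2) l.2.1, fun d => (cfg δ l o d m1 m2).x l⟩

/-- what is passed down to child `j` -/
def dnC (δ : Dir) (l : L1) (o : Bool) (d : Dn) (m1 m2 : M1) (j : Bool) : Dn :=
  dnTo (ch δ j) (cfg δ l o d m1 m2) ((cfg δ l o d m1 m2).x l) (if j then m2 else m1)

/-- rigidity of the edge to child `j` -/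
def epC (δ : Dir) (l : L1) (o : Bool) (d : Dn) (m1 m2 : M1) (j : Bool) : Bool :=
  epsTo (ch δ j) (cfg δ l o d m1 m2) ((cfg δ l o d m1 m2).x l) (if j then m2 else m1)

/-- the phase of a disagreement between two readings -/
def phs (δ : Dir) (d : Dn) (u u' : Up) : ℕ :=
  match δ with
  | .R => if u.1.1 ≠ u'.1.1 then 0 else if u.1.2.1 ≠ u'.1.2.1 then 2 else 3 + 2 * rk u.1.1 u.1.2.1
  | .L => if u.1.1 ≠ u'.1.1 ∨ u.1.2.1 ≠ u'.1.2.1 then 2
      else if u.1.2.2 ≠ u'.1.2.2 then 3 + 2 * rk u.1.1 u.1.2.1 else 4 + 2 * rk u.1.1 u.1.2.1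
  | .M => if u.1.1 ≠ u'.1.1 ∨ u.1.2.1 ≠ u'.1.2.1 then 1 else 4 + 2 * rk u.1.1 d.2.1

/-! ### messages -/

/-- random data at height zero -/
abbrev Bd := Dir → (Fin 4 → Dn) × (Dn → Dn → Fin 4)

instance fintypeBd : Fintype Bd :=
  have : Fintype (Dn → Fin 4) := inferInstance
  have : Fintype (Dn → Dn → Fin 4) := Pi.instFintype
  have : Fintype (Fin 4 → Dn) := inferInstance
  have : Fintype ((Fin 4 → Dn) × (Dn → Dn → Fin 4)) := instFintypeProd _ _
  Pi.instFintype

/-- the label of a vertex: first stage, clocks, own order, data at height zero -/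
abbrev Lab (K : ℕ) := L1 × (Fin 3 → Fin K) × Fin 16 × Bd

instance fintypeLab (K : ℕ) : Fintype (Lab K) :=
  have : Fintype (Fin 16 × Bd) := instFintypeProd _ _
  have : Fintype ((Fin 3 → Fin K) × Fin 16 × Bd) := instFintypeProd _ _
  instFintypeProd _ _

/-- law of the first component -/
def p1 (l : L1) : ℝ := (match l.1 with | none => 127 / 128 | some _ => 1 / 512) * (1 / 16)

/-- law of the label -/
def pL {K : ℕ} (pk : Fin 3 → Fin K → ℝ) (pb : Bd → ℝ) (l : Lab K) : ℝ :=
  p1 l.1 * (∏ i, pk i (l.2.1 i)) * (1 / 16) * pb l.2.2.2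

/-- the two-bit message at height zero -/
def bd1 (β : Bd) (δ : Dir) : M1 := ⟨(β δ).1, fun d => (β δ).2 d ((β δ).1 d.1)⟩

/-- a message -/
abbrev Msg := M1 × (Dn → Fin 16 → Sc)

/-- the outgoing message; `θ` turns a window into a time -/
def out {K : ℕ} (δ : Dir) (l : Lab K) (o : Bool) (θ : Fin K → ℕ) (m1 m2 : Msg) : Msg :=
  (out1 δ l.1 o m1.1 m2.1, fun d =>
    comb l.2.2.1 (θ (l.2.1 ((cfg δ l.1 o d m1.1 m2.1).ph l.1)))
      (Tm (epC δ l.1 o d m1.1 m2.1 false) (m1.2 (dnC δ l.1 o d m1.1 m2.1 false)))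
      (Tm (epC δ l.1 o d m1.1 m2.1 true) (m2.2 (dnC δ l.1 o d m1.1 m2.1 true))))

/-- orientation of the matching edges and numbering of the vertices -/
structure Env {V : Type} (G : Sch V) where
  o : V → Bool
  om : ∀ v, o (G.m v) = !o v
  N : ℕ
  id : V → ℕ
  lt : ∀ v, id v < N
  inj : Function.Injective id

variable {V : Type} {G : Sch V} {K : ℕ}

/-- the time of the pin of `v` at height `h`; late windows are ignored at small heights -/
def Env.tm (E : Env G) (K h : ℕ) (v : V) (a : Fin K) : ℕ :=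
  (if a.val < h then a.val else K) * E.N + E.id v

/-- the message of height `h` from `v` in direction `δ` -/
def msg (E : Env G) (ω : V → Lab K) : ℕ → V → Dir → Msg
  | 0, v, δ => (bd1 (ω v).2.2.2 δ,
      fun _ => comb (ω v).2.2.1 (K * E.N + E.id v) (fun _ => ⊤) (fun _ => ⊤))
  | h + 1, v, δ => out δ (ω v) (E.o v) (E.tm K (h + 1) v)
      (msg E ω h (G.step v (ch δ false)) (ch δ false).rev)
      (msg E ω h (G.step v (ch δ true)) (ch δ true).rev)

/-! ### the link with the abstract system -/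

variable {S M X Y : Type} [Fintype S] [Fintype M] [Fintype X] [Fintype Y]
  [DecidableEq S] [DecidableEq M]

/-- the concrete types `(δ, d, u)` are multiples `gm` of the abstract types `ab` -/
structure Lump (P : Sys S M X Y) (m0 : S → ℝ) (ab : Dir → Dn → Up → S)
    (gm : Dir → Dn → Up → ℝ) : Prop where
  g0 : ∀ δ d u, 0 ≤ gm δ d u
  g1 : ∀ δ d u, gm δ d u ≤ 1
  gmin : ∀ δ d u, gm δ d u ≠ 0 → 1 / 2048 ≤ gm δ d u
  tot : ∀ δ d, ∑ u, gm δ d u * m0 (ab δ d u) = 1
  early : ∀ δ (d d' : Dn) (e : Dn), d.1 = d'.1 →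
    ∑ x, gm δ d (e, x) * m0 (ab δ d (e, x)) = ∑ x, gm δ d' (e, x) * m0 (ab δ d' (e, x))
  id : ∀ (δ : Dir) (o : Bool) (d : Dn) (u : Up) (B : S → Bool → S → Bool → Fin 3 → ℝ),
    ∑ l : L1, p1 l * ∑ u1 : Up, ∑ u2 : Up,
      (if (out1 δ l o (cst u1) (cst u2)).up d = u then
        gm (ch δ false).rev (dnC δ l o d (cst u1) (cst u2) false) u1 *
        gm (ch δ true).rev (dnC δ l o d (cst u1) (cst u2) true) u2 *
        B (ab (ch δ false).rev (dnC δ l o d (cst u1) (cst u2) false) u1)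
          (epC δ l o d (cst u1) (cst u2) false)
          (ab (ch δ true).rev (dnC δ l o d (cst u1) (cst u2) true) u2)
          (epC δ l o d (cst u1) (cst u2) true) ((cfg δ l o d (cst u1) (cst u2)).ph l)
      else 0) =
    gm δ d u * ∑ y, if P.ys y = ab δ d u then P.yw y *
      ∑ x1, ∑ x2, (if P.xm x1 = P.ya y ∧ P.xm x2 = P.yb y then
        P.xw x1 * P.xw x2 * B (P.xs x1) (P.xe x1) (P.xs x2) (P.xe x2) (P.yi y) else 0) else 0

/-- the law of the data at height zero is stationary -/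
def BdOk (m0 : S → ℝ) (ab : Dir → Dn → Up → S) (gm : Dir → Dn → Up → ℝ) (pb : Bd → ℝ) : Prop :=
  IsP pb ∧ ∀ δ d u, ∑ β, (if (bd1 β δ).up d = u then pb β else 0) = gm δ d u * m0 (ab δ d u)

end

end Pool.Agent.MP_7c51ae_co

/-!
Covers of events by local events, and the events that describe how a disagreement travels.
-/

set_option autoImplicit false

namespace Pool.Agent.MP_7c51ae_co

open Finset Pool.Agent.MP_d802e4_co

noncomputable section

/-- words of the tree of height `n` behind a message sent in direction `δ` -/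
def InT (δ : Dir) (n : ℕ) (w : List Dir) : Prop := Red w ∧ w.length ≤ n ∧ w.head? ≠ some δ

/-- the word of a path of children -/
def wd : Dir → List Bool → List Dir
  | _, [] => []
  | δ, j :: js => ch δ j :: wd (ch δ j).rev js

/-- the direction of the message at the end of a path of children -/
def ex : Dir → List Bool → Dir
  | δ, [] => δ
  | δ, j :: js => ex (ch δ j).rev js

variable {V : Type} [Fintype V] [DecidableEq V]

/-- the events `B v` are covered by local events of the same shapes for all `v`, at cost `x` -/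
def Cov {Λ : Type} [Fintype Λ] (G : Sch V) (p : Λ → ℝ) (lam : ℝ) (n : ℕ) (δ : Dir)
    (B : V → (V → Λ) → Prop) (x : ℝ) : Prop :=
  ∃ (ι : Type) (I : Finset ι) (S : ι → Finset (List Dir)) (q : ι → ℝ)
    (E : ι → V → (V → Λ) → Prop),
    (∀ i ∈ I, ∀ w ∈ S i, InT δ n w) ∧
    (∀ i ∈ I, ∀ v, Dep (G.walk v '' (S i : Set (List Dir))) (E i v)) ∧
    (∀ i ∈ I, ∀ v, Pr p (E i v) ≤ q i) ∧ (∀ i ∈ I, 0 ≤ q i) ∧
    (∀ v ω, 0 < wt p ω → B v ω → ∃ i ∈ I, E i v ω) ∧
    ∑ i ∈ I, q i * lam ^ (S i).card ≤ x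

variable {G : Sch V} {K : ℕ}

/-- the message of height `h` of child `j` -/
def kid (E : Env G) (ω : V → Lab K) (h : ℕ) (v : V) (δ : Dir) (j : Bool) : Msg :=
  msg E ω h (G.step v (ch δ j)) (ch δ j).rev

/-- a disagreement of phase `i` in the first two bits -/
def NeS1 (E : Env G) (h h' i : ℕ) (δ : Dir) (v : V) (ω : V → Lab K) : Prop :=
  ∃ d, (msg E ω h v δ).1.up d ≠ (msg E ω h' v δ).1.up d ∧
    phs δ d ((msg E ω h v δ).1.up d) ((msg E ω h' v δ).1.up d) = i

/-- a disagreement of the scores before the end of window `t` -/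
def Dis (E : Env G) (h h' t : ℕ) (δ : Dir) (v : V) (ω : V → Lab K) : Prop :=
  ∃ d θ, θ < (t + 1) * E.N ∧ ¬ Agr θ ((msg E ω h v δ).2 d) ((msg E ω h' v δ).2 d)

/-- a disagreement up to a time in window `t` at which the first copy loses a value -/
def Chn (E : Env G) (h h' t : ℕ) (δ : Dir) (v : V) (ω : V → Lab K) : Prop :=
  ∃ d θ, t * E.N ≤ θ ∧ θ < (t + 1) * E.N ∧
    ¬ Agr θ ((msg E ω h v δ).2 d) ((msg E ω h' v δ).2 d) ∧ Rem θ ((msg E ω h v δ).2 d)

/-- a list of the message of height `h` changes in window `t` -/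
def Win (E : Env G) (h t : ℕ) (δ : Dir) (v : V) (ω : V → Lab K) : Prop :=
  ∃ d, Ls (t * E.N) ((msg E ω h v δ).2 d) ≠ Ls ((t + 1) * E.N) ((msg E ω h v δ).2 d)

/-- two heights give different messages -/
def NeM (E : Env G) (h h' : ℕ) (δ : Dir) (v : V) (ω : V → Lab K) : Prop :=
  msg E ω h v δ ≠ msg E ω h' v δ

/-- the end of a run; the children have heights `h` and `h'` -/
def Brk (E : Env G) (R h h' t : ℕ) (δ : Dir) (v : V) (ω : V → Lab K) : Prop :=
  ∃ j : Bool, (∃ i, i ≤ 18 ∧ NeS1 E h h' i (ch δ j).rev (G.step v (ch δ j)) ω) ∨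
    (Dis E h h' t (ch δ j).rev (G.step v (ch δ j)) ω ∧
      ((∃ i, ((ω v).2.1 i).val = t) ∨
        Win E (min h R) t (ch δ (!j)).rev (G.step v (ch δ (!j))) ω ∨
        NeM E h (min h R) (ch δ (!j)).rev (G.step v (ch δ (!j))) ω))

/-- weights on types and model scores -/
abbrev Wt := Dn → Up → (Fin 16 → Sc) → ℝ

/-- the weights pulled back to child `j`; the sibling sends `sb`, whose lists are read at time `θ` -/
def lift (δ : Dir) (l : Lab K) (o : Bool) (t θ : ℕ) (j : Bool) (sb : Msg) (g : Wt) : Wt :=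
  fun dc uc a => ∑ d : Dn, ∑ us : Up,
    if dnC δ l.1 o d (cst (if j then us else uc)) (cst (if j then uc else us)) j = dc ∧
        sb.1.up (dnC δ l.1 o d (cst (if j then us else uc)) (cst (if j then uc else us)) (!j)) = us ∧
        t ≤ (l.2.1 ((cfg δ l.1 o d (cst (if j then us else uc))
          (cst (if j then uc else us))).ph l.1)).val then
      g d ((out1 δ l.1 o (cst (if j then us else uc)) (cst (if j then uc else us))).up d)
        (comb l.2.2.1 2
          (Tm (epC δ l.1 o d (cst (if j then us else uc)) (cst (if j then uc else us)) j) a)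
          (Tm (epC δ l.1 o d (cst (if j then us else uc)) (cst (if j then uc else us)) (!j))
            (embS (Ls θ (sb.2
              (dnC δ l.1 o d (cst (if j then us else uc)) (cst (if j then uc else us)) (!j)))))))
    else 0

/-- the weights pulled back along a path; the root has height `h` -/
def RV (E : Env G) (ω : V → Lab K) (R t : ℕ) : List Bool → ℕ → V → Dir → Wt → Wt
  | [], _, _, _, g => g
  | j :: js, h, v, δ, g => RV E ω R t js (h - 1) (G.step v (ch δ j)) (ch δ j).rev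
      (lift δ (ω v) (E.o v) t (t * E.N) j (kid E ω (min (h - 1) R) v δ (!j)) g)

/-- the number of values lost at time one -/
def g0 : Wt := fun _ _ a => ((Ls 1 a).card : ℝ) - ((Ls 2 a).card : ℝ)

/-- a loss of values can travel up along the path `js` in window `t` -/
def Run (E : Env G) (gm : Dir → Dn → Up → ℝ) (R t h : ℕ) (js : List Bool) (δ : Dir) (v : V)
    (ω : V → Lab K) : Prop :=
  ∃ (d : Dn) (u : Up) (r : Fin 16 → Fin 18), gm (ex δ js) d u ≠ 0 ∧ (Ls 2 (emb r)).Nonempty ∧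
    1 ≤ RV E ω R t js h v δ g0 d u (emb r)

/-- the potentials of the concrete types, added up over each abstract type -/
def Agg {S : Type} [DecidableEq S] (ab : Dir → Dn → Up → S) (gm : Dir → Dn → Up → ℝ) (δ : Dir)
    (f : Dn → Up → St → ℝ) (s : S) (C : St) : ℝ :=
  ∑ d, ∑ u, if ab δ d u = s then gm δ d u * f d u C else 0

/-- the inequalities between the parameters of the witness count -/
structure Par (ρ C1 : ℝ) (K D : ℕ) (a lam Γ ρ2 ρ3 A : ℝ) : Prop where
  r0 : 0 ≤ ρ
  c0 : 0 ≤ C1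
  a0 : 0 ≤ a
  l1 : 1 ≤ lam
  l2 : lam ^ 2 ^ (K + D + 2) ≤ 2
  r2 : ρ * lam ^ 2 ^ (K + D + 2) ≤ ρ2
  r3 : ρ2 < ρ3
  g1 : 1 < Γ
  s1 : lam * (509 / 512) + 2 * lam / (Γ - 1) ≤ ρ3
  hA : 2 * C1 * (1 + 76 * Γ ^ 18 / (ρ3 - ρ2)) ≤ A
  he : 32 * C1 * (12803 * a + (19 * Γ ^ 18 + 2 * A * 2 ^ K) * ρ3 ^ D) ≤ ρ3 - ρ2

end

end Pool.Agent.MP_7c51ae_co

/-!
The abstract type and the factor of each concrete type.
-/

set_option autoImplicit false

namespace Pool.Agent.MP_7c51ae_co

/-- code of a wish -/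
def oc : Option (Fin 4) → ℕ
  | none => 0
  | some a => a.val + 1

/-- the table entry of a concrete type -/
def ent : Dir → Dn → Up → ℕ
  | .R, d, u => if u.1.2.2 = none then
      (tabR.getD (if d.2.2 = none then 0 else 4 * d.2.1.toNat + oc d.2.2) []).getD
        (4 * rk u.1.1 u.1.2.1 + u.2.val) 0 else 0
  | .L, d, u => (tabL.getD (5 * d.1.val + oc d.2.2) []).getD
      (4 * (5 * rk u.1.1 u.1.2.1 + oc u.1.2.2) + u.2.val) 0
  | .M, d, u => if u.1.2.2 = none then
      (tabM.getD (5 * d.2.1.toNat + oc d.2.2) []).getD (4 * rk u.1.1 u.1.2.1 + u.2.val) 0 else 0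

/-- the abstract type -/
def ab0 (δ : Dir) (d : Dn) (u : Up) : Fin 100 := Fin.ofNat 100 (ent δ d u / 4096)

/-- the factor -/
noncomputable def gm0 (δ : Dir) (d : Dn) (u : Up) : ℝ := ((ent δ d u % 4096 : ℕ) : ℝ) / 2048

end Pool.Agent.MP_7c51ae_co

/-!
Lists in the cube: translations and the list seen across an edge.
-/

set_option autoImplicit false

namespace Pool.Agent.MP_7c51ae_co

open Finset Pool.Agent.MP_d802e4_co

noncomputable section

theorem xr_xr (t y : Fin 16) : xr t (xr t y) = y := by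
  apply Fin.ext
  simp [xr]

theorem xr_comm (t y : Fin 16) : xr t y = xr y t := by
  apply Fin.ext
  simp [xr, Nat.xor_comm]

theorem xr_self (t : Fin 16) : xr t t = 0 := by
  apply Fin.ext
  simp [xr]

theorem xr_inj (t : Fin 16) : Function.Injective (xr t) := fun a b h => by
  rw [← xr_xr t a, h, xr_xr]

theorem mem_T (e : Bool) (A : St) (x : Fin 16) : x ∈ T e A ↔ ∃ y ∈ A, rel e x y = true := by
  simp [T]

theorem rel_symm (e : Bool) (x y : Fin 16) : rel e x y = rel e y x := by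
  unfold rel
  rw [Nat.xor_comm x.val y.val]

theorem rel_xr (e : Bool) (s x y : Fin 16) : rel e (xr x s) (xr y s) = rel e x y := by
  have : (xr x s).val ^^^ (xr y s).val = x.val ^^^ y.val := by
    simp only [xr]
    rw [Nat.xor_comm y.val s.val, Nat.xor_assoc, ← Nat.xor_assoc s.val, Nat.xor_self, Nat.zero_xor]
  unfold rel
  rw [this]

theorem rel_opp (e : Bool) (y : Fin 16) : rel e (xr y 15) y = true := by
  revert e y
  decide

theorem T_mono (e : Bool) {A C : St} (h : A ⊆ C) : T e A ⊆ T e C := by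
  intro x hx
  obtain ⟨y, hy, hr⟩ := (mem_T e A x).1 hx
  exact (mem_T e C x).2 ⟨y, h hy, hr⟩

theorem T_nonempty (e : Bool) {A : St} (h : A.Nonempty) : (T e A).Nonempty := by
  obtain ⟨y, hy⟩ := h
  exact ⟨xr y 15, (mem_T e A _).2 ⟨y, hy, rel_opp e y⟩⟩

theorem T_empty (e : Bool) : T e ∅ = ∅ := by
  simp [T]

theorem T_univ (e : Bool) : T e univ = univ := by
  refine eq_univ_of_forall fun x => (mem_T e _ x).2 ⟨xr x 15, mem_univ _, ?_⟩
  rw [rel_symm]
  exact rel_opp e x

theorem mem_tr (t y : Fin 16) (A : St) : y ∈ tr t A ↔ xr t y ∈ A := by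
  unfold tr
  rw [mem_image]
  constructor
  · rintro ⟨z, hz, rfl⟩
    rwa [xr_xr]
  · exact fun h => ⟨_, h, xr_xr t y⟩

theorem T_tr (e : Bool) (t : Fin 16) (A : St) : T e (tr t A) = tr t (T e A) := by
  ext x
  rw [mem_tr, mem_T, mem_T]
  constructor
  · rintro ⟨y, hy, hr⟩
    refine ⟨xr t y, (mem_tr t y A).1 hy, ?_⟩
    rw [xr_comm t x, xr_comm t y, rel_xr, hr]
  · rintro ⟨y, hy, hr⟩
    refine ⟨xr t y, (mem_tr t _ A).2 (by rwa [xr_xr]), ?_⟩
    rw [← rel_xr e t, xr_comm x t, xr_comm (xr t y) t, xr_xr, hr]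

theorem tr_tr (t : Fin 16) (A : St) : tr t (tr t A) = A := by
  ext y
  rw [mem_tr, mem_tr, xr_xr]

theorem tr_inter (t : Fin 16) (A B : St) : tr t (A ∩ B) = tr t A ∩ tr t B := by
  ext y
  simp only [mem_tr, mem_inter]

theorem tr_card (t : Fin 16) (A : St) : (tr t A).card = A.card :=
  card_image_of_injective A (xr_inj t)

theorem tr_univ (t : Fin 16) : tr t univ = univ :=
  eq_univ_of_forall fun y => (mem_tr t y _).2 (mem_univ _)

theorem tr_single (t y : Fin 16) : tr t {y} = {xr t y} := by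
  simp [tr]

theorem tr_empty (t : Fin 16) : tr t ∅ = ∅ := by
  simp [tr]

theorem tr_inj (t : Fin 16) : Function.Injective (tr t) := fun A B h => by
  rw [← tr_tr t A, h, tr_tr]

theorem tr_eq_iff (t : Fin 16) (A B : St) : tr t A = tr t B ↔ A = B := (tr_inj t).eq_iff

theorem tr_eq_empty (t : Fin 16) (A : St) : tr t A = ∅ ↔ A = ∅ := by
  simp [tr]

theorem tr_eq_univ (t : Fin 16) (A : St) : tr t A = univ ↔ A = univ := by
  rw [← tr_eq_iff t A univ, tr_univ]

theorem InvT.single {f : St → ℝ} (h : InvT f) (y : Fin 16) : f {y} = f {0} := by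
  rw [← h y {y}, tr_single, xr_self]

theorem InvT.tl {f : St → ℝ} (h : InvT f) : InvT (tl f) := by
  intro t A
  unfold MP_7c51ae_co.tl
  simp only [tr_eq_empty]
  rw [h t A]

theorem sum_tr (t : Fin 16) (f : St → ℝ) : ∑ A, f (tr t A) = ∑ A, f A :=
  Equiv.sum_comp (Function.Involutive.toPerm (tr t) (tr_tr t)) f

theorem sum_un {f : St → ℝ} (h : InvT f) : ∑ D, un D * f D = f {0} := by
  have h1 : ∑ D, un D * f D = ∑ D ∈ powersetCard 1 (univ : St), 1 / 16 * f {0} := by
    rw [← sum_subset (subset_univ (powersetCard 1 (univ : St)))]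
    · refine sum_congr rfl fun D hD => ?_
      have hc := (mem_powersetCard.1 hD).2
      obtain ⟨y, rfl⟩ := card_eq_one.1 hc
      rw [h.single y]
      simp [un]
    · intro D _ hD
      have : D.card ≠ 1 := fun hc => hD (mem_powersetCard.2 ⟨subset_univ _, hc⟩)
      simp [un, this]
  rw [h1, sum_const, card_powersetCard]
  simp

theorem sum_kr {f : St → ℝ} (h : InvT f) (E : St) : ∑ D, kr E D * f D = tl f E := by
  unfold kr tl
  by_cases hE : E = ∅
  · simp only [hE, if_true]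
    exact sum_un h
  · simp [hE]

end

end Pool.Agent.MP_7c51ae_co

/-!
The abstract system: duality, invariance, laws, paths and Lipschitz bounds.
-/

set_option autoImplicit false

namespace Pool.Agent.MP_7c51ae_co

open Finset Pool.Agent.MP_d802e4_co

noncomputable section

theorem un_nonneg (D : St) : 0 ≤ un D := by
  unfold un
  split_ifs <;> norm_num

theorem kr_nonneg (E D : St) : 0 ≤ kr E D := by
  unfold kr
  split_ifs
  · exact un_nonneg D
  · norm_num
  · norm_num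

theorem un_tr (t : Fin 16) (D : St) : un (tr t D) = un D := by
  unfold un
  rw [tr_card]

theorem kr_tr (t : Fin 16) (E D : St) : kr (tr t E) (tr t D) = kr E D := by
  unfold kr
  simp only [tr_eq_empty, tr_eq_iff, un_tr]

theorem un_empty : un ∅ = 0 := by
  simp [un]

theorem kr_empty (E : St) : kr E ∅ = 0 := by
  unfold kr
  split_ifs
  · exact un_empty
  · rfl

theorem tl_one (D : St) : tl (fun _ => (1 : ℝ)) D = 1 := by
  unfold tl
  split_ifs <;> rfl

theorem tl_add (f g : St → ℝ) (D : St) : tl (fun C => f C + g C) D = tl f D + tl g D := by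
  unfold tl
  split_ifs <;> rfl

theorem tl_smul (a : ℝ) (f : St → ℝ) (D : St) : tl (fun C => a * f C) D = a * tl f D := by
  unfold tl
  split_ifs <;> rfl

theorem Lip.chain {I : Type} {chi g : I → St → ℝ} {a : ℝ} (h : Lip chi a g) (m : I) {A C : St}
    (hA : A.Nonempty) (hC : A ⊆ C) : |g m C - g m A| ≤ a * (chi m C - chi m A) := by
  have key : ∀ D : St, |g m (A ∪ D) - g m A| ≤ a * (chi m (A ∪ D) - chi m A) := by
    intro D
    induction D using Finset.induction_on with
    | empty => simp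
    | insert y D _ ih =>
      rw [union_insert]
      by_cases hy : y ∈ A ∪ D
      · rwa [insert_eq_of_mem hy]
      · have h1 := h m (A ∪ D) y (hA.mono subset_union_left) hy
        have h2 := abs_sub_le (g m (insert y (A ∪ D))) (g m (A ∪ D)) (g m A)
        linarith
  have := key C
  rwa [union_eq_right.2 hC] at this

theorem Inc.lip {I : Type} {chi : I → St → ℝ} {k : I → ℝ} (h : Inc chi k) (hk : ∀ m, 0 ≤ k m) :
    Lip chi 1 fun _ _ => 0 := by
  intro m A y hA hy
  have := h m A y hA hy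
  have := hk m
  simp only [sub_self, abs_zero]
  linarith

theorem Inc.mono {I : Type} {chi : I → St → ℝ} {k : I → ℝ} (h : Inc chi k) (hk : ∀ m, 0 ≤ k m)
    (m : I) {A C : St} (hA : A.Nonempty) (hC : A ⊆ C) : chi m A ≤ chi m C := by
  have := (h.lip hk).chain m hA hC
  simp only [sub_self, abs_zero] at this
  linarith

theorem Lip.tl {I : Type} {φ f : I → St → ℝ} {a : ℝ} (h : Lip φ a f) {s : I} (hφ : InvT (φ s))
    (hf : InvT (f s)) {A C : St} (hC : A ⊆ C) :
    |tl (f s) C - tl (f s) A| ≤ a * (tl (φ s) C - tl (φ s) A) := by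
  unfold MP_7c51ae_co.tl
  by_cases h1 : C = ∅
  · have h2 : A = ∅ := subset_empty.1 (h1 ▸ hC)
    simp [h1, h2]
  · rw [if_neg h1, if_neg h1]
    by_cases h2 : A = ∅
    · obtain ⟨y, hy⟩ := nonempty_iff_ne_empty.2 h1
      rw [if_pos h2, if_pos h2, ← hφ.single y, ← hf.single y]
      exact h.chain s (singleton_nonempty y) (singleton_subset_iff.2 hy)
    · rw [if_neg h2, if_neg h2]
      exact h.chain s (nonempty_iff_ne_empty.2 h2) hC

section abs
variable {S M X Y : Type} [Fintype S] [Fintype M] [Fintype X] [Fintype Y]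
  [DecidableEq S] [DecidableEq M] {P : Sys S M X Y} {m0 : S → ℝ}

set_option linter.unusedSectionVars false

theorem Sys.Z_sum (N : S → St → ℝ) (m : M) (f : St → ℝ) :
    ∑ A, P.Z N m A * f A =
      ∑ x, if P.xm x = m then P.xw x * ∑ B, N (P.xs x) B * f (T (P.xe x) B) else 0 := by
  unfold Sys.Z
  simp only [sum_mul]
  rw [sum_comm]
  refine sum_congr rfl fun x _ => ?_
  split_ifs
  · simp only [mul_assoc, ← mul_sum, sum_mul]
    rw [sum_comm]
    congr 1
    refine sum_congr rfl fun B _ => ?_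
    simp
  · simp

theorem Sys.pair_Z (N : S → St → ℝ) (g : M → St → ℝ) :
    ∑ m, ∑ A, P.Z N m A * g m A = ∑ s, ∑ C, N s C * P.Up g s C := by
  simp only [Sys.Z_sum]
  rw [sum_comm]
  have h : ∀ s, ∑ C, N s C * P.Up g s C =
      ∑ x, if P.xs x = s then P.xw x * ∑ C, N s C * g (P.xm x) (T (P.xe x) C) else 0 := by
    intro s
    unfold Sys.Up
    simp only [mul_sum]
    rw [sum_comm]
    refine sum_congr rfl fun x _ => ?_
    split_ifs
    · exact sum_congr rfl fun C _ => by ring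
    · simp
  simp only [h]
  rw [sum_comm (s := (univ : Finset S))]
  refine sum_congr rfl fun x _ => ?_
  simp only [sum_ite_eq, mem_univ, ↓ reduceIte]

theorem Sys.Phi_sum (q : Fin 3 → ℝ) (Z : M → St → ℝ) (s : S) {f : St → ℝ} (hf : InvT f) :
    ∑ D, P.Phi q Z s D * f D = ∑ y, if P.ys y = s then P.yw y *
      ((1 - q (P.yi y)) * (∑ A, ∑ B, Z (P.ya y) A * Z (P.yb y) B * tl f (A ∩ B)) +
        q (P.yi y) * (ms (Z (P.ya y)) * ms (Z (P.yb y)) * f {0})) else 0 := by
  unfold Sys.Phi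
  simp only [sum_mul]
  rw [sum_comm]
  refine sum_congr rfl fun y _ => ?_
  split_ifs
  · have h1 : ∑ D, (∑ A, ∑ B, Z (P.ya y) A * Z (P.yb y) B * kr (A ∩ B) D) * f D =
        ∑ A, ∑ B, Z (P.ya y) A * Z (P.yb y) B * tl f (A ∩ B) := by
      simp only [sum_mul]
      rw [sum_comm]
      refine sum_congr rfl fun A _ => ?_
      rw [sum_comm]
      refine sum_congr rfl fun B _ => ?_
      rw [← sum_kr hf, mul_sum]
      exact sum_congr rfl fun D _ => by ring
    rw [← h1, ← sum_un hf, mul_sum, mul_sum, mul_sum, ← sum_add_distrib, mul_sum]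
    exact sum_congr rfl fun D _ => by ring
  · simp

theorem Sys.Z_inv {N : S → St → ℝ} (h : ∀ s, InvT (N s)) (m : M) : InvT (P.Z N m) := by
  intro t A
  unfold Sys.Z
  refine sum_congr rfl fun x _ => ?_
  rw [← sum_tr t fun B => if T (P.xe x) B = tr t A then N (P.xs x) B else 0]
  simp only [T_tr, tr_eq_iff, h (P.xs x) t]

theorem Sys.Phi_inv (q : Fin 3 → ℝ) {Z : M → St → ℝ} (h : ∀ m, InvT (Z m)) (s : S) :
    InvT (P.Phi q Z s) := by
  intro t D
  unfold Sys.Phi
  refine sum_congr rfl fun y _ => ?_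
  have h1 : ∑ A, ∑ B, Z (P.ya y) A * Z (P.yb y) B * kr (A ∩ B) (tr t D) =
      ∑ A, ∑ B, Z (P.ya y) A * Z (P.yb y) B * kr (A ∩ B) D := by
    rw [← sum_tr t fun A => ∑ B, Z (P.ya y) A * Z (P.yb y) B * kr (A ∩ B) (tr t D)]
    refine sum_congr rfl fun A _ => ?_
    rw [← sum_tr t fun B => Z (P.ya y) (tr t A) * Z (P.yb y) B * kr (tr t A ∩ B) (tr t D)]
    refine sum_congr rfl fun B _ => ?_
    rw [← tr_inter, kr_tr, h _ t, h _ t]
  rw [h1, un_tr]

theorem Sys.Up_inv {g : M → St → ℝ} (h : ∀ m, InvT (g m)) (s : S) : InvT (P.Up g s) := by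
  intro t C
  unfold Sys.Up
  refine sum_congr rfl fun x _ => ?_
  rw [T_tr, h _ t]

theorem Sys.PsiM_inv (q : Fin 3 → ℝ) {Z : M → St → ℝ} (hZ : ∀ m, InvT (Z m)) (j : Bool)
    {f : S → St → ℝ} (hf : ∀ s, InvT (f s)) (m : M) : InvT (P.PsiM q Z j f m) := by
  intro t A
  unfold Sys.PsiM
  refine sum_congr rfl fun y _ => ?_
  rw [← sum_tr t fun B => Z (if j then P.ya y else P.yb y) B * tl (f (P.ys y)) (tr t A ∩ B)]
  simp only [← tr_inter, hZ _ t, (hf (P.ys y)).tl t]

theorem Sys.nu_inv (Q : ℕ → Fin 3 → ℝ) (h t : ℕ) (s : S) : InvT (P.nu Q m0 h t s) := by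
  induction h generalizing s with
  | zero =>
    intro u D
    simp only [Sys.nu, tr_eq_univ]
  | succ h ih => exact Sys.Phi_inv _ (Sys.Z_inv ih) s

theorem Sys.Z_nonneg (hP : P.Ok m0) {N : S → St → ℝ} (hN : ∀ s D, 0 ≤ N s D) (m : M) (A : St) :
    0 ≤ P.Z N m A := by
  unfold Sys.Z
  refine sum_nonneg fun x _ => ?_
  split_ifs
  · refine mul_nonneg (hP.xw x) (sum_nonneg fun B _ => ?_)
    split_ifs
    · exact hN _ _
    · exact le_rfl
  · exact le_rfl

theorem Sys.Phi_nonneg (hP : P.Ok m0) {q : Fin 3 → ℝ} (hq : ∀ i, 0 ≤ q i ∧ q i ≤ 1)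
    {Z : M → St → ℝ} (hZ : ∀ m A, 0 ≤ Z m A) (s : S) (D : St) : 0 ≤ P.Phi q Z s D := by
  unfold Sys.Phi
  refine sum_nonneg fun y _ => ?_
  split_ifs
  · refine mul_nonneg (hP.yw y) (add_nonneg (mul_nonneg (sub_nonneg.2 (hq _).2) ?_)
      (mul_nonneg (hq _).1 (mul_nonneg (mul_nonneg ?_ ?_) (un_nonneg D))))
    · exact sum_nonneg fun A _ => sum_nonneg fun B _ =>
        mul_nonneg (mul_nonneg (hZ _ _) (hZ _ _)) (kr_nonneg _ _)
    · exact sum_nonneg fun A _ => hZ _ _
    · exact sum_nonneg fun A _ => hZ _ _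
  · exact le_rfl

theorem Sys.nu_nonneg (hP : P.Ok m0) {Q : ℕ → Fin 3 → ℝ} (hQ : ∀ t i, 0 ≤ Q t i ∧ Q t i ≤ 1)
    (h t : ℕ) (s : S) (D : St) : 0 ≤ P.nu Q m0 h t s D := by
  induction h generalizing s D with
  | zero =>
    simp only [Sys.nu]
    split_ifs
    · exact hP.mp s
    · exact le_rfl
  | succ h ih => exact Sys.Phi_nonneg hP (hQ _) (Sys.Z_nonneg hP ih) s D

theorem Sys.Z_ms {N : S → St → ℝ} (h : ∀ s, ms (N s) = m0 s) (m : M) :
    ms (P.Z N m) = P.z0 m0 m := by
  have := P.Z_sum N m fun _ => 1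
  simp only [mul_one] at this
  unfold ms Sys.z0
  rw [this]
  refine sum_congr rfl fun x _ => ?_
  rw [← h]
  rfl

theorem Sys.Phi_ms (q : Fin 3 → ℝ) (Z : M → St → ℝ) (s : S) : ms (P.Phi q Z s) =
    ∑ y, if P.ys y = s then P.yw y * (ms (Z (P.ya y)) * ms (Z (P.yb y))) else 0 := by
  have := P.Phi_sum q Z s (f := fun _ => 1) fun _ _ => rfl
  simp only [mul_one, tl_one] at this
  unfold ms at this ⊢
  rw [this]
  refine sum_congr rfl fun y _ => ?_
  rw [← sum_mul_sum]
  split_ifs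
  · ring
  · rfl

theorem Sys.nu_ms (hP : P.Ok m0) (Q : ℕ → Fin 3 → ℝ) (h t : ℕ) (s : S) :
    ms (P.nu Q m0 h t s) = m0 s := by
  induction h generalizing s with
  | zero => simp [Sys.nu, ms]
  | succ h ih =>
    simp only [Sys.nu]
    rw [Sys.Phi_ms, hP.st s]
    simp only [Sys.Z_ms ih]

theorem Qof_mem {K : ℕ} {pk : Fin 3 → Fin K → ℝ} (h : ∀ i, IsP (pk i)) (t : ℕ) (i : Fin 3) :
    0 ≤ Qof pk t i ∧ Qof pk t i ≤ 1 := by
  unfold Qof
  refine ⟨sum_nonneg fun a _ => ?_, ?_⟩
  · split_ifs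
    · exact (h i).nonneg a
    · exact le_rfl
  · rw [← (h i).sum]
    refine sum_le_sum fun a _ => ?_
    split_ifs
    · exact le_rfl
    · exact (h i).nonneg a

theorem Sys.Phi_empty (q : Fin 3 → ℝ) (Z : M → St → ℝ) (s : S) : P.Phi q Z s ∅ = 0 := by
  simp only [Phi, kr_empty, mul_zero, sum_const_zero, un_empty, add_zero, ite_self]

theorem Sys.nu_law (hP : P.Ok m0) {Q : ℕ → Fin 3 → ℝ} (hQ : ∀ t i, 0 ≤ Q t i ∧ Q t i ≤ 1)
    (h t : ℕ) : Law m0 (P.nu Q m0 h t) := by
  refine ⟨Sys.nu_nonneg hP hQ h t, Sys.nu_inv Q h t, fun s => ?_, Sys.nu_ms hP Q h t⟩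
  cases h with
  | zero =>
    simp only [Sys.nu]
    exact if_neg univ_nonempty.ne_empty.symm
  | succ h => exact Sys.Phi_empty _ _ s

theorem Sys.It_congr (q : Fin 3 → ℝ) {N N' : ℕ → S → St → ℝ} (f : S → St → ℝ) (k : ℕ)
    (h : ∀ i < k, N i = N' i) : P.It q N f k = P.It q N' f k := by
  induction k with
  | zero => rfl
  | succ k ih =>
    simp only [Sys.It]
    rw [ih fun i hi => h i (by omega), h k (by omega)]

theorem Sys.PsiM_add (q : Fin 3 → ℝ) (Z : M → St → ℝ) (j : Bool) (f g : S → St → ℝ) (m : M)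
    (A : St) : P.PsiM q Z j (fun s C => f s C + g s C) m A =
      P.PsiM q Z j f m A + P.PsiM q Z j g m A := by
  unfold Sys.PsiM
  rw [← sum_add_distrib]
  refine sum_congr rfl fun y _ => ?_
  simp only [tl_add, mul_add, sum_add_distrib]
  split_ifs <;> simp

theorem Sys.PsiM_smul (q : Fin 3 → ℝ) (Z : M → St → ℝ) (j : Bool) (a : ℝ) (f : S → St → ℝ) (m : M)
    (A : St) : P.PsiM q Z j (fun s C => a * f s C) m A = a * P.PsiM q Z j f m A := by
  unfold Sys.PsiM
  rw [mul_sum]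
  refine sum_congr rfl fun y _ => ?_
  simp only [tl_smul, mul_left_comm _ a, ← mul_sum]
  split_ifs <;> simp

theorem Sys.Up_add (f g : M → St → ℝ) (s : S) (C : St) :
    P.Up (fun m A => f m A + g m A) s C = P.Up f s C + P.Up g s C := by
  unfold Sys.Up
  rw [← sum_add_distrib]
  refine sum_congr rfl fun x _ => ?_
  split_ifs
  · ring
  · simp

theorem Sys.Up_smul (a : ℝ) (f : M → St → ℝ) (s : S) (C : St) :
    P.Up (fun m A => a * f m A) s C = a * P.Up f s C := by
  unfold Sys.Up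
  rw [mul_sum]
  refine sum_congr rfl fun x _ => ?_
  split_ifs
  · ring
  · simp

theorem Sys.PsiS_add (q : Fin 3 → ℝ) (N : S → St → ℝ) (j : Bool) (f g : S → St → ℝ) :
    P.PsiS q N j (fun s C => f s C + g s C) =
      fun s C => P.PsiS q N j f s C + P.PsiS q N j g s C := by
  funext s C
  unfold Sys.PsiS
  rw [← Sys.Up_add]
  congr 1
  funext m A
  exact Sys.PsiM_add ..

theorem Sys.PsiS_smul (q : Fin 3 → ℝ) (N : S → St → ℝ) (j : Bool) (a : ℝ) (f : S → St → ℝ) :
    P.PsiS q N j (fun s C => a * f s C) = fun s C => a * P.PsiS q N j f s C := by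
  funext s C
  unfold Sys.PsiS
  rw [← Sys.Up_smul]
  congr 1
  funext m A
  exact Sys.PsiM_smul ..

theorem Sys.It_succ (q : Fin 3 → ℝ) (N : ℕ → S → St → ℝ) (f : S → St → ℝ) (k : ℕ) :
    P.It q N f (k + 1) = fun s C => P.It q (fun i => N (i + 1)) (P.PsiS q (N 0) false f) k s C +
      P.It q (fun i => N (i + 1)) (P.PsiS q (N 0) true f) k s C := by
  induction k with
  | zero => rfl
  | succ k ih =>
    funext s C
    rw [Sys.It, ih]
    simp only [Sys.PsiS_add, Sys.It]
    ring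

theorem Sys.sum_PF (q : Fin 3 → ℝ) (k : ℕ) (N : ℕ → S → St → ℝ) (f : S → St → ℝ) (s : S) (C : St) :
    ∑ g : Fin k → Bool, P.PF q (List.ofFn g) N f s C = P.It q N f k s C := by
  induction k generalizing N f with
  | zero => simp [Sys.PF, Sys.It]
  | succ k ih =>
    rw [Sys.It_succ, ← (Fin.consEquiv fun _ => Bool).sum_comp, Fintype.sum_prod_type]
    simp only [Fin.consEquiv_apply, List.ofFn_succ, Fin.cons_zero, Fin.cons_succ, Sys.PF, ih]
    rw [Fintype.sum_bool, add_comm]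

theorem Sys.PF_smul (q : Fin 3 → ℝ) (js : List Bool) (N : ℕ → S → St → ℝ) (a : ℝ)
    (f : S → St → ℝ) (s : S) (C : St) :
    P.PF q js N (fun s D => a * f s D) s C = a * P.PF q js N f s C := by
  induction js generalizing N f with
  | nil => rfl
  | cons j js ih =>
    simp only [Sys.PF]
    rw [Sys.PsiS_smul, ih]

theorem Sys.Up_lip (hP : P.Ok m0) {chi g : M → St → ℝ} {a : ℝ} (h : Lip chi a g) :
    Lip (P.Up chi) a (P.Up g) := by
  intro s A y hA _
  unfold Sys.Up
  rw [← sum_sub_distrib, ← sum_sub_distrib, mul_sum]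
  refine (abs_sum_le_sum_abs _ _).trans (sum_le_sum fun x _ => ?_)
  split_ifs
  · have h1 := h.chain (P.xm x) (T_nonempty (P.xe x) hA) (T_mono (P.xe x) (subset_insert y A))
    rw [← mul_sub, ← mul_sub, abs_mul, abs_of_nonneg (hP.xw x), mul_left_comm]
    exact mul_le_mul_of_nonneg_left h1 (hP.xw x)
  · simp

theorem Sys.PsiM_lip (hP : P.Ok m0) {q : Fin 3 → ℝ} (hq : ∀ i, 0 ≤ q i ∧ q i ≤ 1)
    {Z : M → St → ℝ} (hZ : ∀ m A, 0 ≤ Z m A) {φ f : S → St → ℝ} (hφ : ∀ s, InvT (φ s))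
    (hf : ∀ s, InvT (f s)) {a : ℝ} (h : Lip φ a f) (j : Bool) :
    Lip (P.PsiM q Z j φ) a (P.PsiM q Z j f) := by
  intro m A z _ _
  unfold Sys.PsiM
  rw [← sum_sub_distrib, ← sum_sub_distrib, mul_sum]
  refine (abs_sum_le_sum_abs _ _).trans (sum_le_sum fun y _ => ?_)
  by_cases hy : (if j then P.yb y else P.ya y) = m
  · simp only [if_pos hy]
    have hq1 : 0 ≤ 1 - q (P.yi y) := sub_nonneg.2 (hq _).2
    rw [← mul_sub, ← mul_sub, ← mul_sub, ← mul_sub, abs_mul, abs_mul, abs_of_nonneg (hP.yw y),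
      abs_of_nonneg hq1, mul_left_comm a, mul_left_comm a, ← sum_sub_distrib, ← sum_sub_distrib,
      mul_sum _ _ a]
    refine mul_le_mul_of_nonneg_left (mul_le_mul_of_nonneg_left ?_ hq1) (hP.yw y)
    refine (abs_sum_le_sum_abs _ _).trans (sum_le_sum fun B _ => ?_)
    rw [← mul_sub, ← mul_sub, abs_mul, abs_of_nonneg (hZ _ _), mul_left_comm a]
    exact mul_le_mul_of_nonneg_left
      (h.tl (hφ _) (hf _) (inter_subset_inter_right (subset_insert z A))) (hZ _ _)
  · simp [hy]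

theorem Sys.Psi2_lip (hP : P.Ok m0) {q : Fin 3 → ℝ} (hq : ∀ i, 0 ≤ q i ∧ q i ≤ 1)
    {Z : M → St → ℝ} (hZ : ∀ m A, 0 ≤ Z m A) {φ f : S → St → ℝ} (hφ : ∀ s, InvT (φ s))
    (hf : ∀ s, InvT (f s)) {a : ℝ} (h : Lip φ a f) : Lip (P.Psi2 q Z φ) a (P.Psi2 q Z f) := by
  intro m A z hA hz
  have h1 := Sys.PsiM_lip hP hq hZ hφ hf h false m A z hA hz
  have h2 := Sys.PsiM_lip hP hq hZ hφ hf h true m A z hA hz
  unfold Sys.Psi2
  have h3 := abs_add_le (P.PsiM q Z false f m (insert z A) - P.PsiM q Z false f m A)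
    (P.PsiM q Z true f m (insert z A) - P.PsiM q Z true f m A)
  rw [add_sub_add_comm]
  linarith

theorem Sys.PF_mono (hP : P.Ok m0) {q : Fin 3 → ℝ} (hq : ∀ i, 0 ≤ q i ∧ q i ≤ 1) (js : List Bool)
    {N : ℕ → S → St → ℝ} (hN : ∀ i, Law m0 (N i)) {f : S → St → ℝ} (hf : ∀ s, InvT (f s))
    (hm : Inc f fun _ => 0) :
    (∀ s, InvT (P.PF q js N f s)) ∧ Inc (P.PF q js N f) fun _ => 0 := by
  induction js generalizing N f with
  | nil => exact ⟨hf, hm⟩
  | cons j js ih =>
    refine ih (fun i => hN (i + 1))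
      (Sys.Up_inv (Sys.PsiM_inv q (Sys.Z_inv (hN 0).inv) j hf)) fun s A y hA hy => ?_
    have := Sys.Up_lip hP (Sys.PsiM_lip hP hq (Sys.Z_nonneg hP (hN 0).pos) hf (fun _ _ _ => rfl)
      (hm.lip fun _ => le_rfl) j) s A y hA hy
    rw [one_mul] at this
    exact (abs_nonneg _).trans this

theorem Sys.pair_PsiM (q : Fin 3 → ℝ) (W Z : M → St → ℝ) (j : Bool) (f : S → St → ℝ) :
    ∑ m, ∑ A, W m A * P.PsiM q Z j f m A = ∑ y, P.yw y * ((1 - q (P.yi y)) *
      ∑ A, ∑ B, W (if j then P.yb y else P.ya y) A * Z (if j then P.ya y else P.yb y) B *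
        tl (f (P.ys y)) (A ∩ B)) := by
  have h : ∀ m, ∑ A, W m A * P.PsiM q Z j f m A =
      ∑ y, if (if j then P.yb y else P.ya y) = m then P.yw y * ((1 - q (P.yi y)) *
        ∑ A, ∑ B, W m A * Z (if j then P.ya y else P.yb y) B * tl (f (P.ys y)) (A ∩ B)) else 0 := by
    intro m
    unfold Sys.PsiM
    simp only [mul_sum _ _ (W m _)]
    rw [sum_comm]
    refine sum_congr rfl fun y _ => ?_
    by_cases hy : (if j then P.yb y else P.ya y) = m
    · simp only [if_pos hy]
      rw [mul_sum, mul_sum]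
      refine sum_congr rfl fun A _ => ?_
      simp only [mul_assoc (W m A), ← mul_sum]
      ring
    · simp [hy]
  simp only [h]
  rw [sum_comm]
  refine sum_congr rfl fun y _ => ?_
  rw [sum_ite_eq, if_pos (mem_univ _)]

theorem Sys.Phi_diff (q : Fin 3 → ℝ) (Z Z' : M → St → ℝ) {f : S → St → ℝ} (hf : ∀ s, InvT (f s)) :
    ∑ s, ∑ D, (P.Phi q Z s D - P.Phi q Z' s D) * f s D =
      ∑ m, ∑ A, (Z m A - Z' m A) * ((P.Psi2 q Z f m A + P.Psi2 q Z' f m A) / 2) +
      ∑ y, P.yw y * (q (P.yi y) * ((ms (Z (P.ya y)) * ms (Z (P.yb y)) -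
        ms (Z' (P.ya y)) * ms (Z' (P.yb y))) * f (P.ys y) {0})) := by
  have h1 : ∀ U : M → St → ℝ, ∑ s, ∑ D, P.Phi q U s D * f s D = ∑ y, P.yw y *
      ((1 - q (P.yi y)) * (∑ A, ∑ B, U (P.ya y) A * U (P.yb y) B * tl (f (P.ys y)) (A ∩ B)) +
        q (P.yi y) * (ms (U (P.ya y)) * ms (U (P.yb y)) * f (P.ys y) {0})) := by
    intro U
    simp only [fun s => P.Phi_sum q U s (hf s)]
    rw [sum_comm]
    refine sum_congr rfl fun y _ => ?_
    rw [sum_ite_eq, if_pos (mem_univ _)]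
  have h2 : ∀ U V : M → St → ℝ, ∑ m, ∑ A, U m A * P.Psi2 q V f m A = ∑ y, P.yw y *
      ((1 - q (P.yi y)) * (∑ A, ∑ B, U (P.ya y) A * V (P.yb y) B * tl (f (P.ys y)) (A ∩ B) +
        ∑ A, ∑ B, V (P.ya y) A * U (P.yb y) B * tl (f (P.ys y)) (A ∩ B))) := by
    intro U V
    unfold Sys.Psi2
    simp only [mul_add, sum_add_distrib, Sys.pair_PsiM]
    congr 1
    refine sum_congr rfl fun y _ => ?_
    rw [sum_comm]
    congr 2
    refine sum_congr rfl fun A _ => sum_congr rfl fun B _ => ?_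
    simp only [if_true]
    rw [inter_comm]
    ring
  have h3 : ∑ m, ∑ A, (Z m A - Z' m A) * ((P.Psi2 q Z f m A + P.Psi2 q Z' f m A) / 2) =
      (∑ m, ∑ A, Z m A * P.Psi2 q Z f m A + ∑ m, ∑ A, Z m A * P.Psi2 q Z' f m A -
        ∑ m, ∑ A, Z' m A * P.Psi2 q Z f m A - ∑ m, ∑ A, Z' m A * P.Psi2 q Z' f m A) / 2 := by
    simp only [← sum_add_distrib, ← sum_sub_distrib, sum_div]
    exact sum_congr rfl fun m _ => sum_congr rfl fun A _ => by ring
  rw [h3]
  simp only [sub_mul (P.Phi q Z _ _), sum_sub_distrib, h1, h2]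
  simp only [← sum_add_distrib (s := (univ : Finset Y)), ← sum_sub_distrib (s := (univ : Finset Y)),
    sum_div (s := (univ : Finset Y))]
  exact sum_congr rfl fun y _ => by ring

theorem a_l1 {chi : M → St → ℝ} {N N' : S → St → ℝ} {ε : ℝ} {k : M → ℝ} (hk : ∀ m, 0 < k m)
    (hi : Inc chi k) (hN : ∀ s, InvT (N s)) (hN' : ∀ s, InvT (N' s)) (h : P.Near chi N N' ε)
    (m : M) : ∑ A ∈ univ.erase univ, |P.Z N m A - P.Z N' m A| ≤ 2 * ε / k m := by
  have hm := hk m
  let g : M → St → ℝ := fun m' A => if m' = m ∧ A ≠ univ then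
    (if 0 ≤ P.Z N m A - P.Z N' m A then k m / 2 else -(k m / 2)) else 0
  have hg : ∀ A, |g m A| ≤ k m / 2 := by
    intro A
    simp only [g]
    split_ifs
    · rw [abs_of_nonneg (by linarith)]
    · rw [abs_neg, abs_of_nonneg (by linarith only [hm])]
    · rw [abs_zero]
      linarith
  have h1 := h g (fun m' t A => ?_) (fun m' A y hA hy => ?_) (fun m' => by simp only [g, ne_eq, sub_nonneg, not_true_eq_false, and_false, ↓ reduceIte])
  · have h2 : ∑ m', ∑ A, (P.Z N m' A - P.Z N' m' A) * g m' A =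
        k m / 2 * ∑ A ∈ univ.erase univ, |P.Z N m A - P.Z N' m A| := by
      rw [sum_eq_single m (fun m' _ hm' => by simp only [g, ne_eq, sub_nonneg, hm', false_and, ↓ reduceIte, mul_zero, sum_const_zero]) (by simp only [mem_univ, not_true_eq_false, IsEmpty.forall_iff]), mul_sum,
        ← sum_erase (s := univ) (a := (univ : St)) (by simp only [g, ne_eq, sub_nonneg, not_true_eq_false, and_false, ↓ reduceIte, mul_zero])]
      refine sum_congr rfl fun A hA => ?_
      simp only [g, true_and, if_pos (ne_of_mem_erase hA)]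
      split_ifs with h0
      · rw [abs_of_nonneg h0, mul_comm]
      · rw [abs_of_neg (not_le.1 h0)]
        ring
    rw [h2] at h1
    rw [le_div_iff₀ hm]
    linarith only [le_abs_self (k m / 2 * ∑ A ∈ univ.erase univ, |P.Z N m A - P.Z N' m A|), h1]
  · simp only [g, ne_eq, tr_eq_univ, Sys.Z_inv hN m t A, Sys.Z_inv hN' m t A]
  · have h2 := hi m' A y hA hy
    by_cases hm' : m' = m
    · subst hm'
      have h3 := abs_sub (g m' (insert y A)) (g m' A)
      linarith only [hg (insert y A), hg A, h2, h3]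
    · have := hk m'
      simp only [g, hm', false_and, if_false, sub_self, abs_zero]
      linarith

end abs

end

end Pool.Agent.MP_7c51ae_co
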