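import Pool.Agent.MP_7c51ae_co.NB

/-!
The 402 classes of lists under the symmetries of the cube.
-/

set_option autoImplicit false
set_option maxRecDepth 100000

namespace Pool.Agent.MP_7c51ae_co

/-- a representative of each class, as a bit mask -/
noncomputable def rep (c : Nat) : Nat := dg 16 (nat_lit 0xffff7fff7ffe7eff6fff3fff6ffb6ff76bff3ffd3dff1fff6ff96ff66bfd6bdf6bbf69ff3ffc3dfe3dfd3def3ddf3cff1ffe1ffb1ff71eff1bff17ff0fff6bd76bbd69bf3ded3dde3ddb3dd73cdf1ffa1ff91ff61ff31efe1efb1ef71eef1bfd1bef1bdf19ff17fe17ef17bf177f16ff0ff707ff6bd6699f3dda3dd63cdb3cd73ccf1ff81ff21ff11efa1ef91ef61ef31eee1eeb1ee71bfc1bee1bed1be71bde1bdb1bd719fe19fb19f719ef18ff17ee17eb17be17bd17af179f177e16fe16ef16bf167f0ff60ff307fe07fb07f707ef07bf077f06ff03ff69973cc71ef11ee91ee61ee31bec1be51bd91bd619fa19f919f619f319ee19eb19e718ef17ea17e917bc17ae17ad17ab179e179b1797178f16ee16eb16be16bd16af169f167e166f0ff107f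a07f907f607f307eb07e707bd07b7077e077b077706fb06f706bf067f03fd03df037f01ff69963cc31ee11be41bd819f819f119ea19e919e619e318e717e817ac17a9179a17991796178e178b178716ea16e916bc16ae16ad16ab169e169b1697168f166e166b0ff007f807f207f107e907e607e307bc07b607b507b3077a0779077606f906f606f306bd06bb06b7069f067e067b0677066f03fc03de03dd03db03d703cf037e037d036f035f033f01fe01ef01bf017f00ff19e117981789178316ac16a9169a16991696168e168b1687166a166907f007e207e107b407b1077806f206f106b906b606b506b30697067a067906760673066b066703dc03d903d603d503c7037c036e036d036b035e035b0357033d01ee01eb01be01bd01af019f017e016f013f007f17811698168916861683166807e007b006f006b406b206b1069606930678067206690666066303d803d403c603c503c3036c036a0369035a03590356033c01ea01e901bc01ae01ad01ab019e019b0197018f016e016b013e013d012f011f007e006f003f168106b006910662066103c10368035801e801ac01aa01a9019a01990196018b0187016a0169013c012d011e011b0117006b003d001f0690066003c001a801980189018601830168012c011a011901160069003c001e001b0017000f018201810118001900160007018000180006000300010000)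 c

/-- the size of the lists of a class -/
noncomputable def sz (c : Nat) : Nat := dg 8 (nat_lit 0x100f0e0e0e0e0d0d0d0d0d0d0c0c0c0c0c0c0c0c0c0c0c0c0c0c0c0c0c0c0c0b0b0b0b0b0b0b0b0b0b0b0b0b0b0b0b0b0b0b0b0b0b0b0b0b0b0b0a0a0a0a0a0a0a0a0a0a0a0a0a0a0a0a0a0a0a0a0a0a0a0a0a0a0a0a0a0a0a0a0a0a0a0a0a0a0a0a0a0a0a0a0a0a0a0a0a0a090909090909090909090909090909090909090909090909090909090909090909090909090909090909090909090909090909090909090908080808080808080808080808080808080808080808080808080808080808080808080808080808080808080808080808080808080808080808080808080808080808080808080808080707070707070707070707070707070707070707070707070707070707070707070707070707070707070707070707070707070707070707060606060606060606060606060606060606060606060606060606060606060606060606060606060606060606060606060605050505050505050505050505050505050505050505050505050504040404040404040404040404040404040404030303030303020202020100)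 c

/-- 384 divided by the number of lists in a class -/
noncomputable def vv (c : Nat) : Nat := dg 12 (nat_lit 0x18001803000c00800c00400800600600200401002000600401801801800200400200200800400200400200200601000801800600200200200600200200400400200200100200400100100200200600200201800600400203000800400600400400c00800400800200200200100800200400200100100200200200200200100200200c0020020020020010020180060020020060080040020010020040020040040040180060040040080020010010020020010020020020020010020060020060020010010040020010060020020020020020010020060040040010020020010020020010010040020080020020020020020010020060c003000800401000400800200200200200c00c00100400100200600400200200400600200100100400200100600200400602000200100200400400100200100100200200400800400400100200200100800200100200800400100100200200400200200100200c00600200200603000800200600400200400100200600200200200601800400200200100100400200200200200100100200100200200200400400100100200200100200100100200200100800600200200200200100200600200200601800400600400403000800400800200200100400200200200800800200200200200200400100200200100200800c00200600200100100200200100600400200200200200200400c00400401800400200400800200200200600100400200100200600200200200600200100400201800600200201002001800400200400400200600200200401801800800200200601000800600400200600403000c00800c018180)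 c

/-- the class of the neighbourhood -/
noncomputable def nc (c : Nat) : Nat := dg 12 (nat_lit 0x19119119119119119119119119119119119119119119119119119119119119119119119119119119119119119119119119119119119119119119119119119119119119119119119119119119119119119119019119119119119119119119119119119119119119119119119119119119119119119119119119119119119119119119119119119119119119119019119119119019119119119119119119119019119119119119119119119119119119119119119119119119119119119119119119119119119119119119119119119119119119119119019019119119119119119119119119119019019019119119119019119119019119119119119119119119119119119119119119119119119119119119119119119119119119119119119119119119119019019119119119119119119119119119119119019019019119119119119119119119019019018d19119119119119119119019019019018c19119119019019119119119119119119119119119119119119119019019119119119119119019119119119119119119119019019019018d18d19119119119119119019019019019019019018c19119119019019018d19019018c19019119119119119118f19119119119119119119119119019018d18d18d19119119119119119019019019019019018c19119119019019019018d18d18918d19019018c18c18c18618e18d18c19119119118d18a19119019019119019019018d18d18918d18919019018c18c18618615b18918718619118419119018d18d18218919018c18618615b18017a17617515b17317218918615f13012815713b0b40a9022000)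 c

noncomputable def upT : Tb Bx := (.nd (nat_lit 201) (.nd (nat_lit 100) (.nd (nat_lit 50) (.nd (nat_lit 25) (.nd (nat_lit 12) (.nd (nat_lit 6) (.nd (nat_lit 3) (.nd (nat_lit 1) 
 (.lf (.mk fun X => (Nat.mul (nat_lit 16) (X (nat_lit 1))))) (.nd (nat_lit 2) 
 (.lf (.mk fun X => (Nat.add (X (nat_lit 5)) (Nat.add (Nat.mul (nat_lit 4) (Nat.add (X (nat_lit 2)) (X (nat_lit 4)))) (Nat.mul (nat_lit 6) (X (nat_lit 3))))))) 
 (.lf (.mk fun X => (Nat.add (Nat.mul (nat_lit 2) (X (nat_lit 10))) (Nat.mul (nat_lit 6) (Nat.add (X (nat_lit 6)) (X (nat_lit 8))))))))) (.nd (nat_lit 4) 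
 (.lf (.mk fun X => (Nat.add (Nat.mul (nat_lit 2) (Nat.add (X (nat_lit 6)) (Nat.add (X (nat_lit 9)) (X (nat_lit 11))))) (Nat.mul (nat_lit 4) (Nat.add (X (nat_lit 7)) (X (nat_lit 8))))))) (.nd (nat_lit 5) 
 (.lf (.mk fun X => (Nat.add (Nat.mul (nat_lit 2) (X (nat_lit 10))) (Nat.mul (nat_lit 6) (Nat.add (X (nat_lit 8)) (X (nat_lit 9))))))) 
 (.lf (.mk fun X => (Nat.add (Nat.mul (nat_lit 6) (X (nat_lit 11))) (Nat.mul (nat_lit 8) (X (nat_lit 10))))))))) (.nd (nat_lit 9) (.nd (nat_lit 7) 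
 (.lf (.mk fun X => (Nat.add (X (nat_lit 12)) (Nat.add (X (nat_lit 19)) (Nat.add (X (nat_lit 27)) (Nat.add (Nat.mul (nat_lit 2) (Nat.add (X (nat_lit 13)) (Nat.add (X (nat_lit 15)) (X (nat_lit 23))))) (Nat.mul (nat_lit 4) (X (nat_lit 14))))))))) (.nd (nat_lit 8) 
 (.lf (.mk fun X => (Nat.add (X (nat_lit 13)) (Nat.add (X (nat_lit 17)) (Nat.add (X (nat_lit 18)) (Nat.add (X (nat_lit 22)) (Nat.mul (nat_lit 3) (Nat.add (X (nat_lit 15)) (Nat.add (X (nat_lit 20)) (X (nat_lit 24))))))))))) 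
 (.lf (.mk fun X => (Nat.add (X (nat_lit 16)) (Nat.add (X (nat_lit 19)) (Nat.add (X (nat_lit 23)) (Nat.add (X (nat_lit 25)) (Nat.add (X (nat_lit 26)) (Nat.mul (nat_lit 2) (Nat.add (X (nat_lit 14)) (Nat.add (X (nat_lit 15)) (Nat.add (X (nat_lit 20)) (X (nat_lit 21))))))))))))))) (.nd (nat_lit 10) 
 (.lf (.mk fun X => (Nat.add (X (nat_lit 19)) (Nat.add (X (nat_lit 27)) (Nat.add (X (nat_lit 30)) (Nat.add (Nat.mul (nat_lit 2) (Nat.add (X (nat_lit 20)) (Nat.add (X (nat_lit 22)) (X (nat_lit 26))))) (Nat.mul (nat_lit 4) (X (nat_lit 21))))))))) (.nd (nat_lit 11) 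
 (.lf (.mk fun X => (Nat.add (X (nat_lit 28)) (Nat.mul (nat_lit 3) (Nat.add (X (nat_lit 23)) (Nat.add (X (nat_lit 25)) (Nat.add (X (nat_lit 26)) (X (nat_lit 27))))))))) 
 (.lf (.mk fun X => (Nat.add (X (nat_lit 29)) (Nat.mul (nat_lit 4) (Nat.add (X (nat_lit 23)) (Nat.add (X (nat_lit 24)) (X (nat_lit 26)))))))))))) (.nd (nat_lit 18) (.nd (nat_lit 15) (.nd (nat_lit 13) 
 (.lf (.mk fun X => (Nat.add (Nat.mul (nat_lit 4) (X (nat_lit 47))) (Nat.mul (nat_lit 8) (X (nat_lit 31)))))) (.nd (nat_lit 14) 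
 (.lf (.mk fun X => (Nat.add (X (nat_lit 33)) (Nat.add (X (nat_lit 34)) (Nat.add (X (nat_lit 49)) (Nat.mul (nat_lit 3) (Nat.add (X (nat_lit 31)) (Nat.add (X (nat_lit 35)) (X (nat_lit 41)))))))))) 
 (.lf (.mk fun X => (Nat.mul (nat_lit 2) (Nat.add (X (nat_lit 31)) (Nat.add (X (nat_lit 32)) (Nat.add (X (nat_lit 35)) (Nat.add (X (nat_lit 37)) (Nat.add (X (nat_lit 42)) (X (nat_lit 48)))))))))))) (.nd (nat_lit 16) 
 (.lf (.mk fun X => (Nat.add (X (nat_lit 31)) (Nat.add (X (nat_lit 33)) (Nat.add (X (nat_lit 36)) (Nat.add (X (nat_lit 40)) (Nat.add (X (nat_lit 41)) (Nat.add (X (nat_lit 46)) (Nat.mul (nat_lit 2) (Nat.add (X (nat_lit 32)) (Nat.add (X (nat_lit 37)) (X (nat_lit 45))))))))))))) (.nd (nat_lit 17) 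
 (.lf (.mk fun X => (Nat.mul (nat_lit 4) (Nat.add (X (nat_lit 32)) (Nat.add (X (nat_lit 38)) (X (nat_lit 44))))))) 
 (.lf (.mk fun X => (Nat.mul (nat_lit 4) (Nat.add (X (nat_lit 33)) (Nat.add (X (nat_lit 39)) (X (nat_lit 43)))))))))) (.nd (nat_lit 21) (.nd (nat_lit 19) 
 (.lf (.mk fun X => (Nat.add (X (nat_lit 34)) (Nat.add (X (nat_lit 57)) (Nat.add (Nat.mul (nat_lit 4) (X (nat_lit 43))) (Nat.mul (nat_lit 6) (X (nat_lit 36)))))))) (.nd (nat_lit 20) 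
 (.lf (.mk fun X => (Nat.add (X (nat_lit 47)) (Nat.add (X (nat_lit 56)) (Nat.add (Nat.mul (nat_lit 2) (Nat.add (X (nat_lit 35)) (Nat.add (X (nat_lit 40)) (X (nat_lit 44))))) (Nat.mul (nat_lit 4) (X (nat_lit 37)))))))) 
 (.lf (.mk fun X => (Nat.add (X (nat_lit 35)) (Nat.add (X (nat_lit 36)) (Nat.add (X (nat_lit 39)) (Nat.add (X (nat_lit 46)) (Nat.add (X (nat_lit 51)) (Nat.add (X (nat_lit 55)) (Nat.mul (nat_lit 2) (Nat.add (X (nat_lit 37)) (Nat.add (X (nat_lit 38)) (X (nat_lit 45))))))))))))))) (.nd (nat_lit 23) (.nd (nat_lit 22) 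
 (.lf (.mk fun X => (Nat.mul (nat_lit 2) (Nat.add (X (nat_lit 37)) (Nat.add (X (nat_lit 38)) (Nat.add (X (nat_lit 40)) (Nat.add (X (nat_lit 48)) (Nat.add (X (nat_lit 50)) (X (nat_lit 55)))))))))) 
 (.lf (.mk fun X => (Nat.add (X (nat_lit 39)) (Nat.add (X (nat_lit 49)) (Nat.add (X (nat_lit 57)) (Nat.mul (nat_lit 3) (Nat.add (X (nat_lit 40)) (Nat.add (X (nat_lit 51)) (X (nat_lit 55))))))))))) (.nd (nat_lit 24) 
 (.lf (.mk fun X => (Nat.add (X (nat_lit 44)) (Nat.add (X (nat_lit 47)) (Nat.add (X (nat_lit 52)) (Nat.add (X (nat_lit 54)) (Nat.mul (nat_lit 2) (Nat.add (X (nat_lit 41)) (Nat.add (X (nat_lit 42)) (Nat.add (X (nat_lit 45)) (X (nat_lit 48)))))))))))) 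
 (.lf (.mk fun X => (Nat.add (Nat.mul (nat_lit 2) (Nat.add (X (nat_lit 41)) (Nat.add (X (nat_lit 43)) (Nat.add (X (nat_lit 51)) (X (nat_lit 53)))))) (Nat.mul (nat_lit 4) (X (nat_lit 45))))))))))) (.nd (nat_lit 37) (.nd (nat_lit 31) (.nd (nat_lit 28) (.nd (nat_lit 26) 
 (.lf (.mk fun X => (Nat.add (Nat.mul (nat_lit 2) (Nat.add (X (nat_lit 42)) (Nat.add (X (nat_lit 44)) (Nat.add (X (nat_lit 50)) (X (nat_lit 52)))))) (Nat.mul (nat_lit 4) (X (nat_lit 46)))))) (.nd (nat_lit 27) 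
 (.lf (.mk fun X => (Nat.add (X (nat_lit 44)) (Nat.add (X (nat_lit 52)) (Nat.add (X (nat_lit 54)) (Nat.add (X (nat_lit 56)) (Nat.mul (nat_lit 2) (Nat.add (X (nat_lit 45)) (Nat.add (X (nat_lit 48)) (Nat.add (X (nat_lit 50)) (X (nat_lit 51)))))))))))) 
 (.lf (.mk fun X => (Nat.add (X (nat_lit 47)) (Nat.add (X (nat_lit 56)) (Nat.add (Nat.mul (nat_lit 2) (Nat.add (X (nat_lit 46)) (Nat.add (X (nat_lit 49)) (X (nat_lit 52))))) (Nat.mul (nat_lit 4) (X (nat_lit 48)))))))))) (.nd (nat_lit 29) 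
 (.lf (.mk fun X => (Nat.mul (nat_lit 12) (X (nat_lit 52))))) (.nd (nat_lit 30) 
 (.lf (.mk fun X => (Nat.add (Nat.mul (nat_lit 4) (X (nat_lit 53))) (Nat.mul (nat_lit 8) (X (nat_lit 54)))))) 
 (.lf (.mk fun X => (Nat.add (Nat.mul (nat_lit 4) (X (nat_lit 56))) (Nat.mul (nat_lit 8) (X (nat_lit 55))))))))) (.nd (nat_lit 34) (.nd (nat_lit 32) 
 (.lf (.mk fun X => (Nat.add (X (nat_lit 59)) (Nat.add (X (nat_lit 61)) (Nat.add (X (nat_lit 67)) (Nat.add (X (nat_lit 71)) (Nat.add (X (nat_lit 76)) (Nat.mul (nat_lit 2) (Nat.add (X (nat_lit 58)) (Nat.add (X (nat_lit 62)) (X (nat_lit 73)))))))))))) (.nd (nat_lit 33) 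
 (.lf (.mk fun X => (Nat.add (X (nat_lit 58)) (Nat.add (X (nat_lit 59)) (Nat.add (X (nat_lit 60)) (Nat.add (X (nat_lit 63)) (Nat.add (X (nat_lit 64)) (Nat.add (X (nat_lit 66)) (Nat.add (X (nat_lit 74)) (Nat.mul (nat_lit 2) (Nat.add (X (nat_lit 69)) (X (nat_lit 72))))))))))))) 
 (.lf (.mk fun X => (Nat.add (X (nat_lit 68)) (Nat.add (X (nat_lit 75)) (Nat.mul (nat_lit 3) (Nat.add (X (nat_lit 59)) (Nat.add (X (nat_lit 65)) (X (nat_lit 70))))))))))) (.nd (nat_lit 35) 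
 (.lf (.mk fun X => (Nat.add (X (nat_lit 107)) (Nat.add (Nat.mul (nat_lit 4) (X (nat_lit 68))) (Nat.mul (nat_lit 6) (X (nat_lit 61))))))) (.nd (nat_lit 36) 
 (.lf (.mk fun X => (Nat.add (X (nat_lit 61)) (Nat.add (X (nat_lit 65)) (Nat.add (X (nat_lit 71)) (Nat.add (X (nat_lit 82)) (Nat.add (X (nat_lit 97)) (Nat.mul (nat_lit 2) (Nat.add (X (nat_lit 62)) (Nat.add (X (nat_lit 63)) (X (nat_lit 69)))))))))))) 
 (.lf (.mk fun X => (Nat.add (X (nat_lit 61)) (Nat.add (X (nat_lit 78)) (Nat.add (X (nat_lit 103)) (Nat.add (Nat.mul (nat_lit 2) (Nat.add (X (nat_lit 70)) (X (nat_lit 81)))) (Nat.mul (nat_lit 4) (X (nat_lit 64))))))))))))) (.nd (nat_lit 43) (.nd (nat_lit 40) (.nd (nat_lit 38) 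
 (.lf (.mk fun X => (Nat.add (X (nat_lit 62)) (Nat.add (X (nat_lit 63)) (Nat.add (X (nat_lit 64)) (Nat.add (X (nat_lit 65)) (Nat.add (X (nat_lit 66)) (Nat.add (X (nat_lit 72)) (Nat.add (X (nat_lit 73)) (Nat.add (X (nat_lit 79)) (Nat.add (X (nat_lit 80)) (Nat.add (X (nat_lit 94)) (X (nat_lit 96)))))))))))))) (.nd (nat_lit 39) 
 (.lf (.mk fun X => (Nat.add (X (nat_lit 63)) (Nat.add (X (nat_lit 64)) (Nat.add (X (nat_lit 66)) (Nat.add (X (nat_lit 74)) (Nat.add (X (nat_lit 77)) (Nat.add (X (nat_lit 95)) (Nat.add (X (nat_lit 104)) (Nat.mul (nat_lit 2) (Nat.add (X (nat_lit 80)) (X (nat_lit 83))))))))))))) 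
 (.lf (.mk fun X => (Nat.add (X (nat_lit 75)) (Nat.add (X (nat_lit 105)) (Nat.mul (nat_lit 3) (Nat.add (X (nat_lit 65)) (Nat.add (X (nat_lit 81)) (X (nat_lit 95))))))))))) (.nd (nat_lit 41) 
 (.lf (.mk fun X => (Nat.add (X (nat_lit 65)) (Nat.add (X (nat_lit 76)) (Nat.add (X (nat_lit 82)) (Nat.add (X (nat_lit 98)) (Nat.add (X (nat_lit 103)) (Nat.mul (nat_lit 2) (Nat.add (X (nat_lit 66)) (Nat.add (X (nat_lit 83)) (X (nat_lit 94)))))))))))) (.nd (nat_lit 42) 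
 (.lf (.mk fun X => (Nat.add (X (nat_lit 67)) (Nat.add (X (nat_lit 68)) (Nat.add (X (nat_lit 70)) (Nat.add (X (nat_lit 82)) (Nat.add (X (nat_lit 87)) (Nat.mul (nat_lit 2) (Nat.add (X (nat_lit 69)) (Nat.add (X (nat_lit 73)) (X (nat_lit 89)))))))))))) 
 (.lf (.mk fun X => (Nat.add (X (nat_lit 67)) (Nat.add (X (nat_lit 79)) (Nat.add (X (nat_lit 92)) (Nat.mul (nat_lit 2) (Nat.add (X (nat_lit 69)) (Nat.add (X (nat_lit 71)) (Nat.add (X (nat_lit 72)) (X (nat_lit 85)))))))))))))) (.nd (nat_lit 46) (.nd (nat_lit 44) 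
 (.lf (.mk fun X => (Nat.add (X (nat_lit 68)) (Nat.add (X (nat_lit 105)) (Nat.mul (nat_lit 3) (Nat.add (X (nat_lit 70)) (Nat.add (X (nat_lit 81)) (X (nat_lit 91))))))))) (.nd (nat_lit 45) 
 (.lf (.mk fun X => (Nat.add (X (nat_lit 84)) (Nat.add (X (nat_lit 90)) (Nat.add (X (nat_lit 100)) (Nat.mul (nat_lit 2) (Nat.add (X (nat_lit 69)) (Nat.add (X (nat_lit 72)) (Nat.add (X (nat_lit 80)) (X (nat_lit 83))))))))))) 
 (.lf (.mk fun X => (Nat.add (X (nat_lit 69)) (Nat.add (X (nat_lit 70)) (Nat.add (X (nat_lit 73)) (Nat.add (X (nat_lit 74)) (Nat.add (X (nat_lit 79)) (Nat.add (X (nat_lit 81)) (Nat.add (X (nat_lit 83)) (Nat.add (X (nat_lit 86)) (Nat.add (X (nat_lit 89)) (Nat.add (X (nat_lit 93)) (X (nat_lit 96)))))))))))))))) (.nd (nat_lit 48) (.nd (nat_lit 47) 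
 (.lf (.mk fun X => (Nat.add (X (nat_lit 71)) (Nat.add (X (nat_lit 75)) (Nat.add (X (nat_lit 78)) (Nat.add (X (nat_lit 87)) (Nat.add (X (nat_lit 98)) (Nat.mul (nat_lit 2) (Nat.add (X (nat_lit 72)) (Nat.add (X (nat_lit 80)) (X (nat_lit 86)))))))))))) 
 (.lf (.mk fun X => (Nat.add (X (nat_lit 99)) (Nat.add (Nat.mul (nat_lit 2) (Nat.add (X (nat_lit 71)) (Nat.add (X (nat_lit 76)) (X (nat_lit 84))))) (Nat.mul (nat_lit 4) (X (nat_lit 73)))))))) (.nd (nat_lit 49) 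
 (.lf (.mk fun X => (Nat.add (X (nat_lit 72)) (Nat.add (X (nat_lit 73)) (Nat.add (X (nat_lit 74)) (Nat.add (X (nat_lit 76)) (Nat.add (X (nat_lit 80)) (Nat.add (X (nat_lit 82)) (Nat.add (X (nat_lit 85)) (Nat.add (X (nat_lit 88)) (Nat.add (X (nat_lit 92)) (Nat.add (X (nat_lit 96)) (X (nat_lit 97)))))))))))))) 
 (.lf (.mk fun X => (Nat.add (X (nat_lit 75)) (Nat.add (X (nat_lit 107)) (Nat.mul (nat_lit 3) (Nat.add (X (nat_lit 76)) (Nat.add (X (nat_lit 87)) (X (nat_lit 97))))))))))))))) (.nd (nat_lit 75) (.nd (nat_lit 62) (.nd (nat_lit 56) (.nd (nat_lit 53) (.nd (nat_lit 51) 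
 (.lf (.mk fun X => (Nat.add (X (nat_lit 79)) (Nat.add (X (nat_lit 92)) (Nat.add (X (nat_lit 106)) (Nat.mul (nat_lit 2) (Nat.add (X (nat_lit 80)) (Nat.add (X (nat_lit 83)) (Nat.add (X (nat_lit 88)) (X (nat_lit 98))))))))))) (.nd (nat_lit 52) 
 (.lf (.mk fun X => (Nat.add (X (nat_lit 81)) (Nat.add (X (nat_lit 82)) (Nat.add (X (nat_lit 87)) (Nat.add (X (nat_lit 105)) (Nat.add (X (nat_lit 106)) (Nat.mul (nat_lit 2) (Nat.add (X (nat_lit 83)) (Nat.add (X (nat_lit 93)) (X (nat_lit 96)))))))))))) 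
 (.lf (.mk fun X => (Nat.add (X (nat_lit 84)) (Nat.add (X (nat_lit 100)) (Nat.add (X (nat_lit 101)) (Nat.mul (nat_lit 2) (Nat.add (X (nat_lit 85)) (Nat.add (X (nat_lit 86)) (Nat.add (X (nat_lit 87)) (X (nat_lit 88))))))))))))) (.nd (nat_lit 54) 
 (.lf (.mk fun X => (Nat.add (X (nat_lit 102)) (Nat.add (Nat.mul (nat_lit 2) (X (nat_lit 91))) (Nat.mul (nat_lit 4) (Nat.add (X (nat_lit 89)) (X (nat_lit 93)))))))) (.nd (nat_lit 55) 
 (.lf (.mk fun X => (Nat.add (X (nat_lit 90)) (Nat.add (X (nat_lit 99)) (Nat.add (X (nat_lit 101)) (Nat.add (Nat.mul (nat_lit 2) (Nat.add (X (nat_lit 89)) (X (nat_lit 93)))) (Nat.mul (nat_lit 4) (X (nat_lit 92))))))))) 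
 (.lf (.mk fun X => (Nat.add (X (nat_lit 95)) (Nat.add (X (nat_lit 97)) (Nat.add (X (nat_lit 98)) (Nat.add (X (nat_lit 103)) (Nat.add (X (nat_lit 106)) (Nat.mul (nat_lit 2) (Nat.add (X (nat_lit 94)) (Nat.add (X (nat_lit 96)) (X (nat_lit 104))))))))))))))) (.nd (nat_lit 59) (.nd (nat_lit 57) 
 (.lf (.mk fun X => (Nat.add (X (nat_lit 99)) (Nat.add (Nat.mul (nat_lit 2) (Nat.add (X (nat_lit 97)) (Nat.add (X (nat_lit 98)) (X (nat_lit 100))))) (Nat.mul (nat_lit 4) (X (nat_lit 96))))))) (.nd (nat_lit 58) 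
 (.lf (.mk fun X => (Nat.add (X (nat_lit 107)) (Nat.add (Nat.mul (nat_lit 4) (X (nat_lit 105))) (Nat.mul (nat_lit 6) (X (nat_lit 103))))))) 
 (.lf (.mk fun X => (Nat.add (Nat.mul (nat_lit 2) (Nat.add (X (nat_lit 108)) (Nat.add (X (nat_lit 109)) (X (nat_lit 117))))) (Nat.mul (nat_lit 4) (X (nat_lit 113)))))))) (.nd (nat_lit 60) 
 (.lf (.mk fun X => (Nat.mul (nat_lit 2) (Nat.add (X (nat_lit 108)) (Nat.add (X (nat_lit 110)) (Nat.add (X (nat_lit 112)) (Nat.add (X (nat_lit 115)) (X (nat_lit 116))))))))) (.nd (nat_lit 61) 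
 (.lf (.mk fun X => (Nat.add (Nat.mul (nat_lit 2) (Nat.add (X (nat_lit 108)) (X (nat_lit 111)))) (Nat.mul (nat_lit 6) (X (nat_lit 114)))))) 
 (.lf (.mk fun X => (Nat.add (X (nat_lit 119)) (Nat.add (X (nat_lit 160)) (Nat.add (Nat.mul (nat_lit 2) (Nat.add (X (nat_lit 112)) (X (nat_lit 122)))) (Nat.mul (nat_lit 4) (X (nat_lit 109)))))))))))) (.nd (nat_lit 68) (.nd (nat_lit 65) (.nd (nat_lit 63) 
 (.lf (.mk fun X => (Nat.mul (nat_lit 2) (Nat.add (X (nat_lit 109)) (Nat.add (X (nat_lit 110)) (Nat.add (X (nat_lit 113)) (Nat.add (X (nat_lit 120)) (X (nat_lit 138))))))))) (.nd (nat_lit 64) 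
 (.lf (.mk fun X => (Nat.add (X (nat_lit 109)) (Nat.add (X (nat_lit 110)) (Nat.add (X (nat_lit 114)) (Nat.add (X (nat_lit 118)) (Nat.add (X (nat_lit 137)) (Nat.add (X (nat_lit 154)) (Nat.mul (nat_lit 2) (Nat.add (X (nat_lit 120)) (X (nat_lit 124)))))))))))) 
 (.lf (.mk fun X => (Nat.add (X (nat_lit 109)) (Nat.add (X (nat_lit 111)) (Nat.add (X (nat_lit 115)) (Nat.add (X (nat_lit 118)) (Nat.add (X (nat_lit 141)) (Nat.add (X (nat_lit 152)) (Nat.mul (nat_lit 2) (Nat.add (X (nat_lit 121)) (X (nat_lit 123)))))))))))))) (.nd (nat_lit 66) 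
 (.lf (.mk fun X => (Nat.add (X (nat_lit 116)) (Nat.add (X (nat_lit 122)) (Nat.add (X (nat_lit 140)) (Nat.add (X (nat_lit 153)) (Nat.mul (nat_lit 2) (Nat.add (X (nat_lit 110)) (Nat.add (X (nat_lit 123)) (X (nat_lit 137))))))))))) (.nd (nat_lit 67) 
 (.lf (.mk fun X => (Nat.add (X (nat_lit 110)) (Nat.add (X (nat_lit 111)) (Nat.add (X (nat_lit 117)) (Nat.add (X (nat_lit 125)) (Nat.add (X (nat_lit 137)) (Nat.add (X (nat_lit 152)) (Nat.mul (nat_lit 2) (Nat.add (X (nat_lit 124)) (X (nat_lit 139)))))))))))) 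
 (.lf (.mk fun X => (Nat.add (Nat.mul (nat_lit 2) (Nat.add (X (nat_lit 112)) (Nat.add (X (nat_lit 127)) (X (nat_lit 133))))) (Nat.mul (nat_lit 4) (X (nat_lit 113))))))))) (.nd (nat_lit 71) (.nd (nat_lit 69) 
 (.lf (.mk fun X => (Nat.add (X (nat_lit 161)) (Nat.mul (nat_lit 3) (Nat.add (X (nat_lit 112)) (Nat.add (X (nat_lit 122)) (X (nat_lit 132)))))))) (.nd (nat_lit 70) 
 (.lf (.mk fun X => (Nat.add (X (nat_lit 112)) (Nat.add (X (nat_lit 113)) (Nat.add (X (nat_lit 114)) (Nat.add (X (nat_lit 120)) (Nat.add (X (nat_lit 123)) (Nat.add (X (nat_lit 124)) (Nat.add (X (nat_lit 126)) (Nat.add (X (nat_lit 131)) (Nat.add (X (nat_lit 136)) (X (nat_lit 145))))))))))))) 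
 (.lf (.mk fun X => (Nat.add (X (nat_lit 112)) (Nat.add (X (nat_lit 128)) (Nat.add (X (nat_lit 132)) (Nat.add (X (nat_lit 153)) (Nat.mul (nat_lit 2) (Nat.add (X (nat_lit 115)) (Nat.add (X (nat_lit 123)) (X (nat_lit 135))))))))))))) (.nd (nat_lit 73) (.nd (nat_lit 72) 
 (.lf (.mk fun X => (Nat.add (X (nat_lit 116)) (Nat.add (X (nat_lit 119)) (Nat.add (X (nat_lit 127)) (Nat.add (X (nat_lit 143)) (Nat.mul (nat_lit 2) (Nat.add (X (nat_lit 113)) (Nat.add (X (nat_lit 120)) (X (nat_lit 126))))))))))) 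
 (.lf (.mk fun X => (Nat.add (X (nat_lit 113)) (Nat.add (X (nat_lit 114)) (Nat.add (X (nat_lit 116)) (Nat.add (X (nat_lit 121)) (Nat.add (X (nat_lit 124)) (Nat.add (X (nat_lit 126)) (Nat.add (X (nat_lit 129)) (Nat.add (X (nat_lit 134)) (Nat.add (X (nat_lit 139)) (X (nat_lit 145)))))))))))))) (.nd (nat_lit 74) 
 (.lf (.mk fun X => (Nat.add (X (nat_lit 113)) (Nat.add (X (nat_lit 115)) (Nat.add (X (nat_lit 117)) (Nat.add (X (nat_lit 120)) (Nat.add (X (nat_lit 122)) (Nat.add (X (nat_lit 126)) (Nat.add (X (nat_lit 130)) (Nat.add (X (nat_lit 133)) (Nat.add (X (nat_lit 138)) (X (nat_lit 142))))))))))))) 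
 (.lf (.mk fun X => (Nat.add (X (nat_lit 114)) (Nat.add (X (nat_lit 115)) (Nat.add (X (nat_lit 117)) (Nat.add (X (nat_lit 125)) (Nat.add (X (nat_lit 141)) (Nat.add (X (nat_lit 154)) (Nat.mul (nat_lit 2) (Nat.add (X (nat_lit 129)) (X (nat_lit 136))))))))))))))))) (.nd (nat_lit 87) (.nd (nat_lit 81) (.nd (nat_lit 78) (.nd (nat_lit 76) 
 (.lf (.mk fun X => (Nat.add (X (nat_lit 161)) (Nat.mul (nat_lit 3) (Nat.add (X (nat_lit 116)) (Nat.add (X (nat_lit 128)) (X (nat_lit 140)))))))) (.nd (nat_lit 77) 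
 (.lf (.mk fun X => (Nat.add (X (nat_lit 116)) (Nat.add (X (nat_lit 127)) (Nat.add (X (nat_lit 143)) (Nat.add (X (nat_lit 160)) (Nat.mul (nat_lit 2) (Nat.add (X (nat_lit 117)) (Nat.add (X (nat_lit 130)) (X (nat_lit 138))))))))))) 
 (.lf (.mk fun X => (Nat.add (Nat.mul (nat_lit 2) (Nat.add (X (nat_lit 118)) (X (nat_lit 155)))) (Nat.mul (nat_lit 6) (X (nat_lit 125)))))))) (.nd (nat_lit 79) 
 (.lf (.mk fun X => (Nat.add (X (nat_lit 119)) (Nat.add (X (nat_lit 163)) (Nat.mul (nat_lit 4) (Nat.add (X (nat_lit 121)) (X (nat_lit 128)))))))) (.nd (nat_lit 80) 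
 (.lf (.mk fun X => (Nat.add (X (nat_lit 133)) (Nat.add (X (nat_lit 159)) (Nat.mul (nat_lit 2) (Nat.add (X (nat_lit 120)) (Nat.add (X (nat_lit 123)) (Nat.add (X (nat_lit 129)) (X (nat_lit 139)))))))))) 
 (.lf (.mk fun X => (Nat.add (X (nat_lit 120)) (Nat.add (X (nat_lit 121)) (Nat.add (X (nat_lit 124)) (Nat.add (X (nat_lit 125)) (Nat.add (X (nat_lit 129)) (Nat.add (X (nat_lit 130)) (Nat.add (X (nat_lit 134)) (Nat.add (X (nat_lit 140)) (Nat.add (X (nat_lit 146)) (X (nat_lit 157)))))))))))))))) (.nd (nat_lit 84) (.nd (nat_lit 82) 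
 (.lf (.mk fun X => (Nat.add (X (nat_lit 122)) (Nat.add (X (nat_lit 128)) (Nat.add (X (nat_lit 156)) (Nat.add (X (nat_lit 158)) (Nat.mul (nat_lit 2) (Nat.add (X (nat_lit 123)) (Nat.add (X (nat_lit 135)) (X (nat_lit 141))))))))))) (.nd (nat_lit 83) 
 (.lf (.mk fun X => (Nat.add (X (nat_lit 122)) (Nat.add (X (nat_lit 127)) (Nat.add (X (nat_lit 153)) (Nat.add (X (nat_lit 162)) (Nat.mul (nat_lit 2) (Nat.add (X (nat_lit 124)) (Nat.add (X (nat_lit 136)) (X (nat_lit 138))))))))))) 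
 (.lf (.mk fun X => (Nat.add (X (nat_lit 123)) (Nat.add (X (nat_lit 124)) (Nat.add (X (nat_lit 125)) (Nat.add (X (nat_lit 130)) (Nat.add (X (nat_lit 136)) (Nat.add (X (nat_lit 139)) (Nat.add (X (nat_lit 144)) (Nat.add (X (nat_lit 146)) (Nat.add (X (nat_lit 156)) (X (nat_lit 157))))))))))))))) (.nd (nat_lit 85) 
 (.lf (.mk fun X => (Nat.add (Nat.mul (nat_lit 2) (X (nat_lit 149))) (Nat.mul (nat_lit 4) (Nat.add (X (nat_lit 126)) (X (nat_lit 130))))))) (.nd (nat_lit 86) 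
 (.lf (.mk fun X => (Nat.mul (nat_lit 2) (Nat.add (X (nat_lit 126)) (Nat.add (X (nat_lit 127)) (Nat.add (X (nat_lit 129)) (Nat.add (X (nat_lit 145)) (X (nat_lit 148))))))))) 
 (.lf (.mk fun X => (Nat.mul (nat_lit 2) (Nat.add (X (nat_lit 126)) (Nat.add (X (nat_lit 128)) (Nat.add (X (nat_lit 129)) (Nat.add (X (nat_lit 146)) (X (nat_lit 147))))))))))))) (.nd (nat_lit 93) (.nd (nat_lit 90) (.nd (nat_lit 88) 
 (.lf (.mk fun X => (Nat.add (X (nat_lit 127)) (Nat.add (X (nat_lit 128)) (Nat.add (X (nat_lit 161)) (Nat.add (X (nat_lit 162)) (Nat.mul (nat_lit 2) (Nat.add (X (nat_lit 130)) (Nat.add (X (nat_lit 145)) (X (nat_lit 147))))))))))) (.nd (nat_lit 89) 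
 (.lf (.mk fun X => (Nat.mul (nat_lit 2) (Nat.add (X (nat_lit 129)) (Nat.add (X (nat_lit 130)) (Nat.add (X (nat_lit 146)) (Nat.add (X (nat_lit 148)) (X (nat_lit 162))))))))) 
 (.lf (.mk fun X => (Nat.add (X (nat_lit 131)) (Nat.add (X (nat_lit 132)) (Nat.add (X (nat_lit 135)) (Nat.add (X (nat_lit 142)) (Nat.add (X (nat_lit 147)) (Nat.add (X (nat_lit 151)) (Nat.mul (nat_lit 2) (Nat.add (X (nat_lit 133)) (X (nat_lit 136)))))))))))))) (.nd (nat_lit 91) 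
 (.lf (.mk fun X => (Nat.add (Nat.mul (nat_lit 2) (Nat.add (X (nat_lit 131)) (Nat.add (X (nat_lit 144)) (X (nat_lit 149))))) (Nat.mul (nat_lit 4) (X (nat_lit 134)))))) (.nd (nat_lit 92) 
 (.lf (.mk fun X => (Nat.add (Nat.mul (nat_lit 2) (Nat.add (X (nat_lit 132)) (Nat.add (X (nat_lit 150)) (X (nat_lit 158))))) (Nat.mul (nat_lit 4) (X (nat_lit 135)))))) 
 (.lf (.mk fun X => (Nat.add (X (nat_lit 133)) (Nat.add (X (nat_lit 159)) (Nat.mul (nat_lit 2) (Nat.add (X (nat_lit 134)) (Nat.add (X (nat_lit 136)) (Nat.add (X (nat_lit 143)) (X (nat_lit 148))))))))))))) (.nd (nat_lit 96) (.nd (nat_lit 94) 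
 (.lf (.mk fun X => (Nat.add (X (nat_lit 135)) (Nat.add (X (nat_lit 142)) (Nat.add (X (nat_lit 144)) (Nat.add (X (nat_lit 147)) (Nat.add (X (nat_lit 151)) (Nat.add (X (nat_lit 158)) (Nat.mul (nat_lit 2) (Nat.add (X (nat_lit 136)) (X (nat_lit 159)))))))))))) (.nd (nat_lit 95) 
 (.lf (.mk fun X => (Nat.mul (nat_lit 2) (Nat.add (X (nat_lit 137)) (Nat.add (X (nat_lit 138)) (Nat.add (X (nat_lit 139)) (Nat.add (X (nat_lit 152)) (X (nat_lit 157))))))))) 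
 (.lf (.mk fun X => (Nat.mul (nat_lit 2) (Nat.add (X (nat_lit 137)) (Nat.add (X (nat_lit 140)) (Nat.add (X (nat_lit 141)) (Nat.add (X (nat_lit 155)) (X (nat_lit 156))))))))))) (.nd (nat_lit 98) (.nd (nat_lit 97) 
 (.lf (.mk fun X => (Nat.add (X (nat_lit 138)) (Nat.add (X (nat_lit 139)) (Nat.add (X (nat_lit 141)) (Nat.add (X (nat_lit 142)) (Nat.add (X (nat_lit 145)) (Nat.add (X (nat_lit 146)) (Nat.add (X (nat_lit 153)) (Nat.add (X (nat_lit 154)) (Nat.add (X (nat_lit 157)) (X (nat_lit 159))))))))))))) 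
 (.lf (.mk fun X => (Nat.add (X (nat_lit 140)) (Nat.add (X (nat_lit 143)) (Nat.add (X (nat_lit 160)) (Nat.add (X (nat_lit 162)) (Nat.mul (nat_lit 2) (Nat.add (X (nat_lit 138)) (Nat.add (X (nat_lit 145)) (X (nat_lit 154)))))))))))) (.nd (nat_lit 99) 
 (.lf (.mk fun X => (Nat.add (X (nat_lit 140)) (Nat.add (X (nat_lit 143)) (Nat.add (X (nat_lit 162)) (Nat.add (X (nat_lit 163)) (Nat.mul (nat_lit 2) (Nat.add (X (nat_lit 139)) (Nat.add (X (nat_lit 146)) (X (nat_lit 157))))))))))) 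
 (.lf (.mk fun X => (Nat.add (Nat.mul (nat_lit 2) (X (nat_lit 149))) (Nat.mul (nat_lit 4) (Nat.add (X (nat_lit 142)) (X (nat_lit 143)))))))))))))) (.nd (nat_lit 150) (.nd (nat_lit 125) (.nd (nat_lit 112) (.nd (nat_lit 106) (.nd (nat_lit 103) (.nd (nat_lit 101) 
 (.lf (.mk fun X => (Nat.add (Nat.mul (nat_lit 2) (X (nat_lit 149))) (Nat.mul (nat_lit 4) (Nat.add (X (nat_lit 145)) (X (nat_lit 146))))))) (.nd (nat_lit 102) 
 (.lf (.mk fun X => (Nat.add (Nat.mul (nat_lit 2) (X (nat_lit 149))) (Nat.mul (nat_lit 4) (Nat.add (X (nat_lit 147)) (X (nat_lit 148))))))) 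
 (.lf (.mk fun X => (Nat.add (Nat.mul (nat_lit 2) (X (nat_lit 150))) (Nat.mul (nat_lit 8) (X (nat_lit 151)))))))) (.nd (nat_lit 104) 
 (.lf (.mk fun X => (Nat.add (X (nat_lit 160)) (Nat.add (X (nat_lit 163)) (Nat.add (Nat.mul (nat_lit 2) (Nat.add (X (nat_lit 153)) (X (nat_lit 156)))) (Nat.mul (nat_lit 4) (X (nat_lit 152)))))))) (.nd (nat_lit 105) 
 (.lf (.mk fun X => (Nat.add (Nat.mul (nat_lit 2) (Nat.add (X (nat_lit 152)) (Nat.add (X (nat_lit 154)) (X (nat_lit 155))))) (Nat.mul (nat_lit 4) (X (nat_lit 157)))))) 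
 (.lf (.mk fun X => (Nat.add (X (nat_lit 161)) (Nat.mul (nat_lit 3) (Nat.add (X (nat_lit 153)) (Nat.add (X (nat_lit 156)) (X (nat_lit 158))))))))))) (.nd (nat_lit 109) (.nd (nat_lit 107) 
 (.lf (.mk fun X => (Nat.add (Nat.mul (nat_lit 2) (Nat.add (X (nat_lit 156)) (Nat.add (X (nat_lit 159)) (X (nat_lit 162))))) (Nat.mul (nat_lit 4) (X (nat_lit 157)))))) (.nd (nat_lit 108) 
 (.lf (.mk fun X => (Nat.add (Nat.mul (nat_lit 4) (X (nat_lit 161))) (Nat.mul (nat_lit 6) (X (nat_lit 160)))))) 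
 (.lf (.mk fun X => (Nat.add (X (nat_lit 164)) (Nat.add (X (nat_lit 165)) (Nat.add (X (nat_lit 168)) (Nat.mul (nat_lit 3) (Nat.add (X (nat_lit 166)) (X (nat_lit 167))))))))))) (.nd (nat_lit 110) 
 (.lf (.mk fun X => (Nat.add (X (nat_lit 165)) (Nat.add (X (nat_lit 166)) (Nat.add (X (nat_lit 169)) (Nat.add (X (nat_lit 186)) (Nat.add (X (nat_lit 217)) (Nat.mul (nat_lit 2) (Nat.add (X (nat_lit 170)) (X (nat_lit 171))))))))))) (.nd (nat_lit 111) 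
 (.lf (.mk fun X => (Nat.add (X (nat_lit 165)) (Nat.add (X (nat_lit 167)) (Nat.add (X (nat_lit 172)) (Nat.add (X (nat_lit 184)) (Nat.add (X (nat_lit 207)) (Nat.mul (nat_lit 2) (Nat.add (X (nat_lit 171)) (X (nat_lit 185))))))))))) 
 (.lf (.mk fun X => (Nat.add (X (nat_lit 165)) (Nat.add (X (nat_lit 168)) (Nat.add (X (nat_lit 226)) (Nat.mul (nat_lit 3) (Nat.add (X (nat_lit 173)) (X (nat_lit 187))))))))))))) (.nd (nat_lit 118) (.nd (nat_lit 115) (.nd (nat_lit 113) 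
 (.lf (.mk fun X => (Nat.add (X (nat_lit 175)) (Nat.add (X (nat_lit 180)) (Nat.add (X (nat_lit 218)) (Nat.mul (nat_lit 2) (Nat.add (X (nat_lit 166)) (Nat.add (X (nat_lit 171)) (X (nat_lit 182)))))))))) (.nd (nat_lit 114) 
 (.lf (.mk fun X => (Nat.add (X (nat_lit 166)) (Nat.add (X (nat_lit 167)) (Nat.add (X (nat_lit 170)) (Nat.add (X (nat_lit 171)) (Nat.add (X (nat_lit 174)) (Nat.add (X (nat_lit 177)) (Nat.add (X (nat_lit 181)) (Nat.add (X (nat_lit 188)) (X (nat_lit 194)))))))))))) 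
 (.lf (.mk fun X => (Nat.add (X (nat_lit 166)) (Nat.add (X (nat_lit 167)) (Nat.add (X (nat_lit 173)) (Nat.add (X (nat_lit 187)) (Nat.add (X (nat_lit 219)) (Nat.mul (nat_lit 2) (Nat.add (X (nat_lit 176)) (X (nat_lit 183))))))))))))) (.nd (nat_lit 116) 
 (.lf (.mk fun X => (Nat.add (X (nat_lit 166)) (Nat.add (X (nat_lit 168)) (Nat.add (X (nat_lit 172)) (Nat.add (X (nat_lit 190)) (Nat.add (X (nat_lit 207)) (Nat.mul (nat_lit 2) (Nat.add (X (nat_lit 178)) (X (nat_lit 182))))))))))) (.nd (nat_lit 117) 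
 (.lf (.mk fun X => (Nat.add (X (nat_lit 175)) (Nat.add (X (nat_lit 189)) (Nat.add (X (nat_lit 218)) (Nat.mul (nat_lit 2) (Nat.add (X (nat_lit 167)) (Nat.add (X (nat_lit 178)) (X (nat_lit 185)))))))))) 
 (.lf (.mk fun X => (Nat.add (X (nat_lit 167)) (Nat.add (X (nat_lit 168)) (Nat.add (X (nat_lit 179)) (Nat.add (X (nat_lit 186)) (Nat.add (X (nat_lit 217)) (Nat.mul (nat_lit 2) (Nat.add (X (nat_lit 177)) (X (nat_lit 188)))))))))))))) (.nd (nat_lit 121) (.nd (nat_lit 119) 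
 (.lf (.mk fun X => (Nat.add (X (nat_lit 169)) (Nat.add (X (nat_lit 208)) (Nat.add (X (nat_lit 220)) (Nat.mul (nat_lit 3) (Nat.add (X (nat_lit 172)) (X (nat_lit 173))))))))) (.nd (nat_lit 120) 
 (.lf (.mk fun X => (Nat.add (X (nat_lit 231)) (Nat.mul (nat_lit 4) (Nat.add (X (nat_lit 170)) (X (nat_lit 175))))))) 
 (.lf (.mk fun X => (Nat.add (X (nat_lit 170)) (Nat.add (X (nat_lit 171)) (Nat.add (X (nat_lit 172)) (Nat.add (X (nat_lit 176)) (Nat.add (X (nat_lit 177)) (Nat.add (X (nat_lit 181)) (Nat.add (X (nat_lit 185)) (Nat.add (X (nat_lit 195)) (X (nat_lit 213)))))))))))))) (.nd (nat_lit 123) (.nd (nat_lit 122) 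
 (.lf (.mk fun X => (Nat.add (X (nat_lit 170)) (Nat.add (X (nat_lit 191)) (Nat.add (X (nat_lit 227)) (Nat.mul (nat_lit 2) (Nat.add (X (nat_lit 173)) (Nat.add (X (nat_lit 178)) (X (nat_lit 196)))))))))) 
 (.lf (.mk fun X => (Nat.add (X (nat_lit 175)) (Nat.add (X (nat_lit 211)) (Nat.add (X (nat_lit 221)) (Nat.mul (nat_lit 2) (Nat.add (X (nat_lit 171)) (Nat.add (X (nat_lit 182)) (X (nat_lit 186))))))))))) (.nd (nat_lit 124) 
 (.lf (.mk fun X => (Nat.add (X (nat_lit 171)) (Nat.add (X (nat_lit 172)) (Nat.add (X (nat_lit 178)) (Nat.add (X (nat_lit 182)) (Nat.add (X (nat_lit 187)) (Nat.add (X (nat_lit 192)) (Nat.add (X (nat_lit 196)) (Nat.add (X (nat_lit 209)) (X (nat_lit 212)))))))))))) 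
 (.lf (.mk fun X => (Nat.add (X (nat_lit 171)) (Nat.add (X (nat_lit 173)) (Nat.add (X (nat_lit 177)) (Nat.add (X (nat_lit 183)) (Nat.add (X (nat_lit 185)) (Nat.add (X (nat_lit 193)) (Nat.add (X (nat_lit 195)) (Nat.add (X (nat_lit 209)) (X (nat_lit 222))))))))))))))))) (.nd (nat_lit 137) (.nd (nat_lit 131) (.nd (nat_lit 128) (.nd (nat_lit 126) 
 (.lf (.mk fun X => (Nat.add (X (nat_lit 172)) (Nat.add (X (nat_lit 173)) (Nat.add (X (nat_lit 179)) (Nat.add (X (nat_lit 210)) (Nat.add (X (nat_lit 228)) (Nat.mul (nat_lit 2) (Nat.add (X (nat_lit 193)) (X (nat_lit 197))))))))))) (.nd (nat_lit 127) 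
 (.lf (.mk fun X => (Nat.add (X (nat_lit 174)) (Nat.add (X (nat_lit 175)) (Nat.add (X (nat_lit 176)) (Nat.add (X (nat_lit 177)) (Nat.add (X (nat_lit 178)) (Nat.add (X (nat_lit 195)) (Nat.add (X (nat_lit 198)) (Nat.add (X (nat_lit 201)) (X (nat_lit 202)))))))))))) 
 (.lf (.mk fun X => (Nat.add (X (nat_lit 175)) (Nat.add (X (nat_lit 218)) (Nat.add (X (nat_lit 232)) (Nat.mul (nat_lit 2) (Nat.add (X (nat_lit 177)) (Nat.add (X (nat_lit 194)) (X (nat_lit 198)))))))))))) (.nd (nat_lit 129) 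
 (.lf (.mk fun X => (Nat.add (X (nat_lit 175)) (Nat.add (X (nat_lit 223)) (Nat.add (X (nat_lit 229)) (Nat.mul (nat_lit 2) (Nat.add (X (nat_lit 178)) (Nat.add (X (nat_lit 196)) (X (nat_lit 200)))))))))) (.nd (nat_lit 130) 
 (.lf (.mk fun X => (Nat.add (X (nat_lit 176)) (Nat.add (X (nat_lit 177)) (Nat.add (X (nat_lit 178)) (Nat.add (X (nat_lit 196)) (Nat.add (X (nat_lit 197)) (Nat.add (X (nat_lit 198)) (Nat.add (X (nat_lit 199)) (Nat.add (X (nat_lit 222)) (X (nat_lit 224)))))))))))) 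
 (.lf (.mk fun X => (Nat.add (X (nat_lit 177)) (Nat.add (X (nat_lit 178)) (Nat.add (X (nat_lit 179)) (Nat.add (X (nat_lit 195)) (Nat.add (X (nat_lit 198)) (Nat.add (X (nat_lit 202)) (Nat.add (X (nat_lit 203)) (Nat.add (X (nat_lit 221)) (X (nat_lit 230))))))))))))))) (.nd (nat_lit 134) (.nd (nat_lit 132) 
 (.lf (.mk fun X => (Nat.add (X (nat_lit 180)) (Nat.add (X (nat_lit 192)) (Nat.add (X (nat_lit 206)) (Nat.mul (nat_lit 2) (Nat.add (X (nat_lit 181)) (Nat.add (X (nat_lit 183)) (X (nat_lit 201)))))))))) (.nd (nat_lit 133) 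
 (.lf (.mk fun X => (Nat.add (X (nat_lit 180)) (Nat.add (X (nat_lit 211)) (Nat.add (X (nat_lit 223)) (Nat.add (Nat.mul (nat_lit 2) (X (nat_lit 205))) (Nat.mul (nat_lit 4) (X (nat_lit 182))))))))) 
 (.lf (.mk fun X => (Nat.add (X (nat_lit 216)) (Nat.mul (nat_lit 2) (Nat.add (X (nat_lit 181)) (Nat.add (X (nat_lit 182)) (Nat.add (X (nat_lit 188)) (X (nat_lit 198))))))))))) (.nd (nat_lit 135) 
 (.lf (.mk fun X => (Nat.add (X (nat_lit 181)) (Nat.add (X (nat_lit 183)) (Nat.add (X (nat_lit 189)) (Nat.add (X (nat_lit 191)) (Nat.add (X (nat_lit 193)) (Nat.add (X (nat_lit 199)) (Nat.add (X (nat_lit 214)) (Nat.mul (nat_lit 2) (X (nat_lit 202)))))))))))) (.nd (nat_lit 136) 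
 (.lf (.mk fun X => (Nat.add (X (nat_lit 190)) (Nat.add (X (nat_lit 192)) (Nat.add (X (nat_lit 200)) (Nat.add (X (nat_lit 205)) (Nat.add (X (nat_lit 215)) (Nat.mul (nat_lit 2) (Nat.add (X (nat_lit 182)) (X (nat_lit 212))))))))))) 
 (.lf (.mk fun X => (Nat.add (X (nat_lit 182)) (Nat.add (X (nat_lit 183)) (Nat.add (X (nat_lit 188)) (Nat.add (X (nat_lit 193)) (Nat.add (X (nat_lit 198)) (Nat.add (X (nat_lit 206)) (Nat.add (X (nat_lit 212)) (Nat.add (X (nat_lit 213)) (X (nat_lit 224)))))))))))))))) (.nd (nat_lit 143) (.nd (nat_lit 140) (.nd (nat_lit 138) 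
 (.lf (.mk fun X => (Nat.add (X (nat_lit 184)) (Nat.add (X (nat_lit 186)) (Nat.add (X (nat_lit 187)) (Nat.add (X (nat_lit 208)) (Nat.add (X (nat_lit 210)) (Nat.mul (nat_lit 2) (Nat.add (X (nat_lit 185)) (X (nat_lit 209))))))))))) (.nd (nat_lit 139) 
 (.lf (.mk fun X => (Nat.add (X (nat_lit 185)) (Nat.add (X (nat_lit 186)) (Nat.add (X (nat_lit 188)) (Nat.add (X (nat_lit 194)) (Nat.add (X (nat_lit 195)) (Nat.add (X (nat_lit 207)) (Nat.add (X (nat_lit 213)) (Nat.add (X (nat_lit 217)) (X (nat_lit 230)))))))))))) 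
 (.lf (.mk fun X => (Nat.add (X (nat_lit 185)) (Nat.add (X (nat_lit 187)) (Nat.add (X (nat_lit 188)) (Nat.add (X (nat_lit 195)) (Nat.add (X (nat_lit 197)) (Nat.add (X (nat_lit 209)) (Nat.add (X (nat_lit 214)) (Nat.add (X (nat_lit 222)) (X (nat_lit 227)))))))))))))) (.nd (nat_lit 141) 
 (.lf (.mk fun X => (Nat.add (X (nat_lit 189)) (Nat.add (X (nat_lit 221)) (Nat.add (X (nat_lit 229)) (Nat.mul (nat_lit 2) (Nat.add (X (nat_lit 185)) (Nat.add (X (nat_lit 196)) (X (nat_lit 210)))))))))) (.nd (nat_lit 142) 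
 (.lf (.mk fun X => (Nat.add (X (nat_lit 186)) (Nat.add (X (nat_lit 187)) (Nat.add (X (nat_lit 190)) (Nat.add (X (nat_lit 220)) (Nat.add (X (nat_lit 228)) (Nat.mul (nat_lit 2) (Nat.add (X (nat_lit 196)) (X (nat_lit 212))))))))))) 
 (.lf (.mk fun X => (Nat.add (X (nat_lit 190)) (Nat.add (X (nat_lit 201)) (Nat.add (X (nat_lit 203)) (Nat.add (X (nat_lit 211)) (Nat.add (X (nat_lit 216)) (Nat.mul (nat_lit 2) (Nat.add (X (nat_lit 188)) (X (nat_lit 213)))))))))))))) (.nd (nat_lit 146) (.nd (nat_lit 144) 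
 (.lf (.mk fun X => (Nat.add (X (nat_lit 189)) (Nat.add (X (nat_lit 231)) (Nat.add (X (nat_lit 232)) (Nat.mul (nat_lit 2) (Nat.add (X (nat_lit 188)) (Nat.add (X (nat_lit 202)) (X (nat_lit 213)))))))))) (.nd (nat_lit 145) 
 (.lf (.mk fun X => (Nat.add (X (nat_lit 192)) (Nat.add (X (nat_lit 206)) (Nat.add (X (nat_lit 235)) (Nat.mul (nat_lit 2) (Nat.add (X (nat_lit 193)) (Nat.add (X (nat_lit 203)) (X (nat_lit 214)))))))))) 
 (.lf (.mk fun X => (Nat.add (X (nat_lit 194)) (Nat.add (X (nat_lit 195)) (Nat.add (X (nat_lit 196)) (Nat.add (X (nat_lit 201)) (Nat.add (X (nat_lit 202)) (Nat.add (X (nat_lit 218)) (Nat.add (X (nat_lit 219)) (Nat.add (X (nat_lit 222)) (X (nat_lit 224)))))))))))))) (.nd (nat_lit 148) (.nd (nat_lit 147) 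
 (.lf (.mk fun X => (Nat.add (X (nat_lit 195)) (Nat.add (X (nat_lit 196)) (Nat.add (X (nat_lit 197)) (Nat.add (X (nat_lit 202)) (Nat.add (X (nat_lit 203)) (Nat.add (X (nat_lit 222)) (Nat.add (X (nat_lit 224)) (Nat.add (X (nat_lit 229)) (X (nat_lit 234)))))))))))) 
 (.lf (.mk fun X => (Nat.add (X (nat_lit 200)) (Nat.add (X (nat_lit 201)) (Nat.add (X (nat_lit 203)) (Nat.add (X (nat_lit 223)) (Nat.add (X (nat_lit 225)) (Nat.mul (nat_lit 2) (Nat.add (X (nat_lit 198)) (X (nat_lit 224)))))))))))) (.nd (nat_lit 149) 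
 (.lf (.mk fun X => (Nat.add (X (nat_lit 199)) (Nat.add (X (nat_lit 232)) (Nat.add (X (nat_lit 233)) (Nat.mul (nat_lit 2) (Nat.add (X (nat_lit 198)) (Nat.add (X (nat_lit 202)) (X (nat_lit 224)))))))))) 
 (.lf (.mk fun X => (Nat.add (X (nat_lit 204)) (Nat.add (Nat.mul (nat_lit 2) (Nat.add (X (nat_lit 201)) (X (nat_lit 203)))) (Nat.mul (nat_lit 4) (X (nat_lit 202))))))))))))) (.nd (nat_lit 175) (.nd (nat_lit 162) (.nd (nat_lit 156) (.nd (nat_lit 153) (.nd (nat_lit 151) 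
 (.lf (.mk fun X => (Nat.add (X (nat_lit 237)) (Nat.mul (nat_lit 4) (Nat.add (X (nat_lit 205)) (X (nat_lit 215))))))) (.nd (nat_lit 152) 
 (.lf (.mk fun X => (Nat.add (X (nat_lit 205)) (Nat.add (X (nat_lit 215)) (Nat.add (X (nat_lit 225)) (Nat.mul (nat_lit 3) (Nat.add (X (nat_lit 206)) (X (nat_lit 216))))))))) 
 (.lf (.mk fun X => (Nat.add (X (nat_lit 207)) (Nat.add (X (nat_lit 208)) (Nat.add (X (nat_lit 217)) (Nat.add (X (nat_lit 226)) (Nat.add (X (nat_lit 228)) (Nat.mul (nat_lit 2) (Nat.add (X (nat_lit 209)) (X (nat_lit 227))))))))))))) (.nd (nat_lit 154) 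
 (.lf (.mk fun X => (Nat.add (X (nat_lit 211)) (Nat.add (X (nat_lit 218)) (Nat.add (X (nat_lit 229)) (Nat.mul (nat_lit 2) (Nat.add (X (nat_lit 207)) (Nat.add (X (nat_lit 209)) (X (nat_lit 212)))))))))) (.nd (nat_lit 155) 
 (.lf (.mk fun X => (Nat.add (X (nat_lit 207)) (Nat.add (X (nat_lit 210)) (Nat.add (X (nat_lit 217)) (Nat.add (X (nat_lit 219)) (Nat.add (X (nat_lit 220)) (Nat.mul (nat_lit 2) (Nat.add (X (nat_lit 213)) (X (nat_lit 222))))))))))) 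
 (.lf (.mk fun X => (Nat.add (X (nat_lit 208)) (Nat.add (X (nat_lit 220)) (Nat.add (X (nat_lit 236)) (Nat.mul (nat_lit 3) (Nat.add (X (nat_lit 210)) (X (nat_lit 228)))))))))))) (.nd (nat_lit 159) (.nd (nat_lit 157) 
 (.lf (.mk fun X => (Nat.add (X (nat_lit 221)) (Nat.add (X (nat_lit 229)) (Nat.add (X (nat_lit 235)) (Nat.mul (nat_lit 2) (Nat.add (X (nat_lit 209)) (Nat.add (X (nat_lit 212)) (X (nat_lit 228)))))))))) (.nd (nat_lit 158) 
 (.lf (.mk fun X => (Nat.add (X (nat_lit 209)) (Nat.add (X (nat_lit 210)) (Nat.add (X (nat_lit 213)) (Nat.add (X (nat_lit 214)) (Nat.add (X (nat_lit 222)) (Nat.add (X (nat_lit 227)) (Nat.add (X (nat_lit 228)) (Nat.add (X (nat_lit 230)) (X (nat_lit 234)))))))))))) 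
 (.lf (.mk fun X => (Nat.add (X (nat_lit 211)) (Nat.add (X (nat_lit 223)) (Nat.add (X (nat_lit 235)) (Nat.add (Nat.mul (nat_lit 2) (X (nat_lit 215))) (Nat.mul (nat_lit 4) (X (nat_lit 212))))))))))) (.nd (nat_lit 160) 
 (.lf (.mk fun X => (Nat.add (X (nat_lit 216)) (Nat.mul (nat_lit 2) (Nat.add (X (nat_lit 212)) (Nat.add (X (nat_lit 213)) (Nat.add (X (nat_lit 214)) (X (nat_lit 224))))))))) (.nd (nat_lit 161) 
 (.lf (.mk fun X => (Nat.add (X (nat_lit 231)) (Nat.add (Nat.mul (nat_lit 2) (Nat.add (X (nat_lit 218)) (X (nat_lit 221)))) (Nat.mul (nat_lit 4) (X (nat_lit 217))))))) 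
 (.lf (.mk fun X => (Nat.mul (nat_lit 3) (Nat.add (X (nat_lit 218)) (Nat.add (X (nat_lit 221)) (X (nat_lit 223))))))))))) (.nd (nat_lit 168) (.nd (nat_lit 165) (.nd (nat_lit 163) 
 (.lf (.mk fun X => (Nat.add (X (nat_lit 221)) (Nat.add (X (nat_lit 229)) (Nat.add (X (nat_lit 232)) (Nat.mul (nat_lit 2) (Nat.add (X (nat_lit 222)) (Nat.add (X (nat_lit 224)) (X (nat_lit 230)))))))))) (.nd (nat_lit 164) 
 (.lf (.mk fun X => (Nat.add (X (nat_lit 231)) (Nat.mul (nat_lit 4) (Nat.add (X (nat_lit 227)) (X (nat_lit 229))))))) 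
 (.lf (.mk fun X => (Nat.mul (nat_lit 8) (X (nat_lit 238))))))) (.nd (nat_lit 166) 
 (.lf (.mk fun X => (Nat.add (X (nat_lit 238)) (Nat.add (X (nat_lit 276)) (Nat.mul (nat_lit 3) (Nat.add (X (nat_lit 239)) (X (nat_lit 243)))))))) (.nd (nat_lit 167) 
 (.lf (.mk fun X => (Nat.add (X (nat_lit 238)) (Nat.add (X (nat_lit 239)) (Nat.add (X (nat_lit 245)) (Nat.add (X (nat_lit 266)) (Nat.mul (nat_lit 2) (Nat.add (X (nat_lit 240)) (X (nat_lit 242)))))))))) 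
 (.lf (.mk fun X => (Nat.add (X (nat_lit 238)) (Nat.add (X (nat_lit 241)) (Nat.add (X (nat_lit 243)) (Nat.add (X (nat_lit 266)) (Nat.mul (nat_lit 2) (Nat.add (X (nat_lit 240)) (X (nat_lit 244))))))))))))) (.nd (nat_lit 171) (.nd (nat_lit 169) 
 (.lf (.mk fun X => (Nat.add (X (nat_lit 238)) (Nat.add (X (nat_lit 276)) (Nat.mul (nat_lit 3) (Nat.add (X (nat_lit 241)) (X (nat_lit 245)))))))) (.nd (nat_lit 170) 
 (.lf (.mk fun X => (Nat.add (Nat.mul (nat_lit 2) (X (nat_lit 267))) (Nat.mul (nat_lit 6) (X (nat_lit 239)))))) 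
 (.lf (.mk fun X => (Nat.add (X (nat_lit 246)) (Nat.add (X (nat_lit 280)) (Nat.mul (nat_lit 2) (Nat.add (X (nat_lit 239)) (Nat.add (X (nat_lit 240)) (X (nat_lit 249))))))))))) (.nd (nat_lit 173) (.nd (nat_lit 172) 
 (.lf (.mk fun X => (Nat.add (X (nat_lit 239)) (Nat.add (X (nat_lit 240)) (Nat.add (X (nat_lit 242)) (Nat.add (X (nat_lit 243)) (Nat.add (X (nat_lit 247)) (Nat.add (X (nat_lit 249)) (Nat.add (X (nat_lit 261)) (X (nat_lit 268))))))))))) 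
 (.lf (.mk fun X => (Nat.add (X (nat_lit 239)) (Nat.add (X (nat_lit 241)) (Nat.add (X (nat_lit 260)) (Nat.add (X (nat_lit 281)) (Nat.mul (nat_lit 2) (Nat.add (X (nat_lit 247)) (X (nat_lit 250))))))))))) (.nd (nat_lit 174) 
 (.lf (.mk fun X => (Nat.add (X (nat_lit 239)) (Nat.add (X (nat_lit 241)) (Nat.add (X (nat_lit 269)) (Nat.add (X (nat_lit 277)) (Nat.mul (nat_lit 2) (Nat.add (X (nat_lit 248)) (X (nat_lit 250)))))))))) 
 (.lf (.mk fun X => (Nat.mul (nat_lit 4) (Nat.add (X (nat_lit 240)) (X (nat_lit 253))))))))))) (.nd (nat_lit 188) (.nd (nat_lit 181) (.nd (nat_lit 178) (.nd (nat_lit 176) 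
 (.lf (.mk fun X => (Nat.add (X (nat_lit 270)) (Nat.add (X (nat_lit 282)) (Nat.mul (nat_lit 2) (Nat.add (X (nat_lit 240)) (Nat.add (X (nat_lit 249)) (X (nat_lit 252))))))))) (.nd (nat_lit 177) 
 (.lf (.mk fun X => (Nat.mul (nat_lit 2) (Nat.add (X (nat_lit 240)) (Nat.add (X (nat_lit 250)) (Nat.add (X (nat_lit 251)) (X (nat_lit 272)))))))) 
 (.lf (.mk fun X => (Nat.add (X (nat_lit 240)) (Nat.add (X (nat_lit 241)) (Nat.add (X (nat_lit 249)) (Nat.add (X (nat_lit 251)) (Nat.add (X (nat_lit 253)) (Nat.add (X (nat_lit 256)) (Nat.add (X (nat_lit 268)) (X (nat_lit 283))))))))))))) (.nd (nat_lit 179) 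
 (.lf (.mk fun X => (Nat.add (X (nat_lit 240)) (Nat.add (X (nat_lit 241)) (Nat.add (X (nat_lit 250)) (Nat.add (X (nat_lit 252)) (Nat.add (X (nat_lit 254)) (Nat.add (X (nat_lit 255)) (Nat.add (X (nat_lit 271)) (X (nat_lit 278))))))))))) (.nd (nat_lit 180) 
 (.lf (.mk fun X => (Nat.add (Nat.mul (nat_lit 2) (Nat.add (X (nat_lit 241)) (X (nat_lit 279)))) (Nat.mul (nat_lit 4) (X (nat_lit 256)))))) 
 (.lf (.mk fun X => (Nat.add (Nat.mul (nat_lit 2) (Nat.add (X (nat_lit 258)) (X (nat_lit 270)))) (Nat.mul (nat_lit 4) (X (nat_lit 242))))))))) (.nd (nat_lit 184) (.nd (nat_lit 182) 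
 (.lf (.mk fun X => (Nat.add (X (nat_lit 242)) (Nat.add (X (nat_lit 244)) (Nat.add (X (nat_lit 246)) (Nat.add (X (nat_lit 247)) (Nat.add (X (nat_lit 251)) (Nat.add (X (nat_lit 265)) (Nat.mul (nat_lit 2) (X (nat_lit 253))))))))))) (.nd (nat_lit 183) 
 (.lf (.mk fun X => (Nat.add (X (nat_lit 242)) (Nat.add (X (nat_lit 245)) (Nat.add (X (nat_lit 247)) (Nat.add (X (nat_lit 252)) (Nat.add (X (nat_lit 258)) (Nat.add (X (nat_lit 261)) (Nat.add (X (nat_lit 264)) (X (nat_lit 271))))))))))) 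
 (.lf (.mk fun X => (Nat.add (X (nat_lit 242)) (Nat.add (X (nat_lit 244)) (Nat.add (X (nat_lit 248)) (Nat.add (X (nat_lit 251)) (Nat.add (X (nat_lit 259)) (Nat.add (X (nat_lit 262)) (Nat.mul (nat_lit 2) (X (nat_lit 272))))))))))))) (.nd (nat_lit 186) (.nd (nat_lit 185) 
 (.lf (.mk fun X => (Nat.mul (nat_lit 4) (Nat.add (X (nat_lit 243)) (X (nat_lit 260)))))) 
 (.lf (.mk fun X => (Nat.add (X (nat_lit 243)) (Nat.add (X (nat_lit 244)) (Nat.add (X (nat_lit 249)) (Nat.add (X (nat_lit 250)) (Nat.add (X (nat_lit 260)) (Nat.add (X (nat_lit 263)) (Nat.add (X (nat_lit 268)) (X (nat_lit 278)))))))))))) (.nd (nat_lit 187) 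
 (.lf (.mk fun X => (Nat.add (X (nat_lit 243)) (Nat.add (X (nat_lit 245)) (Nat.add (X (nat_lit 267)) (Nat.add (X (nat_lit 279)) (Nat.mul (nat_lit 2) (Nat.add (X (nat_lit 249)) (X (nat_lit 261)))))))))) 
 (.lf (.mk fun X => (Nat.add (X (nat_lit 243)) (Nat.add (X (nat_lit 245)) (Nat.add (X (nat_lit 269)) (Nat.add (X (nat_lit 277)) (Nat.mul (nat_lit 2) (Nat.add (X (nat_lit 250)) (X (nat_lit 262)))))))))))))) (.nd (nat_lit 194) (.nd (nat_lit 191) (.nd (nat_lit 189) 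
 (.lf (.mk fun X => (Nat.add (X (nat_lit 244)) (Nat.add (X (nat_lit 245)) (Nat.add (X (nat_lit 253)) (Nat.add (X (nat_lit 256)) (Nat.add (X (nat_lit 261)) (Nat.add (X (nat_lit 265)) (Nat.add (X (nat_lit 280)) (X (nat_lit 283))))))))))) (.nd (nat_lit 190) 
 (.lf (.mk fun X => (Nat.mul (nat_lit 2) (Nat.add (X (nat_lit 244)) (Nat.add (X (nat_lit 254)) (Nat.add (X (nat_lit 263)) (X (nat_lit 282)))))))) 
 (.lf (.mk fun X => (Nat.mul (nat_lit 2) (Nat.add (X (nat_lit 245)) (Nat.add (X (nat_lit 255)) (Nat.add (X (nat_lit 264)) (X (nat_lit 281)))))))))) (.nd (nat_lit 192) 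
 (.lf (.mk fun X => (Nat.add (X (nat_lit 246)) (Nat.add (X (nat_lit 289)) (Nat.add (Nat.mul (nat_lit 2) (X (nat_lit 248))) (Nat.mul (nat_lit 4) (X (nat_lit 254)))))))) (.nd (nat_lit 193) 
 (.lf (.mk fun X => (Nat.add (X (nat_lit 258)) (Nat.add (X (nat_lit 290)) (Nat.mul (nat_lit 2) (Nat.add (X (nat_lit 247)) (Nat.add (X (nat_lit 255)) (X (nat_lit 262))))))))) 
 (.lf (.mk fun X => (Nat.add (X (nat_lit 247)) (Nat.add (X (nat_lit 248)) (Nat.add (X (nat_lit 259)) (Nat.add (X (nat_lit 263)) (Nat.add (X (nat_lit 273)) (Nat.add (X (nat_lit 288)) (Nat.mul (nat_lit 2) (X (nat_lit 256)))))))))))))) (.nd (nat_lit 197) (.nd (nat_lit 195) 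
 (.lf (.mk fun X => (Nat.mul (nat_lit 2) (Nat.add (X (nat_lit 249)) (Nat.add (X (nat_lit 253)) (Nat.add (X (nat_lit 266)) (X (nat_lit 283)))))))) (.nd (nat_lit 196) 
 (.lf (.mk fun X => (Nat.add (X (nat_lit 249)) (Nat.add (X (nat_lit 250)) (Nat.add (X (nat_lit 253)) (Nat.add (X (nat_lit 256)) (Nat.add (X (nat_lit 268)) (Nat.add (X (nat_lit 272)) (Nat.add (X (nat_lit 278)) (X (nat_lit 287))))))))))) 
 (.lf (.mk fun X => (Nat.add (X (nat_lit 249)) (Nat.add (X (nat_lit 250)) (Nat.add (X (nat_lit 254)) (Nat.add (X (nat_lit 255)) (Nat.add (X (nat_lit 269)) (Nat.add (X (nat_lit 271)) (Nat.add (X (nat_lit 284)) (X (nat_lit 286))))))))))))) (.nd (nat_lit 199) (.nd (nat_lit 198) 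
 (.lf (.mk fun X => (Nat.mul (nat_lit 2) (Nat.add (X (nat_lit 250)) (Nat.add (X (nat_lit 256)) (Nat.add (X (nat_lit 273)) (X (nat_lit 286)))))))) 
 (.lf (.mk fun X => (Nat.add (X (nat_lit 251)) (Nat.add (X (nat_lit 252)) (Nat.add (X (nat_lit 253)) (Nat.add (X (nat_lit 256)) (Nat.add (X (nat_lit 271)) (Nat.add (X (nat_lit 275)) (Nat.add (X (nat_lit 283)) (X (nat_lit 285)))))))))))) (.nd (nat_lit 200) 
 (.lf (.mk fun X => (Nat.mul (nat_lit 2) (Nat.add (X (nat_lit 251)) (Nat.add (X (nat_lit 254)) (Nat.add (X (nat_lit 273)) (X (nat_lit 285)))))))) 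
 (.lf (.mk fun X => (Nat.mul (nat_lit 2) (Nat.add (X (nat_lit 252)) (Nat.add (X (nat_lit 255)) (Nat.add (X (nat_lit 274)) (X (nat_lit 284)))))))))))))))) (.nd (nat_lit 301) (.nd (nat_lit 251) (.nd (nat_lit 226) (.nd (nat_lit 213) (.nd (nat_lit 207) (.nd (nat_lit 204) (.nd (nat_lit 202) 
 (.lf (.mk fun X => (Nat.add (X (nat_lit 255)) (Nat.add (X (nat_lit 257)) (Nat.add (X (nat_lit 270)) (Nat.add (X (nat_lit 275)) (Nat.mul (nat_lit 2) (Nat.add (X (nat_lit 253)) (X (nat_lit 272)))))))))) (.nd (nat_lit 203) 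
 (.lf (.mk fun X => (Nat.add (X (nat_lit 253)) (Nat.add (X (nat_lit 254)) (Nat.add (X (nat_lit 256)) (Nat.add (X (nat_lit 257)) (Nat.add (X (nat_lit 272)) (Nat.add (X (nat_lit 282)) (Nat.add (X (nat_lit 285)) (X (nat_lit 287))))))))))) 
 (.lf (.mk fun X => (Nat.add (X (nat_lit 255)) (Nat.add (X (nat_lit 257)) (Nat.add (X (nat_lit 275)) (Nat.add (X (nat_lit 291)) (Nat.mul (nat_lit 2) (Nat.add (X (nat_lit 256)) (X (nat_lit 287)))))))))))) (.nd (nat_lit 205) 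
 (.lf (.mk fun X => (Nat.mul (nat_lit 8) (X (nat_lit 257))))) (.nd (nat_lit 206) 
 (.lf (.mk fun X => (Nat.add (X (nat_lit 274)) (Nat.add (X (nat_lit 293)) (Nat.mul (nat_lit 3) (Nat.add (X (nat_lit 258)) (X (nat_lit 264)))))))) 
 (.lf (.mk fun X => (Nat.add (X (nat_lit 258)) (Nat.add (X (nat_lit 290)) (Nat.mul (nat_lit 2) (Nat.add (X (nat_lit 259)) (Nat.add (X (nat_lit 265)) (X (nat_lit 275)))))))))))) (.nd (nat_lit 210) (.nd (nat_lit 208) 
 (.lf (.mk fun X => (Nat.add (X (nat_lit 260)) (Nat.add (X (nat_lit 266)) (Nat.add (X (nat_lit 276)) (Nat.add (X (nat_lit 281)) (Nat.mul (nat_lit 2) (Nat.add (X (nat_lit 261)) (X (nat_lit 278)))))))))) (.nd (nat_lit 209) 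
 (.lf (.mk fun X => (Nat.add (X (nat_lit 267)) (Nat.add (X (nat_lit 292)) (Nat.mul (nat_lit 3) (Nat.add (X (nat_lit 260)) (X (nat_lit 277)))))))) 
 (.lf (.mk fun X => (Nat.add (X (nat_lit 260)) (Nat.add (X (nat_lit 261)) (Nat.add (X (nat_lit 262)) (Nat.add (X (nat_lit 268)) (Nat.add (X (nat_lit 277)) (Nat.add (X (nat_lit 278)) (Nat.add (X (nat_lit 286)) (X (nat_lit 288))))))))))))) (.nd (nat_lit 211) 
 (.lf (.mk fun X => (Nat.add (X (nat_lit 260)) (Nat.add (X (nat_lit 269)) (Nat.add (X (nat_lit 279)) (Nat.add (X (nat_lit 292)) (Nat.mul (nat_lit 2) (Nat.add (X (nat_lit 263)) (X (nat_lit 286)))))))))) (.nd (nat_lit 212) 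
 (.lf (.mk fun X => (Nat.add (X (nat_lit 270)) (Nat.add (X (nat_lit 291)) (Nat.add (Nat.mul (nat_lit 2) (X (nat_lit 264))) (Nat.mul (nat_lit 4) (X (nat_lit 261)))))))) 
 (.lf (.mk fun X => (Nat.add (X (nat_lit 261)) (Nat.add (X (nat_lit 262)) (Nat.add (X (nat_lit 264)) (Nat.add (X (nat_lit 271)) (Nat.add (X (nat_lit 281)) (Nat.add (X (nat_lit 284)) (Nat.add (X (nat_lit 288)) (X (nat_lit 290))))))))))))))) (.nd (nat_lit 219) (.nd (nat_lit 216) (.nd (nat_lit 214) 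
 (.lf (.mk fun X => (Nat.add (X (nat_lit 261)) (Nat.add (X (nat_lit 263)) (Nat.add (X (nat_lit 265)) (Nat.add (X (nat_lit 272)) (Nat.add (X (nat_lit 280)) (Nat.add (X (nat_lit 281)) (Nat.add (X (nat_lit 283)) (X (nat_lit 287))))))))))) (.nd (nat_lit 215) 
 (.lf (.mk fun X => (Nat.add (X (nat_lit 262)) (Nat.add (X (nat_lit 263)) (Nat.add (X (nat_lit 265)) (Nat.add (X (nat_lit 273)) (Nat.add (X (nat_lit 288)) (Nat.add (X (nat_lit 289)) (Nat.mul (nat_lit 2) (X (nat_lit 287))))))))))) 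
 (.lf (.mk fun X => (Nat.add (X (nat_lit 274)) (Nat.add (X (nat_lit 293)) (Nat.mul (nat_lit 3) (Nat.add (X (nat_lit 264)) (X (nat_lit 290)))))))))) (.nd (nat_lit 217) 
 (.lf (.mk fun X => (Nat.add (Nat.mul (nat_lit 2) (Nat.add (X (nat_lit 264)) (X (nat_lit 275)))) (Nat.mul (nat_lit 4) (X (nat_lit 265)))))) (.nd (nat_lit 218) 
 (.lf (.mk fun X => (Nat.add (X (nat_lit 266)) (Nat.add (X (nat_lit 267)) (Nat.add (X (nat_lit 276)) (Nat.add (X (nat_lit 279)) (Nat.mul (nat_lit 2) (Nat.add (X (nat_lit 268)) (X (nat_lit 280)))))))))) 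
 (.lf (.mk fun X => (Nat.add (X (nat_lit 270)) (Nat.add (X (nat_lit 282)) (Nat.mul (nat_lit 2) (Nat.add (X (nat_lit 266)) (Nat.add (X (nat_lit 268)) (X (nat_lit 271)))))))))))) (.nd (nat_lit 222) (.nd (nat_lit 220) 
 (.lf (.mk fun X => (Nat.add (Nat.mul (nat_lit 2) (Nat.add (X (nat_lit 266)) (X (nat_lit 269)))) (Nat.mul (nat_lit 4) (X (nat_lit 272)))))) (.nd (nat_lit 221) 
 (.lf (.mk fun X => (Nat.add (X (nat_lit 267)) (Nat.add (X (nat_lit 292)) (Nat.mul (nat_lit 3) (Nat.add (X (nat_lit 269)) (X (nat_lit 281)))))))) 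
 (.lf (.mk fun X => (Nat.add (X (nat_lit 282)) (Nat.add (X (nat_lit 291)) (Nat.mul (nat_lit 2) (Nat.add (X (nat_lit 268)) (Nat.add (X (nat_lit 271)) (X (nat_lit 279))))))))))) (.nd (nat_lit 224) (.nd (nat_lit 223) 
 (.lf (.mk fun X => (Nat.add (X (nat_lit 268)) (Nat.add (X (nat_lit 269)) (Nat.add (X (nat_lit 272)) (Nat.add (X (nat_lit 273)) (Nat.add (X (nat_lit 278)) (Nat.add (X (nat_lit 283)) (Nat.add (X (nat_lit 286)) (X (nat_lit 287))))))))))) 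
 (.lf (.mk fun X => (Nat.add (X (nat_lit 270)) (Nat.add (X (nat_lit 291)) (Nat.add (Nat.mul (nat_lit 2) (X (nat_lit 274))) (Nat.mul (nat_lit 4) (X (nat_lit 271))))))))) (.nd (nat_lit 225) 
 (.lf (.mk fun X => (Nat.add (X (nat_lit 271)) (Nat.add (X (nat_lit 272)) (Nat.add (X (nat_lit 273)) (Nat.add (X (nat_lit 275)) (Nat.add (X (nat_lit 283)) (Nat.add (X (nat_lit 284)) (Nat.add (X (nat_lit 285)) (X (nat_lit 287))))))))))) 
 (.lf (.mk fun X => (Nat.add (Nat.mul (nat_lit 2) (X (nat_lit 274))) (Nat.mul (nat_lit 6) (X (nat_lit 275))))))))))) (.nd (nat_lit 238) (.nd (nat_lit 232) (.nd (nat_lit 229) (.nd (nat_lit 227) 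
 (.lf (.mk fun X => (Nat.add (Nat.mul (nat_lit 2) (X (nat_lit 276))) (Nat.mul (nat_lit 6) (X (nat_lit 277)))))) (.nd (nat_lit 228) 
 (.lf (.mk fun X => (Nat.add (X (nat_lit 280)) (Nat.add (X (nat_lit 289)) (Nat.mul (nat_lit 2) (Nat.add (X (nat_lit 277)) (Nat.add (X (nat_lit 278)) (X (nat_lit 286))))))))) 
 (.lf (.mk fun X => (Nat.add (X (nat_lit 277)) (Nat.add (X (nat_lit 279)) (Nat.add (X (nat_lit 281)) (Nat.add (X (nat_lit 292)) (Nat.mul (nat_lit 2) (Nat.add (X (nat_lit 286)) (X (nat_lit 288)))))))))))) (.nd (nat_lit 230) 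
 (.lf (.mk fun X => (Nat.add (X (nat_lit 282)) (Nat.add (X (nat_lit 291)) (Nat.mul (nat_lit 2) (Nat.add (X (nat_lit 278)) (Nat.add (X (nat_lit 284)) (X (nat_lit 286))))))))) (.nd (nat_lit 231) 
 (.lf (.mk fun X => (Nat.mul (nat_lit 2) (Nat.add (X (nat_lit 278)) (Nat.add (X (nat_lit 279)) (Nat.add (X (nat_lit 283)) (X (nat_lit 287)))))))) 
 (.lf (.mk fun X => (Nat.mul (nat_lit 4) (Nat.add (X (nat_lit 280)) (X (nat_lit 282))))))))) (.nd (nat_lit 235) (.nd (nat_lit 233) 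
 (.lf (.mk fun X => (Nat.add (Nat.mul (nat_lit 2) (Nat.add (X (nat_lit 282)) (X (nat_lit 285)))) (Nat.mul (nat_lit 4) (X (nat_lit 283)))))) (.nd (nat_lit 234) 
 (.lf (.mk fun X => (Nat.mul (nat_lit 8) (X (nat_lit 285))))) 
 (.lf (.mk fun X => (Nat.mul (nat_lit 4) (Nat.add (X (nat_lit 286)) (X (nat_lit 287)))))))) (.nd (nat_lit 236) 
 (.lf (.mk fun X => (Nat.add (Nat.mul (nat_lit 2) (Nat.add (X (nat_lit 290)) (X (nat_lit 291)))) (Nat.mul (nat_lit 4) (X (nat_lit 288)))))) (.nd (nat_lit 237) 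
 (.lf (.mk fun X => (Nat.mul (nat_lit 8) (X (nat_lit 292))))) 
 (.lf (.mk fun X => (Nat.mul (nat_lit 8) (X (nat_lit 293))))))))) (.nd (nat_lit 244) (.nd (nat_lit 241) (.nd (nat_lit 239) 
 (.lf (.mk fun X => (Nat.add (X (nat_lit 315)) (Nat.mul (nat_lit 3) (Nat.add (X (nat_lit 294)) (X (nat_lit 295))))))) (.nd (nat_lit 240) 
 (.lf (.mk fun X => (Nat.add (X (nat_lit 294)) (Nat.add (X (nat_lit 309)) (Nat.add (X (nat_lit 317)) (Nat.mul (nat_lit 2) (Nat.add (X (nat_lit 296)) (X (nat_lit 297))))))))) 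
 (.lf (.mk fun X => (Nat.add (X (nat_lit 294)) (Nat.add (X (nat_lit 297)) (Nat.add (X (nat_lit 298)) (Nat.add (X (nat_lit 299)) (Nat.add (X (nat_lit 300)) (Nat.add (X (nat_lit 310)) (X (nat_lit 318)))))))))))) (.nd (nat_lit 242) 
 (.lf (.mk fun X => (Nat.add (X (nat_lit 294)) (Nat.add (X (nat_lit 316)) (Nat.add (X (nat_lit 319)) (Nat.mul (nat_lit 2) (Nat.add (X (nat_lit 300)) (X (nat_lit 301))))))))) (.nd (nat_lit 243) 
 (.lf (.mk fun X => (Nat.add (X (nat_lit 295)) (Nat.add (X (nat_lit 296)) (Nat.add (X (nat_lit 298)) (Nat.add (X (nat_lit 304)) (Nat.add (X (nat_lit 306)) (Nat.mul (nat_lit 2) (X (nat_lit 310)))))))))) 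
 (.lf (.mk fun X => (Nat.add (X (nat_lit 295)) (Nat.add (X (nat_lit 309)) (Nat.add (X (nat_lit 316)) (Nat.mul (nat_lit 2) (Nat.add (X (nat_lit 297)) (X (nat_lit 305)))))))))))) (.nd (nat_lit 247) (.nd (nat_lit 245) 
 (.lf (.mk fun X => (Nat.add (X (nat_lit 295)) (Nat.add (X (nat_lit 299)) (Nat.add (X (nat_lit 301)) (Nat.add (X (nat_lit 305)) (Nat.add (X (nat_lit 307)) (Nat.mul (nat_lit 2) (X (nat_lit 318)))))))))) (.nd (nat_lit 246) 
 (.lf (.mk fun X => (Nat.add (X (nat_lit 295)) (Nat.add (X (nat_lit 317)) (Nat.add (X (nat_lit 319)) (Nat.mul (nat_lit 2) (Nat.add (X (nat_lit 300)) (X (nat_lit 306))))))))) 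
 (.lf (.mk fun X => (Nat.add (X (nat_lit 329)) (Nat.add (Nat.mul (nat_lit 2) (X (nat_lit 296))) (Nat.mul (nat_lit 4) (X (nat_lit 299))))))))) (.nd (nat_lit 249) (.nd (nat_lit 248) 
 (.lf (.mk fun X => (Nat.add (X (nat_lit 296)) (Nat.add (X (nat_lit 304)) (Nat.add (X (nat_lit 305)) (Nat.add (X (nat_lit 311)) (Nat.add (X (nat_lit 328)) (Nat.mul (nat_lit 2) (X (nat_lit 300)))))))))) 
 (.lf (.mk fun X => (Nat.add (X (nat_lit 296)) (Nat.add (X (nat_lit 308)) (Nat.add (X (nat_lit 327)) (Nat.mul (nat_lit 2) (Nat.add (X (nat_lit 301)) (X (nat_lit 312)))))))))) (.nd (nat_lit 250) 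
 (.lf (.mk fun X => (Nat.add (X (nat_lit 297)) (Nat.add (X (nat_lit 299)) (Nat.add (X (nat_lit 300)) (Nat.add (X (nat_lit 309)) (Nat.add (X (nat_lit 310)) (Nat.add (X (nat_lit 320)) (X (nat_lit 325)))))))))) 
 (.lf (.mk fun X => (Nat.add (X (nat_lit 297)) (Nat.add (X (nat_lit 300)) (Nat.add (X (nat_lit 301)) (Nat.add (X (nat_lit 311)) (Nat.add (X (nat_lit 312)) (Nat.add (X (nat_lit 323)) (X (nat_lit 324)))))))))))))))) (.nd (nat_lit 276) (.nd (nat_lit 263) (.nd (nat_lit 257) (.nd (nat_lit 254) (.nd (nat_lit 252) 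
 (.lf (.mk fun X => (Nat.add (X (nat_lit 298)) (Nat.add (X (nat_lit 299)) (Nat.add (X (nat_lit 301)) (Nat.add (X (nat_lit 311)) (Nat.add (X (nat_lit 314)) (Nat.mul (nat_lit 2) (X (nat_lit 321)))))))))) (.nd (nat_lit 253) 
 (.lf (.mk fun X => (Nat.add (X (nat_lit 298)) (Nat.add (X (nat_lit 320)) (Nat.add (X (nat_lit 322)) (Nat.mul (nat_lit 2) (Nat.add (X (nat_lit 300)) (X (nat_lit 313))))))))) 
 (.lf (.mk fun X => (Nat.add (X (nat_lit 299)) (Nat.add (X (nat_lit 300)) (Nat.add (X (nat_lit 302)) (Nat.add (X (nat_lit 310)) (Nat.add (X (nat_lit 318)) (Nat.add (X (nat_lit 321)) (X (nat_lit 333)))))))))))) (.nd (nat_lit 255) 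
 (.lf (.mk fun X => (Nat.add (X (nat_lit 299)) (Nat.add (X (nat_lit 301)) (Nat.add (X (nat_lit 303)) (Nat.add (X (nat_lit 312)) (Nat.add (X (nat_lit 331)) (Nat.mul (nat_lit 2) (X (nat_lit 322)))))))))) (.nd (nat_lit 256) 
 (.lf (.mk fun X => (Nat.add (X (nat_lit 303)) (Nat.add (X (nat_lit 313)) (Nat.add (X (nat_lit 332)) (Nat.mul (nat_lit 2) (Nat.add (X (nat_lit 300)) (X (nat_lit 324))))))))) 
 (.lf (.mk fun X => (Nat.add (X (nat_lit 300)) (Nat.add (X (nat_lit 301)) (Nat.add (X (nat_lit 302)) (Nat.add (X (nat_lit 314)) (Nat.add (X (nat_lit 325)) (Nat.add (X (nat_lit 326)) (X (nat_lit 330))))))))))))) (.nd (nat_lit 260) (.nd (nat_lit 258) 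
 (.lf (.mk fun X => (Nat.add (X (nat_lit 303)) (Nat.add (X (nat_lit 334)) (Nat.add (X (nat_lit 336)) (Nat.mul (nat_lit 2) (Nat.add (X (nat_lit 302)) (X (nat_lit 335))))))))) (.nd (nat_lit 259) 
 (.lf (.mk fun X => (Nat.add (X (nat_lit 342)) (Nat.mul (nat_lit 2) (Nat.add (X (nat_lit 304)) (Nat.add (X (nat_lit 306)) (X (nat_lit 313)))))))) 
 (.lf (.mk fun X => (Nat.add (X (nat_lit 304)) (Nat.add (X (nat_lit 307)) (Nat.add (X (nat_lit 308)) (Nat.add (X (nat_lit 340)) (Nat.mul (nat_lit 3) (X (nat_lit 314))))))))))) (.nd (nat_lit 261) 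
 (.lf (.mk fun X => (Nat.add (X (nat_lit 309)) (Nat.add (X (nat_lit 316)) (Nat.add (X (nat_lit 338)) (Nat.mul (nat_lit 2) (Nat.add (X (nat_lit 305)) (X (nat_lit 323))))))))) (.nd (nat_lit 262) 
 (.lf (.mk fun X => (Nat.add (X (nat_lit 305)) (Nat.add (X (nat_lit 306)) (Nat.add (X (nat_lit 310)) (Nat.add (X (nat_lit 317)) (Nat.add (X (nat_lit 320)) (Nat.add (X (nat_lit 328)) (X (nat_lit 330)))))))))) 
 (.lf (.mk fun X => (Nat.add (X (nat_lit 305)) (Nat.add (X (nat_lit 306)) (Nat.add (X (nat_lit 311)) (Nat.add (X (nat_lit 327)) (Nat.add (X (nat_lit 340)) (Nat.mul (nat_lit 2) (X (nat_lit 324)))))))))))))) (.nd (nat_lit 269) (.nd (nat_lit 266) (.nd (nat_lit 264) 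
 (.lf (.mk fun X => (Nat.add (X (nat_lit 305)) (Nat.add (X (nat_lit 307)) (Nat.add (X (nat_lit 312)) (Nat.add (X (nat_lit 331)) (Nat.add (X (nat_lit 338)) (Nat.mul (nat_lit 2) (X (nat_lit 325)))))))))) (.nd (nat_lit 265) 
 (.lf (.mk fun X => (Nat.add (X (nat_lit 313)) (Nat.add (X (nat_lit 332)) (Nat.add (X (nat_lit 342)) (Nat.mul (nat_lit 2) (Nat.add (X (nat_lit 306)) (X (nat_lit 328))))))))) 
 (.lf (.mk fun X => (Nat.add (X (nat_lit 306)) (Nat.add (X (nat_lit 307)) (Nat.add (X (nat_lit 314)) (Nat.add (X (nat_lit 328)) (Nat.add (X (nat_lit 329)) (Nat.mul (nat_lit 2) (X (nat_lit 333)))))))))))) (.nd (nat_lit 267) 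
 (.lf (.mk fun X => (Nat.add (X (nat_lit 309)) (Nat.add (X (nat_lit 315)) (Nat.add (X (nat_lit 319)) (Nat.mul (nat_lit 2) (Nat.add (X (nat_lit 310)) (X (nat_lit 318))))))))) (.nd (nat_lit 268) 
 (.lf (.mk fun X => (Nat.add (X (nat_lit 337)) (Nat.mul (nat_lit 3) (Nat.add (X (nat_lit 309)) (X (nat_lit 317))))))) 
 (.lf (.mk fun X => (Nat.add (X (nat_lit 309)) (Nat.add (X (nat_lit 310)) (Nat.add (X (nat_lit 311)) (Nat.add (X (nat_lit 316)) (Nat.add (X (nat_lit 318)) (Nat.add (X (nat_lit 325)) (X (nat_lit 330))))))))))))) (.nd (nat_lit 272) (.nd (nat_lit 270) 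
 (.lf (.mk fun X => (Nat.add (X (nat_lit 309)) (Nat.add (X (nat_lit 319)) (Nat.add (X (nat_lit 339)) (Nat.mul (nat_lit 2) (Nat.add (X (nat_lit 312)) (X (nat_lit 324))))))))) (.nd (nat_lit 271) 
 (.lf (.mk fun X => (Nat.add (X (nat_lit 334)) (Nat.add (Nat.mul (nat_lit 2) (X (nat_lit 313))) (Nat.mul (nat_lit 4) (X (nat_lit 310))))))) 
 (.lf (.mk fun X => (Nat.add (X (nat_lit 310)) (Nat.add (X (nat_lit 311)) (Nat.add (X (nat_lit 313)) (Nat.add (X (nat_lit 319)) (Nat.add (X (nat_lit 322)) (Nat.add (X (nat_lit 330)) (X (nat_lit 332)))))))))))) (.nd (nat_lit 274) (.nd (nat_lit 273) 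
 (.lf (.mk fun X => (Nat.add (X (nat_lit 310)) (Nat.add (X (nat_lit 312)) (Nat.add (X (nat_lit 314)) (Nat.add (X (nat_lit 318)) (Nat.add (X (nat_lit 321)) (Nat.add (X (nat_lit 324)) (X (nat_lit 335)))))))))) 
 (.lf (.mk fun X => (Nat.add (X (nat_lit 311)) (Nat.add (X (nat_lit 312)) (Nat.add (X (nat_lit 314)) (Nat.add (X (nat_lit 331)) (Nat.add (X (nat_lit 341)) (Nat.mul (nat_lit 2) (X (nat_lit 326))))))))))) (.nd (nat_lit 275) 
 (.lf (.mk fun X => (Nat.add (X (nat_lit 343)) (Nat.mul (nat_lit 3) (Nat.add (X (nat_lit 313)) (X (nat_lit 332))))))) 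
 (.lf (.mk fun X => (Nat.add (X (nat_lit 313)) (Nat.add (X (nat_lit 332)) (Nat.add (X (nat_lit 336)) (Nat.mul (nat_lit 2) (Nat.add (X (nat_lit 314)) (X (nat_lit 333)))))))))))))) (.nd (nat_lit 288) (.nd (nat_lit 282) (.nd (nat_lit 279) (.nd (nat_lit 277) 
 (.lf (.mk fun X => (Nat.add (X (nat_lit 315)) (Nat.mul (nat_lit 3) (Nat.add (X (nat_lit 316)) (X (nat_lit 317))))))) (.nd (nat_lit 278) 
 (.lf (.mk fun X => (Nat.add (X (nat_lit 316)) (Nat.add (X (nat_lit 317)) (Nat.add (X (nat_lit 339)) (Nat.mul (nat_lit 2) (Nat.add (X (nat_lit 323)) (X (nat_lit 327))))))))) 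
 (.lf (.mk fun X => (Nat.add (X (nat_lit 316)) (Nat.add (X (nat_lit 318)) (Nat.add (X (nat_lit 320)) (Nat.add (X (nat_lit 323)) (Nat.add (X (nat_lit 324)) (Nat.add (X (nat_lit 330)) (X (nat_lit 331)))))))))))) (.nd (nat_lit 280) 
 (.lf (.mk fun X => (Nat.add (X (nat_lit 316)) (Nat.add (X (nat_lit 319)) (Nat.add (X (nat_lit 337)) (Nat.mul (nat_lit 2) (Nat.add (X (nat_lit 325)) (X (nat_lit 330))))))))) (.nd (nat_lit 281) 
 (.lf (.mk fun X => (Nat.add (X (nat_lit 329)) (Nat.mul (nat_lit 2) (Nat.add (X (nat_lit 317)) (Nat.add (X (nat_lit 318)) (X (nat_lit 325)))))))) 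
 (.lf (.mk fun X => (Nat.add (X (nat_lit 317)) (Nat.add (X (nat_lit 319)) (Nat.add (X (nat_lit 338)) (Nat.mul (nat_lit 2) (Nat.add (X (nat_lit 324)) (X (nat_lit 328)))))))))))) (.nd (nat_lit 285) (.nd (nat_lit 283) 
 (.lf (.mk fun X => (Nat.add (X (nat_lit 334)) (Nat.mul (nat_lit 2) (Nat.add (X (nat_lit 318)) (Nat.add (X (nat_lit 322)) (X (nat_lit 325)))))))) (.nd (nat_lit 284) 
 (.lf (.mk fun X => (Nat.add (X (nat_lit 318)) (Nat.add (X (nat_lit 319)) (Nat.add (X (nat_lit 320)) (Nat.add (X (nat_lit 321)) (Nat.add (X (nat_lit 325)) (Nat.add (X (nat_lit 326)) (X (nat_lit 333)))))))))) 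
 (.lf (.mk fun X => (Nat.add (X (nat_lit 320)) (Nat.add (X (nat_lit 322)) (Nat.add (X (nat_lit 341)) (Nat.mul (nat_lit 2) (Nat.add (X (nat_lit 324)) (X (nat_lit 332))))))))))) (.nd (nat_lit 286) 
 (.lf (.mk fun X => (Nat.add (X (nat_lit 336)) (Nat.mul (nat_lit 2) (Nat.add (X (nat_lit 321)) (Nat.add (X (nat_lit 322)) (X (nat_lit 326)))))))) (.nd (nat_lit 287) 
 (.lf (.mk fun X => (Nat.add (X (nat_lit 323)) (Nat.add (X (nat_lit 324)) (Nat.add (X (nat_lit 325)) (Nat.add (X (nat_lit 330)) (Nat.add (X (nat_lit 331)) (Nat.add (X (nat_lit 339)) (X (nat_lit 341)))))))))) 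
 (.lf (.mk fun X => (Nat.add (X (nat_lit 324)) (Nat.add (X (nat_lit 325)) (Nat.add (X (nat_lit 326)) (Nat.add (X (nat_lit 330)) (Nat.add (X (nat_lit 331)) (Nat.add (X (nat_lit 333)) (X (nat_lit 335)))))))))))))) (.nd (nat_lit 294) (.nd (nat_lit 291) (.nd (nat_lit 289) 
 (.lf (.mk fun X => (Nat.add (X (nat_lit 327)) (Nat.add (X (nat_lit 328)) (Nat.add (X (nat_lit 338)) (Nat.add (X (nat_lit 340)) (Nat.add (X (nat_lit 341)) (Nat.mul (nat_lit 2) (X (nat_lit 330)))))))))) (.nd (nat_lit 290) 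
 (.lf (.mk fun X => (Nat.add (X (nat_lit 329)) (Nat.add (Nat.mul (nat_lit 2) (X (nat_lit 327))) (Nat.mul (nat_lit 4) (X (nat_lit 331))))))) 
 (.lf (.mk fun X => (Nat.add (X (nat_lit 342)) (Nat.mul (nat_lit 2) (Nat.add (X (nat_lit 328)) (Nat.add (X (nat_lit 332)) (X (nat_lit 340)))))))))) (.nd (nat_lit 292) 
 (.lf (.mk fun X => (Nat.add (X (nat_lit 334)) (Nat.add (Nat.mul (nat_lit 2) (X (nat_lit 332))) (Nat.mul (nat_lit 4) (X (nat_lit 330))))))) (.nd (nat_lit 293) 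
 (.lf (.mk fun X => (Nat.add (X (nat_lit 337)) (Nat.mul (nat_lit 3) (Nat.add (X (nat_lit 338)) (X (nat_lit 339))))))) 
 (.lf (.mk fun X => (Nat.add (X (nat_lit 343)) (Nat.mul (nat_lit 6) (X (nat_lit 342))))))))) (.nd (nat_lit 297) (.nd (nat_lit 295) 
 (.lf (.mk fun X => (Nat.add (Nat.mul (nat_lit 2) (X (nat_lit 351))) (Nat.mul (nat_lit 4) (X (nat_lit 344)))))) (.nd (nat_lit 296) 
 (.lf (.mk fun X => (Nat.mul (nat_lit 2) (Nat.add (X (nat_lit 344)) (Nat.add (X (nat_lit 346)) (X (nat_lit 351))))))) 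
 (.lf (.mk fun X => (Nat.add (X (nat_lit 347)) (Nat.add (X (nat_lit 355)) (Nat.mul (nat_lit 2) (Nat.add (X (nat_lit 344)) (X (nat_lit 348)))))))))) (.nd (nat_lit 299) (.nd (nat_lit 298) 
 (.lf (.mk fun X => (Nat.mul (nat_lit 2) (Nat.add (X (nat_lit 344)) (Nat.add (X (nat_lit 348)) (X (nat_lit 353))))))) 
 (.lf (.mk fun X => (Nat.mul (nat_lit 2) (Nat.add (X (nat_lit 344)) (Nat.add (X (nat_lit 349)) (X (nat_lit 352)))))))) (.nd (nat_lit 300) 
 (.lf (.mk fun X => (Nat.add (X (nat_lit 344)) (Nat.add (X (nat_lit 345)) (Nat.add (X (nat_lit 348)) (Nat.add (X (nat_lit 358)) (Nat.mul (nat_lit 2) (X (nat_lit 352))))))))) 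
 (.lf (.mk fun X => (Nat.add (X (nat_lit 344)) (Nat.add (X (nat_lit 345)) (Nat.add (X (nat_lit 349)) (Nat.add (X (nat_lit 353)) (Nat.add (X (nat_lit 354)) (X (nat_lit 357)))))))))))))))) (.nd (nat_lit 351) (.nd (nat_lit 326) (.nd (nat_lit 313) (.nd (nat_lit 307) (.nd (nat_lit 304) (.nd (nat_lit 302) 
 (.lf (.mk fun X => (Nat.add (X (nat_lit 344)) (Nat.add (X (nat_lit 345)) (Nat.add (X (nat_lit 350)) (Nat.add (X (nat_lit 356)) (Nat.mul (nat_lit 2) (X (nat_lit 354))))))))) (.nd (nat_lit 303) 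
 (.lf (.mk fun X => (Nat.mul (nat_lit 2) (Nat.add (X (nat_lit 345)) (Nat.add (X (nat_lit 359)) (X (nat_lit 362))))))) 
 (.lf (.mk fun X => (Nat.mul (nat_lit 2) (Nat.add (X (nat_lit 345)) (Nat.add (X (nat_lit 360)) (X (nat_lit 361))))))))) (.nd (nat_lit 305) 
 (.lf (.mk fun X => (Nat.add (X (nat_lit 346)) (Nat.add (X (nat_lit 347)) (Nat.add (X (nat_lit 368)) (Nat.mul (nat_lit 3) (X (nat_lit 349)))))))) (.nd (nat_lit 306) 
 (.lf (.mk fun X => (Nat.add (X (nat_lit 346)) (Nat.add (X (nat_lit 348)) (Nat.add (X (nat_lit 356)) (Nat.add (X (nat_lit 364)) (Nat.mul (nat_lit 2) (X (nat_lit 353))))))))) 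
 (.lf (.mk fun X => (Nat.add (X (nat_lit 346)) (Nat.add (X (nat_lit 349)) (Nat.add (X (nat_lit 355)) (Nat.add (X (nat_lit 368)) (Nat.mul (nat_lit 2) (X (nat_lit 357)))))))))))) (.nd (nat_lit 310) (.nd (nat_lit 308) 
 (.lf (.mk fun X => (Nat.add (X (nat_lit 346)) (Nat.add (X (nat_lit 350)) (Nat.add (X (nat_lit 364)) (Nat.mul (nat_lit 3) (X (nat_lit 358)))))))) (.nd (nat_lit 309) 
 (.lf (.mk fun X => (Nat.add (X (nat_lit 347)) (Nat.add (X (nat_lit 369)) (Nat.mul (nat_lit 4) (X (nat_lit 350))))))) 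
 (.lf (.mk fun X => (Nat.add (X (nat_lit 351)) (Nat.add (X (nat_lit 363)) (Nat.mul (nat_lit 2) (Nat.add (X (nat_lit 348)) (X (nat_lit 353)))))))))) (.nd (nat_lit 311) 
 (.lf (.mk fun X => (Nat.add (X (nat_lit 348)) (Nat.add (X (nat_lit 349)) (Nat.add (X (nat_lit 351)) (Nat.add (X (nat_lit 352)) (Nat.add (X (nat_lit 357)) (X (nat_lit 359))))))))) (.nd (nat_lit 312) 
 (.lf (.mk fun X => (Nat.add (X (nat_lit 348)) (Nat.add (X (nat_lit 349)) (Nat.add (X (nat_lit 356)) (Nat.add (X (nat_lit 366)) (Nat.mul (nat_lit 2) (X (nat_lit 354))))))))) 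
 (.lf (.mk fun X => (Nat.add (X (nat_lit 348)) (Nat.add (X (nat_lit 350)) (Nat.add (X (nat_lit 360)) (Nat.add (X (nat_lit 365)) (Nat.mul (nat_lit 2) (X (nat_lit 354))))))))))))) (.nd (nat_lit 319) (.nd (nat_lit 316) (.nd (nat_lit 314) 
 (.lf (.mk fun X => (Nat.add (X (nat_lit 361)) (Nat.add (X (nat_lit 370)) (Nat.mul (nat_lit 2) (Nat.add (X (nat_lit 349)) (X (nat_lit 357)))))))) (.nd (nat_lit 315) 
 (.lf (.mk fun X => (Nat.add (X (nat_lit 349)) (Nat.add (X (nat_lit 350)) (Nat.add (X (nat_lit 358)) (Nat.add (X (nat_lit 366)) (Nat.mul (nat_lit 2) (X (nat_lit 362))))))))) 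
 (.lf (.mk fun X => (Nat.mul (nat_lit 6) (X (nat_lit 351))))))) (.nd (nat_lit 317) 
 (.lf (.mk fun X => (Nat.add (X (nat_lit 351)) (Nat.add (X (nat_lit 363)) (Nat.mul (nat_lit 2) (Nat.add (X (nat_lit 353)) (X (nat_lit 356)))))))) (.nd (nat_lit 318) 
 (.lf (.mk fun X => (Nat.add (X (nat_lit 351)) (Nat.add (X (nat_lit 363)) (Nat.mul (nat_lit 2) (Nat.add (X (nat_lit 353)) (X (nat_lit 355)))))))) 
 (.lf (.mk fun X => (Nat.add (X (nat_lit 351)) (Nat.add (X (nat_lit 352)) (Nat.add (X (nat_lit 353)) (Nat.add (X (nat_lit 354)) (Nat.add (X (nat_lit 358)) (X (nat_lit 359)))))))))))) (.nd (nat_lit 322) (.nd (nat_lit 320) 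
 (.lf (.mk fun X => (Nat.add (X (nat_lit 351)) (Nat.add (X (nat_lit 363)) (Nat.mul (nat_lit 2) (Nat.add (X (nat_lit 354)) (X (nat_lit 357)))))))) (.nd (nat_lit 321) 
 (.lf (.mk fun X => (Nat.add (X (nat_lit 352)) (Nat.add (X (nat_lit 367)) (Nat.mul (nat_lit 2) (Nat.add (X (nat_lit 353)) (X (nat_lit 357)))))))) 
 (.lf (.mk fun X => (Nat.mul (nat_lit 2) (Nat.add (X (nat_lit 352)) (Nat.add (X (nat_lit 354)) (X (nat_lit 362))))))))) (.nd (nat_lit 324) (.nd (nat_lit 323) 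
 (.lf (.mk fun X => (Nat.add (X (nat_lit 352)) (Nat.add (X (nat_lit 367)) (Nat.mul (nat_lit 2) (Nat.add (X (nat_lit 354)) (X (nat_lit 361)))))))) 
 (.lf (.mk fun X => (Nat.mul (nat_lit 2) (Nat.add (X (nat_lit 353)) (Nat.add (X (nat_lit 356)) (X (nat_lit 365)))))))) (.nd (nat_lit 325) 
 (.lf (.mk fun X => (Nat.add (X (nat_lit 353)) (Nat.add (X (nat_lit 354)) (Nat.add (X (nat_lit 357)) (Nat.add (X (nat_lit 360)) (Nat.add (X (nat_lit 365)) (X (nat_lit 366))))))))) 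
 (.lf (.mk fun X => (Nat.add (X (nat_lit 353)) (Nat.add (X (nat_lit 354)) (Nat.add (X (nat_lit 358)) (Nat.add (X (nat_lit 359)) (Nat.add (X (nat_lit 363)) (X (nat_lit 367)))))))))))))) (.nd (nat_lit 338) (.nd (nat_lit 332) (.nd (nat_lit 329) (.nd (nat_lit 327) 
 (.lf (.mk fun X => (Nat.mul (nat_lit 2) (Nat.add (X (nat_lit 354)) (Nat.add (X (nat_lit 362)) (X (nat_lit 367))))))) (.nd (nat_lit 328) 
 (.lf (.mk fun X => (Nat.add (X (nat_lit 355)) (Nat.add (X (nat_lit 369)) (Nat.mul (nat_lit 2) (Nat.add (X (nat_lit 356)) (X (nat_lit 365)))))))) 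
 (.lf (.mk fun X => (Nat.add (X (nat_lit 355)) (Nat.add (X (nat_lit 364)) (Nat.add (X (nat_lit 366)) (Nat.add (X (nat_lit 368)) (Nat.mul (nat_lit 2) (X (nat_lit 357))))))))))) (.nd (nat_lit 330) 
 (.lf (.mk fun X => (Nat.add (Nat.mul (nat_lit 2) (X (nat_lit 355))) (Nat.mul (nat_lit 4) (X (nat_lit 358)))))) (.nd (nat_lit 331) 
 (.lf (.mk fun X => (Nat.add (X (nat_lit 356)) (Nat.add (X (nat_lit 357)) (Nat.add (X (nat_lit 359)) (Nat.add (X (nat_lit 363)) (Nat.add (X (nat_lit 366)) (X (nat_lit 367))))))))) 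
 (.lf (.mk fun X => (Nat.add (X (nat_lit 356)) (Nat.add (X (nat_lit 358)) (Nat.add (X (nat_lit 360)) (Nat.add (X (nat_lit 365)) (Nat.mul (nat_lit 2) (X (nat_lit 367)))))))))))) (.nd (nat_lit 335) (.nd (nat_lit 333) 
 (.lf (.mk fun X => (Nat.add (X (nat_lit 361)) (Nat.add (X (nat_lit 370)) (Nat.mul (nat_lit 2) (Nat.add (X (nat_lit 357)) (X (nat_lit 366)))))))) (.nd (nat_lit 334) 
 (.lf (.mk fun X => (Nat.mul (nat_lit 2) (Nat.add (X (nat_lit 357)) (Nat.add (X (nat_lit 358)) (X (nat_lit 362))))))) 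
 (.lf (.mk fun X => (Nat.add (Nat.mul (nat_lit 2) (X (nat_lit 361))) (Nat.mul (nat_lit 4) (X (nat_lit 359)))))))) (.nd (nat_lit 336) 
 (.lf (.mk fun X => (Nat.mul (nat_lit 2) (Nat.add (X (nat_lit 359)) (Nat.add (X (nat_lit 360)) (X (nat_lit 362))))))) (.nd (nat_lit 337) 
 (.lf (.mk fun X => (Nat.add (Nat.mul (nat_lit 2) (X (nat_lit 361))) (Nat.mul (nat_lit 4) (X (nat_lit 362)))))) 
 (.lf (.mk fun X => (Nat.mul (nat_lit 6) (X (nat_lit 363))))))))) (.nd (nat_lit 344) (.nd (nat_lit 341) (.nd (nat_lit 339) 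
 (.lf (.mk fun X => (Nat.mul (nat_lit 2) (Nat.add (X (nat_lit 363)) (Nat.add (X (nat_lit 364)) (X (nat_lit 365))))))) (.nd (nat_lit 340) 
 (.lf (.mk fun X => (Nat.add (Nat.mul (nat_lit 2) (X (nat_lit 363))) (Nat.mul (nat_lit 4) (X (nat_lit 365)))))) 
 (.lf (.mk fun X => (Nat.add (X (nat_lit 364)) (Nat.add (X (nat_lit 368)) (Nat.add (X (nat_lit 369)) (Nat.mul (nat_lit 3) (X (nat_lit 366)))))))))) (.nd (nat_lit 342) 
 (.lf (.mk fun X => (Nat.mul (nat_lit 2) (Nat.add (X (nat_lit 365)) (Nat.add (X (nat_lit 366)) (X (nat_lit 367))))))) (.nd (nat_lit 343) 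
 (.lf (.mk fun X => (Nat.add (Nat.mul (nat_lit 2) (X (nat_lit 370))) (Nat.mul (nat_lit 4) (X (nat_lit 368)))))) 
 (.lf (.mk fun X => (Nat.mul (nat_lit 6) (X (nat_lit 370)))))))) (.nd (nat_lit 347) (.nd (nat_lit 345) 
 (.lf (.mk fun X => (Nat.add (X (nat_lit 371)) (Nat.add (X (nat_lit 372)) (Nat.add (X (nat_lit 374)) (Nat.mul (nat_lit 2) (X (nat_lit 373)))))))) (.nd (nat_lit 346) 
 (.lf (.mk fun X => (Nat.add (X (nat_lit 371)) (Nat.add (X (nat_lit 375)) (Nat.add (X (nat_lit 377)) (Nat.mul (nat_lit 2) (X (nat_lit 376)))))))) 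
 (.lf (.mk fun X => (Nat.add (X (nat_lit 372)) (Nat.add (X (nat_lit 384)) (Nat.mul (nat_lit 3) (X (nat_lit 374))))))))) (.nd (nat_lit 349) (.nd (nat_lit 348) 
 (.lf (.mk fun X => (Nat.add (X (nat_lit 385)) (Nat.mul (nat_lit 4) (X (nat_lit 372)))))) 
 (.lf (.mk fun X => (Nat.add (X (nat_lit 372)) (Nat.add (X (nat_lit 375)) (Nat.add (X (nat_lit 379)) (Nat.mul (nat_lit 2) (X (nat_lit 373))))))))) (.nd (nat_lit 350) 
 (.lf (.mk fun X => (Nat.add (X (nat_lit 372)) (Nat.add (X (nat_lit 374)) (Nat.add (X (nat_lit 386)) (Nat.mul (nat_lit 2) (X (nat_lit 376)))))))) 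
 (.lf (.mk fun X => (Nat.add (X (nat_lit 372)) (Nat.add (X (nat_lit 387)) (Nat.mul (nat_lit 3) (X (nat_lit 377))))))))))))) (.nd (nat_lit 376) (.nd (nat_lit 363) (.nd (nat_lit 357) (.nd (nat_lit 354) (.nd (nat_lit 352) 
 (.lf (.mk fun X => (Nat.add (X (nat_lit 378)) (Nat.mul (nat_lit 2) (Nat.add (X (nat_lit 373)) (X (nat_lit 374))))))) (.nd (nat_lit 353) 
 (.lf (.mk fun X => (Nat.add (X (nat_lit 381)) (Nat.mul (nat_lit 2) (Nat.add (X (nat_lit 373)) (X (nat_lit 376))))))) 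
 (.lf (.mk fun X => (Nat.add (X (nat_lit 373)) (Nat.add (X (nat_lit 374)) (Nat.add (X (nat_lit 375)) (Nat.add (X (nat_lit 379)) (X (nat_lit 380)))))))))) (.nd (nat_lit 355) 
 (.lf (.mk fun X => (Nat.add (X (nat_lit 373)) (Nat.add (X (nat_lit 376)) (Nat.add (X (nat_lit 377)) (Nat.add (X (nat_lit 380)) (X (nat_lit 382)))))))) (.nd (nat_lit 356) 
 (.lf (.mk fun X => (Nat.add (X (nat_lit 385)) (Nat.mul (nat_lit 2) (Nat.add (X (nat_lit 374)) (X (nat_lit 379))))))) 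
 (.lf (.mk fun X => (Nat.add (X (nat_lit 374)) (Nat.add (X (nat_lit 375)) (Nat.add (X (nat_lit 387)) (Nat.mul (nat_lit 2) (X (nat_lit 380))))))))))) (.nd (nat_lit 360) (.nd (nat_lit 358) 
 (.lf (.mk fun X => (Nat.add (X (nat_lit 374)) (Nat.add (X (nat_lit 376)) (Nat.add (X (nat_lit 379)) (Nat.add (X (nat_lit 382)) (X (nat_lit 386)))))))) (.nd (nat_lit 359) 
 (.lf (.mk fun X => (Nat.add (X (nat_lit 374)) (Nat.add (X (nat_lit 377)) (Nat.add (X (nat_lit 379)) (Nat.mul (nat_lit 2) (X (nat_lit 381)))))))) 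
 (.lf (.mk fun X => (Nat.add (X (nat_lit 375)) (Nat.add (X (nat_lit 376)) (Nat.add (X (nat_lit 378)) (Nat.add (X (nat_lit 381)) (X (nat_lit 382)))))))))) (.nd (nat_lit 361) 
 (.lf (.mk fun X => (Nat.add (X (nat_lit 375)) (Nat.add (X (nat_lit 377)) (Nat.add (X (nat_lit 389)) (Nat.mul (nat_lit 2) (X (nat_lit 382)))))))) (.nd (nat_lit 362) 
 (.lf (.mk fun X => (Nat.add (X (nat_lit 388)) (Nat.mul (nat_lit 2) (Nat.add (X (nat_lit 376)) (X (nat_lit 382))))))) 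
 (.lf (.mk fun X => (Nat.add (X (nat_lit 376)) (Nat.add (X (nat_lit 377)) (Nat.add (X (nat_lit 381)) (Nat.add (X (nat_lit 382)) (X (nat_lit 383)))))))))))) (.nd (nat_lit 369) (.nd (nat_lit 366) (.nd (nat_lit 364) 
 (.lf (.mk fun X => (Nat.add (X (nat_lit 378)) (Nat.mul (nat_lit 2) (Nat.add (X (nat_lit 379)) (X (nat_lit 380))))))) (.nd (nat_lit 365) 
 (.lf (.mk fun X => (Nat.add (X (nat_lit 384)) (Nat.add (X (nat_lit 387)) (Nat.mul (nat_lit 3) (X (nat_lit 379))))))) 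
 (.lf (.mk fun X => (Nat.add (X (nat_lit 379)) (Nat.add (X (nat_lit 387)) (Nat.add (X (nat_lit 389)) (Nat.mul (nat_lit 2) (X (nat_lit 380)))))))))) (.nd (nat_lit 367) 
 (.lf (.mk fun X => (Nat.add (X (nat_lit 379)) (Nat.add (X (nat_lit 386)) (Nat.add (X (nat_lit 387)) (Nat.mul (nat_lit 2) (X (nat_lit 382)))))))) (.nd (nat_lit 368) 
 (.lf (.mk fun X => (Nat.add (X (nat_lit 381)) (Nat.mul (nat_lit 2) (Nat.add (X (nat_lit 380)) (X (nat_lit 382))))))) 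
 (.lf (.mk fun X => (Nat.add (X (nat_lit 384)) (Nat.add (X (nat_lit 385)) (Nat.mul (nat_lit 3) (X (nat_lit 386)))))))))) (.nd (nat_lit 372) (.nd (nat_lit 370) 
 (.lf (.mk fun X => (Nat.add (X (nat_lit 385)) (Nat.mul (nat_lit 4) (X (nat_lit 387)))))) (.nd (nat_lit 371) 
 (.lf (.mk fun X => (Nat.add (X (nat_lit 388)) (Nat.mul (nat_lit 4) (X (nat_lit 386)))))) 
 (.lf (.mk fun X => (Nat.mul (nat_lit 4) (X (nat_lit 390))))))) (.nd (nat_lit 374) (.nd (nat_lit 373) 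
 (.lf (.mk fun X => (Nat.add (X (nat_lit 393)) (Nat.mul (nat_lit 3) (X (nat_lit 390)))))) 
 (.lf (.mk fun X => (Nat.mul (nat_lit 2) (Nat.add (X (nat_lit 390)) (X (nat_lit 391))))))) (.nd (nat_lit 375) 
 (.lf (.mk fun X => (Nat.add (X (nat_lit 390)) (Nat.add (X (nat_lit 393)) (Nat.mul (nat_lit 2) (X (nat_lit 391))))))) 
 (.lf (.mk fun X => (Nat.add (X (nat_lit 390)) (Nat.add (X (nat_lit 395)) (Nat.mul (nat_lit 2) (X (nat_lit 391)))))))))))) (.nd (nat_lit 389) (.nd (nat_lit 382) (.nd (nat_lit 379) (.nd (nat_lit 377) 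
 (.lf (.mk fun X => (Nat.add (X (nat_lit 390)) (Nat.add (X (nat_lit 391)) (Nat.add (X (nat_lit 392)) (X (nat_lit 394))))))) (.nd (nat_lit 378) 
 (.lf (.mk fun X => (Nat.add (X (nat_lit 390)) (Nat.add (X (nat_lit 395)) (Nat.mul (nat_lit 2) (X (nat_lit 392))))))) 
 (.lf (.mk fun X => (Nat.mul (nat_lit 4) (X (nat_lit 391))))))) (.nd (nat_lit 380) 
 (.lf (.mk fun X => (Nat.add (X (nat_lit 393)) (Nat.add (X (nat_lit 395)) (Nat.mul (nat_lit 2) (X (nat_lit 391))))))) (.nd (nat_lit 381) 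
 (.lf (.mk fun X => (Nat.mul (nat_lit 2) (Nat.add (X (nat_lit 391)) (X (nat_lit 395)))))) 
 (.lf (.mk fun X => (Nat.mul (nat_lit 2) (Nat.add (X (nat_lit 391)) (X (nat_lit 392))))))))) (.nd (nat_lit 385) (.nd (nat_lit 383) 
 (.lf (.mk fun X => (Nat.add (X (nat_lit 391)) (Nat.add (X (nat_lit 392)) (Nat.add (X (nat_lit 394)) (X (nat_lit 395))))))) (.nd (nat_lit 384) 
 (.lf (.mk fun X => (Nat.mul (nat_lit 4) (X (nat_lit 392))))) 
 (.lf (.mk fun X => (Nat.mul (nat_lit 4) (X (nat_lit 393))))))) (.nd (nat_lit 387) (.nd (nat_lit 386) 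
 (.lf (.mk fun X => (Nat.mul (nat_lit 4) (X (nat_lit 393))))) 
 (.lf (.mk fun X => (Nat.mul (nat_lit 2) (Nat.add (X (nat_lit 393)) (X (nat_lit 394))))))) (.nd (nat_lit 388) 
 (.lf (.mk fun X => (Nat.add (X (nat_lit 393)) (Nat.mul (nat_lit 3) (X (nat_lit 395)))))) 
 (.lf (.mk fun X => (Nat.mul (nat_lit 4) (X (nat_lit 394))))))))) (.nd (nat_lit 395) (.nd (nat_lit 392) (.nd (nat_lit 390) 
 (.lf (.mk fun X => (Nat.mul (nat_lit 4) (X (nat_lit 395))))) (.nd (nat_lit 391) 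
 (.lf (.mk fun X => (Nat.add (X (nat_lit 397)) (Nat.mul (nat_lit 2) (X (nat_lit 396)))))) 
 (.lf (.mk fun X => (Nat.add (X (nat_lit 396)) (Nat.add (X (nat_lit 397)) (X (nat_lit 398)))))))) (.nd (nat_lit 393) 
 (.lf (.mk fun X => (Nat.add (X (nat_lit 396)) (Nat.add (X (nat_lit 398)) (X (nat_lit 399)))))) (.nd (nat_lit 394) 
 (.lf (.mk fun X => (Nat.mul (nat_lit 3) (X (nat_lit 397))))) 
 (.lf (.mk fun X => (Nat.add (X (nat_lit 399)) (Nat.mul (nat_lit 2) (X (nat_lit 397))))))))) (.nd (nat_lit 398) (.nd (nat_lit 396) 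
 (.lf (.mk fun X => (Nat.add (X (nat_lit 397)) (Nat.mul (nat_lit 2) (X (nat_lit 398)))))) (.nd (nat_lit 397) 
 (.lf (.mk fun X => (Nat.mul (nat_lit 2) (X (nat_lit 400))))) 
 (.lf (.mk fun X => (Nat.mul (nat_lit 2) (X (nat_lit 400))))))) (.nd (nat_lit 400) (.nd (nat_lit 399) 
 (.lf (.mk fun X => (Nat.mul (nat_lit 2) (X (nat_lit 400))))) 
 (.lf (.mk fun X => (Nat.mul (nat_lit 2) (X (nat_lit 400)))))) (.nd (nat_lit 401) 
 (.lf (.mk fun X => (X (nat_lit 401)))) 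
 (.lf (.mk fun _ => nat_lit 0)))))))))))

noncomputable def dnT : Tb Bx := (.nd (nat_lit 201) (.nd (nat_lit 100) (.nd (nat_lit 50) (.nd (nat_lit 25) (.nd (nat_lit 12) (.nd (nat_lit 6) (.nd (nat_lit 3) (.nd (nat_lit 1) 
 (.lf (.mk fun _ => nat_lit 0)) (.nd (nat_lit 2) 
 (.lf (.mk fun X => (X (nat_lit 0)))) 
 (.lf (.mk fun X => (Nat.mul (nat_lit 2) (X (nat_lit 1))))))) (.nd (nat_lit 4) 
 (.lf (.mk fun X => (Nat.mul (nat_lit 2) (X (nat_lit 1))))) (.nd (nat_lit 5) 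
 (.lf (.mk fun X => (Nat.mul (nat_lit 2) (X (nat_lit 1))))) 
 (.lf (.mk fun X => (Nat.mul (nat_lit 2) (X (nat_lit 1)))))))) (.nd (nat_lit 9) (.nd (nat_lit 7) 
 (.lf (.mk fun X => (Nat.add (X (nat_lit 3)) (Nat.mul (nat_lit 2) (X (nat_lit 2)))))) (.nd (nat_lit 8) 
 (.lf (.mk fun X => (Nat.mul (nat_lit 3) (X (nat_lit 3))))) 
 (.lf (.mk fun X => (Nat.add (X (nat_lit 2)) (Nat.add (X (nat_lit 3)) (X (nat_lit 4)))))))) (.nd (nat_lit 10) 
 (.lf (.mk fun X => (Nat.add (X (nat_lit 3)) (Nat.mul (nat_lit 2) (X (nat_lit 4)))))) (.nd (nat_lit 11) 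
 (.lf (.mk fun X => (Nat.add (X (nat_lit 2)) (Nat.add (X (nat_lit 4)) (X (nat_lit 5)))))) 
 (.lf (.mk fun X => (Nat.add (X (nat_lit 5)) (Nat.mul (nat_lit 2) (X (nat_lit 3)))))))))) (.nd (nat_lit 18) (.nd (nat_lit 15) (.nd (nat_lit 13) 
 (.lf (.mk fun X => (Nat.mul (nat_lit 4) (X (nat_lit 6))))) (.nd (nat_lit 14) 
 (.lf (.mk fun X => (Nat.add (X (nat_lit 7)) (Nat.mul (nat_lit 3) (X (nat_lit 6)))))) 
 (.lf (.mk fun X => (Nat.mul (nat_lit 2) (Nat.add (X (nat_lit 6)) (X (nat_lit 8)))))))) (.nd (nat_lit 16) 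
 (.lf (.mk fun X => (Nat.add (X (nat_lit 6)) (Nat.add (X (nat_lit 7)) (Nat.mul (nat_lit 2) (X (nat_lit 8))))))) (.nd (nat_lit 17) 
 (.lf (.mk fun X => (Nat.mul (nat_lit 4) (X (nat_lit 8))))) 
 (.lf (.mk fun X => (Nat.mul (nat_lit 4) (X (nat_lit 7)))))))) (.nd (nat_lit 21) (.nd (nat_lit 19) 
 (.lf (.mk fun X => (Nat.mul (nat_lit 4) (X (nat_lit 7))))) (.nd (nat_lit 20) 
 (.lf (.mk fun X => (Nat.add (X (nat_lit 6)) (Nat.add (X (nat_lit 9)) (Nat.mul (nat_lit 2) (X (nat_lit 8))))))) 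
 (.lf (.mk fun X => (Nat.add (X (nat_lit 7)) (Nat.add (X (nat_lit 9)) (Nat.mul (nat_lit 2) (X (nat_lit 8))))))))) (.nd (nat_lit 23) (.nd (nat_lit 22) 
 (.lf (.mk fun X => (Nat.mul (nat_lit 2) (Nat.add (X (nat_lit 8)) (X (nat_lit 9)))))) 
 (.lf (.mk fun X => (Nat.add (X (nat_lit 7)) (Nat.mul (nat_lit 3) (X (nat_lit 9))))))) (.nd (nat_lit 24) 
 (.lf (.mk fun X => (Nat.add (X (nat_lit 6)) (Nat.add (X (nat_lit 8)) (Nat.add (X (nat_lit 10)) (X (nat_lit 11))))))) 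
 (.lf (.mk fun X => (Nat.mul (nat_lit 2) (Nat.add (X (nat_lit 7)) (X (nat_lit 11))))))))))) (.nd (nat_lit 37) (.nd (nat_lit 31) (.nd (nat_lit 28) (.nd (nat_lit 26) 
 (.lf (.mk fun X => (Nat.mul (nat_lit 2) (Nat.add (X (nat_lit 8)) (X (nat_lit 10)))))) (.nd (nat_lit 27) 
 (.lf (.mk fun X => (Nat.add (X (nat_lit 8)) (Nat.add (X (nat_lit 9)) (Nat.add (X (nat_lit 10)) (X (nat_lit 11))))))) 
 (.lf (.mk fun X => (Nat.add (X (nat_lit 6)) (Nat.add (X (nat_lit 9)) (Nat.mul (nat_lit 2) (X (nat_lit 10))))))))) (.nd (nat_lit 29) 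
 (.lf (.mk fun X => (Nat.mul (nat_lit 4) (X (nat_lit 10))))) (.nd (nat_lit 30) 
 (.lf (.mk fun X => (Nat.mul (nat_lit 4) (X (nat_lit 11))))) 
 (.lf (.mk fun X => (Nat.mul (nat_lit 4) (X (nat_lit 9)))))))) (.nd (nat_lit 34) (.nd (nat_lit 32) 
 (.lf (.mk fun X => (Nat.add (X (nat_lit 12)) (Nat.add (X (nat_lit 13)) (Nat.add (X (nat_lit 15)) (Nat.mul (nat_lit 2) (X (nat_lit 14)))))))) (.nd (nat_lit 33) 
 (.lf (.mk fun X => (Nat.add (X (nat_lit 16)) (Nat.mul (nat_lit 2) (Nat.add (X (nat_lit 14)) (X (nat_lit 15))))))) 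
 (.lf (.mk fun X => (Nat.add (X (nat_lit 13)) (Nat.add (X (nat_lit 17)) (Nat.mul (nat_lit 3) (X (nat_lit 15))))))))) (.nd (nat_lit 35) 
 (.lf (.mk fun X => (Nat.add (X (nat_lit 18)) (Nat.mul (nat_lit 4) (X (nat_lit 13)))))) (.nd (nat_lit 36) 
 (.lf (.mk fun X => (Nat.add (X (nat_lit 13)) (Nat.add (X (nat_lit 19)) (Nat.add (X (nat_lit 20)) (Nat.mul (nat_lit 2) (X (nat_lit 14)))))))) 
 (.lf (.mk fun X => (Nat.add (X (nat_lit 18)) (Nat.mul (nat_lit 2) (Nat.add (X (nat_lit 15)) (X (nat_lit 20))))))))))) (.nd (nat_lit 43) (.nd (nat_lit 40) (.nd (nat_lit 38) 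
 (.lf (.mk fun X => (Nat.add (X (nat_lit 14)) (Nat.add (X (nat_lit 15)) (Nat.add (X (nat_lit 19)) (Nat.add (X (nat_lit 20)) (X (nat_lit 21)))))))) (.nd (nat_lit 39) 
 (.lf (.mk fun X => (Nat.add (X (nat_lit 16)) (Nat.mul (nat_lit 2) (Nat.add (X (nat_lit 20)) (X (nat_lit 21))))))) 
 (.lf (.mk fun X => (Nat.add (X (nat_lit 17)) (Nat.add (X (nat_lit 22)) (Nat.mul (nat_lit 3) (X (nat_lit 20))))))))) (.nd (nat_lit 41) 
 (.lf (.mk fun X => (Nat.add (X (nat_lit 15)) (Nat.add (X (nat_lit 19)) (Nat.add (X (nat_lit 22)) (Nat.mul (nat_lit 2) (X (nat_lit 21)))))))) (.nd (nat_lit 42) 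
 (.lf (.mk fun X => (Nat.add (X (nat_lit 13)) (Nat.add (X (nat_lit 15)) (Nat.add (X (nat_lit 24)) (Nat.mul (nat_lit 2) (X (nat_lit 23)))))))) 
 (.lf (.mk fun X => (Nat.add (X (nat_lit 25)) (Nat.mul (nat_lit 2) (Nat.add (X (nat_lit 14)) (X (nat_lit 23)))))))))) (.nd (nat_lit 46) (.nd (nat_lit 44) 
 (.lf (.mk fun X => (Nat.add (X (nat_lit 17)) (Nat.add (X (nat_lit 18)) (Nat.mul (nat_lit 3) (X (nat_lit 24))))))) (.nd (nat_lit 45) 
 (.lf (.mk fun X => (Nat.add (X (nat_lit 16)) (Nat.add (X (nat_lit 19)) (Nat.add (X (nat_lit 23)) (Nat.add (X (nat_lit 25)) (X (nat_lit 26)))))))) 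
 (.lf (.mk fun X => (Nat.add (X (nat_lit 15)) (Nat.add (X (nat_lit 20)) (Nat.add (X (nat_lit 23)) (Nat.add (X (nat_lit 24)) (X (nat_lit 26)))))))))) (.nd (nat_lit 48) (.nd (nat_lit 47) 
 (.lf (.mk fun X => (Nat.add (X (nat_lit 15)) (Nat.add (X (nat_lit 20)) (Nat.add (X (nat_lit 27)) (Nat.mul (nat_lit 2) (X (nat_lit 25)))))))) 
 (.lf (.mk fun X => (Nat.add (X (nat_lit 12)) (Nat.add (X (nat_lit 19)) (Nat.add (X (nat_lit 27)) (Nat.mul (nat_lit 2) (X (nat_lit 23))))))))) (.nd (nat_lit 49) 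
 (.lf (.mk fun X => (Nat.add (X (nat_lit 14)) (Nat.add (X (nat_lit 21)) (Nat.add (X (nat_lit 23)) (Nat.add (X (nat_lit 26)) (X (nat_lit 27)))))))) 
 (.lf (.mk fun X => (Nat.add (X (nat_lit 13)) (Nat.add (X (nat_lit 22)) (Nat.mul (nat_lit 3) (X (nat_lit 27))))))))))))) (.nd (nat_lit 75) (.nd (nat_lit 62) (.nd (nat_lit 56) (.nd (nat_lit 53) (.nd (nat_lit 51) 
 (.lf (.mk fun X => (Nat.add (X (nat_lit 25)) (Nat.mul (nat_lit 2) (Nat.add (X (nat_lit 21)) (X (nat_lit 26))))))) (.nd (nat_lit 52) 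
 (.lf (.mk fun X => (Nat.add (X (nat_lit 20)) (Nat.add (X (nat_lit 22)) (Nat.add (X (nat_lit 24)) (Nat.mul (nat_lit 2) (X (nat_lit 26)))))))) 
 (.lf (.mk fun X => (Nat.add (X (nat_lit 23)) (Nat.add (X (nat_lit 25)) (Nat.add (X (nat_lit 26)) (Nat.add (X (nat_lit 27)) (X (nat_lit 28)))))))))) (.nd (nat_lit 54) 
 (.lf (.mk fun X => (Nat.add (X (nat_lit 29)) (Nat.mul (nat_lit 4) (X (nat_lit 24)))))) (.nd (nat_lit 55) 
 (.lf (.mk fun X => (Nat.add (X (nat_lit 29)) (Nat.mul (nat_lit 2) (Nat.add (X (nat_lit 23)) (X (nat_lit 26))))))) 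
 (.lf (.mk fun X => (Nat.add (X (nat_lit 20)) (Nat.add (X (nat_lit 22)) (Nat.add (X (nat_lit 30)) (Nat.mul (nat_lit 2) (X (nat_lit 21))))))))))) (.nd (nat_lit 59) (.nd (nat_lit 57) 
 (.lf (.mk fun X => (Nat.add (X (nat_lit 19)) (Nat.add (X (nat_lit 27)) (Nat.add (X (nat_lit 30)) (Nat.mul (nat_lit 2) (X (nat_lit 26)))))))) (.nd (nat_lit 58) 
 (.lf (.mk fun X => (Nat.add (X (nat_lit 18)) (Nat.mul (nat_lit 4) (X (nat_lit 22)))))) 
 (.lf (.mk fun X => (Nat.add (Nat.mul (nat_lit 2) (X (nat_lit 32))) (Nat.mul (nat_lit 4) (X (nat_lit 31)))))))) (.nd (nat_lit 60) 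
 (.lf (.mk fun X => (Nat.mul (nat_lit 2) (Nat.add (X (nat_lit 31)) (Nat.add (X (nat_lit 32)) (X (nat_lit 33))))))) (.nd (nat_lit 61) 
 (.lf (.mk fun X => (Nat.mul (nat_lit 6) (X (nat_lit 32))))) 
 (.lf (.mk fun X => (Nat.add (X (nat_lit 34)) (Nat.add (X (nat_lit 36)) (Nat.mul (nat_lit 2) (Nat.add (X (nat_lit 31)) (X (nat_lit 35)))))))))))) (.nd (nat_lit 68) (.nd (nat_lit 65) (.nd (nat_lit 63) 
 (.lf (.mk fun X => (Nat.mul (nat_lit 2) (Nat.add (X (nat_lit 31)) (Nat.add (X (nat_lit 35)) (X (nat_lit 37))))))) (.nd (nat_lit 64) 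
 (.lf (.mk fun X => (Nat.add (X (nat_lit 32)) (Nat.add (X (nat_lit 38)) (Nat.mul (nat_lit 2) (Nat.add (X (nat_lit 35)) (X (nat_lit 37)))))))) 
 (.lf (.mk fun X => (Nat.add (X (nat_lit 32)) (Nat.add (X (nat_lit 38)) (Nat.mul (nat_lit 2) (Nat.add (X (nat_lit 36)) (X (nat_lit 37)))))))))) (.nd (nat_lit 66) 
 (.lf (.mk fun X => (Nat.add (X (nat_lit 33)) (Nat.add (X (nat_lit 35)) (Nat.add (X (nat_lit 39)) (Nat.add (X (nat_lit 40)) (Nat.mul (nat_lit 2) (X (nat_lit 37))))))))) (.nd (nat_lit 67) 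
 (.lf (.mk fun X => (Nat.add (X (nat_lit 32)) (Nat.add (X (nat_lit 38)) (Nat.mul (nat_lit 2) (Nat.add (X (nat_lit 37)) (X (nat_lit 40)))))))) 
 (.lf (.mk fun X => (Nat.mul (nat_lit 2) (Nat.add (X (nat_lit 31)) (Nat.add (X (nat_lit 41)) (X (nat_lit 42)))))))))) (.nd (nat_lit 71) (.nd (nat_lit 69) 
 (.lf (.mk fun X => (Nat.add (X (nat_lit 33)) (Nat.add (X (nat_lit 34)) (Nat.add (X (nat_lit 43)) (Nat.mul (nat_lit 3) (X (nat_lit 41)))))))) (.nd (nat_lit 70) 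
 (.lf (.mk fun X => (Nat.add (X (nat_lit 32)) (Nat.add (X (nat_lit 35)) (Nat.add (X (nat_lit 41)) (Nat.add (X (nat_lit 42)) (Nat.add (X (nat_lit 44)) (X (nat_lit 45))))))))) 
 (.lf (.mk fun X => (Nat.add (X (nat_lit 33)) (Nat.add (X (nat_lit 36)) (Nat.add (X (nat_lit 41)) (Nat.add (X (nat_lit 43)) (Nat.mul (nat_lit 2) (X (nat_lit 45))))))))))) (.nd (nat_lit 73) (.nd (nat_lit 72) 
 (.lf (.mk fun X => (Nat.add (X (nat_lit 31)) (Nat.add (X (nat_lit 35)) (Nat.add (X (nat_lit 46)) (Nat.add (X (nat_lit 47)) (Nat.mul (nat_lit 2) (X (nat_lit 42))))))))) 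
 (.lf (.mk fun X => (Nat.add (X (nat_lit 32)) (Nat.add (X (nat_lit 37)) (Nat.add (X (nat_lit 42)) (Nat.add (X (nat_lit 44)) (Nat.add (X (nat_lit 46)) (X (nat_lit 48)))))))))) (.nd (nat_lit 74) 
 (.lf (.mk fun X => (Nat.add (X (nat_lit 31)) (Nat.add (X (nat_lit 37)) (Nat.add (X (nat_lit 41)) (Nat.add (X (nat_lit 45)) (Nat.add (X (nat_lit 47)) (X (nat_lit 48))))))))) 
 (.lf (.mk fun X => (Nat.add (X (nat_lit 32)) (Nat.add (X (nat_lit 38)) (Nat.mul (nat_lit 2) (Nat.add (X (nat_lit 45)) (X (nat_lit 48))))))))))))) (.nd (nat_lit 87) (.nd (nat_lit 81) (.nd (nat_lit 78) (.nd (nat_lit 76) 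
 (.lf (.mk fun X => (Nat.add (X (nat_lit 33)) (Nat.add (X (nat_lit 39)) (Nat.add (X (nat_lit 49)) (Nat.mul (nat_lit 3) (X (nat_lit 46)))))))) (.nd (nat_lit 77) 
 (.lf (.mk fun X => (Nat.add (X (nat_lit 31)) (Nat.add (X (nat_lit 40)) (Nat.add (X (nat_lit 47)) (Nat.add (X (nat_lit 49)) (Nat.mul (nat_lit 2) (X (nat_lit 48))))))))) 
 (.lf (.mk fun X => (Nat.mul (nat_lit 6) (X (nat_lit 38))))))) (.nd (nat_lit 79) 
 (.lf (.mk fun X => (Nat.add (Nat.mul (nat_lit 2) (X (nat_lit 36))) (Nat.mul (nat_lit 4) (X (nat_lit 46)))))) (.nd (nat_lit 80) 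
 (.lf (.mk fun X => (Nat.add (X (nat_lit 42)) (Nat.add (X (nat_lit 50)) (Nat.mul (nat_lit 2) (Nat.add (X (nat_lit 37)) (X (nat_lit 45)))))))) 
 (.lf (.mk fun X => (Nat.add (X (nat_lit 37)) (Nat.add (X (nat_lit 38)) (Nat.add (X (nat_lit 44)) (Nat.add (X (nat_lit 46)) (Nat.add (X (nat_lit 48)) (X (nat_lit 50)))))))))))) (.nd (nat_lit 84) (.nd (nat_lit 82) 
 (.lf (.mk fun X => (Nat.add (X (nat_lit 36)) (Nat.add (X (nat_lit 39)) (Nat.add (X (nat_lit 43)) (Nat.add (X (nat_lit 51)) (Nat.mul (nat_lit 2) (X (nat_lit 45))))))))) (.nd (nat_lit 83) 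
 (.lf (.mk fun X => (Nat.add (X (nat_lit 35)) (Nat.add (X (nat_lit 40)) (Nat.add (X (nat_lit 41)) (Nat.add (X (nat_lit 51)) (Nat.mul (nat_lit 2) (X (nat_lit 48))))))))) 
 (.lf (.mk fun X => (Nat.add (X (nat_lit 38)) (Nat.add (X (nat_lit 40)) (Nat.add (X (nat_lit 44)) (Nat.add (X (nat_lit 45)) (Nat.add (X (nat_lit 50)) (X (nat_lit 51))))))))))) (.nd (nat_lit 85) 
 (.lf (.mk fun X => (Nat.mul (nat_lit 2) (Nat.add (X (nat_lit 44)) (Nat.add (X (nat_lit 47)) (X (nat_lit 52))))))) (.nd (nat_lit 86) 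
 (.lf (.mk fun X => (Nat.mul (nat_lit 2) (Nat.add (X (nat_lit 42)) (Nat.add (X (nat_lit 48)) (X (nat_lit 52))))))) 
 (.lf (.mk fun X => (Nat.mul (nat_lit 2) (Nat.add (X (nat_lit 45)) (Nat.add (X (nat_lit 46)) (X (nat_lit 52))))))))))) (.nd (nat_lit 93) (.nd (nat_lit 90) (.nd (nat_lit 88) 
 (.lf (.mk fun X => (Nat.add (X (nat_lit 41)) (Nat.add (X (nat_lit 46)) (Nat.add (X (nat_lit 49)) (Nat.add (X (nat_lit 51)) (Nat.mul (nat_lit 2) (X (nat_lit 52))))))))) (.nd (nat_lit 89) 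
 (.lf (.mk fun X => (Nat.mul (nat_lit 2) (Nat.add (X (nat_lit 48)) (Nat.add (X (nat_lit 50)) (X (nat_lit 52))))))) 
 (.lf (.mk fun X => (Nat.add (X (nat_lit 53)) (Nat.add (X (nat_lit 54)) (Nat.mul (nat_lit 2) (Nat.add (X (nat_lit 41)) (X (nat_lit 45)))))))))) (.nd (nat_lit 91) 
 (.lf (.mk fun X => (Nat.add (Nat.mul (nat_lit 2) (X (nat_lit 54))) (Nat.mul (nat_lit 4) (X (nat_lit 44)))))) (.nd (nat_lit 92) 
 (.lf (.mk fun X => (Nat.add (Nat.mul (nat_lit 2) (X (nat_lit 53))) (Nat.mul (nat_lit 4) (X (nat_lit 43)))))) 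
 (.lf (.mk fun X => (Nat.add (X (nat_lit 42)) (Nat.add (X (nat_lit 50)) (Nat.mul (nat_lit 2) (Nat.add (X (nat_lit 48)) (X (nat_lit 54))))))))))) (.nd (nat_lit 96) (.nd (nat_lit 94) 
 (.lf (.mk fun X => (Nat.add (X (nat_lit 53)) (Nat.add (X (nat_lit 54)) (Nat.mul (nat_lit 2) (Nat.add (X (nat_lit 45)) (X (nat_lit 51)))))))) (.nd (nat_lit 95) 
 (.lf (.mk fun X => (Nat.mul (nat_lit 2) (Nat.add (X (nat_lit 37)) (Nat.add (X (nat_lit 40)) (X (nat_lit 55))))))) 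
 (.lf (.mk fun X => (Nat.mul (nat_lit 2) (Nat.add (X (nat_lit 38)) (Nat.add (X (nat_lit 39)) (X (nat_lit 55))))))))) (.nd (nat_lit 98) (.nd (nat_lit 97) 
 (.lf (.mk fun X => (Nat.add (X (nat_lit 37)) (Nat.add (X (nat_lit 45)) (Nat.add (X (nat_lit 48)) (Nat.add (X (nat_lit 51)) (Nat.add (X (nat_lit 55)) (X (nat_lit 56))))))))) 
 (.lf (.mk fun X => (Nat.add (X (nat_lit 35)) (Nat.add (X (nat_lit 49)) (Nat.add (X (nat_lit 55)) (Nat.add (X (nat_lit 56)) (Nat.mul (nat_lit 2) (X (nat_lit 48)))))))))) (.nd (nat_lit 99) 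
 (.lf (.mk fun X => (Nat.add (X (nat_lit 40)) (Nat.add (X (nat_lit 46)) (Nat.add (X (nat_lit 55)) (Nat.add (X (nat_lit 56)) (Nat.mul (nat_lit 2) (X (nat_lit 50))))))))) 
 (.lf (.mk fun X => (Nat.mul (nat_lit 2) (Nat.add (X (nat_lit 47)) (Nat.add (X (nat_lit 54)) (X (nat_lit 56)))))))))))))) (.nd (nat_lit 150) (.nd (nat_lit 125) (.nd (nat_lit 112) (.nd (nat_lit 106) (.nd (nat_lit 103) (.nd (nat_lit 101) 
 (.lf (.mk fun X => (Nat.mul (nat_lit 2) (Nat.add (X (nat_lit 44)) (Nat.add (X (nat_lit 52)) (X (nat_lit 56))))))) (.nd (nat_lit 102) 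
 (.lf (.mk fun X => (Nat.add (Nat.mul (nat_lit 2) (X (nat_lit 54))) (Nat.mul (nat_lit 4) (X (nat_lit 52)))))) 
 (.lf (.mk fun X => (Nat.mul (nat_lit 6) (X (nat_lit 53))))))) (.nd (nat_lit 104) 
 (.lf (.mk fun X => (Nat.add (X (nat_lit 36)) (Nat.add (X (nat_lit 57)) (Nat.mul (nat_lit 2) (Nat.add (X (nat_lit 40)) (X (nat_lit 55)))))))) (.nd (nat_lit 105) 
 (.lf (.mk fun X => (Nat.add (Nat.mul (nat_lit 2) (X (nat_lit 38))) (Nat.mul (nat_lit 4) (X (nat_lit 55)))))) 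
 (.lf (.mk fun X => (Nat.add (X (nat_lit 39)) (Nat.add (X (nat_lit 43)) (Nat.add (X (nat_lit 57)) (Nat.mul (nat_lit 3) (X (nat_lit 51))))))))))) (.nd (nat_lit 109) (.nd (nat_lit 107) 
 (.lf (.mk fun X => (Nat.mul (nat_lit 2) (Nat.add (X (nat_lit 50)) (Nat.add (X (nat_lit 51)) (X (nat_lit 55))))))) (.nd (nat_lit 108) 
 (.lf (.mk fun X => (Nat.add (X (nat_lit 34)) (Nat.add (X (nat_lit 57)) (Nat.mul (nat_lit 4) (X (nat_lit 49))))))) 
 (.lf (.mk fun X => (Nat.add (X (nat_lit 60)) (Nat.mul (nat_lit 3) (Nat.add (X (nat_lit 58)) (X (nat_lit 59))))))))) (.nd (nat_lit 110) 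
 (.lf (.mk fun X => (Nat.add (X (nat_lit 58)) (Nat.add (X (nat_lit 63)) (Nat.add (X (nat_lit 64)) (Nat.mul (nat_lit 2) (Nat.add (X (nat_lit 61)) (X (nat_lit 62))))))))) (.nd (nat_lit 111) 
 (.lf (.mk fun X => (Nat.add (X (nat_lit 59)) (Nat.add (X (nat_lit 63)) (Nat.add (X (nat_lit 66)) (Nat.mul (nat_lit 2) (Nat.add (X (nat_lit 62)) (X (nat_lit 65))))))))) 
 (.lf (.mk fun X => (Nat.add (X (nat_lit 60)) (Nat.mul (nat_lit 3) (Nat.add (X (nat_lit 64)) (X (nat_lit 66))))))))))) (.nd (nat_lit 118) (.nd (nat_lit 115) (.nd (nat_lit 113) 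
 (.lf (.mk fun X => (Nat.add (X (nat_lit 59)) (Nat.add (X (nat_lit 61)) (Nat.add (X (nat_lit 67)) (Nat.add (X (nat_lit 68)) (Nat.add (X (nat_lit 70)) (Nat.mul (nat_lit 2) (X (nat_lit 69)))))))))) (.nd (nat_lit 114) 
 (.lf (.mk fun X => (Nat.add (X (nat_lit 58)) (Nat.add (X (nat_lit 62)) (Nat.add (X (nat_lit 67)) (Nat.add (X (nat_lit 69)) (Nat.add (X (nat_lit 71)) (Nat.add (X (nat_lit 72)) (X (nat_lit 73)))))))))) 
 (.lf (.mk fun X => (Nat.add (X (nat_lit 60)) (Nat.add (X (nat_lit 63)) (Nat.add (X (nat_lit 74)) (Nat.mul (nat_lit 2) (Nat.add (X (nat_lit 69)) (X (nat_lit 72))))))))))) (.nd (nat_lit 116) 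
 (.lf (.mk fun X => (Nat.add (X (nat_lit 59)) (Nat.add (X (nat_lit 64)) (Nat.add (X (nat_lit 74)) (Nat.mul (nat_lit 2) (Nat.add (X (nat_lit 70)) (X (nat_lit 73))))))))) (.nd (nat_lit 117) 
 (.lf (.mk fun X => (Nat.add (X (nat_lit 59)) (Nat.add (X (nat_lit 65)) (Nat.add (X (nat_lit 71)) (Nat.add (X (nat_lit 75)) (Nat.add (X (nat_lit 76)) (Nat.mul (nat_lit 2) (X (nat_lit 72)))))))))) 
 (.lf (.mk fun X => (Nat.add (X (nat_lit 58)) (Nat.add (X (nat_lit 66)) (Nat.add (X (nat_lit 74)) (Nat.mul (nat_lit 2) (Nat.add (X (nat_lit 73)) (X (nat_lit 76)))))))))))) (.nd (nat_lit 121) (.nd (nat_lit 119) 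
 (.lf (.mk fun X => (Nat.add (X (nat_lit 77)) (Nat.mul (nat_lit 3) (Nat.add (X (nat_lit 63)) (X (nat_lit 64))))))) (.nd (nat_lit 120) 
 (.lf (.mk fun X => (Nat.add (X (nat_lit 78)) (Nat.add (Nat.mul (nat_lit 2) (X (nat_lit 61))) (Nat.mul (nat_lit 4) (X (nat_lit 71))))))) 
 (.lf (.mk fun X => (Nat.add (X (nat_lit 62)) (Nat.add (X (nat_lit 63)) (Nat.add (X (nat_lit 69)) (Nat.add (X (nat_lit 71)) (Nat.add (X (nat_lit 73)) (Nat.add (X (nat_lit 79)) (X (nat_lit 80)))))))))))) (.nd (nat_lit 123) (.nd (nat_lit 122) 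
 (.lf (.mk fun X => (Nat.add (X (nat_lit 78)) (Nat.mul (nat_lit 2) (Nat.add (X (nat_lit 64)) (Nat.add (X (nat_lit 72)) (X (nat_lit 80)))))))) 
 (.lf (.mk fun X => (Nat.add (X (nat_lit 61)) (Nat.add (X (nat_lit 65)) (Nat.add (X (nat_lit 68)) (Nat.add (X (nat_lit 81)) (Nat.add (X (nat_lit 82)) (Nat.mul (nat_lit 2) (X (nat_lit 73))))))))))) (.nd (nat_lit 124) 
 (.lf (.mk fun X => (Nat.add (X (nat_lit 64)) (Nat.add (X (nat_lit 65)) (Nat.add (X (nat_lit 69)) (Nat.add (X (nat_lit 70)) (Nat.add (X (nat_lit 79)) (Nat.add (X (nat_lit 81)) (X (nat_lit 83)))))))))) 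
 (.lf (.mk fun X => (Nat.add (X (nat_lit 63)) (Nat.add (X (nat_lit 66)) (Nat.add (X (nat_lit 69)) (Nat.add (X (nat_lit 72)) (Nat.add (X (nat_lit 80)) (Nat.add (X (nat_lit 82)) (X (nat_lit 83))))))))))))))) (.nd (nat_lit 137) (.nd (nat_lit 131) (.nd (nat_lit 128) (.nd (nat_lit 126) 
 (.lf (.mk fun X => (Nat.add (X (nat_lit 66)) (Nat.add (X (nat_lit 74)) (Nat.add (X (nat_lit 77)) (Nat.mul (nat_lit 2) (Nat.add (X (nat_lit 80)) (X (nat_lit 83))))))))) (.nd (nat_lit 127) 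
 (.lf (.mk fun X => (Nat.add (X (nat_lit 69)) (Nat.add (X (nat_lit 71)) (Nat.add (X (nat_lit 72)) (Nat.add (X (nat_lit 73)) (Nat.add (X (nat_lit 84)) (Nat.add (X (nat_lit 85)) (X (nat_lit 86)))))))))) 
 (.lf (.mk fun X => (Nat.add (X (nat_lit 67)) (Nat.add (X (nat_lit 71)) (Nat.add (X (nat_lit 76)) (Nat.add (X (nat_lit 82)) (Nat.add (X (nat_lit 87)) (Nat.mul (nat_lit 2) (X (nat_lit 85)))))))))))) (.nd (nat_lit 129) 
 (.lf (.mk fun X => (Nat.add (X (nat_lit 70)) (Nat.add (X (nat_lit 75)) (Nat.add (X (nat_lit 78)) (Nat.add (X (nat_lit 81)) (Nat.add (X (nat_lit 87)) (Nat.mul (nat_lit 2) (X (nat_lit 86)))))))))) (.nd (nat_lit 130) 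
 (.lf (.mk fun X => (Nat.add (X (nat_lit 72)) (Nat.add (X (nat_lit 74)) (Nat.add (X (nat_lit 79)) (Nat.add (X (nat_lit 80)) (Nat.add (X (nat_lit 85)) (Nat.add (X (nat_lit 86)) (X (nat_lit 88)))))))))) 
 (.lf (.mk fun X => (Nat.add (X (nat_lit 73)) (Nat.add (X (nat_lit 76)) (Nat.add (X (nat_lit 80)) (Nat.add (X (nat_lit 83)) (Nat.add (X (nat_lit 84)) (Nat.add (X (nat_lit 87)) (X (nat_lit 88))))))))))))) (.nd (nat_lit 134) (.nd (nat_lit 132) 
 (.lf (.mk fun X => (Nat.add (X (nat_lit 90)) (Nat.add (Nat.mul (nat_lit 2) (X (nat_lit 89))) (Nat.mul (nat_lit 4) (X (nat_lit 69))))))) (.nd (nat_lit 133) 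
 (.lf (.mk fun X => (Nat.add (X (nat_lit 91)) (Nat.mul (nat_lit 2) (Nat.add (X (nat_lit 68)) (Nat.add (X (nat_lit 70)) (X (nat_lit 89)))))))) 
 (.lf (.mk fun X => (Nat.add (X (nat_lit 67)) (Nat.add (X (nat_lit 79)) (Nat.add (X (nat_lit 92)) (Nat.mul (nat_lit 2) (Nat.add (X (nat_lit 73)) (X (nat_lit 89))))))))))) (.nd (nat_lit 135) 
 (.lf (.mk fun X => (Nat.add (X (nat_lit 90)) (Nat.mul (nat_lit 2) (Nat.add (X (nat_lit 72)) (Nat.add (X (nat_lit 80)) (X (nat_lit 92)))))))) (.nd (nat_lit 136) 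
 (.lf (.mk fun X => (Nat.add (X (nat_lit 89)) (Nat.add (X (nat_lit 91)) (Nat.add (X (nat_lit 93)) (Nat.mul (nat_lit 2) (Nat.add (X (nat_lit 70)) (X (nat_lit 81))))))))) 
 (.lf (.mk fun X => (Nat.add (X (nat_lit 69)) (Nat.add (X (nat_lit 74)) (Nat.add (X (nat_lit 82)) (Nat.add (X (nat_lit 83)) (Nat.add (X (nat_lit 89)) (Nat.add (X (nat_lit 92)) (X (nat_lit 93)))))))))))))) (.nd (nat_lit 143) (.nd (nat_lit 140) (.nd (nat_lit 138) 
 (.lf (.mk fun X => (Nat.add (X (nat_lit 63)) (Nat.add (X (nat_lit 66)) (Nat.add (X (nat_lit 95)) (Nat.mul (nat_lit 2) (Nat.add (X (nat_lit 65)) (X (nat_lit 94))))))))) (.nd (nat_lit 139) 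
 (.lf (.mk fun X => (Nat.add (X (nat_lit 62)) (Nat.add (X (nat_lit 73)) (Nat.add (X (nat_lit 76)) (Nat.add (X (nat_lit 82)) (Nat.add (X (nat_lit 94)) (Nat.add (X (nat_lit 96)) (X (nat_lit 97)))))))))) 
 (.lf (.mk fun X => (Nat.add (X (nat_lit 66)) (Nat.add (X (nat_lit 72)) (Nat.add (X (nat_lit 79)) (Nat.add (X (nat_lit 83)) (Nat.add (X (nat_lit 94)) (Nat.add (X (nat_lit 96)) (X (nat_lit 98)))))))))))) (.nd (nat_lit 141) 
 (.lf (.mk fun X => (Nat.add (X (nat_lit 65)) (Nat.add (X (nat_lit 75)) (Nat.add (X (nat_lit 95)) (Nat.add (X (nat_lit 97)) (Nat.add (X (nat_lit 98)) (Nat.mul (nat_lit 2) (X (nat_lit 80)))))))))) (.nd (nat_lit 142) 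
 (.lf (.mk fun X => (Nat.add (X (nat_lit 64)) (Nat.add (X (nat_lit 74)) (Nat.add (X (nat_lit 95)) (Nat.mul (nat_lit 2) (Nat.add (X (nat_lit 81)) (X (nat_lit 96))))))))) 
 (.lf (.mk fun X => (Nat.add (X (nat_lit 89)) (Nat.add (X (nat_lit 93)) (Nat.add (X (nat_lit 99)) (Nat.mul (nat_lit 2) (Nat.add (X (nat_lit 73)) (X (nat_lit 96)))))))))))) (.nd (nat_lit 146) (.nd (nat_lit 144) 
 (.lf (.mk fun X => (Nat.add (X (nat_lit 71)) (Nat.add (X (nat_lit 76)) (Nat.add (X (nat_lit 97)) (Nat.add (X (nat_lit 98)) (Nat.add (X (nat_lit 99)) (Nat.mul (nat_lit 2) (X (nat_lit 92)))))))))) (.nd (nat_lit 145) 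
 (.lf (.mk fun X => (Nat.add (X (nat_lit 90)) (Nat.add (Nat.mul (nat_lit 2) (X (nat_lit 93))) (Nat.mul (nat_lit 4) (X (nat_lit 83))))))) 
 (.lf (.mk fun X => (Nat.add (X (nat_lit 69)) (Nat.add (X (nat_lit 72)) (Nat.add (X (nat_lit 85)) (Nat.add (X (nat_lit 87)) (Nat.add (X (nat_lit 96)) (Nat.add (X (nat_lit 97)) (X (nat_lit 100)))))))))))) (.nd (nat_lit 148) (.nd (nat_lit 147) 
 (.lf (.mk fun X => (Nat.add (X (nat_lit 80)) (Nat.add (X (nat_lit 83)) (Nat.add (X (nat_lit 86)) (Nat.add (X (nat_lit 88)) (Nat.add (X (nat_lit 96)) (Nat.add (X (nat_lit 98)) (X (nat_lit 100)))))))))) 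
 (.lf (.mk fun X => (Nat.add (X (nat_lit 89)) (Nat.add (X (nat_lit 93)) (Nat.add (X (nat_lit 101)) (Nat.mul (nat_lit 2) (Nat.add (X (nat_lit 86)) (X (nat_lit 87)))))))))) (.nd (nat_lit 149) 
 (.lf (.mk fun X => (Nat.add (X (nat_lit 101)) (Nat.mul (nat_lit 2) (Nat.add (X (nat_lit 85)) (Nat.add (X (nat_lit 88)) (X (nat_lit 92)))))))) 
 (.lf (.mk fun X => (Nat.add (X (nat_lit 90)) (Nat.add (X (nat_lit 99)) (Nat.add (X (nat_lit 101)) (Nat.mul (nat_lit 2) (Nat.add (X (nat_lit 84)) (X (nat_lit 100))))))))))))))) (.nd (nat_lit 175) (.nd (nat_lit 162) (.nd (nat_lit 156) (.nd (nat_lit 153) (.nd (nat_lit 151) 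
 (.lf (.mk fun X => (Nat.add (X (nat_lit 102)) (Nat.mul (nat_lit 6) (X (nat_lit 91)))))) (.nd (nat_lit 152) 
 (.lf (.mk fun X => (Nat.add (X (nat_lit 102)) (Nat.mul (nat_lit 3) (Nat.add (X (nat_lit 89)) (X (nat_lit 93))))))) 
 (.lf (.mk fun X => (Nat.add (X (nat_lit 64)) (Nat.add (X (nat_lit 66)) (Nat.add (X (nat_lit 104)) (Nat.mul (nat_lit 2) (Nat.add (X (nat_lit 94)) (X (nat_lit 103))))))))))) (.nd (nat_lit 154) 
 (.lf (.mk fun X => (Nat.add (X (nat_lit 65)) (Nat.add (X (nat_lit 70)) (Nat.add (X (nat_lit 82)) (Nat.add (X (nat_lit 103)) (Nat.add (X (nat_lit 105)) (Nat.mul (nat_lit 2) (X (nat_lit 96)))))))))) (.nd (nat_lit 155) 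
 (.lf (.mk fun X => (Nat.add (X (nat_lit 63)) (Nat.add (X (nat_lit 74)) (Nat.add (X (nat_lit 104)) (Nat.mul (nat_lit 2) (Nat.add (X (nat_lit 96)) (X (nat_lit 97))))))))) 
 (.lf (.mk fun X => (Nat.add (X (nat_lit 77)) (Nat.mul (nat_lit 3) (Nat.add (X (nat_lit 95)) (X (nat_lit 104)))))))))) (.nd (nat_lit 159) (.nd (nat_lit 157) 
 (.lf (.mk fun X => (Nat.add (X (nat_lit 81)) (Nat.add (X (nat_lit 95)) (Nat.add (X (nat_lit 103)) (Nat.add (X (nat_lit 105)) (Nat.add (X (nat_lit 106)) (Nat.mul (nat_lit 2) (X (nat_lit 83)))))))))) (.nd (nat_lit 158) 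
 (.lf (.mk fun X => (Nat.add (X (nat_lit 80)) (Nat.add (X (nat_lit 83)) (Nat.add (X (nat_lit 94)) (Nat.add (X (nat_lit 96)) (Nat.add (X (nat_lit 98)) (Nat.add (X (nat_lit 104)) (X (nat_lit 106)))))))))) 
 (.lf (.mk fun X => (Nat.add (X (nat_lit 91)) (Nat.mul (nat_lit 2) (Nat.add (X (nat_lit 81)) (Nat.add (X (nat_lit 93)) (X (nat_lit 105)))))))))) (.nd (nat_lit 160) 
 (.lf (.mk fun X => (Nat.add (X (nat_lit 79)) (Nat.add (X (nat_lit 92)) (Nat.add (X (nat_lit 106)) (Nat.mul (nat_lit 2) (Nat.add (X (nat_lit 93)) (X (nat_lit 96))))))))) (.nd (nat_lit 161) 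
 (.lf (.mk fun X => (Nat.add (X (nat_lit 61)) (Nat.add (X (nat_lit 103)) (Nat.add (X (nat_lit 107)) (Nat.mul (nat_lit 2) (Nat.add (X (nat_lit 76)) (X (nat_lit 97))))))))) 
 (.lf (.mk fun X => (Nat.add (X (nat_lit 68)) (Nat.add (X (nat_lit 75)) (Nat.add (X (nat_lit 105)) (Nat.add (X (nat_lit 107)) (Nat.mul (nat_lit 3) (X (nat_lit 87))))))))))))) (.nd (nat_lit 168) (.nd (nat_lit 165) (.nd (nat_lit 163) 
 (.lf (.mk fun X => (Nat.add (X (nat_lit 82)) (Nat.add (X (nat_lit 87)) (Nat.add (X (nat_lit 97)) (Nat.add (X (nat_lit 98)) (Nat.add (X (nat_lit 106)) (Nat.mul (nat_lit 2) (X (nat_lit 88)))))))))) (.nd (nat_lit 164) 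
 (.lf (.mk fun X => (Nat.add (X (nat_lit 78)) (Nat.add (Nat.mul (nat_lit 2) (X (nat_lit 103))) (Nat.mul (nat_lit 4) (X (nat_lit 98))))))) 
 (.lf (.mk fun X => (Nat.mul (nat_lit 8) (X (nat_lit 108))))))) (.nd (nat_lit 166) 
 (.lf (.mk fun X => (Nat.add (X (nat_lit 108)) (Nat.add (X (nat_lit 111)) (Nat.mul (nat_lit 3) (Nat.add (X (nat_lit 109)) (X (nat_lit 110)))))))) (.nd (nat_lit 167) 
 (.lf (.mk fun X => (Nat.add (X (nat_lit 108)) (Nat.add (X (nat_lit 109)) (Nat.add (X (nat_lit 114)) (Nat.add (X (nat_lit 115)) (Nat.mul (nat_lit 2) (Nat.add (X (nat_lit 112)) (X (nat_lit 113)))))))))) 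
 (.lf (.mk fun X => (Nat.add (X (nat_lit 108)) (Nat.add (X (nat_lit 110)) (Nat.add (X (nat_lit 114)) (Nat.add (X (nat_lit 117)) (Nat.mul (nat_lit 2) (Nat.add (X (nat_lit 113)) (X (nat_lit 116))))))))))))) (.nd (nat_lit 171) (.nd (nat_lit 169) 
 (.lf (.mk fun X => (Nat.add (X (nat_lit 108)) (Nat.add (X (nat_lit 111)) (Nat.mul (nat_lit 3) (Nat.add (X (nat_lit 115)) (X (nat_lit 117)))))))) (.nd (nat_lit 170) 
 (.lf (.mk fun X => (Nat.add (Nat.mul (nat_lit 2) (X (nat_lit 118))) (Nat.mul (nat_lit 6) (X (nat_lit 109)))))) 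
 (.lf (.mk fun X => (Nat.add (X (nat_lit 119)) (Nat.add (X (nat_lit 121)) (Nat.mul (nat_lit 2) (Nat.add (X (nat_lit 109)) (Nat.add (X (nat_lit 113)) (X (nat_lit 120))))))))))) (.nd (nat_lit 173) (.nd (nat_lit 172) 
 (.lf (.mk fun X => (Nat.add (X (nat_lit 109)) (Nat.add (X (nat_lit 110)) (Nat.add (X (nat_lit 112)) (Nat.add (X (nat_lit 113)) (Nat.add (X (nat_lit 120)) (Nat.add (X (nat_lit 122)) (Nat.add (X (nat_lit 123)) (X (nat_lit 124))))))))))) 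
 (.lf (.mk fun X => (Nat.add (X (nat_lit 110)) (Nat.add (X (nat_lit 115)) (Nat.add (X (nat_lit 118)) (Nat.add (X (nat_lit 125)) (Nat.mul (nat_lit 2) (Nat.add (X (nat_lit 120)) (X (nat_lit 123))))))))))) (.nd (nat_lit 174) 
 (.lf (.mk fun X => (Nat.add (X (nat_lit 111)) (Nat.add (X (nat_lit 114)) (Nat.add (X (nat_lit 118)) (Nat.add (X (nat_lit 125)) (Nat.mul (nat_lit 2) (Nat.add (X (nat_lit 121)) (X (nat_lit 124)))))))))) 
 (.lf (.mk fun X => (Nat.mul (nat_lit 4) (Nat.add (X (nat_lit 113)) (X (nat_lit 126))))))))))) (.nd (nat_lit 188) (.nd (nat_lit 181) (.nd (nat_lit 178) (.nd (nat_lit 176) 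
 (.lf (.mk fun X => (Nat.add (X (nat_lit 112)) (Nat.add (X (nat_lit 116)) (Nat.add (X (nat_lit 119)) (Nat.add (X (nat_lit 122)) (Nat.add (X (nat_lit 127)) (Nat.add (X (nat_lit 128)) (Nat.mul (nat_lit 2) (X (nat_lit 126))))))))))) (.nd (nat_lit 177) 
 (.lf (.mk fun X => (Nat.mul (nat_lit 2) (Nat.add (X (nat_lit 114)) (Nat.add (X (nat_lit 120)) (Nat.add (X (nat_lit 126)) (X (nat_lit 129)))))))) 
 (.lf (.mk fun X => (Nat.add (X (nat_lit 113)) (Nat.add (X (nat_lit 117)) (Nat.add (X (nat_lit 120)) (Nat.add (X (nat_lit 124)) (Nat.add (X (nat_lit 126)) (Nat.add (X (nat_lit 127)) (Nat.add (X (nat_lit 129)) (X (nat_lit 130))))))))))))) (.nd (nat_lit 179) 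
 (.lf (.mk fun X => (Nat.add (X (nat_lit 115)) (Nat.add (X (nat_lit 116)) (Nat.add (X (nat_lit 121)) (Nat.add (X (nat_lit 123)) (Nat.add (X (nat_lit 126)) (Nat.add (X (nat_lit 128)) (Nat.add (X (nat_lit 129)) (X (nat_lit 130))))))))))) (.nd (nat_lit 180) 
 (.lf (.mk fun X => (Nat.add (Nat.mul (nat_lit 2) (Nat.add (X (nat_lit 117)) (X (nat_lit 125)))) (Nat.mul (nat_lit 4) (X (nat_lit 130)))))) 
 (.lf (.mk fun X => (Nat.add (Nat.mul (nat_lit 2) (Nat.add (X (nat_lit 131)) (X (nat_lit 132)))) (Nat.mul (nat_lit 4) (X (nat_lit 112))))))))) (.nd (nat_lit 184) (.nd (nat_lit 182) 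
 (.lf (.mk fun X => (Nat.add (X (nat_lit 131)) (Nat.add (X (nat_lit 134)) (Nat.mul (nat_lit 2) (Nat.add (X (nat_lit 113)) (Nat.add (X (nat_lit 120)) (X (nat_lit 133))))))))) (.nd (nat_lit 183) 
 (.lf (.mk fun X => (Nat.add (X (nat_lit 112)) (Nat.add (X (nat_lit 115)) (Nat.add (X (nat_lit 122)) (Nat.add (X (nat_lit 123)) (Nat.add (X (nat_lit 132)) (Nat.add (X (nat_lit 133)) (Nat.add (X (nat_lit 135)) (X (nat_lit 136))))))))))) 
 (.lf (.mk fun X => (Nat.add (X (nat_lit 131)) (Nat.add (X (nat_lit 134)) (Nat.mul (nat_lit 2) (Nat.add (X (nat_lit 114)) (Nat.add (X (nat_lit 124)) (X (nat_lit 136))))))))))) (.nd (nat_lit 186) (.nd (nat_lit 185) 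
 (.lf (.mk fun X => (Nat.mul (nat_lit 4) (Nat.add (X (nat_lit 110)) (X (nat_lit 137)))))) 
 (.lf (.mk fun X => (Nat.add (X (nat_lit 110)) (Nat.add (X (nat_lit 116)) (Nat.add (X (nat_lit 120)) (Nat.add (X (nat_lit 124)) (Nat.add (X (nat_lit 137)) (Nat.add (X (nat_lit 138)) (Nat.add (X (nat_lit 139)) (X (nat_lit 140)))))))))))) (.nd (nat_lit 187) 
 (.lf (.mk fun X => (Nat.add (X (nat_lit 109)) (Nat.add (X (nat_lit 117)) (Nat.add (X (nat_lit 137)) (Nat.add (X (nat_lit 141)) (Nat.mul (nat_lit 2) (Nat.add (X (nat_lit 122)) (X (nat_lit 138)))))))))) 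
 (.lf (.mk fun X => (Nat.add (X (nat_lit 111)) (Nat.add (X (nat_lit 114)) (Nat.add (X (nat_lit 137)) (Nat.add (X (nat_lit 141)) (Nat.mul (nat_lit 2) (Nat.add (X (nat_lit 123)) (X (nat_lit 139)))))))))))))) (.nd (nat_lit 194) (.nd (nat_lit 191) (.nd (nat_lit 189) 
 (.lf (.mk fun X => (Nat.add (X (nat_lit 113)) (Nat.add (X (nat_lit 117)) (Nat.add (X (nat_lit 133)) (Nat.add (X (nat_lit 136)) (Nat.add (X (nat_lit 138)) (Nat.add (X (nat_lit 139)) (Nat.add (X (nat_lit 142)) (X (nat_lit 143))))))))))) (.nd (nat_lit 190) 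
 (.lf (.mk fun X => (Nat.mul (nat_lit 2) (Nat.add (X (nat_lit 116)) (Nat.add (X (nat_lit 134)) (Nat.add (X (nat_lit 140)) (X (nat_lit 143)))))))) 
 (.lf (.mk fun X => (Nat.mul (nat_lit 2) (Nat.add (X (nat_lit 115)) (Nat.add (X (nat_lit 135)) (Nat.add (X (nat_lit 141)) (X (nat_lit 142)))))))))) (.nd (nat_lit 192) 
 (.lf (.mk fun X => (Nat.mul (nat_lit 4) (Nat.add (X (nat_lit 121)) (X (nat_lit 134)))))) (.nd (nat_lit 193) 
 (.lf (.mk fun X => (Nat.add (X (nat_lit 131)) (Nat.add (X (nat_lit 144)) (Nat.add (Nat.mul (nat_lit 2) (X (nat_lit 135))) (Nat.mul (nat_lit 4) (X (nat_lit 123)))))))) 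
 (.lf (.mk fun X => (Nat.add (X (nat_lit 134)) (Nat.add (X (nat_lit 144)) (Nat.mul (nat_lit 2) (Nat.add (X (nat_lit 124)) (Nat.add (X (nat_lit 125)) (X (nat_lit 136)))))))))))) (.nd (nat_lit 197) (.nd (nat_lit 195) 
 (.lf (.mk fun X => (Nat.mul (nat_lit 2) (Nat.add (X (nat_lit 113)) (Nat.add (X (nat_lit 127)) (Nat.add (X (nat_lit 138)) (X (nat_lit 145)))))))) (.nd (nat_lit 196) 
 (.lf (.mk fun X => (Nat.add (X (nat_lit 120)) (Nat.add (X (nat_lit 124)) (Nat.add (X (nat_lit 126)) (Nat.add (X (nat_lit 130)) (Nat.add (X (nat_lit 138)) (Nat.add (X (nat_lit 139)) (Nat.add (X (nat_lit 145)) (X (nat_lit 146))))))))))) 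
 (.lf (.mk fun X => (Nat.add (X (nat_lit 121)) (Nat.add (X (nat_lit 123)) (Nat.add (X (nat_lit 128)) (Nat.add (X (nat_lit 129)) (Nat.add (X (nat_lit 140)) (Nat.add (X (nat_lit 141)) (Nat.add (X (nat_lit 145)) (X (nat_lit 146))))))))))))) (.nd (nat_lit 199) (.nd (nat_lit 198) 
 (.lf (.mk fun X => (Nat.mul (nat_lit 2) (Nat.add (X (nat_lit 125)) (Nat.add (X (nat_lit 129)) (Nat.add (X (nat_lit 139)) (X (nat_lit 146)))))))) 
 (.lf (.mk fun X => (Nat.add (X (nat_lit 126)) (Nat.add (X (nat_lit 127)) (Nat.add (X (nat_lit 129)) (Nat.add (X (nat_lit 130)) (Nat.add (X (nat_lit 133)) (Nat.add (X (nat_lit 136)) (Nat.add (X (nat_lit 147)) (X (nat_lit 148)))))))))))) (.nd (nat_lit 200) 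
 (.lf (.mk fun X => (Nat.add (Nat.mul (nat_lit 2) (Nat.add (X (nat_lit 134)) (X (nat_lit 148)))) (Nat.mul (nat_lit 4) (X (nat_lit 129)))))) 
 (.lf (.mk fun X => (Nat.add (Nat.mul (nat_lit 2) (Nat.add (X (nat_lit 135)) (X (nat_lit 147)))) (Nat.mul (nat_lit 4) (X (nat_lit 128)))))))))))))) (.nd (nat_lit 301) (.nd (nat_lit 251) (.nd (nat_lit 226) (.nd (nat_lit 213) (.nd (nat_lit 207) (.nd (nat_lit 204) (.nd (nat_lit 202) 
 (.lf (.mk fun X => (Nat.add (X (nat_lit 131)) (Nat.add (X (nat_lit 142)) (Nat.add (X (nat_lit 147)) (Nat.add (X (nat_lit 149)) (Nat.mul (nat_lit 2) (Nat.add (X (nat_lit 126)) (X (nat_lit 145)))))))))) (.nd (nat_lit 203) 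
 (.lf (.mk fun X => (Nat.add (X (nat_lit 126)) (Nat.add (X (nat_lit 130)) (Nat.add (X (nat_lit 134)) (Nat.add (X (nat_lit 143)) (Nat.add (X (nat_lit 145)) (Nat.add (X (nat_lit 146)) (Nat.add (X (nat_lit 148)) (X (nat_lit 149))))))))))) 
 (.lf (.mk fun X => (Nat.add (X (nat_lit 142)) (Nat.add (X (nat_lit 144)) (Nat.add (X (nat_lit 147)) (Nat.add (X (nat_lit 149)) (Nat.mul (nat_lit 2) (Nat.add (X (nat_lit 130)) (X (nat_lit 146)))))))))))) (.nd (nat_lit 205) 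
 (.lf (.mk fun X => (Nat.mul (nat_lit 8) (X (nat_lit 149))))) (.nd (nat_lit 206) 
 (.lf (.mk fun X => (Nat.add (X (nat_lit 150)) (Nat.add (X (nat_lit 151)) (Nat.mul (nat_lit 3) (Nat.add (X (nat_lit 132)) (X (nat_lit 135)))))))) 
 (.lf (.mk fun X => (Nat.add (X (nat_lit 131)) (Nat.add (X (nat_lit 144)) (Nat.add (Nat.mul (nat_lit 2) (X (nat_lit 151))) (Nat.mul (nat_lit 4) (X (nat_lit 136))))))))))) (.nd (nat_lit 210) (.nd (nat_lit 208) 
 (.lf (.mk fun X => (Nat.add (X (nat_lit 110)) (Nat.add (X (nat_lit 115)) (Nat.add (X (nat_lit 152)) (Nat.add (X (nat_lit 154)) (Nat.mul (nat_lit 2) (Nat.add (X (nat_lit 138)) (X (nat_lit 153)))))))))) (.nd (nat_lit 209) 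
 (.lf (.mk fun X => (Nat.add (X (nat_lit 118)) (Nat.add (X (nat_lit 155)) (Nat.mul (nat_lit 3) (Nat.add (X (nat_lit 137)) (X (nat_lit 152)))))))) 
 (.lf (.mk fun X => (Nat.add (X (nat_lit 123)) (Nat.add (X (nat_lit 124)) (Nat.add (X (nat_lit 137)) (Nat.add (X (nat_lit 139)) (Nat.add (X (nat_lit 152)) (Nat.add (X (nat_lit 153)) (Nat.add (X (nat_lit 156)) (X (nat_lit 157))))))))))))) (.nd (nat_lit 211) 
 (.lf (.mk fun X => (Nat.add (X (nat_lit 125)) (Nat.add (X (nat_lit 137)) (Nat.add (X (nat_lit 154)) (Nat.add (X (nat_lit 155)) (Nat.mul (nat_lit 2) (Nat.add (X (nat_lit 140)) (X (nat_lit 157)))))))))) (.nd (nat_lit 212) 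
 (.lf (.mk fun X => (Nat.add (X (nat_lit 132)) (Nat.add (X (nat_lit 158)) (Nat.mul (nat_lit 2) (Nat.add (X (nat_lit 122)) (Nat.add (X (nat_lit 142)) (X (nat_lit 153))))))))) 
 (.lf (.mk fun X => (Nat.add (X (nat_lit 123)) (Nat.add (X (nat_lit 135)) (Nat.add (X (nat_lit 136)) (Nat.add (X (nat_lit 141)) (Nat.add (X (nat_lit 153)) (Nat.add (X (nat_lit 156)) (Nat.add (X (nat_lit 158)) (X (nat_lit 159))))))))))))))) (.nd (nat_lit 219) (.nd (nat_lit 216) (.nd (nat_lit 214) 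
 (.lf (.mk fun X => (Nat.add (X (nat_lit 120)) (Nat.add (X (nat_lit 136)) (Nat.add (X (nat_lit 138)) (Nat.add (X (nat_lit 142)) (Nat.add (X (nat_lit 143)) (Nat.add (X (nat_lit 154)) (Nat.add (X (nat_lit 157)) (X (nat_lit 159))))))))))) (.nd (nat_lit 215) 
 (.lf (.mk fun X => (Nat.add (X (nat_lit 134)) (Nat.add (X (nat_lit 144)) (Nat.mul (nat_lit 2) (Nat.add (X (nat_lit 139)) (Nat.add (X (nat_lit 157)) (X (nat_lit 159))))))))) 
 (.lf (.mk fun X => (Nat.add (X (nat_lit 150)) (Nat.add (X (nat_lit 151)) (Nat.mul (nat_lit 3) (Nat.add (X (nat_lit 135)) (X (nat_lit 158)))))))))) (.nd (nat_lit 217) 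
 (.lf (.mk fun X => (Nat.mul (nat_lit 2) (Nat.add (X (nat_lit 133)) (Nat.add (X (nat_lit 142)) (Nat.add (X (nat_lit 151)) (X (nat_lit 159)))))))) (.nd (nat_lit 218) 
 (.lf (.mk fun X => (Nat.add (X (nat_lit 109)) (Nat.add (X (nat_lit 117)) (Nat.add (X (nat_lit 152)) (Nat.add (X (nat_lit 154)) (Nat.mul (nat_lit 2) (Nat.add (X (nat_lit 138)) (X (nat_lit 160)))))))))) 
 (.lf (.mk fun X => (Nat.add (X (nat_lit 112)) (Nat.add (X (nat_lit 116)) (Nat.add (X (nat_lit 127)) (Nat.add (X (nat_lit 153)) (Nat.add (X (nat_lit 160)) (Nat.add (X (nat_lit 161)) (Nat.mul (nat_lit 2) (X (nat_lit 145)))))))))))))) (.nd (nat_lit 222) (.nd (nat_lit 220) 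
 (.lf (.mk fun X => (Nat.add (Nat.mul (nat_lit 2) (Nat.add (X (nat_lit 114)) (X (nat_lit 154)))) (Nat.mul (nat_lit 4) (X (nat_lit 145)))))) (.nd (nat_lit 221) 
 (.lf (.mk fun X => (Nat.add (X (nat_lit 118)) (Nat.add (X (nat_lit 155)) (Nat.mul (nat_lit 3) (Nat.add (X (nat_lit 141)) (X (nat_lit 154)))))))) 
 (.lf (.mk fun X => (Nat.add (X (nat_lit 122)) (Nat.add (X (nat_lit 140)) (Nat.add (X (nat_lit 156)) (Nat.add (X (nat_lit 160)) (Nat.add (X (nat_lit 161)) (Nat.add (X (nat_lit 162)) (Nat.mul (nat_lit 2) (X (nat_lit 130))))))))))))) (.nd (nat_lit 224) (.nd (nat_lit 223) 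
 (.lf (.mk fun X => (Nat.add (X (nat_lit 124)) (Nat.add (X (nat_lit 129)) (Nat.add (X (nat_lit 139)) (Nat.add (X (nat_lit 145)) (Nat.add (X (nat_lit 146)) (Nat.add (X (nat_lit 154)) (Nat.add (X (nat_lit 157)) (X (nat_lit 162))))))))))) 
 (.lf (.mk fun X => (Nat.add (X (nat_lit 132)) (Nat.add (X (nat_lit 158)) (Nat.mul (nat_lit 2) (Nat.add (X (nat_lit 128)) (Nat.add (X (nat_lit 147)) (X (nat_lit 161)))))))))) (.nd (nat_lit 225) 
 (.lf (.mk fun X => (Nat.add (X (nat_lit 129)) (Nat.add (X (nat_lit 136)) (Nat.add (X (nat_lit 145)) (Nat.add (X (nat_lit 146)) (Nat.add (X (nat_lit 147)) (Nat.add (X (nat_lit 148)) (Nat.add (X (nat_lit 159)) (X (nat_lit 162))))))))))) 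
 (.lf (.mk fun X => (Nat.add (Nat.mul (nat_lit 2) (X (nat_lit 151))) (Nat.mul (nat_lit 6) (X (nat_lit 147))))))))))) (.nd (nat_lit 238) (.nd (nat_lit 232) (.nd (nat_lit 229) (.nd (nat_lit 227) 
 (.lf (.mk fun X => (Nat.add (Nat.mul (nat_lit 2) (X (nat_lit 111))) (Nat.mul (nat_lit 6) (X (nat_lit 152)))))) (.nd (nat_lit 228) 
 (.lf (.mk fun X => (Nat.add (X (nat_lit 121)) (Nat.add (X (nat_lit 163)) (Nat.mul (nat_lit 2) (Nat.add (X (nat_lit 139)) (Nat.add (X (nat_lit 152)) (X (nat_lit 157))))))))) 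
 (.lf (.mk fun X => (Nat.add (X (nat_lit 125)) (Nat.add (X (nat_lit 141)) (Nat.add (X (nat_lit 152)) (Nat.add (X (nat_lit 155)) (Nat.mul (nat_lit 2) (Nat.add (X (nat_lit 156)) (X (nat_lit 157)))))))))))) (.nd (nat_lit 230) 
 (.lf (.mk fun X => (Nat.add (X (nat_lit 128)) (Nat.add (X (nat_lit 140)) (Nat.add (X (nat_lit 153)) (Nat.add (X (nat_lit 156)) (Nat.add (X (nat_lit 162)) (Nat.add (X (nat_lit 163)) (Nat.mul (nat_lit 2) (X (nat_lit 146))))))))))) (.nd (nat_lit 231) 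
 (.lf (.mk fun X => (Nat.mul (nat_lit 2) (Nat.add (X (nat_lit 130)) (Nat.add (X (nat_lit 138)) (Nat.add (X (nat_lit 157)) (X (nat_lit 162)))))))) 
 (.lf (.mk fun X => (Nat.add (X (nat_lit 119)) (Nat.add (X (nat_lit 163)) (Nat.add (Nat.mul (nat_lit 2) (X (nat_lit 160))) (Nat.mul (nat_lit 4) (X (nat_lit 143))))))))))) (.nd (nat_lit 235) (.nd (nat_lit 233) 
 (.lf (.mk fun X => (Nat.mul (nat_lit 2) (Nat.add (X (nat_lit 127)) (Nat.add (X (nat_lit 143)) (Nat.add (X (nat_lit 148)) (X (nat_lit 162)))))))) (.nd (nat_lit 234) 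
 (.lf (.mk fun X => (Nat.mul (nat_lit 8) (X (nat_lit 148))))) 
 (.lf (.mk fun X => (Nat.mul (nat_lit 4) (Nat.add (X (nat_lit 146)) (X (nat_lit 157)))))))) (.nd (nat_lit 236) 
 (.lf (.mk fun X => (Nat.add (Nat.mul (nat_lit 2) (Nat.add (X (nat_lit 144)) (X (nat_lit 158)))) (Nat.mul (nat_lit 4) (X (nat_lit 156)))))) (.nd (nat_lit 237) 
 (.lf (.mk fun X => (Nat.mul (nat_lit 8) (X (nat_lit 155))))) 
 (.lf (.mk fun X => (Nat.mul (nat_lit 8) (X (nat_lit 150))))))))) (.nd (nat_lit 244) (.nd (nat_lit 241) (.nd (nat_lit 239) 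
 (.lf (.mk fun X => (Nat.add (X (nat_lit 164)) (Nat.add (X (nat_lit 165)) (Nat.add (X (nat_lit 168)) (Nat.mul (nat_lit 3) (Nat.add (X (nat_lit 166)) (X (nat_lit 167))))))))) (.nd (nat_lit 240) 
 (.lf (.mk fun X => (Nat.add (X (nat_lit 165)) (Nat.add (X (nat_lit 166)) (Nat.add (X (nat_lit 169)) (Nat.add (X (nat_lit 172)) (Nat.add (X (nat_lit 173)) (Nat.mul (nat_lit 2) (Nat.add (X (nat_lit 170)) (X (nat_lit 171))))))))))) 
 (.lf (.mk fun X => (Nat.add (X (nat_lit 166)) (Nat.add (X (nat_lit 167)) (Nat.add (X (nat_lit 170)) (Nat.add (X (nat_lit 171)) (Nat.add (X (nat_lit 174)) (Nat.add (X (nat_lit 175)) (Nat.add (X (nat_lit 176)) (Nat.add (X (nat_lit 177)) (X (nat_lit 178)))))))))))))) (.nd (nat_lit 242) 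
 (.lf (.mk fun X => (Nat.add (X (nat_lit 167)) (Nat.add (X (nat_lit 168)) (Nat.add (X (nat_lit 172)) (Nat.add (X (nat_lit 173)) (Nat.add (X (nat_lit 179)) (Nat.mul (nat_lit 2) (Nat.add (X (nat_lit 177)) (X (nat_lit 178))))))))))) (.nd (nat_lit 243) 
 (.lf (.mk fun X => (Nat.add (X (nat_lit 180)) (Nat.add (X (nat_lit 181)) (Nat.add (X (nat_lit 183)) (Nat.mul (nat_lit 2) (Nat.add (X (nat_lit 166)) (Nat.add (X (nat_lit 171)) (X (nat_lit 182)))))))))) 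
 (.lf (.mk fun X => (Nat.add (X (nat_lit 165)) (Nat.add (X (nat_lit 167)) (Nat.add (X (nat_lit 184)) (Nat.add (X (nat_lit 186)) (Nat.add (X (nat_lit 187)) (Nat.mul (nat_lit 2) (Nat.add (X (nat_lit 171)) (X (nat_lit 185)))))))))))))) (.nd (nat_lit 247) (.nd (nat_lit 245) 
 (.lf (.mk fun X => (Nat.add (X (nat_lit 181)) (Nat.add (X (nat_lit 183)) (Nat.add (X (nat_lit 189)) (Nat.mul (nat_lit 2) (Nat.add (X (nat_lit 167)) (Nat.add (X (nat_lit 185)) (X (nat_lit 188)))))))))) (.nd (nat_lit 246) 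
 (.lf (.mk fun X => (Nat.add (X (nat_lit 166)) (Nat.add (X (nat_lit 168)) (Nat.add (X (nat_lit 186)) (Nat.add (X (nat_lit 187)) (Nat.add (X (nat_lit 190)) (Nat.mul (nat_lit 2) (Nat.add (X (nat_lit 182)) (X (nat_lit 188))))))))))) 
 (.lf (.mk fun X => (Nat.add (X (nat_lit 191)) (Nat.mul (nat_lit 4) (Nat.add (X (nat_lit 170)) (X (nat_lit 181))))))))) (.nd (nat_lit 249) (.nd (nat_lit 248) 
 (.lf (.mk fun X => (Nat.add (X (nat_lit 181)) (Nat.add (X (nat_lit 192)) (Nat.add (X (nat_lit 193)) (Nat.mul (nat_lit 2) (Nat.add (X (nat_lit 171)) (Nat.add (X (nat_lit 172)) (X (nat_lit 182)))))))))) 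
 (.lf (.mk fun X => (Nat.add (X (nat_lit 191)) (Nat.add (Nat.mul (nat_lit 2) (Nat.add (X (nat_lit 183)) (X (nat_lit 193)))) (Nat.mul (nat_lit 4) (X (nat_lit 173)))))))) (.nd (nat_lit 250) 
 (.lf (.mk fun X => (Nat.add (X (nat_lit 170)) (Nat.add (X (nat_lit 171)) (Nat.add (X (nat_lit 175)) (Nat.add (X (nat_lit 177)) (Nat.add (X (nat_lit 185)) (Nat.add (X (nat_lit 186)) (Nat.add (X (nat_lit 194)) (Nat.add (X (nat_lit 195)) (X (nat_lit 196)))))))))))) 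
 (.lf (.mk fun X => (Nat.add (X (nat_lit 172)) (Nat.add (X (nat_lit 173)) (Nat.add (X (nat_lit 176)) (Nat.add (X (nat_lit 178)) (Nat.add (X (nat_lit 185)) (Nat.add (X (nat_lit 187)) (Nat.add (X (nat_lit 195)) (Nat.add (X (nat_lit 196)) (X (nat_lit 197)))))))))))))))))) (.nd (nat_lit 276) (.nd (nat_lit 263) (.nd (nat_lit 257) (.nd (nat_lit 254) (.nd (nat_lit 252) 
 (.lf (.mk fun X => (Nat.add (X (nat_lit 181)) (Nat.add (X (nat_lit 183)) (Nat.add (X (nat_lit 199)) (Nat.mul (nat_lit 2) (Nat.add (X (nat_lit 176)) (Nat.add (X (nat_lit 177)) (X (nat_lit 198)))))))))) (.nd (nat_lit 253) 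
 (.lf (.mk fun X => (Nat.add (X (nat_lit 200)) (Nat.mul (nat_lit 2) (Nat.add (X (nat_lit 175)) (Nat.add (X (nat_lit 178)) (Nat.add (X (nat_lit 182)) (X (nat_lit 198))))))))) 
 (.lf (.mk fun X => (Nat.add (X (nat_lit 174)) (Nat.add (X (nat_lit 177)) (Nat.add (X (nat_lit 181)) (Nat.add (X (nat_lit 188)) (Nat.add (X (nat_lit 194)) (Nat.add (X (nat_lit 195)) (Nat.add (X (nat_lit 198)) (Nat.add (X (nat_lit 201)) (X (nat_lit 202)))))))))))))) (.nd (nat_lit 255) 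
 (.lf (.mk fun X => (Nat.add (X (nat_lit 189)) (Nat.add (X (nat_lit 191)) (Nat.add (X (nat_lit 199)) (Nat.mul (nat_lit 2) (Nat.add (X (nat_lit 178)) (Nat.add (X (nat_lit 196)) (X (nat_lit 202)))))))))) (.nd (nat_lit 256) 
 (.lf (.mk fun X => (Nat.add (X (nat_lit 190)) (Nat.add (X (nat_lit 192)) (Nat.add (X (nat_lit 200)) (Nat.add (X (nat_lit 201)) (Nat.add (X (nat_lit 203)) (Nat.mul (nat_lit 2) (Nat.add (X (nat_lit 178)) (X (nat_lit 196))))))))))) 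
 (.lf (.mk fun X => (Nat.add (X (nat_lit 177)) (Nat.add (X (nat_lit 179)) (Nat.add (X (nat_lit 188)) (Nat.add (X (nat_lit 193)) (Nat.add (X (nat_lit 195)) (Nat.add (X (nat_lit 197)) (Nat.add (X (nat_lit 198)) (Nat.add (X (nat_lit 202)) (X (nat_lit 203))))))))))))))) (.nd (nat_lit 260) (.nd (nat_lit 258) 
 (.lf (.mk fun X => (Nat.add (X (nat_lit 204)) (Nat.add (Nat.mul (nat_lit 2) (Nat.add (X (nat_lit 201)) (X (nat_lit 203)))) (Nat.mul (nat_lit 4) (X (nat_lit 202))))))) (.nd (nat_lit 259) 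
 (.lf (.mk fun X => (Nat.add (X (nat_lit 180)) (Nat.add (X (nat_lit 192)) (Nat.add (X (nat_lit 206)) (Nat.add (Nat.mul (nat_lit 2) (X (nat_lit 205))) (Nat.mul (nat_lit 4) (X (nat_lit 182))))))))) 
 (.lf (.mk fun X => (Nat.mul (nat_lit 3) (Nat.add (X (nat_lit 183)) (Nat.add (X (nat_lit 193)) (X (nat_lit 206))))))))) (.nd (nat_lit 261) 
 (.lf (.mk fun X => (Nat.add (X (nat_lit 172)) (Nat.add (X (nat_lit 184)) (Nat.add (X (nat_lit 207)) (Nat.add (X (nat_lit 208)) (Nat.add (X (nat_lit 210)) (Nat.mul (nat_lit 2) (Nat.add (X (nat_lit 185)) (X (nat_lit 209))))))))))) (.nd (nat_lit 262) 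
 (.lf (.mk fun X => (Nat.add (X (nat_lit 171)) (Nat.add (X (nat_lit 182)) (Nat.add (X (nat_lit 186)) (Nat.add (X (nat_lit 188)) (Nat.add (X (nat_lit 207)) (Nat.add (X (nat_lit 209)) (Nat.add (X (nat_lit 211)) (Nat.add (X (nat_lit 212)) (X (nat_lit 213)))))))))))) 
 (.lf (.mk fun X => (Nat.add (X (nat_lit 183)) (Nat.add (X (nat_lit 192)) (Nat.add (X (nat_lit 214)) (Nat.mul (nat_lit 2) (Nat.add (X (nat_lit 187)) (Nat.add (X (nat_lit 209)) (X (nat_lit 212)))))))))))))) (.nd (nat_lit 269) (.nd (nat_lit 266) (.nd (nat_lit 264) 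
 (.lf (.mk fun X => (Nat.add (X (nat_lit 189)) (Nat.add (X (nat_lit 193)) (Nat.add (X (nat_lit 214)) (Nat.mul (nat_lit 2) (Nat.add (X (nat_lit 185)) (Nat.add (X (nat_lit 210)) (X (nat_lit 213)))))))))) (.nd (nat_lit 265) 
 (.lf (.mk fun X => (Nat.add (X (nat_lit 190)) (Nat.add (X (nat_lit 205)) (Nat.add (X (nat_lit 211)) (Nat.add (X (nat_lit 215)) (Nat.add (X (nat_lit 216)) (Nat.mul (nat_lit 2) (Nat.add (X (nat_lit 182)) (X (nat_lit 212))))))))))) 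
 (.lf (.mk fun X => (Nat.add (X (nat_lit 181)) (Nat.add (X (nat_lit 206)) (Nat.add (X (nat_lit 214)) (Nat.mul (nat_lit 2) (Nat.add (X (nat_lit 188)) (Nat.add (X (nat_lit 213)) (X (nat_lit 216)))))))))))) (.nd (nat_lit 267) 
 (.lf (.mk fun X => (Nat.add (X (nat_lit 166)) (Nat.add (X (nat_lit 167)) (Nat.add (X (nat_lit 207)) (Nat.add (X (nat_lit 217)) (Nat.add (X (nat_lit 219)) (Nat.mul (nat_lit 2) (Nat.add (X (nat_lit 194)) (X (nat_lit 218))))))))))) (.nd (nat_lit 268) 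
 (.lf (.mk fun X => (Nat.add (X (nat_lit 169)) (Nat.add (X (nat_lit 208)) (Nat.add (X (nat_lit 220)) (Nat.mul (nat_lit 3) (Nat.add (X (nat_lit 186)) (X (nat_lit 217))))))))) 
 (.lf (.mk fun X => (Nat.add (X (nat_lit 171)) (Nat.add (X (nat_lit 177)) (Nat.add (X (nat_lit 185)) (Nat.add (X (nat_lit 195)) (Nat.add (X (nat_lit 209)) (Nat.add (X (nat_lit 217)) (Nat.add (X (nat_lit 218)) (Nat.add (X (nat_lit 221)) (X (nat_lit 222))))))))))))))) (.nd (nat_lit 272) (.nd (nat_lit 270) 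
 (.lf (.mk fun X => (Nat.add (X (nat_lit 173)) (Nat.add (X (nat_lit 187)) (Nat.add (X (nat_lit 210)) (Nat.add (X (nat_lit 219)) (Nat.add (X (nat_lit 220)) (Nat.mul (nat_lit 2) (Nat.add (X (nat_lit 196)) (X (nat_lit 222))))))))))) (.nd (nat_lit 271) 
 (.lf (.mk fun X => (Nat.add (X (nat_lit 180)) (Nat.add (X (nat_lit 211)) (Nat.add (X (nat_lit 223)) (Nat.mul (nat_lit 2) (Nat.add (X (nat_lit 175)) (Nat.add (X (nat_lit 201)) (X (nat_lit 218)))))))))) 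
 (.lf (.mk fun X => (Nat.add (X (nat_lit 178)) (Nat.add (X (nat_lit 182)) (Nat.add (X (nat_lit 196)) (Nat.add (X (nat_lit 198)) (Nat.add (X (nat_lit 212)) (Nat.add (X (nat_lit 218)) (Nat.add (X (nat_lit 221)) (Nat.add (X (nat_lit 223)) (X (nat_lit 224)))))))))))))) (.nd (nat_lit 274) (.nd (nat_lit 273) 
 (.lf (.mk fun X => (Nat.add (X (nat_lit 176)) (Nat.add (X (nat_lit 183)) (Nat.add (X (nat_lit 195)) (Nat.add (X (nat_lit 201)) (Nat.add (X (nat_lit 202)) (Nat.add (X (nat_lit 213)) (Nat.add (X (nat_lit 219)) (Nat.add (X (nat_lit 222)) (X (nat_lit 224)))))))))))) 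
 (.lf (.mk fun X => (Nat.add (X (nat_lit 193)) (Nat.add (X (nat_lit 199)) (Nat.add (X (nat_lit 214)) (Nat.mul (nat_lit 2) (Nat.add (X (nat_lit 197)) (Nat.add (X (nat_lit 222)) (X (nat_lit 224))))))))))) (.nd (nat_lit 275) 
 (.lf (.mk fun X => (Nat.add (X (nat_lit 205)) (Nat.add (X (nat_lit 215)) (Nat.add (X (nat_lit 225)) (Nat.mul (nat_lit 3) (Nat.add (X (nat_lit 200)) (X (nat_lit 223))))))))) 
 (.lf (.mk fun X => (Nat.add (X (nat_lit 201)) (Nat.add (X (nat_lit 203)) (Nat.add (X (nat_lit 206)) (Nat.add (X (nat_lit 216)) (Nat.add (X (nat_lit 225)) (Nat.mul (nat_lit 2) (Nat.add (X (nat_lit 198)) (X (nat_lit 224)))))))))))))))) (.nd (nat_lit 288) (.nd (nat_lit 282) (.nd (nat_lit 279) (.nd (nat_lit 277) 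
 (.lf (.mk fun X => (Nat.add (X (nat_lit 165)) (Nat.add (X (nat_lit 168)) (Nat.add (X (nat_lit 226)) (Nat.mul (nat_lit 3) (Nat.add (X (nat_lit 207)) (X (nat_lit 217))))))))) (.nd (nat_lit 278) 
 (.lf (.mk fun X => (Nat.add (X (nat_lit 173)) (Nat.add (X (nat_lit 187)) (Nat.add (X (nat_lit 208)) (Nat.add (X (nat_lit 226)) (Nat.add (X (nat_lit 228)) (Nat.mul (nat_lit 2) (Nat.add (X (nat_lit 209)) (X (nat_lit 227))))))))))) 
 (.lf (.mk fun X => (Nat.add (X (nat_lit 178)) (Nat.add (X (nat_lit 185)) (Nat.add (X (nat_lit 195)) (Nat.add (X (nat_lit 207)) (Nat.add (X (nat_lit 209)) (Nat.add (X (nat_lit 222)) (Nat.add (X (nat_lit 227)) (Nat.add (X (nat_lit 229)) (X (nat_lit 230)))))))))))))) (.nd (nat_lit 280) 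
 (.lf (.mk fun X => (Nat.add (X (nat_lit 179)) (Nat.add (X (nat_lit 186)) (Nat.add (X (nat_lit 210)) (Nat.add (X (nat_lit 217)) (Nat.add (X (nat_lit 228)) (Nat.mul (nat_lit 2) (Nat.add (X (nat_lit 221)) (X (nat_lit 230))))))))))) (.nd (nat_lit 281) 
 (.lf (.mk fun X => (Nat.add (X (nat_lit 170)) (Nat.add (X (nat_lit 227)) (Nat.add (X (nat_lit 231)) (Nat.mul (nat_lit 2) (Nat.add (X (nat_lit 188)) (Nat.add (X (nat_lit 213)) (X (nat_lit 217)))))))))) 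
 (.lf (.mk fun X => (Nat.add (X (nat_lit 172)) (Nat.add (X (nat_lit 190)) (Nat.add (X (nat_lit 207)) (Nat.add (X (nat_lit 220)) (Nat.add (X (nat_lit 228)) (Nat.mul (nat_lit 2) (Nat.add (X (nat_lit 212)) (X (nat_lit 213)))))))))))))) (.nd (nat_lit 285) (.nd (nat_lit 283) 
 (.lf (.mk fun X => (Nat.add (X (nat_lit 175)) (Nat.add (X (nat_lit 189)) (Nat.add (X (nat_lit 218)) (Nat.add (X (nat_lit 221)) (Nat.add (X (nat_lit 229)) (Nat.add (X (nat_lit 231)) (Nat.add (X (nat_lit 232)) (Nat.mul (nat_lit 2) (X (nat_lit 202)))))))))))) (.nd (nat_lit 284) 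
 (.lf (.mk fun X => (Nat.add (X (nat_lit 177)) (Nat.add (X (nat_lit 188)) (Nat.add (X (nat_lit 194)) (Nat.add (X (nat_lit 198)) (Nat.add (X (nat_lit 213)) (Nat.add (X (nat_lit 222)) (Nat.add (X (nat_lit 224)) (Nat.add (X (nat_lit 230)) (X (nat_lit 232)))))))))))) 
 (.lf (.mk fun X => (Nat.add (X (nat_lit 200)) (Nat.mul (nat_lit 2) (Nat.add (X (nat_lit 196)) (Nat.add (X (nat_lit 212)) (Nat.add (X (nat_lit 224)) (X (nat_lit 229))))))))))) (.nd (nat_lit 286) 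
 (.lf (.mk fun X => (Nat.add (X (nat_lit 199)) (Nat.add (X (nat_lit 232)) (Nat.add (X (nat_lit 233)) (Nat.mul (nat_lit 2) (Nat.add (X (nat_lit 198)) (Nat.add (X (nat_lit 202)) (X (nat_lit 224)))))))))) (.nd (nat_lit 287) 
 (.lf (.mk fun X => (Nat.add (X (nat_lit 196)) (Nat.add (X (nat_lit 197)) (Nat.add (X (nat_lit 209)) (Nat.add (X (nat_lit 210)) (Nat.add (X (nat_lit 222)) (Nat.add (X (nat_lit 227)) (Nat.add (X (nat_lit 228)) (Nat.add (X (nat_lit 229)) (X (nat_lit 234)))))))))))) 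
 (.lf (.mk fun X => (Nat.add (X (nat_lit 195)) (Nat.add (X (nat_lit 202)) (Nat.add (X (nat_lit 203)) (Nat.add (X (nat_lit 213)) (Nat.add (X (nat_lit 214)) (Nat.add (X (nat_lit 222)) (Nat.add (X (nat_lit 224)) (Nat.add (X (nat_lit 230)) (X (nat_lit 234)))))))))))))))) (.nd (nat_lit 294) (.nd (nat_lit 291) (.nd (nat_lit 289) 
 (.lf (.mk fun X => (Nat.add (X (nat_lit 193)) (Nat.add (X (nat_lit 214)) (Nat.add (X (nat_lit 235)) (Nat.mul (nat_lit 2) (Nat.add (X (nat_lit 209)) (Nat.add (X (nat_lit 212)) (X (nat_lit 228)))))))))) (.nd (nat_lit 290) 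
 (.lf (.mk fun X => (Nat.add (X (nat_lit 191)) (Nat.mul (nat_lit 4) (Nat.add (X (nat_lit 214)) (X (nat_lit 227))))))) 
 (.lf (.mk fun X => (Nat.add (X (nat_lit 192)) (Nat.add (X (nat_lit 206)) (Nat.add (X (nat_lit 235)) (Nat.add (Nat.mul (nat_lit 2) (X (nat_lit 215))) (Nat.mul (nat_lit 4) (X (nat_lit 212))))))))))) (.nd (nat_lit 292) 
 (.lf (.mk fun X => (Nat.add (X (nat_lit 211)) (Nat.add (X (nat_lit 223)) (Nat.add (X (nat_lit 235)) (Nat.mul (nat_lit 2) (Nat.add (X (nat_lit 203)) (Nat.add (X (nat_lit 221)) (X (nat_lit 229)))))))))) (.nd (nat_lit 293) 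
 (.lf (.mk fun X => (Nat.add (X (nat_lit 208)) (Nat.add (X (nat_lit 220)) (Nat.add (X (nat_lit 236)) (Nat.mul (nat_lit 3) (Nat.add (X (nat_lit 210)) (X (nat_lit 228))))))))) 
 (.lf (.mk fun X => (Nat.add (X (nat_lit 237)) (Nat.mul (nat_lit 4) (Nat.add (X (nat_lit 205)) (X (nat_lit 215)))))))))) (.nd (nat_lit 297) (.nd (nat_lit 295) 
 (.lf (.mk fun X => (Nat.add (Nat.mul (nat_lit 2) (Nat.add (X (nat_lit 238)) (Nat.add (X (nat_lit 239)) (X (nat_lit 241))))) (Nat.mul (nat_lit 4) (X (nat_lit 240)))))) (.nd (nat_lit 296) 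
 (.lf (.mk fun X => (Nat.mul (nat_lit 2) (Nat.add (X (nat_lit 238)) (Nat.add (X (nat_lit 242)) (Nat.add (X (nat_lit 243)) (Nat.add (X (nat_lit 244)) (X (nat_lit 245))))))))) 
 (.lf (.mk fun X => (Nat.add (X (nat_lit 246)) (Nat.add (X (nat_lit 248)) (Nat.add (Nat.mul (nat_lit 2) (Nat.add (X (nat_lit 242)) (X (nat_lit 247)))) (Nat.mul (nat_lit 4) (X (nat_lit 239)))))))))) (.nd (nat_lit 299) (.nd (nat_lit 298) 
 (.lf (.mk fun X => (Nat.mul (nat_lit 2) (Nat.add (X (nat_lit 239)) (Nat.add (X (nat_lit 240)) (Nat.add (X (nat_lit 243)) (Nat.add (X (nat_lit 249)) (X (nat_lit 250))))))))) 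
 (.lf (.mk fun X => (Nat.add (Nat.mul (nat_lit 2) (Nat.add (X (nat_lit 242)) (Nat.add (X (nat_lit 251)) (X (nat_lit 252))))) (Nat.mul (nat_lit 4) (X (nat_lit 240))))))) (.nd (nat_lit 300) 
 (.lf (.mk fun X => (Nat.add (X (nat_lit 244)) (Nat.add (X (nat_lit 246)) (Nat.add (X (nat_lit 251)) (Nat.add (X (nat_lit 254)) (Nat.mul (nat_lit 2) (Nat.add (X (nat_lit 240)) (Nat.add (X (nat_lit 249)) (X (nat_lit 253))))))))))) 
 (.lf (.mk fun X => (Nat.add (X (nat_lit 240)) (Nat.add (X (nat_lit 241)) (Nat.add (X (nat_lit 245)) (Nat.add (X (nat_lit 247)) (Nat.add (X (nat_lit 249)) (Nat.add (X (nat_lit 250)) (Nat.add (X (nat_lit 252)) (Nat.add (X (nat_lit 253)) (Nat.add (X (nat_lit 255)) (X (nat_lit 256)))))))))))))))))))) (.nd (nat_lit 351) (.nd (nat_lit 326) (.nd (nat_lit 313) (.nd (nat_lit 307) (.nd (nat_lit 304) (.nd (nat_lit 302) 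
 (.lf (.mk fun X => (Nat.add (X (nat_lit 244)) (Nat.add (X (nat_lit 248)) (Nat.add (X (nat_lit 251)) (Nat.add (X (nat_lit 254)) (Nat.mul (nat_lit 2) (Nat.add (X (nat_lit 241)) (Nat.add (X (nat_lit 250)) (X (nat_lit 256))))))))))) (.nd (nat_lit 303) 
 (.lf (.mk fun X => (Nat.add (Nat.mul (nat_lit 2) (X (nat_lit 257))) (Nat.mul (nat_lit 4) (Nat.add (X (nat_lit 253)) (X (nat_lit 256))))))) 
 (.lf (.mk fun X => (Nat.add (Nat.mul (nat_lit 2) (X (nat_lit 257))) (Nat.mul (nat_lit 4) (Nat.add (X (nat_lit 254)) (X (nat_lit 255))))))))) (.nd (nat_lit 305) 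
 (.lf (.mk fun X => (Nat.add (X (nat_lit 259)) (Nat.mul (nat_lit 3) (Nat.add (X (nat_lit 242)) (Nat.add (X (nat_lit 247)) (X (nat_lit 258)))))))) (.nd (nat_lit 306) 
 (.lf (.mk fun X => (Nat.add (X (nat_lit 244)) (Nat.add (X (nat_lit 247)) (Nat.add (X (nat_lit 262)) (Nat.add (X (nat_lit 263)) (Nat.mul (nat_lit 2) (Nat.add (X (nat_lit 243)) (Nat.add (X (nat_lit 260)) (X (nat_lit 261))))))))))) 
 (.lf (.mk fun X => (Nat.add (X (nat_lit 242)) (Nat.add (X (nat_lit 258)) (Nat.add (X (nat_lit 262)) (Nat.add (X (nat_lit 265)) (Nat.mul (nat_lit 2) (Nat.add (X (nat_lit 245)) (Nat.add (X (nat_lit 261)) (X (nat_lit 264)))))))))))))) (.nd (nat_lit 310) (.nd (nat_lit 308) 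
 (.lf (.mk fun X => (Nat.add (X (nat_lit 259)) (Nat.mul (nat_lit 3) (Nat.add (X (nat_lit 244)) (Nat.add (X (nat_lit 263)) (X (nat_lit 265)))))))) (.nd (nat_lit 309) 
 (.lf (.mk fun X => (Nat.add (Nat.mul (nat_lit 4) (X (nat_lit 259))) (Nat.mul (nat_lit 6) (X (nat_lit 248)))))) 
 (.lf (.mk fun X => (Nat.add (X (nat_lit 239)) (Nat.add (X (nat_lit 243)) (Nat.add (X (nat_lit 260)) (Nat.add (X (nat_lit 266)) (Nat.add (X (nat_lit 267)) (Nat.add (X (nat_lit 269)) (Nat.mul (nat_lit 2) (Nat.add (X (nat_lit 249)) (X (nat_lit 268)))))))))))))) (.nd (nat_lit 311) 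
 (.lf (.mk fun X => (Nat.add (X (nat_lit 240)) (Nat.add (X (nat_lit 242)) (Nat.add (X (nat_lit 249)) (Nat.add (X (nat_lit 253)) (Nat.add (X (nat_lit 261)) (Nat.add (X (nat_lit 266)) (Nat.add (X (nat_lit 268)) (Nat.add (X (nat_lit 270)) (Nat.add (X (nat_lit 271)) (X (nat_lit 272))))))))))))) (.nd (nat_lit 312) 
 (.lf (.mk fun X => (Nat.add (X (nat_lit 247)) (Nat.add (X (nat_lit 251)) (Nat.add (X (nat_lit 262)) (Nat.add (X (nat_lit 273)) (Nat.mul (nat_lit 2) (Nat.add (X (nat_lit 250)) (Nat.add (X (nat_lit 268)) (X (nat_lit 271))))))))))) 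
 (.lf (.mk fun X => (Nat.add (X (nat_lit 248)) (Nat.add (X (nat_lit 254)) (Nat.add (X (nat_lit 263)) (Nat.add (X (nat_lit 273)) (Nat.mul (nat_lit 2) (Nat.add (X (nat_lit 250)) (Nat.add (X (nat_lit 269)) (X (nat_lit 272))))))))))))))) (.nd (nat_lit 319) (.nd (nat_lit 316) (.nd (nat_lit 314) 
 (.lf (.mk fun X => (Nat.add (X (nat_lit 255)) (Nat.add (X (nat_lit 258)) (Nat.add (X (nat_lit 264)) (Nat.add (X (nat_lit 270)) (Nat.add (X (nat_lit 274)) (Nat.add (X (nat_lit 275)) (Nat.mul (nat_lit 2) (Nat.add (X (nat_lit 252)) (X (nat_lit 271)))))))))))) (.nd (nat_lit 315) 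
 (.lf (.mk fun X => (Nat.add (X (nat_lit 251)) (Nat.add (X (nat_lit 259)) (Nat.add (X (nat_lit 265)) (Nat.add (X (nat_lit 273)) (Nat.mul (nat_lit 2) (Nat.add (X (nat_lit 256)) (Nat.add (X (nat_lit 272)) (X (nat_lit 275))))))))))) 
 (.lf (.mk fun X => (Nat.add (Nat.mul (nat_lit 2) (Nat.add (X (nat_lit 238)) (X (nat_lit 276)))) (Nat.mul (nat_lit 6) (X (nat_lit 266)))))))) (.nd (nat_lit 317) 
 (.lf (.mk fun X => (Nat.add (X (nat_lit 241)) (Nat.add (X (nat_lit 243)) (Nat.add (X (nat_lit 260)) (Nat.add (X (nat_lit 276)) (Nat.add (X (nat_lit 277)) (Nat.add (X (nat_lit 279)) (Nat.mul (nat_lit 2) (Nat.add (X (nat_lit 268)) (X (nat_lit 278)))))))))))) (.nd (nat_lit 318) 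
 (.lf (.mk fun X => (Nat.add (X (nat_lit 239)) (Nat.add (X (nat_lit 245)) (Nat.add (X (nat_lit 267)) (Nat.add (X (nat_lit 276)) (Nat.add (X (nat_lit 277)) (Nat.add (X (nat_lit 281)) (Nat.mul (nat_lit 2) (Nat.add (X (nat_lit 261)) (X (nat_lit 280)))))))))))) 
 (.lf (.mk fun X => (Nat.add (X (nat_lit 240)) (Nat.add (X (nat_lit 244)) (Nat.add (X (nat_lit 253)) (Nat.add (X (nat_lit 266)) (Nat.add (X (nat_lit 268)) (Nat.add (X (nat_lit 272)) (Nat.add (X (nat_lit 278)) (Nat.add (X (nat_lit 280)) (Nat.add (X (nat_lit 282)) (X (nat_lit 283)))))))))))))))) (.nd (nat_lit 322) (.nd (nat_lit 320) 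
 (.lf (.mk fun X => (Nat.add (X (nat_lit 241)) (Nat.add (X (nat_lit 245)) (Nat.add (X (nat_lit 266)) (Nat.add (X (nat_lit 269)) (Nat.add (X (nat_lit 279)) (Nat.add (X (nat_lit 281)) (Nat.mul (nat_lit 2) (Nat.add (X (nat_lit 271)) (X (nat_lit 283)))))))))))) (.nd (nat_lit 321) 
 (.lf (.mk fun X => (Nat.add (X (nat_lit 252)) (Nat.add (X (nat_lit 284)) (Nat.mul (nat_lit 2) (Nat.add (X (nat_lit 249)) (Nat.add (X (nat_lit 261)) (Nat.add (X (nat_lit 278)) (X (nat_lit 283)))))))))) 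
 (.lf (.mk fun X => (Nat.mul (nat_lit 2) (Nat.add (X (nat_lit 251)) (Nat.add (X (nat_lit 253)) (Nat.add (X (nat_lit 272)) (Nat.add (X (nat_lit 283)) (X (nat_lit 285))))))))))) (.nd (nat_lit 324) (.nd (nat_lit 323) 
 (.lf (.mk fun X => (Nat.add (X (nat_lit 252)) (Nat.add (X (nat_lit 284)) (Nat.mul (nat_lit 2) (Nat.add (X (nat_lit 254)) (Nat.add (X (nat_lit 271)) (Nat.add (X (nat_lit 282)) (X (nat_lit 285)))))))))) 
 (.lf (.mk fun X => (Nat.mul (nat_lit 2) (Nat.add (X (nat_lit 250)) (Nat.add (X (nat_lit 260)) (Nat.add (X (nat_lit 277)) (Nat.add (X (nat_lit 278)) (X (nat_lit 286)))))))))) (.nd (nat_lit 325) 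
 (.lf (.mk fun X => (Nat.add (X (nat_lit 250)) (Nat.add (X (nat_lit 255)) (Nat.add (X (nat_lit 262)) (Nat.add (X (nat_lit 269)) (Nat.add (X (nat_lit 272)) (Nat.add (X (nat_lit 278)) (Nat.add (X (nat_lit 281)) (Nat.add (X (nat_lit 284)) (Nat.add (X (nat_lit 286)) (X (nat_lit 287))))))))))))) 
 (.lf (.mk fun X => (Nat.add (X (nat_lit 249)) (Nat.add (X (nat_lit 256)) (Nat.add (X (nat_lit 263)) (Nat.add (X (nat_lit 268)) (Nat.add (X (nat_lit 279)) (Nat.add (X (nat_lit 280)) (Nat.add (X (nat_lit 282)) (Nat.add (X (nat_lit 283)) (Nat.add (X (nat_lit 286)) (X (nat_lit 287)))))))))))))))))) (.nd (nat_lit 338) (.nd (nat_lit 332) (.nd (nat_lit 329) (.nd (nat_lit 327) 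
 (.lf (.mk fun X => (Nat.mul (nat_lit 2) (Nat.add (X (nat_lit 256)) (Nat.add (X (nat_lit 273)) (Nat.add (X (nat_lit 283)) (Nat.add (X (nat_lit 285)) (X (nat_lit 287))))))))) (.nd (nat_lit 328) 
 (.lf (.mk fun X => (Nat.add (X (nat_lit 248)) (Nat.add (X (nat_lit 289)) (Nat.add (Nat.mul (nat_lit 2) (Nat.add (X (nat_lit 262)) (X (nat_lit 288)))) (Nat.mul (nat_lit 4) (X (nat_lit 277)))))))) 
 (.lf (.mk fun X => (Nat.add (X (nat_lit 247)) (Nat.add (X (nat_lit 265)) (Nat.add (X (nat_lit 288)) (Nat.add (X (nat_lit 290)) (Nat.mul (nat_lit 2) (Nat.add (X (nat_lit 261)) (Nat.add (X (nat_lit 264)) (X (nat_lit 281))))))))))))) (.nd (nat_lit 330) 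
 (.lf (.mk fun X => (Nat.add (X (nat_lit 246)) (Nat.add (X (nat_lit 289)) (Nat.mul (nat_lit 4) (Nat.add (X (nat_lit 265)) (X (nat_lit 280)))))))) (.nd (nat_lit 331) 
 (.lf (.mk fun X => (Nat.add (X (nat_lit 256)) (Nat.add (X (nat_lit 261)) (Nat.add (X (nat_lit 268)) (Nat.add (X (nat_lit 271)) (Nat.add (X (nat_lit 278)) (Nat.add (X (nat_lit 279)) (Nat.add (X (nat_lit 286)) (Nat.add (X (nat_lit 287)) (Nat.add (X (nat_lit 288)) (X (nat_lit 291))))))))))))) 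
 (.lf (.mk fun X => (Nat.add (X (nat_lit 254)) (Nat.add (X (nat_lit 263)) (Nat.add (X (nat_lit 273)) (Nat.add (X (nat_lit 289)) (Nat.mul (nat_lit 2) (Nat.add (X (nat_lit 278)) (Nat.add (X (nat_lit 286)) (X (nat_lit 287)))))))))))))) (.nd (nat_lit 335) (.nd (nat_lit 333) 
 (.lf (.mk fun X => (Nat.add (X (nat_lit 255)) (Nat.add (X (nat_lit 264)) (Nat.add (X (nat_lit 274)) (Nat.add (X (nat_lit 275)) (Nat.add (X (nat_lit 290)) (Nat.add (X (nat_lit 291)) (Nat.mul (nat_lit 2) (Nat.add (X (nat_lit 271)) (X (nat_lit 284)))))))))))) (.nd (nat_lit 334) 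
 (.lf (.mk fun X => (Nat.mul (nat_lit 2) (Nat.add (X (nat_lit 253)) (Nat.add (X (nat_lit 265)) (Nat.add (X (nat_lit 275)) (Nat.add (X (nat_lit 283)) (X (nat_lit 287))))))))) 
 (.lf (.mk fun X => (Nat.add (Nat.mul (nat_lit 2) (Nat.add (X (nat_lit 257)) (Nat.add (X (nat_lit 270)) (X (nat_lit 291))))) (Nat.mul (nat_lit 4) (X (nat_lit 282)))))))) (.nd (nat_lit 336) 
 (.lf (.mk fun X => (Nat.add (Nat.mul (nat_lit 2) (X (nat_lit 257))) (Nat.mul (nat_lit 4) (Nat.add (X (nat_lit 272)) (X (nat_lit 287))))))) (.nd (nat_lit 337) 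
 (.lf (.mk fun X => (Nat.add (Nat.mul (nat_lit 2) (X (nat_lit 257))) (Nat.mul (nat_lit 4) (Nat.add (X (nat_lit 275)) (X (nat_lit 285))))))) 
 (.lf (.mk fun X => (Nat.add (Nat.mul (nat_lit 2) (Nat.add (X (nat_lit 267)) (X (nat_lit 292)))) (Nat.mul (nat_lit 6) (X (nat_lit 279)))))))))) (.nd (nat_lit 344) (.nd (nat_lit 341) (.nd (nat_lit 339) 
 (.lf (.mk fun X => (Nat.mul (nat_lit 2) (Nat.add (X (nat_lit 260)) (Nat.add (X (nat_lit 263)) (Nat.add (X (nat_lit 281)) (Nat.add (X (nat_lit 288)) (X (nat_lit 292))))))))) (.nd (nat_lit 340) 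
 (.lf (.mk fun X => (Nat.add (Nat.mul (nat_lit 2) (Nat.add (X (nat_lit 269)) (Nat.add (X (nat_lit 277)) (X (nat_lit 292))))) (Nat.mul (nat_lit 4) (X (nat_lit 286)))))) 
 (.lf (.mk fun X => (Nat.add (X (nat_lit 259)) (Nat.mul (nat_lit 3) (Nat.add (X (nat_lit 262)) (Nat.add (X (nat_lit 288)) (X (nat_lit 290)))))))))) (.nd (nat_lit 342) 
 (.lf (.mk fun X => (Nat.add (Nat.mul (nat_lit 2) (Nat.add (X (nat_lit 273)) (Nat.add (X (nat_lit 284)) (X (nat_lit 288))))) (Nat.mul (nat_lit 4) (X (nat_lit 286)))))) (.nd (nat_lit 343) 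
 (.lf (.mk fun X => (Nat.add (Nat.mul (nat_lit 2) (Nat.add (X (nat_lit 258)) (Nat.add (X (nat_lit 290)) (X (nat_lit 293))))) (Nat.mul (nat_lit 4) (X (nat_lit 264)))))) 
 (.lf (.mk fun X => (Nat.add (Nat.mul (nat_lit 2) (X (nat_lit 293))) (Nat.mul (nat_lit 8) (X (nat_lit 274))))))))) (.nd (nat_lit 347) (.nd (nat_lit 345) 
 (.lf (.mk fun X => (Nat.add (X (nat_lit 295)) (Nat.add (X (nat_lit 296)) (Nat.add (X (nat_lit 298)) (Nat.add (X (nat_lit 299)) (Nat.add (X (nat_lit 301)) (Nat.mul (nat_lit 2) (Nat.add (X (nat_lit 294)) (Nat.add (X (nat_lit 297)) (X (nat_lit 300)))))))))))) (.nd (nat_lit 346) 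
 (.lf (.mk fun X => (Nat.add (X (nat_lit 303)) (Nat.add (Nat.mul (nat_lit 2) (Nat.add (X (nat_lit 299)) (Nat.add (X (nat_lit 301)) (X (nat_lit 302))))) (Nat.mul (nat_lit 4) (X (nat_lit 300))))))) 
 (.lf (.mk fun X => (Nat.add (X (nat_lit 304)) (Nat.add (X (nat_lit 307)) (Nat.mul (nat_lit 3) (Nat.add (X (nat_lit 295)) (Nat.add (X (nat_lit 305)) (X (nat_lit 306))))))))))) (.nd (nat_lit 349) (.nd (nat_lit 348) 
 (.lf (.mk fun X => (Nat.add (X (nat_lit 308)) (Nat.add (Nat.mul (nat_lit 4) (X (nat_lit 304))) (Nat.mul (nat_lit 6) (X (nat_lit 296))))))) 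
 (.lf (.mk fun X => (Nat.add (X (nat_lit 296)) (Nat.add (X (nat_lit 299)) (Nat.add (X (nat_lit 305)) (Nat.add (X (nat_lit 311)) (Nat.add (X (nat_lit 312)) (Nat.mul (nat_lit 2) (Nat.add (X (nat_lit 297)) (Nat.add (X (nat_lit 309)) (X (nat_lit 310))))))))))))) (.nd (nat_lit 350) 
 (.lf (.mk fun X => (Nat.add (X (nat_lit 298)) (Nat.add (X (nat_lit 304)) (Nat.add (X (nat_lit 306)) (Nat.add (X (nat_lit 311)) (Nat.add (X (nat_lit 314)) (Nat.mul (nat_lit 2) (Nat.add (X (nat_lit 300)) (Nat.add (X (nat_lit 310)) (X (nat_lit 313)))))))))))) 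
 (.lf (.mk fun X => (Nat.add (X (nat_lit 307)) (Nat.add (X (nat_lit 308)) (Nat.mul (nat_lit 3) (Nat.add (X (nat_lit 301)) (Nat.add (X (nat_lit 312)) (X (nat_lit 314))))))))))))))) (.nd (nat_lit 376) (.nd (nat_lit 363) (.nd (nat_lit 357) (.nd (nat_lit 354) (.nd (nat_lit 352) 
 (.lf (.mk fun X => (Nat.add (X (nat_lit 294)) (Nat.add (X (nat_lit 295)) (Nat.add (X (nat_lit 309)) (Nat.add (X (nat_lit 315)) (Nat.add (X (nat_lit 316)) (Nat.add (X (nat_lit 317)) (Nat.add (X (nat_lit 319)) (Nat.mul (nat_lit 2) (Nat.add (X (nat_lit 310)) (X (nat_lit 318))))))))))))) (.nd (nat_lit 353) 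
 (.lf (.mk fun X => (Nat.add (X (nat_lit 298)) (Nat.add (X (nat_lit 320)) (Nat.add (X (nat_lit 322)) (Nat.mul (nat_lit 2) (Nat.add (X (nat_lit 299)) (Nat.add (X (nat_lit 310)) (Nat.add (X (nat_lit 318)) (X (nat_lit 321))))))))))) 
 (.lf (.mk fun X => (Nat.add (X (nat_lit 297)) (Nat.add (X (nat_lit 300)) (Nat.add (X (nat_lit 305)) (Nat.add (X (nat_lit 309)) (Nat.add (X (nat_lit 316)) (Nat.add (X (nat_lit 317)) (Nat.add (X (nat_lit 318)) (Nat.add (X (nat_lit 320)) (Nat.add (X (nat_lit 323)) (Nat.add (X (nat_lit 324)) (X (nat_lit 325)))))))))))))))) (.nd (nat_lit 355) 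
 (.lf (.mk fun X => (Nat.add (X (nat_lit 300)) (Nat.add (X (nat_lit 301)) (Nat.add (X (nat_lit 311)) (Nat.add (X (nat_lit 312)) (Nat.add (X (nat_lit 318)) (Nat.add (X (nat_lit 319)) (Nat.add (X (nat_lit 321)) (Nat.add (X (nat_lit 322)) (Nat.add (X (nat_lit 324)) (Nat.add (X (nat_lit 325)) (X (nat_lit 326)))))))))))))) (.nd (nat_lit 356) 
 (.lf (.mk fun X => (Nat.add (X (nat_lit 296)) (Nat.add (X (nat_lit 327)) (Nat.add (X (nat_lit 329)) (Nat.add (Nat.mul (nat_lit 2) (Nat.add (X (nat_lit 306)) (X (nat_lit 328)))) (Nat.mul (nat_lit 4) (X (nat_lit 317))))))))) 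
 (.lf (.mk fun X => (Nat.add (X (nat_lit 301)) (Nat.add (X (nat_lit 305)) (Nat.add (X (nat_lit 311)) (Nat.add (X (nat_lit 327)) (Nat.add (X (nat_lit 331)) (Nat.mul (nat_lit 2) (Nat.add (X (nat_lit 316)) (Nat.add (X (nat_lit 323)) (X (nat_lit 330))))))))))))))) (.nd (nat_lit 360) (.nd (nat_lit 358) 
 (.lf (.mk fun X => (Nat.add (X (nat_lit 300)) (Nat.add (X (nat_lit 306)) (Nat.add (X (nat_lit 310)) (Nat.add (X (nat_lit 313)) (Nat.add (X (nat_lit 319)) (Nat.add (X (nat_lit 320)) (Nat.add (X (nat_lit 324)) (Nat.add (X (nat_lit 328)) (Nat.add (X (nat_lit 330)) (Nat.add (X (nat_lit 332)) (X (nat_lit 333)))))))))))))) (.nd (nat_lit 359) 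
 (.lf (.mk fun X => (Nat.add (X (nat_lit 299)) (Nat.add (X (nat_lit 307)) (Nat.add (X (nat_lit 314)) (Nat.add (X (nat_lit 329)) (Nat.add (X (nat_lit 331)) (Nat.mul (nat_lit 2) (Nat.add (X (nat_lit 318)) (Nat.add (X (nat_lit 325)) (X (nat_lit 333)))))))))))) 
 (.lf (.mk fun X => (Nat.add (X (nat_lit 302)) (Nat.add (X (nat_lit 334)) (Nat.add (X (nat_lit 335)) (Nat.mul (nat_lit 2) (Nat.add (X (nat_lit 310)) (Nat.add (X (nat_lit 318)) (Nat.add (X (nat_lit 325)) (X (nat_lit 330))))))))))))) (.nd (nat_lit 361) 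
 (.lf (.mk fun X => (Nat.add (X (nat_lit 303)) (Nat.add (Nat.mul (nat_lit 2) (Nat.add (X (nat_lit 312)) (Nat.add (X (nat_lit 331)) (X (nat_lit 335))))) (Nat.mul (nat_lit 4) (X (nat_lit 324))))))) (.nd (nat_lit 362) 
 (.lf (.mk fun X => (Nat.add (X (nat_lit 303)) (Nat.add (X (nat_lit 334)) (Nat.add (X (nat_lit 336)) (Nat.add (Nat.mul (nat_lit 2) (Nat.add (X (nat_lit 313)) (X (nat_lit 332)))) (Nat.mul (nat_lit 4) (X (nat_lit 322))))))))) 
 (.lf (.mk fun X => (Nat.add (X (nat_lit 302)) (Nat.add (X (nat_lit 335)) (Nat.add (X (nat_lit 336)) (Nat.mul (nat_lit 2) (Nat.add (X (nat_lit 314)) (Nat.add (X (nat_lit 321)) (Nat.add (X (nat_lit 326)) (X (nat_lit 333))))))))))))))) (.nd (nat_lit 369) (.nd (nat_lit 366) (.nd (nat_lit 364) 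
 (.lf (.mk fun X => (Nat.add (X (nat_lit 309)) (Nat.add (X (nat_lit 316)) (Nat.add (X (nat_lit 317)) (Nat.add (X (nat_lit 319)) (Nat.add (X (nat_lit 337)) (Nat.add (X (nat_lit 338)) (Nat.add (X (nat_lit 339)) (Nat.mul (nat_lit 2) (Nat.add (X (nat_lit 325)) (X (nat_lit 330))))))))))))) (.nd (nat_lit 365) 
 (.lf (.mk fun X => (Nat.add (X (nat_lit 307)) (Nat.add (X (nat_lit 340)) (Nat.mul (nat_lit 3) (Nat.add (X (nat_lit 305)) (Nat.add (X (nat_lit 328)) (X (nat_lit 338))))))))) 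
 (.lf (.mk fun X => (Nat.add (X (nat_lit 312)) (Nat.add (X (nat_lit 327)) (Nat.add (X (nat_lit 331)) (Nat.add (X (nat_lit 338)) (Nat.add (X (nat_lit 341)) (Nat.mul (nat_lit 2) (Nat.add (X (nat_lit 323)) (Nat.add (X (nat_lit 324)) (X (nat_lit 339)))))))))))))) (.nd (nat_lit 367) 
 (.lf (.mk fun X => (Nat.add (X (nat_lit 311)) (Nat.add (X (nat_lit 314)) (Nat.add (X (nat_lit 328)) (Nat.add (X (nat_lit 340)) (Nat.add (X (nat_lit 341)) (Nat.mul (nat_lit 2) (Nat.add (X (nat_lit 324)) (Nat.add (X (nat_lit 330)) (X (nat_lit 332)))))))))))) (.nd (nat_lit 368) 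
 (.lf (.mk fun X => (Nat.add (X (nat_lit 320)) (Nat.add (X (nat_lit 322)) (Nat.add (X (nat_lit 341)) (Nat.mul (nat_lit 2) (Nat.add (X (nat_lit 325)) (Nat.add (X (nat_lit 326)) (Nat.add (X (nat_lit 330)) (X (nat_lit 331))))))))))) 
 (.lf (.mk fun X => (Nat.add (X (nat_lit 304)) (Nat.add (X (nat_lit 340)) (Nat.mul (nat_lit 3) (Nat.add (X (nat_lit 306)) (Nat.add (X (nat_lit 328)) (X (nat_lit 342)))))))))))) (.nd (nat_lit 372) (.nd (nat_lit 370) 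
 (.lf (.mk fun X => (Nat.add (X (nat_lit 308)) (Nat.add (Nat.mul (nat_lit 4) (X (nat_lit 340))) (Nat.mul (nat_lit 6) (X (nat_lit 327))))))) (.nd (nat_lit 371) 
 (.lf (.mk fun X => (Nat.add (X (nat_lit 343)) (Nat.add (Nat.mul (nat_lit 2) (X (nat_lit 342))) (Nat.mul (nat_lit 4) (Nat.add (X (nat_lit 313)) (X (nat_lit 332)))))))) 
 (.lf (.mk fun X => (Nat.add (Nat.mul (nat_lit 4) (X (nat_lit 345))) (Nat.mul (nat_lit 8) (X (nat_lit 344)))))))) (.nd (nat_lit 374) (.nd (nat_lit 373) 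
 (.lf (.mk fun X => (Nat.add (X (nat_lit 346)) (Nat.add (X (nat_lit 347)) (Nat.add (X (nat_lit 350)) (Nat.mul (nat_lit 3) (Nat.add (X (nat_lit 344)) (Nat.add (X (nat_lit 348)) (X (nat_lit 349)))))))))) 
 (.lf (.mk fun X => (Nat.mul (nat_lit 2) (Nat.add (X (nat_lit 344)) (Nat.add (X (nat_lit 348)) (Nat.add (X (nat_lit 351)) (Nat.add (X (nat_lit 352)) (Nat.add (X (nat_lit 353)) (X (nat_lit 354))))))))))) (.nd (nat_lit 375) 
 (.lf (.mk fun X => (Nat.add (X (nat_lit 344)) (Nat.add (X (nat_lit 346)) (Nat.add (X (nat_lit 349)) (Nat.add (X (nat_lit 355)) (Nat.add (X (nat_lit 356)) (Nat.add (X (nat_lit 358)) (Nat.mul (nat_lit 2) (Nat.add (X (nat_lit 351)) (Nat.add (X (nat_lit 353)) (X (nat_lit 357))))))))))))) 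
 (.lf (.mk fun X => (Nat.add (X (nat_lit 345)) (Nat.add (X (nat_lit 360)) (Nat.add (Nat.mul (nat_lit 2) (Nat.add (X (nat_lit 348)) (Nat.add (X (nat_lit 356)) (X (nat_lit 359))))) (Nat.mul (nat_lit 4) (X (nat_lit 353))))))))))))) (.nd (nat_lit 389) (.nd (nat_lit 382) (.nd (nat_lit 379) (.nd (nat_lit 377) 
 (.lf (.mk fun X => (Nat.add (X (nat_lit 345)) (Nat.add (X (nat_lit 359)) (Nat.add (X (nat_lit 361)) (Nat.add (X (nat_lit 362)) (Nat.mul (nat_lit 2) (Nat.add (X (nat_lit 349)) (Nat.add (X (nat_lit 352)) (Nat.add (X (nat_lit 354)) (X (nat_lit 357)))))))))))) (.nd (nat_lit 378) 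
 (.lf (.mk fun X => (Nat.add (X (nat_lit 345)) (Nat.add (X (nat_lit 360)) (Nat.add (Nat.mul (nat_lit 2) (Nat.add (X (nat_lit 350)) (Nat.add (X (nat_lit 358)) (X (nat_lit 362))))) (Nat.mul (nat_lit 4) (X (nat_lit 354)))))))) 
 (.lf (.mk fun X => (Nat.mul (nat_lit 4) (Nat.add (X (nat_lit 351)) (Nat.add (X (nat_lit 359)) (X (nat_lit 363))))))))) (.nd (nat_lit 380) 
 (.lf (.mk fun X => (Nat.add (X (nat_lit 348)) (Nat.add (X (nat_lit 355)) (Nat.add (X (nat_lit 358)) (Nat.add (X (nat_lit 364)) (Nat.add (X (nat_lit 365)) (Nat.add (X (nat_lit 366)) (Nat.mul (nat_lit 2) (Nat.add (X (nat_lit 353)) (Nat.add (X (nat_lit 357)) (X (nat_lit 363))))))))))))) (.nd (nat_lit 381) 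
 (.lf (.mk fun X => (Nat.mul (nat_lit 2) (Nat.add (X (nat_lit 353)) (Nat.add (X (nat_lit 354)) (Nat.add (X (nat_lit 356)) (Nat.add (X (nat_lit 363)) (Nat.add (X (nat_lit 365)) (X (nat_lit 367)))))))))) 
 (.lf (.mk fun X => (Nat.add (Nat.mul (nat_lit 2) (Nat.add (X (nat_lit 352)) (Nat.add (X (nat_lit 359)) (Nat.add (X (nat_lit 362)) (X (nat_lit 367)))))) (Nat.mul (nat_lit 4) (X (nat_lit 358))))))))) (.nd (nat_lit 385) (.nd (nat_lit 383) 
 (.lf (.mk fun X => (Nat.add (X (nat_lit 359)) (Nat.add (X (nat_lit 360)) (Nat.add (X (nat_lit 361)) (Nat.add (X (nat_lit 362)) (Nat.mul (nat_lit 2) (Nat.add (X (nat_lit 354)) (Nat.add (X (nat_lit 357)) (Nat.add (X (nat_lit 366)) (X (nat_lit 367)))))))))))) (.nd (nat_lit 384) 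
 (.lf (.mk fun X => (Nat.mul (nat_lit 12) (X (nat_lit 362))))) 
 (.lf (.mk fun X => (Nat.mul (nat_lit 4) (Nat.add (X (nat_lit 346)) (Nat.add (X (nat_lit 364)) (X (nat_lit 368))))))))) (.nd (nat_lit 387) (.nd (nat_lit 386) 
 (.lf (.mk fun X => (Nat.add (X (nat_lit 347)) (Nat.add (X (nat_lit 369)) (Nat.add (Nat.mul (nat_lit 4) (X (nat_lit 368))) (Nat.mul (nat_lit 6) (X (nat_lit 355)))))))) 
 (.lf (.mk fun X => (Nat.add (Nat.mul (nat_lit 2) (Nat.add (X (nat_lit 349)) (Nat.add (X (nat_lit 366)) (Nat.add (X (nat_lit 368)) (X (nat_lit 370)))))) (Nat.mul (nat_lit 4) (X (nat_lit 357))))))) (.nd (nat_lit 388) 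
 (.lf (.mk fun X => (Nat.add (X (nat_lit 350)) (Nat.add (X (nat_lit 364)) (Nat.add (X (nat_lit 369)) (Nat.mul (nat_lit 3) (Nat.add (X (nat_lit 356)) (Nat.add (X (nat_lit 365)) (X (nat_lit 366)))))))))) 
 (.lf (.mk fun X => (Nat.add (Nat.mul (nat_lit 4) (X (nat_lit 370))) (Nat.mul (nat_lit 8) (X (nat_lit 361)))))))))) (.nd (nat_lit 395) (.nd (nat_lit 392) (.nd (nat_lit 390) 
 (.lf (.mk fun X => (Nat.add (Nat.mul (nat_lit 4) (X (nat_lit 360))) (Nat.mul (nat_lit 8) (X (nat_lit 365)))))) (.nd (nat_lit 391) 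
 (.lf (.mk fun X => (Nat.add (X (nat_lit 371)) (Nat.add (X (nat_lit 375)) (Nat.add (X (nat_lit 377)) (Nat.add (Nat.mul (nat_lit 2) (Nat.add (X (nat_lit 372)) (Nat.add (X (nat_lit 374)) (X (nat_lit 376))))) (Nat.mul (nat_lit 4) (X (nat_lit 373))))))))) 
 (.lf (.mk fun X => (Nat.add (X (nat_lit 375)) (Nat.add (X (nat_lit 376)) (Nat.add (X (nat_lit 378)) (Nat.add (X (nat_lit 381)) (Nat.add (X (nat_lit 382)) (Nat.mul (nat_lit 2) (Nat.add (X (nat_lit 373)) (Nat.add (X (nat_lit 374)) (Nat.add (X (nat_lit 379)) (X (nat_lit 380))))))))))))))) (.nd (nat_lit 393) 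
 (.lf (.mk fun X => (Nat.add (X (nat_lit 383)) (Nat.mul (nat_lit 3) (Nat.add (X (nat_lit 376)) (Nat.add (X (nat_lit 377)) (Nat.add (X (nat_lit 381)) (X (nat_lit 382))))))))) (.nd (nat_lit 394) 
 (.lf (.mk fun X => (Nat.add (X (nat_lit 372)) (Nat.add (X (nat_lit 384)) (Nat.add (X (nat_lit 385)) (Nat.add (X (nat_lit 387)) (Nat.mul (nat_lit 3) (Nat.add (X (nat_lit 374)) (Nat.add (X (nat_lit 379)) (X (nat_lit 386))))))))))) 
 (.lf (.mk fun X => (Nat.add (X (nat_lit 388)) (Nat.mul (nat_lit 4) (Nat.add (X (nat_lit 376)) (Nat.add (X (nat_lit 382)) (X (nat_lit 386))))))))))) (.nd (nat_lit 398) (.nd (nat_lit 396) 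
 (.lf (.mk fun X => (Nat.add (X (nat_lit 375)) (Nat.add (X (nat_lit 377)) (Nat.add (X (nat_lit 389)) (Nat.add (Nat.mul (nat_lit 2) (Nat.add (X (nat_lit 379)) (Nat.add (X (nat_lit 382)) (X (nat_lit 387))))) (Nat.mul (nat_lit 4) (X (nat_lit 380))))))))) (.nd (nat_lit 397) 
 (.lf (.mk fun X => (Nat.add (Nat.mul (nat_lit 2) (X (nat_lit 392))) (Nat.mul (nat_lit 6) (Nat.add (X (nat_lit 390)) (X (nat_lit 391))))))) 
 (.lf (.mk fun X => (Nat.add (Nat.mul (nat_lit 2) (Nat.add (X (nat_lit 390)) (Nat.add (X (nat_lit 394)) (X (nat_lit 395))))) (Nat.mul (nat_lit 4) (Nat.add (X (nat_lit 391)) (X (nat_lit 393))))))))) (.nd (nat_lit 400) (.nd (nat_lit 399) 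
 (.lf (.mk fun X => (Nat.add (Nat.mul (nat_lit 2) (X (nat_lit 392))) (Nat.mul (nat_lit 6) (Nat.add (X (nat_lit 391)) (X (nat_lit 395))))))) 
 (.lf (.mk fun X => (Nat.add (Nat.mul (nat_lit 6) (X (nat_lit 394))) (Nat.mul (nat_lit 8) (X (nat_lit 392))))))) (.nd (nat_lit 401) 
 (.lf (.mk fun X => (Nat.add (X (nat_lit 399)) (Nat.add (Nat.mul (nat_lit 4) (Nat.add (X (nat_lit 396)) (X (nat_lit 398)))) (Nat.mul (nat_lit 6) (X (nat_lit 397))))))) 
 (.lf (.mk fun X => (Nat.mul (nat_lit 16) (X (nat_lit 400))))))))))))))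

/-- sum over the lists with one more point -/
noncomputable def up (c : Nat) : Bx := upT.get c

/-- sum over the lists with one point less -/
noncomputable def dn (c : Nat) : Bx := dnT.get c

/-- sum over all larger lists -/
noncomputable def zu (X : Nat → Nat) (c : Nat) : Nat := zeta up (Nat.sub 17 (sz c)) X c

/-- sum over all smaller lists -/
noncomputable def zd (X : Nat → Nat) (c : Nat) : Nat := zeta dn (Nat.add (sz c) 1) X c

end Pool.Agent.MP_7c51ae_co
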