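import Pool.Agent.MP_7c51ae_co.NK

/-!
The global constants.
-/

set_option autoImplicit false
set_option maxRecDepth 100000

namespace Pool.Agent.MP_7c51ae_co

noncomputable def gl : Glob := ⟨nat_lit 0x10e00000100000001000000010000000447000008d5000003eb000003eb000009fa000048c9000009fa0000051300003de70000063c0000010000000546000002380000045e00000ce800000be200002abf00000cc000000cc00000163a00000c3200001e8b000006600000266000000ba80000130d00000cc500000100000001000000010000000100000003e9000001d20000091a0000035c0000035c00000c1f0000546d00000e850000046300004fab00000602000006e900000100000009030000047c000005de00000cb200000de3000023a500000f4300000f4300000fef00000c5900001cf2000004310000242800000c1d00000cb900000dab000001000000010000000100000001000000039e000001b00000086d0000031c0000031c00000bfb000056a000000e5b0000041400005447000005790000065c0000010000000acf000008000000071300000b7d00000c2b00001d970000100f0000100f00000b5c00000d5f00001dc800000271000023fc00000cf0000009f100000f2b000001000000010000000100000001000000035a00000192000007e8000002e2000002e200000c2b00005b3900000e95000003f300005a8600000532000006160000010000000974000004c8000006b3000004c8,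
  119333180, 935834, 35778⟩

end Pool.Agent.MP_7c51ae_co
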