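import Pool.Agent.MP_7c51ae_co.DC0
import Pool.Agent.MP_7c51ae_co.DG

/-!
The checks on one segment.
-/

set_option autoImplicit false
set_option maxRecDepth 100000

namespace Pool.Agent.MP_7c51ae_co

theorem run0 : ∀ g < 8, sg0.chk gl.K g = true := fun g hg =>
  match g, hg with
  | 0, _ => by decide +kernel
  | 1, _ => by decide +kernel
  | 2, _ => by decide +kernel
  | 3, _ => by decide +kernel
  | 4, _ => by decide +kernel
  | 5, _ => by decide +kernel
  | 6, _ => by decide +kernel
  | 7, _ => by decide +kernel
  | _ + 8, h => absurd h (by omega)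

end Pool.Agent.MP_7c51ae_co
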