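import Pool.Agent.MP_7c51ae_co.DC0
import Pool.Agent.MP_7c51ae_co.DC1
import Pool.Agent.MP_7c51ae_co.DC2
import Pool.Agent.MP_7c51ae_co.DG

/-!
The checks on the constants, the junctions and the start.
-/

set_option autoImplicit false
set_option maxRecDepth 100000

namespace Pool.Agent.MP_7c51ae_co

theorem runJ : (gl.ok = true ∧ sg0.ok gl = true ∧ sg1.ok gl = true ∧ sg2.ok gl = true) ∧
    al 50 (sg0.chkJ sg1) = true ∧ al 50 (sg1.chkJ sg2) = true ∧ sg0.chk0 gl.K = true :=
  ⟨⟨by decide +kernel, by decide +kernel, by decide +kernel, by decide +kernel⟩,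
    by decide +kernel, by decide +kernel, by decide +kernel⟩

end Pool.Agent.MP_7c51ae_co
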