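import Mathlib

/-!
The projective cube: the hypercube with antipodal vertices identified.
-/

set_option autoImplicit false

namespace Pool.Agent.MP_7c51ae_co

/-- two 0-1 vectors are identified when they are equal or antipodal -/
def antipodal (d : ℕ) : Setoid (Fin d → Bool) where
  r x y := y = x ∨ y = fun i => !x i
  iseqv := by
    refine ⟨fun x => Or.inl rfl, ?_, ?_⟩
    · rintro x y (rfl | rfl)
      · exact Or.inl rfl
      · exact Or.inr (by simp)
    · rintro x y z (rfl | rfl) (rfl | rfl)
      · exact Or.inl rfl
      · exact Or.inr rfl
      · exact Or.inr rfl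
      · exact Or.inl (by simp)

/-- the projective cube `PC d`: its vertices are the antipodal pairs of the `d`-cube; two
different pairs are adjacent when they have members that differ in exactly one coordinate -/
def PC (d : ℕ) : SimpleGraph (Quotient (antipodal d)) where
  Adj p q := p ≠ q ∧ ∃ x y : Fin d → Bool,
    Quotient.mk (antipodal d) x = p ∧ Quotient.mk (antipodal d) y = q ∧ hammingDist x y = 1
  symm := ⟨by
    rintro p q ⟨h, x, y, hx, hy, hd⟩
    exact ⟨h.symm, y, x, hy, hx, by rw [hammingDist_comm]; exact hd⟩⟩
  loopless := ⟨fun p h => h.1 rfl⟩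

end Pool.Agent.MP_7c51ae_co
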