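import Pool.Agent.MP_7c51ae_co.Base

/-!
Stationary masses.
-/

set_option autoImplicit false

namespace Pool.Agent.MP_7c51ae_co

open Finset Pool.Agent.MP_d802e4_co

/-- common denominator of the masses -/
def k1D : ℕ := 874950338004651705308234476607766528

/-- numerators of the masses of the senders -/
def k1n : List ℕ := [
  191395386438517560536176291757948928, 109368792250581463163529309575970816,
  765581545754070242144705167031795712, 11778607165771975859924135264780288,
  21396137778392104175103901337791776, 27342198062645365790882327393992704,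
  7781795448436694965479096064606208, 13751203127209339240531639265533440,
  13671099031322682895441163696996352, 6835549515661341447720581848498176,
  6835549515661341447720581848498176, 1892491865550707035517028432216064,
  50717679586692739217654123592759002, 13590994935436026550350688128459264,
  29325556331944361972937592991605907, 2973030142126630807889213028100464,
  97942767083998284825550513664163840, 145093204793116215254759215498655232,
  27342198062645365790882327393992704, 46726309677259637855312889046892544,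
  127032804151787560212184430174797824, 27475704889123126366033120008221184,
  47848846609629390134044072939487232, 185101921120423172665547670945792000,
  36279976539602941842447343505375232, 20892666275313392025731091083034624,
  90168496380165514637723134005058560, 74690194152868811223130540154314752,
  18087102006624207157604943846703104, 17339299048856325970199384710828032,
  13350682647776057515079261422848, 11788318477461780642659309240057856,
  21382787095744328117588822076368928, 27342198062645365790882327393992704,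
  7776939792591792574111509076967424, 13724501761913787125501480742687744,
  13671099031322682895441163696996352, 6835549515661341447720581848498176,
  6835549515661341447720581848498176, 1882780553860902252781854456938496,
  50687663759875157267842605786538152, 13617696300731578665380846651304960,
  29340564245353152947843351894716332, 2979705483450518836646752658811888,
  82026594187936097372646982181978112, 174781088102612517377083882739324928,
  27342198062645365790882327393992704, 54684396125290731581764654787985408,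
  131208492688319217388087711994216448, 54844604317064044271945605925059584,
  47848846609629390134044072939487232, 66029971498891338795887099708964864,
  43721973390948681459301129207676928, 21924845468684100244927051160616960,
  65198684929666637293313304980588544, 72075549758357810173344603122691072,
  43679400875475508449116804836491264, 18646621246111826495092353226639872,
  53402730591104230060317045691392, 11798029789151585425394483215335424,
  21369436413096552060073742814946080, 27342198062645365790882327393992704,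
  7772084136746890182743922089328640, 13697800396618235010471322219842048,
  13671099031322682895441163696996352, 6835549515661341447720581848498176,
  6835549515661341447720581848498176, 1873069242171097470046680481660928,
  50658008276719100018659998187140746, 13644397666027130780411005174150656,
  29355391986931181572434655694415035, 2986380824774406865404292289523312,
  75609772162430771899140291854598144, 187275180419637493595256940702311936,
  27342198062645365790882327393992704, 57892807138043394318517999951675392,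
  117128579713021658974825158276022272, 82106698283822753717737457750515200,
  47848846609629390134044072939487232, 15519574924880391622591697400102912,
  46878873176824365657632091851980800, 22027867922438057321771816199389184,
  23302096139651955195053451906892800, 71392351675371406885144555126984704,
  70386912994275803655703209131900928, 18988220287605028139192377224493056,
  120156143829984517635713352805632, 11807741100841390208129657190612992,
  21356085730448776002558663553523232, 27342198062645365790882327393992704,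
  7767228480901987791376335101689856, 13671099031322682895441163696996352,
  13671099031322682895441163696996352, 6835549515661341447720581848498176,
  6835549515661341447720581848498176, 1863357930481292687311506506383360,
  50628713137224567470106300794566784, 13671099031322682895441163696996352,
  29370039556678447846711504390702016, 2993056166098294894161831920234736]

/-- numerators of the masses of the receivers -/
def k1z : List ℕ := [
  58293566269559919866161122003992444928, 1567911005704335855912356182081117618176,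
  389681006788821753251654930019184017408, 1791898292233526692471264208092705849344,
  389681006788821753251654930019184017408, 2624851014013955115924703429823299584,
  121401495886717181163719271903888670720, 55996821632297709139727006502897057792,
  111337430511091929500472837148338290688, 111337430511091929500472837148338290688,
  55996821632297709139727006502897057792, 101273365135466677837226402392787910656,
  389681006788821753251654930019184017408, 55668715255545964750236418574169145344,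
  389681006788821753251654930019184017408, 10499404056055820463698813719293198336,
  55668715255545964750236418574169145344, 55668715255545964750236418574169145344,
  111337430511091929500472837148338290688, 101273365135466677837226402392787910656,
  121401495886717181163719271903888670720, 57418615931555268160852887527384678400,
  1119936432645954182794540130057941155840, 199630211367521670831147904439389519872,
  111993643264595418279454013005794115584, 74084769819132752517549849996095913984,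
  74084769819132752517549849996095913984, 111993643264595418279454013005794115584,
  42756206121039229090715560064210436096, 874950338004651705308234476607766528,
  295464128938526358364891165507775889408, 874950338004651705308234476607766528,
  606541975127402652190466608155171225600, 295464128938526358364891165507775889408,
  295464128938526358364891165507775889408, 97638989281706601239240791123947945984,
  42756206121039229090715560064210436096, 199630211367521670831147904439389519872,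
  1749900676009303410616468953215533056, 121640005701818786627695144736705740800,
  55996821632297709139727006502897057792, 111556168095593092426799895767490232320,
  111556168095593092426799895767490232320, 55996821632297709139727006502897057792,
  101472330489367398225904646798274723840, 390555957126826404956963164495791783936,
  55668715255545964750236418574169145344, 390555957126826404956963164495791783936,
  6999602704037213642465875812862132224, 55668715255545964750236418574169145344,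
  55668715255545964750236418574169145344, 111556168095593092426799895767490232320,
  101472330489367398225904646798274723840, 121640005701818786627695144736705740800,
  56543665593550616455544653050776911872, 671961859587572509676724078034764693504,
  167443620935640220103363372960811319296, 223987286529190836558908026011588231168,
  89455412992973841303791216305134108672, 89455412992973841303791216305134108672,
  223987286529190836558908026011588231168, 45076460543243153951325593401320013824,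
  1749900676009303410616468953215533056, 356071751295886061804548396267320901632,
  1749900676009303410616468953215533056, 360611684345945231610604747210560110592,
  356071751295886061804548396267320901632, 356071751295886061804548396267320901632,
  97857726866207764165567849743099887616, 45076460543243153951325593401320013824,
  167443620935640220103363372960811319296, 874950338004651705308234476607766528,
  121878515516920392091671017569522810880, 55996821632297709139727006502897057792,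
  111774905680094255353126954386642173952, 111774905680094255353126954386642173952,
  55996821632297709139727006502897057792, 101671295843268118614582891203761537024,
  391430907464831056662271398972399550464, 55668715255545964750236418574169145344,
  391430907464831056662271398972399550464, 3499801352018606821232937906431066112,
  55668715255545964750236418574169145344, 55668715255545964750236418574169145344,
  111774905680094255353126954386642173952, 101671295843268118614582891203761537024,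
  121878515516920392091671017569522810880, 55668715255545964750236418574169145344,
  223987286529190836558908026011588231168, 154597708876212540365630810073417646080,
  335980929793786254838362039017382346752, 96101598541517897257920114868088733696,
  96101598541517897257920114868088733696, 335980929793786254838362039017382346752,
  45504951843587373486108593639412203520, 2624851014013955115924703429823299584,
  381781543152057633915755756042531635200, 2624851014013955115924703429823299584,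
  254272715569240336344542370203286110208, 381781543152057633915755756042531635200,
  381781543152057633915755756042531635200, 98076464450708927091894908362251829248,
  45504951843587373486108593639412203520, 154597708876212540365630810073417646080,
  122117025332021997555646890402339880960, 55996821632297709139727006502897057792,
  111993643264595418279454013005794115584, 111993643264595418279454013005794115584,
  55996821632297709139727006502897057792, 101870261197168839003261135609248350208,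
  392305857802835708367579633449007316992, 55668715255545964750236418574169145344,
  392305857802835708367579633449007316992, 55668715255545964750236418574169145344,
  55668715255545964750236418574169145344, 111993643264595418279454013005794115584,
  101870261197168839003261135609248350208, 122117025332021997555646890402339880960]

theorem k1_chk1 : (List.range 100).all (fun s => (massL.getD s (0, 1)).2 != 0 &&
    (massL.getD s (0, 1)).1 * k1D == k1n.getD s 0 * (massL.getD s (0, 1)).2) = true := by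
  decide +kernel

noncomputable section

/-- the sum of the values with a given key -/
def k1s {α : Type} (key val : α → ℕ) (m : ℕ) (l : List α) : ℕ :=
  List.rec 0 (fun t _ r => cond (Nat.beq (key t) m) (Nat.add (val t) r) r) l

theorem k1_s {α : Type} (key val : α → ℕ) (m : ℕ) (l : List α) :
    k1s key val m l = (l.map fun t => if key t = m then val t else 0).sum := by
  induction l with
  | nil => rfl
  | cons t l ih =>
    have e : k1s key val m (t :: l) =
      cond (Nat.beq (key t) m) (Nat.add (val t) (k1s key val m l)) (k1s key val m l) := rfl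
    rw [e, ih, List.map_cons, List.sum_cons]
    by_cases c : key t = m
    · rw [if_pos c, c, Nat.beq_refl]
      rfl
    · have : Nat.beq (key t) m = false := by
        cases h : Nat.beq (key t) m
        · rfl
        · exact absurd (Nat.eq_of_beq_eq_true h) c
      rw [if_neg c, this, zero_add]
      rfl

theorem k1_chk2 : (List.range 118).all (fun m => k1z.getD m 0 == k1s (fun t => Nat.mod t.1 118)
    (fun t => t.2.2.2 * k1n.getD (t.2.1 % 100) 0) m mixL) = true := by
  decide +kernel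

theorem k1_chk3 : (List.range 100).all (fun s => k1n.getD s 0 * (8 * 2048 * 2048 * k1D) ==
    k1s (fun t => Nat.mod t.1 100) (fun t =>
      t.2.2.2.2 * (k1z.getD (t.2.1 % 118) 0 * k1z.getD (t.2.2.1 % 118) 0)) s ruleL) = true := by
  decide +kernel

section

theorem k1_D : (k1D : ℝ) ≠ 0 := by
  have : k1D ≠ 0 := by unfold k1D; omega
  exact_mod_cast this

theorem k1_mass (s : Fin 100) : mass0 s = (k1n.getD s.val 0 : ℝ) / k1D := by
  have h := List.all_eq_true.1 k1_chk1 s.val (List.mem_range.2 s.isLt)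
  rw [Bool.and_eq_true, bne_iff_ne, beq_iff_eq] at h
  have h1 : (((massL.getD s.val (0, 1)).2 : ℕ) : ℝ) ≠ 0 := by exact_mod_cast h.1
  unfold mass0
  rw [div_eq_div_iff h1 k1_D]
  exact_mod_cast h.2

theorem k1_sum {α : Type} (l : List α) (f : α → ℕ) :
    (((l.map f).sum : ℕ) : ℝ) = ∑ x : Fin l.length, (f (l.get x) : ℝ) := by
  rw [← Fin.sum_univ_fun_getElem l f, Nat.cast_sum]
  rfl

theorem k1_z (m : Fin 118) : sys.z0 mass0 m = (k1z.getD m.val 0 : ℝ) / (2048 * k1D) := by
  have h := List.all_eq_true.1 k1_chk2 m.val (List.mem_range.2 m.isLt)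
  rw [beq_iff_eq, k1_s] at h
  rw [h, k1_sum, Finset.sum_div]
  unfold Sys.z0
  refine Finset.sum_congr rfl fun x _ => ?_
  have e : (sys.xm x = m) ↔ (Nat.mod (mixL.get x).1 118 = m.val) := Fin.ext_iff
  by_cases c : sys.xm x = m
  · rw [if_pos c, if_pos (e.1 c), k1_mass, Nat.cast_mul]
    have e1 : sys.xw x = ((mixL.get x).2.2.2 : ℝ) / 2048 := rfl
    have e2 : (sys.xs x).val = (mixL.get x).2.1 % 100 := rfl
    rw [e1, e2, div_mul_div_comm]
  · rw [if_neg c, if_neg (fun h => c (e.2 h)), Nat.cast_zero, zero_div]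

theorem sys_ok : sys.Ok mass0 := by
  refine ⟨fun x => ?_, fun y => ?_, fun s => ?_, fun s => ?_⟩
  · exact div_nonneg (Nat.cast_nonneg _) (by norm_num)
  · exact div_nonneg (Nat.cast_nonneg _) (by norm_num)
  · exact div_nonneg (Nat.cast_nonneg _) (Nat.cast_nonneg _)
  · have h := List.all_eq_true.1 k1_chk3 s.val (List.mem_range.2 s.isLt)
    rw [beq_iff_eq, k1_s] at h
    have hD := k1_D
    have h2 : mass0 s = ((k1n.getD s.val 0 * (8 * 2048 * 2048 * k1D) : ℕ) : ℝ) /
        (8 * ((2048 * k1D) * (2048 * k1D))) := by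
      rw [k1_mass]
      push_cast
      field_simp
      ring
    rw [h2, h, k1_sum, Finset.sum_div]
    refine Finset.sum_congr rfl fun y _ => ?_
    have e : (sys.ys y = s) ↔ (Nat.mod (ruleL.get y).1 100 = s.val) := Fin.ext_iff
    by_cases c : sys.ys y = s
    · rw [if_pos c, if_pos (e.1 c), k1_z, k1_z, Nat.cast_mul, Nat.cast_mul]
      have e1 : sys.yw y = ((ruleL.get y).2.2.2.2 : ℝ) / 8 := rfl
      have e2 : (sys.ya y).val = (ruleL.get y).2.1 % 118 := rfl
      have e3 : (sys.yb y).val = (ruleL.get y).2.2.1 % 118 := rfl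
      rw [e1, e2, e3, div_mul_div_comm, div_mul_div_comm]
    · rw [if_neg c, if_neg (fun h => c (e.2 h)), Nat.cast_zero, zero_div]

end

end

end Pool.Agent.MP_7c51ae_co

/-!
Lumping: the identity, checked through receiver types.
-/

set_option autoImplicit false

namespace Pool.Agent.MP_7c51ae_co

open Finset Pool.Agent.MP_d802e4_co

noncomputable section

/-- a list of digits as one number -/
def k2_pack (w : ℕ) (l : List ℕ) : ℕ :=
  List.rec 0 (fun a _ r => Nat.add a (Nat.shiftLeft r w)) l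

/-- receivers on the left -/
def k2_tP : ℕ := k2_pack 360 [
  0x3b43b43b43b23b03b03b03b00ee0f00f00f00f00ee0f00f00f00f00ee0f00f00f00f00ee3b03b03b03b0,
  0x3b43b43b23b40000000000003b03b03b03b0000000000000000000000000000000,
  0x3b03b03b03b00000000000003b43b23b43b40000000000000000000000003b03b03b03b0,
  0x3c20000000000003c20000000000003c20000000000003c23b53b53b53b53b23b43b43b4000000000000000000,
  0x3b63c43b83b83b83b93b53b53b53b53c33bb3bb3bb3b83b93b83b83b83b83b93b83c43c43c43b63b53b53b53b5,
  0x3b93b83b83b83c43b63c43c43bb3bb3c33bb3b83b83b83b93b53b53b53b53b93b83b83b83bb3c33bb3bb3c43c4,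
  0x3d30000000000003d33c53c53c53c53b63c43c43c43b83b93b83b83b83b83b93b83bb3bb3bb3c33b53b53b53b5,
  0x3d43cc3cc3cc3c93ca3c93c93c93c93ca3c93d53d53d53c73c53c53c53c53d30000000000003d3000000000000,
  0x3d43cc3c93c93c93ca3c53c53c53c53ca3c93c93c93cc3d43cc3cc3d53d53c73d53c93c93c93ca3c53c53c53c5,
  0x3c73d53d53d53c93ca3c93c93c93c93ca3c93cc3cc3cc3d43c53c53c53c53ca3c93c93c93d53c73d53d53cc3cc,
  0x3da3d93e53e53e53d73d63d63d63d63e30000000000003e30000000000003e30000000000003e33d63d63d63d6,
  0x3da3d93d93d93dc3e43dc3dc3e53e53d73e53d93d93d93da3d63d63d63d63e43dc3dc3dc3d93da3d93d93d93d9,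
  0x3da3d93dc3dc3dc3e43d63d63d63d63da3d93d93d93e53d73e53e53dc3dc3e43dc3d93d93d93da3d63d63d63d6,
  0x3f40000000000003f40000000000003f40000000000003f43e63e63e63e63d73e53e53e53d93da3d93d93d93d9,
  0x3e83f63ea3ea3ea3eb3e63e63e63e63f53ed3ed3ed3ea3eb3ea3ea3ea3ea3eb3ea3f63f63f63e83e63e63e63e6,
  0x3eb3ea3ea3ea3f63e83f63f63ed3ed3f53ed3ea3ea3ea3eb3e63e63e63e63eb3ea3ea3ea3ed3f53ed3ed3f63f6,
  0x4040000000000004043f73f73f73f73e83f63f63f63ea3eb3ea3ea3ea3ea3eb3ea3ed3ed3ed3f53e63e63e63e6,
  0x4053fd3fd3fd3fa3fb3fa3fa3fa3fa3fb3fa4064064063f83f73f73f73f7404000000000000404000000000000,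
  0x4053fd3fa3fa3fa3fb3f73f73f73f73fb3fa3fa3fa3fd4053fd3fd4064063f84063fa3fa3fa3fb3f73f73f73f7,
  0x3f84064064063fa3fb3fa3fa3fa3fa3fb3fa3fd3fd3fd4053f73f73f73f73fb3fa3fa3fa4063f84064063fd3fd,
  0x40c40b417417417409407407407407415000000000000415000000000000415000000000000415407407407407,
  0x40c40b40b40b40e41640e40e41741740941740b40b40b40c40740740740741640e40e40e40b40c40b40b40b40b,
  0x40c40b40e40e40e41640740740740740c40b40b40b41740941741740e40e41640e40b40b40b40c407407407407,
  0x42300000000000042300000000000042300000000000042300000000000040941741741740b40c40b40b40b40b,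
  0x41842541a41a41a41b00000000000042441d41d41d41a41b41a41a41a41a41b41a425425425418000000000000,
  0x41b41a41a41a42541842542541d41d42441d41a41a41a41b00000000000041b41a41a41a41d42441d41d425425,
  0x41842542542541a41b41a41a41a41a41b41a41d41d41d424000000000000]

/-- receivers on the right -/
def k2_tS : ℕ := k2_pack 360 [
  0x3b33b33b33b3,
  0x3bd3c03c03c13c03bd3c13c03c03c13bd3c03c13c03c03bd3bf3bf3bf3bf000000000000000000000000000000,
  0x3ce3d13d23d13d13ce3d03d03d03d03bc3be3be3be3be3bc3be3be3be3be3bc3be3be3be3be3bc000000000000,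
  0x3cd3cf3cf3cf3cf3cd3cf3cf3cf3cf3cd3cf3cf3cf3cf3cd0000000000003ce3d13d13d23d13ce3d23d13d13d2,
  0x3dd3df3df3df3df3dd0000000000003de3e13e13e23e13de3e23e13e13e23de3e13e23e13e13de3e03e03e03e0,
  0x3ef3f23f23f33f23ef3f33f23f23f33ef3f23f33f23f23ef3f13f13f13f13dd3df3df3df3df3dd3df3df3df3df,
  0x3ff4024034024023ff4014014014013ee3f03f03f03f03ee3f03f03f03f03ee3f03f03f03f03ee000000000000,
  0x3fe4004004004003fe4004004004003fe4004004004003fe0000000000003ff4024024034023ff403402402403,
  0x40f41141141141140f000000000000410413413414413410414413413414410413414413413410412412412412,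
  0x41f42142142242141f42242142142241f42142242142141f00000000000040f41141141141140f411411411411,
  0x41e42042042042041e42042042042041e42042042042041e000000000000]

/-- receivers across the matching -/
def k2_tW : ℕ := k2_pack 360 [
  0x3b73ba3ba3ba3ba3b70000000000000000000000000000000000000000000000000000000000003b13b13b13b1,
  0x3c83cb3cb76a3cb3c876a3cb3cb76a3c83cb76a3cb3cb3c83c63c63c63c63b73ba3ba3ba3ba3b73ba3ba3ba3ba,
  0x3e93ec3ec3ec3ec3e93e73e73e73e73d83db3db3db3db3d83db3db3db3db3d83db3db3db3db3d8000000000000,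
  0x3f93fc3fc3fc3fc3f93fc3fc3fc3fc3f93fc3fc3fc3fc3f90000000000003e93ec3ec3ec3ec3e93ec3ec3ec3ec,
  0x41941c41c41c41c41900000000000040a40d40d40d40d40a40d40d40d40d40a40d40d40d40d40a408408408408,
  0x41941c41c41c41c41941c41c41c41c]

/-- multiplicities and phases of the values -/
def k2_tC : ℕ := k2_pack 360 [
  0x1a00001a001a000000001a000000001a000000001a0000001a1a000000001a000000001a000000001a08080808,
  0x1a000000001a1a0000001a000000001a000000001a000000001a001a00001a000000001a000000001a00000000,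
  0x1a000000001a000000001a0000001a1a000000001a000000001a000000001a080808081a000000001a00000000,
  0x1a000000001a00000d00000d0000001a001a00001a0000000d00000d00001a000000001a00001a00000d0d0000,
  0x1a0000001a000d0d00001a000000001a000000001a0000001a1a000000001a000000001a00000d0d001a000000,
  0x1a0000001a0000001a000019000000001a00001a000000001a0000001a000d0d000000001a0000001a000000,
  0x1a000000001a000000001a0000001a000d0d00001a000000001a000000001a0000001a00190000001a00000000,
  0x19000000001900001a000000001a0000001a000c0c000000001a0000001a0000001a0000001a000d0d0000,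
  0x1a00001a00000c0c000019000000001900000c0c00000c0c0000190000001a0000000000190000001a0000001a,
  0x1a0000001a0000001a0000001a000000001900001a000000001a00001a001a0000000d00000d00001a00000000,
  0x1a0000001a0000001a001a0000000d00000d00001a000000001a00001a0000001a000d00000d0000,
  0x19000000001900001a000000001a00001a001a0000000d00000d00001a000000001a00001a001a00000019,
  0x1a00190000000c00000c0c00000c000000190c00000c00001a000c00000c00001a0000001a0000001a00,
  0x190000001a001a00001a000000001a00000d00000d0000001a001a00001a0000001900000000001a00000019,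
  0x1a00000d00000d001a0000001a00001a000000001a00000d00000d0000001a001a0000001a0000001a00000000,
  0x1a000000001a00000d00000d0000001a001a00001a000000001a000019000000001a0000001a0000001a000000,
  0x1a0000190000000c00000c0c00000c000000190c00000c00190000001a0000000000190000001a001a0000,
  0x1a00000d0d001a0000001a000000001a00001900000000190000001a0000001a0000001a00000c00000c001a00,
  0x1a00000019001a0000001a000000001a000000001a00000d0d001a0000001a000000001a00000000,
  0x1a0000001a0000001a000000000d0d001a0000001a000000001a00001a000000001900001a0000001a0000001a,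
  0x1a000000000c0c000019000000001900000c0c00000c0c001a000000001a000000001a00000d0d001a000000,
  0xc0c001a0000001a000000001a000019000000001900001a0000001a0000001900000000001a00000019,
  0x1a0000001a0000001a00]

def k2_dig (n w i : ℕ) : ℕ := Nat.mod (Nat.shiftRight n (Nat.mul w i)) (Nat.shiftLeft 1 w)

/-- evaluate the argument first -/
def k2_frc (n : ℕ) (f : ℕ → ℕ) : ℕ :=
  Nat.rec (Nat.add (f 0) 0) (fun p _ => Nat.add (f (Nat.succ p)) 0) n

def k2_sum (n : ℕ) (f : ℕ → ℕ) : ℕ := Nat.rec 0 (fun i r => Nat.add r (f i)) n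

def k2_all (n : ℕ) (f : ℕ → Bool) : Bool := Nat.rec true (fun i r => f i && r) n

/-- a weighted key -/
def k2_sh (w k : ℕ) : ℕ := Nat.shiftLeft w (Nat.mul 32 k)

/-- `a * n + b` -/
def k2_ma (a n b : ℕ) : ℕ := Nat.add (Nat.mul a n) b

def k2_row (T : List (List ℕ)) (i : ℕ) : ℕ := k2_pack 20 (T.getD i [])

def k2_lk (T : List (List ℕ)) (i j : ℕ) : ℕ := k2_dig (k2_frc i (k2_row T)) 20 j

def k2_fold {α : Type} (l : List α) (P : α → Bool) (w k : α → ℕ) : ℕ :=
  List.rec 0 (fun p _ r => cond (P p) (Nat.add (k2_sh (w p) (k p)) r) r) l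

def k2_mix (m : ℕ) : ℕ := k2_fold mixL (fun p => Nat.beq (Nat.mod p.1 118) m) (fun p => p.2.2.2)
  fun p => 2 * p.2.1 + (p.2.2.1 == 1).toNat

def k2_rule (s : ℕ) : ℕ := k2_fold ruleL (fun p => Nat.beq (Nat.mod p.1 100) s)
  (fun p => p.2.2.2.2) fun p => (p.2.1 % 118 * 118 + p.2.2.1 % 118) * 3 + p.2.2.2.1 % 3

def k2_tm (w e x y : ℕ) : ℕ := k2_sh (Nat.mul w (Nat.mod e 4096))
  (k2_ma (Nat.div e 4096) 2 (cond (Nat.beq (Nat.add x y) 3) 0 1))

def k2_fo (b : ℕ) : ℕ := cond (Nat.beq b 0) 0 (Nat.sub 5 b)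

def k2_or (a b : ℕ) : ℕ := cond (Nat.beq a 0) b a

def k2_pc (l l' : ℕ) : ℕ := cond (Nat.beq l l') 509 1

def k2_cP (r left ru y : ℕ) : Bool := Nat.beq left (cond (Nat.ble ru r) (Nat.sub 4 y) 0)

def k2_iP (r b x ru : ℕ) : ℕ :=
  cond (Nat.ble ru r) (cond (Nat.beq ru r) (k2_fo b) 0) (Nat.sub 8 x)

def k2_fP (r b left x ru y : ℕ) : ℕ := cond (k2_cP r left ru y)
  (k2_tm (k2_pc (Nat.div r 2) (Nat.div ru 2)) (k2_lk tabR (k2_iP r b x ru) (k2_ma ru 4 y)) x y) 0

def k2_cS (r ru bu y : ℕ) : ℕ :=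
  cond (Nat.ble r ru) (cond (Nat.beq ru r) (k2_fo bu) 0) (Nat.sub 9 y)

def k2_iS (r x ru : ℕ) : ℕ := k2_ma (Nat.div r 2) 5 (cond (Nat.ble r ru) (Nat.sub 4 x) 0)

def k2_fS (r hn x ru bu y : ℕ) : ℕ := cond (Nat.beq hn (k2_cS r ru bu y))
  (k2_tm 512 (k2_lk tabL (k2_iS r x ru) (k2_ma (k2_ma ru 5 bu) 4 y)) x y) 0

def k2_dW (r l : ℕ) : ℕ := cond (Nat.beq r (Nat.mul l 2)) 1 0

def k2_cW (r a l y : ℕ) : Bool :=
  Nat.beq a (cond (Nat.ble r (k2_ma l 2 (k2_dW r l))) 0 (Nat.sub 4 y))

def k2_wW (r l : ℕ) : ℕ :=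
  cond (Nat.beq l (Nat.div r 2)) 256 (cond (Nat.beq (Nat.mod r 2) 1) 0 512)

def k2_iW (r x l : ℕ) : ℕ :=
  k2_ma (k2_dW r l) 5 (cond (Nat.ble (k2_ma l 2 (k2_dW r l)) r) 0 (Nat.sub 4 x))

def k2_fW (r a x ru y : ℕ) : ℕ := cond (k2_cW r a (Nat.div ru 2) y)
  (k2_tm (k2_wW r (Nat.div ru 2)) (k2_lk tabM (k2_iW r x (Nat.div ru 2)) (k2_ma ru 4 y)) x y) 0

def k2_vP (r b left x : ℕ) : ℕ := k2_dig k2_tP 12 (k2_ma (k2_ma (k2_ma r 5 b) 5 left) 4 x)

def k2_vS (r h nx x : ℕ) : ℕ := k2_dig k2_tS 12 (k2_ma (k2_ma (k2_ma r 2 h) 5 nx) 4 x)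

def k2_vW (r a x : ℕ) : ℕ := k2_dig k2_tW 12 (k2_ma (k2_ma r 5 a) 4 x)

def k2_vC (a h nx left x : ℕ) : ℕ :=
  k2_dig k2_tC 8 (k2_ma (k2_ma (k2_ma (k2_ma a 2 h) 5 nx) 5 left) 4 x)

def k2_rR (t : ℕ) : ℕ := Nat.mul (Nat.mul 64 (Nat.div t 118)) (k2_frc (Nat.mod t 118) k2_mix)

def k2_okN (b left x : ℕ) : Bool :=
  !Nat.beq b 0 || Nat.beq left 0 || Nat.beq left (Nat.succ x)

theorem k2_kP : (k2_all 8 fun r => k2_all 5 fun b => k2_all 5 fun left => k2_all 4 fun x =>
    !k2_okN b left x || Nat.beq (k2_sum 8 fun ru => k2_sum 4 fun y => k2_fP r b left x ru y)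
      (k2_rR (k2_vP r b left x))) = true := by
  decide +kernel

theorem k2_kW : (k2_all 8 fun r => k2_all 5 fun a => k2_all 4 fun x =>
    Nat.beq (k2_sum 8 fun ru => k2_sum 4 fun y => k2_fW r a x ru y) (k2_rR (k2_vW r a x))) =
    true := by
  decide +kernel

theorem k2_kS : (k2_all 8 fun r => k2_all 2 fun h => k2_all 5 fun nx => k2_all 4 fun x =>
    Nat.beq (k2_sum 8 fun ru => k2_sum 5 fun bu => k2_sum 4 fun y =>
      k2_fS r (k2_ma h 5 nx) x ru bu y) (k2_rR (k2_vS r h nx x))) = true := by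
  decide +kernel

def k2_sT (t p q : ℕ) : ℕ := cond (Nat.ble 3 t)
  (k2_sh (Nat.mul (Nat.mul (Nat.div t 3) (Nat.div p 118)) (Nat.div q 118))
    (k2_ma (k2_ma (Nat.mod p 118) 118 (Nat.mod q 118)) 3 (Nat.mod t 3))) 0

def k2_sR (r h o x : ℕ) : ℕ := k2_sum 5 fun a => k2_sum 5 fun left =>
  k2_sT (k2_vC a h o left x) (k2_vP r (k2_or a o) left x) (k2_vW r a x)

def k2_sL (r o b x : ℕ) : ℕ := k2_sum 5 fun a => k2_sum 5 fun nx =>
  cond (Nat.beq (k2_or a nx) b)
    (k2_sum 2 fun h => k2_sT (k2_vC a h nx o x) (k2_vS r h nx x) (k2_vW r a x)) 0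

def k2_sM (r o x : ℕ) : ℕ := k2_sum 5 fun nx => k2_sum 2 fun h => k2_sum 5 fun left =>
  k2_sT (k2_vC o h nx left x) (k2_vP r (k2_or o nx) left x) (k2_vS r h nx x)

def k2_sE (w n e : ℕ) : Bool := Nat.beq (Nat.mul w n)
  (Nat.mul (Nat.mul 16 (Nat.mod e 4096)) (k2_frc (Nat.mod (Nat.div e 4096) 100) k2_rule))

theorem k2_kR : (k2_all 8 fun r => k2_all 2 fun h => k2_all 5 fun o => k2_all 4 fun x =>
    k2_sE 512 (k2_sR r h o x)
      (k2_lk tabR (cond (Nat.beq o 0) 0 (k2_ma h 4 o)) (k2_ma r 4 x))) = true := by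
  decide +kernel

theorem k2_kM : (k2_all 8 fun r => k2_all 5 fun o => k2_all 4 fun x => k2_all 2 fun c =>
    k2_sE 256 (k2_sM r o x) (k2_lk tabM (k2_ma (Nat.mod r 2) 5 o)
      (k2_ma (k2_ma (Nat.div r 2) 2 c) 4 x))) = true := by
  decide +kernel

theorem k2_kL : (k2_all 8 fun r => k2_all 5 fun o => k2_all 5 fun b => k2_all 4 fun x =>
    k2_all 4 fun lp => k2_sE (k2_pc (Nat.div r 2) lp) (k2_sL r o b x)
      (k2_lk tabL (k2_ma lp 5 o) (k2_ma (k2_ma r 5 b) 4 x))) = true := by
  decide +kernel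

/-! ### the meaning of the checks -/

theorem k2_frc_eq (n : ℕ) (f : ℕ → ℕ) : k2_frc n f = f n := by
  cases n <;> rfl

theorem k2_sum_eq (n : ℕ) (f : ℕ → ℕ) : k2_sum n f = ∑ i ∈ range n, f i := by
  induction n with
  | zero => rfl
  | succ n ih => rw [Finset.sum_range_succ, ← ih]; rfl

theorem k2_all_lt {n : ℕ} {f : ℕ → Bool} (h : k2_all n f = true) {i : ℕ} (hi : i < n) :
    f i = true := by
  induction n with
  | zero => omega
  | succ n ih =>
    have h1 : (f n && k2_all n f) = true := h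
    rw [Bool.and_eq_true] at h1
    rcases Nat.lt_succ_iff_lt_or_eq.1 hi with h2 | rfl
    · exact ih h1.2 h2
    · exact h1.1

theorem k2_sh_eq (w k : ℕ) : k2_sh w k = w * (2 ^ 32) ^ k := by
  rw [← pow_mul]
  exact Nat.shiftLeft_eq w (32 * k)

theorem k2_ma_eq (a n b : ℕ) : k2_ma a n b = n * a + b := by
  rw [Nat.mul_comm]
  rfl

theorem k2_dig_eq (n w i : ℕ) : k2_dig n w i = n / 2 ^ (w * i) % 2 ^ w := by
  have h1 : Nat.shiftRight n (Nat.mul w i) = n / 2 ^ (w * i) := Nat.shiftRight_eq_div_pow n _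
  have h2 : Nat.shiftLeft 1 w = 2 ^ w := Nat.one_shiftLeft w
  unfold k2_dig
  rw [h1, h2]
  rfl

theorem k2_dig_lt (n w i : ℕ) : k2_dig n w i < 2 ^ w := by
  rw [k2_dig_eq]
  exact Nat.mod_lt _ (by positivity)

theorem k2_dig_pack (w : ℕ) (l : List ℕ) (h : ∀ a ∈ l, a < 2 ^ w) (j : ℕ) :
    k2_dig (k2_pack w l) w j = l.getD j 0 := by
  induction l generalizing j with
  | nil =>
    rw [k2_dig_eq]
    change 0 / _ % _ = 0
    simp
  | cons a l ih =>
    have h1 : k2_pack w (a :: l) = a + 2 ^ w * k2_pack w l := by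
      rw [Nat.mul_comm, ← Nat.shiftLeft_eq]
      rfl
    have h2 : a < 2 ^ w := h a List.mem_cons_self
    rw [k2_dig_eq, h1]
    cases j with
    | zero => simp [Nat.mod_eq_of_lt h2]
    | succ j =>
      rw [List.getD_cons_succ, ← ih (fun b hb => h b (List.mem_cons_of_mem _ hb)) j, k2_dig_eq,
        Nat.mul_succ, Nat.add_comm (w * j), pow_add, ← Nat.div_div_eq_div_mul,
        Nat.add_mul_div_left _ _ (by positivity), Nat.div_eq_of_lt h2, Nat.zero_add]

theorem k2_lk_eq {T : List (List ℕ)} (h : (T.all fun r => r.all fun a => Nat.blt a 1048576) = true)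
    (i j : ℕ) : (T.getD i []).getD j 0 = k2_lk T i j := by
  unfold k2_lk
  rw [k2_frc_eq]
  refine (k2_dig_pack 20 _ (fun a ha => ?_) j).symm
  by_cases hi : i < T.length
  · rw [List.getD_eq_getElem _ _ hi] at ha
    have h1 := List.all_eq_true.1 (List.all_eq_true.1 h _ (List.getElem_mem hi)) a ha
    exact Nat.blt_eq.mp h1
  · rw [List.getD_eq_default _ _ (not_lt.1 hi)] at ha
    exact absurd ha List.not_mem_nil

theorem k2_bR : (tabR.all fun r => r.all fun a => Nat.blt a 1048576) = true := by decide +kernel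

theorem k2_bL : (tabL.all fun r => r.all fun a => Nat.blt a 1048576) = true := by decide +kernel

theorem k2_bM : (tabM.all fun r => r.all fun a => Nat.blt a 1048576) = true := by decide +kernel

theorem k2_digits {B : ℕ} (N : ℕ) {c c' : ℕ → ℕ} (h : ∀ j, c j < B) (h' : ∀ j, c' j < B)
    (e : ∑ j ∈ range N, c j * B ^ j = ∑ j ∈ range N, c' j * B ^ j) : ∀ j < N, c j = c' j := by
  induction N generalizing c c' with
  | zero => intro j hj; omega
  | succ N ih =>
    have hs : ∀ g : ℕ → ℕ, ∑ j ∈ range (N + 1), g j * B ^ j =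
        g 0 + B * ∑ j ∈ range N, g (j + 1) * B ^ j := fun g => by
      rw [Finset.sum_range_succ', Finset.mul_sum, pow_zero, mul_one, add_comm]
      exact congrArg _ (Finset.sum_congr rfl fun j _ => by ring)
    rw [hs, hs] at e
    have h0 : c 0 = c' 0 := by
      have h1 := congrArg (· % B) e
      simpa only [Nat.add_mul_mod_self_left, Nat.mod_eq_of_lt (h 0), Nat.mod_eq_of_lt (h' 0)]
        using h1
    rw [h0] at e
    have h2 := Nat.eq_of_mul_eq_mul_left (Nat.zero_lt_of_lt (h 0)) (Nat.add_left_cancel e)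
    intro j hj
    cases j with
    | zero => exact h0
    | succ j => exact ih (fun j => h (j + 1)) (fun j => h' (j + 1)) h2 j (by omega)

theorem k2_fib {α R : Type} [Fintype α] [CommSemiring R] (w k : α → ℕ) {N : ℕ} (hN : ∀ a, k a < N)
    (F : ℕ → R) : ∑ a, (w a : R) * F (k a) =
      ∑ j ∈ range N, ((∑ a, if k a = j then w a else 0 : ℕ) : R) * F j := by
  simp only [Nat.cast_sum, Finset.sum_mul]
  rw [Finset.sum_comm]
  refine Finset.sum_congr rfl fun a _ => ?_
  rw [Finset.sum_eq_single (k a) (fun j _ hj => by rw [if_neg hj.symm]; simp)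
    (fun hj => absurd (Finset.mem_range.2 (hN a)) hj), if_pos rfl]

/-- equal codes give equal formal sums -/
theorem k2_enc {α β : Type} [Fintype α] [Fintype β] {w k : α → ℕ} {w' k' : β → ℕ} {c c' : ℕ}
    (hw : c * ∑ a, w a < 2 ^ 32) (hw' : c' * ∑ b, w' b < 2 ^ 32)
    (e : c * ∑ a, k2_sh (w a) (k a) = c' * ∑ b, k2_sh (w' b) (k' b)) (F : ℕ → ℝ) :
    (c : ℝ) * ∑ a, (w a : ℝ) * F (k a) = (c' : ℝ) * ∑ b, (w' b : ℝ) * F (k' b) := by
  have hN : ∀ a, k a < ∑ a, k a + ∑ b, k' b + 1 := fun a => by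
    have := Finset.single_le_sum (f := k) (fun i _ => Nat.zero_le _) (Finset.mem_univ a)
    omega
  have hN' : ∀ b, k' b < ∑ a, k a + ∑ b, k' b + 1 := fun b => by
    have := Finset.single_le_sum (f := k') (fun i _ => Nat.zero_le _) (Finset.mem_univ b)
    omega
  have e1 := k2_fib (R := ℕ) w k hN fun j => (2 ^ 32) ^ j
  have e2 := k2_fib (R := ℕ) w' k' hN' fun j => (2 ^ 32) ^ j
  simp only [Nat.cast_id] at e1 e2
  simp only [k2_sh_eq] at e
  rw [e1, e2, Finset.mul_sum, Finset.mul_sum] at e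
  simp only [← mul_assoc] at e
  have hd := k2_digits (B := 2 ^ 32) _ (c := fun j => c * ∑ a, if k a = j then w a else 0)
    (c' := fun j => c' * ∑ b, if k' b = j then w' b else 0)
    (fun j => lt_of_le_of_lt (Nat.mul_le_mul_left _
      (Finset.sum_le_sum fun a _ => by split_ifs <;> omega)) hw)
    (fun j => lt_of_le_of_lt (Nat.mul_le_mul_left _
      (Finset.sum_le_sum fun a _ => by split_ifs <;> omega)) hw') e
  rw [k2_fib w k hN F, k2_fib w' k' hN' F, Finset.mul_sum, Finset.mul_sum]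
  refine Finset.sum_congr rfl fun j hj => ?_
  rw [← mul_assoc, ← mul_assoc, ← Nat.cast_mul, ← Nat.cast_mul]
  exact congrArg (fun t : ℕ => (t : ℝ) * F j) (hd j (Finset.mem_range.1 hj))

theorem k2_rec {α : Type} (l : List α) (P : α → Bool) (w k : α → ℕ) :
    k2_fold l P w k = ∑ x : Fin l.length, k2_sh (cond (P (l.get x)) (w (l.get x)) 0) (k (l.get x)) := by
  induction l with
  | nil => rfl
  | cons a l ih =>
    refine Eq.trans ?_ (Fin.sum_univ_succ (n := l.length) _).symm
    change cond (P a) (Nat.add _ _) _ = k2_sh (cond (P a) (w a) 0) (k a) +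
      ∑ x : Fin l.length, k2_sh (cond (P (l.get x)) (w (l.get x)) 0) (k (l.get x))
    rw [← ih]
    cases P a
    · rw [cond_false, cond_false, k2_sh_eq, zero_mul, zero_add]
      rfl
    · rfl

theorem k2_tot {α : Type} (l : List α) (P : α → Bool) (w : α → ℕ) :
    ∑ x : Fin l.length, cond (P (l.get x)) (w (l.get x)) 0 ≤
      (List.rec 0 (fun p _ r => Nat.add (w p) r) l : ℕ) := by
  induction l with
  | nil => exact le_rfl
  | cons a l ih =>
    refine le_of_eq_of_le (Fin.sum_univ_succ (n := l.length) _) ?_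
    refine Nat.add_le_add (?_ : cond (P a) (w a) 0 ≤ w a) ih
    cases P a
    · exact Nat.zero_le _
    · exact le_rfl

theorem k2_encL {α β : Type} [Fintype α] {w k : α → ℕ} {l : List β} {P : β → Bool}
    {w' k' : β → ℕ} {c c' b T : ℕ} (e : c * ∑ a, k2_sh (w a) (k a) = c' * k2_fold l P w' k')
    (hw : c * ∑ a, w a < 2 ^ 32) (hT : (List.rec 0 (fun p _ r => Nat.add (w' p) r) l : ℕ) ≤ T)
    (hc : c' ≤ b) (hb : b * T < 2 ^ 32) (F : ℕ → ℝ) :
    (c : ℝ) * ∑ a, (w a : ℝ) * F (k a) = (c' : ℝ) * ∑ x : Fin l.length,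
      ((cond (P (l.get x)) (w' (l.get x)) 0 : ℕ) : ℝ) * F (k' (l.get x)) := by
  rw [k2_rec] at e
  exact k2_enc hw (lt_of_le_of_lt (Nat.mul_le_mul hc ((k2_tot l P w').trans hT)) hb) e F

theorem k2_tX : (List.rec 0 (fun p _ r => Nat.add p.2.2.2 r) mixL : ℕ) ≤ 600000 := by
  decide +kernel

theorem k2_tY : (List.rec 0 (fun p _ r => Nat.add p.2.2.2.2 r) ruleL : ℕ) ≤ 5000 := by
  decide +kernel

theorem k2_s4 (f : ℕ → ℕ) : k2_sum 4 f = ∑ a : Fin 4, f a.val := by
  rw [k2_sum_eq, Fin.sum_univ_eq_sum_range]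

theorem k2_s2 (f : ℕ → ℕ) : k2_sum 2 f = ∑ a : Bool, f a.toNat := by
  rw [Fintype.sum_bool]
  exact (by omega : 0 + f 0 + f 1 = f 1 + f 0)

theorem k2_s5 (f : ℕ → ℕ) : k2_sum 5 f = ∑ a : Option (Fin 4), f (oc a) := by
  rw [Fintype.sum_option, Fin.sum_univ_four]
  exact (by omega : 0 + f 0 + f 1 + f 2 + f 3 + f 4 = f 0 + (f 1 + f 2 + f 3 + f 4))

theorem k2_s8 (f : ℕ → ℕ) : k2_sum 8 f = ∑ a : Fin 4, ∑ b : Bool, f (rk a b) := by
  simp only [Fin.sum_univ_four, Fintype.sum_bool]
  exact (by omega : 0 + f 0 + f 1 + f 2 + f 3 + f 4 + f 5 + f 6 + f 7 =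
    f 1 + f 0 + (f 3 + f 2) + (f 5 + f 4) + (f 7 + f 6))

theorem k2_rk8 : ∀ (l : Fin 4) (d : Bool), rk l d < 8 ∧ Nat.div (rk l d) 2 = l.val ∧
    Nat.mod (rk l d) 2 = d.toNat := by decide +kernel

theorem k2_oc5 : ∀ o : Option (Fin 4), oc o < 5 := by decide +kernel

theorem k2_b2 : ∀ b : Bool, b.toNat < 2 := by decide +kernel

theorem k2_oc_or : ∀ a b : Option (Fin 4), k2_or (oc a) (oc b) = oc (a.or b) := by decide +kernel

/-! ### receivers -/

def k2_pl (lp lam : Fin 4) : ℕ := if lp = lam then 509 else 1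

/-- the weight with which the neighbour in direction `c` is compatible with `k` -/
def k2_wt : Dir → Cfg → Up → ℕ
  | .L, k, u => if leftOf k.lam k.des k.b (cst u) = k.left then k2_pl u.1.1 k.lam else 0
  | .R, k, u => if nxOf k.lam k.des (cst u) = (k.hard, k.nx) then 512 else 0
  | .M, k, u => if vote k.lam k.des (cst u) = k.a then
      (if u.1.1 = k.lam then 256 else if k.des then 0 else 512) else 0

/-- the table entry of a receiver -/
def k2_tv : Dir → Cfg → Fin 4 → ℕ
  | .L, k, x => k2_vP k.rk (k2_or (oc k.a) (oc k.nx)) (oc k.left) x.val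
  | .R, k, x => k2_vS k.rk k.hard.toNat (oc k.nx) x.val
  | .M, k, x => k2_vW k.rk (oc k.a) x.val

def k2_tc (k : Cfg) (x : Fin 4) : ℕ := k2_vC (oc k.a) k.hard.toNat (oc k.nx) (oc k.left) x.val

def k2_ok (k : Cfg) (x : Fin 4) : Bool := k2_okN (k2_or (oc k.a) (oc k.nx)) (oc k.left) x.val

def k2_en (c : Dir) (k : Cfg) (x : Fin 4) (u : Up) : ℕ := ent c.rev (dnTo c k x (cst u)) u

def k2_rT (c : Dir) (k : Cfg) (x : Fin 4) (u : Up) : ℕ :=
  k2_sh (k2_wt c k u * (k2_en c k x u % 4096))
    (2 * (k2_en c k x u / 4096) + (epsTo c k x (cst u)).toNat)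

theorem k2_eps : ∀ x y : Fin 4,
    (decide (x ≠ fl y)).toNat = cond (Nat.beq (Nat.add x.val y.val) 3) 0 1 := by decide +kernel

theorem k2_rT_eq (c : Dir) (k : Cfg) (x : Fin 4) (u : Up) {P : Bool} {w e : ℕ}
    (h1 : k2_wt c k u = cond P w 0) (h2 : k2_en c k x u = e) :
    k2_rT c k x u = cond P (k2_tm w e x.val u.2.val) 0 := by
  have h3 : (epsTo c k x (cst u)).toNat = _ := k2_eps x u.2
  unfold k2_rT k2_tm
  rw [h1, h2, h3, k2_ma_eq]
  cases P
  · rw [cond_false, cond_false, zero_mul, k2_sh_eq, zero_mul]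
  · rfl

theorem k2_rT_zero (c : Dir) (k : Cfg) (x : Fin 4) (u : Up) (h : k2_en c k x u = 0) :
    k2_rT c k x u = 0 := by
  unfold k2_rT
  rw [h, k2_sh_eq, Nat.zero_mod, mul_zero, zero_mul]

theorem k2_P1 : ∀ (lam : Fin 4) (des : Bool) (left : Option (Fin 4)) (l : Fin 4) (d : Bool)
    (y : Fin 4), k2_wt .L ⟨lam, des, none, false, none, left⟩ ((l, d, none), y) =
      cond (k2_cP (rk lam des) (oc left) (rk l d) y.val)
        (k2_pc (Nat.div (rk lam des) 2) (Nat.div (rk l d) 2)) 0 := by decide +kernel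

theorem k2_P2 : ∀ (lam : Fin 4) (des : Bool) (b : Option (Fin 4)) (x l : Fin 4) (d : Bool),
    (fun t : Dn => if t.2.2 = none then 0 else 4 * t.2.1.toNat + oc t.2.2)
      (dnTo .L ⟨lam, des, none, false, b, none⟩ x (cst ((l, d, none), 0))) =
      k2_iP (rk lam des) (oc b) x.val (rk l d) := by decide +kernel

theorem k2_S1 : ∀ (lam : Fin 4) (des : Bool) (l : Fin 4) (d : Bool) (b : Option (Fin 4))
    (y : Fin 4), (fun t : Bool × Option (Fin 4) => k2_ma t.1.toNat 5 (oc t.2))
      (nxOf lam des (cst ((l, d, b), y))) = k2_cS (rk lam des) (rk l d) (oc b) y.val := by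
  decide +kernel

theorem k2_S0 : ∀ t t' : Bool × Option (Fin 4), (if t = t' then 512 else 0) =
    cond (Nat.beq (k2_ma t'.1.toNat 5 (oc t'.2)) (k2_ma t.1.toNat 5 (oc t.2))) 512 0 := by
  decide +kernel

theorem k2_S2 : ∀ (lam : Fin 4) (des : Bool) (x l : Fin 4) (d : Bool),
    (fun t : Dn => 5 * t.1.val + oc t.2.2)
      (dnTo .R ⟨lam, des, none, false, none, none⟩ x (cst ((l, d, none), 0))) =
      k2_iS (rk lam des) x.val (rk l d) := by decide +kernel

theorem k2_W1 : ∀ (lam : Fin 4) (des : Bool) (a : Option (Fin 4)) (l y : Fin 4),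
    k2_wt .M ⟨lam, des, a, false, none, none⟩ ((l, false, none), y) =
      cond (k2_cW (rk lam des) (oc a) l.val y.val) (k2_wW (rk lam des) l.val) 0 := by
  decide +kernel

theorem k2_W2 : ∀ (lam : Fin 4) (des : Bool) (x l : Fin 4),
    (fun t : Dn => 5 * t.2.1.toNat + oc t.2.2)
      (dnTo .M ⟨lam, des, none, false, none, none⟩ x (cst ((l, false, none), 0))) =
      k2_iW (rk lam des) x.val l.val := by decide +kernel

theorem k2_up (f : Up → ℕ) : ∑ u, f u = ∑ l, ∑ d, ∑ b, ∑ y, f ((l, d, b), y) := by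
  simp only [Fintype.sum_prod_type]

theorem k2_up0 (f : Up → ℕ) (h : ∀ l d b y, f ((l, d, some b), y) = 0) :
    ∑ u, f u = ∑ l, ∑ d, ∑ y, f ((l, d, none), y) := by
  simp only [Fintype.sum_prod_type, Fintype.sum_option, h, Finset.sum_const_zero, add_zero]

theorem k2_recN (c : Dir) (k : Cfg) (x : Fin 4) (hk : k2_ok k x = true) :
    ∑ u, k2_rT c k x u = k2_rR (k2_tv c k x) := by
  have hr := (k2_rk8 k.lam k.des).1
  cases c
  · have h1 := k2_all_lt (k2_all_lt (k2_all_lt (k2_all_lt k2_kP hr) (k2_oc5 k.b)) (k2_oc5 k.left))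
      x.isLt
    unfold k2_ok at hk
    change _ = k2_rR (k2_vP k.rk (k2_or (oc k.a) (oc k.nx)) (oc k.left) x.val)
    rw [k2_oc_or] at hk ⊢
    change (!k2_okN (oc (k.a.or k.nx)) (oc k.left) x.val || _) = true at h1
    rw [hk, Bool.not_true, Bool.false_or] at h1
    refine Eq.trans ?_ (Nat.eq_of_beq_eq_true h1)
    rw [k2_up0 _ fun l d b y => k2_rT_zero _ _ _ _ rfl]
    simp only [k2_s8, k2_s4]
    refine Finset.sum_congr rfl fun l _ => Finset.sum_congr rfl fun d _ =>
      Finset.sum_congr rfl fun y _ => k2_rT_eq _ _ _ _ (k2_P1 k.lam k.des k.left l d y) ?_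
    rw [← k2_P2 k.lam k.des k.b x l d, k2_ma_eq, ← k2_lk_eq k2_bR]
    rfl
  · have h1 := k2_all_lt (k2_all_lt (k2_all_lt (k2_all_lt k2_kS hr) (k2_b2 k.hard)) (k2_oc5 k.nx))
      x.isLt
    refine Eq.trans ?_ (Nat.eq_of_beq_eq_true h1)
    rw [k2_up]
    simp only [k2_s8, k2_s5, k2_s4]
    refine Finset.sum_congr rfl fun l _ => Finset.sum_congr rfl fun d _ =>
      Finset.sum_congr rfl fun b _ => Finset.sum_congr rfl fun y _ => k2_rT_eq _ _ _ _ ?_ ?_
    · rw [← k2_S1 k.lam k.des l d b y]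
      exact k2_S0 _ (k.hard, k.nx)
    · rw [← k2_S2 k.lam k.des x l d, k2_ma_eq, k2_ma_eq, ← k2_lk_eq k2_bL]
      rfl
  · have h1 := k2_all_lt (k2_all_lt (k2_all_lt k2_kW hr) (k2_oc5 k.a)) x.isLt
    refine Eq.trans ?_ (Nat.eq_of_beq_eq_true h1)
    rw [k2_up0 _ fun l d b y => k2_rT_zero _ _ _ _ rfl]
    simp only [k2_s8, k2_s4]
    refine Finset.sum_congr rfl fun l _ => Finset.sum_congr rfl fun d _ =>
      Finset.sum_congr rfl fun y _ => ?_
    unfold k2_fW
    rw [(k2_rk8 l d).2.1]
    refine k2_rT_eq _ _ _ _ (k2_W1 k.lam k.des k.a l y) ?_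
    rw [← k2_W2 k.lam k.des x l, k2_ma_eq, ← k2_lk_eq k2_bM]
    rfl

theorem k2_tv_lt (c : Dir) (k : Cfg) (x : Fin 4) : k2_tv c k x / 118 ≤ 34 := by
  have h : k2_tv c k x < 2 ^ 12 := by cases c <;> exact k2_dig_lt _ _ _
  omega

theorem k2_wt_le (c : Dir) (k : Cfg) (u : Up) : k2_wt c k u ≤ 512 := by
  cases c <;> simp only [k2_wt, k2_pl] <;> split_ifs <;> omega

theorem k2_card_le {α : Type} [Fintype α] (w : α → ℕ) {b n : ℕ} (h : ∀ a, w a ≤ b)
    (hn : Fintype.card α = n) : ∑ a, w a ≤ n * b := by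
  rw [← hn]
  exact Finset.sum_le_card_nsmul _ _ _ fun a _ => h a

theorem k2_fin {n : ℕ} [NeZero n] (a b : ℕ) :
    Nat.beq (Nat.mod a n) (Nat.mod b n) = true ↔ Fin.ofNat n a = Fin.ofNat n b := by
  rw [Nat.beq_eq, Fin.ext_iff]
  rfl

theorem k2_fin_mod {n : ℕ} [NeZero n] (a : ℕ) : Fin.ofNat n (a % n) = Fin.ofNat n a :=
  Fin.ext (Nat.mod_mod _ _)

/-- the mixture seen by a receiver type -/
def k2_Mx (m : Fin 118) (f : Fin 100 → Bool → ℝ) : ℝ :=
  ∑ x, if sys.xm x = m then sys.xw x * f (sys.xs x) (sys.xe x) else 0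

def k2_Rc (c : Dir) (k : Cfg) (x : Fin 4) (f : Fin 100 → Bool → ℝ) : ℝ :=
  ∑ u, (k2_wt c k u : ℝ) * (gm0 c.rev (dnTo c k x (cst u)) u *
    f (ab0 c.rev (dnTo c k x (cst u)) u) (epsTo c k x (cst u)))

theorem k2_key2 (f : Fin 100 → Bool → ℝ) (s : ℕ) (e : Bool) :
    f (Fin.ofNat 100 ((2 * s + e.toNat) / 2)) ((2 * s + e.toNat) % 2 == 1) =
      f (Fin.ofNat 100 s) e := by
  cases e
  · rw [show (2 * s + false.toNat) / 2 = s by simp, show (2 * s + false.toNat) % 2 = 0 by simp]
    rfl
  · rw [show (2 * s + true.toNat) / 2 = s by simp; omega,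
      show (2 * s + true.toNat) % 2 = 1 by simp]
    rfl

theorem k2_rR_eq (t : ℕ) : k2_rR t = 64 * (t / 118) * k2_mix (Nat.mod t 118) := by
  unfold k2_rR
  rw [k2_frc_eq]
  rfl

theorem k2_rec_eq (c : Dir) (k : Cfg) (x : Fin 4) (hk : k2_ok k x = true)
    (f : Fin 100 → Bool → ℝ) : k2_Rc c k x f =
      64 * (k2_tv c k x / 118 : ℕ) * k2_Mx (Fin.ofNat 118 (k2_tv c k x)) f := by
  have e := k2_recN c k x hk
  rw [k2_rR_eq, ← one_mul (∑ u : Up, _)] at e
  have h1 := k2_tv_lt c k x
  have h2 := k2_encL e (by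
      have h3 := k2_card_le (fun u => k2_wt c k u * (k2_en c k x u % 4096)) (b := 512 * 4096)
        (n := 160) (fun u => Nat.mul_le_mul (k2_wt_le c k u) (by omega)) (by simp only [Fintype.card_prod, Fintype.card_fin, Fintype.card_bool, Fintype.card_option, Nat.reduceAdd, Nat.reduceMul])
      omega) k2_tX (show _ ≤ 64 * 34 by omega) (by norm_num)
    fun j => f (Fin.ofNat 100 (j / 2)) (j % 2 == 1)
  simp only [k2_key2] at h2
  have h4 : k2_Rc c k x f = (∑ u, ((k2_wt c k u * (k2_en c k x u % 4096) : ℕ) : ℝ) *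
      f (Fin.ofNat 100 (k2_en c k x u / 4096)) (epsTo c k x (cst u))) / 2048 := by
    rw [Finset.sum_div]
    refine Finset.sum_congr rfl fun u _ => ?_
    rw [Nat.cast_mul]
    unfold gm0 ab0 k2_en
    ring
  rw [Nat.cast_one, one_mul] at h2
  rw [h4, h2, Nat.cast_mul, Nat.cast_ofNat, mul_div_assoc, Finset.sum_div]
  refine congrArg _ (Finset.sum_congr rfl fun y _ => ?_)
  by_cases h5 : sys.xm y = Fin.ofNat 118 (k2_tv c k x)
  · rw [if_pos h5, (k2_fin _ _).2 h5, cond_true]
    exact (mul_div_right_comm _ _ _)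
  · rw [if_neg h5, Bool.eq_false_iff.2 fun h => h5 ((k2_fin _ _).1 h), cond_false]
    simp

/-! ### values and phases -/

theorem k2_kC : ∀ (a : Option (Fin 4)) (h : Bool) (nx left : Option (Fin 4)),
    (Nat.beq (k2_sum 4 fun sd => k2_sum 2 fun tb =>
      k2_sh 1 (k2_ma (Cfg.x ⟨0, false, a, h, nx, left⟩
          (none, false, Fin.ofNat 4 sd, Nat.beq tb 1)).val 3
        (Cfg.ph ⟨0, false, a, h, nx, left⟩ (none, false, Fin.ofNat 4 sd, Nat.beq tb 1)).val))
      (k2_sum 4 fun x => k2_sh (Nat.div (k2_vC (oc a) h.toNat (oc nx) (oc left) x) 3)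
        (k2_ma x 3 (Nat.mod (k2_vC (oc a) h.toNat (oc nx) (oc left) x) 3))) &&
    k2_all 4 fun x => Nat.beq (Nat.div (k2_vC (oc a) h.toNat (oc nx) (oc left) x) 3) 0 ||
      k2_okN (k2_or (oc a) (oc nx)) (oc left) x) = true := by
  decide +kernel

theorem k2_tc_le (k : Cfg) (x : Fin 4) : k2_tc k x / 3 ≤ 85 := by
  have h : k2_tc k x < 2 ^ 8 := k2_dig_lt _ _ _
  omega

theorem k2_cnt_ok (k : Cfg) (x : Fin 4) : k2_tc k x / 3 = 0 ∨ k2_ok k x = true := by
  have h := k2_kC k.a k.hard k.nx k.left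
  rw [Bool.and_eq_true] at h
  have h1 := k2_all_lt h.2 x.isLt
  rw [Bool.or_eq_true] at h1
  exact h1.imp Nat.eq_of_beq_eq_true id

theorem k2_cnt (k : Cfg) (x : Fin 4) (Ψ : Fin 3 → ℝ) :
    ∑ t : Fin 4 × Bool, (if k.x (none, false, t) = x then Ψ (k.ph (none, false, t)) else 0) =
      (k2_tc k x / 3 : ℕ) * Ψ (Fin.ofNat 3 (k2_tc k x)) := by
  have h := k2_kC k.a k.hard k.nx k.left
  rw [Bool.and_eq_true] at h
  have e := Nat.eq_of_beq_eq_true h.1
  simp only [k2_s4, k2_s2, k2_ma_eq] at e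
  have e1 : 1 * ∑ t : Fin 4 × Bool, k2_sh 1 (3 * (k.x (none, false, t)).val +
      (k.ph (none, false, t)).val) =
      1 * ∑ y : Fin 4, k2_sh (k2_tc k y / 3) (3 * y.val + k2_tc k y % 3) := by
    rw [one_mul, one_mul, Fintype.sum_prod_type]
    refine Eq.trans ?_ e
    refine Finset.sum_congr rfl fun sd _ => Finset.sum_congr rfl fun tb _ => ?_
    rw [show Fin.ofNat 4 sd.val = sd from Fin.ext (Nat.mod_eq_of_lt sd.isLt),
      show Nat.beq tb.toNat 1 = tb by cases tb <;> rfl]
    rfl
  have h2 := k2_enc (by simp) (by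
      have h3 := k2_card_le (fun y => k2_tc k y / 3) (n := 4) (k2_tc_le k) rfl
      omega) e1 fun j => if j / 3 = x.val then Ψ (Fin.ofNat 3 j) else 0
  simp only [Nat.cast_one, one_mul] at h2
  have h4 : ∀ a b : ℕ, Fin.ofNat 3 (3 * a + b) = Fin.ofNat 3 b := fun a b =>
    Fin.ext (Nat.mul_add_mod _ _ _)
  rw [Finset.sum_eq_single x (fun y _ hy => by
    rw [if_neg fun hh => hy (Fin.ext (by omega)), mul_zero]) (fun hh => absurd (mem_univ x) hh),
    if_pos (by omega), h4, k2_fin_mod] at h2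
  rw [← h2]
  refine Finset.sum_congr rfl fun t _ => ?_
  have h5 := (k.ph (none, false, t)).isLt
  rw [h4, show Fin.ofNat 3 (k.ph (none, false, t)).val = k.ph (none, false, t) from
    Fin.ext (Nat.mod_eq_of_lt h5)]
  refine if_congr ?_ rfl rfl
  rw [Fin.ext_iff]
  omega

/-! ### senders -/

/-- the configurations compatible with what is passed down and up -/
def k2_par : Dir → Dn → Up → Option (Fin 4) × Bool × Option (Fin 4) → Cfg
  | .R, d, u, p => ⟨u.1.1, u.1.2.1, p.1, p.2.1, d.2.2, p.2.2⟩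
  | .L, d, u, p => ⟨u.1.1, u.1.2.1, p.1, p.2.1, p.2.2, d.2.2⟩
  | .M, d, u, p => ⟨u.1.1, d.2.1, d.2.2, p.2.1, p.1, p.2.2⟩

def k2_cnd : Dir → Dn → Up → Option (Fin 4) × Bool × Option (Fin 4) → Bool
  | .R, d, u, p => decide (d.2.1 = p.2.1) && decide (none = u.1.2.2)
  | .L, _, u, p => decide (p.1.or p.2.2 = u.1.2.2)
  | .M, _, u, _ => decide (none = u.1.2.2)

def k2_pw : Dir → Dn → Up → ℕ
  | .R, _, _ => 512
  | .L, d, u => k2_pl d.1 u.1.1
  | .M, _, _ => 256

def k2_sW (δ : Dir) (k : Cfg) (x : Fin 4) : ℕ :=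
  k2_tc k x / 3 * (k2_tv (ch δ false) k x / 118) * (k2_tv (ch δ true) k x / 118)

def k2_sK (δ : Dir) (k : Cfg) (x : Fin 4) : ℕ :=
  3 * (118 * (k2_tv (ch δ false) k x % 118) + k2_tv (ch δ true) k x % 118) + k2_tc k x % 3

theorem k2_sT_eq (δ : Dir) (k : Cfg) (x : Fin 4) : k2_sh (k2_sW δ k x) (k2_sK δ k x) =
    k2_sT (k2_tc k x) (k2_tv (ch δ false) k x) (k2_tv (ch δ true) k x) := by
  unfold k2_sT k2_sW k2_sK
  rw [k2_ma_eq, k2_ma_eq]
  cases h : Nat.ble 3 (k2_tc k x)
  · have h1 : k2_tc k x / 3 = 0 := Nat.div_eq_of_lt (Nat.lt_of_not_le fun h2 => by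
      rw [Nat.ble_eq.mpr h2] at h
      exact Bool.noConfusion h)
    rw [h1, cond_false, zero_mul, zero_mul, k2_sh_eq, zero_mul]
  · rfl

theorem k2_sh_cond (P : Bool) (w k : ℕ) : k2_sh (cond P w 0) k = cond P (k2_sh w k) 0 := by
  cases P
  · rw [cond_false, cond_false, k2_sh_eq, zero_mul]
  · rfl

theorem k2_pl_pc : ∀ (lp l : Fin 4) (d : Bool),
    k2_pl lp l = k2_pc (Nat.div (rk l d) 2) lp.val := by decide +kernel

theorem k2_or_beq : ∀ a n b : Option (Fin 4),
    decide (a.or n = b) = Nat.beq (k2_or (oc a) (oc n)) (oc b) := by decide +kernel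

theorem k2_rowR : ∀ (h : Bool) (o : Option (Fin 4)), (if o = none then 0 else 4 * h.toNat + oc o) =
    cond (Nat.beq (oc o) 0) 0 (k2_ma h.toNat 4 (oc o)) := by decide +kernel

theorem k2_sndN (δ : Dir) (d : Dn) (u : Up) :
    k2_pw δ d u * ∑ p, k2_sh (cond (k2_cnd δ d u p) (k2_sW δ (k2_par δ d u p) u.2) 0)
      (k2_sK δ (k2_par δ d u p) u.2) =
      16 * (ent δ d u % 4096) * k2_rule (Nat.mod (ent δ d u / 4096) 100) := by
  obtain ⟨d1, h, o⟩ := d
  obtain ⟨⟨l, c, b⟩, x⟩ := u
  simp only [k2_sh_cond, k2_sT_eq, Fintype.sum_prod_type]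
  cases δ
  · have h1 := k2_all_lt (k2_all_lt (k2_all_lt (k2_all_lt (k2_all_lt k2_kL (k2_rk8 l c).1)
      (k2_oc5 o)) (k2_oc5 b)) x.isLt) d1.isLt
    have h2 := Nat.eq_of_beq_eq_true h1
    rw [k2_frc_eq, k2_ma_eq, k2_ma_eq, k2_ma_eq, ← k2_lk_eq k2_bL, ← k2_pl_pc] at h2
    refine Eq.trans (congrArg (k2_pl d1 l * ·) ?_) h2
    unfold k2_sL
    simp only [k2_s5, k2_s2]
    refine Finset.sum_congr rfl fun a _ => ?_
    rw [Finset.sum_comm]
    refine Finset.sum_congr rfl fun n _ => ?_
    rw [← k2_or_beq]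
    change ∑ t, cond (decide (a.or n = b)) _ 0 = _
    cases decide (a.or n = b)
    · exact Finset.sum_const_zero
    · rfl
  · cases b with
    | some b =>
      simp only [k2_cnd, ent, reduceCtorEq, decide_false, Bool.and_false, cond_false,
        Finset.sum_const_zero, mul_zero, if_false, Nat.zero_mod, zero_mul]
    | none =>
      have h1 := k2_all_lt (k2_all_lt (k2_all_lt (k2_all_lt k2_kR (k2_rk8 l c).1) (k2_b2 h))
        (k2_oc5 o)) x.isLt
      have h2 := Nat.eq_of_beq_eq_true h1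
      rw [k2_frc_eq, ← k2_rowR, k2_ma_eq, ← k2_lk_eq k2_bR] at h2
      refine Eq.trans (congrArg (512 * ·) ?_) h2
      unfold k2_sR
      simp only [k2_s5]
      refine Finset.sum_congr rfl fun a _ => ?_
      rw [Fintype.sum_bool]
      cases h
      · exact (congrArg (· + _) Finset.sum_const_zero).trans (zero_add _)
      · exact (congrArg (_ + ·) Finset.sum_const_zero).trans (add_zero _)
  · cases b with
    | some b =>
      simp only [k2_cnd, ent, reduceCtorEq, decide_false, cond_false,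
        Finset.sum_const_zero, mul_zero, if_false, Nat.zero_mod, zero_mul]
    | none =>
      have h1 := k2_all_lt (k2_all_lt (k2_all_lt (k2_all_lt k2_kM (k2_rk8 l h).1) (k2_oc5 o))
        x.isLt) (k2_b2 c)
      have h2 := Nat.eq_of_beq_eq_true h1
      rw [k2_frc_eq, (k2_rk8 l h).2.1, (k2_rk8 l h).2.2, k2_ma_eq, k2_ma_eq, k2_ma_eq,
        ← k2_lk_eq k2_bM] at h2
      refine Eq.trans (congrArg (256 * ·) ?_) h2
      unfold k2_sM
      simp only [k2_s5, k2_s2]
      rfl

theorem k2_snd (δ : Dir) (d : Dn) (u : Up) (H : Fin 118 → Fin 118 → Fin 3 → ℝ) :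
    (k2_pw δ d u : ℝ) * ∑ p, ((cond (k2_cnd δ d u p) (k2_sW δ (k2_par δ d u p) u.2) 0 : ℕ) : ℝ) *
      H (Fin.ofNat 118 (k2_tv (ch δ false) (k2_par δ d u p) u.2))
        (Fin.ofNat 118 (k2_tv (ch δ true) (k2_par δ d u p) u.2))
        (Fin.ofNat 3 (k2_tc (k2_par δ d u p) u.2)) =
      2 ^ 18 * (gm0 δ d u * ∑ y, if sys.ys y = ab0 δ d u then
        sys.yw y * H (sys.ya y) (sys.yb y) (sys.yi y) else 0) := by
  have e := k2_sndN δ d u
  have hp : k2_pw δ d u ≤ 512 := by
    cases δ <;> simp only [k2_pw, k2_pl] <;> (try split_ifs) <;> omega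
  have h2 := k2_encL e (by
      have h3 := k2_card_le (fun p => cond (k2_cnd δ d u p) (k2_sW δ (k2_par δ d u p) u.2) 0)
        (b := 85 * 34 * 34) (n := 50) (fun p => by
          cases k2_cnd δ d u p
          · exact Nat.zero_le _
          · exact Nat.mul_le_mul (Nat.mul_le_mul (k2_tc_le _ _) (k2_tv_lt _ _ _))
              (k2_tv_lt _ _ _)) (by simp only [Fintype.card_prod, Fintype.card_option, Fintype.card_fin, Nat.reduceAdd, Fintype.card_bool, Nat.reduceMul])
      exact lt_of_le_of_lt (Nat.mul_le_mul hp h3) (by norm_num))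
    k2_tY (show _ ≤ 16 * 4096 by omega) (by norm_num)
    fun j => H (Fin.ofNat 118 (j / 3 / 118)) (Fin.ofNat 118 (j / 3)) (Fin.ofNat 3 j)
  have h4 : ∀ a b i j : ℕ, j = (a % 118 * 118 + b % 118) * 3 + i % 3 →
      H (Fin.ofNat 118 (j / 3 / 118)) (Fin.ofNat 118 (j / 3)) (Fin.ofNat 3 j) =
        H (Fin.ofNat 118 a) (Fin.ofNat 118 b) (Fin.ofNat 3 i) := fun a b i j hj => by
    rw [show Fin.ofNat 118 (j / 3 / 118) = Fin.ofNat 118 a from
        Fin.ext (by change _ % 118 = _ % 118; omega),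
      show Fin.ofNat 118 (j / 3) = Fin.ofNat 118 b from
        Fin.ext (by change _ % 118 = _ % 118; omega),
      show Fin.ofNat 3 j = Fin.ofNat 3 i from Fin.ext (by change _ % 3 = _ % 3; omega)]
  refine Eq.trans (congrArg _ (Finset.sum_congr rfl fun p _ => congrArg _
    (h4 _ _ _ _ (by unfold k2_sK; omega)).symm)) (h2.trans ?_)
  unfold gm0
  rw [Finset.mul_sum, Finset.mul_sum, Finset.mul_sum]
  refine Finset.sum_congr rfl fun y _ => ?_
  rw [h4 _ _ _ _ rfl]
  by_cases h5 : sys.ys y = ab0 δ d u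
  · rw [if_pos h5, (k2_fin _ _).2 h5, cond_true, Nat.cast_mul]
    change _ = _ * (_ * (((ruleL.get y).2.2.2.2 : ℝ) / 8 * H (Fin.ofNat 118 (ruleL.get y).2.1)
      (Fin.ofNat 118 (ruleL.get y).2.2.1) (Fin.ofNat 3 (ruleL.get y).2.2.2.1)))
    rw [Nat.cast_ofNat]
    ring
  · rw [if_neg h5, Bool.eq_false_iff.2 fun h => h5 ((k2_fin _ _).1 h), cond_false]
    simp

/-! ### the decomposition -/

theorem k2_cfgR (l : L1) (o : Bool) (d : Dn) (m1 m2 : M1) (k : Cfg) : cfg .R l o d m1 m2 = k ↔
    l.1.getD (m1.e 0).1 = k.lam ∧ desOf k.lam l.2.1 o m2 = k.des ∧ vote k.lam k.des m2 = k.a ∧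
      d.2.1 = k.hard ∧ d.2.2 = k.nx ∧ leftOf k.lam k.des k.b m1 = k.left := by
  constructor
  · rintro rfl
    exact ⟨rfl, rfl, rfl, rfl, rfl, rfl⟩
  · obtain ⟨a, b, c, e, f, g⟩ := k
    rintro ⟨h1, h2, h3, h4, h5, h6⟩
    dsimp only at h1 h2 h3 h4 h5
    subst h1 h2 h3 h4 h5
    exact congrArg (Cfg.mk _ _ _ _ _) h6

theorem k2_cfgL (l : L1) (o : Bool) (d : Dn) (m1 m2 : M1) (k : Cfg) : cfg .L l o d m1 m2 = k ↔
    l.1.getD d.1 = k.lam ∧ desOf k.lam l.2.1 o m2 = k.des ∧ vote k.lam k.des m2 = k.a ∧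
      nxOf k.lam k.des m1 = (k.hard, k.nx) ∧ d.2.2 = k.left := by
  constructor
  · rintro rfl
    exact ⟨rfl, rfl, rfl, rfl, rfl⟩
  · obtain ⟨a, b, c, e, f, g⟩ := k
    rintro ⟨h1, h2, h3, h4, h5⟩
    have h6 := congrArg Prod.fst h4
    have h7 := congrArg Prod.snd h4
    dsimp only at h1 h2 h3 h5 h6 h7
    subst h1 h2 h3 h5 h6 h7
    rfl

theorem k2_cfgM (l : L1) (o : Bool) (d : Dn) (m1 m2 : M1) (k : Cfg) : cfg .M l o d m1 m2 = k ↔
    l.1.getD (m1.e 0).1 = k.lam ∧ d.2.1 = k.des ∧ d.2.2 = k.a ∧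
      nxOf k.lam k.des m2 = (k.hard, k.nx) ∧ leftOf k.lam k.des k.b m1 = k.left := by
  constructor
  · rintro rfl
    exact ⟨rfl, rfl, rfl, rfl, rfl⟩
  · obtain ⟨a, b, c, e, f, g⟩ := k
    rintro ⟨h1, h2, h3, h4, h5⟩
    have h6 := congrArg Prod.fst h4
    have h7 := congrArg Prod.snd h4
    dsimp only at h1 h2 h3 h6 h7
    subst h1 h2 h3 h6 h7
    exact congrArg (Cfg.mk _ _ _ _ _) h5

def k2_n (lo : Option (Fin 4)) : ℕ := if lo = none then 508 else 1

theorem k2_lo : ∀ lp lam : Fin 4,
    ∑ lo : Option (Fin 4), (if lo.getD lp = lam then k2_n lo else 0) = k2_pl lp lam := by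
  decide +kernel

theorem k2_co : ∀ (lam l : Fin 4) (des o c0 : Bool),
    256 * ∑ c : Bool, (if desOf lam c o (cst ((l, c0, none), 0)) = des then 1 else 0) =
      if l = lam then 256 else if des then 0 else 512 := by
  decide +kernel

theorem k2_fac (A : Option (Fin 4) → Prop) (B : Bool → Prop) (C : Prop) [DecidablePred A]
    [DecidablePred B] [Decidable C] (P : Option (Fin 4) → Bool → Prop)
    [∀ lo c, Decidable (P lo c)] (h : ∀ lo c, P lo c ↔ A lo ∧ B c ∧ C) :
    ∑ lo, ∑ c, (if P lo c then k2_n lo else 0) =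
      if C then (∑ lo, if A lo then k2_n lo else 0) * ∑ c, if B c then 1 else 0 else 0 := by
  simp only [h]
  by_cases hC : C
  · rw [if_pos hC, Finset.sum_mul_sum]
    refine Finset.sum_congr rfl fun lo _ => Finset.sum_congr rfl fun c _ => ?_
    by_cases h1 : A lo <;> by_cases h2 : B c <;> simp [h1, h2, hC]
  · simp [hC]

theorem k2_K (δ : Dir) (o : Bool) (d : Dn) (u u1 u2 : Up)
    (p : Option (Fin 4) × Bool × Option (Fin 4)) :
    131072 * ∑ lo, ∑ c, (if cfg δ (lo, c, 0, false) o d (cst u1) (cst u2) = k2_par δ d u p ∧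
        eOut δ (k2_par δ d u p) c = u.1 then k2_n lo else 0) =
      cond (k2_cnd δ d u p) (k2_pw δ d u) 0 * k2_wt (ch δ false) (k2_par δ d u p) u1 *
        k2_wt (ch δ true) (k2_par δ d u p) u2 := by
  obtain ⟨⟨l, c0, b⟩, x⟩ := u
  obtain ⟨p1, p2, p3⟩ := p
  cases δ
  · have h1 := k2_co l u2.1.1 c0 o u2.1.2.1
    rw [k2_fac (fun lo => lo.getD d.1 = l) (fun c => desOf l c o (cst u2) = c0)
      (p1.or p3 = b ∧ nxOf l c0 (cst u1) = (p2, p3) ∧ vote l c0 (cst u2) = p1) _ fun lo c => by
        rw [k2_cfgL]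
        simp only [k2_par, eOut, Cfg.b, Prod.mk.injEq, true_and, and_true]
        tauto, k2_lo]
    change 256 * ∑ c : Bool, (if desOf l c o (cst u2) = c0 then 1 else 0) = _ at h1
    simp only [k2_cnd, k2_pw, k2_wt, k2_par, ch]
    rw [← h1]
    by_cases a1 : p1.or p3 = b <;> by_cases a2 : nxOf l c0 (cst u1) = (p2, p3) <;>
      by_cases a3 : vote l c0 (cst u2) = p1 <;>
      simp only [a1, a2, a3, and_self, and_true, and_false, if_true, if_false,
        decide_true, decide_false, cond_true, cond_false, mul_zero, zero_mul]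
    ring
  · have h1 := k2_co l u2.1.1 c0 o u2.1.2.1
    rw [k2_fac (fun lo => lo.getD u1.1.1 = l) (fun c => desOf l c o (cst u2) = c0)
      ((d.2.1 = p2 ∧ none = b) ∧ leftOf l c0 (p1.or d.2.2) (cst u1) = p3 ∧
        vote l c0 (cst u2) = p1) _ fun lo c => by
        rw [k2_cfgR]
        simp only [k2_par, eOut, Cfg.b, Prod.mk.injEq, true_and, cst]
        tauto, k2_lo]
    change 256 * ∑ c : Bool, (if desOf l c o (cst u2) = c0 then 1 else 0) = _ at h1
    simp only [k2_cnd, k2_pw, k2_wt, k2_par, ch, Cfg.b, ← Bool.decide_and]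
    rw [← h1]
    by_cases a1 : d.2.1 = p2 ∧ none = b <;>
      by_cases a2 : leftOf l c0 (p1.or d.2.2) (cst u1) = p3 <;>
      by_cases a3 : vote l c0 (cst u2) = p1 <;>
      simp only [a1, a2, a3, and_self, and_true, and_false, if_true, if_false,
        decide_true, decide_false, cond_true, cond_false, mul_zero, zero_mul]
    ring
  · rw [k2_fac (fun lo => lo.getD u1.1.1 = l) (fun c => c = c0)
      (none = b ∧ leftOf l d.2.1 (d.2.2.or p1) (cst u1) = p3 ∧
        nxOf l d.2.1 (cst u2) = (p2, p1)) _ fun lo c => by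
        rw [k2_cfgM]
        simp only [k2_par, eOut, Cfg.b, Prod.mk.injEq, true_and, cst]
        tauto, k2_lo, Finset.sum_ite_eq', if_pos (mem_univ _)]
    simp only [k2_cnd, k2_pw, k2_wt, k2_par, ch, Cfg.b]
    by_cases a1 : none = b <;>
      by_cases a2 : leftOf l d.2.1 (d.2.2.or p1) (cst u1) = p3 <;>
      by_cases a3 : nxOf l d.2.1 (cst u2) = (p2, p1) <;>
      simp only [a1, a2, a3, and_self, and_true, and_false, if_true, if_false,
        decide_true, decide_false, cond_true, cond_false, mul_zero, zero_mul]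
    ring

theorem k2_p1 (lo : Option (Fin 4)) (c : Bool) (t : Fin 4 × Bool) :
    p1 (lo, c, t) = (k2_n lo : ℝ) / 8192 := by
  cases lo <;> simp only [p1, k2_n, reduceCtorEq, if_true, if_false] <;> norm_num

theorem k2_lsum (δ : Dir) (o : Bool) (d : Dn) (u u1 u2 : Up)
    (p : Option (Fin 4) × Bool × Option (Fin 4)) (Ψ : Fin 3 → ℝ) :
    ∑ l : L1, p1 l * (if cfg δ l o d (cst u1) (cst u2) = k2_par δ d u p ∧
        (eOut δ (k2_par δ d u p) l.2.1, (k2_par δ d u p).x l) = u then
        Ψ ((k2_par δ d u p).ph l) else 0) =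
      ((cond (k2_cnd δ d u p) (k2_pw δ d u) 0 * (k2_tc (k2_par δ d u p) u.2 / 3) : ℕ) : ℝ) /
        2 ^ 30 * ((k2_wt (ch δ false) (k2_par δ d u p) u1 : ℝ) *
          ((k2_wt (ch δ true) (k2_par δ d u p) u2 : ℝ) *
            Ψ (Fin.ofNat 3 (k2_tc (k2_par δ d u p) u.2)))) := by
  have h1 := congrArg (Nat.cast : ℕ → ℝ) (k2_K δ o d u u1 u2 p)
  have h2 := k2_cnt (k2_par δ d u p) u.2 Ψ
  generalize k2_par δ d u p = k at *
  have h3 : ∑ l : L1, p1 l * (if cfg δ l o d (cst u1) (cst u2) = k ∧
        (eOut δ k l.2.1, k.x l) = u then Ψ (k.ph l) else 0) =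
      ((∑ lo, ∑ c, (if cfg δ (lo, c, 0, false) o d (cst u1) (cst u2) = k ∧ eOut δ k c = u.1 then
        k2_n lo else 0) : ℕ) : ℝ) / 8192 *
      ∑ t : Fin 4 × Bool, (if k.x (none, false, t) = u.2 then Ψ (k.ph (none, false, t)) else 0) := by
    rw [Fintype.sum_prod_type, Nat.cast_sum, Finset.sum_div, Finset.sum_mul]
    refine Finset.sum_congr rfl fun lo _ => ?_
    rw [Fintype.sum_prod_type, Nat.cast_sum, Finset.sum_div, Finset.sum_mul]
    refine Finset.sum_congr rfl fun c _ => ?_
    rw [Finset.mul_sum]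
    refine Finset.sum_congr rfl fun t _ => ?_
    have e1 : cfg δ (lo, c, t) o d (cst u1) (cst u2) =
        cfg δ (lo, c, 0, false) o d (cst u1) (cst u2) := by cases δ <;> rfl
    have e2 : (eOut δ k c, k.x (none, false, t)) = u ↔
        eOut δ k c = u.1 ∧ k.x (none, false, t) = u.2 := Prod.ext_iff
    rw [k2_p1, e1]
    change _ * (if _ ∧ (eOut δ k c, k.x (none, false, t)) = u then
      Ψ (k.ph (none, false, t)) else 0) = _
    simp only [e2]
    by_cases a1 : cfg δ (lo, c, 0, false) o d (cst u1) (cst u2) = k <;>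
      by_cases a2 : eOut δ k c = u.1 <;> by_cases a3 : k.x (none, false, t) = u.2 <;>
      simp only [a1, a2, a3, and_self, and_true, and_false, if_true, if_false, mul_zero,
        Nat.cast_zero, zero_div, zero_mul]
  rw [h3, h2]
  rw [Nat.cast_mul, Nat.cast_mul, Nat.cast_mul, Nat.cast_ofNat] at h1
  rw [Nat.cast_mul, eq_div_of_mul_eq (by norm_num) ((mul_comm _ _).trans h1)]
  ring

def k2_ip : Dir → Cfg → Option (Fin 4) × Bool × Option (Fin 4)
  | .R, k => (k.a, k.hard, k.left)
  | .L, k => (k.a, k.hard, k.nx)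
  | .M, k => (k.nx, k.hard, k.left)

theorem k2_ins (δ : Dir) (l : L1) (o : Bool) (d : Dn) (m1 m2 : M1) (u : Up)
    (Φ : Cfg → Fin 4 → ℝ) :
    (if (out1 δ l o m1 m2).up d = u then Φ (cfg δ l o d m1 m2) ((cfg δ l o d m1 m2).x l) else 0) =
      ∑ p, if cfg δ l o d m1 m2 = k2_par δ d u p ∧
        (eOut δ (k2_par δ d u p) l.2.1, (k2_par δ d u p).x l) = u then
        Φ (k2_par δ d u p) u.2 else 0 := by
  have h0 : (out1 δ l o m1 m2).up d =
      (eOut δ (cfg δ l o d m1 m2) l.2.1, (cfg δ l o d m1 m2).x l) := by cases δ <;> rfl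
  rw [h0]
  by_cases h : (eOut δ (cfg δ l o d m1 m2) l.2.1, (cfg δ l o d m1 m2).x l) = u
  · have h1 : k2_par δ d u (k2_ip δ (cfg δ l o d m1 m2)) = cfg δ l o d m1 m2 := by
      rw [← h]
      cases δ <;> rfl
    rw [if_pos h, Finset.sum_eq_single (k2_ip δ (cfg δ l o d m1 m2)) (fun p _ hp => if_neg fun hh =>
      hp (by rw [hh.1]; cases δ <;> rfl)) (fun hh => absurd (mem_univ _) hh), h1,
      if_pos ⟨rfl, h⟩, ← congrArg Prod.snd h]
  · rw [if_neg h]
    exact (Finset.sum_eq_zero fun p _ => if_neg fun hh => h (by rw [hh.1]; exact hh.2)).symm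

theorem k2_H (a b : Fin 118) (B : Fin 100 → Bool → Fin 100 → Bool → ℝ) :
    k2_Mx a (fun s e => k2_Mx b (B s e)) = ∑ x1, ∑ x2, (if sys.xm x1 = a ∧ sys.xm x2 = b then
      sys.xw x1 * sys.xw x2 * B (sys.xs x1) (sys.xe x1) (sys.xs x2) (sys.xe x2) else 0) := by
  unfold k2_Mx
  refine Finset.sum_congr rfl fun x1 _ => ?_
  by_cases h1 : sys.xm x1 = a
  · rw [if_pos h1, Finset.mul_sum]
    refine Finset.sum_congr rfl fun x2 _ => ?_
    by_cases h2 : sys.xm x2 = b
    · rw [if_pos h2, if_pos ⟨h1, h2⟩, mul_assoc]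
    · rw [if_neg h2, if_neg fun h => h2 h.2, mul_zero]
  · rw [if_neg h1]
    exact (Finset.sum_eq_zero fun x2 _ => if_neg fun h => h1 h.1).symm

theorem k2_Mx_smul (a : Fin 118) (c : ℝ) (f : Fin 100 → Bool → ℝ) :
    k2_Mx a (fun s e => c * f s e) = c * k2_Mx a f := by
  unfold k2_Mx
  rw [Finset.mul_sum]
  refine Finset.sum_congr rfl fun x _ => ?_
  split_ifs <;> ring

theorem k2_id (δ : Dir) (o : Bool) (d : Dn) (u : Up)
    (B : Fin 100 → Bool → Fin 100 → Bool → Fin 3 → ℝ) :
    ∑ l : L1, p1 l * ∑ u1 : Up, ∑ u2 : Up,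
      (if (out1 δ l o (cst u1) (cst u2)).up d = u then
        gm0 (ch δ false).rev (dnC δ l o d (cst u1) (cst u2) false) u1 *
        gm0 (ch δ true).rev (dnC δ l o d (cst u1) (cst u2) true) u2 *
        B (ab0 (ch δ false).rev (dnC δ l o d (cst u1) (cst u2) false) u1)
          (epC δ l o d (cst u1) (cst u2) false)
          (ab0 (ch δ true).rev (dnC δ l o d (cst u1) (cst u2) true) u2)
          (epC δ l o d (cst u1) (cst u2) true) ((cfg δ l o d (cst u1) (cst u2)).ph l)
      else 0) =
    gm0 δ d u * ∑ y, if sys.ys y = ab0 δ d u then sys.yw y *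
      ∑ x1, ∑ x2, (if sys.xm x1 = sys.ya y ∧ sys.xm x2 = sys.yb y then
        sys.xw x1 * sys.xw x2 * B (sys.xs x1) (sys.xe x1) (sys.xs x2) (sys.xe x2) (sys.yi y)
        else 0) else 0 := by
  obtain ⟨T, hT⟩ : ∃ T : Up → Up → Cfg → Fin 4 → Fin 3 → ℝ, T = fun u1 u2 k x i =>
      gm0 (ch δ false).rev (dnTo (ch δ false) k x (cst u1)) u1 *
        gm0 (ch δ true).rev (dnTo (ch δ true) k x (cst u2)) u2 *
        B (ab0 (ch δ false).rev (dnTo (ch δ false) k x (cst u1)) u1)
          (epsTo (ch δ false) k x (cst u1))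
          (ab0 (ch δ true).rev (dnTo (ch δ true) k x (cst u2)) u2)
          (epsTo (ch δ true) k x (cst u2)) i := ⟨_, rfl⟩
  have hs := k2_snd δ d u fun a b i => k2_Mx a fun s e => k2_Mx b fun s' e' => B s e s' e' i
  refine Eq.trans ?_ ((eq_div_of_mul_eq (by norm_num) ((mul_comm _ _).trans hs.symm)).symm.trans
    (by simp only [k2_H]))
  calc _ = ∑ l : L1, ∑ u1 : Up, ∑ u2 : Up, ∑ p, p1 l *
        (if cfg δ l o d (cst u1) (cst u2) = k2_par δ d u p ∧
          (eOut δ (k2_par δ d u p) l.2.1, (k2_par δ d u p).x l) = u then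
          T u1 u2 (k2_par δ d u p) u.2 ((k2_par δ d u p).ph l) else 0) := by
        refine Finset.sum_congr rfl fun l _ => ?_
        rw [Finset.mul_sum]
        refine Finset.sum_congr rfl fun u1 _ => ?_
        rw [Finset.mul_sum]
        refine Finset.sum_congr rfl fun u2 _ => ?_
        rw [← Finset.mul_sum,
          ← k2_ins δ l o d (cst u1) (cst u2) u fun k x => T u1 u2 k x (k.ph l), hT]
        rfl
    _ = ∑ p, ∑ u1 : Up, ∑ u2 : Up, ∑ l : L1, p1 l *
        (if cfg δ l o d (cst u1) (cst u2) = k2_par δ d u p ∧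
          (eOut δ (k2_par δ d u p) l.2.1, (k2_par δ d u p).x l) = u then
          T u1 u2 (k2_par δ d u p) u.2 ((k2_par δ d u p).ph l) else 0) := by
        rw [Finset.sum_comm]
        refine Eq.trans (Finset.sum_congr rfl fun u1 _ => ?_) Finset.sum_comm
        rw [Finset.sum_comm]
        exact Eq.trans (Finset.sum_congr rfl fun u2 _ => Finset.sum_comm) Finset.sum_comm
    _ = _ := by
        rw [Finset.mul_sum, Finset.sum_div]
        refine Finset.sum_congr rfl fun p _ => ?_
        simp only [k2_lsum δ o d u _ _ p (T _ _ (k2_par δ d u p) u.2), ← Finset.mul_sum]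
        generalize k2_par δ d u p = k
        have h1 : ∑ u1 : Up, (k2_wt (ch δ false) k u1 : ℝ) * ∑ u2 : Up,
            (k2_wt (ch δ true) k u2 : ℝ) * T u1 u2 k u.2 (Fin.ofNat 3 (k2_tc k u.2)) =
            k2_Rc (ch δ false) k u.2 fun s e => k2_Rc (ch δ true) k u.2 fun s' e' =>
              B s e s' e' (Fin.ofNat 3 (k2_tc k u.2)) := by
          unfold k2_Rc
          refine Finset.sum_congr rfl fun u1 _ => congrArg _ ?_
          rw [Finset.mul_sum, hT]
          exact Finset.sum_congr rfl fun u2 _ => by ring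
        rw [h1]
        unfold k2_sW
        rcases k2_cnt_ok k u.2 with h | h
        · rw [h]
          cases k2_cnd δ d u p <;> simp only [cond_false, mul_zero, CharP.cast_eq_zero, zero_div, Fin.ofNat_eq_cast, zero_mul, Bool.cond_self, cond_true]
        · simp only [k2_rec_eq _ _ _ h, k2_Mx_smul]
          cases k2_cnd δ d u p
          · simp only [cond_false, zero_mul, CharP.cast_eq_zero, zero_div, Fin.ofNat_eq_cast, mul_zero]
          · simp only [cond_true, Nat.cast_mul]
            ring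

end

end Pool.Agent.MP_7c51ae_co

/-!
Lumping.
-/

set_option autoImplicit false

namespace Pool.Agent.MP_7c51ae_co

open Finset Pool.Agent.MP_d802e4_co

noncomputable section

section

def k2a_sum (n : ℕ) (f : ℕ → ℕ) : ℕ := Nat.rec 0 (fun i acc => Nat.add (f i) acc) n

def k2a_all (n : ℕ) (f : ℕ → Bool) : Bool := Nat.rec true (fun i acc => and (f i) acc) n

def k2a_f (n : ℕ) (g : ℕ → ℕ) : ℕ :=
  Nat.rec (Nat.add 0 (g 0)) (fun k _ => Nat.add 0 (g (Nat.succ k))) n

def k2a_ls {α : Type} (l : List α) (p : α → Bool) (F : α → ℕ) : ℕ :=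
  List.rec 0 (fun a _ acc => cond (p a) (Nat.add (F a) acc) acc) l

def k2a_pk (b : ℕ) (l : List ℕ) : ℕ := List.rec 0 (fun v _ acc => Nat.add v (Nat.shiftLeft acc b)) l

def k2a_dg (T b i : ℕ) : ℕ := Nat.mod (Nat.shiftRight T (Nat.mul b i)) (Nat.pow 2 b)

def k2a_TR : ℕ := k2a_pk 608 (tabR.map (k2a_pk 19))
def k2a_TL : ℕ := k2a_pk 3040 (tabL.map (k2a_pk 19))
def k2a_TM : ℕ := k2a_pk 608 (tabM.map (k2a_pk 19))

def k2a_eR (row r o x : ℕ) : ℕ :=
  cond (Nat.beq o 0) (k2a_dg (k2a_dg k2a_TR 608 row) 19 (Nat.add (Nat.mul 4 r) x)) 0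
def k2a_eL (row r o x : ℕ) : ℕ :=
  k2a_dg (k2a_dg k2a_TL 3040 row) 19 (Nat.add (Nat.mul 4 (Nat.add (Nat.mul 5 r) o)) x)
def k2a_eM (row r o x : ℕ) : ℕ :=
  cond (Nat.beq o 0) (k2a_dg (k2a_dg k2a_TM 608 row) 19 (Nat.add (Nat.mul 4 r) x)) 0

def k2a_sU (f : ℕ → ℕ → ℕ → ℕ) : ℕ := k2a_sum 8 fun r => k2a_sum 5 fun o => k2a_sum 4 fun x => f r o x


def k2a_v (e : ℕ) : ℕ := cond (Nat.beq (Nat.mod e 4096) 0) 0
  (Nat.mul (Nat.mod e 4096) (k2a_f (Nat.mod (Nat.div e 4096) 100) fun s => k1n.getD s 0))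

def k2a_ok (n : ℕ) (bs : ℕ → ℕ) (e : ℕ → ℕ → ℕ → ℕ → ℕ) : Bool := k2a_all n fun row =>
  and (Nat.beq (k2a_sU fun r o x => k2a_v (e row r o x)) (Nat.mul 2048 k1D))
    (k2a_all 8 fun r => k2a_all 5 fun o => and
      (Nat.beq (k2a_sum 4 fun x => k2a_v (e row r o x))
        (k2a_f (bs row) fun row' => k2a_sum 4 fun x => k2a_v (e row' r o x)))
      (k2a_all 4 fun x => Nat.ble (Nat.mod (e row r o x) 4096) 2048))

theorem k2a_cT : (k2a_ok 9 (fun _ => 0) k2a_eR &&
    k2a_ok 20 (fun i => Nat.mul 5 (Nat.div i 5)) k2a_eL && k2a_ok 10 (fun _ => 0) k2a_eM) = true := by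
  decide +kernel

theorem k2a_sum_eq (n : ℕ) (f : ℕ → ℕ) : k2a_sum n f = ∑ i ∈ range n, f i := by
  induction n with
  | zero => rfl
  | succ n ih =>
    rw [sum_range_succ, ← ih]
    exact Nat.add_comm _ _

theorem k2a_sp {n : ℕ} {f : ℕ → Bool} (h : k2a_all n f = true) (i : ℕ) (hi : i < n) :
    f i = true := by
  induction n with
  | zero => omega
  | succ n ih =>
    have h' : (f n && k2a_all n f) = true := h
    rw [Bool.and_eq_true] at h'
    rcases Nat.lt_succ_iff_lt_or_eq.1 hi with h1 | h1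
    · exact ih h'.2 h1
    · rw [h1]; exact h'.1

theorem k2a_f_eq (n : ℕ) (g : ℕ → ℕ) : k2a_f n g = g n := by
  cases n <;> exact Nat.zero_add _

theorem k2a_get (b : ℕ) (l : List ℕ) (h : ∀ v ∈ l, v < 2 ^ b) (j : ℕ) :
    k2a_dg (k2a_pk b l) b j = l.getD j 0 := by
  induction l generalizing j with
  | nil =>
    show (0 >>> (b * j)) % 2 ^ b = _
    simp
  | cons v l ih =>
    have e : k2a_pk b (v :: l) = v + 2 ^ b * k2a_pk b l := by
      show v + (k2a_pk b l) <<< b = _
      rw [Nat.shiftLeft_eq, mul_comm]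
    have hv : v < 2 ^ b := h v List.mem_cons_self
    cases j with
    | zero =>
      show (k2a_pk b (v :: l) >>> (b * 0)) % 2 ^ b = v
      rw [e, mul_zero, Nat.shiftRight_zero, Nat.add_mul_mod_self_left, Nat.mod_eq_of_lt hv]
    | succ j =>
      rw [List.getD_cons_succ, ← ih (fun w hw => h w (List.mem_cons_of_mem _ hw)) j]
      show (k2a_pk b (v :: l) >>> (b * (j + 1))) % 2 ^ b = (k2a_pk b l >>> (b * j)) % 2 ^ b
      rw [e, mul_add, mul_one, add_comm (b * j), Nat.shiftRight_add, Nat.shiftRight_eq_div_pow _ b,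
        Nat.add_mul_div_left _ _ (Nat.two_pow_pos b), Nat.div_eq_of_lt hv, zero_add]

theorem k2a_get2 (b : ℕ) (T : List (List ℕ))
    (h : (T.all fun l => Nat.blt (k2a_pk 19 l) (Nat.pow 2 b) &&
      l.all fun v => Nat.blt v 524288) = true) (i j : ℕ) :
    k2a_dg (k2a_dg (k2a_pk b (T.map (k2a_pk 19))) b i) 19 j = (T.getD i []).getD j 0 := by
  simp only [List.all_eq_true, Bool.and_eq_true, Nat.blt_eq] at h
  rw [k2a_get b _ (fun v hv => by
    obtain ⟨l, hl, rfl⟩ := List.mem_map.1 hv
    exact (h l hl).1)]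
  have e : (T.map (k2a_pk 19)).getD i 0 = k2a_pk 19 (T.getD i []) := List.getD_map T [] (k2a_pk 19)
  rw [e]
  refine k2a_get 19 _ (fun v hv => ?_) j
  rcases lt_or_ge i T.length with c | c
  · rw [List.getD_eq_getElem _ _ c] at hv
    exact (h _ (List.getElem_mem c)).2 v hv
  · rw [List.getD_eq_default _ _ c] at hv
    cases hv

def k2a_row : Dir → Dn → ℕ
  | .R, d => if d.2.2 = none then 0 else 4 * d.2.1.toNat + oc d.2.2
  | .L, d => 5 * d.1.val + oc d.2.2
  | .M, d => 5 * d.2.1.toNat + oc d.2.2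

def k2a_e : Dir → ℕ → ℕ → ℕ → ℕ → ℕ
  | .R => k2a_eR
  | .L => k2a_eL
  | .M => k2a_eM

theorem k2a_ent (δ : Dir) (d : Dn) (u : Up) :
    ent δ d u = k2a_e δ (k2a_row δ d) (rk u.1.1 u.1.2.1) (oc u.1.2.2) u.2.val := by
  obtain ⟨⟨l, c, o⟩, x⟩ := u
  cases δ
  · exact (k2a_get2 3040 tabL (by decide +kernel) _ _).symm
  · cases o with
    | none => exact (k2a_get2 608 tabR (by decide +kernel) _ _).symm
    | some a => rfl
  · cases o with
    | none => exact (k2a_get2 608 tabM (by decide +kernel) _ _).symm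
    | some a => rfl

theorem k2a_s4 (f : ℕ → ℕ) : ∑ x : Fin 4, f x.val = k2a_sum 4 f := by
  rw [k2a_sum_eq, Fin.sum_univ_eq_sum_range]

theorem k2a_s2 (f : ℕ → ℕ) : ∑ x : Bool, f x.toNat = k2a_sum 2 f := by
  rw [Fintype.sum_bool]
  exact (Nat.add_assoc _ _ 0).symm

theorem k2a_s5 (f : ℕ → ℕ) : ∑ x : Option (Fin 4), f (oc x) = k2a_sum 5 f := by
  rw [k2a_sum_eq, Fintype.sum_option, sum_range_succ', add_comm]
  exact congrArg (· + f 0) (Fin.sum_univ_eq_sum_range (fun i => f (i + 1)) 4)

theorem k2a_s8 (f : ℕ → ℕ) : ∑ l : Fin 4, ∑ d : Bool, f (rk l d) = k2a_sum 8 f := by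
  simp only [k2a_sum_eq, Fin.sum_univ_four, Fintype.sum_bool, sum_range_succ, sum_range_zero]
  show f 1 + f 0 + (f 3 + f 2) + (f 5 + f 4) + (f 7 + f 6) = _
  omega

theorem k2a_sU_eq (f : ℕ → ℕ → ℕ → ℕ) :
    ∑ u : Up, f (rk u.1.1 u.1.2.1) (oc u.1.2.2) u.2.val = k2a_sU f := by
  unfold k2a_sU
  simp only [Fintype.sum_prod_type, ← k2a_s8, ← k2a_s5, ← k2a_s4]

theorem k2a_rk (l : Fin 4) (d : Bool) : rk l d < 8 := by
  revert l d
  decide

theorem k2a_oc (o : Option (Fin 4)) : oc o < 5 := by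
  revert o
  decide

theorem k2a_val (δ : Dir) (d : Dn) (u : Up) :
    gm0 δ d u * mass0 (ab0 δ d u) = (k2a_v (ent δ d u) : ℝ) / (2048 * k1D) := by
  have e : k2a_v (ent δ d u) = ent δ d u % 4096 * k1n.getD (ab0 δ d u).val 0 := by
    unfold k2a_v
    rw [k2a_f_eq]
    cases h : Nat.beq (Nat.mod (ent δ d u) 4096) 0
    · rfl
    · have h2 : ent δ d u % 4096 = 0 := Nat.eq_of_beq_eq_true h
      rw [h2, zero_mul]
      rfl
  rw [e, k1_mass, gm0, div_mul_div_comm, Nat.cast_mul]

theorem k2a_fact (δ : Dir) (d : Dn) :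
    (k2a_sU fun r o x => k2a_v (k2a_e δ (k2a_row δ d) r o x)) = 2048 * k1D ∧
    ∀ r < 8, ∀ o < 5, (k2a_sum 4 fun x => k2a_v (k2a_e δ (k2a_row δ d) r o x)) =
      (k2a_sum 4 fun x => k2a_v (k2a_e δ (k2a_row δ (d.1, false, none)) r o x)) ∧
      ∀ x < 4, k2a_e δ (k2a_row δ d) r o x % 4096 ≤ 2048 := by
  have H : ∀ (n : ℕ) (bs : ℕ → ℕ), k2a_ok n bs (k2a_e δ) = true → k2a_row δ d < n →
      bs (k2a_row δ d) = k2a_row δ (d.1, false, none) →
      (k2a_sU fun r o x => k2a_v (k2a_e δ (k2a_row δ d) r o x)) = 2048 * k1D ∧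
      ∀ r < 8, ∀ o < 5, (k2a_sum 4 fun x => k2a_v (k2a_e δ (k2a_row δ d) r o x)) =
        (k2a_sum 4 fun x => k2a_v (k2a_e δ (k2a_row δ (d.1, false, none)) r o x)) ∧
        ∀ x < 4, k2a_e δ (k2a_row δ d) r o x % 4096 ≤ 2048 := by
    intro n bs h hn hb
    have h1 := k2a_sp h _ hn
    rw [Bool.and_eq_true] at h1
    refine ⟨Nat.eq_of_beq_eq_true h1.1, fun r hr o ho => ?_⟩
    have h2 := k2a_sp (k2a_sp h1.2 r hr) o ho
    rw [Bool.and_eq_true, k2a_f_eq, hb] at h2
    exact ⟨Nat.eq_of_beq_eq_true h2.1, fun x hx => Nat.le_of_ble_eq_true (k2a_sp h2.2 x hx)⟩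
  have h := k2a_cT
  rw [Bool.and_eq_true, Bool.and_eq_true] at h
  have hR : ∀ d : Dn, k2a_row .R d < 9 := by decide +kernel
  have hL : ∀ d : Dn, k2a_row .L d < 20 := by decide +kernel
  have hM : ∀ d : Dn, k2a_row .M d < 10 := by decide +kernel
  have hB : ∀ d : Dn, Nat.mul 5 (Nat.div (k2a_row .L d) 5) = k2a_row .L (d.1, false, none) := by
    decide +kernel
  cases δ
  · exact H 20 _ h.1.2 (hL d) (hB d)
  · exact H 9 _ h.1.1 (hR d) rfl
  · exact H 10 _ h.2 (hM d) rfl

theorem k2a_g0 (δ : Dir) (d : Dn) (u : Up) : 0 ≤ gm0 δ d u :=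
  div_nonneg (Nat.cast_nonneg _) (by norm_num)

theorem k2a_g1 (δ : Dir) (d : Dn) (u : Up) : gm0 δ d u ≤ 1 := by
  have h := ((k2a_fact δ d).2 _ (k2a_rk u.1.1 u.1.2.1) _ (k2a_oc u.1.2.2)).2 _ u.2.isLt
  rw [← k2a_ent] at h
  rw [gm0, div_le_one (by norm_num)]
  exact_mod_cast h

theorem k2a_gmin (δ : Dir) (d : Dn) (u : Up) (h : gm0 δ d u ≠ 0) : 1 / 2048 ≤ gm0 δ d u := by
  unfold gm0 at h ⊢
  have h1 : ent δ d u % 4096 ≠ 0 := fun c => h (by rw [c, Nat.cast_zero, zero_div])
  exact div_le_div_of_nonneg_right (by exact_mod_cast Nat.one_le_iff_ne_zero.2 h1) (by norm_num)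

theorem k2a_tot (δ : Dir) (d : Dn) : ∑ u, gm0 δ d u * mass0 (ab0 δ d u) = 1 := by
  have hD := k1_D
  simp only [k2a_val, k2a_ent]
  rw [← sum_div, ← Nat.cast_sum,
    k2a_sU_eq fun r o x => k2a_v (k2a_e δ (k2a_row δ d) r o x), (k2a_fact δ d).1]
  push_cast
  field_simp

theorem k2a_early (δ : Dir) (d d' : Dn) (e : Dn) (h : d.1 = d'.1) :
    ∑ x, gm0 δ d (e, x) * mass0 (ab0 δ d (e, x)) =
      ∑ x, gm0 δ d' (e, x) * mass0 (ab0 δ d' (e, x)) := by
  simp only [k2a_val, k2a_ent]
  rw [← sum_div, ← sum_div, ← Nat.cast_sum, ← Nat.cast_sum,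
    k2a_s4 fun x => k2a_v (k2a_e δ (k2a_row δ d) (rk e.1 e.2.1) (oc e.2.2) x),
    k2a_s4 fun x => k2a_v (k2a_e δ (k2a_row δ d') (rk e.1 e.2.1) (oc e.2.2) x),
    ((k2a_fact δ d).2 _ (k2a_rk _ _) _ (k2a_oc _)).1,
    ((k2a_fact δ d').2 _ (k2a_rk _ _) _ (k2a_oc _)).1, h]

theorem lump : Lump sys mass0 ab0 gm0 :=
  ⟨k2a_g0, k2a_g1, k2a_gmin, k2a_tot, k2a_early, k2_id⟩


end

end

end Pool.Agent.MP_7c51ae_co
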