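import Pool.Agent.MP_7c51ae_co.Base
import Pool.Agent.MP_7c51ae_co.Defs

attribute [-instance] AddQuantale.instAddLeftMono RKHS.instFunLike AddQuantale.instAddRightMono
  IdemSemiring.toCanonicallyOrderedAdd NumberField.to_charZero
  Group.IsPerfect.subsingleton_of_isMulCommutative Quantale.instMulRightMono
  LinearOrderedCommMonoidWithZero.toPosMulStrictMono MonTypeEquivalenceMon.monMonoid
  SemigroupWithZero.toSemigroup Nontrivial.to_nonempty LinearOrder.toDecidableEq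
  Finset.decidableDforallFinset Int.instLawfulBEq Multiset.decidableDforallMultiset
  TestFunctionClass.toDFunLike instCoeTOfCoeDep Vector.instDecidableForallForallMemOfDecidablePred
  GrpTypeEquivalenceGrp.grpGroup Array.instDecidableForallForallMemOfDecidablePred
  ContDiffMapSupportedInClass.toDFunLike Option.decidableForallMem
  CategoryTheory.Limits.Concrete.instUniqueToTypeTerminal littleWedderburn
  covariant_swap_mul_of_covariant_mul ConditionallyCompleteLattice.toLattice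
  LieAdmissibleRing.toNonUnitalNonAssocRing Fintype.decidableEqEquivFintype instCoeTCOfCoe
  NeZero.of_gt' Std.PreorderPackage.toBEq CommRing.toRing Int.decidableLTLE Zero.instNonempty

/-!
A graph of maximum degree three without a cut of one edge has a matching that covers all
vertices of degree three.
-/

set_option autoImplicit false

namespace Pool.Agent.MP_7c51ae_co

open Finset

variable {V : Type} [Fintype V]

open Classical in
/-- the neighbours -/
noncomputable def nbr (H : SimpleGraph V) (v : V) : Finset V := univ.filter (H.Adj v)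

@[simp] lemma mem_nbr {H : SimpleGraph V} {v w : V} : w ∈ nbr H v ↔ H.Adj v w := by
  simp only [nbr, mem_filter, mem_univ, true_and]

open Classical in
/-- the edges that leave `C` -/
noncomputable def cutp (H : SimpleGraph V) (C : Finset V) : Finset (V × V) :=
  univ.filter fun p => p.1 ∈ C ∧ p.2 ∉ C ∧ H.Adj p.1 p.2

@[simp] lemma mem_cutp {H : SimpleGraph V} {C : Finset V} {p : V × V} :
    p ∈ cutp H C ↔ p.1 ∈ C ∧ p.2 ∉ C ∧ H.Adj p.1 p.2 := by
  simp only [cutp, mem_filter, mem_univ, true_and]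

lemma card_pairs [DecidableEq V] (H : SimpleGraph V) [DecidableRel H.Adj] (C : Finset V) :
    (univ.filter fun p : V × V => p.1 ∈ C ∧ H.Adj p.1 p.2).card = ∑ v ∈ C, (nbr H v).card := by
  rw [card_eq_sum_card_fiberwise (f := Prod.fst) (t := C) (by
    intro p hp
    simp only [coe_filter, mem_univ, true_and, Set.mem_ofPred_eq] at hp
    exact hp.1)]
  refine sum_congr rfl fun v hv => ?_
  refine card_bij (fun p _ => p.2) ?_ ?_ ?_
  · intro p hp
    simp only [mem_filter, mem_univ, true_and] at hp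
    rw [mem_nbr, ← hp.2]
    exact hp.1.2
  · intro p hp q hq h
    simp only [mem_filter, mem_univ, true_and] at hp hq
    exact Prod.ext (hp.2.trans hq.2.symm) h
  · intro w hw
    exact ⟨(v, w), by simpa only [mem_filter, mem_univ, hv, true_and, and_true, mem_nbr] using hw, rfl⟩

lemma odd_cutp (H : SimpleGraph V) (C : Finset V) (h3 : ∀ v ∈ C, (nbr H v).card = 3)
    (ho : Odd C.card) : Odd (cutp H C).card := by
  classical
  have h1 := card_pairs H C
  rw [sum_congr rfl h3, sum_const, smul_eq_mul] at h1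
  set I := univ.filter fun p : V × V => p.1 ∈ C ∧ p.2 ∈ C ∧ H.Adj p.1 p.2 with hI
  have h2 : (univ.filter fun p : V × V => p.1 ∈ C ∧ H.Adj p.1 p.2) = I ∪ cutp H C := by
    ext p
    simp only [hI, mem_filter, mem_univ, true_and, mem_union, mem_cutp]
    tauto
  have h4 : Disjoint I (cutp H C) := by
    rw [disjoint_left]
    intro p hp hq
    simp only [hI, mem_filter, mem_univ, true_and, mem_cutp] at hp hq
    exact hq.2.1 hp.2.1
  have h5 : ∑ _p ∈ I, (1 : ZMod 2) = 0 := by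
    refine sum_involution (fun p _ => p.swap) (fun _ _ => rfl) ?_ ?_ (fun _ _ => rfl)
    · intro p hp _ h
      simp only [hI, mem_filter, mem_univ, true_and] at hp
      exact hp.2.2.ne (congrArg Prod.snd h)
    · intro p hp
      simp only [hI, mem_filter, mem_univ, true_and] at hp ⊢
      exact ⟨hp.2.1, hp.1, hp.2.2.symm⟩
  rw [sum_const, nsmul_eq_mul, mul_one, ZMod.natCast_eq_zero_iff_even] at h5
  rw [h2, card_union_of_disjoint h4] at h1
  obtain ⟨a, ha⟩ := h5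
  obtain ⟨b, hb⟩ := ho
  exact ⟨3 * b + 1 - a, by omega⟩

/-- the graph with a clique joined to the vertices of smaller degree -/
def aug (H : SimpleGraph V) : SimpleGraph (V ⊕ V) where
  Adj
    | .inl a, .inl b => H.Adj a b
    | .inl a, .inr _ => (nbr H a).card ≠ 3
    | .inr _, .inl b => (nbr H b).card ≠ 3
    | .inr a, .inr b => a ≠ b
  symm := ⟨by
    rintro (a | a) (b | b) h
    · exact H.adj_symm h
    · exact h
    · exact h
    · exact Ne.symm h⟩
  loopless := ⟨by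
    rintro (a | a) h
    · exact H.ne_of_adj h rfl
    · exact h rfl⟩

lemma aug_tutte (H : SimpleGraph V) (h3 : ∀ v, (nbr H v).card ≤ 3)
    (hcut : ∀ C : Finset V, (cutp H C).card ≠ 1) (u : Set (V ⊕ V)) :
    ¬ (aug H).IsTutteViolator u := by
  classical
  unfold SimpleGraph.IsTutteViolator
  rw [not_lt]
  set G' := ((⊤ : (aug H).Subgraph).deleteVerts u).coe with hG'
  have hadj : ∀ x y, G'.Adj x y ↔ (aug H).Adj x.1 y.1 := by
    intro x y
    simp only [hG', SimpleGraph.Subgraph.coe_adj, SimpleGraph.Subgraph.induce_adj, SimpleGraph.Subgraph.verts_top, Subtype.coe_prop, SimpleGraph.Subgraph.top_adj, true_and]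
  have hmem : ∀ x, x ∉ u → x ∈ ((⊤ : (aug H).Subgraph).deleteVerts u).verts := by
    intro x hx
    simp [hx]
  have hmem' : ∀ x : ((⊤ : (aug H).Subgraph).deleteVerts u).verts, x.1 ∉ u := by
    intro x
    exact x.2.2
  let uL : Finset V := univ.filter fun b => Sum.inl b ∈ u
  let uR : Finset V := univ.filter fun b => Sum.inr b ∈ u
  have hu : u.ncard = uL.card + uR.card := by
    have : u = ↑(uL.disjSum uR) := by
      ext (a | a) <;> simp only [uL, uR, SetLike.mem_coe, inl_mem_disjSum, mem_filter, mem_univ, true_and, inr_mem_disjSum]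
    rw [this, Set.ncard_coe_finset, card_disjSum]
  let pure : G'.ConnectedComponent → Prop := fun c =>
    ∀ x ∈ c.supp, ∃ a, x.1 = Sum.inl a ∧ (nbr H a).card = 3
  let P : Finset G'.ConnectedComponent := univ.filter fun c => Odd c.supp.ncard ∧ pure c
  let N : Finset G'.ConnectedComponent := univ.filter fun c => ¬ pure c
  let C : G'.ConnectedComponent → Finset V := fun c =>
    univ.filter fun a => ∃ x ∈ c.supp, x.1 = Sum.inl a
  have hP : P.card ≤ uL.card := by
    have h1 : ∀ c ∈ P, 3 ≤ (cutp H (C c)).card := by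
      intro c hc
      simp only [P, mem_filter, mem_univ, true_and] at hc
      have hcard : c.supp.ncard = (C c).card := by
        have e : Subtype.val '' c.supp = Sum.inl '' (↑(C c) : Set V) := by
          ext z
          simp only [C, Set.mem_image, coe_filter, mem_univ, true_and, Set.mem_ofPred_eq]
          constructor
          · rintro ⟨x, hx, rfl⟩
            obtain ⟨a, ha, -⟩ := hc.2 x hx
            exact ⟨a, ⟨x, hx, ha⟩, ha.symm⟩
          · rintro ⟨a, ⟨x, hx, ha⟩, rfl⟩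
            exact ⟨x, hx, ha⟩
        rw [← Set.ncard_image_of_injective _ Subtype.val_injective, e,
          Set.ncard_image_of_injective _ Sum.inl_injective, Set.ncard_coe_finset]
      have ho := odd_cutp H (C c) (by
        intro v hv
        simp only [C, mem_filter, mem_univ, true_and] at hv
        obtain ⟨x, hx, hv⟩ := hv
        obtain ⟨a, ha, h⟩ := hc.2 x hx
        rw [hv] at ha
        rw [Sum.inl_injective ha]
        exact h) (hcard ▸ hc.1)
      have := hcut (C c)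
      obtain ⟨k, hk⟩ := ho
      omega
    have h2 : (P.biUnion fun c => cutp H (C c)).card = ∑ c ∈ P, (cutp H (C c)).card := by
      refine card_biUnion fun c _ c' _ hne => ?_
      rw [Function.onFun, disjoint_left]
      intro p hp hq
      simp only [C, mem_cutp, mem_filter, mem_univ, true_and] at hp hq
      obtain ⟨x, hx, hx'⟩ := hp.1
      obtain ⟨y, hy, hy'⟩ := hq.1
      have : x = y := Subtype.ext (hx'.trans hy'.symm)
      subst this
      exact hne ((SimpleGraph.ConnectedComponent.mem_supp_iff _ _).1 hx ▸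
        (SimpleGraph.ConnectedComponent.mem_supp_iff _ _).1 hy ▸ rfl)
    have h4 : (P.biUnion fun c => cutp H (C c)).card ≤
        (univ.filter fun p : V × V => p.1 ∈ uL ∧ H.Adj p.1 p.2).card := by
      refine card_le_card_of_injOn Prod.swap ?_ (Prod.swap_injective.injOn)
      intro p hp
      simp only [coe_biUnion, Set.mem_iUnion, mem_coe, mem_cutp] at hp
      obtain ⟨c, -, h5, h6, h7⟩ := hp
      simp only [uL, coe_filter, mem_filter, mem_univ, true_and, Set.mem_ofPred_eq, Prod.fst_swap,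
        Prod.snd_swap]
      refine ⟨?_, h7.symm⟩
      by_contra hn
      apply h6
      simp only [C, mem_filter, mem_univ, true_and] at h5 ⊢
      obtain ⟨x, hx, hx'⟩ := h5
      refine ⟨⟨Sum.inl p.2, hmem _ hn⟩, ?_, rfl⟩
      refine SimpleGraph.ConnectedComponent.mem_supp_of_adj_mem_supp c hx ((hadj _ _).2 ?_)
      rw [hx']
      exact h7
    rw [card_pairs] at h4
    have h5 : ∑ v ∈ uL, (nbr H v).card ≤ uL.card * 3 := by
      simpa only [smul_eq_mul] using sum_le_card_nsmul uL _ 3 fun v _ => h3 v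
    have h6 : P.card * 3 ≤ ∑ c ∈ P, (cutp H (C c)).card := by
      simpa only [smul_eq_mul] using card_nsmul_le_sum P _ 3 h1
    omega
  have hN : N.card ≤ uR.card + 1 := by
    by_cases hk : ∃ k, Sum.inr k ∉ u
    · obtain ⟨k, hk⟩ := hk
      have : N ⊆ {G'.connectedComponentMk ⟨Sum.inr k, hmem _ hk⟩} := by
        intro c hc
        simp only [N, pure, mem_filter, mem_univ, true_and, not_forall] at hc
        obtain ⟨x, hx, hx'⟩ := hc
        rw [mem_singleton, ← (SimpleGraph.ConnectedComponent.mem_supp_iff _ _).1 hx]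
        obtain ⟨a | a, ha⟩ := x
        · exact SimpleGraph.ConnectedComponent.connectedComponentMk_eq_of_adj
            ((hadj _ _).2 fun h => hx' ⟨a, rfl, h⟩)
        · by_cases hak : a = k
          · subst hak; rfl
          · exact SimpleGraph.ConnectedComponent.connectedComponentMk_eq_of_adj
              ((hadj _ _).2 hak)
      have := card_le_card this
      rw [card_singleton] at this
      omega
    · push Not at hk
      have e : uR = univ := by
        ext a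
        simp only [uR, hk, filter_true, mem_univ]
      have hs : ∀ c : G'.ConnectedComponent, ∃ a, ∃ x ∈ c.supp, x.1 = Sum.inl a := by
        intro c
        obtain ⟨x, hx⟩ := c.nonempty_supp
        obtain ⟨a | a, ha⟩ := x
        · exact ⟨a, _, hx, rfl⟩
        · exact absurd (hk a) (hmem' ⟨_, ha⟩)
      choose f hf using hs
      have hf' : Function.Injective f := by
        intro c c' h
        obtain ⟨x, hx, hx'⟩ := hf c
        obtain ⟨y, hy, hy'⟩ := hf c'
        have : x = y := Subtype.ext (by rw [hx', hy', h])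
        subst this
        rw [← (SimpleGraph.ConnectedComponent.mem_supp_iff _ _).1 hx,
          ← (SimpleGraph.ConnectedComponent.mem_supp_iff _ _).1 hy]
      have := card_le_card_of_injOn (s := N) (t := univ) f (fun _ _ => by simp only [coe_univ, Set.mem_univ]) hf'.injOn
      rw [e]
      omega
  have hO : G'.oddComponents.ncard ≤ P.card + N.card := by
    have : G'.oddComponents ⊆ ↑(P ∪ N) := by
      intro c hc
      simp only [P, N, coe_union, coe_filter, mem_univ, true_and, Set.mem_union, Set.mem_ofPred_eq]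
      by_cases h : pure c
      · exact Or.inl ⟨hc, h⟩
      · exact Or.inr h
    have h1 := Set.ncard_le_ncard this
    rw [Set.ncard_coe_finset] at h1
    exact h1.trans (card_union_le _ _)
  have hpar := SimpleGraph.odd_ncard_oddComponents G'
  have hcard : Nat.card ((⊤ : (aug H).Subgraph).deleteVerts u).verts + u.ncard =
      2 * Fintype.card V := by
    have e : ((⊤ : (aug H).Subgraph).deleteVerts u).verts = uᶜ := by
      ext x
      simp
    rw [e, Nat.card_coe_set_eq, add_comm, Set.ncard_add_ncard_compl]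
    simp only [Nat.card_eq_fintype_card, Fintype.card_sum, two_mul, Nat.add_left_cancel_iff]
  rw [Nat.odd_iff, Nat.odd_iff] at hpar
  omega

theorem exists_matching (H : SimpleGraph V) (h3 : ∀ v, (nbr H v).card ≤ 3)
    (hcut : ∀ C : Finset V, (cutp H C).card ≠ 1) :
    ∃ m : V → V, (∀ v, m (m v) = v) ∧ (∀ v, m v ≠ v → H.Adj v (m v)) ∧
      ∀ v, (nbr H v).card = 3 → m v ≠ v := by
  obtain ⟨M, hM⟩ := SimpleGraph.tutte.2 (aug_tutte H h3 hcut)
  rw [SimpleGraph.Subgraph.isPerfectMatching_iff] at hM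
  choose f hf hf' using hM
  have hff : ∀ x, f (f x) = x := fun x => (hf' (f x) x (hf x).symm).symm
  have hadj : ∀ x, (aug H).Adj x (f x) := fun x => M.adj_sub (hf x)
  refine ⟨fun v => Sum.elim id (fun _ => v) (f (Sum.inl v)), fun v => ?_, fun v => ?_, fun v => ?_⟩
  · rcases h : f (Sum.inl v) with w | w
    · have := hff (Sum.inl v)
      rw [h] at this
      simp [h, this]
    · simp [h]
  · have := hadj (Sum.inl v)
    rcases h : f (Sum.inl v) with w | w
    · rw [h] at this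
      intro _
      simp only [h]
      exact this
    · simp [h]
  · have := hadj (Sum.inl v)
    rcases h : f (Sum.inl v) with w | w
    · rw [h] at this
      intro _
      simp only [h]
      exact (H.ne_of_adj this).symm
    · rw [h] at this
      intro h'
      exact absurd h' this

end Pool.Agent.MP_7c51ae_co

/-!
Graphs of maximum degree three embed into cubic graphs of the same girth; a matching that covers
the vertices of degree three extends to a perfect matching.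
-/

set_option autoImplicit false

namespace Pool.Agent.MP_7c51ae_co

open Finset

/-- reduced words of bounded length -/
def RW (D : Type) (g : ℕ) : Type := {l : List D // l.IsChain (· ≠ ·) ∧ l.length ≤ g}

instance (D : Type) [Finite D] (g : ℕ) : Finite (RW D g) := by
  have h : {l : List D | l.IsChain (· ≠ ·) ∧ l.length ≤ g}.Finite :=
    (List.finite_length_le D g).subset fun l hl => hl.2
  exact h.to_subtype

open Classical in
/-- multiplication by a letter inside the ball -/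
noncomputable def stepW {D : Type} (g : ℕ) (d : D) (l : RW D g) : RW D g :=
  if h : l.1.head? = some d then ⟨l.1.tail, l.2.1.tail, by have := l.2.2; simp only [ne_eq, List.length_tail, tsub_le_iff_right, ge_iff_le]; omega⟩
  else if h' : l.1.length < g then
    ⟨d :: l.1, by
      refine List.IsChain.cons l.2.1 ?_
      intro y hy hdy
      exact h (by rw [hdy]; exact hy), by simp; omega⟩
  else l

lemma stepW_cons {D : Type} {g : ℕ} (d : D) (l : RW D g) (h : l.1.head? ≠ some d)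
    (h' : l.1.length < g) : (stepW g d l).1 = d :: l.1 := by
  rw [stepW, dif_neg h, dif_pos h']

lemma stepW_tail {D : Type} {g : ℕ} (d : D) (l : RW D g) (h : l.1.head? = some d) :
    (stepW g d l).1 = l.1.tail := by
  rw [stepW, dif_pos h]

lemma stepW_inv {D : Type} (g : ℕ) (d : D) : Function.Involutive (stepW g d) := by
  intro l
  apply Subtype.ext
  by_cases h : l.1.head? = some d
  · obtain ⟨l, hc, hl⟩ := l
    cases l with
    | nil => simp at h
    | cons a t =>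
      simp only [List.head?_cons, Option.some.injEq] at h
      subst h
      have e : (stepW g a ⟨a :: t, hc, hl⟩).1 = t := stepW_tail a _ rfl
      rw [stepW_cons a _ ?_ ?_, e]
      · rw [e]
        intro ht
        cases t with
        | nil => simp at ht
        | cons b t' =>
          simp only [List.head?_cons, Option.some.injEq] at ht
          exact (List.isChain_cons_cons.1 hc).1 ht.symm
      · rw [e]; simp at hl; omega
  · by_cases h' : l.1.length < g
    · have e := stepW_cons d l h h'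
      rw [stepW_tail d _ (by rw [e]; rfl), e]; rfl
    · have e : stepW g d l = l := by rw [stepW, dif_neg h, dif_neg h']
      rw [e, e]

/-- the involution of the ball given by a letter -/
noncomputable def sig {D : Type} (g : ℕ) (d : D) : Equiv.Perm (RW D g) := (stepW_inv g d).toPerm

lemma sig_sq {D : Type} (g : ℕ) (d : D) : sig g d * sig g d = 1 := by
  ext l
  exact stepW_inv g d l

lemma prod_nil {D : Type} (g : ℕ) (u : List D) (hc : u.IsChain (· ≠ ·)) (hl : u.length ≤ g) :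
    ((u.map (sig g)).prod ⟨[], List.IsChain.nil, Nat.zero_le _⟩).1 = u := by
  induction u with
  | nil => rfl
  | cons d u ih =>
    have ih' := ih hc.tail (by simp at hl; omega)
    rw [List.map_cons, List.prod_cons, Equiv.Perm.mul_apply]
    change (stepW g d _).1 = _
    rw [stepW_cons d _ ?_ ?_, ih']
    · rw [ih']
      intro ht
      cases u with
      | nil => simp at ht
      | cons b t' =>
        simp only [List.head?_cons, Option.some.injEq] at ht
        exact (List.isChain_cons_cons.1 hc).1 ht.symm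
    · rw [ih']; simp at hl; omega

lemma eq_nil_of_prod {D : Type} (g : ℕ) (u : List D) (hc : u.IsChain (· ≠ ·)) (hl : u.length ≤ g)
    (h : (u.map (sig g)).prod = 1) : u = [] := by
  have := prod_nil g u hc hl
  rw [h] at this
  exact this.symm

variable {V : Type} [Fintype V]

/-- the regularisation of `H` -/
def Hat (H : SimpleGraph V) (g : ℕ) (hg : 2 ≤ g) :
    SimpleGraph (V × Equiv.Perm (RW (V × Fin 3) g)) where
  Adj a b := (H.Adj a.1 b.1 ∧ a.2 = b.2) ∨
    (a.1 = b.1 ∧ ∃ j : Fin 3, j.val < 3 - (nbr H a.1).card ∧ b.2 = sig g (a.1, j) * a.2)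
  symm := ⟨by
    rintro ⟨v, x⟩ ⟨w, y⟩ (⟨h1, h2⟩ | ⟨h1, j, hj, h2⟩)
    · exact Or.inl ⟨h1.symm, h2.symm⟩
    · simp only at h1 h2 hj
      subst h1
      refine Or.inr ⟨rfl, j, hj, ?_⟩
      simp only
      rw [h2, ← mul_assoc, sig_sq, one_mul]⟩
  loopless := ⟨by
    rintro ⟨v, x⟩ (⟨h1, -⟩ | ⟨-, j, -, h2⟩)
    · exact h1.ne rfl
    · simp only at h2
      have h3 : sig g (v, j) = 1 := by
        have := congrArg (· * x⁻¹) h2
        simpa using this.symm
      have := eq_nil_of_prod g [(v, j)] (List.IsChain.singleton _) (by simp; omega) (by simpa using h3)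
      simp at this⟩

lemma hat_walk (H : SimpleGraph V) (g : ℕ) (hg : 2 ≤ g)
    {a b : V × Equiv.Perm (RW (V × Fin 3) g)} (p : (Hat H g hg).Walk a b) (hp : p.IsPath) :
    ∃ u : List (V × Fin 3), u.IsChain (· ≠ ·) ∧ u.length ≤ p.length ∧
      a.2 = (u.map (sig g)).prod * b.2 ∧
      (∀ d, u.head? = some d → s((d.1, a.2), (d.1, sig g d * a.2)) ∈ p.edges) ∧
      (u = [] → ∃ P : H.Walk a.1 b.1, P.support.map (fun v => (v, b.2)) = p.support ∧
        P.edges.map (Sym2.map fun v => (v, b.2)) = p.edges) := by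
  induction p with
  | nil => exact ⟨[], List.IsChain.nil, le_rfl, by simp, by simp, fun _ => ⟨.nil, by simp, by simp⟩⟩
  | @cons a a' b h p ih =>
    rw [SimpleGraph.Walk.cons_isPath_iff] at hp
    obtain ⟨u, hc, hl, he, hh, hn⟩ := ih hp.1
    obtain ⟨v, x⟩ := a
    obtain ⟨v', x'⟩ := a'
    rcases h with ⟨h1, h2⟩ | ⟨h1, j, hj, h2⟩
    · simp only at h1 h2
      subst h2
      refine ⟨u, hc, by simp; omega, he, fun d hd => ?_, fun hu => ?_⟩
      · simp only [SimpleGraph.Walk.edges_cons, List.mem_cons]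
        exact Or.inr (hh d hd)
      · obtain ⟨P, hP1, hP2⟩ := hn hu
        have hx : x = b.2 := by simpa [hu] using he
        refine ⟨.cons h1 P, ?_, ?_⟩
        · simp only [SimpleGraph.Walk.support_cons, List.map_cons, hP1, hx]
        · simp only [SimpleGraph.Walk.edges_cons, List.map_cons, hP2, hx, Sym2.map_mk]
    · simp only at h1 h2
      subst h1
      have hx : x = sig g (v, j) * x' := by rw [h2, ← mul_assoc, sig_sq, one_mul]
      refine ⟨(v, j) :: u, ?_, by simp; omega, ?_, fun d hd => ?_, fun hu => by simp at hu⟩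
      · refine List.IsChain.cons hc ?_
        intro y hy hdy
        have h3 := hh y hy
        rw [← hdy] at h3
        simp only at h3
        rw [← hx] at h3
        exact hp.2 (p.snd_mem_support_of_mem_edges h3)
      · simp only [List.map_cons, List.prod_cons] at he ⊢
        rw [mul_assoc, ← he, hx]
      · simp only [List.head?_cons, Option.some.injEq] at hd
        subst hd
        simp only [SimpleGraph.Walk.edges_cons, List.mem_cons]
        exact Or.inl (by rw [h2])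

lemma hat_girth (H : SimpleGraph V) (g : ℕ) (hg : 2 ≤ g) (hH : (g : ℕ∞) ≤ H.egirth) :
    (g : ℕ∞) ≤ (Hat H g hg).egirth := by
  rw [SimpleGraph.le_egirth]
  intro q c hc
  by_contra hlt
  have hlt' : c.length < g := by
    by_contra h
    exact hlt (by exact_mod_cast (not_lt.1 h))
  cases c with
  | nil => exact hc.ne_nil rfl
  | @cons _ w _ h p =>
    rw [SimpleGraph.Walk.cons_isCycle_iff] at hc
    obtain ⟨u, hch, hl, he, hh, hn⟩ := hat_walk H g hg p hc.1
    simp only [SimpleGraph.Walk.length_cons] at hlt'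
    obtain ⟨v, x⟩ := q
    obtain ⟨v', x'⟩ := w
    rcases h with ⟨h1, h2⟩ | ⟨h1, j, hj, h2⟩
    · simp only at h1 h2 he
      subst h2
      have hu : u = [] := eq_nil_of_prod g u hch (by omega) (by
        have := congrArg (· * x⁻¹) he
        simpa using this.symm)
      obtain ⟨P, hP1, hP2⟩ := hn hu
      simp only at P hP1 hP2
      have hPp : P.IsPath := by
        rw [SimpleGraph.Walk.isPath_def]
        have := hc.1.support_nodup
        rw [← hP1] at this
        exact this.of_map _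
      have hcyc : (SimpleGraph.Walk.cons h1 P).IsCycle := by
        rw [SimpleGraph.Walk.cons_isCycle_iff]
        refine ⟨hPp, fun hm => hc.2 ?_⟩
        rw [← hP2]
        exact List.mem_map.2 ⟨_, hm, by simp⟩
      have h3 := SimpleGraph.le_egirth.1 hH _ _ hcyc
      have h4 : P.length = p.length := by
        have := congrArg List.length hP2
        simpa using this
      simp only [SimpleGraph.Walk.length_cons] at h3
      have h5 : g ≤ P.length + 1 := by exact_mod_cast h3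
      omega
    · simp only at h1 h2 he hh
      subst h1
      have hx : x = sig g (v, j) * x' := by rw [h2, ← mul_assoc, sig_sq, one_mul]
      by_cases hd : u.head? = some (v, j)
      · have := hh _ hd
        simp only at this
        rw [← hx, Sym2.eq_swap] at this
        exact hc.2 this
      · have := eq_nil_of_prod g ((v, j) :: u) (List.IsChain.cons hch fun y hy hdy =>
          hd (by rw [hdy]; exact hy)) (by simp; omega) (by
            simp only [List.map_cons, List.prod_cons]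
            have h3 : x = sig g (v, j) * (u.map (sig g)).prod * x := by
              rw [mul_assoc, ← he, ← hx]
            have := congrArg (· * x⁻¹) h3
            simpa only [mul_inv_cancel_right, mul_inv_cancel] using this.symm)
        simp at this

lemma sig_inj {D : Type} (g : ℕ) (hg : 2 ≤ g) {d d' : D} (h : sig g d = sig g d') : d = d' := by
  by_contra hne
  have := eq_nil_of_prod g [d, d'] (by simpa using hne) (by simpa using hg) (by
    simp only [List.map_cons, List.map_nil, List.prod_cons, List.prod_nil, mul_one]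
    rw [h, sig_sq])
  simp at this

lemma hat_deg (H : SimpleGraph V) (g : ℕ) (hg : 2 ≤ g) (h3 : ∀ v, (nbr H v).card ≤ 3)
    [Fintype (V × Equiv.Perm (RW (V × Fin 3) g))]
    (a : V × Equiv.Perm (RW (V × Fin 3) g)) : (nbr (Hat H g hg) a).card = 3 := by
  classical
  obtain ⟨v, x⟩ := a
  have e : nbr (Hat H g hg) (v, x) = (nbr H v).image (fun w => (w, x)) ∪
      (univ.filter fun j : Fin 3 => j.val < 3 - (nbr H v).card).image
        (fun j => (v, sig g (v, j) * x)) := by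
    ext ⟨w, y⟩
    simp only [mem_nbr, mem_union, mem_image, mem_filter, mem_univ, true_and, Prod.mk.injEq]
    constructor
    · rintro (⟨h1, h2⟩ | ⟨h1, j, hj, h2⟩)
      · exact Or.inl ⟨w, h1, rfl, h2⟩
      · exact Or.inr ⟨j, hj, h1, h2.symm⟩
    · rintro (⟨w', h1, rfl, h2⟩ | ⟨j, hj, h1, h2⟩)
      · exact Or.inl ⟨h1, h2⟩
      · exact Or.inr ⟨h1, j, hj, h2.symm⟩
  rw [e, card_union_of_disjoint, card_image_of_injective _ (fun w w' h => (Prod.mk.inj h).1),
    card_image_of_injective]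
  · have := h3 v
    generalize (nbr H v).card = k at this ⊢
    interval_cases k <;> rfl
  · intro j j' h
    exact (Prod.mk.inj (sig_inj g hg (mul_right_cancel (Prod.mk.inj h).2))).2
  · rw [disjoint_left]
    intro a h1 h2
    obtain ⟨w, hw, rfl⟩ := mem_image.1 h1
    obtain ⟨j, -, hj⟩ := mem_image.1 h2
    exact (mem_nbr.1 hw).ne (Prod.mk.inj hj).1

lemma hat_matching (H : SimpleGraph V) (g : ℕ) (hg : 2 ≤ g) (h3 : ∀ v, (nbr H v).card ≤ 3)
    (m : V → V) (hm : ∀ v, m (m v) = v) (ha : ∀ v, m v ≠ v → H.Adj v (m v))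
    (hc : ∀ v, (nbr H v).card = 3 → m v ≠ v) :
    ∃ m' : V × Equiv.Perm (RW (V × Fin 3) g) → V × Equiv.Perm (RW (V × Fin 3) g),
      (∀ a, m' (m' a) = a) ∧ ∀ a, (Hat H g hg).Adj a (m' a) := by
  classical
  refine ⟨fun a => if m a.1 = a.1 then (a.1, sig g (a.1, 0) * a.2) else (m a.1, a.2), ?_, ?_⟩
  · rintro ⟨v, x⟩
    by_cases h : m v = v
    · simp only [h, if_true]
      rw [← mul_assoc, sig_sq, one_mul]
    · have h' : ¬ v = m v := fun e => h e.symm
      simp only [h, if_false, hm, h']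
  · rintro ⟨v, x⟩
    by_cases h : m v = v
    · simp only [h, if_true]
      refine Or.inr ⟨rfl, 0, ?_, rfl⟩
      have h1 := h3 v
      have h2 : (nbr H v).card ≠ 3 := fun e => hc v e h
      simp only [Fin.val_zero]
      omega
    · simp only [h, if_false]
      exact Or.inl ⟨ha v h, rfl⟩

end Pool.Agent.MP_7c51ae_co

/-!
A 2-regular graph is given by a permutation.
-/

set_option autoImplicit false

namespace Pool.Agent.MP_7c51ae_co

variable {V : Type}

/-- an orientation of a set of darts that is constant along a permutation -/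
lemma exists_half {D : Type} [Finite D] (p : Equiv.Perm D) (r : D → D) (hr : ∀ d, r (r d) = d)
    (hpr : ∀ d, p (r (p d)) = r d) (h0 : ∀ d, r d ≠ d) (h1 : ∀ d, r d ≠ p d) :
    ∃ S : D → Prop, (∀ d, S d ↔ ¬ S (r d)) ∧ ∀ d, S d ↔ S (p d) := by
  classical
  have key : ∀ k : ℕ, (∀ d, r d ≠ (p ^ k) d) ∧ ∀ d, r d ≠ (p ^ (k + 1)) d := by
    intro k
    induction k with
    | zero => exact ⟨by simpa only [pow_zero, Equiv.Perm.coe_one, id_eq, ne_eq] using h0, by simpa only [zero_add, pow_one, ne_eq] using h1⟩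
    | succ k ih =>
      refine ⟨ih.2, fun d h => ih.1 (p d) ?_⟩
      apply p.injective
      rw [hpr, h, pow_succ, pow_succ']
      simp only [Equiv.Perm.coe_mul, Function.comp_apply]
  let s : Setoid D := Equiv.Perm.SameCycle.setoid p
  obtain ⟨n, ⟨e⟩⟩ := Finite.exists_equiv_fin (Quotient s)
  have hne : ∀ d, Quotient.mk s d ≠ Quotient.mk s (r d) := by
    intro d h
    have h' : p.SameCycle d (r d) := Quotient.exact h
    obtain ⟨k, hk⟩ := h'.exists_nat_pow_eq
    exact (key k).1 d hk.symm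
  have hp : ∀ d, Quotient.mk s (p d) = Quotient.mk s d := fun d =>
    Quotient.sound (show p.SameCycle (p d) d from
      Equiv.Perm.sameCycle_apply_left.2 (Equiv.Perm.SameCycle.refl _ _))
  refine ⟨fun d => e (Quotient.mk s d) < e (Quotient.mk s (r d)), fun d => ?_, fun d => ?_⟩
  · simp only [hr, not_lt]
    exact ⟨le_of_lt, fun h => lt_of_le_of_ne h fun h' => hne d (e.injective h')⟩
  · simp only
    rw [hp d, ← hp (r (p d)), hpr]

theorem exists_perm [Finite V] (F : SimpleGraph V)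
    (h2 : ∀ v, ∃ x y, x ≠ y ∧ ∀ w, F.Adj v w ↔ w = x ∨ w = y) :
    ∃ s : Equiv.Perm V, (∀ v, s v ≠ s.symm v) ∧ ∀ v w, F.Adj v w ↔ w = s v ∨ w = s.symm v := by
  classical
  have ho : ∀ v w, F.Adj v w → ∃ x, F.Adj w x ∧ x ≠ v ∧ ∀ y, F.Adj w y → y ≠ v → y = x := by
    intro v w h
    obtain ⟨x, y, hxy, hw⟩ := h2 w
    rcases (hw v).1 h.symm with rfl | rfl
    · exact ⟨y, (hw y).2 (Or.inr rfl), hxy.symm, fun z hz hz' => ((hw z).1 hz).resolve_left hz'⟩
    · exact ⟨x, (hw x).2 (Or.inl rfl), hxy, fun z hz hz' => ((hw z).1 hz).resolve_right hz'⟩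
  choose o ho1 ho2 ho3 using ho
  let D := {q : V × V // F.Adj q.1 q.2}
  let r : D → D := fun d => ⟨(d.1.2, d.1.1), d.2.symm⟩
  let p0 : D → D := fun d => ⟨(d.1.2, o _ _ d.2), ho1 _ _ d.2⟩
  have hpr : ∀ d, p0 (r (p0 d)) = r d := by
    intro d
    apply Subtype.ext
    refine Prod.ext rfl ?_
    exact (ho3 _ _ _ _ d.2.symm (ho2 _ _ d.2).symm).symm
  have hr : ∀ d, r (r d) = d := fun d => rfl
  have hinj : Function.Injective p0 := by
    intro d d' h
    have := hpr d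
    rw [h, hpr] at this
    rw [← hr d, ← this, hr]
  let p : Equiv.Perm D := Equiv.ofBijective p0 (Finite.injective_iff_bijective.1 hinj)
  obtain ⟨S, hS1, hS2⟩ := exists_half p r hr hpr
    (fun d h => d.2.ne (congrArg (fun x : D => x.1.2) h))
    (fun d h => ho2 _ _ d.2 (congrArg (fun x : D => x.1.2) h).symm)
  let A : V → V → Prop := fun v w => ∃ h : F.Adj v w, S ⟨(v, w), h⟩
  have hA1 : ∀ v w, F.Adj v w → (A v w ↔ ¬ A w v) := by
    intro v w h
    constructor
    · rintro ⟨_, h1⟩ ⟨_, h2⟩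
      exact (hS1 ⟨(v, w), h⟩).1 h1 h2
    · intro h1
      exact ⟨h, (hS1 ⟨(v, w), h⟩).2 fun h2 => h1 ⟨h.symm, h2⟩⟩
  have hA2 : ∀ v w x, F.Adj v w → F.Adj w x → x ≠ v → (A v w ↔ A w x) := by
    intro v w x h h' hx
    have e : p ⟨(v, w), h⟩ = ⟨(w, x), h'⟩ :=
      Subtype.ext (Prod.ext rfl (ho3 _ _ h _ h' hx).symm)
    have := hS2 ⟨(v, w), h⟩
    rw [e] at this
    exact ⟨fun ⟨_, a⟩ => ⟨h', this.1 a⟩, fun ⟨_, a⟩ => ⟨h, this.2 a⟩⟩
  have hio : ∀ v, ∃ x y, x ≠ y ∧ A v x ∧ A y v ∧ ∀ w, F.Adj v w ↔ w = x ∨ w = y := by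
    intro v
    obtain ⟨x, y, hxy, hw⟩ := h2 v
    have hx := (hw x).2 (Or.inl rfl)
    have hy := (hw y).2 (Or.inr rfl)
    by_cases ha : A v x
    · exact ⟨x, y, hxy, ha, (hA2 y v x hy.symm hx hxy).2 ha, hw⟩
    · have h1 : A x v := (hA1 x v hx.symm).2 ha
      exact ⟨y, x, hxy.symm, (hA2 x v y hx.symm hy hxy.symm).1 h1, h1,
        fun w => (hw w).trans or_comm⟩
  choose f g hfg hf hg hw using hio
  have hgf : ∀ v, g (f v) = v := by
    intro v
    have h1 : F.Adj v (f v) := (hw v _).2 (Or.inl rfl)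
    rcases (hw (f v) v).1 h1.symm with h | h
    · exfalso
      have h3 := hf (f v)
      rw [← h] at h3
      exact (hA1 _ _ h1).1 (hf v) h3
    · exact h.symm
  have hfg' : ∀ v, f (g v) = v := by
    intro v
    have h1 : F.Adj v (g v) := (hw v _).2 (Or.inr rfl)
    rcases (hw (g v) v).1 h1.symm with h | h
    · exact h.symm
    · exfalso
      have h3 := hg (g v)
      rw [← h] at h3
      exact (hA1 _ _ h1).1 h3 (hg v)
  exact ⟨⟨f, g, hgf, hfg'⟩, hfg, hw⟩

end Pool.Agent.MP_7c51ae_co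

/-!
Large girth makes short reduced words lead to different vertices.
-/

set_option autoImplicit false

namespace Pool.Agent.MP_7c51ae_co

variable {V : Type}

lemma Sch.step_rev (S : Sch V) (v : V) (d : Dir) : S.step (S.step v d) d.rev = v := by
  cases d
  · simp [Sch.step, Dir.rev]
  · simp [Sch.step, Dir.rev]
  · simp [Sch.step, Dir.rev, S.mm]

/-- the walk of the graph that follows a word -/
def toWalk (S : Sch V) (G : SimpleGraph V) (h : ∀ v d, G.Adj v (S.step v d)) :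
    (v : V) → (w : List Dir) → G.Walk v (S.walk v w)
  | _, [] => .nil
  | v, d :: w => .cons (h v d) (toWalk S G h (S.step v d) w)

lemma toWalk_length (S : Sch V) (G : SimpleGraph V) (h : ∀ v d, G.Adj v (S.step v d))
    (w : List Dir) : ∀ v, (toWalk S G h v w).length = w.length := by
  induction w with
  | nil => intro v; rfl
  | cons d w ih => intro v; exact congrArg (· + 1) (ih (S.step v d))

lemma toWalk_support (S : Sch V) (G : SimpleGraph V) (h : ∀ v d, G.Adj v (S.step v d))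
    (w : List Dir) : ∀ v, (toWalk S G h v w).support = List.scanl S.step v w := by
  induction w with
  | nil => intro v; rw [List.scanl_nil]; rfl
  | cons d w ih =>
    intro v
    rw [List.scanl_cons]
    exact congrArg (v :: ·) (ih (S.step v d))

lemma scanl_inj (S : Sch V) (hi : ∀ v d d', S.step v d = S.step v d' → d = d') (w : List Dir) :
    ∀ (v : V) (w' : List Dir), List.scanl S.step v w = List.scanl S.step v w' → w = w' := by
  induction w with
  | nil =>
    intro v w' h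
    have := congrArg List.length h
    simp only [List.length_scanl, List.length_nil] at this
    exact (List.length_eq_zero_iff.1 (by omega)).symm
  | cons d w ih =>
    intro v w' h
    cases w' with
    | nil =>
      have := congrArg List.length h
      simp at this
    | cons d' w' =>
      simp only [List.scanl_cons, List.cons.injEq, true_and] at h
      have h1 : S.step v d = S.step v d' := by
        have := congrArg List.head? h
        simpa using this
      have h2 := hi v d d' h1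
      subst h2
      rw [ih _ _ h]

lemma toWalk_isPath [DecidableEq V] (S : Sch V) (G : SimpleGraph V)
    (h : ∀ v d, G.Adj v (S.step v d)) (hi : ∀ v d d', S.step v d = S.step v d' → d = d')
    (n : ℕ) (hg : ((n + 1 : ℕ) : ℕ∞) ≤ G.egirth) (w : List Dir) :
    ∀ v, Red w → w.length ≤ n → (toWalk S G h v w).IsPath := by
  induction w with
  | nil => intro v _ _; exact SimpleGraph.Walk.IsPath.nil
  | cons d w ih =>
    intro v hr hl
    have hp := ih (S.step v d) (List.IsChain.tail hr) (by simp at hl; omega)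
    change (SimpleGraph.Walk.cons (h v d) (toWalk S G h (S.step v d) w)).IsPath
    rw [SimpleGraph.Walk.cons_isPath_iff]
    refine ⟨hp, fun hv => ?_⟩
    have hq := hp.takeUntil hv
    have he : (SimpleGraph.Walk.cons (h v d).symm SimpleGraph.Walk.nil).IsPath := by
      simp [(h v d).ne']
    by_cases hne : (toWalk S G h (S.step v d) w).takeUntil v hv =
        SimpleGraph.Walk.cons (h v d).symm SimpleGraph.Walk.nil
    · have hs := SimpleGraph.Walk.take_spec (toWalk S G h (S.step v d) w) hv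
      rw [hne] at hs
      have hs' := congrArg SimpleGraph.Walk.support hs
      rw [toWalk_support] at hs'
      cases w with
      | nil => simp at hs'
      | cons d' w' =>
        have h1 : v = S.step (S.step v d) d' := by
          have := congrArg (fun l => l.tail.head?) hs'
          simp only [SimpleGraph.Walk.cons_append, SimpleGraph.Walk.nil_append,
            SimpleGraph.Walk.support_cons, List.tail_cons, List.scanl_cons] at this
          rw [← SimpleGraph.Walk.cons_tail_support, List.head?_cons, List.head?_scanl] at this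
          exact Option.some.inj this
        have h2 : d' = d.rev := hi _ _ _ (by rw [← h1, S.step_rev])
        exact (List.isChain_cons_cons.1 hr).1 h2
    · obtain ⟨x, -, -, c, hc, hlen⟩ := hq.exists_isCycle_length_le_add_of_ne he hne
      have h1 := SimpleGraph.le_egirth.1 hg _ _ hc
      have h2 := SimpleGraph.Walk.length_takeUntil_le_length (toWalk S G h (S.step v d) w) hv
      rw [toWalk_length] at h2
      have h3 : n + 1 ≤ c.length := by exact_mod_cast h1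
      simp at hlen hl
      omega

theorem inj_of_girth [DecidableEq V] (S : Sch V) (G : SimpleGraph V)
    (h : ∀ v d, G.Adj v (S.step v d)) (hi : ∀ v d d', S.step v d = S.step v d' → d = d')
    (n : ℕ) (hg : ((2 * n + 1 : ℕ) : ℕ∞) ≤ G.egirth) : S.Inj n := by
  intro v w w' hr hr' hl hl' he
  have hg' : ((n + 1 : ℕ) : ℕ∞) ≤ G.egirth :=
    le_trans (by exact_mod_cast (by omega : n + 1 ≤ 2 * n + 1)) hg
  have hp := toWalk_isPath S G h hi n hg' w v hr hl
  have hp' := toWalk_isPath S G h hi n hg' w' v hr' hl'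
  have hq : ((toWalk S G h v w).copy rfl he).IsPath := by simpa using hp
  by_cases hne : (toWalk S G h v w).copy rfl he = toWalk S G h v w'
  · have hs := congrArg SimpleGraph.Walk.support hne
    rw [SimpleGraph.Walk.support_copy, toWalk_support, toWalk_support] at hs
    exact scanl_inj S hi w v w' hs
  · obtain ⟨x, -, -, c, hc, hlen⟩ := hq.exists_isCycle_length_le_add_of_ne hp' hne
    have h1 := SimpleGraph.le_egirth.1 hg _ _ hc
    have h3 : 2 * n + 1 ≤ c.length := by exact_mod_cast h1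
    rw [SimpleGraph.Walk.length_copy, toWalk_length, toWalk_length] at hlen
    omega

end Pool.Agent.MP_7c51ae_co

/-!
From the core statement to all graphs of maximum degree three and large girth.
-/

set_option autoImplicit false

namespace Pool.Agent.MP_7c51ae_co

open Finset

/-- two vectors differ in exactly one coordinate, or agree in exactly one coordinate -/
def Near (x y : Fin 7 → Bool) : Prop :=
  ∃ (i : Fin 7) (c : Bool), ∀ j, y j = xor (x j) (xor c (decide (j = i)))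

lemma Near.symm {x y : Fin 7 → Bool} (h : Near x y) : Near y x := by
  obtain ⟨i, c, h⟩ := h
  refine ⟨i, c, fun j => ?_⟩
  rw [h j]
  cases x j <;> simp

lemma Near.shift {x y : Fin 7 → Bool} (h : Near x y) (t : Fin 7 → Bool) :
    Near (fun j => xor (x j) (t j)) (fun j => xor (y j) (t j)) := by
  obtain ⟨i, c, h⟩ := h
  refine ⟨i, c, fun j => ?_⟩
  simp only [h j]
  cases x j <;> cases t j <;> simp

lemma Near.adj {x y : Fin 7 → Bool} (h : Near x y) :
    (PC 7).Adj (Quotient.mk (antipodal 7) x) (Quotient.mk (antipodal 7) y) := by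
  obtain ⟨i, c, h⟩ := h
  obtain ⟨k, hk⟩ : ∃ k : Fin 7, k ≠ i := exists_ne i
  refine ⟨fun he => ?_, x, fun j => xor (x j) (decide (j = i)), rfl, ?_, ?_⟩
  · have h1 := h i
    have h2 := h k
    rcases (Quotient.exact he : y = x ∨ y = fun j => !x j) with e | e
    · rw [e] at h1 h2
      revert h1 h2
      cases x i <;> cases x k <;> cases c <;> simp [hk]
    · rw [e] at h1 h2
      simp only at h1 h2
      revert h1 h2
      cases x i <;> cases x k <;> cases c <;> simp [hk]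
  · apply Quotient.sound
    cases c
    · exact Or.inl (funext fun j => by simp [h j])
    · exact Or.inr (funext fun j => by simp [h j])
  · rw [hammingDist, card_eq_one]
    refine ⟨i, ?_⟩
    ext j
    cases hx : x j <;> simp [hx]

/-- six bits and their parity -/
def bits (a : Fin 4 × Fin 16) (j : Fin 7) : Bool :=
  if j.val < 6 then (a.1.val + 4 * a.2.val).testBit j.val
  else (List.range 6).foldl (fun c k => xor c ((a.1.val + 4 * a.2.val).testBit k)) false

/-- the check on numbers -/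
def nearB (a a' b b' : ℕ) : Bool :=
  !(Nat.testBit 4295033111 ((a ^^^ b ^^^ 3) + 4 * (a' ^^^ b' ^^^ 15))) ||
    (List.finRange 7).any fun i => (List.finRange 7).all fun j =>
      bits (Fin.ofNat 4 b, Fin.ofNat 16 b') j == xor (bits (Fin.ofNat 4 a, Fin.ofNat 16 a') j) (xor true (decide (j = i)))

lemma near_chk : ((List.range 4).all fun a => (List.range 16).all fun a' => (List.range 4).all fun b =>
    (List.range 16).all fun b' => nearB a a' b b') = true := by decide +kernel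

lemma near_of_ok : ∀ a b : Fin 4 × Fin 16, ok6 a b → Near (bits a) (bits b) := by
  rintro ⟨a, a'⟩ ⟨b, b'⟩ h
  have := near_chk
  simp only [List.all_eq_true, List.mem_range] at this
  have := this a a.2 a' a'.2 b b.2 b' b'.2
  have h2 : Nat.testBit 4295033111 ((a.val ^^^ b.val ^^^ 3) + 4 * (a'.val ^^^ b'.val ^^^ 15)) = true := by
    simp only [ok6, List.mem_cons, List.not_mem_nil, or_false] at h
    rcases h with h | h | h | h | h | h | h <;> rw [h] <;> rfl
  simp only [nearB, h2, Bool.not_true, Bool.false_or, List.any_eq_true, List.all_eq_true, List.mem_finRange, true_and,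
    forall_true_left, beq_iff_eq, Fin.ofNat_val_eq_self] at this
  obtain ⟨i, hi⟩ := this
  exact ⟨i, true, hi⟩

variable {V : Type} [Fintype V]

/-- cubic graphs with a perfect matching -/
lemma of_matching {n : ℕ}
    (h : ∀ (V : Type) [Fintype V] [DecidableEq V] (G : Sch V), G.Inj n →
      ∃ f : V → Fin 4 × Fin 16, ∀ (v : V) (d : Dir), ok6 (f v) (f (G.step v d)))
    (G : SimpleGraph V) (h3 : ∀ v, (nbr G v).card = 3) (m : V → V) (hm : ∀ v, m (m v) = v)
    (ha : ∀ v, G.Adj v (m v)) (hg : ((2 * n + 1 : ℕ) : ℕ∞) ≤ G.egirth) :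
    ∃ f : V → Fin 7 → Bool, ∀ v w, G.Adj v w → Near (f v) (f w) := by
  classical
  let F : SimpleGraph V :=
    { Adj := fun v w => G.Adj v w ∧ w ≠ m v
      symm := ⟨fun v w h => ⟨h.1.symm, fun e => h.2 (by rw [e, hm])⟩⟩
      loopless := ⟨fun v h => h.1.ne rfl⟩ }
  obtain ⟨s, hs, hF⟩ := exists_perm F fun v => by
    have h1 : ((nbr G v).erase (m v)).card = 2 := by
      rw [card_erase_of_mem (mem_nbr.2 (ha v)), h3]
    obtain ⟨x, y, hxy, e⟩ := card_eq_two.1 h1
    refine ⟨x, y, hxy, fun w => ?_⟩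
    have : w ∈ (nbr G v).erase (m v) ↔ w ∈ ({x, y} : Finset V) := by rw [e]
    simp only [mem_erase, mem_nbr, mem_insert, mem_singleton] at this
    rw [← this]
    exact and_comm
  let S : Sch V := ⟨s, m, hm⟩
  have hR : ∀ v, G.Adj v (s v) ∧ s v ≠ m v := fun v => (hF v _).2 (Or.inl rfl)
  have hL : ∀ v, G.Adj v (s.symm v) ∧ s.symm v ≠ m v := fun v => (hF v _).2 (Or.inr rfl)
  have hadj : ∀ v d, G.Adj v (S.step v d) := by
    intro v d
    cases d
    · exact (hL v).1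
    · exact (hR v).1
    · exact ha v
  have hi : ∀ v d d', S.step v d = S.step v d' → d = d' := by
    intro v d d' e
    cases d <;> cases d' <;> first
      | rfl
      | exact absurd e (hs v)
      | exact absurd e.symm (hs v)
      | exact absurd e (hL v).2
      | exact absurd e.symm (hL v).2
      | exact absurd e (hR v).2
      | exact absurd e.symm (hR v).2
  obtain ⟨f, hf⟩ := h V S (inj_of_girth S G hadj hi n hg)
  refine ⟨fun v => bits (f v), fun v w hvw => near_of_ok _ _ ?_⟩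
  by_cases e : w = m v
  · rw [e]
    exact hf v .M
  · rcases (hF v w).1 ⟨hvw, e⟩ with e' | e'
    · rw [e']
      exact hf v .R
    · rw [e']
      exact hf v .L

/-- graphs of maximum degree three -/
lemma of_subcubic {n : ℕ}
    (h : ∀ (V : Type) [Fintype V] [DecidableEq V] (G : Sch V), G.Inj n →
      ∃ f : V → Fin 4 × Fin 16, ∀ (v : V) (d : Dir), ok6 (f v) (f (G.step v d)))
    (H : SimpleGraph V) : (∀ v, (nbr H v).card ≤ 3) → ((2 * n + 2 : ℕ) : ℕ∞) ≤ H.egirth →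
    ∃ f : V → Fin 7 → Bool, ∀ v w, H.Adj v w → Near (f v) (f w) := by
  classical
  induction H using WellFoundedLT.induction with
  | ind H ih =>
  intro h3 hg
  by_cases hcut : ∀ C : Finset V, (cutp H C).card ≠ 1
  · obtain ⟨m, hm, ha, hc⟩ := exists_matching H h3 hcut
    have h2 : 2 ≤ 2 * n + 2 := by omega
    let _ : Fintype (RW (V × Fin 3) (2 * n + 2)) := Fintype.ofFinite _
    obtain ⟨m', hm', ha'⟩ := hat_matching H _ h2 h3 m hm ha hc
    obtain ⟨f, hf⟩ := of_matching h (Hat H _ h2) (hat_deg H _ h2 h3) m' hm' ha'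
      (le_trans (by exact_mod_cast Nat.le_succ _) (hat_girth H _ h2 hg))
    exact ⟨fun v => f (v, 1), fun v w hvw => hf _ _ (Or.inl ⟨hvw, rfl⟩)⟩
  · push Not at hcut
    obtain ⟨C, hC⟩ := hcut
    obtain ⟨⟨a, b⟩, hab⟩ := card_eq_one.1 hC
    have h1 : (a, b) ∈ cutp H C := by rw [hab]; exact mem_singleton_self _
    rw [mem_cutp] at h1
    simp only at h1
    have hle : H.deleteEdges {s(a, b)} ≤ H := H.deleteEdges_le _
    have hlt : H.deleteEdges {s(a, b)} < H :=
      lt_of_le_of_ne hle fun e => by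
        have h2 := h1.2.2
        rw [← e] at h2
        simp at h2
    obtain ⟨f, hf⟩ := ih _ hlt
      (fun v => le_trans (card_le_card fun w hw => mem_nbr.2 (hle (mem_nbr.1 hw))) (h3 v))
      (hg.trans (SimpleGraph.egirth_anti hle))
    let t : Fin 7 → Bool := fun j => xor (xor (f a j) (f b j)) (decide (j = 0))
    let f' : V → Fin 7 → Bool := fun v => if v ∈ C then fun j => xor (f v j) (t j) else f v
    have key : ∀ v w, H.Adj v w → v ∈ C → w ∉ C → Near (f' v) (f' w) := by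
      intro v w hvw hv hw
      have h2 : (v, w) ∈ cutp H C := mem_cutp.2 ⟨hv, hw, hvw⟩
      rw [hab, mem_singleton, Prod.mk.injEq] at h2
      obtain ⟨rfl, rfl⟩ := h2
      simp only [f', hv, hw, if_true, if_false, t]
      refine ⟨0, false, fun j => ?_⟩
      beta_reduce
      cases f v j <;> cases f w j <;> simp
    have hin : ∀ v w, H.Adj v w → (v ∈ C ↔ w ∈ C) → Near (f v) (f w) := by
      intro v w hvw hiff
      refine hf v w ?_
      simp only [SimpleGraph.deleteEdges_adj, Set.mem_singleton_iff, Sym2.eq_iff]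
      refine ⟨hvw, ?_⟩
      rintro (⟨rfl, rfl⟩ | ⟨rfl, rfl⟩)
      · exact h1.2.1 (hiff.1 h1.1)
      · exact h1.2.1 (hiff.2 h1.1)
    refine ⟨f', fun v w hvw => ?_⟩
    by_cases hv : v ∈ C <;> by_cases hw : w ∈ C
    · simp only [f', hv, hw, if_true]
      exact (hin v w hvw (by simp [hv, hw])).shift t
    · exact key v w hvw hv hw
    · exact (key w v hvw.symm hw hv).symm
    · simp only [f', hv, hw, if_false]
      exact hin v w hvw (by simp [hv, hw])

/-- all finite graphs of maximum degree at most three and large girth map to `PC 7` -/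
theorem of_core (h : Core) :
    ∃ g : ℕ, ∀ (V : Type) [Fintype V] (G : SimpleGraph V) [DecidableRel G.Adj],
      (∀ v, G.degree v ≤ 3) → (g : ℕ∞) ≤ G.egirth → Nonempty (G →g PC 7) := by
  obtain ⟨n, h⟩ := h
  refine ⟨2 * n + 2, fun V _ G _ h3 hg => ?_⟩
  obtain ⟨f, hf⟩ := of_subcubic h G (fun v => by
    have e : nbr G v = G.neighborFinset v := by
      ext w
      simp
    rw [e]
    exact h3 v) hg
  exact ⟨⟨fun v => Quotient.mk _ (f v), fun hvw => (hf _ _ hvw).adj⟩⟩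

end Pool.Agent.MP_7c51ae_co

/-!
The abstract system: the certificate at one time.
-/

set_option autoImplicit false

namespace Pool.Agent.MP_7c51ae_co

open Finset Pool.Agent.MP_d802e4_co

noncomputable section

theorem tl_univ (f : St → ℝ) : tl f univ = f univ := if_neg univ_nonempty.ne_empty

theorem tl_empty (f : St → ℝ) : tl f ∅ = f {0} := if_pos rfl

/-- a signed measure against a function of small oscillation -/
theorem ba_delta (W φ : St → ℝ) {a b : ℝ} (ha : ∀ B, |φ B - φ univ| ≤ a) (hb : |φ univ| ≤ b) :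
    |∑ B, W B * φ B| ≤ (∑ B ∈ univ.erase univ, |W B|) * a + |ms W| * b := by
  have h1 : ∑ B, W B * φ B = ∑ B ∈ univ.erase univ, W B * (φ B - φ univ) + ms W * φ univ := by
    rw [sum_erase _ (by simp), ms, sum_mul, ← sum_add_distrib]
    exact sum_congr rfl fun B _ => by ring
  rw [h1]
  refine (abs_add_le _ _).trans (add_le_add ?_ ?_)
  · rw [sum_mul]
    refine (abs_sum_le_sum_abs _ _).trans (sum_le_sum fun B _ => ?_)
    rw [abs_mul]
    exact mul_le_mul_of_nonneg_left (ha B) (abs_nonneg _)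
  · rw [abs_mul]
    exact mul_le_mul_of_nonneg_left hb (abs_nonneg _)

theorem ba_pos {W φ : St → ℝ} (hW : ∀ B, 0 ≤ W B) {a : ℝ} (ha : ∀ B, |φ B| ≤ a) :
    |∑ B, W B * φ B| ≤ ms W * a := by
  rw [ms, sum_mul]
  refine (abs_sum_le_sum_abs _ _).trans (sum_le_sum fun B _ => ?_)
  rw [abs_mul, abs_of_nonneg (hW B)]
  exact mul_le_mul_of_nonneg_left (ha B) (hW B)

theorem ba_sum {I : Type} [Fintype I] {W f : I → St → ℝ} {F : I → ℝ} (hW : ∀ s, W s ∅ = 0)
    (hu : ∀ s, f s univ = 0) (hf : ∀ s C, C.Nonempty → |f s C| ≤ F s) :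
    |∑ s, ∑ C, W s C * f s C| ≤ ∑ s, F s * ∑ D ∈ univ.erase univ, |W s D| := by
  refine (abs_sum_le_sum_abs _ _).trans (sum_le_sum fun s _ => ?_)
  rw [← sum_erase (s := univ) (a := (univ : St)) (by simp [hu s]), mul_sum]
  refine (abs_sum_le_sum_abs _ _).trans (sum_le_sum fun C _ => ?_)
  rcases C.eq_empty_or_nonempty with rfl | hC
  · simp [hW s]
  · rw [abs_mul, mul_comm]
    exact mul_le_mul_of_nonneg_right (hf s C hC) (abs_nonneg _)

theorem Lip.weak {I : Type} {chi g : I → St → ℝ} {a a' : ℝ} (h : Lip chi a g) (ha : a ≤ a')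
    {k : I → ℝ} (hi : Inc chi k) (hk : ∀ m, 0 ≤ k m) : Lip chi a' g := fun m A y hA hy =>
  (h m A y hA hy).trans (mul_le_mul_of_nonneg_right ha ((hk m).trans (hi m A y hA hy)))

theorem Lip.inc {I : Type} {chi g : I → St → ℝ} (h : Lip chi 1 g) : Inc chi fun _ => 0 := by
  intro m A y hA hy
  have := h m A y hA hy
  rw [one_mul] at this
  exact (abs_nonneg _).trans this

/-- bounds for differences of `tl` by the oscillation of the potential -/
theorem Lip.tl_osc {I : Type} {φ f : I → St → ℝ} (h : Lip φ 1 f) {s : I} (hφ : InvT (φ s))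
    (hf : InvT (f s)) {A C : St} (hC : A ⊆ C) :
    |MP_7c51ae_co.tl (f s) C - MP_7c51ae_co.tl (f s) A| ≤ φ s univ - φ s {0} := by
  have h0 := h.inc.lip fun _ => le_rfl
  have h1 := h.tl hφ hf hC
  have h2 := h0.tl hφ (fun _ _ => rfl) (subset_univ C)
  have h3 := h0.tl hφ (fun _ _ => rfl) (empty_subset A)
  rw [tl_univ (φ s)] at h2
  rw [tl_empty (φ s)] at h3
  linarith [(abs_nonneg _).trans h2, (abs_nonneg _).trans h3]

theorem Lip.refl {I : Type} {chi : I → St → ℝ} (h : Inc chi fun _ => 0) : Lip chi 1 chi := by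
  intro m A y hA hy
  rw [one_mul, abs_of_nonneg (h m A y hA hy)]

theorem ba_card (b : ℝ) (hb : 0 ≤ b ∧ b ≤ 1) {A : St} {y : Fin 16} (hy : y ∉ A) (B : St) :
    |tl (fun D => b * D.card) (insert y A ∩ B) - tl (fun D => b * D.card) (A ∩ B)| ≤ 1 := by
  by_cases h : y ∈ B
  · rw [insert_inter_of_mem h]
    have h1 : y ∉ A ∩ B := fun h1 => hy (mem_inter.1 h1).1
    unfold tl
    rw [if_neg (insert_ne_empty _ _)]
    beta_reduce
    rw [card_insert_of_notMem h1]
    split_ifs with h2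
    · simp [h2]
    · push_cast
      rw [mul_add, add_sub_cancel_left, mul_one, abs_of_nonneg hb.1]
      exact hb.2
  · simp [insert_inter_of_notMem h]

theorem ba_card_inv (b : ℝ) : InvT fun D => b * D.card := fun t A => by
  simp only [tr_card]

section abs
variable {S M X Y : Type} [Fintype S] [Fintype M] [Fintype X] [Fintype Y]
  [DecidableEq S] [DecidableEq M] {P : Sys S M X Y} {m0 : S → ℝ}

set_option linter.unusedSectionVars false

theorem Sys.z0_nonneg (hP : P.Ok m0) (m : M) : 0 ≤ P.z0 m0 m := by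
  unfold Sys.z0
  refine sum_nonneg fun x _ => ?_
  split_ifs
  · exact mul_nonneg (hP.xw x) (hP.mp _)
  · exact le_rfl

theorem Sys.Up_univ {g : M → St → ℝ} (h : ∀ m, g m univ = 0) (s : S) : P.Up g s univ = 0 := by
  simp only [Up, T_univ, h, mul_zero, ite_self, sum_const_zero]

theorem Sys.pair_Z' (N N' : S → St → ℝ) (g : M → St → ℝ) :
    ∑ m, ∑ A, (P.Z N m A - P.Z N' m A) * g m A = ∑ s, ∑ C, (N s C - N' s C) * P.Up g s C := by
  simp only [sub_mul, sum_sub_distrib, Sys.pair_Z]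

theorem Sys.PsiM_sub (q : Fin 3 → ℝ) (Z Z' : M → St → ℝ) (j : Bool) (f : S → St → ℝ) (m : M)
    (A : St) : P.PsiM q (fun m B => Z m B - Z' m B) j f m A =
      P.PsiM q Z j f m A - P.PsiM q Z' j f m A := by
  unfold Sys.PsiM
  rw [← sum_sub_distrib]
  refine sum_congr rfl fun y _ => ?_
  simp only [sub_mul, sum_sub_distrib, mul_sub (1 - q (P.yi y)), mul_sub (P.yw y)]
  by_cases hy : (if j then P.yb y else P.ya y) = m <;> simp only [hy, ↓ reduceIte, one_mul, sub_self]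

theorem Sys.Psi2_sub (q : Fin 3 → ℝ) (Z Z' : M → St → ℝ) (f : S → St → ℝ) (m : M) (A : St) :
    P.Psi2 q (fun m B => Z m B - Z' m B) f m A = P.Psi2 q Z f m A - P.Psi2 q Z' f m A := by
  unfold Sys.Psi2
  rw [Sys.PsiM_sub, Sys.PsiM_sub]
  ring

theorem Sys.Psi2_inv (q : Fin 3 → ℝ) {Z : M → St → ℝ} (hZ : ∀ m, InvT (Z m)) {f : S → St → ℝ}
    (hf : ∀ s, InvT (f s)) (m : M) : InvT (P.Psi2 q Z f m) := fun t A => by
  unfold Sys.Psi2
  rw [Sys.PsiM_inv q hZ false hf m t A, Sys.PsiM_inv q hZ true hf m t A]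

theorem Sys.PsiM_incr (hP : P.Ok m0) {q : Fin 3 → ℝ} (hq : ∀ i, 0 ≤ q i ∧ q i ≤ 1)
    (W : M → St → ℝ) (j : Bool) (f : S → St → ℝ) (m : M) (A A' : St) {β : M → S → ℝ}
    (h : ∀ m' s, |∑ B, W m' B * (tl (f s) (A' ∩ B) - tl (f s) (A ∩ B))| ≤ β m' s) :
    |P.PsiM q W j f m A' - P.PsiM q W j f m A| ≤ ∑ y, if (if j then P.yb y else P.ya y) = m then
      P.yw y * β (if j then P.ya y else P.yb y) (P.ys y) else 0 := by
  unfold Sys.PsiM
  rw [← sum_sub_distrib]
  refine (abs_sum_le_sum_abs _ _).trans (sum_le_sum fun y _ => ?_)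
  by_cases hy : (if j then P.yb y else P.ya y) = m
  · simp only [if_pos hy]
    have h1 := h (if j then P.ya y else P.yb y) (P.ys y)
    simp only [mul_sub, sum_sub_distrib] at h1
    rw [← mul_sub, ← mul_sub, abs_mul, abs_mul, abs_of_nonneg (hP.yw y),
      abs_of_nonneg (sub_nonneg.2 (hq _).2)]
    refine mul_le_mul_of_nonneg_left ?_ (hP.yw y)
    exact (mul_le_of_le_one_left (abs_nonneg _) (by linarith [(hq (P.yi y)).1])).trans h1
  · simp [hy]

theorem Sys.Psi2_incr (hP : P.Ok m0) {q : Fin 3 → ℝ} (hq : ∀ i, 0 ≤ q i ∧ q i ≤ 1)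
    (W : M → St → ℝ) (f : S → St → ℝ) (m : M) (A A' : St) {β : M → S → ℝ}
    (h : ∀ m' s, |∑ B, W m' B * (tl (f s) (A' ∩ B) - tl (f s) (A ∩ B))| ≤ β m' s) :
    |P.Psi2 q W f m A' - P.Psi2 q W f m A| ≤
      ∑ y, ((if P.ya y = m then P.yw y * β (P.yb y) (P.ys y) else 0) +
        (if P.yb y = m then P.yw y * β (P.ya y) (P.ys y) else 0)) := by
  have h1 := Sys.PsiM_incr hP hq W false f m A A' h
  have h2 := Sys.PsiM_incr hP hq W true f m A A' h
  simp only [Bool.false_eq_true, if_false, if_true] at h1 h2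
  unfold Sys.Psi2
  rw [sum_add_distrib, add_sub_add_comm]
  exact (abs_add_le _ _).trans (add_le_add h1 h2)

theorem Sys.PsiM_abs (hP : P.Ok m0) {q : Fin 3 → ℝ} (hq : ∀ i, 0 ≤ q i ∧ q i ≤ 1)
    (W : M → St → ℝ) (j : Bool) (f : S → St → ℝ) {β : S → ℝ}
    (h : ∀ m' s, |∑ B, W m' B * tl (f s) B| ≤ β s) :
    ∑ m, |P.PsiM q W j f m univ| ≤ ∑ y, P.yw y * ((1 - q (P.yi y)) * β (P.ys y)) := by
  have h1 : ∀ m, |P.PsiM q W j f m univ| ≤ ∑ y, if (if j then P.yb y else P.ya y) = m then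
      P.yw y * ((1 - q (P.yi y)) * β (P.ys y)) else 0 := by
    intro m
    unfold Sys.PsiM
    refine (abs_sum_le_sum_abs _ _).trans (sum_le_sum fun y _ => ?_)
    by_cases hy : (if j then P.yb y else P.ya y) = m
    · simp only [if_pos hy, univ_inter]
      have hq1 := sub_nonneg.2 (hq (P.yi y)).2
      rw [abs_mul, abs_mul, abs_of_nonneg (hP.yw y), abs_of_nonneg hq1]
      exact mul_le_mul_of_nonneg_left (mul_le_mul_of_nonneg_left (h _ _) hq1) (hP.yw y)
    · simp [hy]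
  refine (sum_le_sum fun m _ => h1 m).trans (le_of_eq ?_)
  rw [sum_comm]
  refine sum_congr rfl fun y _ => ?_
  rw [sum_ite_eq, if_pos (mem_univ _)]

/-- nearness tested against a function with another Lipschitz constant -/
theorem Sys.Near.scale {chi G : M → St → ℝ} {N N' : S → St → ℝ} {ε a : ℝ} (h : P.Near chi N N' ε)
    (ha : 0 < a) (hG : ∀ m, InvT (G m)) (hL : Lip chi a G) :
    |∑ m, ∑ A, (P.Z N m A - P.Z N' m A) * G m A -
      ∑ m, (ms (P.Z N m) - ms (P.Z N' m)) * G m univ| ≤ a * ε := by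
  have h1 := h (fun m A => (G m A - G m univ) / a) (fun m t A => by simp only [hG m t A])
    (fun m A y hA hy => ?_) (fun m => by simp)
  · have h2 : ∑ m, ∑ A, (P.Z N m A - P.Z N' m A) * G m A -
        ∑ m, (ms (P.Z N m) - ms (P.Z N' m)) * G m univ =
        a * ∑ m, ∑ A, (P.Z N m A - P.Z N' m A) * ((G m A - G m univ) / a) := by
      unfold ms
      simp only [← sum_sub_distrib, sum_mul, mul_sum]
      refine sum_congr rfl fun m _ => sum_congr rfl fun A _ => ?_
      field_simp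
    rw [h2, abs_mul, abs_of_pos ha]
    exact mul_le_mul_of_nonneg_left h1 ha.le
  · rw [← sub_div, sub_sub_sub_cancel_right, abs_div, abs_of_pos ha, div_le_iff₀ ha]
    linarith [hL m A y hA hy]

theorem Sys.Near.weak {chi : M → St → ℝ} {N N' : S → St → ℝ} {ε ε' : ℝ} (h : P.Near chi N N' ε)
    (hε : ε ≤ ε') : P.Near chi N N' ε' := fun g h1 h2 h3 => (h g h1 h2 h3).trans hε

section pt
variable {c : Cst M} {q : Fin 3 → ℝ} {N N' N'' : S → St → ℝ} {chi chi'' : M → St → ℝ}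
  {F F'' : S → ℝ}

theorem ba_up (hP : P.Ok m0) (hp : PtOk P m0 c q N' chi F) {g : M → St → ℝ}
    (hg : ∀ m, InvT (g m)) (hL : Lip chi 1 g) (s : S) {A C : St} (hC : A ⊆ C) :
    |tl (P.Up g s) C - tl (P.Up g s) A| ≤ F s :=
  ((Sys.Up_lip hP hL).tl_osc (Sys.Up_inv hp.invC s) (Sys.Up_inv hg s) hC).trans (hp.osc s)

theorem ba_up0 (hP : P.Ok m0) (hp : PtOk P m0 c q N' chi F) {g : M → St → ℝ}
    (hg : ∀ m, InvT (g m)) (hL : Lip chi 1 g) (hu : ∀ m, g m univ = 0) (s : S) (C : St) :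
    |tl (P.Up g s) C| ≤ F s := by
  have := ba_up hP hp hg hL s (subset_univ C)
  rwa [tl_univ, Sys.Up_univ hu, zero_sub, abs_neg] at this

theorem ba_up1 (hP : P.Ok m0) (hp : PtOk P m0 c q N' chi F) {g : M → St → ℝ}
    (hg : ∀ m, InvT (g m)) (hL : Lip chi 1 g) (hu : ∀ m, g m univ = 0) (s : S) (C : St)
    (hC : C.Nonempty) : |P.Up g s C| ≤ F s := by
  have := ba_up0 hP hp hg hL hu s C
  rwa [tl, if_neg hC.ne_empty] at this

theorem ms_sub (W W' : St → ℝ) : ms (fun B => W B - W' B) = ms W - ms W' := sum_sub_distrib ..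

theorem ba_sub_lip (hP : P.Ok m0) (hq : ∀ i, 0 ≤ q i ∧ q i ≤ 1) (hC : ∀ m, InvT (chi m))
    (hN : Law m0 N) (hs : P.Sub c q N chi) {g : M → St → ℝ} (hg : ∀ m, InvT (g m)) {a : ℝ}
    (ha : 0 ≤ a) (hL : Lip chi a g) (m : M) (A : St) (y : Fin 16) (hA : A.Nonempty) (hy : y ∉ A) :
    |P.Psi2 q (P.Z N) (P.Up g) m (insert y A) - P.Psi2 q (P.Z N) (P.Up g) m A| ≤
      a * (c.rho * (chi m (insert y A) - chi m A) - c.rho * c.kap m) :=
  (Sys.Psi2_lip hP hq (Sys.Z_nonneg hP hN.pos) (Sys.Up_inv hC) (Sys.Up_inv hg) (Sys.Up_lip hP hL)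
    m A y hA hy).trans (mul_le_mul_of_nonneg_left (hs m A y hA hy) ha)

theorem a_move (hP : P.Ok m0) (hc : c.Ok P m0) {q'' : Fin 3 → ℝ} (hF : ∀ s, 0 ≤ F'' s)
    (hp : PtOk P m0 c q N' chi F) (hp'' : PtOk P m0 c q'' N'' chi'' F'') (hi : Inc chi c.kap)
    (hd : ∀ m A, |chi'' m A - chi m A| ≤ c.xi * c.kap m / 2)
    (hd' : ∑ s, F'' s * ∑ D ∈ univ.erase univ, |N'' s D - N' s D| ≤ c.r2)
    (hn : P.Near chi N N' c.eps) :
    (Inc chi'' fun m => (1 - c.xi) * c.kap m) ∧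
      P.Near chi'' N N'' ((1 + c.xi) * c.eps + c.r2) := by
  have _ := hF
  refine ⟨fun m A y hA hy => ?_, fun g hg hL hu => ?_⟩
  · linarith [hi m A y hA hy, (abs_le.1 (hd m A)).2, (abs_le.1 (hd m (insert y A))).1]
  · have h1 := hn.scale (a := 1 + c.xi) (by linarith [hc.xi0]) hg fun m A y hA hy => by
      have := mul_le_mul_of_nonneg_left (hi m A y hA hy) hc.xi0.le
      linarith [hL m A y hA hy, (abs_le.1 (hd m A)).1, (abs_le.1 (hd m (insert y A))).2]
    simp only [hu, mul_zero, sum_const_zero, sub_zero] at h1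
    have h2 := (ba_sum (W := fun s D => N'' s D - N' s D)
      (fun s => by rw [hp.emp, hp''.emp, sub_self]) (Sys.Up_univ hu)
      (ba_up1 hP hp'' hg hL hu)).trans hd'
    rw [← Sys.pair_Z'] at h2
    simp only [sub_mul, sum_sub_distrib] at h1 h2 ⊢
    rw [abs_le] at h1 h2 ⊢
    constructor <;> linarith only [h1.1, h1.2, h2.1, h2.2]

theorem Sys.C0_nonneg (hP : P.Ok m0) (hc : c.Ok P m0) : 0 ≤ P.C0 m0 c :=
  mul_nonneg (sum_nonneg fun y _ => mul_nonneg (hP.yw y)
    (add_nonneg (Sys.z0_nonneg hP _) (Sys.z0_nonneg hP _)))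
    (sum_nonneg fun m _ => (one_div_pos.2 (hc.kap0 m)).le)

theorem a_card (hP : P.Ok m0) (hc : c.Ok P m0) (hq : ∀ i, 0 ≤ q i ∧ q i ≤ 1) (hN : Law m0 N)
    (hi : Inc chi c.kap) {b : S → ℝ} (hb : ∀ s, 0 ≤ b s ∧ b s ≤ 1) :
    Lip chi (P.C0 m0 c) (P.Psi2 q (P.Z N) fun s D => b s * D.card) := by
  intro m A y hA hy
  have hz0 := Sys.z0_nonneg hP
  have h1 := Sys.Psi2_incr hP hq (P.Z N) (fun s D => b s * D.card) m A (insert y A)
    (β := fun m' _ => P.z0 m0 m') fun m' s => by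
      have := ba_pos (Sys.Z_nonneg hP hN.pos m') (ba_card (b s) (hb s) hy)
      rwa [Sys.Z_ms hN.mass, mul_one] at this
  have h2 : ∑ y, ((if P.ya y = m then P.yw y * P.z0 m0 (P.yb y) else 0) +
      (if P.yb y = m then P.yw y * P.z0 m0 (P.ya y) else 0)) ≤
      ∑ y, P.yw y * (P.z0 m0 (P.ya y) + P.z0 m0 (P.yb y)) := by
    refine sum_le_sum fun y _ => ?_
    have := mul_nonneg (hP.yw y) (hz0 (P.ya y))
    have := mul_nonneg (hP.yw y) (hz0 (P.yb y))
    split_ifs <;> linarith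
  have h3 : 1 ≤ (∑ m, 1 / c.kap m) * (chi m (insert y A) - chi m A) := by
    have h4 : 1 / c.kap m ≤ ∑ m, 1 / c.kap m := single_le_sum (f := fun m => 1 / c.kap m)
      (fun m _ => (one_div_pos.2 (hc.kap0 m)).le) (mem_univ m)
    have h5 := mul_le_mul h4 (hi m A y hA hy) (hc.kap0 m).le
      ((one_div_pos.2 (hc.kap0 m)).le.trans h4)
    rwa [one_div_mul_cancel (hc.kap0 m).ne'] at h5
  refine h1.trans (h2.trans ?_)
  unfold Sys.C0
  rw [mul_assoc]
  exact le_mul_of_one_le_right (sum_nonneg fun y _ => mul_nonneg (hP.yw y)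
    (add_nonneg (hz0 _) (hz0 _))) h3

theorem Sys.It_up (Ns : ℕ → S → St → ℝ) (f : S → St → ℝ) (k : ℕ) :
    P.It q Ns f (k + 1) = P.Up (P.Psi2 q (P.Z (Ns k)) (P.It q Ns f k)) := by
  funext s C
  exact (Sys.Up_add ..).symm

theorem a_it (hP : P.Ok m0) (hc : c.Ok P m0) (hq : ∀ i, 0 ≤ q i ∧ q i ≤ 1)
    (hp : PtOk P m0 c q N' chi F) (hi : Inc chi c.kap) {Ns : ℕ → S → St → ℝ}
    (hN : ∀ i, Law m0 (Ns i)) (hs : ∀ i, P.Sub c q (Ns i) chi) {b : S → ℝ}
    (hb : ∀ s, 0 ≤ b s ∧ b s ≤ 1) (k : ℕ) :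
    ∑ s, (P.It q Ns (fun s D => b s * D.card) (k + 1) s univ -
      P.It q Ns (fun s D => b s * D.card) (k + 1) s {0}) ≤
      P.C0 m0 c * c.rho ^ k * ∑ s, F s := by
  have h0 : ∀ k, 0 ≤ P.C0 m0 c * c.rho ^ k := fun k =>
    mul_nonneg (Sys.C0_nonneg hP hc) (pow_nonneg hc.rho0.le k)
  have key : ∀ k, (∀ s, InvT (P.It q Ns (fun s D => b s * D.card) k s)) ∧
      Lip chi (P.C0 m0 c * c.rho ^ k)
        (P.Psi2 q (P.Z (Ns k)) (P.It q Ns (fun s D => b s * D.card) k)) := by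
    intro k
    induction k with
    | zero =>
      rw [pow_zero, mul_one]
      exact ⟨fun s => ba_card_inv (b s), a_card hP hc hq (hN 0) hi hb⟩
    | succ k ih =>
      rw [Sys.It_up]
      have hg := Sys.Psi2_inv (P := P) q (Sys.Z_inv (P := P) (hN k).inv) ih.1
      refine ⟨Sys.Up_inv hg, fun m A y hA hy => ?_⟩
      refine (ba_sub_lip hP hq hp.invC (hN (k + 1)) (hs (k + 1)) hg (h0 k) ih.2 m A y hA hy).trans ?_
      rw [pow_succ, ← mul_assoc, mul_assoc _ c.rho]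
      exact mul_le_mul_of_nonneg_left (by linarith [mul_pos hc.rho0 (hc.kap0 m)]) (h0 k)
  rw [Sys.It_up, mul_sum]
  refine sum_le_sum fun s _ => (le_abs_self _).trans ?_
  exact ((Sys.Up_lip hP (key k).2).chain s (singleton_nonempty 0) (subset_univ _)).trans
    (mul_le_mul_of_nonneg_left (hp.osc s) (h0 k))

end pt

end abs

end

end Pool.Agent.MP_7c51ae_co

/-!
The contraction step.
-/

set_option autoImplicit false
set_option linter.unusedSectionVars false

namespace Pool.Agent.MP_7c51ae_co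

open Finset Pool.Agent.MP_d802e4_co

noncomputable section

section
variable {S M X Y : Type} [Fintype S] [Fintype M] [Fintype X] [Fintype Y]
  [DecidableEq S] [DecidableEq M] {P : Sys S M X Y} {m0 : S → ℝ}
variable {c : Cst M} {q : Fin 3 → ℝ} {N N' N'' : S → St → ℝ} {chi chi'' : M → St → ℝ}
  {F F'' : S → ℝ}

theorem a3_pair (Δ φ : St → ℝ) {l e b0 b1 : ℝ} (hl : ∑ B ∈ univ.erase univ, |Δ B| ≤ l)
    (he : |ms Δ| ≤ e) (h1 : ∀ B, |φ B - φ univ| ≤ b1) (h0 : |φ univ| ≤ b0) :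
    |∑ B, Δ B * φ B| ≤ b1 * l + e * b0 := by
  have hb1 : 0 ≤ b1 := (abs_nonneg _).trans (h1 univ)
  have e1 : ∑ B, Δ B * φ B = ∑ B ∈ univ.erase univ, Δ B * (φ B - φ univ) + ms Δ * φ univ := by
    rw [Finset.sum_erase (f := fun B => Δ B * (φ B - φ univ)) _ (by simp), ms, Finset.sum_mul,
      ← Finset.sum_add_distrib]
    exact Finset.sum_congr rfl fun B _ => by ring
  rw [e1]
  refine (abs_add_le _ _).trans (add_le_add ?_ ?_)
  · refine (Finset.abs_sum_le_sum_abs _ _).trans ?_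
    refine le_trans ?_ (mul_le_mul_of_nonneg_left hl hb1)
    rw [Finset.mul_sum]
    refine Finset.sum_le_sum fun B _ => ?_
    rw [abs_mul, mul_comm]
    exact mul_le_mul_of_nonneg_right (h1 B) (abs_nonneg _)
  · rw [abs_mul]
    exact mul_le_mul he h0 (abs_nonneg _) ((abs_nonneg _).trans he)

theorem a3_rep {D D' : St} (h : D ⊆ D') : ∃ C C' : St, C.Nonempty ∧ C ⊆ C' ∧
    ∀ f : St → ℝ, InvT f → tl f D = f C ∧ tl f D' = f C' := by
  by_cases hD : D = ∅
  · by_cases hD' : D' = ∅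
    · exact ⟨{0}, {0}, singleton_nonempty _, subset_rfl, fun f _ => by simp [tl, hD, hD']⟩
    · obtain ⟨z, hz⟩ := nonempty_iff_ne_empty.2 hD'
      exact ⟨{z}, D', singleton_nonempty _, singleton_subset_iff.2 hz,
        fun f hf => ⟨by rw [tl, if_pos hD, hf.single z], by rw [tl, if_neg hD']⟩⟩
  · have hne := nonempty_iff_ne_empty.2 hD
    have hD' : D' ≠ ∅ := nonempty_iff_ne_empty.1 (hne.mono h)
    exact ⟨D, D', hne, h, fun f _ => ⟨by rw [tl, if_neg hD], by rw [tl, if_neg hD']⟩⟩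

theorem a3_self {I : Type} {chi : I → St → ℝ} {k : I → ℝ} (h : Inc chi k) (hk : ∀ m, 0 ≤ k m) :
    Lip chi 1 chi := fun m A y hA hy => by
  have := h m A y hA hy
  rw [one_mul, abs_of_nonneg ((hk m).trans this)]

theorem a3_inc {I : Type} {chi g : I → St → ℝ} (h : Lip chi 1 g) : Inc chi fun _ => 0 :=
  fun m A y hA hy => by
    have := h m A y hA hy
    rw [one_mul] at this
    exact (abs_nonneg _).trans this

/-- oscillation of a function dominated by a monotone potential -/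
theorem a3_osc {I : Type} {φ f : I → St → ℝ} {F : I → ℝ} (hφ : ∀ s, InvT (φ s))
    (hf : ∀ s, InvT (f s)) (h : Lip φ 1 f) (ho : ∀ s, φ s univ - φ s {0} ≤ F s) (s : I)
    {D D' : St} (hD : D ⊆ D') : |tl (f s) D' - tl (f s) D| ≤ F s := by
  obtain ⟨C, C', hC, hCC, hr⟩ := a3_rep hD
  rw [(hr _ (hf s)).1, (hr _ (hf s)).2]
  have h1 := h.chain s hC hCC
  have h2 := (a3_inc h).mono (fun _ => le_rfl) s (hC.mono hCC) (subset_univ C')
  obtain ⟨z, hz⟩ := hC
  have h3 := (a3_inc h).mono (fun _ => le_rfl) s (singleton_nonempty z) (singleton_subset_iff.2 hz)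
  rw [(hφ s).single z] at h3
  have := ho s
  linarith

theorem a3_mono {I : Type} {φ : I → St → ℝ} (hφ : ∀ s, InvT (φ s)) (h : Inc φ fun _ => 0) (s : I)
    {D D' : St} (hD : D ⊆ D') : tl (φ s) D ≤ tl (φ s) D' := by
  obtain ⟨C, C', hC, hCC, hr⟩ := a3_rep hD
  rw [(hr _ (hφ s)).1, (hr _ (hφ s)).2]
  exact h.mono (fun _ => le_rfl) s hC hCC

theorem a3_tl_univ (f : St → ℝ) : tl f univ = f univ := by
  rw [tl, if_neg univ_nonempty.ne_empty]

theorem a3_abs {I : Type} {φ f : I → St → ℝ} {F : I → ℝ} (hφ : ∀ s, InvT (φ s))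
    (hf : ∀ s, InvT (f s)) (h : Lip φ 1 f) (ho : ∀ s, φ s univ - φ s {0} ≤ F s)
    (h0 : ∀ s, f s univ = 0) (s : I) (D : St) : |tl (f s) D| ≤ F s := by
  have := a3_osc hφ hf h ho s (subset_univ D)
  rwa [a3_tl_univ, h0, zero_sub, abs_neg] at this

theorem a3_term {w a t b k : ℝ} (hw : 0 ≤ w) (ha : 0 ≤ a ∧ a ≤ 1) (ht : |t| ≤ k * b) (p : Prop)
    [Decidable p] : |if p then w * ((1 - a) * t) else 0| ≤ k * if p then w * b else 0 := by
  split_ifs
  · rw [abs_mul, abs_mul, abs_of_nonneg hw, abs_of_nonneg (sub_nonneg.2 ha.2)]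
    have h1 : (1 - a) * |t| ≤ k * b :=
      (mul_le_of_le_one_left (abs_nonneg _) (by linarith [ha.1])).trans ht
    calc w * ((1 - a) * |t|) ≤ w * (k * b) := mul_le_mul_of_nonneg_left h1 hw
      _ = k * (w * b) := by ring
  · simp

theorem a3_psi (hP : P.Ok m0) (hq : ∀ i, 0 ≤ q i ∧ q i ≤ 1) (Z Z' : M → St → ℝ) (f : S → St → ℝ)
    (m : M) (A A' : St) {tau : M → ℝ} {k : ℝ}
    (h : ∀ m' s, |∑ B, (Z m' B - Z' m' B) * (tl (f s) (A' ∩ B) - tl (f s) (A ∩ B))| ≤
      k * (tau m' * F s)) :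
    |(P.Psi2 q Z f m A' - P.Psi2 q Z f m A) - (P.Psi2 q Z' f m A' - P.Psi2 q Z' f m A)| ≤
      k * ∑ y, ((if P.ya y = m then P.yw y * (tau (P.yb y) * F (P.ys y)) else 0) +
        (if P.yb y = m then P.yw y * (tau (P.ya y) * F (P.ys y)) else 0)) := by
  have e1 : (P.Psi2 q Z f m A' - P.Psi2 q Z f m A) - (P.Psi2 q Z' f m A' - P.Psi2 q Z' f m A) =
      ∑ y, ((if P.ya y = m then P.yw y * ((1 - q (P.yi y)) * ∑ B, (Z (P.yb y) B - Z' (P.yb y) B) *
          (tl (f (P.ys y)) (A' ∩ B) - tl (f (P.ys y)) (A ∩ B))) else 0) +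
        (if P.yb y = m then P.yw y * ((1 - q (P.yi y)) * ∑ B, (Z (P.ya y) B - Z' (P.ya y) B) *
          (tl (f (P.ys y)) (A' ∩ B) - tl (f (P.ys y)) (A ∩ B))) else 0)) := by
    simp only [Sys.Psi2, Sys.PsiM, Bool.false_eq_true, if_false, if_true, ← Finset.sum_add_distrib,
      ← Finset.sum_sub_distrib]
    refine Finset.sum_congr rfl fun y _ => ?_
    simp only [sub_mul, mul_sub, Finset.sum_sub_distrib]
    split_ifs <;> ring
  rw [e1, Finset.mul_sum]
  refine (Finset.abs_sum_le_sum_abs _ _).trans (Finset.sum_le_sum fun y _ => ?_)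
  rw [mul_add]
  exact (abs_add_le _ _).trans (add_le_add (a3_term (hP.yw y) (hq _) (h _ _) _)
    (a3_term (hP.yw y) (hq _) (h _ _) _))

theorem a3_Z0 (hP : P.Ok m0) (hN : ∀ s D, 0 ≤ N s D) (m : M) (A : St) : 0 ≤ P.Z N m A :=
  Finset.sum_nonneg fun x _ => by
    split_ifs
    · exact mul_nonneg (hP.xw x) (Finset.sum_nonneg fun B _ => by
        split_ifs
        · exact hN _ _
        · exact le_rfl)
    · exact le_rfl

theorem a3_z0 (hP : P.Ok m0) (m : M) : 0 ≤ P.z0 m0 m :=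
  Finset.sum_nonneg fun x _ => by
    split_ifs
    · exact mul_nonneg (hP.xw x) (hP.mp _)
    · exact le_rfl

theorem a3_l1 (hc : c.Ok P m0) (hp : PtOk P m0 c q N' chi F) (hN : Law m0 N)
    (hi : Inc chi fun m => (1 - c.xi) * c.kap m)
    (hn : P.Near chi N N' ((1 + c.xi) * c.eps + c.r2)) (m : M) :
    ∃ l, 0 ≤ l ∧ ∑ A ∈ univ.erase univ, |P.Z N m A - P.Z N' m A| ≤ l ∧ l + c.eM ≤ c.tau m ∧
      |ms fun A => P.Z N m A - P.Z N' m A| ≤ c.eM := by
  have h1 := a_l1 (fun m => mul_pos (sub_pos.2 hc.xi1) (hc.kap0 m)) hi hN.inv hp.invN hn m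
  refine ⟨_, (Finset.sum_nonneg fun _ _ => abs_nonneg _).trans h1, h1, hc.tau m, ?_⟩
  have e : (ms fun A => P.Z N m A - P.Z N' m A) = P.z0 m0 m - ms (P.Z N' m) := by
    rw [← Sys.Z_ms hN.mass m]
    simp only [ms, Finset.sum_sub_distrib]
  rw [e, abs_sub_comm]
  exact hp.mass m

theorem a_sub (hP : P.Ok m0) (hc : c.Ok P m0) (hq : ∀ i, 0 ≤ q i ∧ q i ≤ 1) (hF : ∀ s, 0 ≤ F s)
    (hp : PtOk P m0 c q N' chi F) (hN : Law m0 N) (hi : Inc chi fun m => (1 - c.xi) * c.kap m)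
    (hn : P.Near chi N N' ((1 + c.xi) * c.eps + c.r2)) :
    P.Sub c q N chi ∧ Inc chi c.kap := by
  have hk0 : ∀ m, 0 ≤ (1 - c.xi) * c.kap m :=
    fun m => (mul_pos (sub_pos.2 hc.xi1) (hc.kap0 m)).le
  have hU : Lip (P.Up chi) 1 (P.Up chi) := Sys.Up_lip hP (a3_self hi hk0)
  have hI : ∀ s, InvT (P.Up chi s) := Sys.Up_inv hp.invC
  have hs : P.Sub c q N chi := by
    intro m A y hA hy
    have h1 := a3_psi (F := F) (tau := c.tau) (k := 1) hP hq (P.Z N) (P.Z N') (P.Up chi) m A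
      (insert y A) (fun m' s => by
        obtain ⟨l, _, hl, hlt, hm⟩ := a3_l1 hc hp hN hi hn m'
        have hb : ∀ B, 0 ≤ tl (P.Up chi s) (insert y A ∩ B) - tl (P.Up chi s) (A ∩ B) ∧
            tl (P.Up chi s) (insert y A ∩ B) - tl (P.Up chi s) (A ∩ B) ≤ F s := fun B => by
          have hsub : A ∩ B ⊆ insert y A ∩ B := inter_subset_inter_right (subset_insert y A)
          exact ⟨sub_nonneg.2 (a3_mono hI (a3_inc hU) s hsub),
            (le_abs_self _).trans (a3_osc hI hI hU hp.osc s hsub)⟩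
        have := a3_pair (fun B => P.Z N m' B - P.Z N' m' B)
          (fun B => tl (P.Up chi s) (insert y A ∩ B) - tl (P.Up chi s) (A ∩ B)) (b0 := F s)
          (b1 := F s) hl hm
          (fun B => abs_le.2 ⟨by linarith [(hb B).1, (hb univ).2],
            by linarith [(hb B).2, (hb univ).1]⟩)
          (abs_le.2 ⟨by linarith [(hb univ).1, hF s], (hb univ).2⟩)
        refine this.trans ?_
        have := mul_le_mul_of_nonneg_right hlt (hF s)
        linarith)
    have h2 := hp.cov m A y hA hy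
    have h3 := hp.err m
    have h4 := (le_abs_self _).trans h1
    simp only [Sys.Psi2] at h4 ⊢
    linarith
  refine ⟨hs, fun m A y hA hy => ?_⟩
  have h1 := a3_inc (Sys.Psi2_lip hP hq (a3_Z0 hP hN.pos) hI hI hU) m A y hA hy
  have h2 := hs m A y hA hy
  have h3 : c.rho * c.kap m ≤ c.rho * (chi m (insert y A) - chi m A) := by linarith
  exact le_of_mul_le_mul_left h3 hc.rho0

theorem a3_emp (Z : M → St → ℝ) (s : S) : P.Phi q Z s ∅ = 0 := by
  have h1 : un ∅ = 0 := by simp [un]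
  have h2 : ∀ E, kr E ∅ = 0 := fun E => by
    unfold kr
    split_ifs <;> simp [h1]
  simp only [Sys.Phi, h2, mul_zero, sum_const_zero, h1, add_zero, ite_self]

/-- pairing a signed law without mass on the empty list with a bounded function -/
theorem a3_sig (Δ f : St → ℝ) {b : ℝ} (h0 : Δ ∅ = 0) (hf : ∀ D, |tl f D| ≤ b) (hu : f univ = 0) :
    |∑ D, Δ D * f D| ≤ b * ∑ D ∈ univ.erase univ, |Δ D| := by
  have e : ∑ D, Δ D * f D = ∑ D, Δ D * tl f D := Finset.sum_congr rfl fun D _ => by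
    unfold tl
    split_ifs with h
    · rw [h, h0, zero_mul, zero_mul]
    · rfl
  have := a3_pair Δ (tl f) (b0 := 0) (b1 := b) le_rfl le_rfl
    (fun B => by rw [a3_tl_univ, hu, sub_zero]; exact hf B) (by rw [a3_tl_univ, hu, abs_zero])
  rw [e]
  simpa only [mem_univ, sum_erase_eq_sub, ge_iff_le, mul_zero, add_zero] using this

theorem a3_univ (hP : P.Ok m0) (hq : ∀ i, 0 ≤ q i ∧ q i ≤ 1) (Z : M → St → ℝ) (f : S → St → ℝ)
    {b : ℝ} (h : ∀ m s, |∑ B, Z m B * tl (f s) B| ≤ b * F s) :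
    ∑ m, |P.Psi2 q Z f m univ| ≤ 2 * b * ∑ y, P.yw y * ((1 - q (P.yi y)) * F (P.ys y)) := by
  have h1 : ∀ j : Bool, ∑ m, |P.PsiM q Z j f m univ| ≤
      b * ∑ y, P.yw y * ((1 - q (P.yi y)) * F (P.ys y)) := fun j => by
    refine (Finset.sum_le_sum fun m _ => Finset.abs_sum_le_sum_abs _ _).trans ?_
    rw [Finset.sum_comm, Finset.mul_sum]
    refine Finset.sum_le_sum fun y _ => ?_
    rw [Finset.sum_eq_single (if j then P.yb y else P.ya y) (fun m _ hm => by
      rw [if_neg (Ne.symm hm), abs_zero]) (by simp only [mem_univ, not_true_eq_false, ↓ reduceIte, univ_inter, abs_mul, mul_eq_zero, abs_eq_zero, IsEmpty.forall_iff]), if_pos rfl]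
    simp only [univ_inter]
    have hq' := sub_nonneg.2 (hq (P.yi y)).2
    rw [abs_mul, abs_mul, abs_of_nonneg (hP.yw y), abs_of_nonneg hq']
    have := mul_le_mul_of_nonneg_left (mul_le_mul_of_nonneg_left
      (h (if j then P.ya y else P.yb y) (P.ys y)) hq') (hP.yw y)
    linarith
  calc ∑ m, |P.Psi2 q Z f m univ|
      ≤ ∑ m, (|P.PsiM q Z false f m univ| + |P.PsiM q Z true f m univ|) :=
        Finset.sum_le_sum fun m _ => abs_add_le _ _
    _ ≤ _ := by
        rw [Finset.sum_add_distrib]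
        linarith [h1 false, h1 true]

theorem a3_split (Δ G : M → St → ℝ) {ρ : ℝ} (hρ : ρ ≠ 0) :
    ∑ m, ∑ A, Δ m A * G m A = ρ * ∑ m, ∑ A, Δ m A * ((G m A - G m univ) / ρ) +
      ∑ m, ms (Δ m) * G m univ := by
  rw [Finset.mul_sum, ← Finset.sum_add_distrib]
  refine Finset.sum_congr rfl fun m _ => ?_
  rw [Finset.mul_sum, ms, Finset.sum_mul, ← Finset.sum_add_distrib]
  refine Finset.sum_congr rfl fun A _ => ?_
  field_simp
  ring

/-- a function dominated by a multiple of the potential is a multiple of a test function -/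
theorem a3_near {ε ρ : ℝ} (hρ : 0 < ρ) (hn : P.Near chi N N' ε) {G : M → St → ℝ}
    (hG : ∀ m, InvT (G m)) (hL : Lip chi ρ G) :
    |∑ m, ∑ A, (P.Z N m A - P.Z N' m A) * ((G m A - G m univ) / ρ)| ≤ ε := by
  refine hn (fun m A => (G m A - G m univ) / ρ) (fun m t A => ?_) (fun m A y hA hy => ?_)
    (fun m => by simp)
  · simp only [hG m t A]
  · have := hL m A y hA hy
    rw [← sub_div, sub_sub_sub_cancel_right, abs_div, abs_of_pos hρ, div_le_iff₀ hρ]
    linarith

theorem a3_psi_inv (Z : M → St → ℝ) (hZ : ∀ m, InvT (Z m)) {f : S → St → ℝ}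
    (hf : ∀ s, InvT (f s)) (m : M) : InvT (P.Psi2 q Z f m) := fun t A => by
  simp only [Sys.Psi2, Sys.PsiM_inv q hZ _ hf m t A]

theorem a_contr (hP : P.Ok m0) (hc : c.Ok P m0) (hq : ∀ i, 0 ≤ q i ∧ q i ≤ 1) (hF : ∀ s, 0 ≤ F s)
    (hp : PtOk P m0 c q N' chi F) (hN : Law m0 N) (hi : Inc chi fun m => (1 - c.xi) * c.kap m)
    (hn : P.Near chi N N' ((1 + c.xi) * c.eps + c.r2)) :
    P.Near chi (P.Phi q (P.Z N)) N' c.eps := by
  intro g hg hL h0
  obtain ⟨hs, -⟩ := a_sub hP hc hq hF hp hN hi hn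
  have hI : ∀ s, InvT (P.Up chi s) := Sys.Up_inv hp.invC
  have hfI : ∀ s, InvT (P.Up g s) := Sys.Up_inv hg
  have hfL : Lip (P.Up chi) 1 (P.Up g) := Sys.Up_lip hP hL
  have hf0 : ∀ s, P.Up g s univ = 0 := fun s => by simp only [Sys.Up, T_univ, h0, mul_zero, ite_self, sum_const_zero]
  have habs := a3_abs hI hfI hfL hp.osc hf0
  have hZ0 := a3_Z0 hP hN.pos
  have hZm : ∀ m, ms (P.Z N m) = P.z0 m0 m := Sys.Z_ms hN.mass
  have e1 : ∑ m, ∑ A, (P.Z (P.Phi q (P.Z N)) m A - P.Z N' m A) * g m A =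
      ∑ s, ∑ D, (P.Phi q (P.Z N) s D - P.Phi q (P.Z N') s D) * P.Up g s D +
        ∑ s, ∑ D, (P.Phi q (P.Z N') s D - N' s D) * P.Up g s D := by
    simp only [sub_mul, Finset.sum_sub_distrib]
    rw [Sys.pair_Z, Sys.pair_Z]
    ring
  have b2 : |∑ s, ∑ D, (P.Phi q (P.Z N') s D - N' s D) * P.Up g s D| ≤ c.r := by
    refine (Finset.abs_sum_le_sum_abs _ _).trans (le_trans (Finset.sum_le_sum fun s _ => ?_) hp.res)
    exact a3_sig _ _ (by rw [a3_emp, hp.emp, sub_zero]) (habs s) (hf0 s)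
  have hG : Lip chi c.rho fun m A =>
      (P.Psi2 q (P.Z N) (P.Up g) m A + P.Psi2 q (P.Z N') (P.Up g) m A) / 2 := by
    intro m A y hA hy
    have h1 := a3_psi (F := F) (tau := c.tau) (k := 2) hP hq (P.Z N) (P.Z N') (P.Up g) m A
      (insert y A) (fun m' s => by
        obtain ⟨l, hl0, hl, hlt, hm⟩ := a3_l1 hc hp hN hi hn m'
        have hb : ∀ B, |tl (P.Up g s) (insert y A ∩ B) - tl (P.Up g s) (A ∩ B)| ≤ F s := fun B =>
          a3_osc hI hfI hfL hp.osc s (inter_subset_inter_right (subset_insert y A))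
        have := a3_pair (fun B => P.Z N m' B - P.Z N' m' B)
          (fun B => tl (P.Up g s) (insert y A ∩ B) - tl (P.Up g s) (A ∩ B)) (b0 := F s)
          (b1 := F s + F s) hl hm
          (fun B => (abs_sub _ _).trans (add_le_add (hb B) (hb univ))) (hb univ)
        refine this.trans ?_
        have h5 := mul_le_mul_of_nonneg_right hlt (hF s)
        have h6 := mul_nonneg hc.eM0 (hF s)
        linarith only [h5, h6])
    have h2 := Sys.Psi2_lip hP hq hZ0 hI hfI hfL m A y hA hy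
    have h3 := hs m A y hA hy
    have h4 := hp.err m
    rw [abs_le] at h1 h2 ⊢
    constructor <;> linarith only [h1.1, h1.2, h2.1, h2.2, h3, h4]
  have hGI : ∀ m, InvT fun A =>
      (P.Psi2 q (P.Z N) (P.Up g) m A + P.Psi2 q (P.Z N') (P.Up g) m A) / 2 := fun m t A => by
    simp only [a3_psi_inv _ (Sys.Z_inv hN.inv) hfI m t A,
      a3_psi_inv _ (Sys.Z_inv hp.invN) hfI m t A]
  have b1 := a3_near hc.rho0 hn hGI hG
  have hzB : ∀ m, P.z0 m0 m + c.eM ≤ c.B0 := fun m => by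
    obtain ⟨l, hl0, -, hlt, -⟩ := a3_l1 hc hp hN hi hn m
    linarith only [hc.B0 m, hl0, hlt]
  have w1 : ∀ m s, |∑ B, P.Z N m B * tl (P.Up g s) B| ≤ P.z0 m0 m * F s := fun m s => by
    rw [← hZm, ms, Finset.sum_mul]
    refine (Finset.abs_sum_le_sum_abs _ _).trans (Finset.sum_le_sum fun B _ => ?_)
    rw [abs_mul, abs_of_nonneg (hZ0 m B)]
    exact mul_le_mul_of_nonneg_left (habs s B) (hZ0 m B)
  have u1 := a3_univ (F := F) (b := c.B0) hP hq (P.Z N) (P.Up g) (fun m s =>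
    (w1 m s).trans (mul_le_mul_of_nonneg_right (by linarith only [hzB m, hc.eM0]) (hF s)))
  have u2 := a3_univ (F := F) (b := c.B0) hP hq (P.Z N') (P.Up g) (fun m s => by
    obtain ⟨l, hl0, hl, hlt, hm⟩ := a3_l1 hc hp hN hi hn m
    have h1 := a3_pair (fun B => P.Z N m B - P.Z N' m B) (tl (P.Up g s)) (b0 := 0) (b1 := F s)
      hl hm (fun B => by rw [a3_tl_univ, hf0, sub_zero]; exact habs s B)
      (by rw [a3_tl_univ, hf0, abs_zero])
    simp only [sub_mul, Finset.sum_sub_distrib] at h1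
    have h2 := w1 m s
    have h3 : (P.z0 m0 m + l) * F s ≤ c.B0 * F s :=
      mul_le_mul_of_nonneg_right (by linarith only [hc.B0 m, hc.eM0, hlt]) (hF s)
    rw [abs_le] at h1 h2 ⊢
    constructor <;> linarith only [h1.1, h1.2, h2.1, h2.2, h3])
  have b3 : |∑ m, ms (fun A => P.Z N m A - P.Z N' m A) *
      ((P.Psi2 q (P.Z N) (P.Up g) m univ + P.Psi2 q (P.Z N') (P.Up g) m univ) / 2)| ≤
      c.eM * (2 * c.B0 * ∑ y, P.yw y * ((1 - q (P.yi y)) * F (P.ys y))) := by
    refine (Finset.abs_sum_le_sum_abs _ _).trans ?_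
    refine le_trans (b := c.eM * ((∑ m, |P.Psi2 q (P.Z N) (P.Up g) m univ| +
      ∑ m, |P.Psi2 q (P.Z N') (P.Up g) m univ|) / 2)) ?_
      (mul_le_mul_of_nonneg_left (by linarith only [u1, u2]) hc.eM0)
    rw [← Finset.sum_add_distrib, Finset.sum_div, Finset.mul_sum]
    refine Finset.sum_le_sum fun m _ => ?_
    obtain ⟨l, -, -, -, hm⟩ := a3_l1 hc hp hN hi hn m
    rw [abs_mul]
    refine mul_le_mul hm ?_ (abs_nonneg _) hc.eM0
    rw [abs_div, abs_two]
    exact div_le_div_of_nonneg_right (abs_add_le _ _) zero_le_two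
  have b4 : |∑ y, P.yw y * (q (P.yi y) * ((ms (P.Z N (P.ya y)) * ms (P.Z N (P.yb y)) -
      ms (P.Z N' (P.ya y)) * ms (P.Z N' (P.yb y))) * P.Up g (P.ys y) {0}))| ≤
      c.eM * (2 * c.B0 * ∑ y, P.yw y * (q (P.yi y) * F (P.ys y))) := by
    rw [Finset.mul_sum, Finset.mul_sum]
    refine (Finset.abs_sum_le_sum_abs _ _).trans (Finset.sum_le_sum fun y _ => ?_)
    have h1 : |P.Up g (P.ys y) {0}| ≤ F (P.ys y) := by
      have := habs (P.ys y) ∅
      rwa [tl, if_pos rfl] at this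
    have ha := hp.mass (P.ya y)
    have hb := hp.mass (P.yb y)
    have h2 : |ms (P.Z N (P.ya y)) * ms (P.Z N (P.yb y)) -
        ms (P.Z N' (P.ya y)) * ms (P.Z N' (P.yb y))| ≤ c.eM * (2 * c.B0) := by
      rw [hZm, hZm]
      have e : P.z0 m0 (P.ya y) * P.z0 m0 (P.yb y) - ms (P.Z N' (P.ya y)) * ms (P.Z N' (P.yb y)) =
          -((ms (P.Z N' (P.ya y)) - P.z0 m0 (P.ya y)) * P.z0 m0 (P.yb y) +
            (ms (P.Z N' (P.yb y)) - P.z0 m0 (P.yb y)) * ms (P.Z N' (P.ya y))) := by ring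
      have h3 : |ms (P.Z N' (P.ya y))| ≤ c.B0 := by
        have := a3_z0 hP (P.ya y)
        have := hzB (P.ya y)
        rw [abs_le] at ha ⊢
        constructor <;> linarith [ha.1, ha.2]
      have h4 : |P.z0 m0 (P.yb y)| ≤ c.B0 := by
        rw [abs_of_nonneg (a3_z0 hP _)]
        linarith only [hzB (P.yb y), hc.eM0]
      rw [e, abs_neg]
      refine (abs_add_le _ _).trans ?_
      rw [abs_mul, abs_mul]
      linarith only [mul_le_mul ha h4 (abs_nonneg _) hc.eM0, mul_le_mul hb h3 (abs_nonneg _) hc.eM0]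
    rw [abs_mul, abs_mul, abs_mul, abs_of_nonneg (hP.yw y), abs_of_nonneg (hq _).1]
    have h5 := mul_le_mul_of_nonneg_left (mul_le_mul_of_nonneg_left
      (mul_le_mul h2 h1 (abs_nonneg _) ((abs_nonneg _).trans h2)) (hq (P.yi y)).1) (hP.yw y)
    linarith only [h5]
  have e3 : ∑ y, P.yw y * ((1 - q (P.yi y)) * F (P.ys y)) + ∑ y, P.yw y * (q (P.yi y) * F (P.ys y)) =
      ∑ y, P.yw y * F (P.ys y) := by
    rw [← Finset.sum_add_distrib]
    exact Finset.sum_congr rfl fun y _ => by ring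
  have b5 := hp.r3
  rw [← e3] at b5
  have b6 := hc.step
  rw [e1, Sys.Phi_diff q _ _ hfI, a3_split _ _ hc.rho0.ne']
  refine (abs_add_le _ _).trans ?_
  refine (add_le_add (abs_add_le _ _) b2).trans ?_
  refine (add_le_add (add_le_add (abs_add_le _ _) b4) le_rfl).trans ?_
  rw [abs_mul, abs_of_pos hc.rho0]
  linarith [mul_le_mul_of_nonneg_left b1 hc.rho0.le]

end

end

end Pool.Agent.MP_7c51ae_co

/-!
The laws follow the certificate.
-/

set_option autoImplicit false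
set_option linter.unusedSectionVars false

namespace Pool.Agent.MP_7c51ae_co

open Finset Pool.Agent.MP_d802e4_co

noncomputable section

section
variable {S M X Y : Type} [Fintype S] [Fintype M] [Fintype X] [Fintype Y]
  [DecidableEq S] [DecidableEq M] {P : Sys S M X Y} {m0 : S → ℝ}
variable {c : Cst M} {K : ℕ} {q : ℕ → Fin 3 → ℝ} {N : ℕ → S → St → ℝ} {chi : ℕ → M → St → ℝ}
  {F : ℕ → S → ℝ} {mesh Fm : ℝ}

theorem a4_pre (hP : P.Ok m0) (hc : c.Ok P m0) (hg : Grid P m0 c K q N chi F mesh Fm)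
    {L : S → St → ℝ} {u v : ℕ} (hv : v ≤ K) (huv : v = u ∨ v = u + 1)
    (h : Inc (chi u) c.kap ∧ P.Near (chi u) L (N u) c.eps) :
    (Inc (chi v) fun m => (1 - c.xi) * c.kap m) ∧
      P.Near (chi v) L (N v) ((1 + c.xi) * c.eps + c.r2) := by
  rcases huv with rfl | rfl
  · refine ⟨fun m A y hA hy => le_trans ?_ (h.1 m A y hA hy), fun g h1 h2 h3 =>
      (h.2 g h1 h2 h3).trans ?_⟩
    · have := mul_pos hc.xi0 (hc.kap0 m)
      linarith only [this]
    · have := mul_nonneg hc.xi0.le hc.eps0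
      linarith only [hc.r20, this]
  · exact a_move hP hc (hg.F0 _) (hg.pt u (by omega)) (hg.pt _ hv) h.1 (hg.dchi u (by omega))
      (hg.dN u (by omega)) h.2

theorem a4_up {χ g : M → St → ℝ} {G : S → ℝ} (hP : P.Ok m0) (hI : ∀ m, InvT (χ m))
    (ho : ∀ s, P.Up χ s univ - P.Up χ s {0} ≤ G s) (hg : ∀ m, InvT (g m)) (hL : Lip χ 1 g)
    (h0 : ∀ m, g m univ = 0) :
    (∀ s, P.Up g s univ = 0) ∧ ∀ s D, |tl (P.Up g s) D| ≤ G s := by
  have hf0 : ∀ s, P.Up g s univ = 0 := fun s => by simp only [Sys.Up, T_univ, h0, mul_zero, ite_self, sum_const_zero]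
  exact ⟨hf0, a3_abs (Sys.Up_inv hI) (Sys.Up_inv hg) (Sys.Up_lip hP hL) ho hf0⟩

theorem a4_pair (A B : S → St → ℝ) (g : M → St → ℝ) :
    ∑ m, ∑ D, (P.Z A m D - P.Z B m D) * g m D = ∑ s, ∑ D, (A s D - B s D) * P.Up g s D := by
  simp only [sub_mul, Finset.sum_sub_distrib]
  rw [Sys.pair_Z, Sys.pair_Z]

theorem a_ball (hP : P.Ok m0) (hc : c.Ok P m0) (hq : ∀ t i, 0 ≤ q t i ∧ q t i ≤ 1)
    (hg : Grid P m0 c K q N chi F mesh Fm) {t : ℕ} (ht : t ≤ K) (h : ℕ) :
    Inc (chi (min t h)) c.kap ∧ P.Near (chi (min t h)) (P.nu q m0 h t) (N (min t h)) c.eps := by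
  induction h with
  | zero =>
    rw [Nat.min_zero]
    refine ⟨hg.inc0, fun g h1 h2 h3 => ?_⟩
    have hp := hg.pt 0 (Nat.zero_le _)
    obtain ⟨u0, u1⟩ := a4_up hP hp.invC hp.osc h1 h2 h3
    have e0 : ∀ s D, D ≠ univ → P.nu q m0 0 t s D = 0 := fun s D hD => if_neg hD
    rw [a4_pair]
    refine (Finset.abs_sum_le_sum_abs _ _).trans (le_trans (Finset.sum_le_sum fun s _ => ?_) hg.N0)
    have h4 := a3_sig (fun D => P.nu q m0 0 t s D - N 0 s D) (P.Up g s) (by
      rw [hp.emp, sub_zero, e0 s ∅ univ_nonempty.ne_empty.symm]) (u1 s) (u0 s)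
    refine h4.trans (le_of_eq ?_)
    congr 1
    refine Finset.sum_congr rfl fun D hD => ?_
    rw [e0 s D (mem_erase.1 hD).1, zero_sub, abs_neg]
  | succ h ih =>
    have hv : min t (h + 1) ≤ K := (min_le_left _ _).trans ht
    obtain ⟨h1, h2⟩ := a4_pre hP hc hg hv (by omega) ih
    have hL := Sys.nu_law hP hq h t
    exact ⟨(a_sub hP hc (hq _) (hg.F0 _) (hg.pt _ hv) hL h1 h2).2,
      a_contr hP hc (hq _) (hg.F0 _) (hg.pt _ hv) hL h1 h2⟩

theorem a4_sub (hP : P.Ok m0) (hc : c.Ok P m0) (hq : ∀ t i, 0 ≤ q t i ∧ q t i ≤ 1)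
    (hg : Grid P m0 c K q N chi F mesh Fm) {t h v : ℕ} (ht : t ≤ K) (hv : v ≤ K)
    (huv : v = min t h ∨ v = min t h + 1) :
    P.Sub c (q v) (P.nu q m0 h t) (chi v) ∧ Inc (chi v) c.kap := by
  obtain ⟨h1, h2⟩ := a4_pre hP hc hg hv huv (a_ball hP hc hq hg ht h)
  exact a_sub hP hc (hq _) (hg.F0 _) (hg.pt _ hv) (Sys.nu_law hP hq h t) h1 h2

theorem a4_same (t : ℕ) {h : ℕ} (hh : h ≤ t) : P.nu q m0 h t = P.nu q m0 h (t + 1) := by
  induction h with
  | zero => rfl
  | succ h ih =>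
    rw [Sys.nu, Sys.nu, ih (by omega), min_eq_right hh, min_eq_right (by omega)]

/-- the change of the pin probabilities -/
theorem a4_q (hP : P.Ok m0) {a a' : Fin 3 → ℝ} (ha : ∀ i, |a' i - a i| ≤ mesh)
    {A : S → St → ℝ} (hA : Law m0 A) {f : S → St → ℝ} (hf : ∀ s, InvT (f s)) {b : ℝ}
    (hb : ∀ s D, |tl (f s) D| ≤ b) :
    |∑ s, ∑ D, (P.Phi a (P.Z A) s D - P.Phi a' (P.Z A) s D) * f s D| ≤
      mesh * (2 * b * ∑ y, P.yw y * (P.z0 m0 (P.ya y) * P.z0 m0 (P.yb y))) := by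
  have hZ0 := a3_Z0 hP hA.pos
  have hZm : ∀ m, ms (P.Z A m) = P.z0 m0 m := Sys.Z_ms hA.mass
  have e : ∑ s, ∑ D, (P.Phi a (P.Z A) s D - P.Phi a' (P.Z A) s D) * f s D =
      ∑ y, P.yw y * ((a' (P.yi y) - a (P.yi y)) *
        ((∑ D, ∑ E, P.Z A (P.ya y) D * P.Z A (P.yb y) E * tl (f (P.ys y)) (D ∩ E)) -
          P.z0 m0 (P.ya y) * P.z0 m0 (P.yb y) * f (P.ys y) {0})) := by
    simp only [sub_mul, Finset.sum_sub_distrib, Sys.Phi_sum _ _ _ (hf _), hZm]
    rw [Finset.sum_comm, Finset.sum_comm (s := (univ : Finset S)), ← Finset.sum_sub_distrib]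
    refine Finset.sum_congr rfl fun y _ => ?_
    simp only [Finset.sum_ite_eq, mem_univ, if_true]
    ring
  rw [e, Finset.mul_sum, Finset.mul_sum]
  refine (Finset.abs_sum_le_sum_abs _ _).trans (Finset.sum_le_sum fun y _ => ?_)
  have hz := mul_nonneg (a3_z0 hP (P.ya y)) (a3_z0 hP (P.yb y))
  have h1 : |∑ D, ∑ E, P.Z A (P.ya y) D * P.Z A (P.yb y) E * tl (f (P.ys y)) (D ∩ E)| ≤
      P.z0 m0 (P.ya y) * P.z0 m0 (P.yb y) * b := by
    rw [← hZm, ← hZm, ms, ms, Finset.sum_mul_sum, Finset.sum_mul]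
    refine (Finset.abs_sum_le_sum_abs _ _).trans (Finset.sum_le_sum fun D _ => ?_)
    rw [Finset.sum_mul]
    refine (Finset.abs_sum_le_sum_abs _ _).trans (Finset.sum_le_sum fun E _ => ?_)
    have h0 := mul_nonneg (hZ0 (P.ya y) D) (hZ0 (P.yb y) E)
    rw [abs_mul, abs_of_nonneg h0]
    exact mul_le_mul_of_nonneg_left (hb _ _) h0
  have h2 : |P.z0 m0 (P.ya y) * P.z0 m0 (P.yb y) * f (P.ys y) {0}| ≤
      P.z0 m0 (P.ya y) * P.z0 m0 (P.yb y) * b := by
    have := hb (P.ys y) ∅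
    rw [tl, if_pos rfl] at this
    rw [abs_mul, abs_of_nonneg hz]
    exact mul_le_mul_of_nonneg_left this hz
  have h3 := (abs_sub _ _).trans (add_le_add h1 h2)
  rw [abs_mul, abs_mul, abs_of_nonneg (hP.yw y)]
  have h4 := mul_le_mul_of_nonneg_left
    (mul_le_mul (ha (P.yi y)) h3 (abs_nonneg _) ((abs_nonneg _).trans (ha (P.yi y)))) (hP.yw y)
  linarith

/-- one level up for two true laws -/
theorem a4_two (hP : P.Ok m0) {a a' : Fin 3 → ℝ} (ha : ∀ i, |a' i - a i| ≤ mesh)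
    {A B : S → St → ℝ} (hA : Law m0 A) (hB : Law m0 B) {χ : M → St → ℝ} {w ρ : ℝ} (hρ : 0 < ρ)
    (hn : P.Near χ A B w) {f : S → St → ℝ} (hf : ∀ s, InvT (f s)) {b : ℝ}
    (hb : ∀ s D, |tl (f s) D| ≤ b) (lA : Lip χ ρ (P.Psi2 a' (P.Z A) f))
    (lB : Lip χ ρ (P.Psi2 a' (P.Z B) f)) :
    |∑ s, ∑ D, (P.Phi a (P.Z A) s D - P.Phi a' (P.Z B) s D) * f s D| ≤
      ρ * w + mesh * (2 * b * ∑ y, P.yw y * (P.z0 m0 (P.ya y) * P.z0 m0 (P.yb y))) := by
  have hZA : ∀ m, ms (P.Z A m) = P.z0 m0 m := Sys.Z_ms hA.mass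
  have hZB : ∀ m, ms (P.Z B m) = P.z0 m0 m := Sys.Z_ms hB.mass
  have e1 : ∑ s, ∑ D, (P.Phi a (P.Z A) s D - P.Phi a' (P.Z B) s D) * f s D =
      ∑ s, ∑ D, (P.Phi a' (P.Z A) s D - P.Phi a' (P.Z B) s D) * f s D +
        ∑ s, ∑ D, (P.Phi a (P.Z A) s D - P.Phi a' (P.Z A) s D) * f s D := by
    simp only [sub_mul, Finset.sum_sub_distrib]
    ring
  have hG : Lip χ ρ fun m D => (P.Psi2 a' (P.Z A) f m D + P.Psi2 a' (P.Z B) f m D) / 2 := by
    intro m D y hD hy
    have h1 := lA m D y hD hy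
    have h2 := lB m D y hD hy
    rw [abs_le] at h1 h2 ⊢
    constructor <;> linarith only [h1.1, h1.2, h2.1, h2.2]
  have hGI : ∀ m, InvT fun D => (P.Psi2 a' (P.Z A) f m D + P.Psi2 a' (P.Z B) f m D) / 2 :=
    fun m t D => by
      simp only [a3_psi_inv _ (Sys.Z_inv hA.inv) hf m t D, a3_psi_inv _ (Sys.Z_inv hB.inv) hf m t D]
  have b1 := a3_near hρ hn hGI hG
  have hm : ∀ m, (ms fun D => P.Z A m D - P.Z B m D) = 0 := fun m => by
    have h1 := hZA m
    have h2 := hZB m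
    unfold ms at h1 h2 ⊢
    rw [Finset.sum_sub_distrib, h1, h2, sub_self]
  rw [e1, Sys.Phi_diff a' _ _ hf, a3_split _ _ hρ.ne']
  simp only [hm, hZA, hZB, sub_self, zero_mul, mul_zero, Finset.sum_const_zero, add_zero]
  refine (abs_add_le _ _).trans (add_le_add ?_ (a4_q hP ha hA hf hb))
  rw [abs_mul, abs_of_pos hρ]
  exact mul_le_mul_of_nonneg_left b1 hρ.le

theorem a4_lip {a : Fin 3 → ℝ} {A : S → St → ℝ} {χ g : M → St → ℝ} (hP : P.Ok m0)
    (hc : c.Ok P m0) (ha : ∀ i, 0 ≤ a i ∧ a i ≤ 1) (hA : Law m0 A) (hI : ∀ m, InvT (χ m))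
    (hg : ∀ m, InvT (g m)) (hL : Lip χ 1 g) (hs : P.Sub c a A χ) :
    Lip χ c.rho (P.Psi2 a (P.Z A) (P.Up g)) := fun m D y hD hy => by
  have h1 := Sys.Psi2_lip hP ha (a3_Z0 hP hA.pos) (Sys.Up_inv hI) (Sys.Up_inv hg)
    (Sys.Up_lip hP hL) m D y hD hy
  have h2 := hs m D y hD hy
  have h3 := mul_pos hc.rho0 (hc.kap0 m)
  linarith

theorem a4_near (hP : P.Ok m0) (hc : c.Ok P m0) (hq : ∀ t i, 0 ≤ q t i ∧ q t i ≤ 1)
    (hg : Grid P m0 c K q N chi F mesh Fm) {t : ℕ} (ht : t < K) {w : ℝ} (hw0 : 0 ≤ w)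
    (hw : c.rho * w +
      mesh * (2 * |Fm| * ∑ y, P.yw y * (P.z0 m0 (P.ya y) * P.z0 m0 (P.yb y))) ≤ w)
    {h : ℕ} (hh : t ≤ h) : P.Near (chi (t + 1)) (P.nu q m0 h t) (P.nu q m0 h (t + 1)) w := by
  induction h, hh using Nat.le_induction with
  | base =>
    intro g _ _ _
    rw [a4_same t le_rfl]
    simpa only [sub_self, zero_mul, sum_const_zero, abs_zero] using hw0
  | succ h hh ih =>
    intro g h1 h2 h3
    have hp := hg.pt (t + 1) ht
    obtain ⟨-, u1⟩ := a4_up hP hp.invC hp.osc h1 h2 h3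
    have hA := Sys.nu_law hP hq h t
    have hB := Sys.nu_law hP hq h (t + 1)
    have sA := (a4_sub hP hc hq hg (t := t) (h := h) (v := t + 1) ht.le ht (by omega)).1
    have sB := (a4_sub hP hc hq hg (t := t + 1) (h := h) (v := t + 1) ht ht (by omega)).1
    rw [a4_pair, Sys.nu, Sys.nu, min_eq_left (by omega : t ≤ h + 1),
      min_eq_left (by omega : t + 1 ≤ h + 1)]
    refine (a4_two hP (fun i => ?_) hA hB hc.rho0 ih (Sys.Up_inv h1) (b := |Fm|) (fun s D => ?_)
      (a4_lip hP hc (hq _) hA hp.invC h1 h2 sA) (a4_lip hP hc (hq _) hB hp.invC h1 h2 sB)).trans hw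
    · rw [abs_of_nonneg (hg.qm t ht i).1]
      exact (hg.qm t ht i).2
    · exact (u1 s D).trans ((Finset.single_le_sum (fun s _ => hg.F0 (t + 1) s) (mem_univ s)).trans
        ((hg.Fm (t + 1) ht).trans (le_abs_self _)))

end

section
variable {S M X Y : Type} [Fintype S] [Fintype M] [Fintype X] [Fintype Y]
  [DecidableEq S] [DecidableEq M] {P : Sys S M X Y} {m0 : S → ℝ}
variable {c : Cst M}

theorem a_win (hP : P.Ok m0) (hc : c.Ok P m0) (Fm : ℝ) : ∃ C3 : ℝ, 0 ≤ C3 ∧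
    ∀ (K : ℕ) (q : ℕ → Fin 3 → ℝ) (N : ℕ → S → St → ℝ) (chi : ℕ → M → St → ℝ) (F : ℕ → S → ℝ)
      (mesh : ℝ), (∀ t i, 0 ≤ q t i ∧ q t i ≤ 1) → Grid P m0 c K q N chi F mesh Fm →
      ∀ h t s, K ≤ h → t < K →
        ∑ D, (P.nu q m0 h t s D - P.nu q m0 h (t + 1) s D) * (D.card : ℝ) ≤ C3 * mesh := by
  obtain ⟨W, hW⟩ : ∃ W, W = ∑ y, P.yw y * (P.z0 m0 (P.ya y) * P.z0 m0 (P.yb y)) := ⟨_, rfl⟩
  have hW0 : 0 ≤ W := hW ▸ Finset.sum_nonneg fun y _ =>
    mul_nonneg (hP.yw y) (mul_nonneg (a3_z0 hP _) (a3_z0 hP _))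
  have hC0 : 0 ≤ P.C0 m0 c := mul_nonneg (Finset.sum_nonneg fun y _ =>
    mul_nonneg (hP.yw y) (add_nonneg (a3_z0 hP _) (a3_z0 hP _)))
    (Finset.sum_nonneg fun m _ => (one_div_pos.2 (hc.kap0 m)).le)
  have hr : 0 < 1 - c.rho := sub_pos.2 hc.rho1
  have hV0 : 0 ≤ 2 * |Fm| * W / (1 - c.rho) := by positivity
  refine ⟨(P.C0 m0 c + 1) * (2 * |Fm| * W / (1 - c.rho)) + 2 * 16 * W, by positivity, ?_⟩
  intro K q N chi F mesh hq hg h t s hh ht
  obtain ⟨h, rfl⟩ : ∃ h', h = h' + 1 := ⟨h - 1, by omega⟩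
  have hth : t ≤ h := by omega
  have hm0 : 0 ≤ mesh := (hg.qm t ht 0).1.trans (hg.qm t ht 0).2
  have hn := a4_near hP hc hq hg ht (w := mesh * (2 * |Fm| * W / (1 - c.rho)))
    (mul_nonneg hm0 hV0) (by
      rw [← hW]
      apply le_of_eq
      field_simp
      ring) hth
  have hA := Sys.nu_law hP hq h t
  have hB := Sys.nu_law hP hq h (t + 1)
  have hi := (a4_sub hP hc hq hg (t := t) (h := h) (v := t + 1) ht.le ht (by omega)).2
  have hb : ∀ s' : S, 0 ≤ (if s' = s then (1 : ℝ) else 0) ∧ (if s' = s then (1 : ℝ) else 0) ≤ 1 :=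
    fun s' => by split_ifs <;> norm_num
  have up : ∀ {g : M → St → ℝ}, Lip (chi (t + 1)) (P.C0 m0 c) g →
      Lip (chi (t + 1)) (P.C0 m0 c + 1) g := fun hL m D y hD hy => by
    have h1 := hL m D y hD hy
    have h2 := (hc.kap0 m).le.trans (hi m D y hD hy)
    linarith only [h1, h2]
  have h2 := a4_two (mesh := mesh) hP (a := q t) (a' := q (t + 1)) (fun i => by
      rw [abs_of_nonneg (hg.qm t ht i).1]
      exact (hg.qm t ht i).2) hA hB (ρ := P.C0 m0 c + 1) (by linarith only [hC0]) hn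
    (f := fun s' D => (if s' = s then (1 : ℝ) else 0) * D.card)
    (fun s' t D => by simp only [tr_card]) (b := 16) (fun s' D => by
      have h1 : ∀ E : St, |(if s' = s then (1 : ℝ) else 0) * E.card| ≤ 16 := fun E => by
        have h3 : (E.card : ℝ) ≤ 16 := by
          have := card_le_univ E
          rw [Fintype.card_fin] at this
          exact_mod_cast this
        rw [abs_of_nonneg (mul_nonneg (hb s').1 (Nat.cast_nonneg _))]
        exact (mul_le_of_le_one_left (Nat.cast_nonneg _) (hb s').2).trans h3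
      by_cases hD : D = ∅
      · rw [tl, if_pos hD]
        exact h1 _
      · rw [tl, if_neg hD]
        exact h1 _)
    (up (a_card hP hc (hq _) hA hi hb)) (up (a_card hP hc (hq _) hB hi hb))
  rw [Finset.sum_eq_single s (fun s' _ hs => by simp [hs]) (fun hs => (hs (mem_univ s)).elim),
    ← hW] at h2
  simp only [if_true, one_mul] at h2
  rw [Sys.nu, Sys.nu, min_eq_left (by omega : t ≤ h + 1), min_eq_left (by omega : t + 1 ≤ h + 1)]
  have h3 := le_abs_self (∑ D, (P.Phi (q t) (P.Z (P.nu q m0 h t)) s D -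
    P.Phi (q (t + 1)) (P.Z (P.nu q m0 h (t + 1))) s D) * (D.card : ℝ))
  linarith only [h2, h3]

end

end

end Pool.Agent.MP_7c51ae_co

/-!
From the certificate to the bounds.
-/

set_option autoImplicit false

namespace Pool.Agent.MP_7c51ae_co

open Finset Pool.Agent.MP_d802e4_co

noncomputable section

theorem a5_unif {I : Set ℝ} (hI : IsCompact I) {G : ℝ × ℝ → ℝ} (hG : ContinuousOn G (I ×ˢ I))
    (h0 : ∀ x, G (x, x) = 0) {ε : ℝ} (hε : 0 < ε) :
    ∀ᶠ L : ℕ in Filter.atTop, ∀ x ∈ I, x + 2 / L ∈ I → G (x, x + 2 / L) ≤ ε := by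
  obtain ⟨δ, hδ, h⟩ := Metric.uniformContinuousOn_iff.1
    ((hI.prod hI).uniformContinuousOn_of_continuous hG) ε hε
  filter_upwards [(tendsto_const_div_atTop_nhds_zero_nat (2 : ℝ)).eventually (gt_mem_nhds hδ)]
    with L hL x hx hy
  have := h (x, x + 2 / L) ⟨hx, hy⟩ (x, x) ⟨hx, hx⟩ (by
    rw [Prod.dist_eq, dist_self, Real.dist_eq, add_sub_cancel_left, abs_of_nonneg (by positivity)]
    exact max_lt hδ hL)
  rw [h0, Real.dist_eq, sub_zero] at this
  exact (le_abs_self _).trans this.le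

theorem a5_grid (J : ℕ) {L : ℕ} (hL : 0 < L) : ∃ (j : ℕ → ℕ) (x : ℕ → ℝ), j 0 = 0 ∧ x 0 = -1 ∧
    j ((J + 1) * L) = J ∧ x ((J + 1) * L) = 1 ∧
    (∀ t ≤ (J + 1) * L, j t ≤ J ∧ x t ∈ Set.Icc (-1 : ℝ) 1) ∧
    ∀ t < (J + 1) * L, x t + 2 / L ∈ Set.Icc (-1 : ℝ) 1 ∧
      ((j (t + 1) = j t ∧ x (t + 1) = x t + 2 / L) ∨
        (j t < J ∧ j (t + 1) = j t + 1 ∧ x (t + 1) = -1 ∧ x t + 2 / L = 1)) := by
  have h0 : (0 : ℝ) < L := Nat.cast_pos.2 hL
  have h1 : ∀ t a : ℕ, a * L ≤ t → t ≤ (a + 1) * L →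
      -1 + 2 * ((t : ℝ) - a * L) / L ∈ Set.Icc (-1 : ℝ) 1 := fun t a h2 h3 => by
    have h4 : (a : ℝ) * L ≤ t := by exact_mod_cast h2
    have h5 : (t : ℝ) ≤ (a + 1) * L := by exact_mod_cast h3
    have h6 : 0 ≤ 2 * ((t : ℝ) - a * L) / L := div_nonneg (by linarith only [h4]) h0.le
    have h7 : 2 * ((t : ℝ) - a * L) / L ≤ 2 := (div_le_iff₀ h0).2 (by linarith only [h5])
    exact ⟨by linarith only [h6], by linarith only [h7]⟩
  have h2 : ∀ t a : ℕ, -1 + 2 * (((t + 1 : ℕ) : ℝ) - a * L) / L =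
      -1 + 2 * ((t : ℝ) - a * L) / L + 2 / L := fun t a => by push_cast; ring
  have h3 : ∀ t : ℕ, t < (t / L + 1) * L := fun t => by
    rw [mul_comm]
    exact Nat.lt_mul_div_succ t hL
  have h4 : min ((J + 1) * L / L) J = J := by
    rw [Nat.mul_div_cancel _ hL, min_eq_right J.le_succ]
  refine ⟨fun t => min (t / L) J, fun t => -1 + 2 * ((t : ℝ) - (min (t / L) J : ℕ) * L) / L,
    by simp, by simp, h4, ?_, fun t ht => ⟨min_le_right _ _, h1 _ _ ?_ ?_⟩, fun t ht => ?_⟩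
  · simp only [h4]
    push_cast
    field_simp
    ring
  · exact (Nat.mul_le_mul_right L (min_le_left _ _)).trans (Nat.div_mul_le_self t L)
  · rcases le_total (t / L) J with h | h
    · rw [min_eq_left h]
      exact (h3 t).le
    · rwa [min_eq_right h]
  · have h5 : t / L ≤ J := Nat.lt_succ_iff.1 ((Nat.div_lt_iff_lt_mul hL).2 ht)
    simp only [min_eq_left h5, ← h2]
    refine ⟨h1 _ _ ((Nat.div_mul_le_self t L).trans t.le_succ) (h3 t), ?_⟩
    by_cases h6 : min ((t + 1) / L) J = t / L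
    · exact .inl ⟨h6, by rw [h6]⟩
    have h7 : (t + 1) / L ≤ t / L + 1 := Nat.div_le_of_le_mul (by rw [mul_comm]; exact h3 t)
    have h8 : t / L ≤ (t + 1) / L := Nat.div_le_div_right t.le_succ
    have h9 : (t + 1) / L = t / L + 1 := by omega
    have h10 : t + 1 = (t / L + 1) * L :=
      le_antisymm (h3 t) (h9 ▸ Nat.div_mul_le_self (t + 1) L)
    have h11 : min ((t + 1) / L) J = t / L + 1 := by omega
    have h12 : ((t + 1 : ℕ) : ℝ) = ((t / L : ℕ) + 1) * L := by exact_mod_cast h10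
    refine .inr ⟨by omega, h11, ?_, ?_⟩
    · rw [h11, h12]
      simp only [Nat.cast_add, Nat.cast_one, sub_self, mul_zero, zero_div, add_zero]
    · rw [h12]
      field_simp
      ring

section
variable {S M X Y : Type} [Fintype S] [Fintype M] [Fintype X] [Fintype Y]
  [DecidableEq S] [DecidableEq M] {P : Sys S M X Y} {m0 : S → ℝ}

theorem grid_exists (h : Cert P m0) : ∃ (c : Cst M) (Fm : ℝ), c.Ok P m0 ∧ ∀ mesh : ℝ, 0 < mesh →
    ∃ (K : ℕ) (q : ℕ → Fin 3 → ℝ) (N : ℕ → S → St → ℝ) (chi : ℕ → M → St → ℝ) (F : ℕ → S → ℝ),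
      Grid P m0 c K q N chi F mesh Fm := by
  obtain ⟨J, c, q, N, chi, F, hc, hF, hp, hq, hN, hchi, q0, q1, qj, cj, Nj, i0, n0⟩ := h
  refine ⟨c, ∑ j ∈ range (J + 1), ∑ s, F j s, hc, fun mesh hm => ?_⟩
  have f1 : ∀ {g : ℝ → ℝ}, ContinuousOn g (Set.Icc (-1) 1) → ContinuousOn
      (fun p : ℝ × ℝ => g p.2 - g p.1) (Set.Icc (-1) 1 ×ˢ Set.Icc (-1) 1) := fun hg =>
    (hg.comp continuousOn_snd fun _ h => h.2).sub (hg.comp continuousOn_fst fun _ h => h.1)
  have e1 := (Filter.eventually_all_finite (Set.finite_Iic J)).2 fun j hj =>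
    Filter.eventually_all.2 fun i => a5_unif isCompact_Icc (f1 (hq j hj i).2)
      (fun _ => sub_self _) hm
  have e2 := (Filter.eventually_all_finite (Set.finite_Iic J)).2 fun j hj =>
    Filter.eventually_all.2 fun m => Filter.eventually_all.2 fun A => a5_unif isCompact_Icc
      (f1 (hchi j hj m A)).abs (fun _ => by simp) (div_pos (mul_pos hc.xi0 (hc.kap0 m)) four_pos)
  have e3 := (Filter.eventually_all_finite (Set.finite_Iic J)).2 fun j hj =>
    (Filter.eventually_all_finite (Set.finite_Iic J)).2 fun k _ => a5_unif isCompact_Icc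
      (G := fun p => ∑ s, F k s * ∑ D ∈ univ.erase univ, |N j p.2 s D - N j p.1 s D|)
      (continuousOn_finsetSum _ fun s _ => continuousOn_const.mul
        (continuousOn_finsetSum _ fun D _ => (f1 (hN j hj s D)).abs))
      (fun _ => by simp only [sub_self, abs_zero, sum_const_zero, mul_zero]) (half_pos hc.r20)
  obtain ⟨L, hL, a1, a2, a3⟩ := ((Filter.eventually_gt_atTop 0).and (e1.and (e2.and e3))).exists
  obtain ⟨j, x, b1, b2, b3, b4, b5, b6⟩ := a5_grid J hL
  have h0 : (0 : ℝ) ≤ 2 / L := by positivity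
  refine ⟨(J + 1) * L, fun t => q (j t) (x t), fun t => N (j t) (x t), fun t => chi (j t) (x t),
    fun t => F (j t), fun t ht => hp _ (b5 t ht).1 _ (b5 t ht).2, fun t => hF _, fun t ht => ?_,
    fun i => ?_, fun i => ?_, fun t ht i => ?_, fun t ht m A => ?_, fun t ht => ?_, ?_, ?_⟩
  · exact single_le_sum (f := fun j => ∑ s, F j s) (fun k _ => sum_nonneg fun s _ => hF k s)
      (mem_range.2 (Nat.lt_succ_iff.2 (b5 t ht).1))
  · simp only [b1, b2, q0]
  · simp only [b3, b4, q1]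
  · obtain ⟨c1, c2⟩ := b5 t ht.le
    obtain ⟨c3, c4⟩ := b6 t ht
    have e : q (j (t + 1)) (x (t + 1)) = q (j t) (x t + 2 / L) := by
      rcases c4 with ⟨d1, d2⟩ | ⟨d1, d2, d3, d4⟩
      · rw [d1, d2]
      · rw [d2, d3, d4, qj _ d1]
    simp only [e]
    exact ⟨sub_nonneg.2 ((hq _ c1 i).1 c2 c3 (by linarith only [h0])), a1 _ c1 i _ c2 c3⟩
  · obtain ⟨c1, c2⟩ := b5 t ht.le
    obtain ⟨c3, c4⟩ := b6 t ht
    have c5 : |chi (j t) (x t + 2 / L) m A - chi (j t) (x t) m A| ≤ _ := a2 _ c1 m A _ c2 c3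
    rcases c4 with ⟨d1, d2⟩ | ⟨d1, d2, d3, d4⟩
    · simp only [d1, d2]
      linarith only [mul_pos hc.xi0 (hc.kap0 m), c5]
    · simp only [d2, d3]
      rw [d4] at c5
      linarith only [cj _ d1 m A, abs_sub_le (chi (j t + 1) (-1) m A) (chi (j t) 1 m A)
        (chi (j t) (x t) m A), c5]
  · obtain ⟨c1, c2⟩ := b5 t ht.le
    obtain ⟨c3, c4⟩ := b6 t ht
    rcases c4 with ⟨d1, d2⟩ | ⟨d1, d2, d3, d4⟩
    · simp only [d1, d2]
      exact (a3 _ c1 _ c1 _ c2 c3).trans (half_le_self hc.r20.le)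
    · simp only [d2, d3]
      have c5 := a3 _ c1 (j t + 1) d1 _ c2 c3
      simp only [d4] at c5
      refine le_trans ?_ ((add_le_add (Nj _ d1) c5).trans (add_halves _).le)
      rw [← sum_add_distrib]
      refine sum_le_sum fun s _ => ?_
      rw [← mul_add, ← sum_add_distrib]
      exact mul_le_mul_of_nonneg_left (sum_le_sum fun D _ => abs_sub_le _ _ _) (hF _ s)
  · simp only [b1, b2]
    exact i0
  · simp only [b1, b2]
    exact n0

omit [Fintype S] in
theorem a5_C0 (hP : P.Ok m0) {c : Cst M} (hc : c.Ok P m0) : 0 ≤ P.C0 m0 c := by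
  have h : ∀ m, 0 ≤ P.z0 m0 m := fun m => sum_nonneg fun x _ => by
    split_ifs
    exacts [mul_nonneg (hP.xw x) (hP.mp _), le_rfl]
  exact mul_nonneg (sum_nonneg fun y _ => mul_nonneg (hP.yw y) (add_nonneg (h _) (h _)))
    (sum_nonneg fun m _ => (one_div_pos.2 (hc.kap0 m)).le)

theorem a5_Q {K : ℕ} {q : ℕ → Fin 3 → ℝ} (h0 : ∀ i, q 0 i = 0) {t : ℕ} (ht : t ≤ K) :
    Qof (fun i (a : Fin K) => q (a + 1) i - q a i) t = q t := by
  funext i
  rw [Qof, Fin.sum_univ_eq_sum_range (fun a => if a < t then q (a + 1) i - q a i else 0),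
    ← sum_filter, show (range K).filter (· < t) = range t by ext a; simp; omega,
    sum_range_sub (fun a => q a i), h0, sub_zero]

theorem abs_out (hP : P.Ok m0) (h : Cert P m0) : AbsOut P m0 := by
  obtain ⟨c, Fm, hc, hg⟩ := grid_exists h
  obtain ⟨C3, h3, hw⟩ := a_win hP hc Fm
  have h0 := a5_C0 hP hc
  have hρ := hc.rho0
  refine ⟨c.rho, 16 * Fintype.card S + P.C0 m0 c * |Fm| / c.rho, hρ.le, hc.rho1, by positivity,
    fun δ hδ => ?_⟩
  obtain ⟨K, q, N, chi, F, hG⟩ := hg (δ / (C3 + 1)) (by positivity)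
  set pk : Fin 3 → Fin K → ℝ := fun i a => q (a + 1) i - q a i
  have hQ : ∀ t ≤ K, Qof pk t = q t := fun t ht => a5_Q hG.q0 ht
  have hp : ∀ i, IsP (pk i) := fun i => ⟨fun a => (hG.qm a a.2 i).1, by
    rw [← hG.qK i, ← hQ K le_rfl]
    exact sum_congr rfl fun a _ => (if_pos a.2).symm⟩
  have hq := Qof_mem hp
  have hG' : Grid P m0 c K (Qof pk) N chi F (δ / (C3 + 1)) Fm := { hG with
    pt := fun t ht => hQ t ht ▸ hG.pt t ht
    q0 := fun i => hQ 0 K.zero_le ▸ hG.q0 i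
    qK := fun i => hQ K le_rfl ▸ hG.qK i
    qm := fun t ht i => by
      rw [hQ t ht.le, hQ (t + 1) ht]
      exact hG.qm t ht i }
  refine ⟨K, pk, hp, fun i a => (hG.qm a a.2 i).2.trans (div_le_self hδ.le (by linarith)),
    fun h t s hh ht => (hw K _ N chi F _ hq hG' h t s hh ht).trans ?_, fun t hs b k ht hh hb => ?_⟩
  · rw [← mul_div_assoc, div_le_iff₀ (by linarith only [h3])]
    linarith only [hδ]
  cases k with
  | zero =>
    rw [pow_zero, mul_one]
    refine le_trans (sum_le_card_nsmul _ _ 16 fun s _ => ?_) ?_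
    · simp only [Sys.It, card_univ, Fintype.card_fin, card_singleton]
      push_cast
      linarith only [(hb s).2]
    · rw [card_univ, nsmul_eq_mul, mul_comm]
      exact le_add_of_nonneg_right (by positivity)
  | succ k =>
    have a1 := fun h (hh : K ≤ h) => by
      simpa only [min_eq_left (ht.le.trans hh)] using a_ball hP hc hq hG' ht.le h
    have a2 := a_it hP hc (hq t) (hG'.pt t ht.le) (a1 K le_rfl).1
      (fun i => Sys.nu_law hP hq (hs i) t) (fun i => (a_sub hP hc (hq t) (hG.F0 t) (hG'.pt t ht.le)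
        (Sys.nu_law hP hq (hs i) t) (fun m A y h1 h2 => le_trans
          (mul_le_of_le_one_left (hc.kap0 m).le (by linarith [hc.xi0]))
          ((a1 K le_rfl).1 m A y h1 h2)) fun g h1 h2 h4 => ((a1 _ (hh i)).2 g h1 h2 h4).trans (by
            linarith [mul_nonneg hc.xi0.le hc.eps0, hc.r20])).1) hb k
    refine a2.trans ?_
    calc _ ≤ P.C0 m0 c * c.rho ^ k * |Fm| := by
          gcongr
          exact (hG.Fm t ht.le).trans (le_abs_self _)
      _ = P.C0 m0 c * |Fm| / c.rho * c.rho ^ (k + 1) := by field_simp; ring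
      _ ≤ _ := by
          gcongr
          exact le_add_of_nonneg_left (by positivity)

end

end

end Pool.Agent.MP_7c51ae_co

/-!
Scores.
-/

set_option autoImplicit false

namespace Pool.Agent.MP_7c51ae_co

open Finset Pool.Agent.MP_d802e4_co

noncomputable section

theorem s1_rel_symm (e : Bool) (x y : Fin 16) : rel e x y = rel e y x := by
  unfold rel
  rw [Nat.xor_comm x.val y.val]

theorem s1_xr_xr (x s : Fin 16) : xr (xr x s) s = x := by
  apply Fin.ext
  simp [xr]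

theorem s1_xr_comm (x s : Fin 16) : xr x s = xr s x := by
  apply Fin.ext
  simp [xr, Nat.xor_comm]

theorem s1_xr_assoc (x t s : Fin 16) : xr x (xr t s) = xr (xr x s) t := by
  apply Fin.ext
  simp only [xr]
  rw [Nat.xor_comm t.val s.val, Nat.xor_assoc]

theorem s1_xr_inj {x y t : Fin 16} (h : xr x t = xr y t) : x = y := by
  rw [← s1_xr_xr x t, h, s1_xr_xr]

theorem s1_rel_xr (e : Bool) (s x y : Fin 16) : rel e (xr x s) (xr y s) = rel e x y := by
  have h : (xr x s).val ^^^ (xr y s).val = x.val ^^^ y.val := by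
    simp only [xr]
    rw [Nat.xor_comm y.val s.val, Nat.xor_assoc, ← Nat.xor_assoc s.val, Nat.xor_self, Nat.zero_xor]
  unfold rel
  rw [h]

theorem s1_rel_ex (e : Bool) (x : Fin 16) : ∃ y, rel e x y = true := by
  revert e x
  decide

theorem s1_co_top : co ⊤ = ⊤ := rfl

theorem s1_co_coe (p : ℕ ×ₗ ℕ) : co (p : Sc) = (((ofLex p).1 : ℕ) : WithTop ℕ) := rfl

theorem s1_co_mono : Monotone co := by
  intro a b h
  induction b using WithTop.recTopCoe with
  | top => exact le_top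
  | coe q =>
    induction a using WithTop.recTopCoe with
    | top => exact absurd h (by simp)
    | coe p =>
      rw [s1_co_coe, s1_co_coe]
      have h' : p ≤ q := WithTop.coe_le_coe.1 h
      have := Prod.Lex.monotone_fst _ _ h'
      exact_mod_cast this

theorem s1_lt_of_co {a b : Sc} (h : co a < co b) : a < b :=
  lt_of_not_ge fun h' => absurd (s1_co_mono h') (not_le.2 h)

theorem s1_co_min (a b : Sc) : co (min a b) = min (co a) (co b) := s1_co_mono.map_min

theorem s1_ne_top_of_co {a : Sc} {θ : ℕ} (h : co a ≤ (θ : WithTop ℕ)) : a ≠ ⊤ := by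
  rintro rfl
  rw [s1_co_top] at h
  exact absurd h (by simp)

/-- a score with the tie broken -/
def s1_key (t : Fin 16) (q : ℕ ×ₗ ℕ) (x : Fin 16) : ℕ ×ₗ ℕ :=
  toLex ((ofLex q).1, 16 * (ofLex q).2 + (xr x t).val)

theorem s1_vl_eq (t : Fin 16) (θ : ℕ) (b1 b2 : Fin 16 → Sc) (x : Fin 16) :
    vl t θ b1 b2 x = s1_key t (pre θ b1 b2 x) x := rfl

theorem s1_key_le (t : Fin 16) (q q' : ℕ ×ₗ ℕ) (x y : Fin 16) :
    s1_key t q x ≤ s1_key t q' y ↔ q < q' ∨ (q = q' ∧ xr x t ≤ xr y t) := by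
  obtain ⟨⟨a, b⟩, rfl⟩ := toLex.surjective q
  obtain ⟨⟨a', b'⟩, rfl⟩ := toLex.surjective q'
  have h1 := (xr x t).isLt
  have h2 := (xr y t).isLt
  simp only [s1_key, ofLex_toLex, Prod.Lex.toLex_le_toLex, Prod.Lex.toLex_lt_toLex, toLex_inj,
    Prod.mk.injEq, Fin.le_def]
  omega

theorem s1_key_inj {t : Fin 16} {q q' : ℕ ×ₗ ℕ} {x y : Fin 16} (h : s1_key t q x = s1_key t q' y) :
    x = y := by
  have h1 := (s1_key_le t q q' x y).1 h.le
  have h2 := (s1_key_le t q' q y x).1 h.ge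
  rcases h1 with h1 | ⟨h1, h1'⟩
  · rcases h2 with h2 | ⟨h2, -⟩
    · exact absurd h1 (not_lt.2 h2.le)
    · exact absurd h1 (not_lt.2 h2.le)
  · rcases h2 with h2 | ⟨-, h2⟩
    · exact absurd h2 (not_lt.2 h1.le)
    · exact s1_xr_inj (le_antisymm h1' h2)

theorem s1_key_mono (t : Fin 16) {q q' : ℕ ×ₗ ℕ} (x : Fin 16) (h : q ≤ q') :
    s1_key t q x ≤ s1_key t q' x := by
  rw [s1_key_le]
  rcases h.lt_or_eq with h | h
  · exact Or.inl h
  · exact Or.inr ⟨h, le_rfl⟩

theorem s1_le_of_key {t : Fin 16} {q q' : ℕ ×ₗ ℕ} {x y : Fin 16} (h : s1_key t q x ≤ s1_key t q' y) :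
    q ≤ q' := by
  rcases (s1_key_le t q q' x y).1 h with h | h
  · exact h.le
  · exact h.1.le

theorem s1_co_key (t : Fin 16) (q : ℕ ×ₗ ℕ) (x : Fin 16) : co (s1_key t q x : Sc) = co (q : Sc) := rfl

theorem s1_pre_coe (θ : ℕ) (b1 b2 : Fin 16 → Sc) (x : Fin 16) :
    ((pre θ b1 b2 x : ℕ ×ₗ ℕ) : Sc) =
      min ((toLex (θ, 0) : ℕ ×ₗ ℕ) : Sc) (min (b1 x) (b2 x)) := by
  unfold pre
  have h : min ((toLex (θ, 0) : ℕ ×ₗ ℕ) : Sc) (min (b1 x) (b2 x)) ≠ ⊤ :=
    ne_top_of_le_ne_top WithTop.coe_ne_top (min_le_left _ _)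
  obtain ⟨q, hq⟩ := WithTop.ne_top_iff_exists.1 h
  rw [← hq]
  rfl

theorem s1_co_pre (θ : ℕ) (b1 b2 : Fin 16 → Sc) (x : Fin 16) :
    co (pre θ b1 b2 x : Sc) = min (θ : WithTop ℕ) (min (co (b1 x)) (co (b2 x))) := by
  rw [s1_pre_coe, s1_co_min, s1_co_min]
  rfl

theorem s1_co_vl (t : Fin 16) (θ : ℕ) (b1 b2 : Fin 16 → Sc) (x : Fin 16) :
    co (vl t θ b1 b2 x : Sc) = co (pre θ b1 b2 x : Sc) := rfl

theorem s1_comb_eq_top (t : Fin 16) (θ : ℕ) (b1 b2 : Fin 16 → Sc) (x : Fin 16) :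
    comb t θ b1 b2 x = ⊤ ↔ ∀ y, vl t θ b1 b2 y ≤ vl t θ b1 b2 x := by
  unfold comb
  split_ifs with h
  · exact ⟨fun _ => h, fun _ => rfl⟩
  · exact ⟨fun h' => absurd h' WithTop.coe_ne_top, fun h' => absurd h' h⟩

theorem s1_comb_of_ne {t : Fin 16} {θ : ℕ} {b1 b2 : Fin 16 → Sc} {x : Fin 16}
    (h : comb t θ b1 b2 x ≠ ⊤) : comb t θ b1 b2 x = (vl t θ b1 b2 x : Sc) := by
  have h' := fun hh => h ((s1_comb_eq_top t θ b1 b2 x).2 hh)
  unfold comb
  rw [if_neg h']

theorem s1_vl_le_comb (t : Fin 16) (θ : ℕ) (b1 b2 : Fin 16 → Sc) (x : Fin 16) :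
    (vl t θ b1 b2 x : Sc) ≤ comb t θ b1 b2 x := by
  by_cases h : comb t θ b1 b2 x = ⊤
  · rw [h]; exact le_top
  · exact (s1_comb_of_ne h).ge

theorem s1_le_Tm {e : Bool} (a : Fin 16 → Sc) {x y : Fin 16} (h : rel e x y = true) :
    a y ≤ Tm e a x :=
  Finset.le_sup (f := a) (Finset.mem_filter.2 ⟨Finset.mem_univ _, h⟩)

theorem s1_Tm_le {e : Bool} {a : Fin 16 → Sc} {x : Fin 16} {c : Sc}
    (h : ∀ y, rel e x y = true → a y ≤ c) : Tm e a x ≤ c :=
  Finset.sup_le fun y hy => h y (Finset.mem_filter.1 hy).2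

theorem s1_Tm_eq (e : Bool) (a : Fin 16 → Sc) (x : Fin 16) :
    ∃ y, rel e x y = true ∧ Tm e a x = a y := by
  obtain ⟨y0, hy0⟩ := s1_rel_ex e x
  obtain ⟨y, hy, hm⟩ := Finset.exists_max_image (univ.filter fun y => rel e x y = true) a
    ⟨y0, Finset.mem_filter.2 ⟨Finset.mem_univ _, hy0⟩⟩
  have hy' := (Finset.mem_filter.1 hy).2
  exact ⟨y, hy', le_antisymm (s1_Tm_le fun z hz => hm z (Finset.mem_filter.2 ⟨Finset.mem_univ _, hz⟩))
    (s1_le_Tm a hy')⟩

theorem s1_Rem_Tm {e : Bool} {θ : ℕ} {a : Fin 16 → Sc} (h : Rem θ (Tm e a)) : Rem θ a := by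
  obtain ⟨x, hx⟩ := h
  obtain ⟨y, -, hy⟩ := s1_Tm_eq e a x
  exact ⟨y, hy ▸ hx⟩

theorem s1_mem_Ls (θ : ℕ) (a : Fin 16 → Sc) (y : Fin 16) :
    y ∈ Ls θ a ↔ (θ : WithTop ℕ) ≤ co (a y) := by
  simp [Ls]

theorem s1_comb_congr (t : Fin 16) (θ : ℕ) {b1 b2 b1' b2' : Fin 16 → Sc}
    (h : ∀ x, min (b1 x) (b2 x) = min (b1' x) (b2' x)) :
    comb t θ b1 b2 = comb t θ b1' b2' := by
  have hp : pre θ b1 b2 = pre θ b1' b2' := by
    funext x
    unfold pre
    rw [h x]
  have hv : vl t θ b1 b2 = vl t θ b1' b2' := by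
    funext x
    rw [s1_vl_eq, s1_vl_eq, hp]
  funext x
  unfold comb
  rw [hv]

theorem comb_comm (t : Fin 16) (θ : ℕ) (b1 b2 : Fin 16 → Sc) : comb t θ b1 b2 = comb t θ b2 b1 :=
  s1_comb_congr t θ fun _ => min_comm _ _

theorem comb_top (t : Fin 16) (θ : ℕ) (b1 b2 : Fin 16 → Sc) : ∃! x, comb t θ b1 b2 x = ⊤ := by
  obtain ⟨x, -, hx⟩ := Finset.exists_max_image univ (vl t θ b1 b2) univ_nonempty
  refine ⟨x, (s1_comb_eq_top t θ b1 b2 x).2 fun y => hx y (mem_univ _), fun y hy => ?_⟩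
  have h1 := (s1_comb_eq_top t θ b1 b2 y).1 hy x
  exact s1_key_inj (le_antisymm (hx y (mem_univ _)) h1)

theorem comb_inj (t : Fin 16) (θ : ℕ) (b1 b2 : Fin 16 → Sc) :
    Function.Injective (comb t θ b1 b2) := by
  intro x y h
  by_cases hx : comb t θ b1 b2 x = ⊤
  · exact (comb_top t θ b1 b2).unique hx (h ▸ hx)
  · have hy : comb t θ b1 b2 y ≠ ⊤ := h ▸ hx
    rw [s1_comb_of_ne hx, s1_comb_of_ne hy] at h
    exact s1_key_inj (WithTop.coe_injective h)

theorem Ls_anti {θ θ' : ℕ} (h : θ ≤ θ') (a : Fin 16 → Sc) : Ls θ' a ⊆ Ls θ a := by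
  intro y hy
  rw [s1_mem_Ls] at hy ⊢
  exact le_trans (by exact_mod_cast h) hy

theorem Ls_Tm (e : Bool) (θ : ℕ) (a : Fin 16 → Sc) : Ls θ (Tm e a) = T e (Ls θ a) := by
  ext x
  simp only [T, mem_filter, mem_univ, true_and, s1_mem_Ls]
  constructor
  · intro h
    obtain ⟨y, hy, he⟩ := s1_Tm_eq e a x
    exact ⟨y, he ▸ h, hy⟩
  · rintro ⟨y, hy, hr⟩
    exact hy.trans (s1_co_mono (s1_le_Tm a hr))

theorem Ls_comb (t : Fin 16) (θv θ : ℕ) (b1 b2 : Fin 16 → Sc) :
    ∃ y, Ls θ (comb t θv b1 b2) =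
      if θv < θ ∨ Ls θ b1 ∩ Ls θ b2 = ∅ then {y} else Ls θ b1 ∩ Ls θ b2 := by
  obtain ⟨x0, h0, hu⟩ := comb_top t θv b1 b2
  have hp : ∀ x, (θ : WithTop ℕ) ≤ co (vl t θv b1 b2 x : Sc) ↔
      θ ≤ θv ∧ x ∈ Ls θ b1 ∩ Ls θ b2 := by
    intro x
    rw [s1_co_vl, s1_co_pre, le_min_iff, le_min_iff, mem_inter, s1_mem_Ls, s1_mem_Ls, Nat.cast_le]
  have hm : ∀ x, x ∈ Ls θ (comb t θv b1 b2) ↔ x = x0 ∨ (θ ≤ θv ∧ x ∈ Ls θ b1 ∩ Ls θ b2) := by
    intro x
    rw [s1_mem_Ls]
    by_cases hx : comb t θv b1 b2 x = ⊤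
    · rw [hx]
      exact ⟨fun _ => Or.inl (hu x hx), fun _ => le_top⟩
    · rw [s1_comb_of_ne hx, hp]
      exact ⟨Or.inr, fun h => h.resolve_left fun h' => hx (h' ▸ h0)⟩
  refine ⟨x0, ?_⟩
  ext x
  rw [hm]
  split_ifs with h
  · rw [mem_singleton]
    refine ⟨fun h' => h'.elim id fun h'' => ?_, Or.inl⟩
    rcases h with h | h
    · omega
    · rw [h] at h''
      exact absurd h''.2 (notMem_empty _)
  · rw [not_or, not_lt] at h
    refine ⟨fun h' => h'.elim (fun h'' => ?_) fun h'' => h''.2, fun h' => Or.inr ⟨h.1, h'⟩⟩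
    obtain ⟨z, hz⟩ := nonempty_iff_ne_empty.2 h.2
    have h1 := (hp z).2 ⟨h.1, hz⟩
    have h2 : vl t θv b1 b2 z ≤ vl t θv b1 b2 x0 := (s1_comb_eq_top t θv b1 b2 x0).1 h0 z
    rw [h'']
    exact ((hp x0).1 (h1.trans (s1_co_mono (WithTop.coe_le_coe.2 h2)))).2

theorem Ls_embS {θ : ℕ} (h : 1 ≤ θ) (A : St) : Ls θ (embS A) = A := by
  ext y
  rw [s1_mem_Ls]
  unfold embS
  split_ifs with hy
  · exact ⟨fun _ => hy, fun _ => le_top⟩
  · rw [s1_co_coe]
    refine ⟨fun h' => ?_, fun h' => absurd h' hy⟩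
    have h'' : θ ≤ 0 := by exact_mod_cast h'
    omega

theorem s1_pre_co {θv θ : ℕ} {b1 b2 : Fin 16 → Sc} {y : Fin 16}
    (h : co (pre θv b1 b2 y : Sc) = (θ : WithTop ℕ)) :
    θ ≤ θv ∧ (θ = θv ∨ Rem θ b1 ∨ Rem θ b2) := by
  rw [s1_co_pre] at h
  refine ⟨?_, ?_⟩
  · have : (θ : WithTop ℕ) ≤ θv := h ▸ min_le_left _ _
    exact_mod_cast this
  · rcases min_choice (θv : WithTop ℕ) (min (co (b1 y)) (co (b2 y))) with h1 | h1
    · left
      rw [h1] at h
      exact_mod_cast h.symm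
    · rw [h1] at h
      rcases min_choice (co (b1 y)) (co (b2 y)) with h2 | h2
      · exact Or.inr (Or.inl ⟨y, h2 ▸ h⟩)
      · exact Or.inr (Or.inr ⟨y, h2 ▸ h⟩)

theorem s1_comb_co {t : Fin 16} {θv θ : ℕ} {b1 b2 : Fin 16 → Sc}
    (h : Rem θ (comb t θv b1 b2)) : θ ≤ θv ∧ (θ = θv ∨ Rem θ b1 ∨ Rem θ b2) := by
  obtain ⟨y, hy⟩ := h
  rw [s1_comb_of_ne (s1_ne_top_of_co hy.le), s1_co_vl] at hy
  exact s1_pre_co hy

theorem comb_co (t : Fin 16) (θv : ℕ) (e1 e2 : Bool) (a1 a2 : Fin 16 → Sc) {θ : ℕ}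
    (h : Rem θ (comb t θv (Tm e1 a1) (Tm e2 a2))) :
    θ ≤ θv ∧ (θ = θv ∨ Rem θ a1 ∨ Rem θ a2) := by
  obtain ⟨h1, h2⟩ := s1_comb_co h
  exact ⟨h1, h2.imp id fun h3 => h3.imp s1_Rem_Tm s1_Rem_Tm⟩

theorem Agr.s1_symm {θ : ℕ} {a a' : Fin 16 → Sc} (h : Agr θ a a') : Agr θ a' a :=
  fun y hy => (h y hy.symm).symm

theorem Agr.s1_Tm {θ : ℕ} {a a' : Fin 16 → Sc} (h : Agr θ a a') (e : Bool) :
    Agr θ (Tm e a) (Tm e a') := by
  intro x hx
  unfold MP_7c51ae_co.Tm
  refine Finset.sup_congr rfl fun y hy => h y ?_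
  have hr := (Finset.mem_filter.1 hy).2
  exact hx.imp (fun h' => (s1_co_mono (s1_le_Tm a hr)).trans h') fun h' => (s1_co_mono (s1_le_Tm a' hr)).trans h'

theorem s1_ag_min {θ : WithTop ℕ} {u u' v v' : Sc} (h1 : (co u ≤ θ ∨ co u' ≤ θ) → u = u')
    (h2 : (co v ≤ θ ∨ co v' ≤ θ) → v = v') (h : co (min u v) ≤ θ ∨ co (min u' v') ≤ θ) :
    min u v = min u' v' := by
  by_cases c1 : co u ≤ θ ∨ co u' ≤ θ
  · by_cases c2 : co v ≤ θ ∨ co v' ≤ θ
    · rw [h1 c1, h2 c2]
    · have e := h1 c1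
      subst e
      rw [not_or, not_le, not_le] at c2
      have c : co u ≤ θ := c1.elim id id
      rw [min_eq_left (s1_lt_of_co (c.trans_lt c2.1)).le, min_eq_left (s1_lt_of_co (c.trans_lt c2.2)).le]
  · by_cases c2 : co v ≤ θ ∨ co v' ≤ θ
    · have e := h2 c2
      subst e
      rw [not_or, not_le, not_le] at c1
      have c : co v ≤ θ := c2.elim id id
      rw [min_eq_right (s1_lt_of_co (c.trans_lt c1.1)).le,
        min_eq_right (s1_lt_of_co (c.trans_lt c1.2)).le]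
    · rw [s1_co_min, s1_co_min, min_le_iff, min_le_iff] at h
      tauto

theorem s1_comb_agr1 (t : Fin 16) (θv : ℕ) {θ : ℕ} {b1 b2 b1' b2' : Fin 16 → Sc}
    (h1 : Agr θ b1 b1') (h2 : Agr θ b2 b2') (x : Fin 16)
    (hx : co (comb t θv b1 b2 x) ≤ (θ : WithTop ℕ)) :
    comb t θv b1 b2 x = comb t θv b1' b2' x := by
  have hp : ∀ y, (co (pre θv b1 b2 y : Sc) ≤ (θ : WithTop ℕ) ∨
      co (pre θv b1' b2' y : Sc) ≤ (θ : WithTop ℕ)) → vl t θv b1 b2 y = vl t θv b1' b2' y := by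
    intro y hy
    have : pre θv b1 b2 y = pre θv b1' b2' y := by
      apply WithTop.coe_injective
      rw [s1_pre_coe, s1_pre_coe] at hy ⊢
      exact s1_ag_min (fun _ => rfl) (s1_ag_min (h1 y) (h2 y)) hy
    rw [s1_vl_eq, s1_vl_eq, this]
  have hn := s1_ne_top_of_co hx
  rw [s1_comb_of_ne hn] at hx ⊢
  have e := hp x (Or.inl hx)
  have hn' : comb t θv b1' b2' x ≠ ⊤ := by
    intro h
    apply hn
    rw [s1_comb_eq_top] at h ⊢
    intro y
    have hy := h y
    rw [← e] at hy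
    have := (s1_co_mono (WithTop.coe_le_coe.2 hy)).trans hx
    rw [hp y (Or.inr this)]
    exact hy
  rw [s1_comb_of_ne hn', e]

theorem comb_agr (t : Fin 16) (θv : ℕ) (e1 e2 : Bool) {θ : ℕ} {a1 a2 a1' a2' : Fin 16 → Sc}
    (h1 : Agr θ a1 a1') (h2 : Agr θ a2 a2') :
    Agr θ (comb t θv (Tm e1 a1) (Tm e2 a2)) (comb t θv (Tm e1 a1') (Tm e2 a2')) := by
  intro x hx
  rcases hx with hx | hx
  · exact s1_comb_agr1 t θv (h1.s1_Tm e1) (h2.s1_Tm e2) x hx
  · exact (s1_comb_agr1 t θv (h1.s1_symm.s1_Tm e1) (h2.s1_symm.s1_Tm e2) x hx).symm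

theorem exists_emb (θ : ℕ) (a : Fin 16 → Sc) : ∃ r, Sim θ a (emb r) := by
  classical
  have hc : ∀ y, (univ.filter fun z => a z < a y).card < 16 := by
    intro y
    have : (univ.filter fun z => a z < a y) ⊂ univ :=
      Finset.filter_ssubset.2 ⟨y, mem_univ _, lt_irrefl _⟩
    simpa using Finset.card_lt_card this
  let r : Fin 16 → Fin 18 := fun y =>
    if co (a y) < (θ : WithTop ℕ) then 0 else if co (a y) = (θ : WithTop ℕ) then
      ⟨1 + (univ.filter fun z => a z < a y).card, by have := hc y; omega⟩ else 17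
  have h0 : ∀ y, co (a y) < (θ : WithTop ℕ) → emb r y = ((toLex (0, 0) : ℕ ×ₗ ℕ) : Sc) := by
    intro y hy
    have : r y = 0 := if_pos hy
    simp [emb, this]
  have h1 : ∀ y, co (a y) = (θ : WithTop ℕ) → emb r y =
      ((toLex (1, 1 + (univ.filter fun z => a z < a y).card) : ℕ ×ₗ ℕ) : Sc) := by
    intro y hy
    have : (r y).val = 1 + (univ.filter fun z => a z < a y).card := by
      simp only [r]
      rw [if_neg (not_lt.2 hy.ge), if_pos hy]
    have h' := hc y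
    unfold emb
    rw [this, if_neg (by omega), if_neg (by omega)]
  have h2 : ∀ y, (θ : WithTop ℕ) < co (a y) → emb r y = ⊤ := by
    intro y hy
    have : r y = 17 := by
      simp only [r]
      rw [if_neg (not_lt.2 hy.le), if_neg hy.ne']
    simp [emb, this]
  refine ⟨r, fun y => ?_, fun y y' hy hy' => ?_⟩
  · rcases lt_trichotomy (co (a y)) (θ : WithTop ℕ) with h | h | h
    · rw [h0 y h, s1_co_coe]
      simp only [h, ofLex_toLex, CharP.cast_eq_zero, Nat.cast_one, zero_lt_one, h.ne, zero_ne_one, and_self]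
    · rw [h1 y h, s1_co_coe]
      simp [h]
    · rw [h2 y h, s1_co_top]
      simp [h.ne', h.le]
  · rw [h1 y hy, h1 y' hy', WithTop.coe_le_coe, Prod.Lex.toLex_le_toLex]
    simp only [lt_self_iff_false, true_and, false_or, add_le_add_iff_left]
    constructor
    · intro h
      exact Finset.card_le_card fun z hz => by
        rw [mem_filter] at hz ⊢
        exact ⟨hz.1, hz.2.trans_le h⟩
    · intro h
      by_contra hn
      rw [not_le] at hn
      have : (univ.filter fun z => a z < a y') ⊂ univ.filter fun z => a z < a y := by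
        refine ⟨fun z hz => ?_, fun hs => ?_⟩
        · rw [mem_filter] at hz ⊢
          exact ⟨hz.1, hz.2.trans hn⟩
        · have := hs (mem_filter.2 ⟨mem_univ y', hn⟩)
          exact lt_irrefl _ (mem_filter.1 this).2
      exact absurd (Finset.card_lt_card this) (not_lt.2 h)

theorem s1_Tm_shift (e : Bool) (s : Fin 16) (a : Fin 16 → Sc) (x : Fin 16) :
    Tm e (fun y => a (xr y s)) x = Tm e a (xr x s) := by
  refine le_antisymm (s1_Tm_le fun y hy => s1_le_Tm a ?_) (s1_Tm_le fun y hy => ?_)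
  · rw [s1_rel_xr]; exact hy
  · have : rel e x (xr y s) = true := by
      rw [← s1_rel_xr e s, s1_xr_xr]; exact hy
    have h := s1_le_Tm (fun y => a (xr y s)) this
    simpa only [s1_xr_xr] using h

theorem comb_shift (t s : Fin 16) (θ : ℕ) (e1 e2 : Bool) (a1 a2 : Fin 16 → Sc) :
    comb (xr t s) θ (Tm e1 fun y => a1 (xr y s)) (Tm e2 fun y => a2 (xr y s)) =
      fun y => comb t θ (Tm e1 a1) (Tm e2 a2) (xr y s) := by
  have hv : ∀ x, vl (xr t s) θ (Tm e1 fun y => a1 (xr y s)) (Tm e2 fun y => a2 (xr y s)) x =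
      vl t θ (Tm e1 a1) (Tm e2 a2) (xr x s) := by
    intro x
    unfold vl pre
    rw [s1_Tm_shift, s1_Tm_shift, s1_xr_assoc]
  funext x
  unfold comb
  simp only [hv]
  refine if_congr ⟨fun h y => ?_, fun h y => h _⟩ rfl rfl
  have := h (xr y s)
  rwa [s1_xr_xr] at this

theorem Ls_shift (s : Fin 16) (θ : ℕ) (a : Fin 16 → Sc) :
    Ls θ (fun y => a (xr y s)) = tr s (Ls θ a) := by
  ext y
  rw [s1_mem_Ls, tr, mem_image]
  constructor
  · intro h
    exact ⟨xr y s, (s1_mem_Ls θ a _).2 h, by rw [s1_xr_comm, s1_xr_xr]⟩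
  · rintro ⟨z, hz, rfl⟩
    rw [s1_xr_comm s z, s1_xr_xr]
    exact (s1_mem_Ls θ a z).1 hz

end

end Pool.Agent.MP_7c51ae_co

/-!
Scores: simulation and consistency on an edge.
-/

set_option autoImplicit false

namespace Pool.Agent.MP_7c51ae_co

open Finset Pool.Agent.MP_d802e4_co

noncomputable section

theorem Sim.s2_le {θ : ℕ} {a a' : Fin 16 → Sc} (h : Sim θ a a') (y : Fin 16) :
    co (a y) ≤ (θ : WithTop ℕ) ↔ co (a' y) ≤ ((1 : ℕ) : WithTop ℕ) := by
  rw [le_iff_lt_or_eq, le_iff_lt_or_eq, (h.1 y).1, (h.1 y).2]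

theorem Sim.s2_mk {θ : ℕ} {a a' : Fin 16 → Sc}
    (h1 : ∀ y, co (a y) < (θ : WithTop ℕ) ↔ co (a' y) < ((1 : ℕ) : WithTop ℕ))
    (h2 : ∀ y, co (a y) ≤ (θ : WithTop ℕ) ↔ co (a' y) ≤ ((1 : ℕ) : WithTop ℕ))
    (h3 : ∀ y y', co (a y) = (θ : WithTop ℕ) → co (a y') = (θ : WithTop ℕ) →
      (a y ≤ a y' ↔ a' y ≤ a' y')) : Sim θ a a' := by
  refine ⟨fun y => ⟨h1 y, ?_⟩, h3⟩
  rw [eq_iff_le_not_lt, eq_iff_le_not_lt, h1, h2]

theorem s2_co_Tm_lt (e : Bool) (a : Fin 16 → Sc) (x : Fin 16) (c : WithTop ℕ) :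
    co (Tm e a x) < c ↔ ∀ y, rel e x y = true → co (a y) < c := by
  refine ⟨fun h y hy => (s1_co_mono (s1_le_Tm a hy)).trans_lt h, fun h => ?_⟩
  obtain ⟨y, hy, he⟩ := s1_Tm_eq e a x
  rw [he]
  exact h y hy

theorem s2_co_Tm_le (e : Bool) (a : Fin 16 → Sc) (x : Fin 16) (c : WithTop ℕ) :
    co (Tm e a x) ≤ c ↔ ∀ y, rel e x y = true → co (a y) ≤ c := by
  refine ⟨fun h y hy => (s1_co_mono (s1_le_Tm a hy)).trans h, fun h => ?_⟩
  obtain ⟨y, hy, he⟩ := s1_Tm_eq e a x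
  rw [he]
  exact h y hy

theorem Sim.s2_Tm {θ : ℕ} {a a' : Fin 16 → Sc} (h : Sim θ a a') (e : Bool) :
    Sim θ (Tm e a) (Tm e a') := by
  have s1_key : ∀ x, co (MP_7c51ae_co.Tm e a x) = (θ : WithTop ℕ) → ∃ y, co (a y) = (θ : WithTop ℕ) ∧
      MP_7c51ae_co.Tm e a x = a y ∧ MP_7c51ae_co.Tm e a' x = a' y := by
    intro x hx
    obtain ⟨y, hy, he⟩ := s1_Tm_eq e a x
    have hy' : co (a y) = (θ : WithTop ℕ) := he ▸ hx
    refine ⟨y, hy', he, le_antisymm (s1_Tm_le fun z hz => ?_) (s1_le_Tm a' hy)⟩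
    have hzy : a z ≤ a y := he ▸ s1_le_Tm a hz
    rcases (hy' ▸ s1_co_mono hzy : co (a z) ≤ (θ : WithTop ℕ)).lt_or_eq with h' | h'
    · have h1 := (h.1 z).1.1 h'
      rw [← (h.1 y).2.1 hy'] at h1
      exact (s1_lt_of_co h1).le
    · exact (h.2 z y h' hy').1 hzy
  refine Sim.s2_mk (fun x => ?_) (fun x => ?_) fun x x' hx hx' => ?_
  · rw [s2_co_Tm_lt, s2_co_Tm_lt]
    exact forall_congr' fun y => imp_congr_right fun _ => (h.1 y).1
  · rw [s2_co_Tm_le, s2_co_Tm_le]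
    exact forall_congr' fun y => imp_congr_right fun _ => h.s2_le y
  · obtain ⟨y, hy, e1, e2⟩ := s1_key x hx
    obtain ⟨y', hy', e1', e2'⟩ := s1_key x' hx'
    rw [e1, e2, e1', e2']
    exact h.2 y y' hy hy'

theorem s2_sim_embS {θ : ℕ} {b : Fin 16 → Sc} (hb : ¬ Rem θ b) : Sim θ b (embS (Ls θ b)) := by
  refine ⟨fun y => ?_, fun y _ hy _ => absurd ⟨y, hy⟩ hb⟩
  have hne : co (b y) ≠ (θ : WithTop ℕ) := fun h => hb ⟨y, h⟩
  unfold embS
  split_ifs with hy
  · rw [s1_mem_Ls] at hy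
    rw [s1_co_top]
    simp [hy, hne]
  · rw [s1_mem_Ls, not_le] at hy
    rw [s1_co_coe]
    simp only [hy, ofLex_toLex, CharP.cast_eq_zero, Nat.cast_one, zero_lt_one, hne, zero_ne_one, and_self]

theorem s2_sim_pre {θv θ : ℕ} {A A' B B' : Fin 16 → Sc} (hA : Sim θ A A') (hB : Sim θ B B')
    (hb : ¬ Rem θ B) (hv : θ < θv) :
    Sim θ (fun x => (pre θv A B x : Sc)) (fun x => (pre 2 A' B' x : Sc)) := by
  have hv1 : (θ : WithTop ℕ) < θv := by exact_mod_cast hv
  have hv2 : ((1 : ℕ) : WithTop ℕ) < (2 : ℕ) := by exact_mod_cast (by norm_num : 1 < 2)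
  have s1_key : ∀ x, co (pre θv A B x : Sc) = (θ : WithTop ℕ) → co (A x) = (θ : WithTop ℕ) ∧
      (pre θv A B x : Sc) = A x ∧ (pre 2 A' B' x : Sc) = A' x := by
    intro x hx
    rw [s1_co_pre] at hx
    have hne : co (B x) ≠ (θ : WithTop ℕ) := fun h => hb ⟨x, h⟩
    have hB1 : (θ : WithTop ℕ) < co (B x) :=
      lt_of_le_of_ne (hx ▸ (min_le_right _ _).trans (min_le_right _ _)) hne.symm
    have hA1 : co (A x) = (θ : WithTop ℕ) := by
      refine le_antisymm ?_ (hx ▸ (min_le_right _ _).trans (min_le_left _ _))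
      by_contra hn
      rw [not_le] at hn
      exact absurd hx (lt_min hv1 (lt_min hn hB1)).ne'
    have hA2 := (hA.1 x).2.1 hA1
    have hB2 : ((1 : ℕ) : WithTop ℕ) < co (B' x) :=
      not_le.1 fun h => absurd ((hB.s2_le x).2 h) (not_le.2 hB1)
    refine ⟨hA1, ?_, ?_⟩
    · rw [s1_pre_coe, min_eq_left (s1_lt_of_co (hA1.trans_lt hB1)).le]
      exact min_eq_right (s1_lt_of_co (b := ((toLex (θv, 0) : ℕ ×ₗ ℕ) : Sc)) (hA1.trans_lt hv1)).le
    · rw [s1_pre_coe, min_eq_left (s1_lt_of_co (hA2.trans_lt hB2)).le]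
      exact min_eq_right (s1_lt_of_co (b := ((toLex (2, 0) : ℕ ×ₗ ℕ) : Sc)) (hA2.trans_lt hv2)).le
  refine Sim.s2_mk (fun x => ?_) (fun x => ?_) fun x x' hx hx' => ?_
  · rw [s1_co_pre, s1_co_pre, min_lt_iff, min_lt_iff, min_lt_iff, min_lt_iff, (hA.1 x).1, (hB.1 x).1]
    simp only [not_lt.2 hv1.le, not_lt.2 hv2.le]
  · rw [s1_co_pre, s1_co_pre, min_le_iff, min_le_iff, min_le_iff, min_le_iff, hA.s2_le, hB.s2_le]
    simp only [not_le.2 hv1, not_le.2 hv2]
  · obtain ⟨h0, e1, e2⟩ := s1_key x hx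
    obtain ⟨h0', e1', e2'⟩ := s1_key x' hx'
    rw [e1, e2, e1', e2']
    exact hA.2 x x' h0 h0'

theorem s2_sim_comb (t : Fin 16) {θv θv' θ : ℕ} {A A' B B' : Fin 16 → Sc}
    (hs : Sim θ (fun x => (pre θv A B x : Sc)) (fun x => (pre θv' A' B' x : Sc)))
    (hr : Rem θ (comb t θv A B)) : Sim θ (comb t θv A B) (comb t θv' A' B') := by
  have hv : Sim θ (fun x => (vl t θv A B x : Sc)) (fun x => (vl t θv' A' B' x : Sc)) := by
    refine ⟨hs.1, fun x y hx hy => ?_⟩
    have h1 := hs.2 x y hx hy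
    have h2 := hs.2 y x hy hx
    simp only [WithTop.coe_le_coe] at h1 h2 ⊢
    rw [s1_vl_eq, s1_vl_eq, s1_vl_eq, s1_vl_eq, s1_key_le, s1_key_le, lt_iff_le_not_ge, lt_iff_le_not_ge,
      le_antisymm_iff, le_antisymm_iff (a := pre θv' A' B' x), h1, h2]
  obtain ⟨y, hy⟩ := hr
  rw [s1_comb_of_ne (s1_ne_top_of_co hy.le)] at hy
  obtain ⟨x0, h0, -⟩ := comb_top t θv A B
  have h0' := (s1_comb_eq_top t θv A B x0).1 h0
  have hge : (θ : WithTop ℕ) ≤ co (vl t θv A B x0 : Sc) :=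
    hy ▸ s1_co_mono (WithTop.coe_le_coe.2 (h0' y))
  have hd : ∀ x, ((θ : WithTop ℕ) < co (comb t θv A B x) ∧
      ((1 : ℕ) : WithTop ℕ) < co (comb t θv' A' B' x)) ∨
      (comb t θv A B x = (vl t θv A B x : Sc) ∧ comb t θv' A' B' x = (vl t θv' A' B' x : Sc)) := by
    intro x
    by_cases hx : comb t θv A B x = ⊤
    · left
      refine ⟨by rw [hx, s1_co_top]; exact WithTop.coe_lt_top _, ?_⟩
      have hx' := (s1_comb_eq_top t θv A B x).1 hx
      by_cases hc : co (vl t θv A B x : Sc) ≤ (θ : WithTop ℕ)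
      · have he : co (vl t θv A B x : Sc) = (θ : WithTop ℕ) :=
          le_antisymm hc (hy ▸ s1_co_mono (WithTop.coe_le_coe.2 (hx' y)))
        have : comb t θv' A' B' x = ⊤ := by
          rw [s1_comb_eq_top]
          intro z
          have hz : (vl t θv A B z : Sc) ≤ (vl t θv A B x : Sc) := WithTop.coe_le_coe.2 (hx' z)
          rcases ((s1_co_mono hz).trans hc).lt_or_eq with h' | h'
          · have h1 := (hv.1 z).1.1 h'
            rw [← (hv.1 x).2.1 he] at h1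
            exact WithTop.coe_le_coe.1 (s1_lt_of_co h1).le
          · exact WithTop.coe_le_coe.1 ((hv.2 z x h' he).1 hz)
        rw [this, s1_co_top]
        exact WithTop.coe_lt_top _
      · exact (not_le.1 fun h => hc ((hv.s2_le x).2 h)).trans_le (s1_co_mono (s1_vl_le_comb t θv' A' B' x))
    · by_cases hx' : comb t θv' A' B' x = ⊤
      · left
        refine ⟨?_, by rw [hx', s1_co_top]; exact WithTop.coe_lt_top _⟩
        rw [s1_comb_of_ne hx]
        by_contra hc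
        rw [not_lt] at hc
        have h1 := (hv.s2_le x).1 hc
        have h2 : (vl t θv' A' B' x0 : Sc) ≤ (vl t θv' A' B' x : Sc) :=
          WithTop.coe_le_coe.2 ((s1_comb_eq_top t θv' A' B' x).1 hx' x0)
        have h3 : co (vl t θv A B x0 : Sc) = (θ : WithTop ℕ) :=
          le_antisymm ((hv.s2_le x0).2 ((s1_co_mono h2).trans h1)) hge
        have h4 := (hv.1 x0).2.1 h3
        have h5 : co (vl t θv' A' B' x : Sc) = ((1 : ℕ) : WithTop ℕ) :=
          le_antisymm h1 (h4 ▸ s1_co_mono h2)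
        have h6 := (hv.2 x0 x h3 ((hv.1 x).2.2 h5)).2 h2
        apply hx
        rw [s1_comb_eq_top]
        exact fun z => (h0' z).trans (WithTop.coe_le_coe.1 h6)
      · exact Or.inr ⟨s1_comb_of_ne hx, s1_comb_of_ne hx'⟩
  refine Sim.s2_mk (fun x => ?_) (fun x => ?_) fun x x' hx hx' => ?_
  · rcases hd x with ⟨h1, h2⟩ | ⟨h1, h2⟩
    · simp only [not_lt.2 h1.le, not_lt.2 h2.le]
    · rw [h1, h2]; exact (hv.1 x).1
  · rcases hd x with ⟨h1, h2⟩ | ⟨h1, h2⟩
    · simp only [not_le.2 h1, not_le.2 h2]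
    · rw [h1, h2]; exact hv.s2_le x
  · obtain ⟨h1, h2⟩ := (hd x).resolve_left fun h => h.1.ne' hx
    obtain ⟨h1', h2'⟩ := (hd x').resolve_left fun h => h.1.ne' hx'
    rw [h1] at hx
    rw [h1'] at hx'
    rw [h1, h2, h1', h2']
    exact hv.2 x x' hx hx'

theorem sim_step (t : Fin 16) {θv θ : ℕ} (e1 e2 : Bool) {a a' b : Fin 16 → Sc} (hs : Sim θ a a')
    (hb : ¬ Rem θ b) (hv : θ < θv) (hr : Rem θ (comb t θv (Tm e1 a) (Tm e2 b))) :
    Sim θ (comb t θv (Tm e1 a) (Tm e2 b)) (comb t 2 (Tm e1 a') (Tm e2 (embS (Ls θ b)))) :=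
  s2_sim_comb t (s2_sim_pre (hs.s2_Tm e1) ((s2_sim_embS hb).s2_Tm e2) (fun h => hb (s1_Rem_Tm h)) hv) hr

theorem s2_pre_min (θ : ℕ) (b1 b2 c : Fin 16 → Sc) (x : Fin 16) :
    (pre θ b1 (fun z => min (b2 z) (c z)) x : Sc) = min (pre θ b1 b2 x : Sc) (c x) := by
  rw [s1_pre_coe, s1_pre_coe, min_assoc, min_assoc]

theorem s2_top_keep {t : Fin 16} {θ : ℕ} {b1 b2 c : Fin 16 → Sc} {x x0 : Fin 16}
    (hx : comb t θ b1 (fun z => min (b2 z) (c z)) x = ⊤) {q : ℕ ×ₗ ℕ}
    (h0 : (q : Sc) ≤ min (pre θ b1 b2 x0 : Sc) (c x0))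
    (h1 : vl t θ b1 (fun z => min (b2 z) (c z)) x ≤ s1_key t q x0) : x = x0 := by
  have h2 := (s1_comb_eq_top _ _ _ _ _).1 hx x0
  rw [← s2_pre_min] at h0
  have h3 := s1_key_mono t x0 (WithTop.coe_le_coe.1 h0)
  exact s1_key_inj (le_antisymm h1 (h3.trans h2))

theorem s2_vl_min_le (t : Fin 16) (θ : ℕ) (b1 b2 c : Fin 16 → Sc) (x : Fin 16) :
    vl t θ b1 (fun z => min (b2 z) (c z)) x ≤ vl t θ b1 b2 x := by
  refine s1_key_mono t x (WithTop.coe_le_coe.1 ?_)
  rw [s2_pre_min]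
  exact min_le_left _ _

theorem s2_top_keep0 {t : Fin 16} {θ : ℕ} {b1 b2 c : Fin 16 → Sc} {x x0 : Fin 16}
    (hx : comb t θ b1 (fun z => min (b2 z) (c z)) x = ⊤) (h0 : comb t θ b1 b2 x0 = ⊤)
    (h1 : (pre θ b1 b2 x0 : Sc) ≤ c x0) : x = x0 :=
  s2_top_keep hx (le_min le_rfl h1)
    ((s2_vl_min_le t θ b1 b2 c x).trans ((s1_comb_eq_top _ _ _ _ _).1 h0 x))

theorem s2_edge_core (e : Bool) (t t' : Fin 16) (θ θ' : ℕ) (b1 b2 b1' b2' : Fin 16 → Sc)
    (hd : ∀ z z', co (pre θ b1 b2 z : Sc) ≠ co (pre θ' b1' b2' z' : Sc))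
    {x y : Fin 16}
    (hx : comb t θ b1 (fun z => min (b2 z) (Tm e (comb t' θ' b1' b2') z)) x = ⊤)
    (hy : comb t' θ' b1' (fun z => min (b2' z) (Tm e (comb t θ b1 b2) z)) y = ⊤)
    {x1 y1 : Fin 16} (hr : rel e x1 y1 = true) (hn : comb t θ b1 b2 x1 ≠ ⊤)
    (hle : comb t θ b1 b2 x1 ≤ comb t' θ' b1' b2' y1)
    (hm : ∀ u v, rel e u v = true →
      min (comb t θ b1 b2 u) (comb t' θ' b1' b2' v) ≤ comb t θ b1 b2 x1) :
    rel e x y = true := by
  set A := comb t θ b1 b2 with hA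
  set A' := comb t' θ' b1' b2' with hA'
  have e1 : A x1 = (vl t θ b1 b2 x1 : Sc) := s1_comb_of_ne hn
  have c1 : co (A x1) = co (pre θ b1 b2 x1 : Sc) := by rw [e1]; rfl
  have hne : ∀ v, co (A' v) ≠ co (A x1) := by
    intro v
    by_cases hv : A' v = ⊤
    · rw [hv, c1, s1_co_top, s1_co_coe]
      exact (WithTop.coe_ne_top).symm
    · rw [hA', s1_comb_of_ne hv, c1, s1_co_vl]
      exact (hd _ _).symm
  have hne' : ∀ v, co (pre θ' b1' b2' v : Sc) ≠ co (A x1) := fun v => c1 ▸ (hd x1 v).symm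
  have hy1 : co (A x1) < co (A' y1) := lt_of_le_of_ne (s1_co_mono hle) (hne y1).symm
  have hcut : ∀ u v, rel e u v = true → co (A x1) < co (A' v) → A u ≤ A x1 := by
    intro u v huv hv
    rcases min_le_iff.1 (hm u v huv) with h | h
    · exact h
    · exact absurd h (not_le.2 (s1_lt_of_co hv))
  have hxx : x = x1 := by
    refine s2_top_keep hx (q := pre θ b1 b2 x1) (le_min le_rfl ?_) ?_
    · exact (s1_lt_of_co (c1 ▸ hy1)).le.trans (s1_le_Tm A' hr)
    · obtain ⟨v, hv, he⟩ := s1_Tm_eq e A' x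
      rcases lt_or_gt_of_ne (hne v) with h | h
      · rw [s1_vl_eq, s1_key_le]
        left
        refine WithTop.coe_lt_coe.1 (s1_lt_of_co ?_)
        rw [s2_pre_min, he, ← c1]
        exact (s1_co_mono (min_le_right _ _)).trans_lt h
      · refine (s2_vl_min_le t θ b1 b2 _ x).trans (WithTop.coe_le_coe.1 ?_)
        exact (s1_vl_le_comb t θ b1 b2 x).trans ((hcut x v hv h).trans e1.le)
  rw [hxx]
  obtain ⟨y0, h0, hu⟩ := comb_top t' θ' b1' b2'
  have hT : ∀ v, rel e x1 v = true → A x1 ≤ Tm e A v := fun v hv =>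
    s1_le_Tm A (by rw [s1_rel_symm]; exact hv)
  by_cases hc : rel e x1 y0 = true ∧ co (pre θ' b1' b2' y0 : Sc) < co (A x1)
  · rw [s2_top_keep0 hy h0 ((s1_lt_of_co hc.2).le.trans (hT y0 hc.1))]
    exact hc.1
  · have : ∃ y2, rel e x1 y2 = true ∧ co (A x1) < co (pre θ' b1' b2' y2 : Sc) := by
      by_cases h : rel e x1 y0 = true
      · exact ⟨y0, h, lt_of_le_of_ne (not_lt.1 fun h' => hc ⟨h, h'⟩) (hne' y0).symm⟩
      · have h' : A' y1 ≠ ⊤ := fun h' => h (hu y1 h' ▸ hr)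
        refine ⟨y1, hr, ?_⟩
        rw [hA', s1_comb_of_ne h', s1_co_vl] at hy1
        exact hy1
    obtain ⟨y2, hr2, h2⟩ := this
    have h3 := WithTop.coe_le_coe.2 (s1_le_of_key ((s1_comb_eq_top _ _ _ _ _).1 hy y2))
    rw [s2_pre_min, s2_pre_min] at h3
    have h4 := le_min_iff.1 ((le_min (s1_lt_of_co h2).le (hT y2 hr2)).trans h3)
    have h5 : co (A x1) < co (A' y) :=
      (lt_of_le_of_ne (s1_co_mono h4.1) (hne' y).symm).trans_le
        ((s1_co_vl t' θ' b1' b2' y).ge.trans (s1_co_mono (s1_vl_le_comb t' θ' b1' b2' y)))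
    obtain ⟨u, hu', he⟩ := s1_Tm_eq e A y
    rw [s1_rel_symm] at hu'
    have h6 : A u = A x1 := le_antisymm (hcut u y hu' h5) (he ▸ h4.2)
    rw [← comb_inj t θ b1 b2 h6]
    exact hu'

/-- the best values on the two ends of an edge are compatible -/
theorem edge_ok (e : Bool) (t t' : Fin 16) (θ θ' : ℕ) (b1 b2 b1' b2' : Fin 16 → Sc)
    (hd : ∀ (c : ℕ), (c = θ ∨ Rem c b1 ∨ Rem c b2) → ¬ (c = θ' ∨ Rem c b1' ∨ Rem c b2'))
    {x y : Fin 16}
    (hx : comb t θ b1 (fun z => min (b2 z) (Tm e (comb t' θ' b1' b2') z)) x = ⊤)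
    (hy : comb t' θ' b1' (fun z => min (b2' z) (Tm e (comb t θ b1 b2) z)) y = ⊤) :
    rel e x y = true := by
  have hd' : ∀ z z', co (pre θ b1 b2 z : Sc) ≠ co (pre θ' b1' b2' z' : Sc) := by
    intro z z' h
    exact hd _ (s1_pre_co (s1_co_coe (pre θ b1 b2 z))).2 (s1_pre_co (h.symm.trans (s1_co_coe _))).2
  obtain ⟨x0, hx0, hux⟩ := comb_top t θ b1 b2
  obtain ⟨y0, hy0, huy⟩ := comb_top t' θ' b1' b2'
  by_cases h0 : rel e x0 y0 = true
  · rw [s2_top_keep0 hx hx0 (le_top.trans (hy0.ge.trans (s1_le_Tm _ h0))),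
      s2_top_keep0 hy hy0 (le_top.trans (hx0.ge.trans (s1_le_Tm _ (by rw [s1_rel_symm]; exact h0))))]
    exact h0
  · obtain ⟨v0, hv0⟩ := s1_rel_ex e 0
    obtain ⟨⟨x1, y1⟩, hp, hm⟩ := Finset.exists_max_image
      (univ.filter fun p : Fin 16 × Fin 16 => rel e p.1 p.2 = true)
      (fun p => min (comb t θ b1 b2 p.1) (comb t' θ' b1' b2' p.2))
      ⟨(0, v0), mem_filter.2 ⟨mem_univ _, hv0⟩⟩
    have hr : rel e x1 y1 = true := (mem_filter.1 hp).2
    have hm' : ∀ u v, rel e u v = true → min (comb t θ b1 b2 u) (comb t' θ' b1' b2' v) ≤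
        min (comb t θ b1 b2 x1) (comb t' θ' b1' b2' y1) := fun u v h =>
      hm (u, v) (mem_filter.2 ⟨mem_univ _, h⟩)
    rcases le_total (comb t θ b1 b2 x1) (comb t' θ' b1' b2' y1) with h | h
    · refine s2_edge_core e t t' θ θ' b1 b2 b1' b2' hd' hx hy hr (fun h' => h0 ?_) h
        fun u v huv => (hm' u v huv).trans (min_le_left _ _)
      rw [← hux x1 h', ← huy y1 (top_le_iff.1 (h' ▸ h))]
      exact hr
    · rw [s1_rel_symm]
      refine s2_edge_core e t' t θ' θ b1' b2' b1 b2 (fun z z' => (hd' z' z).symm) hy hx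
        (x1 := y1) (y1 := x1) (by rw [s1_rel_symm]; exact hr) (fun h' => h0 ?_) h
        fun u v huv => ?_
      · rw [← huy y1 h', ← hux x1 (top_le_iff.1 (h' ▸ h))]
        exact hr
      · rw [min_comm]
        exact (hm' v u (by rw [s1_rel_symm]; exact huv)).trans (min_le_right _ _)

end

end Pool.Agent.MP_7c51ae_co

/-!
The first two bits.
-/

set_option autoImplicit false

namespace Pool.Agent.MP_7c51ae_co

open Finset Pool.Agent.MP_d802e4_co

noncomputable section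

section

theorem up_out1 (δ : Dir) (l : L1) (o : Bool) (m1 m2 : M1) (d : Dn) :
    (out1 δ l o m1 m2).up d = (eOut δ (cfg δ l o d m1 m2) l.2.1, (cfg δ l o d m1 m2).x l) := by
  cases δ <;> rfl

theorem d_feas0 : ∀ (r : Fin 4) (a : Option (Fin 4)) (hard : Bool) (nx : Option (Fin 4)) (t : Bool),
    (Cfg.mk 0 false a hard nx (some r)).feas 0
      ((Cfg.mk 0 false a hard nx (some r)).x (none, false, 0, t)) = true := by
  decide +kernel

theorem x_feas (k : Cfg) (l : L1) : k.feas l.2.2.1 (k.x l) = true :=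
  d_feas0 (k.l1 l.2.2.1) k.a k.hard k.nx l.2.2.2

/-- the constant message with the reading of `m` by a vertex with configuration `k`, value `x` -/
def dRd (c : Dir) (k : Cfg) (x : Fin 4) (m : M1) : M1 := cst (m.up (dnTo c k x m))

theorem d_dnL (k : Cfg) (x : Fin 4) (m : M1) : (dnTo .L k x m).1 = 0 := by
  simp only [dnTo]
  split_ifs <;> rfl

theorem d_eL (k : Cfg) (x : Fin 4) (m : M1) (i : Fin 4) : (dRd .L k x m).e i = m.e 0 := by
  show m.e (dnTo .L k x m).1 = m.e 0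
  rw [d_dnL]

theorem d_eR (k : Cfg) (x : Fin 4) (m : M1) (i : Fin 4) : (dRd .R k x m).e i = m.e k.lam := rfl

theorem d_eM (k : Cfg) (x : Fin 4) (m : M1) (i : Fin 4) : (dRd .M k x m).e i = m.e 0 := rfl

theorem d_x (c : Dir) (k : Cfg) (x : Fin 4) (m : M1) (d : Dn) :
    (dRd c k x m).x d = m.x (dnTo c k x m) := rfl

theorem d_dn (c : Dir) (k : Cfg) (x : Fin 4) (m : M1) :
    dnTo c k x (dRd c k x m) = dnTo c k x m := by
  cases c
  · simp only [dnTo, dP0, d_eL]
  · rfl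
  · rfl

theorem d_eps (c : Dir) (k : Cfg) (x : Fin 4) (m : M1) :
    epsTo c k x (dRd c k x m) = epsTo c k x m := rfl

theorem d_left (k : Cfg) (x : Fin 4) (m : M1) :
    leftOf k.lam k.des k.b (dRd .L k x m) = leftOf k.lam k.des k.b m := by
  simp only [leftOf, d_eL, d_x]
  split_ifs with h
  · have h' : ¬ k.rk < rk (m.e 0).1 (m.e 0).2.1 := not_lt.2 h
    simp only [dnTo, if_neg h']
  · rfl

theorem d_nx (k : Cfg) (x : Fin 4) (m : M1) :
    nxOf k.lam k.des (dRd .R k x m) = nxOf k.lam k.des m := by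
  simp only [nxOf, d_eR, d_x]
  split_ifs with h
  · have h' : ¬ k.rk ≤ rk (m.e k.lam).1 (m.e k.lam).2.1 := not_le.2 h
    simp only [dnTo, if_neg h']
  · rfl
  · rfl

theorem d_vote (k : Cfg) (x : Fin 4) (m : M1) :
    vote k.lam k.des (dRd .M k x m) = vote k.lam k.des m := by
  have e : dW k.lam k.des (dRd .M k x m) = dW k.lam k.des m := rfl
  simp only [vote, d_eM, d_x, e]
  split_ifs with h
  · have h' : ¬ k.rk < rk (m.e 0).1 (dW k.lam k.des m) := not_lt.2 h.le
    simp only [dnTo, if_neg h']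
  · rfl

theorem d_des (lam : Fin 4) (c o : Bool) (k : Cfg) (x : Fin 4) (m : M1) :
    desOf lam c o (dRd .M k x m) = desOf lam c o m := rfl

/-- the equations that determine the configuration -/
def dFix (δ : Dir) (l : L1) (o : Bool) (d : Dn) (m1 m2 : M1) (k : Cfg) : Prop :=
  match δ with
  | .R => k.lam = l.1.getD (m1.e 0).1 ∧ k.des = desOf k.lam l.2.1 o m2 ∧
      k.a = vote k.lam k.des m2 ∧ k.hard = d.2.1 ∧ k.nx = d.2.2 ∧
      k.left = leftOf k.lam k.des k.b m1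
  | .L => k.lam = l.1.getD d.1 ∧ k.des = desOf k.lam l.2.1 o m2 ∧
      k.a = vote k.lam k.des m2 ∧ k.hard = (nxOf k.lam k.des m1).1 ∧
      k.nx = (nxOf k.lam k.des m1).2 ∧ k.left = d.2.2
  | .M => k.lam = l.1.getD (m1.e 0).1 ∧ k.des = d.2.1 ∧ k.a = d.2.2 ∧
      k.hard = (nxOf k.lam k.des m2).1 ∧ k.nx = (nxOf k.lam k.des m2).2 ∧
      k.left = leftOf k.lam k.des k.b m1

theorem d_fix (δ : Dir) (l : L1) (o : Bool) (d : Dn) (m1 m2 : M1) (k : Cfg) :
    dFix δ l o d m1 m2 k ↔ cfg δ l o d m1 m2 = k := by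
  constructor
  · intro h
    obtain ⟨lam, des, a, hard, nx, left⟩ := k
    cases δ
    all_goals
      simp only [dFix, Cfg.b] at h
      obtain ⟨h1, h2, h3, h4, h5, h6⟩ := h
      subst h1
      subst h2
      subst h3
      subst h4
      subst h5
      subst h6
      rfl
  · rintro rfl
    cases δ <;> exact ⟨rfl, rfl, rfl, rfl, rfl, rfl⟩

theorem d_fix_rd (δ : Dir) (l : L1) (o : Bool) (d : Dn) (m1 m2 : M1) (k : Cfg) (x : Fin 4) :
    dFix δ l o d (dRd (ch δ false) k x m1) (dRd (ch δ true) k x m2) k ↔ dFix δ l o d m1 m2 k := by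
  cases δ <;> simp only [dFix, ch, d_eL, d_left, d_nx, d_vote, d_des]

theorem causal_eq (δ : Dir) (l : L1) (o : Bool) (d : Dn) (m1 m2 : M1) :
    cfg δ l o d (cst (m1.up (dnC δ l o d m1 m2 false))) (cst (m2.up (dnC δ l o d m1 m2 true))) =
      cfg δ l o d m1 m2 ∧
    (∀ j, dnC δ l o d (cst (m1.up (dnC δ l o d m1 m2 false)))
      (cst (m2.up (dnC δ l o d m1 m2 true))) j = dnC δ l o d m1 m2 j) ∧
    ∀ j, epC δ l o d (cst (m1.up (dnC δ l o d m1 m2 false)))
      (cst (m2.up (dnC δ l o d m1 m2 true))) j = epC δ l o d m1 m2 j := by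
  have h : cfg δ l o d (cst (m1.up (dnC δ l o d m1 m2 false)))
      (cst (m2.up (dnC δ l o d m1 m2 true))) = cfg δ l o d m1 m2 :=
    (d_fix _ _ _ _ _ _ _).1 ((d_fix_rd δ l o d m1 m2 _ ((cfg δ l o d m1 m2).x l)).2
      ((d_fix _ _ _ _ _ _ _).2 rfl))
  refine ⟨h, fun j => ?_, fun j => ?_⟩
  · conv_lhs => rw [dnC, h]
    cases j
    · exact d_dn _ _ _ m1
    · exact d_dn _ _ _ m2
  · conv_lhs => rw [epC, h]
    cases j
    · exact d_eps _ _ _ m1
    · exact d_eps _ _ _ m2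

theorem d_self (c : Dir) (k : Cfg) (x : Fin 4) (m : M1) (u : Up)
    (h : m.up (dnTo c k x (cst u)) = u) : u = m.up (dnTo c k x m) := by
  have h1 : m.e (dnTo c k x (cst u)).1 = u.1 := congrArg Prod.fst h
  have h2 : dnTo c k x (cst u) = dnTo c k x m := by
    cases c
    · rw [d_dnL] at h1
      simp only [dnTo, dP0, h1]
      rfl
    · have h1' : m.e k.lam = u.1 := h1
      simp only [dnTo, h1']
      rfl
    · have h1' : m.e 0 = u.1 := h1
      simp only [dnTo, dW, h1']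
      rfl
  rw [← h2]
  exact h.symm

theorem causal_uniq (δ : Dir) (l : L1) (o : Bool) (d : Dn) (m1 m2 : M1) (u1 u2 : Up)
    (h1 : m1.up (dnC δ l o d (cst u1) (cst u2) false) = u1)
    (h2 : m2.up (dnC δ l o d (cst u1) (cst u2) true) = u2) :
    u1 = m1.up (dnC δ l o d m1 m2 false) ∧ u2 = m2.up (dnC δ l o d m1 m2 true) := by
  have e1 := d_self _ _ _ m1 u1 h1
  have e2 := d_self _ _ _ m2 u2 h2
  generalize hk : cfg δ l o d (cst u1) (cst u2) = k at e1 e2
  have hf := (d_fix _ _ _ _ _ _ _).2 hk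
  rw [e1, e2] at hf
  have hk' : cfg δ l o d m1 m2 = k :=
    (d_fix _ _ _ _ _ _ _).1 ((d_fix_rd δ l o d m1 m2 k (k.x l)).1 hf)
  subst hk'
  exact ⟨e1, e2⟩

theorem d_rk_le (a : Fin 4) (b : Bool) : rk a b ≤ 7 := by
  have := a.isLt
  cases b <;> simp only [rk, Bool.toNat_false, Bool.toNat_true] <;> omega

theorem phs_le (δ : Dir) (d : Dn) (u u' : Up) : phs δ d u u' ≤ 18 := by
  have h1 := d_rk_le u.1.1 u.1.2.1
  have h2 := d_rk_le u.1.1 d.2.1
  cases δ <;> simp only [phs] <;> split_ifs <;> omega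

theorem d_ne_e {m m' : M1} {d : Dn} (h : m.e d.1 ≠ m'.e d.1) : m.up d ≠ m'.up d :=
  fun e => h (congrArg Prod.fst e)

theorem d_ne_x {m m' : M1} {d : Dn} (h : m.x d ≠ m'.x d) : m.up d ≠ m'.up d :=
  fun e => h (congrArg Prod.snd e)

theorem d_lvl (P P' : M1) (h : (P.e 0).1 ≠ (P'.e 0).1) :
    ∃ dc, P.up dc ≠ P'.up dc ∧ phs .R dc (P.up dc) (P'.up dc) = 0 :=
  ⟨(0, false, none), d_ne_e fun e => h (congrArg Prod.fst e), if_pos h⟩

theorem d_early (W W' : M1) (h : (W.e 0).1 ≠ (W'.e 0).1 ∨ (W.e 0).2.1 ≠ (W'.e 0).2.1) :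
    ∃ dc, W.up dc ≠ W'.up dc ∧ phs .M dc (W.up dc) (W'.up dc) = 1 :=
  ⟨(0, false, none), d_ne_e fun e => h.elim (fun h => h (congrArg Prod.fst e))
    fun h => h (congrArg (fun z : Dn => z.2.1) e), if_pos h⟩

theorem d_des_step (lam : Fin 4) (c o : Bool) (W W' : M1)
    (h : desOf lam c o W ≠ desOf lam c o W') :
    ∃ dc, W.up dc ≠ W'.up dc ∧ phs .M dc (W.up dc) (W'.up dc) = 1 := by
  refine d_early W W' ?_
  by_contra hc
  push Not at hc
  exact h (by simp only [desOf, hc.1, hc.2])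

theorem d_vote_step (lam : Fin 4) (des : Bool) (W W' : M1)
    (h : vote lam des W ≠ vote lam des W') :
    ∃ dc, W.up dc ≠ W'.up dc ∧ phs .M dc (W.up dc) (W'.up dc) ≤ 2 + 2 * rk lam des := by
  by_cases hc : (W.e 0).1 ≠ (W'.e 0).1 ∨ (W.e 0).2.1 ≠ (W'.e 0).2.1
  · obtain ⟨dc, h1, h2⟩ := d_early W W' hc
    exact ⟨dc, h1, by omega⟩
  · have hc' := hc
    push Not at hc'
    have e : dW lam des W' = dW lam des W := by simp only [dW, hc'.1]
    simp only [vote, e, ← hc'.1] at h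
    split_ifs at h with hr
    · refine ⟨(0, dW lam des W, none), d_ne_x fun e => h (by rw [e]), ?_⟩
      have : phs .M (0, dW lam des W, none) (W.up (0, dW lam des W, none))
        (W'.up (0, dW lam des W, none)) = 4 + 2 * rk (W.e 0).1 (dW lam des W) := if_neg hc
      omega
    · exact (h rfl).elim

theorem d_nx_step (lam : Fin 4) (des : Bool) (S S' : M1)
    (h : nxOf lam des S ≠ nxOf lam des S') :
    ∃ dc, S.up dc ≠ S'.up dc ∧ phs .L dc (S.up dc) (S'.up dc) ≤ 3 + 2 * rk lam des := by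
  refine ⟨(lam, false, none), fun e => h ?_, ?_⟩
  · have e1 : S.e lam = S'.e lam := congrArg Prod.fst e
    have e2 : S.x (lam, false, none) = S'.x (lam, false, none) := congrArg Prod.snd e
    simp only [nxOf, e1, e2]
  · show (if (S.e lam).1 ≠ (S'.e lam).1 ∨ (S.e lam).2.1 ≠ (S'.e lam).2.1 then 2
      else if (S.e lam).2.2 ≠ (S'.e lam).2.2 then 3 + 2 * rk (S.e lam).1 (S.e lam).2.1
      else 4 + 2 * rk (S.e lam).1 (S.e lam).2.1) ≤ _
    by_cases hc : (S.e lam).1 ≠ (S'.e lam).1 ∨ (S.e lam).2.1 ≠ (S'.e lam).2.1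
    · rw [if_pos hc]
      omega
    · rw [if_neg hc]
      push Not at hc
      simp only [nxOf, ← hc.1, ← hc.2] at h
      split_ifs at h with h1 h2
      · split_ifs <;> omega
      · rw [if_pos fun e => h (by rw [e])]
        omega
      · exact (h rfl).elim

theorem d_left_step (lam : Fin 4) (des : Bool) (b : Option (Fin 4)) (P P' : M1)
    (h : leftOf lam des b P ≠ leftOf lam des b P') :
    ∃ dc, P.up dc ≠ P'.up dc ∧ phs .R dc (P.up dc) (P'.up dc) ≤ 3 + 2 * rk lam des := by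
  by_cases h1 : (P.e 0).1 ≠ (P'.e 0).1
  · obtain ⟨dc, h2, h3⟩ := d_lvl P P' h1
    exact ⟨dc, h2, by omega⟩
  by_cases h2 : (P.e 0).2.1 ≠ (P'.e 0).2.1
  · refine ⟨(0, false, none), d_ne_e fun e => h2 (congrArg (fun z : Dn => z.2.1) e), ?_⟩
    have : phs .R (0, false, none) (P.up (0, false, none)) (P'.up (0, false, none)) = 2 :=
      (if_neg h1).trans (if_pos h2)
    omega
  have h1' := not_not.1 h1
  have h2' := not_not.1 h2
  have e : dP0 lam des b P' = dP0 lam des b P := by simp only [dP0, h1', h2']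
  simp only [leftOf, e, ← h1', ← h2'] at h
  split_ifs at h with hr
  · refine ⟨dP0 lam des b P, d_ne_x fun e => h (by rw [e]), ?_⟩
    have : phs .R (dP0 lam des b P) (P.up (dP0 lam des b P)) (P'.up (dP0 lam des b P)) =
      3 + 2 * rk (P.e 0).1 (P.e 0).2.1 := (if_neg h1).trans (if_neg h2)
    omega
  · exact (h rfl).elim

theorem d_lam (o : Option (Fin 4)) (z : Fin 4) (b : Bool) :
    o = none ∨ o = some (Fin.ofNat 4 ((3 + 2 * rk (o.getD z) b - 3) / 4)) := by
  revert o z b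
  decide

theorem d_stepR (l : L1) (o : Bool) (d : Dn) (m1 m2 m1' m2' : M1) (φ : ℕ)
    (hφ : φ = phs .R d ((out1 .R l o m1 m2).up d) ((out1 .R l o m1' m2').up d))
    (h : cfg .R l o d m1 m2 ≠ cfg .R l o d m1' m2') :
    (∃ dc, m2.up dc ≠ m2'.up dc ∧ phs .M dc (m2.up dc) (m2'.up dc) < φ) ∨
    ∃ dc, m1.up dc ≠ m1'.up dc ∧ (phs .R dc (m1.up dc) (m1'.up dc) < φ ∨
      (phs .R dc (m1.up dc) (m1'.up dc) = φ ∧
        (l.1 = none ∨ l.1 = some (Fin.ofNat 4 ((φ - 3) / 4))))) := by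
  have hl := d_lam l.1 (m1.e 0).1 (desOf (l.1.getD (m1.e 0).1) l.2.1 o m2)
  have hφ' : φ = if l.1.getD (m1.e 0).1 ≠ l.1.getD (m1'.e 0).1 then 0
      else if desOf (l.1.getD (m1.e 0).1) l.2.1 o m2 ≠ desOf (l.1.getD (m1'.e 0).1) l.2.1 o m2'
      then 2 else 3 + 2 * rk (l.1.getD (m1.e 0).1) (desOf (l.1.getD (m1.e 0).1) l.2.1 o m2) := hφ
  by_cases h1 : l.1.getD (m1.e 0).1 ≠ l.1.getD (m1'.e 0).1
  · rw [if_pos h1] at hφ'
    obtain ⟨dc, h2, h3⟩ := d_lvl m1 m1' fun e => h1 (by rw [e])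
    refine Or.inr ⟨dc, h2, Or.inr ⟨by omega, Or.inl ?_⟩⟩
    cases hz : l.1 with
    | none => rfl
    | some z => rw [hz] at h1; exact (h1 rfl).elim
  rw [if_neg h1] at hφ'
  have h1' := (not_not.1 h1).symm
  simp only [cfg, h1'] at h hφ'
  generalize l.1.getD (m1.e 0).1 = lam at *
  by_cases h2 : desOf lam l.2.1 o m2 ≠ desOf lam l.2.1 o m2'
  · rw [if_pos h2] at hφ'
    obtain ⟨dc, h3, h4⟩ := d_des_step _ _ _ _ _ h2
    exact Or.inl ⟨dc, h3, by omega⟩
  rw [if_neg h2] at hφ'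
  rw [← not_not.1 h2] at h
  generalize desOf lam l.2.1 o m2 = des at *
  by_cases h3 : vote lam des m2 ≠ vote lam des m2'
  · obtain ⟨dc, h4, h5⟩ := d_vote_step _ _ _ _ h3
    exact Or.inl ⟨dc, h4, by omega⟩
  rw [← not_not.1 h3] at h
  obtain ⟨dc, h4, h5⟩ := d_left_step lam des ((vote lam des m2).or d.2.2) m1 m1'
    fun e => h (by rw [e])
  refine Or.inr ⟨dc, h4, ?_⟩
  rcases h5.lt_or_eq with h6 | h6
  · exact Or.inl (by omega)
  · exact Or.inr ⟨by omega, by rw [hφ']; exact hl⟩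

theorem d_stepL (l : L1) (o : Bool) (d : Dn) (m1 m2 m1' m2' : M1) (φ : ℕ)
    (hφ : φ = phs .L d ((out1 .L l o m1 m2).up d) ((out1 .L l o m1' m2').up d))
    (h : cfg .L l o d m1 m2 ≠ cfg .L l o d m1' m2') :
    (∃ dc, m2.up dc ≠ m2'.up dc ∧ phs .M dc (m2.up dc) (m2'.up dc) < φ) ∨
    ∃ dc, m1.up dc ≠ m1'.up dc ∧ (phs .L dc (m1.up dc) (m1'.up dc) < φ ∨
      (phs .L dc (m1.up dc) (m1'.up dc) = φ ∧
        (l.1 = none ∨ l.1 = some (Fin.ofNat 4 ((φ - 3) / 4))))) := by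
  have hl := d_lam l.1 d.1 (desOf (l.1.getD d.1) l.2.1 o m2)
  have hφ' : φ = if l.1.getD d.1 ≠ l.1.getD d.1 ∨
        desOf (l.1.getD d.1) l.2.1 o m2 ≠ desOf (l.1.getD d.1) l.2.1 o m2' then 2
      else if (cfg .L l o d m1 m2).b ≠ (cfg .L l o d m1' m2').b then
        3 + 2 * rk (l.1.getD d.1) (desOf (l.1.getD d.1) l.2.1 o m2)
      else 4 + 2 * rk (l.1.getD d.1) (desOf (l.1.getD d.1) l.2.1 o m2) := hφ
  generalize (cfg .L l o d m1 m2).b = b at hφ'
  generalize (cfg .L l o d m1' m2').b = b' at hφ'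
  simp only [cfg] at h
  generalize l.1.getD d.1 = lam at *
  by_cases h2 : desOf lam l.2.1 o m2 ≠ desOf lam l.2.1 o m2'
  · rw [if_pos (Or.inr h2)] at hφ'
    obtain ⟨dc, h3, h4⟩ := d_des_step _ _ _ _ _ h2
    exact Or.inl ⟨dc, h3, by omega⟩
  rw [if_neg fun e => e.elim (fun e => e rfl) h2] at hφ'
  rw [← not_not.1 h2] at h
  generalize desOf lam l.2.1 o m2 = des at *
  have hge : 3 + 2 * rk lam des ≤ φ := by
    rw [hφ']
    split_ifs <;> omega
  by_cases h3 : vote lam des m2 ≠ vote lam des m2'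
  · obtain ⟨dc, h4, h5⟩ := d_vote_step _ _ _ _ h3
    exact Or.inl ⟨dc, h4, by omega⟩
  rw [← not_not.1 h3] at h
  obtain ⟨dc, h4, h5⟩ := d_nx_step lam des m1 m1' fun e => h (by rw [e])
  refine Or.inr ⟨dc, h4, ?_⟩
  rcases (h5.trans hge).lt_or_eq with h6 | h6
  · exact Or.inl h6
  · refine Or.inr ⟨h6, ?_⟩
    have h7 : φ = 3 + 2 * rk lam des := by omega
    rw [h7]
    exact hl

theorem d_stepM (l : L1) (o : Bool) (d : Dn) (m1 m2 m1' m2' : M1) (φ : ℕ)
    (hφ : φ = phs .M d ((out1 .M l o m1 m2).up d) ((out1 .M l o m1' m2').up d))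
    (h : (out1 .M l o m1 m2).up d ≠ (out1 .M l o m1' m2').up d) :
    (∃ dc, m2.up dc ≠ m2'.up dc ∧ phs .L dc (m2.up dc) (m2'.up dc) < φ) ∨
    ∃ dc, m1.up dc ≠ m1'.up dc ∧ phs .R dc (m1.up dc) (m1'.up dc) < φ := by
  have h0 : cfg .M l o d m1 m2 ≠ cfg .M l o d m1' m2' := fun e => h (by rw [up_out1, up_out1, e])
  have hφ' : φ = if l.1.getD (m1.e 0).1 ≠ l.1.getD (m1'.e 0).1 ∨ l.2.1 ≠ l.2.1 then 1
      else 4 + 2 * rk (l.1.getD (m1.e 0).1) d.2.1 := hφ
  by_cases h1 : l.1.getD (m1.e 0).1 ≠ l.1.getD (m1'.e 0).1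
  · rw [if_pos (Or.inl h1)] at hφ'
    obtain ⟨dc, h2, h3⟩ := d_lvl m1 m1' fun e => h1 (by rw [e])
    exact Or.inr ⟨dc, h2, by omega⟩
  rw [if_neg fun e => e.elim h1 fun e => e rfl] at hφ'
  have h1' := (not_not.1 h1).symm
  simp only [cfg, h1'] at h0
  generalize l.1.getD (m1.e 0).1 = lam at *
  by_cases h3 : nxOf lam d.2.1 m2 ≠ nxOf lam d.2.1 m2'
  · obtain ⟨dc, h4, h5⟩ := d_nx_step _ _ _ _ h3
    exact Or.inl ⟨dc, h4, by omega⟩
  rw [← not_not.1 h3] at h0
  obtain ⟨dc, h4, h5⟩ := d_left_step lam d.2.1 (d.2.2.or (nxOf lam d.2.1 m2).2) m1 m1'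
    fun e => h0 (by rw [e])
  exact Or.inr ⟨dc, h4, by omega⟩

theorem s1_step (δ : Dir) (l : L1) (o : Bool) (d : Dn) (m1 m2 m1' m2' : M1)
    (h : (out1 δ l o m1 m2).up d ≠ (out1 δ l o m1' m2').up d) :
    ∃ (j : Bool) (dc : Dn), (if j then m2 else m1).up dc ≠ (if j then m2' else m1').up dc ∧
      (phs (ch δ j).rev dc ((if j then m2 else m1).up dc) ((if j then m2' else m1').up dc) <
          phs δ d ((out1 δ l o m1 m2).up d) ((out1 δ l o m1' m2').up d) ∨
        (phs (ch δ j).rev dc ((if j then m2 else m1).up dc) ((if j then m2' else m1').up dc) =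
          phs δ d ((out1 δ l o m1 m2).up d) ((out1 δ l o m1' m2').up d) ∧ j = false ∧
          (l.1 = none ∨ l.1 = some (Fin.ofNat 4
            ((phs δ d ((out1 δ l o m1 m2).up d) ((out1 δ l o m1' m2').up d) - 3) / 4))))) := by
  have h0 : cfg δ l o d m1 m2 ≠ cfg δ l o d m1' m2' := fun e => h (by rw [up_out1, up_out1, e])
  cases δ
  · rcases d_stepL l o d m1 m2 m1' m2' _ rfl h0 with ⟨dc, h1, h2⟩ | ⟨dc, h1, h2 | ⟨h2, h3⟩⟩
    · exact ⟨true, dc, h1, Or.inl h2⟩
    · exact ⟨false, dc, h1, Or.inl h2⟩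
    · exact ⟨false, dc, h1, Or.inr ⟨h2, rfl, h3⟩⟩
  · rcases d_stepR l o d m1 m2 m1' m2' _ rfl h0 with ⟨dc, h1, h2⟩ | ⟨dc, h1, h2 | ⟨h2, h3⟩⟩
    · exact ⟨true, dc, h1, Or.inl h2⟩
    · exact ⟨false, dc, h1, Or.inl h2⟩
    · exact ⟨false, dc, h1, Or.inr ⟨h2, rfl, h3⟩⟩
  · rcases d_stepM l o d m1 m2 m1' m2' _ rfl h with ⟨dc, h1, h2⟩ | ⟨dc, h1, h2⟩
    · exact ⟨true, dc, h1, Or.inl h2⟩
    · exact ⟨false, dc, h1, Or.inl h2⟩

end

end

end Pool.Agent.MP_7c51ae_co

set_option autoImplicit false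

namespace Pool.Agent.MP_7c51ae_co

open Finset Pool.Agent.MP_d802e4_co

noncomputable section

variable {V : Type} [Fintype V] [DecidableEq V] {G : Sch V} {K : ℕ}

omit [Fintype V] [DecidableEq V] in
theorem Sch.Inj.mono {n n' : ℕ} (h : G.Inj n) (hn : n' ≤ n) : G.Inj n' :=
  fun v w w' r r' l l' e => h v w w' r r' (l.trans hn) (l'.trans hn) e

theorem f1_ch_ne (δ : Dir) (j : Bool) : ch δ j ≠ δ := by cases δ <;> cases j <;> simp [ch]

theorem f1_ch_not (δ : Dir) (j : Bool) : ch δ j ≠ ch δ (!j) := by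
  cases δ <;> cases j <;> simp [ch]

theorem f1_ch_ex {δ a : Dir} (h : a ≠ δ) : ∃ j, a = ch δ j := by
  cases δ <;> cases a <;> simp_all [ch]

theorem f1_InT_nil (δ : Dir) (n : ℕ) : InT δ n [] := ⟨List.isChain_nil, Nat.zero_le _, by simp⟩

theorem f1_InT_cons {δ : Dir} {j : Bool} {n : ℕ} {w : List Dir} (h : InT (ch δ j).rev n w) :
    InT δ (n + 1) (ch δ j :: w) := by
  refine ⟨List.isChain_cons.2 ⟨fun y hy he => h.2.2 ?_, h.1⟩, Nat.succ_le_succ h.2.1, ?_⟩
  · rw [← he]; exact hy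
  · simpa using f1_ch_ne δ j

theorem f1_InT_tail {δ a : Dir} {n : ℕ} {w : List Dir} (h : InT δ (n + 1) (a :: w)) :
    InT a.rev n w := by
  have h1 := List.isChain_cons.1 h.1
  exact ⟨h1.2, Nat.le_of_succ_le_succ h.2.1, fun he => h1.1 _ he rfl⟩

theorem f1_InT_mono {δ : Dir} {n n' : ℕ} {w : List Dir} (h : InT δ n w) (hn : n ≤ n') :
    InT δ n' w := ⟨h.1, h.2.1.trans hn, h.2.2⟩

theorem f1_InT_append (js : List Bool) (δ : Dir) {n : ℕ} {w : List Dir} (h : InT (ex δ js) n w) :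
    InT δ (n + js.length) (wd δ js ++ w) := by
  induction js generalizing δ with
  | nil => exact h
  | cons j js ih => exact f1_InT_cons (ih _ h)

omit [Fintype V] [DecidableEq V] in
theorem f1_walk_append (v : V) (w w' : List Dir) :
    G.walk v (w ++ w') = G.walk (G.walk v w) w' := List.foldl_append

theorem f1_words (n : ℕ) : ∀ δ : Dir, ∃ S : Finset (List Dir), S.card + 1 ≤ 2 ^ (n + 1) ∧
    ∀ w, w ∈ S ↔ InT δ n w := by
  induction n with
  | zero =>
    refine fun δ => ⟨{[]}, by simp, fun w => ?_⟩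
    rw [mem_singleton]
    exact ⟨fun h => h ▸ f1_InT_nil δ 0, fun h => List.length_eq_zero_iff.1 (Nat.le_zero.1 h.2.1)⟩
  | succ n ih =>
    intro δ
    obtain ⟨S1, h1, m1⟩ := ih (ch δ false).rev
    obtain ⟨S2, h2, m2⟩ := ih (ch δ true).rev
    refine ⟨insert [] (S1.image (ch δ false :: ·) ∪ S2.image (ch δ true :: ·)), ?_, fun w => ?_⟩
    · have h3 := card_insert_le ([] : List Dir)
        (S1.image (ch δ false :: ·) ∪ S2.image (ch δ true :: ·))
      have h4 := card_union_le (S1.image (ch δ false :: ·)) (S2.image (ch δ true :: ·))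
      have h5 : (S1.image (ch δ false :: ·)).card ≤ S1.card := card_image_le
      have h6 : (S2.image (ch δ true :: ·)).card ≤ S2.card := card_image_le
      rw [pow_succ 2 (n + 1)]
      omega
    · rw [mem_insert, mem_union, mem_image, mem_image]
      constructor
      · rintro (rfl | ⟨a, ha, rfl⟩ | ⟨a, ha, rfl⟩)
        · exact f1_InT_nil _ _
        · exact f1_InT_cons ((m1 a).1 ha)
        · exact f1_InT_cons ((m2 a).1 ha)
      · intro h
        cases w with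
        | nil => exact Or.inl rfl
        | cons a w =>
          have h1 : a ≠ δ := fun he => h.2.2 (by simp [he])
          obtain ⟨j, rfl⟩ := f1_ch_ex h1
          cases j
          · exact Or.inr (Or.inl ⟨w, (m1 w).2 (f1_InT_tail h), rfl⟩)
          · exact Or.inr (Or.inr ⟨w, (m2 w).2 (f1_InT_tail h), rfl⟩)

/-! ### block F: covers -/

section cov
variable {Λ : Type} [Fintype Λ] {p : Λ → ℝ} {lam : ℝ} {n : ℕ} {δ : Dir}

theorem cov_mono {B B' : V → (V → Λ) → Prop} {x x' : ℝ} {n' : ℕ} (h : Cov G p lam n δ B x)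
    (hB : ∀ v ω, 0 < wt p ω → B' v ω → B v ω) (hx : x ≤ x') (hn : n ≤ n') :
    Cov G p lam n' δ B' x' := by
  obtain ⟨ι, I, S, q, E, h1, h2, h3, h4, h5, h6⟩ := h
  exact ⟨ι, I, S, q, E, fun i hi w hw => f1_InT_mono (h1 i hi w hw) hn, h2, h3, h4,
    fun v ω hω h => h5 v ω hω (hB v ω hω h), h6.trans hx⟩

theorem cov_true (hp : IsP p) : Cov G p lam n δ (fun _ _ => True) 1 :=
  ⟨Unit, {()}, fun _ => ∅, fun _ => 1, fun _ _ _ => True, fun _ _ _ h => absurd h (notMem_empty _),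
    fun _ _ _ _ _ _ => rfl, fun _ _ _ => (Pr_true hp).le, fun _ _ => zero_le_one,
    fun _ _ _ _ => ⟨(), mem_singleton_self _, trivial⟩, by simp⟩

theorem cov_false : Cov G p lam n δ (fun _ _ => False) 0 :=
  ⟨Unit, ∅, fun _ => ∅, fun _ => 0, fun _ _ _ => False, fun _ h => absurd h (notMem_empty _),
    fun _ h => absurd h (notMem_empty _), fun _ h => absurd h (notMem_empty _),
    fun _ h => absurd h (notMem_empty _), fun _ _ _ h => h.elim, by simp⟩

theorem cov_nonneg {B : V → (V → Λ) → Prop} {x : ℝ} (hl : 0 ≤ lam) (h : Cov G p lam n δ B x) :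
    0 ≤ x := by
  obtain ⟨ι, I, S, q, E, -, -, -, h4, -, h6⟩ := h
  exact le_trans (sum_nonneg fun i hi => mul_nonneg (h4 i hi) (pow_nonneg hl _)) h6

theorem cov_or {B B' : V → (V → Λ) → Prop} {x x' : ℝ} (h : Cov G p lam n δ B x)
    (h' : Cov G p lam n δ B' x') : Cov G p lam n δ (fun v ω => B v ω ∨ B' v ω) (x + x') := by
  obtain ⟨ι, I, S, q, E, h1, h2, h3, h4, h5, h6⟩ := h
  obtain ⟨ι', I', S', q', E', h1', h2', h3', h4', h5', h6'⟩ := h'
  refine ⟨ι ⊕ ι', I.disjSum I', Sum.elim S S', Sum.elim q q', Sum.elim E E', ?_, ?_, ?_, ?_, ?_, ?_⟩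
  · rintro (i | i) hi
    · exact h1 i (inl_mem_disjSum.1 hi)
    · exact h1' i (inr_mem_disjSum.1 hi)
  · rintro (i | i) hi
    · exact h2 i (inl_mem_disjSum.1 hi)
    · exact h2' i (inr_mem_disjSum.1 hi)
  · rintro (i | i) hi
    · exact h3 i (inl_mem_disjSum.1 hi)
    · exact h3' i (inr_mem_disjSum.1 hi)
  · rintro (i | i) hi
    · exact h4 i (inl_mem_disjSum.1 hi)
    · exact h4' i (inr_mem_disjSum.1 hi)
  · rintro v ω hω (h | h)
    · obtain ⟨i, hi, hE⟩ := h5 v ω hω h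
      exact ⟨Sum.inl i, inl_mem_disjSum.2 hi, hE⟩
    · obtain ⟨i, hi, hE⟩ := h5' v ω hω h
      exact ⟨Sum.inr i, inr_mem_disjSum.2 hi, hE⟩
  · rw [sum_disjSum]
    exact add_le_add h6 h6'

theorem cov_exists {ι : Type} (s : Finset ι) {B : ι → V → (V → Λ) → Prop} {x : ι → ℝ}
    (h : ∀ i ∈ s, Cov G p lam n δ (B i) (x i)) :
    Cov G p lam n δ (fun v ω => ∃ i ∈ s, B i v ω) (∑ i ∈ s, x i) := by
  classical
  induction s using Finset.induction_on with
  | empty =>
    exact cov_mono cov_false (fun _ _ _ ⟨_, hi, _⟩ => absurd hi (notMem_empty _)) (by simp) le_rfl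
  | insert a s ha ih =>
    refine cov_mono (cov_or (h a (mem_insert_self _ _))
      (ih fun i hi => h i (mem_insert_of_mem hi))) ?_ (sum_insert ha).ge le_rfl
    rintro v ω - ⟨i, hi, hB⟩
    rcases mem_insert.1 hi with rfl | hi
    · exact Or.inl hB
    · exact Or.inr ⟨i, hi, hB⟩

theorem cov_local (hl : 1 ≤ lam) {B : V → (V → Λ) → Prop} {a : ℝ} (ha : 0 ≤ a)
    (hd : ∀ v, Dep (G.walk v '' {w | InT δ n w}) (B v)) (hB : ∀ v, Pr p (B v) ≤ a) :
    Cov G p lam n δ B (a * lam ^ 2 ^ (n + 1)) := by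
  obtain ⟨S, h1, h2⟩ := f1_words n δ
  refine ⟨Unit, {()}, fun _ => S, fun _ => a, fun _ => B, fun _ _ w hw => (h2 w).1 hw,
    fun _ _ v => (hd v).mono (Set.image_mono fun w hw => mem_coe.2 ((h2 w).2 hw)),
    fun _ _ v => hB v, fun _ _ => ha, fun _ _ _ h => ⟨(), mem_singleton_self _, h⟩, ?_⟩
  rw [sum_singleton]
  exact mul_le_mul_of_nonneg_left (pow_le_pow_right₀ hl (Nat.le_of_succ_le h1)) ha

theorem cov_node (hp : IsP p) (hl : 1 ≤ lam) (hI : G.Inj (n + 1)) (j : Bool) {A : Λ → Prop}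
    {a x1 x2 : ℝ} (hA : ∑ l, p l * ind (A l) ≤ a) {B1 B2 : V → (V → Λ) → Prop}
    (h1 : Cov G p lam n (ch δ j).rev B1 x1) (h2 : Cov G p lam n (ch δ (!j)).rev B2 x2) :
    Cov G p lam (n + 1) δ
      (fun v ω => A (ω v) ∧ B1 (G.step v (ch δ j)) ω ∧ B2 (G.step v (ch δ (!j))) ω)
      (a * lam * x1 * x2) := by
  have hx1 := cov_nonneg (zero_le_one.trans hl) h1
  obtain ⟨ι, I, S, q, E, h1, h2', h3, h4, h5, h6⟩ := h1
  obtain ⟨ι', I', S', q', E', g1, g2, g3, g4, g5, g6⟩ := h2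
  have ha : 0 ≤ a := le_trans (sum_nonneg fun l _ => mul_nonneg (hp.nonneg l) (ind_nonneg _)) hA
  have hl0 : 0 ≤ lam := zero_le_one.trans hl
  refine ⟨ι × ι', I ×ˢ I',
    fun i => insert [] ((S i.1).image (ch δ j :: ·) ∪ (S' i.2).image (ch δ (!j) :: ·)),
    fun i => a * (q i.1 * q' i.2),
    fun i v ω => A (ω v) ∧ E i.1 (G.step v (ch δ j)) ω ∧ E' i.2 (G.step v (ch δ (!j))) ω,
    ?_, ?_, ?_, ?_, ?_, ?_⟩
  · intro i hi w hw
    rw [mem_insert, mem_union, mem_image, mem_image] at hw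
    rcases hw with rfl | ⟨b, hb, rfl⟩ | ⟨b, hb, rfl⟩
    · exact f1_InT_nil _ _
    · exact f1_InT_cons (h1 _ (mem_product.1 hi).1 b hb)
    · exact f1_InT_cons (g1 _ (mem_product.1 hi).2 b hb)
  · intro i hi v ω ω' h
    have e1 : ω v = ω' v := h v ⟨[], mem_coe.2 (mem_insert_self _ _), rfl⟩
    have e2 := h2' _ (mem_product.1 hi).1 (G.step v (ch δ j)) ω ω' (by
      rintro u ⟨w, hw, rfl⟩
      exact h _ ⟨ch δ j :: w, mem_coe.2 (mem_insert_of_mem (mem_union_left _
        (mem_image_of_mem _ hw))), rfl⟩)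
    have e3 := g2 _ (mem_product.1 hi).2 (G.step v (ch δ (!j))) ω ω' (by
      rintro u ⟨w, hw, rfl⟩
      exact h _ ⟨ch δ (!j) :: w, mem_coe.2 (mem_insert_of_mem (mem_union_right _
        (mem_image_of_mem _ hw))), rfl⟩)
    simp only [e1, e2, e3]
  · intro i hi v
    have hi1 := (mem_product.1 hi).1
    have hi2 := (mem_product.1 hi).2
    have d1 := h2' _ hi1 (G.step v (ch δ j))
    have d2 := g2 _ hi2 (G.step v (ch δ (!j)))
    have d0 : Dep ({v} : Set V) (fun ω : V → Λ => A (ω v)) := fun ω ω' h => by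
      simp only [h v rfl]
    have d12 : Dep (G.walk (G.step v (ch δ j)) '' (S i.1 : Set (List Dir)) ∪
        G.walk (G.step v (ch δ (!j))) '' (S' i.2 : Set (List Dir)))
        (fun ω => E i.1 (G.step v (ch δ j)) ω ∧ E' i.2 (G.step v (ch δ (!j))) ω) := by
      intro ω ω' h
      simp only [d1 ω ω' fun u hu => h u (Or.inl hu), d2 ω ω' fun u hu => h u (Or.inr hu)]
    have hne : ∀ (b : Bool) (w : List Dir), InT (ch δ b).rev n w →
        G.walk (G.step v (ch δ b)) w ≠ v := by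
      intro b w hw he
      have := hI v (ch δ b :: w) [] (f1_InT_cons hw).1 List.isChain_nil (f1_InT_cons hw).2.1
        (Nat.zero_le _) he
      exact List.cons_ne_nil _ _ this
    rw [Pr_and hp d0 d12, Pr_and hp d1 d2]
    · have e0 : Pr p (fun ω : V → Λ => A (ω v)) = ∑ l, p l * ind (A l) :=
        Ex_coord hp v fun l => ind (A l)
      rw [e0]
      exact mul_le_mul hA (mul_le_mul (h3 _ hi1 _) (g3 _ hi2 _) (Pr_nonneg hp _) (h4 _ hi1))
        (mul_nonneg (Pr_nonneg hp _) (Pr_nonneg hp _)) ha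
    · rw [Set.disjoint_left]
      rintro u ⟨w, hw, rfl⟩ ⟨w', hw', he⟩
      have t1 := f1_InT_cons (h1 _ hi1 w hw)
      have t2 := f1_InT_cons (g1 _ hi2 w' hw')
      exact f1_ch_not δ j (List.cons.inj (hI v _ _ t1.1 t2.1 t1.2.1 t2.2.1 he.symm)).1
    · rw [Set.disjoint_singleton_left]
      rintro (⟨w, hw, he⟩ | ⟨w, hw, he⟩)
      · exact hne j w (h1 _ hi1 w hw) he
      · exact hne (!j) w (g1 _ hi2 w hw) he
  · intro i hi
    exact mul_nonneg ha (mul_nonneg (h4 _ (mem_product.1 hi).1) (g4 _ (mem_product.1 hi).2))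
  · rintro v ω hω ⟨hA', hB1, hB2⟩
    obtain ⟨i, hi, e1⟩ := h5 _ ω hω hB1
    obtain ⟨i', hi', e2⟩ := g5 _ ω hω hB2
    exact ⟨(i, i'), mem_product.2 ⟨hi, hi'⟩, hA', e1, e2⟩
  · have hs : ∀ i ∈ I ×ˢ I', a * (q i.1 * q' i.2) * lam ^ (insert []
        ((S i.1).image (ch δ j :: ·) ∪ (S' i.2).image (ch δ (!j) :: ·))).card ≤
        a * lam * ((q i.1 * lam ^ (S i.1).card) * (q' i.2 * lam ^ (S' i.2).card)) := by
      intro i hi
      have c1 := card_insert_le ([] : List Dir)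
        ((S i.1).image (ch δ j :: ·) ∪ (S' i.2).image (ch δ (!j) :: ·))
      have c2 := card_union_le ((S i.1).image (ch δ j :: ·)) ((S' i.2).image (ch δ (!j) :: ·))
      have c3 : ((S i.1).image (ch δ j :: ·)).card ≤ (S i.1).card := card_image_le
      have c4 : ((S' i.2).image (ch δ (!j) :: ·)).card ≤ (S' i.2).card := card_image_le
      refine le_trans (mul_le_mul_of_nonneg_left
        (pow_le_pow_right₀ hl (show _ ≤ (S i.1).card + (S' i.2).card + 1 by omega))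
        (mul_nonneg ha (mul_nonneg (h4 _ (mem_product.1 hi).1) (g4 _ (mem_product.1 hi).2))))
        (le_of_eq (by ring))
    refine (sum_le_sum hs).trans ?_
    rw [← mul_sum, sum_product' (f := fun i i' =>
      (q i * lam ^ (S i).card) * (q' i' * lam ^ (S' i').card)), ← sum_mul_sum, mul_assoc (a * lam)]
    exact mul_le_mul_of_nonneg_left (mul_le_mul h6 g6
      (sum_nonneg fun i hi => mul_nonneg (g4 i hi) (pow_nonneg hl0 _)) hx1) (mul_nonneg ha hl0)

theorem cov_graft (hp : IsP p) (hl : 1 ≤ lam) {k : ℕ} (hI : G.Inj (n + k)) {c : ℕ} {b x : ℝ}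
    (hx : 0 ≤ x) {E0 : List Bool → V → (V → Λ) → Prop} (q : List Bool → ℝ)
    (hq0 : ∀ js, 0 ≤ q js)
    (hq : ∀ js v, js.length = k → Pr p (E0 js v) ≤ q js)
    (hb : ∑ f : Fin k → Bool, q (List.ofFn f) ≤ b)
    (hS : ∀ js, js.length = k → ∃ S : Finset (List Dir), S.card ≤ c ∧
      (∀ w ∈ S, InT δ (n + k) w ∧ ¬ wd δ js <+: w) ∧
      ∀ v, Dep (G.walk v '' (S : Set (List Dir))) (E0 js v))
    {B : Dir → V → (V → Λ) → Prop} (hB : ∀ δ', Cov G p lam n δ' (B δ') x) :
    Cov G p lam (n + k) δ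
      (fun v ω => ∃ js, js.length = k ∧ E0 js v ω ∧ B (ex δ js) (G.walk v (wd δ js)) ω)
      (b * lam ^ c * x) := by
  have hl0 : 0 ≤ lam := zero_le_one.trans hl
  have one : ∀ js : List Bool, js.length = k → Cov G p lam (n + k) δ
      (fun v ω => E0 js v ω ∧ B (ex δ js) (G.walk v (wd δ js)) ω) (q js * lam ^ c * x) := by
    intro js hj
    obtain ⟨S0, s1, s2, s3⟩ := hS js hj
    obtain ⟨ι, I, S, q', E, h1, h2, h3, h4, h5, h6⟩ := hB (ex δ js)
    have hT : ∀ i ∈ I, ∀ w ∈ S i, InT δ (n + k) (wd δ js ++ w) := fun i hi w hw =>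
      hj ▸ f1_InT_append js δ (h1 i hi w hw)
    refine ⟨ι, I, fun i => S0 ∪ (S i).image (wd δ js ++ ·), fun i => q js * q' i,
      fun i v ω => E0 js v ω ∧ E i (G.walk v (wd δ js)) ω, ?_, ?_, ?_, ?_, ?_, ?_⟩
    · intro i hi w hw
      rcases mem_union.1 hw with hw | hw
      · exact (s2 w hw).1
      · obtain ⟨w', hw', rfl⟩ := mem_image.1 hw
        exact hT i hi w' hw'
    · intro i hi v ω ω' h
      have e1 := s3 v ω ω' (by
        rintro u ⟨w, hw, rfl⟩
        exact h _ ⟨w, mem_coe.2 (mem_union_left _ hw), rfl⟩)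
      have e2 := h2 i hi (G.walk v (wd δ js)) ω ω' (by
        rintro u ⟨w, hw, rfl⟩
        exact h _ ⟨wd δ js ++ w, mem_coe.2 (mem_union_right _ (mem_image_of_mem _ hw)),
          f1_walk_append _ _ _⟩)
      simp only [e1, e2]
    · intro i hi v
      rw [Pr_and hp (s3 v) (h2 i hi _)]
      · exact mul_le_mul (hq js v hj) (h3 i hi _) (Pr_nonneg hp _) (hq0 js)
      · rw [Set.disjoint_left]
        rintro u ⟨w, hw, rfl⟩ ⟨w', hw', he⟩
        rw [← f1_walk_append] at he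
        have t1 := (s2 w hw).1
        have t2 := hT i hi w' hw'
        exact (s2 w hw).2 ⟨w', hI v _ _ t2.1 t1.1 t2.2.1 t1.2.1 he⟩
    · exact fun i hi => mul_nonneg (hq0 js) (h4 i hi)
    · rintro v ω hω ⟨e0, hB'⟩
      obtain ⟨i, hi, e1⟩ := h5 _ ω hω hB'
      exact ⟨i, hi, e0, e1⟩
    · refine le_trans (sum_le_sum (g := fun i => q js * lam ^ c * (q' i * lam ^ (S i).card))
        fun i hi => ?_) ?_
      · have c2 := card_union_le S0 ((S i).image (wd δ js ++ ·))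
        have c3 : ((S i).image (wd δ js ++ ·)).card ≤ (S i).card := card_image_le
        exact le_trans (mul_le_mul_of_nonneg_left
          (pow_le_pow_right₀ hl (c2.trans (Nat.add_le_add s1 c3)))
          (mul_nonneg (hq0 js) (h4 i hi))) (le_of_eq (by ring))
      · rw [← mul_sum]
        exact mul_le_mul_of_nonneg_left h6 (mul_nonneg (hq0 js) (pow_nonneg hl0 _))
  refine cov_mono (cov_exists (univ : Finset (Fin k → Bool))
    fun f _ => one (List.ofFn f) List.length_ofFn) ?_ ?_ le_rfl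
  · rintro v ω - ⟨js, rfl, h⟩
    exact ⟨js.get, mem_univ _, by rw [List.ofFn_get]; exact h⟩
  · rw [← sum_mul, ← sum_mul]
    exact mul_le_mul_of_nonneg_right (mul_le_mul_of_nonneg_right hb (pow_nonneg hl0 _)) hx
end cov

end

end Pool.Agent.MP_7c51ae_co

set_option autoImplicit false

namespace Pool.Agent.MP_7c51ae_co

open Finset Pool.Agent.MP_d802e4_co

noncomputable section

section
variable {V : Type} [Fintype V] [DecidableEq V] {Λ : Type} [Fintype Λ] {p : Λ → ℝ}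

open Classical in
/-- the asymmetric local lemma -/
theorem f2_lll (hp : IsP p) {ι : Type} (I : Finset ι) (A : ι → Set V)
    (E : ι → (V → Λ) → Prop) (z : ι → ℝ) (hz0 : ∀ i ∈ I, 0 ≤ z i) (hz1 : ∀ i ∈ I, z i < 1)
    (hE : ∀ i ∈ I, Dep (A i) (E i))
    (hq : ∀ i ∈ I, Pr p (E i) ≤
      z i * ∏ j ∈ I.filter (fun j => ¬ Disjoint (A i) (A j)), (1 - z j)) :
    0 < Pr p (fun ω => ∀ i ∈ I, ¬ E i ω) := by
  have step : ∀ (S : Finset ι) (a : ι),
      Pr p (fun ω => E a ω ∧ ∀ j ∈ S, ¬ E j ω) ≤ z a * Pr p (fun ω => ∀ j ∈ S, ¬ E j ω) →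
      (1 - z a) * Pr p (fun ω => ∀ j ∈ S, ¬ E j ω) ≤
        Pr p (fun ω => ∀ j ∈ insert a S, ¬ E j ω) := by
    intro S a h2
    have h3 := Pr_split (p := p) (fun ω : V → Λ => ∀ j ∈ S, ¬ E j ω) (E a)
    rw [Pr_congr (E := fun ω => ∀ j ∈ insert a S, ¬ E j ω)
      (F := fun ω => (∀ j ∈ S, ¬ E j ω) ∧ ¬ E a ω) (fun ω => by simp only [mem_insert, forall_eq_or_imp, and_comm]), h3]
    linarith
  have key : ∀ n : ℕ, ∀ S : Finset ι, S.card = n → S ⊆ I → ∀ i ∈ I,
      Pr p (fun ω => E i ω ∧ ∀ j ∈ S, ¬ E j ω) ≤ z i * Pr p (fun ω => ∀ j ∈ S, ¬ E j ω) := by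
    intro n
    induction n using Nat.strong_induction_on with
    | _ n ih =>
      intro S hS hSI i hi
      set S1 := S.filter (fun j => ¬ Disjoint (A i) (A j)) with hS1
      set S2 := S.filter (fun j => Disjoint (A i) (A j)) with hS2
      have hind : Pr p (fun ω => E i ω ∧ ∀ j ∈ S2, ¬ E j ω) =
          Pr p (E i) * Pr p (fun ω => ∀ j ∈ S2, ¬ E j ω) := by
        refine Pr_and hp (hE i hi) (B := ⋃ j ∈ S2, A j) ?_ ?_
        · intro ω ω' h
          apply propext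
          refine forall_congr' fun j => forall_congr' fun hj => ?_
          rw [hE j (hSI (mem_filter.1 hj).1) ω ω' fun v hv => h v (Set.mem_biUnion hj hv)]
        · simp only [Set.disjoint_iUnion_right]
          intro j hj
          exact (mem_filter.1 hj).2
      have hN2 := Pr_nonneg hp (fun ω : V → Λ => ∀ j ∈ S2, ¬ E j ω)
      have hch : ∀ T : Finset ι, T ⊆ S1 → (∏ j ∈ T, (1 - z j)) *
          Pr p (fun ω => ∀ j ∈ S2, ¬ E j ω) ≤ Pr p (fun ω => ∀ j ∈ T ∪ S2, ¬ E j ω) := by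
        intro T
        induction T using Finset.induction_on with
        | empty => intro _; simp only [prod_empty, one_mul, empty_union, Std.le_refl]
        | insert a T ha ihT =>
          intro hT
          have ha1 := mem_filter.1 (hT (mem_insert_self _ _))
          have hT' : T ⊆ S1 := (subset_insert _ _).trans hT
          have hsub : T ∪ S2 ⊆ S := union_subset (hT'.trans (filter_subset _ _)) (filter_subset _ _)
          have hna : a ∉ T ∪ S2 := notMem_union.2 ⟨ha, fun h => ha1.2 (mem_filter.1 h).2⟩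
          have hlt : (T ∪ S2).card < n :=
            hS ▸ card_lt_card ⟨hsub, fun h => hna (h ha1.1)⟩
          have h1 := step _ a (ih _ hlt _ rfl (hsub.trans hSI) a (hSI ha1.1))
          rw [prod_insert ha, insert_union, mul_assoc]
          exact le_trans (mul_le_mul_of_nonneg_left (ihT hT')
            (sub_nonneg.2 (hz1 a (hSI ha1.1)).le)) h1
      have h1 := hch S1 Subset.rfl
      rw [hS1, hS2, union_comm, filter_union_filter_not_eq, ← hS1, ← hS2] at h1
      have h2 : ∏ j ∈ I.filter (fun j => ¬ Disjoint (A i) (A j)), (1 - z j) ≤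
          ∏ j ∈ S1, (1 - z j) :=
        prod_le_prod_of_subset_of_le_one (filter_subset_filter _ hSI)
          (fun j hj => sub_nonneg.2 (hz1 j (mem_filter.1 hj).1).le)
          fun j hj _ => sub_le_self _ (hz0 j (mem_filter.1 hj).1)
      refine le_trans (Pr_mono hp (F := fun ω => E i ω ∧ ∀ j ∈ S2, ¬ E j ω)
        fun ω h => ⟨h.1, fun j hj => h.2 j (mem_filter.1 hj).1⟩) ?_
      rw [hind]
      refine le_trans (mul_le_mul_of_nonneg_right
        ((hq i hi).trans (mul_le_mul_of_nonneg_left h2 (hz0 i hi))) hN2) ?_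
      rw [mul_assoc]
      exact mul_le_mul_of_nonneg_left h1 (hz0 i hi)
  have pos : ∀ S : Finset ι, S ⊆ I → 0 < Pr p (fun ω => ∀ j ∈ S, ¬ E j ω) := by
    intro S
    induction S using Finset.induction_on with
    | empty => intro _; simp [Pr_true hp]
    | insert a S ha ih =>
      intro hS
      have hS' : S ⊆ I := (subset_insert _ _).trans hS
      have ha' := hS (mem_insert_self _ _)
      exact lt_of_lt_of_le (mul_pos (sub_pos.2 (hz1 a ha')) (ih hS'))
        (step S a (key _ S rfl hS' a ha'))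
  exact pos I Subset.rfl

omit [Fintype V] [DecidableEq V] in
theorem f2_walk_inj (G : Sch V) (w : List Dir) : Function.Injective fun v => G.walk v w := by
  induction w with
  | nil => exact fun _ _ h => h
  | cons a w ih =>
    intro v v' h
    have h1 : G.step v a = G.step v' a := ih h
    cases a
    · exact G.s.symm.injective h1
    · exact G.s.injective h1
    · exact Function.LeftInverse.injective G.mm h1

theorem f2_exp {z : ℝ} (h0 : 0 ≤ z) (h1 : z ≤ 1 / 2) : Real.exp (-(2 * z)) ≤ 1 - z := by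
  have h2 := Real.add_one_le_exp (2 * z)
  rw [Real.exp_neg, inv_le_iff_one_le_mul₀ (Real.exp_pos _)]
  nlinarith only [mul_le_mul_of_nonneg_left h2 (show 0 ≤ 1 - z by linarith), h0, h1]

theorem f2_sum_biUnion {α β : Type} [DecidableEq α] (f : α → ℝ) (hf : ∀ a, 0 ≤ f a)
    (s : Finset β) (t : β → Finset α) : ∑ a ∈ s.biUnion t, f a ≤ ∑ b ∈ s, ∑ a ∈ t b, f a := by
  classical
  induction s using Finset.induction_on with
  | empty => simp
  | insert b s hb ih =>
    rw [biUnion_insert, sum_insert hb]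
    have h1 := sum_union_inter (s₁ := t b) (s₂ := s.biUnion t) (f := f)
    have h2 : 0 ≤ ∑ a ∈ t b ∩ s.biUnion t, f a := sum_nonneg fun a _ => hf a
    linarith

theorem f2_fam (hp : IsP p) (G : Sch V) {lam μ y : ℝ} (h1 : 1 < μ) (h2 : μ < lam)
    (hy : y ≤ 1 / 2) (hy2 : 2 * y ≤ Real.log μ * (lam / μ - 1)) {ι : Type} (I : Finset ι)
    (S : ι → Finset (List Dir)) (q : ι → ℝ) (E : ι → V → (V → Λ) → Prop)
    (hd : ∀ i ∈ I, ∀ v, Dep (G.walk v '' (S i : Set (List Dir))) (E i v))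
    (hq : ∀ i ∈ I, ∀ v, Pr p (E i v) ≤ q i) (hq0 : ∀ i ∈ I, 0 ≤ q i)
    (hs : ∑ i ∈ I, q i * lam ^ (S i).card ≤ y) :
    ∃ ω, 0 < wt p ω ∧ ∀ i ∈ I, ∀ v, ¬ E i v ω := by
  classical
  have hμ : 0 < μ := by linarith only [h1]
  have hr : 0 < lam / μ - 1 := by rw [sub_pos, one_lt_div hμ]; exact h2
  let z : ι → ℝ := fun i => if i ∈ I then q i * μ ^ (S i).card else 0
  have hz : ∀ i ∈ I, z i = q i * μ ^ (S i).card := fun i hi => if_pos hi
  have hz0 : ∀ i, 0 ≤ z i := by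
    intro i
    by_cases hi : i ∈ I
    · rw [hz i hi]; exact mul_nonneg (hq0 i hi) (pow_nonneg hμ.le _)
    · exact (if_neg hi).ge
  have hz1 : ∀ i ∈ I, z i ≤ 1 / 2 := by
    intro i hi
    rw [hz i hi]
    refine le_trans (mul_le_mul_of_nonneg_left (pow_le_pow_left₀ hμ.le h2.le _) (hq0 i hi))
      (le_trans ?_ (hs.trans hy))
    exact single_le_sum (f := fun i => q i * lam ^ (S i).card)
      (fun i hi => mul_nonneg (hq0 i hi) (pow_nonneg (by linarith only [h1, h2]) _)) hi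
  have hη : 2 * ∑ i ∈ I, ((S i).card : ℝ) * z i ≤ Real.log μ := by
    refine le_of_mul_le_mul_right (le_trans ?_ hy2) hr
    rw [mul_assoc, sum_mul]
    refine mul_le_mul_of_nonneg_left (le_trans (sum_le_sum fun i hi => ?_) hs) zero_le_two
    have b1 := one_add_mul_le_pow (show (-2 : ℝ) ≤ lam / μ - 1 by linarith only [hr]) (S i).card
    rw [add_sub_cancel, div_pow, le_div_iff₀ (pow_pos hμ _)] at b1
    have b2 := mul_le_mul_of_nonneg_left b1 (hq0 i hi)
    have b3 := mul_nonneg (hq0 i hi) (pow_nonneg hμ.le (S i).card)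
    rw [hz i hi]
    linarith only [b2, b3]
  let Γ : V → Finset (ι × V) := fun u =>
    (I ×ˢ (univ : Finset V)).filter fun a => ∃ w ∈ S a.1, G.walk a.2 w = u
  have hΓ : ∀ u, ∑ a ∈ Γ u, z a.1 ≤ ∑ i ∈ I, ((S i).card : ℝ) * z i := by
    intro u
    rw [sum_filter, sum_product]
    refine sum_le_sum fun i _ => ?_
    rw [← sum_filter]
    simp only [sum_const, nsmul_eq_mul]
    refine mul_le_mul_of_nonneg_right (Nat.cast_le.2 ?_) (hz0 i)
    refine le_trans (card_le_card (t := (S i).biUnion fun w => univ.filter fun v => G.walk v w = u)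
      fun v hv => ?_) ((card_biUnion_le_card_mul _ _ 1 fun w _ => ?_).trans (by simp))
    · obtain ⟨w, hw, he⟩ := (mem_filter.1 hv).2
      exact mem_biUnion.2 ⟨w, hw, mem_filter.2 ⟨mem_univ _, he⟩⟩
    · exact card_le_one.2 fun a ha b hb =>
        f2_walk_inj G w ((mem_filter.1 ha).2.trans (mem_filter.1 hb).2.symm)
  have hpos := f2_lll hp (I ×ˢ (univ : Finset V))
    (fun a => G.walk a.2 '' (S a.1 : Set (List Dir))) (fun a => E a.1 a.2) (fun a => z a.1)
    (fun a _ => hz0 _) (fun a ha => (hz1 _ (mem_product.1 ha).1).trans_lt (by norm_num))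
    (fun a ha => hd _ (mem_product.1 ha).1 _) (by
      intro a ha
      have hi := (mem_product.1 ha).1
      set N := (I ×ˢ (univ : Finset V)).filter fun b => ¬ Disjoint
        (G.walk a.2 '' (S a.1 : Set (List Dir))) (G.walk b.2 '' (S b.1 : Set (List Dir))) with hN
      have c1 : N ⊆ (S a.1).biUnion fun w => Γ (G.walk a.2 w) := by
        intro b hb
        obtain ⟨u, ⟨w, hw, rfl⟩, w', hw', he⟩ := Set.not_disjoint_iff.1 (mem_filter.1 hb).2
        exact mem_biUnion.2 ⟨w, hw, mem_filter.2 ⟨(mem_filter.1 hb).1, w', hw', he⟩⟩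
      have c2 : ∑ b ∈ N, z b.1 ≤ (S a.1).card * ∑ i ∈ I, ((S i).card : ℝ) * z i := by
        refine le_trans (sum_le_sum_of_subset_of_nonneg c1 fun b _ _ => hz0 _)
          ((f2_sum_biUnion (fun b : ι × V => z b.1) (fun b => hz0 _) _ _).trans ?_)
        simpa only [nsmul_eq_mul] using sum_le_card_nsmul (S a.1) _ _ fun w _ => hΓ (G.walk a.2 w)
      have c3 : Real.exp (∑ b ∈ N, -(2 * z b.1)) ≤ ∏ b ∈ N, (1 - z b.1) := by
        rw [Real.exp_sum]
        exact prod_le_prod (fun b _ => (Real.exp_pos _).le) fun b hb =>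
          f2_exp (hz0 _) (hz1 _ (mem_product.1 (mem_filter.1 hb).1).1)
      have c4 : 1 ≤ μ ^ (S a.1).card * Real.exp (∑ b ∈ N, -(2 * z b.1)) := by
        rw [← Real.exp_log (pow_pos hμ (S a.1).card), ← Real.exp_add, Real.one_le_exp_iff,
          Real.log_pow, sum_neg_distrib, ← mul_sum]
        have := mul_le_mul_of_nonneg_left hη (Nat.cast_nonneg (α := ℝ) (S a.1).card)
        linarith only [c2, this]
      refine (hq _ hi _).trans ?_
      rw [hz _ hi, mul_assoc]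
      exact le_mul_of_one_le_right (hq0 _ hi)
        (c4.trans (mul_le_mul_of_nonneg_left c3 (pow_nonneg hμ.le _))))
  obtain ⟨ω, -, hω⟩ := exists_ne_zero_of_sum_ne_zero hpos.ne'
  refine ⟨ω, lt_of_le_of_ne (wt_nonneg hp ω) (left_ne_zero_of_mul hω).symm, fun i hi v => ?_⟩
  by_contra hE
  exact right_ne_zero_of_mul hω (ind_neg fun h => h (i, v) (mem_product.2 ⟨hi, mem_univ _⟩) hE)

end

theorem lll_cov {lam : ℝ} (hl : 1 < lam) : ∃ x0 : ℝ, 0 < x0 ∧
    ∀ (V : Type) [Fintype V] [DecidableEq V] (G : Sch V) (Λ : Type) [Fintype Λ] (p : Λ → ℝ)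
      (n : ℕ) (B : Dir → V → (V → Λ) → Prop), IsP p → (∀ δ, Cov G p lam n δ (B δ) x0) →
      ∃ ω, 0 < wt p ω ∧ ∀ δ v, ¬ B δ v ω := by
  have h1 : 1 < (1 + lam) / 2 := by linarith
  have h2 : (1 + lam) / 2 < lam := by linarith only [hl]
  have hr : 0 < lam / ((1 + lam) / 2) - 1 := by
    rw [sub_pos, one_lt_div (by linarith only [hl])]; exact h2
  have hL := mul_pos (Real.log_pos h1) hr
  refine ⟨min (1 / 6) (Real.log ((1 + lam) / 2) * (lam / ((1 + lam) / 2) - 1) / 6),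
    lt_min (by norm_num) (by linarith only [hL]), ?_⟩
  intro V _ _ G Λ _ p n B hp hB
  have m1 := min_le_left (1 / 6 : ℝ) (Real.log ((1 + lam) / 2) * (lam / ((1 + lam) / 2) - 1) / 6)
  have m2 := min_le_right (1 / 6 : ℝ) (Real.log ((1 + lam) / 2) * (lam / ((1 + lam) / 2) - 1) / 6)
  generalize min (1 / 6 : ℝ) (Real.log ((1 + lam) / 2) * (lam / ((1 + lam) / 2) - 1) / 6) = x0
    at m1 m2 hB
  choose ι I S q E _ hd hq hq0 hc hs using hB
  obtain ⟨ω, hω, h⟩ := f2_fam hp G (y := 3 * x0) h1 h2 (by linarith only [m1]) (by linarith only [m2])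
    ((univ : Finset Dir).sigma I) (fun a => S a.1 a.2) (fun a => q a.1 a.2) (fun a => E a.1 a.2)
    (fun a ha => hd _ _ (mem_sigma.1 ha).2) (fun a ha => hq _ _ (mem_sigma.1 ha).2)
    (fun a ha => hq0 _ _ (mem_sigma.1 ha).2) (by
      rw [sum_sigma]
      have := sum_le_card_nsmul (univ : Finset Dir) _ x0 fun δ _ => hs δ
      rw [show (univ : Finset Dir).card = 3 from rfl, nsmul_eq_mul] at this
      exact_mod_cast this)
  refine ⟨ω, hω, fun δ v hb => ?_⟩
  obtain ⟨i, hi, hE⟩ := hc δ v ω hω hb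
  exact h ⟨δ, i⟩ (mem_sigma.2 ⟨mem_univ _, hi⟩) v hE

end

end Pool.Agent.MP_7c51ae_co

/-!
A fixed point of the messages gives a homomorphism.
-/

set_option autoImplicit false

namespace Pool.Agent.MP_7c51ae_co

open Finset Pool.Agent.MP_d802e4_co

noncomputable section

section
variable {V : Type} [Fintype V] [DecidableEq V] {G : Sch V} {K : ℕ}

omit [Fintype V] [DecidableEq V] in
theorem c_step_rev (G : Sch V) (v : V) (d : Dir) : G.step (G.step v d) d.rev = v := by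
  cases d <;> simp [Sch.step, Dir.rev, G.mm]

theorem c_rev_rev (d : Dir) : d.rev.rev = d := by cases d <;> rfl

theorem c_ch_ne (δ : Dir) (j : Bool) : ch δ j ≠ δ := by cases δ <;> cases j <;> decide

theorem c_inT_cons {δ c : Dir} {h : ℕ} {w : List Dir} (hw : InT c.rev h w) (hc : c ≠ δ) :
    InT δ (h + 1) (c :: w) := by
  refine ⟨List.IsChain.cons hw.1 fun y hy e => hw.2.2 ?_, by simpa using hw.2.1, by simpa using hc⟩
  rw [← e]
  exact hy

theorem c_rel_ex : ∀ (e : Bool) (x : Fin 16), ∃ y, rel e x y = true := by decide +kernel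

theorem c_rem_Tm {e : Bool} {a : Fin 16 → Sc} {θ : ℕ} (h : Rem θ (Tm e a)) : Rem θ a := by
  obtain ⟨x, hx⟩ := h
  obtain ⟨y, hy⟩ := c_rel_ex e x
  obtain ⟨z, -, hz⟩ := Finset.exists_mem_eq_sup (univ.filter fun y => rel e x y = true)
    ⟨y, by simpa using hy⟩ a
  exact ⟨z, by rw [← hz]; exact hx⟩

theorem c_Tm_top (e : Bool) : Tm e (fun _ => ⊤) = fun _ => ⊤ := by
  funext x
  obtain ⟨y, hy⟩ := c_rel_ex e x
  exact top_le_iff.1 (Finset.le_sup (f := fun _ => (⊤ : Sc)) (b := y) (by simpa using hy))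

theorem c_comb_congr (t : Fin 16) (θ : ℕ) {b1 b2 b1' b2' : Fin 16 → Sc}
    (h : ∀ z, min (b1 z) (b2 z) = min (b1' z) (b2' z)) : comb t θ b1 b2 = comb t θ b1' b2' := by
  have e : vl t θ b1 b2 = vl t θ b1' b2' := by
    funext z
    simp only [vl, pre, h]
  funext x
  simp only [comb, e]

theorem c_rk_inj : ∀ (l l' : Fin 4) (d d' : Bool), rk l d = rk l' d' → l = l' ∧ d = d' := by decide

theorem c_pc_symm : ∀ a b : Fin 4, pc a (fl b) = pc b (fl a) := by decide

theorem c_fl_symm : ∀ a b : Fin 4, decide (a ≠ fl b) = decide (b ≠ fl a) := by decide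

instance c_decOk (a b : Fin 4 × Fin 16) : Decidable (ok6 a b) := by unfold ok6; infer_instance

theorem c_ok : ∀ (a b : Fin 4) (y z : Fin 16), pc a (fl b) ≤ 1 →
    rel (decide (a ≠ fl b)) y z = true → ok6 (a, y) (b, z) := by decide +kernel

section fix

variable (G) (l : V → L1) (o : V → Bool) (μ : V → Dir → M1)

/-- the configuration of a vertex that sees all three messages -/
def cK (v : V) : Cfg :=
  let P := μ (G.s.symm v) .R
  let S := μ (G.s v) .L
  let W := μ (G.m v) .M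
  let lam := (l v).1.getD (P.e 0).1
  let des := desOf lam (l v).2.1 (o v) W
  let a := vote lam des W
  ⟨lam, des, a, (nxOf lam des S).1, (nxOf lam des S).2, leftOf lam des (a.or (nxOf lam des S).2) P⟩

/-- its value -/
def cX (v : V) : Fin 4 := (cK G l o μ v).x (l v)

/-- what it passes down -/
def cD (v : V) (c : Dir) : Dn := dnTo c (cK G l o μ v) (cX G l o μ v) (μ (G.step v c) c.rev)

/-- a fixed point of the two-bit rule -/
structure CFix : Prop where
  om : ∀ v, o (G.m v) = !o v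
  fx : ∀ v δ, μ v δ = out1 δ (l v) (o v) (μ (G.step v (ch δ false)) (ch δ false).rev)
    (μ (G.step v (ch δ true)) (ch δ true).rev)

variable {G l o μ}

omit [Fintype V] [DecidableEq V]

theorem c_cfgR (v : V) (d : Dn) (h1 : d.2.1 = (cK G l o μ v).hard) (h2 : d.2.2 = (cK G l o μ v).nx) :
    cfg .R (l v) (o v) d (μ (G.s.symm v) .R) (μ (G.m v) .M) = cK G l o μ v := by
  simp only [cfg, h1, h2]
  rfl

theorem c_cfgL (v : V) (d : Dn) (h1 : (l v).1.getD d.1 = (cK G l o μ v).lam)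
    (h2 : d.2.2 = (cK G l o μ v).left) :
    cfg .L (l v) (o v) d (μ (G.s v) .L) (μ (G.m v) .M) = cK G l o μ v := by
  simp only [cfg, h1, h2]
  rfl

theorem c_cfgM (v : V) (d : Dn) (h1 : d.2.1 = (cK G l o μ v).des) (h2 : d.2.2 = (cK G l o μ v).a) :
    cfg .M (l v) (o v) d (μ (G.s.symm v) .R) (μ (G.s v) .L) = cK G l o μ v := by
  simp only [cfg, h1, h2]
  rfl

theorem CFix.eR (h : CFix G l o μ) (v : V) (lp : Fin 4) :
    (μ v .R).e lp = ((cK G l o μ v).lam, (cK G l o μ v).des, none) := by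
  rw [h.fx v .R]
  rfl

theorem CFix.eM (h : CFix G l o μ) (v : V) (lp : Fin 4) :
    (μ v .M).e lp = ((cK G l o μ v).lam, (l v).2.1, none) := by
  rw [h.fx v .M]
  rfl

theorem CFix.eL (h : CFix G l o μ) (v : V) (lp : Fin 4)
    (h1 : (l v).1.getD lp = (cK G l o μ v).lam) :
    (μ v .L).e lp = ((cK G l o μ v).lam, (cK G l o μ v).des, (cK G l o μ v).b) := by
  rw [h.fx v .L]
  simp only [out1, cfg, eOut, h1]
  rfl

theorem CFix.xR (h : CFix G l o μ) (v : V) (d : Dn) (h1 : d.2.1 = (cK G l o μ v).hard)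
    (h2 : d.2.2 = (cK G l o μ v).nx) : (μ v .R).x d = cX G l o μ v := by
  rw [h.fx v .R]
  exact congrArg (fun k : Cfg => k.x (l v)) (c_cfgR v d h1 h2)

theorem CFix.xL (h : CFix G l o μ) (v : V) (d : Dn) (h1 : (l v).1.getD d.1 = (cK G l o μ v).lam)
    (h2 : d.2.2 = (cK G l o μ v).left) : (μ v .L).x d = cX G l o μ v := by
  rw [h.fx v .L]
  exact congrArg (fun k : Cfg => k.x (l v)) (c_cfgL v d h1 h2)

theorem CFix.xM (h : CFix G l o μ) (v : V) (d : Dn) (h1 : d.2.1 = (cK G l o μ v).des)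
    (h2 : d.2.2 = (cK G l o μ v).a) : (μ v .M).x d = cX G l o μ v := by
  rw [h.fx v .M]
  exact congrArg (fun k : Cfg => k.x (l v)) (c_cfgM v d h1 h2)

theorem CFix.lamS (h : CFix G l o μ) (v : V) :
    (l (G.s v)).1.getD (cK G l o μ v).lam = (cK G l o μ (G.s v)).lam := by
  change _ = (l (G.s v)).1.getD ((μ (G.s.symm (G.s v)) .R).e 0).1
  rw [Equiv.symm_apply_apply, h.eR]

theorem CFix.eS (h : CFix G l o μ) (v : V) : (μ (G.s v) .L).e (cK G l o μ v).lam =
    ((cK G l o μ (G.s v)).lam, (cK G l o μ (G.s v)).des, (cK G l o μ (G.s v)).b) :=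
  h.eL _ _ (h.lamS v)

theorem CFix.des (h : CFix G l o μ) (v : V) : (cK G l o μ v).des =
    (decide ((cK G l o μ (G.m v)).lam = (cK G l o μ v).lam) &&
      xor (xor (l v).2.1 (l (G.m v)).2.1) (o v)) := by
  change desOf (cK G l o μ v).lam (l v).2.1 (o v) (μ (G.m v) .M) = _
  simp only [desOf, h.eM]

theorem CFix.dW (h : CFix G l o μ) (v : V) :
    dW (cK G l o μ v).lam (cK G l o μ v).des (μ (G.m v) .M) = (cK G l o μ (G.m v)).des := by
  rw [h.des v, h.des (G.m v), G.mm, h.om]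
  simp only [MP_7c51ae_co.dW, h.eM]
  by_cases e : (cK G l o μ (G.m v)).lam = (cK G l o μ v).lam
  · simp only [e, decide_true, Bool.true_and]
    cases (l v).2.1 <;> cases (l (G.m v)).2.1 <;> cases o v <;> rfl
  · have e' : ¬ (cK G l o μ v).lam = (cK G l o μ (G.m v)).lam := fun x => e x.symm
    simp only [e, e', decide_false, Bool.false_and]

theorem CFix.rk_ne (h : CFix G l o μ) (v : V) : (cK G l o μ v).rk ≠ (cK G l o μ (G.m v)).rk := by
  intro e
  obtain ⟨h1, h2⟩ := c_rk_inj _ _ _ _ e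
  have h3 := h.dW v
  simp only [MP_7c51ae_co.dW, h.eM, h1, decide_true, Bool.true_and, ← h2] at h3
  revert h3
  cases (cK G l o μ v).des <;> simp

theorem CFix.a0 (h : CFix G l o μ) (v : V) : (cK G l o μ v).a =
    if (cK G l o μ (G.m v)).rk < (cK G l o μ v).rk then
      some (fl ((μ (G.m v) .M).x (0, (cK G l o μ (G.m v)).des, none))) else none := by
  change vote (cK G l o μ v).lam (cK G l o μ v).des (μ (G.m v) .M) = _
  simp only [vote, h.dW, h.eM]
  rfl

theorem CFix.aEq (h : CFix G l o μ) (v : V) : (cK G l o μ v).a =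
    if (cK G l o μ (G.m v)).rk < (cK G l o μ v).rk then some (fl (cX G l o μ (G.m v))) else none := by
  rw [h.a0]
  split_ifs with hc
  · rw [h.xM (G.m v) _ rfl]
    rw [h.a0, G.mm, if_neg (by omega)]
  · rfl

theorem CFix.nx0 (h : CFix G l o μ) (v : V) : ((cK G l o μ v).hard, (cK G l o μ v).nx) =
    if (cK G l o μ (G.s v)).rk < (cK G l o μ v).rk then
      (true, some (fl ((μ (G.s v) .L).x ((cK G l o μ v).lam, false, none))))
    else if (cK G l o μ (G.s v)).rk = (cK G l o μ v).rk then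
      (false, (cK G l o μ (G.s v)).b.map fl) else (false, none) := by
  change nxOf (cK G l o μ v).lam (cK G l o μ v).des (μ (G.s v) .L) = _
  simp only [nxOf, h.eS]
  rfl

theorem CFix.left0 (h : CFix G l o μ) (v : V) : (cK G l o μ (G.s v)).left =
    if (cK G l o μ v).rk ≤ (cK G l o μ (G.s v)).rk then
      some (fl ((μ v .R).x (0, false, if (cK G l o μ v).rk = (cK G l o μ (G.s v)).rk then
        (cK G l o μ (G.s v)).b.map fl else none))) else none := by
  change leftOf (cK G l o μ (G.s v)).lam (cK G l o μ (G.s v)).des (cK G l o μ (G.s v)).b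
    (μ (G.s.symm (G.s v)) .R) = _
  simp only [Equiv.symm_apply_apply, leftOf, dP0, h.eR]
  rfl

theorem CFix.leftEq (h : CFix G l o μ) (v : V) : (cK G l o μ (G.s v)).left =
    if (cK G l o μ v).rk ≤ (cK G l o μ (G.s v)).rk then some (fl (cX G l o μ v)) else none := by
  rw [h.left0]
  by_cases hc : (cK G l o μ v).rk ≤ (cK G l o μ (G.s v)).rk
  · have h1 := h.nx0 v
    rw [if_neg (by omega)] at h1
    rw [if_pos hc, if_pos hc, h.xR v]
    · by_cases e : (cK G l o μ (G.s v)).rk = (cK G l o μ v).rk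
      · rw [if_pos e] at h1
        exact (congrArg Prod.fst h1).symm
      · rw [if_neg e] at h1
        exact (congrArg Prod.fst h1).symm
    · by_cases e : (cK G l o μ (G.s v)).rk = (cK G l o μ v).rk
      · rw [if_pos e] at h1
        rw [if_pos e.symm]
        exact (congrArg Prod.snd h1).symm
      · rw [if_neg e] at h1
        rw [if_neg fun x => e x.symm]
        exact (congrArg Prod.snd h1).symm
  · rw [if_neg hc, if_neg hc]

theorem CFix.nxEq (h : CFix G l o μ) (v : V) : ((cK G l o μ v).hard, (cK G l o μ v).nx) =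
    if (cK G l o μ (G.s v)).rk < (cK G l o μ v).rk then (true, some (fl (cX G l o μ (G.s v))))
    else (false, if (cK G l o μ v).rk = (cK G l o μ (G.s v)).rk then
      (cK G l o μ (G.s v)).b.map fl else none) := by
  rw [h.nx0]
  by_cases hc : (cK G l o μ (G.s v)).rk < (cK G l o μ v).rk
  · rw [if_pos hc, if_pos hc, h.xL (G.s v) _ (h.lamS v)]
    rw [h.leftEq, if_neg (by omega)]
  · rw [if_neg hc, if_neg hc]
    by_cases e : (cK G l o μ (G.s v)).rk = (cK G l o μ v).rk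
    · rw [if_pos e, if_pos e.symm]
    · rw [if_neg e, if_neg fun x => e x.symm]

theorem CFix.key (h : CFix G l o μ) (v : V) (c : Dir) :
    cfg c.rev (l (G.step v c)) (o (G.step v c)) (cD G l o μ v c)
      (μ (G.step (G.step v c) (ch c.rev false)) (ch c.rev false).rev)
      (μ (G.step (G.step v c) (ch c.rev true)) (ch c.rev true).rev) = cK G l o μ (G.step v c) := by
  cases c
  · obtain ⟨u, rfl⟩ := G.s.surjective v
    have e : G.step (G.s u) .L = u := G.s.symm_apply_apply u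
    have h1 := h.nxEq u
    have h2 : ((cD G l o μ (G.s u) .L).2.1, (cD G l o μ (G.s u) .L).2.2) =
        ((cK G l o μ u).hard, (cK G l o μ u).nx) := by
      rw [h1]
      simp only [cD, dnTo, e, Dir.rev, dP0, h.eR]
      change ((ite ((cK G l o μ (G.s u)).rk < (cK G l o μ u).rk) _ _ : Dn).2.1,
        (ite ((cK G l o μ (G.s u)).rk < (cK G l o μ u).rk) _ _ : Dn).2.2) = _
      by_cases hc : (cK G l o μ (G.s u)).rk < (cK G l o μ u).rk
      · rw [if_pos hc, if_pos hc]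
      · rw [if_neg hc, if_neg hc]
        rfl
    rw [e]
    exact c_cfgR u _ (congrArg Prod.fst h2) (congrArg Prod.snd h2)
  · refine c_cfgL (G.s v) _ (h.lamS v) ?_
    rw [h.leftEq]
    simp only [cD, dnTo, Sch.step, Dir.rev, h.eS]
    rfl
  · refine c_cfgM (G.m v) _ (h.dW v) ?_
    rw [h.aEq, G.mm]
    simp only [cD, dnTo, Sch.step, Dir.rev, h.dW, h.eM]
    rfl

theorem CFix.xIn (h : CFix G l o μ) (v : V) (c : Dir) :
    (μ (G.step v c) c.rev).x (cD G l o μ v c) = cX G l o μ (G.step v c) := by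
  rw [h.fx (G.step v c) c.rev]
  exact congrArg (fun k : Cfg => k.x (l (G.step v c))) (h.key v c)

theorem c_feas (v : V) :
    (∀ y, (cK G l o μ v).left = some y → pc (cX G l o μ v) y ≤ 1) ∧
    (∀ y, (cK G l o μ v).a = some y → pc (cX G l o μ v) y ≤ 1) ∧
    ∀ y, (cK G l o μ v).hard = true → (cK G l o μ v).nx = some y → pc (cX G l o μ v) y ≤ 1 := by
  have h := x_feas (cK G l o μ v) (l v)
  simp only [Cfg.feas, Bool.and_eq_true, decide_eq_true_eq, Bool.or_eq_true] at h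
  refine ⟨fun y hy => ?_, fun y hy => ?_, fun y hh hy => ?_⟩
  · have := h.1.1
    rwa [Cfg.l1, hy] at this
  · have := h.1.2
    rwa [hy] at this
  · have := h.2
    rw [hh, hy] at this
    exact this.resolve_left (by decide)

theorem CFix.pcR (h : CFix G l o μ) (v : V) : pc (cX G l o μ v) (fl (cX G l o μ (G.s v))) ≤ 1 := by
  by_cases hc : (cK G l o μ v).rk ≤ (cK G l o μ (G.s v)).rk
  · rw [c_pc_symm]
    exact (c_feas (G.s v)).1 _ (by rw [h.leftEq, if_pos hc])
  · have h1 := h.nxEq v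
    rw [if_pos (by omega)] at h1
    exact (c_feas v).2.2 _ (congrArg Prod.fst h1) (congrArg Prod.snd h1)

theorem CFix.pc_le (h : CFix G l o μ) (v : V) (c : Dir) :
    pc (cX G l o μ v) (fl (cX G l o μ (G.step v c))) ≤ 1 := by
  cases c
  · have := h.pcR (G.s.symm v)
    rw [Equiv.apply_symm_apply, c_pc_symm] at this
    exact this
  · exact h.pcR v
  · by_cases hc : (cK G l o μ (G.m v)).rk < (cK G l o μ v).rk
    · exact (c_feas v).2.1 _ (by rw [h.aEq, if_pos hc]; rfl)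
    · have := h.rk_ne v
      rw [c_pc_symm]
      exact (c_feas (G.m v)).2.1 _ (by rw [h.aEq, G.mm, if_pos (by omega)])

end fix

theorem exists_env (hI : G.Inj 1) : Nonempty (Env G) := by
  let id : V → ℕ := fun v => (Fintype.equivFin V v).val
  have hi : Function.Injective id := fun a b e => (Fintype.equivFin V).injective (Fin.ext e)
  refine ⟨⟨fun v => decide (id v < id (G.m v)), fun v => ?_, Fintype.card V, id,
    fun v => (Fintype.equivFin V v).isLt, hi⟩⟩
  have h1 : v ≠ G.m v := fun e => by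
    have := hI v [] [.M] List.IsChain.nil (List.IsChain.singleton _) (by simp) (by simp) e
    simp at this
  have h2 : id v ≠ id (G.m v) := fun e => h1 (hi e)
  rw [G.mm]
  by_cases h3 : id v < id (G.m v)
  · simp [h3, h3.le]
  · simp only [h3, decide_false, Bool.not_false, decide_eq_true_eq]
    omega

omit [Fintype V] [DecidableEq V] in
theorem c_tm_mod (E : Env G) (v : V) (a : ℕ) : (a * E.N + E.id v) % E.N = E.id v := by
  rw [Nat.mul_add_mod_self_right]
  exact Nat.mod_eq_of_lt (E.lt v)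

theorem c_inT_nil (δ : Dir) (h : ℕ) : InT δ h [] := ⟨List.IsChain.nil, by simp, by simp⟩

theorem msg_id (E : Env G) (ω : V → Lab K) (h : ℕ) (v : V) (δ : Dir) (d : Dn) {θ : ℕ}
    (hr : Rem θ ((msg E ω h v δ).2 d)) : ∃ w, InT δ h w ∧ θ % E.N = E.id (G.walk v w) := by
  induction h generalizing v δ d with
  | zero =>
    have e : (msg E ω 0 v δ).2 d = comb (ω v).2.2.1 (K * E.N + E.id v) (Tm true fun _ => ⊤)
        (Tm true fun _ => ⊤) := by rw [c_Tm_top]; rfl
    rw [e] at hr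
    have ht : ¬ Rem θ fun _ => (⊤ : Sc) := fun ⟨_, hy⟩ => by simp [co] at hy
    rcases (comb_co _ _ _ _ _ _ hr).2 with h1 | h1 | h1
    · exact ⟨[], c_inT_nil δ 0, by rw [h1]; exact c_tm_mod E v K⟩
    · exact absurd h1 ht
    · exact absurd h1 ht
  | succ h ih =>
    rcases (comb_co _ _ _ _ _ _ hr).2 with h1 | h1 | h1
    · exact ⟨[], c_inT_nil δ _, by rw [h1]; exact c_tm_mod E v _⟩
    · obtain ⟨w, hw, e⟩ := ih _ _ _ h1
      exact ⟨ch δ false :: w, c_inT_cons hw (c_ch_ne δ _), e⟩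
    · obtain ⟨w, hw, e⟩ := ih _ _ _ h1
      exact ⟨ch δ true :: w, c_inT_cons hw (c_ch_ne δ _), e⟩

theorem cons (E : Env G) (ω : V → Lab K) {n : ℕ} (hI : G.Inj (n + 2))
    (hf : ∀ v δ, msg E ω n v δ = msg E ω (n + 1) v δ) :
    ∃ f : V → Fin 4 × Fin 16, ∀ (v : V) (d : Dir), ok6 (f v) (f (G.step v d)) := by
  have h : CFix G (fun v => (ω v).1) E.o fun v δ => (msg E ω n v δ).1 :=
    ⟨E.om, fun v δ => congrArg Prod.fst (hf v δ)⟩
  set l : V → L1 := fun v => (ω v).1 with hl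
  set μ : V → Dir → M1 := fun v δ => (msg E ω n v δ).1 with hμ
  let x : V → Fin 4 := cX G l E.o μ
  let ep : V → Dir → Bool := fun v c => decide (x v ≠ fl (x (G.step v c)))
  let sg : V → Dir → Fin 16 → Sc := fun v c => (msg E ω n (G.step v c) c.rev).2 (cD G l E.o μ v c)
  let B : V → Dir → Fin 16 → Sc := fun v c => Tm (ep v c) (sg v c)
  let tv : V → ℕ := fun v => E.tm K (n + 1) v ((ω v).2.1 ((cK G l E.o μ v).ph (l v)))
  let A : V → Dir → Fin 16 → Sc := fun v δ =>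
    comb (ω v).2.2.1 (tv v) (B v (ch δ false)) (B v (ch δ true))
  have hep : ∀ v c, epsTo c (cK G l E.o μ v) (x v) (μ (G.step v c) c.rev) = ep v c := by
    intro v c
    have := h.xIn v c
    simp only [epsTo, ep]
    rw [← show (μ (G.step v c) c.rev).x (dnTo c (cK G l E.o μ v) (x v) (μ (G.step v c) c.rev)) =
      x (G.step v c) from this]
  have hsg : ∀ v c, sg v c = A (G.step v c) c.rev := by
    intro v c
    have hk : cfg c.rev (ω (G.step v c)).1 (E.o (G.step v c)) (cD G l E.o μ v c)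
        (msg E ω n (G.step (G.step v c) (ch c.rev false)) (ch c.rev false).rev).1
        (msg E ω n (G.step (G.step v c) (ch c.rev true)) (ch c.rev true).rev).1 =
        cK G l E.o μ (G.step v c) := h.key v c
    have e1 := hep (G.step v c) (ch c.rev false)
    have e2 := hep (G.step v c) (ch c.rev true)
    simp only [sg]
    rw [hf]
    simp only [msg, out, dnC, epC]
    simp only [hk, Bool.false_eq_true, if_false, if_true]
    simp only [A, B]
    rw [← e1, ← e2]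
    rfl
  have hside : ∀ v δ c, (c = tv v ∨ Rem c (B v (ch δ false)) ∨ Rem c (B v (ch δ true))) →
      ∃ w, InT δ (n + 1) w ∧ c % E.N = E.id (G.walk v w) := by
    intro v δ c hc
    rcases hc with h1 | h1 | h1
    · exact ⟨[], c_inT_nil δ _, by rw [h1]; exact c_tm_mod E v _⟩
    · obtain ⟨w, hw, e⟩ := msg_id E ω n _ _ _ (c_rem_Tm h1)
      exact ⟨ch δ false :: w, c_inT_cons hw (c_ch_ne δ _), e⟩
    · obtain ⟨w, hw, e⟩ := msg_id E ω n _ _ _ (c_rem_Tm h1)
      exact ⟨ch δ true :: w, c_inT_cons hw (c_ch_ne δ _), e⟩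
  have hy : ∀ v, ∃ y, ∀ δ, comb (ω v).2.2.1 (tv v) (B v (ch δ false))
      (fun z => min (B v (ch δ true) z) (B v δ z)) y = ⊤ := by
    intro v
    obtain ⟨y, hy, -⟩ := comb_top (ω v).2.2.1 (tv v) (B v .L) fun z => min (B v .R z) (B v .M z)
    refine ⟨y, fun δ => ?_⟩
    rw [c_comb_congr _ _ (b1' := B v .L) (b2' := fun z => min (B v .R z) (B v .M z))]
    · exact hy
    · intro z
      cases δ
      · simp only [ch]
        rw [← min_assoc, min_comm]
      · simp only [ch]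
        rw [min_comm (B v .M z)]
      · rfl
  choose y hy using hy
  refine ⟨fun v => (x v, y v), fun v δ => c_ok _ _ _ _ (h.pc_le v δ) ?_⟩
  have e1 : B v δ = Tm (ep v δ) (A (G.step v δ) δ.rev) := by simp only [B, hsg]
  have e2 : B (G.step v δ) δ.rev = Tm (ep v δ) (A v δ) := by
    simp only [B, hsg, c_step_rev, c_rev_rev, ep]
    rw [c_fl_symm]
  have h1 := hy v δ
  have h2 := hy (G.step v δ) δ.rev
  rw [e1] at h1
  rw [e2] at h2
  refine edge_ok (ep v δ) _ _ _ _ _ _ _ _ (fun c hc hc' => ?_) h1 h2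
  obtain ⟨w, hw, e⟩ := hside v δ c hc
  obtain ⟨w', hw', e'⟩ := hside _ _ c hc'
  have h4 : Red (δ :: w') := List.IsChain.cons hw'.1 fun z hz e => hw'.2.2 (by rw [← e]; exact hz)
  have h5 := hI v w (δ :: w') hw.1 h4 (by have := hw.2.1; omega) (by have := hw'.2.1; simpa only [List.length_cons, add_le_add_iff_right, ge_iff_le])
    (E.inj (e.symm.trans e'))
  exact hw.2.2 (by rw [h5]; rfl)

end

end

end Pool.Agent.MP_7c51ae_co

/-!
Labels, dependence and symmetry.
-/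

set_option autoImplicit false

namespace Pool.Agent.MP_7c51ae_co

open Finset Pool.Agent.MP_d802e4_co

noncomputable section

theorem l1_pi {ι Λ : Type} [Fintype ι] [DecidableEq ι] [Fintype Λ] (p : ι → Λ → ℝ)
    (hp : ∀ i, IsP (p i)) (i : ι) (h : Λ → ℝ) :
    ∑ ω : ι → Λ, (∏ j, p j (ω j)) * h (ω i) = ∑ a, p i a * h a := by
  have h1 := Finset.prod_univ_sum (fun _ : ι => (univ : Finset Λ))
    (fun u a => p u a * if u = i then h a else 1)
  rw [Fintype.piFinset_univ, Finset.prod_eq_single i] at h1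
  · simp only [if_true] at h1
    rw [h1]
    refine Finset.sum_congr rfl fun ω _ => ?_
    rw [Finset.prod_mul_distrib, Finset.prod_ite_eq' univ i (fun u => h (ω u)), if_pos (mem_univ _)]
  · intro b _ hb
    simp only [if_neg hb, mul_one, (hp b).sum]
  · intro hi
    exact absurd (mem_univ _) hi

theorem l1_pi_isP {ι Λ : Type} [Fintype ι] [DecidableEq ι] [Fintype Λ] (p : ι → Λ → ℝ)
    (hp : ∀ i, IsP (p i)) : IsP (fun ω : ι → Λ => ∏ j, p j (ω j)) := by
  refine ⟨fun ω => Finset.prod_nonneg fun j _ => (hp j).nonneg _, ?_⟩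
  have h1 := Finset.prod_univ_sum (fun _ : ι => (univ : Finset Λ)) p
  rw [Fintype.piFinset_univ] at h1
  rw [← h1]
  exact Finset.prod_eq_one fun j _ => (hp j).sum

theorem l1_ex_pi {ι Λ : Type} [Fintype ι] [DecidableEq ι] [Fintype Λ] [I : Fintype (ι → Λ)]
    (p : ι → Λ → ℝ) (hp : ∀ i, IsP (p i)) :
    ∃ q : (ι → Λ) → ℝ, IsP q ∧ ∀ (i : ι) (h : Λ → ℝ), ∑ ω, q ω * h (ω i) = ∑ a, p i a * h a := by
  obtain rfl : I = Pi.instFintype := Subsingleton.elim _ _
  exact ⟨_, l1_pi_isP p hp, l1_pi p hp⟩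

theorem l1_ex_prod {A B : Type} [Fintype A] [Fintype B] {p : A → ℝ} {p' : B → ℝ} (hp : IsP p)
    (hp' : IsP p') : ∃ q : A × B → ℝ, IsP q ∧
      ∀ h : A × B → ℝ, ∑ z, q z * h z = ∑ a, p a * ∑ b, p' b * h (a, b) := by
  refine ⟨fun z => p z.1 * p' z.2, ⟨fun z => mul_nonneg (hp.nonneg _) (hp'.nonneg _), ?_⟩,
    fun h => ?_⟩
  · rw [Fintype.sum_prod_type, ← Finset.sum_mul_sum, hp.sum, hp'.sum, one_mul]
  · rw [Fintype.sum_prod_type]
    refine Finset.sum_congr rfl fun a _ => ?_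
    rw [Finset.mul_sum]
    exact Finset.sum_congr rfl fun b _ => mul_assoc _ _ _

/-- one direction of the data at height zero -/
theorem l1_bd {D U : Type} [Fintype D] [DecidableEq D] [Fintype U] [DecidableEq U] [Nonempty U]
    {L : Type} [Fintype L] [DecidableEq L] (π : D → L) (σ : L → D) (hσ : ∀ l, π (σ l) = l)
    (w : D → D × U → ℝ) (h0 : ∀ d u, 0 ≤ w d u) (h1 : ∀ d, ∑ u, w d u = 1)
    (he : ∀ d d' e, π d = π d' → ∑ x, w d (e, x) = ∑ x, w d' (e, x)) :
    ∃ q : (L → D) × (D → D → U) → ℝ, IsP q ∧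
      ∀ d u, ∑ z, q z * (if (z.1 (π d), z.2 d (z.1 (π d))) = u then 1 else 0) = w d u := by
  have hpi : ∀ l, IsP (fun e => ∑ x, w (σ l) (e, x)) := fun l =>
    ⟨fun e => Finset.sum_nonneg fun x _ => h0 _ _, by rw [← Fintype.sum_prod_type, h1]⟩
  have hc : ∀ d e, ∃ c : U → ℝ, IsP c ∧ ∀ x, (∑ y, w d (e, y)) * c x = w d (e, x) := by
    intro d e
    by_cases hz : ∑ y, w d (e, y) = 0
    · obtain ⟨x0⟩ := ‹Nonempty U›
      refine ⟨fun x => if x = x0 then 1 else 0, ⟨fun x => by split_ifs <;> norm_num, by simp⟩,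
        fun x => ?_⟩
      rw [hz, zero_mul, (Finset.sum_eq_zero_iff_of_nonneg fun y _ => h0 d (e, y)).1 hz x
        (mem_univ _)]
    · refine ⟨fun x => w d (e, x) / ∑ y, w d (e, y), ⟨fun x => div_nonneg (h0 _ _)
        (Finset.sum_nonneg fun y _ => h0 _ _), ?_⟩, fun x => mul_div_cancel₀ _ hz⟩
      rw [← Finset.sum_div, div_self hz]
  choose c hc hc' using hc
  obtain ⟨qa, ha, ha'⟩ := l1_ex_pi _ hpi
  choose qr hr hr' using fun d => l1_ex_pi (c d) (hc d)
  obtain ⟨qb, hb, hb'⟩ := l1_ex_pi qr hr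
  obtain ⟨q, hq, hq'⟩ := l1_ex_prod ha hb
  refine ⟨q, hq, fun d u => ?_⟩
  obtain ⟨e, x⟩ := u
  rw [hq']
  have h2 : ∀ e' : D, ∑ b : D → D → U, qb b * (if (e', b d e') = (e, x) then (1 : ℝ) else 0) =
      if e' = e then c d e x else 0 := by
    intro e'
    rw [hb' d (fun r => if (e', r e') = (e, x) then 1 else 0),
      hr' d e' (fun y => if (e', y) = (e, x) then 1 else 0)]
    by_cases h : e' = e
    · subst h
      simp
    · simp [h]
  simp only [h2]
  rw [ha' (π d) (fun e' => if e' = e then c d e x else 0)]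
  simp only [mul_ite, mul_zero, Finset.sum_ite_eq', mem_univ, if_true]
  rw [he _ d e (hσ _), hc']

theorem l1_p1 : IsP p1 := by
  refine ⟨fun l => ?_, ?_⟩
  · unfold p1
    split <;> norm_num
  · simp only [Fintype.sum_prod_type, Fintype.sum_option, p1, Finset.sum_const, card_univ,
      Fintype.card_fin]
    norm_num

theorem l1_lab {K : ℕ} {pk : Fin 3 → Fin K → ℝ} {pb : Bd → ℝ} (hb : IsP pb)
    (f : L1 → (Fin 3 → Fin K) → ℝ) :
    ∑ l : Lab K, pL pk pb l * f l.1 l.2.1 =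
      ∑ l1 : L1, p1 l1 * ∑ c : Fin 3 → Fin K, (∏ i, pk i (c i)) * f l1 c := by
  have h : ∀ g : Lab K → ℝ, ∑ l, g l =
      ∑ a : L1, ∑ c : Fin 3 → Fin K, ∑ t : Fin 16, ∑ β : Bd, g (a, c, t, β) := by
    intro g
    refine (Fintype.sum_prod_type g).trans (Finset.sum_congr rfl fun a _ => ?_)
    refine (Fintype.sum_prod_type _).trans (Finset.sum_congr rfl fun c _ => ?_)
    exact Fintype.sum_prod_type _
  rw [h]
  refine Finset.sum_congr rfl fun a _ => ?_
  rw [Finset.mul_sum]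
  refine Finset.sum_congr rfl fun c _ => ?_
  have h2 : ∀ t : Fin 16, ∑ β : Bd, pL pk pb (a, c, t, β) * f a c =
      p1 a * ((∏ i, pk i (c i)) * f a c) * (1 / 16) := by
    intro t
    have h3 : ∀ β : Bd, pL pk pb (a, c, t, β) * f a c =
        p1 a * ((∏ i, pk i (c i)) * f a c) * (1 / 16) * pb β := by
      intro β
      simp only [pL]
      ring
    simp only [h3]
    rw [← Finset.mul_sum, hb.sum, mul_one]
  simp only [h2]
  rw [Finset.sum_const, card_univ, Fintype.card_fin, nsmul_eq_mul]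
  push_cast
  ring

theorem l1_xr_xr (t s : Fin 16) : xr (xr t s) s = t := by
  ext
  simp [xr]

theorem l1_Tm_top : Tm true (fun _ => ⊤) = fun _ => ⊤ := by
  funext x
  have h : ∀ x : Fin 16, rel true x (xr x 15) = true := by decide
  exact top_le_iff.1 (Finset.le_sup (f := fun _ : Fin 16 => (⊤ : Sc))
    (mem_filter.2 ⟨mem_univ _, h x⟩))

/-- the own orders are translated -/
def l1_sh (K : ℕ) (s : Fin 16) : Lab K ≃ Lab K where
  toFun l := (l.1, l.2.1, xr l.2.2.1 s, l.2.2.2)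
  invFun l := (l.1, l.2.1, xr l.2.2.1 s, l.2.2.2)
  left_inv l := by simp only [l1_xr_xr]
  right_inv l := by simp only [l1_xr_xr]

theorem l1_msg_sh {V : Type} {G : Sch V} {K : ℕ} (E : Env G) (ω : V → Lab K) (s : Fin 16)
    (h : ℕ) : ∀ (v : V) (δ : Dir), msg E (fun v => l1_sh K s (ω v)) h v δ =
      ((msg E ω h v δ).1, fun d y => (msg E ω h v δ).2 d (xr y s)) := by
  induction h with
  | zero =>
    intro v δ
    refine Prod.ext rfl (funext fun d => ?_)
    have := comb_shift (ω v).2.2.1 s (K * E.N + E.id v) true true (fun _ => ⊤) (fun _ => ⊤)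
    rw [l1_Tm_top] at this
    exact this
  | succ h ih =>
    intro v δ
    simp only [msg, ih]
    exact Prod.ext rfl (funext fun d => comb_shift _ _ _ _ _ _ _)

section
variable {V : Type} [Fintype V] [DecidableEq V] {G : Sch V} {K : ℕ}
variable {S M X Y : Type} [Fintype S] [Fintype M] [Fintype X] [Fintype Y]
  [DecidableEq S] [DecidableEq M] {P : Sys S M X Y} {m0 : S → ℝ}
  {ab : Dir → Dn → Up → S} {gm : Dir → Dn → Up → ℝ} {pk : Fin 3 → Fin K → ℝ} {pb : Bd → ℝ}

theorem exists_bd (hP : P.Ok m0) (hL : Lump P m0 ab gm) : ∃ pb, BdOk m0 ab gm pb := by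
  choose q hq hq' using fun δ => l1_bd (D := Dn) (U := Fin 4) Prod.fst (fun l => (l, false, none))
    (fun _ => rfl) (fun d u => gm δ d u * m0 (ab δ d u))
    (fun d u => mul_nonneg (hL.g0 _ _ _) (hP.mp _)) (hL.tot δ) (hL.early δ)
  obtain ⟨pb, hb, hb'⟩ := l1_ex_pi (I := fintypeBd) q hq
  refine ⟨pb, hb, fun δ d u => ?_⟩
  rw [← hq' δ d u, ← hb' δ (fun z => if (z.1 d.1, z.2 d (z.1 d.1)) = u then 1 else 0)]
  refine Finset.sum_congr rfl fun β _ => ?_
  rw [mul_ite, mul_one, mul_zero]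
  rfl

theorem pL_isP (hk : ∀ i, IsP (pk i)) (hb : IsP pb) : IsP (pL pk pb) := by
  refine ⟨fun l => mul_nonneg (mul_nonneg (mul_nonneg (l1_p1.nonneg _)
    ((l1_pi_isP pk hk).nonneg _)) (by norm_num)) (hb.nonneg _), ?_⟩
  have h := l1_lab (pk := pk) hb (fun _ _ => 1)
  simp only [mul_one, (l1_pi_isP pk hk).sum, l1_p1.sum] at h
  exact h

theorem pL_sum (hk : ∀ i, IsP (pk i)) (hb : IsP pb) (i : L1 → Fin 3) (f : L1 → Fin K → ℝ) :
    ∑ l : Lab K, pL pk pb l * f l.1 (l.2.1 (i l.1)) =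
      ∑ l1 : L1, p1 l1 * ∑ a, pk (i l1) a * f l1 a := by
  rw [l1_lab hb (fun l1 c => f l1 (c (i l1)))]
  exact Finset.sum_congr rfl fun l1 _ => by rw [l1_pi pk hk (i l1) (f l1)]

theorem pL_clock (hk : ∀ i, IsP (pk i)) (hb : IsP pb) {a : ℝ} (ha : ∀ i c, pk i c ≤ a) (h0 : 0 ≤ a)
    (t : ℕ) : ∑ l : Lab K, pL pk pb l * ind (∃ i, (l.2.1 i).val = t) ≤ 3 * a := by
  have h1 : ∀ i : Fin 3, ∑ l : Lab K, pL pk pb l * ind ((l.2.1 i).val = t) ≤ a := by
    intro i
    have h2 : ∑ c, pk i c * ind (c.val = t) ≤ a := by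
      by_cases ht : t < K
      · rw [Finset.sum_eq_single ⟨t, ht⟩, ind_pos rfl, mul_one]
        · exact ha _ _
        · intro b _ hb
          rw [ind_neg fun h => hb (Fin.ext h), mul_zero]
        · intro h
          exact absurd (mem_univ _) h
      · rw [Finset.sum_eq_zero fun c _ => by
          rw [ind_neg fun h : c.val = t => ht (h ▸ c.isLt), mul_zero]]
        exact h0
    rw [pL_sum hk hb (fun _ => i) (fun _ c => ind (c.val = t)), ← Finset.sum_mul, l1_p1.sum,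
      one_mul]
    exact h2
  calc _ ≤ ∑ l : Lab K, ∑ i : Fin 3, pL pk pb l * ind ((l.2.1 i).val = t) := by
        refine Finset.sum_le_sum fun l _ => ?_
        rw [← Finset.mul_sum]
        refine mul_le_mul_of_nonneg_left ?_ ((pL_isP hk hb).nonneg l)
        by_cases h : ∃ i, (l.2.1 i).val = t
        · obtain ⟨i, hi⟩ := h
          exact (ind_le_one _).trans ((ind_pos hi).ge.trans (Finset.single_le_sum
            (f := fun i : Fin 3 => ind ((l.2.1 i).val = t)) (fun _ _ => ind_nonneg _) (mem_univ i)))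
        · rw [ind_neg h]
          exact Finset.sum_nonneg fun _ _ => ind_nonneg _
    _ ≤ ∑ _i : Fin 3, a := by
        rw [Finset.sum_comm]
        exact Finset.sum_le_sum fun i _ => h1 i
    _ = 3 * a := by simp

theorem pL_fresh (hk : ∀ i, IsP (pk i)) (hb : IsP pb) (c : Fin 4) :
    ∑ l : Lab K, pL pk pb l * ind (l.1.1 = none ∨ l.1.1 = some c) ≤ 509 / 512 := by
  rw [l1_lab hb (fun l1 _ => ind (l1.1 = none ∨ l1.1 = some c))]
  simp only [← Finset.sum_mul, (l1_pi_isP pk hk).sum, one_mul]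
  have h : ∀ b : Fin 4, ind ((some b : Option (Fin 4)) = none ∨ some b = some c) =
      if b = c then 1 else 0 := by
    intro b
    by_cases h : b = c <;> simp [ind, h]
  simp only [Fintype.sum_prod_type, Fintype.sum_option, p1, h, true_or, ind_pos trivial,
    Finset.sum_const, card_univ, mul_ite, mul_zero,
    nsmul_eq_mul, Finset.sum_ite_eq', mem_univ, if_true]
  norm_num

theorem msg_dep (E : Env G) (h : ℕ) (v : V) (δ : Dir) :
    Dep (G.walk v '' {w | InT δ h w}) (fun ω : V → Lab K => msg E ω h v δ) := by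
  induction h generalizing v δ with
  | zero =>
    intro ω ω' hω
    simp only [msg, hω v ⟨[], f1_InT_nil _ _, rfl⟩]
  | succ h ih =>
    intro ω ω' hω
    have h1 : ∀ j, msg E ω h (G.step v (ch δ j)) (ch δ j).rev =
        msg E ω' h (G.step v (ch δ j)) (ch δ j).rev := fun j =>
      ih _ _ ω ω' fun u ⟨w, hw, hu⟩ => hω u ⟨ch δ j :: w, f1_InT_cons hw, hu⟩
    simp only [msg, hω v ⟨[], f1_InT_nil _ _, rfl⟩, h1]

theorem kids_disj {n : ℕ} (hI : G.Inj (n + 1)) (v : V) (δ : Dir) (j : Bool) {h h' : ℕ}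
    (hh : h ≤ n) (hh' : h' ≤ n) :
    v ∉ G.walk (G.step v (ch δ j)) '' {w | InT (ch δ j).rev h w} ∧
    Disjoint (G.walk (G.step v (ch δ j)) '' {w | InT (ch δ j).rev h w})
      (G.walk (G.step v (ch δ (!j))) '' {w | InT (ch δ (!j)).rev h' w}) := by
  constructor
  · rintro ⟨w, hw, e⟩
    have h1 := f1_InT_cons (f1_InT_mono hw hh)
    exact absurd (hI v (ch δ j :: w) [] h1.1 List.isChain_nil h1.2.1 (Nat.zero_le _) e) (by simp)
  · rw [Set.disjoint_left]
    rintro u ⟨w, hw, e⟩ ⟨w', hw', e'⟩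
    have h1 := f1_InT_cons (f1_InT_mono hw hh)
    have h2 := f1_InT_cons (f1_InT_mono hw' hh')
    exact f1_ch_not δ j
      (List.cons.inj (hI v _ _ h1.1 h2.1 h1.2.1 h2.2.1 (e.trans e'.symm))).1

theorem law_shift (E : Env G) (h : ℕ) (v : V) (δ : Dir) (d : Dn) (θ : ℕ) (s : Fin 16)
    (F : Up → St → ℝ) :
    Ex (pL pk pb) (fun ω => F ((msg E ω h v δ).1.up d) (tr s (Ls θ ((msg E ω h v δ).2 d)))) =
      Ex (pL pk pb) (fun ω => F ((msg E ω h v δ).1.up d) (Ls θ ((msg E ω h v δ).2 d))) := by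
  rw [← Ex_shift (l1_sh K s) (fun _ => rfl)
    (fun ω => F ((msg E ω h v δ).1.up d) (Ls θ ((msg E ω h v δ).2 d)))]
  refine Ex_congr fun ω => ?_
  simp only [l1_msg_sh, Ls_shift]

end

end

end Pool.Agent.MP_7c51ae_co

/-!
The laws of the messages.
-/

set_option autoImplicit false

namespace Pool.Agent.MP_7c51ae_co

open Finset Pool.Agent.MP_d802e4_co

noncomputable section

theorem l2_fub {V Λ α β : Type} [Fintype V] [DecidableEq V] [Fintype Λ] {p : Λ → ℝ} (hp : IsP p)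
    {A B : Set V} {a : (V → Λ) → α} {b : (V → Λ) → β} (ha : Dep A a) (hb : Dep B b)
    (hAB : Disjoint A B) (Φ : α → β → ℝ) :
    Ex p (fun ω => Φ (a ω) (b ω)) = Ex p fun ω => Ex p fun ω' => Φ (a ω) (b ω') := by
  classical
  have key : ∀ (ω : V → Λ) (g : α → ℝ), g (a ω) = ∑ x ∈ univ.image a, ind (a ω = x) * g x :=
    fun ω g => by
      rw [sum_eq_single_of_mem (a ω) (mem_image_of_mem _ (mem_univ ω)) fun x _ hx => by
        rw [ind_neg (Ne.symm hx), zero_mul], ind_pos rfl, one_mul]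
  rw [Ex_congr fun ω => key ω fun x => Φ x (b ω),
    Ex_congr fun ω => key ω fun x => Ex p fun ω' => Φ x (b ω'), Ex_sum, Ex_sum]
  refine sum_congr rfl fun x _ => ?_
  rw [Ex_mul hp (ha.comp fun y => ind (y = x)) (hb.comp (Φ x)) hAB, mul_comm, ← Ex_smul]
  exact Ex_congr fun ω => mul_comm _ _

theorem l2_xr_assoc (s t y : Fin 16) : xr s (xr t y) = xr (xr s t) y :=
  Fin.ext (Nat.xor_assoc _ _ _).symm

theorem l2_xr_inv (t : Fin 16) : Function.Involutive fun s => xr s t := fun s =>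
  Fin.ext (by simp [xr])

theorem l2_avg_inv (f : St → ℝ) : InvT fun D => 1 / 16 * ∑ s, f (tr s D) := fun t A => by
  have : ∀ s, tr s (tr t A) = tr (xr s t) A := fun s => by
    simp only [tr, image_image, Function.comp_def, l2_xr_assoc]
  simp only [this]
  exact congrArg _ (Equiv.sum_comp (l2_xr_inv t).toPerm fun s => f (tr s A))

theorem l2_avg_sum {N : St → ℝ} (hN : InvT N) (f : St → ℝ) :
    ∑ D, N D * (1 / 16 * ∑ s, f (tr s D)) = ∑ D, N D * f D := by
  have : ∀ s, ∑ D, N D * f (tr s D) = ∑ D, N D * f D := fun s => by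
    rw [← sum_tr s fun D => N D * f D]
    exact sum_congr rfl fun D _ => by rw [hN]
  simp only [mul_left_comm _ (1 / 16 : ℝ), mul_sum _ _ (N _), ← mul_sum _ _ (1 / 16 : ℝ)]
  rw [sum_comm, sum_congr rfl fun s _ => this s, sum_const, card_univ, Fintype.card_fin,
    nsmul_eq_mul]
  push_cast
  ring

theorem l2_p1 : ∑ l : L1, p1 l = 1 := by
  simp only [Fintype.sum_prod_type, p1, Fintype.sum_option, sum_const, card_univ,
    Fintype.card_fin, nsmul_eq_mul]
  norm_num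

theorem l2_bd {K : ℕ} {pk : Fin 3 → Fin K → ℝ} (hk : ∀ i, IsP (pk i)) (pb f : Bd → ℝ) :
    ∑ l : Lab K, pL pk pb l * f l.2.2.2 = ∑ β, pb β * f β := by
  have h1 : ∑ c : Fin 3 → Fin K, ∏ i, pk i (c i) = 1 := by
    rw [← Fintype.piFinset_univ, ← prod_univ_sum]
    exact prod_eq_one fun i _ => (hk i).sum
  have e : ∑ l : Lab K, pL pk pb l * f l.2.2.2 = ∑ a : L1, ∑ c : Fin 3 → Fin K, ∑ _s : Fin 16,
      ∑ β : Bd, p1 a * ((∏ i, pk i (c i)) * (1 / 16 * (pb β * f β))) := by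
    rw [Fintype.sum_prod_type]
    refine sum_congr rfl fun a _ => ?_
    rw [Fintype.sum_prod_type]
    refine sum_congr rfl fun c _ => ?_
    rw [Fintype.sum_prod_type]
    exact sum_congr rfl fun s _ => sum_congr rfl fun β _ => by simp only [pL, mul_assoc]
  rw [e]
  simp only [← mul_sum, ← sum_mul, h1, l2_p1, sum_const, card_univ, Fintype.card_fin,
    nsmul_eq_mul]
  push_cast
  ring

theorem l2_tm {V : Type} {G : Sch V} (E : Env G) {K t : ℕ} (ht : t ≤ K) (h : ℕ) (v : V)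
    (a : Fin K) : E.tm K h v a < t * E.N ↔ a.val < min t h := by
  have h1 := E.lt v
  unfold Env.tm
  split_ifs with h2
  · refine ⟨fun h3 => lt_min ?_ h2, fun h3 => ?_⟩
    · exact lt_of_mul_lt_mul_right (a := E.N) (by omega) (Nat.zero_le _)
    · have := Nat.mul_le_mul_right E.N (Nat.succ_le_of_lt (lt_min_iff.1 h3).1)
      rw [Nat.succ_mul] at this
      omega
  · have := Nat.mul_le_mul_right E.N ht
    omega

theorem l2_out {K : ℕ} (δ : Dir) (l : Lab K) (o : Bool) (θf : Fin K → ℕ) (θ τ : ℕ)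
    (hθ : ∀ a, θf a < θ ↔ a.val < τ) (d : Dn) {F : Up → St → ℝ} (hF : ∀ u, InvT (F u))
    (m1 m2 : Msg) :
    F ((out δ l o θf m1 m2).1.up d) (Ls θ ((out δ l o θf m1 m2).2 d)) = ∑ u1 : Up, ∑ u2 : Up,
      ind (m2.1.up (dnC δ l.1 o d (cst u1) (cst u2) true) = u2) *
      (ind (m1.1.up (dnC δ l.1 o d (cst u1) (cst u2) false) = u1) *
        if (l.2.1 ((cfg δ l.1 o d (cst u1) (cst u2)).ph l.1)).val < τ then
          F ((out1 δ l.1 o (cst u1) (cst u2)).up d) {0}
        else tl (F ((out1 δ l.1 o (cst u1) (cst u2)).up d))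
          (T (epC δ l.1 o d (cst u1) (cst u2) false)
            (Ls θ (m1.2 (dnC δ l.1 o d (cst u1) (cst u2) false))) ∩
          T (epC δ l.1 o d (cst u1) (cst u2) true)
            (Ls θ (m2.2 (dnC δ l.1 o d (cst u1) (cst u2) true))))) := by
  obtain ⟨e1, e2, e3⟩ := causal_eq δ l.1 o d m1.1 m2.1
  rw [← Fintype.sum_prod_type', Fintype.sum_eq_single
    (m1.1.up (dnC δ l.1 o d m1.1 m2.1 false), m2.1.up (dnC δ l.1 o d m1.1 m2.1 true))]
  · simp only [e1, e2, e3, up_out1, out, ind_pos, one_mul]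
    obtain ⟨y, hy⟩ := Ls_comb l.2.2.1 (θf (l.2.1 ((cfg δ l.1 o d m1.1 m2.1).ph l.1))) θ
      (Tm (epC δ l.1 o d m1.1 m2.1 false) (m1.2 (dnC δ l.1 o d m1.1 m2.1 false)))
      (Tm (epC δ l.1 o d m1.1 m2.1 true) (m2.2 (dnC δ l.1 o d m1.1 m2.1 true)))
    rw [hy, Ls_Tm, Ls_Tm, tl]
    simp only [hθ]
    split_ifs with h1 h2 h3 h4 h5
    · exact (hF _).single y
    · exact (hF _).single y
    · exact absurd (h1.resolve_left h2) h3
    · exact absurd (Or.inl h4) h1
    · exact absurd (Or.inr h5) h1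
    · rfl
  · rintro ⟨u1, u2⟩ hne
    by_cases h2 : m2.1.up (dnC δ l.1 o d (cst u1) (cst u2) true) = u2
    · rw [ind_neg (P := m1.1.up _ = u1) fun h1 =>
        hne (Prod.ext (causal_uniq δ l.1 o d _ _ u1 u2 h1 h2).1
          (causal_uniq δ l.1 o d _ _ u1 u2 h1 h2).2), zero_mul, mul_zero]
    · rw [ind_neg h2, zero_mul]

theorem l2_ind_sum {α : Type} [Fintype α] (g : α → ℝ) (N : α → St → ℝ) (x : α) (f : St → ℝ) :
    ∑ u, g u * ∑ D, N u D * (ind (u = x) * f D) = g x * ∑ D, N x D * f D := by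
  rw [Fintype.sum_eq_single x fun u hu => by simp [ind_neg hu]]
  simp only [ind_pos, one_mul]

theorem l2_clock {K : ℕ} {pk : Fin 3 → Fin K → ℝ} (hk : ∀ i, IsP (pk i)) (τ : ℕ) (i : Fin 3)
    (x y : ℝ) : ∑ a : Fin K, pk i a * (if a.val < τ then x else y) =
      (1 - Qof pk τ i) * y + Qof pk τ i * x := by
  have : ∀ a : Fin K, pk i a * (if a.val < τ then x else y) =
      pk i a * y + (if a.val < τ then pk i a else 0) * (x - y) := fun a => by
    split_ifs <;> ring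
  simp only [this, sum_add_distrib, ← sum_mul, (hk i).sum, Qof]
  ring

section
variable {V : Type} [Fintype V] [DecidableEq V] {G : Sch V} {K : ℕ}
variable {S M X Y : Type} [Fintype S] [Fintype M] [Fintype X] [Fintype Y]
  [DecidableEq S] [DecidableEq M] {P : Sys S M X Y} {m0 : S → ℝ}
  {ab : Dir → Dn → Up → S} {gm : Dir → Dn → Up → ℝ} {pk : Fin 3 → Fin K → ℝ} {pb : Bd → ℝ}

theorem l2_ZZ (N : S → St → ℝ) (a b : M) (g : St → St → ℝ) :
    ∑ A, ∑ B, P.Z N a A * P.Z N b B * g A B = ∑ x1, ∑ x2, if P.xm x1 = a ∧ P.xm x2 = b then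
      P.xw x1 * P.xw x2 * ∑ D1, N (P.xs x1) D1 * ∑ D2, N (P.xs x2) D2 *
        g (T (P.xe x1) D1) (T (P.xe x2) D2) else 0 := by
  simp only [mul_assoc, ← mul_sum, Sys.Z_sum]
  refine sum_congr rfl fun x1 _ => ?_
  by_cases h1 : P.xm x1 = a
  · simp only [h1, if_true, true_and, mul_sum]
    rw [sum_comm]
    refine sum_congr rfl fun x2 _ => ?_
    by_cases h2 : P.xm x2 = b
    · simp only [h2, if_true, mul_sum]
      exact sum_congr rfl fun _ _ => sum_congr rfl fun _ _ => by ring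
    · simp [h2]
  · simp only [h1, ↓ reduceIte, false_and, sum_const_zero]

theorem l2_abs (hL : Lump P m0 ab gm) (q : Fin 3 → ℝ) (N : S → St → ℝ) (δ : Dir) (o : Bool)
    (d : Dn) {F : Up → St → ℝ} (hF : ∀ u, InvT (F u)) :
    ∑ l : L1, p1 l * ∑ u1 : Up, ∑ u2 : Up,
      gm (ch δ false).rev (dnC δ l o d (cst u1) (cst u2) false) u1 *
      gm (ch δ true).rev (dnC δ l o d (cst u1) (cst u2) true) u2 *
      ∑ D1, N (ab (ch δ false).rev (dnC δ l o d (cst u1) (cst u2) false) u1) D1 *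
        ∑ D2, N (ab (ch δ true).rev (dnC δ l o d (cst u1) (cst u2) true) u2) D2 *
          ((1 - q ((cfg δ l o d (cst u1) (cst u2)).ph l)) *
            tl (F ((out1 δ l o (cst u1) (cst u2)).up d))
              (T (epC δ l o d (cst u1) (cst u2) false) D1 ∩
                T (epC δ l o d (cst u1) (cst u2) true) D2) +
            q ((cfg δ l o d (cst u1) (cst u2)).ph l) *
              F ((out1 δ l o (cst u1) (cst u2)).up d) {0}) =
    ∑ u, gm δ d u * ∑ D, P.Phi q (P.Z N) (ab δ d u) D * F u D := by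
  refine Eq.trans ?_ (sum_congr rfl fun u _ => (hL.id δ o d u fun s1 e1 s2 e2 i =>
    ∑ D1, N s1 D1 * ∑ D2, N s2 D2 *
      ((1 - q i) * tl (F u) (T e1 D1 ∩ T e2 D2) + q i * F u {0})).trans ?_)
  · rw [sum_comm]
    refine sum_congr rfl fun l _ => ?_
    rw [← mul_sum, sum_comm (s := (univ : Finset Up)) (t := (univ : Finset Up))
      (f := fun u u1 => ∑ u2 : Up, if (out1 δ l o (cst u1) (cst u2)).up d = u then _ else 0)]
    refine congrArg _ (sum_congr rfl fun u1 _ => ?_)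
    rw [sum_comm]
    refine sum_congr rfl fun u2 _ => ?_
    rw [sum_ite_eq, if_pos (mem_univ _)]
  · rw [Sys.Phi_sum _ _ _ (hF u)]
    refine congrArg _ (sum_congr rfl fun y _ => ?_)
    rw [← l2_ZZ N (P.ya y) (P.yb y) fun A B =>
      (1 - q (P.yi y)) * tl (F u) (A ∩ B) + q (P.yi y) * F u {0}]
    congr 2
    rw [ms, ms, sum_mul_sum]
    simp only [mul_sum, sum_mul, ← sum_add_distrib]
    exact sum_congr rfl fun _ _ => sum_congr rfl fun _ _ => by ring

theorem law (hL : Lump P m0 ab gm) (hk : ∀ i, IsP (pk i)) (hb : BdOk m0 ab gm pb) (E : Env G)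
    {n : ℕ} (hI : G.Inj n) {t : ℕ} (ht : t ≤ K) (h : ℕ) (hh : h ≤ n) (v : V) (δ : Dir) (d : Dn)
    (F : Up → St → ℝ) :
    Ex (pL pk pb) (fun ω => F ((msg E ω h v δ).1.up d) (Ls (t * E.N) ((msg E ω h v δ).2 d))) =
      ∑ u, gm δ d u * ∑ D, P.nu (Qof pk) m0 h t (ab δ d u) D * F u D := by
  have hp := pL_isP hk hb.1
  induction h generalizing v δ d F with
  | zero =>
    have e : ∀ ω : V → Lab K, Ls (t * E.N) ((msg E ω 0 v δ).2 d) = univ := fun ω => by
      obtain ⟨y, hy⟩ := Ls_comb (ω v).2.2.1 (K * E.N + E.id v) (t * E.N) (fun _ => ⊤) fun _ => ⊤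
      have h1 : Ls (t * E.N) (fun _ => ⊤) = univ :=
        filter_true_of_mem fun _ _ => le_top
      have := Nat.mul_le_mul_right E.N ht
      rw [h1, inter_self, if_neg (by
        rintro (h | h)
        · omega
        · exact absurd h univ_nonempty.ne_empty)] at hy
      exact hy
    simp only [e]
    refine (Ex_coord hp v fun l => F ((bd1 l.2.2.2 δ).up d) univ).trans ?_
    rw [l2_bd hk pb fun β => F ((bd1 β δ).up d) univ]
    simp only [Sys.nu, ite_mul, zero_mul, sum_ite_eq', mem_univ, if_true, ← mul_assoc, ← hb.2,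
      sum_mul]
    rw [sum_comm]
    exact sum_congr rfl fun β _ => by rw [sum_ite_eq, if_pos (mem_univ _)]
  | succ h ih =>
    obtain ⟨n, rfl⟩ : ∃ n', n = n' + 1 := ⟨n - 1, by omega⟩
    wlog hF : ∀ u, InvT (F u) generalizing F
    · have h1 := this (fun u D => 1 / 16 * ∑ s, F u (tr s D)) fun u => l2_avg_inv (F u)
      simp only [l2_avg_sum (Sys.nu_inv _ _ _ _)] at h1
      rw [← h1, Ex_smul, Ex_sum]
      simp only [law_shift, sum_const, card_univ, Fintype.card_fin, nsmul_eq_mul]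
      push_cast
      ring
    have hh' : h ≤ n := by omega
    obtain ⟨k1, k2⟩ := kids_disj hI v δ false hh' hh'
    have k3 := (kids_disj hI v δ true hh' hh').1
    have d1 := msg_dep (K := K) E h (G.step v (ch δ false)) (ch δ false).rev
    have d2 := msg_dep (K := K) E h (G.step v (ch δ true)) (ch δ true).rev
    have d0 : Dep {v} fun ω : V → Lab K => ω v := fun ω ω' h => h v rfl
    have d12 : Dep (_ ∪ _) fun ω : V → Lab K => (msg E ω h (G.step v (ch δ false)) (ch δ false).rev,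
        msg E ω h (G.step v (ch δ true)) (ch δ true).rev) := fun ω ω' h =>
      Prod.ext (d1 ω ω' fun w hw => h w (Or.inl hw)) (d2 ω ω' fun w hw => h w (Or.inr hw))
    refine (l2_fub hp d0 d12 (Set.disjoint_singleton_left.2 fun h => h.elim k1 k3) fun l m =>
      F ((out δ l (E.o v) (E.tm K (h + 1) v) m.1 m.2).1.up d)
        (Ls (t * E.N) ((out δ l (E.o v) (E.tm K (h + 1) v) m.1 m.2).2 d))).trans ?_
    refine (Ex_coord hp v fun l => Ex (pL pk pb) fun ω' => F ((out δ l (E.o v) (E.tm K (h + 1) v)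
      (msg E ω' h (G.step v (ch δ false)) (ch δ false).rev)
      (msg E ω' h (G.step v (ch δ true)) (ch δ true).rev)).1.up d) (Ls (t * E.N)
        ((out δ l (E.o v) (E.tm K (h + 1) v) (msg E ω' h (G.step v (ch δ false)) (ch δ false).rev)
          (msg E ω' h (G.step v (ch δ true)) (ch δ true).rev)).2 d))).trans ?_
    refine Eq.trans ?_ (l2_abs hL (Qof pk (min t (h + 1))) (P.nu (Qof pk) m0 h t) δ (E.o v) d hF)
    have e : ∀ l : Lab K, (Ex (pL pk pb) fun ω' => F ((out δ l (E.o v) (E.tm K (h + 1) v)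
      (msg E ω' h (G.step v (ch δ false)) (ch δ false).rev)
      (msg E ω' h (G.step v (ch δ true)) (ch δ true).rev)).1.up d) (Ls (t * E.N)
        ((out δ l (E.o v) (E.tm K (h + 1) v) (msg E ω' h (G.step v (ch δ false)) (ch δ false).rev)
          (msg E ω' h (G.step v (ch δ true)) (ch δ true).rev)).2 d))) = ∑ u1 : Up, ∑ u2 : Up,
        gm (ch δ false).rev (dnC δ l.1 (E.o v) d (cst u1) (cst u2) false) u1 *
        (gm (ch δ true).rev (dnC δ l.1 (E.o v) d (cst u1) (cst u2) true) u2 *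
        ∑ D1, P.nu (Qof pk) m0 h t
            (ab (ch δ false).rev (dnC δ l.1 (E.o v) d (cst u1) (cst u2) false) u1) D1 *
          ∑ D2, P.nu (Qof pk) m0 h t
            (ab (ch δ true).rev (dnC δ l.1 (E.o v) d (cst u1) (cst u2) true) u2) D2 *
            if (l.2.1 ((cfg δ l.1 (E.o v) d (cst u1) (cst u2)).ph l.1)).val < min t (h + 1) then
              F ((out1 δ l.1 (E.o v) (cst u1) (cst u2)).up d) {0}
            else tl (F ((out1 δ l.1 (E.o v) (cst u1) (cst u2)).up d))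
              (T (epC δ l.1 (E.o v) d (cst u1) (cst u2) false) D1 ∩
                T (epC δ l.1 (E.o v) d (cst u1) (cst u2) true) D2)) := fun l => by
      refine (l2_fub hp d1 d2 k2 fun m1 m2 =>
        F ((out δ l (E.o v) (E.tm K (h + 1) v) m1 m2).1.up d)
          (Ls (t * E.N) ((out δ l (E.o v) (E.tm K (h + 1) v) m1 m2).2 d))).trans ?_
      simp only [l2_out δ l (E.o v) _ _ _ (l2_tm E ht (h + 1) v) d hF, Ex_sum]
      refine sum_congr rfl fun u1 _ => sum_congr rfl fun u2 _ => ?_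
      generalize dnC δ l.1 (E.o v) d (cst u1) (cst u2) false = c1
      generalize dnC δ l.1 (E.o v) d (cst u1) (cst u2) true = c2
      generalize F ((out1 δ l.1 (E.o v) (cst u1) (cst u2)).up d) = f
      generalize epC δ l.1 (E.o v) d (cst u1) (cst u2) false = e1
      generalize epC δ l.1 (E.o v) d (cst u1) (cst u2) true = e2
      generalize (l.2.1 ((cfg δ l.1 (E.o v) d (cst u1) (cst u2)).ph l.1)).val = a
      refine (Ex_congr fun ω => (ih (by omega) _ _ c2 fun u D => ind (u = u2) *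
        (ind ((msg E ω h (G.step v (ch δ false)) (ch δ false).rev).1.up c1 = u1) *
          if a < min t (h + 1) then f {0} else tl f (T e1 (Ls (t * E.N)
            ((msg E ω h (G.step v (ch δ false)) (ch δ false).rev).2 c1)) ∩ T e2 D))).trans
          (l2_ind_sum _ _ _ _)).trans ?_
      simp only [mul_left_comm _ (ind _), ← mul_sum]
      refine ((ih (by omega) _ _ c1 fun u D => ind (u = u1) * (gm (ch δ true).rev c2 u2 *
        ∑ D2, P.nu (Qof pk) m0 h t (ab (ch δ true).rev c2 u2) D2 *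
          if a < min t (h + 1) then f {0} else tl f (T e1 D ∩ T e2 D2))).trans
          (l2_ind_sum _ _ _ _)).trans ?_
      simp only [mul_left_comm _ (gm (ch δ true).rev c2 u2), ← mul_sum]
    simp only [e, mul_sum (univ : Finset Up)]
    rw [sum_comm, sum_comm (s := (univ : Finset L1))]
    refine sum_congr rfl fun u1 _ => ?_
    rw [sum_comm, sum_comm (s := (univ : Finset L1))]
    refine sum_congr rfl fun u2 _ => ?_
    refine (pL_sum hk hb.1 (fun l1 => (cfg δ l1 (E.o v) d (cst u1) (cst u2)).ph l1) fun l1 a =>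
      gm (ch δ false).rev (dnC δ l1 (E.o v) d (cst u1) (cst u2) false) u1 *
        (gm (ch δ true).rev (dnC δ l1 (E.o v) d (cst u1) (cst u2) true) u2 *
        ∑ D1, P.nu (Qof pk) m0 h t
            (ab (ch δ false).rev (dnC δ l1 (E.o v) d (cst u1) (cst u2) false) u1) D1 *
          ∑ D2, P.nu (Qof pk) m0 h t
            (ab (ch δ true).rev (dnC δ l1 (E.o v) d (cst u1) (cst u2) true) u2) D2 *
            if a.val < min t (h + 1) then
              F ((out1 δ l1 (E.o v) (cst u1) (cst u2)).up d) {0}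
            else tl (F ((out1 δ l1 (E.o v) (cst u1) (cst u2)).up d))
              (T (epC δ l1 (E.o v) d (cst u1) (cst u2) false) D1 ∩
                T (epC δ l1 (E.o v) d (cst u1) (cst u2) true) D2))).trans ?_
    refine sum_congr rfl fun l1 _ => congrArg _ ?_
    simp only [← l2_clock hk, mul_assoc, mul_sum]
    rw [sum_comm]
    refine sum_congr rfl fun D1 _ => ?_
    rw [sum_comm]
    exact sum_congr rfl fun D2 _ => sum_congr rfl fun a _ => by ring

theorem gm_ne (hL : Lump P m0 ab gm) (hk : ∀ i, IsP (pk i)) (hb : BdOk m0 ab gm pb) (E : Env G)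
    {n : ℕ} (hI : G.Inj n) (h : ℕ) (hh : h ≤ n) (v : V) (δ : Dir) (d : Dn) {ω : V → Lab K}
    (hω : 0 < wt (pL pk pb) ω) : gm δ d ((msg E ω h v δ).1.up d) ≠ 0 := fun h0 => by
  have hp := pL_isP hk hb.1
  have h1 := (law hL hk hb E hI (Nat.zero_le K) h hh v δ d fun u _ =>
    ind (u = (msg E ω h v δ).1.up d) * 1).trans (l2_ind_sum _ _ _ fun _ => 1)
  rw [h0, zero_mul] at h1
  have h2 := single_le_sum (f := fun ω' : V → Lab K => wt (pL pk pb) ω' *
    (ind ((msg E ω' h v δ).1.up d = (msg E ω h v δ).1.up d) * 1))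
    (fun ω' _ => mul_nonneg (wt_nonneg hp _) (mul_nonneg (ind_nonneg _) zero_le_one)) (mem_univ ω)
  rw [ind_pos rfl, mul_one, mul_one] at h2
  exact absurd (h2.trans_eq h1) hω.not_ge

theorem win_bound (hL : Lump P m0 ab gm) (hk : ∀ i, IsP (pk i)) (hb : BdOk m0 ab gm pb)
    (E : Env G) {n : ℕ} (hI : G.Inj n) {t h : ℕ} (ht : t < K) (hh : h ≤ n) {a : ℝ} (h0 : 0 ≤ a)
    (ha : ∀ s, ∑ D, (P.nu (Qof pk) m0 h t s D - P.nu (Qof pk) m0 h (t + 1) s D) * (D.card : ℝ) ≤ a)
    (δ : Dir) (v : V) : Pr (pL pk pb) (Win E h t δ v) ≤ 6400 * a := by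
  have hp := pL_isP hk hb.1
  have hs : ∀ a : Fin 16 → Sc, Ls ((t + 1) * E.N) a ⊆ Ls (t * E.N) a :=
    Ls_anti (Nat.mul_le_mul_right _ t.le_succ)
  calc Pr (pL pk pb) (Win E h t δ v) ≤ Ex (pL pk pb) fun ω => ∑ d : Dn,
        (((Ls (t * E.N) ((msg E ω h v δ).2 d)).card : ℝ) -
          (Ls ((t + 1) * E.N) ((msg E ω h v δ).2 d)).card) := Ex_mono hp fun ω => by
        have h1 : ∀ d ∈ (univ : Finset Dn), (0 : ℝ) ≤ (Ls (t * E.N) ((msg E ω h v δ).2 d)).card -
            (Ls ((t + 1) * E.N) ((msg E ω h v δ).2 d)).card := fun d _ =>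
          sub_nonneg.2 (Nat.cast_le.2 (card_le_card (hs _)))
        by_cases hw : Win E h t δ v ω
        · obtain ⟨d, hd⟩ := hw
          refine (ind_le_one _).trans (le_trans ?_ (single_le_sum h1 (mem_univ d)))
          have := card_lt_card (Finset.ssubset_iff_subset_ne.2 ⟨hs _, hd.symm⟩)
          rw [le_sub_iff_add_le, add_comm]
          exact_mod_cast this
        · rw [ind_neg hw]
          exact sum_nonneg h1
    _ ≤ ∑ _d : Dn, ∑ _u : Up, a := by
        rw [Ex_sum]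
        refine sum_le_sum fun d _ => ?_
        rw [Ex_sub, law hL hk hb E hI ht.le h hh v δ d fun _ D => D.card,
          law hL hk hb E hI ht h hh v δ d fun _ D => D.card, ← sum_sub_distrib]
        refine sum_le_sum fun u _ => ?_
        rw [← mul_sub, ← sum_sub_distrib]
        simp only [← sub_mul]
        exact (mul_le_mul_of_nonneg_left (ha _) (hL.g0 _ _ _)).trans
          (mul_le_of_le_one_left h0 (hL.g1 _ _ _))
    _ = 6400 * a := by
        simp only [sum_const, card_univ, Fintype.card_prod, Fintype.card_fin, Fintype.card_bool,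
          Fintype.card_option, nsmul_eq_mul]
        push_cast
        ring

end

end

end Pool.Agent.MP_7c51ae_co

/-!
Disagreements travel along runs.
-/

set_option autoImplicit false

namespace Pool.Agent.MP_7c51ae_co

open Finset Pool.Agent.MP_d802e4_co

noncomputable section

section
variable {V : Type} [Fintype V] [DecidableEq V] {G : Sch V} {K : ℕ}
variable {S M X Y : Type} [Fintype S] [Fintype M] [Fintype X] [Fintype Y]
  [DecidableEq S] [DecidableEq M] {P : Sys S M X Y} {m0 : S → ℝ}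
  {ab : Dir → Dn → Up → S} {gm : Dir → Dn → Up → ℝ} {pk : Fin 3 → Fin K → ℝ} {pb : Bd → ℝ}

theorem w1_chn (E : Env G) {h h' t θ : ℕ} {δ : Dir} {v : V} {ω : V → Lab K} {d : Dn} {y : Fin 16}
    (hθ : θ < (t + 1) * E.N) (hy : co ((msg E ω h v δ).2 d y) ≤ (θ : WithTop ℕ))
    (hne : (msg E ω h v δ).2 d y ≠ (msg E ω h' v δ).2 d y) : ∃ t' ≤ t, Chn E h h' t' δ v ω := by
  have hN : 0 < E.N := lt_of_le_of_lt (Nat.zero_le _) (E.lt v)
  obtain ⟨c, hc, hcθ⟩ := WithTop.le_coe_iff.1 hy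
  refine ⟨c / E.N, Nat.lt_succ_iff.1 ((Nat.div_lt_iff_lt_mul hN).2 (lt_of_le_of_lt hcθ hθ)), d, c,
    Nat.div_mul_le_self _ _, ?_, fun hA => hne (hA y (Or.inl (le_of_eq hc))), y, hc⟩
  rw [mul_comm]
  exact Nat.lt_mul_div_succ c hN

theorem dis_chn (E : Env G) {h h' t : ℕ} {δ : Dir} {v : V} {ω : V → Lab K}
    (hd : Dis E h h' t δ v ω) : ∃ t' ≤ t, Chn E h h' t' δ v ω ∨ Chn E h' h t' δ v ω := by
  obtain ⟨d, θ, hθ, hA⟩ := hd
  unfold Agr at hA
  push Not at hA
  obtain ⟨y, hy | hy, hne⟩ := hA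
  · obtain ⟨t', h1, h2⟩ := w1_chn E hθ hy hne
    exact ⟨t', h1, Or.inl h2⟩
  · obtain ⟨t', h1, h2⟩ := w1_chn E hθ hy hne.symm
    exact ⟨t', h1, Or.inr h2⟩

theorem w1_ext {m m' : M1} (h : ∀ d, m.up d = m'.up d) : m = m' := by
  obtain ⟨e, x⟩ := m
  obtain ⟨e', x'⟩ := m'
  have h1 : e = e' := funext fun l => congrArg Prod.fst (h (l, false, none))
  have h2 : x = x' := funext fun d => congrArg Prod.snd (h d)
  rw [h1, h2]

theorem w1_tm (E : Env G) {h : ℕ} (hh : K ≤ h) (v : V) (a : Fin K) :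
    E.tm K h v a = a.val * E.N + E.id v := by
  unfold Env.tm
  rw [if_pos (lt_of_lt_of_le a.isLt hh)]

theorem w1_co (E : Env G) {h : ℕ} (hK : 1 ≤ K) (hh : K ≤ h) {δ : Dir} {v : V} {ω : V → Lab K}
    {d : Dn} {y : Fin 16} (hy : (msg E ω h v δ).2 d y ≠ ⊤) :
    co ((msg E ω h v δ).2 d y) ≤ ((K * E.N - 1 : ℕ) : WithTop ℕ) := by
  obtain ⟨h1, rfl⟩ : ∃ h1, h = h1 + 1 := ⟨h - 1, by omega⟩
  obtain ⟨p, hp⟩ := WithTop.ne_top_iff_exists.1 hy
  have hc : co ((msg E ω (h1 + 1) v δ).2 d y) = (((ofLex p).1 : ℕ) : WithTop ℕ) := by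
    rw [← hp]; rfl
  have hr : Rem (ofLex p).1 ((msg E ω (h1 + 1) v δ).2 d) := ⟨y, hc⟩
  have h2 := (comb_co _ _ _ _ _ _ hr).1
  rw [w1_tm E hh] at h2
  rw [hc]
  refine WithTop.coe_le_coe.2 (Nat.le_sub_one_of_lt (lt_of_le_of_lt h2 ?_))
  generalize (ω v).2.1 _ = a
  have h3 := E.lt v
  have h4 : (a.val + 1) * E.N ≤ K * E.N := Nat.mul_le_mul_right _ a.isLt
  rw [add_mul, one_mul] at h4
  omega

theorem ne_split (E : Env G) {h h' : ℕ} (hK : 1 ≤ K) (hh : K ≤ h) (hh' : K ≤ h') {δ : Dir} {v : V}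
    {ω : V → Lab K} (hn : NeM E h h' δ v ω) :
    (∃ i, i ≤ 18 ∧ NeS1 E h h' i δ v ω) ∨ Dis E h h' (K - 1) δ v ω := by
  by_cases h1 : ∀ d, (msg E ω h v δ).1.up d = (msg E ω h' v δ).1.up d
  · right
    have h2 : (msg E ω h v δ).2 ≠ (msg E ω h' v δ).2 := fun h2 => hn (Prod.ext (w1_ext h1) h2)
    obtain ⟨d, hd⟩ := Function.ne_iff.1 h2
    obtain ⟨y, hy⟩ := Function.ne_iff.1 hd
    have hN : 0 < E.N := lt_of_le_of_lt (Nat.zero_le _) (E.lt v)
    have hKN : 0 < K * E.N := Nat.mul_pos hK hN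
    refine ⟨d, K * E.N - 1, ?_, fun hA => hy (hA y ?_)⟩
    · rw [Nat.sub_add_cancel hK]; omega
    · by_cases ht : (msg E ω h v δ).2 d y = ⊤
      · exact Or.inr (w1_co E hK hh' fun h3 => hy (ht.trans h3.symm))
      · exact Or.inl (w1_co E hK hh ht)
  · push Not at h1
    obtain ⟨d, hd⟩ := h1
    exact Or.inl ⟨_, phs_le _ _ _ _, d, hd, rfl⟩

theorem w1_top (E : Env G) (ω : V → Lab K) (h : ℕ) (v : V) (δ : Dir) (d : Dn) :
    ∃ x, (msg E ω h v δ).2 d x = ⊤ := by
  cases h with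
  | zero => exact (comb_top _ _ _ _).exists
  | succ h => exact (comb_top _ _ _ _).exists

theorem w1_stop {θ : ℕ} {a : Fin 16 → Sc} (ha : ∃ x, a x = ⊤) :
    ∃ r, Sim θ a (emb r) ∧ (Ls 2 (emb r)).Nonempty := by
  obtain ⟨r, hr⟩ := exists_emb θ a
  obtain ⟨x, hx⟩ := ha
  refine ⟨r, hr, x, ?_⟩
  have h1 := hr.1 x
  have h2 : co (a x) = ⊤ := by rw [hx]; rfl
  rw [h2] at h1
  have h3 : ¬ co (emb r x) < ((1 : ℕ) : WithTop ℕ) := fun h => not_top_lt (h1.1.2 h)
  have h4 : co (emb r x) ≠ ((1 : ℕ) : WithTop ℕ) := fun h => WithTop.top_ne_coe (h1.2.2 h)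
  simp only [Ls, mem_filter, mem_univ, true_and]
  generalize co (emb r x) = z at h3 h4
  induction z using WithTop.recTopCoe with
  | top => exact le_top
  | coe z =>
    have h5 : ¬ z < 1 := fun h => h3 (WithTop.coe_lt_coe.2 h)
    have h6 : z ≠ 1 := fun h => h4 (congrArg _ h)
    exact WithTop.coe_le_coe.2 (by omega)

theorem w1_g0 (d : Dn) (u : Up) (a : Fin 16 → Sc) : 0 ≤ g0 d u a :=
  sub_nonneg.2 (Nat.cast_le.2 (card_le_card (Ls_anti (by norm_num) a)))

theorem w1_g1 {θ : ℕ} {a a' : Fin 16 → Sc} (hr : Rem θ a) (hs : Sim θ a a') (d : Dn) (u : Up) :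
    1 ≤ g0 d u a' := by
  obtain ⟨y, hy⟩ := hr
  have h1 := (hs.1 y).2.1 hy
  have h2 : (Ls 2 a').card < (Ls 1 a').card := by
    refine card_lt_card ⟨Ls_anti (by norm_num) a', fun h => ?_⟩
    have h3 : y ∈ Ls 1 a' := by
      simp only [Ls, mem_filter, mem_univ, true_and]; exact h1.ge
    have h4 := h h3
    simp only [Ls, mem_filter, mem_univ, true_and] at h4
    rw [h1] at h4
    exact absurd (WithTop.coe_le_coe.1 h4) (by norm_num)
  have h5 : ((Ls 2 a').card : ℝ) + 1 ≤ (Ls 1 a').card := by exact_mod_cast h2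
  unfold g0
  linarith only [h5]

theorem w1_lift0 (δ : Dir) (l : Lab K) (o : Bool) (t θ : ℕ) (j : Bool) (sb : Msg) {g : Wt}
    (hg : ∀ d u a, 0 ≤ g d u a) (d : Dn) (u : Up) (a : Fin 16 → Sc) :
    0 ≤ lift δ l o t θ j sb g d u a := by
  refine sum_nonneg fun _ _ => sum_nonneg fun _ _ => ?_
  split_ifs
  all_goals first | exact hg _ _ _ | exact le_rfl

/-- the term of the true configuration is present in the pulled back weight -/
theorem w1_lift1 (δ : Dir) (l : Lab K) (o : Bool) (t θ : ℕ) (j : Bool) (m : Bool → Msg) {g : Wt}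
    (hg : ∀ d u a, 0 ≤ g d u a) (d : Dn) (a : Fin 16 → Sc)
    (ht : t ≤ (l.2.1 ((cfg δ l.1 o d (m false).1 (m true).1).ph l.1)).val) :
    g d ((out1 δ l.1 o (m false).1 (m true).1).up d)
      (comb l.2.2.1 2 (Tm (epC δ l.1 o d (m false).1 (m true).1 j) a)
        (Tm (epC δ l.1 o d (m false).1 (m true).1 (!j))
          (embS (Ls θ ((m (!j)).2 (dnC δ l.1 o d (m false).1 (m true).1 (!j))))))) ≤
    lift δ l o t θ j (m (!j)) g (dnC δ l.1 o d (m false).1 (m true).1 j)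
      ((m j).1.up (dnC δ l.1 o d (m false).1 (m true).1 j)) a := by
  obtain ⟨h1, h2, h3⟩ := causal_eq δ l.1 o d (m false).1 (m true).1
  have hpos : ∀ (c : Prop) [Decidable c] (d : Dn) (u : Up) (a : Fin 16 → Sc),
      0 ≤ if c then g d u a else 0 := fun c _ d u a => by
    split_ifs
    exacts [hg _ _ _, le_rfl]
  unfold lift
  refine le_trans ?_ (single_le_sum (fun d _ => sum_nonneg fun _ _ => hpos _ _ _ _) (mem_univ d))
  refine le_trans ?_ (single_le_sum (fun _ _ => hpos _ _ _ _)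
    (mem_univ ((m (!j)).1.up (dnC δ l.1 o d (m false).1 (m true).1 (!j)))))
  cases j
  · simp only [Bool.false_eq_true, if_false, Bool.not_false, up_out1, h1, h2, h3]
    rw [if_pos ⟨trivial, trivial, ht⟩]
  · simp only [if_true, Bool.not_true, up_out1, h1, h2, h3]
    rw [if_pos ⟨trivial, trivial, ht⟩]

theorem w1_succ (E : Env G) (ω : V → Lab K) (h : ℕ) (v : V) (δ : Dir) (d : Dn) (j : Bool) :
    (msg E ω (h + 1) v δ).2 d = comb (ω v).2.2.1 (E.tm K (h + 1) v ((ω v).2.1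
      ((cfg δ (ω v).1 (E.o v) d (kid E ω h v δ false).1 (kid E ω h v δ true).1).ph (ω v).1)))
      (Tm (epC δ (ω v).1 (E.o v) d (kid E ω h v δ false).1 (kid E ω h v δ true).1 j)
        ((kid E ω h v δ j).2
          (dnC δ (ω v).1 (E.o v) d (kid E ω h v δ false).1 (kid E ω h v δ true).1 j)))
      (Tm (epC δ (ω v).1 (E.o v) d (kid E ω h v δ false).1 (kid E ω h v δ true).1 (!j))
        ((kid E ω h v δ (!j)).2
          (dnC δ (ω v).1 (E.o v) d (kid E ω h v δ false).1 (kid E ω h v δ true).1 (!j)))) := by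
  cases j
  · rfl
  · exact comb_comm _ _ _ _

theorem w1_run (E : Env G) (R : ℕ) {t θ : ℕ} {ω : V → Lab K} {n : ℕ}
    (hg : ∀ h ≤ n, ∀ v δ d, gm δ d ((msg E ω h v δ).1.up d) ≠ 0)
    (h1 : t * E.N ≤ θ) (h2 : θ < (t + 1) * E.N) (m : ℕ) : ∀ (h h' : ℕ) (δ : Dir) (v : V) (d : Dn)
    (g : Wt), h ≤ n → m + K ≤ h → m + K ≤ h' → (∀ d u a, 0 ≤ g d u a) →
    ¬ Agr θ ((msg E ω h v δ).2 d) ((msg E ω h' v δ).2 d) → Rem θ ((msg E ω h v δ).2 d) →
    (∀ a, Sim θ ((msg E ω h v δ).2 d) a → 1 ≤ g d ((msg E ω h v δ).1.up d) a) →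
    ∃ js : List Bool, js.length ≤ m ∧
      (∃ (d : Dn) (u : Up) (r : Fin 16 → Fin 18), gm (ex δ js) d u ≠ 0 ∧
        (Ls 2 (emb r)).Nonempty ∧ 1 ≤ RV E ω R t js h v δ g d u (emb r)) ∧ (js.length = m ∨
      Brk E R (h - js.length - 1) (h' - js.length - 1) t (ex δ js) (G.walk v (wd δ js)) ω) := by
  have stop : ∀ (h : ℕ) (δ : Dir) (v : V) (d : Dn) (g : Wt), h ≤ n →
      (∀ a, Sim θ ((msg E ω h v δ).2 d) a → 1 ≤ g d ((msg E ω h v δ).1.up d) a) →
      ∃ (d : Dn) (u : Up) (r : Fin 16 → Fin 18), gm (ex δ []) d u ≠ 0 ∧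
        (Ls 2 (emb r)).Nonempty ∧ 1 ≤ RV E ω R t [] h v δ g d u (emb r) := by
    intro h δ v d g hn H
    obtain ⟨r, hr, hr2⟩ := w1_stop (θ := θ) (w1_top E ω h v δ d)
    exact ⟨d, _, r, hg h hn v δ d, hr2, H _ hr⟩
  induction m with
  | zero => exact fun h h' δ v d g hn _ _ _ _ _ H => ⟨[], le_rfl, stop h δ v d g hn H, Or.inl rfl⟩
  | succ m ih =>
    intro h h' δ v d g hn hh hh' hg0 hA hR H
    obtain ⟨k, rfl⟩ : ∃ k, h = k + 1 := ⟨h - 1, by omega⟩
    obtain ⟨k', rfl⟩ : ∃ k, h' = k + 1 := ⟨h' - 1, by omega⟩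
    by_cases hB : Brk E R k k' t δ v ω
    · exact ⟨[], Nat.zero_le _, stop _ δ v d g hn H, Or.inr hB⟩
    have e1 : ∀ j, (kid E ω k' v δ j).1 = (kid E ω k v δ j).1 := fun j => w1_ext fun d => by
      by_contra hne
      exact hB ⟨j, Or.inl ⟨_, phs_le _ _ _ _, d, fun h => hne h.symm, rfl⟩⟩
    obtain ⟨j, hj⟩ : ∃ j, ¬ Agr θ ((kid E ω k v δ j).2
        (dnC δ (ω v).1 (E.o v) d (kid E ω k v δ false).1 (kid E ω k v δ true).1 j))
        ((kid E ω k' v δ j).2
        (dnC δ (ω v).1 (E.o v) d (kid E ω k v δ false).1 (kid E ω k v δ true).1 j)) := by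
      by_contra hc
      push Not at hc
      apply hA
      rw [w1_succ E ω k v δ d false, w1_succ E ω k' v δ d false, e1 false, e1 true,
        w1_tm E (show K ≤ k + 1 by omega), w1_tm E (show K ≤ k' + 1 by omega)]
      exact comb_agr _ _ _ _ (hc false) (hc true)
    have hD : Dis E k k' t (ch δ j).rev (G.step v (ch δ j)) ω := ⟨_, θ, h2, hj⟩
    have b1 : ∀ i, ((ω v).2.1 i).val ≠ t := fun i hi => hB ⟨j, Or.inr ⟨hD, Or.inl ⟨i, hi⟩⟩⟩
    have b3 : kid E ω (min k R) v δ (!j) = kid E ω k v δ (!j) := by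
      by_contra hc
      exact hB ⟨j, Or.inr ⟨hD, Or.inr (Or.inr fun h => hc h.symm)⟩⟩
    have b2 : ∀ d, Ls (t * E.N) ((kid E ω k v δ (!j)).2 d) =
        Ls ((t + 1) * E.N) ((kid E ω k v δ (!j)).2 d) := fun d => by
      by_contra hc
      rw [← b3] at hc
      exact hB ⟨j, Or.inr ⟨hD, Or.inr (Or.inl ⟨d, hc⟩)⟩⟩
    have b4 : ∀ d, ¬ Rem θ ((kid E ω k v δ (!j)).2 d) := fun d ⟨y, hy⟩ => by
      have h3 : y ∈ Ls (t * E.N) ((kid E ω k v δ (!j)).2 d) := by
        simp only [Ls, mem_filter, mem_univ, true_and]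
        rw [hy]; exact WithTop.coe_le_coe.2 h1
      rw [b2] at h3
      simp only [Ls, mem_filter, mem_univ, true_and] at h3
      rw [hy] at h3
      exact absurd (WithTop.coe_le_coe.1 h3) (not_le.2 h2)
    have b5 : ∀ d, Ls θ ((kid E ω k v δ (!j)).2 d) = Ls (t * E.N) ((kid E ω k v δ (!j)).2 d) :=
      fun d => Subset.antisymm (Ls_anti h1 _) (by rw [b2]; exact Ls_anti h2.le _)
    rw [w1_succ E ω k v δ d j, w1_tm E (show K ≤ k + 1 by omega)] at hR H
    obtain ⟨c1, c2⟩ := comb_co _ _ _ _ _ _ hR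
    have hid := E.lt v
    have c3 := b1 ((cfg δ (ω v).1 (E.o v) d (kid E ω k v δ false).1 (kid E ω k v δ true).1).ph
      (ω v).1)
    have c4 : t ≤ ((ω v).2.1 ((cfg δ (ω v).1 (E.o v) d (kid E ω k v δ false).1
        (kid E ω k v δ true).1).ph (ω v).1)).val := by
      by_contra hc
      have := Nat.mul_le_mul_right E.N (Nat.succ_le_of_lt (not_le.1 hc))
      rw [Nat.succ_mul] at this
      omega
    have c5 := Nat.mul_le_mul_right E.N (Nat.succ_le_of_lt (lt_of_le_of_ne c4 c3.symm))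
    have c6 := lt_of_lt_of_le h2 (c5.trans (Nat.le_add_right _ (E.id v)))
    have c7 := ((c2.resolve_left c6.ne).resolve_right (b4 _))
    obtain ⟨js, j1, j2, j3⟩ := ih k k' (ch δ j).rev (G.step v (ch δ j)) _
      (lift δ (ω v) (E.o v) t (t * E.N) j (kid E ω (min k R) v δ (!j)) g) (by omega) (by omega)
      (by omega) (w1_lift0 _ _ _ _ _ _ _ hg0) hj c7 (fun a ha => by
        rw [b3]
        refine le_trans (H _ ?_) (w1_lift1 δ (ω v) (E.o v) t (t * E.N) j (kid E ω k v δ) hg0 d a c4)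
        rw [← b5]
        exact sim_step _ _ _ ha (b4 _) c6 hR)
    refine ⟨j :: js, Nat.succ_le_succ j1, j2, j3.imp (congrArg (· + 1)) fun h => ?_⟩
    rw [List.length_cons, Nat.add_sub_add_right, Nat.add_sub_add_right]
    exact h

theorem chn_run (E : Env G) (R : ℕ) {t : ℕ} {ω : V → Lab K} {n : ℕ}
    (hg : ∀ h ≤ n, ∀ v δ d, gm δ d ((msg E ω h v δ).1.up d) ≠ 0) (m : ℕ) {h h' : ℕ}
    (hn : h ≤ n) (hh : m + K ≤ h) (hh' : m + K ≤ h') {δ : Dir} {v : V} (hc : Chn E h h' t δ v ω) :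
    ∃ js : List Bool, js.length ≤ m ∧ Run E gm R t h js δ v ω ∧ (js.length = m ∨
      Brk E R (h - js.length - 1) (h' - js.length - 1) t (ex δ js) (G.walk v (wd δ js)) ω) := by
  obtain ⟨d, θ, h1, h2, h3, h4⟩ := hc
  exact w1_run E R hg h1 h2 m h h' δ v d g0 hn hh hh' w1_g0 h3 h4 fun a ha => w1_g1 h4 ha _ _

theorem w1_cons {δ : Dir} {n : ℕ} (j : Bool) {w : List Dir} (h : InT (ch δ j).rev n w) :
    InT δ (n + 1) (ch δ j :: w) := by
  refine ⟨?_, Nat.succ_le_succ h.2.1, ?_⟩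
  · refine List.isChain_cons.2 ⟨fun b hb hne => h.2.2 ?_, h.1⟩
    rw [← hne]; exact hb
  · cases δ <;> cases j <;> simp [ch]

theorem w1_tree (n : ℕ) : ∀ δ : Dir, ∃ T : Finset (List Dir), T.card + 1 ≤ 2 ^ (n + 1) ∧
    ∀ w, w ∈ T ↔ InT δ n w := by
  induction n with
  | zero =>
    refine fun δ => ⟨{[]}, by simp, fun w => ⟨fun h => ?_, fun h => ?_⟩⟩
    · rw [mem_singleton.1 h]; exact ⟨List.isChain_nil, le_rfl, by simp⟩
    · exact mem_singleton.2 (List.length_eq_zero_iff.1 (Nat.le_zero.1 h.2.1))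
  | succ n ih =>
    intro δ
    obtain ⟨T1, a1, b1⟩ := ih (ch δ false).rev
    obtain ⟨T2, a2, b2⟩ := ih (ch δ true).rev
    refine ⟨insert [] (T1.image (List.cons (ch δ false)) ∪ T2.image (List.cons (ch δ true))), ?_,
      fun w => ⟨fun h => ?_, fun h => ?_⟩⟩
    · have c1 := card_insert_le ([] : List Dir)
        (T1.image (List.cons (ch δ false)) ∪ T2.image (List.cons (ch δ true)))
      have c2 := card_union_le (T1.image (List.cons (ch δ false))) (T2.image (List.cons (ch δ true)))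
      have c3 : (T1.image (List.cons (ch δ false))).card ≤ T1.card := card_image_le
      have c4 : (T2.image (List.cons (ch δ true))).card ≤ T2.card := card_image_le
      rw [pow_succ 2 (n + 1)]
      omega
    · rcases mem_insert.1 h with rfl | h
      · exact ⟨List.isChain_nil, Nat.zero_le _, by simp⟩
      · rcases mem_union.1 h with h | h <;> obtain ⟨w', hw, rfl⟩ := mem_image.1 h
        exacts [w1_cons false ((b1 _).1 hw), w1_cons true ((b2 _).1 hw)]
    · cases w with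
      | nil => exact mem_insert_self _ _
      | cons c w =>
        have h1 := List.isChain_cons.1 h.1
        have h2 : InT c.rev n w := ⟨h1.2, Nat.le_of_succ_le_succ h.2.1, fun e => h1.1 _ e rfl⟩
        have h3 : c ≠ δ := fun e => h.2.2 (by rw [e]; rfl)
        have h4 : c = ch δ false ∨ c = ch δ true := by
          cases δ <;> cases c <;> simp [ch] at h3 ⊢
        refine mem_insert_of_mem (mem_union.2 (h4.imp ?_ ?_)) <;> rintro rfl
        exacts [mem_image_of_mem _ ((b1 _).2 h2), mem_image_of_mem _ ((b2 _).2 h2)]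

theorem w1_dep (E : Env G) (R t : ℕ) (js : List Bool) : ∀ (h : ℕ) (δ : Dir), js.length ≤ h →
    ∃ S : Finset (List Dir), S.card ≤ js.length * 2 ^ (R + 2) ∧
      (∀ w ∈ S, InT δ h w ∧ ¬ wd δ js <+: w) ∧
      ∀ v, Dep (G.walk v '' (S : Set (List Dir))) (fun ω : V → Lab K => RV E ω R t js h v δ) := by
  induction js with
  | nil => exact fun h δ _ => ⟨∅, by simp, by simp, fun v ω ω' _ => rfl⟩
  | cons j js ih =>
    intro h δ hj
    obtain ⟨k, rfl⟩ : ∃ k, h = k + 1 := ⟨h - 1, by rw [List.length_cons] at hj; omega⟩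
    obtain ⟨S1, a1, b1, c1⟩ := ih k (ch δ j).rev (Nat.le_of_succ_le_succ hj)
    obtain ⟨T, a2, b2⟩ := w1_tree (min k R) (ch δ (!j)).rev
    refine ⟨insert [] (S1.image (List.cons (ch δ j)) ∪ T.image (List.cons (ch δ (!j)))), ?_,
      fun w hw => ?_, fun v ω ω' hω => ?_⟩
    · have c1 := card_insert_le ([] : List Dir)
        (S1.image (List.cons (ch δ j)) ∪ T.image (List.cons (ch δ (!j))))
      have c2 := card_union_le (S1.image (List.cons (ch δ j))) (T.image (List.cons (ch δ (!j))))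
      have c3 : (S1.image (List.cons (ch δ j))).card ≤ S1.card := card_image_le
      have c4 : (T.image (List.cons (ch δ (!j)))).card ≤ T.card := card_image_le
      have c5 : 2 ^ (min k R + 1) ≤ 2 ^ (R + 2) := Nat.pow_le_pow_right (by norm_num) (by omega)
      rw [List.length_cons, add_mul, one_mul]
      omega
    · rcases mem_insert.1 hw with rfl | hw
      · exact ⟨⟨List.isChain_nil, Nat.zero_le _, by simp⟩, by simp [wd]⟩
      · rcases mem_union.1 hw with hw | hw <;> obtain ⟨w', hw', rfl⟩ := mem_image.1 hw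
        · exact ⟨w1_cons j (b1 _ hw').1, fun h => (b1 _ hw').2 (List.cons_prefix_cons.1 h).2⟩
        · have h1 := (b2 _).1 hw'
          refine ⟨w1_cons (!j) ⟨h1.1, h1.2.1.trans (min_le_left _ _), h1.2.2⟩, fun h => ?_⟩
          have h2 := (List.cons_prefix_cons.1 h).1
          revert h2
          cases δ <;> cases j <;> simp [ch]
    · have e0 : ω v = ω' v := hω v ⟨[], mem_coe.2 (mem_insert_self _ _), rfl⟩
      have e1 : kid E ω (min k R) v δ (!j) = kid E ω' (min k R) v δ (!j) :=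
        msg_dep E _ _ _ ω ω' fun u ⟨w, hw, e⟩ => hω u ⟨ch δ (!j) :: w, mem_coe.2
          (mem_insert_of_mem (mem_union_right _ (mem_image_of_mem _ ((b2 _).2 hw)))), e⟩
      have e2 := c1 (G.step v (ch δ j)) ω ω' fun u ⟨w, hw, e⟩ => hω u ⟨ch δ j :: w, mem_coe.2
          (mem_insert_of_mem (mem_union_left _ (mem_image_of_mem _ (mem_coe.1 hw)))), e⟩
      funext g
      change RV E ω R t js k _ _ (lift δ (ω v) _ _ _ _ (kid E ω (min k R) v δ (!j)) g) =
        RV E ω' R t js k _ _ (lift δ (ω' v) _ _ _ _ (kid E ω' (min k R) v δ (!j)) g)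
      rw [e0, e1]
      exact congrFun e2 _

theorem run_dep (E : Env G) (R t h : ℕ) (δ : Dir) (js : List Bool) (hj : js.length ≤ h) :
    ∃ S : Finset (List Dir), S.card ≤ js.length * 2 ^ (R + 2) ∧
      (∀ w ∈ S, InT δ h w ∧ ¬ wd δ js <+: w) ∧
      ∀ v, Dep (G.walk v '' (S : Set (List Dir)))
        (fun ω : V → Lab K => Run E gm R t h js δ v ω) := by
  obtain ⟨S, a, b, c⟩ := w1_dep (K := K) E R t js h δ hj
  exact ⟨S, a, b, fun v => (c v).comp fun F => ∃ (d : Dn) (u : Up) (r : Fin 16 → Fin 18),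
    gm (ex δ js) d u ≠ 0 ∧ (Ls 2 (emb r)).Nonempty ∧ 1 ≤ F g0 d u (emb r)⟩

end

end

end Pool.Agent.MP_7c51ae_co

/-!
The probability of a run.
-/

set_option autoImplicit false

namespace Pool.Agent.MP_7c51ae_co

open Finset Pool.Agent.MP_d802e4_co

noncomputable section

section
variable {V : Type} [Fintype V] [DecidableEq V] {G : Sch V} {K : ℕ}
variable {S M X Y : Type} [Fintype S] [Fintype M] [Fintype X] [Fintype Y]
  [DecidableEq S] [DecidableEq M] {P : Sys S M X Y} {m0 : S → ℝ}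
  {ab : Dir → Dn → Up → S} {gm : Dir → Dn → Up → ℝ} {pk : Fin 3 → Fin K → ℝ} {pb : Bd → ℝ}

theorem w2_ite (c : Prop) [Decidable c] (x : ℝ) : (if c then x else 0) = ind c * x := by
  by_cases h : c
  · rw [if_pos h, ind_pos h, one_mul]
  · rw [if_neg h, ind_neg h, zero_mul]

theorem w2_col {A : Type} (s : Finset A) {a : A} (ha : a ∈ s) (φ : A → ℝ) :
    ∑ x ∈ s, ind (a = x) * φ x = φ a := by
  rw [sum_eq_single_of_mem a ha fun b _ hb => by rw [ind_neg (Ne.symm hb), zero_mul],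
    ind_pos rfl, one_mul]

/-- conditioning on a variable that is independent of the rest -/
theorem w2_cond {Λ ι : Type} [Fintype Λ] {p : Λ → ℝ} (hp : IsP p) {A B : Set V}
    {Z : (V → Λ) → ι} {ψ : ι → (V → Λ) → ℝ} (hZ : Dep A Z) (hψ : ∀ i, Dep B (ψ i))
    (hAB : Disjoint A B) : Ex p (fun ω => ψ (Z ω) ω) = Ex p (fun ω => Ex p (ψ (Z ω))) := by
  classical
  have h1 : ∀ (φ : ι → ℝ) (ω : V → Λ), φ (Z ω) = ∑ i ∈ univ.image Z, ind (Z ω = i) * φ i :=
    fun φ ω => (w2_col _ (mem_image_of_mem Z (mem_univ ω)) φ).symm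
  rw [Ex_congr fun ω => h1 (fun i => ψ i ω) ω, Ex_congr fun ω => h1 (fun i => Ex p (ψ i)) ω,
    Ex_sum, Ex_sum]
  refine sum_congr rfl fun i _ => ?_
  rw [Ex_mul hp (hZ.comp fun z => ind (z = i)) (hψ i) hAB, mul_comm, ← Ex_smul]
  exact Ex_congr fun ω => mul_comm _ _

theorem w2_b3 {A B C : Type} [Fintype A] [Fintype B] [Fintype C] (φ : A → B → C → ℝ) :
    ∑ a, ∑ b, ∑ c, φ a b c = ∑ c, ∑ a, ∑ b, φ a b c :=
  (sum_congr rfl fun _ _ => sum_comm).trans sum_comm

theorem w2_b4 {A B C D : Type} [Fintype A] [Fintype B] [Fintype C] [Fintype D]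
    (φ : A → B → C → D → ℝ) :
    ∑ a, ∑ b, ∑ c, ∑ d, φ a b c d = ∑ d, ∑ a, ∑ b, ∑ c, φ a b c d :=
  (sum_congr rfl fun _ _ => w2_b3 _).trans sum_comm

theorem w2_b5 {A B C D E : Type} [Fintype A] [Fintype B] [Fintype C] [Fintype D] [Fintype E]
    (φ : A → B → C → D → E → ℝ) :
    ∑ a, ∑ b, ∑ c, ∑ d, ∑ e, φ a b c d e = ∑ e, ∑ a, ∑ b, ∑ c, ∑ d, φ a b c d e :=
  (sum_congr rfl fun _ _ => w2_b4 _).trans sum_comm

theorem w2_clock (hk : ∀ i, IsP (pk i)) (i : Fin 3) (t : ℕ) (c : Prop) [Decidable c] (x : ℝ) :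
    ∑ a, pk i a * (if c ∧ t ≤ a.val then x else 0) = if c then (1 - Qof pk t i) * x else 0 := by
  by_cases h : c
  · rw [if_pos h, ← (hk i).sum, Qof, ← sum_sub_distrib, sum_mul]
    refine sum_congr rfl fun a _ => ?_
    by_cases h2 : a.val < t
    · rw [if_neg fun h3 => absurd h3.2 (not_le.2 h2), if_pos h2]; ring
    · rw [if_pos ⟨h, not_lt.1 h2⟩, if_neg h2]; ring
  · rw [if_neg h]
    exact sum_eq_zero fun a _ => by rw [if_neg fun h3 => h h3.1, mul_zero]

theorem w2_tl {f : St → ℝ} (hf : InvT f) (t : Fin 16) (e e' : Bool) (a : Fin 16 → Sc) (D : St)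
    {i : ℕ} (h1 : 1 ≤ i) (h2 : i ≤ 2) :
    f (Ls i (comb t 2 (Tm e a) (Tm e' (embS D)))) = tl f (T e (Ls i a) ∩ T e' D) := by
  obtain ⟨y, hy⟩ := Ls_comb t 2 i (Tm e a) (Tm e' (embS D))
  rw [hy, Ls_Tm, Ls_Tm, Ls_embS h1, tl]
  by_cases h : T e (Ls i a) ∩ T e' D = ∅
  · rw [if_pos (Or.inr h), if_pos h, hf.single]
  · rw [if_neg fun h3 => h3.elim (fun h4 => absurd h4 (not_lt.2 h2)) h, if_neg h]

theorem w2_ne (t : Fin 16) (b b' : Fin 16 → Sc) : (Ls 2 (comb t 2 b b')).Nonempty := by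
  obtain ⟨x, hx⟩ := (comb_top t 2 b b').exists
  refine ⟨x, ?_⟩
  simp only [Ls, mem_filter, mem_univ, true_and]
  rw [hx]
  exact le_top

/-- the mean of the potential over the list of the sibling -/
def w2m (N : St → ℝ) (f : St → ℝ) (e e' : Bool) (C : St) : ℝ := ∑ D, N D * tl f (T e C ∩ T e' D)

theorem w2m_inv {N f : St → ℝ} (hN : InvT N) (hf : InvT f) (e e' : Bool) : InvT (w2m N f e e') := by
  intro s C
  unfold w2m
  rw [← sum_tr s]
  exact sum_congr rfl fun D _ => by rw [hN, T_tr, T_tr, ← tr_inter, hf.tl]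

/-- the potential of the child -/
def w2f (ab : Dir → Dn → Up → S) (gm : Dir → Dn → Up → ℝ) (q : Fin 3 → ℝ) (Q : S → St → ℝ)
    (δ : Dir) (o j : Bool) (f : Dn → Up → St → ℝ) (dc : Dn) (uc : Up) (C : St) : ℝ :=
  ∑ d : Dn, ∑ us : Up, ∑ l : L1, p1 l *
    if dnC δ l o d (cst (if j then us else uc)) (cst (if j then uc else us)) j = dc then
      (1 - q ((cfg δ l o d (cst (if j then us else uc)) (cst (if j then uc else us))).ph l)) *
      (gm (ch δ (!j)).rev (dnC δ l o d (cst (if j then us else uc)) (cst (if j then uc else us)) (!j))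
        us * w2m (Q (ab (ch δ (!j)).rev
          (dnC δ l o d (cst (if j then us else uc)) (cst (if j then uc else us)) (!j)) us))
        (f d ((out1 δ l o (cst (if j then us else uc)) (cst (if j then uc else us))).up d))
        (epC δ l o d (cst (if j then us else uc)) (cst (if j then uc else us)) j)
        (epC δ l o d (cst (if j then us else uc)) (cst (if j then uc else us)) (!j)) C)
    else 0

theorem w2_tlA (δ : Dir) (f : Dn → Up → St → ℝ) (s : S) (C : St) :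
    tl (Agg ab gm δ f s) C = ∑ d, ∑ u, ind (ab δ d u = s) * (gm δ d u * tl (f d u) C) := by
  unfold tl Agg
  split_ifs <;> simp only [w2_ite]

theorem w2_A {D U L : Type} [Fintype D] [Fintype U] [Fintype L] (p : L → ℝ) (a : D → U → ℝ)
    (dj : D → U → U → L → D) (uo : D → U → U → L → U) (R : D → U → U → L → U → ℝ) :
    ∑ dc, ∑ uc, a dc uc * ∑ d, ∑ us, ∑ l, p l *
      (ind (dj d uc us l = dc) * R d uc us l (uo d uc us l)) =
    ∑ d, ∑ u, ∑ l, p l * ∑ uc, ∑ us,
      ind (uo d uc us l = u) * (a (dj d uc us l) uc * R d uc us l u) := by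
  simp only [mul_sum]
  rw [← w2_b5, sum_comm]
  refine sum_congr rfl fun d _ => ?_
  rw [w2_b3, ← w2_b4 fun l uc us u =>
    p l * (ind (uo d uc us l = u) * (a (dj d uc us l) uc * R d uc us l u))]
  refine sum_congr rfl fun l _ => sum_congr rfl fun uc _ => sum_congr rfl fun us _ => ?_
  rw [← mul_sum, w2_col _ (mem_univ _) fun u => a (dj d uc us l) uc * R d uc us l u,
    ← w2_col _ (mem_univ (dj d uc us l)) fun dc => a dc uc * R d uc us l (uo d uc us l), mul_sum]
  exact sum_congr rfl fun _ _ => by ring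

theorem w2_B (q : Fin 3 → ℝ) (Q : S → St → ℝ) (δ : Dir) (f : Dn → Up → St → ℝ) (y1 y2 : Y → M)
    (s : S) (C : St) :
    ∑ d, ∑ u, gm δ d u * ∑ y, ind (P.ys y = ab δ d u) * (P.yw y * ∑ x1, ∑ x2,
      ind (P.xm x1 = y1 y) * ind (P.xm x2 = y2 y) * (P.xw x1 * P.xw x2 * (ind (P.xs x1 = s) *
        ((1 - q (P.yi y)) * w2m (Q (P.xs x2)) (f d u) (P.xe x1) (P.xe x2) C)))) =
    ∑ x, ind (P.xs x = s) * (P.xw x * ∑ y, ind (y1 y = P.xm x) * (P.yw y * ((1 - q (P.yi y)) *
      ∑ B, P.Z Q (y2 y) B * tl (Agg ab gm δ f (P.ys y)) (T (P.xe x) C ∩ B)))) := by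
  simp only [Sys.Z_sum]
  simp only [w2_ite, w2_tlA, w2m, mul_sum]
  symm
  refine (w2_b5 _).trans (Fintype.sum_congr _ _ fun d => ?_)
  refine (w2_b5 _).trans (Fintype.sum_congr _ _ fun u => ?_)
  refine sum_comm.trans (Fintype.sum_congr _ _ fun y => Fintype.sum_congr _ _ fun x1 =>
    Fintype.sum_congr _ _ fun x2 => Fintype.sum_congr _ _ fun D => ?_)
  rw [ind_congr (eq_comm (a := y1 y)), ind_congr (eq_comm (a := ab δ d u))]
  ring

theorem w2_agg (hL : Lump P m0 ab gm) (q : Fin 3 → ℝ) (Q : S → St → ℝ) (δ : Dir) (o j : Bool)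
    (f : Dn → Up → St → ℝ) :
    Agg ab gm (ch δ j).rev (w2f ab gm q Q δ o j f) = P.PsiS q Q j (Agg ab gm δ f) := by
  funext s C
  have key := fun d u => hL.id δ o d u fun s1 e1 s2 e2 i => ind ((if j then s2 else s1) = s) *
    ((1 - q i) * w2m (Q (if j then s1 else s2)) (f d u) (if j then e2 else e1)
      (if j then e1 else e2) C)
  have key2 := sum_congr (s₁ := univ) rfl fun d _ => sum_congr (s₁ := univ) rfl fun u _ => key d u
  refine Eq.trans ?_ (key2.trans ?_)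
  · conv_lhs => unfold Agg w2f
    simp only [w2_ite, ← mul_assoc (ind (ab _ _ _ = s))]
    refine (w2_A p1 (fun dc uc => ind (ab (ch δ j).rev dc uc = s) * gm (ch δ j).rev dc uc)
      (fun d uc us l => dnC δ l o d (cst (if j then us else uc)) (cst (if j then uc else us)) j)
      (fun d uc us l => (out1 δ l o (cst (if j then us else uc)) (cst (if j then uc else us))).up d)
      (fun d uc us l u =>
      (1 - q ((cfg δ l o d (cst (if j then us else uc)) (cst (if j then uc else us))).ph l)) *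
      (gm (ch δ (!j)).rev (dnC δ l o d (cst (if j then us else uc)) (cst (if j then uc else us)) (!j))
        us * w2m (Q (ab (ch δ (!j)).rev
          (dnC δ l o d (cst (if j then us else uc)) (cst (if j then uc else us)) (!j)) us)) (f d u)
        (epC δ l o d (cst (if j then us else uc)) (cst (if j then uc else us)) j)
        (epC δ l o d (cst (if j then us else uc)) (cst (if j then uc else us)) (!j)) C))).trans ?_
    refine sum_congr rfl fun d _ => sum_congr rfl fun u _ => sum_congr rfl fun l _ => ?_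
    congr 1
    cases j
    · simp only [Bool.false_eq_true, if_false, Bool.not_false]
      exact sum_congr rfl fun _ _ => sum_congr rfl fun _ _ => by ring
    · simp only [if_true, Bool.not_true]
      rw [sum_comm]
      exact sum_congr rfl fun _ _ => sum_congr rfl fun _ _ => by ring
  · unfold Sys.PsiS Sys.Up Sys.PsiM
    cases j
    · simp only [Bool.false_eq_true, if_false, w2_ite, ind_and]
      exact w2_B q Q δ f P.ya P.yb s C
    · simp only [if_true, w2_ite, ind_and]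
      rw [← w2_B q Q δ f P.yb P.ya s C]
      refine sum_congr rfl fun d _ => sum_congr rfl fun u _ => ?_
      congr 1
      refine sum_congr rfl fun y _ => ?_
      rw [sum_comm]
      congr 2
      exact sum_congr rfl fun _ _ => sum_congr rfl fun _ _ => by ring

theorem lift_step (hL : Lump P m0 ab gm) (hk : ∀ i, IsP (pk i)) (hb : BdOk m0 ab gm pb)
    (E : Env G) {n : ℕ} (hI : G.Inj (n + 1)) {t : ℕ} (ht : t ≤ K) {h : ℕ} (hh : h ≤ n) (v : V)
    (δ : Dir) (j : Bool) {Q : S → St → ℝ} (hQ : Q = P.nu (Qof pk) m0 h t) (hQ0 : Law m0 Q)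
    {U : Set V} {g : (V → Lab K) → Wt} (hg : Dep U g)
    (hU : Disjoint U (G.walk v '' {w | InT δ (n + 1) w})) {f : Dn → Up → St → ℝ}
    (hf : ∀ d u, InvT (f d u))
    (hgf : ∀ d u a, (Ls 2 a).Nonempty →
      Ex (pL pk pb) (fun ω => g ω d u a) ≤ f d u (Ls 1 a) - f d u (Ls 2 a)) :
    ∃ f' : Dn → Up → St → ℝ, (∀ d u, InvT (f' d u)) ∧
      (∀ d u a, (Ls 2 a).Nonempty →
        Ex (pL pk pb) (fun ω => lift δ (ω v) (E.o v) t (t * E.N) j (kid E ω h v δ (!j)) (g ω) d u a) ≤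
          f' d u (Ls 1 a) - f' d u (Ls 2 a)) ∧
      Agg ab gm (ch δ j).rev f' = P.PsiS (Qof pk t) Q j (Agg ab gm δ f) := by
  have hp := pL_isP hk hb.1
  refine ⟨w2f ab gm (Qof pk t) Q δ (E.o v) j f, fun dc uc s C => ?_, fun dc uc a ha => ?_,
    w2_agg hL _ _ _ _ _ _⟩
  · unfold w2f
    refine sum_congr rfl fun d _ => sum_congr rfl fun us _ => sum_congr rfl fun l _ => ?_
    rw [w2m_inv (hQ0.inv _) (hf _ _)]
  have hv : v ∈ G.walk v '' {w | InT δ (n + 1) w} :=
    ⟨[], ⟨List.isChain_nil, Nat.zero_le _, by simp⟩, rfl⟩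
  have hd : Dep (G.walk v '' {w | InT δ (n + 1) w})
      (fun ω : V → Lab K => (ω v, kid E ω h v δ (!j))) := fun ω ω' hω =>
    Prod.ext (hω v hv) (msg_dep E _ _ _ ω ω' fun u ⟨w, hw, e⟩ => hω u ⟨ch δ (!j) :: w,
      w1_cons (!j) ⟨hw.1, hw.2.1.trans hh, hw.2.2⟩, e⟩)
  refine (w2_cond hp hd (ψ := fun z ω => lift δ z.1 (E.o v) t (t * E.N) j z.2 (g ω) dc uc a)
    (fun z => hg.comp fun g' => lift δ z.1 (E.o v) t (t * E.N) j z.2 g' dc uc a) hU.symm).trans_le ?_
  let c1 : Up → M1 := fun us => cst (if j then us else uc)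
  let c2 : Up → M1 := fun us => cst (if j then uc else us)
  let W : L1 → Dn → Up → St → ℝ := fun l d us D =>
    tl (f d ((out1 δ l (E.o v) (c1 us) (c2 us)).up d))
      (T (epC δ l (E.o v) d (c1 us) (c2 us) j) (Ls 1 a) ∩
        T (epC δ l (E.o v) d (c1 us) (c2 us) (!j)) D) -
    tl (f d ((out1 δ l (E.o v) (c1 us) (c2 us)).up d))
      (T (epC δ l (E.o v) d (c1 us) (c2 us) j) (Ls 2 a) ∩
        T (epC δ l (E.o v) d (c1 us) (c2 us) (!j)) D)
  let F : Lab K → Msg → Dn → Up → ℝ := fun l sb d us =>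
    if dnC δ l.1 (E.o v) d (c1 us) (c2 us) j = dc ∧
      t ≤ (l.2.1 ((cfg δ l.1 (E.o v) d (c1 us) (c2 us)).ph l.1)).val then
      (if sb.1.up (dnC δ l.1 (E.o v) d (c1 us) (c2 us) (!j)) = us then
        W l.1 d us (Ls (t * E.N) (sb.2 (dnC δ l.1 (E.o v) d (c1 us) (c2 us) (!j)))) else 0) else 0
  have s1 : ∀ (l : Lab K) (sb : Msg),
      Ex (pL pk pb) (fun ω => lift δ l (E.o v) t (t * E.N) j sb (g ω) dc uc a) ≤
        ∑ d, ∑ us, F l sb d us := by
    intro l sb
    unfold lift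
    rw [Ex_sum]
    refine sum_le_sum fun d _ => ?_
    rw [Ex_sum]
    refine sum_le_sum fun us _ => ?_
    by_cases h1 : dnC δ l.1 (E.o v) d (c1 us) (c2 us) j = dc ∧
        sb.1.up (dnC δ l.1 (E.o v) d (c1 us) (c2 us) (!j)) = us ∧
        t ≤ (l.2.1 ((cfg δ l.1 (E.o v) d (c1 us) (c2 us)).ph l.1)).val
    · rw [Ex_congr fun ω => if_pos h1]
      refine (hgf _ _ _ (w2_ne _ _ _)).trans_eq ?_
      rw [w2_tl (hf _ _) _ _ _ _ _ le_rfl one_le_two, w2_tl (hf _ _) _ _ _ _ _ one_le_two le_rfl]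
      exact ((if_pos ⟨h1.1, h1.2.2⟩).trans (if_pos h1.2.1)).symm
    · rw [Ex_congr fun ω => if_neg h1, Ex_const hp]
      refine le_of_eq (Eq.symm ?_)
      exact ite_eq_right_iff.2 fun h2 => if_neg fun h3 => h1 ⟨h2.1, h3, h2.2⟩
  refine (Ex_mono hp fun ω => s1 _ _).trans_eq ?_
  have s2 : ∀ d us, Ex (pL pk pb) (fun ω => F (ω v) (kid E ω h v δ (!j)) d us) =
      ∑ l : L1, p1 l * if dnC δ l (E.o v) d (c1 us) (c2 us) j = dc then
        (1 - Qof pk t ((cfg δ l (E.o v) d (c1 us) (c2 us)).ph l)) *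
        (gm (ch δ (!j)).rev (dnC δ l (E.o v) d (c1 us) (c2 us) (!j)) us *
          ∑ D, Q (ab (ch δ (!j)).rev (dnC δ l (E.o v) d (c1 us) (c2 us) (!j)) us) D * W l d us D)
        else 0 := by
    intro d us
    rw [w2_cond hp (A := {v}) (Z := fun ω => ω v) (ψ := fun l ω => F l (kid E ω h v δ (!j)) d us)
      (fun ω ω' hω => hω v rfl) (fun l => (msg_dep E h _ _).comp fun sb => F l sb d us)
      (Set.disjoint_singleton_left.2 (kids_disj hI v δ (!j) hh hh).1),
      Ex_coord hp v fun l => Ex (pL pk pb) fun ω => F l (kid E ω h v δ (!j)) d us]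
    simp only [← w2_clock hk]
    rw [← pL_sum hk hb.1 (fun l => (cfg δ l (E.o v) d (c1 us) (c2 us)).ph l) fun l c =>
      if dnC δ l (E.o v) d (c1 us) (c2 us) j = dc ∧ t ≤ c.val then
        gm (ch δ (!j)).rev (dnC δ l (E.o v) d (c1 us) (c2 us) (!j)) us *
          ∑ D, Q (ab (ch δ (!j)).rev (dnC δ l (E.o v) d (c1 us) (c2 us) (!j)) us) D * W l d us D
      else 0]
    refine sum_congr rfl fun l _ => ?_
    congr 1
    by_cases h1 : dnC δ l.1 (E.o v) d (c1 us) (c2 us) j = dc ∧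
        t ≤ (l.2.1 ((cfg δ l.1 (E.o v) d (c1 us) (c2 us)).ph l.1)).val
    · rw [if_pos h1, Ex_congr fun ω => if_pos h1]
      refine (law hL hk hb E hI ht h (hh.trans n.le_succ) _ _ _
        fun u D => if u = us then W l.1 d us D else 0).trans ?_
      rw [sum_eq_single_of_mem us (mem_univ _) fun u _ hu => by simp only [if_neg hu]; simp, hQ]
      simp only [if_true]
    · rw [if_neg h1, Ex_congr fun ω => if_neg h1, Ex_const hp]
  rw [Ex_sum]
  unfold w2f
  rw [← sum_sub_distrib]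
  refine sum_congr rfl fun d _ => ?_
  rw [Ex_sum, ← sum_sub_distrib]
  refine sum_congr rfl fun us _ => ?_
  rw [s2, ← sum_sub_distrib]
  refine sum_congr rfl fun l _ => ?_
  rw [← mul_sub]
  congr 1
  by_cases h1 : dnC δ l (E.o v) d (c1 us) (c2 us) j = dc
  · rw [if_pos h1, if_pos h1, if_pos h1, ← mul_sub, ← mul_sub, w2m, w2m, ← sum_sub_distrib]
    simp only [← mul_sub]
    rfl
  · rw [if_neg h1, if_neg h1, if_neg h1, sub_zero]

theorem w2_rv0 (E : Env G) (ω : V → Lab K) (R t : ℕ) (js : List Bool) : ∀ (h : ℕ) (v : V) (δ : Dir)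
    (g : Wt), (∀ d u a, 0 ≤ g d u a) → ∀ d u a, 0 ≤ RV E ω R t js h v δ g d u a := by
  induction js with
  | nil => exact fun _ _ _ _ hg => hg
  | cons j js ih => exact fun h v δ g hg => ih _ _ _ _ (w1_lift0 _ _ _ _ _ _ _ hg)

theorem w2_iter (hP : P.Ok m0) (hL : Lump P m0 ab gm) (hk : ∀ i, IsP (pk i))
    (hb : BdOk m0 ab gm pb) (E : Env G) {n : ℕ} (hI : G.Inj n) {t : ℕ} (ht : t ≤ K) (R : ℕ)
    (js : List Bool) : ∀ (h : ℕ) (v : V) (δ : Dir) (U : Set V) (g : (V → Lab K) → Wt)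
    (f : Dn → Up → St → ℝ), h ≤ n → js.length ≤ h → Dep U g →
    Disjoint U (G.walk v '' {w | InT δ h w}) → (∀ d u, InvT (f d u)) →
    (∀ d u a, (Ls 2 a).Nonempty →
      Ex (pL pk pb) (fun ω => g ω d u a) ≤ f d u (Ls 1 a) - f d u (Ls 2 a)) →
    ∃ f' : Dn → Up → St → ℝ, (∀ d u a, (Ls 2 a).Nonempty →
      Ex (pL pk pb) (fun ω => RV E ω R t js h v δ (g ω) d u a) ≤
        f' d u (Ls 1 a) - f' d u (Ls 2 a)) ∧
      Agg ab gm (ex δ js) f' = P.PF (Qof pk t) js
        (fun i => P.nu (Qof pk) m0 (min (h - i - 1) R) t) (Agg ab gm δ f) := by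
  induction js with
  | nil => exact fun h v δ U g f _ _ _ _ _ hgf => ⟨f, hgf, rfl⟩
  | cons j js ih =>
    intro h v δ U g f hn hj hg hU hf hgf
    obtain ⟨k, rfl⟩ : ∃ k, h = k + 1 := ⟨h - 1, by rw [List.length_cons] at hj; omega⟩
    have hI' : G.Inj (k + 1) := fun v w w' a b c d => hI v w w' a b (c.trans hn) (d.trans hn)
    obtain ⟨f1, a1, b1, c1⟩ := lift_step hL hk hb E hI' ht (min_le_left k R) v δ j rfl
      (Sys.nu_law hP (Qof_mem hk) _ _) hg hU hf hgf
    obtain ⟨e1, e2⟩ := kids_disj hI' v δ j (le_refl k) (min_le_left k R)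
    obtain ⟨f2, a2, b2⟩ := ih k (G.step v (ch δ j)) (ch δ j).rev
      (U ∪ ({v} ∪ G.walk (G.step v (ch δ (!j))) '' {w | InT (ch δ (!j)).rev (min k R) w}))
      (fun ω => lift δ (ω v) (E.o v) t (t * E.N) j (kid E ω (min k R) v δ (!j)) (g ω)) f1
      (by omega) (Nat.le_of_succ_le_succ hj) (fun ω ω' hω => by
        have h1 := hg ω ω' fun u hu => hω u (Or.inl hu)
        have h2 := hω v (Or.inr (Or.inl rfl))
        have h3 : kid E ω (min k R) v δ (!j) = kid E ω' (min k R) v δ (!j) :=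
          msg_dep E _ _ _ ω ω' fun u hu => hω u (Or.inr (Or.inr hu))
        simp only [h1, h2, h3])
      (Set.disjoint_union_left.2 ⟨Set.disjoint_of_subset_right (by
        rintro u ⟨w, hw, e⟩
        exact ⟨ch δ j :: w, w1_cons j hw, e⟩) hU,
        Set.disjoint_union_left.2 ⟨Set.disjoint_singleton_left.2 e1, e2.symm⟩⟩) a1 b1
    refine ⟨f2, a2, b2.trans ?_⟩
    rw [c1]
    simp only [Sys.PF, Nat.add_sub_add_right]
    rfl

theorem w2_sum (δ : Dir) (f : Dn → Up → St → ℝ) (C : St) :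
    ∑ s, Agg ab gm δ f s C = ∑ d, ∑ u, gm δ d u * f d u C := by
  unfold Agg
  refine (w2_b3 fun d u s => if ab δ d u = s then gm δ d u * f d u C else 0).symm.trans ?_
  simp only [sum_ite_eq, mem_univ, if_true]

theorem run_bound (hP : P.Ok m0) (hL : Lump P m0 ab gm) (hk : ∀ i, IsP (pk i))
    (hb : BdOk m0 ab gm pb) (E : Env G) {n : ℕ} (hI : G.Inj n) {t : ℕ} (ht : t ≤ K) (R : ℕ)
    {h k : ℕ} (hn : h ≤ n) (hkh : k ≤ h) {b : ℝ}
    (hIt : ∀ c : S → ℝ, (∀ s, 0 ≤ c s ∧ c s ≤ 1) →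
      ∑ s, (P.It (Qof pk t) (fun i => P.nu (Qof pk) m0 (min (h - i - 1) R) t)
          (fun s D => c s * D.card) k s univ -
        P.It (Qof pk t) (fun i => P.nu (Qof pk) m0 (min (h - i - 1) R) t)
          (fun s D => c s * D.card) k s {0}) ≤ b) (δ : Dir) :
    ∃ q : List Bool → ℝ, (∀ js, 0 ≤ q js) ∧
      (∀ js v, js.length = k → Pr (pL pk pb) (Run E gm R t h js δ v) ≤ q js) ∧
      ∑ f : Fin k → Bool, q (List.ofFn f) ≤ 18 ^ 16 * 2048 * 6400 * b := by
  have hp := pL_isP hk hb.1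
  let c : S → ℝ := fun s => (∑ d, ∑ u, if ab δ d u = s then gm δ d u else 0) / 6400
  have hc : ∀ s, 0 ≤ c s ∧ c s ≤ 1 := fun s => by
    refine ⟨div_nonneg (sum_nonneg fun d _ => sum_nonneg fun u _ => ?_) (by norm_num),
      (div_le_one (by norm_num)).2 ?_⟩
    · split_ifs
      exacts [hL.g0 _ _ _, le_rfl]
    · refine (sum_le_sum fun d _ => sum_le_sum (g := fun _ => (1 : ℝ)) fun u _ => ?_).trans_eq ?_
      · split_ifs
        exacts [hL.g1 _ _ _, zero_le_one]
      · simp only [sum_const, card_univ, Fintype.card_prod, Fintype.card_fin, Fintype.card_bool,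
          Fintype.card_option]
        norm_num
  have hA : Agg ab gm δ (fun _ _ D => (D.card : ℝ)) = fun s D => 6400 * (c s * D.card) := by
    funext s D
    simp only [Agg, c]
    rw [← mul_assoc, mul_div_cancel₀ _ (by norm_num), sum_mul]
    refine sum_congr rfl fun d _ => ?_
    rw [sum_mul]
    exact sum_congr rfl fun u _ => by rw [ite_mul, zero_mul]
  let N : ℕ → S → St → ℝ := fun i => P.nu (Qof pk) m0 (min (h - i - 1) R) t
  have hm := fun js => Sys.PF_mono hP (Qof_mem hk t) js (N := N)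
    (fun i => Sys.nu_law hP (Qof_mem hk) _ _) (f := fun s D => c s * D.card)
    (fun s x A => by simp only [tr_card]) (fun s A y _ hy => by
      simp only [card_insert_of_notMem hy]
      push_cast
      linarith only [(hc s).1])
  have hW : ∀ js s (A B : St), B.Nonempty → A.Nonempty →
      P.PF (Qof pk t) js N (fun s D => c s * D.card) s A -
        P.PF (Qof pk t) js N (fun s D => c s * D.card) s B ≤
      P.PF (Qof pk t) js N (fun s D => c s * D.card) s univ -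
        P.PF (Qof pk t) js N (fun s D => c s * D.card) s {0} := fun js s A B ⟨y, hy⟩ hA => by
    have h1 := (hm js).2.mono (fun _ => le_rfl) s hA (subset_univ A)
    have h2 := (hm js).2.mono (fun _ => le_rfl) s (singleton_nonempty y) (singleton_subset_iff.2 hy)
    rw [((hm js).1 s).single] at h2
    linarith only [h1, h2]
  have hW0 : ∀ js, 0 ≤ ∑ s, (P.PF (Qof pk t) js N (fun s D => c s * D.card) s univ -
      P.PF (Qof pk t) js N (fun s D => c s * D.card) s {0}) := fun js => sum_nonneg fun s _ =>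
    (sub_self _).symm.trans_le (hW js s {0} {0} (singleton_nonempty _) (singleton_nonempty _))
  refine ⟨fun js => 18 ^ 16 * 2048 * 6400 *
    ∑ s, (P.PF (Qof pk t) js N (fun s D => c s * D.card) s univ -
      P.PF (Qof pk t) js N (fun s D => c s * D.card) s {0}),
    fun js => mul_nonneg (by positivity) (hW0 js), fun js v hj => ?_, ?_⟩
  · obtain ⟨f', a, e⟩ := w2_iter hP hL hk hb E hI ht R js h v δ ∅ (fun _ => g0)
      (fun _ _ D => (D.card : ℝ)) hn (hj.trans_le hkh) (fun _ _ _ => rfl) (Set.empty_disjoint _)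
      (fun _ _ x A => by simp only [tr_card]) fun d u a _ => (Ex_const hp _).le
    have hr := fun ω : V → Lab K => w2_rv0 E ω R t js h v δ g0 w1_g0
    let I : Finset (Fin 16 → Fin 18) := univ.filter fun r => (Ls 2 (emb r)).Nonempty
    have s1 : ∀ ω, ind (Run E gm R t h js δ v ω) ≤ ∑ r ∈ I, ∑ d, ∑ u,
        2048 * gm (ex δ js) d u * RV E ω R t js h v δ g0 d u (emb r) := fun ω => by
      have h0 : ∀ r d u, 0 ≤ 2048 * gm (ex δ js) d u * RV E ω R t js h v δ g0 d u (emb r) :=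
        fun r d u => mul_nonneg (mul_nonneg (by norm_num) (hL.g0 _ _ _)) (hr ω _ _ _)
      by_cases hR : Run E gm R t h js δ v ω
      · rw [ind_pos hR]
        obtain ⟨d, u, r, h1, h2, h3⟩ := hR
        refine le_trans ?_ (single_le_sum (fun r _ => sum_nonneg fun d _ => sum_nonneg fun u _ =>
          h0 r d u) (mem_filter.2 ⟨mem_univ r, h2⟩))
        refine le_trans ?_ (single_le_sum (fun d _ => sum_nonneg fun u _ => h0 r d u) (mem_univ d))
        refine le_trans ?_ (single_le_sum (fun u _ => h0 r d u) (mem_univ u))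
        exact one_le_mul_of_one_le_of_one_le (by linarith only [hL.gmin _ _ _ h1]) h3
      · rw [ind_neg hR]
        exact sum_nonneg fun r _ => sum_nonneg fun d _ => sum_nonneg fun u _ => h0 r d u
    refine (Ex_mono hp s1).trans ?_
    rw [Ex_sum]
    refine (sum_le_card_nsmul I _ (2048 * 6400 *
      ∑ s, (P.PF (Qof pk t) js N (fun s D => c s * D.card) s univ -
      P.PF (Qof pk t) js N (fun s D => c s * D.card) s {0})) fun r hr => ?_).trans ?_
    · have h2 := (mem_filter.1 hr).2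
      have h3 : ∑ d, ∑ u, 2048 * gm (ex δ js) d u * (f' d u (Ls 1 (emb r)) - f' d u (Ls 2 (emb r))) =
          2048 * (∑ s, Agg ab gm (ex δ js) f' s (Ls 1 (emb r)) -
            ∑ s, Agg ab gm (ex δ js) f' s (Ls 2 (emb r))) := by
        simp only [w2_sum, ← sum_sub_distrib, mul_sum]
        exact sum_congr rfl fun _ _ => sum_congr rfl fun _ _ => by ring
      simp only [Ex_sum, Ex_smul]
      refine (sum_le_sum fun d _ => sum_le_sum fun u _ => mul_le_mul_of_nonneg_left (a d u _ h2)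
        (mul_nonneg (by norm_num) (hL.g0 _ _ _))).trans (h3.trans_le ?_)
      rw [e, hA, ← sum_sub_distrib, mul_assoc, mul_sum _ _ (6400 : ℝ)]
      refine mul_le_mul_of_nonneg_left (sum_le_sum fun s _ => ?_) (by norm_num)
      rw [Sys.PF_smul, Sys.PF_smul, ← mul_sub]
      exact mul_le_mul_of_nonneg_left (hW js s _ _ h2 (h2.mono (Ls_anti one_le_two _)))
        (by norm_num)
    · have h4 : (I.card : ℝ) ≤ 18 ^ 16 := by
        have h5 := card_le_univ I
        rw [Fintype.card_fun, Fintype.card_fin, Fintype.card_fin] at h5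
        exact_mod_cast h5
      rw [nsmul_eq_mul]
      exact (mul_le_mul_of_nonneg_right h4 (mul_nonneg (by norm_num) (hW0 js))).trans_eq (by ring)
  · rw [← mul_sum, sum_comm]
    simp only [sum_sub_distrib, Sys.sum_PF]
    rw [← sum_sub_distrib]
    exact mul_le_mul_of_nonneg_left (hIt c hc) (by positivity)

end

end

end Pool.Agent.MP_7c51ae_co

/-!
Covers of the simple events.
-/

set_option autoImplicit false

namespace Pool.Agent.MP_7c51ae_co

open Finset Pool.Agent.MP_d802e4_co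

noncomputable section

section
variable {V : Type} [Fintype V] [DecidableEq V] {G : Sch V} {K : ℕ}
variable {S M X Y : Type} [Fintype S] [Fintype M] [Fintype X] [Fintype Y]
  [DecidableEq S] [DecidableEq M] {P : Sys S M X Y} {m0 : S → ℝ}
  {ab : Dir → Dn → Up → S} {gm : Dir → Dn → Up → ℝ} {pk : Fin 3 → Fin K → ℝ} {pb : Bd → ℝ}

theorem w3_one {Λ : Type} [Fintype Λ] {p : Λ → ℝ} (hp : IsP p) :
    ∑ l, p l * ind True ≤ 1 := by
  simp only [ind_pos trivial, mul_one]
  exact hp.sum.le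

theorem w3_child {Λ : Type} [Fintype Λ] {p : Λ → ℝ} (hp : IsP p) {lam x : ℝ} (hl : 1 ≤ lam)
    {n : ℕ} (hI : G.Inj (n + 1)) (δ : Dir) (j : Bool) {B : V → (V → Λ) → Prop}
    (h : Cov G p lam n (ch δ j).rev B x) :
    Cov G p lam (n + 1) δ (fun v ω => B (G.step v (ch δ j)) ω) (lam * x) :=
  cov_mono (cov_node hp hl hI j (A := fun _ => True) (w3_one hp) h (cov_true hp))
    (fun _ _ _ hB => ⟨trivial, hB, trivial⟩) (le_of_eq (by ring)) le_rfl

theorem w3_s1 (E : Env G) {lam Γ z : ℝ} (hz : 0 ≤ z) (hΓ : 1 ≤ Γ) {n h h' : ℕ} {δ : Dir}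
    (h1 : ∀ i, Cov G (pL pk pb) lam n δ (NeS1 E h h' i δ) (Γ ^ i * z)) :
    Cov G (pL pk pb) lam n δ (fun v ω => ∃ i, i ≤ 18 ∧ NeS1 E h h' i δ v ω) (19 * Γ ^ 18 * z) := by
  refine cov_mono (cov_exists (range 19) fun i _ => h1 i)
    (fun v ω _ ⟨i, hi, hB⟩ => ⟨i, mem_range.2 (Nat.lt_succ_of_le hi), hB⟩) ?_ le_rfl
  have h2 : ∀ i ∈ range 19, Γ ^ i * z ≤ Γ ^ 18 * z := fun i hi =>
    mul_le_mul_of_nonneg_right (pow_le_pow_right₀ hΓ (Nat.le_of_lt_succ (mem_range.1 hi))) hz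
  refine (sum_le_sum h2).trans (le_of_eq ?_)
  rw [sum_const, card_range, nsmul_eq_mul, mul_assoc]
  norm_num

theorem cov_s1 (hk : ∀ i, IsP (pk i)) (hb : IsP pb) (E : Env G) {lam Γ ρ3 : ℝ} (hl : 1 ≤ lam)
    (hΓ : 1 < Γ) (h3 : lam * (509 / 512) + 2 * lam / (Γ - 1) ≤ ρ3) (m : ℕ) {n h h' : ℕ}
    (hI : G.Inj n) (hn : h ≤ n) (hn' : h' ≤ n) (hh : m ≤ h) (hh' : m ≤ h') (i : ℕ) (δ : Dir) :
    Cov G (pL pk pb) lam n δ (NeS1 E h h' i δ) (Γ ^ i * ρ3 ^ m) := by
  have hp := pL_isP hk hb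
  have hl0 : 0 ≤ lam := zero_le_one.trans hl
  have hG : 0 < Γ - 1 := sub_pos.2 hΓ
  have hr : 0 ≤ ρ3 := le_trans (by positivity) h3
  induction m generalizing n h h' i δ with
  | zero =>
    refine cov_mono (cov_true hp) (fun _ _ _ _ => trivial) ?_ le_rfl
    rw [pow_zero, mul_one]
    exact one_le_pow₀ hΓ.le
  | succ m ih =>
    obtain ⟨h1, rfl⟩ : ∃ h1, h = h1 + 1 := ⟨h - 1, by omega⟩
    obtain ⟨h1', rfl⟩ : ∃ h1', h' = h1' + 1 := ⟨h' - 1, by omega⟩
    obtain ⟨n1, rfl⟩ : ∃ n1, n = n1 + 1 := ⟨n - 1, by omega⟩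
    have H : ∀ i δ, Cov G (pL pk pb) lam n1 δ (NeS1 E h1 h1' i δ) (Γ ^ i * ρ3 ^ m) := fun i δ =>
      ih (hI.mono (Nat.le_succ _)) (by omega) (by omega) (by omega) (by omega) i δ
    have c1 := fun j : Bool => w3_child hp hl hI δ j
      (cov_exists (range i) fun i' _ => H i' (ch δ j).rev)
    have c2 := cov_node hp hl hI false
      (A := fun l : Lab K => l.1.1 = none ∨ l.1.1 = some (Fin.ofNat 4 ((i - 3) / 4)))
      (pL_fresh hk hb _) (H i (ch δ false).rev) (cov_true hp)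
    refine cov_mono (cov_or (cov_or (c1 false) (c1 true)) c2) ?_ ?_ le_rfl
    · rintro v ω - ⟨d, hd, hi⟩
      obtain ⟨j, dc, hne, hc⟩ := s1_step δ (ω v).1 (E.o v) d _ _ _ _ hd
      rcases hc with hc | ⟨hc, rfl, hf⟩
      · left
        cases j
        · exact Or.inl ⟨_, mem_range.2 (lt_of_lt_of_eq hc hi), dc, hne, rfl⟩
        · exact Or.inr ⟨_, mem_range.2 (lt_of_lt_of_eq hc hi), dc, hne, rfl⟩
      · right
        subst hi
        exact ⟨hf, ⟨dc, hne, hc⟩, trivial⟩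
    · have hs : ∑ i' ∈ range i, Γ ^ i' * ρ3 ^ m ≤ Γ ^ i / (Γ - 1) * ρ3 ^ m := by
        rw [← sum_mul, geom_sum_eq hΓ.ne']
        exact mul_le_mul_of_nonneg_right
          (div_le_div_of_nonneg_right (sub_le_self _ zero_le_one) hG.le) (pow_nonneg hr _)
      have h4 := mul_le_mul_of_nonneg_left hs hl0
      have h5 := mul_le_mul_of_nonneg_left h3
        (mul_nonneg (pow_nonneg (zero_le_one.trans hΓ.le) i) (pow_nonneg hr m))
      calc _ ≤ lam * (Γ ^ i / (Γ - 1) * ρ3 ^ m) + lam * (Γ ^ i / (Γ - 1) * ρ3 ^ m) +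
            509 / 512 * lam * (Γ ^ i * ρ3 ^ m) * 1 := add_le_add (add_le_add h4 h4) le_rfl
        _ = Γ ^ i * ρ3 ^ m * (lam * (509 / 512) + 2 * lam / (Γ - 1)) := by ring
        _ ≤ Γ ^ i * ρ3 ^ m * ρ3 := h5
        _ = _ := by ring

theorem cov_dis (E : Env G) {lam y : ℝ} (hy : 0 ≤ y) {n h h' t : ℕ} {δ : Dir}
    (hc : ∀ t' ≤ t, Cov G (pL pk pb) lam n δ (Chn E h h' t' δ) (y * 2 ^ t') ∧
      Cov G (pL pk pb) lam n δ (Chn E h' h t' δ) (y * 2 ^ t')) :
    Cov G (pL pk pb) lam n δ (Dis E h h' t δ) (4 * y * 2 ^ t) := by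
  refine cov_mono (cov_exists (range (t + 1)) fun t' ht' =>
    cov_or (hc t' (Nat.le_of_lt_succ (mem_range.1 ht'))).1
      (hc t' (Nat.le_of_lt_succ (mem_range.1 ht'))).2) ?_ ?_ le_rfl
  · intro v ω _ hd
    obtain ⟨t', h1, h2⟩ := dis_chn E hd
    exact ⟨t', mem_range.2 (Nat.lt_succ_of_le h1), h2⟩
  · rw [sum_add_distrib, ← mul_sum, geom_sum_eq (by norm_num), pow_succ]
    norm_num only [div_one]
    linarith

theorem cov_nem (E : Env G) {lam Γ y z : ℝ} (hy : 0 ≤ y) (hz : 0 ≤ z) (hΓ : 1 ≤ Γ) {n h h' : ℕ}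
    (hK : 1 ≤ K) (hh : K ≤ h) (hh' : K ≤ h') {δ : Dir}
    (h1 : ∀ i, Cov G (pL pk pb) lam n δ (NeS1 E h h' i δ) (Γ ^ i * z))
    (hc : ∀ t < K, Cov G (pL pk pb) lam n δ (Chn E h h' t δ) (y * 2 ^ t) ∧
      Cov G (pL pk pb) lam n δ (Chn E h' h t δ) (y * 2 ^ t)) :
    Cov G (pL pk pb) lam n δ (NeM E h h' δ) (19 * Γ ^ 18 * z + 2 * y * 2 ^ K) := by
  refine cov_mono (cov_or (w3_s1 E hz hΓ h1)
    (cov_dis E hy (t := K - 1) fun t' ht' => hc t' (by omega)))
    (fun v ω _ hn => ne_split E hK hh hh' hn) (le_of_eq ?_) le_rfl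
  obtain ⟨k, rfl⟩ : ∃ k, K = k + 1 := ⟨K - 1, by omega⟩
  rw [Nat.add_sub_cancel, pow_succ (2 : ℝ) k]
  ring

theorem cov_brk (hk : ∀ i, IsP (pk i)) (hb : IsP pb) (E : Env G) {lam Γ a y z w η : ℝ}
    (hl : 1 ≤ lam) (hΓ : 1 ≤ Γ) (hz : 0 ≤ z) (ha0 : 0 ≤ a) (ha : ∀ i c, pk i c ≤ a)
    {n R h h' t : ℕ} (hI : G.Inj (n + 1))
    (h1 : ∀ i δ, Cov G (pL pk pb) lam n δ (NeS1 E h h' i δ) (Γ ^ i * z))
    (h2 : ∀ δ, Cov G (pL pk pb) lam n δ (Dis E h h' t δ) y)
    (h3 : ∀ δ, Cov G (pL pk pb) lam n δ (Win E (min h R) t δ) w)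
    (h4 : ∀ δ, Cov G (pL pk pb) lam n δ (NeM E h (min h R) δ) η) (δ : Dir) :
    Cov G (pL pk pb) lam (n + 1) δ (Brk E R h h' t δ)
      (2 * lam * (19 * Γ ^ 18 * z + y * (3 * a + w + η))) := by
  have hp := pL_isP hk hb
  have c1 := fun j : Bool => w3_child hp hl hI δ j (w3_s1 E hz hΓ fun i => h1 i (ch δ j).rev)
  have c2 := fun j : Bool => cov_node hp hl hI j
    (A := fun l : Lab K => ∃ i, (l.2.1 i).val = t) (pL_clock hk hb ha ha0 t)
    (h2 (ch δ j).rev) (cov_true hp)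
  have c3 := fun j : Bool => cov_node hp hl hI j (A := fun _ => True) (w3_one hp)
    (h2 (ch δ j).rev) (cov_or (h3 (ch δ (!j)).rev) (h4 (ch δ (!j)).rev))
  have c := fun j : Bool => cov_or (c1 j) (cov_or (c2 j) (c3 j))
  refine cov_mono (cov_exists univ fun j _ => c j) ?_ (le_of_eq ?_) le_rfl
  · rintro v ω - ⟨j, hj⟩
    refine ⟨j, mem_univ _, ?_⟩
    rcases hj with hj | ⟨hd, hj | hj⟩
    · exact Or.inl hj
    · exact Or.inr (Or.inl ⟨hj, hd, trivial⟩)
    · exact Or.inr (Or.inr ⟨trivial, hd, hj⟩)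
  · rw [Fintype.sum_bool]
    ring

theorem cov_win (hL : Lump P m0 ab gm) (hk : ∀ i, IsP (pk i)) (hb : BdOk m0 ab gm pb)
    (E : Env G) {lam a : ℝ} (hl : 1 ≤ lam) (h0 : 0 ≤ a) {n t h R : ℕ} (hI : G.Inj n) (ht : t < K)
    (hh : h ≤ n) (hR : h ≤ R)
    (ha : ∀ s, ∑ D, (P.nu (Qof pk) m0 h t s D - P.nu (Qof pk) m0 h (t + 1) s D) * (D.card : ℝ) ≤ a)
    (δ : Dir) : Cov G (pL pk pb) lam n δ (Win E h t δ) (6400 * a * lam ^ 2 ^ (R + 1)) := by
  have h1 : (0 : ℝ) ≤ 6400 * a := by positivity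
  refine cov_mono (cov_local (n := h) (δ := δ) (B := Win E h t δ) hl h1 (fun v => ?_)
    fun v => win_bound hL hk hb E hI ht hh h0 ha δ v) (fun _ _ _ hB => hB) ?_ hh
  · exact (msg_dep E h v δ).comp
      fun m : Msg => ∃ d, Ls (t * E.N) (m.2 d) ≠ Ls ((t + 1) * E.N) (m.2 d)
  · exact mul_le_mul_of_nonneg_left (pow_le_pow_right₀ hl
      (Nat.pow_le_pow_right (by norm_num) (Nat.succ_le_succ hR))) h1

end

end

end Pool.Agent.MP_7c51ae_co

/-!
The main cover.
-/

set_option autoImplicit false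

namespace Pool.Agent.MP_7c51ae_co

open Finset Pool.Agent.MP_d802e4_co

noncomputable section

section
variable {V : Type} [Fintype V] [DecidableEq V] {G : Sch V} {K : ℕ}
variable {S M X Y : Type} [Fintype S] [Fintype M] [Fintype X] [Fintype Y]
  [DecidableEq S] [DecidableEq M] {P : Sys S M X Y} {m0 : S → ℝ}
  {ab : Dir → Dn → Up → S} {gm : Dir → Dn → Up → ℝ} {pk : Fin 3 → Fin K → ℝ} {pb : Bd → ℝ}

theorem w4_geo {x y : ℝ} (hx : 0 ≤ x) (hxy : x < y) (m : ℕ) :
    ∑ k ∈ range m, x ^ k * y ^ (m - 1 - k) ≤ y ^ m / (y - x) := by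
  rw [le_div_iff₀ (sub_pos.2 hxy)]
  have h := geom_sum₂_mul x y m
  have h2 := pow_nonneg hx m
  linarith

theorem w4_tot {C1 g G18 A T ε r s : ℝ} (hg : 0 < g) (hC : 0 ≤ C1) (hG : 0 ≤ G18) (hT : 1 ≤ T)
    (hε : 0 ≤ ε) (hr : 0 ≤ r) (hA : 2 * C1 * (1 + 76 * G18 / g) ≤ A) (he : 32 * C1 * ε ≤ g)
    (hs : s ≤ r / g) : C1 * (76 * G18 + 16 * A * T * ε) * s + C1 * r ≤ A * r * T := by
  have h0 : 0 ≤ 76 * G18 / g := by positivity
  have hA0 : 0 ≤ A := le_trans (by positivity) hA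
  have hT0 : 0 ≤ T := zero_le_one.trans hT
  have h1 : C1 * (76 * G18 + 16 * A * T * ε) * s ≤ C1 * (76 * G18 + 16 * A * T * ε) * (r / g) :=
    mul_le_mul_of_nonneg_left hs (by positivity)
  have h2 : C1 * (76 * G18 + 16 * A * T * ε) * (r / g) =
      C1 * (76 * G18 / g) * r + (32 * C1 * ε / g) * (A * T * r / 2) := by
    field_simp
    ring
  have h3 : 32 * C1 * ε / g ≤ 1 := (div_le_one hg).2 he
  have h4 : (32 * C1 * ε / g) * (A * T * r / 2) ≤ 1 * (A * T * r / 2) :=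
    mul_le_mul_of_nonneg_right h3 (by positivity)
  have h5 : 2 * C1 * (1 + 76 * G18 / g) * r ≤ A * r := mul_le_mul_of_nonneg_right hA hr
  have h6 : A * r * 1 ≤ A * r * T := mul_le_mul_of_nonneg_left hT (by positivity)
  linarith only [h1, h2, h4, h5, h6]

theorem w4_run (hP : P.Ok m0) (hL : Lump P m0 ab gm) (hk : ∀ i, IsP (pk i))
    (hb : BdOk m0 ab gm pb) (E : Env G) {ρ C a lam Γ ρ2 ρ3 A : ℝ} {D : ℕ}
    (hp : Par ρ (18 ^ 16 * 2048 * 6400 * C) K D a lam Γ ρ2 ρ3 A)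
    (hIt : ∀ (t : ℕ) (hs : ℕ → ℕ) (c : S → ℝ) (k : ℕ), t < K → (∀ i, K ≤ hs i) →
      (∀ s, 0 ≤ c s ∧ c s ≤ 1) →
      ∑ s, (P.It (Qof pk t) (fun i => P.nu (Qof pk) m0 (hs i) t) (fun s D => c s * D.card) k s univ -
        P.It (Qof pk t) (fun i => P.nu (Qof pk) m0 (hs i) t) (fun s D => c s * D.card) k s {0}) ≤
        C * ρ ^ k)
    {n k h t : ℕ} (hI : G.Inj (n + k)) (hn : h ≤ n + k) (hh : k + K ≤ h) (ht : t < K) (δ : Dir)
    {x : ℝ} (hx : 0 ≤ x) {B : Dir → V → (V → Lab K) → Prop}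
    (hB : ∀ δ', Cov G (pL pk pb) lam n δ' (B δ') x) :
    Cov G (pL pk pb) lam (n + k) δ
      (fun v ω => ∃ js : List Bool, js.length = k ∧ Run E gm (K + D) t h js δ v ω ∧
        B (ex δ js) (G.walk v (wd δ js)) ω) (18 ^ 16 * 2048 * 6400 * C * ρ2 ^ k * x) := by
  obtain ⟨q, q0, q1, q2⟩ := run_bound hP hL hk hb E hI ht.le (K + D) (k := k) (b := C * ρ ^ k) hn
    (by omega) (fun c hc => by
      have e := P.It_congr (Qof pk t)
        (N := fun i => P.nu (Qof pk) m0 (min (h - i - 1) (K + D)) t)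
        (N' := fun i => P.nu (Qof pk) m0 (if i < k then min (h - i - 1) (K + D) else K) t)
        (fun s D => c s * D.card) k fun i hi => by simp only [if_pos hi]
      rw [e]
      refine hIt t _ c k ht (fun i => ?_) hc
      split_ifs with hi
      · omega
      · exact le_rfl) δ
  refine cov_mono (cov_graft (c := k * 2 ^ (K + D + 2)) (pL_isP hk hb.1) hp.l1 hI hx
    (E0 := fun js v ω => Run E gm (K + D) t h js δ v ω) q q0 q1 q2 (fun js hj => ?_) hB)
    (fun _ _ _ h => h) ?_ le_rfl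
  · obtain ⟨S0, s1, s2, s3⟩ := run_dep E (K + D) t h δ js (by omega)
    exact ⟨S0, hj ▸ s1, fun w hw => ⟨⟨(s2 w hw).1.1, (s2 w hw).1.2.1.trans hn, (s2 w hw).1.2.2⟩,
      (s2 w hw).2⟩, s3⟩
  · refine mul_le_mul_of_nonneg_right ?_ hx
    have hl0 : 0 ≤ lam := zero_le_one.trans hp.l1
    have h1 : (ρ * lam ^ 2 ^ (K + D + 2)) ^ k ≤ ρ2 ^ k :=
      pow_le_pow_left₀ (mul_nonneg hp.r0 (pow_nonneg hl0 _)) hp.r2 k
    have h2 := mul_le_mul_of_nonneg_left h1 hp.c0
    rw [mul_pow, ← pow_mul, mul_comm (2 ^ (K + D + 2)) k] at h2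
    refine le_trans (le_of_eq ?_) h2
    simp only [mul_assoc]

theorem w4_brk (hL : Lump P m0 ab gm) (hk : ∀ i, IsP (pk i))
    (hb : BdOk m0 ab gm pb) (E : Env G) {ρ C1 a lam Γ ρ2 ρ3 A : ℝ} {D : ℕ}
    (hp : Par ρ C1 K D a lam Γ ρ2 ρ3 A) (ha : ∀ i c, pk i c ≤ a)
    (hw : ∀ h t s, K ≤ h → t < K →
      ∑ D, (P.nu (Qof pk) m0 h t s D - P.nu (Qof pk) m0 h (t + 1) s D) * (D.card : ℝ) ≤ a)
    {n : ℕ} (hI : G.Inj (n + 1))
    (ih : ∀ {m h h' t : ℕ}, h ≤ n → h' ≤ n → m + K ≤ h → m + K ≤ h' → t < K → ∀ δ,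
      Cov G (pL pk pb) lam n δ (Chn E h h' t δ) (A * ρ3 ^ m * 2 ^ t))
    {m h h' t : ℕ} (hn : h ≤ n) (hn' : h' ≤ n) (hh : m + K ≤ h) (hh' : m + K ≤ h') (ht : t < K)
    (δ : Dir) :
    Cov G (pL pk pb) lam (n + 1) δ (Brk E (K + D) h h' t δ)
      ((76 * Γ ^ 18 + 16 * A * 2 ^ t * (12803 * a + (19 * Γ ^ 18 + 2 * A * 2 ^ K) * ρ3 ^ D)) *
        ρ3 ^ m) := by
  have hl0 : 0 ≤ lam := zero_le_one.trans hp.l1
  have hΓ : 0 ≤ Γ := zero_le_one.trans hp.g1.le
  have h20 : 0 ≤ ρ2 := le_trans (mul_nonneg hp.r0 (pow_nonneg hl0 _)) hp.r2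
  have h30 : 0 ≤ ρ3 := h20.trans hp.r3.le
  have hg : 0 < ρ3 - ρ2 := sub_pos.2 hp.r3
  have hc0 := hp.c0
  have ha0 := hp.a0
  have hA0 : 0 ≤ A := le_trans (by positivity) hp.hA
  have hI' : G.Inj n := hI.mono (Nat.le_succ n)
  have hl2 : lam ≤ 2 := le_trans (le_self_pow₀ hp.l1 (by positivity)) hp.l2
  have hl3 : lam ^ 2 ^ (K + D + 1) ≤ 2 :=
    le_trans (pow_le_pow_right₀ hp.l1 (Nat.pow_le_pow_right (by omega) (by omega))) hp.l2
  have hη : 0 ≤ (19 * Γ ^ 18 + 2 * A * 2 ^ K) * ρ3 ^ D := by positivity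
  refine cov_mono (cov_brk hk hb.1 E (z := ρ3 ^ m) (y := 4 * (A * ρ3 ^ m) * 2 ^ t)
    (w := 12800 * a) (η := (19 * Γ ^ 18 + 2 * A * 2 ^ K) * ρ3 ^ D) hp.l1 hp.g1.le
    (pow_nonneg h30 m) ha0 ha hI (fun i δ' => ?_) (fun δ' => ?_) (fun δ' => ?_) (fun δ' => ?_) δ)
    (fun _ _ _ h => h) ?_ le_rfl
  · exact cov_s1 hk hb.1 E hp.l1 hp.g1 hp.s1 m hI' hn hn' (by omega) (by omega) i δ'
  · exact cov_dis E (by positivity) fun t' ht' =>
      ⟨ih hn hn' hh hh' (by omega) δ', ih hn' hn hh' hh (by omega) δ'⟩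
  · refine cov_mono (cov_win hL hk hb E hp.l1 ha0 hI' ht ((min_le_left _ _).trans hn)
      (min_le_right _ _) (fun s => hw _ t s (by omega) ht) δ') (fun _ _ _ h => h) ?_ le_rfl
    have := mul_le_mul_of_nonneg_left hl3 ha0
    linarith only [this]
  · rcases le_total h (K + D) with hR | hR
    · rw [min_eq_left hR]
      exact cov_mono cov_false (fun _ _ _ h => h rfl) hη le_rfl
    · rw [min_eq_right hR]
      refine cov_mono (cov_nem E (y := A * ρ3 ^ D) (z := ρ3 ^ D) (by positivity) (by positivity)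
        hp.g1.le (by omega) (by omega) (by omega) (fun i => ?_) fun t' ht' => ?_)
        (fun _ _ _ h => h) (le_of_eq (by ring)) le_rfl
      · exact cov_s1 hk hb.1 E hp.l1 hp.g1 hp.s1 D hI' hn (by omega) (by omega) (by omega) i δ'
      · exact ⟨ih hn (by omega) (by omega) (by omega) ht' δ',
          ih (by omega) hn (by omega) (by omega) ht' δ'⟩
  · generalize (19 * Γ ^ 18 + 2 * A * 2 ^ K) * ρ3 ^ D = η at hη
    have h1 : 0 ≤ 19 * Γ ^ 18 * ρ3 ^ m + 4 * (A * ρ3 ^ m) * 2 ^ t * (3 * a + 12800 * a + η) := by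
      positivity
    refine le_trans (mul_le_mul_of_nonneg_right (show 2 * lam ≤ 4 by linarith only [hl2]) h1) (le_of_eq ?_)
    ring

theorem cov_chn (hP : P.Ok m0) (hL : Lump P m0 ab gm) (hk : ∀ i, IsP (pk i))
    (hb : BdOk m0 ab gm pb) (E : Env G) {ρ C a lam Γ ρ2 ρ3 A : ℝ} {D : ℕ}
    (hp : Par ρ (18 ^ 16 * 2048 * 6400 * C) K D a lam Γ ρ2 ρ3 A) (ha : ∀ i c, pk i c ≤ a)
    (hw : ∀ h t s, K ≤ h → t < K →
      ∑ D, (P.nu (Qof pk) m0 h t s D - P.nu (Qof pk) m0 h (t + 1) s D) * (D.card : ℝ) ≤ a)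
    (hIt : ∀ (t : ℕ) (hs : ℕ → ℕ) (c : S → ℝ) (k : ℕ), t < K → (∀ i, K ≤ hs i) →
      (∀ s, 0 ≤ c s ∧ c s ≤ 1) →
      ∑ s, (P.It (Qof pk t) (fun i => P.nu (Qof pk) m0 (hs i) t) (fun s D => c s * D.card) k s univ -
        P.It (Qof pk t) (fun i => P.nu (Qof pk) m0 (hs i) t) (fun s D => c s * D.card) k s {0}) ≤
        C * ρ ^ k)
    (n : ℕ) (hI : G.Inj n) {m h h' t : ℕ} (hn : h ≤ n) (hn' : h' ≤ n) (hh : m + K ≤ h)
    (hh' : m + K ≤ h') (ht : t < K) (δ : Dir) :
    Cov G (pL pk pb) lam n δ (Chn E h h' t δ) (A * ρ3 ^ m * 2 ^ t) := by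
  induction n using Nat.strong_induction_on generalizing m h h' t δ with
  | _ n ih =>
  have hl0 : 0 ≤ lam := zero_le_one.trans hp.l1
  have hΓ : 0 ≤ Γ := zero_le_one.trans hp.g1.le
  have h20 : 0 ≤ ρ2 := le_trans (mul_nonneg hp.r0 (pow_nonneg hl0 _)) hp.r2
  have h30 : 0 ≤ ρ3 := h20.trans hp.r3.le
  have hg : 0 < ρ3 - ρ2 := sub_pos.2 hp.r3
  have hc0 := hp.c0
  have ha0 := hp.a0
  have hA := hp.hA
  have he := hp.he
  have hrun := fun {n k h t : ℕ} => w4_run (n := n) (k := k) (h := h) (t := t) hP hL hk hb E hp hIt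
  have hbrk := fun {n : ℕ} => w4_brk (n := n) hL hk hb E hp ha hw
  generalize (18 : ℝ) ^ 16 * 2048 * 6400 * C = C1 at hc0 hA he hrun
  have hA0 : 0 ≤ A := le_trans (by positivity) hA
  have hε : 0 ≤ 12803 * a + (19 * Γ ^ 18 + 2 * A * 2 ^ K) * ρ3 ^ D := by positivity
  generalize 12803 * a + (19 * Γ ^ 18 + 2 * A * 2 ^ K) * ρ3 ^ D = ε at he hε hbrk
  have c1 : ∀ k ∈ range m, Cov G (pL pk pb) lam n δ
      (fun v ω => ∃ js : List Bool, js.length = k ∧ Run E gm (K + D) t h js δ v ω ∧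
        Brk E (K + D) (h - k - 1) (h' - k - 1) t (ex δ js) (G.walk v (wd δ js)) ω)
      (C1 * ρ2 ^ k * ((76 * Γ ^ 18 + 16 * A * 2 ^ t * ε) * ρ3 ^ (m - 1 - k))) := by
    intro k hkm
    rw [mem_range] at hkm
    obtain ⟨n1, rfl⟩ : ∃ n1, n = n1 + 1 + k := ⟨n - 1 - k, by omega⟩
    have hI1 : G.Inj (n1 + 1) := hI.mono (by omega)
    exact hrun hI hn (by omega) ht δ (by positivity) fun δ' =>
      hbrk hI1 (fun a1 a2 a3 a4 a5 δ'' => ih n1 (by omega) (hI1.mono (by omega)) a1 a2 a3 a4 a5 δ'')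
        (by omega) (by omega) (by omega) (by omega) ht δ'
  have c2 : Cov G (pL pk pb) lam n δ
      (fun v ω => ∃ js : List Bool, js.length = m ∧ Run E gm (K + D) t h js δ v ω ∧ True)
      (C1 * ρ2 ^ m * 1) := by
    obtain ⟨n1, rfl⟩ : ∃ n1, n = n1 + m := ⟨n - m, by omega⟩
    exact hrun (B := fun _ _ _ => True) hI hn hh ht δ zero_le_one fun δ' =>
      cov_true (pL_isP hk hb.1)
  refine cov_mono (cov_or (cov_exists (range m) c1) c2) (fun v ω hω hc => ?_) ?_ le_rfl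
  · obtain ⟨js, j1, j2, j3⟩ := chn_run E (K + D)
      (fun h0 hh0 v δ d => gm_ne hL hk hb E hI h0 hh0 v δ d hω) m hn hh hh' hc
    rcases j1.lt_or_eq with j1 | j1
    · exact Or.inl ⟨js.length, mem_range.2 j1, js, rfl, j2, j3.resolve_left j1.ne⟩
    · exact Or.inr ⟨js, j1, j2, trivial⟩
  · refine le_trans ?_ (w4_tot hg hc0 (pow_nonneg hΓ 18) (one_le_pow₀ one_le_two) hε
      (pow_nonneg h30 m) hA he (w4_geo h20 hp.r3 m))
    refine add_le_add (le_of_eq ?_) ?_
    · rw [mul_sum]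
      exact sum_congr rfl fun k _ => by ring
    · rw [mul_one]
      exact mul_le_mul_of_nonneg_left (pow_le_pow_left₀ h20 hp.r3.le m) hc0

end

section

theorem par_exists {ρ C1 : ℝ} (h0 : 0 ≤ ρ) (h1 : ρ < 1) (hC : 0 ≤ C1) :
    ∃ a Γ ρ2 ρ3 A : ℝ, 0 < a ∧ 0 ≤ ρ3 ∧ ρ3 < 1 ∧ 0 ≤ A ∧ ∀ K : ℕ, ∃ (D : ℕ) (lam : ℝ), 1 < lam ∧
      Par ρ C1 K D a lam Γ ρ2 ρ3 A := by
  obtain ⟨ρ3, h31, h3a, h3b⟩ : ∃ ρ3 : ℝ, ρ3 < 1 ∧ ρ < ρ3 ∧ 509 / 512 < ρ3 := by
    have hm : max ρ (509 / 512) < 1 := max_lt h1 (by norm_num)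
    refine ⟨(1 + max ρ (509 / 512)) / 2, by linarith, ?_, ?_⟩
    · linarith only [le_max_left ρ (509 / 512), h1]
    · linarith [le_max_right ρ (509 / 512)]
  obtain ⟨ρ2, h2a, h2b⟩ := exists_between h3a
  have hg : 0 < ρ3 - ρ2 := sub_pos.2 h2b
  have hg' : 0 < ρ3 - 509 / 512 := sub_pos.2 h3b
  have h30 : 0 ≤ ρ3 := h0.trans h3a.le
  obtain ⟨Γ, hΓ, hΓ'⟩ : ∃ Γ : ℝ, 1 < Γ ∧ 509 / 512 + 2 / (Γ - 1) < ρ3 := by
    refine ⟨1 + 4 / (ρ3 - 509 / 512), lt_add_of_pos_right _ (by positivity), ?_⟩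
    have e : 2 / (1 + 4 / (ρ3 - 509 / 512) - 1) = (ρ3 - 509 / 512) / 2 := by
      rw [add_sub_cancel_left]
      field_simp
      norm_num
    rw [e]
    linarith only [h3b]
  have hΓ0 : 0 ≤ Γ := zero_le_one.trans hΓ.le
  obtain ⟨A, hA0, hA⟩ : ∃ A : ℝ, 0 ≤ A ∧ 2 * C1 * (1 + 76 * Γ ^ 18 / (ρ3 - ρ2)) ≤ A :=
    ⟨_, by positivity, le_rfl⟩
  obtain ⟨a, ha0, ha⟩ : ∃ a : ℝ, 0 < a ∧ 32 * C1 * (12803 * a) ≤ (ρ3 - ρ2) / 2 := by
    refine ⟨(ρ3 - ρ2) / (64 * 12803 * (C1 + 1)), by positivity, ?_⟩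
    have e : 32 * C1 * (12803 * ((ρ3 - ρ2) / (64 * 12803 * (C1 + 1)))) =
        (ρ3 - ρ2) / 2 * (C1 / (C1 + 1)) := by
      field_simp
      ring
    rw [e]
    exact mul_le_of_le_one_right (by positivity) ((div_le_one (by positivity)).2 (by linarith only [h31, h3b]))
  refine ⟨a, Γ, ρ2, ρ3, A, ha0, h30, h31, hA0, fun K => ?_⟩
  obtain ⟨D, hD⟩ : ∃ D : ℕ, 32 * C1 * ((19 * Γ ^ 18 + 2 * A * 2 ^ K) * ρ3 ^ D) ≤ (ρ3 - ρ2) / 2 := by
    have hB : 0 ≤ 32 * C1 * (19 * Γ ^ 18 + 2 * A * 2 ^ K) := by positivity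
    simp only [← mul_assoc (32 * C1)]
    generalize 32 * C1 * (19 * Γ ^ 18 + 2 * A * 2 ^ K) = B at hB
    obtain ⟨D, hD⟩ := exists_pow_lt_of_lt_one
      (show 0 < (ρ3 - ρ2) / 2 / (B + 1) by positivity) h31
    refine ⟨D, ?_⟩
    rw [lt_div_iff₀ (by positivity)] at hD
    have := pow_nonneg h30 D
    linarith only [hD, this]
  have e1 : ∀ᶠ x : ℝ in nhds 1, x ^ 2 ^ (K + D + 2) < 2 :=
    (continuous_pow _).continuousAt.eventually_lt continuousAt_const (by simp)
  have e2 : ∀ᶠ x : ℝ in nhds 1, ρ * x ^ 2 ^ (K + D + 2) < ρ2 :=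
    (continuous_const.mul (continuous_pow _)).continuousAt.eventually_lt continuousAt_const
      (by simpa using h2a)
  have e3 : ∀ᶠ x : ℝ in nhds 1, x * (509 / 512 + 2 / (Γ - 1)) < ρ3 :=
    (continuous_id.mul continuous_const).continuousAt.eventually_lt continuousAt_const
      (by simpa using hΓ')
  obtain ⟨lam, ⟨⟨f1, f2⟩, f3⟩, f4⟩ :=
    ((((e1.and e2).and e3).filter_mono (nhdsWithin_le_nhds (s := Set.Ioi (1 : ℝ)))).and
      self_mem_nhdsWithin).exists
  refine ⟨D, lam, f4, h0, hC, ha0.le, le_of_lt f4, f1.le, f2.le, h2b, hΓ, ?_, hA, ?_⟩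
  · refine le_trans (le_of_eq ?_) f3.le
    ring
  · rw [mul_add]
    linarith only [ha, hD]

end

end

end Pool.Agent.MP_7c51ae_co

/-!
The core statement.
-/

set_option autoImplicit false

namespace Pool.Agent.MP_7c51ae_co

open Finset Pool.Agent.MP_d802e4_co

noncomputable section

section

theorem fin_inj {V : Type} {G : Sch V} {n n' : ℕ} (h : G.Inj n) (hn : n' ≤ n) : G.Inj n' :=
  fun v w w' hw hw' l l' e => h v w w' hw hw' (l.trans hn) (l'.trans hn) e

theorem fin_core {S M X Y : Type} [Fintype S] [Fintype M] [Fintype X] [Fintype Y]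
    [DecidableEq S] [DecidableEq M] {P : Sys S M X Y} {m0 : S → ℝ}
    {ab : Dir → Dn → Up → S} {gm : Dir → Dn → Up → ℝ}
    (hP : P.Ok m0) (hL : Lump P m0 ab gm) (hA : AbsOut P m0) : Core := by
  obtain ⟨pb, hb⟩ := exists_bd hP hL
  obtain ⟨ρ, C, h0, h1, hC, hδ⟩ := hA
  have hC1 : (0 : ℝ) ≤ 18 ^ 16 * 2048 * 6400 * C := by positivity
  obtain ⟨a, Γ, ρ2, ρ3, A, ha, h30, h31, hA0, hK⟩ := par_exists h0 h1 hC1
  obtain ⟨K, pk, hk, hpa, hw, hIt⟩ := hδ a ha
  obtain ⟨D, lam, hl, hp⟩ := hK K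
  obtain ⟨x0, hx0, hlll⟩ := lll_cov hl
  have hK1 : 1 ≤ K := by
    rcases K with _ | K
    · have := (hk 0).2
      simp at this
    · omega
  have hΓ : 0 < Γ := zero_lt_one.trans hp.g1
  have hc0 : 0 < 19 * Γ ^ 18 + 2 * A * 2 ^ K := by positivity
  obtain ⟨m, hm⟩ := exists_pow_lt_of_lt_one (div_pos hx0 hc0) h31
  have hm' : 19 * Γ ^ 18 * ρ3 ^ m + 2 * (A * ρ3 ^ m) * 2 ^ K ≤ x0 := by
    have := (lt_div_iff₀ hc0).1 hm
    linarith only [this]
  refine ⟨m + K + 2, fun V _ _ G hI => ?_⟩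
  obtain ⟨E⟩ := exists_env (fin_inj hI (n' := 1) (by omega))
  have hI1 : G.Inj (m + K + 1) := fin_inj hI (by omega)
  have hz : 0 ≤ ρ3 ^ m := pow_nonneg h30 m
  have hc : ∀ δ, Cov G (pL pk pb) lam (m + K + 1) δ (NeM E (m + K) (m + K + 1) δ) x0 := by
    intro δ
    refine cov_mono (cov_nem E (mul_nonneg hA0 hz) hz hp.g1.le hK1 (by omega) (by omega)
      (fun i => cov_s1 hk hb.1 E hp.l1 hp.g1 hp.s1 m hI1 (by omega) le_rfl (by omega) (by omega) i δ)
      (fun t ht => ⟨?_, ?_⟩)) (fun _ _ _ h => h) hm' le_rfl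
    · exact cov_chn hP hL hk hb E hp hpa hw hIt _ hI1 (by omega) le_rfl le_rfl (by omega) ht δ
    · exact cov_chn hP hL hk hb E hp hpa hw hIt _ hI1 le_rfl (by omega) (by omega) le_rfl ht δ
  obtain ⟨ω, -, hω⟩ := hlll V G (Lab K) (pL pk pb) (m + K + 1)
    (fun δ => NeM E (m + K) (m + K + 1) δ) (pL_isP hk hb.1) hc
  exact cons E ω hI fun v δ => not_not.1 (hω δ v)

end

end

end Pool.Agent.MP_7c51ae_co
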