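/-!
Small programs on natural numbers that the kernel evaluates (no library import).
-/

set_option autoImplicit false

namespace Pool.Agent.MP_7c51ae_co

/-- binary search trees -/
inductive Tb (α : Type) | lf (a : α) | nd (k : Nat) (l r : Tb α)

noncomputable def Tb.get {α : Type} (t : Tb α) (c : Nat) : α :=
  Tb.rec (fun a => a) (fun k _ _ l r => Bool.rec l r (Nat.ble k c)) t

/-- a boxed linear form -/
inductive Bx | mk (f : (Nat → Nat) → Nat)

noncomputable def Bx.ap (b : Bx) (X : Nat → Nat) : Nat := @Bx.rec (fun _ => Nat) (fun f => f X) b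

/-- sum of `f i` for `i < n` -/
noncomputable def sm (n : Nat) (f : Nat → Nat) : Nat :=
  @Nat.rec (fun _ => Nat) 0 (fun i ih => Nat.add ih (f i)) n

/-- `f i` holds for all `i < n` -/
noncomputable def al (n : Nat) (f : Nat → Bool) : Bool :=
  @Nat.rec (fun _ => Bool) true (fun i ih => @Bool.rec (fun _ => Bool) false ih (f i)) n

/-- evaluate `e` first -/
noncomputable def frc (e : Nat) (f : Nat → Nat) : Nat :=
  @Nat.rec (fun _ => Nat) 0 (fun k _ => f k) (Nat.add e 1)

/-- `a` if `b` holds, else `c` -/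
noncomputable def cnd (b : Bool) (a c : Nat) : Nat := @Bool.rec (fun _ => Nat) c a b

/-- `2 ^ b - 1` -/
noncomputable def msk (b : Nat) : Nat := Nat.sub (Nat.shiftLeft 1 b) 1

/-- digit `i` of `X` in base `2 ^ b` -/
noncomputable def dg (b X i : Nat) : Nat := Nat.land (Nat.shiftRight X (Nat.mul b i)) (msk b)

/-- the number with digits `f i`, `i < n`, in base `2 ^ b` -/
noncomputable def pk (b n : Nat) (f : Nat → Nat) : Nat :=
  @Nat.rec (fun _ => Nat) 0 (fun i ih => Nat.add ih (Nat.shiftLeft (f i) (Nat.mul b i))) n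

/-- `n` digits one in base `2 ^ b` -/
noncomputable def ones (b n : Nat) : Nat := Nat.div (msk (Nat.mul b n)) (msk b)

/-- the sum of the first `h` terms `U ^ j X / j!`, `U` given by the rows `tb` -/
noncomputable def zeta (tb : Nat → Bx) (h : Nat) (X : Nat → Nat) (c : Nat) : Nat :=
  (fun E : Nat → Nat → Nat => @Nat.rec (fun _ => Nat) 0 (fun j ih => Nat.add ih (E j c)) h)
    (@Nat.rec (fun _ => Nat → Nat) X
      (fun j ih c => Nat.div (@Bx.rec (fun _ => Nat) (fun f => f ih) (tb c)) (Nat.succ j)))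

/-- exchange the digits selected by `M` with the others, at distance `d` bits -/
noncomputable def sw (M d X : Nat) : Nat :=
  Nat.add (Nat.shiftLeft (Nat.land X M) d) (Nat.shiftRight (Nat.sub X (Nat.land X M)) d)

/-- exchange the digits selected by `M` and `M'`, keep the others -/
noncomputable def sw3 (M M' d X : Nat) : Nat :=
  Nat.add (Nat.sub (Nat.sub X (Nat.land X M)) (Nat.land X M'))
    (Nat.add (Nat.shiftLeft (Nat.land X M) d) (Nat.shiftRight (Nat.land X M') d))

/-- the mask of the slots `a ≤ i % p < a + l` among `n * p` slots of `W` bits -/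
noncomputable def pm (W p a l n : Nat) : Nat :=
  Nat.mul (Nat.shiftLeft (msk (Nat.mul W l)) (Nat.mul W a)) (ones (Nat.mul W p) n)

/-- reversal of blocks of `3 * 2 ^ r` slots (`n` blocks) -/
noncomputable def rev3 (W r n X : Nat) : Nat :=
  @Nat.rec (fun _ => Nat)
    (sw3 (pm W 3 0 1 (Nat.shiftLeft n r)) (pm W 3 2 1 (Nat.shiftLeft n r)) (Nat.mul W 2) X)
    (fun j ih => sw (pm W (Nat.shiftLeft 6 j) 0 (Nat.shiftLeft 3 j) (Nat.shiftLeft n (Nat.sub (Nat.sub r 1) j)))
      (Nat.mul W (Nat.shiftLeft 3 j)) ih) r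

/-- reversal of blocks of `2 ^ r` slots (`n` blocks) -/
noncomputable def rev1 (W r n X : Nat) : Nat :=
  @Nat.rec (fun _ => Nat) X
    (fun j ih => sw (pm W (Nat.shiftLeft 2 j) 0 (Nat.shiftLeft 1 j) (Nat.shiftLeft n (Nat.sub (Nat.sub r 1) j)))
      (Nat.mul W (Nat.shiftLeft 1 j)) ih) r

/-- reversal of blocks of `5 * 2 ^ r` slots (`n` blocks) -/
noncomputable def rev5 (W r n X : Nat) : Nat :=
  @Nat.rec (fun _ => Nat)
    (sw3 (pm W 5 0 1 (Nat.shiftLeft n r)) (pm W 5 4 1 (Nat.shiftLeft n r)) (Nat.mul W 4)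
      (sw3 (pm W 5 1 1 (Nat.shiftLeft n r)) (pm W 5 3 1 (Nat.shiftLeft n r)) (Nat.mul W 2) X))
    (fun j ih => sw (pm W (Nat.shiftLeft 10 j) 0 (Nat.shiftLeft 5 j) (Nat.shiftLeft n (Nat.sub (Nat.sub r 1) j)))
      (Nat.mul W (Nat.shiftLeft 5 j)) ih) r

/-- `a - b` is a number whose digits are cut out by the mask `M` -/
noncomputable def rng (a b M : Nat) : Bool :=
  @Bool.rec (fun _ => Bool) false (Nat.beq (Nat.land (Nat.sub a b) M) (Nat.sub a b)) (Nat.ble b a)

end Pool.Agent.MP_7c51ae_co
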