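import Pool.Agent.MP_7c51ae_co.NB

/-!
The tables of the abstract system as boxed forms, and the chunks of classes.
-/

set_option autoImplicit false
set_option maxRecDepth 100000

namespace Pool.Agent.MP_7c51ae_co

/-- a boxed form in three sequences -/
inductive B3 | mk (f : (Nat → Nat) → (Nat → Nat) → (Nat → Nat) → Nat)

noncomputable def B3.ap (b : B3) (X Q H : Nat → Nat) : Nat :=
  @B3.rec (fun _ => Nat) (fun f => f X Q H) b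

noncomputable def mixT : Tb Bx := (.nd (nat_lit 118) (.nd (nat_lit 59) (.nd (nat_lit 29) (.nd (nat_lit 14) (.nd (nat_lit 7) (.nd (nat_lit 3) (.nd (nat_lit 1) 
 (.lf (.mk fun X => (Nat.add (Nat.mul (nat_lit 4) (Nat.add (X (nat_lit 16)) (Nat.add (X (nat_lit 31)) (Nat.add (X (nat_lit 44)) (Nat.add (X (nat_lit 59)) (Nat.add (X (nat_lit 72)) (X (nat_lit 87)))))))) (Nat.mul (nat_lit 2036) (X (nat_lit 3)))))) (.nd (nat_lit 2) 
 (.lf (.mk fun X => (Nat.add (Nat.mul (nat_lit 8) (Nat.add (X (nat_lit 19)) (Nat.add (X (nat_lit 34)) (Nat.add (X (nat_lit 47)) (Nat.add (X (nat_lit 62)) (Nat.add (X (nat_lit 75)) (X (nat_lit 90)))))))) (Nat.mul (nat_lit 4072) (X (nat_lit 6)))))) 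
 (.lf (.mk fun X => (Nat.add (Nat.mul (nat_lit 2048) (X (nat_lit 12))) (Nat.mul (nat_lit 4096) (Nat.add (X (nat_lit 27)) (Nat.add (X (nat_lit 55)) (X (nat_lit 83)))))))))) (.nd (nat_lit 5) (.nd (nat_lit 4) 
 (.lf (.mk fun X => (Nat.add (Nat.mul (nat_lit 4096) (X (nat_lit 14))) (Nat.mul (nat_lit 8192) (Nat.add (X (nat_lit 29)) (Nat.add (X (nat_lit 57)) (X (nat_lit 85)))))))) 
 (.lf (.mk fun X => (Nat.mul (nat_lit 2036) (X (nat_lit 0)))))) (.nd (nat_lit 6) 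
 (.lf (.mk fun _ => nat_lit 0)) 
 (.lf (.mk fun X => (Nat.add (Nat.mul (nat_lit 4) (Nat.add (X (nat_lit 17)) (Nat.add (X (nat_lit 23)) (Nat.add (X (nat_lit 26)) (Nat.add (X (nat_lit 32)) (Nat.add (X (nat_lit 45)) (Nat.add (X (nat_lit 51)) (Nat.add (X (nat_lit 54)) (Nat.add (X (nat_lit 60)) (Nat.add (X (nat_lit 73)) (Nat.add (X (nat_lit 79)) (Nat.add (X (nat_lit 82)) (X (nat_lit 88)))))))))))))) (Nat.add (Nat.mul (nat_lit 8) (Nat.add (X (nat_lit 20)) (Nat.add (X (nat_lit 35)) (Nat.add (X (nat_lit 48)) (Nat.add (X (nat_lit 63)) (Nat.add (X (nat_lit 76)) (X (nat_lit 91)))))))) (Nat.add (Nat.mul (nat_lit 2036) (Nat.add (X (nat_lit 2)) (X (nat_lit 4)))) (Nat.mul (nat_lit 4072) (X (nat_lit 7))))))))))) (.nd (nat_lit 10) (.nd (nat_lit 8) 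
 (.lf (.mk fun X => (Nat.add (Nat.mul (nat_lit 8) (Nat.add (X (nat_lit 21)) (Nat.add (X (nat_lit 28)) (Nat.add (X (nat_lit 30)) (Nat.add (X (nat_lit 36)) (Nat.add (X (nat_lit 41)) (Nat.add (X (nat_lit 43)) (Nat.add (X (nat_lit 49)) (Nat.add (X (nat_lit 56)) (Nat.add (X (nat_lit 58)) (Nat.add (X (nat_lit 64)) (Nat.add (X (nat_lit 69)) (Nat.add (X (nat_lit 71)) (Nat.add (X (nat_lit 77)) (Nat.add (X (nat_lit 84)) (Nat.add (X (nat_lit 86)) (Nat.add (X (nat_lit 92)) (Nat.add (X (nat_lit 97)) (X (nat_lit 99)))))))))))))))))))) (Nat.mul (nat_lit 4072) (Nat.add (X (nat_lit 8)) (Nat.add (X (nat_lit 13)) (X (nat_lit 15)))))))) (.nd (nat_lit 9) 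
 (.lf (.mk fun _ => nat_lit 0)) 
 (.lf (.mk fun X => (Nat.mul (nat_lit 2036) (X (nat_lit 0))))))) (.nd (nat_lit 12) (.nd (nat_lit 11) 
 (.lf (.mk fun X => (Nat.mul (nat_lit 4) (Nat.add (X (nat_lit 16)) (Nat.add (X (nat_lit 31)) (Nat.add (X (nat_lit 44)) (Nat.add (X (nat_lit 59)) (Nat.add (X (nat_lit 72)) (X (nat_lit 87)))))))))) 
 (.lf (.mk fun X => (Nat.mul (nat_lit 8) (Nat.add (X (nat_lit 19)) (Nat.add (X (nat_lit 34)) (Nat.add (X (nat_lit 47)) (Nat.add (X (nat_lit 62)) (Nat.add (X (nat_lit 75)) (X (nat_lit 90))))))))))) (.nd (nat_lit 13) 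
 (.lf (.mk fun X => (Nat.add (Nat.mul (nat_lit 509) (X (nat_lit 0))) (Nat.mul (nat_lit 2036) (X (nat_lit 3)))))) 
 (.lf (.mk fun _ => nat_lit 0)))))) (.nd (nat_lit 21) (.nd (nat_lit 17) (.nd (nat_lit 15) 
 (.lf (.mk fun X => (Nat.mul (nat_lit 512) (X (nat_lit 1))))) (.nd (nat_lit 16) 
 (.lf (.mk fun _ => nat_lit 0)) 
 (.lf (.mk fun _ => nat_lit 0)))) (.nd (nat_lit 19) (.nd (nat_lit 18) 
 (.lf (.mk fun X => (Nat.add (Nat.mul (nat_lit 509) (X (nat_lit 0))) (Nat.mul (nat_lit 2036) (X (nat_lit 10)))))) 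
 (.lf (.mk fun X => (Nat.add (Nat.mul (nat_lit 509) (X (nat_lit 0))) (Nat.mul (nat_lit 2036) (X (nat_lit 10))))))) (.nd (nat_lit 20) 
 (.lf (.mk fun _ => nat_lit 0)) 
 (.lf (.mk fun _ => nat_lit 0))))) (.nd (nat_lit 25) (.nd (nat_lit 23) (.nd (nat_lit 22) 
 (.lf (.mk fun X => (Nat.mul (nat_lit 512) (X (nat_lit 1))))) 
 (.lf (.mk fun _ => nat_lit 0))) (.nd (nat_lit 24) 
 (.lf (.mk fun X => (Nat.add (Nat.mul (nat_lit 509) (X (nat_lit 0))) (Nat.mul (nat_lit 2036) (X (nat_lit 11)))))) 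
 (.lf (.mk fun X => (Nat.mul (nat_lit 509) (X (nat_lit 2))))))) (.nd (nat_lit 27) (.nd (nat_lit 26) 
 (.lf (.mk fun _ => nat_lit 0)) 
 (.lf (.mk fun X => (Nat.mul (nat_lit 2036) (X (nat_lit 4)))))) (.nd (nat_lit 28) 
 (.lf (.mk fun X => (Nat.mul (nat_lit 4072) (X (nat_lit 15))))) 
 (.lf (.mk fun _ => nat_lit 0))))))) (.nd (nat_lit 44) (.nd (nat_lit 36) (.nd (nat_lit 32) (.nd (nat_lit 30) 
 (.lf (.mk fun X => (Nat.mul (nat_lit 509) (X (nat_lit 2))))) (.nd (nat_lit 31) 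
 (.lf (.mk fun X => (Nat.add (Nat.mul (nat_lit 4) (Nat.add (X (nat_lit 17)) (Nat.add (X (nat_lit 23)) (Nat.add (X (nat_lit 26)) (Nat.add (X (nat_lit 32)) (Nat.add (X (nat_lit 45)) (Nat.add (X (nat_lit 51)) (Nat.add (X (nat_lit 54)) (Nat.add (X (nat_lit 60)) (Nat.add (X (nat_lit 73)) (Nat.add (X (nat_lit 79)) (Nat.add (X (nat_lit 82)) (X (nat_lit 88)))))))))))))) (Nat.mul (nat_lit 8) (Nat.add (X (nat_lit 20)) (Nat.add (X (nat_lit 35)) (Nat.add (X (nat_lit 48)) (Nat.add (X (nat_lit 63)) (Nat.add (X (nat_lit 76)) (X (nat_lit 91))))))))))) 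
 (.lf (.mk fun X => (Nat.mul (nat_lit 8) (Nat.add (X (nat_lit 21)) (Nat.add (X (nat_lit 28)) (Nat.add (X (nat_lit 30)) (Nat.add (X (nat_lit 36)) (Nat.add (X (nat_lit 41)) (Nat.add (X (nat_lit 43)) (Nat.add (X (nat_lit 49)) (Nat.add (X (nat_lit 56)) (Nat.add (X (nat_lit 58)) (Nat.add (X (nat_lit 64)) (Nat.add (X (nat_lit 69)) (Nat.add (X (nat_lit 71)) (Nat.add (X (nat_lit 77)) (Nat.add (X (nat_lit 84)) (Nat.add (X (nat_lit 86)) (Nat.add (X (nat_lit 92)) (Nat.add (X (nat_lit 97)) (X (nat_lit 99)))))))))))))))))))))))) (.nd (nat_lit 34) (.nd (nat_lit 33) 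
 (.lf (.mk fun X => (Nat.mul (nat_lit 2036) (X (nat_lit 7))))) 
 (.lf (.mk fun X => (Nat.mul (nat_lit 2036) (X (nat_lit 13)))))) (.nd (nat_lit 35) 
 (.lf (.mk fun _ => nat_lit 0)) 
 (.lf (.mk fun X => (Nat.mul (nat_lit 4072) (X (nat_lit 8)))))))) (.nd (nat_lit 40) (.nd (nat_lit 38) (.nd (nat_lit 37) 
 (.lf (.mk fun X => (Nat.add (Nat.mul (nat_lit 509) (X (nat_lit 0))) (Nat.mul (nat_lit 2036) (X (nat_lit 9)))))) 
 (.lf (.mk fun _ => nat_lit 0))) (.nd (nat_lit 39) 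
 (.lf (.mk fun X => (Nat.add (Nat.mul (nat_lit 509) (X (nat_lit 0))) (Nat.mul (nat_lit 2036) (X (nat_lit 11)))))) 
 (.lf (.mk fun _ => nat_lit 0)))) (.nd (nat_lit 42) (.nd (nat_lit 41) 
 (.lf (.mk fun _ => nat_lit 0)) 
 (.lf (.mk fun X => (Nat.add (Nat.mul (nat_lit 509) (X (nat_lit 0))) (Nat.mul (nat_lit 2036) (X (nat_lit 3))))))) (.nd (nat_lit 43) 
 (.lf (.mk fun X => (Nat.add (Nat.mul (nat_lit 4) (Nat.add (X (nat_lit 44)) (Nat.add (X (nat_lit 59)) (Nat.add (X (nat_lit 72)) (X (nat_lit 87)))))) (Nat.mul (nat_lit 2036) (X (nat_lit 31)))))) 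
 (.lf (.mk fun X => (Nat.add (Nat.mul (nat_lit 8) (Nat.add (X (nat_lit 47)) (Nat.add (X (nat_lit 62)) (Nat.add (X (nat_lit 75)) (X (nat_lit 90)))))) (Nat.mul (nat_lit 4072) (X (nat_lit 34)))))))))) (.nd (nat_lit 51) (.nd (nat_lit 47) (.nd (nat_lit 45) 
 (.lf (.mk fun X => (Nat.add (Nat.mul (nat_lit 2048) (X (nat_lit 40))) (Nat.mul (nat_lit 4096) (Nat.add (X (nat_lit 55)) (X (nat_lit 83))))))) (.nd (nat_lit 46) 
 (.lf (.mk fun X => (Nat.add (Nat.mul (nat_lit 4096) (X (nat_lit 42))) (Nat.mul (nat_lit 8192) (Nat.add (X (nat_lit 57)) (X (nat_lit 85))))))) 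
 (.lf (.mk fun X => (Nat.add (X (nat_lit 0)) (Nat.add (Nat.mul (nat_lit 4) (X (nat_lit 9))) (Nat.mul (nat_lit 2036) (X (nat_lit 16))))))))) (.nd (nat_lit 49) (.nd (nat_lit 48) 
 (.lf (.mk fun _ => nat_lit 0)) 
 (.lf (.mk fun X => (Nat.mul (nat_lit 1024) (X (nat_lit 1)))))) (.nd (nat_lit 50) 
 (.lf (.mk fun _ => nat_lit 0)) 
 (.lf (.mk fun _ => nat_lit 0))))) (.nd (nat_lit 55) (.nd (nat_lit 53) (.nd (nat_lit 52) 
 (.lf (.mk fun X => (Nat.add (X (nat_lit 0)) (Nat.add (Nat.mul (nat_lit 4) (X (nat_lit 9))) (Nat.mul (nat_lit 2036) (X (nat_lit 24))))))) 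
 (.lf (.mk fun X => (Nat.add (X (nat_lit 0)) (Nat.add (Nat.mul (nat_lit 4) (X (nat_lit 9))) (Nat.mul (nat_lit 2036) (X (nat_lit 24)))))))) (.nd (nat_lit 54) 
 (.lf (.mk fun _ => nat_lit 0)) 
 (.lf (.mk fun _ => nat_lit 0)))) (.nd (nat_lit 57) (.nd (nat_lit 56) 
 (.lf (.mk fun X => (Nat.mul (nat_lit 1024) (X (nat_lit 1))))) 
 (.lf (.mk fun _ => nat_lit 0))) (.nd (nat_lit 58) 
 (.lf (.mk fun X => (Nat.add (X (nat_lit 0)) (Nat.add (Nat.mul (nat_lit 4) (X (nat_lit 9))) (Nat.mul (nat_lit 2036) (X (nat_lit 25))))))) 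
 (.lf (.mk fun X => (Nat.add (X (nat_lit 2)) (Nat.add (Nat.mul (nat_lit 4) (X (nat_lit 4))) (Nat.mul (nat_lit 8) (X (nat_lit 15))))))))))))) (.nd (nat_lit 88) (.nd (nat_lit 73) (.nd (nat_lit 66) (.nd (nat_lit 62) (.nd (nat_lit 60) 
 (.lf (.mk fun _ => nat_lit 0)) (.nd (nat_lit 61) 
 (.lf (.mk fun X => (Nat.mul (nat_lit 2036) (X (nat_lit 17))))) 
 (.lf (.mk fun X => (Nat.mul (nat_lit 4072) (X (nat_lit 30))))))) (.nd (nat_lit 64) (.nd (nat_lit 63) 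
 (.lf (.mk fun _ => nat_lit 0)) 
 (.lf (.mk fun X => (Nat.add (X (nat_lit 2)) (Nat.add (Nat.mul (nat_lit 4) (X (nat_lit 4))) (Nat.mul (nat_lit 8) (X (nat_lit 15)))))))) (.nd (nat_lit 65) 
 (.lf (.mk fun X => (Nat.add (Nat.mul (nat_lit 4) (Nat.add (X (nat_lit 45)) (Nat.add (X (nat_lit 51)) (Nat.add (X (nat_lit 54)) (Nat.add (X (nat_lit 60)) (Nat.add (X (nat_lit 73)) (Nat.add (X (nat_lit 79)) (Nat.add (X (nat_lit 82)) (X (nat_lit 88)))))))))) (Nat.add (Nat.mul (nat_lit 8) (Nat.add (X (nat_lit 48)) (Nat.add (X (nat_lit 63)) (Nat.add (X (nat_lit 76)) (X (nat_lit 91)))))) (Nat.add (Nat.mul (nat_lit 2036) (Nat.add (X (nat_lit 23)) (X (nat_lit 32)))) (Nat.mul (nat_lit 4072) (X (nat_lit 35)))))))) 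
 (.lf (.mk fun X => (Nat.add (Nat.mul (nat_lit 8) (Nat.add (X (nat_lit 49)) (Nat.add (X (nat_lit 56)) (Nat.add (X (nat_lit 58)) (Nat.add (X (nat_lit 64)) (Nat.add (X (nat_lit 69)) (Nat.add (X (nat_lit 71)) (Nat.add (X (nat_lit 77)) (Nat.add (X (nat_lit 84)) (Nat.add (X (nat_lit 86)) (Nat.add (X (nat_lit 92)) (Nat.add (X (nat_lit 97)) (X (nat_lit 99)))))))))))))) (Nat.mul (nat_lit 4072) (Nat.add (X (nat_lit 36)) (Nat.add (X (nat_lit 41)) (X (nat_lit 43))))))))))) (.nd (nat_lit 69) (.nd (nat_lit 67) 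
 (.lf (.mk fun X => (Nat.mul (nat_lit 2036) (X (nat_lit 20))))) (.nd (nat_lit 68) 
 (.lf (.mk fun X => (Nat.mul (nat_lit 2036) (X (nat_lit 28))))) 
 (.lf (.mk fun X => (Nat.mul (nat_lit 2036) (X (nat_lit 26))))))) (.nd (nat_lit 71) (.nd (nat_lit 70) 
 (.lf (.mk fun X => (Nat.mul (nat_lit 4072) (X (nat_lit 21))))) 
 (.lf (.mk fun X => (Nat.add (X (nat_lit 0)) (Nat.add (Nat.mul (nat_lit 4) (X (nat_lit 9))) (Nat.mul (nat_lit 2036) (X (nat_lit 22)))))))) (.nd (nat_lit 72) 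
 (.lf (.mk fun _ => nat_lit 0)) 
 (.lf (.mk fun X => (Nat.add (X (nat_lit 0)) (Nat.add (Nat.mul (nat_lit 4) (X (nat_lit 9))) (Nat.mul (nat_lit 2036) (X (nat_lit 25))))))))))) (.nd (nat_lit 80) (.nd (nat_lit 76) (.nd (nat_lit 74) 
 (.lf (.mk fun _ => nat_lit 0)) (.nd (nat_lit 75) 
 (.lf (.mk fun _ => nat_lit 0)) 
 (.lf (.mk fun X => (Nat.add (X (nat_lit 0)) (Nat.add (Nat.mul (nat_lit 4) (X (nat_lit 9))) (Nat.mul (nat_lit 2036) (X (nat_lit 16))))))))) (.nd (nat_lit 78) (.nd (nat_lit 77) 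
 (.lf (.mk fun X => (Nat.mul (nat_lit 4) (Nat.add (X (nat_lit 44)) (Nat.add (X (nat_lit 59)) (Nat.add (X (nat_lit 72)) (X (nat_lit 87)))))))) 
 (.lf (.mk fun X => (Nat.mul (nat_lit 8) (Nat.add (X (nat_lit 47)) (Nat.add (X (nat_lit 62)) (Nat.add (X (nat_lit 75)) (X (nat_lit 90))))))))) (.nd (nat_lit 79) 
 (.lf (.mk fun X => (Nat.add (X (nat_lit 0)) (Nat.add (Nat.mul (nat_lit 4) (X (nat_lit 9))) (Nat.mul (nat_lit 2036) (Nat.add (X (nat_lit 22)) (X (nat_lit 31)))))))) 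
 (.lf (.mk fun _ => nat_lit 0))))) (.nd (nat_lit 84) (.nd (nat_lit 82) (.nd (nat_lit 81) 
 (.lf (.mk fun X => (Nat.mul (nat_lit 2048) (X (nat_lit 18))))) 
 (.lf (.mk fun _ => nat_lit 0))) (.nd (nat_lit 83) 
 (.lf (.mk fun _ => nat_lit 0)) 
 (.lf (.mk fun X => (Nat.add (X (nat_lit 0)) (Nat.add (Nat.mul (nat_lit 4) (X (nat_lit 9))) (Nat.mul (nat_lit 2036) (Nat.add (X (nat_lit 22)) (X (nat_lit 38)))))))))) (.nd (nat_lit 86) (.nd (nat_lit 85) 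
 (.lf (.mk fun X => (Nat.add (X (nat_lit 0)) (Nat.add (Nat.mul (nat_lit 4) (X (nat_lit 9))) (Nat.mul (nat_lit 2036) (Nat.add (X (nat_lit 22)) (X (nat_lit 38)))))))) 
 (.lf (.mk fun _ => nat_lit 0))) (.nd (nat_lit 87) 
 (.lf (.mk fun _ => nat_lit 0)) 
 (.lf (.mk fun X => (Nat.mul (nat_lit 2048) (X (nat_lit 18)))))))))) (.nd (nat_lit 103) (.nd (nat_lit 95) (.nd (nat_lit 91) (.nd (nat_lit 89) 
 (.lf (.mk fun _ => nat_lit 0)) (.nd (nat_lit 90) 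
 (.lf (.mk fun X => (Nat.add (X (nat_lit 0)) (Nat.add (Nat.mul (nat_lit 4) (X (nat_lit 9))) (Nat.mul (nat_lit 2036) (Nat.add (X (nat_lit 22)) (X (nat_lit 39)))))))) 
 (.lf (.mk fun X => (Nat.add (X (nat_lit 2)) (Nat.add (Nat.mul (nat_lit 4) (X (nat_lit 4))) (Nat.add (Nat.mul (nat_lit 8) (X (nat_lit 15))) (Nat.add (Nat.mul (nat_lit 509) (X (nat_lit 23))) (Nat.add (Nat.mul (nat_lit 2036) (X (nat_lit 17))) (Nat.mul (nat_lit 4072) (X (nat_lit 30)))))))))))) (.nd (nat_lit 93) (.nd (nat_lit 92) 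
 (.lf (.mk fun _ => nat_lit 0)) 
 (.lf (.mk fun X => (Nat.mul (nat_lit 2036) (X (nat_lit 32)))))) (.nd (nat_lit 94) 
 (.lf (.mk fun X => (Nat.mul (nat_lit 4072) (X (nat_lit 43))))) 
 (.lf (.mk fun _ => nat_lit 0))))) (.nd (nat_lit 99) (.nd (nat_lit 97) (.nd (nat_lit 96) 
 (.lf (.mk fun X => (Nat.add (X (nat_lit 2)) (Nat.add (Nat.mul (nat_lit 4) (X (nat_lit 4))) (Nat.add (Nat.mul (nat_lit 8) (X (nat_lit 15))) (Nat.add (Nat.mul (nat_lit 509) (X (nat_lit 23))) (Nat.add (Nat.mul (nat_lit 2036) (X (nat_lit 17))) (Nat.mul (nat_lit 4072) (X (nat_lit 30)))))))))) 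
 (.lf (.mk fun X => (Nat.add (Nat.mul (nat_lit 4) (Nat.add (X (nat_lit 45)) (Nat.add (X (nat_lit 51)) (Nat.add (X (nat_lit 54)) (Nat.add (X (nat_lit 60)) (Nat.add (X (nat_lit 73)) (Nat.add (X (nat_lit 79)) (Nat.add (X (nat_lit 82)) (X (nat_lit 88)))))))))) (Nat.mul (nat_lit 8) (Nat.add (X (nat_lit 48)) (Nat.add (X (nat_lit 63)) (Nat.add (X (nat_lit 76)) (X (nat_lit 91)))))))))) (.nd (nat_lit 98) 
 (.lf (.mk fun X => (Nat.mul (nat_lit 8) (Nat.add (X (nat_lit 49)) (Nat.add (X (nat_lit 56)) (Nat.add (X (nat_lit 58)) (Nat.add (X (nat_lit 64)) (Nat.add (X (nat_lit 69)) (Nat.add (X (nat_lit 71)) (Nat.add (X (nat_lit 77)) (Nat.add (X (nat_lit 84)) (Nat.add (X (nat_lit 86)) (Nat.add (X (nat_lit 92)) (Nat.add (X (nat_lit 97)) (X (nat_lit 99)))))))))))))))) 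
 (.lf (.mk fun X => (Nat.mul (nat_lit 2036) (X (nat_lit 35))))))) (.nd (nat_lit 101) (.nd (nat_lit 100) 
 (.lf (.mk fun X => (Nat.mul (nat_lit 2036) (X (nat_lit 41))))) 
 (.lf (.mk fun _ => nat_lit 0))) (.nd (nat_lit 102) 
 (.lf (.mk fun X => (Nat.mul (nat_lit 4072) (X (nat_lit 36))))) 
 (.lf (.mk fun X => (Nat.add (X (nat_lit 0)) (Nat.add (Nat.mul (nat_lit 4) (X (nat_lit 9))) (Nat.mul (nat_lit 2036) (Nat.add (X (nat_lit 22)) (X (nat_lit 37)))))))))))) (.nd (nat_lit 110) (.nd (nat_lit 106) (.nd (nat_lit 104) 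
 (.lf (.mk fun _ => nat_lit 0)) (.nd (nat_lit 105) 
 (.lf (.mk fun X => (Nat.add (X (nat_lit 0)) (Nat.add (Nat.mul (nat_lit 4) (X (nat_lit 9))) (Nat.mul (nat_lit 2036) (Nat.add (X (nat_lit 22)) (X (nat_lit 39)))))))) 
 (.lf (.mk fun _ => nat_lit 0)))) (.nd (nat_lit 108) (.nd (nat_lit 107) 
 (.lf (.mk fun _ => nat_lit 0)) 
 (.lf (.mk fun X => (Nat.add (X (nat_lit 0)) (Nat.add (Nat.mul (nat_lit 4) (X (nat_lit 9))) (Nat.mul (nat_lit 2036) (Nat.add (X (nat_lit 22)) (X (nat_lit 31))))))))) (.nd (nat_lit 109) 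
 (.lf (.mk fun X => (Nat.add (Nat.mul (nat_lit 4) (Nat.add (X (nat_lit 72)) (X (nat_lit 87)))) (Nat.mul (nat_lit 2036) (X (nat_lit 59)))))) 
 (.lf (.mk fun X => (Nat.add (Nat.mul (nat_lit 8) (Nat.add (X (nat_lit 75)) (X (nat_lit 90)))) (Nat.mul (nat_lit 4072) (X (nat_lit 62))))))))) (.nd (nat_lit 114) (.nd (nat_lit 112) (.nd (nat_lit 111) 
 (.lf (.mk fun X => (Nat.add (Nat.mul (nat_lit 2048) (X (nat_lit 68))) (Nat.mul (nat_lit 4096) (X (nat_lit 83)))))) 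
 (.lf (.mk fun X => (Nat.add (Nat.mul (nat_lit 4096) (X (nat_lit 70))) (Nat.mul (nat_lit 8192) (X (nat_lit 85))))))) (.nd (nat_lit 113) 
 (.lf (.mk fun X => (Nat.add (X (nat_lit 0)) (Nat.add (Nat.mul (nat_lit 4) (Nat.add (X (nat_lit 9)) (Nat.add (X (nat_lit 22)) (X (nat_lit 37))))) (Nat.mul (nat_lit 2036) (X (nat_lit 44))))))) 
 (.lf (.mk fun _ => nat_lit 0)))) (.nd (nat_lit 116) (.nd (nat_lit 115) 
 (.lf (.mk fun X => (Nat.add (Nat.mul (nat_lit 1024) (X (nat_lit 1))) (Nat.mul (nat_lit 4096) (X (nat_lit 18)))))) 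
 (.lf (.mk fun _ => nat_lit 0))) (.nd (nat_lit 117) 
 (.lf (.mk fun _ => nat_lit 0)) 
 (.lf (.mk fun X => (Nat.add (X (nat_lit 0)) (Nat.add (Nat.mul (nat_lit 4) (Nat.add (X (nat_lit 9)) (Nat.add (X (nat_lit 22)) (X (nat_lit 37))))) (Nat.mul (nat_lit 2036) (X (nat_lit 52)))))))))))))) (.nd (nat_lit 177) (.nd (nat_lit 147) (.nd (nat_lit 132) (.nd (nat_lit 125) (.nd (nat_lit 121) (.nd (nat_lit 119) 
 (.lf (.mk fun X => (Nat.add (X (nat_lit 0)) (Nat.add (Nat.mul (nat_lit 4) (Nat.add (X (nat_lit 9)) (Nat.add (X (nat_lit 22)) (X (nat_lit 37))))) (Nat.mul (nat_lit 2036) (X (nat_lit 52))))))) (.nd (nat_lit 120) 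
 (.lf (.mk fun _ => nat_lit 0)) 
 (.lf (.mk fun _ => nat_lit 0)))) (.nd (nat_lit 123) (.nd (nat_lit 122) 
 (.lf (.mk fun X => (Nat.add (Nat.mul (nat_lit 1024) (X (nat_lit 1))) (Nat.mul (nat_lit 4096) (X (nat_lit 18)))))) 
 (.lf (.mk fun _ => nat_lit 0))) (.nd (nat_lit 124) 
 (.lf (.mk fun X => (Nat.add (X (nat_lit 0)) (Nat.add (Nat.mul (nat_lit 4) (Nat.add (X (nat_lit 9)) (Nat.add (X (nat_lit 22)) (X (nat_lit 37))))) (Nat.mul (nat_lit 2036) (X (nat_lit 53))))))) 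
 (.lf (.mk fun X => (Nat.add (Nat.add (X (nat_lit 2)) (X (nat_lit 23))) (Nat.add (Nat.mul (nat_lit 4) (Nat.add (X (nat_lit 4)) (Nat.add (X (nat_lit 17)) (X (nat_lit 32))))) (Nat.mul (nat_lit 8) (Nat.add (X (nat_lit 15)) (Nat.add (X (nat_lit 30)) (X (nat_lit 43)))))))))))) (.nd (nat_lit 128) (.nd (nat_lit 126) 
 (.lf (.mk fun _ => nat_lit 0)) (.nd (nat_lit 127) 
 (.lf (.mk fun X => (Nat.mul (nat_lit 2036) (X (nat_lit 45))))) 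
 (.lf (.mk fun X => (Nat.mul (nat_lit 4072) (X (nat_lit 58))))))) (.nd (nat_lit 130) (.nd (nat_lit 129) 
 (.lf (.mk fun _ => nat_lit 0)) 
 (.lf (.mk fun X => (Nat.add (Nat.add (X (nat_lit 2)) (X (nat_lit 23))) (Nat.add (Nat.mul (nat_lit 4) (Nat.add (X (nat_lit 4)) (Nat.add (X (nat_lit 17)) (X (nat_lit 32))))) (Nat.mul (nat_lit 8) (Nat.add (X (nat_lit 15)) (Nat.add (X (nat_lit 30)) (X (nat_lit 43)))))))))) (.nd (nat_lit 131) 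
 (.lf (.mk fun X => (Nat.add (Nat.mul (nat_lit 4) (Nat.add (X (nat_lit 73)) (Nat.add (X (nat_lit 79)) (Nat.add (X (nat_lit 82)) (X (nat_lit 88)))))) (Nat.add (Nat.mul (nat_lit 8) (Nat.add (X (nat_lit 76)) (X (nat_lit 91)))) (Nat.add (Nat.mul (nat_lit 2036) (Nat.add (X (nat_lit 51)) (X (nat_lit 60)))) (Nat.mul (nat_lit 4072) (X (nat_lit 63)))))))) 
 (.lf (.mk fun X => (Nat.add (Nat.mul (nat_lit 8) (Nat.add (X (nat_lit 77)) (Nat.add (X (nat_lit 84)) (Nat.add (X (nat_lit 86)) (Nat.add (X (nat_lit 92)) (Nat.add (X (nat_lit 97)) (X (nat_lit 99)))))))) (Nat.mul (nat_lit 4072) (Nat.add (X (nat_lit 64)) (Nat.add (X (nat_lit 69)) (X (nat_lit 71)))))))))))) (.nd (nat_lit 139) (.nd (nat_lit 135) (.nd (nat_lit 133) 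
 (.lf (.mk fun X => (Nat.mul (nat_lit 2036) (X (nat_lit 48))))) (.nd (nat_lit 134) 
 (.lf (.mk fun X => (Nat.mul (nat_lit 2036) (X (nat_lit 56))))) 
 (.lf (.mk fun X => (Nat.mul (nat_lit 2036) (X (nat_lit 54))))))) (.nd (nat_lit 137) (.nd (nat_lit 136) 
 (.lf (.mk fun X => (Nat.mul (nat_lit 4072) (X (nat_lit 49))))) 
 (.lf (.mk fun X => (Nat.add (X (nat_lit 0)) (Nat.add (Nat.mul (nat_lit 4) (Nat.add (X (nat_lit 9)) (Nat.add (X (nat_lit 22)) (X (nat_lit 37))))) (Nat.mul (nat_lit 2036) (X (nat_lit 50)))))))) (.nd (nat_lit 138) 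
 (.lf (.mk fun _ => nat_lit 0)) 
 (.lf (.mk fun X => (Nat.add (X (nat_lit 0)) (Nat.add (Nat.mul (nat_lit 4) (Nat.add (X (nat_lit 9)) (Nat.add (X (nat_lit 22)) (X (nat_lit 37))))) (Nat.mul (nat_lit 2036) (X (nat_lit 53)))))))))) (.nd (nat_lit 143) (.nd (nat_lit 141) (.nd (nat_lit 140) 
 (.lf (.mk fun _ => nat_lit 0)) 
 (.lf (.mk fun _ => nat_lit 0))) (.nd (nat_lit 142) 
 (.lf (.mk fun X => (Nat.add (X (nat_lit 0)) (Nat.add (Nat.mul (nat_lit 4) (Nat.add (X (nat_lit 9)) (Nat.add (X (nat_lit 22)) (X (nat_lit 37))))) (Nat.mul (nat_lit 2036) (X (nat_lit 44))))))) 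
 (.lf (.mk fun X => (Nat.mul (nat_lit 4) (Nat.add (X (nat_lit 72)) (X (nat_lit 87)))))))) (.nd (nat_lit 145) (.nd (nat_lit 144) 
 (.lf (.mk fun X => (Nat.mul (nat_lit 8) (Nat.add (X (nat_lit 75)) (X (nat_lit 90)))))) 
 (.lf (.mk fun X => (Nat.add (X (nat_lit 0)) (Nat.add (Nat.mul (nat_lit 4) (Nat.add (X (nat_lit 9)) (Nat.add (X (nat_lit 22)) (X (nat_lit 37))))) (Nat.mul (nat_lit 2036) (Nat.add (X (nat_lit 50)) (X (nat_lit 59))))))))) (.nd (nat_lit 146) 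
 (.lf (.mk fun _ => nat_lit 0)) 
 (.lf (.mk fun X => (Nat.mul (nat_lit 2048) (X (nat_lit 46)))))))))) (.nd (nat_lit 162) (.nd (nat_lit 154) (.nd (nat_lit 150) (.nd (nat_lit 148) 
 (.lf (.mk fun _ => nat_lit 0)) (.nd (nat_lit 149) 
 (.lf (.mk fun _ => nat_lit 0)) 
 (.lf (.mk fun X => (Nat.add (X (nat_lit 0)) (Nat.add (Nat.mul (nat_lit 4) (Nat.add (X (nat_lit 9)) (Nat.add (X (nat_lit 22)) (X (nat_lit 37))))) (Nat.mul (nat_lit 2036) (Nat.add (X (nat_lit 50)) (X (nat_lit 66)))))))))) (.nd (nat_lit 152) (.nd (nat_lit 151) 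
 (.lf (.mk fun X => (Nat.add (X (nat_lit 0)) (Nat.add (Nat.mul (nat_lit 4) (Nat.add (X (nat_lit 9)) (Nat.add (X (nat_lit 22)) (X (nat_lit 37))))) (Nat.mul (nat_lit 2036) (Nat.add (X (nat_lit 50)) (X (nat_lit 66)))))))) 
 (.lf (.mk fun _ => nat_lit 0))) (.nd (nat_lit 153) 
 (.lf (.mk fun _ => nat_lit 0)) 
 (.lf (.mk fun X => (Nat.mul (nat_lit 2048) (X (nat_lit 46)))))))) (.nd (nat_lit 158) (.nd (nat_lit 156) (.nd (nat_lit 155) 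
 (.lf (.mk fun _ => nat_lit 0)) 
 (.lf (.mk fun X => (Nat.add (X (nat_lit 0)) (Nat.add (Nat.mul (nat_lit 4) (Nat.add (X (nat_lit 9)) (Nat.add (X (nat_lit 22)) (X (nat_lit 37))))) (Nat.mul (nat_lit 2036) (Nat.add (X (nat_lit 50)) (X (nat_lit 67))))))))) (.nd (nat_lit 157) 
 (.lf (.mk fun X => (Nat.add (Nat.add (X (nat_lit 2)) (X (nat_lit 23))) (Nat.add (Nat.mul (nat_lit 4) (Nat.add (X (nat_lit 4)) (Nat.add (X (nat_lit 17)) (X (nat_lit 32))))) (Nat.add (Nat.mul (nat_lit 8) (Nat.add (X (nat_lit 15)) (Nat.add (X (nat_lit 30)) (X (nat_lit 43))))) (Nat.add (Nat.mul (nat_lit 509) (X (nat_lit 51))) (Nat.add (Nat.mul (nat_lit 2036) (X (nat_lit 45))) (Nat.mul (nat_lit 4072) (X (nat_lit 58)))))))))) 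
 (.lf (.mk fun _ => nat_lit 0)))) (.nd (nat_lit 160) (.nd (nat_lit 159) 
 (.lf (.mk fun X => (Nat.mul (nat_lit 2036) (X (nat_lit 60))))) 
 (.lf (.mk fun X => (Nat.mul (nat_lit 4072) (X (nat_lit 71)))))) (.nd (nat_lit 161) 
 (.lf (.mk fun _ => nat_lit 0)) 
 (.lf (.mk fun X => (Nat.add (Nat.add (X (nat_lit 2)) (X (nat_lit 23))) (Nat.add (Nat.mul (nat_lit 4) (Nat.add (X (nat_lit 4)) (Nat.add (X (nat_lit 17)) (X (nat_lit 32))))) (Nat.add (Nat.mul (nat_lit 8) (Nat.add (X (nat_lit 15)) (Nat.add (X (nat_lit 30)) (X (nat_lit 43))))) (Nat.add (Nat.mul (nat_lit 509) (X (nat_lit 51))) (Nat.add (Nat.mul (nat_lit 2036) (X (nat_lit 45))) (Nat.mul (nat_lit 4072) (X (nat_lit 58)))))))))))))) (.nd (nat_lit 169) (.nd (nat_lit 165) (.nd (nat_lit 163) 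
 (.lf (.mk fun X => (Nat.add (Nat.mul (nat_lit 4) (Nat.add (X (nat_lit 73)) (Nat.add (X (nat_lit 79)) (Nat.add (X (nat_lit 82)) (X (nat_lit 88)))))) (Nat.mul (nat_lit 8) (Nat.add (X (nat_lit 76)) (X (nat_lit 91))))))) (.nd (nat_lit 164) 
 (.lf (.mk fun X => (Nat.mul (nat_lit 8) (Nat.add (X (nat_lit 77)) (Nat.add (X (nat_lit 84)) (Nat.add (X (nat_lit 86)) (Nat.add (X (nat_lit 92)) (Nat.add (X (nat_lit 97)) (X (nat_lit 99)))))))))) 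
 (.lf (.mk fun X => (Nat.mul (nat_lit 2036) (X (nat_lit 63))))))) (.nd (nat_lit 167) (.nd (nat_lit 166) 
 (.lf (.mk fun X => (Nat.mul (nat_lit 2036) (X (nat_lit 69))))) 
 (.lf (.mk fun _ => nat_lit 0))) (.nd (nat_lit 168) 
 (.lf (.mk fun X => (Nat.mul (nat_lit 4072) (X (nat_lit 64))))) 
 (.lf (.mk fun X => (Nat.add (X (nat_lit 0)) (Nat.add (Nat.mul (nat_lit 4) (Nat.add (X (nat_lit 9)) (Nat.add (X (nat_lit 22)) (X (nat_lit 37))))) (Nat.mul (nat_lit 2036) (Nat.add (X (nat_lit 50)) (X (nat_lit 65))))))))))) (.nd (nat_lit 173) (.nd (nat_lit 171) (.nd (nat_lit 170) 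
 (.lf (.mk fun _ => nat_lit 0)) 
 (.lf (.mk fun X => (Nat.add (X (nat_lit 0)) (Nat.add (Nat.mul (nat_lit 4) (Nat.add (X (nat_lit 9)) (Nat.add (X (nat_lit 22)) (X (nat_lit 37))))) (Nat.mul (nat_lit 2036) (Nat.add (X (nat_lit 50)) (X (nat_lit 67))))))))) (.nd (nat_lit 172) 
 (.lf (.mk fun _ => nat_lit 0)) 
 (.lf (.mk fun _ => nat_lit 0)))) (.nd (nat_lit 175) (.nd (nat_lit 174) 
 (.lf (.mk fun X => (Nat.add (X (nat_lit 0)) (Nat.add (Nat.mul (nat_lit 4) (Nat.add (X (nat_lit 9)) (Nat.add (X (nat_lit 22)) (X (nat_lit 37))))) (Nat.mul (nat_lit 2036) (Nat.add (X (nat_lit 50)) (X (nat_lit 59)))))))) 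
 (.lf (.mk fun X => (Nat.mul (nat_lit 2036) (X (nat_lit 87)))))) (.nd (nat_lit 176) 
 (.lf (.mk fun X => (Nat.mul (nat_lit 4072) (X (nat_lit 90))))) 
 (.lf (.mk fun X => (Nat.mul (nat_lit 2048) (X (nat_lit 96))))))))))) (.nd (nat_lit 206) (.nd (nat_lit 191) (.nd (nat_lit 184) (.nd (nat_lit 180) (.nd (nat_lit 178) 
 (.lf (.mk fun X => (Nat.mul (nat_lit 4096) (X (nat_lit 98))))) (.nd (nat_lit 179) 
 (.lf (.mk fun X => (Nat.add (X (nat_lit 0)) (Nat.add (Nat.mul (nat_lit 4) (Nat.add (X (nat_lit 9)) (Nat.add (X (nat_lit 22)) (Nat.add (X (nat_lit 37)) (Nat.add (X (nat_lit 50)) (X (nat_lit 65))))))) (Nat.mul (nat_lit 2036) (X (nat_lit 72))))))) 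
 (.lf (.mk fun _ => nat_lit 0)))) (.nd (nat_lit 182) (.nd (nat_lit 181) 
 (.lf (.mk fun X => (Nat.add (Nat.mul (nat_lit 1024) (X (nat_lit 1))) (Nat.mul (nat_lit 4096) (Nat.add (X (nat_lit 18)) (X (nat_lit 46))))))) 
 (.lf (.mk fun _ => nat_lit 0))) (.nd (nat_lit 183) 
 (.lf (.mk fun _ => nat_lit 0)) 
 (.lf (.mk fun X => (Nat.add (X (nat_lit 0)) (Nat.add (Nat.mul (nat_lit 4) (Nat.add (X (nat_lit 9)) (Nat.add (X (nat_lit 22)) (Nat.add (X (nat_lit 37)) (Nat.add (X (nat_lit 50)) (X (nat_lit 65))))))) (Nat.mul (nat_lit 2036) (X (nat_lit 80)))))))))) (.nd (nat_lit 187) (.nd (nat_lit 185) 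
 (.lf (.mk fun X => (Nat.add (X (nat_lit 0)) (Nat.add (Nat.mul (nat_lit 4) (Nat.add (X (nat_lit 9)) (Nat.add (X (nat_lit 22)) (Nat.add (X (nat_lit 37)) (Nat.add (X (nat_lit 50)) (X (nat_lit 65))))))) (Nat.mul (nat_lit 2036) (X (nat_lit 80))))))) (.nd (nat_lit 186) 
 (.lf (.mk fun _ => nat_lit 0)) 
 (.lf (.mk fun _ => nat_lit 0)))) (.nd (nat_lit 189) (.nd (nat_lit 188) 
 (.lf (.mk fun X => (Nat.add (Nat.mul (nat_lit 1024) (X (nat_lit 1))) (Nat.mul (nat_lit 4096) (Nat.add (X (nat_lit 18)) (X (nat_lit 46))))))) 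
 (.lf (.mk fun _ => nat_lit 0))) (.nd (nat_lit 190) 
 (.lf (.mk fun X => (Nat.add (X (nat_lit 0)) (Nat.add (Nat.mul (nat_lit 4) (Nat.add (X (nat_lit 9)) (Nat.add (X (nat_lit 22)) (Nat.add (X (nat_lit 37)) (Nat.add (X (nat_lit 50)) (X (nat_lit 65))))))) (Nat.mul (nat_lit 2036) (X (nat_lit 81))))))) 
 (.lf (.mk fun X => (Nat.add (Nat.add (X (nat_lit 2)) (Nat.add (X (nat_lit 23)) (X (nat_lit 51)))) (Nat.add (Nat.mul (nat_lit 4) (Nat.add (X (nat_lit 4)) (Nat.add (X (nat_lit 17)) (Nat.add (X (nat_lit 32)) (Nat.add (X (nat_lit 45)) (X (nat_lit 60))))))) (Nat.mul (nat_lit 8) (Nat.add (X (nat_lit 15)) (Nat.add (X (nat_lit 30)) (Nat.add (X (nat_lit 43)) (Nat.add (X (nat_lit 58)) (X (nat_lit 71))))))))))))))) (.nd (nat_lit 198) (.nd (nat_lit 194) (.nd (nat_lit 192) 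
 (.lf (.mk fun _ => nat_lit 0)) (.nd (nat_lit 193) 
 (.lf (.mk fun X => (Nat.mul (nat_lit 2036) (X (nat_lit 73))))) 
 (.lf (.mk fun X => (Nat.mul (nat_lit 4072) (X (nat_lit 86))))))) (.nd (nat_lit 196) (.nd (nat_lit 195) 
 (.lf (.mk fun _ => nat_lit 0)) 
 (.lf (.mk fun X => (Nat.add (Nat.add (X (nat_lit 2)) (Nat.add (X (nat_lit 23)) (X (nat_lit 51)))) (Nat.add (Nat.mul (nat_lit 4) (Nat.add (X (nat_lit 4)) (Nat.add (X (nat_lit 17)) (Nat.add (X (nat_lit 32)) (Nat.add (X (nat_lit 45)) (X (nat_lit 60))))))) (Nat.mul (nat_lit 8) (Nat.add (X (nat_lit 15)) (Nat.add (X (nat_lit 30)) (Nat.add (X (nat_lit 43)) (Nat.add (X (nat_lit 58)) (X (nat_lit 71)))))))))))) (.nd (nat_lit 197) 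
 (.lf (.mk fun X => (Nat.add (Nat.mul (nat_lit 2036) (Nat.add (X (nat_lit 79)) (X (nat_lit 88)))) (Nat.mul (nat_lit 4072) (X (nat_lit 91)))))) 
 (.lf (.mk fun X => (Nat.mul (nat_lit 4072) (Nat.add (X (nat_lit 92)) (Nat.add (X (nat_lit 97)) (X (nat_lit 99)))))))))) (.nd (nat_lit 202) (.nd (nat_lit 200) (.nd (nat_lit 199) 
 (.lf (.mk fun X => (Nat.mul (nat_lit 2036) (X (nat_lit 76))))) 
 (.lf (.mk fun X => (Nat.mul (nat_lit 2036) (X (nat_lit 84)))))) (.nd (nat_lit 201) 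
 (.lf (.mk fun X => (Nat.mul (nat_lit 2036) (X (nat_lit 82))))) 
 (.lf (.mk fun X => (Nat.mul (nat_lit 4072) (X (nat_lit 77))))))) (.nd (nat_lit 204) (.nd (nat_lit 203) 
 (.lf (.mk fun X => (Nat.add (X (nat_lit 0)) (Nat.add (Nat.mul (nat_lit 4) (Nat.add (X (nat_lit 9)) (Nat.add (X (nat_lit 22)) (Nat.add (X (nat_lit 37)) (Nat.add (X (nat_lit 50)) (X (nat_lit 65))))))) (Nat.mul (nat_lit 2036) (X (nat_lit 78))))))) 
 (.lf (.mk fun _ => nat_lit 0))) (.nd (nat_lit 205) 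
 (.lf (.mk fun X => (Nat.add (X (nat_lit 0)) (Nat.add (Nat.mul (nat_lit 4) (Nat.add (X (nat_lit 9)) (Nat.add (X (nat_lit 22)) (Nat.add (X (nat_lit 37)) (Nat.add (X (nat_lit 50)) (X (nat_lit 65))))))) (Nat.mul (nat_lit 2036) (X (nat_lit 81))))))) 
 (.lf (.mk fun _ => nat_lit 0))))))) (.nd (nat_lit 221) (.nd (nat_lit 213) (.nd (nat_lit 209) (.nd (nat_lit 207) 
 (.lf (.mk fun _ => nat_lit 0)) (.nd (nat_lit 208) 
 (.lf (.mk fun X => (Nat.add (X (nat_lit 0)) (Nat.add (Nat.mul (nat_lit 4) (Nat.add (X (nat_lit 9)) (Nat.add (X (nat_lit 22)) (Nat.add (X (nat_lit 37)) (Nat.add (X (nat_lit 50)) (X (nat_lit 65))))))) (Nat.mul (nat_lit 2036) (X (nat_lit 72))))))) 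
 (.lf (.mk fun X => (Nat.add (X (nat_lit 0)) (Nat.add (Nat.mul (nat_lit 4) (Nat.add (X (nat_lit 9)) (Nat.add (X (nat_lit 22)) (Nat.add (X (nat_lit 37)) (Nat.add (X (nat_lit 50)) (X (nat_lit 65))))))) (Nat.mul (nat_lit 2036) (Nat.add (X (nat_lit 78)) (X (nat_lit 87)))))))))) (.nd (nat_lit 211) (.nd (nat_lit 210) 
 (.lf (.mk fun _ => nat_lit 0)) 
 (.lf (.mk fun X => (Nat.mul (nat_lit 2048) (X (nat_lit 74)))))) (.nd (nat_lit 212) 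
 (.lf (.mk fun _ => nat_lit 0)) 
 (.lf (.mk fun _ => nat_lit 0))))) (.nd (nat_lit 217) (.nd (nat_lit 215) (.nd (nat_lit 214) 
 (.lf (.mk fun X => (Nat.add (X (nat_lit 0)) (Nat.add (Nat.mul (nat_lit 4) (Nat.add (X (nat_lit 9)) (Nat.add (X (nat_lit 22)) (Nat.add (X (nat_lit 37)) (Nat.add (X (nat_lit 50)) (X (nat_lit 65))))))) (Nat.mul (nat_lit 2036) (Nat.add (X (nat_lit 78)) (X (nat_lit 94)))))))) 
 (.lf (.mk fun X => (Nat.add (X (nat_lit 0)) (Nat.add (Nat.mul (nat_lit 4) (Nat.add (X (nat_lit 9)) (Nat.add (X (nat_lit 22)) (Nat.add (X (nat_lit 37)) (Nat.add (X (nat_lit 50)) (X (nat_lit 65))))))) (Nat.mul (nat_lit 2036) (Nat.add (X (nat_lit 78)) (X (nat_lit 94))))))))) (.nd (nat_lit 216) 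
 (.lf (.mk fun _ => nat_lit 0)) 
 (.lf (.mk fun _ => nat_lit 0)))) (.nd (nat_lit 219) (.nd (nat_lit 218) 
 (.lf (.mk fun X => (Nat.mul (nat_lit 2048) (X (nat_lit 74))))) 
 (.lf (.mk fun _ => nat_lit 0))) (.nd (nat_lit 220) 
 (.lf (.mk fun X => (Nat.add (X (nat_lit 0)) (Nat.add (Nat.mul (nat_lit 4) (Nat.add (X (nat_lit 9)) (Nat.add (X (nat_lit 22)) (Nat.add (X (nat_lit 37)) (Nat.add (X (nat_lit 50)) (X (nat_lit 65))))))) (Nat.mul (nat_lit 2036) (Nat.add (X (nat_lit 78)) (X (nat_lit 95)))))))) 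
 (.lf (.mk fun X => (Nat.add (Nat.add (X (nat_lit 2)) (Nat.add (X (nat_lit 23)) (X (nat_lit 51)))) (Nat.add (Nat.mul (nat_lit 4) (Nat.add (X (nat_lit 4)) (Nat.add (X (nat_lit 17)) (Nat.add (X (nat_lit 32)) (Nat.add (X (nat_lit 45)) (X (nat_lit 60))))))) (Nat.add (Nat.mul (nat_lit 8) (Nat.add (X (nat_lit 15)) (Nat.add (X (nat_lit 30)) (Nat.add (X (nat_lit 43)) (Nat.add (X (nat_lit 58)) (X (nat_lit 71))))))) (Nat.add (Nat.mul (nat_lit 509) (X (nat_lit 79))) (Nat.add (Nat.mul (nat_lit 2036) (X (nat_lit 73))) (Nat.mul (nat_lit 4072) (X (nat_lit 86)))))))))))))) (.nd (nat_lit 228) (.nd (nat_lit 224) (.nd (nat_lit 222) 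
 (.lf (.mk fun _ => nat_lit 0)) (.nd (nat_lit 223) 
 (.lf (.mk fun X => (Nat.mul (nat_lit 2036) (X (nat_lit 88))))) 
 (.lf (.mk fun X => (Nat.mul (nat_lit 4072) (X (nat_lit 99))))))) (.nd (nat_lit 226) (.nd (nat_lit 225) 
 (.lf (.mk fun _ => nat_lit 0)) 
 (.lf (.mk fun X => (Nat.add (Nat.add (X (nat_lit 2)) (Nat.add (X (nat_lit 23)) (X (nat_lit 51)))) (Nat.add (Nat.mul (nat_lit 4) (Nat.add (X (nat_lit 4)) (Nat.add (X (nat_lit 17)) (Nat.add (X (nat_lit 32)) (Nat.add (X (nat_lit 45)) (X (nat_lit 60))))))) (Nat.add (Nat.mul (nat_lit 8) (Nat.add (X (nat_lit 15)) (Nat.add (X (nat_lit 30)) (Nat.add (X (nat_lit 43)) (Nat.add (X (nat_lit 58)) (X (nat_lit 71))))))) (Nat.add (Nat.mul (nat_lit 509) (X (nat_lit 79))) (Nat.add (Nat.mul (nat_lit 2036) (X (nat_lit 73))) (Nat.mul (nat_lit 4072) (X (nat_lit 86))))))))))) (.nd (nat_lit 227) 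
 (.lf (.mk fun X => (Nat.mul (nat_lit 2036) (X (nat_lit 91))))) 
 (.lf (.mk fun X => (Nat.mul (nat_lit 2036) (X (nat_lit 97)))))))) (.nd (nat_lit 232) (.nd (nat_lit 230) (.nd (nat_lit 229) 
 (.lf (.mk fun _ => nat_lit 0)) 
 (.lf (.mk fun X => (Nat.mul (nat_lit 4072) (X (nat_lit 92)))))) (.nd (nat_lit 231) 
 (.lf (.mk fun X => (Nat.add (X (nat_lit 0)) (Nat.add (Nat.mul (nat_lit 4) (Nat.add (X (nat_lit 9)) (Nat.add (X (nat_lit 22)) (Nat.add (X (nat_lit 37)) (Nat.add (X (nat_lit 50)) (X (nat_lit 65))))))) (Nat.mul (nat_lit 2036) (Nat.add (X (nat_lit 78)) (X (nat_lit 93)))))))) 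
 (.lf (.mk fun _ => nat_lit 0)))) (.nd (nat_lit 234) (.nd (nat_lit 233) 
 (.lf (.mk fun X => (Nat.add (X (nat_lit 0)) (Nat.add (Nat.mul (nat_lit 4) (Nat.add (X (nat_lit 9)) (Nat.add (X (nat_lit 22)) (Nat.add (X (nat_lit 37)) (Nat.add (X (nat_lit 50)) (X (nat_lit 65))))))) (Nat.mul (nat_lit 2036) (Nat.add (X (nat_lit 78)) (X (nat_lit 95)))))))) 
 (.lf (.mk fun _ => nat_lit 0))) (.nd (nat_lit 235) 
 (.lf (.mk fun _ => nat_lit 0)) 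
 (.lf (.mk fun X => (Nat.add (X (nat_lit 0)) (Nat.add (Nat.mul (nat_lit 4) (Nat.add (X (nat_lit 9)) (Nat.add (X (nat_lit 22)) (Nat.add (X (nat_lit 37)) (Nat.add (X (nat_lit 50)) (X (nat_lit 65))))))) (Nat.mul (nat_lit 2036) (Nat.add (X (nat_lit 78)) (X (nat_lit 87))))))))))))))))

noncomputable def uprT : Tb Bx := (.nd (nat_lit 100) (.nd (nat_lit 50) (.nd (nat_lit 25) (.nd (nat_lit 12) (.nd (nat_lit 6) (.nd (nat_lit 3) (.nd (nat_lit 1) 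
 (.lf (.mk fun X => (Nat.add (Nat.add (X (nat_lit 23)) (Nat.add (X (nat_lit 26)) (Nat.add (X (nat_lit 35)) (Nat.add (X (nat_lit 36)) (Nat.add (X (nat_lit 39)) (Nat.add (X (nat_lit 42)) (Nat.add (X (nat_lit 51)) (Nat.add (X (nat_lit 52)) (Nat.add (X (nat_lit 56)) (Nat.add (X (nat_lit 59)) (Nat.add (X (nat_lit 68)) (Nat.add (X (nat_lit 69)) (Nat.add (X (nat_lit 72)) (Nat.add (X (nat_lit 75)) (Nat.add (X (nat_lit 84)) (Nat.add (X (nat_lit 85)) (Nat.add (X (nat_lit 89)) (Nat.add (X (nat_lit 92)) (Nat.add (X (nat_lit 101)) (Nat.add (X (nat_lit 102)) (Nat.add (X (nat_lit 104)) (Nat.add (X (nat_lit 107)) (Nat.add (X (nat_lit 115)) (X (nat_lit 116))))))))))))))))))))))))) (Nat.add (Nat.mul (nat_lit 509) (Nat.add (X (nat_lit 6)) (Nat.add (X (nat_lit 9)) (Nat.add (X (nat_lit 18)) (X (nat_lit 19)))))) (Nat.mul (nat_lit 2036) (X (nat_lit 2))))))) (.nd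 (nat_lit 2) 
 (.lf (.mk fun X => (Nat.add (Nat.add (X (nat_lit 25)) (Nat.add (X (nat_lit 28)) (Nat.add (X (nat_lit 37)) (Nat.add (X (nat_lit 41)) (Nat.add (X (nat_lit 44)) (Nat.add (X (nat_lit 53)) (Nat.add (X (nat_lit 58)) (Nat.add (X (nat_lit 61)) (Nat.add (X (nat_lit 70)) (Nat.add (X (nat_lit 74)) (Nat.add (X (nat_lit 77)) (Nat.add (X (nat_lit 86)) (Nat.add (X (nat_lit 91)) (Nat.add (X (nat_lit 94)) (Nat.add (X (nat_lit 103)) (Nat.add (X (nat_lit 106)) (Nat.add (X (nat_lit 109)) (X (nat_lit 117))))))))))))))))))) (Nat.add (Nat.mul (nat_lit 509) (Nat.add (X (nat_lit 8)) (Nat.add (X (nat_lit 11)) (X (nat_lit 20))))) (Nat.mul (nat_lit 2036) (X (nat_lit 4))))))) 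
 (.lf (.mk fun X => (Nat.add (Nat.mul (nat_lit 512) (X (nat_lit 7))) (Nat.mul (nat_lit 1024) (Nat.add (X (nat_lit 24)) (Nat.add (X (nat_lit 57)) (X (nat_lit 90)))))))))) (.nd (nat_lit 4) 
 (.lf (.mk fun X => (Nat.add (Nat.mul (nat_lit 512) (X (nat_lit 10))) (Nat.mul (nat_lit 1024) (Nat.add (X (nat_lit 27)) (Nat.add (X (nat_lit 60)) (X (nat_lit 93)))))))) (.nd (nat_lit 5) 
 (.lf (.mk fun X => (Nat.add (Nat.add (X (nat_lit 29)) (Nat.add (X (nat_lit 45)) (Nat.add (X (nat_lit 62)) (Nat.add (X (nat_lit 78)) (Nat.add (X (nat_lit 95)) (X (nat_lit 110))))))) (Nat.add (Nat.mul (nat_lit 509) (X (nat_lit 12))) (Nat.mul (nat_lit 2036) (X (nat_lit 3))))))) 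
 (.lf (.mk fun X => (Nat.add (Nat.add (X (nat_lit 31)) (Nat.add (X (nat_lit 47)) (Nat.add (X (nat_lit 64)) (Nat.add (X (nat_lit 80)) (Nat.add (X (nat_lit 97)) (X (nat_lit 112))))))) (Nat.mul (nat_lit 509) (X (nat_lit 14))))))))) (.nd (nat_lit 9) (.nd (nat_lit 7) 
 (.lf (.mk fun X => (Nat.mul (nat_lit 2036) (Nat.add (X (nat_lit 0)) (X (nat_lit 6)))))) (.nd (nat_lit 8) 
 (.lf (.mk fun X => (Nat.mul (nat_lit 2036) (X (nat_lit 20))))) 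
 (.lf (.mk fun X => (Nat.add (Nat.mul (nat_lit 4) (Nat.add (X (nat_lit 29)) (Nat.add (X (nat_lit 45)) (Nat.add (X (nat_lit 62)) (Nat.add (X (nat_lit 78)) (Nat.add (X (nat_lit 95)) (X (nat_lit 110)))))))) (Nat.mul (nat_lit 2036) (Nat.add (X (nat_lit 3)) (X (nat_lit 13))))))))) (.nd (nat_lit 10) 
 (.lf (.mk fun X => (Nat.mul (nat_lit 4) (Nat.add (X (nat_lit 31)) (Nat.add (X (nat_lit 47)) (Nat.add (X (nat_lit 64)) (Nat.add (X (nat_lit 80)) (Nat.add (X (nat_lit 97)) (X (nat_lit 112)))))))))) (.nd (nat_lit 11) 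
 (.lf (.mk fun _ => nat_lit 0)) 
 (.lf (.mk fun _ => nat_lit 0)))))) (.nd (nat_lit 18) (.nd (nat_lit 15) (.nd (nat_lit 13) 
 (.lf (.mk fun _ => nat_lit 0)) (.nd (nat_lit 14) 
 (.lf (.mk fun X => (Nat.mul (nat_lit 4072) (X (nat_lit 0))))) 
 (.lf (.mk fun X => (Nat.add (Nat.mul (nat_lit 2036) (X (nat_lit 16))) (Nat.mul (nat_lit 4072) (X (nat_lit 3)))))))) (.nd (nat_lit 16) 
 (.lf (.mk fun _ => nat_lit 0)) (.nd (nat_lit 17) 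
 (.lf (.mk fun _ => nat_lit 0)) 
 (.lf (.mk fun X => (Nat.mul (nat_lit 4072) (Nat.add (X (nat_lit 3)) (X (nat_lit 17))))))))) (.nd (nat_lit 21) (.nd (nat_lit 19) 
 (.lf (.mk fun X => (Nat.add (Nat.mul (nat_lit 4) (Nat.add (X (nat_lit 23)) (Nat.add (X (nat_lit 26)) (Nat.add (X (nat_lit 35)) (Nat.add (X (nat_lit 36)) (Nat.add (X (nat_lit 39)) (Nat.add (X (nat_lit 42)) (Nat.add (X (nat_lit 51)) (Nat.add (X (nat_lit 52)) (Nat.add (X (nat_lit 56)) (Nat.add (X (nat_lit 59)) (Nat.add (X (nat_lit 68)) (Nat.add (X (nat_lit 69)) (Nat.add (X (nat_lit 72)) (Nat.add (X (nat_lit 75)) (Nat.add (X (nat_lit 84)) (Nat.add (X (nat_lit 85)) (Nat.add (X (nat_lit 89)) (Nat.add (X (nat_lit 92)) (Nat.add (X (nat_lit 101)) (Nat.add (X (nat_lit 102)) (Nat.add (X (nat_lit 104)) (Nat.add (X (nat_lit 107)) (Nat.add (X (nat_lit 115)) (X (nat_lit 116))))))))))))))))))))))))))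 (Nat.mul (nat_lit 2036) (X (nat_lit 18)))))) (.nd (nat_lit 20) 
 (.lf (.mk fun X => (Nat.mul (nat_lit 4) (Nat.add (X (nat_lit 25)) (Nat.add (X (nat_lit 28)) (Nat.add (X (nat_lit 37)) (Nat.add (X (nat_lit 41)) (Nat.add (X (nat_lit 44)) (Nat.add (X (nat_lit 53)) (Nat.add (X (nat_lit 58)) (Nat.add (X (nat_lit 61)) (Nat.add (X (nat_lit 70)) (Nat.add (X (nat_lit 74)) (Nat.add (X (nat_lit 77)) (Nat.add (X (nat_lit 86)) (Nat.add (X (nat_lit 91)) (Nat.add (X (nat_lit 94)) (Nat.add (X (nat_lit 103)) (Nat.add (X (nat_lit 106)) (Nat.add (X (nat_lit 109)) (X (nat_lit 117)))))))))))))))))))))) 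
 (.lf (.mk fun X => (Nat.mul (nat_lit 2036) (X (nat_lit 9))))))) (.nd (nat_lit 23) (.nd (nat_lit 22) 
 (.lf (.mk fun X => (Nat.mul (nat_lit 2036) (X (nat_lit 8))))) 
 (.lf (.mk fun X => (Nat.mul (nat_lit 2036) (X (nat_lit 19)))))) (.nd (nat_lit 24) 
 (.lf (.mk fun X => (Nat.mul (nat_lit 2036) (X (nat_lit 11))))) 
 (.lf (.mk fun X => (Nat.mul (nat_lit 2048) (X (nat_lit 1)))))))))) (.nd (nat_lit 37) (.nd (nat_lit 31) (.nd (nat_lit 28) (.nd (nat_lit 26) 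
 (.lf (.mk fun _ => nat_lit 0)) (.nd (nat_lit 27) 
 (.lf (.mk fun _ => nat_lit 0)) 
 (.lf (.mk fun X => (Nat.add (Nat.mul (nat_lit 2036) (X (nat_lit 16))) (Nat.mul (nat_lit 4072) (X (nat_lit 3)))))))) (.nd (nat_lit 29) 
 (.lf (.mk fun _ => nat_lit 0)) (.nd (nat_lit 30) 
 (.lf (.mk fun X => (Nat.mul (nat_lit 4096) (X (nat_lit 1))))) 
 (.lf (.mk fun X => (Nat.mul (nat_lit 8) (Nat.add (X (nat_lit 29)) (Nat.add (X (nat_lit 45)) (Nat.add (X (nat_lit 62)) (Nat.add (X (nat_lit 78)) (Nat.add (X (nat_lit 95)) (X (nat_lit 110))))))))))))) (.nd (nat_lit 34) (.nd (nat_lit 32) 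
 (.lf (.mk fun X => (Nat.add (Nat.mul (nat_lit 8) (Nat.add (X (nat_lit 31)) (Nat.add (X (nat_lit 47)) (Nat.add (X (nat_lit 64)) (Nat.add (X (nat_lit 80)) (Nat.add (X (nat_lit 97)) (X (nat_lit 112)))))))) (Nat.mul (nat_lit 4072) (Nat.add (X (nat_lit 3)) (X (nat_lit 13))))))) (.nd (nat_lit 33) 
 (.lf (.mk fun X => (Nat.add (Nat.mul (nat_lit 4) (Nat.add (X (nat_lit 0)) (X (nat_lit 5)))) (Nat.mul (nat_lit 2036) (X (nat_lit 23)))))) 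
 (.lf (.mk fun X => (Nat.mul (nat_lit 2036) (X (nat_lit 37))))))) (.nd (nat_lit 35) 
 (.lf (.mk fun X => (Nat.add (Nat.mul (nat_lit 4) (Nat.add (X (nat_lit 3)) (Nat.add (X (nat_lit 15)) (Nat.add (X (nat_lit 62)) (Nat.add (X (nat_lit 78)) (Nat.add (X (nat_lit 95)) (X (nat_lit 110)))))))) (Nat.mul (nat_lit 2036) (Nat.add (X (nat_lit 30)) (X (nat_lit 45))))))) (.nd (nat_lit 36) 
 (.lf (.mk fun X => (Nat.add (Nat.mul (nat_lit 4) (Nat.add (X (nat_lit 64)) (Nat.add (X (nat_lit 80)) (Nat.add (X (nat_lit 97)) (X (nat_lit 112)))))) (Nat.mul (nat_lit 2036) (X (nat_lit 47)))))) 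
 (.lf (.mk fun X => (Nat.add (Nat.mul (nat_lit 2048) (X (nat_lit 40))) (Nat.mul (nat_lit 4096) (Nat.add (X (nat_lit 57)) (X (nat_lit 90))))))))))) (.nd (nat_lit 43) (.nd (nat_lit 40) (.nd (nat_lit 38) 
 (.lf (.mk fun X => (Nat.add (Nat.mul (nat_lit 2048) (X (nat_lit 43))) (Nat.mul (nat_lit 4096) (Nat.add (X (nat_lit 60)) (X (nat_lit 93))))))) (.nd (nat_lit 39) 
 (.lf (.mk fun _ => nat_lit 0)) 
 (.lf (.mk fun X => (Nat.mul (nat_lit 8) (Nat.add (X (nat_lit 0)) (X (nat_lit 5)))))))) (.nd (nat_lit 41) 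
 (.lf (.mk fun X => (Nat.add (Nat.mul (nat_lit 8) (Nat.add (X (nat_lit 3)) (X (nat_lit 15)))) (Nat.mul (nat_lit 2036) (X (nat_lit 33)))))) (.nd (nat_lit 42) 
 (.lf (.mk fun _ => nat_lit 0)) 
 (.lf (.mk fun _ => nat_lit 0))))) (.nd (nat_lit 46) (.nd (nat_lit 44) 
 (.lf (.mk fun X => (Nat.add (Nat.mul (nat_lit 8) (Nat.add (X (nat_lit 3)) (X (nat_lit 15)))) (Nat.mul (nat_lit 4072) (X (nat_lit 34)))))) (.nd (nat_lit 45) 
 (.lf (.mk fun X => (Nat.add (Nat.mul (nat_lit 4) (Nat.add (X (nat_lit 56)) (Nat.add (X (nat_lit 59)) (Nat.add (X (nat_lit 68)) (Nat.add (X (nat_lit 69)) (Nat.add (X (nat_lit 72)) (Nat.add (X (nat_lit 75)) (Nat.add (X (nat_lit 84)) (Nat.add (X (nat_lit 85)) (Nat.add (X (nat_lit 89)) (Nat.add (X (nat_lit 92)) (Nat.add (X (nat_lit 101)) (Nat.add (X (nat_lit 102)) (Nat.add (X (nat_lit 104)) (Nat.add (X (nat_lit 107)) (Nat.add (X (nat_lit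 115)) (X (nat_lit 116)))))))))))))))))) (Nat.mul (nat_lit 2036) (Nat.add (X (nat_lit 35)) (Nat.add (X (nat_lit 39)) (Nat.add (X (nat_lit 42)) (Nat.add (X (nat_lit 51)) (X (nat_lit 52)))))))))) 
 (.lf (.mk fun X => (Nat.add (Nat.mul (nat_lit 4) (Nat.add (X (nat_lit 58)) (Nat.add (X (nat_lit 61)) (Nat.add (X (nat_lit 70)) (Nat.add (X (nat_lit 74)) (Nat.add (X (nat_lit 77)) (Nat.add (X (nat_lit 86)) (Nat.add (X (nat_lit 91)) (Nat.add (X (nat_lit 94)) (Nat.add (X (nat_lit 103)) (Nat.add (X (nat_lit 106)) (Nat.add (X (nat_lit 109)) (X (nat_lit 117)))))))))))))) (Nat.mul (nat_lit 2036) (Nat.add (X (nat_lit 41)) (Nat.add (X (nat_lit 44)) (X (nat_lit 53)))))))))) (.nd (nat_lit 48) (.nd (nat_lit 47) 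
 (.lf (.mk fun X => (Nat.add (Nat.add (X (nat_lit 62)) (Nat.add (X (nat_lit 78)) (Nat.add (X (nat_lit 95)) (X (nat_lit 110))))) (Nat.add (Nat.mul (nat_lit 4) (Nat.add (X (nat_lit 3)) (X (nat_lit 15)))) (Nat.add (Nat.mul (nat_lit 509) (X (nat_lit 45))) (Nat.mul (nat_lit 2036) (X (nat_lit 32)))))))) 
 (.lf (.mk fun X => (Nat.add (Nat.add (X (nat_lit 64)) (Nat.add (X (nat_lit 80)) (Nat.add (X (nat_lit 97)) (X (nat_lit 112))))) (Nat.mul (nat_lit 509) (X (nat_lit 47))))))) (.nd (nat_lit 49) 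
 (.lf (.mk fun X => (Nat.mul (nat_lit 2036) (X (nat_lit 26))))) 
 (.lf (.mk fun X => (Nat.mul (nat_lit 2036) (X (nat_lit 25))))))))))) (.nd (nat_lit 75) (.nd (nat_lit 62) (.nd (nat_lit 56) (.nd (nat_lit 53) (.nd (nat_lit 51) 
 (.lf (.mk fun X => (Nat.mul (nat_lit 2036) (X (nat_lit 36))))) (.nd (nat_lit 52) 
 (.lf (.mk fun X => (Nat.mul (nat_lit 2036) (X (nat_lit 28))))) 
 (.lf (.mk fun X => (Nat.add (Nat.mul (nat_lit 4) (Nat.add (X (nat_lit 3)) (X (nat_lit 15)))) (Nat.mul (nat_lit 2036) (X (nat_lit 34)))))))) (.nd (nat_lit 54) 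
 (.lf (.mk fun _ => nat_lit 0)) (.nd (nat_lit 55) 
 (.lf (.mk fun X => (Nat.mul (nat_lit 4096) (X (nat_lit 1))))) 
 (.lf (.mk fun _ => nat_lit 0))))) (.nd (nat_lit 59) (.nd (nat_lit 57) 
 (.lf (.mk fun _ => nat_lit 0)) (.nd (nat_lit 58) 
 (.lf (.mk fun X => (Nat.add (Nat.mul (nat_lit 8) (Nat.add (X (nat_lit 3)) (X (nat_lit 15)))) (Nat.mul (nat_lit 2036) (X (nat_lit 33)))))) 
 (.lf (.mk fun _ => nat_lit 0)))) (.nd (nat_lit 60) 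
 (.lf (.mk fun X => (Nat.mul (nat_lit 8192) (X (nat_lit 1))))) (.nd (nat_lit 61) 
 (.lf (.mk fun X => (Nat.add (Nat.mul (nat_lit 8) (Nat.add (X (nat_lit 62)) (Nat.add (X (nat_lit 78)) (Nat.add (X (nat_lit 95)) (X (nat_lit 110)))))) (Nat.mul (nat_lit 4072) (X (nat_lit 45)))))) 
 (.lf (.mk fun X => (Nat.add (Nat.mul (nat_lit 8) (Nat.add (X (nat_lit 3)) (Nat.add (X (nat_lit 15)) (Nat.add (X (nat_lit 64)) (Nat.add (X (nat_lit 80)) (Nat.add (X (nat_lit 97)) (X (nat_lit 112)))))))) (Nat.mul (nat_lit 4072) (Nat.add (X (nat_lit 30)) (X (nat_lit 47))))))))))) (.nd (nat_lit 68) (.nd (nat_lit 65) (.nd (nat_lit 63) 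
 (.lf (.mk fun X => (Nat.add (Nat.mul (nat_lit 4) (Nat.add (X (nat_lit 0)) (X (nat_lit 5)))) (Nat.mul (nat_lit 2036) (Nat.add (X (nat_lit 21)) (X (nat_lit 39))))))) (.nd (nat_lit 64) 
 (.lf (.mk fun X => (Nat.mul (nat_lit 2036) (X (nat_lit 53))))) 
 (.lf (.mk fun X => (Nat.add (Nat.mul (nat_lit 4) (Nat.add (X (nat_lit 3)) (Nat.add (X (nat_lit 15)) (Nat.add (X (nat_lit 62)) (Nat.add (X (nat_lit 78)) (Nat.add (X (nat_lit 95)) (X (nat_lit 110)))))))) (Nat.mul (nat_lit 2036) (Nat.add (X (nat_lit 32)) (X (nat_lit 46))))))))) (.nd (nat_lit 66) 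
 (.lf (.mk fun X => (Nat.mul (nat_lit 4) (Nat.add (X (nat_lit 64)) (Nat.add (X (nat_lit 80)) (Nat.add (X (nat_lit 97)) (X (nat_lit 112)))))))) (.nd (nat_lit 67) 
 (.lf (.mk fun _ => nat_lit 0)) 
 (.lf (.mk fun _ => nat_lit 0))))) (.nd (nat_lit 71) (.nd (nat_lit 69) 
 (.lf (.mk fun _ => nat_lit 0)) (.nd (nat_lit 70) 
 (.lf (.mk fun X => (Nat.add (Nat.mul (nat_lit 8) (Nat.add (X (nat_lit 0)) (X (nat_lit 5)))) (Nat.mul (nat_lit 4072) (X (nat_lit 21)))))) 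
 (.lf (.mk fun X => (Nat.add (Nat.mul (nat_lit 8) (Nat.add (X (nat_lit 3)) (X (nat_lit 15)))) (Nat.add (Nat.mul (nat_lit 2036) (X (nat_lit 49))) (Nat.mul (nat_lit 4072) (X (nat_lit 32))))))))) (.nd (nat_lit 73) (.nd (nat_lit 72) 
 (.lf (.mk fun _ => nat_lit 0)) 
 (.lf (.mk fun _ => nat_lit 0))) (.nd (nat_lit 74) 
 (.lf (.mk fun X => (Nat.add (Nat.mul (nat_lit 8) (Nat.add (X (nat_lit 3)) (X (nat_lit 15)))) (Nat.mul (nat_lit 4072) (Nat.add (X (nat_lit 32)) (X (nat_lit 50))))))) 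
 (.lf (.mk fun X => (Nat.add (Nat.mul (nat_lit 4) (Nat.add (X (nat_lit 56)) (Nat.add (X (nat_lit 59)) (Nat.add (X (nat_lit 68)) (Nat.add (X (nat_lit 69)) (Nat.add (X (nat_lit 72)) (Nat.add (X (nat_lit 75)) (Nat.add (X (nat_lit 84)) (Nat.add (X (nat_lit 85)) (Nat.add (X (nat_lit 89)) (Nat.add (X (nat_lit 92)) (Nat.add (X (nat_lit 101)) (Nat.add (X (nat_lit 102)) (Nat.add (X (nat_lit 104)) (Nat.add (X (nat_lit 107)) (Nat.add (X (nat_lit 115)) (X (nat_lit 116)))))))))))))))))) (Nat.mul (nat_lit 2036) (X (nat_lit 51))))))))))) (.nd (nat_lit 87) (.nd (nat_lit 81) (.nd (nat_lit 78) (.nd (nat_lit 76) 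
 (.lf (.mk fun X => (Nat.mul (nat_lit 4) (Nat.add (X (nat_lit 58)) (Nat.add (X (nat_lit 61)) (Nat.add (X (nat_lit 70)) (Nat.add (X (nat_lit 74)) (Nat.add (X (nat_lit 77)) (Nat.add (X (nat_lit 86)) (Nat.add (X (nat_lit 91)) (Nat.add (X (nat_lit 94)) (Nat.add (X (nat_lit 103)) (Nat.add (X (nat_lit 106)) (Nat.add (X (nat_lit 109)) (X (nat_lit 117)))))))))))))))) (.nd (nat_lit 77) 
 (.lf (.mk fun X => (Nat.mul (nat_lit 2036) (X (nat_lit 42))))) 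
 (.lf (.mk fun X => (Nat.mul (nat_lit 2036) (X (nat_lit 41))))))) (.nd (nat_lit 79) 
 (.lf (.mk fun X => (Nat.mul (nat_lit 2036) (X (nat_lit 52))))) (.nd (nat_lit 80) 
 (.lf (.mk fun X => (Nat.mul (nat_lit 2036) (X (nat_lit 44))))) 
 (.lf (.mk fun X => (Nat.mul (nat_lit 2048) (X (nat_lit 22)))))))) (.nd (nat_lit 84) (.nd (nat_lit 82) 
 (.lf (.mk fun _ => nat_lit 0)) (.nd (nat_lit 83) 
 (.lf (.mk fun _ => nat_lit 0)) 
 (.lf (.mk fun X => (Nat.add (Nat.mul (nat_lit 8) (Nat.add (X (nat_lit 3)) (X (nat_lit 15)))) (Nat.add (Nat.mul (nat_lit 2036) (X (nat_lit 49))) (Nat.mul (nat_lit 4072) (X (nat_lit 32))))))))) (.nd (nat_lit 85) 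
 (.lf (.mk fun _ => nat_lit 0)) (.nd (nat_lit 86) 
 (.lf (.mk fun X => (Nat.mul (nat_lit 4096) (X (nat_lit 22))))) 
 (.lf (.mk fun X => (Nat.mul (nat_lit 8) (Nat.add (X (nat_lit 62)) (Nat.add (X (nat_lit 78)) (Nat.add (X (nat_lit 95)) (X (nat_lit 110)))))))))))) (.nd (nat_lit 93) (.nd (nat_lit 90) (.nd (nat_lit 88) 
 (.lf (.mk fun X => (Nat.add (Nat.mul (nat_lit 8) (Nat.add (X (nat_lit 3)) (Nat.add (X (nat_lit 15)) (Nat.add (X (nat_lit 64)) (Nat.add (X (nat_lit 80)) (Nat.add (X (nat_lit 97)) (X (nat_lit 112)))))))) (Nat.mul (nat_lit 4072) (Nat.add (X (nat_lit 32)) (X (nat_lit 46))))))) (.nd (nat_lit 89) 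
 (.lf (.mk fun X => (Nat.add (Nat.mul (nat_lit 4) (Nat.add (X (nat_lit 0)) (Nat.add (X (nat_lit 5)) (Nat.add (X (nat_lit 21)) (X (nat_lit 38)))))) (Nat.mul (nat_lit 2036) (X (nat_lit 56)))))) 
 (.lf (.mk fun X => (Nat.mul (nat_lit 2036) (X (nat_lit 70))))))) (.nd (nat_lit 91) 
 (.lf (.mk fun X => (Nat.add (Nat.mul (nat_lit 4) (Nat.add (X (nat_lit 3)) (Nat.add (X (nat_lit 15)) (Nat.add (X (nat_lit 32)) (Nat.add (X (nat_lit 48)) (Nat.add (X (nat_lit 95)) (X (nat_lit 110)))))))) (Nat.mul (nat_lit 2036) (Nat.add (X (nat_lit 63)) (X (nat_lit 78))))))) (.nd (nat_lit 92) 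
 (.lf (.mk fun X => (Nat.add (Nat.mul (nat_lit 4) (Nat.add (X (nat_lit 97)) (X (nat_lit 112)))) (Nat.mul (nat_lit 2036) (X (nat_lit 80)))))) 
 (.lf (.mk fun X => (Nat.add (Nat.mul (nat_lit 2048) (X (nat_lit 73))) (Nat.mul (nat_lit 4096) (X (nat_lit 90))))))))) (.nd (nat_lit 96) (.nd (nat_lit 94) 
 (.lf (.mk fun X => (Nat.add (Nat.mul (nat_lit 2048) (X (nat_lit 76))) (Nat.mul (nat_lit 4096) (X (nat_lit 93)))))) (.nd (nat_lit 95) 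
 (.lf (.mk fun _ => nat_lit 0)) 
 (.lf (.mk fun X => (Nat.mul (nat_lit 8) (Nat.add (X (nat_lit 0)) (Nat.add (X (nat_lit 5)) (Nat.add (X (nat_lit 21)) (X (nat_lit 38)))))))))) (.nd (nat_lit 98) (.nd (nat_lit 97) 
 (.lf (.mk fun X => (Nat.add (Nat.mul (nat_lit 8) (Nat.add (X (nat_lit 3)) (Nat.add (X (nat_lit 15)) (Nat.add (X (nat_lit 32)) (X (nat_lit 48)))))) (Nat.mul (nat_lit 2036) (X (nat_lit 66)))))) 
 (.lf (.mk fun _ => nat_lit 0))) (.nd (nat_lit 99) 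
 (.lf (.mk fun _ => nat_lit 0)) 
 (.lf (.mk fun X => (Nat.add (Nat.mul (nat_lit 8) (Nat.add (X (nat_lit 3)) (Nat.add (X (nat_lit 15)) (Nat.add (X (nat_lit 32)) (X (nat_lit 48)))))) (Nat.mul (nat_lit 4072) (X (nat_lit 67))))))))))))) (.nd (nat_lit 150) (.nd (nat_lit 125) (.nd (nat_lit 112) (.nd (nat_lit 106) (.nd (nat_lit 103) (.nd (nat_lit 101) 
 (.lf (.mk fun X => (Nat.add (Nat.mul (nat_lit 4) (Nat.add (X (nat_lit 89)) (Nat.add (X (nat_lit 92)) (Nat.add (X (nat_lit 101)) (Nat.add (X (nat_lit 102)) (Nat.add (X (nat_lit 104)) (Nat.add (X (nat_lit 107)) (Nat.add (X (nat_lit 115)) (X (nat_lit 116)))))))))) (Nat.mul (nat_lit 2036) (Nat.add (X (nat_lit 68)) (Nat.add (X (nat_lit 72)) (Nat.add (X (nat_lit 75)) (Nat.add (X (nat_lit 84)) (X (nat_lit 85)))))))))) (.nd (nat_lit 102) 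
 (.lf (.mk fun X => (Nat.add (Nat.mul (nat_lit 4) (Nat.add (X (nat_lit 91)) (Nat.add (X (nat_lit 94)) (Nat.add (X (nat_lit 103)) (Nat.add (X (nat_lit 106)) (Nat.add (X (nat_lit 109)) (X (nat_lit 117)))))))) (Nat.mul (nat_lit 2036) (Nat.add (X (nat_lit 74)) (Nat.add (X (nat_lit 77)) (X (nat_lit 86)))))))) 
 (.lf (.mk fun X => (Nat.add (Nat.add (X (nat_lit 95)) (X (nat_lit 110))) (Nat.add (Nat.mul (nat_lit 4) (Nat.add (X (nat_lit 3)) (Nat.add (X (nat_lit 15)) (Nat.add (X (nat_lit 32)) (X (nat_lit 48)))))) (Nat.add (Nat.mul (nat_lit 509) (X (nat_lit 78))) (Nat.mul (nat_lit 2036) (X (nat_lit 65)))))))))) (.nd (nat_lit 104) 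
 (.lf (.mk fun X => (Nat.add (Nat.add (X (nat_lit 97)) (X (nat_lit 112))) (Nat.mul (nat_lit 509) (X (nat_lit 80)))))) (.nd (nat_lit 105) 
 (.lf (.mk fun X => (Nat.mul (nat_lit 2036) (X (nat_lit 59))))) 
 (.lf (.mk fun X => (Nat.mul (nat_lit 2036) (X (nat_lit 58)))))))) (.nd (nat_lit 109) (.nd (nat_lit 107) 
 (.lf (.mk fun X => (Nat.mul (nat_lit 2036) (X (nat_lit 69))))) (.nd (nat_lit 108) 
 (.lf (.mk fun X => (Nat.mul (nat_lit 2036) (X (nat_lit 61))))) 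
 (.lf (.mk fun X => (Nat.add (Nat.mul (nat_lit 4) (Nat.add (X (nat_lit 3)) (Nat.add (X (nat_lit 15)) (Nat.add (X (nat_lit 32)) (X (nat_lit 48)))))) (Nat.mul (nat_lit 2036) (X (nat_lit 67)))))))) (.nd (nat_lit 110) 
 (.lf (.mk fun _ => nat_lit 0)) (.nd (nat_lit 111) 
 (.lf (.mk fun X => (Nat.mul (nat_lit 4096) (Nat.add (X (nat_lit 1)) (X (nat_lit 22)))))) 
 (.lf (.mk fun _ => nat_lit 0)))))) (.nd (nat_lit 118) (.nd (nat_lit 115) (.nd (nat_lit 113) 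
 (.lf (.mk fun _ => nat_lit 0)) (.nd (nat_lit 114) 
 (.lf (.mk fun X => (Nat.add (Nat.mul (nat_lit 8) (Nat.add (X (nat_lit 3)) (Nat.add (X (nat_lit 15)) (Nat.add (X (nat_lit 32)) (X (nat_lit 48)))))) (Nat.mul (nat_lit 2036) (X (nat_lit 66)))))) 
 (.lf (.mk fun _ => nat_lit 0)))) (.nd (nat_lit 116) 
 (.lf (.mk fun X => (Nat.mul (nat_lit 8192) (Nat.add (X (nat_lit 1)) (X (nat_lit 22)))))) (.nd (nat_lit 117) 
 (.lf (.mk fun X => (Nat.add (Nat.mul (nat_lit 8) (Nat.add (X (nat_lit 95)) (X (nat_lit 110)))) (Nat.mul (nat_lit 4072) (X (nat_lit 78)))))) 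
 (.lf (.mk fun X => (Nat.add (Nat.mul (nat_lit 8) (Nat.add (X (nat_lit 3)) (Nat.add (X (nat_lit 15)) (Nat.add (X (nat_lit 32)) (Nat.add (X (nat_lit 48)) (Nat.add (X (nat_lit 97)) (X (nat_lit 112)))))))) (Nat.mul (nat_lit 4072) (Nat.add (X (nat_lit 63)) (X (nat_lit 80)))))))))) (.nd (nat_lit 121) (.nd (nat_lit 119) 
 (.lf (.mk fun X => (Nat.add (Nat.mul (nat_lit 4) (Nat.add (X (nat_lit 0)) (Nat.add (X (nat_lit 5)) (Nat.add (X (nat_lit 21)) (X (nat_lit 38)))))) (Nat.mul (nat_lit 2036) (Nat.add (X (nat_lit 54)) (X (nat_lit 72))))))) (.nd (nat_lit 120) 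
 (.lf (.mk fun X => (Nat.mul (nat_lit 2036) (X (nat_lit 86))))) 
 (.lf (.mk fun X => (Nat.add (Nat.mul (nat_lit 4) (Nat.add (X (nat_lit 3)) (Nat.add (X (nat_lit 15)) (Nat.add (X (nat_lit 32)) (Nat.add (X (nat_lit 48)) (Nat.add (X (nat_lit 95)) (X (nat_lit 110)))))))) (Nat.mul (nat_lit 2036) (Nat.add (X (nat_lit 65)) (X (nat_lit 79))))))))) (.nd (nat_lit 123) (.nd (nat_lit 122) 
 (.lf (.mk fun X => (Nat.mul (nat_lit 4) (Nat.add (X (nat_lit 97)) (X (nat_lit 112)))))) 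
 (.lf (.mk fun _ => nat_lit 0))) (.nd (nat_lit 124) 
 (.lf (.mk fun _ => nat_lit 0)) 
 (.lf (.mk fun _ => nat_lit 0))))))) (.nd (nat_lit 137) (.nd (nat_lit 131) (.nd (nat_lit 128) (.nd (nat_lit 126) 
 (.lf (.mk fun X => (Nat.add (Nat.mul (nat_lit 8) (Nat.add (X (nat_lit 0)) (Nat.add (X (nat_lit 5)) (Nat.add (X (nat_lit 21)) (X (nat_lit 38)))))) (Nat.mul (nat_lit 4072) (X (nat_lit 54)))))) (.nd (nat_lit 127) 
 (.lf (.mk fun X => (Nat.add (Nat.mul (nat_lit 8) (Nat.add (X (nat_lit 3)) (Nat.add (X (nat_lit 15)) (Nat.add (X (nat_lit 32)) (X (nat_lit 48)))))) (Nat.add (Nat.mul (nat_lit 2036) (X (nat_lit 82))) (Nat.mul (nat_lit 4072) (X (nat_lit 65))))))) 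
 (.lf (.mk fun _ => nat_lit 0)))) (.nd (nat_lit 129) 
 (.lf (.mk fun _ => nat_lit 0)) (.nd (nat_lit 130) 
 (.lf (.mk fun X => (Nat.add (Nat.mul (nat_lit 8) (Nat.add (X (nat_lit 3)) (Nat.add (X (nat_lit 15)) (Nat.add (X (nat_lit 32)) (X (nat_lit 48)))))) (Nat.mul (nat_lit 4072) (Nat.add (X (nat_lit 65)) (X (nat_lit 83))))))) 
 (.lf (.mk fun X => (Nat.add (Nat.mul (nat_lit 4) (Nat.add (X (nat_lit 89)) (Nat.add (X (nat_lit 92)) (Nat.add (X (nat_lit 101)) (Nat.add (X (nat_lit 102)) (Nat.add (X (nat_lit 104)) (Nat.add (X (nat_lit 107)) (Nat.add (X (nat_lit 115)) (X (nat_lit 116)))))))))) (Nat.mul (nat_lit 2036) (X (nat_lit 84))))))))) (.nd (nat_lit 134) (.nd (nat_lit 132) 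
 (.lf (.mk fun X => (Nat.mul (nat_lit 4) (Nat.add (X (nat_lit 91)) (Nat.add (X (nat_lit 94)) (Nat.add (X (nat_lit 103)) (Nat.add (X (nat_lit 106)) (Nat.add (X (nat_lit 109)) (X (nat_lit 117)))))))))) (.nd (nat_lit 133) 
 (.lf (.mk fun X => (Nat.mul (nat_lit 2036) (X (nat_lit 75))))) 
 (.lf (.mk fun X => (Nat.mul (nat_lit 2036) (X (nat_lit 74))))))) (.nd (nat_lit 135) 
 (.lf (.mk fun X => (Nat.mul (nat_lit 2036) (X (nat_lit 85))))) (.nd (nat_lit 136) 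
 (.lf (.mk fun X => (Nat.mul (nat_lit 2036) (X (nat_lit 77))))) 
 (.lf (.mk fun X => (Nat.mul (nat_lit 2048) (X (nat_lit 55))))))))) (.nd (nat_lit 143) (.nd (nat_lit 140) (.nd (nat_lit 138) 
 (.lf (.mk fun _ => nat_lit 0)) (.nd (nat_lit 139) 
 (.lf (.mk fun _ => nat_lit 0)) 
 (.lf (.mk fun X => (Nat.add (Nat.mul (nat_lit 8) (Nat.add (X (nat_lit 3)) (Nat.add (X (nat_lit 15)) (Nat.add (X (nat_lit 32)) (X (nat_lit 48)))))) (Nat.add (Nat.mul (nat_lit 2036) (X (nat_lit 82))) (Nat.mul (nat_lit 4072) (X (nat_lit 65))))))))) (.nd (nat_lit 141) 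
 (.lf (.mk fun _ => nat_lit 0)) (.nd (nat_lit 142) 
 (.lf (.mk fun X => (Nat.mul (nat_lit 4096) (X (nat_lit 55))))) 
 (.lf (.mk fun X => (Nat.mul (nat_lit 8) (Nat.add (X (nat_lit 95)) (X (nat_lit 110))))))))) (.nd (nat_lit 146) (.nd (nat_lit 144) 
 (.lf (.mk fun X => (Nat.add (Nat.mul (nat_lit 8) (Nat.add (X (nat_lit 3)) (Nat.add (X (nat_lit 15)) (Nat.add (X (nat_lit 32)) (Nat.add (X (nat_lit 48)) (Nat.add (X (nat_lit 97)) (X (nat_lit 112)))))))) (Nat.mul (nat_lit 4072) (Nat.add (X (nat_lit 65)) (X (nat_lit 79))))))) (.nd (nat_lit 145) 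
 (.lf (.mk fun X => (Nat.add (Nat.mul (nat_lit 4) (Nat.add (X (nat_lit 0)) (Nat.add (X (nat_lit 5)) (Nat.add (X (nat_lit 21)) (Nat.add (X (nat_lit 38)) (Nat.add (X (nat_lit 54)) (X (nat_lit 71)))))))) (Nat.mul (nat_lit 2036) (X (nat_lit 89)))))) 
 (.lf (.mk fun X => (Nat.mul (nat_lit 2036) (X (nat_lit 103))))))) (.nd (nat_lit 148) (.nd (nat_lit 147) 
 (.lf (.mk fun X => (Nat.add (Nat.mul (nat_lit 4) (Nat.add (X (nat_lit 3)) (Nat.add (X (nat_lit 15)) (Nat.add (X (nat_lit 32)) (Nat.add (X (nat_lit 48)) (Nat.add (X (nat_lit 65)) (X (nat_lit 81)))))))) (Nat.mul (nat_lit 2036) (Nat.add (X (nat_lit 96)) (X (nat_lit 110))))))) 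
 (.lf (.mk fun X => (Nat.mul (nat_lit 2036) (X (nat_lit 112)))))) (.nd (nat_lit 149) 
 (.lf (.mk fun X => (Nat.mul (nat_lit 2048) (X (nat_lit 105))))) 
 (.lf (.mk fun X => (Nat.mul (nat_lit 2048) (X (nat_lit 108))))))))))) (.nd (nat_lit 175) (.nd (nat_lit 162) (.nd (nat_lit 156) (.nd (nat_lit 153) (.nd (nat_lit 151) 
 (.lf (.mk fun _ => nat_lit 0)) (.nd (nat_lit 152) 
 (.lf (.mk fun X => (Nat.mul (nat_lit 8) (Nat.add (X (nat_lit 0)) (Nat.add (X (nat_lit 5)) (Nat.add (X (nat_lit 21)) (Nat.add (X (nat_lit 38)) (Nat.add (X (nat_lit 54)) (X (nat_lit 71)))))))))) 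
 (.lf (.mk fun X => (Nat.add (Nat.mul (nat_lit 8) (Nat.add (X (nat_lit 3)) (Nat.add (X (nat_lit 15)) (Nat.add (X (nat_lit 32)) (Nat.add (X (nat_lit 48)) (Nat.add (X (nat_lit 65)) (X (nat_lit 81)))))))) (Nat.mul (nat_lit 2036) (X (nat_lit 99)))))))) (.nd (nat_lit 154) 
 (.lf (.mk fun _ => nat_lit 0)) (.nd (nat_lit 155) 
 (.lf (.mk fun _ => nat_lit 0)) 
 (.lf (.mk fun X => (Nat.add (Nat.mul (nat_lit 8) (Nat.add (X (nat_lit 3)) (Nat.add (X (nat_lit 15)) (Nat.add (X (nat_lit 32)) (Nat.add (X (nat_lit 48)) (Nat.add (X (nat_lit 65)) (X (nat_lit 81)))))))) (Nat.mul (nat_lit 4072) (X (nat_lit 100))))))))) (.nd (nat_lit 159) (.nd (nat_lit 157) 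
 (.lf (.mk fun X => (Nat.mul (nat_lit 2036) (Nat.add (X (nat_lit 101)) (Nat.add (X (nat_lit 104)) (Nat.add (X (nat_lit 107)) (Nat.add (X (nat_lit 115)) (X (nat_lit 116))))))))) (.nd (nat_lit 158) 
 (.lf (.mk fun X => (Nat.mul (nat_lit 2036) (Nat.add (X (nat_lit 106)) (Nat.add (X (nat_lit 109)) (X (nat_lit 117))))))) 
 (.lf (.mk fun X => (Nat.add (Nat.mul (nat_lit 4) (Nat.add (X (nat_lit 3)) (Nat.add (X (nat_lit 15)) (Nat.add (X (nat_lit 32)) (Nat.add (X (nat_lit 48)) (Nat.add (X (nat_lit 65)) (X (nat_lit 81)))))))) (Nat.add (Nat.mul (nat_lit 509) (X (nat_lit 110))) (Nat.mul (nat_lit 2036) (X (nat_lit 98))))))))) (.nd (nat_lit 160) 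
 (.lf (.mk fun X => (Nat.mul (nat_lit 509) (X (nat_lit 112))))) (.nd (nat_lit 161) 
 (.lf (.mk fun X => (Nat.mul (nat_lit 2036) (X (nat_lit 92))))) 
 (.lf (.mk fun X => (Nat.mul (nat_lit 2036) (X (nat_lit 91))))))))) (.nd (nat_lit 168) (.nd (nat_lit 165) (.nd (nat_lit 163) 
 (.lf (.mk fun X => (Nat.mul (nat_lit 2036) (X (nat_lit 102))))) (.nd (nat_lit 164) 
 (.lf (.mk fun X => (Nat.mul (nat_lit 2036) (X (nat_lit 94))))) 
 (.lf (.mk fun X => (Nat.add (Nat.mul (nat_lit 4) (Nat.add (X (nat_lit 3)) (Nat.add (X (nat_lit 15)) (Nat.add (X (nat_lit 32)) (Nat.add (X (nat_lit 48)) (Nat.add (X (nat_lit 65)) (X (nat_lit 81)))))))) (Nat.mul (nat_lit 2036) (X (nat_lit 100)))))))) (.nd (nat_lit 166) 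
 (.lf (.mk fun _ => nat_lit 0)) (.nd (nat_lit 167) 
 (.lf (.mk fun X => (Nat.mul (nat_lit 4096) (Nat.add (X (nat_lit 1)) (Nat.add (X (nat_lit 22)) (X (nat_lit 55))))))) 
 (.lf (.mk fun _ => nat_lit 0))))) (.nd (nat_lit 171) (.nd (nat_lit 169) 
 (.lf (.mk fun _ => nat_lit 0)) (.nd (nat_lit 170) 
 (.lf (.mk fun X => (Nat.add (Nat.mul (nat_lit 8) (Nat.add (X (nat_lit 3)) (Nat.add (X (nat_lit 15)) (Nat.add (X (nat_lit 32)) (Nat.add (X (nat_lit 48)) (Nat.add (X (nat_lit 65)) (X (nat_lit 81)))))))) (Nat.mul (nat_lit 2036) (X (nat_lit 99)))))) 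
 (.lf (.mk fun _ => nat_lit 0)))) (.nd (nat_lit 173) (.nd (nat_lit 172) 
 (.lf (.mk fun X => (Nat.mul (nat_lit 8192) (Nat.add (X (nat_lit 1)) (Nat.add (X (nat_lit 22)) (X (nat_lit 55))))))) 
 (.lf (.mk fun X => (Nat.mul (nat_lit 4072) (X (nat_lit 110)))))) (.nd (nat_lit 174) 
 (.lf (.mk fun X => (Nat.add (Nat.mul (nat_lit 8) (Nat.add (X (nat_lit 3)) (Nat.add (X (nat_lit 15)) (Nat.add (X (nat_lit 32)) (Nat.add (X (nat_lit 48)) (Nat.add (X (nat_lit 65)) (X (nat_lit 81)))))))) (Nat.mul (nat_lit 4072) (Nat.add (X (nat_lit 96)) (X (nat_lit 112))))))) 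
 (.lf (.mk fun X => (Nat.add (Nat.mul (nat_lit 4) (Nat.add (X (nat_lit 0)) (Nat.add (X (nat_lit 5)) (Nat.add (X (nat_lit 21)) (Nat.add (X (nat_lit 38)) (Nat.add (X (nat_lit 54)) (X (nat_lit 71)))))))) (Nat.mul (nat_lit 2036) (Nat.add (X (nat_lit 87)) (X (nat_lit 104)))))))))))) (.nd (nat_lit 187) (.nd (nat_lit 181) (.nd (nat_lit 178) (.nd (nat_lit 176) 
 (.lf (.mk fun X => (Nat.mul (nat_lit 2036) (X (nat_lit 117))))) (.nd (nat_lit 177) 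
 (.lf (.mk fun X => (Nat.add (Nat.mul (nat_lit 4) (Nat.add (X (nat_lit 3)) (Nat.add (X (nat_lit 15)) (Nat.add (X (nat_lit 32)) (Nat.add (X (nat_lit 48)) (Nat.add (X (nat_lit 65)) (X (nat_lit 81)))))))) (Nat.mul (nat_lit 2036) (Nat.add (X (nat_lit 98)) (X (nat_lit 111))))))) 
 (.lf (.mk fun _ => nat_lit 0)))) (.nd (nat_lit 179) 
 (.lf (.mk fun _ => nat_lit 0)) (.nd (nat_lit 180) 
 (.lf (.mk fun _ => nat_lit 0)) 
 (.lf (.mk fun _ => nat_lit 0))))) (.nd (nat_lit 184) (.nd (nat_lit 182) 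
 (.lf (.mk fun X => (Nat.add (Nat.mul (nat_lit 8) (Nat.add (X (nat_lit 0)) (Nat.add (X (nat_lit 5)) (Nat.add (X (nat_lit 21)) (Nat.add (X (nat_lit 38)) (Nat.add (X (nat_lit 54)) (X (nat_lit 71)))))))) (Nat.mul (nat_lit 4072) (X (nat_lit 87)))))) (.nd (nat_lit 183) 
 (.lf (.mk fun X => (Nat.add (Nat.mul (nat_lit 8) (Nat.add (X (nat_lit 3)) (Nat.add (X (nat_lit 15)) (Nat.add (X (nat_lit 32)) (Nat.add (X (nat_lit 48)) (Nat.add (X (nat_lit 65)) (X (nat_lit 81)))))))) (Nat.add (Nat.mul (nat_lit 2036) (X (nat_lit 113))) (Nat.mul (nat_lit 4072) (X (nat_lit 98))))))) 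
 (.lf (.mk fun _ => nat_lit 0)))) (.nd (nat_lit 185) 
 (.lf (.mk fun _ => nat_lit 0)) (.nd (nat_lit 186) 
 (.lf (.mk fun X => (Nat.add (Nat.mul (nat_lit 8) (Nat.add (X (nat_lit 3)) (Nat.add (X (nat_lit 15)) (Nat.add (X (nat_lit 32)) (Nat.add (X (nat_lit 48)) (Nat.add (X (nat_lit 65)) (X (nat_lit 81)))))))) (Nat.mul (nat_lit 4072) (Nat.add (X (nat_lit 98)) (X (nat_lit 114))))))) 
 (.lf (.mk fun X => (Nat.mul (nat_lit 2036) (X (nat_lit 115))))))))) (.nd (nat_lit 193) (.nd (nat_lit 190) (.nd (nat_lit 188) 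
 (.lf (.mk fun _ => nat_lit 0)) (.nd (nat_lit 189) 
 (.lf (.mk fun X => (Nat.mul (nat_lit 2036) (X (nat_lit 107))))) 
 (.lf (.mk fun X => (Nat.mul (nat_lit 2036) (X (nat_lit 106))))))) (.nd (nat_lit 191) 
 (.lf (.mk fun X => (Nat.mul (nat_lit 2036) (X (nat_lit 116))))) (.nd (nat_lit 192) 
 (.lf (.mk fun X => (Nat.mul (nat_lit 2036) (X (nat_lit 109))))) 
 (.lf (.mk fun X => (Nat.mul (nat_lit 2048) (X (nat_lit 88)))))))) (.nd (nat_lit 196) (.nd (nat_lit 194) 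
 (.lf (.mk fun _ => nat_lit 0)) (.nd (nat_lit 195) 
 (.lf (.mk fun _ => nat_lit 0)) 
 (.lf (.mk fun X => (Nat.add (Nat.mul (nat_lit 8) (Nat.add (X (nat_lit 3)) (Nat.add (X (nat_lit 15)) (Nat.add (X (nat_lit 32)) (Nat.add (X (nat_lit 48)) (Nat.add (X (nat_lit 65)) (X (nat_lit 81)))))))) (Nat.add (Nat.mul (nat_lit 2036) (X (nat_lit 113))) (Nat.mul (nat_lit 4072) (X (nat_lit 98))))))))) (.nd (nat_lit 198) (.nd (nat_lit 197) 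
 (.lf (.mk fun _ => nat_lit 0)) 
 (.lf (.mk fun X => (Nat.mul (nat_lit 4096) (X (nat_lit 88)))))) (.nd (nat_lit 199) 
 (.lf (.mk fun _ => nat_lit 0)) 
 (.lf (.mk fun X => (Nat.add (Nat.mul (nat_lit 8) (Nat.add (X (nat_lit 3)) (Nat.add (X (nat_lit 15)) (Nat.add (X (nat_lit 32)) (Nat.add (X (nat_lit 48)) (Nat.add (X (nat_lit 65)) (X (nat_lit 81)))))))) (Nat.mul (nat_lit 4072) (Nat.add (X (nat_lit 98)) (X (nat_lit 111)))))))))))))))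

noncomputable def raT : Tb Bx := (.nd (nat_lit 150) (.nd (nat_lit 75) (.nd (nat_lit 37) (.nd (nat_lit 18) (.nd (nat_lit 9) (.nd (nat_lit 4) (.nd (nat_lit 2) (.nd (nat_lit 1) 
 (.lf (.mk fun X => (Nat.mul (nat_lit 8) (Nat.add (Nat.mul (X (nat_lit 0)) (X (nat_lit 1))) (Nat.mul (X (nat_lit 2)) (X (nat_lit 1))))))) 
 (.lf (.mk fun X => (Nat.mul (nat_lit 4) (Nat.add (Nat.mul (X (nat_lit 0)) (X (nat_lit 3))) (Nat.mul (X (nat_lit 2)) (X (nat_lit 3)))))))) (.nd (nat_lit 3) 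
 (.lf (.mk fun X => (Nat.mul (nat_lit 8) (Nat.mul (X (nat_lit 3)) (X (nat_lit 1)))))) 
 (.lf (.mk fun X => (Nat.add (Nat.mul (nat_lit 8) (Nat.add (Nat.mul (X (nat_lit 5)) (X (nat_lit 7))) (Nat.mul (X (nat_lit 6)) (X (nat_lit 7))))) (Nat.mul (nat_lit 16) (Nat.add (Nat.mul (X (nat_lit 8)) (X (nat_lit 7))) (Nat.add (Nat.mul (X (nat_lit 9)) (X (nat_lit 10))) (Nat.mul (X (nat_lit 11)) (X (nat_lit 10))))))))))) (.nd (nat_lit 6) (.nd (nat_lit 5) 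
 (.lf (.mk fun X => (Nat.add (Nat.mul (nat_lit 8) (Nat.add (Nat.mul (X (nat_lit 12)) (X (nat_lit 7))) (Nat.add (Nat.mul (X (nat_lit 13)) (X (nat_lit 7))) (Nat.add (Nat.mul (X (nat_lit 15)) (X (nat_lit 7))) (Nat.mul (X (nat_lit 17)) (X (nat_lit 7))))))) (Nat.mul (nat_lit 16) (Nat.add (Nat.mul (X (nat_lit 14)) (X (nat_lit 7))) (Nat.mul (X (nat_lit 16)) (X (nat_lit 7)))))))) 
 (.lf (.mk fun X => (Nat.add (Nat.mul (X (nat_lit 5)) (X (nat_lit 15))) (Nat.add (Nat.mul (nat_lit 4) (Nat.add (Nat.mul (X (nat_lit 5)) (X (nat_lit 12))) (Nat.add (Nat.mul (X (nat_lit 5)) (X (nat_lit 13))) (Nat.add (Nat.mul (X (nat_lit 6)) (X (nat_lit 12))) (Nat.add (Nat.mul (X (nat_lit 6)) (X (nat_lit 13))) (Nat.add (Nat.mul (X (nat_lit 11)) (X (nat_lit 14))) (Nat.add (Nat.mul (X (nat_lit 18)) (X (nat_lit 15))) (Nat.mul (X (nat_lit 19)) (X (nat_lit 17)))))))))) (Nat.mul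 (nat_lit 8) (Nat.add (Nat.mul (X (nat_lit 9)) (X (nat_lit 14))) (Nat.mul (X (nat_lit 9)) (X (nat_lit 16)))))))))) (.nd (nat_lit 7) 
 (.lf (.mk fun X => (Nat.mul (nat_lit 8) (Nat.add (Nat.mul (X (nat_lit 5)) (X (nat_lit 7))) (Nat.add (Nat.mul (X (nat_lit 6)) (X (nat_lit 7))) (Nat.add (Nat.mul (X (nat_lit 8)) (X (nat_lit 7))) (Nat.mul (X (nat_lit 9)) (X (nat_lit 10))))))))) (.nd (nat_lit 8) 
 (.lf (.mk fun X => (Nat.mul (nat_lit 8) (Nat.add (Nat.mul (X (nat_lit 12)) (X (nat_lit 10))) (Nat.add (Nat.mul (X (nat_lit 13)) (X (nat_lit 10))) (Nat.add (Nat.mul (X (nat_lit 14)) (X (nat_lit 10))) (Nat.add (Nat.mul (X (nat_lit 15)) (X (nat_lit 10))) (Nat.mul (X (nat_lit 16)) (X (nat_lit 10)))))))))) 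
 (.lf (.mk fun X => (Nat.add (Nat.mul (nat_lit 4) (Nat.mul (X (nat_lit 15)) (X (nat_lit 10)))) (Nat.mul (nat_lit 8) (Nat.add (Nat.mul (X (nat_lit 12)) (X (nat_lit 10))) (Nat.add (Nat.mul (X (nat_lit 13)) (X (nat_lit 10))) (Nat.mul (X (nat_lit 16)) (X (nat_lit 10))))))))))))) (.nd (nat_lit 13) (.nd (nat_lit 11) (.nd (nat_lit 10) 
 (.lf (.mk fun X => (Nat.add (Nat.mul (nat_lit 8) (Nat.add (Nat.mul (X (nat_lit 5)) (X (nat_lit 7))) (Nat.add (Nat.mul (X (nat_lit 6)) (X (nat_lit 7))) (Nat.mul (X (nat_lit 11)) (X (nat_lit 10)))))) (Nat.mul (nat_lit 16) (Nat.mul (X (nat_lit 9)) (X (nat_lit 10))))))) 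
 (.lf (.mk fun X => (Nat.mul (nat_lit 8) (Nat.add (Nat.mul (X (nat_lit 5)) (X (nat_lit 7))) (Nat.add (Nat.mul (X (nat_lit 6)) (X (nat_lit 7))) (Nat.add (Nat.mul (X (nat_lit 8)) (X (nat_lit 7))) (Nat.add (Nat.mul (X (nat_lit 9)) (X (nat_lit 10))) (Nat.mul (X (nat_lit 11)) (X (nat_lit 10))))))))))) (.nd (nat_lit 12) 
 (.lf (.mk fun X => (Nat.mul (nat_lit 8) (Nat.add (Nat.mul (X (nat_lit 5)) (X (nat_lit 7))) (Nat.mul (X (nat_lit 6)) (X (nat_lit 7))))))) 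
 (.lf (.mk fun X => (Nat.add (Nat.mul (nat_lit 4) (Nat.add (Nat.mul (X (nat_lit 5)) (X (nat_lit 12))) (Nat.add (Nat.mul (X (nat_lit 5)) (X (nat_lit 13))) (Nat.add (Nat.mul (X (nat_lit 5)) (X (nat_lit 15))) (Nat.add (Nat.mul (X (nat_lit 5)) (X (nat_lit 17))) (Nat.add (Nat.mul (X (nat_lit 6)) (X (nat_lit 12))) (Nat.add (Nat.mul (X (nat_lit 6)) (X (nat_lit 13))) (Nat.add (Nat.mul (X (nat_lit 6)) (X (nat_lit 15))) (Nat.mul (X (nat_lit 6)) (X (nat_lit 17))))))))))) (Nat.mul (nat_lit 8) (Nat.add (Nat.mul (X (nat_lit 5)) (X (nat_lit 14))) (Nat.add (Nat.mul (X (nat_lit 5)) (X (nat_lit 16))) (Nat.add (Nat.mul (X (nat_lit 6)) (X (nat_lit 14))) (Nat.add (Nat.mul (X (nat_lit 6)) (X (nat_lit 16))) (Nat.add (Nat.mul (X (nat_lit 8)) (X (nat_lit 12))) (Nat.add (Nat.mul (X (nat_lit 8)) (X (nat_lit 13))) (Nat.add (Nat.mul (X (nat_lit 8)) (X (nat_lit 14))) (Nat.mul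 (X (nat_lit 8)) (X (nat_lit 16)))))))))))))))) (.nd (nat_lit 15) (.nd (nat_lit 14) 
 (.lf (.mk fun X => (Nat.mul (nat_lit 8) (Nat.add (Nat.mul (X (nat_lit 12)) (X (nat_lit 7))) (Nat.add (Nat.mul (X (nat_lit 13)) (X (nat_lit 7))) (Nat.add (Nat.mul (X (nat_lit 14)) (X (nat_lit 7))) (Nat.mul (X (nat_lit 16)) (X (nat_lit 7))))))))) 
 (.lf (.mk fun X => (Nat.add (Nat.mul (nat_lit 2) (Nat.mul (X (nat_lit 11)) (X (nat_lit 15)))) (Nat.mul (nat_lit 4) (Nat.add (Nat.mul (X (nat_lit 9)) (X (nat_lit 12))) (Nat.add (Nat.mul (X (nat_lit 9)) (X (nat_lit 13))) (Nat.add (Nat.mul (X (nat_lit 9)) (X (nat_lit 14))) (Nat.add (Nat.mul (X (nat_lit 9)) (X (nat_lit 15))) (Nat.add (Nat.mul (X (nat_lit 9)) (X (nat_lit 16))) (Nat.add (Nat.mul (X (nat_lit 11)) (X (nat_lit 12))) (Nat.add (Nat.mul (X (nat_lit 11)) (X (nat_lit 13))) (Nat.mul (X (nat_lit 11)) (X (nat_lit 16)))))))))))))))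 (.nd (nat_lit 16) 
 (.lf (.mk fun _ => nat_lit 0)) (.nd (nat_lit 17) 
 (.lf (.mk fun X => (Nat.add (Nat.mul (nat_lit 8) (Nat.add (Nat.mul (X (nat_lit 21)) (X (nat_lit 22))) (Nat.add (Nat.mul (X (nat_lit 21)) (X (nat_lit 24))) (Nat.add (Nat.mul (X (nat_lit 23)) (X (nat_lit 22))) (Nat.mul (X (nat_lit 23)) (X (nat_lit 24))))))) (Nat.mul (nat_lit 16) (Nat.add (Nat.mul (X (nat_lit 25)) (X (nat_lit 24))) (Nat.add (Nat.mul (X (nat_lit 26)) (X (nat_lit 27))) (Nat.mul (X (nat_lit 28)) (X (nat_lit 27))))))))) 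
 (.lf (.mk fun X => (Nat.add (Nat.mul (nat_lit 8) (Nat.add (Nat.mul (X (nat_lit 29)) (X (nat_lit 22))) (Nat.add (Nat.mul (X (nat_lit 29)) (X (nat_lit 24))) (Nat.add (Nat.mul (X (nat_lit 30)) (X (nat_lit 22))) (Nat.add (Nat.mul (X (nat_lit 30)) (X (nat_lit 24))) (Nat.add (Nat.mul (X (nat_lit 32)) (X (nat_lit 24))) (Nat.mul (X (nat_lit 34)) (X (nat_lit 24))))))))) (Nat.mul (nat_lit 16) (Nat.add (Nat.mul (X (nat_lit 31)) (X (nat_lit 24))) (Nat.mul (X (nat_lit 33)) (X (nat_lit 24))))))))))))) (.nd (nat_lit 27) (.nd (nat_lit 22) (.nd (nat_lit 20) (.nd (nat_lit 19) 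
 (.lf (.mk fun X => (Nat.add (Nat.mul (X (nat_lit 21)) (X (nat_lit 32))) (Nat.add (Nat.mul (nat_lit 4) (Nat.add (Nat.mul (X (nat_lit 21)) (X (nat_lit 29))) (Nat.add (Nat.mul (X (nat_lit 21)) (X (nat_lit 30))) (Nat.add (Nat.mul (X (nat_lit 23)) (X (nat_lit 29))) (Nat.add (Nat.mul (X (nat_lit 23)) (X (nat_lit 30))) (Nat.add (Nat.mul (X (nat_lit 28)) (X (nat_lit 31))) (Nat.add (Nat.mul (X (nat_lit 35)) (X (nat_lit 32))) (Nat.mul (X (nat_lit 36)) (X (nat_lit 34)))))))))) (Nat.mul (nat_lit 8) (Nat.add (Nat.mul (X (nat_lit 26)) (X (nat_lit 31))) (Nat.mul (X (nat_lit 26)) (X (nat_lit 33))))))))) 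
 (.lf (.mk fun X => (Nat.add (Nat.mul (nat_lit 4) (Nat.mul (X (nat_lit 28)) (X (nat_lit 22)))) (Nat.mul (nat_lit 8) (Nat.add (Nat.mul (X (nat_lit 21)) (X (nat_lit 24))) (Nat.add (Nat.mul (X (nat_lit 23)) (X (nat_lit 24))) (Nat.add (Nat.mul (X (nat_lit 25)) (X (nat_lit 24))) (Nat.add (Nat.mul (X (nat_lit 26)) (X (nat_lit 22))) (Nat.mul (X (nat_lit 26)) (X (nat_lit 27)))))))))))) (.nd (nat_lit 21) 
 (.lf (.mk fun X => (Nat.mul (nat_lit 8) (Nat.add (Nat.mul (X (nat_lit 29)) (X (nat_lit 27))) (Nat.add (Nat.mul (X (nat_lit 30)) (X (nat_lit 27))) (Nat.add (Nat.mul (X (nat_lit 31)) (X (nat_lit 22))) (Nat.add (Nat.mul (X (nat_lit 31)) (X (nat_lit 27))) (Nat.add (Nat.mul (X (nat_lit 32)) (X (nat_lit 27))) (Nat.add (Nat.mul (X (nat_lit 33)) (X (nat_lit 22))) (Nat.mul (X (nat_lit 33)) (X (nat_lit 27)))))))))))) 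
 (.lf (.mk fun X => (Nat.add (Nat.mul (nat_lit 4) (Nat.add (Nat.mul (X (nat_lit 31)) (X (nat_lit 22))) (Nat.mul (X (nat_lit 32)) (X (nat_lit 27))))) (Nat.mul (nat_lit 8) (Nat.add (Nat.mul (X (nat_lit 29)) (X (nat_lit 27))) (Nat.add (Nat.mul (X (nat_lit 30)) (X (nat_lit 27))) (Nat.mul (X (nat_lit 33)) (X (nat_lit 27))))))))))) (.nd (nat_lit 24) (.nd (nat_lit 23) 
 (.lf (.mk fun X => (Nat.add (Nat.mul (nat_lit 2) (Nat.mul (X (nat_lit 21)) (X (nat_lit 22)))) (Nat.add (Nat.mul (nat_lit 8) (Nat.add (Nat.mul (X (nat_lit 21)) (X (nat_lit 24))) (Nat.add (Nat.mul (X (nat_lit 23)) (X (nat_lit 24))) (Nat.add (Nat.mul (X (nat_lit 28)) (X (nat_lit 27))) (Nat.mul (X (nat_lit 35)) (X (nat_lit 22))))))) (Nat.mul (nat_lit 16) (Nat.mul (X (nat_lit 26)) (X (nat_lit 27)))))))) 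
 (.lf (.mk fun X => (Nat.mul (nat_lit 8) (Nat.mul (X (nat_lit 32)) (X (nat_lit 22))))))) (.nd (nat_lit 25) 
 (.lf (.mk fun X => (Nat.mul (nat_lit 8) (Nat.add (Nat.mul (X (nat_lit 21)) (X (nat_lit 24))) (Nat.add (Nat.mul (X (nat_lit 23)) (X (nat_lit 24))) (Nat.add (Nat.mul (X (nat_lit 25)) (X (nat_lit 24))) (Nat.add (Nat.mul (X (nat_lit 26)) (X (nat_lit 22))) (Nat.add (Nat.mul (X (nat_lit 26)) (X (nat_lit 27))) (Nat.mul (X (nat_lit 28)) (X (nat_lit 27))))))))))) (.nd (nat_lit 26) 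
 (.lf (.mk fun X => (Nat.mul (nat_lit 8) (Nat.add (Nat.mul (X (nat_lit 21)) (X (nat_lit 24))) (Nat.add (Nat.mul (X (nat_lit 23)) (X (nat_lit 24))) (Nat.mul (X (nat_lit 36)) (X (nat_lit 22)))))))) 
 (.lf (.mk fun X => (Nat.mul (nat_lit 8) (Nat.mul (X (nat_lit 34)) (X (nat_lit 22)))))))))) (.nd (nat_lit 32) (.nd (nat_lit 29) (.nd (nat_lit 28) 
 (.lf (.mk fun X => (Nat.add (Nat.mul (nat_lit 4) (Nat.add (Nat.mul (X (nat_lit 21)) (X (nat_lit 29))) (Nat.add (Nat.mul (X (nat_lit 21)) (X (nat_lit 30))) (Nat.add (Nat.mul (X (nat_lit 21)) (X (nat_lit 32))) (Nat.add (Nat.mul (X (nat_lit 21)) (X (nat_lit 34))) (Nat.add (Nat.mul (X (nat_lit 23)) (X (nat_lit 29))) (Nat.add (Nat.mul (X (nat_lit 23)) (X (nat_lit 30))) (Nat.add (Nat.mul (X (nat_lit 23)) (X (nat_lit 32))) (Nat.mul (X (nat_lit 23)) (X (nat_lit 34))))))))))) (Nat.mul (nat_lit 8) (Nat.add (Nat.mul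 (X (nat_lit 21)) (X (nat_lit 31))) (Nat.add (Nat.mul (X (nat_lit 21)) (X (nat_lit 33))) (Nat.add (Nat.mul (X (nat_lit 23)) (X (nat_lit 31))) (Nat.add (Nat.mul (X (nat_lit 23)) (X (nat_lit 33))) (Nat.add (Nat.mul (X (nat_lit 25)) (X (nat_lit 29))) (Nat.add (Nat.mul (X (nat_lit 25)) (X (nat_lit 30))) (Nat.add (Nat.mul (X (nat_lit 25)) (X (nat_lit 31))) (Nat.mul (X (nat_lit 25)) (X (nat_lit 33)))))))))))))) 
 (.lf (.mk fun X => (Nat.mul (nat_lit 8) (Nat.add (Nat.mul (X (nat_lit 29)) (X (nat_lit 24))) (Nat.add (Nat.mul (X (nat_lit 30)) (X (nat_lit 24))) (Nat.add (Nat.mul (X (nat_lit 31)) (X (nat_lit 24))) (Nat.mul (X (nat_lit 33)) (X (nat_lit 24)))))))))) (.nd (nat_lit 30) 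
 (.lf (.mk fun X => (Nat.add (Nat.mul (nat_lit 2) (Nat.mul (X (nat_lit 28)) (X (nat_lit 32)))) (Nat.mul (nat_lit 4) (Nat.add (Nat.mul (X (nat_lit 26)) (X (nat_lit 29))) (Nat.add (Nat.mul (X (nat_lit 26)) (X (nat_lit 30))) (Nat.add (Nat.mul (X (nat_lit 26)) (X (nat_lit 31))) (Nat.add (Nat.mul (X (nat_lit 26)) (X (nat_lit 32))) (Nat.add (Nat.mul (X (nat_lit 26)) (X (nat_lit 33))) (Nat.add (Nat.mul (X (nat_lit 28)) (X (nat_lit 29))) (Nat.add (Nat.mul (X (nat_lit 28)) (X (nat_lit 30))) (Nat.mul (X (nat_lit 28)) (X (nat_lit 33)))))))))))))) (.nd (nat_lit 31) 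
 (.lf (.mk fun _ => nat_lit 0)) 
 (.lf (.mk fun X => (Nat.add (Nat.mul (nat_lit 8) (Nat.add (Nat.mul (X (nat_lit 38)) (X (nat_lit 40))) (Nat.mul (X (nat_lit 39)) (X (nat_lit 40))))) (Nat.mul (nat_lit 16) (Nat.add (Nat.mul (X (nat_lit 41)) (X (nat_lit 40))) (Nat.add (Nat.mul (X (nat_lit 42)) (X (nat_lit 43))) (Nat.mul (X (nat_lit 44)) (X (nat_lit 43)))))))))))) (.nd (nat_lit 34) (.nd (nat_lit 33) 
 (.lf (.mk fun X => (Nat.add (Nat.mul (nat_lit 8) (Nat.add (Nat.mul (X (nat_lit 45)) (X (nat_lit 40))) (Nat.add (Nat.mul (X (nat_lit 46)) (X (nat_lit 40))) (Nat.add (Nat.mul (X (nat_lit 48)) (X (nat_lit 40))) (Nat.mul (X (nat_lit 50)) (X (nat_lit 40))))))) (Nat.mul (nat_lit 16) (Nat.add (Nat.mul (X (nat_lit 47)) (X (nat_lit 40))) (Nat.mul (X (nat_lit 49)) (X (nat_lit 40)))))))) 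
 (.lf (.mk fun X => (Nat.add (Nat.mul (X (nat_lit 38)) (X (nat_lit 48))) (Nat.add (Nat.mul (nat_lit 4) (Nat.add (Nat.mul (X (nat_lit 38)) (X (nat_lit 45))) (Nat.add (Nat.mul (X (nat_lit 38)) (X (nat_lit 46))) (Nat.add (Nat.mul (X (nat_lit 39)) (X (nat_lit 45))) (Nat.add (Nat.mul (X (nat_lit 39)) (X (nat_lit 46))) (Nat.add (Nat.mul (X (nat_lit 44)) (X (nat_lit 47))) (Nat.add (Nat.mul (X (nat_lit 51)) (X (nat_lit 48))) (Nat.mul (X (nat_lit 52)) (X (nat_lit 50)))))))))) (Nat.mul (nat_lit 8) (Nat.add (Nat.mul (X (nat_lit 42)) (X (nat_lit 47))) (Nat.mul (X (nat_lit 42)) (X (nat_lit 49)))))))))) (.nd (nat_lit 35) 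
 (.lf (.mk fun X => (Nat.mul (nat_lit 8) (Nat.add (Nat.mul (X (nat_lit 38)) (X (nat_lit 40))) (Nat.add (Nat.mul (X (nat_lit 39)) (X (nat_lit 40))) (Nat.add (Nat.mul (X (nat_lit 41)) (X (nat_lit 40))) (Nat.mul (X (nat_lit 42)) (X (nat_lit 43))))))))) (.nd (nat_lit 36) 
 (.lf (.mk fun X => (Nat.mul (nat_lit 8) (Nat.add (Nat.mul (X (nat_lit 45)) (X (nat_lit 43))) (Nat.add (Nat.mul (X (nat_lit 46)) (X (nat_lit 43))) (Nat.add (Nat.mul (X (nat_lit 47)) (X (nat_lit 43))) (Nat.add (Nat.mul (X (nat_lit 48)) (X (nat_lit 43))) (Nat.mul (X (nat_lit 49)) (X (nat_lit 43)))))))))) 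
 (.lf (.mk fun X => (Nat.add (Nat.mul (nat_lit 4) (Nat.mul (X (nat_lit 48)) (X (nat_lit 43)))) (Nat.mul (nat_lit 8) (Nat.add (Nat.mul (X (nat_lit 45)) (X (nat_lit 43))) (Nat.add (Nat.mul (X (nat_lit 46)) (X (nat_lit 43))) (Nat.mul (X (nat_lit 49)) (X (nat_lit 43))))))))))))))) (.nd (nat_lit 56) (.nd (nat_lit 46) (.nd (nat_lit 41) (.nd (nat_lit 39) (.nd (nat_lit 38) 
 (.lf (.mk fun X => (Nat.add (Nat.mul (nat_lit 8) (Nat.add (Nat.mul (X (nat_lit 38)) (X (nat_lit 40))) (Nat.add (Nat.mul (X (nat_lit 39)) (X (nat_lit 40))) (Nat.mul (X (nat_lit 44)) (X (nat_lit 43)))))) (Nat.mul (nat_lit 16) (Nat.mul (X (nat_lit 42)) (X (nat_lit 43))))))) 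
 (.lf (.mk fun X => (Nat.mul (nat_lit 8) (Nat.add (Nat.mul (X (nat_lit 38)) (X (nat_lit 40))) (Nat.add (Nat.mul (X (nat_lit 39)) (X (nat_lit 40))) (Nat.add (Nat.mul (X (nat_lit 41)) (X (nat_lit 40))) (Nat.add (Nat.mul (X (nat_lit 42)) (X (nat_lit 43))) (Nat.mul (X (nat_lit 44)) (X (nat_lit 43))))))))))) (.nd (nat_lit 40) 
 (.lf (.mk fun X => (Nat.mul (nat_lit 8) (Nat.add (Nat.mul (X (nat_lit 38)) (X (nat_lit 40))) (Nat.mul (X (nat_lit 39)) (X (nat_lit 40))))))) 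
 (.lf (.mk fun X => (Nat.add (Nat.mul (nat_lit 4) (Nat.add (Nat.mul (X (nat_lit 38)) (X (nat_lit 45))) (Nat.add (Nat.mul (X (nat_lit 38)) (X (nat_lit 46))) (Nat.add (Nat.mul (X (nat_lit 38)) (X (nat_lit 48))) (Nat.add (Nat.mul (X (nat_lit 38)) (X (nat_lit 50))) (Nat.add (Nat.mul (X (nat_lit 39)) (X (nat_lit 45))) (Nat.add (Nat.mul (X (nat_lit 39)) (X (nat_lit 46))) (Nat.add (Nat.mul (X (nat_lit 39)) (X (nat_lit 48))) (Nat.mul (X (nat_lit 39)) (X (nat_lit 50))))))))))) (Nat.mul (nat_lit 8) (Nat.add (Nat.mul (X (nat_lit 38)) (X (nat_lit 47))) (Nat.add (Nat.mul (X (nat_lit 38)) (X (nat_lit 49))) (Nat.add (Nat.mul (X (nat_lit 39)) (X (nat_lit 47))) (Nat.add (Nat.mul (X (nat_lit 39)) (X (nat_lit 49))) (Nat.add (Nat.mul (X (nat_lit 41)) (X (nat_lit 45))) (Nat.add (Nat.mul (X (nat_lit 41)) (X (nat_lit 46))) (Nat.add (Nat.mul (X (nat_lit 41)) (X (nat_lit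 47))) (Nat.mul (X (nat_lit 41)) (X (nat_lit 49)))))))))))))))) (.nd (nat_lit 43) (.nd (nat_lit 42) 
 (.lf (.mk fun X => (Nat.mul (nat_lit 8) (Nat.add (Nat.mul (X (nat_lit 45)) (X (nat_lit 40))) (Nat.add (Nat.mul (X (nat_lit 46)) (X (nat_lit 40))) (Nat.add (Nat.mul (X (nat_lit 47)) (X (nat_lit 40))) (Nat.mul (X (nat_lit 49)) (X (nat_lit 40))))))))) 
 (.lf (.mk fun X => (Nat.add (Nat.mul (nat_lit 2) (Nat.mul (X (nat_lit 44)) (X (nat_lit 48)))) (Nat.mul (nat_lit 4) (Nat.add (Nat.mul (X (nat_lit 42)) (X (nat_lit 45))) (Nat.add (Nat.mul (X (nat_lit 42)) (X (nat_lit 46))) (Nat.add (Nat.mul (X (nat_lit 42)) (X (nat_lit 47))) (Nat.add (Nat.mul (X (nat_lit 42)) (X (nat_lit 48))) (Nat.add (Nat.mul (X (nat_lit 42)) (X (nat_lit 49))) (Nat.add (Nat.mul (X (nat_lit 44)) (X (nat_lit 45))) (Nat.add (Nat.mul (X (nat_lit 44)) (X (nat_lit 46))) (Nat.mul (X (nat_lit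 44)) (X (nat_lit 49))))))))))))))) (.nd (nat_lit 44) 
 (.lf (.mk fun _ => nat_lit 0)) (.nd (nat_lit 45) 
 (.lf (.mk fun X => (Nat.add (Nat.mul (nat_lit 8) (Nat.add (Nat.mul (X (nat_lit 54)) (X (nat_lit 55))) (Nat.add (Nat.mul (X (nat_lit 54)) (X (nat_lit 57))) (Nat.add (Nat.mul (X (nat_lit 56)) (X (nat_lit 55))) (Nat.mul (X (nat_lit 56)) (X (nat_lit 57))))))) (Nat.mul (nat_lit 16) (Nat.add (Nat.mul (X (nat_lit 58)) (X (nat_lit 57))) (Nat.add (Nat.mul (X (nat_lit 59)) (X (nat_lit 60))) (Nat.mul (X (nat_lit 61)) (X (nat_lit 60))))))))) 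
 (.lf (.mk fun X => (Nat.add (Nat.mul (nat_lit 8) (Nat.add (Nat.mul (X (nat_lit 62)) (X (nat_lit 55))) (Nat.add (Nat.mul (X (nat_lit 62)) (X (nat_lit 57))) (Nat.add (Nat.mul (X (nat_lit 63)) (X (nat_lit 55))) (Nat.add (Nat.mul (X (nat_lit 63)) (X (nat_lit 57))) (Nat.add (Nat.mul (X (nat_lit 65)) (X (nat_lit 57))) (Nat.mul (X (nat_lit 67)) (X (nat_lit 57))))))))) (Nat.mul (nat_lit 16) (Nat.add (Nat.mul (X (nat_lit 64)) (X (nat_lit 57))) (Nat.mul (X (nat_lit 66)) (X (nat_lit 57)))))))))))) (.nd (nat_lit 51) (.nd (nat_lit 48) (.nd (nat_lit 47) 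
 (.lf (.mk fun X => (Nat.add (Nat.mul (X (nat_lit 54)) (X (nat_lit 65))) (Nat.add (Nat.mul (nat_lit 4) (Nat.add (Nat.mul (X (nat_lit 54)) (X (nat_lit 62))) (Nat.add (Nat.mul (X (nat_lit 54)) (X (nat_lit 63))) (Nat.add (Nat.mul (X (nat_lit 56)) (X (nat_lit 62))) (Nat.add (Nat.mul (X (nat_lit 56)) (X (nat_lit 63))) (Nat.add (Nat.mul (X (nat_lit 61)) (X (nat_lit 64))) (Nat.add (Nat.mul (X (nat_lit 68)) (X (nat_lit 65))) (Nat.mul (X (nat_lit 69)) (X (nat_lit 67)))))))))) (Nat.mul (nat_lit 8) (Nat.add (Nat.mul (X (nat_lit 59)) (X (nat_lit 64))) (Nat.mul (X (nat_lit 59)) (X (nat_lit 66))))))))) 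
 (.lf (.mk fun X => (Nat.add (Nat.mul (nat_lit 4) (Nat.mul (X (nat_lit 61)) (X (nat_lit 55)))) (Nat.mul (nat_lit 8) (Nat.add (Nat.mul (X (nat_lit 54)) (X (nat_lit 57))) (Nat.add (Nat.mul (X (nat_lit 56)) (X (nat_lit 57))) (Nat.add (Nat.mul (X (nat_lit 58)) (X (nat_lit 57))) (Nat.add (Nat.mul (X (nat_lit 59)) (X (nat_lit 55))) (Nat.mul (X (nat_lit 59)) (X (nat_lit 60)))))))))))) (.nd (nat_lit 49) 
 (.lf (.mk fun X => (Nat.mul (nat_lit 8) (Nat.add (Nat.mul (X (nat_lit 62)) (X (nat_lit 60))) (Nat.add (Nat.mul (X (nat_lit 63)) (X (nat_lit 60))) (Nat.add (Nat.mul (X (nat_lit 64)) (X (nat_lit 55))) (Nat.add (Nat.mul (X (nat_lit 64)) (X (nat_lit 60))) (Nat.add (Nat.mul (X (nat_lit 65)) (X (nat_lit 60))) (Nat.add (Nat.mul (X (nat_lit 66)) (X (nat_lit 55))) (Nat.mul (X (nat_lit 66)) (X (nat_lit 60)))))))))))) (.nd (nat_lit 50) 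
 (.lf (.mk fun X => (Nat.add (Nat.mul (nat_lit 4) (Nat.add (Nat.mul (X (nat_lit 64)) (X (nat_lit 55))) (Nat.mul (X (nat_lit 65)) (X (nat_lit 60))))) (Nat.mul (nat_lit 8) (Nat.add (Nat.mul (X (nat_lit 62)) (X (nat_lit 60))) (Nat.add (Nat.mul (X (nat_lit 63)) (X (nat_lit 60))) (Nat.mul (X (nat_lit 66)) (X (nat_lit 60))))))))) 
 (.lf (.mk fun X => (Nat.add (Nat.mul (nat_lit 2) (Nat.mul (X (nat_lit 54)) (X (nat_lit 55)))) (Nat.add (Nat.mul (nat_lit 8) (Nat.add (Nat.mul (X (nat_lit 54)) (X (nat_lit 57))) (Nat.add (Nat.mul (X (nat_lit 56)) (X (nat_lit 57))) (Nat.add (Nat.mul (X (nat_lit 61)) (X (nat_lit 60))) (Nat.mul (X (nat_lit 68)) (X (nat_lit 55))))))) (Nat.mul (nat_lit 16) (Nat.mul (X (nat_lit 59)) (X (nat_lit 60))))))))))) (.nd (nat_lit 53) (.nd (nat_lit 52) 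
 (.lf (.mk fun X => (Nat.mul (nat_lit 8) (Nat.mul (X (nat_lit 65)) (X (nat_lit 55)))))) 
 (.lf (.mk fun X => (Nat.mul (nat_lit 8) (Nat.add (Nat.mul (X (nat_lit 54)) (X (nat_lit 57))) (Nat.add (Nat.mul (X (nat_lit 56)) (X (nat_lit 57))) (Nat.add (Nat.mul (X (nat_lit 58)) (X (nat_lit 57))) (Nat.add (Nat.mul (X (nat_lit 59)) (X (nat_lit 55))) (Nat.add (Nat.mul (X (nat_lit 59)) (X (nat_lit 60))) (Nat.mul (X (nat_lit 61)) (X (nat_lit 60)))))))))))) (.nd (nat_lit 54) 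
 (.lf (.mk fun X => (Nat.mul (nat_lit 8) (Nat.add (Nat.mul (X (nat_lit 54)) (X (nat_lit 57))) (Nat.add (Nat.mul (X (nat_lit 56)) (X (nat_lit 57))) (Nat.mul (X (nat_lit 69)) (X (nat_lit 55)))))))) (.nd (nat_lit 55) 
 (.lf (.mk fun X => (Nat.mul (nat_lit 8) (Nat.mul (X (nat_lit 67)) (X (nat_lit 55)))))) 
 (.lf (.mk fun X => (Nat.add (Nat.mul (nat_lit 4) (Nat.add (Nat.mul (X (nat_lit 54)) (X (nat_lit 62))) (Nat.add (Nat.mul (X (nat_lit 54)) (X (nat_lit 63))) (Nat.add (Nat.mul (X (nat_lit 54)) (X (nat_lit 65))) (Nat.add (Nat.mul (X (nat_lit 54)) (X (nat_lit 67))) (Nat.add (Nat.mul (X (nat_lit 56)) (X (nat_lit 62))) (Nat.add (Nat.mul (X (nat_lit 56)) (X (nat_lit 63))) (Nat.add (Nat.mul (X (nat_lit 56)) (X (nat_lit 65))) (Nat.mul (X (nat_lit 56)) (X (nat_lit 67))))))))))) (Nat.mul (nat_lit 8) (Nat.add (Nat.mul (X (nat_lit 54)) (X (nat_lit 64))) (Nat.add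 (Nat.mul (X (nat_lit 54)) (X (nat_lit 66))) (Nat.add (Nat.mul (X (nat_lit 56)) (X (nat_lit 64))) (Nat.add (Nat.mul (X (nat_lit 56)) (X (nat_lit 66))) (Nat.add (Nat.mul (X (nat_lit 58)) (X (nat_lit 62))) (Nat.add (Nat.mul (X (nat_lit 58)) (X (nat_lit 63))) (Nat.add (Nat.mul (X (nat_lit 58)) (X (nat_lit 64))) (Nat.mul (X (nat_lit 58)) (X (nat_lit 66))))))))))))))))))) (.nd (nat_lit 65) (.nd (nat_lit 60) (.nd (nat_lit 58) (.nd (nat_lit 57) 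
 (.lf (.mk fun X => (Nat.mul (nat_lit 8) (Nat.add (Nat.mul (X (nat_lit 62)) (X (nat_lit 57))) (Nat.add (Nat.mul (X (nat_lit 63)) (X (nat_lit 57))) (Nat.add (Nat.mul (X (nat_lit 64)) (X (nat_lit 57))) (Nat.mul (X (nat_lit 66)) (X (nat_lit 57))))))))) 
 (.lf (.mk fun X => (Nat.add (Nat.mul (nat_lit 2) (Nat.mul (X (nat_lit 61)) (X (nat_lit 65)))) (Nat.mul (nat_lit 4) (Nat.add (Nat.mul (X (nat_lit 59)) (X (nat_lit 62))) (Nat.add (Nat.mul (X (nat_lit 59)) (X (nat_lit 63))) (Nat.add (Nat.mul (X (nat_lit 59)) (X (nat_lit 64))) (Nat.add (Nat.mul (X (nat_lit 59)) (X (nat_lit 65))) (Nat.add (Nat.mul (X (nat_lit 59)) (X (nat_lit 66))) (Nat.add (Nat.mul (X (nat_lit 61)) (X (nat_lit 62))) (Nat.add (Nat.mul (X (nat_lit 61)) (X (nat_lit 63))) (Nat.mul (X (nat_lit 61)) (X (nat_lit 66))))))))))))))) (.nd (nat_lit 59) 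
 (.lf (.mk fun _ => nat_lit 0)) 
 (.lf (.mk fun X => (Nat.add (Nat.mul (nat_lit 8) (Nat.add (Nat.mul (X (nat_lit 71)) (X (nat_lit 73))) (Nat.mul (X (nat_lit 72)) (X (nat_lit 73))))) (Nat.mul (nat_lit 16) (Nat.add (Nat.mul (X (nat_lit 74)) (X (nat_lit 73))) (Nat.add (Nat.mul (X (nat_lit 75)) (X (nat_lit 76))) (Nat.mul (X (nat_lit 77)) (X (nat_lit 76))))))))))) (.nd (nat_lit 62) (.nd (nat_lit 61) 
 (.lf (.mk fun X => (Nat.add (Nat.mul (nat_lit 8) (Nat.add (Nat.mul (X (nat_lit 78)) (X (nat_lit 73))) (Nat.add (Nat.mul (X (nat_lit 79)) (X (nat_lit 73))) (Nat.add (Nat.mul (X (nat_lit 81)) (X (nat_lit 73))) (Nat.mul (X (nat_lit 83)) (X (nat_lit 73))))))) (Nat.mul (nat_lit 16) (Nat.add (Nat.mul (X (nat_lit 80)) (X (nat_lit 73))) (Nat.mul (X (nat_lit 82)) (X (nat_lit 73)))))))) 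
 (.lf (.mk fun X => (Nat.add (Nat.mul (X (nat_lit 71)) (X (nat_lit 81))) (Nat.add (Nat.mul (nat_lit 4) (Nat.add (Nat.mul (X (nat_lit 71)) (X (nat_lit 78))) (Nat.add (Nat.mul (X (nat_lit 71)) (X (nat_lit 79))) (Nat.add (Nat.mul (X (nat_lit 72)) (X (nat_lit 78))) (Nat.add (Nat.mul (X (nat_lit 72)) (X (nat_lit 79))) (Nat.add (Nat.mul (X (nat_lit 77)) (X (nat_lit 80))) (Nat.add (Nat.mul (X (nat_lit 84)) (X (nat_lit 81))) (Nat.mul (X (nat_lit 85)) (X (nat_lit 83)))))))))) (Nat.mul (nat_lit 8) (Nat.add (Nat.mul (X (nat_lit 75)) (X (nat_lit 80))) (Nat.mul (X (nat_lit 75)) (X (nat_lit 82)))))))))) (.nd (nat_lit 63) 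
 (.lf (.mk fun X => (Nat.mul (nat_lit 8) (Nat.add (Nat.mul (X (nat_lit 71)) (X (nat_lit 73))) (Nat.add (Nat.mul (X (nat_lit 72)) (X (nat_lit 73))) (Nat.add (Nat.mul (X (nat_lit 74)) (X (nat_lit 73))) (Nat.mul (X (nat_lit 75)) (X (nat_lit 76))))))))) (.nd (nat_lit 64) 
 (.lf (.mk fun X => (Nat.mul (nat_lit 8) (Nat.add (Nat.mul (X (nat_lit 78)) (X (nat_lit 76))) (Nat.add (Nat.mul (X (nat_lit 79)) (X (nat_lit 76))) (Nat.add (Nat.mul (X (nat_lit 80)) (X (nat_lit 76))) (Nat.add (Nat.mul (X (nat_lit 81)) (X (nat_lit 76))) (Nat.mul (X (nat_lit 82)) (X (nat_lit 76)))))))))) 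
 (.lf (.mk fun X => (Nat.add (Nat.mul (nat_lit 4) (Nat.mul (X (nat_lit 81)) (X (nat_lit 76)))) (Nat.mul (nat_lit 8) (Nat.add (Nat.mul (X (nat_lit 78)) (X (nat_lit 76))) (Nat.add (Nat.mul (X (nat_lit 79)) (X (nat_lit 76))) (Nat.mul (X (nat_lit 82)) (X (nat_lit 76))))))))))))) (.nd (nat_lit 70) (.nd (nat_lit 67) (.nd (nat_lit 66) 
 (.lf (.mk fun X => (Nat.add (Nat.mul (nat_lit 8) (Nat.add (Nat.mul (X (nat_lit 71)) (X (nat_lit 73))) (Nat.add (Nat.mul (X (nat_lit 72)) (X (nat_lit 73))) (Nat.mul (X (nat_lit 77)) (X (nat_lit 76)))))) (Nat.mul (nat_lit 16) (Nat.mul (X (nat_lit 75)) (X (nat_lit 76))))))) 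
 (.lf (.mk fun X => (Nat.mul (nat_lit 8) (Nat.add (Nat.mul (X (nat_lit 71)) (X (nat_lit 73))) (Nat.add (Nat.mul (X (nat_lit 72)) (X (nat_lit 73))) (Nat.add (Nat.mul (X (nat_lit 74)) (X (nat_lit 73))) (Nat.add (Nat.mul (X (nat_lit 75)) (X (nat_lit 76))) (Nat.mul (X (nat_lit 77)) (X (nat_lit 76))))))))))) (.nd (nat_lit 68) 
 (.lf (.mk fun X => (Nat.mul (nat_lit 8) (Nat.add (Nat.mul (X (nat_lit 71)) (X (nat_lit 73))) (Nat.mul (X (nat_lit 72)) (X (nat_lit 73))))))) (.nd (nat_lit 69) 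
 (.lf (.mk fun X => (Nat.add (Nat.mul (nat_lit 4) (Nat.add (Nat.mul (X (nat_lit 71)) (X (nat_lit 78))) (Nat.add (Nat.mul (X (nat_lit 71)) (X (nat_lit 79))) (Nat.add (Nat.mul (X (nat_lit 71)) (X (nat_lit 81))) (Nat.add (Nat.mul (X (nat_lit 71)) (X (nat_lit 83))) (Nat.add (Nat.mul (X (nat_lit 72)) (X (nat_lit 78))) (Nat.add (Nat.mul (X (nat_lit 72)) (X (nat_lit 79))) (Nat.add (Nat.mul (X (nat_lit 72)) (X (nat_lit 81))) (Nat.mul (X (nat_lit 72)) (X (nat_lit 83))))))))))) (Nat.mul (nat_lit 8) (Nat.add (Nat.mul (X (nat_lit 71)) (X (nat_lit 80))) (Nat.add (Nat.mul (X (nat_lit 71)) (X (nat_lit 82))) (Nat.add (Nat.mul (X (nat_lit 72)) (X (nat_lit 80))) (Nat.add (Nat.mul (X (nat_lit 72)) (X (nat_lit 82))) (Nat.add (Nat.mul (X (nat_lit 74)) (X (nat_lit 78))) (Nat.add (Nat.mul (X (nat_lit 74)) (X (nat_lit 79))) (Nat.add (Nat.mul (X (nat_lit 74)) (X (nat_lit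 80))) (Nat.mul (X (nat_lit 74)) (X (nat_lit 82)))))))))))))) 
 (.lf (.mk fun X => (Nat.mul (nat_lit 8) (Nat.add (Nat.mul (X (nat_lit 78)) (X (nat_lit 73))) (Nat.add (Nat.mul (X (nat_lit 79)) (X (nat_lit 73))) (Nat.add (Nat.mul (X (nat_lit 80)) (X (nat_lit 73))) (Nat.mul (X (nat_lit 82)) (X (nat_lit 73)))))))))))) (.nd (nat_lit 72) (.nd (nat_lit 71) 
 (.lf (.mk fun X => (Nat.add (Nat.mul (nat_lit 2) (Nat.mul (X (nat_lit 77)) (X (nat_lit 81)))) (Nat.mul (nat_lit 4) (Nat.add (Nat.mul (X (nat_lit 75)) (X (nat_lit 78))) (Nat.add (Nat.mul (X (nat_lit 75)) (X (nat_lit 79))) (Nat.add (Nat.mul (X (nat_lit 75)) (X (nat_lit 80))) (Nat.add (Nat.mul (X (nat_lit 75)) (X (nat_lit 81))) (Nat.add (Nat.mul (X (nat_lit 75)) (X (nat_lit 82))) (Nat.add (Nat.mul (X (nat_lit 77)) (X (nat_lit 78))) (Nat.add (Nat.mul (X (nat_lit 77)) (X (nat_lit 79))) (Nat.mul (X (nat_lit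 77)) (X (nat_lit 82)))))))))))))) 
 (.lf (.mk fun _ => nat_lit 0))) (.nd (nat_lit 73) 
 (.lf (.mk fun X => (Nat.add (Nat.mul (nat_lit 8) (Nat.add (Nat.mul (X (nat_lit 87)) (X (nat_lit 88))) (Nat.add (Nat.mul (X (nat_lit 87)) (X (nat_lit 90))) (Nat.add (Nat.mul (X (nat_lit 89)) (X (nat_lit 88))) (Nat.mul (X (nat_lit 89)) (X (nat_lit 90))))))) (Nat.mul (nat_lit 16) (Nat.add (Nat.mul (X (nat_lit 91)) (X (nat_lit 90))) (Nat.add (Nat.mul (X (nat_lit 92)) (X (nat_lit 93))) (Nat.mul (X (nat_lit 94)) (X (nat_lit 93))))))))) (.nd (nat_lit 74) 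
 (.lf (.mk fun X => (Nat.add (Nat.mul (nat_lit 8) (Nat.add (Nat.mul (X (nat_lit 95)) (X (nat_lit 88))) (Nat.add (Nat.mul (X (nat_lit 95)) (X (nat_lit 90))) (Nat.add (Nat.mul (X (nat_lit 96)) (X (nat_lit 88))) (Nat.add (Nat.mul (X (nat_lit 96)) (X (nat_lit 90))) (Nat.add (Nat.mul (X (nat_lit 98)) (X (nat_lit 90))) (Nat.mul (X (nat_lit 100)) (X (nat_lit 90))))))))) (Nat.mul (nat_lit 16) (Nat.add (Nat.mul (X (nat_lit 97)) (X (nat_lit 90))) (Nat.mul (X (nat_lit 99)) (X (nat_lit 90)))))))) 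
 (.lf (.mk fun X => (Nat.add (Nat.mul (X (nat_lit 87)) (X (nat_lit 98))) (Nat.add (Nat.mul (nat_lit 4) (Nat.add (Nat.mul (X (nat_lit 87)) (X (nat_lit 95))) (Nat.add (Nat.mul (X (nat_lit 87)) (X (nat_lit 96))) (Nat.add (Nat.mul (X (nat_lit 89)) (X (nat_lit 95))) (Nat.add (Nat.mul (X (nat_lit 89)) (X (nat_lit 96))) (Nat.add (Nat.mul (X (nat_lit 94)) (X (nat_lit 97))) (Nat.add (Nat.mul (X (nat_lit 101)) (X (nat_lit 98))) (Nat.mul (X (nat_lit 102)) (X (nat_lit 100)))))))))) (Nat.mul (nat_lit 8) (Nat.add (Nat.mul (X (nat_lit 92)) (X (nat_lit 97))) (Nat.mul (X (nat_lit 92)) (X (nat_lit 99)))))))))))))))) (.nd (nat_lit 112) (.nd (nat_lit 93) (.nd (nat_lit 84) (.nd (nat_lit 79) (.nd (nat_lit 77) (.nd (nat_lit 76) 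
 (.lf (.mk fun X => (Nat.add (Nat.mul (nat_lit 4) (Nat.mul (X (nat_lit 94)) (X (nat_lit 88)))) (Nat.mul (nat_lit 8) (Nat.add (Nat.mul (X (nat_lit 87)) (X (nat_lit 90))) (Nat.add (Nat.mul (X (nat_lit 89)) (X (nat_lit 90))) (Nat.add (Nat.mul (X (nat_lit 91)) (X (nat_lit 90))) (Nat.add (Nat.mul (X (nat_lit 92)) (X (nat_lit 88))) (Nat.mul (X (nat_lit 92)) (X (nat_lit 93))))))))))) 
 (.lf (.mk fun X => (Nat.mul (nat_lit 8) (Nat.add (Nat.mul (X (nat_lit 95)) (X (nat_lit 93))) (Nat.add (Nat.mul (X (nat_lit 96)) (X (nat_lit 93))) (Nat.add (Nat.mul (X (nat_lit 97)) (X (nat_lit 88))) (Nat.add (Nat.mul (X (nat_lit 97)) (X (nat_lit 93))) (Nat.add (Nat.mul (X (nat_lit 98)) (X (nat_lit 93))) (Nat.add (Nat.mul (X (nat_lit 99)) (X (nat_lit 88))) (Nat.mul (X (nat_lit 99)) (X (nat_lit 93))))))))))))) (.nd (nat_lit 78) 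
 (.lf (.mk fun X => (Nat.add (Nat.mul (nat_lit 4) (Nat.add (Nat.mul (X (nat_lit 97)) (X (nat_lit 88))) (Nat.mul (X (nat_lit 98)) (X (nat_lit 93))))) (Nat.mul (nat_lit 8) (Nat.add (Nat.mul (X (nat_lit 95)) (X (nat_lit 93))) (Nat.add (Nat.mul (X (nat_lit 96)) (X (nat_lit 93))) (Nat.mul (X (nat_lit 99)) (X (nat_lit 93))))))))) 
 (.lf (.mk fun X => (Nat.add (Nat.mul (nat_lit 2) (Nat.mul (X (nat_lit 87)) (X (nat_lit 88)))) (Nat.add (Nat.mul (nat_lit 8) (Nat.add (Nat.mul (X (nat_lit 87)) (X (nat_lit 90))) (Nat.add (Nat.mul (X (nat_lit 89)) (X (nat_lit 90))) (Nat.add (Nat.mul (X (nat_lit 94)) (X (nat_lit 93))) (Nat.mul (X (nat_lit 101)) (X (nat_lit 88))))))) (Nat.mul (nat_lit 16) (Nat.mul (X (nat_lit 92)) (X (nat_lit 93)))))))))) (.nd (nat_lit 81) (.nd (nat_lit 80) 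
 (.lf (.mk fun X => (Nat.mul (nat_lit 8) (Nat.mul (X (nat_lit 98)) (X (nat_lit 88)))))) 
 (.lf (.mk fun X => (Nat.mul (nat_lit 8) (Nat.add (Nat.mul (X (nat_lit 87)) (X (nat_lit 90))) (Nat.add (Nat.mul (X (nat_lit 89)) (X (nat_lit 90))) (Nat.add (Nat.mul (X (nat_lit 91)) (X (nat_lit 90))) (Nat.add (Nat.mul (X (nat_lit 92)) (X (nat_lit 88))) (Nat.add (Nat.mul (X (nat_lit 92)) (X (nat_lit 93))) (Nat.mul (X (nat_lit 94)) (X (nat_lit 93)))))))))))) (.nd (nat_lit 82) 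
 (.lf (.mk fun X => (Nat.mul (nat_lit 8) (Nat.add (Nat.mul (X (nat_lit 87)) (X (nat_lit 90))) (Nat.add (Nat.mul (X (nat_lit 89)) (X (nat_lit 90))) (Nat.mul (X (nat_lit 102)) (X (nat_lit 88)))))))) (.nd (nat_lit 83) 
 (.lf (.mk fun X => (Nat.mul (nat_lit 8) (Nat.mul (X (nat_lit 100)) (X (nat_lit 88)))))) 
 (.lf (.mk fun X => (Nat.add (Nat.mul (nat_lit 4) (Nat.add (Nat.mul (X (nat_lit 87)) (X (nat_lit 95))) (Nat.add (Nat.mul (X (nat_lit 87)) (X (nat_lit 96))) (Nat.add (Nat.mul (X (nat_lit 87)) (X (nat_lit 98))) (Nat.add (Nat.mul (X (nat_lit 87)) (X (nat_lit 100))) (Nat.add (Nat.mul (X (nat_lit 89)) (X (nat_lit 95))) (Nat.add (Nat.mul (X (nat_lit 89)) (X (nat_lit 96))) (Nat.add (Nat.mul (X (nat_lit 89)) (X (nat_lit 98))) (Nat.mul (X (nat_lit 89)) (X (nat_lit 100))))))))))) (Nat.mul (nat_lit 8) (Nat.add (Nat.mul (X (nat_lit 87)) (X (nat_lit 97)))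 (Nat.add (Nat.mul (X (nat_lit 87)) (X (nat_lit 99))) (Nat.add (Nat.mul (X (nat_lit 89)) (X (nat_lit 97))) (Nat.add (Nat.mul (X (nat_lit 89)) (X (nat_lit 99))) (Nat.add (Nat.mul (X (nat_lit 91)) (X (nat_lit 95))) (Nat.add (Nat.mul (X (nat_lit 91)) (X (nat_lit 96))) (Nat.add (Nat.mul (X (nat_lit 91)) (X (nat_lit 97))) (Nat.mul (X (nat_lit 91)) (X (nat_lit 99)))))))))))))))))) (.nd (nat_lit 88) (.nd (nat_lit 86) (.nd (nat_lit 85) 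
 (.lf (.mk fun X => (Nat.mul (nat_lit 8) (Nat.add (Nat.mul (X (nat_lit 95)) (X (nat_lit 90))) (Nat.add (Nat.mul (X (nat_lit 96)) (X (nat_lit 90))) (Nat.add (Nat.mul (X (nat_lit 97)) (X (nat_lit 90))) (Nat.mul (X (nat_lit 99)) (X (nat_lit 90))))))))) 
 (.lf (.mk fun X => (Nat.add (Nat.mul (nat_lit 2) (Nat.mul (X (nat_lit 94)) (X (nat_lit 98)))) (Nat.mul (nat_lit 4) (Nat.add (Nat.mul (X (nat_lit 92)) (X (nat_lit 95))) (Nat.add (Nat.mul (X (nat_lit 92)) (X (nat_lit 96))) (Nat.add (Nat.mul (X (nat_lit 92)) (X (nat_lit 97))) (Nat.add (Nat.mul (X (nat_lit 92)) (X (nat_lit 98))) (Nat.add (Nat.mul (X (nat_lit 92)) (X (nat_lit 99))) (Nat.add (Nat.mul (X (nat_lit 94)) (X (nat_lit 95))) (Nat.add (Nat.mul (X (nat_lit 94)) (X (nat_lit 96))) (Nat.mul (X (nat_lit 94)) (X (nat_lit 99))))))))))))))) (.nd (nat_lit 87) 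
 (.lf (.mk fun _ => nat_lit 0)) 
 (.lf (.mk fun X => (Nat.add (Nat.mul (nat_lit 8) (Nat.mul (X (nat_lit 104)) (X (nat_lit 105)))) (Nat.mul (nat_lit 16) (Nat.add (Nat.mul (X (nat_lit 106)) (X (nat_lit 105))) (Nat.add (Nat.mul (X (nat_lit 107)) (X (nat_lit 108))) (Nat.mul (X (nat_lit 109)) (X (nat_lit 108))))))))))) (.nd (nat_lit 90) (.nd (nat_lit 89) 
 (.lf (.mk fun X => (Nat.add (Nat.mul (nat_lit 8) (Nat.add (Nat.mul (X (nat_lit 110)) (X (nat_lit 105))) (Nat.add (Nat.mul (X (nat_lit 111)) (X (nat_lit 105))) (Nat.mul (X (nat_lit 114)) (X (nat_lit 105)))))) (Nat.mul (nat_lit 16) (Nat.add (Nat.mul (X (nat_lit 112)) (X (nat_lit 105))) (Nat.mul (X (nat_lit 113)) (X (nat_lit 105)))))))) 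
 (.lf (.mk fun X => (Nat.add (Nat.mul (nat_lit 4) (Nat.add (Nat.mul (X (nat_lit 104)) (X (nat_lit 110))) (Nat.add (Nat.mul (X (nat_lit 104)) (X (nat_lit 111))) (Nat.add (Nat.mul (X (nat_lit 109)) (X (nat_lit 112))) (Nat.mul (X (nat_lit 116)) (X (nat_lit 114))))))) (Nat.mul (nat_lit 8) (Nat.add (Nat.mul (X (nat_lit 107)) (X (nat_lit 112))) (Nat.mul (X (nat_lit 107)) (X (nat_lit 113))))))))) (.nd (nat_lit 91) 
 (.lf (.mk fun X => (Nat.mul (nat_lit 8) (Nat.add (Nat.mul (X (nat_lit 104)) (X (nat_lit 105))) (Nat.add (Nat.mul (X (nat_lit 106)) (X (nat_lit 105))) (Nat.mul (X (nat_lit 107)) (X (nat_lit 108)))))))) (.nd (nat_lit 92) 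
 (.lf (.mk fun X => (Nat.mul (nat_lit 8) (Nat.add (Nat.mul (X (nat_lit 110)) (X (nat_lit 108))) (Nat.add (Nat.mul (X (nat_lit 111)) (X (nat_lit 108))) (Nat.add (Nat.mul (X (nat_lit 112)) (X (nat_lit 108))) (Nat.mul (X (nat_lit 113)) (X (nat_lit 108))))))))) 
 (.lf (.mk fun X => (Nat.mul (nat_lit 8) (Nat.add (Nat.mul (X (nat_lit 110)) (X (nat_lit 108))) (Nat.add (Nat.mul (X (nat_lit 111)) (X (nat_lit 108))) (Nat.mul (X (nat_lit 113)) (X (nat_lit 108))))))))))))) (.nd (nat_lit 102) (.nd (nat_lit 97) (.nd (nat_lit 95) (.nd (nat_lit 94) 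
 (.lf (.mk fun X => (Nat.add (Nat.mul (nat_lit 8) (Nat.add (Nat.mul (X (nat_lit 104)) (X (nat_lit 105))) (Nat.mul (X (nat_lit 109)) (X (nat_lit 108))))) (Nat.mul (nat_lit 16) (Nat.mul (X (nat_lit 107)) (X (nat_lit 108))))))) 
 (.lf (.mk fun X => (Nat.mul (nat_lit 8) (Nat.add (Nat.mul (X (nat_lit 104)) (X (nat_lit 105))) (Nat.add (Nat.mul (X (nat_lit 106)) (X (nat_lit 105))) (Nat.add (Nat.mul (X (nat_lit 107)) (X (nat_lit 108))) (Nat.mul (X (nat_lit 109)) (X (nat_lit 108)))))))))) (.nd (nat_lit 96) 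
 (.lf (.mk fun X => (Nat.mul (nat_lit 8) (Nat.mul (X (nat_lit 104)) (X (nat_lit 105)))))) 
 (.lf (.mk fun X => (Nat.add (Nat.mul (nat_lit 4) (Nat.add (Nat.mul (X (nat_lit 104)) (X (nat_lit 110))) (Nat.add (Nat.mul (X (nat_lit 104)) (X (nat_lit 111))) (Nat.mul (X (nat_lit 104)) (X (nat_lit 114)))))) (Nat.mul (nat_lit 8) (Nat.add (Nat.mul (X (nat_lit 104)) (X (nat_lit 112))) (Nat.add (Nat.mul (X (nat_lit 104)) (X (nat_lit 113))) (Nat.add (Nat.mul (X (nat_lit 106)) (X (nat_lit 110))) (Nat.add (Nat.mul (X (nat_lit 106)) (X (nat_lit 111))) (Nat.add (Nat.mul (X (nat_lit 106)) (X (nat_lit 112))) (Nat.mul (X (nat_lit 106)) (X (nat_lit 113)))))))))))))) (.nd (nat_lit 99) (.nd (nat_lit 98) 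
 (.lf (.mk fun X => (Nat.mul (nat_lit 8) (Nat.add (Nat.mul (X (nat_lit 110)) (X (nat_lit 105))) (Nat.add (Nat.mul (X (nat_lit 111)) (X (nat_lit 105))) (Nat.add (Nat.mul (X (nat_lit 112)) (X (nat_lit 105))) (Nat.mul (X (nat_lit 113)) (X (nat_lit 105))))))))) 
 (.lf (.mk fun X => (Nat.mul (nat_lit 4) (Nat.add (Nat.mul (X (nat_lit 107)) (X (nat_lit 110))) (Nat.add (Nat.mul (X (nat_lit 107)) (X (nat_lit 111))) (Nat.add (Nat.mul (X (nat_lit 107)) (X (nat_lit 112))) (Nat.add (Nat.mul (X (nat_lit 107)) (X (nat_lit 113))) (Nat.add (Nat.mul (X (nat_lit 109)) (X (nat_lit 110))) (Nat.add (Nat.mul (X (nat_lit 109)) (X (nat_lit 111))) (Nat.mul (X (nat_lit 109)) (X (nat_lit 113))))))))))))) (.nd (nat_lit 100) 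
 (.lf (.mk fun _ => nat_lit 0)) (.nd (nat_lit 101) 
 (.lf (.mk fun X => (Nat.mul (nat_lit 8) (Nat.add (Nat.mul (X (nat_lit 0)) (X (nat_lit 1))) (Nat.mul (X (nat_lit 2)) (X (nat_lit 1))))))) 
 (.lf (.mk fun X => (Nat.mul (nat_lit 4) (Nat.add (Nat.mul (X (nat_lit 0)) (X (nat_lit 3))) (Nat.mul (X (nat_lit 2)) (X (nat_lit 3))))))))))) (.nd (nat_lit 107) (.nd (nat_lit 104) (.nd (nat_lit 103) 
 (.lf (.mk fun X => (Nat.mul (nat_lit 8) (Nat.mul (X (nat_lit 3)) (X (nat_lit 1)))))) 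
 (.lf (.mk fun X => (Nat.add (Nat.mul (nat_lit 8) (Nat.add (Nat.mul (X (nat_lit 5)) (X (nat_lit 7))) (Nat.mul (X (nat_lit 6)) (X (nat_lit 7))))) (Nat.mul (nat_lit 16) (Nat.add (Nat.mul (X (nat_lit 8)) (X (nat_lit 7))) (Nat.mul (X (nat_lit 9)) (X (nat_lit 10))))))))) (.nd (nat_lit 105) 
 (.lf (.mk fun X => (Nat.add (Nat.mul (nat_lit 8) (Nat.add (Nat.mul (X (nat_lit 12)) (X (nat_lit 7))) (Nat.add (Nat.mul (X (nat_lit 13)) (X (nat_lit 7))) (Nat.add (Nat.mul (X (nat_lit 15)) (X (nat_lit 7))) (Nat.mul (X (nat_lit 17)) (X (nat_lit 7))))))) (Nat.mul (nat_lit 16) (Nat.add (Nat.mul (X (nat_lit 14)) (X (nat_lit 7))) (Nat.mul (X (nat_lit 16)) (X (nat_lit 7)))))))) (.nd (nat_lit 106) 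
 (.lf (.mk fun X => (Nat.add (Nat.mul (X (nat_lit 5)) (X (nat_lit 15))) (Nat.add (Nat.mul (nat_lit 4) (Nat.add (Nat.mul (X (nat_lit 5)) (X (nat_lit 12))) (Nat.add (Nat.mul (X (nat_lit 5)) (X (nat_lit 13))) (Nat.add (Nat.mul (X (nat_lit 6)) (X (nat_lit 12))) (Nat.add (Nat.mul (X (nat_lit 6)) (X (nat_lit 13))) (Nat.add (Nat.mul (X (nat_lit 18)) (X (nat_lit 15))) (Nat.mul (X (nat_lit 19)) (X (nat_lit 17))))))))) (Nat.mul (nat_lit 8) (Nat.add (Nat.mul (X (nat_lit 9)) (X (nat_lit 14))) (Nat.mul (X (nat_lit 9)) (X (nat_lit 16))))))))) 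
 (.lf (.mk fun X => (Nat.mul (nat_lit 8) (Nat.add (Nat.mul (X (nat_lit 5)) (X (nat_lit 7))) (Nat.mul (X (nat_lit 6)) (X (nat_lit 7)))))))))) (.nd (nat_lit 109) (.nd (nat_lit 108) 
 (.lf (.mk fun X => (Nat.mul (nat_lit 8) (Nat.add (Nat.mul (X (nat_lit 12)) (X (nat_lit 10))) (Nat.add (Nat.mul (X (nat_lit 13)) (X (nat_lit 10))) (Nat.add (Nat.mul (X (nat_lit 15)) (X (nat_lit 10))) (Nat.mul (X (nat_lit 16)) (X (nat_lit 10))))))))) 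
 (.lf (.mk fun _ => nat_lit 0))) (.nd (nat_lit 110) 
 (.lf (.mk fun X => (Nat.add (Nat.mul (nat_lit 8) (Nat.add (Nat.mul (X (nat_lit 5)) (X (nat_lit 7))) (Nat.mul (X (nat_lit 6)) (X (nat_lit 7))))) (Nat.mul (nat_lit 16) (Nat.mul (X (nat_lit 9)) (X (nat_lit 10))))))) (.nd (nat_lit 111) 
 (.lf (.mk fun X => (Nat.mul (nat_lit 8) (Nat.add (Nat.mul (X (nat_lit 5)) (X (nat_lit 7))) (Nat.add (Nat.mul (X (nat_lit 6)) (X (nat_lit 7))) (Nat.add (Nat.mul (X (nat_lit 8)) (X (nat_lit 7))) (Nat.mul (X (nat_lit 9)) (X (nat_lit 10))))))))) 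
 (.lf (.mk fun X => (Nat.mul (nat_lit 8) (Nat.add (Nat.mul (X (nat_lit 5)) (X (nat_lit 7))) (Nat.mul (X (nat_lit 6)) (X (nat_lit 7))))))))))))) (.nd (nat_lit 131) (.nd (nat_lit 121) (.nd (nat_lit 116) (.nd (nat_lit 114) (.nd (nat_lit 113) 
 (.lf (.mk fun X => (Nat.add (Nat.mul (nat_lit 4) (Nat.add (Nat.mul (X (nat_lit 5)) (X (nat_lit 12))) (Nat.add (Nat.mul (X (nat_lit 5)) (X (nat_lit 13))) (Nat.add (Nat.mul (X (nat_lit 5)) (X (nat_lit 15))) (Nat.add (Nat.mul (X (nat_lit 5)) (X (nat_lit 17))) (Nat.add (Nat.mul (X (nat_lit 6)) (X (nat_lit 12))) (Nat.add (Nat.mul (X (nat_lit 6)) (X (nat_lit 13))) (Nat.add (Nat.mul (X (nat_lit 6)) (X (nat_lit 15))) (Nat.mul (X (nat_lit 6)) (X (nat_lit 17))))))))))) (Nat.mul (nat_lit 8) (Nat.add (Nat.mul (X (nat_lit 5)) (X (nat_lit 14))) (Nat.add (Nat.mul (X (nat_lit 5)) (X (nat_lit 16))) (Nat.add (Nat.mul (X (nat_lit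 6)) (X (nat_lit 14))) (Nat.add (Nat.mul (X (nat_lit 6)) (X (nat_lit 16))) (Nat.add (Nat.mul (X (nat_lit 8)) (X (nat_lit 12))) (Nat.add (Nat.mul (X (nat_lit 8)) (X (nat_lit 13))) (Nat.mul (X (nat_lit 8)) (X (nat_lit 16))))))))))))) 
 (.lf (.mk fun X => (Nat.mul (nat_lit 8) (Nat.add (Nat.mul (X (nat_lit 12)) (X (nat_lit 7))) (Nat.add (Nat.mul (X (nat_lit 13)) (X (nat_lit 7))) (Nat.mul (X (nat_lit 16)) (X (nat_lit 7))))))))) (.nd (nat_lit 115) 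
 (.lf (.mk fun X => (Nat.mul (nat_lit 4) (Nat.add (Nat.mul (X (nat_lit 9)) (X (nat_lit 12))) (Nat.add (Nat.mul (X (nat_lit 9)) (X (nat_lit 13))) (Nat.add (Nat.mul (X (nat_lit 9)) (X (nat_lit 15))) (Nat.mul (X (nat_lit 9)) (X (nat_lit 16))))))))) 
 (.lf (.mk fun _ => nat_lit 0)))) (.nd (nat_lit 118) (.nd (nat_lit 117) 
 (.lf (.mk fun X => (Nat.add (Nat.mul (nat_lit 8) (Nat.add (Nat.mul (X (nat_lit 21)) (X (nat_lit 22))) (Nat.add (Nat.mul (X (nat_lit 21)) (X (nat_lit 24))) (Nat.add (Nat.mul (X (nat_lit 23)) (X (nat_lit 22))) (Nat.mul (X (nat_lit 23)) (X (nat_lit 24))))))) (Nat.mul (nat_lit 16) (Nat.add (Nat.mul (X (nat_lit 25)) (X (nat_lit 24))) (Nat.mul (X (nat_lit 26)) (X (nat_lit 27)))))))) 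
 (.lf (.mk fun X => (Nat.add (Nat.mul (nat_lit 8) (Nat.add (Nat.mul (X (nat_lit 29)) (X (nat_lit 22))) (Nat.add (Nat.mul (X (nat_lit 29)) (X (nat_lit 24))) (Nat.add (Nat.mul (X (nat_lit 30)) (X (nat_lit 22))) (Nat.add (Nat.mul (X (nat_lit 30)) (X (nat_lit 24))) (Nat.add (Nat.mul (X (nat_lit 32)) (X (nat_lit 24))) (Nat.mul (X (nat_lit 34)) (X (nat_lit 24))))))))) (Nat.mul (nat_lit 16) (Nat.add (Nat.mul (X (nat_lit 31)) (X (nat_lit 24))) (Nat.mul (X (nat_lit 33)) (X (nat_lit 24))))))))) (.nd (nat_lit 119) 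
 (.lf (.mk fun X => (Nat.add (Nat.mul (X (nat_lit 21)) (X (nat_lit 32))) (Nat.add (Nat.mul (nat_lit 4) (Nat.add (Nat.mul (X (nat_lit 21)) (X (nat_lit 29))) (Nat.add (Nat.mul (X (nat_lit 21)) (X (nat_lit 30))) (Nat.add (Nat.mul (X (nat_lit 23)) (X (nat_lit 29))) (Nat.add (Nat.mul (X (nat_lit 23)) (X (nat_lit 30))) (Nat.add (Nat.mul (X (nat_lit 35)) (X (nat_lit 32))) (Nat.mul (X (nat_lit 36)) (X (nat_lit 34))))))))) (Nat.mul (nat_lit 8) (Nat.add (Nat.mul (X (nat_lit 26)) (X (nat_lit 31))) (Nat.mul (X (nat_lit 26)) (X (nat_lit 33))))))))) (.nd (nat_lit 120) 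
 (.lf (.mk fun X => (Nat.mul (nat_lit 8) (Nat.add (Nat.mul (X (nat_lit 21)) (X (nat_lit 24))) (Nat.add (Nat.mul (X (nat_lit 23)) (X (nat_lit 24))) (Nat.mul (X (nat_lit 26)) (X (nat_lit 22)))))))) 
 (.lf (.mk fun X => (Nat.mul (nat_lit 8) (Nat.add (Nat.mul (X (nat_lit 29)) (X (nat_lit 27))) (Nat.add (Nat.mul (X (nat_lit 30)) (X (nat_lit 27))) (Nat.add (Nat.mul (X (nat_lit 31)) (X (nat_lit 22))) (Nat.add (Nat.mul (X (nat_lit 32)) (X (nat_lit 27))) (Nat.add (Nat.mul (X (nat_lit 33)) (X (nat_lit 22))) (Nat.mul (X (nat_lit 33)) (X (nat_lit 27))))))))))))))) (.nd (nat_lit 126) (.nd (nat_lit 123) (.nd (nat_lit 122) 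
 (.lf (.mk fun _ => nat_lit 0)) 
 (.lf (.mk fun X => (Nat.add (Nat.mul (nat_lit 2) (Nat.mul (X (nat_lit 21)) (X (nat_lit 22)))) (Nat.add (Nat.mul (nat_lit 8) (Nat.add (Nat.mul (X (nat_lit 21)) (X (nat_lit 24))) (Nat.add (Nat.mul (X (nat_lit 23)) (X (nat_lit 24))) (Nat.mul (X (nat_lit 35)) (X (nat_lit 22)))))) (Nat.mul (nat_lit 16) (Nat.mul (X (nat_lit 26)) (X (nat_lit 27))))))))) (.nd (nat_lit 124) 
 (.lf (.mk fun X => (Nat.mul (nat_lit 8) (Nat.mul (X (nat_lit 32)) (X (nat_lit 22)))))) (.nd (nat_lit 125) 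
 (.lf (.mk fun X => (Nat.mul (nat_lit 8) (Nat.add (Nat.mul (X (nat_lit 21)) (X (nat_lit 24))) (Nat.add (Nat.mul (X (nat_lit 23)) (X (nat_lit 24))) (Nat.add (Nat.mul (X (nat_lit 25)) (X (nat_lit 24))) (Nat.add (Nat.mul (X (nat_lit 26)) (X (nat_lit 22))) (Nat.mul (X (nat_lit 26)) (X (nat_lit 27)))))))))) 
 (.lf (.mk fun X => (Nat.mul (nat_lit 8) (Nat.add (Nat.mul (X (nat_lit 21)) (X (nat_lit 24))) (Nat.add (Nat.mul (X (nat_lit 23)) (X (nat_lit 24))) (Nat.mul (X (nat_lit 36)) (X (nat_lit 22))))))))))) (.nd (nat_lit 128) (.nd (nat_lit 127) 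
 (.lf (.mk fun X => (Nat.mul (nat_lit 8) (Nat.mul (X (nat_lit 34)) (X (nat_lit 22)))))) 
 (.lf (.mk fun X => (Nat.add (Nat.mul (nat_lit 4) (Nat.add (Nat.mul (X (nat_lit 21)) (X (nat_lit 29))) (Nat.add (Nat.mul (X (nat_lit 21)) (X (nat_lit 30))) (Nat.add (Nat.mul (X (nat_lit 21)) (X (nat_lit 32))) (Nat.add (Nat.mul (X (nat_lit 21)) (X (nat_lit 34))) (Nat.add (Nat.mul (X (nat_lit 23)) (X (nat_lit 29))) (Nat.add (Nat.mul (X (nat_lit 23)) (X (nat_lit 30))) (Nat.add (Nat.mul (X (nat_lit 23)) (X (nat_lit 32))) (Nat.mul (X (nat_lit 23)) (X (nat_lit 34))))))))))) (Nat.mul (nat_lit 8) (Nat.add (Nat.mul (X (nat_lit 21)) (X (nat_lit 31))) (Nat.add (Nat.mul (X (nat_lit 21)) (X (nat_lit 33))) (Nat.add (Nat.mul (X (nat_lit 23)) (X (nat_lit 31))) (Nat.add (Nat.mul (X (nat_lit 23)) (X (nat_lit 33))) (Nat.add (Nat.mul (X (nat_lit 25)) (X (nat_lit 29))) (Nat.add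 (Nat.mul (X (nat_lit 25)) (X (nat_lit 30))) (Nat.mul (X (nat_lit 25)) (X (nat_lit 33)))))))))))))) (.nd (nat_lit 129) 
 (.lf (.mk fun X => (Nat.mul (nat_lit 8) (Nat.add (Nat.mul (X (nat_lit 29)) (X (nat_lit 24))) (Nat.add (Nat.mul (X (nat_lit 30)) (X (nat_lit 24))) (Nat.mul (X (nat_lit 33)) (X (nat_lit 24)))))))) (.nd (nat_lit 130) 
 (.lf (.mk fun X => (Nat.mul (nat_lit 4) (Nat.add (Nat.mul (X (nat_lit 26)) (X (nat_lit 29))) (Nat.add (Nat.mul (X (nat_lit 26)) (X (nat_lit 30))) (Nat.add (Nat.mul (X (nat_lit 26)) (X (nat_lit 32))) (Nat.mul (X (nat_lit 26)) (X (nat_lit 33))))))))) 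
 (.lf (.mk fun _ => nat_lit 0))))))) (.nd (nat_lit 140) (.nd (nat_lit 135) (.nd (nat_lit 133) (.nd (nat_lit 132) 
 (.lf (.mk fun X => (Nat.add (Nat.mul (nat_lit 8) (Nat.add (Nat.mul (X (nat_lit 38)) (X (nat_lit 40))) (Nat.mul (X (nat_lit 39)) (X (nat_lit 40))))) (Nat.mul (nat_lit 16) (Nat.add (Nat.mul (X (nat_lit 41)) (X (nat_lit 40))) (Nat.mul (X (nat_lit 42)) (X (nat_lit 43)))))))) 
 (.lf (.mk fun X => (Nat.add (Nat.mul (nat_lit 8) (Nat.add (Nat.mul (X (nat_lit 45)) (X (nat_lit 40))) (Nat.add (Nat.mul (X (nat_lit 46)) (X (nat_lit 40))) (Nat.add (Nat.mul (X (nat_lit 48)) (X (nat_lit 40))) (Nat.mul (X (nat_lit 50)) (X (nat_lit 40))))))) (Nat.mul (nat_lit 16) (Nat.add (Nat.mul (X (nat_lit 47)) (X (nat_lit 40))) (Nat.mul (X (nat_lit 49)) (X (nat_lit 40))))))))) (.nd (nat_lit 134) 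
 (.lf (.mk fun X => (Nat.add (Nat.mul (X (nat_lit 38)) (X (nat_lit 48))) (Nat.add (Nat.mul (nat_lit 4) (Nat.add (Nat.mul (X (nat_lit 38)) (X (nat_lit 45))) (Nat.add (Nat.mul (X (nat_lit 38)) (X (nat_lit 46))) (Nat.add (Nat.mul (X (nat_lit 39)) (X (nat_lit 45))) (Nat.add (Nat.mul (X (nat_lit 39)) (X (nat_lit 46))) (Nat.add (Nat.mul (X (nat_lit 51)) (X (nat_lit 48))) (Nat.mul (X (nat_lit 52)) (X (nat_lit 50))))))))) (Nat.mul (nat_lit 8) (Nat.add (Nat.mul (X (nat_lit 42)) (X (nat_lit 47))) (Nat.mul (X (nat_lit 42)) (X (nat_lit 49))))))))) 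
 (.lf (.mk fun X => (Nat.mul (nat_lit 8) (Nat.add (Nat.mul (X (nat_lit 38)) (X (nat_lit 40))) (Nat.mul (X (nat_lit 39)) (X (nat_lit 40))))))))) (.nd (nat_lit 137) (.nd (nat_lit 136) 
 (.lf (.mk fun X => (Nat.mul (nat_lit 8) (Nat.add (Nat.mul (X (nat_lit 45)) (X (nat_lit 43))) (Nat.add (Nat.mul (X (nat_lit 46)) (X (nat_lit 43))) (Nat.add (Nat.mul (X (nat_lit 48)) (X (nat_lit 43))) (Nat.mul (X (nat_lit 49)) (X (nat_lit 43))))))))) 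
 (.lf (.mk fun _ => nat_lit 0))) (.nd (nat_lit 138) 
 (.lf (.mk fun X => (Nat.add (Nat.mul (nat_lit 8) (Nat.add (Nat.mul (X (nat_lit 38)) (X (nat_lit 40))) (Nat.mul (X (nat_lit 39)) (X (nat_lit 40))))) (Nat.mul (nat_lit 16) (Nat.mul (X (nat_lit 42)) (X (nat_lit 43))))))) (.nd (nat_lit 139) 
 (.lf (.mk fun X => (Nat.mul (nat_lit 8) (Nat.add (Nat.mul (X (nat_lit 38)) (X (nat_lit 40))) (Nat.add (Nat.mul (X (nat_lit 39)) (X (nat_lit 40))) (Nat.add (Nat.mul (X (nat_lit 41)) (X (nat_lit 40))) (Nat.mul (X (nat_lit 42)) (X (nat_lit 43))))))))) 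
 (.lf (.mk fun X => (Nat.mul (nat_lit 8) (Nat.add (Nat.mul (X (nat_lit 38)) (X (nat_lit 40))) (Nat.mul (X (nat_lit 39)) (X (nat_lit 40))))))))))) (.nd (nat_lit 145) (.nd (nat_lit 142) (.nd (nat_lit 141) 
 (.lf (.mk fun X => (Nat.add (Nat.mul (nat_lit 4) (Nat.add (Nat.mul (X (nat_lit 38)) (X (nat_lit 45))) (Nat.add (Nat.mul (X (nat_lit 38)) (X (nat_lit 46))) (Nat.add (Nat.mul (X (nat_lit 38)) (X (nat_lit 48))) (Nat.add (Nat.mul (X (nat_lit 38)) (X (nat_lit 50))) (Nat.add (Nat.mul (X (nat_lit 39)) (X (nat_lit 45))) (Nat.add (Nat.mul (X (nat_lit 39)) (X (nat_lit 46))) (Nat.add (Nat.mul (X (nat_lit 39)) (X (nat_lit 48))) (Nat.mul (X (nat_lit 39)) (X (nat_lit 50))))))))))) (Nat.mul (nat_lit 8) (Nat.add (Nat.mul (X (nat_lit 38)) (X (nat_lit 47))) (Nat.add (Nat.mul (X (nat_lit 38)) (X (nat_lit 49))) (Nat.add (Nat.mul (X (nat_lit 39)) (X (nat_lit 47)))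 (Nat.add (Nat.mul (X (nat_lit 39)) (X (nat_lit 49))) (Nat.add (Nat.mul (X (nat_lit 41)) (X (nat_lit 45))) (Nat.add (Nat.mul (X (nat_lit 41)) (X (nat_lit 46))) (Nat.mul (X (nat_lit 41)) (X (nat_lit 49))))))))))))) 
 (.lf (.mk fun X => (Nat.mul (nat_lit 8) (Nat.add (Nat.mul (X (nat_lit 45)) (X (nat_lit 40))) (Nat.add (Nat.mul (X (nat_lit 46)) (X (nat_lit 40))) (Nat.mul (X (nat_lit 49)) (X (nat_lit 40))))))))) (.nd (nat_lit 143) 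
 (.lf (.mk fun X => (Nat.mul (nat_lit 4) (Nat.add (Nat.mul (X (nat_lit 42)) (X (nat_lit 45))) (Nat.add (Nat.mul (X (nat_lit 42)) (X (nat_lit 46))) (Nat.add (Nat.mul (X (nat_lit 42)) (X (nat_lit 48))) (Nat.mul (X (nat_lit 42)) (X (nat_lit 49))))))))) (.nd (nat_lit 144) 
 (.lf (.mk fun _ => nat_lit 0)) 
 (.lf (.mk fun X => (Nat.add (Nat.mul (nat_lit 8) (Nat.add (Nat.mul (X (nat_lit 54)) (X (nat_lit 55))) (Nat.add (Nat.mul (X (nat_lit 54)) (X (nat_lit 57))) (Nat.add (Nat.mul (X (nat_lit 56)) (X (nat_lit 55))) (Nat.mul (X (nat_lit 56)) (X (nat_lit 57))))))) (Nat.mul (nat_lit 16) (Nat.add (Nat.mul (X (nat_lit 58)) (X (nat_lit 57))) (Nat.mul (X (nat_lit 59)) (X (nat_lit 60))))))))))) (.nd (nat_lit 147) (.nd (nat_lit 146) 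
 (.lf (.mk fun X => (Nat.add (Nat.mul (nat_lit 8) (Nat.add (Nat.mul (X (nat_lit 62)) (X (nat_lit 55))) (Nat.add (Nat.mul (X (nat_lit 62)) (X (nat_lit 57))) (Nat.add (Nat.mul (X (nat_lit 63)) (X (nat_lit 55))) (Nat.add (Nat.mul (X (nat_lit 63)) (X (nat_lit 57))) (Nat.add (Nat.mul (X (nat_lit 65)) (X (nat_lit 57))) (Nat.mul (X (nat_lit 67)) (X (nat_lit 57))))))))) (Nat.mul (nat_lit 16) (Nat.add (Nat.mul (X (nat_lit 64)) (X (nat_lit 57))) (Nat.mul (X (nat_lit 66)) (X (nat_lit 57)))))))) 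
 (.lf (.mk fun X => (Nat.add (Nat.mul (X (nat_lit 54)) (X (nat_lit 65))) (Nat.add (Nat.mul (nat_lit 4) (Nat.add (Nat.mul (X (nat_lit 54)) (X (nat_lit 62))) (Nat.add (Nat.mul (X (nat_lit 54)) (X (nat_lit 63))) (Nat.add (Nat.mul (X (nat_lit 56)) (X (nat_lit 62))) (Nat.add (Nat.mul (X (nat_lit 56)) (X (nat_lit 63))) (Nat.add (Nat.mul (X (nat_lit 68)) (X (nat_lit 65))) (Nat.mul (X (nat_lit 69)) (X (nat_lit 67))))))))) (Nat.mul (nat_lit 8) (Nat.add (Nat.mul (X (nat_lit 59)) (X (nat_lit 64))) (Nat.mul (X (nat_lit 59)) (X (nat_lit 66)))))))))) (.nd (nat_lit 148) 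
 (.lf (.mk fun X => (Nat.mul (nat_lit 8) (Nat.add (Nat.mul (X (nat_lit 54)) (X (nat_lit 57))) (Nat.add (Nat.mul (X (nat_lit 56)) (X (nat_lit 57))) (Nat.mul (X (nat_lit 59)) (X (nat_lit 55)))))))) (.nd (nat_lit 149) 
 (.lf (.mk fun X => (Nat.mul (nat_lit 8) (Nat.add (Nat.mul (X (nat_lit 62)) (X (nat_lit 60))) (Nat.add (Nat.mul (X (nat_lit 63)) (X (nat_lit 60))) (Nat.add (Nat.mul (X (nat_lit 64)) (X (nat_lit 55))) (Nat.add (Nat.mul (X (nat_lit 65)) (X (nat_lit 60))) (Nat.add (Nat.mul (X (nat_lit 66)) (X (nat_lit 55))) (Nat.mul (X (nat_lit 66)) (X (nat_lit 60))))))))))) 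
 (.lf (.mk fun _ => nat_lit 0)))))))))) (.nd (nat_lit 225) (.nd (nat_lit 187) (.nd (nat_lit 168) (.nd (nat_lit 159) (.nd (nat_lit 154) (.nd (nat_lit 152) (.nd (nat_lit 151) 
 (.lf (.mk fun X => (Nat.add (Nat.mul (nat_lit 2) (Nat.mul (X (nat_lit 54)) (X (nat_lit 55)))) (Nat.add (Nat.mul (nat_lit 8) (Nat.add (Nat.mul (X (nat_lit 54)) (X (nat_lit 57))) (Nat.add (Nat.mul (X (nat_lit 56)) (X (nat_lit 57))) (Nat.mul (X (nat_lit 68)) (X (nat_lit 55)))))) (Nat.mul (nat_lit 16) (Nat.mul (X (nat_lit 59)) (X (nat_lit 60)))))))) 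
 (.lf (.mk fun X => (Nat.mul (nat_lit 8) (Nat.mul (X (nat_lit 65)) (X (nat_lit 55))))))) (.nd (nat_lit 153) 
 (.lf (.mk fun X => (Nat.mul (nat_lit 8) (Nat.add (Nat.mul (X (nat_lit 54)) (X (nat_lit 57))) (Nat.add (Nat.mul (X (nat_lit 56)) (X (nat_lit 57))) (Nat.add (Nat.mul (X (nat_lit 58)) (X (nat_lit 57))) (Nat.add (Nat.mul (X (nat_lit 59)) (X (nat_lit 55))) (Nat.mul (X (nat_lit 59)) (X (nat_lit 60)))))))))) 
 (.lf (.mk fun X => (Nat.mul (nat_lit 8) (Nat.add (Nat.mul (X (nat_lit 54)) (X (nat_lit 57))) (Nat.add (Nat.mul (X (nat_lit 56)) (X (nat_lit 57))) (Nat.mul (X (nat_lit 69)) (X (nat_lit 55)))))))))) (.nd (nat_lit 156) (.nd (nat_lit 155) 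
 (.lf (.mk fun X => (Nat.mul (nat_lit 8) (Nat.mul (X (nat_lit 67)) (X (nat_lit 55)))))) 
 (.lf (.mk fun X => (Nat.add (Nat.mul (nat_lit 4) (Nat.add (Nat.mul (X (nat_lit 54)) (X (nat_lit 62))) (Nat.add (Nat.mul (X (nat_lit 54)) (X (nat_lit 63))) (Nat.add (Nat.mul (X (nat_lit 54)) (X (nat_lit 65))) (Nat.add (Nat.mul (X (nat_lit 54)) (X (nat_lit 67))) (Nat.add (Nat.mul (X (nat_lit 56)) (X (nat_lit 62))) (Nat.add (Nat.mul (X (nat_lit 56)) (X (nat_lit 63))) (Nat.add (Nat.mul (X (nat_lit 56)) (X (nat_lit 65))) (Nat.mul (X (nat_lit 56)) (X (nat_lit 67))))))))))) (Nat.mul (nat_lit 8) (Nat.add (Nat.mul (X (nat_lit 54)) (X (nat_lit 64))) (Nat.add (Nat.mul (X (nat_lit 54)) (X (nat_lit 66))) (Nat.add (Nat.mul (X (nat_lit 56)) (X (nat_lit 64))) (Nat.add (Nat.mul (X (nat_lit 56)) (X (nat_lit 66))) (Nat.add (Nat.mul (X (nat_lit 58)) (X (nat_lit 62))) (Nat.add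 (Nat.mul (X (nat_lit 58)) (X (nat_lit 63))) (Nat.mul (X (nat_lit 58)) (X (nat_lit 66)))))))))))))) (.nd (nat_lit 157) 
 (.lf (.mk fun X => (Nat.mul (nat_lit 8) (Nat.add (Nat.mul (X (nat_lit 62)) (X (nat_lit 57))) (Nat.add (Nat.mul (X (nat_lit 63)) (X (nat_lit 57))) (Nat.mul (X (nat_lit 66)) (X (nat_lit 57)))))))) (.nd (nat_lit 158) 
 (.lf (.mk fun X => (Nat.mul (nat_lit 4) (Nat.add (Nat.mul (X (nat_lit 59)) (X (nat_lit 62))) (Nat.add (Nat.mul (X (nat_lit 59)) (X (nat_lit 63))) (Nat.add (Nat.mul (X (nat_lit 59)) (X (nat_lit 65))) (Nat.mul (X (nat_lit 59)) (X (nat_lit 66))))))))) 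
 (.lf (.mk fun _ => nat_lit 0)))))) (.nd (nat_lit 163) (.nd (nat_lit 161) (.nd (nat_lit 160) 
 (.lf (.mk fun X => (Nat.add (Nat.mul (nat_lit 8) (Nat.add (Nat.mul (X (nat_lit 71)) (X (nat_lit 73))) (Nat.mul (X (nat_lit 72)) (X (nat_lit 73))))) (Nat.mul (nat_lit 16) (Nat.add (Nat.mul (X (nat_lit 74)) (X (nat_lit 73))) (Nat.mul (X (nat_lit 75)) (X (nat_lit 76)))))))) 
 (.lf (.mk fun X => (Nat.add (Nat.mul (nat_lit 8) (Nat.add (Nat.mul (X (nat_lit 78)) (X (nat_lit 73))) (Nat.add (Nat.mul (X (nat_lit 79)) (X (nat_lit 73))) (Nat.add (Nat.mul (X (nat_lit 81)) (X (nat_lit 73))) (Nat.mul (X (nat_lit 83)) (X (nat_lit 73))))))) (Nat.mul (nat_lit 16) (Nat.add (Nat.mul (X (nat_lit 80)) (X (nat_lit 73))) (Nat.mul (X (nat_lit 82)) (X (nat_lit 73))))))))) (.nd (nat_lit 162) 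
 (.lf (.mk fun X => (Nat.add (Nat.mul (X (nat_lit 71)) (X (nat_lit 81))) (Nat.add (Nat.mul (nat_lit 4) (Nat.add (Nat.mul (X (nat_lit 71)) (X (nat_lit 78))) (Nat.add (Nat.mul (X (nat_lit 71)) (X (nat_lit 79))) (Nat.add (Nat.mul (X (nat_lit 72)) (X (nat_lit 78))) (Nat.add (Nat.mul (X (nat_lit 72)) (X (nat_lit 79))) (Nat.add (Nat.mul (X (nat_lit 84)) (X (nat_lit 81))) (Nat.mul (X (nat_lit 85)) (X (nat_lit 83))))))))) (Nat.mul (nat_lit 8) (Nat.add (Nat.mul (X (nat_lit 75)) (X (nat_lit 80))) (Nat.mul (X (nat_lit 75)) (X (nat_lit 82))))))))) 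
 (.lf (.mk fun X => (Nat.mul (nat_lit 8) (Nat.add (Nat.mul (X (nat_lit 71)) (X (nat_lit 73))) (Nat.mul (X (nat_lit 72)) (X (nat_lit 73))))))))) (.nd (nat_lit 165) (.nd (nat_lit 164) 
 (.lf (.mk fun X => (Nat.mul (nat_lit 8) (Nat.add (Nat.mul (X (nat_lit 78)) (X (nat_lit 76))) (Nat.add (Nat.mul (X (nat_lit 79)) (X (nat_lit 76))) (Nat.add (Nat.mul (X (nat_lit 81)) (X (nat_lit 76))) (Nat.mul (X (nat_lit 82)) (X (nat_lit 76))))))))) 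
 (.lf (.mk fun _ => nat_lit 0))) (.nd (nat_lit 166) 
 (.lf (.mk fun X => (Nat.add (Nat.mul (nat_lit 8) (Nat.add (Nat.mul (X (nat_lit 71)) (X (nat_lit 73))) (Nat.mul (X (nat_lit 72)) (X (nat_lit 73))))) (Nat.mul (nat_lit 16) (Nat.mul (X (nat_lit 75)) (X (nat_lit 76))))))) (.nd (nat_lit 167) 
 (.lf (.mk fun X => (Nat.mul (nat_lit 8) (Nat.add (Nat.mul (X (nat_lit 71)) (X (nat_lit 73))) (Nat.add (Nat.mul (X (nat_lit 72)) (X (nat_lit 73))) (Nat.add (Nat.mul (X (nat_lit 74)) (X (nat_lit 73))) (Nat.mul (X (nat_lit 75)) (X (nat_lit 76))))))))) 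
 (.lf (.mk fun X => (Nat.mul (nat_lit 8) (Nat.add (Nat.mul (X (nat_lit 71)) (X (nat_lit 73))) (Nat.mul (X (nat_lit 72)) (X (nat_lit 73)))))))))))) (.nd (nat_lit 177) (.nd (nat_lit 172) (.nd (nat_lit 170) (.nd (nat_lit 169) 
 (.lf (.mk fun X => (Nat.add (Nat.mul (nat_lit 4) (Nat.add (Nat.mul (X (nat_lit 71)) (X (nat_lit 78))) (Nat.add (Nat.mul (X (nat_lit 71)) (X (nat_lit 79))) (Nat.add (Nat.mul (X (nat_lit 71)) (X (nat_lit 81))) (Nat.add (Nat.mul (X (nat_lit 71)) (X (nat_lit 83))) (Nat.add (Nat.mul (X (nat_lit 72)) (X (nat_lit 78))) (Nat.add (Nat.mul (X (nat_lit 72)) (X (nat_lit 79))) (Nat.add (Nat.mul (X (nat_lit 72)) (X (nat_lit 81))) (Nat.mul (X (nat_lit 72)) (X (nat_lit 83))))))))))) (Nat.mul (nat_lit 8) (Nat.add (Nat.mul (X (nat_lit 71)) (X (nat_lit 80))) (Nat.add (Nat.mul (X (nat_lit 71)) (X (nat_lit 82))) (Nat.add (Nat.mul (X (nat_lit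 72)) (X (nat_lit 80))) (Nat.add (Nat.mul (X (nat_lit 72)) (X (nat_lit 82))) (Nat.add (Nat.mul (X (nat_lit 74)) (X (nat_lit 78))) (Nat.add (Nat.mul (X (nat_lit 74)) (X (nat_lit 79))) (Nat.mul (X (nat_lit 74)) (X (nat_lit 82))))))))))))) 
 (.lf (.mk fun X => (Nat.mul (nat_lit 8) (Nat.add (Nat.mul (X (nat_lit 78)) (X (nat_lit 73))) (Nat.add (Nat.mul (X (nat_lit 79)) (X (nat_lit 73))) (Nat.mul (X (nat_lit 82)) (X (nat_lit 73))))))))) (.nd (nat_lit 171) 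
 (.lf (.mk fun X => (Nat.mul (nat_lit 4) (Nat.add (Nat.mul (X (nat_lit 75)) (X (nat_lit 78))) (Nat.add (Nat.mul (X (nat_lit 75)) (X (nat_lit 79))) (Nat.add (Nat.mul (X (nat_lit 75)) (X (nat_lit 81))) (Nat.mul (X (nat_lit 75)) (X (nat_lit 82))))))))) 
 (.lf (.mk fun _ => nat_lit 0)))) (.nd (nat_lit 174) (.nd (nat_lit 173) 
 (.lf (.mk fun X => (Nat.add (Nat.mul (nat_lit 8) (Nat.add (Nat.mul (X (nat_lit 87)) (X (nat_lit 88))) (Nat.add (Nat.mul (X (nat_lit 87)) (X (nat_lit 90))) (Nat.add (Nat.mul (X (nat_lit 89)) (X (nat_lit 88))) (Nat.mul (X (nat_lit 89)) (X (nat_lit 90))))))) (Nat.mul (nat_lit 16) (Nat.add (Nat.mul (X (nat_lit 91)) (X (nat_lit 90))) (Nat.mul (X (nat_lit 92)) (X (nat_lit 93)))))))) 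
 (.lf (.mk fun X => (Nat.add (Nat.mul (nat_lit 8) (Nat.add (Nat.mul (X (nat_lit 95)) (X (nat_lit 88))) (Nat.add (Nat.mul (X (nat_lit 95)) (X (nat_lit 90))) (Nat.add (Nat.mul (X (nat_lit 96)) (X (nat_lit 88))) (Nat.add (Nat.mul (X (nat_lit 96)) (X (nat_lit 90))) (Nat.add (Nat.mul (X (nat_lit 98)) (X (nat_lit 90))) (Nat.mul (X (nat_lit 100)) (X (nat_lit 90))))))))) (Nat.mul (nat_lit 16) (Nat.add (Nat.mul (X (nat_lit 97)) (X (nat_lit 90))) (Nat.mul (X (nat_lit 99)) (X (nat_lit 90))))))))) (.nd (nat_lit 175) 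
 (.lf (.mk fun X => (Nat.add (Nat.mul (X (nat_lit 87)) (X (nat_lit 98))) (Nat.add (Nat.mul (nat_lit 4) (Nat.add (Nat.mul (X (nat_lit 87)) (X (nat_lit 95))) (Nat.add (Nat.mul (X (nat_lit 87)) (X (nat_lit 96))) (Nat.add (Nat.mul (X (nat_lit 89)) (X (nat_lit 95))) (Nat.add (Nat.mul (X (nat_lit 89)) (X (nat_lit 96))) (Nat.add (Nat.mul (X (nat_lit 101)) (X (nat_lit 98))) (Nat.mul (X (nat_lit 102)) (X (nat_lit 100))))))))) (Nat.mul (nat_lit 8) (Nat.add (Nat.mul (X (nat_lit 92)) (X (nat_lit 97))) (Nat.mul (X (nat_lit 92)) (X (nat_lit 99))))))))) (.nd (nat_lit 176) 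
 (.lf (.mk fun X => (Nat.mul (nat_lit 8) (Nat.add (Nat.mul (X (nat_lit 87)) (X (nat_lit 90))) (Nat.add (Nat.mul (X (nat_lit 89)) (X (nat_lit 90))) (Nat.mul (X (nat_lit 92)) (X (nat_lit 88)))))))) 
 (.lf (.mk fun X => (Nat.mul (nat_lit 8) (Nat.add (Nat.mul (X (nat_lit 95)) (X (nat_lit 93))) (Nat.add (Nat.mul (X (nat_lit 96)) (X (nat_lit 93))) (Nat.add (Nat.mul (X (nat_lit 97)) (X (nat_lit 88))) (Nat.add (Nat.mul (X (nat_lit 98)) (X (nat_lit 93))) (Nat.add (Nat.mul (X (nat_lit 99)) (X (nat_lit 88))) (Nat.mul (X (nat_lit 99)) (X (nat_lit 93))))))))))))))) (.nd (nat_lit 182) (.nd (nat_lit 179) (.nd (nat_lit 178) 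
 (.lf (.mk fun _ => nat_lit 0)) 
 (.lf (.mk fun X => (Nat.add (Nat.mul (nat_lit 2) (Nat.mul (X (nat_lit 87)) (X (nat_lit 88)))) (Nat.add (Nat.mul (nat_lit 8) (Nat.add (Nat.mul (X (nat_lit 87)) (X (nat_lit 90))) (Nat.add (Nat.mul (X (nat_lit 89)) (X (nat_lit 90))) (Nat.mul (X (nat_lit 101)) (X (nat_lit 88)))))) (Nat.mul (nat_lit 16) (Nat.mul (X (nat_lit 92)) (X (nat_lit 93))))))))) (.nd (nat_lit 180) 
 (.lf (.mk fun X => (Nat.mul (nat_lit 8) (Nat.mul (X (nat_lit 98)) (X (nat_lit 88)))))) (.nd (nat_lit 181) 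
 (.lf (.mk fun X => (Nat.mul (nat_lit 8) (Nat.add (Nat.mul (X (nat_lit 87)) (X (nat_lit 90))) (Nat.add (Nat.mul (X (nat_lit 89)) (X (nat_lit 90))) (Nat.add (Nat.mul (X (nat_lit 91)) (X (nat_lit 90))) (Nat.add (Nat.mul (X (nat_lit 92)) (X (nat_lit 88))) (Nat.mul (X (nat_lit 92)) (X (nat_lit 93)))))))))) 
 (.lf (.mk fun X => (Nat.mul (nat_lit 8) (Nat.add (Nat.mul (X (nat_lit 87)) (X (nat_lit 90))) (Nat.add (Nat.mul (X (nat_lit 89)) (X (nat_lit 90))) (Nat.mul (X (nat_lit 102)) (X (nat_lit 88))))))))))) (.nd (nat_lit 184) (.nd (nat_lit 183) 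
 (.lf (.mk fun X => (Nat.mul (nat_lit 8) (Nat.mul (X (nat_lit 100)) (X (nat_lit 88)))))) 
 (.lf (.mk fun X => (Nat.add (Nat.mul (nat_lit 4) (Nat.add (Nat.mul (X (nat_lit 87)) (X (nat_lit 95))) (Nat.add (Nat.mul (X (nat_lit 87)) (X (nat_lit 96))) (Nat.add (Nat.mul (X (nat_lit 87)) (X (nat_lit 98))) (Nat.add (Nat.mul (X (nat_lit 87)) (X (nat_lit 100))) (Nat.add (Nat.mul (X (nat_lit 89)) (X (nat_lit 95))) (Nat.add (Nat.mul (X (nat_lit 89)) (X (nat_lit 96))) (Nat.add (Nat.mul (X (nat_lit 89)) (X (nat_lit 98))) (Nat.mul (X (nat_lit 89)) (X (nat_lit 100))))))))))) (Nat.mul (nat_lit 8) (Nat.add (Nat.mul (X (nat_lit 87)) (X (nat_lit 97))) (Nat.add (Nat.mul (X (nat_lit 87)) (X (nat_lit 99))) (Nat.add (Nat.mul (X (nat_lit 89)) (X (nat_lit 97))) (Nat.add (Nat.mul (X (nat_lit 89)) (X (nat_lit 99))) (Nat.add (Nat.mul (X (nat_lit 91)) (X (nat_lit 95))) (Nat.add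 (Nat.mul (X (nat_lit 91)) (X (nat_lit 96))) (Nat.mul (X (nat_lit 91)) (X (nat_lit 99)))))))))))))) (.nd (nat_lit 185) 
 (.lf (.mk fun X => (Nat.mul (nat_lit 8) (Nat.add (Nat.mul (X (nat_lit 95)) (X (nat_lit 90))) (Nat.add (Nat.mul (X (nat_lit 96)) (X (nat_lit 90))) (Nat.mul (X (nat_lit 99)) (X (nat_lit 90)))))))) (.nd (nat_lit 186) 
 (.lf (.mk fun X => (Nat.mul (nat_lit 4) (Nat.add (Nat.mul (X (nat_lit 92)) (X (nat_lit 95))) (Nat.add (Nat.mul (X (nat_lit 92)) (X (nat_lit 96))) (Nat.add (Nat.mul (X (nat_lit 92)) (X (nat_lit 98))) (Nat.mul (X (nat_lit 92)) (X (nat_lit 99))))))))) 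
 (.lf (.mk fun _ => nat_lit 0)))))))) (.nd (nat_lit 206) (.nd (nat_lit 196) (.nd (nat_lit 191) (.nd (nat_lit 189) (.nd (nat_lit 188) 
 (.lf (.mk fun X => (Nat.add (Nat.mul (nat_lit 8) (Nat.mul (X (nat_lit 104)) (X (nat_lit 105)))) (Nat.mul (nat_lit 16) (Nat.add (Nat.mul (X (nat_lit 106)) (X (nat_lit 105))) (Nat.mul (X (nat_lit 107)) (X (nat_lit 108)))))))) 
 (.lf (.mk fun X => (Nat.add (Nat.mul (nat_lit 8) (Nat.add (Nat.mul (X (nat_lit 110)) (X (nat_lit 105))) (Nat.add (Nat.mul (X (nat_lit 111)) (X (nat_lit 105))) (Nat.mul (X (nat_lit 114)) (X (nat_lit 105)))))) (Nat.mul (nat_lit 16) (Nat.add (Nat.mul (X (nat_lit 112)) (X (nat_lit 105))) (Nat.mul (X (nat_lit 113)) (X (nat_lit 105))))))))) (.nd (nat_lit 190) 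
 (.lf (.mk fun X => (Nat.add (Nat.mul (nat_lit 4) (Nat.add (Nat.mul (X (nat_lit 104)) (X (nat_lit 110))) (Nat.add (Nat.mul (X (nat_lit 104)) (X (nat_lit 111))) (Nat.mul (X (nat_lit 116)) (X (nat_lit 114)))))) (Nat.mul (nat_lit 8) (Nat.add (Nat.mul (X (nat_lit 107)) (X (nat_lit 112))) (Nat.mul (X (nat_lit 107)) (X (nat_lit 113)))))))) 
 (.lf (.mk fun X => (Nat.mul (nat_lit 8) (Nat.mul (X (nat_lit 104)) (X (nat_lit 105)))))))) (.nd (nat_lit 193) (.nd (nat_lit 192) 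
 (.lf (.mk fun X => (Nat.mul (nat_lit 8) (Nat.add (Nat.mul (X (nat_lit 110)) (X (nat_lit 108))) (Nat.add (Nat.mul (X (nat_lit 111)) (X (nat_lit 108))) (Nat.mul (X (nat_lit 113)) (X (nat_lit 108)))))))) 
 (.lf (.mk fun _ => nat_lit 0))) (.nd (nat_lit 194) 
 (.lf (.mk fun X => (Nat.add (Nat.mul (nat_lit 8) (Nat.mul (X (nat_lit 104)) (X (nat_lit 105)))) (Nat.mul (nat_lit 16) (Nat.mul (X (nat_lit 107)) (X (nat_lit 108))))))) (.nd (nat_lit 195) 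
 (.lf (.mk fun X => (Nat.mul (nat_lit 8) (Nat.add (Nat.mul (X (nat_lit 104)) (X (nat_lit 105))) (Nat.add (Nat.mul (X (nat_lit 106)) (X (nat_lit 105))) (Nat.mul (X (nat_lit 107)) (X (nat_lit 108)))))))) 
 (.lf (.mk fun X => (Nat.mul (nat_lit 8) (Nat.mul (X (nat_lit 104)) (X (nat_lit 105)))))))))) (.nd (nat_lit 201) (.nd (nat_lit 198) (.nd (nat_lit 197) 
 (.lf (.mk fun X => (Nat.add (Nat.mul (nat_lit 4) (Nat.add (Nat.mul (X (nat_lit 104)) (X (nat_lit 110))) (Nat.add (Nat.mul (X (nat_lit 104)) (X (nat_lit 111))) (Nat.mul (X (nat_lit 104)) (X (nat_lit 114)))))) (Nat.mul (nat_lit 8) (Nat.add (Nat.mul (X (nat_lit 104)) (X (nat_lit 112))) (Nat.add (Nat.mul (X (nat_lit 104)) (X (nat_lit 113))) (Nat.add (Nat.mul (X (nat_lit 106)) (X (nat_lit 110))) (Nat.add (Nat.mul (X (nat_lit 106)) (X (nat_lit 111))) (Nat.mul (X (nat_lit 106)) (X (nat_lit 113)))))))))))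 
 (.lf (.mk fun X => (Nat.mul (nat_lit 8) (Nat.add (Nat.mul (X (nat_lit 110)) (X (nat_lit 105))) (Nat.add (Nat.mul (X (nat_lit 111)) (X (nat_lit 105))) (Nat.mul (X (nat_lit 113)) (X (nat_lit 105))))))))) (.nd (nat_lit 199) 
 (.lf (.mk fun X => (Nat.mul (nat_lit 4) (Nat.add (Nat.mul (X (nat_lit 107)) (X (nat_lit 110))) (Nat.add (Nat.mul (X (nat_lit 107)) (X (nat_lit 111))) (Nat.mul (X (nat_lit 107)) (X (nat_lit 113)))))))) (.nd (nat_lit 200) 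
 (.lf (.mk fun _ => nat_lit 0)) 
 (.lf (.mk fun _ => nat_lit 0))))) (.nd (nat_lit 203) (.nd (nat_lit 202) 
 (.lf (.mk fun _ => nat_lit 0)) 
 (.lf (.mk fun _ => nat_lit 0))) (.nd (nat_lit 204) 
 (.lf (.mk fun _ => nat_lit 0)) (.nd (nat_lit 205) 
 (.lf (.mk fun _ => nat_lit 0)) 
 (.lf (.mk fun _ => nat_lit 0))))))) (.nd (nat_lit 215) (.nd (nat_lit 210) (.nd (nat_lit 208) (.nd (nat_lit 207) 
 (.lf (.mk fun _ => nat_lit 0)) 
 (.lf (.mk fun _ => nat_lit 0))) (.nd (nat_lit 209) 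
 (.lf (.mk fun _ => nat_lit 0)) 
 (.lf (.mk fun _ => nat_lit 0)))) (.nd (nat_lit 212) (.nd (nat_lit 211) 
 (.lf (.mk fun _ => nat_lit 0)) 
 (.lf (.mk fun _ => nat_lit 0))) (.nd (nat_lit 213) 
 (.lf (.mk fun _ => nat_lit 0)) (.nd (nat_lit 214) 
 (.lf (.mk fun _ => nat_lit 0)) 
 (.lf (.mk fun _ => nat_lit 0)))))) (.nd (nat_lit 220) (.nd (nat_lit 217) (.nd (nat_lit 216) 
 (.lf (.mk fun _ => nat_lit 0)) 
 (.lf (.mk fun _ => nat_lit 0))) (.nd (nat_lit 218) 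
 (.lf (.mk fun _ => nat_lit 0)) (.nd (nat_lit 219) 
 (.lf (.mk fun _ => nat_lit 0)) 
 (.lf (.mk fun _ => nat_lit 0))))) (.nd (nat_lit 222) (.nd (nat_lit 221) 
 (.lf (.mk fun _ => nat_lit 0)) 
 (.lf (.mk fun _ => nat_lit 0))) (.nd (nat_lit 223) 
 (.lf (.mk fun _ => nat_lit 0)) (.nd (nat_lit 224) 
 (.lf (.mk fun _ => nat_lit 0)) 
 (.lf (.mk fun _ => nat_lit 0))))))))) (.nd (nat_lit 262) (.nd (nat_lit 243) (.nd (nat_lit 234) (.nd (nat_lit 229) (.nd (nat_lit 227) (.nd (nat_lit 226) 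
 (.lf (.mk fun _ => nat_lit 0)) 
 (.lf (.mk fun _ => nat_lit 0))) (.nd (nat_lit 228) 
 (.lf (.mk fun _ => nat_lit 0)) 
 (.lf (.mk fun _ => nat_lit 0)))) (.nd (nat_lit 231) (.nd (nat_lit 230) 
 (.lf (.mk fun _ => nat_lit 0)) 
 (.lf (.mk fun _ => nat_lit 0))) (.nd (nat_lit 232) 
 (.lf (.mk fun _ => nat_lit 0)) (.nd (nat_lit 233) 
 (.lf (.mk fun _ => nat_lit 0)) 
 (.lf (.mk fun _ => nat_lit 0)))))) (.nd (nat_lit 238) (.nd (nat_lit 236) (.nd (nat_lit 235) 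
 (.lf (.mk fun _ => nat_lit 0)) 
 (.lf (.mk fun _ => nat_lit 0))) (.nd (nat_lit 237) 
 (.lf (.mk fun _ => nat_lit 0)) 
 (.lf (.mk fun _ => nat_lit 0)))) (.nd (nat_lit 240) (.nd (nat_lit 239) 
 (.lf (.mk fun _ => nat_lit 0)) 
 (.lf (.mk fun _ => nat_lit 0))) (.nd (nat_lit 241) 
 (.lf (.mk fun _ => nat_lit 0)) (.nd (nat_lit 242) 
 (.lf (.mk fun _ => nat_lit 0)) 
 (.lf (.mk fun _ => nat_lit 0))))))) (.nd (nat_lit 252) (.nd (nat_lit 247) (.nd (nat_lit 245) (.nd (nat_lit 244) 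
 (.lf (.mk fun _ => nat_lit 0)) 
 (.lf (.mk fun _ => nat_lit 0))) (.nd (nat_lit 246) 
 (.lf (.mk fun _ => nat_lit 0)) 
 (.lf (.mk fun _ => nat_lit 0)))) (.nd (nat_lit 249) (.nd (nat_lit 248) 
 (.lf (.mk fun _ => nat_lit 0)) 
 (.lf (.mk fun _ => nat_lit 0))) (.nd (nat_lit 250) 
 (.lf (.mk fun _ => nat_lit 0)) (.nd (nat_lit 251) 
 (.lf (.mk fun _ => nat_lit 0)) 
 (.lf (.mk fun _ => nat_lit 0)))))) (.nd (nat_lit 257) (.nd (nat_lit 254) (.nd (nat_lit 253) 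
 (.lf (.mk fun _ => nat_lit 0)) 
 (.lf (.mk fun _ => nat_lit 0))) (.nd (nat_lit 255) 
 (.lf (.mk fun _ => nat_lit 0)) (.nd (nat_lit 256) 
 (.lf (.mk fun _ => nat_lit 0)) 
 (.lf (.mk fun _ => nat_lit 0))))) (.nd (nat_lit 259) (.nd (nat_lit 258) 
 (.lf (.mk fun _ => nat_lit 0)) 
 (.lf (.mk fun _ => nat_lit 0))) (.nd (nat_lit 260) 
 (.lf (.mk fun _ => nat_lit 0)) (.nd (nat_lit 261) 
 (.lf (.mk fun _ => nat_lit 0)) 
 (.lf (.mk fun _ => nat_lit 0)))))))) (.nd (nat_lit 281) (.nd (nat_lit 271) (.nd (nat_lit 266) (.nd (nat_lit 264) (.nd (nat_lit 263) 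
 (.lf (.mk fun _ => nat_lit 0)) 
 (.lf (.mk fun _ => nat_lit 0))) (.nd (nat_lit 265) 
 (.lf (.mk fun _ => nat_lit 0)) 
 (.lf (.mk fun _ => nat_lit 0)))) (.nd (nat_lit 268) (.nd (nat_lit 267) 
 (.lf (.mk fun _ => nat_lit 0)) 
 (.lf (.mk fun _ => nat_lit 0))) (.nd (nat_lit 269) 
 (.lf (.mk fun _ => nat_lit 0)) (.nd (nat_lit 270) 
 (.lf (.mk fun _ => nat_lit 0)) 
 (.lf (.mk fun _ => nat_lit 0)))))) (.nd (nat_lit 276) (.nd (nat_lit 273) (.nd (nat_lit 272) 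
 (.lf (.mk fun _ => nat_lit 0)) 
 (.lf (.mk fun _ => nat_lit 0))) (.nd (nat_lit 274) 
 (.lf (.mk fun _ => nat_lit 0)) (.nd (nat_lit 275) 
 (.lf (.mk fun _ => nat_lit 0)) 
 (.lf (.mk fun _ => nat_lit 0))))) (.nd (nat_lit 278) (.nd (nat_lit 277) 
 (.lf (.mk fun _ => nat_lit 0)) 
 (.lf (.mk fun _ => nat_lit 0))) (.nd (nat_lit 279) 
 (.lf (.mk fun _ => nat_lit 0)) (.nd (nat_lit 280) 
 (.lf (.mk fun _ => nat_lit 0)) 
 (.lf (.mk fun _ => nat_lit 0))))))) (.nd (nat_lit 290) (.nd (nat_lit 285) (.nd (nat_lit 283) (.nd (nat_lit 282) 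
 (.lf (.mk fun _ => nat_lit 0)) 
 (.lf (.mk fun _ => nat_lit 0))) (.nd (nat_lit 284) 
 (.lf (.mk fun _ => nat_lit 0)) 
 (.lf (.mk fun _ => nat_lit 0)))) (.nd (nat_lit 287) (.nd (nat_lit 286) 
 (.lf (.mk fun _ => nat_lit 0)) 
 (.lf (.mk fun _ => nat_lit 0))) (.nd (nat_lit 288) 
 (.lf (.mk fun _ => nat_lit 0)) (.nd (nat_lit 289) 
 (.lf (.mk fun _ => nat_lit 0)) 
 (.lf (.mk fun _ => nat_lit 0)))))) (.nd (nat_lit 295) (.nd (nat_lit 292) (.nd (nat_lit 291) 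
 (.lf (.mk fun _ => nat_lit 0)) 
 (.lf (.mk fun _ => nat_lit 0))) (.nd (nat_lit 293) 
 (.lf (.mk fun _ => nat_lit 0)) (.nd (nat_lit 294) 
 (.lf (.mk fun _ => nat_lit 0)) 
 (.lf (.mk fun _ => nat_lit 0))))) (.nd (nat_lit 297) (.nd (nat_lit 296) 
 (.lf (.mk fun _ => nat_lit 0)) 
 (.lf (.mk fun _ => nat_lit 0))) (.nd (nat_lit 298) 
 (.lf (.mk fun _ => nat_lit 0)) (.nd (nat_lit 299) 
 (.lf (.mk fun _ => nat_lit 0)) 
 (.lf (.mk fun _ => nat_lit 0)))))))))))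

noncomputable def rbT : Tb Bx := (.nd (nat_lit 150) (.nd (nat_lit 75) (.nd (nat_lit 37) (.nd (nat_lit 18) (.nd (nat_lit 9) (.nd (nat_lit 4) (.nd (nat_lit 2) (.nd (nat_lit 1) 
 (.lf (.mk fun _ => nat_lit 0)) 
 (.lf (.mk fun _ => nat_lit 0))) (.nd (nat_lit 3) 
 (.lf (.mk fun _ => nat_lit 0)) 
 (.lf (.mk fun _ => nat_lit 0)))) (.nd (nat_lit 6) (.nd (nat_lit 5) 
 (.lf (.mk fun _ => nat_lit 0)) 
 (.lf (.mk fun _ => nat_lit 0))) (.nd (nat_lit 7) 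
 (.lf (.mk fun X => (Nat.add (Nat.mul (nat_lit 4) (Nat.add (Nat.mul (X (nat_lit 5)) (X (nat_lit 10))) (Nat.mul (X (nat_lit 20)) (X (nat_lit 10))))) (Nat.mul (nat_lit 8) (Nat.mul (X (nat_lit 11)) (X (nat_lit 10))))))) (.nd (nat_lit 8) 
 (.lf (.mk fun _ => nat_lit 0)) 
 (.lf (.mk fun X => (Nat.mul (nat_lit 8) (Nat.mul (X (nat_lit 14)) (X (nat_lit 10)))))))))) (.nd (nat_lit 13) (.nd (nat_lit 11) (.nd (nat_lit 10) 
 (.lf (.mk fun _ => nat_lit 0)) 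
 (.lf (.mk fun _ => nat_lit 0))) (.nd (nat_lit 12) 
 (.lf (.mk fun _ => nat_lit 0)) 
 (.lf (.mk fun _ => nat_lit 0)))) (.nd (nat_lit 15) (.nd (nat_lit 14) 
 (.lf (.mk fun _ => nat_lit 0)) 
 (.lf (.mk fun X => (Nat.add (Nat.mul (nat_lit 2) (Nat.add (Nat.mul (X (nat_lit 5)) (X (nat_lit 14))) (Nat.mul (X (nat_lit 20)) (X (nat_lit 14))))) (Nat.mul (nat_lit 4) (Nat.mul (X (nat_lit 11)) (X (nat_lit 14)))))))) (.nd (nat_lit 16) 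
 (.lf (.mk fun X => (Nat.mul (nat_lit 4) (Nat.mul (X (nat_lit 14)) (X (nat_lit 10)))))) (.nd (nat_lit 17) 
 (.lf (.mk fun _ => nat_lit 0)) 
 (.lf (.mk fun _ => nat_lit 0))))))) (.nd (nat_lit 27) (.nd (nat_lit 22) (.nd (nat_lit 20) (.nd (nat_lit 19) 
 (.lf (.mk fun _ => nat_lit 0)) 
 (.lf (.mk fun X => (Nat.add (Nat.mul (nat_lit 4) (Nat.add (Nat.mul (X (nat_lit 21)) (X (nat_lit 27))) (Nat.mul (X (nat_lit 37)) (X (nat_lit 27))))) (Nat.mul (nat_lit 8) (Nat.mul (X (nat_lit 28)) (X (nat_lit 27)))))))) (.nd (nat_lit 21) 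
 (.lf (.mk fun _ => nat_lit 0)) 
 (.lf (.mk fun X => (Nat.mul (nat_lit 8) (Nat.mul (X (nat_lit 31)) (X (nat_lit 27)))))))) (.nd (nat_lit 24) (.nd (nat_lit 23) 
 (.lf (.mk fun _ => nat_lit 0)) 
 (.lf (.mk fun _ => nat_lit 0))) (.nd (nat_lit 25) 
 (.lf (.mk fun _ => nat_lit 0)) (.nd (nat_lit 26) 
 (.lf (.mk fun _ => nat_lit 0)) 
 (.lf (.mk fun _ => nat_lit 0)))))) (.nd (nat_lit 32) (.nd (nat_lit 29) (.nd (nat_lit 28) 
 (.lf (.mk fun _ => nat_lit 0)) 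
 (.lf (.mk fun _ => nat_lit 0))) (.nd (nat_lit 30) 
 (.lf (.mk fun X => (Nat.add (Nat.mul (nat_lit 2) (Nat.add (Nat.mul (X (nat_lit 21)) (X (nat_lit 31))) (Nat.mul (X (nat_lit 37)) (X (nat_lit 31))))) (Nat.mul (nat_lit 4) (Nat.mul (X (nat_lit 28)) (X (nat_lit 31))))))) (.nd (nat_lit 31) 
 (.lf (.mk fun X => (Nat.mul (nat_lit 4) (Nat.mul (X (nat_lit 31)) (X (nat_lit 27)))))) 
 (.lf (.mk fun _ => nat_lit 0))))) (.nd (nat_lit 34) (.nd (nat_lit 33) 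
 (.lf (.mk fun _ => nat_lit 0)) 
 (.lf (.mk fun _ => nat_lit 0))) (.nd (nat_lit 35) 
 (.lf (.mk fun X => (Nat.add (Nat.mul (nat_lit 4) (Nat.add (Nat.mul (X (nat_lit 38)) (X (nat_lit 43))) (Nat.mul (X (nat_lit 53)) (X (nat_lit 43))))) (Nat.mul (nat_lit 8) (Nat.mul (X (nat_lit 44)) (X (nat_lit 43))))))) (.nd (nat_lit 36) 
 (.lf (.mk fun _ => nat_lit 0)) 
 (.lf (.mk fun X => (Nat.mul (nat_lit 8) (Nat.mul (X (nat_lit 47)) (X (nat_lit 43)))))))))))) (.nd (nat_lit 56) (.nd (nat_lit 46) (.nd (nat_lit 41) (.nd (nat_lit 39) (.nd (nat_lit 38) 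
 (.lf (.mk fun _ => nat_lit 0)) 
 (.lf (.mk fun _ => nat_lit 0))) (.nd (nat_lit 40) 
 (.lf (.mk fun _ => nat_lit 0)) 
 (.lf (.mk fun _ => nat_lit 0)))) (.nd (nat_lit 43) (.nd (nat_lit 42) 
 (.lf (.mk fun _ => nat_lit 0)) 
 (.lf (.mk fun X => (Nat.add (Nat.mul (nat_lit 2) (Nat.add (Nat.mul (X (nat_lit 38)) (X (nat_lit 47))) (Nat.mul (X (nat_lit 53)) (X (nat_lit 47))))) (Nat.mul (nat_lit 4) (Nat.mul (X (nat_lit 44)) (X (nat_lit 47)))))))) (.nd (nat_lit 44) 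
 (.lf (.mk fun X => (Nat.mul (nat_lit 4) (Nat.mul (X (nat_lit 47)) (X (nat_lit 43)))))) (.nd (nat_lit 45) 
 (.lf (.mk fun _ => nat_lit 0)) 
 (.lf (.mk fun _ => nat_lit 0)))))) (.nd (nat_lit 51) (.nd (nat_lit 48) (.nd (nat_lit 47) 
 (.lf (.mk fun _ => nat_lit 0)) 
 (.lf (.mk fun X => (Nat.add (Nat.mul (nat_lit 4) (Nat.add (Nat.mul (X (nat_lit 54)) (X (nat_lit 60))) (Nat.mul (X (nat_lit 70)) (X (nat_lit 60))))) (Nat.mul (nat_lit 8) (Nat.mul (X (nat_lit 61)) (X (nat_lit 60)))))))) (.nd (nat_lit 49) 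
 (.lf (.mk fun _ => nat_lit 0)) (.nd (nat_lit 50) 
 (.lf (.mk fun X => (Nat.mul (nat_lit 8) (Nat.mul (X (nat_lit 64)) (X (nat_lit 60)))))) 
 (.lf (.mk fun _ => nat_lit 0))))) (.nd (nat_lit 53) (.nd (nat_lit 52) 
 (.lf (.mk fun _ => nat_lit 0)) 
 (.lf (.mk fun _ => nat_lit 0))) (.nd (nat_lit 54) 
 (.lf (.mk fun _ => nat_lit 0)) (.nd (nat_lit 55) 
 (.lf (.mk fun _ => nat_lit 0)) 
 (.lf (.mk fun _ => nat_lit 0))))))) (.nd (nat_lit 65) (.nd (nat_lit 60) (.nd (nat_lit 58) (.nd (nat_lit 57) 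
 (.lf (.mk fun _ => nat_lit 0)) 
 (.lf (.mk fun X => (Nat.add (Nat.mul (nat_lit 2) (Nat.add (Nat.mul (X (nat_lit 54)) (X (nat_lit 64))) (Nat.mul (X (nat_lit 70)) (X (nat_lit 64))))) (Nat.mul (nat_lit 4) (Nat.mul (X (nat_lit 61)) (X (nat_lit 64)))))))) (.nd (nat_lit 59) 
 (.lf (.mk fun X => (Nat.mul (nat_lit 4) (Nat.mul (X (nat_lit 64)) (X (nat_lit 60)))))) 
 (.lf (.mk fun _ => nat_lit 0)))) (.nd (nat_lit 62) (.nd (nat_lit 61) 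
 (.lf (.mk fun _ => nat_lit 0)) 
 (.lf (.mk fun _ => nat_lit 0))) (.nd (nat_lit 63) 
 (.lf (.mk fun X => (Nat.add (Nat.mul (nat_lit 4) (Nat.add (Nat.mul (X (nat_lit 71)) (X (nat_lit 76))) (Nat.mul (X (nat_lit 86)) (X (nat_lit 76))))) (Nat.mul (nat_lit 8) (Nat.mul (X (nat_lit 77)) (X (nat_lit 76))))))) (.nd (nat_lit 64) 
 (.lf (.mk fun _ => nat_lit 0)) 
 (.lf (.mk fun X => (Nat.mul (nat_lit 8) (Nat.mul (X (nat_lit 80)) (X (nat_lit 76)))))))))) (.nd (nat_lit 70) (.nd (nat_lit 67) (.nd (nat_lit 66) 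
 (.lf (.mk fun _ => nat_lit 0)) 
 (.lf (.mk fun _ => nat_lit 0))) (.nd (nat_lit 68) 
 (.lf (.mk fun _ => nat_lit 0)) (.nd (nat_lit 69) 
 (.lf (.mk fun _ => nat_lit 0)) 
 (.lf (.mk fun _ => nat_lit 0))))) (.nd (nat_lit 72) (.nd (nat_lit 71) 
 (.lf (.mk fun X => (Nat.add (Nat.mul (nat_lit 2) (Nat.add (Nat.mul (X (nat_lit 71)) (X (nat_lit 80))) (Nat.mul (X (nat_lit 86)) (X (nat_lit 80))))) (Nat.mul (nat_lit 4) (Nat.mul (X (nat_lit 77)) (X (nat_lit 80))))))) 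
 (.lf (.mk fun X => (Nat.mul (nat_lit 4) (Nat.mul (X (nat_lit 80)) (X (nat_lit 76))))))) (.nd (nat_lit 73) 
 (.lf (.mk fun _ => nat_lit 0)) (.nd (nat_lit 74) 
 (.lf (.mk fun _ => nat_lit 0)) 
 (.lf (.mk fun _ => nat_lit 0))))))))) (.nd (nat_lit 112) (.nd (nat_lit 93) (.nd (nat_lit 84) (.nd (nat_lit 79) (.nd (nat_lit 77) (.nd (nat_lit 76) 
 (.lf (.mk fun X => (Nat.add (Nat.mul (nat_lit 4) (Nat.add (Nat.mul (X (nat_lit 87)) (X (nat_lit 93))) (Nat.mul (X (nat_lit 103)) (X (nat_lit 93))))) (Nat.mul (nat_lit 8) (Nat.mul (X (nat_lit 94)) (X (nat_lit 93))))))) 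
 (.lf (.mk fun _ => nat_lit 0))) (.nd (nat_lit 78) 
 (.lf (.mk fun X => (Nat.mul (nat_lit 8) (Nat.mul (X (nat_lit 97)) (X (nat_lit 93)))))) 
 (.lf (.mk fun _ => nat_lit 0)))) (.nd (nat_lit 81) (.nd (nat_lit 80) 
 (.lf (.mk fun _ => nat_lit 0)) 
 (.lf (.mk fun _ => nat_lit 0))) (.nd (nat_lit 82) 
 (.lf (.mk fun _ => nat_lit 0)) (.nd (nat_lit 83) 
 (.lf (.mk fun _ => nat_lit 0)) 
 (.lf (.mk fun _ => nat_lit 0)))))) (.nd (nat_lit 88) (.nd (nat_lit 86) (.nd (nat_lit 85) 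
 (.lf (.mk fun _ => nat_lit 0)) 
 (.lf (.mk fun X => (Nat.add (Nat.mul (nat_lit 2) (Nat.add (Nat.mul (X (nat_lit 87)) (X (nat_lit 97))) (Nat.mul (X (nat_lit 103)) (X (nat_lit 97))))) (Nat.mul (nat_lit 4) (Nat.mul (X (nat_lit 94)) (X (nat_lit 97)))))))) (.nd (nat_lit 87) 
 (.lf (.mk fun X => (Nat.mul (nat_lit 4) (Nat.mul (X (nat_lit 97)) (X (nat_lit 93)))))) 
 (.lf (.mk fun _ => nat_lit 0)))) (.nd (nat_lit 90) (.nd (nat_lit 89) 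
 (.lf (.mk fun _ => nat_lit 0)) 
 (.lf (.mk fun _ => nat_lit 0))) (.nd (nat_lit 91) 
 (.lf (.mk fun X => (Nat.add (Nat.mul (nat_lit 4) (Nat.mul (X (nat_lit 117)) (X (nat_lit 108)))) (Nat.mul (nat_lit 8) (Nat.mul (X (nat_lit 109)) (X (nat_lit 108))))))) (.nd (nat_lit 92) 
 (.lf (.mk fun _ => nat_lit 0)) 
 (.lf (.mk fun X => (Nat.mul (nat_lit 8) (Nat.mul (X (nat_lit 112)) (X (nat_lit 108))))))))))) (.nd (nat_lit 102) (.nd (nat_lit 97) (.nd (nat_lit 95) (.nd (nat_lit 94) 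
 (.lf (.mk fun _ => nat_lit 0)) 
 (.lf (.mk fun _ => nat_lit 0))) (.nd (nat_lit 96) 
 (.lf (.mk fun _ => nat_lit 0)) 
 (.lf (.mk fun _ => nat_lit 0)))) (.nd (nat_lit 99) (.nd (nat_lit 98) 
 (.lf (.mk fun _ => nat_lit 0)) 
 (.lf (.mk fun X => (Nat.add (Nat.mul (nat_lit 2) (Nat.mul (X (nat_lit 117)) (X (nat_lit 112)))) (Nat.mul (nat_lit 4) (Nat.mul (X (nat_lit 109)) (X (nat_lit 112)))))))) (.nd (nat_lit 100) 
 (.lf (.mk fun X => (Nat.mul (nat_lit 4) (Nat.mul (X (nat_lit 112)) (X (nat_lit 108)))))) (.nd (nat_lit 101) 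
 (.lf (.mk fun _ => nat_lit 0)) 
 (.lf (.mk fun _ => nat_lit 0)))))) (.nd (nat_lit 107) (.nd (nat_lit 104) (.nd (nat_lit 103) 
 (.lf (.mk fun _ => nat_lit 0)) 
 (.lf (.mk fun X => (Nat.mul (nat_lit 16) (Nat.mul (X (nat_lit 11)) (X (nat_lit 10))))))) (.nd (nat_lit 105) 
 (.lf (.mk fun _ => nat_lit 0)) (.nd (nat_lit 106) 
 (.lf (.mk fun X => (Nat.mul (nat_lit 4) (Nat.mul (X (nat_lit 11)) (X (nat_lit 14)))))) 
 (.lf (.mk fun X => (Nat.mul (nat_lit 8) (Nat.add (Nat.mul (X (nat_lit 8)) (X (nat_lit 7))) (Nat.mul (X (nat_lit 9)) (X (nat_lit 10)))))))))) (.nd (nat_lit 109) (.nd (nat_lit 108) 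
 (.lf (.mk fun X => (Nat.mul (nat_lit 8) (Nat.mul (X (nat_lit 14)) (X (nat_lit 10)))))) 
 (.lf (.mk fun X => (Nat.add (Nat.mul (nat_lit 4) (Nat.mul (X (nat_lit 15)) (X (nat_lit 10)))) (Nat.mul (nat_lit 8) (Nat.add (Nat.mul (X (nat_lit 12)) (X (nat_lit 10))) (Nat.add (Nat.mul (X (nat_lit 13)) (X (nat_lit 10))) (Nat.mul (X (nat_lit 16)) (X (nat_lit 10)))))))))) (.nd (nat_lit 110) 
 (.lf (.mk fun X => (Nat.mul (nat_lit 8) (Nat.mul (X (nat_lit 11)) (X (nat_lit 10)))))) (.nd (nat_lit 111) 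
 (.lf (.mk fun X => (Nat.mul (nat_lit 8) (Nat.mul (X (nat_lit 11)) (X (nat_lit 10)))))) 
 (.lf (.mk fun _ => nat_lit 0)))))))) (.nd (nat_lit 131) (.nd (nat_lit 121) (.nd (nat_lit 116) (.nd (nat_lit 114) (.nd (nat_lit 113) 
 (.lf (.mk fun X => (Nat.mul (nat_lit 8) (Nat.mul (X (nat_lit 8)) (X (nat_lit 14)))))) 
 (.lf (.mk fun X => (Nat.mul (nat_lit 8) (Nat.mul (X (nat_lit 14)) (X (nat_lit 7))))))) (.nd (nat_lit 115) 
 (.lf (.mk fun X => (Nat.add (Nat.mul (nat_lit 2) (Nat.mul (X (nat_lit 11)) (X (nat_lit 15)))) (Nat.mul (nat_lit 4) (Nat.add (Nat.mul (X (nat_lit 9)) (X (nat_lit 14))) (Nat.add (Nat.mul (X (nat_lit 11)) (X (nat_lit 12))) (Nat.add (Nat.mul (X (nat_lit 11)) (X (nat_lit 13))) (Nat.mul (X (nat_lit 11)) (X (nat_lit 16)))))))))) 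
 (.lf (.mk fun _ => nat_lit 0)))) (.nd (nat_lit 118) (.nd (nat_lit 117) 
 (.lf (.mk fun X => (Nat.mul (nat_lit 16) (Nat.mul (X (nat_lit 28)) (X (nat_lit 27)))))) 
 (.lf (.mk fun _ => nat_lit 0))) (.nd (nat_lit 119) 
 (.lf (.mk fun X => (Nat.mul (nat_lit 4) (Nat.mul (X (nat_lit 28)) (X (nat_lit 31)))))) (.nd (nat_lit 120) 
 (.lf (.mk fun X => (Nat.add (Nat.mul (nat_lit 4) (Nat.mul (X (nat_lit 28)) (X (nat_lit 22)))) (Nat.mul (nat_lit 8) (Nat.add (Nat.mul (X (nat_lit 25)) (X (nat_lit 24))) (Nat.mul (X (nat_lit 26)) (X (nat_lit 27)))))))) 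
 (.lf (.mk fun X => (Nat.mul (nat_lit 8) (Nat.mul (X (nat_lit 31)) (X (nat_lit 27)))))))))) (.nd (nat_lit 126) (.nd (nat_lit 123) (.nd (nat_lit 122) 
 (.lf (.mk fun X => (Nat.add (Nat.mul (nat_lit 4) (Nat.add (Nat.mul (X (nat_lit 31)) (X (nat_lit 22))) (Nat.mul (X (nat_lit 32)) (X (nat_lit 27))))) (Nat.mul (nat_lit 8) (Nat.add (Nat.mul (X (nat_lit 29)) (X (nat_lit 27))) (Nat.add (Nat.mul (X (nat_lit 30)) (X (nat_lit 27))) (Nat.mul (X (nat_lit 33)) (X (nat_lit 27))))))))) 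
 (.lf (.mk fun X => (Nat.mul (nat_lit 8) (Nat.mul (X (nat_lit 28)) (X (nat_lit 27))))))) (.nd (nat_lit 124) 
 (.lf (.mk fun _ => nat_lit 0)) (.nd (nat_lit 125) 
 (.lf (.mk fun X => (Nat.mul (nat_lit 8) (Nat.mul (X (nat_lit 28)) (X (nat_lit 27)))))) 
 (.lf (.mk fun _ => nat_lit 0))))) (.nd (nat_lit 128) (.nd (nat_lit 127) 
 (.lf (.mk fun _ => nat_lit 0)) 
 (.lf (.mk fun X => (Nat.mul (nat_lit 8) (Nat.mul (X (nat_lit 25)) (X (nat_lit 31))))))) (.nd (nat_lit 129) 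
 (.lf (.mk fun X => (Nat.mul (nat_lit 8) (Nat.mul (X (nat_lit 31)) (X (nat_lit 24)))))) (.nd (nat_lit 130) 
 (.lf (.mk fun X => (Nat.add (Nat.mul (nat_lit 2) (Nat.mul (X (nat_lit 28)) (X (nat_lit 32)))) (Nat.mul (nat_lit 4) (Nat.add (Nat.mul (X (nat_lit 26)) (X (nat_lit 31))) (Nat.add (Nat.mul (X (nat_lit 28)) (X (nat_lit 29))) (Nat.add (Nat.mul (X (nat_lit 28)) (X (nat_lit 30))) (Nat.mul (X (nat_lit 28)) (X (nat_lit 33)))))))))) 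
 (.lf (.mk fun _ => nat_lit 0))))))) (.nd (nat_lit 140) (.nd (nat_lit 135) (.nd (nat_lit 133) (.nd (nat_lit 132) 
 (.lf (.mk fun X => (Nat.mul (nat_lit 16) (Nat.mul (X (nat_lit 44)) (X (nat_lit 43)))))) 
 (.lf (.mk fun _ => nat_lit 0))) (.nd (nat_lit 134) 
 (.lf (.mk fun X => (Nat.mul (nat_lit 4) (Nat.mul (X (nat_lit 44)) (X (nat_lit 47)))))) 
 (.lf (.mk fun X => (Nat.mul (nat_lit 8) (Nat.add (Nat.mul (X (nat_lit 41)) (X (nat_lit 40))) (Nat.mul (X (nat_lit 42)) (X (nat_lit 43))))))))) (.nd (nat_lit 137) (.nd (nat_lit 136) 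
 (.lf (.mk fun X => (Nat.mul (nat_lit 8) (Nat.mul (X (nat_lit 47)) (X (nat_lit 43)))))) 
 (.lf (.mk fun X => (Nat.add (Nat.mul (nat_lit 4) (Nat.mul (X (nat_lit 48)) (X (nat_lit 43)))) (Nat.mul (nat_lit 8) (Nat.add (Nat.mul (X (nat_lit 45)) (X (nat_lit 43))) (Nat.add (Nat.mul (X (nat_lit 46)) (X (nat_lit 43))) (Nat.mul (X (nat_lit 49)) (X (nat_lit 43)))))))))) (.nd (nat_lit 138) 
 (.lf (.mk fun X => (Nat.mul (nat_lit 8) (Nat.mul (X (nat_lit 44)) (X (nat_lit 43)))))) (.nd (nat_lit 139) 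
 (.lf (.mk fun X => (Nat.mul (nat_lit 8) (Nat.mul (X (nat_lit 44)) (X (nat_lit 43)))))) 
 (.lf (.mk fun _ => nat_lit 0)))))) (.nd (nat_lit 145) (.nd (nat_lit 142) (.nd (nat_lit 141) 
 (.lf (.mk fun X => (Nat.mul (nat_lit 8) (Nat.mul (X (nat_lit 41)) (X (nat_lit 47)))))) 
 (.lf (.mk fun X => (Nat.mul (nat_lit 8) (Nat.mul (X (nat_lit 47)) (X (nat_lit 40))))))) (.nd (nat_lit 143) 
 (.lf (.mk fun X => (Nat.add (Nat.mul (nat_lit 2) (Nat.mul (X (nat_lit 44)) (X (nat_lit 48)))) (Nat.mul (nat_lit 4) (Nat.add (Nat.mul (X (nat_lit 42)) (X (nat_lit 47))) (Nat.add (Nat.mul (X (nat_lit 44)) (X (nat_lit 45))) (Nat.add (Nat.mul (X (nat_lit 44)) (X (nat_lit 46))) (Nat.mul (X (nat_lit 44)) (X (nat_lit 49)))))))))) (.nd (nat_lit 144) 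
 (.lf (.mk fun _ => nat_lit 0)) 
 (.lf (.mk fun X => (Nat.mul (nat_lit 16) (Nat.mul (X (nat_lit 61)) (X (nat_lit 60))))))))) (.nd (nat_lit 147) (.nd (nat_lit 146) 
 (.lf (.mk fun _ => nat_lit 0)) 
 (.lf (.mk fun X => (Nat.mul (nat_lit 4) (Nat.mul (X (nat_lit 61)) (X (nat_lit 64))))))) (.nd (nat_lit 148) 
 (.lf (.mk fun X => (Nat.add (Nat.mul (nat_lit 4) (Nat.mul (X (nat_lit 61)) (X (nat_lit 55)))) (Nat.mul (nat_lit 8) (Nat.add (Nat.mul (X (nat_lit 58)) (X (nat_lit 57))) (Nat.mul (X (nat_lit 59)) (X (nat_lit 60)))))))) (.nd (nat_lit 149) 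
 (.lf (.mk fun X => (Nat.mul (nat_lit 8) (Nat.mul (X (nat_lit 64)) (X (nat_lit 60)))))) 
 (.lf (.mk fun X => (Nat.add (Nat.mul (nat_lit 4) (Nat.add (Nat.mul (X (nat_lit 64)) (X (nat_lit 55))) (Nat.mul (X (nat_lit 65)) (X (nat_lit 60))))) (Nat.mul (nat_lit 8) (Nat.add (Nat.mul (X (nat_lit 62)) (X (nat_lit 60))) (Nat.add (Nat.mul (X (nat_lit 63)) (X (nat_lit 60))) (Nat.mul (X (nat_lit 66)) (X (nat_lit 60))))))))))))))))) (.nd (nat_lit 225) (.nd (nat_lit 187) (.nd (nat_lit 168) (.nd (nat_lit 159) (.nd (nat_lit 154) (.nd (nat_lit 152) (.nd (nat_lit 151) 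
 (.lf (.mk fun X => (Nat.mul (nat_lit 8) (Nat.mul (X (nat_lit 61)) (X (nat_lit 60)))))) 
 (.lf (.mk fun _ => nat_lit 0))) (.nd (nat_lit 153) 
 (.lf (.mk fun X => (Nat.mul (nat_lit 8) (Nat.mul (X (nat_lit 61)) (X (nat_lit 60)))))) 
 (.lf (.mk fun _ => nat_lit 0)))) (.nd (nat_lit 156) (.nd (nat_lit 155) 
 (.lf (.mk fun _ => nat_lit 0)) 
 (.lf (.mk fun X => (Nat.mul (nat_lit 8) (Nat.mul (X (nat_lit 58)) (X (nat_lit 64))))))) (.nd (nat_lit 157) 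
 (.lf (.mk fun X => (Nat.mul (nat_lit 8) (Nat.mul (X (nat_lit 64)) (X (nat_lit 57)))))) (.nd (nat_lit 158) 
 (.lf (.mk fun X => (Nat.add (Nat.mul (nat_lit 2) (Nat.mul (X (nat_lit 61)) (X (nat_lit 65)))) (Nat.mul (nat_lit 4) (Nat.add (Nat.mul (X (nat_lit 59)) (X (nat_lit 64))) (Nat.add (Nat.mul (X (nat_lit 61)) (X (nat_lit 62))) (Nat.add (Nat.mul (X (nat_lit 61)) (X (nat_lit 63))) (Nat.mul (X (nat_lit 61)) (X (nat_lit 66)))))))))) 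
 (.lf (.mk fun _ => nat_lit 0)))))) (.nd (nat_lit 163) (.nd (nat_lit 161) (.nd (nat_lit 160) 
 (.lf (.mk fun X => (Nat.mul (nat_lit 16) (Nat.mul (X (nat_lit 77)) (X (nat_lit 76)))))) 
 (.lf (.mk fun _ => nat_lit 0))) (.nd (nat_lit 162) 
 (.lf (.mk fun X => (Nat.mul (nat_lit 4) (Nat.mul (X (nat_lit 77)) (X (nat_lit 80)))))) 
 (.lf (.mk fun X => (Nat.mul (nat_lit 8) (Nat.add (Nat.mul (X (nat_lit 74)) (X (nat_lit 73))) (Nat.mul (X (nat_lit 75)) (X (nat_lit 76))))))))) (.nd (nat_lit 165) (.nd (nat_lit 164) 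
 (.lf (.mk fun X => (Nat.mul (nat_lit 8) (Nat.mul (X (nat_lit 80)) (X (nat_lit 76)))))) 
 (.lf (.mk fun X => (Nat.add (Nat.mul (nat_lit 4) (Nat.mul (X (nat_lit 81)) (X (nat_lit 76)))) (Nat.mul (nat_lit 8) (Nat.add (Nat.mul (X (nat_lit 78)) (X (nat_lit 76))) (Nat.add (Nat.mul (X (nat_lit 79)) (X (nat_lit 76))) (Nat.mul (X (nat_lit 82)) (X (nat_lit 76)))))))))) (.nd (nat_lit 166) 
 (.lf (.mk fun X => (Nat.mul (nat_lit 8) (Nat.mul (X (nat_lit 77)) (X (nat_lit 76)))))) (.nd (nat_lit 167) 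
 (.lf (.mk fun X => (Nat.mul (nat_lit 8) (Nat.mul (X (nat_lit 77)) (X (nat_lit 76)))))) 
 (.lf (.mk fun _ => nat_lit 0))))))) (.nd (nat_lit 177) (.nd (nat_lit 172) (.nd (nat_lit 170) (.nd (nat_lit 169) 
 (.lf (.mk fun X => (Nat.mul (nat_lit 8) (Nat.mul (X (nat_lit 74)) (X (nat_lit 80)))))) 
 (.lf (.mk fun X => (Nat.mul (nat_lit 8) (Nat.mul (X (nat_lit 80)) (X (nat_lit 73))))))) (.nd (nat_lit 171) 
 (.lf (.mk fun X => (Nat.add (Nat.mul (nat_lit 2) (Nat.mul (X (nat_lit 77)) (X (nat_lit 81)))) (Nat.mul (nat_lit 4) (Nat.add (Nat.mul (X (nat_lit 75)) (X (nat_lit 80))) (Nat.add (Nat.mul (X (nat_lit 77)) (X (nat_lit 78))) (Nat.add (Nat.mul (X (nat_lit 77)) (X (nat_lit 79))) (Nat.mul (X (nat_lit 77)) (X (nat_lit 82)))))))))) 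
 (.lf (.mk fun _ => nat_lit 0)))) (.nd (nat_lit 174) (.nd (nat_lit 173) 
 (.lf (.mk fun X => (Nat.mul (nat_lit 16) (Nat.mul (X (nat_lit 94)) (X (nat_lit 93)))))) 
 (.lf (.mk fun _ => nat_lit 0))) (.nd (nat_lit 175) 
 (.lf (.mk fun X => (Nat.mul (nat_lit 4) (Nat.mul (X (nat_lit 94)) (X (nat_lit 97)))))) (.nd (nat_lit 176) 
 (.lf (.mk fun X => (Nat.add (Nat.mul (nat_lit 4) (Nat.mul (X (nat_lit 94)) (X (nat_lit 88)))) (Nat.mul (nat_lit 8) (Nat.add (Nat.mul (X (nat_lit 91)) (X (nat_lit 90))) (Nat.mul (X (nat_lit 92)) (X (nat_lit 93)))))))) 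
 (.lf (.mk fun X => (Nat.mul (nat_lit 8) (Nat.mul (X (nat_lit 97)) (X (nat_lit 93)))))))))) (.nd (nat_lit 182) (.nd (nat_lit 179) (.nd (nat_lit 178) 
 (.lf (.mk fun X => (Nat.add (Nat.mul (nat_lit 4) (Nat.add (Nat.mul (X (nat_lit 97)) (X (nat_lit 88))) (Nat.mul (X (nat_lit 98)) (X (nat_lit 93))))) (Nat.mul (nat_lit 8) (Nat.add (Nat.mul (X (nat_lit 95)) (X (nat_lit 93))) (Nat.add (Nat.mul (X (nat_lit 96)) (X (nat_lit 93))) (Nat.mul (X (nat_lit 99)) (X (nat_lit 93))))))))) 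
 (.lf (.mk fun X => (Nat.mul (nat_lit 8) (Nat.mul (X (nat_lit 94)) (X (nat_lit 93))))))) (.nd (nat_lit 180) 
 (.lf (.mk fun _ => nat_lit 0)) (.nd (nat_lit 181) 
 (.lf (.mk fun X => (Nat.mul (nat_lit 8) (Nat.mul (X (nat_lit 94)) (X (nat_lit 93)))))) 
 (.lf (.mk fun _ => nat_lit 0))))) (.nd (nat_lit 184) (.nd (nat_lit 183) 
 (.lf (.mk fun _ => nat_lit 0)) 
 (.lf (.mk fun X => (Nat.mul (nat_lit 8) (Nat.mul (X (nat_lit 91)) (X (nat_lit 97))))))) (.nd (nat_lit 185) 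
 (.lf (.mk fun X => (Nat.mul (nat_lit 8) (Nat.mul (X (nat_lit 97)) (X (nat_lit 90)))))) (.nd (nat_lit 186) 
 (.lf (.mk fun X => (Nat.add (Nat.mul (nat_lit 2) (Nat.mul (X (nat_lit 94)) (X (nat_lit 98)))) (Nat.mul (nat_lit 4) (Nat.add (Nat.mul (X (nat_lit 92)) (X (nat_lit 97))) (Nat.add (Nat.mul (X (nat_lit 94)) (X (nat_lit 95))) (Nat.add (Nat.mul (X (nat_lit 94)) (X (nat_lit 96))) (Nat.mul (X (nat_lit 94)) (X (nat_lit 99)))))))))) 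
 (.lf (.mk fun _ => nat_lit 0)))))))) (.nd (nat_lit 206) (.nd (nat_lit 196) (.nd (nat_lit 191) (.nd (nat_lit 189) (.nd (nat_lit 188) 
 (.lf (.mk fun X => (Nat.mul (nat_lit 16) (Nat.mul (X (nat_lit 109)) (X (nat_lit 108)))))) 
 (.lf (.mk fun _ => nat_lit 0))) (.nd (nat_lit 190) 
 (.lf (.mk fun X => (Nat.mul (nat_lit 4) (Nat.mul (X (nat_lit 109)) (X (nat_lit 112)))))) 
 (.lf (.mk fun X => (Nat.mul (nat_lit 8) (Nat.add (Nat.mul (X (nat_lit 106)) (X (nat_lit 105))) (Nat.mul (X (nat_lit 107)) (X (nat_lit 108))))))))) (.nd (nat_lit 193) (.nd (nat_lit 192) 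
 (.lf (.mk fun X => (Nat.mul (nat_lit 8) (Nat.mul (X (nat_lit 112)) (X (nat_lit 108)))))) 
 (.lf (.mk fun X => (Nat.mul (nat_lit 8) (Nat.add (Nat.mul (X (nat_lit 110)) (X (nat_lit 108))) (Nat.add (Nat.mul (X (nat_lit 111)) (X (nat_lit 108))) (Nat.mul (X (nat_lit 113)) (X (nat_lit 108))))))))) (.nd (nat_lit 194) 
 (.lf (.mk fun X => (Nat.mul (nat_lit 8) (Nat.mul (X (nat_lit 109)) (X (nat_lit 108)))))) (.nd (nat_lit 195) 
 (.lf (.mk fun X => (Nat.mul (nat_lit 8) (Nat.mul (X (nat_lit 109)) (X (nat_lit 108)))))) 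
 (.lf (.mk fun _ => nat_lit 0)))))) (.nd (nat_lit 201) (.nd (nat_lit 198) (.nd (nat_lit 197) 
 (.lf (.mk fun X => (Nat.mul (nat_lit 8) (Nat.mul (X (nat_lit 106)) (X (nat_lit 112)))))) 
 (.lf (.mk fun X => (Nat.mul (nat_lit 8) (Nat.mul (X (nat_lit 112)) (X (nat_lit 105))))))) (.nd (nat_lit 199) 
 (.lf (.mk fun X => (Nat.mul (nat_lit 4) (Nat.add (Nat.mul (X (nat_lit 107)) (X (nat_lit 112))) (Nat.add (Nat.mul (X (nat_lit 109)) (X (nat_lit 110))) (Nat.add (Nat.mul (X (nat_lit 109)) (X (nat_lit 111))) (Nat.mul (X (nat_lit 109)) (X (nat_lit 113))))))))) (.nd (nat_lit 200) 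
 (.lf (.mk fun _ => nat_lit 0)) 
 (.lf (.mk fun X => (Nat.mul (nat_lit 8) (Nat.add (Nat.mul (X (nat_lit 0)) (X (nat_lit 1))) (Nat.mul (X (nat_lit 2)) (X (nat_lit 1)))))))))) (.nd (nat_lit 203) (.nd (nat_lit 202) 
 (.lf (.mk fun X => (Nat.mul (nat_lit 4) (Nat.add (Nat.mul (X (nat_lit 0)) (X (nat_lit 3))) (Nat.mul (X (nat_lit 2)) (X (nat_lit 3))))))) 
 (.lf (.mk fun X => (Nat.mul (nat_lit 8) (Nat.mul (X (nat_lit 3)) (X (nat_lit 1))))))) (.nd (nat_lit 204) 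
 (.lf (.mk fun X => (Nat.add (Nat.mul (nat_lit 8) (Nat.add (Nat.mul (X (nat_lit 5)) (X (nat_lit 7))) (Nat.mul (X (nat_lit 6)) (X (nat_lit 7))))) (Nat.mul (nat_lit 16) (Nat.add (Nat.mul (X (nat_lit 8)) (X (nat_lit 7))) (Nat.mul (X (nat_lit 9)) (X (nat_lit 10)))))))) (.nd (nat_lit 205) 
 (.lf (.mk fun X => (Nat.add (Nat.mul (nat_lit 8) (Nat.add (Nat.mul (X (nat_lit 12)) (X (nat_lit 7))) (Nat.add (Nat.mul (X (nat_lit 13)) (X (nat_lit 7))) (Nat.add (Nat.mul (X (nat_lit 15)) (X (nat_lit 7))) (Nat.mul (X (nat_lit 17)) (X (nat_lit 7))))))) (Nat.mul (nat_lit 16) (Nat.add (Nat.mul (X (nat_lit 14)) (X (nat_lit 7))) (Nat.mul (X (nat_lit 16)) (X (nat_lit 7)))))))) 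
 (.lf (.mk fun X => (Nat.add (Nat.mul (X (nat_lit 5)) (X (nat_lit 15))) (Nat.add (Nat.mul (nat_lit 4) (Nat.add (Nat.mul (X (nat_lit 5)) (X (nat_lit 12))) (Nat.add (Nat.mul (X (nat_lit 5)) (X (nat_lit 13))) (Nat.add (Nat.mul (X (nat_lit 6)) (X (nat_lit 12))) (Nat.add (Nat.mul (X (nat_lit 6)) (X (nat_lit 13))) (Nat.add (Nat.mul (X (nat_lit 18)) (X (nat_lit 15))) (Nat.mul (X (nat_lit 19)) (X (nat_lit 17))))))))) (Nat.mul (nat_lit 8) (Nat.add (Nat.mul (X (nat_lit 9)) (X (nat_lit 14))) (Nat.mul (X (nat_lit 9)) (X (nat_lit 16)))))))))))))) (.nd (nat_lit 215) (.nd (nat_lit 210) (.nd (nat_lit 208) (.nd (nat_lit 207) 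
 (.lf (.mk fun X => (Nat.mul (nat_lit 8) (Nat.add (Nat.mul (X (nat_lit 5)) (X (nat_lit 7))) (Nat.mul (X (nat_lit 6)) (X (nat_lit 7))))))) 
 (.lf (.mk fun X => (Nat.mul (nat_lit 8) (Nat.add (Nat.mul (X (nat_lit 12)) (X (nat_lit 10))) (Nat.add (Nat.mul (X (nat_lit 13)) (X (nat_lit 10))) (Nat.add (Nat.mul (X (nat_lit 15)) (X (nat_lit 10))) (Nat.mul (X (nat_lit 16)) (X (nat_lit 10)))))))))) (.nd (nat_lit 209) 
 (.lf (.mk fun _ => nat_lit 0)) 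
 (.lf (.mk fun X => (Nat.add (Nat.mul (nat_lit 8) (Nat.add (Nat.mul (X (nat_lit 5)) (X (nat_lit 7))) (Nat.mul (X (nat_lit 6)) (X (nat_lit 7))))) (Nat.mul (nat_lit 16) (Nat.mul (X (nat_lit 9)) (X (nat_lit 10))))))))) (.nd (nat_lit 212) (.nd (nat_lit 211) 
 (.lf (.mk fun X => (Nat.mul (nat_lit 8) (Nat.add (Nat.mul (X (nat_lit 5)) (X (nat_lit 7))) (Nat.add (Nat.mul (X (nat_lit 6)) (X (nat_lit 7))) (Nat.add (Nat.mul (X (nat_lit 8)) (X (nat_lit 7))) (Nat.mul (X (nat_lit 9)) (X (nat_lit 10))))))))) 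
 (.lf (.mk fun X => (Nat.mul (nat_lit 8) (Nat.add (Nat.mul (X (nat_lit 5)) (X (nat_lit 7))) (Nat.mul (X (nat_lit 6)) (X (nat_lit 7)))))))) (.nd (nat_lit 213) 
 (.lf (.mk fun X => (Nat.add (Nat.mul (nat_lit 4) (Nat.add (Nat.mul (X (nat_lit 5)) (X (nat_lit 12))) (Nat.add (Nat.mul (X (nat_lit 5)) (X (nat_lit 13))) (Nat.add (Nat.mul (X (nat_lit 5)) (X (nat_lit 15))) (Nat.add (Nat.mul (X (nat_lit 5)) (X (nat_lit 17))) (Nat.add (Nat.mul (X (nat_lit 6)) (X (nat_lit 12))) (Nat.add (Nat.mul (X (nat_lit 6)) (X (nat_lit 13))) (Nat.add (Nat.mul (X (nat_lit 6)) (X (nat_lit 15))) (Nat.mul (X (nat_lit 6)) (X (nat_lit 17))))))))))) (Nat.mul (nat_lit 8) (Nat.add (Nat.mul (X (nat_lit 5)) (X (nat_lit 14))) (Nat.add (Nat.mul (X (nat_lit 5)) (X (nat_lit 16))) (Nat.add (Nat.mul (X (nat_lit 6)) (X (nat_lit 14))) (Nat.add (Nat.mul (X (nat_lit 6)) (X (nat_lit 16)))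 (Nat.add (Nat.mul (X (nat_lit 8)) (X (nat_lit 12))) (Nat.add (Nat.mul (X (nat_lit 8)) (X (nat_lit 13))) (Nat.mul (X (nat_lit 8)) (X (nat_lit 16))))))))))))) (.nd (nat_lit 214) 
 (.lf (.mk fun X => (Nat.mul (nat_lit 8) (Nat.add (Nat.mul (X (nat_lit 12)) (X (nat_lit 7))) (Nat.add (Nat.mul (X (nat_lit 13)) (X (nat_lit 7))) (Nat.mul (X (nat_lit 16)) (X (nat_lit 7)))))))) 
 (.lf (.mk fun X => (Nat.mul (nat_lit 4) (Nat.add (Nat.mul (X (nat_lit 9)) (X (nat_lit 12))) (Nat.add (Nat.mul (X (nat_lit 9)) (X (nat_lit 13))) (Nat.add (Nat.mul (X (nat_lit 9)) (X (nat_lit 15))) (Nat.mul (X (nat_lit 9)) (X (nat_lit 16))))))))))))) (.nd (nat_lit 220) (.nd (nat_lit 217) (.nd (nat_lit 216) 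
 (.lf (.mk fun _ => nat_lit 0)) 
 (.lf (.mk fun X => (Nat.add (Nat.mul (nat_lit 8) (Nat.add (Nat.mul (X (nat_lit 21)) (X (nat_lit 22))) (Nat.add (Nat.mul (X (nat_lit 21)) (X (nat_lit 24))) (Nat.add (Nat.mul (X (nat_lit 23)) (X (nat_lit 22))) (Nat.mul (X (nat_lit 23)) (X (nat_lit 24))))))) (Nat.mul (nat_lit 16) (Nat.add (Nat.mul (X (nat_lit 25)) (X (nat_lit 24))) (Nat.mul (X (nat_lit 26)) (X (nat_lit 27))))))))) (.nd (nat_lit 218) 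
 (.lf (.mk fun X => (Nat.add (Nat.mul (nat_lit 8) (Nat.add (Nat.mul (X (nat_lit 29)) (X (nat_lit 22))) (Nat.add (Nat.mul (X (nat_lit 29)) (X (nat_lit 24))) (Nat.add (Nat.mul (X (nat_lit 30)) (X (nat_lit 22))) (Nat.add (Nat.mul (X (nat_lit 30)) (X (nat_lit 24))) (Nat.add (Nat.mul (X (nat_lit 32)) (X (nat_lit 24))) (Nat.mul (X (nat_lit 34)) (X (nat_lit 24))))))))) (Nat.mul (nat_lit 16) (Nat.add (Nat.mul (X (nat_lit 31)) (X (nat_lit 24))) (Nat.mul (X (nat_lit 33)) (X (nat_lit 24)))))))) (.nd (nat_lit 219) 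
 (.lf (.mk fun X => (Nat.add (Nat.mul (X (nat_lit 21)) (X (nat_lit 32))) (Nat.add (Nat.mul (nat_lit 4) (Nat.add (Nat.mul (X (nat_lit 21)) (X (nat_lit 29))) (Nat.add (Nat.mul (X (nat_lit 21)) (X (nat_lit 30))) (Nat.add (Nat.mul (X (nat_lit 23)) (X (nat_lit 29))) (Nat.add (Nat.mul (X (nat_lit 23)) (X (nat_lit 30))) (Nat.add (Nat.mul (X (nat_lit 35)) (X (nat_lit 32))) (Nat.mul (X (nat_lit 36)) (X (nat_lit 34))))))))) (Nat.mul (nat_lit 8) (Nat.add (Nat.mul (X (nat_lit 26)) (X (nat_lit 31))) (Nat.mul (X (nat_lit 26)) (X (nat_lit 33))))))))) 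
 (.lf (.mk fun X => (Nat.mul (nat_lit 8) (Nat.add (Nat.mul (X (nat_lit 21)) (X (nat_lit 24))) (Nat.add (Nat.mul (X (nat_lit 23)) (X (nat_lit 24))) (Nat.mul (X (nat_lit 26)) (X (nat_lit 22))))))))))) (.nd (nat_lit 222) (.nd (nat_lit 221) 
 (.lf (.mk fun X => (Nat.mul (nat_lit 8) (Nat.add (Nat.mul (X (nat_lit 29)) (X (nat_lit 27))) (Nat.add (Nat.mul (X (nat_lit 30)) (X (nat_lit 27))) (Nat.add (Nat.mul (X (nat_lit 31)) (X (nat_lit 22))) (Nat.add (Nat.mul (X (nat_lit 32)) (X (nat_lit 27))) (Nat.add (Nat.mul (X (nat_lit 33)) (X (nat_lit 22))) (Nat.mul (X (nat_lit 33)) (X (nat_lit 27))))))))))) 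
 (.lf (.mk fun _ => nat_lit 0))) (.nd (nat_lit 223) 
 (.lf (.mk fun X => (Nat.add (Nat.mul (nat_lit 2) (Nat.mul (X (nat_lit 21)) (X (nat_lit 22)))) (Nat.add (Nat.mul (nat_lit 8) (Nat.add (Nat.mul (X (nat_lit 21)) (X (nat_lit 24))) (Nat.add (Nat.mul (X (nat_lit 23)) (X (nat_lit 24))) (Nat.mul (X (nat_lit 35)) (X (nat_lit 22)))))) (Nat.mul (nat_lit 16) (Nat.mul (X (nat_lit 26)) (X (nat_lit 27)))))))) (.nd (nat_lit 224) 
 (.lf (.mk fun X => (Nat.mul (nat_lit 8) (Nat.mul (X (nat_lit 32)) (X (nat_lit 22)))))) 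
 (.lf (.mk fun X => (Nat.mul (nat_lit 8) (Nat.add (Nat.mul (X (nat_lit 21)) (X (nat_lit 24))) (Nat.add (Nat.mul (X (nat_lit 23)) (X (nat_lit 24))) (Nat.add (Nat.mul (X (nat_lit 25)) (X (nat_lit 24))) (Nat.add (Nat.mul (X (nat_lit 26)) (X (nat_lit 22))) (Nat.mul (X (nat_lit 26)) (X (nat_lit 27))))))))))))))))) (.nd (nat_lit 262) (.nd (nat_lit 243) (.nd (nat_lit 234) (.nd (nat_lit 229) (.nd (nat_lit 227) (.nd (nat_lit 226) 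
 (.lf (.mk fun X => (Nat.mul (nat_lit 8) (Nat.add (Nat.mul (X (nat_lit 21)) (X (nat_lit 24))) (Nat.add (Nat.mul (X (nat_lit 23)) (X (nat_lit 24))) (Nat.mul (X (nat_lit 36)) (X (nat_lit 22)))))))) 
 (.lf (.mk fun X => (Nat.mul (nat_lit 8) (Nat.mul (X (nat_lit 34)) (X (nat_lit 22))))))) (.nd (nat_lit 228) 
 (.lf (.mk fun X => (Nat.add (Nat.mul (nat_lit 4) (Nat.add (Nat.mul (X (nat_lit 21)) (X (nat_lit 29))) (Nat.add (Nat.mul (X (nat_lit 21)) (X (nat_lit 30))) (Nat.add (Nat.mul (X (nat_lit 21)) (X (nat_lit 32))) (Nat.add (Nat.mul (X (nat_lit 21)) (X (nat_lit 34))) (Nat.add (Nat.mul (X (nat_lit 23)) (X (nat_lit 29))) (Nat.add (Nat.mul (X (nat_lit 23)) (X (nat_lit 30))) (Nat.add (Nat.mul (X (nat_lit 23)) (X (nat_lit 32))) (Nat.mul (X (nat_lit 23)) (X (nat_lit 34))))))))))) (Nat.mul (nat_lit 8) (Nat.add (Nat.mul (X (nat_lit 21)) (X (nat_lit 31)))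 (Nat.add (Nat.mul (X (nat_lit 21)) (X (nat_lit 33))) (Nat.add (Nat.mul (X (nat_lit 23)) (X (nat_lit 31))) (Nat.add (Nat.mul (X (nat_lit 23)) (X (nat_lit 33))) (Nat.add (Nat.mul (X (nat_lit 25)) (X (nat_lit 29))) (Nat.add (Nat.mul (X (nat_lit 25)) (X (nat_lit 30))) (Nat.mul (X (nat_lit 25)) (X (nat_lit 33))))))))))))) 
 (.lf (.mk fun X => (Nat.mul (nat_lit 8) (Nat.add (Nat.mul (X (nat_lit 29)) (X (nat_lit 24))) (Nat.add (Nat.mul (X (nat_lit 30)) (X (nat_lit 24))) (Nat.mul (X (nat_lit 33)) (X (nat_lit 24)))))))))) (.nd (nat_lit 231) (.nd (nat_lit 230) 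
 (.lf (.mk fun X => (Nat.mul (nat_lit 4) (Nat.add (Nat.mul (X (nat_lit 26)) (X (nat_lit 29))) (Nat.add (Nat.mul (X (nat_lit 26)) (X (nat_lit 30))) (Nat.add (Nat.mul (X (nat_lit 26)) (X (nat_lit 32))) (Nat.mul (X (nat_lit 26)) (X (nat_lit 33))))))))) 
 (.lf (.mk fun _ => nat_lit 0))) (.nd (nat_lit 232) 
 (.lf (.mk fun X => (Nat.add (Nat.mul (nat_lit 8) (Nat.add (Nat.mul (X (nat_lit 38)) (X (nat_lit 40))) (Nat.mul (X (nat_lit 39)) (X (nat_lit 40))))) (Nat.mul (nat_lit 16) (Nat.add (Nat.mul (X (nat_lit 41)) (X (nat_lit 40))) (Nat.mul (X (nat_lit 42)) (X (nat_lit 43)))))))) (.nd (nat_lit 233) 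
 (.lf (.mk fun X => (Nat.add (Nat.mul (nat_lit 8) (Nat.add (Nat.mul (X (nat_lit 45)) (X (nat_lit 40))) (Nat.add (Nat.mul (X (nat_lit 46)) (X (nat_lit 40))) (Nat.add (Nat.mul (X (nat_lit 48)) (X (nat_lit 40))) (Nat.mul (X (nat_lit 50)) (X (nat_lit 40))))))) (Nat.mul (nat_lit 16) (Nat.add (Nat.mul (X (nat_lit 47)) (X (nat_lit 40))) (Nat.mul (X (nat_lit 49)) (X (nat_lit 40)))))))) 
 (.lf (.mk fun X => (Nat.add (Nat.mul (X (nat_lit 38)) (X (nat_lit 48))) (Nat.add (Nat.mul (nat_lit 4) (Nat.add (Nat.mul (X (nat_lit 38)) (X (nat_lit 45))) (Nat.add (Nat.mul (X (nat_lit 38)) (X (nat_lit 46))) (Nat.add (Nat.mul (X (nat_lit 39)) (X (nat_lit 45))) (Nat.add (Nat.mul (X (nat_lit 39)) (X (nat_lit 46))) (Nat.add (Nat.mul (X (nat_lit 51)) (X (nat_lit 48))) (Nat.mul (X (nat_lit 52)) (X (nat_lit 50))))))))) (Nat.mul (nat_lit 8) (Nat.add (Nat.mul (X (nat_lit 42))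 (X (nat_lit 47))) (Nat.mul (X (nat_lit 42)) (X (nat_lit 49))))))))))))) (.nd (nat_lit 238) (.nd (nat_lit 236) (.nd (nat_lit 235) 
 (.lf (.mk fun X => (Nat.mul (nat_lit 8) (Nat.add (Nat.mul (X (nat_lit 38)) (X (nat_lit 40))) (Nat.mul (X (nat_lit 39)) (X (nat_lit 40))))))) 
 (.lf (.mk fun X => (Nat.mul (nat_lit 8) (Nat.add (Nat.mul (X (nat_lit 45)) (X (nat_lit 43))) (Nat.add (Nat.mul (X (nat_lit 46)) (X (nat_lit 43))) (Nat.add (Nat.mul (X (nat_lit 48)) (X (nat_lit 43))) (Nat.mul (X (nat_lit 49)) (X (nat_lit 43)))))))))) (.nd (nat_lit 237) 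
 (.lf (.mk fun _ => nat_lit 0)) 
 (.lf (.mk fun X => (Nat.add (Nat.mul (nat_lit 8) (Nat.add (Nat.mul (X (nat_lit 38)) (X (nat_lit 40))) (Nat.mul (X (nat_lit 39)) (X (nat_lit 40))))) (Nat.mul (nat_lit 16) (Nat.mul (X (nat_lit 42)) (X (nat_lit 43))))))))) (.nd (nat_lit 240) (.nd (nat_lit 239) 
 (.lf (.mk fun X => (Nat.mul (nat_lit 8) (Nat.add (Nat.mul (X (nat_lit 38)) (X (nat_lit 40))) (Nat.add (Nat.mul (X (nat_lit 39)) (X (nat_lit 40))) (Nat.add (Nat.mul (X (nat_lit 41)) (X (nat_lit 40))) (Nat.mul (X (nat_lit 42)) (X (nat_lit 43))))))))) 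
 (.lf (.mk fun X => (Nat.mul (nat_lit 8) (Nat.add (Nat.mul (X (nat_lit 38)) (X (nat_lit 40))) (Nat.mul (X (nat_lit 39)) (X (nat_lit 40)))))))) (.nd (nat_lit 241) 
 (.lf (.mk fun X => (Nat.add (Nat.mul (nat_lit 4) (Nat.add (Nat.mul (X (nat_lit 38)) (X (nat_lit 45))) (Nat.add (Nat.mul (X (nat_lit 38)) (X (nat_lit 46))) (Nat.add (Nat.mul (X (nat_lit 38)) (X (nat_lit 48))) (Nat.add (Nat.mul (X (nat_lit 38)) (X (nat_lit 50))) (Nat.add (Nat.mul (X (nat_lit 39)) (X (nat_lit 45))) (Nat.add (Nat.mul (X (nat_lit 39)) (X (nat_lit 46))) (Nat.add (Nat.mul (X (nat_lit 39)) (X (nat_lit 48))) (Nat.mul (X (nat_lit 39)) (X (nat_lit 50))))))))))) (Nat.mul (nat_lit 8) (Nat.add (Nat.mul (X (nat_lit 38)) (X (nat_lit 47))) (Nat.add (Nat.mul (X (nat_lit 38)) (X (nat_lit 49))) (Nat.add (Nat.mul (X (nat_lit 39)) (X (nat_lit 47))) (Nat.add (Nat.mul (X (nat_lit 39)) (X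 (nat_lit 49))) (Nat.add (Nat.mul (X (nat_lit 41)) (X (nat_lit 45))) (Nat.add (Nat.mul (X (nat_lit 41)) (X (nat_lit 46))) (Nat.mul (X (nat_lit 41)) (X (nat_lit 49))))))))))))) (.nd (nat_lit 242) 
 (.lf (.mk fun X => (Nat.mul (nat_lit 8) (Nat.add (Nat.mul (X (nat_lit 45)) (X (nat_lit 40))) (Nat.add (Nat.mul (X (nat_lit 46)) (X (nat_lit 40))) (Nat.mul (X (nat_lit 49)) (X (nat_lit 40)))))))) 
 (.lf (.mk fun X => (Nat.mul (nat_lit 4) (Nat.add (Nat.mul (X (nat_lit 42)) (X (nat_lit 45))) (Nat.add (Nat.mul (X (nat_lit 42)) (X (nat_lit 46))) (Nat.add (Nat.mul (X (nat_lit 42)) (X (nat_lit 48))) (Nat.mul (X (nat_lit 42)) (X (nat_lit 49)))))))))))))) (.nd (nat_lit 252) (.nd (nat_lit 247) (.nd (nat_lit 245) (.nd (nat_lit 244) 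
 (.lf (.mk fun _ => nat_lit 0)) 
 (.lf (.mk fun X => (Nat.add (Nat.mul (nat_lit 8) (Nat.add (Nat.mul (X (nat_lit 54)) (X (nat_lit 55))) (Nat.add (Nat.mul (X (nat_lit 54)) (X (nat_lit 57))) (Nat.add (Nat.mul (X (nat_lit 56)) (X (nat_lit 55))) (Nat.mul (X (nat_lit 56)) (X (nat_lit 57))))))) (Nat.mul (nat_lit 16) (Nat.add (Nat.mul (X (nat_lit 58)) (X (nat_lit 57))) (Nat.mul (X (nat_lit 59)) (X (nat_lit 60))))))))) (.nd (nat_lit 246) 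
 (.lf (.mk fun X => (Nat.add (Nat.mul (nat_lit 8) (Nat.add (Nat.mul (X (nat_lit 62)) (X (nat_lit 55))) (Nat.add (Nat.mul (X (nat_lit 62)) (X (nat_lit 57))) (Nat.add (Nat.mul (X (nat_lit 63)) (X (nat_lit 55))) (Nat.add (Nat.mul (X (nat_lit 63)) (X (nat_lit 57))) (Nat.add (Nat.mul (X (nat_lit 65)) (X (nat_lit 57))) (Nat.mul (X (nat_lit 67)) (X (nat_lit 57))))))))) (Nat.mul (nat_lit 16) (Nat.add (Nat.mul (X (nat_lit 64)) (X (nat_lit 57))) (Nat.mul (X (nat_lit 66)) (X (nat_lit 57)))))))) 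
 (.lf (.mk fun X => (Nat.add (Nat.mul (X (nat_lit 54)) (X (nat_lit 65))) (Nat.add (Nat.mul (nat_lit 4) (Nat.add (Nat.mul (X (nat_lit 54)) (X (nat_lit 62))) (Nat.add (Nat.mul (X (nat_lit 54)) (X (nat_lit 63))) (Nat.add (Nat.mul (X (nat_lit 56)) (X (nat_lit 62))) (Nat.add (Nat.mul (X (nat_lit 56)) (X (nat_lit 63))) (Nat.add (Nat.mul (X (nat_lit 68)) (X (nat_lit 65))) (Nat.mul (X (nat_lit 69)) (X (nat_lit 67))))))))) (Nat.mul (nat_lit 8) (Nat.add (Nat.mul (X (nat_lit 59)) (X (nat_lit 64))) (Nat.mul (X (nat_lit 59)) (X (nat_lit 66))))))))))) (.nd (nat_lit 249) (.nd (nat_lit 248) 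
 (.lf (.mk fun X => (Nat.mul (nat_lit 8) (Nat.add (Nat.mul (X (nat_lit 54)) (X (nat_lit 57))) (Nat.add (Nat.mul (X (nat_lit 56)) (X (nat_lit 57))) (Nat.mul (X (nat_lit 59)) (X (nat_lit 55)))))))) 
 (.lf (.mk fun X => (Nat.mul (nat_lit 8) (Nat.add (Nat.mul (X (nat_lit 62)) (X (nat_lit 60))) (Nat.add (Nat.mul (X (nat_lit 63)) (X (nat_lit 60))) (Nat.add (Nat.mul (X (nat_lit 64)) (X (nat_lit 55))) (Nat.add (Nat.mul (X (nat_lit 65)) (X (nat_lit 60))) (Nat.add (Nat.mul (X (nat_lit 66)) (X (nat_lit 55))) (Nat.mul (X (nat_lit 66)) (X (nat_lit 60)))))))))))) (.nd (nat_lit 250) 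
 (.lf (.mk fun _ => nat_lit 0)) (.nd (nat_lit 251) 
 (.lf (.mk fun X => (Nat.add (Nat.mul (nat_lit 2) (Nat.mul (X (nat_lit 54)) (X (nat_lit 55)))) (Nat.add (Nat.mul (nat_lit 8) (Nat.add (Nat.mul (X (nat_lit 54)) (X (nat_lit 57))) (Nat.add (Nat.mul (X (nat_lit 56)) (X (nat_lit 57))) (Nat.mul (X (nat_lit 68)) (X (nat_lit 55)))))) (Nat.mul (nat_lit 16) (Nat.mul (X (nat_lit 59)) (X (nat_lit 60)))))))) 
 (.lf (.mk fun X => (Nat.mul (nat_lit 8) (Nat.mul (X (nat_lit 65)) (X (nat_lit 55)))))))))) (.nd (nat_lit 257) (.nd (nat_lit 254) (.nd (nat_lit 253) 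
 (.lf (.mk fun X => (Nat.mul (nat_lit 8) (Nat.add (Nat.mul (X (nat_lit 54)) (X (nat_lit 57))) (Nat.add (Nat.mul (X (nat_lit 56)) (X (nat_lit 57))) (Nat.add (Nat.mul (X (nat_lit 58)) (X (nat_lit 57))) (Nat.add (Nat.mul (X (nat_lit 59)) (X (nat_lit 55))) (Nat.mul (X (nat_lit 59)) (X (nat_lit 60)))))))))) 
 (.lf (.mk fun X => (Nat.mul (nat_lit 8) (Nat.add (Nat.mul (X (nat_lit 54)) (X (nat_lit 57))) (Nat.add (Nat.mul (X (nat_lit 56)) (X (nat_lit 57))) (Nat.mul (X (nat_lit 69)) (X (nat_lit 55))))))))) (.nd (nat_lit 255) 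
 (.lf (.mk fun X => (Nat.mul (nat_lit 8) (Nat.mul (X (nat_lit 67)) (X (nat_lit 55)))))) (.nd (nat_lit 256) 
 (.lf (.mk fun X => (Nat.add (Nat.mul (nat_lit 4) (Nat.add (Nat.mul (X (nat_lit 54)) (X (nat_lit 62))) (Nat.add (Nat.mul (X (nat_lit 54)) (X (nat_lit 63))) (Nat.add (Nat.mul (X (nat_lit 54)) (X (nat_lit 65))) (Nat.add (Nat.mul (X (nat_lit 54)) (X (nat_lit 67))) (Nat.add (Nat.mul (X (nat_lit 56)) (X (nat_lit 62))) (Nat.add (Nat.mul (X (nat_lit 56)) (X (nat_lit 63))) (Nat.add (Nat.mul (X (nat_lit 56)) (X (nat_lit 65))) (Nat.mul (X (nat_lit 56)) (X (nat_lit 67))))))))))) (Nat.mul (nat_lit 8) (Nat.add (Nat.mul (X (nat_lit 54)) (X (nat_lit 64))) (Nat.add (Nat.mul (X (nat_lit 54)) (X (nat_lit 66))) (Nat.add (Nat.mul (X (nat_lit 56)) (X (nat_lit 64))) (Nat.add (Nat.mul (X (nat_lit 56)) (X (nat_lit 66))) (Nat.add (Nat.mul (X (nat_lit 58)) (X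 (nat_lit 62))) (Nat.add (Nat.mul (X (nat_lit 58)) (X (nat_lit 63))) (Nat.mul (X (nat_lit 58)) (X (nat_lit 66))))))))))))) 
 (.lf (.mk fun X => (Nat.mul (nat_lit 8) (Nat.add (Nat.mul (X (nat_lit 62)) (X (nat_lit 57))) (Nat.add (Nat.mul (X (nat_lit 63)) (X (nat_lit 57))) (Nat.mul (X (nat_lit 66)) (X (nat_lit 57))))))))))) (.nd (nat_lit 259) (.nd (nat_lit 258) 
 (.lf (.mk fun X => (Nat.mul (nat_lit 4) (Nat.add (Nat.mul (X (nat_lit 59)) (X (nat_lit 62))) (Nat.add (Nat.mul (X (nat_lit 59)) (X (nat_lit 63))) (Nat.add (Nat.mul (X (nat_lit 59)) (X (nat_lit 65))) (Nat.mul (X (nat_lit 59)) (X (nat_lit 66))))))))) 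
 (.lf (.mk fun _ => nat_lit 0))) (.nd (nat_lit 260) 
 (.lf (.mk fun X => (Nat.add (Nat.mul (nat_lit 8) (Nat.add (Nat.mul (X (nat_lit 71)) (X (nat_lit 73))) (Nat.mul (X (nat_lit 72)) (X (nat_lit 73))))) (Nat.mul (nat_lit 16) (Nat.add (Nat.mul (X (nat_lit 74)) (X (nat_lit 73))) (Nat.mul (X (nat_lit 75)) (X (nat_lit 76)))))))) (.nd (nat_lit 261) 
 (.lf (.mk fun X => (Nat.add (Nat.mul (nat_lit 8) (Nat.add (Nat.mul (X (nat_lit 78)) (X (nat_lit 73))) (Nat.add (Nat.mul (X (nat_lit 79)) (X (nat_lit 73))) (Nat.add (Nat.mul (X (nat_lit 81)) (X (nat_lit 73))) (Nat.mul (X (nat_lit 83)) (X (nat_lit 73))))))) (Nat.mul (nat_lit 16) (Nat.add (Nat.mul (X (nat_lit 80)) (X (nat_lit 73))) (Nat.mul (X (nat_lit 82)) (X (nat_lit 73)))))))) 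
 (.lf (.mk fun X => (Nat.add (Nat.mul (X (nat_lit 71)) (X (nat_lit 81))) (Nat.add (Nat.mul (nat_lit 4) (Nat.add (Nat.mul (X (nat_lit 71)) (X (nat_lit 78))) (Nat.add (Nat.mul (X (nat_lit 71)) (X (nat_lit 79))) (Nat.add (Nat.mul (X (nat_lit 72)) (X (nat_lit 78))) (Nat.add (Nat.mul (X (nat_lit 72)) (X (nat_lit 79))) (Nat.add (Nat.mul (X (nat_lit 84)) (X (nat_lit 81))) (Nat.mul (X (nat_lit 85)) (X (nat_lit 83))))))))) (Nat.mul (nat_lit 8) (Nat.add (Nat.mul (X (nat_lit 75)) (X (nat_lit 80))) (Nat.mul (X (nat_lit 75)) (X (nat_lit 82))))))))))))))) (.nd (nat_lit 281) (.nd (nat_lit 271) (.nd (nat_lit 266) (.nd (nat_lit 264) (.nd (nat_lit 263) 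
 (.lf (.mk fun X => (Nat.mul (nat_lit 8) (Nat.add (Nat.mul (X (nat_lit 71)) (X (nat_lit 73))) (Nat.mul (X (nat_lit 72)) (X (nat_lit 73))))))) 
 (.lf (.mk fun X => (Nat.mul (nat_lit 8) (Nat.add (Nat.mul (X (nat_lit 78)) (X (nat_lit 76))) (Nat.add (Nat.mul (X (nat_lit 79)) (X (nat_lit 76))) (Nat.add (Nat.mul (X (nat_lit 81)) (X (nat_lit 76))) (Nat.mul (X (nat_lit 82)) (X (nat_lit 76)))))))))) (.nd (nat_lit 265) 
 (.lf (.mk fun _ => nat_lit 0)) 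
 (.lf (.mk fun X => (Nat.add (Nat.mul (nat_lit 8) (Nat.add (Nat.mul (X (nat_lit 71)) (X (nat_lit 73))) (Nat.mul (X (nat_lit 72)) (X (nat_lit 73))))) (Nat.mul (nat_lit 16) (Nat.mul (X (nat_lit 75)) (X (nat_lit 76))))))))) (.nd (nat_lit 268) (.nd (nat_lit 267) 
 (.lf (.mk fun X => (Nat.mul (nat_lit 8) (Nat.add (Nat.mul (X (nat_lit 71)) (X (nat_lit 73))) (Nat.add (Nat.mul (X (nat_lit 72)) (X (nat_lit 73))) (Nat.add (Nat.mul (X (nat_lit 74)) (X (nat_lit 73))) (Nat.mul (X (nat_lit 75)) (X (nat_lit 76))))))))) 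
 (.lf (.mk fun X => (Nat.mul (nat_lit 8) (Nat.add (Nat.mul (X (nat_lit 71)) (X (nat_lit 73))) (Nat.mul (X (nat_lit 72)) (X (nat_lit 73)))))))) (.nd (nat_lit 269) 
 (.lf (.mk fun X => (Nat.add (Nat.mul (nat_lit 4) (Nat.add (Nat.mul (X (nat_lit 71)) (X (nat_lit 78))) (Nat.add (Nat.mul (X (nat_lit 71)) (X (nat_lit 79))) (Nat.add (Nat.mul (X (nat_lit 71)) (X (nat_lit 81))) (Nat.add (Nat.mul (X (nat_lit 71)) (X (nat_lit 83))) (Nat.add (Nat.mul (X (nat_lit 72)) (X (nat_lit 78))) (Nat.add (Nat.mul (X (nat_lit 72)) (X (nat_lit 79))) (Nat.add (Nat.mul (X (nat_lit 72)) (X (nat_lit 81))) (Nat.mul (X (nat_lit 72)) (X (nat_lit 83))))))))))) (Nat.mul (nat_lit 8) (Nat.add (Nat.mul (X (nat_lit 71)) (X (nat_lit 80))) (Nat.add (Nat.mul (X (nat_lit 71)) (X (nat_lit 82))) (Nat.add (Nat.mul (X (nat_lit 72)) (X (nat_lit 80))) (Nat.add (Nat.mul (X (nat_lit 72)) (X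 (nat_lit 82))) (Nat.add (Nat.mul (X (nat_lit 74)) (X (nat_lit 78))) (Nat.add (Nat.mul (X (nat_lit 74)) (X (nat_lit 79))) (Nat.mul (X (nat_lit 74)) (X (nat_lit 82))))))))))))) (.nd (nat_lit 270) 
 (.lf (.mk fun X => (Nat.mul (nat_lit 8) (Nat.add (Nat.mul (X (nat_lit 78)) (X (nat_lit 73))) (Nat.add (Nat.mul (X (nat_lit 79)) (X (nat_lit 73))) (Nat.mul (X (nat_lit 82)) (X (nat_lit 73)))))))) 
 (.lf (.mk fun X => (Nat.mul (nat_lit 4) (Nat.add (Nat.mul (X (nat_lit 75)) (X (nat_lit 78))) (Nat.add (Nat.mul (X (nat_lit 75)) (X (nat_lit 79))) (Nat.add (Nat.mul (X (nat_lit 75)) (X (nat_lit 81))) (Nat.mul (X (nat_lit 75)) (X (nat_lit 82))))))))))))) (.nd (nat_lit 276) (.nd (nat_lit 273) (.nd (nat_lit 272) 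
 (.lf (.mk fun _ => nat_lit 0)) 
 (.lf (.mk fun X => (Nat.add (Nat.mul (nat_lit 8) (Nat.add (Nat.mul (X (nat_lit 87)) (X (nat_lit 88))) (Nat.add (Nat.mul (X (nat_lit 87)) (X (nat_lit 90))) (Nat.add (Nat.mul (X (nat_lit 89)) (X (nat_lit 88))) (Nat.mul (X (nat_lit 89)) (X (nat_lit 90))))))) (Nat.mul (nat_lit 16) (Nat.add (Nat.mul (X (nat_lit 91)) (X (nat_lit 90))) (Nat.mul (X (nat_lit 92)) (X (nat_lit 93))))))))) (.nd (nat_lit 274) 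
 (.lf (.mk fun X => (Nat.add (Nat.mul (nat_lit 8) (Nat.add (Nat.mul (X (nat_lit 95)) (X (nat_lit 88))) (Nat.add (Nat.mul (X (nat_lit 95)) (X (nat_lit 90))) (Nat.add (Nat.mul (X (nat_lit 96)) (X (nat_lit 88))) (Nat.add (Nat.mul (X (nat_lit 96)) (X (nat_lit 90))) (Nat.add (Nat.mul (X (nat_lit 98)) (X (nat_lit 90))) (Nat.mul (X (nat_lit 100)) (X (nat_lit 90))))))))) (Nat.mul (nat_lit 16) (Nat.add (Nat.mul (X (nat_lit 97)) (X (nat_lit 90))) (Nat.mul (X (nat_lit 99)) (X (nat_lit 90)))))))) (.nd (nat_lit 275) 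
 (.lf (.mk fun X => (Nat.add (Nat.mul (X (nat_lit 87)) (X (nat_lit 98))) (Nat.add (Nat.mul (nat_lit 4) (Nat.add (Nat.mul (X (nat_lit 87)) (X (nat_lit 95))) (Nat.add (Nat.mul (X (nat_lit 87)) (X (nat_lit 96))) (Nat.add (Nat.mul (X (nat_lit 89)) (X (nat_lit 95))) (Nat.add (Nat.mul (X (nat_lit 89)) (X (nat_lit 96))) (Nat.add (Nat.mul (X (nat_lit 101)) (X (nat_lit 98))) (Nat.mul (X (nat_lit 102)) (X (nat_lit 100))))))))) (Nat.mul (nat_lit 8) (Nat.add (Nat.mul (X (nat_lit 92)) (X (nat_lit 97))) (Nat.mul (X (nat_lit 92)) (X (nat_lit 99))))))))) 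
 (.lf (.mk fun X => (Nat.mul (nat_lit 8) (Nat.add (Nat.mul (X (nat_lit 87)) (X (nat_lit 90))) (Nat.add (Nat.mul (X (nat_lit 89)) (X (nat_lit 90))) (Nat.mul (X (nat_lit 92)) (X (nat_lit 88))))))))))) (.nd (nat_lit 278) (.nd (nat_lit 277) 
 (.lf (.mk fun X => (Nat.mul (nat_lit 8) (Nat.add (Nat.mul (X (nat_lit 95)) (X (nat_lit 93))) (Nat.add (Nat.mul (X (nat_lit 96)) (X (nat_lit 93))) (Nat.add (Nat.mul (X (nat_lit 97)) (X (nat_lit 88))) (Nat.add (Nat.mul (X (nat_lit 98)) (X (nat_lit 93))) (Nat.add (Nat.mul (X (nat_lit 99)) (X (nat_lit 88))) (Nat.mul (X (nat_lit 99)) (X (nat_lit 93))))))))))) 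
 (.lf (.mk fun _ => nat_lit 0))) (.nd (nat_lit 279) 
 (.lf (.mk fun X => (Nat.add (Nat.mul (nat_lit 2) (Nat.mul (X (nat_lit 87)) (X (nat_lit 88)))) (Nat.add (Nat.mul (nat_lit 8) (Nat.add (Nat.mul (X (nat_lit 87)) (X (nat_lit 90))) (Nat.add (Nat.mul (X (nat_lit 89)) (X (nat_lit 90))) (Nat.mul (X (nat_lit 101)) (X (nat_lit 88)))))) (Nat.mul (nat_lit 16) (Nat.mul (X (nat_lit 92)) (X (nat_lit 93)))))))) (.nd (nat_lit 280) 
 (.lf (.mk fun X => (Nat.mul (nat_lit 8) (Nat.mul (X (nat_lit 98)) (X (nat_lit 88)))))) 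
 (.lf (.mk fun X => (Nat.mul (nat_lit 8) (Nat.add (Nat.mul (X (nat_lit 87)) (X (nat_lit 90))) (Nat.add (Nat.mul (X (nat_lit 89)) (X (nat_lit 90))) (Nat.add (Nat.mul (X (nat_lit 91)) (X (nat_lit 90))) (Nat.add (Nat.mul (X (nat_lit 92)) (X (nat_lit 88))) (Nat.mul (X (nat_lit 92)) (X (nat_lit 93))))))))))))))) (.nd (nat_lit 290) (.nd (nat_lit 285) (.nd (nat_lit 283) (.nd (nat_lit 282) 
 (.lf (.mk fun X => (Nat.mul (nat_lit 8) (Nat.add (Nat.mul (X (nat_lit 87)) (X (nat_lit 90))) (Nat.add (Nat.mul (X (nat_lit 89)) (X (nat_lit 90))) (Nat.mul (X (nat_lit 102)) (X (nat_lit 88)))))))) 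
 (.lf (.mk fun X => (Nat.mul (nat_lit 8) (Nat.mul (X (nat_lit 100)) (X (nat_lit 88))))))) (.nd (nat_lit 284) 
 (.lf (.mk fun X => (Nat.add (Nat.mul (nat_lit 4) (Nat.add (Nat.mul (X (nat_lit 87)) (X (nat_lit 95))) (Nat.add (Nat.mul (X (nat_lit 87)) (X (nat_lit 96))) (Nat.add (Nat.mul (X (nat_lit 87)) (X (nat_lit 98))) (Nat.add (Nat.mul (X (nat_lit 87)) (X (nat_lit 100))) (Nat.add (Nat.mul (X (nat_lit 89)) (X (nat_lit 95))) (Nat.add (Nat.mul (X (nat_lit 89)) (X (nat_lit 96))) (Nat.add (Nat.mul (X (nat_lit 89)) (X (nat_lit 98))) (Nat.mul (X (nat_lit 89)) (X (nat_lit 100))))))))))) (Nat.mul (nat_lit 8) (Nat.add (Nat.mul (X (nat_lit 87)) (X (nat_lit 97))) (Nat.add (Nat.mul (X (nat_lit 87)) (X (nat_lit 99))) (Nat.add (Nat.mul (X (nat_lit 89)) (X (nat_lit 97))) (Nat.add (Nat.mul (X (nat_lit 89)) (X (nat_lit 99))) (Nat.add (Nat.mul (X (nat_lit 91))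 (X (nat_lit 95))) (Nat.add (Nat.mul (X (nat_lit 91)) (X (nat_lit 96))) (Nat.mul (X (nat_lit 91)) (X (nat_lit 99))))))))))))) 
 (.lf (.mk fun X => (Nat.mul (nat_lit 8) (Nat.add (Nat.mul (X (nat_lit 95)) (X (nat_lit 90))) (Nat.add (Nat.mul (X (nat_lit 96)) (X (nat_lit 90))) (Nat.mul (X (nat_lit 99)) (X (nat_lit 90)))))))))) (.nd (nat_lit 287) (.nd (nat_lit 286) 
 (.lf (.mk fun X => (Nat.mul (nat_lit 4) (Nat.add (Nat.mul (X (nat_lit 92)) (X (nat_lit 95))) (Nat.add (Nat.mul (X (nat_lit 92)) (X (nat_lit 96))) (Nat.add (Nat.mul (X (nat_lit 92)) (X (nat_lit 98))) (Nat.mul (X (nat_lit 92)) (X (nat_lit 99))))))))) 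
 (.lf (.mk fun _ => nat_lit 0))) (.nd (nat_lit 288) 
 (.lf (.mk fun X => (Nat.add (Nat.mul (nat_lit 8) (Nat.mul (X (nat_lit 104)) (X (nat_lit 105)))) (Nat.mul (nat_lit 16) (Nat.add (Nat.mul (X (nat_lit 106)) (X (nat_lit 105))) (Nat.mul (X (nat_lit 107)) (X (nat_lit 108)))))))) (.nd (nat_lit 289) 
 (.lf (.mk fun X => (Nat.add (Nat.mul (nat_lit 8) (Nat.add (Nat.mul (X (nat_lit 110)) (X (nat_lit 105))) (Nat.add (Nat.mul (X (nat_lit 111)) (X (nat_lit 105))) (Nat.mul (X (nat_lit 114)) (X (nat_lit 105)))))) (Nat.mul (nat_lit 16) (Nat.add (Nat.mul (X (nat_lit 112)) (X (nat_lit 105))) (Nat.mul (X (nat_lit 113)) (X (nat_lit 105)))))))) 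
 (.lf (.mk fun X => (Nat.add (Nat.mul (nat_lit 4) (Nat.add (Nat.mul (X (nat_lit 104)) (X (nat_lit 110))) (Nat.add (Nat.mul (X (nat_lit 104)) (X (nat_lit 111))) (Nat.mul (X (nat_lit 116)) (X (nat_lit 114)))))) (Nat.mul (nat_lit 8) (Nat.add (Nat.mul (X (nat_lit 107)) (X (nat_lit 112))) (Nat.mul (X (nat_lit 107)) (X (nat_lit 113)))))))))))) (.nd (nat_lit 295) (.nd (nat_lit 292) (.nd (nat_lit 291) 
 (.lf (.mk fun X => (Nat.mul (nat_lit 8) (Nat.mul (X (nat_lit 104)) (X (nat_lit 105)))))) 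
 (.lf (.mk fun X => (Nat.mul (nat_lit 8) (Nat.add (Nat.mul (X (nat_lit 110)) (X (nat_lit 108))) (Nat.add (Nat.mul (X (nat_lit 111)) (X (nat_lit 108))) (Nat.mul (X (nat_lit 113)) (X (nat_lit 108))))))))) (.nd (nat_lit 293) 
 (.lf (.mk fun _ => nat_lit 0)) (.nd (nat_lit 294) 
 (.lf (.mk fun X => (Nat.add (Nat.mul (nat_lit 8) (Nat.mul (X (nat_lit 104)) (X (nat_lit 105)))) (Nat.mul (nat_lit 16) (Nat.mul (X (nat_lit 107)) (X (nat_lit 108))))))) 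
 (.lf (.mk fun X => (Nat.mul (nat_lit 8) (Nat.add (Nat.mul (X (nat_lit 104)) (X (nat_lit 105))) (Nat.add (Nat.mul (X (nat_lit 106)) (X (nat_lit 105))) (Nat.mul (X (nat_lit 107)) (X (nat_lit 108))))))))))) (.nd (nat_lit 297) (.nd (nat_lit 296) 
 (.lf (.mk fun X => (Nat.mul (nat_lit 8) (Nat.mul (X (nat_lit 104)) (X (nat_lit 105)))))) 
 (.lf (.mk fun X => (Nat.add (Nat.mul (nat_lit 4) (Nat.add (Nat.mul (X (nat_lit 104)) (X (nat_lit 110))) (Nat.add (Nat.mul (X (nat_lit 104)) (X (nat_lit 111))) (Nat.mul (X (nat_lit 104)) (X (nat_lit 114)))))) (Nat.mul (nat_lit 8) (Nat.add (Nat.mul (X (nat_lit 104)) (X (nat_lit 112))) (Nat.add (Nat.mul (X (nat_lit 104)) (X (nat_lit 113))) (Nat.add (Nat.mul (X (nat_lit 106)) (X (nat_lit 110))) (Nat.add (Nat.mul (X (nat_lit 106)) (X (nat_lit 111))) (Nat.mul (X (nat_lit 106)) (X (nat_lit 113)))))))))))) (.nd (nat_lit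 298) 
 (.lf (.mk fun X => (Nat.mul (nat_lit 8) (Nat.add (Nat.mul (X (nat_lit 110)) (X (nat_lit 105))) (Nat.add (Nat.mul (X (nat_lit 111)) (X (nat_lit 105))) (Nat.mul (X (nat_lit 113)) (X (nat_lit 105)))))))) (.nd (nat_lit 299) 
 (.lf (.mk fun X => (Nat.mul (nat_lit 4) (Nat.add (Nat.mul (X (nat_lit 107)) (X (nat_lit 110))) (Nat.add (Nat.mul (X (nat_lit 107)) (X (nat_lit 111))) (Nat.mul (X (nat_lit 107)) (X (nat_lit 113)))))))) 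
 (.lf (.mk fun _ => nat_lit 0)))))))))))

noncomputable def rtT : Tb Bx := (.nd (nat_lit 50) (.nd (nat_lit 25) (.nd (nat_lit 12) (.nd (nat_lit 6) (.nd (nat_lit 3) (.nd (nat_lit 1) 
 (.lf (.mk fun X => (Nat.mul (nat_lit 8) (Nat.add (Nat.mul (X (nat_lit 0)) (X (nat_lit 1))) (Nat.mul (X (nat_lit 2)) (X (nat_lit 1))))))) (.nd (nat_lit 2) 
 (.lf (.mk fun X => (Nat.mul (nat_lit 4) (Nat.add (Nat.mul (X (nat_lit 0)) (X (nat_lit 3))) (Nat.mul (X (nat_lit 2)) (X (nat_lit 3))))))) 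
 (.lf (.mk fun X => (Nat.mul (nat_lit 8) (Nat.mul (X (nat_lit 3)) (X (nat_lit 1)))))))) (.nd (nat_lit 4) 
 (.lf (.mk fun X => (Nat.add (Nat.mul (nat_lit 8) (Nat.add (Nat.mul (X (nat_lit 5)) (X (nat_lit 7))) (Nat.mul (X (nat_lit 6)) (X (nat_lit 7))))) (Nat.mul (nat_lit 16) (Nat.add (Nat.mul (X (nat_lit 8)) (X (nat_lit 7))) (Nat.add (Nat.mul (X (nat_lit 9)) (X (nat_lit 10))) (Nat.mul (X (nat_lit 11)) (X (nat_lit 10))))))))) (.nd (nat_lit 5) 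
 (.lf (.mk fun X => (Nat.add (Nat.mul (nat_lit 8) (Nat.add (Nat.mul (X (nat_lit 12)) (X (nat_lit 7))) (Nat.add (Nat.mul (X (nat_lit 13)) (X (nat_lit 7))) (Nat.add (Nat.mul (X (nat_lit 15)) (X (nat_lit 7))) (Nat.mul (X (nat_lit 17)) (X (nat_lit 7))))))) (Nat.mul (nat_lit 16) (Nat.add (Nat.mul (X (nat_lit 14)) (X (nat_lit 7))) (Nat.mul (X (nat_lit 16)) (X (nat_lit 7)))))))) 
 (.lf (.mk fun X => (Nat.add (Nat.mul (X (nat_lit 5)) (X (nat_lit 15))) (Nat.add (Nat.mul (nat_lit 4) (Nat.add (Nat.mul (X (nat_lit 5)) (X (nat_lit 12))) (Nat.add (Nat.mul (X (nat_lit 5)) (X (nat_lit 13))) (Nat.add (Nat.mul (X (nat_lit 6)) (X (nat_lit 12))) (Nat.add (Nat.mul (X (nat_lit 6)) (X (nat_lit 13))) (Nat.add (Nat.mul (X (nat_lit 11)) (X (nat_lit 14))) (Nat.add (Nat.mul (X (nat_lit 18)) (X (nat_lit 15))) (Nat.mul (X (nat_lit 19)) (X (nat_lit 17)))))))))) (Nat.mul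 (nat_lit 8) (Nat.add (Nat.mul (X (nat_lit 9)) (X (nat_lit 14))) (Nat.mul (X (nat_lit 9)) (X (nat_lit 16)))))))))))) (.nd (nat_lit 9) (.nd (nat_lit 7) 
 (.lf (.mk fun X => (Nat.add (Nat.mul (nat_lit 4) (Nat.add (Nat.mul (X (nat_lit 5)) (X (nat_lit 10))) (Nat.mul (X (nat_lit 20)) (X (nat_lit 10))))) (Nat.mul (nat_lit 8) (Nat.add (Nat.mul (X (nat_lit 5)) (X (nat_lit 7))) (Nat.add (Nat.mul (X (nat_lit 6)) (X (nat_lit 7))) (Nat.add (Nat.mul (X (nat_lit 8)) (X (nat_lit 7))) (Nat.add (Nat.mul (X (nat_lit 9)) (X (nat_lit 10))) (Nat.mul (X (nat_lit 11)) (X (nat_lit 10))))))))))) (.nd (nat_lit 8) 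
 (.lf (.mk fun X => (Nat.mul (nat_lit 8) (Nat.add (Nat.mul (X (nat_lit 12)) (X (nat_lit 10))) (Nat.add (Nat.mul (X (nat_lit 13)) (X (nat_lit 10))) (Nat.add (Nat.mul (X (nat_lit 14)) (X (nat_lit 10))) (Nat.add (Nat.mul (X (nat_lit 15)) (X (nat_lit 10))) (Nat.mul (X (nat_lit 16)) (X (nat_lit 10)))))))))) 
 (.lf (.mk fun X => (Nat.add (Nat.mul (nat_lit 4) (Nat.mul (X (nat_lit 15)) (X (nat_lit 10)))) (Nat.mul (nat_lit 8) (Nat.add (Nat.mul (X (nat_lit 12)) (X (nat_lit 10))) (Nat.add (Nat.mul (X (nat_lit 13)) (X (nat_lit 10))) (Nat.add (Nat.mul (X (nat_lit 14)) (X (nat_lit 10))) (Nat.mul (X (nat_lit 16)) (X (nat_lit 10)))))))))))) (.nd (nat_lit 10) 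
 (.lf (.mk fun X => (Nat.add (Nat.mul (nat_lit 8) (Nat.add (Nat.mul (X (nat_lit 5)) (X (nat_lit 7))) (Nat.add (Nat.mul (X (nat_lit 6)) (X (nat_lit 7))) (Nat.mul (X (nat_lit 11)) (X (nat_lit 10)))))) (Nat.mul (nat_lit 16) (Nat.mul (X (nat_lit 9)) (X (nat_lit 10))))))) (.nd (nat_lit 11) 
 (.lf (.mk fun X => (Nat.mul (nat_lit 8) (Nat.add (Nat.mul (X (nat_lit 5)) (X (nat_lit 7))) (Nat.add (Nat.mul (X (nat_lit 6)) (X (nat_lit 7))) (Nat.add (Nat.mul (X (nat_lit 8)) (X (nat_lit 7))) (Nat.add (Nat.mul (X (nat_lit 9)) (X (nat_lit 10))) (Nat.mul (X (nat_lit 11)) (X (nat_lit 10)))))))))) 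
 (.lf (.mk fun X => (Nat.mul (nat_lit 8) (Nat.add (Nat.mul (X (nat_lit 5)) (X (nat_lit 7))) (Nat.mul (X (nat_lit 6)) (X (nat_lit 7))))))))))) (.nd (nat_lit 18) (.nd (nat_lit 15) (.nd (nat_lit 13) 
 (.lf (.mk fun X => (Nat.add (Nat.mul (nat_lit 4) (Nat.add (Nat.mul (X (nat_lit 5)) (X (nat_lit 12))) (Nat.add (Nat.mul (X (nat_lit 5)) (X (nat_lit 13))) (Nat.add (Nat.mul (X (nat_lit 5)) (X (nat_lit 15))) (Nat.add (Nat.mul (X (nat_lit 5)) (X (nat_lit 17))) (Nat.add (Nat.mul (X (nat_lit 6)) (X (nat_lit 12))) (Nat.add (Nat.mul (X (nat_lit 6)) (X (nat_lit 13))) (Nat.add (Nat.mul (X (nat_lit 6)) (X (nat_lit 15))) (Nat.mul (X (nat_lit 6)) (X (nat_lit 17))))))))))) (Nat.mul (nat_lit 8) (Nat.add (Nat.mul (X (nat_lit 5)) (X (nat_lit 14))) (Nat.add (Nat.mul (X (nat_lit 5)) (X (nat_lit 16))) (Nat.add (Nat.mul (X (nat_lit 6)) (X (nat_lit 14))) (Nat.add (Nat.mul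 (X (nat_lit 6)) (X (nat_lit 16))) (Nat.add (Nat.mul (X (nat_lit 8)) (X (nat_lit 12))) (Nat.add (Nat.mul (X (nat_lit 8)) (X (nat_lit 13))) (Nat.add (Nat.mul (X (nat_lit 8)) (X (nat_lit 14))) (Nat.mul (X (nat_lit 8)) (X (nat_lit 16)))))))))))))) (.nd (nat_lit 14) 
 (.lf (.mk fun X => (Nat.mul (nat_lit 8) (Nat.add (Nat.mul (X (nat_lit 12)) (X (nat_lit 7))) (Nat.add (Nat.mul (X (nat_lit 13)) (X (nat_lit 7))) (Nat.add (Nat.mul (X (nat_lit 14)) (X (nat_lit 7))) (Nat.mul (X (nat_lit 16)) (X (nat_lit 7))))))))) 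
 (.lf (.mk fun X => (Nat.add (Nat.mul (nat_lit 2) (Nat.add (Nat.mul (X (nat_lit 5)) (X (nat_lit 14))) (Nat.add (Nat.mul (X (nat_lit 11)) (X (nat_lit 15))) (Nat.mul (X (nat_lit 20)) (X (nat_lit 14)))))) (Nat.mul (nat_lit 4) (Nat.add (Nat.mul (X (nat_lit 9)) (X (nat_lit 12))) (Nat.add (Nat.mul (X (nat_lit 9)) (X (nat_lit 13))) (Nat.add (Nat.mul (X (nat_lit 9)) (X (nat_lit 14))) (Nat.add (Nat.mul (X (nat_lit 9)) (X (nat_lit 15))) (Nat.add (Nat.mul (X (nat_lit 9)) (X (nat_lit 16))) (Nat.add (Nat.mul (X (nat_lit 11)) (X (nat_lit 12))) (Nat.add (Nat.mul (X (nat_lit 11)) (X (nat_lit 13))) (Nat.add (Nat.mul (X (nat_lit 11)) (X (nat_lit 14))) (Nat.mul (X (nat_lit 11)) (X (nat_lit 16))))))))))))))))) (.nd (nat_lit 16) 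
 (.lf (.mk fun X => (Nat.mul (nat_lit 4) (Nat.mul (X (nat_lit 14)) (X (nat_lit 10)))))) (.nd (nat_lit 17) 
 (.lf (.mk fun X => (Nat.add (Nat.mul (nat_lit 8) (Nat.add (Nat.mul (X (nat_lit 21)) (X (nat_lit 22))) (Nat.add (Nat.mul (X (nat_lit 21)) (X (nat_lit 24))) (Nat.add (Nat.mul (X (nat_lit 23)) (X (nat_lit 22))) (Nat.mul (X (nat_lit 23)) (X (nat_lit 24))))))) (Nat.mul (nat_lit 16) (Nat.add (Nat.mul (X (nat_lit 25)) (X (nat_lit 24))) (Nat.add (Nat.mul (X (nat_lit 26)) (X (nat_lit 27))) (Nat.mul (X (nat_lit 28)) (X (nat_lit 27))))))))) 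
 (.lf (.mk fun X => (Nat.add (Nat.mul (nat_lit 8) (Nat.add (Nat.mul (X (nat_lit 29)) (X (nat_lit 22))) (Nat.add (Nat.mul (X (nat_lit 29)) (X (nat_lit 24))) (Nat.add (Nat.mul (X (nat_lit 30)) (X (nat_lit 22))) (Nat.add (Nat.mul (X (nat_lit 30)) (X (nat_lit 24))) (Nat.add (Nat.mul (X (nat_lit 32)) (X (nat_lit 24))) (Nat.mul (X (nat_lit 34)) (X (nat_lit 24))))))))) (Nat.mul (nat_lit 16) (Nat.add (Nat.mul (X (nat_lit 31)) (X (nat_lit 24))) (Nat.mul (X (nat_lit 33)) (X (nat_lit 24))))))))))) (.nd (nat_lit 21) (.nd (nat_lit 19) 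
 (.lf (.mk fun X => (Nat.add (Nat.mul (X (nat_lit 21)) (X (nat_lit 32))) (Nat.add (Nat.mul (nat_lit 4) (Nat.add (Nat.mul (X (nat_lit 21)) (X (nat_lit 29))) (Nat.add (Nat.mul (X (nat_lit 21)) (X (nat_lit 30))) (Nat.add (Nat.mul (X (nat_lit 23)) (X (nat_lit 29))) (Nat.add (Nat.mul (X (nat_lit 23)) (X (nat_lit 30))) (Nat.add (Nat.mul (X (nat_lit 28)) (X (nat_lit 31))) (Nat.add (Nat.mul (X (nat_lit 35)) (X (nat_lit 32))) (Nat.mul (X (nat_lit 36)) (X (nat_lit 34)))))))))) (Nat.mul (nat_lit 8) (Nat.add (Nat.mul (X (nat_lit 26)) (X (nat_lit 31))) (Nat.mul (X (nat_lit 26)) (X (nat_lit 33))))))))) (.nd (nat_lit 20) 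
 (.lf (.mk fun X => (Nat.add (Nat.mul (nat_lit 4) (Nat.add (Nat.mul (X (nat_lit 21)) (X (nat_lit 27))) (Nat.add (Nat.mul (X (nat_lit 28)) (X (nat_lit 22))) (Nat.mul (X (nat_lit 37)) (X (nat_lit 27)))))) (Nat.mul (nat_lit 8) (Nat.add (Nat.mul (X (nat_lit 21)) (X (nat_lit 24))) (Nat.add (Nat.mul (X (nat_lit 23)) (X (nat_lit 24))) (Nat.add (Nat.mul (X (nat_lit 25)) (X (nat_lit 24))) (Nat.add (Nat.mul (X (nat_lit 26)) (X (nat_lit 22))) (Nat.add (Nat.mul (X (nat_lit 26)) (X (nat_lit 27))) (Nat.mul (X (nat_lit 28)) (X (nat_lit 27)))))))))))) 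
 (.lf (.mk fun X => (Nat.mul (nat_lit 8) (Nat.add (Nat.mul (X (nat_lit 29)) (X (nat_lit 27))) (Nat.add (Nat.mul (X (nat_lit 30)) (X (nat_lit 27))) (Nat.add (Nat.mul (X (nat_lit 31)) (X (nat_lit 22))) (Nat.add (Nat.mul (X (nat_lit 31)) (X (nat_lit 27))) (Nat.add (Nat.mul (X (nat_lit 32)) (X (nat_lit 27))) (Nat.add (Nat.mul (X (nat_lit 33)) (X (nat_lit 22))) (Nat.mul (X (nat_lit 33)) (X (nat_lit 27)))))))))))))) (.nd (nat_lit 23) (.nd (nat_lit 22) 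
 (.lf (.mk fun X => (Nat.add (Nat.mul (nat_lit 4) (Nat.add (Nat.mul (X (nat_lit 31)) (X (nat_lit 22))) (Nat.mul (X (nat_lit 32)) (X (nat_lit 27))))) (Nat.mul (nat_lit 8) (Nat.add (Nat.mul (X (nat_lit 29)) (X (nat_lit 27))) (Nat.add (Nat.mul (X (nat_lit 30)) (X (nat_lit 27))) (Nat.add (Nat.mul (X (nat_lit 31)) (X (nat_lit 27))) (Nat.mul (X (nat_lit 33)) (X (nat_lit 27)))))))))) 
 (.lf (.mk fun X => (Nat.add (Nat.mul (nat_lit 2) (Nat.mul (X (nat_lit 21)) (X (nat_lit 22)))) (Nat.add (Nat.mul (nat_lit 8) (Nat.add (Nat.mul (X (nat_lit 21)) (X (nat_lit 24))) (Nat.add (Nat.mul (X (nat_lit 23)) (X (nat_lit 24))) (Nat.add (Nat.mul (X (nat_lit 28)) (X (nat_lit 27))) (Nat.mul (X (nat_lit 35)) (X (nat_lit 22))))))) (Nat.mul (nat_lit 16) (Nat.mul (X (nat_lit 26)) (X (nat_lit 27))))))))) (.nd (nat_lit 24) 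
 (.lf (.mk fun X => (Nat.mul (nat_lit 8) (Nat.mul (X (nat_lit 32)) (X (nat_lit 22)))))) 
 (.lf (.mk fun X => (Nat.mul (nat_lit 8) (Nat.add (Nat.mul (X (nat_lit 21)) (X (nat_lit 24))) (Nat.add (Nat.mul (X (nat_lit 23)) (X (nat_lit 24))) (Nat.add (Nat.mul (X (nat_lit 25)) (X (nat_lit 24))) (Nat.add (Nat.mul (X (nat_lit 26)) (X (nat_lit 22))) (Nat.add (Nat.mul (X (nat_lit 26)) (X (nat_lit 27))) (Nat.mul (X (nat_lit 28)) (X (nat_lit 27)))))))))))))))) (.nd (nat_lit 37) (.nd (nat_lit 31) (.nd (nat_lit 28) (.nd (nat_lit 26) 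
 (.lf (.mk fun X => (Nat.mul (nat_lit 8) (Nat.add (Nat.mul (X (nat_lit 21)) (X (nat_lit 24))) (Nat.add (Nat.mul (X (nat_lit 23)) (X (nat_lit 24))) (Nat.mul (X (nat_lit 36)) (X (nat_lit 22)))))))) (.nd (nat_lit 27) 
 (.lf (.mk fun X => (Nat.mul (nat_lit 8) (Nat.mul (X (nat_lit 34)) (X (nat_lit 22)))))) 
 (.lf (.mk fun X => (Nat.add (Nat.mul (nat_lit 4) (Nat.add (Nat.mul (X (nat_lit 21)) (X (nat_lit 29))) (Nat.add (Nat.mul (X (nat_lit 21)) (X (nat_lit 30))) (Nat.add (Nat.mul (X (nat_lit 21)) (X (nat_lit 32))) (Nat.add (Nat.mul (X (nat_lit 21)) (X (nat_lit 34))) (Nat.add (Nat.mul (X (nat_lit 23)) (X (nat_lit 29))) (Nat.add (Nat.mul (X (nat_lit 23)) (X (nat_lit 30))) (Nat.add (Nat.mul (X (nat_lit 23)) (X (nat_lit 32))) (Nat.mul (X (nat_lit 23)) (X (nat_lit 34))))))))))) (Nat.mul (nat_lit 8) (Nat.add (Nat.mul (X (nat_lit 21)) (X (nat_lit 31))) (Nat.add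 (Nat.mul (X (nat_lit 21)) (X (nat_lit 33))) (Nat.add (Nat.mul (X (nat_lit 23)) (X (nat_lit 31))) (Nat.add (Nat.mul (X (nat_lit 23)) (X (nat_lit 33))) (Nat.add (Nat.mul (X (nat_lit 25)) (X (nat_lit 29))) (Nat.add (Nat.mul (X (nat_lit 25)) (X (nat_lit 30))) (Nat.add (Nat.mul (X (nat_lit 25)) (X (nat_lit 31))) (Nat.mul (X (nat_lit 25)) (X (nat_lit 33)))))))))))))))) (.nd (nat_lit 29) 
 (.lf (.mk fun X => (Nat.mul (nat_lit 8) (Nat.add (Nat.mul (X (nat_lit 29)) (X (nat_lit 24))) (Nat.add (Nat.mul (X (nat_lit 30)) (X (nat_lit 24))) (Nat.add (Nat.mul (X (nat_lit 31)) (X (nat_lit 24))) (Nat.mul (X (nat_lit 33)) (X (nat_lit 24))))))))) (.nd (nat_lit 30) 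
 (.lf (.mk fun X => (Nat.add (Nat.mul (nat_lit 2) (Nat.add (Nat.mul (X (nat_lit 21)) (X (nat_lit 31))) (Nat.add (Nat.mul (X (nat_lit 28)) (X (nat_lit 32))) (Nat.mul (X (nat_lit 37)) (X (nat_lit 31)))))) (Nat.mul (nat_lit 4) (Nat.add (Nat.mul (X (nat_lit 26)) (X (nat_lit 29))) (Nat.add (Nat.mul (X (nat_lit 26)) (X (nat_lit 30))) (Nat.add (Nat.mul (X (nat_lit 26)) (X (nat_lit 31))) (Nat.add (Nat.mul (X (nat_lit 26)) (X (nat_lit 32))) (Nat.add (Nat.mul (X (nat_lit 26)) (X (nat_lit 33))) (Nat.add (Nat.mul (X (nat_lit 28)) (X (nat_lit 29))) (Nat.add (Nat.mul (X (nat_lit 28)) (X (nat_lit 30))) (Nat.add (Nat.mul (X (nat_lit 28)) (X (nat_lit 31))) (Nat.mul (X (nat_lit 28)) (X (nat_lit 33))))))))))))))) 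
 (.lf (.mk fun X => (Nat.mul (nat_lit 4) (Nat.mul (X (nat_lit 31)) (X (nat_lit 27))))))))) (.nd (nat_lit 34) (.nd (nat_lit 32) 
 (.lf (.mk fun X => (Nat.add (Nat.mul (nat_lit 8) (Nat.add (Nat.mul (X (nat_lit 38)) (X (nat_lit 40))) (Nat.mul (X (nat_lit 39)) (X (nat_lit 40))))) (Nat.mul (nat_lit 16) (Nat.add (Nat.mul (X (nat_lit 41)) (X (nat_lit 40))) (Nat.add (Nat.mul (X (nat_lit 42)) (X (nat_lit 43))) (Nat.mul (X (nat_lit 44)) (X (nat_lit 43))))))))) (.nd (nat_lit 33) 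
 (.lf (.mk fun X => (Nat.add (Nat.mul (nat_lit 8) (Nat.add (Nat.mul (X (nat_lit 45)) (X (nat_lit 40))) (Nat.add (Nat.mul (X (nat_lit 46)) (X (nat_lit 40))) (Nat.add (Nat.mul (X (nat_lit 48)) (X (nat_lit 40))) (Nat.mul (X (nat_lit 50)) (X (nat_lit 40))))))) (Nat.mul (nat_lit 16) (Nat.add (Nat.mul (X (nat_lit 47)) (X (nat_lit 40))) (Nat.mul (X (nat_lit 49)) (X (nat_lit 40)))))))) 
 (.lf (.mk fun X => (Nat.add (Nat.mul (X (nat_lit 38)) (X (nat_lit 48))) (Nat.add (Nat.mul (nat_lit 4) (Nat.add (Nat.mul (X (nat_lit 38)) (X (nat_lit 45))) (Nat.add (Nat.mul (X (nat_lit 38)) (X (nat_lit 46))) (Nat.add (Nat.mul (X (nat_lit 39)) (X (nat_lit 45))) (Nat.add (Nat.mul (X (nat_lit 39)) (X (nat_lit 46))) (Nat.add (Nat.mul (X (nat_lit 44)) (X (nat_lit 47))) (Nat.add (Nat.mul (X (nat_lit 51)) (X (nat_lit 48))) (Nat.mul (X (nat_lit 52)) (X (nat_lit 50))))))))))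 (Nat.mul (nat_lit 8) (Nat.add (Nat.mul (X (nat_lit 42)) (X (nat_lit 47))) (Nat.mul (X (nat_lit 42)) (X (nat_lit 49))))))))))) (.nd (nat_lit 35) 
 (.lf (.mk fun X => (Nat.add (Nat.mul (nat_lit 4) (Nat.add (Nat.mul (X (nat_lit 38)) (X (nat_lit 43))) (Nat.mul (X (nat_lit 53)) (X (nat_lit 43))))) (Nat.mul (nat_lit 8) (Nat.add (Nat.mul (X (nat_lit 38)) (X (nat_lit 40))) (Nat.add (Nat.mul (X (nat_lit 39)) (X (nat_lit 40))) (Nat.add (Nat.mul (X (nat_lit 41)) (X (nat_lit 40))) (Nat.add (Nat.mul (X (nat_lit 42)) (X (nat_lit 43))) (Nat.mul (X (nat_lit 44)) (X (nat_lit 43))))))))))) (.nd (nat_lit 36) 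
 (.lf (.mk fun X => (Nat.mul (nat_lit 8) (Nat.add (Nat.mul (X (nat_lit 45)) (X (nat_lit 43))) (Nat.add (Nat.mul (X (nat_lit 46)) (X (nat_lit 43))) (Nat.add (Nat.mul (X (nat_lit 47)) (X (nat_lit 43))) (Nat.add (Nat.mul (X (nat_lit 48)) (X (nat_lit 43))) (Nat.mul (X (nat_lit 49)) (X (nat_lit 43)))))))))) 
 (.lf (.mk fun X => (Nat.add (Nat.mul (nat_lit 4) (Nat.mul (X (nat_lit 48)) (X (nat_lit 43)))) (Nat.mul (nat_lit 8) (Nat.add (Nat.mul (X (nat_lit 45)) (X (nat_lit 43))) (Nat.add (Nat.mul (X (nat_lit 46)) (X (nat_lit 43))) (Nat.add (Nat.mul (X (nat_lit 47)) (X (nat_lit 43))) (Nat.mul (X (nat_lit 49)) (X (nat_lit 43)))))))))))))) (.nd (nat_lit 43) (.nd (nat_lit 40) (.nd (nat_lit 38) 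
 (.lf (.mk fun X => (Nat.add (Nat.mul (nat_lit 8) (Nat.add (Nat.mul (X (nat_lit 38)) (X (nat_lit 40))) (Nat.add (Nat.mul (X (nat_lit 39)) (X (nat_lit 40))) (Nat.mul (X (nat_lit 44)) (X (nat_lit 43)))))) (Nat.mul (nat_lit 16) (Nat.mul (X (nat_lit 42)) (X (nat_lit 43))))))) (.nd (nat_lit 39) 
 (.lf (.mk fun X => (Nat.mul (nat_lit 8) (Nat.add (Nat.mul (X (nat_lit 38)) (X (nat_lit 40))) (Nat.add (Nat.mul (X (nat_lit 39)) (X (nat_lit 40))) (Nat.add (Nat.mul (X (nat_lit 41)) (X (nat_lit 40))) (Nat.add (Nat.mul (X (nat_lit 42)) (X (nat_lit 43))) (Nat.mul (X (nat_lit 44)) (X (nat_lit 43)))))))))) 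
 (.lf (.mk fun X => (Nat.mul (nat_lit 8) (Nat.add (Nat.mul (X (nat_lit 38)) (X (nat_lit 40))) (Nat.mul (X (nat_lit 39)) (X (nat_lit 40))))))))) (.nd (nat_lit 41) 
 (.lf (.mk fun X => (Nat.add (Nat.mul (nat_lit 4) (Nat.add (Nat.mul (X (nat_lit 38)) (X (nat_lit 45))) (Nat.add (Nat.mul (X (nat_lit 38)) (X (nat_lit 46))) (Nat.add (Nat.mul (X (nat_lit 38)) (X (nat_lit 48))) (Nat.add (Nat.mul (X (nat_lit 38)) (X (nat_lit 50))) (Nat.add (Nat.mul (X (nat_lit 39)) (X (nat_lit 45))) (Nat.add (Nat.mul (X (nat_lit 39)) (X (nat_lit 46))) (Nat.add (Nat.mul (X (nat_lit 39)) (X (nat_lit 48))) (Nat.mul (X (nat_lit 39)) (X (nat_lit 50))))))))))) (Nat.mul (nat_lit 8) (Nat.add (Nat.mul (X (nat_lit 38)) (X (nat_lit 47))) (Nat.add (Nat.mul (X (nat_lit 38)) (X (nat_lit 49))) (Nat.add (Nat.mul (X (nat_lit 39)) (X (nat_lit 47))) (Nat.add (Nat.mul (X (nat_lit 39)) (X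 (nat_lit 49))) (Nat.add (Nat.mul (X (nat_lit 41)) (X (nat_lit 45))) (Nat.add (Nat.mul (X (nat_lit 41)) (X (nat_lit 46))) (Nat.add (Nat.mul (X (nat_lit 41)) (X (nat_lit 47))) (Nat.mul (X (nat_lit 41)) (X (nat_lit 49)))))))))))))) (.nd (nat_lit 42) 
 (.lf (.mk fun X => (Nat.mul (nat_lit 8) (Nat.add (Nat.mul (X (nat_lit 45)) (X (nat_lit 40))) (Nat.add (Nat.mul (X (nat_lit 46)) (X (nat_lit 40))) (Nat.add (Nat.mul (X (nat_lit 47)) (X (nat_lit 40))) (Nat.mul (X (nat_lit 49)) (X (nat_lit 40))))))))) 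
 (.lf (.mk fun X => (Nat.add (Nat.mul (nat_lit 2) (Nat.add (Nat.mul (X (nat_lit 38)) (X (nat_lit 47))) (Nat.add (Nat.mul (X (nat_lit 44)) (X (nat_lit 48))) (Nat.mul (X (nat_lit 53)) (X (nat_lit 47)))))) (Nat.mul (nat_lit 4) (Nat.add (Nat.mul (X (nat_lit 42)) (X (nat_lit 45))) (Nat.add (Nat.mul (X (nat_lit 42)) (X (nat_lit 46))) (Nat.add (Nat.mul (X (nat_lit 42)) (X (nat_lit 47))) (Nat.add (Nat.mul (X (nat_lit 42)) (X (nat_lit 48))) (Nat.add (Nat.mul (X (nat_lit 42)) (X (nat_lit 49))) (Nat.add (Nat.mul (X (nat_lit 44)) (X (nat_lit 45))) (Nat.add (Nat.mul (X (nat_lit 44)) (X (nat_lit 46))) (Nat.add (Nat.mul (X (nat_lit 44)) (X (nat_lit 47))) (Nat.mul (X (nat_lit 44)) (X (nat_lit 49)))))))))))))))))) (.nd (nat_lit 46) (.nd (nat_lit 44) 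
 (.lf (.mk fun X => (Nat.mul (nat_lit 4) (Nat.mul (X (nat_lit 47)) (X (nat_lit 43)))))) (.nd (nat_lit 45) 
 (.lf (.mk fun X => (Nat.add (Nat.mul (nat_lit 8) (Nat.add (Nat.mul (X (nat_lit 54)) (X (nat_lit 55))) (Nat.add (Nat.mul (X (nat_lit 54)) (X (nat_lit 57))) (Nat.add (Nat.mul (X (nat_lit 56)) (X (nat_lit 55))) (Nat.mul (X (nat_lit 56)) (X (nat_lit 57))))))) (Nat.mul (nat_lit 16) (Nat.add (Nat.mul (X (nat_lit 58)) (X (nat_lit 57))) (Nat.add (Nat.mul (X (nat_lit 59)) (X (nat_lit 60))) (Nat.mul (X (nat_lit 61)) (X (nat_lit 60))))))))) 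
 (.lf (.mk fun X => (Nat.add (Nat.mul (nat_lit 8) (Nat.add (Nat.mul (X (nat_lit 62)) (X (nat_lit 55))) (Nat.add (Nat.mul (X (nat_lit 62)) (X (nat_lit 57))) (Nat.add (Nat.mul (X (nat_lit 63)) (X (nat_lit 55))) (Nat.add (Nat.mul (X (nat_lit 63)) (X (nat_lit 57))) (Nat.add (Nat.mul (X (nat_lit 65)) (X (nat_lit 57))) (Nat.mul (X (nat_lit 67)) (X (nat_lit 57))))))))) (Nat.mul (nat_lit 16) (Nat.add (Nat.mul (X (nat_lit 64)) (X (nat_lit 57))) (Nat.mul (X (nat_lit 66)) (X (nat_lit 57)))))))))) (.nd (nat_lit 48) (.nd (nat_lit 47) 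
 (.lf (.mk fun X => (Nat.add (Nat.mul (X (nat_lit 54)) (X (nat_lit 65))) (Nat.add (Nat.mul (nat_lit 4) (Nat.add (Nat.mul (X (nat_lit 54)) (X (nat_lit 62))) (Nat.add (Nat.mul (X (nat_lit 54)) (X (nat_lit 63))) (Nat.add (Nat.mul (X (nat_lit 56)) (X (nat_lit 62))) (Nat.add (Nat.mul (X (nat_lit 56)) (X (nat_lit 63))) (Nat.add (Nat.mul (X (nat_lit 61)) (X (nat_lit 64))) (Nat.add (Nat.mul (X (nat_lit 68)) (X (nat_lit 65))) (Nat.mul (X (nat_lit 69)) (X (nat_lit 67)))))))))) (Nat.mul (nat_lit 8) (Nat.add (Nat.mul (X (nat_lit 59)) (X (nat_lit 64))) (Nat.mul (X (nat_lit 59)) (X (nat_lit 66))))))))) 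
 (.lf (.mk fun X => (Nat.add (Nat.mul (nat_lit 4) (Nat.add (Nat.mul (X (nat_lit 54)) (X (nat_lit 60))) (Nat.add (Nat.mul (X (nat_lit 61)) (X (nat_lit 55))) (Nat.mul (X (nat_lit 70)) (X (nat_lit 60)))))) (Nat.mul (nat_lit 8) (Nat.add (Nat.mul (X (nat_lit 54)) (X (nat_lit 57))) (Nat.add (Nat.mul (X (nat_lit 56)) (X (nat_lit 57))) (Nat.add (Nat.mul (X (nat_lit 58)) (X (nat_lit 57))) (Nat.add (Nat.mul (X (nat_lit 59)) (X (nat_lit 55))) (Nat.add (Nat.mul (X (nat_lit 59)) (X (nat_lit 60))) (Nat.mul (X (nat_lit 61)) (X (nat_lit 60))))))))))))) (.nd (nat_lit 49) 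
 (.lf (.mk fun X => (Nat.mul (nat_lit 8) (Nat.add (Nat.mul (X (nat_lit 62)) (X (nat_lit 60))) (Nat.add (Nat.mul (X (nat_lit 63)) (X (nat_lit 60))) (Nat.add (Nat.mul (X (nat_lit 64)) (X (nat_lit 55))) (Nat.add (Nat.mul (X (nat_lit 64)) (X (nat_lit 60))) (Nat.add (Nat.mul (X (nat_lit 65)) (X (nat_lit 60))) (Nat.add (Nat.mul (X (nat_lit 66)) (X (nat_lit 55))) (Nat.mul (X (nat_lit 66)) (X (nat_lit 60)))))))))))) 
 (.lf (.mk fun X => (Nat.add (Nat.mul (nat_lit 4) (Nat.add (Nat.mul (X (nat_lit 64)) (X (nat_lit 55))) (Nat.mul (X (nat_lit 65)) (X (nat_lit 60))))) (Nat.mul (nat_lit 8) (Nat.add (Nat.mul (X (nat_lit 62)) (X (nat_lit 60))) (Nat.add (Nat.mul (X (nat_lit 63)) (X (nat_lit 60))) (Nat.add (Nat.mul (X (nat_lit 64)) (X (nat_lit 60))) (Nat.mul (X (nat_lit 66)) (X (nat_lit 60)))))))))))))))) (.nd (nat_lit 75) (.nd (nat_lit 62) (.nd (nat_lit 56)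 (.nd (nat_lit 53) (.nd (nat_lit 51) 
 (.lf (.mk fun X => (Nat.add (Nat.mul (nat_lit 2) (Nat.mul (X (nat_lit 54)) (X (nat_lit 55)))) (Nat.add (Nat.mul (nat_lit 8) (Nat.add (Nat.mul (X (nat_lit 54)) (X (nat_lit 57))) (Nat.add (Nat.mul (X (nat_lit 56)) (X (nat_lit 57))) (Nat.add (Nat.mul (X (nat_lit 61)) (X (nat_lit 60))) (Nat.mul (X (nat_lit 68)) (X (nat_lit 55))))))) (Nat.mul (nat_lit 16) (Nat.mul (X (nat_lit 59)) (X (nat_lit 60)))))))) (.nd (nat_lit 52) 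
 (.lf (.mk fun X => (Nat.mul (nat_lit 8) (Nat.mul (X (nat_lit 65)) (X (nat_lit 55)))))) 
 (.lf (.mk fun X => (Nat.mul (nat_lit 8) (Nat.add (Nat.mul (X (nat_lit 54)) (X (nat_lit 57))) (Nat.add (Nat.mul (X (nat_lit 56)) (X (nat_lit 57))) (Nat.add (Nat.mul (X (nat_lit 58)) (X (nat_lit 57))) (Nat.add (Nat.mul (X (nat_lit 59)) (X (nat_lit 55))) (Nat.add (Nat.mul (X (nat_lit 59)) (X (nat_lit 60))) (Nat.mul (X (nat_lit 61)) (X (nat_lit 60))))))))))))) (.nd (nat_lit 54) 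
 (.lf (.mk fun X => (Nat.mul (nat_lit 8) (Nat.add (Nat.mul (X (nat_lit 54)) (X (nat_lit 57))) (Nat.add (Nat.mul (X (nat_lit 56)) (X (nat_lit 57))) (Nat.mul (X (nat_lit 69)) (X (nat_lit 55)))))))) (.nd (nat_lit 55) 
 (.lf (.mk fun X => (Nat.mul (nat_lit 8) (Nat.mul (X (nat_lit 67)) (X (nat_lit 55)))))) 
 (.lf (.mk fun X => (Nat.add (Nat.mul (nat_lit 4) (Nat.add (Nat.mul (X (nat_lit 54)) (X (nat_lit 62))) (Nat.add (Nat.mul (X (nat_lit 54)) (X (nat_lit 63))) (Nat.add (Nat.mul (X (nat_lit 54)) (X (nat_lit 65))) (Nat.add (Nat.mul (X (nat_lit 54)) (X (nat_lit 67))) (Nat.add (Nat.mul (X (nat_lit 56)) (X (nat_lit 62))) (Nat.add (Nat.mul (X (nat_lit 56)) (X (nat_lit 63))) (Nat.add (Nat.mul (X (nat_lit 56)) (X (nat_lit 65))) (Nat.mul (X (nat_lit 56)) (X (nat_lit 67))))))))))) (Nat.mul (nat_lit 8) (Nat.add (Nat.mul (X (nat_lit 54)) (X (nat_lit 64))) (Nat.add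 (Nat.mul (X (nat_lit 54)) (X (nat_lit 66))) (Nat.add (Nat.mul (X (nat_lit 56)) (X (nat_lit 64))) (Nat.add (Nat.mul (X (nat_lit 56)) (X (nat_lit 66))) (Nat.add (Nat.mul (X (nat_lit 58)) (X (nat_lit 62))) (Nat.add (Nat.mul (X (nat_lit 58)) (X (nat_lit 63))) (Nat.add (Nat.mul (X (nat_lit 58)) (X (nat_lit 64))) (Nat.mul (X (nat_lit 58)) (X (nat_lit 66))))))))))))))))) (.nd (nat_lit 59) (.nd (nat_lit 57) 
 (.lf (.mk fun X => (Nat.mul (nat_lit 8) (Nat.add (Nat.mul (X (nat_lit 62)) (X (nat_lit 57))) (Nat.add (Nat.mul (X (nat_lit 63)) (X (nat_lit 57))) (Nat.add (Nat.mul (X (nat_lit 64)) (X (nat_lit 57))) (Nat.mul (X (nat_lit 66)) (X (nat_lit 57))))))))) (.nd (nat_lit 58) 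
 (.lf (.mk fun X => (Nat.add (Nat.mul (nat_lit 2) (Nat.add (Nat.mul (X (nat_lit 54)) (X (nat_lit 64))) (Nat.add (Nat.mul (X (nat_lit 61)) (X (nat_lit 65))) (Nat.mul (X (nat_lit 70)) (X (nat_lit 64)))))) (Nat.mul (nat_lit 4) (Nat.add (Nat.mul (X (nat_lit 59)) (X (nat_lit 62))) (Nat.add (Nat.mul (X (nat_lit 59)) (X (nat_lit 63))) (Nat.add (Nat.mul (X (nat_lit 59)) (X (nat_lit 64))) (Nat.add (Nat.mul (X (nat_lit 59)) (X (nat_lit 65))) (Nat.add (Nat.mul (X (nat_lit 59)) (X (nat_lit 66))) (Nat.add (Nat.mul (X (nat_lit 61)) (X (nat_lit 62))) (Nat.add (Nat.mul (X (nat_lit 61)) (X (nat_lit 63))) (Nat.add (Nat.mul (X (nat_lit 61)) (X (nat_lit 64))) (Nat.mul (X (nat_lit 61)) (X (nat_lit 66))))))))))))))) 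
 (.lf (.mk fun X => (Nat.mul (nat_lit 4) (Nat.mul (X (nat_lit 64)) (X (nat_lit 60)))))))) (.nd (nat_lit 60) 
 (.lf (.mk fun X => (Nat.add (Nat.mul (nat_lit 8) (Nat.add (Nat.mul (X (nat_lit 71)) (X (nat_lit 73))) (Nat.mul (X (nat_lit 72)) (X (nat_lit 73))))) (Nat.mul (nat_lit 16) (Nat.add (Nat.mul (X (nat_lit 74)) (X (nat_lit 73))) (Nat.add (Nat.mul (X (nat_lit 75)) (X (nat_lit 76))) (Nat.mul (X (nat_lit 77)) (X (nat_lit 76))))))))) (.nd (nat_lit 61) 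
 (.lf (.mk fun X => (Nat.add (Nat.mul (nat_lit 8) (Nat.add (Nat.mul (X (nat_lit 78)) (X (nat_lit 73))) (Nat.add (Nat.mul (X (nat_lit 79)) (X (nat_lit 73))) (Nat.add (Nat.mul (X (nat_lit 81)) (X (nat_lit 73))) (Nat.mul (X (nat_lit 83)) (X (nat_lit 73))))))) (Nat.mul (nat_lit 16) (Nat.add (Nat.mul (X (nat_lit 80)) (X (nat_lit 73))) (Nat.mul (X (nat_lit 82)) (X (nat_lit 73)))))))) 
 (.lf (.mk fun X => (Nat.add (Nat.mul (X (nat_lit 71)) (X (nat_lit 81))) (Nat.add (Nat.mul (nat_lit 4) (Nat.add (Nat.mul (X (nat_lit 71)) (X (nat_lit 78))) (Nat.add (Nat.mul (X (nat_lit 71)) (X (nat_lit 79))) (Nat.add (Nat.mul (X (nat_lit 72)) (X (nat_lit 78))) (Nat.add (Nat.mul (X (nat_lit 72)) (X (nat_lit 79))) (Nat.add (Nat.mul (X (nat_lit 77)) (X (nat_lit 80))) (Nat.add (Nat.mul (X (nat_lit 84)) (X (nat_lit 81))) (Nat.mul (X (nat_lit 85)) (X (nat_lit 83))))))))))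 (Nat.mul (nat_lit 8) (Nat.add (Nat.mul (X (nat_lit 75)) (X (nat_lit 80))) (Nat.mul (X (nat_lit 75)) (X (nat_lit 82))))))))))))) (.nd (nat_lit 68) (.nd (nat_lit 65) (.nd (nat_lit 63) 
 (.lf (.mk fun X => (Nat.add (Nat.mul (nat_lit 4) (Nat.add (Nat.mul (X (nat_lit 71)) (X (nat_lit 76))) (Nat.mul (X (nat_lit 86)) (X (nat_lit 76))))) (Nat.mul (nat_lit 8) (Nat.add (Nat.mul (X (nat_lit 71)) (X (nat_lit 73))) (Nat.add (Nat.mul (X (nat_lit 72)) (X (nat_lit 73))) (Nat.add (Nat.mul (X (nat_lit 74)) (X (nat_lit 73))) (Nat.add (Nat.mul (X (nat_lit 75)) (X (nat_lit 76))) (Nat.mul (X (nat_lit 77)) (X (nat_lit 76))))))))))) (.nd (nat_lit 64) 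
 (.lf (.mk fun X => (Nat.mul (nat_lit 8) (Nat.add (Nat.mul (X (nat_lit 78)) (X (nat_lit 76))) (Nat.add (Nat.mul (X (nat_lit 79)) (X (nat_lit 76))) (Nat.add (Nat.mul (X (nat_lit 80)) (X (nat_lit 76))) (Nat.add (Nat.mul (X (nat_lit 81)) (X (nat_lit 76))) (Nat.mul (X (nat_lit 82)) (X (nat_lit 76)))))))))) 
 (.lf (.mk fun X => (Nat.add (Nat.mul (nat_lit 4) (Nat.mul (X (nat_lit 81)) (X (nat_lit 76)))) (Nat.mul (nat_lit 8) (Nat.add (Nat.mul (X (nat_lit 78)) (X (nat_lit 76))) (Nat.add (Nat.mul (X (nat_lit 79)) (X (nat_lit 76))) (Nat.add (Nat.mul (X (nat_lit 80)) (X (nat_lit 76))) (Nat.mul (X (nat_lit 82)) (X (nat_lit 76)))))))))))) (.nd (nat_lit 66) 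
 (.lf (.mk fun X => (Nat.add (Nat.mul (nat_lit 8) (Nat.add (Nat.mul (X (nat_lit 71)) (X (nat_lit 73))) (Nat.add (Nat.mul (X (nat_lit 72)) (X (nat_lit 73))) (Nat.mul (X (nat_lit 77)) (X (nat_lit 76)))))) (Nat.mul (nat_lit 16) (Nat.mul (X (nat_lit 75)) (X (nat_lit 76))))))) (.nd (nat_lit 67) 
 (.lf (.mk fun X => (Nat.mul (nat_lit 8) (Nat.add (Nat.mul (X (nat_lit 71)) (X (nat_lit 73))) (Nat.add (Nat.mul (X (nat_lit 72)) (X (nat_lit 73))) (Nat.add (Nat.mul (X (nat_lit 74)) (X (nat_lit 73))) (Nat.add (Nat.mul (X (nat_lit 75)) (X (nat_lit 76))) (Nat.mul (X (nat_lit 77)) (X (nat_lit 76)))))))))) 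
 (.lf (.mk fun X => (Nat.mul (nat_lit 8) (Nat.add (Nat.mul (X (nat_lit 71)) (X (nat_lit 73))) (Nat.mul (X (nat_lit 72)) (X (nat_lit 73)))))))))) (.nd (nat_lit 71) (.nd (nat_lit 69) 
 (.lf (.mk fun X => (Nat.add (Nat.mul (nat_lit 4) (Nat.add (Nat.mul (X (nat_lit 71)) (X (nat_lit 78))) (Nat.add (Nat.mul (X (nat_lit 71)) (X (nat_lit 79))) (Nat.add (Nat.mul (X (nat_lit 71)) (X (nat_lit 81))) (Nat.add (Nat.mul (X (nat_lit 71)) (X (nat_lit 83))) (Nat.add (Nat.mul (X (nat_lit 72)) (X (nat_lit 78))) (Nat.add (Nat.mul (X (nat_lit 72)) (X (nat_lit 79))) (Nat.add (Nat.mul (X (nat_lit 72)) (X (nat_lit 81))) (Nat.mul (X (nat_lit 72)) (X (nat_lit 83))))))))))) (Nat.mul (nat_lit 8) (Nat.add (Nat.mul (X (nat_lit 71)) (X (nat_lit 80))) (Nat.add (Nat.mul (X (nat_lit 71)) (X (nat_lit 82))) (Nat.add (Nat.mul (X (nat_lit 72)) (X (nat_lit 80))) (Nat.add (Nat.mul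 (X (nat_lit 72)) (X (nat_lit 82))) (Nat.add (Nat.mul (X (nat_lit 74)) (X (nat_lit 78))) (Nat.add (Nat.mul (X (nat_lit 74)) (X (nat_lit 79))) (Nat.add (Nat.mul (X (nat_lit 74)) (X (nat_lit 80))) (Nat.mul (X (nat_lit 74)) (X (nat_lit 82)))))))))))))) (.nd (nat_lit 70) 
 (.lf (.mk fun X => (Nat.mul (nat_lit 8) (Nat.add (Nat.mul (X (nat_lit 78)) (X (nat_lit 73))) (Nat.add (Nat.mul (X (nat_lit 79)) (X (nat_lit 73))) (Nat.add (Nat.mul (X (nat_lit 80)) (X (nat_lit 73))) (Nat.mul (X (nat_lit 82)) (X (nat_lit 73))))))))) 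
 (.lf (.mk fun X => (Nat.add (Nat.mul (nat_lit 2) (Nat.add (Nat.mul (X (nat_lit 71)) (X (nat_lit 80))) (Nat.add (Nat.mul (X (nat_lit 77)) (X (nat_lit 81))) (Nat.mul (X (nat_lit 86)) (X (nat_lit 80)))))) (Nat.mul (nat_lit 4) (Nat.add (Nat.mul (X (nat_lit 75)) (X (nat_lit 78))) (Nat.add (Nat.mul (X (nat_lit 75)) (X (nat_lit 79))) (Nat.add (Nat.mul (X (nat_lit 75)) (X (nat_lit 80))) (Nat.add (Nat.mul (X (nat_lit 75)) (X (nat_lit 81))) (Nat.add (Nat.mul (X (nat_lit 75)) (X (nat_lit 82))) (Nat.add (Nat.mul (X (nat_lit 77)) (X (nat_lit 78))) (Nat.add (Nat.mul (X (nat_lit 77)) (X (nat_lit 79))) (Nat.add (Nat.mul (X (nat_lit 77)) (X (nat_lit 80))) (Nat.mul (X (nat_lit 77)) (X (nat_lit 82))))))))))))))))) (.nd (nat_lit 73) (.nd (nat_lit 72) 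
 (.lf (.mk fun X => (Nat.mul (nat_lit 4) (Nat.mul (X (nat_lit 80)) (X (nat_lit 76)))))) 
 (.lf (.mk fun X => (Nat.add (Nat.mul (nat_lit 8) (Nat.add (Nat.mul (X (nat_lit 87)) (X (nat_lit 88))) (Nat.add (Nat.mul (X (nat_lit 87)) (X (nat_lit 90))) (Nat.add (Nat.mul (X (nat_lit 89)) (X (nat_lit 88))) (Nat.mul (X (nat_lit 89)) (X (nat_lit 90))))))) (Nat.mul (nat_lit 16) (Nat.add (Nat.mul (X (nat_lit 91)) (X (nat_lit 90))) (Nat.add (Nat.mul (X (nat_lit 92)) (X (nat_lit 93))) (Nat.mul (X (nat_lit 94)) (X (nat_lit 93)))))))))) (.nd (nat_lit 74) 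
 (.lf (.mk fun X => (Nat.add (Nat.mul (nat_lit 8) (Nat.add (Nat.mul (X (nat_lit 95)) (X (nat_lit 88))) (Nat.add (Nat.mul (X (nat_lit 95)) (X (nat_lit 90))) (Nat.add (Nat.mul (X (nat_lit 96)) (X (nat_lit 88))) (Nat.add (Nat.mul (X (nat_lit 96)) (X (nat_lit 90))) (Nat.add (Nat.mul (X (nat_lit 98)) (X (nat_lit 90))) (Nat.mul (X (nat_lit 100)) (X (nat_lit 90))))))))) (Nat.mul (nat_lit 16) (Nat.add (Nat.mul (X (nat_lit 97)) (X (nat_lit 90))) (Nat.mul (X (nat_lit 99)) (X (nat_lit 90)))))))) 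
 (.lf (.mk fun X => (Nat.add (Nat.mul (X (nat_lit 87)) (X (nat_lit 98))) (Nat.add (Nat.mul (nat_lit 4) (Nat.add (Nat.mul (X (nat_lit 87)) (X (nat_lit 95))) (Nat.add (Nat.mul (X (nat_lit 87)) (X (nat_lit 96))) (Nat.add (Nat.mul (X (nat_lit 89)) (X (nat_lit 95))) (Nat.add (Nat.mul (X (nat_lit 89)) (X (nat_lit 96))) (Nat.add (Nat.mul (X (nat_lit 94)) (X (nat_lit 97))) (Nat.add (Nat.mul (X (nat_lit 101)) (X (nat_lit 98))) (Nat.mul (X (nat_lit 102)) (X (nat_lit 100)))))))))) (Nat.mul (nat_lit 8) (Nat.add (Nat.mul (X (nat_lit 92)) (X (nat_lit 97))) (Nat.mul (X (nat_lit 92)) (X (nat_lit 99)))))))))))))) (.nd (nat_lit 87) (.nd (nat_lit 81) (.nd (nat_lit 78) (.nd (nat_lit 76) 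
 (.lf (.mk fun X => (Nat.add (Nat.mul (nat_lit 4) (Nat.add (Nat.mul (X (nat_lit 87)) (X (nat_lit 93))) (Nat.add (Nat.mul (X (nat_lit 94)) (X (nat_lit 88))) (Nat.mul (X (nat_lit 103)) (X (nat_lit 93)))))) (Nat.mul (nat_lit 8) (Nat.add (Nat.mul (X (nat_lit 87)) (X (nat_lit 90))) (Nat.add (Nat.mul (X (nat_lit 89)) (X (nat_lit 90))) (Nat.add (Nat.mul (X (nat_lit 91)) (X (nat_lit 90))) (Nat.add (Nat.mul (X (nat_lit 92)) (X (nat_lit 88))) (Nat.add (Nat.mul (X (nat_lit 92)) (X (nat_lit 93))) (Nat.mul (X (nat_lit 94)) (X (nat_lit 93)))))))))))) (.nd (nat_lit 77) 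
 (.lf (.mk fun X => (Nat.mul (nat_lit 8) (Nat.add (Nat.mul (X (nat_lit 95)) (X (nat_lit 93))) (Nat.add (Nat.mul (X (nat_lit 96)) (X (nat_lit 93))) (Nat.add (Nat.mul (X (nat_lit 97)) (X (nat_lit 88))) (Nat.add (Nat.mul (X (nat_lit 97)) (X (nat_lit 93))) (Nat.add (Nat.mul (X (nat_lit 98)) (X (nat_lit 93))) (Nat.add (Nat.mul (X (nat_lit 99)) (X (nat_lit 88))) (Nat.mul (X (nat_lit 99)) (X (nat_lit 93)))))))))))) 
 (.lf (.mk fun X => (Nat.add (Nat.mul (nat_lit 4) (Nat.add (Nat.mul (X (nat_lit 97)) (X (nat_lit 88))) (Nat.mul (X (nat_lit 98)) (X (nat_lit 93))))) (Nat.mul (nat_lit 8) (Nat.add (Nat.mul (X (nat_lit 95)) (X (nat_lit 93))) (Nat.add (Nat.mul (X (nat_lit 96)) (X (nat_lit 93))) (Nat.add (Nat.mul (X (nat_lit 97)) (X (nat_lit 93))) (Nat.mul (X (nat_lit 99)) (X (nat_lit 93)))))))))))) (.nd (nat_lit 79) 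
 (.lf (.mk fun X => (Nat.add (Nat.mul (nat_lit 2) (Nat.mul (X (nat_lit 87)) (X (nat_lit 88)))) (Nat.add (Nat.mul (nat_lit 8) (Nat.add (Nat.mul (X (nat_lit 87)) (X (nat_lit 90))) (Nat.add (Nat.mul (X (nat_lit 89)) (X (nat_lit 90))) (Nat.add (Nat.mul (X (nat_lit 94)) (X (nat_lit 93))) (Nat.mul (X (nat_lit 101)) (X (nat_lit 88))))))) (Nat.mul (nat_lit 16) (Nat.mul (X (nat_lit 92)) (X (nat_lit 93)))))))) (.nd (nat_lit 80) 
 (.lf (.mk fun X => (Nat.mul (nat_lit 8) (Nat.mul (X (nat_lit 98)) (X (nat_lit 88)))))) 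
 (.lf (.mk fun X => (Nat.mul (nat_lit 8) (Nat.add (Nat.mul (X (nat_lit 87)) (X (nat_lit 90))) (Nat.add (Nat.mul (X (nat_lit 89)) (X (nat_lit 90))) (Nat.add (Nat.mul (X (nat_lit 91)) (X (nat_lit 90))) (Nat.add (Nat.mul (X (nat_lit 92)) (X (nat_lit 88))) (Nat.add (Nat.mul (X (nat_lit 92)) (X (nat_lit 93))) (Nat.mul (X (nat_lit 94)) (X (nat_lit 93)))))))))))))) (.nd (nat_lit 84) (.nd (nat_lit 82) 
 (.lf (.mk fun X => (Nat.mul (nat_lit 8) (Nat.add (Nat.mul (X (nat_lit 87)) (X (nat_lit 90))) (Nat.add (Nat.mul (X (nat_lit 89)) (X (nat_lit 90))) (Nat.mul (X (nat_lit 102)) (X (nat_lit 88)))))))) (.nd (nat_lit 83) 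
 (.lf (.mk fun X => (Nat.mul (nat_lit 8) (Nat.mul (X (nat_lit 100)) (X (nat_lit 88)))))) 
 (.lf (.mk fun X => (Nat.add (Nat.mul (nat_lit 4) (Nat.add (Nat.mul (X (nat_lit 87)) (X (nat_lit 95))) (Nat.add (Nat.mul (X (nat_lit 87)) (X (nat_lit 96))) (Nat.add (Nat.mul (X (nat_lit 87)) (X (nat_lit 98))) (Nat.add (Nat.mul (X (nat_lit 87)) (X (nat_lit 100))) (Nat.add (Nat.mul (X (nat_lit 89)) (X (nat_lit 95))) (Nat.add (Nat.mul (X (nat_lit 89)) (X (nat_lit 96))) (Nat.add (Nat.mul (X (nat_lit 89)) (X (nat_lit 98))) (Nat.mul (X (nat_lit 89)) (X (nat_lit 100))))))))))) (Nat.mul (nat_lit 8) (Nat.add (Nat.mul (X (nat_lit 87)) (X (nat_lit 97))) (Nat.add (Nat.mul (X (nat_lit 87)) (X (nat_lit 99))) (Nat.add (Nat.mul (X (nat_lit 89)) (X (nat_lit 97))) (Nat.add (Nat.mul (X (nat_lit 89)) (X (nat_lit 99))) (Nat.add (Nat.mul (X (nat_lit 91)) (X (nat_lit 95))) (Nat.add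 (Nat.mul (X (nat_lit 91)) (X (nat_lit 96))) (Nat.add (Nat.mul (X (nat_lit 91)) (X (nat_lit 97))) (Nat.mul (X (nat_lit 91)) (X (nat_lit 99)))))))))))))))) (.nd (nat_lit 85) 
 (.lf (.mk fun X => (Nat.mul (nat_lit 8) (Nat.add (Nat.mul (X (nat_lit 95)) (X (nat_lit 90))) (Nat.add (Nat.mul (X (nat_lit 96)) (X (nat_lit 90))) (Nat.add (Nat.mul (X (nat_lit 97)) (X (nat_lit 90))) (Nat.mul (X (nat_lit 99)) (X (nat_lit 90))))))))) (.nd (nat_lit 86) 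
 (.lf (.mk fun X => (Nat.add (Nat.mul (nat_lit 2) (Nat.add (Nat.mul (X (nat_lit 87)) (X (nat_lit 97))) (Nat.add (Nat.mul (X (nat_lit 94)) (X (nat_lit 98))) (Nat.mul (X (nat_lit 103)) (X (nat_lit 97)))))) (Nat.mul (nat_lit 4) (Nat.add (Nat.mul (X (nat_lit 92)) (X (nat_lit 95))) (Nat.add (Nat.mul (X (nat_lit 92)) (X (nat_lit 96))) (Nat.add (Nat.mul (X (nat_lit 92)) (X (nat_lit 97))) (Nat.add (Nat.mul (X (nat_lit 92)) (X (nat_lit 98))) (Nat.add (Nat.mul (X (nat_lit 92)) (X (nat_lit 99))) (Nat.add (Nat.mul (X (nat_lit 94)) (X (nat_lit 95))) (Nat.add (Nat.mul (X (nat_lit 94)) (X (nat_lit 96))) (Nat.add (Nat.mul (X (nat_lit 94)) (X (nat_lit 97))) (Nat.mul (X (nat_lit 94)) (X (nat_lit 99))))))))))))))) 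
 (.lf (.mk fun X => (Nat.mul (nat_lit 4) (Nat.mul (X (nat_lit 97)) (X (nat_lit 93)))))))))) (.nd (nat_lit 93) (.nd (nat_lit 90) (.nd (nat_lit 88) 
 (.lf (.mk fun X => (Nat.add (Nat.mul (nat_lit 8) (Nat.mul (X (nat_lit 104)) (X (nat_lit 105)))) (Nat.mul (nat_lit 16) (Nat.add (Nat.mul (X (nat_lit 106)) (X (nat_lit 105))) (Nat.add (Nat.mul (X (nat_lit 107)) (X (nat_lit 108))) (Nat.mul (X (nat_lit 109)) (X (nat_lit 108))))))))) (.nd (nat_lit 89) 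
 (.lf (.mk fun X => (Nat.add (Nat.mul (nat_lit 8) (Nat.add (Nat.mul (X (nat_lit 110)) (X (nat_lit 105))) (Nat.add (Nat.mul (X (nat_lit 111)) (X (nat_lit 105))) (Nat.mul (X (nat_lit 114)) (X (nat_lit 105)))))) (Nat.mul (nat_lit 16) (Nat.add (Nat.mul (X (nat_lit 112)) (X (nat_lit 105))) (Nat.mul (X (nat_lit 113)) (X (nat_lit 105)))))))) 
 (.lf (.mk fun X => (Nat.add (Nat.mul (nat_lit 4) (Nat.add (Nat.mul (X (nat_lit 104)) (X (nat_lit 110))) (Nat.add (Nat.mul (X (nat_lit 104)) (X (nat_lit 111))) (Nat.add (Nat.mul (X (nat_lit 109)) (X (nat_lit 112))) (Nat.mul (X (nat_lit 116)) (X (nat_lit 114))))))) (Nat.mul (nat_lit 8) (Nat.add (Nat.mul (X (nat_lit 107)) (X (nat_lit 112))) (Nat.mul (X (nat_lit 107)) (X (nat_lit 113)))))))))) (.nd (nat_lit 91) 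
 (.lf (.mk fun X => (Nat.add (Nat.mul (nat_lit 4) (Nat.mul (X (nat_lit 117)) (X (nat_lit 108)))) (Nat.mul (nat_lit 8) (Nat.add (Nat.mul (X (nat_lit 104)) (X (nat_lit 105))) (Nat.add (Nat.mul (X (nat_lit 106)) (X (nat_lit 105))) (Nat.add (Nat.mul (X (nat_lit 107)) (X (nat_lit 108))) (Nat.mul (X (nat_lit 109)) (X (nat_lit 108)))))))))) (.nd (nat_lit 92) 
 (.lf (.mk fun X => (Nat.mul (nat_lit 8) (Nat.add (Nat.mul (X (nat_lit 110)) (X (nat_lit 108))) (Nat.add (Nat.mul (X (nat_lit 111)) (X (nat_lit 108))) (Nat.add (Nat.mul (X (nat_lit 112)) (X (nat_lit 108))) (Nat.mul (X (nat_lit 113)) (X (nat_lit 108))))))))) 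
 (.lf (.mk fun X => (Nat.mul (nat_lit 8) (Nat.add (Nat.mul (X (nat_lit 110)) (X (nat_lit 108))) (Nat.add (Nat.mul (X (nat_lit 111)) (X (nat_lit 108))) (Nat.add (Nat.mul (X (nat_lit 112)) (X (nat_lit 108))) (Nat.mul (X (nat_lit 113)) (X (nat_lit 108)))))))))))) (.nd (nat_lit 96) (.nd (nat_lit 94) 
 (.lf (.mk fun X => (Nat.add (Nat.mul (nat_lit 8) (Nat.add (Nat.mul (X (nat_lit 104)) (X (nat_lit 105))) (Nat.mul (X (nat_lit 109)) (X (nat_lit 108))))) (Nat.mul (nat_lit 16) (Nat.mul (X (nat_lit 107)) (X (nat_lit 108))))))) (.nd (nat_lit 95) 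
 (.lf (.mk fun X => (Nat.mul (nat_lit 8) (Nat.add (Nat.mul (X (nat_lit 104)) (X (nat_lit 105))) (Nat.add (Nat.mul (X (nat_lit 106)) (X (nat_lit 105))) (Nat.add (Nat.mul (X (nat_lit 107)) (X (nat_lit 108))) (Nat.mul (X (nat_lit 109)) (X (nat_lit 108))))))))) 
 (.lf (.mk fun X => (Nat.mul (nat_lit 8) (Nat.mul (X (nat_lit 104)) (X (nat_lit 105)))))))) (.nd (nat_lit 98) (.nd (nat_lit 97) 
 (.lf (.mk fun X => (Nat.add (Nat.mul (nat_lit 4) (Nat.add (Nat.mul (X (nat_lit 104)) (X (nat_lit 110))) (Nat.add (Nat.mul (X (nat_lit 104)) (X (nat_lit 111))) (Nat.mul (X (nat_lit 104)) (X (nat_lit 114)))))) (Nat.mul (nat_lit 8) (Nat.add (Nat.mul (X (nat_lit 104)) (X (nat_lit 112))) (Nat.add (Nat.mul (X (nat_lit 104)) (X (nat_lit 113))) (Nat.add (Nat.mul (X (nat_lit 106)) (X (nat_lit 110))) (Nat.add (Nat.mul (X (nat_lit 106)) (X (nat_lit 111))) (Nat.add (Nat.mul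 (X (nat_lit 106)) (X (nat_lit 112))) (Nat.mul (X (nat_lit 106)) (X (nat_lit 113)))))))))))) 
 (.lf (.mk fun X => (Nat.mul (nat_lit 8) (Nat.add (Nat.mul (X (nat_lit 110)) (X (nat_lit 105))) (Nat.add (Nat.mul (X (nat_lit 111)) (X (nat_lit 105))) (Nat.add (Nat.mul (X (nat_lit 112)) (X (nat_lit 105))) (Nat.mul (X (nat_lit 113)) (X (nat_lit 105)))))))))) (.nd (nat_lit 99) 
 (.lf (.mk fun X => (Nat.add (Nat.mul (nat_lit 2) (Nat.mul (X (nat_lit 117)) (X (nat_lit 112)))) (Nat.mul (nat_lit 4) (Nat.add (Nat.mul (X (nat_lit 107)) (X (nat_lit 110))) (Nat.add (Nat.mul (X (nat_lit 107)) (X (nat_lit 111))) (Nat.add (Nat.mul (X (nat_lit 107)) (X (nat_lit 112))) (Nat.add (Nat.mul (X (nat_lit 107)) (X (nat_lit 113))) (Nat.add (Nat.mul (X (nat_lit 109)) (X (nat_lit 110))) (Nat.add (Nat.mul (X (nat_lit 109)) (X (nat_lit 111))) (Nat.add (Nat.mul (X (nat_lit 109))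 (X (nat_lit 112))) (Nat.mul (X (nat_lit 109)) (X (nat_lit 113)))))))))))))) 
 (.lf (.mk fun X => (Nat.mul (nat_lit 4) (Nat.mul (X (nat_lit 112)) (X (nat_lit 108)))))))))))))

noncomputable def gwT : Tb B3 := (.nd (nat_lit 177) (.nd (nat_lit 88) (.nd (nat_lit 44) (.nd (nat_lit 22) (.nd (nat_lit 11) (.nd (nat_lit 5) (.nd (nat_lit 2) (.nd (nat_lit 1) 
 (.lf (.mk fun X _ H => (Nat.add (Nat.mul (X (nat_lit 1)) (Nat.mul (nat_lit 8) (H (nat_lit 0)))) (Nat.mul (X (nat_lit 3)) (Nat.mul (nat_lit 4) (H (nat_lit 1))))))) 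
 (.lf (.mk fun X _ H => (Nat.add (Nat.mul (X (nat_lit 0)) (Nat.mul (nat_lit 8) (H (nat_lit 0)))) (Nat.add (Nat.mul (X (nat_lit 2)) (Nat.mul (nat_lit 8) (H (nat_lit 0)))) (Nat.mul (X (nat_lit 3)) (Nat.mul (nat_lit 8) (H (nat_lit 2))))))))) (.nd (nat_lit 3) 
 (.lf (.mk fun X _ H => (Nat.add (Nat.mul (X (nat_lit 1)) (Nat.mul (nat_lit 8) (H (nat_lit 0)))) (Nat.mul (X (nat_lit 3)) (Nat.mul (nat_lit 4) (H (nat_lit 1))))))) (.nd (nat_lit 4) 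
 (.lf (.mk fun X _ H => (Nat.add (Nat.mul (X (nat_lit 0)) (Nat.mul (nat_lit 4) (H (nat_lit 1)))) (Nat.add (Nat.mul (X (nat_lit 2)) (Nat.mul (nat_lit 4) (H (nat_lit 1)))) (Nat.mul (X (nat_lit 1)) (Nat.mul (nat_lit 8) (H (nat_lit 2)))))))) 
 (.lf (.mk fun _ _ _ => nat_lit 0))))) (.nd (nat_lit 8) (.nd (nat_lit 6) 
 (.lf (.mk fun X Q H => (Nat.add (Nat.mul (X (nat_lit 7)) (Nat.add (Nat.mul (nat_lit 8) (H (nat_lit 3))) (Nat.add (Nat.mul (nat_lit 8) (H (nat_lit 6))) (Nat.add (Nat.mul (nat_lit 8) (H (nat_lit 9))) (Nat.add (Nat.mul (nat_lit 8) (H (nat_lit 10))) (Nat.mul (nat_lit 8) (H (nat_lit 11)))))))) (Nat.add (Nat.mul (X (nat_lit 10)) (Nat.mul (nat_lit 4) (Q (nat_lit 6)))) (Nat.add (Nat.mul (X (nat_lit 12)) (Nat.add (Nat.mul (nat_lit 4) (H (nat_lit 5))) (Nat.mul (nat_lit 4) (H (nat_lit 12))))) (Nat.add (Nat.mul (X (nat_lit 13)) (Nat.add (Nat.mul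 (nat_lit 4) (H (nat_lit 5))) (Nat.mul (nat_lit 4) (H (nat_lit 12))))) (Nat.add (Nat.mul (X (nat_lit 14)) (Nat.add (Nat.mul (nat_lit 8) (H (nat_lit 12))) (Nat.mul (nat_lit 2) (Q (nat_lit 14))))) (Nat.add (Nat.mul (X (nat_lit 15)) (Nat.add (H (nat_lit 5)) (Nat.mul (nat_lit 4) (H (nat_lit 12))))) (Nat.add (Nat.mul (X (nat_lit 16)) (Nat.mul (nat_lit 8) (H (nat_lit 12)))) (Nat.mul (X (nat_lit 17)) (Nat.mul (nat_lit 4) (H (nat_lit 12))))))))))))) (.nd (nat_lit 7) 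
 (.lf (.mk fun X _ H => (Nat.add (Nat.mul (X (nat_lit 7)) (Nat.add (Nat.mul (nat_lit 8) (H (nat_lit 3))) (Nat.add (Nat.mul (nat_lit 8) (H (nat_lit 6))) (Nat.add (Nat.mul (nat_lit 8) (H (nat_lit 9))) (Nat.add (Nat.mul (nat_lit 8) (H (nat_lit 10))) (Nat.mul (nat_lit 8) (H (nat_lit 11)))))))) (Nat.add (Nat.mul (X (nat_lit 12)) (Nat.add (Nat.mul (nat_lit 4) (H (nat_lit 5))) (Nat.mul (nat_lit 4) (H (nat_lit 12))))) (Nat.add (Nat.mul (X (nat_lit 13)) (Nat.add (Nat.mul (nat_lit 4) (H (nat_lit 5))) (Nat.mul (nat_lit 4) (H (nat_lit 12))))) (Nat.add (Nat.mul (X (nat_lit 14)) (Nat.mul (nat_lit 8) (H (nat_lit 12)))) (Nat.add (Nat.mul (X (nat_lit 15)) (Nat.mul (nat_lit 4) (H (nat_lit 12)))) (Nat.add (Nat.mul (X (nat_lit 16)) (Nat.mul (nat_lit 8) (H (nat_lit 12)))) (Nat.mul (X (nat_lit 17)) (Nat.mul (nat_lit 4) (H (nat_lit 12)))))))))))) 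
 (.lf (.mk fun X _ H => (Nat.add (Nat.mul (X (nat_lit 5)) (Nat.add (Nat.mul (nat_lit 8) (H (nat_lit 3))) (Nat.add (Nat.mul (nat_lit 8) (H (nat_lit 6))) (Nat.add (Nat.mul (nat_lit 8) (H (nat_lit 9))) (Nat.add (Nat.mul (nat_lit 8) (H (nat_lit 10))) (Nat.mul (nat_lit 8) (H (nat_lit 11)))))))) (Nat.add (Nat.mul (X (nat_lit 6)) (Nat.add (Nat.mul (nat_lit 8) (H (nat_lit 3))) (Nat.add (Nat.mul (nat_lit 8) (H (nat_lit 6))) (Nat.add (Nat.mul (nat_lit 8) (H (nat_lit 9))) (Nat.add (Nat.mul (nat_lit 8) (H (nat_lit 10))) (Nat.mul (nat_lit 8) (H (nat_lit 11)))))))) (Nat.add (Nat.mul (X (nat_lit 8)) (Nat.add (Nat.mul (nat_lit 16) (H (nat_lit 3))) (Nat.add (Nat.mul (nat_lit 8) (H (nat_lit 6))) (Nat.mul (nat_lit 8) (H (nat_lit 10)))))) (Nat.add (Nat.mul (X (nat_lit 12)) (Nat.add (Nat.mul (nat_lit 8) (H (nat_lit 4))) (Nat.mul (nat_lit 8) (H (nat_lit 13)))))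 (Nat.add (Nat.mul (X (nat_lit 13)) (Nat.add (Nat.mul (nat_lit 8) (H (nat_lit 4))) (Nat.mul (nat_lit 8) (H (nat_lit 13))))) (Nat.add (Nat.mul (X (nat_lit 14)) (Nat.add (Nat.mul (nat_lit 16) (H (nat_lit 4))) (Nat.mul (nat_lit 8) (H (nat_lit 13))))) (Nat.add (Nat.mul (X (nat_lit 15)) (Nat.mul (nat_lit 8) (H (nat_lit 4)))) (Nat.add (Nat.mul (X (nat_lit 16)) (Nat.add (Nat.mul (nat_lit 16) (H (nat_lit 4))) (Nat.mul (nat_lit 8) (H (nat_lit 13))))) (Nat.mul (X (nat_lit 17)) (Nat.mul (nat_lit 8) (H (nat_lit 4)))))))))))))))) (.nd (nat_lit 9) 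
 (.lf (.mk fun X _ H => (Nat.add (Nat.mul (X (nat_lit 7)) (Nat.add (Nat.mul (nat_lit 16) (H (nat_lit 3))) (Nat.add (Nat.mul (nat_lit 8) (H (nat_lit 6))) (Nat.mul (nat_lit 8) (H (nat_lit 10)))))) (Nat.add (Nat.mul (X (nat_lit 12)) (Nat.mul (nat_lit 8) (H (nat_lit 12)))) (Nat.add (Nat.mul (X (nat_lit 13)) (Nat.mul (nat_lit 8) (H (nat_lit 12)))) (Nat.add (Nat.mul (X (nat_lit 14)) (Nat.mul (nat_lit 8) (H (nat_lit 12)))) (Nat.mul (X (nat_lit 16)) (Nat.mul (nat_lit 8) (H (nat_lit 12)))))))))) (.nd (nat_lit 10) 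
 (.lf (.mk fun X _ H => (Nat.add (Nat.mul (X (nat_lit 10)) (Nat.add (Nat.mul (nat_lit 16) (H (nat_lit 3))) (Nat.add (Nat.mul (nat_lit 8) (H (nat_lit 6))) (Nat.add (Nat.mul (nat_lit 16) (H (nat_lit 9))) (Nat.mul (nat_lit 8) (H (nat_lit 10))))))) (Nat.add (Nat.mul (X (nat_lit 12)) (Nat.mul (nat_lit 4) (H (nat_lit 14)))) (Nat.add (Nat.mul (X (nat_lit 13)) (Nat.mul (nat_lit 4) (H (nat_lit 14)))) (Nat.add (Nat.mul (X (nat_lit 14)) (Nat.add (Nat.mul (nat_lit 8) (H (nat_lit 5))) (Nat.mul (nat_lit 4) (H (nat_lit 14))))) (Nat.add (Nat.mul (X (nat_lit 15)) (Nat.mul (nat_lit 4) (H (nat_lit 14)))) (Nat.mul (X (nat_lit 16)) (Nat.add (Nat.mul (nat_lit 8) (H (nat_lit 5))) (Nat.mul (nat_lit 4) (H (nat_lit 14)))))))))))) 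
 (.lf (.mk fun X Q H => (Nat.add (Nat.mul (X (nat_lit 5)) (Nat.mul (nat_lit 4) (Q (nat_lit 6)))) (Nat.add (Nat.mul (X (nat_lit 9)) (Nat.add (Nat.mul (nat_lit 16) (H (nat_lit 3))) (Nat.add (Nat.mul (nat_lit 8) (H (nat_lit 6))) (Nat.add (Nat.mul (nat_lit 16) (H (nat_lit 9))) (Nat.mul (nat_lit 8) (H (nat_lit 10))))))) (Nat.add (Nat.mul (X (nat_lit 11)) (Nat.add (Nat.mul (nat_lit 16) (H (nat_lit 3))) (Nat.add (Nat.mul (nat_lit 8) (Q (nat_lit 6))) (Nat.add (Nat.mul (nat_lit 8) (H (nat_lit 9))) (Nat.mul (nat_lit 8) (H (nat_lit 10))))))) (Nat.add (Nat.mul (X (nat_lit 12)) (Nat.add (Nat.mul (nat_lit 8) (H (nat_lit 7))) (Nat.mul (nat_lit 8) (H (nat_lit 8))))) (Nat.add (Nat.mul (X (nat_lit 13)) (Nat.add (Nat.mul (nat_lit 8) (H (nat_lit 7))) (Nat.mul (nat_lit 8) (H (nat_lit 8))))) (Nat.add (Nat.mul (X (nat_lit 14)) (Nat.add (Nat.mul (nat_lit 8) (H (nat_lit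 7))) (Nat.add (Nat.mul (nat_lit 8) (Q (nat_lit 8))) (Nat.mul (nat_lit 4) (Q (nat_lit 15)))))) (Nat.add (Nat.mul (X (nat_lit 15)) (Nat.add (Nat.mul (nat_lit 8) (H (nat_lit 7))) (Nat.mul (nat_lit 4) (H (nat_lit 8))))) (Nat.add (Nat.mul (X (nat_lit 16)) (Nat.add (Nat.mul (nat_lit 8) (H (nat_lit 7))) (Nat.mul (nat_lit 8) (H (nat_lit 8))))) (Nat.mul (X (nat_lit 20)) (Nat.mul (nat_lit 4) (Q (nat_lit 6)))))))))))))))))) (.nd (nat_lit 16) (.nd (nat_lit 13) (.nd (nat_lit 12) 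
 (.lf (.mk fun X Q H => (Nat.add (Nat.mul (X (nat_lit 10)) (Nat.add (Nat.mul (nat_lit 16) (H (nat_lit 3))) (Nat.add (Nat.mul (nat_lit 8) (Q (nat_lit 6))) (Nat.add (Nat.mul (nat_lit 8) (H (nat_lit 9))) (Nat.mul (nat_lit 8) (H (nat_lit 10))))))) (Nat.add (Nat.mul (X (nat_lit 12)) (Nat.mul (nat_lit 4) (H (nat_lit 14)))) (Nat.add (Nat.mul (X (nat_lit 13)) (Nat.mul (nat_lit 4) (H (nat_lit 14)))) (Nat.add (Nat.mul (X (nat_lit 14)) (Nat.add (Nat.mul (nat_lit 4) (H (nat_lit 5))) (Nat.mul (nat_lit 4) (Q (nat_lit 14))))) (Nat.add (Nat.mul (X (nat_lit 15)) (Nat.mul (nat_lit 2) (H (nat_lit 14)))) (Nat.mul (X (nat_lit 16)) (Nat.mul (nat_lit 4) (H (nat_lit 14))))))))))) 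
 (.lf (.mk fun X _ H => (Nat.add (Nat.mul (X (nat_lit 5)) (Nat.add (Nat.mul (nat_lit 4) (H (nat_lit 5))) (Nat.mul (nat_lit 4) (H (nat_lit 12))))) (Nat.add (Nat.mul (X (nat_lit 6)) (Nat.add (Nat.mul (nat_lit 4) (H (nat_lit 5))) (Nat.mul (nat_lit 4) (H (nat_lit 12))))) (Nat.add (Nat.mul (X (nat_lit 8)) (Nat.mul (nat_lit 8) (H (nat_lit 12)))) (Nat.add (Nat.mul (X (nat_lit 9)) (Nat.mul (nat_lit 4) (H (nat_lit 14)))) (Nat.add (Nat.mul (X (nat_lit 11)) (Nat.mul (nat_lit 4) (H (nat_lit 14)))) (Nat.add (Nat.mul (X (nat_lit 7)) (Nat.add (Nat.mul (nat_lit 8) (H (nat_lit 4))) (Nat.mul (nat_lit 8) (H (nat_lit 13))))) (Nat.mul (X (nat_lit 10)) (Nat.add (Nat.mul (nat_lit 8) (H (nat_lit 7))) (Nat.mul (nat_lit 8) (H (nat_lit 8)))))))))))))) (.nd (nat_lit 14) 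
 (.lf (.mk fun X _ H => (Nat.add (Nat.mul (X (nat_lit 5)) (Nat.add (Nat.mul (nat_lit 4) (H (nat_lit 5))) (Nat.mul (nat_lit 4) (H (nat_lit 12))))) (Nat.add (Nat.mul (X (nat_lit 6)) (Nat.add (Nat.mul (nat_lit 4) (H (nat_lit 5))) (Nat.mul (nat_lit 4) (H (nat_lit 12))))) (Nat.add (Nat.mul (X (nat_lit 8)) (Nat.mul (nat_lit 8) (H (nat_lit 12)))) (Nat.add (Nat.mul (X (nat_lit 9)) (Nat.mul (nat_lit 4) (H (nat_lit 14)))) (Nat.add (Nat.mul (X (nat_lit 11)) (Nat.mul (nat_lit 4) (H (nat_lit 14)))) (Nat.add (Nat.mul (X (nat_lit 7)) (Nat.add (Nat.mul (nat_lit 8) (H (nat_lit 4))) (Nat.mul (nat_lit 8) (H (nat_lit 13))))) (Nat.mul (X (nat_lit 10)) (Nat.add (Nat.mul (nat_lit 8) (H (nat_lit 7))) (Nat.mul (nat_lit 8) (H (nat_lit 8))))))))))))) (.nd (nat_lit 15) 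
 (.lf (.mk fun X Q H => (Nat.add (Nat.mul (X (nat_lit 5)) (Nat.add (Nat.mul (nat_lit 8) (H (nat_lit 12))) (Nat.mul (nat_lit 2) (Q (nat_lit 14))))) (Nat.add (Nat.mul (X (nat_lit 6)) (Nat.mul (nat_lit 8) (H (nat_lit 12)))) (Nat.add (Nat.mul (X (nat_lit 8)) (Nat.mul (nat_lit 8) (H (nat_lit 12)))) (Nat.add (Nat.mul (X (nat_lit 9)) (Nat.add (Nat.mul (nat_lit 8) (H (nat_lit 5))) (Nat.mul (nat_lit 4) (H (nat_lit 14))))) (Nat.add (Nat.mul (X (nat_lit 11)) (Nat.add (Nat.mul (nat_lit 4) (H (nat_lit 5))) (Nat.mul (nat_lit 4) (Q (nat_lit 14))))) (Nat.add (Nat.mul (X (nat_lit 7)) (Nat.add (Nat.mul (nat_lit 16) (H (nat_lit 4))) (Nat.mul (nat_lit 8) (H (nat_lit 13))))) (Nat.add (Nat.mul (X (nat_lit 10)) (Nat.add (Nat.mul (nat_lit 8) (H (nat_lit 7))) (Nat.add (Nat.mul (nat_lit 8) (Q (nat_lit 8))) (Nat.mul (nat_lit 4) (Q (nat_lit 15)))))) (Nat.mul (X (nat_lit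 20)) (Nat.mul (nat_lit 2) (Q (nat_lit 14))))))))))))) 
 (.lf (.mk fun X _ H => (Nat.add (Nat.mul (X (nat_lit 5)) (Nat.add (H (nat_lit 5)) (Nat.mul (nat_lit 4) (H (nat_lit 12))))) (Nat.add (Nat.mul (X (nat_lit 6)) (Nat.mul (nat_lit 4) (H (nat_lit 12)))) (Nat.add (Nat.mul (X (nat_lit 9)) (Nat.mul (nat_lit 4) (H (nat_lit 14)))) (Nat.add (Nat.mul (X (nat_lit 11)) (Nat.mul (nat_lit 2) (H (nat_lit 14)))) (Nat.add (Nat.mul (X (nat_lit 7)) (Nat.mul (nat_lit 8) (H (nat_lit 4)))) (Nat.add (Nat.mul (X (nat_lit 10)) (Nat.add (Nat.mul (nat_lit 8) (H (nat_lit 7))) (Nat.mul (nat_lit 4) (H (nat_lit 8))))) (Nat.mul (X (nat_lit 18)) (Nat.mul (nat_lit 4) (H (nat_lit 5))))))))))))))) (.nd (nat_lit 19) (.nd (nat_lit 17) 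
 (.lf (.mk fun X _ H => (Nat.add (Nat.mul (X (nat_lit 5)) (Nat.mul (nat_lit 8) (H (nat_lit 12)))) (Nat.add (Nat.mul (X (nat_lit 6)) (Nat.mul (nat_lit 8) (H (nat_lit 12)))) (Nat.add (Nat.mul (X (nat_lit 8)) (Nat.mul (nat_lit 8) (H (nat_lit 12)))) (Nat.add (Nat.mul (X (nat_lit 9)) (Nat.add (Nat.mul (nat_lit 8) (H (nat_lit 5))) (Nat.mul (nat_lit 4) (H (nat_lit 14))))) (Nat.add (Nat.mul (X (nat_lit 11)) (Nat.mul (nat_lit 4) (H (nat_lit 14)))) (Nat.add (Nat.mul (X (nat_lit 7)) (Nat.add (Nat.mul (nat_lit 16) (H (nat_lit 4))) (Nat.mul (nat_lit 8) (H (nat_lit 13))))) (Nat.mul (X (nat_lit 10)) (Nat.add (Nat.mul (nat_lit 8) (H (nat_lit 7))) (Nat.mul (nat_lit 8) (H (nat_lit 8))))))))))))) (.nd (nat_lit 18) 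
 (.lf (.mk fun X _ H => (Nat.add (Nat.mul (X (nat_lit 5)) (Nat.mul (nat_lit 4) (H (nat_lit 12)))) (Nat.add (Nat.mul (X (nat_lit 6)) (Nat.mul (nat_lit 4) (H (nat_lit 12)))) (Nat.add (Nat.mul (X (nat_lit 7)) (Nat.mul (nat_lit 8) (H (nat_lit 4)))) (Nat.mul (X (nat_lit 19)) (Nat.mul (nat_lit 4) (H (nat_lit 5))))))))) 
 (.lf (.mk fun X _ H => (Nat.mul (X (nat_lit 15)) (Nat.mul (nat_lit 4) (H (nat_lit 5)))))))) (.nd (nat_lit 20) 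
 (.lf (.mk fun X _ H => (Nat.mul (X (nat_lit 17)) (Nat.mul (nat_lit 4) (H (nat_lit 5)))))) (.nd (nat_lit 21) 
 (.lf (.mk fun X Q _ => (Nat.add (Nat.mul (X (nat_lit 10)) (Nat.mul (nat_lit 4) (Q (nat_lit 6)))) (Nat.mul (X (nat_lit 14)) (Nat.mul (nat_lit 2) (Q (nat_lit 14))))))) 
 (.lf (.mk fun X Q H => (Nat.add (Nat.mul (X (nat_lit 22)) (Nat.add (Nat.mul (nat_lit 8) (H (nat_lit 16))) (Nat.mul (nat_lit 2) (H (nat_lit 22))))) (Nat.add (Nat.mul (X (nat_lit 24)) (Nat.add (Nat.mul (nat_lit 8) (H (nat_lit 16))) (Nat.add (Nat.mul (nat_lit 8) (H (nat_lit 19))) (Nat.add (Nat.mul (nat_lit 8) (H (nat_lit 22))) (Nat.add (Nat.mul (nat_lit 8) (H (nat_lit 24))) (Nat.mul (nat_lit 8) (H (nat_lit 25)))))))) (Nat.add (Nat.mul (X (nat_lit 27)) (Nat.mul (nat_lit 4) (Q (nat_lit 19)))) (Nat.add (Nat.mul (X (nat_lit 29)) (Nat.add (Nat.mul (nat_lit 4) (H (nat_lit 18)))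 (Nat.mul (nat_lit 4) (H (nat_lit 27))))) (Nat.add (Nat.mul (X (nat_lit 30)) (Nat.add (Nat.mul (nat_lit 4) (H (nat_lit 18))) (Nat.mul (nat_lit 4) (H (nat_lit 27))))) (Nat.add (Nat.mul (X (nat_lit 31)) (Nat.add (Nat.mul (nat_lit 8) (H (nat_lit 27))) (Nat.mul (nat_lit 2) (Q (nat_lit 29))))) (Nat.add (Nat.mul (X (nat_lit 32)) (Nat.add (H (nat_lit 18)) (Nat.mul (nat_lit 4) (H (nat_lit 27))))) (Nat.add (Nat.mul (X (nat_lit 33)) (Nat.mul (nat_lit 8) (H (nat_lit 27)))) (Nat.mul (X (nat_lit 34)) (Nat.mul (nat_lit 4) (H (nat_lit 27))))))))))))))))))) (.nd (nat_lit 33) (.nd (nat_lit 27) (.nd (nat_lit 24) (.nd (nat_lit 23) 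
 (.lf (.mk fun X _ H => (Nat.add (Nat.mul (X (nat_lit 21)) (Nat.add (Nat.mul (nat_lit 8) (H (nat_lit 16))) (Nat.mul (nat_lit 2) (H (nat_lit 22))))) (Nat.add (Nat.mul (X (nat_lit 23)) (Nat.mul (nat_lit 8) (H (nat_lit 16)))) (Nat.add (Nat.mul (X (nat_lit 26)) (Nat.add (Nat.mul (nat_lit 8) (H (nat_lit 19))) (Nat.mul (nat_lit 8) (H (nat_lit 24))))) (Nat.add (Nat.mul (X (nat_lit 28)) (Nat.mul (nat_lit 4) (H (nat_lit 19)))) (Nat.add (Nat.mul (X (nat_lit 29)) (Nat.mul (nat_lit 8) (H (nat_lit 17)))) (Nat.add (Nat.mul (X (nat_lit 30)) (Nat.mul (nat_lit 8) (H (nat_lit 17)))) (Nat.add (Nat.mul (X (nat_lit 31)) (Nat.add (Nat.mul (nat_lit 8) (H (nat_lit 20))) (Nat.mul (nat_lit 4) (H (nat_lit 21))))) (Nat.add (Nat.mul (X (nat_lit 32)) (Nat.mul (nat_lit 8) (H (nat_lit 23)))) (Nat.add (Nat.mul (X (nat_lit 33)) (Nat.mul (nat_lit 8) (H (nat_lit 20)))) (Nat.add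 (Nat.mul (X (nat_lit 34)) (Nat.mul (nat_lit 8) (H (nat_lit 26)))) (Nat.add (Nat.mul (X (nat_lit 35)) (Nat.mul (nat_lit 8) (H (nat_lit 22)))) (Nat.mul (X (nat_lit 36)) (Nat.mul (nat_lit 8) (H (nat_lit 25))))))))))))))))) 
 (.lf (.mk fun X _ H => (Nat.add (Nat.mul (X (nat_lit 22)) (Nat.mul (nat_lit 8) (H (nat_lit 16)))) (Nat.add (Nat.mul (X (nat_lit 24)) (Nat.add (Nat.mul (nat_lit 8) (H (nat_lit 16))) (Nat.add (Nat.mul (nat_lit 8) (H (nat_lit 19))) (Nat.add (Nat.mul (nat_lit 8) (H (nat_lit 22))) (Nat.add (Nat.mul (nat_lit 8) (H (nat_lit 24))) (Nat.mul (nat_lit 8) (H (nat_lit 25)))))))) (Nat.add (Nat.mul (X (nat_lit 29)) (Nat.add (Nat.mul (nat_lit 4) (H (nat_lit 18))) (Nat.mul (nat_lit 4) (H (nat_lit 27))))) (Nat.add (Nat.mul (X (nat_lit 30)) (Nat.add (Nat.mul (nat_lit 4) (H (nat_lit 18))) (Nat.mul (nat_lit 4) (H (nat_lit 27))))) (Nat.add (Nat.mul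 (X (nat_lit 31)) (Nat.mul (nat_lit 8) (H (nat_lit 27)))) (Nat.add (Nat.mul (X (nat_lit 32)) (Nat.mul (nat_lit 4) (H (nat_lit 27)))) (Nat.add (Nat.mul (X (nat_lit 33)) (Nat.mul (nat_lit 8) (H (nat_lit 27)))) (Nat.mul (X (nat_lit 34)) (Nat.mul (nat_lit 4) (H (nat_lit 27)))))))))))))) (.nd (nat_lit 25) 
 (.lf (.mk fun X _ H => (Nat.add (Nat.mul (X (nat_lit 21)) (Nat.add (Nat.mul (nat_lit 8) (H (nat_lit 16))) (Nat.add (Nat.mul (nat_lit 8) (H (nat_lit 19))) (Nat.add (Nat.mul (nat_lit 8) (H (nat_lit 22))) (Nat.add (Nat.mul (nat_lit 8) (H (nat_lit 24))) (Nat.mul (nat_lit 8) (H (nat_lit 25)))))))) (Nat.add (Nat.mul (X (nat_lit 23)) (Nat.add (Nat.mul (nat_lit 8) (H (nat_lit 16))) (Nat.add (Nat.mul (nat_lit 8) (H (nat_lit 19))) (Nat.add (Nat.mul (nat_lit 8) (H (nat_lit 22))) (Nat.add (Nat.mul (nat_lit 8) (H (nat_lit 24))) (Nat.mul (nat_lit 8) (H (nat_lit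 25)))))))) (Nat.add (Nat.mul (X (nat_lit 25)) (Nat.add (Nat.mul (nat_lit 16) (H (nat_lit 16))) (Nat.add (Nat.mul (nat_lit 8) (H (nat_lit 19))) (Nat.mul (nat_lit 8) (H (nat_lit 24)))))) (Nat.add (Nat.mul (X (nat_lit 29)) (Nat.add (Nat.mul (nat_lit 8) (H (nat_lit 17))) (Nat.mul (nat_lit 8) (H (nat_lit 28))))) (Nat.add (Nat.mul (X (nat_lit 30)) (Nat.add (Nat.mul (nat_lit 8) (H (nat_lit 17))) (Nat.mul (nat_lit 8) (H (nat_lit 28))))) (Nat.add (Nat.mul (X (nat_lit 31)) (Nat.add (Nat.mul (nat_lit 16) (H (nat_lit 17))) (Nat.mul (nat_lit 8) (H (nat_lit 28))))) (Nat.add (Nat.mul (X (nat_lit 32)) (Nat.mul (nat_lit 8) (H (nat_lit 17)))) (Nat.add (Nat.mul (X (nat_lit 33)) (Nat.add (Nat.mul (nat_lit 16) (H (nat_lit 17))) (Nat.mul (nat_lit 8) (H (nat_lit 28))))) (Nat.mul (X (nat_lit 34)) (Nat.mul (nat_lit 8) (H (nat_lit 17)))))))))))))) (.nd (nat_lit 26)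 
 (.lf (.mk fun X _ H => (Nat.add (Nat.mul (X (nat_lit 24)) (Nat.add (Nat.mul (nat_lit 16) (H (nat_lit 16))) (Nat.add (Nat.mul (nat_lit 8) (H (nat_lit 19))) (Nat.mul (nat_lit 8) (H (nat_lit 24)))))) (Nat.add (Nat.mul (X (nat_lit 29)) (Nat.mul (nat_lit 8) (H (nat_lit 27)))) (Nat.add (Nat.mul (X (nat_lit 30)) (Nat.mul (nat_lit 8) (H (nat_lit 27)))) (Nat.add (Nat.mul (X (nat_lit 31)) (Nat.mul (nat_lit 8) (H (nat_lit 27)))) (Nat.mul (X (nat_lit 33)) (Nat.mul (nat_lit 8) (H (nat_lit 27)))))))))) 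
 (.lf (.mk fun X _ H => (Nat.add (Nat.mul (X (nat_lit 22)) (Nat.add (Nat.mul (nat_lit 8) (H (nat_lit 19))) (Nat.mul (nat_lit 8) (H (nat_lit 24))))) (Nat.add (Nat.mul (X (nat_lit 27)) (Nat.add (Nat.mul (nat_lit 16) (H (nat_lit 16))) (Nat.add (Nat.mul (nat_lit 8) (H (nat_lit 19))) (Nat.add (Nat.mul (nat_lit 16) (H (nat_lit 22))) (Nat.mul (nat_lit 8) (H (nat_lit 24))))))) (Nat.add (Nat.mul (X (nat_lit 29)) (Nat.mul (nat_lit 4) (H (nat_lit 29)))) (Nat.add (Nat.mul (X (nat_lit 30)) (Nat.mul (nat_lit 4) (H (nat_lit 29)))) (Nat.add (Nat.mul (X (nat_lit 31)) (Nat.add (Nat.mul (nat_lit 8) (H (nat_lit 18))) (Nat.mul (nat_lit 4) (H (nat_lit 29))))) (Nat.add (Nat.mul (X (nat_lit 32)) (Nat.mul (nat_lit 4) (H (nat_lit 29)))) (Nat.mul (X (nat_lit 33)) (Nat.add (Nat.mul (nat_lit 8) (H (nat_lit 18))) (Nat.mul (nat_lit 4) (H (nat_lit 29)))))))))))))))) (.nd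 (nat_lit 30) (.nd (nat_lit 28) 
 (.lf (.mk fun X Q H => (Nat.add (Nat.mul (X (nat_lit 21)) (Nat.mul (nat_lit 4) (Q (nat_lit 19)))) (Nat.add (Nat.mul (X (nat_lit 26)) (Nat.add (Nat.mul (nat_lit 16) (H (nat_lit 16))) (Nat.add (Nat.mul (nat_lit 8) (H (nat_lit 19))) (Nat.add (Nat.mul (nat_lit 16) (H (nat_lit 22))) (Nat.mul (nat_lit 8) (H (nat_lit 24))))))) (Nat.add (Nat.mul (X (nat_lit 28)) (Nat.add (Nat.mul (nat_lit 16) (H (nat_lit 16))) (Nat.add (Nat.mul (nat_lit 8) (Q (nat_lit 19))) (Nat.add (Nat.mul (nat_lit 8) (H (nat_lit 22))) (Nat.mul (nat_lit 8) (H (nat_lit 24))))))) (Nat.add (Nat.mul (X (nat_lit 29)) (Nat.add (Nat.mul (nat_lit 8) (H (nat_lit 20))) (Nat.mul (nat_lit 8) (H (nat_lit 21))))) (Nat.add (Nat.mul (X (nat_lit 30)) (Nat.add (Nat.mul (nat_lit 8) (H (nat_lit 20))) (Nat.mul (nat_lit 8) (H (nat_lit 21))))) (Nat.add (Nat.mul (X (nat_lit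 31)) (Nat.add (Nat.mul (nat_lit 8) (H (nat_lit 20))) (Nat.add (Nat.mul (nat_lit 8) (Q (nat_lit 21))) (Nat.mul (nat_lit 4) (Q (nat_lit 30)))))) (Nat.add (Nat.mul (X (nat_lit 32)) (Nat.add (Nat.mul (nat_lit 8) (H (nat_lit 20))) (Nat.mul (nat_lit 4) (H (nat_lit 21))))) (Nat.add (Nat.mul (X (nat_lit 33)) (Nat.add (Nat.mul (nat_lit 8) (H (nat_lit 20))) (Nat.mul (nat_lit 8) (H (nat_lit 21))))) (Nat.mul (X (nat_lit 37)) (Nat.mul (nat_lit 4) (Q (nat_lit 19)))))))))))))) (.nd (nat_lit 29) 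
 (.lf (.mk fun X Q H => (Nat.add (Nat.mul (X (nat_lit 22)) (Nat.mul (nat_lit 4) (H (nat_lit 19)))) (Nat.add (Nat.mul (X (nat_lit 27)) (Nat.add (Nat.mul (nat_lit 16) (H (nat_lit 16))) (Nat.add (Nat.mul (nat_lit 8) (Q (nat_lit 19))) (Nat.add (Nat.mul (nat_lit 8) (H (nat_lit 22))) (Nat.mul (nat_lit 8) (H (nat_lit 24))))))) (Nat.add (Nat.mul (X (nat_lit 29)) (Nat.mul (nat_lit 4) (H (nat_lit 29)))) (Nat.add (Nat.mul (X (nat_lit 30)) (Nat.mul (nat_lit 4) (H (nat_lit 29)))) (Nat.add (Nat.mul (X (nat_lit 31)) (Nat.add (Nat.mul (nat_lit 4) (H (nat_lit 18))) (Nat.mul (nat_lit 4) (Q (nat_lit 29))))) (Nat.add (Nat.mul (X (nat_lit 32)) (Nat.mul (nat_lit 2) (H (nat_lit 29)))) (Nat.mul (X (nat_lit 33)) (Nat.mul (nat_lit 4) (H (nat_lit 29)))))))))))) 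
 (.lf (.mk fun X _ H => (Nat.add (Nat.mul (X (nat_lit 21)) (Nat.add (Nat.mul (nat_lit 4) (H (nat_lit 18))) (Nat.mul (nat_lit 4) (H (nat_lit 27))))) (Nat.add (Nat.mul (X (nat_lit 23)) (Nat.add (Nat.mul (nat_lit 4) (H (nat_lit 18))) (Nat.mul (nat_lit 4) (H (nat_lit 27))))) (Nat.add (Nat.mul (X (nat_lit 25)) (Nat.mul (nat_lit 8) (H (nat_lit 27)))) (Nat.add (Nat.mul (X (nat_lit 26)) (Nat.mul (nat_lit 4) (H (nat_lit 29)))) (Nat.add (Nat.mul (X (nat_lit 28)) (Nat.mul (nat_lit 4) (H (nat_lit 29)))) (Nat.add (Nat.mul (X (nat_lit 22)) (Nat.mul (nat_lit 8) (H (nat_lit 17)))) (Nat.add (Nat.mul (X (nat_lit 24)) (Nat.add (Nat.mul (nat_lit 8) (H (nat_lit 17))) (Nat.mul (nat_lit 8) (H (nat_lit 28))))) (Nat.mul (X (nat_lit 27)) (Nat.add (Nat.mul (nat_lit 8) (H (nat_lit 20))) (Nat.mul (nat_lit 8) (H (nat_lit 21)))))))))))))))) (.nd (nat_lit 31) 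
 (.lf (.mk fun X _ H => (Nat.add (Nat.mul (X (nat_lit 21)) (Nat.add (Nat.mul (nat_lit 4) (H (nat_lit 18))) (Nat.mul (nat_lit 4) (H (nat_lit 27))))) (Nat.add (Nat.mul (X (nat_lit 23)) (Nat.add (Nat.mul (nat_lit 4) (H (nat_lit 18))) (Nat.mul (nat_lit 4) (H (nat_lit 27))))) (Nat.add (Nat.mul (X (nat_lit 25)) (Nat.mul (nat_lit 8) (H (nat_lit 27)))) (Nat.add (Nat.mul (X (nat_lit 26)) (Nat.mul (nat_lit 4) (H (nat_lit 29)))) (Nat.add (Nat.mul (X (nat_lit 28)) (Nat.mul (nat_lit 4) (H (nat_lit 29)))) (Nat.add (Nat.mul (X (nat_lit 22)) (Nat.mul (nat_lit 8) (H (nat_lit 17)))) (Nat.add (Nat.mul (X (nat_lit 24)) (Nat.add (Nat.mul (nat_lit 8) (H (nat_lit 17))) (Nat.mul (nat_lit 8) (H (nat_lit 28))))) (Nat.mul (X (nat_lit 27)) (Nat.add (Nat.mul (nat_lit 8) (H (nat_lit 20))) (Nat.mul (nat_lit 8) (H (nat_lit 21)))))))))))))) (.nd (nat_lit 32) 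
 (.lf (.mk fun X Q H => (Nat.add (Nat.mul (X (nat_lit 21)) (Nat.add (Nat.mul (nat_lit 8) (H (nat_lit 27))) (Nat.mul (nat_lit 2) (Q (nat_lit 29))))) (Nat.add (Nat.mul (X (nat_lit 23)) (Nat.mul (nat_lit 8) (H (nat_lit 27)))) (Nat.add (Nat.mul (X (nat_lit 25)) (Nat.mul (nat_lit 8) (H (nat_lit 27)))) (Nat.add (Nat.mul (X (nat_lit 26)) (Nat.add (Nat.mul (nat_lit 8) (H (nat_lit 18))) (Nat.mul (nat_lit 4) (H (nat_lit 29))))) (Nat.add (Nat.mul (X (nat_lit 28)) (Nat.add (Nat.mul (nat_lit 4) (H (nat_lit 18))) (Nat.mul (nat_lit 4) (Q (nat_lit 29))))) (Nat.add (Nat.mul (X (nat_lit 22)) (Nat.add (Nat.mul (nat_lit 8) (H (nat_lit 20))) (Nat.mul (nat_lit 4) (H (nat_lit 21))))) (Nat.add (Nat.mul (X (nat_lit 24)) (Nat.add (Nat.mul (nat_lit 16) (H (nat_lit 17))) (Nat.mul (nat_lit 8) (H (nat_lit 28))))) (Nat.add (Nat.mul (X (nat_lit 27)) (Nat.add (Nat.mul (nat_lit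 8) (H (nat_lit 20))) (Nat.add (Nat.mul (nat_lit 8) (Q (nat_lit 21))) (Nat.mul (nat_lit 4) (Q (nat_lit 30)))))) (Nat.mul (X (nat_lit 37)) (Nat.mul (nat_lit 2) (Q (nat_lit 29)))))))))))))) 
 (.lf (.mk fun X _ H => (Nat.add (Nat.mul (X (nat_lit 21)) (Nat.add (H (nat_lit 18)) (Nat.mul (nat_lit 4) (H (nat_lit 27))))) (Nat.add (Nat.mul (X (nat_lit 23)) (Nat.mul (nat_lit 4) (H (nat_lit 27)))) (Nat.add (Nat.mul (X (nat_lit 26)) (Nat.mul (nat_lit 4) (H (nat_lit 29)))) (Nat.add (Nat.mul (X (nat_lit 28)) (Nat.mul (nat_lit 2) (H (nat_lit 29)))) (Nat.add (Nat.mul (X (nat_lit 22)) (Nat.mul (nat_lit 8) (H (nat_lit 23)))) (Nat.add (Nat.mul (X (nat_lit 24)) (Nat.mul (nat_lit 8) (H (nat_lit 17)))) (Nat.add (Nat.mul (X (nat_lit 27)) (Nat.add (Nat.mul (nat_lit 8) (H (nat_lit 20))) (Nat.mul (nat_lit 4) (H (nat_lit 21))))) (Nat.mul (X (nat_lit 35)) (Nat.mul (nat_lit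 4) (H (nat_lit 18))))))))))))))))) (.nd (nat_lit 38) (.nd (nat_lit 35) (.nd (nat_lit 34) 
 (.lf (.mk fun X _ H => (Nat.add (Nat.mul (X (nat_lit 21)) (Nat.mul (nat_lit 8) (H (nat_lit 27)))) (Nat.add (Nat.mul (X (nat_lit 23)) (Nat.mul (nat_lit 8) (H (nat_lit 27)))) (Nat.add (Nat.mul (X (nat_lit 25)) (Nat.mul (nat_lit 8) (H (nat_lit 27)))) (Nat.add (Nat.mul (X (nat_lit 26)) (Nat.add (Nat.mul (nat_lit 8) (H (nat_lit 18))) (Nat.mul (nat_lit 4) (H (nat_lit 29))))) (Nat.add (Nat.mul (X (nat_lit 28)) (Nat.mul (nat_lit 4) (H (nat_lit 29)))) (Nat.add (Nat.mul (X (nat_lit 22)) (Nat.mul (nat_lit 8) (H (nat_lit 20)))) (Nat.add (Nat.mul (X (nat_lit 24)) (Nat.add (Nat.mul (nat_lit 16) (H (nat_lit 17))) (Nat.mul (nat_lit 8) (H (nat_lit 28))))) (Nat.mul (X (nat_lit 27)) (Nat.add (Nat.mul (nat_lit 8) (H (nat_lit 20))) (Nat.mul (nat_lit 8) (H (nat_lit 21))))))))))))))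 
 (.lf (.mk fun X _ H => (Nat.add (Nat.mul (X (nat_lit 21)) (Nat.mul (nat_lit 4) (H (nat_lit 27)))) (Nat.add (Nat.mul (X (nat_lit 23)) (Nat.mul (nat_lit 4) (H (nat_lit 27)))) (Nat.add (Nat.mul (X (nat_lit 22)) (Nat.mul (nat_lit 8) (H (nat_lit 26)))) (Nat.add (Nat.mul (X (nat_lit 24)) (Nat.mul (nat_lit 8) (H (nat_lit 17)))) (Nat.mul (X (nat_lit 36)) (Nat.mul (nat_lit 4) (H (nat_lit 18))))))))))) (.nd (nat_lit 36) 
 (.lf (.mk fun X _ H => (Nat.add (Nat.mul (X (nat_lit 22)) (Nat.mul (nat_lit 8) (H (nat_lit 22)))) (Nat.mul (X (nat_lit 32)) (Nat.mul (nat_lit 4) (H (nat_lit 18))))))) (.nd (nat_lit 37) 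
 (.lf (.mk fun X _ H => (Nat.add (Nat.mul (X (nat_lit 22)) (Nat.mul (nat_lit 8) (H (nat_lit 25)))) (Nat.mul (X (nat_lit 34)) (Nat.mul (nat_lit 4) (H (nat_lit 18))))))) 
 (.lf (.mk fun X Q _ => (Nat.add (Nat.mul (X (nat_lit 27)) (Nat.mul (nat_lit 4) (Q (nat_lit 19)))) (Nat.mul (X (nat_lit 31)) (Nat.mul (nat_lit 2) (Q (nat_lit 29)))))))))) (.nd (nat_lit 41) (.nd (nat_lit 39) 
 (.lf (.mk fun X Q H => (Nat.add (Nat.mul (X (nat_lit 40)) (Nat.add (Nat.mul (nat_lit 8) (H (nat_lit 31))) (Nat.add (Nat.mul (nat_lit 8) (H (nat_lit 34))) (Nat.add (Nat.mul (nat_lit 8) (H (nat_lit 37))) (Nat.add (Nat.mul (nat_lit 8) (H (nat_lit 38))) (Nat.mul (nat_lit 8) (H (nat_lit 39)))))))) (Nat.add (Nat.mul (X (nat_lit 43)) (Nat.mul (nat_lit 4) (Q (nat_lit 34)))) (Nat.add (Nat.mul (X (nat_lit 45)) (Nat.add (Nat.mul (nat_lit 4) (H (nat_lit 33))) (Nat.mul (nat_lit 4) (H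 (nat_lit 40))))) (Nat.add (Nat.mul (X (nat_lit 46)) (Nat.add (Nat.mul (nat_lit 4) (H (nat_lit 33))) (Nat.mul (nat_lit 4) (H (nat_lit 40))))) (Nat.add (Nat.mul (X (nat_lit 47)) (Nat.add (Nat.mul (nat_lit 8) (H (nat_lit 40))) (Nat.mul (nat_lit 2) (Q (nat_lit 42))))) (Nat.add (Nat.mul (X (nat_lit 48)) (Nat.add (H (nat_lit 33)) (Nat.mul (nat_lit 4) (H (nat_lit 40))))) (Nat.add (Nat.mul (X (nat_lit 49)) (Nat.mul (nat_lit 8) (H (nat_lit 40)))) (Nat.mul (X (nat_lit 50)) (Nat.mul (nat_lit 4) (H (nat_lit 40))))))))))))) (.nd (nat_lit 40) 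
 (.lf (.mk fun X _ H => (Nat.add (Nat.mul (X (nat_lit 40)) (Nat.add (Nat.mul (nat_lit 8) (H (nat_lit 31))) (Nat.add (Nat.mul (nat_lit 8) (H (nat_lit 34))) (Nat.add (Nat.mul (nat_lit 8) (H (nat_lit 37))) (Nat.add (Nat.mul (nat_lit 8) (H (nat_lit 38))) (Nat.mul (nat_lit 8) (H (nat_lit 39)))))))) (Nat.add (Nat.mul (X (nat_lit 45)) (Nat.add (Nat.mul (nat_lit 4) (H (nat_lit 33))) (Nat.mul (nat_lit 4) (H (nat_lit 40))))) (Nat.add (Nat.mul (X (nat_lit 46)) (Nat.add (Nat.mul (nat_lit 4) (H (nat_lit 33))) (Nat.mul (nat_lit 4) (H (nat_lit 40))))) (Nat.add (Nat.mul (X (nat_lit 47)) (Nat.mul (nat_lit 8) (H (nat_lit 40)))) (Nat.add (Nat.mul (X (nat_lit 48)) (Nat.mul (nat_lit 4) (H (nat_lit 40)))) (Nat.add (Nat.mul (X (nat_lit 49)) (Nat.mul (nat_lit 8) (H (nat_lit 40)))) (Nat.mul (X (nat_lit 50)) (Nat.mul (nat_lit 4) (H (nat_lit 40)))))))))))) 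
 (.lf (.mk fun X _ H => (Nat.add (Nat.mul (X (nat_lit 38)) (Nat.add (Nat.mul (nat_lit 8) (H (nat_lit 31))) (Nat.add (Nat.mul (nat_lit 8) (H (nat_lit 34))) (Nat.add (Nat.mul (nat_lit 8) (H (nat_lit 37))) (Nat.add (Nat.mul (nat_lit 8) (H (nat_lit 38))) (Nat.mul (nat_lit 8) (H (nat_lit 39)))))))) (Nat.add (Nat.mul (X (nat_lit 39)) (Nat.add (Nat.mul (nat_lit 8) (H (nat_lit 31))) (Nat.add (Nat.mul (nat_lit 8) (H (nat_lit 34))) (Nat.add (Nat.mul (nat_lit 8) (H (nat_lit 37))) (Nat.add (Nat.mul (nat_lit 8) (H (nat_lit 38))) (Nat.mul (nat_lit 8) (H (nat_lit 39)))))))) (Nat.add (Nat.mul (X (nat_lit 41)) (Nat.add (Nat.mul (nat_lit 16) (H (nat_lit 31))) (Nat.add (Nat.mul (nat_lit 8) (H (nat_lit 34))) (Nat.mul (nat_lit 8) (H (nat_lit 38)))))) (Nat.add (Nat.mul (X (nat_lit 45)) (Nat.add (Nat.mul (nat_lit 8) (H (nat_lit 32))) (Nat.mul (nat_lit 8) (H (nat_lit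 41))))) (Nat.add (Nat.mul (X (nat_lit 46)) (Nat.add (Nat.mul (nat_lit 8) (H (nat_lit 32))) (Nat.mul (nat_lit 8) (H (nat_lit 41))))) (Nat.add (Nat.mul (X (nat_lit 47)) (Nat.add (Nat.mul (nat_lit 16) (H (nat_lit 32))) (Nat.mul (nat_lit 8) (H (nat_lit 41))))) (Nat.add (Nat.mul (X (nat_lit 48)) (Nat.mul (nat_lit 8) (H (nat_lit 32)))) (Nat.add (Nat.mul (X (nat_lit 49)) (Nat.add (Nat.mul (nat_lit 16) (H (nat_lit 32))) (Nat.mul (nat_lit 8) (H (nat_lit 41))))) (Nat.mul (X (nat_lit 50)) (Nat.mul (nat_lit 8) (H (nat_lit 32)))))))))))))))) (.nd (nat_lit 42) 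
 (.lf (.mk fun X _ H => (Nat.add (Nat.mul (X (nat_lit 40)) (Nat.add (Nat.mul (nat_lit 16) (H (nat_lit 31))) (Nat.add (Nat.mul (nat_lit 8) (H (nat_lit 34))) (Nat.mul (nat_lit 8) (H (nat_lit 38)))))) (Nat.add (Nat.mul (X (nat_lit 45)) (Nat.mul (nat_lit 8) (H (nat_lit 40)))) (Nat.add (Nat.mul (X (nat_lit 46)) (Nat.mul (nat_lit 8) (H (nat_lit 40)))) (Nat.add (Nat.mul (X (nat_lit 47)) (Nat.mul (nat_lit 8) (H (nat_lit 40)))) (Nat.mul (X (nat_lit 49)) (Nat.mul (nat_lit 8) (H (nat_lit 40)))))))))) (.nd (nat_lit 43) 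
 (.lf (.mk fun X _ H => (Nat.add (Nat.mul (X (nat_lit 43)) (Nat.add (Nat.mul (nat_lit 16) (H (nat_lit 31))) (Nat.add (Nat.mul (nat_lit 8) (H (nat_lit 34))) (Nat.add (Nat.mul (nat_lit 16) (H (nat_lit 37))) (Nat.mul (nat_lit 8) (H (nat_lit 38))))))) (Nat.add (Nat.mul (X (nat_lit 45)) (Nat.mul (nat_lit 4) (H (nat_lit 42)))) (Nat.add (Nat.mul (X (nat_lit 46)) (Nat.mul (nat_lit 4) (H (nat_lit 42)))) (Nat.add (Nat.mul (X (nat_lit 47)) (Nat.add (Nat.mul (nat_lit 8) (H (nat_lit 33))) (Nat.mul (nat_lit 4) (H (nat_lit 42))))) (Nat.add (Nat.mul (X (nat_lit 48)) (Nat.mul (nat_lit 4) (H (nat_lit 42)))) (Nat.mul (X (nat_lit 49)) (Nat.add (Nat.mul (nat_lit 8) (H (nat_lit 33))) (Nat.mul (nat_lit 4) (H (nat_lit 42)))))))))))) 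
 (.lf (.mk fun X Q H => (Nat.add (Nat.mul (X (nat_lit 38)) (Nat.mul (nat_lit 4) (Q (nat_lit 34)))) (Nat.add (Nat.mul (X (nat_lit 42)) (Nat.add (Nat.mul (nat_lit 16) (H (nat_lit 31))) (Nat.add (Nat.mul (nat_lit 8) (H (nat_lit 34))) (Nat.add (Nat.mul (nat_lit 16) (H (nat_lit 37))) (Nat.mul (nat_lit 8) (H (nat_lit 38))))))) (Nat.add (Nat.mul (X (nat_lit 44)) (Nat.add (Nat.mul (nat_lit 16) (H (nat_lit 31))) (Nat.add (Nat.mul (nat_lit 8) (Q (nat_lit 34))) (Nat.add (Nat.mul (nat_lit 8) (H (nat_lit 37))) (Nat.mul (nat_lit 8) (H (nat_lit 38))))))) (Nat.add (Nat.mul (X (nat_lit 45)) (Nat.add (Nat.mul (nat_lit 8) (H (nat_lit 35))) (Nat.mul (nat_lit 8) (H (nat_lit 36))))) (Nat.add (Nat.mul (X (nat_lit 46)) (Nat.add (Nat.mul (nat_lit 8) (H (nat_lit 35))) (Nat.mul (nat_lit 8) (H (nat_lit 36))))) (Nat.add (Nat.mul (X (nat_lit 47)) (Nat.add (Nat.mul (nat_lit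 8) (H (nat_lit 35))) (Nat.add (Nat.mul (nat_lit 8) (Q (nat_lit 36))) (Nat.mul (nat_lit 4) (Q (nat_lit 43)))))) (Nat.add (Nat.mul (X (nat_lit 48)) (Nat.add (Nat.mul (nat_lit 8) (H (nat_lit 35))) (Nat.mul (nat_lit 4) (H (nat_lit 36))))) (Nat.add (Nat.mul (X (nat_lit 49)) (Nat.add (Nat.mul (nat_lit 8) (H (nat_lit 35))) (Nat.mul (nat_lit 8) (H (nat_lit 36))))) (Nat.mul (X (nat_lit 53)) (Nat.mul (nat_lit 4) (Q (nat_lit 34)))))))))))))))))))) (.nd (nat_lit 66) (.nd (nat_lit 55) (.nd (nat_lit 49) (.nd (nat_lit 46) (.nd (nat_lit 45) 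
 (.lf (.mk fun X Q H => (Nat.add (Nat.mul (X (nat_lit 43)) (Nat.add (Nat.mul (nat_lit 16) (H (nat_lit 31))) (Nat.add (Nat.mul (nat_lit 8) (Q (nat_lit 34))) (Nat.add (Nat.mul (nat_lit 8) (H (nat_lit 37))) (Nat.mul (nat_lit 8) (H (nat_lit 38))))))) (Nat.add (Nat.mul (X (nat_lit 45)) (Nat.mul (nat_lit 4) (H (nat_lit 42)))) (Nat.add (Nat.mul (X (nat_lit 46)) (Nat.mul (nat_lit 4) (H (nat_lit 42)))) (Nat.add (Nat.mul (X (nat_lit 47)) (Nat.add (Nat.mul (nat_lit 4) (H (nat_lit 33))) (Nat.mul (nat_lit 4) (Q (nat_lit 42))))) (Nat.add (Nat.mul (X (nat_lit 48)) (Nat.mul (nat_lit 2) (H (nat_lit 42)))) (Nat.mul (X (nat_lit 49)) (Nat.mul (nat_lit 4) (H (nat_lit 42))))))))))) 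
 (.lf (.mk fun X _ H => (Nat.add (Nat.mul (X (nat_lit 38)) (Nat.add (Nat.mul (nat_lit 4) (H (nat_lit 33))) (Nat.mul (nat_lit 4) (H (nat_lit 40))))) (Nat.add (Nat.mul (X (nat_lit 39)) (Nat.add (Nat.mul (nat_lit 4) (H (nat_lit 33))) (Nat.mul (nat_lit 4) (H (nat_lit 40))))) (Nat.add (Nat.mul (X (nat_lit 41)) (Nat.mul (nat_lit 8) (H (nat_lit 40)))) (Nat.add (Nat.mul (X (nat_lit 42)) (Nat.mul (nat_lit 4) (H (nat_lit 42)))) (Nat.add (Nat.mul (X (nat_lit 44)) (Nat.mul (nat_lit 4) (H (nat_lit 42)))) (Nat.add (Nat.mul (X (nat_lit 40)) (Nat.add (Nat.mul (nat_lit 8) (H (nat_lit 32))) (Nat.mul (nat_lit 8) (H (nat_lit 41))))) (Nat.mul (X (nat_lit 43)) (Nat.add (Nat.mul (nat_lit 8) (H (nat_lit 35))) (Nat.mul (nat_lit 8) (H (nat_lit 36)))))))))))))) (.nd (nat_lit 47) 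
 (.lf (.mk fun X _ H => (Nat.add (Nat.mul (X (nat_lit 38)) (Nat.add (Nat.mul (nat_lit 4) (H (nat_lit 33))) (Nat.mul (nat_lit 4) (H (nat_lit 40))))) (Nat.add (Nat.mul (X (nat_lit 39)) (Nat.add (Nat.mul (nat_lit 4) (H (nat_lit 33))) (Nat.mul (nat_lit 4) (H (nat_lit 40))))) (Nat.add (Nat.mul (X (nat_lit 41)) (Nat.mul (nat_lit 8) (H (nat_lit 40)))) (Nat.add (Nat.mul (X (nat_lit 42)) (Nat.mul (nat_lit 4) (H (nat_lit 42)))) (Nat.add (Nat.mul (X (nat_lit 44)) (Nat.mul (nat_lit 4) (H (nat_lit 42)))) (Nat.add (Nat.mul (X (nat_lit 40)) (Nat.add (Nat.mul (nat_lit 8) (H (nat_lit 32))) (Nat.mul (nat_lit 8) (H (nat_lit 41))))) (Nat.mul (X (nat_lit 43)) (Nat.add (Nat.mul (nat_lit 8) (H (nat_lit 35))) (Nat.mul (nat_lit 8) (H (nat_lit 36))))))))))))) (.nd (nat_lit 48) 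
 (.lf (.mk fun X Q H => (Nat.add (Nat.mul (X (nat_lit 38)) (Nat.add (Nat.mul (nat_lit 8) (H (nat_lit 40))) (Nat.mul (nat_lit 2) (Q (nat_lit 42))))) (Nat.add (Nat.mul (X (nat_lit 39)) (Nat.mul (nat_lit 8) (H (nat_lit 40)))) (Nat.add (Nat.mul (X (nat_lit 41)) (Nat.mul (nat_lit 8) (H (nat_lit 40)))) (Nat.add (Nat.mul (X (nat_lit 42)) (Nat.add (Nat.mul (nat_lit 8) (H (nat_lit 33))) (Nat.mul (nat_lit 4) (H (nat_lit 42))))) (Nat.add (Nat.mul (X (nat_lit 44)) (Nat.add (Nat.mul (nat_lit 4) (H (nat_lit 33))) (Nat.mul (nat_lit 4) (Q (nat_lit 42))))) (Nat.add (Nat.mul (X (nat_lit 40)) (Nat.add (Nat.mul (nat_lit 16) (H (nat_lit 32))) (Nat.mul (nat_lit 8) (H (nat_lit 41))))) (Nat.add (Nat.mul (X (nat_lit 43)) (Nat.add (Nat.mul (nat_lit 8) (H (nat_lit 35))) (Nat.add (Nat.mul (nat_lit 8) (Q (nat_lit 36))) (Nat.mul (nat_lit 4) (Q (nat_lit 43)))))) (Nat.mul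 (X (nat_lit 53)) (Nat.mul (nat_lit 2) (Q (nat_lit 42))))))))))))) 
 (.lf (.mk fun X _ H => (Nat.add (Nat.mul (X (nat_lit 38)) (Nat.add (H (nat_lit 33)) (Nat.mul (nat_lit 4) (H (nat_lit 40))))) (Nat.add (Nat.mul (X (nat_lit 39)) (Nat.mul (nat_lit 4) (H (nat_lit 40)))) (Nat.add (Nat.mul (X (nat_lit 42)) (Nat.mul (nat_lit 4) (H (nat_lit 42)))) (Nat.add (Nat.mul (X (nat_lit 44)) (Nat.mul (nat_lit 2) (H (nat_lit 42)))) (Nat.add (Nat.mul (X (nat_lit 40)) (Nat.mul (nat_lit 8) (H (nat_lit 32)))) (Nat.add (Nat.mul (X (nat_lit 43)) (Nat.add (Nat.mul (nat_lit 8) (H (nat_lit 35))) (Nat.mul (nat_lit 4) (H (nat_lit 36))))) (Nat.mul (X (nat_lit 51)) (Nat.mul (nat_lit 4) (H (nat_lit 33))))))))))))))) (.nd (nat_lit 52) (.nd (nat_lit 50) 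
 (.lf (.mk fun X _ H => (Nat.add (Nat.mul (X (nat_lit 38)) (Nat.mul (nat_lit 8) (H (nat_lit 40)))) (Nat.add (Nat.mul (X (nat_lit 39)) (Nat.mul (nat_lit 8) (H (nat_lit 40)))) (Nat.add (Nat.mul (X (nat_lit 41)) (Nat.mul (nat_lit 8) (H (nat_lit 40)))) (Nat.add (Nat.mul (X (nat_lit 42)) (Nat.add (Nat.mul (nat_lit 8) (H (nat_lit 33))) (Nat.mul (nat_lit 4) (H (nat_lit 42))))) (Nat.add (Nat.mul (X (nat_lit 44)) (Nat.mul (nat_lit 4) (H (nat_lit 42)))) (Nat.add (Nat.mul (X (nat_lit 40)) (Nat.add (Nat.mul (nat_lit 16) (H (nat_lit 32))) (Nat.mul (nat_lit 8) (H (nat_lit 41))))) (Nat.mul (X (nat_lit 43)) (Nat.add (Nat.mul (nat_lit 8) (H (nat_lit 35))) (Nat.mul (nat_lit 8) (H (nat_lit 36))))))))))))) (.nd (nat_lit 51) 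
 (.lf (.mk fun X _ H => (Nat.add (Nat.mul (X (nat_lit 38)) (Nat.mul (nat_lit 4) (H (nat_lit 40)))) (Nat.add (Nat.mul (X (nat_lit 39)) (Nat.mul (nat_lit 4) (H (nat_lit 40)))) (Nat.add (Nat.mul (X (nat_lit 40)) (Nat.mul (nat_lit 8) (H (nat_lit 32)))) (Nat.mul (X (nat_lit 52)) (Nat.mul (nat_lit 4) (H (nat_lit 33))))))))) 
 (.lf (.mk fun X _ H => (Nat.mul (X (nat_lit 48)) (Nat.mul (nat_lit 4) (H (nat_lit 33)))))))) (.nd (nat_lit 53) 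
 (.lf (.mk fun X _ H => (Nat.mul (X (nat_lit 50)) (Nat.mul (nat_lit 4) (H (nat_lit 33)))))) (.nd (nat_lit 54) 
 (.lf (.mk fun X Q _ => (Nat.add (Nat.mul (X (nat_lit 43)) (Nat.mul (nat_lit 4) (Q (nat_lit 34)))) (Nat.mul (X (nat_lit 47)) (Nat.mul (nat_lit 2) (Q (nat_lit 42))))))) 
 (.lf (.mk fun X Q H => (Nat.add (Nat.mul (X (nat_lit 55)) (Nat.add (Nat.mul (nat_lit 8) (H (nat_lit 44))) (Nat.mul (nat_lit 2) (H (nat_lit 50))))) (Nat.add (Nat.mul (X (nat_lit 57)) (Nat.add (Nat.mul (nat_lit 8) (H (nat_lit 44))) (Nat.add (Nat.mul (nat_lit 8) (H (nat_lit 47))) (Nat.add (Nat.mul (nat_lit 8) (H (nat_lit 50))) (Nat.add (Nat.mul (nat_lit 8) (H (nat_lit 52))) (Nat.mul (nat_lit 8) (H (nat_lit 53)))))))) (Nat.add (Nat.mul (X (nat_lit 60)) (Nat.mul (nat_lit 4) (Q (nat_lit 47)))) (Nat.add (Nat.mul (X (nat_lit 62)) (Nat.add (Nat.mul (nat_lit 4) (H (nat_lit 46)))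 (Nat.mul (nat_lit 4) (H (nat_lit 55))))) (Nat.add (Nat.mul (X (nat_lit 63)) (Nat.add (Nat.mul (nat_lit 4) (H (nat_lit 46))) (Nat.mul (nat_lit 4) (H (nat_lit 55))))) (Nat.add (Nat.mul (X (nat_lit 64)) (Nat.add (Nat.mul (nat_lit 8) (H (nat_lit 55))) (Nat.mul (nat_lit 2) (Q (nat_lit 57))))) (Nat.add (Nat.mul (X (nat_lit 65)) (Nat.add (H (nat_lit 46)) (Nat.mul (nat_lit 4) (H (nat_lit 55))))) (Nat.add (Nat.mul (X (nat_lit 66)) (Nat.mul (nat_lit 8) (H (nat_lit 55)))) (Nat.mul (X (nat_lit 67)) (Nat.mul (nat_lit 4) (H (nat_lit 55)))))))))))))))))) (.nd (nat_lit 60) (.nd (nat_lit 57) (.nd (nat_lit 56) 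
 (.lf (.mk fun X _ H => (Nat.add (Nat.mul (X (nat_lit 54)) (Nat.add (Nat.mul (nat_lit 8) (H (nat_lit 44))) (Nat.mul (nat_lit 2) (H (nat_lit 50))))) (Nat.add (Nat.mul (X (nat_lit 56)) (Nat.mul (nat_lit 8) (H (nat_lit 44)))) (Nat.add (Nat.mul (X (nat_lit 59)) (Nat.add (Nat.mul (nat_lit 8) (H (nat_lit 47))) (Nat.mul (nat_lit 8) (H (nat_lit 52))))) (Nat.add (Nat.mul (X (nat_lit 61)) (Nat.mul (nat_lit 4) (H (nat_lit 47)))) (Nat.add (Nat.mul (X (nat_lit 62)) (Nat.mul (nat_lit 8) (H (nat_lit 45)))) (Nat.add (Nat.mul (X (nat_lit 63)) (Nat.mul (nat_lit 8) (H (nat_lit 45)))) (Nat.add (Nat.mul (X (nat_lit 64)) (Nat.add (Nat.mul (nat_lit 8) (H (nat_lit 48))) (Nat.mul (nat_lit 4) (H (nat_lit 49))))) (Nat.add (Nat.mul (X (nat_lit 65)) (Nat.mul (nat_lit 8) (H (nat_lit 51)))) (Nat.add (Nat.mul (X (nat_lit 66)) (Nat.mul (nat_lit 8) (H (nat_lit 48)))) (Nat.add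 (Nat.mul (X (nat_lit 67)) (Nat.mul (nat_lit 8) (H (nat_lit 54)))) (Nat.add (Nat.mul (X (nat_lit 68)) (Nat.mul (nat_lit 8) (H (nat_lit 50)))) (Nat.mul (X (nat_lit 69)) (Nat.mul (nat_lit 8) (H (nat_lit 53))))))))))))))))) 
 (.lf (.mk fun X _ H => (Nat.add (Nat.mul (X (nat_lit 55)) (Nat.mul (nat_lit 8) (H (nat_lit 44)))) (Nat.add (Nat.mul (X (nat_lit 57)) (Nat.add (Nat.mul (nat_lit 8) (H (nat_lit 44))) (Nat.add (Nat.mul (nat_lit 8) (H (nat_lit 47))) (Nat.add (Nat.mul (nat_lit 8) (H (nat_lit 50))) (Nat.add (Nat.mul (nat_lit 8) (H (nat_lit 52))) (Nat.mul (nat_lit 8) (H (nat_lit 53)))))))) (Nat.add (Nat.mul (X (nat_lit 62)) (Nat.add (Nat.mul (nat_lit 4) (H (nat_lit 46))) (Nat.mul (nat_lit 4) (H (nat_lit 55))))) (Nat.add (Nat.mul (X (nat_lit 63)) (Nat.add (Nat.mul (nat_lit 4) (H (nat_lit 46))) (Nat.mul (nat_lit 4) (H (nat_lit 55))))) (Nat.add (Nat.mul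 (X (nat_lit 64)) (Nat.mul (nat_lit 8) (H (nat_lit 55)))) (Nat.add (Nat.mul (X (nat_lit 65)) (Nat.mul (nat_lit 4) (H (nat_lit 55)))) (Nat.add (Nat.mul (X (nat_lit 66)) (Nat.mul (nat_lit 8) (H (nat_lit 55)))) (Nat.mul (X (nat_lit 67)) (Nat.mul (nat_lit 4) (H (nat_lit 55)))))))))))))) (.nd (nat_lit 58) 
 (.lf (.mk fun X _ H => (Nat.add (Nat.mul (X (nat_lit 54)) (Nat.add (Nat.mul (nat_lit 8) (H (nat_lit 44))) (Nat.add (Nat.mul (nat_lit 8) (H (nat_lit 47))) (Nat.add (Nat.mul (nat_lit 8) (H (nat_lit 50))) (Nat.add (Nat.mul (nat_lit 8) (H (nat_lit 52))) (Nat.mul (nat_lit 8) (H (nat_lit 53)))))))) (Nat.add (Nat.mul (X (nat_lit 56)) (Nat.add (Nat.mul (nat_lit 8) (H (nat_lit 44))) (Nat.add (Nat.mul (nat_lit 8) (H (nat_lit 47))) (Nat.add (Nat.mul (nat_lit 8) (H (nat_lit 50))) (Nat.add (Nat.mul (nat_lit 8) (H (nat_lit 52))) (Nat.mul (nat_lit 8) (H (nat_lit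 53)))))))) (Nat.add (Nat.mul (X (nat_lit 58)) (Nat.add (Nat.mul (nat_lit 16) (H (nat_lit 44))) (Nat.add (Nat.mul (nat_lit 8) (H (nat_lit 47))) (Nat.mul (nat_lit 8) (H (nat_lit 52)))))) (Nat.add (Nat.mul (X (nat_lit 62)) (Nat.add (Nat.mul (nat_lit 8) (H (nat_lit 45))) (Nat.mul (nat_lit 8) (H (nat_lit 56))))) (Nat.add (Nat.mul (X (nat_lit 63)) (Nat.add (Nat.mul (nat_lit 8) (H (nat_lit 45))) (Nat.mul (nat_lit 8) (H (nat_lit 56))))) (Nat.add (Nat.mul (X (nat_lit 64)) (Nat.add (Nat.mul (nat_lit 16) (H (nat_lit 45))) (Nat.mul (nat_lit 8) (H (nat_lit 56))))) (Nat.add (Nat.mul (X (nat_lit 65)) (Nat.mul (nat_lit 8) (H (nat_lit 45)))) (Nat.add (Nat.mul (X (nat_lit 66)) (Nat.add (Nat.mul (nat_lit 16) (H (nat_lit 45))) (Nat.mul (nat_lit 8) (H (nat_lit 56))))) (Nat.mul (X (nat_lit 67)) (Nat.mul (nat_lit 8) (H (nat_lit 45)))))))))))))) (.nd (nat_lit 59)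 
 (.lf (.mk fun X _ H => (Nat.add (Nat.mul (X (nat_lit 57)) (Nat.add (Nat.mul (nat_lit 16) (H (nat_lit 44))) (Nat.add (Nat.mul (nat_lit 8) (H (nat_lit 47))) (Nat.mul (nat_lit 8) (H (nat_lit 52)))))) (Nat.add (Nat.mul (X (nat_lit 62)) (Nat.mul (nat_lit 8) (H (nat_lit 55)))) (Nat.add (Nat.mul (X (nat_lit 63)) (Nat.mul (nat_lit 8) (H (nat_lit 55)))) (Nat.add (Nat.mul (X (nat_lit 64)) (Nat.mul (nat_lit 8) (H (nat_lit 55)))) (Nat.mul (X (nat_lit 66)) (Nat.mul (nat_lit 8) (H (nat_lit 55)))))))))) 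
 (.lf (.mk fun X _ H => (Nat.add (Nat.mul (X (nat_lit 55)) (Nat.add (Nat.mul (nat_lit 8) (H (nat_lit 47))) (Nat.mul (nat_lit 8) (H (nat_lit 52))))) (Nat.add (Nat.mul (X (nat_lit 60)) (Nat.add (Nat.mul (nat_lit 16) (H (nat_lit 44))) (Nat.add (Nat.mul (nat_lit 8) (H (nat_lit 47))) (Nat.add (Nat.mul (nat_lit 16) (H (nat_lit 50))) (Nat.mul (nat_lit 8) (H (nat_lit 52))))))) (Nat.add (Nat.mul (X (nat_lit 62)) (Nat.mul (nat_lit 4) (H (nat_lit 57)))) (Nat.add (Nat.mul (X (nat_lit 63)) (Nat.mul (nat_lit 4) (H (nat_lit 57)))) (Nat.add (Nat.mul (X (nat_lit 64)) (Nat.add (Nat.mul (nat_lit 8) (H (nat_lit 46))) (Nat.mul (nat_lit 4) (H (nat_lit 57))))) (Nat.add (Nat.mul (X (nat_lit 65)) (Nat.mul (nat_lit 4) (H (nat_lit 57)))) (Nat.mul (X (nat_lit 66)) (Nat.add (Nat.mul (nat_lit 8) (H (nat_lit 46))) (Nat.mul (nat_lit 4) (H (nat_lit 57)))))))))))))))) (.nd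 (nat_lit 63) (.nd (nat_lit 61) 
 (.lf (.mk fun X Q H => (Nat.add (Nat.mul (X (nat_lit 54)) (Nat.mul (nat_lit 4) (Q (nat_lit 47)))) (Nat.add (Nat.mul (X (nat_lit 59)) (Nat.add (Nat.mul (nat_lit 16) (H (nat_lit 44))) (Nat.add (Nat.mul (nat_lit 8) (H (nat_lit 47))) (Nat.add (Nat.mul (nat_lit 16) (H (nat_lit 50))) (Nat.mul (nat_lit 8) (H (nat_lit 52))))))) (Nat.add (Nat.mul (X (nat_lit 61)) (Nat.add (Nat.mul (nat_lit 16) (H (nat_lit 44))) (Nat.add (Nat.mul (nat_lit 8) (Q (nat_lit 47))) (Nat.add (Nat.mul (nat_lit 8) (H (nat_lit 50))) (Nat.mul (nat_lit 8) (H (nat_lit 52))))))) (Nat.add (Nat.mul (X (nat_lit 62)) (Nat.add (Nat.mul (nat_lit 8) (H (nat_lit 48))) (Nat.mul (nat_lit 8) (H (nat_lit 49))))) (Nat.add (Nat.mul (X (nat_lit 63)) (Nat.add (Nat.mul (nat_lit 8) (H (nat_lit 48))) (Nat.mul (nat_lit 8) (H (nat_lit 49))))) (Nat.add (Nat.mul (X (nat_lit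 64)) (Nat.add (Nat.mul (nat_lit 8) (H (nat_lit 48))) (Nat.add (Nat.mul (nat_lit 8) (Q (nat_lit 49))) (Nat.mul (nat_lit 4) (Q (nat_lit 58)))))) (Nat.add (Nat.mul (X (nat_lit 65)) (Nat.add (Nat.mul (nat_lit 8) (H (nat_lit 48))) (Nat.mul (nat_lit 4) (H (nat_lit 49))))) (Nat.add (Nat.mul (X (nat_lit 66)) (Nat.add (Nat.mul (nat_lit 8) (H (nat_lit 48))) (Nat.mul (nat_lit 8) (H (nat_lit 49))))) (Nat.mul (X (nat_lit 70)) (Nat.mul (nat_lit 4) (Q (nat_lit 47)))))))))))))) (.nd (nat_lit 62) 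
 (.lf (.mk fun X Q H => (Nat.add (Nat.mul (X (nat_lit 55)) (Nat.mul (nat_lit 4) (H (nat_lit 47)))) (Nat.add (Nat.mul (X (nat_lit 60)) (Nat.add (Nat.mul (nat_lit 16) (H (nat_lit 44))) (Nat.add (Nat.mul (nat_lit 8) (Q (nat_lit 47))) (Nat.add (Nat.mul (nat_lit 8) (H (nat_lit 50))) (Nat.mul (nat_lit 8) (H (nat_lit 52))))))) (Nat.add (Nat.mul (X (nat_lit 62)) (Nat.mul (nat_lit 4) (H (nat_lit 57)))) (Nat.add (Nat.mul (X (nat_lit 63)) (Nat.mul (nat_lit 4) (H (nat_lit 57)))) (Nat.add (Nat.mul (X (nat_lit 64)) (Nat.add (Nat.mul (nat_lit 4) (H (nat_lit 46))) (Nat.mul (nat_lit 4) (Q (nat_lit 57))))) (Nat.add (Nat.mul (X (nat_lit 65)) (Nat.mul (nat_lit 2) (H (nat_lit 57)))) (Nat.mul (X (nat_lit 66)) (Nat.mul (nat_lit 4) (H (nat_lit 57)))))))))))) 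
 (.lf (.mk fun X _ H => (Nat.add (Nat.mul (X (nat_lit 54)) (Nat.add (Nat.mul (nat_lit 4) (H (nat_lit 46))) (Nat.mul (nat_lit 4) (H (nat_lit 55))))) (Nat.add (Nat.mul (X (nat_lit 56)) (Nat.add (Nat.mul (nat_lit 4) (H (nat_lit 46))) (Nat.mul (nat_lit 4) (H (nat_lit 55))))) (Nat.add (Nat.mul (X (nat_lit 58)) (Nat.mul (nat_lit 8) (H (nat_lit 55)))) (Nat.add (Nat.mul (X (nat_lit 59)) (Nat.mul (nat_lit 4) (H (nat_lit 57)))) (Nat.add (Nat.mul (X (nat_lit 61)) (Nat.mul (nat_lit 4) (H (nat_lit 57)))) (Nat.add (Nat.mul (X (nat_lit 55)) (Nat.mul (nat_lit 8) (H (nat_lit 45)))) (Nat.add (Nat.mul (X (nat_lit 57)) (Nat.add (Nat.mul (nat_lit 8) (H (nat_lit 45))) (Nat.mul (nat_lit 8) (H (nat_lit 56))))) (Nat.mul (X (nat_lit 60)) (Nat.add (Nat.mul (nat_lit 8) (H (nat_lit 48))) (Nat.mul (nat_lit 8) (H (nat_lit 49)))))))))))))))) (.nd (nat_lit 64) 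
 (.lf (.mk fun X _ H => (Nat.add (Nat.mul (X (nat_lit 54)) (Nat.add (Nat.mul (nat_lit 4) (H (nat_lit 46))) (Nat.mul (nat_lit 4) (H (nat_lit 55))))) (Nat.add (Nat.mul (X (nat_lit 56)) (Nat.add (Nat.mul (nat_lit 4) (H (nat_lit 46))) (Nat.mul (nat_lit 4) (H (nat_lit 55))))) (Nat.add (Nat.mul (X (nat_lit 58)) (Nat.mul (nat_lit 8) (H (nat_lit 55)))) (Nat.add (Nat.mul (X (nat_lit 59)) (Nat.mul (nat_lit 4) (H (nat_lit 57)))) (Nat.add (Nat.mul (X (nat_lit 61)) (Nat.mul (nat_lit 4) (H (nat_lit 57)))) (Nat.add (Nat.mul (X (nat_lit 55)) (Nat.mul (nat_lit 8) (H (nat_lit 45)))) (Nat.add (Nat.mul (X (nat_lit 57)) (Nat.add (Nat.mul (nat_lit 8) (H (nat_lit 45))) (Nat.mul (nat_lit 8) (H (nat_lit 56))))) (Nat.mul (X (nat_lit 60)) (Nat.add (Nat.mul (nat_lit 8) (H (nat_lit 48))) (Nat.mul (nat_lit 8) (H (nat_lit 49)))))))))))))) (.nd (nat_lit 65) 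
 (.lf (.mk fun X Q H => (Nat.add (Nat.mul (X (nat_lit 54)) (Nat.add (Nat.mul (nat_lit 8) (H (nat_lit 55))) (Nat.mul (nat_lit 2) (Q (nat_lit 57))))) (Nat.add (Nat.mul (X (nat_lit 56)) (Nat.mul (nat_lit 8) (H (nat_lit 55)))) (Nat.add (Nat.mul (X (nat_lit 58)) (Nat.mul (nat_lit 8) (H (nat_lit 55)))) (Nat.add (Nat.mul (X (nat_lit 59)) (Nat.add (Nat.mul (nat_lit 8) (H (nat_lit 46))) (Nat.mul (nat_lit 4) (H (nat_lit 57))))) (Nat.add (Nat.mul (X (nat_lit 61)) (Nat.add (Nat.mul (nat_lit 4) (H (nat_lit 46))) (Nat.mul (nat_lit 4) (Q (nat_lit 57))))) (Nat.add (Nat.mul (X (nat_lit 55)) (Nat.add (Nat.mul (nat_lit 8) (H (nat_lit 48))) (Nat.mul (nat_lit 4) (H (nat_lit 49))))) (Nat.add (Nat.mul (X (nat_lit 57)) (Nat.add (Nat.mul (nat_lit 16) (H (nat_lit 45))) (Nat.mul (nat_lit 8) (H (nat_lit 56))))) (Nat.add (Nat.mul (X (nat_lit 60)) (Nat.add (Nat.mul (nat_lit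 8) (H (nat_lit 48))) (Nat.add (Nat.mul (nat_lit 8) (Q (nat_lit 49))) (Nat.mul (nat_lit 4) (Q (nat_lit 58)))))) (Nat.mul (X (nat_lit 70)) (Nat.mul (nat_lit 2) (Q (nat_lit 57)))))))))))))) 
 (.lf (.mk fun X _ H => (Nat.add (Nat.mul (X (nat_lit 54)) (Nat.add (H (nat_lit 46)) (Nat.mul (nat_lit 4) (H (nat_lit 55))))) (Nat.add (Nat.mul (X (nat_lit 56)) (Nat.mul (nat_lit 4) (H (nat_lit 55)))) (Nat.add (Nat.mul (X (nat_lit 59)) (Nat.mul (nat_lit 4) (H (nat_lit 57)))) (Nat.add (Nat.mul (X (nat_lit 61)) (Nat.mul (nat_lit 2) (H (nat_lit 57)))) (Nat.add (Nat.mul (X (nat_lit 55)) (Nat.mul (nat_lit 8) (H (nat_lit 51)))) (Nat.add (Nat.mul (X (nat_lit 57)) (Nat.mul (nat_lit 8) (H (nat_lit 45)))) (Nat.add (Nat.mul (X (nat_lit 60)) (Nat.add (Nat.mul (nat_lit 8) (H (nat_lit 48))) (Nat.mul (nat_lit 4) (H (nat_lit 49))))) (Nat.mul (X (nat_lit 68)) (Nat.mul (nat_lit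 4) (H (nat_lit 46)))))))))))))))))) (.nd (nat_lit 77) (.nd (nat_lit 71) (.nd (nat_lit 68) (.nd (nat_lit 67) 
 (.lf (.mk fun X _ H => (Nat.add (Nat.mul (X (nat_lit 54)) (Nat.mul (nat_lit 8) (H (nat_lit 55)))) (Nat.add (Nat.mul (X (nat_lit 56)) (Nat.mul (nat_lit 8) (H (nat_lit 55)))) (Nat.add (Nat.mul (X (nat_lit 58)) (Nat.mul (nat_lit 8) (H (nat_lit 55)))) (Nat.add (Nat.mul (X (nat_lit 59)) (Nat.add (Nat.mul (nat_lit 8) (H (nat_lit 46))) (Nat.mul (nat_lit 4) (H (nat_lit 57))))) (Nat.add (Nat.mul (X (nat_lit 61)) (Nat.mul (nat_lit 4) (H (nat_lit 57)))) (Nat.add (Nat.mul (X (nat_lit 55)) (Nat.mul (nat_lit 8) (H (nat_lit 48)))) (Nat.add (Nat.mul (X (nat_lit 57)) (Nat.add (Nat.mul (nat_lit 16) (H (nat_lit 45))) (Nat.mul (nat_lit 8) (H (nat_lit 56))))) (Nat.mul (X (nat_lit 60)) (Nat.add (Nat.mul (nat_lit 8) (H (nat_lit 48))) (Nat.mul (nat_lit 8)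 (H (nat_lit 49)))))))))))))) 
 (.lf (.mk fun X _ H => (Nat.add (Nat.mul (X (nat_lit 54)) (Nat.mul (nat_lit 4) (H (nat_lit 55)))) (Nat.add (Nat.mul (X (nat_lit 56)) (Nat.mul (nat_lit 4) (H (nat_lit 55)))) (Nat.add (Nat.mul (X (nat_lit 55)) (Nat.mul (nat_lit 8) (H (nat_lit 54)))) (Nat.add (Nat.mul (X (nat_lit 57)) (Nat.mul (nat_lit 8) (H (nat_lit 45)))) (Nat.mul (X (nat_lit 69)) (Nat.mul (nat_lit 4) (H (nat_lit 46))))))))))) (.nd (nat_lit 69) 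
 (.lf (.mk fun X _ H => (Nat.add (Nat.mul (X (nat_lit 55)) (Nat.mul (nat_lit 8) (H (nat_lit 50)))) (Nat.mul (X (nat_lit 65)) (Nat.mul (nat_lit 4) (H (nat_lit 46))))))) (.nd (nat_lit 70) 
 (.lf (.mk fun X _ H => (Nat.add (Nat.mul (X (nat_lit 55)) (Nat.mul (nat_lit 8) (H (nat_lit 53)))) (Nat.mul (X (nat_lit 67)) (Nat.mul (nat_lit 4) (H (nat_lit 46))))))) 
 (.lf (.mk fun X Q _ => (Nat.add (Nat.mul (X (nat_lit 60)) (Nat.mul (nat_lit 4) (Q (nat_lit 47)))) (Nat.mul (X (nat_lit 64)) (Nat.mul (nat_lit 2) (Q (nat_lit 57)))))))))) (.nd (nat_lit 74) (.nd (nat_lit 72) 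
 (.lf (.mk fun X Q H => (Nat.add (Nat.mul (X (nat_lit 73)) (Nat.add (Nat.mul (nat_lit 8) (H (nat_lit 59))) (Nat.add (Nat.mul (nat_lit 8) (H (nat_lit 62))) (Nat.add (Nat.mul (nat_lit 8) (H (nat_lit 65))) (Nat.add (Nat.mul (nat_lit 8) (H (nat_lit 66))) (Nat.mul (nat_lit 8) (H (nat_lit 67)))))))) (Nat.add (Nat.mul (X (nat_lit 76)) (Nat.mul (nat_lit 4) (Q (nat_lit 62)))) (Nat.add (Nat.mul (X (nat_lit 78)) (Nat.add (Nat.mul (nat_lit 4) (H (nat_lit 61))) (Nat.mul (nat_lit 4) (H (nat_lit 68))))) (Nat.add (Nat.mul (X (nat_lit 79)) (Nat.add (Nat.mul (nat_lit 4) (H (nat_lit 61))) (Nat.mul (nat_lit 4) (H (nat_lit 68))))) (Nat.add (Nat.mul (X (nat_lit 80)) (Nat.add (Nat.mul (nat_lit 8) (H (nat_lit 68))) (Nat.mul (nat_lit 2) (Q (nat_lit 70))))) (Nat.add (Nat.mul (X (nat_lit 81)) (Nat.add (H (nat_lit 61)) (Nat.mul (nat_lit 4) (H (nat_lit 68))))) (Nat.add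 (Nat.mul (X (nat_lit 82)) (Nat.mul (nat_lit 8) (H (nat_lit 68)))) (Nat.mul (X (nat_lit 83)) (Nat.mul (nat_lit 4) (H (nat_lit 68))))))))))))) (.nd (nat_lit 73) 
 (.lf (.mk fun X _ H => (Nat.add (Nat.mul (X (nat_lit 73)) (Nat.add (Nat.mul (nat_lit 8) (H (nat_lit 59))) (Nat.add (Nat.mul (nat_lit 8) (H (nat_lit 62))) (Nat.add (Nat.mul (nat_lit 8) (H (nat_lit 65))) (Nat.add (Nat.mul (nat_lit 8) (H (nat_lit 66))) (Nat.mul (nat_lit 8) (H (nat_lit 67)))))))) (Nat.add (Nat.mul (X (nat_lit 78)) (Nat.add (Nat.mul (nat_lit 4) (H (nat_lit 61))) (Nat.mul (nat_lit 4) (H (nat_lit 68))))) (Nat.add (Nat.mul (X (nat_lit 79)) (Nat.add (Nat.mul (nat_lit 4) (H (nat_lit 61))) (Nat.mul (nat_lit 4) (H (nat_lit 68))))) (Nat.add (Nat.mul (X (nat_lit 80)) (Nat.mul (nat_lit 8) (H (nat_lit 68)))) (Nat.add (Nat.mul (X (nat_lit 81)) (Nat.mul (nat_lit 4) (H (nat_lit 68))))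 (Nat.add (Nat.mul (X (nat_lit 82)) (Nat.mul (nat_lit 8) (H (nat_lit 68)))) (Nat.mul (X (nat_lit 83)) (Nat.mul (nat_lit 4) (H (nat_lit 68)))))))))))) 
 (.lf (.mk fun X _ H => (Nat.add (Nat.mul (X (nat_lit 71)) (Nat.add (Nat.mul (nat_lit 8) (H (nat_lit 59))) (Nat.add (Nat.mul (nat_lit 8) (H (nat_lit 62))) (Nat.add (Nat.mul (nat_lit 8) (H (nat_lit 65))) (Nat.add (Nat.mul (nat_lit 8) (H (nat_lit 66))) (Nat.mul (nat_lit 8) (H (nat_lit 67)))))))) (Nat.add (Nat.mul (X (nat_lit 72)) (Nat.add (Nat.mul (nat_lit 8) (H (nat_lit 59))) (Nat.add (Nat.mul (nat_lit 8) (H (nat_lit 62))) (Nat.add (Nat.mul (nat_lit 8) (H (nat_lit 65))) (Nat.add (Nat.mul (nat_lit 8) (H (nat_lit 66))) (Nat.mul (nat_lit 8) (H (nat_lit 67)))))))) (Nat.add (Nat.mul (X (nat_lit 74)) (Nat.add (Nat.mul (nat_lit 16) (H (nat_lit 59))) (Nat.add (Nat.mul (nat_lit 8) (H (nat_lit 62))) (Nat.mul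 (nat_lit 8) (H (nat_lit 66)))))) (Nat.add (Nat.mul (X (nat_lit 78)) (Nat.add (Nat.mul (nat_lit 8) (H (nat_lit 60))) (Nat.mul (nat_lit 8) (H (nat_lit 69))))) (Nat.add (Nat.mul (X (nat_lit 79)) (Nat.add (Nat.mul (nat_lit 8) (H (nat_lit 60))) (Nat.mul (nat_lit 8) (H (nat_lit 69))))) (Nat.add (Nat.mul (X (nat_lit 80)) (Nat.add (Nat.mul (nat_lit 16) (H (nat_lit 60))) (Nat.mul (nat_lit 8) (H (nat_lit 69))))) (Nat.add (Nat.mul (X (nat_lit 81)) (Nat.mul (nat_lit 8) (H (nat_lit 60)))) (Nat.add (Nat.mul (X (nat_lit 82)) (Nat.add (Nat.mul (nat_lit 16) (H (nat_lit 60))) (Nat.mul (nat_lit 8) (H (nat_lit 69))))) (Nat.mul (X (nat_lit 83)) (Nat.mul (nat_lit 8) (H (nat_lit 60)))))))))))))))) (.nd (nat_lit 75) 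
 (.lf (.mk fun X _ H => (Nat.add (Nat.mul (X (nat_lit 73)) (Nat.add (Nat.mul (nat_lit 16) (H (nat_lit 59))) (Nat.add (Nat.mul (nat_lit 8) (H (nat_lit 62))) (Nat.mul (nat_lit 8) (H (nat_lit 66)))))) (Nat.add (Nat.mul (X (nat_lit 78)) (Nat.mul (nat_lit 8) (H (nat_lit 68)))) (Nat.add (Nat.mul (X (nat_lit 79)) (Nat.mul (nat_lit 8) (H (nat_lit 68)))) (Nat.add (Nat.mul (X (nat_lit 80)) (Nat.mul (nat_lit 8) (H (nat_lit 68)))) (Nat.mul (X (nat_lit 82)) (Nat.mul (nat_lit 8) (H (nat_lit 68)))))))))) (.nd (nat_lit 76) 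
 (.lf (.mk fun X _ H => (Nat.add (Nat.mul (X (nat_lit 76)) (Nat.add (Nat.mul (nat_lit 16) (H (nat_lit 59))) (Nat.add (Nat.mul (nat_lit 8) (H (nat_lit 62))) (Nat.add (Nat.mul (nat_lit 16) (H (nat_lit 65))) (Nat.mul (nat_lit 8) (H (nat_lit 66))))))) (Nat.add (Nat.mul (X (nat_lit 78)) (Nat.mul (nat_lit 4) (H (nat_lit 70)))) (Nat.add (Nat.mul (X (nat_lit 79)) (Nat.mul (nat_lit 4) (H (nat_lit 70)))) (Nat.add (Nat.mul (X (nat_lit 80)) (Nat.add (Nat.mul (nat_lit 8) (H (nat_lit 61))) (Nat.mul (nat_lit 4) (H (nat_lit 70))))) (Nat.add (Nat.mul (X (nat_lit 81)) (Nat.mul (nat_lit 4) (H (nat_lit 70)))) (Nat.mul (X (nat_lit 82)) (Nat.add (Nat.mul (nat_lit 8) (H (nat_lit 61))) (Nat.mul (nat_lit 4) (H (nat_lit 70)))))))))))) 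
 (.lf (.mk fun X Q H => (Nat.add (Nat.mul (X (nat_lit 71)) (Nat.mul (nat_lit 4) (Q (nat_lit 62)))) (Nat.add (Nat.mul (X (nat_lit 75)) (Nat.add (Nat.mul (nat_lit 16) (H (nat_lit 59))) (Nat.add (Nat.mul (nat_lit 8) (H (nat_lit 62))) (Nat.add (Nat.mul (nat_lit 16) (H (nat_lit 65))) (Nat.mul (nat_lit 8) (H (nat_lit 66))))))) (Nat.add (Nat.mul (X (nat_lit 77)) (Nat.add (Nat.mul (nat_lit 16) (H (nat_lit 59))) (Nat.add (Nat.mul (nat_lit 8) (Q (nat_lit 62))) (Nat.add (Nat.mul (nat_lit 8) (H (nat_lit 65))) (Nat.mul (nat_lit 8) (H (nat_lit 66))))))) (Nat.add (Nat.mul (X (nat_lit 78)) (Nat.add (Nat.mul (nat_lit 8) (H (nat_lit 63))) (Nat.mul (nat_lit 8) (H (nat_lit 64))))) (Nat.add (Nat.mul (X (nat_lit 79)) (Nat.add (Nat.mul (nat_lit 8) (H (nat_lit 63))) (Nat.mul (nat_lit 8) (H (nat_lit 64))))) (Nat.add (Nat.mul (X (nat_lit 80)) (Nat.add (Nat.mul (nat_lit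 8) (H (nat_lit 63))) (Nat.add (Nat.mul (nat_lit 8) (Q (nat_lit 64))) (Nat.mul (nat_lit 4) (Q (nat_lit 71)))))) (Nat.add (Nat.mul (X (nat_lit 81)) (Nat.add (Nat.mul (nat_lit 8) (H (nat_lit 63))) (Nat.mul (nat_lit 4) (H (nat_lit 64))))) (Nat.add (Nat.mul (X (nat_lit 82)) (Nat.add (Nat.mul (nat_lit 8) (H (nat_lit 63))) (Nat.mul (nat_lit 8) (H (nat_lit 64))))) (Nat.mul (X (nat_lit 86)) (Nat.mul (nat_lit 4) (Q (nat_lit 62)))))))))))))))))) (.nd (nat_lit 82) (.nd (nat_lit 79) (.nd (nat_lit 78) 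
 (.lf (.mk fun X Q H => (Nat.add (Nat.mul (X (nat_lit 76)) (Nat.add (Nat.mul (nat_lit 16) (H (nat_lit 59))) (Nat.add (Nat.mul (nat_lit 8) (Q (nat_lit 62))) (Nat.add (Nat.mul (nat_lit 8) (H (nat_lit 65))) (Nat.mul (nat_lit 8) (H (nat_lit 66))))))) (Nat.add (Nat.mul (X (nat_lit 78)) (Nat.mul (nat_lit 4) (H (nat_lit 70)))) (Nat.add (Nat.mul (X (nat_lit 79)) (Nat.mul (nat_lit 4) (H (nat_lit 70)))) (Nat.add (Nat.mul (X (nat_lit 80)) (Nat.add (Nat.mul (nat_lit 4) (H (nat_lit 61))) (Nat.mul (nat_lit 4) (Q (nat_lit 70))))) (Nat.add (Nat.mul (X (nat_lit 81)) (Nat.mul (nat_lit 2) (H (nat_lit 70)))) (Nat.mul (X (nat_lit 82)) (Nat.mul (nat_lit 4) (H (nat_lit 70))))))))))) 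
 (.lf (.mk fun X _ H => (Nat.add (Nat.mul (X (nat_lit 71)) (Nat.add (Nat.mul (nat_lit 4) (H (nat_lit 61))) (Nat.mul (nat_lit 4) (H (nat_lit 68))))) (Nat.add (Nat.mul (X (nat_lit 72)) (Nat.add (Nat.mul (nat_lit 4) (H (nat_lit 61))) (Nat.mul (nat_lit 4) (H (nat_lit 68))))) (Nat.add (Nat.mul (X (nat_lit 74)) (Nat.mul (nat_lit 8) (H (nat_lit 68)))) (Nat.add (Nat.mul (X (nat_lit 75)) (Nat.mul (nat_lit 4) (H (nat_lit 70)))) (Nat.add (Nat.mul (X (nat_lit 77)) (Nat.mul (nat_lit 4) (H (nat_lit 70)))) (Nat.add (Nat.mul (X (nat_lit 73)) (Nat.add (Nat.mul (nat_lit 8) (H (nat_lit 60))) (Nat.mul (nat_lit 8) (H (nat_lit 69))))) (Nat.mul (X (nat_lit 76)) (Nat.add (Nat.mul (nat_lit 8) (H (nat_lit 63))) (Nat.mul (nat_lit 8) (H (nat_lit 64)))))))))))))) (.nd (nat_lit 80) 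
 (.lf (.mk fun X _ H => (Nat.add (Nat.mul (X (nat_lit 71)) (Nat.add (Nat.mul (nat_lit 4) (H (nat_lit 61))) (Nat.mul (nat_lit 4) (H (nat_lit 68))))) (Nat.add (Nat.mul (X (nat_lit 72)) (Nat.add (Nat.mul (nat_lit 4) (H (nat_lit 61))) (Nat.mul (nat_lit 4) (H (nat_lit 68))))) (Nat.add (Nat.mul (X (nat_lit 74)) (Nat.mul (nat_lit 8) (H (nat_lit 68)))) (Nat.add (Nat.mul (X (nat_lit 75)) (Nat.mul (nat_lit 4) (H (nat_lit 70)))) (Nat.add (Nat.mul (X (nat_lit 77)) (Nat.mul (nat_lit 4) (H (nat_lit 70)))) (Nat.add (Nat.mul (X (nat_lit 73)) (Nat.add (Nat.mul (nat_lit 8) (H (nat_lit 60))) (Nat.mul (nat_lit 8) (H (nat_lit 69))))) (Nat.mul (X (nat_lit 76)) (Nat.add (Nat.mul (nat_lit 8) (H (nat_lit 63))) (Nat.mul (nat_lit 8) (H (nat_lit 64))))))))))))) (.nd (nat_lit 81) 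
 (.lf (.mk fun X Q H => (Nat.add (Nat.mul (X (nat_lit 71)) (Nat.add (Nat.mul (nat_lit 8) (H (nat_lit 68))) (Nat.mul (nat_lit 2) (Q (nat_lit 70))))) (Nat.add (Nat.mul (X (nat_lit 72)) (Nat.mul (nat_lit 8) (H (nat_lit 68)))) (Nat.add (Nat.mul (X (nat_lit 74)) (Nat.mul (nat_lit 8) (H (nat_lit 68)))) (Nat.add (Nat.mul (X (nat_lit 75)) (Nat.add (Nat.mul (nat_lit 8) (H (nat_lit 61))) (Nat.mul (nat_lit 4) (H (nat_lit 70))))) (Nat.add (Nat.mul (X (nat_lit 77)) (Nat.add (Nat.mul (nat_lit 4) (H (nat_lit 61))) (Nat.mul (nat_lit 4) (Q (nat_lit 70))))) (Nat.add (Nat.mul (X (nat_lit 73)) (Nat.add (Nat.mul (nat_lit 16) (H (nat_lit 60))) (Nat.mul (nat_lit 8) (H (nat_lit 69))))) (Nat.add (Nat.mul (X (nat_lit 76)) (Nat.add (Nat.mul (nat_lit 8) (H (nat_lit 63))) (Nat.add (Nat.mul (nat_lit 8) (Q (nat_lit 64))) (Nat.mul (nat_lit 4) (Q (nat_lit 71)))))) (Nat.mul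 (X (nat_lit 86)) (Nat.mul (nat_lit 2) (Q (nat_lit 70))))))))))))) 
 (.lf (.mk fun X _ H => (Nat.add (Nat.mul (X (nat_lit 71)) (Nat.add (H (nat_lit 61)) (Nat.mul (nat_lit 4) (H (nat_lit 68))))) (Nat.add (Nat.mul (X (nat_lit 72)) (Nat.mul (nat_lit 4) (H (nat_lit 68)))) (Nat.add (Nat.mul (X (nat_lit 75)) (Nat.mul (nat_lit 4) (H (nat_lit 70)))) (Nat.add (Nat.mul (X (nat_lit 77)) (Nat.mul (nat_lit 2) (H (nat_lit 70)))) (Nat.add (Nat.mul (X (nat_lit 73)) (Nat.mul (nat_lit 8) (H (nat_lit 60)))) (Nat.add (Nat.mul (X (nat_lit 76)) (Nat.add (Nat.mul (nat_lit 8) (H (nat_lit 63))) (Nat.mul (nat_lit 4) (H (nat_lit 64))))) (Nat.mul (X (nat_lit 84)) (Nat.mul (nat_lit 4) (H (nat_lit 61))))))))))))))) (.nd (nat_lit 85) (.nd (nat_lit 83) 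
 (.lf (.mk fun X _ H => (Nat.add (Nat.mul (X (nat_lit 71)) (Nat.mul (nat_lit 8) (H (nat_lit 68)))) (Nat.add (Nat.mul (X (nat_lit 72)) (Nat.mul (nat_lit 8) (H (nat_lit 68)))) (Nat.add (Nat.mul (X (nat_lit 74)) (Nat.mul (nat_lit 8) (H (nat_lit 68)))) (Nat.add (Nat.mul (X (nat_lit 75)) (Nat.add (Nat.mul (nat_lit 8) (H (nat_lit 61))) (Nat.mul (nat_lit 4) (H (nat_lit 70))))) (Nat.add (Nat.mul (X (nat_lit 77)) (Nat.mul (nat_lit 4) (H (nat_lit 70)))) (Nat.add (Nat.mul (X (nat_lit 73)) (Nat.add (Nat.mul (nat_lit 16) (H (nat_lit 60))) (Nat.mul (nat_lit 8) (H (nat_lit 69))))) (Nat.mul (X (nat_lit 76)) (Nat.add (Nat.mul (nat_lit 8) (H (nat_lit 63))) (Nat.mul (nat_lit 8) (H (nat_lit 64))))))))))))) (.nd (nat_lit 84) 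
 (.lf (.mk fun X _ H => (Nat.add (Nat.mul (X (nat_lit 71)) (Nat.mul (nat_lit 4) (H (nat_lit 68)))) (Nat.add (Nat.mul (X (nat_lit 72)) (Nat.mul (nat_lit 4) (H (nat_lit 68)))) (Nat.add (Nat.mul (X (nat_lit 73)) (Nat.mul (nat_lit 8) (H (nat_lit 60)))) (Nat.mul (X (nat_lit 85)) (Nat.mul (nat_lit 4) (H (nat_lit 61))))))))) 
 (.lf (.mk fun X _ H => (Nat.mul (X (nat_lit 81)) (Nat.mul (nat_lit 4) (H (nat_lit 61)))))))) (.nd (nat_lit 86) 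
 (.lf (.mk fun X _ H => (Nat.mul (X (nat_lit 83)) (Nat.mul (nat_lit 4) (H (nat_lit 61)))))) (.nd (nat_lit 87) 
 (.lf (.mk fun X Q _ => (Nat.add (Nat.mul (X (nat_lit 76)) (Nat.mul (nat_lit 4) (Q (nat_lit 62)))) (Nat.mul (X (nat_lit 80)) (Nat.mul (nat_lit 2) (Q (nat_lit 70))))))) 
 (.lf (.mk fun X Q H => (Nat.add (Nat.mul (X (nat_lit 88)) (Nat.add (Nat.mul (nat_lit 8) (H (nat_lit 72))) (Nat.mul (nat_lit 2) (H (nat_lit 78))))) (Nat.add (Nat.mul (X (nat_lit 90)) (Nat.add (Nat.mul (nat_lit 8) (H (nat_lit 72))) (Nat.add (Nat.mul (nat_lit 8) (H (nat_lit 75))) (Nat.add (Nat.mul (nat_lit 8) (H (nat_lit 78))) (Nat.add (Nat.mul (nat_lit 8) (H (nat_lit 80))) (Nat.mul (nat_lit 8) (H (nat_lit 81)))))))) (Nat.add (Nat.mul (X (nat_lit 93)) (Nat.mul (nat_lit 4) (Q (nat_lit 75)))) (Nat.add (Nat.mul (X (nat_lit 95)) (Nat.add (Nat.mul (nat_lit 4) (H (nat_lit 74)))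 (Nat.mul (nat_lit 4) (H (nat_lit 83))))) (Nat.add (Nat.mul (X (nat_lit 96)) (Nat.add (Nat.mul (nat_lit 4) (H (nat_lit 74))) (Nat.mul (nat_lit 4) (H (nat_lit 83))))) (Nat.add (Nat.mul (X (nat_lit 97)) (Nat.add (Nat.mul (nat_lit 8) (H (nat_lit 83))) (Nat.mul (nat_lit 2) (Q (nat_lit 85))))) (Nat.add (Nat.mul (X (nat_lit 98)) (Nat.add (H (nat_lit 74)) (Nat.mul (nat_lit 4) (H (nat_lit 83))))) (Nat.add (Nat.mul (X (nat_lit 99)) (Nat.mul (nat_lit 8) (H (nat_lit 83)))) (Nat.mul (X (nat_lit 100)) (Nat.mul (nat_lit 4) (H (nat_lit 83))))))))))))))))))))) (.nd (nat_lit 132) (.nd (nat_lit 110) (.nd (nat_lit 99) (.nd (nat_lit 93) (.nd (nat_lit 90) (.nd (nat_lit 89) 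
 (.lf (.mk fun X _ H => (Nat.add (Nat.mul (X (nat_lit 87)) (Nat.add (Nat.mul (nat_lit 8) (H (nat_lit 72))) (Nat.mul (nat_lit 2) (H (nat_lit 78))))) (Nat.add (Nat.mul (X (nat_lit 89)) (Nat.mul (nat_lit 8) (H (nat_lit 72)))) (Nat.add (Nat.mul (X (nat_lit 92)) (Nat.add (Nat.mul (nat_lit 8) (H (nat_lit 75))) (Nat.mul (nat_lit 8) (H (nat_lit 80))))) (Nat.add (Nat.mul (X (nat_lit 94)) (Nat.mul (nat_lit 4) (H (nat_lit 75)))) (Nat.add (Nat.mul (X (nat_lit 95)) (Nat.mul (nat_lit 8) (H (nat_lit 73)))) (Nat.add (Nat.mul (X (nat_lit 96)) (Nat.mul (nat_lit 8) (H (nat_lit 73)))) (Nat.add (Nat.mul (X (nat_lit 97)) (Nat.add (Nat.mul (nat_lit 8) (H (nat_lit 76))) (Nat.mul (nat_lit 4) (H (nat_lit 77))))) (Nat.add (Nat.mul (X (nat_lit 98)) (Nat.mul (nat_lit 8) (H (nat_lit 79)))) (Nat.add (Nat.mul (X (nat_lit 99)) (Nat.mul (nat_lit 8) (H (nat_lit 76)))) (Nat.add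 (Nat.mul (X (nat_lit 100)) (Nat.mul (nat_lit 8) (H (nat_lit 82)))) (Nat.add (Nat.mul (X (nat_lit 101)) (Nat.mul (nat_lit 8) (H (nat_lit 78)))) (Nat.mul (X (nat_lit 102)) (Nat.mul (nat_lit 8) (H (nat_lit 81))))))))))))))))) 
 (.lf (.mk fun X _ H => (Nat.add (Nat.mul (X (nat_lit 88)) (Nat.mul (nat_lit 8) (H (nat_lit 72)))) (Nat.add (Nat.mul (X (nat_lit 90)) (Nat.add (Nat.mul (nat_lit 8) (H (nat_lit 72))) (Nat.add (Nat.mul (nat_lit 8) (H (nat_lit 75))) (Nat.add (Nat.mul (nat_lit 8) (H (nat_lit 78))) (Nat.add (Nat.mul (nat_lit 8) (H (nat_lit 80))) (Nat.mul (nat_lit 8) (H (nat_lit 81)))))))) (Nat.add (Nat.mul (X (nat_lit 95)) (Nat.add (Nat.mul (nat_lit 4) (H (nat_lit 74))) (Nat.mul (nat_lit 4) (H (nat_lit 83))))) (Nat.add (Nat.mul (X (nat_lit 96)) (Nat.add (Nat.mul (nat_lit 4) (H (nat_lit 74))) (Nat.mul (nat_lit 4) (H (nat_lit 83))))) (Nat.add (Nat.mul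 (X (nat_lit 97)) (Nat.mul (nat_lit 8) (H (nat_lit 83)))) (Nat.add (Nat.mul (X (nat_lit 98)) (Nat.mul (nat_lit 4) (H (nat_lit 83)))) (Nat.add (Nat.mul (X (nat_lit 99)) (Nat.mul (nat_lit 8) (H (nat_lit 83)))) (Nat.mul (X (nat_lit 100)) (Nat.mul (nat_lit 4) (H (nat_lit 83)))))))))))))) (.nd (nat_lit 91) 
 (.lf (.mk fun X _ H => (Nat.add (Nat.mul (X (nat_lit 87)) (Nat.add (Nat.mul (nat_lit 8) (H (nat_lit 72))) (Nat.add (Nat.mul (nat_lit 8) (H (nat_lit 75))) (Nat.add (Nat.mul (nat_lit 8) (H (nat_lit 78))) (Nat.add (Nat.mul (nat_lit 8) (H (nat_lit 80))) (Nat.mul (nat_lit 8) (H (nat_lit 81)))))))) (Nat.add (Nat.mul (X (nat_lit 89)) (Nat.add (Nat.mul (nat_lit 8) (H (nat_lit 72))) (Nat.add (Nat.mul (nat_lit 8) (H (nat_lit 75))) (Nat.add (Nat.mul (nat_lit 8) (H (nat_lit 78))) (Nat.add (Nat.mul (nat_lit 8) (H (nat_lit 80))) (Nat.mul (nat_lit 8) (H (nat_lit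 81)))))))) (Nat.add (Nat.mul (X (nat_lit 91)) (Nat.add (Nat.mul (nat_lit 16) (H (nat_lit 72))) (Nat.add (Nat.mul (nat_lit 8) (H (nat_lit 75))) (Nat.mul (nat_lit 8) (H (nat_lit 80)))))) (Nat.add (Nat.mul (X (nat_lit 95)) (Nat.add (Nat.mul (nat_lit 8) (H (nat_lit 73))) (Nat.mul (nat_lit 8) (H (nat_lit 84))))) (Nat.add (Nat.mul (X (nat_lit 96)) (Nat.add (Nat.mul (nat_lit 8) (H (nat_lit 73))) (Nat.mul (nat_lit 8) (H (nat_lit 84))))) (Nat.add (Nat.mul (X (nat_lit 97)) (Nat.add (Nat.mul (nat_lit 16) (H (nat_lit 73))) (Nat.mul (nat_lit 8) (H (nat_lit 84))))) (Nat.add (Nat.mul (X (nat_lit 98)) (Nat.mul (nat_lit 8) (H (nat_lit 73)))) (Nat.add (Nat.mul (X (nat_lit 99)) (Nat.add (Nat.mul (nat_lit 16) (H (nat_lit 73))) (Nat.mul (nat_lit 8) (H (nat_lit 84))))) (Nat.mul (X (nat_lit 100)) (Nat.mul (nat_lit 8) (H (nat_lit 73)))))))))))))) (.nd (nat_lit 92)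 
 (.lf (.mk fun X _ H => (Nat.add (Nat.mul (X (nat_lit 90)) (Nat.add (Nat.mul (nat_lit 16) (H (nat_lit 72))) (Nat.add (Nat.mul (nat_lit 8) (H (nat_lit 75))) (Nat.mul (nat_lit 8) (H (nat_lit 80)))))) (Nat.add (Nat.mul (X (nat_lit 95)) (Nat.mul (nat_lit 8) (H (nat_lit 83)))) (Nat.add (Nat.mul (X (nat_lit 96)) (Nat.mul (nat_lit 8) (H (nat_lit 83)))) (Nat.add (Nat.mul (X (nat_lit 97)) (Nat.mul (nat_lit 8) (H (nat_lit 83)))) (Nat.mul (X (nat_lit 99)) (Nat.mul (nat_lit 8) (H (nat_lit 83)))))))))) 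
 (.lf (.mk fun X _ H => (Nat.add (Nat.mul (X (nat_lit 88)) (Nat.add (Nat.mul (nat_lit 8) (H (nat_lit 75))) (Nat.mul (nat_lit 8) (H (nat_lit 80))))) (Nat.add (Nat.mul (X (nat_lit 93)) (Nat.add (Nat.mul (nat_lit 16) (H (nat_lit 72))) (Nat.add (Nat.mul (nat_lit 8) (H (nat_lit 75))) (Nat.add (Nat.mul (nat_lit 16) (H (nat_lit 78))) (Nat.mul (nat_lit 8) (H (nat_lit 80))))))) (Nat.add (Nat.mul (X (nat_lit 95)) (Nat.mul (nat_lit 4) (H (nat_lit 85)))) (Nat.add (Nat.mul (X (nat_lit 96)) (Nat.mul (nat_lit 4) (H (nat_lit 85)))) (Nat.add (Nat.mul (X (nat_lit 97)) (Nat.add (Nat.mul (nat_lit 8) (H (nat_lit 74))) (Nat.mul (nat_lit 4) (H (nat_lit 85))))) (Nat.add (Nat.mul (X (nat_lit 98)) (Nat.mul (nat_lit 4) (H (nat_lit 85)))) (Nat.mul (X (nat_lit 99)) (Nat.add (Nat.mul (nat_lit 8) (H (nat_lit 74))) (Nat.mul (nat_lit 4) (H (nat_lit 85)))))))))))))))) (.nd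 (nat_lit 96) (.nd (nat_lit 94) 
 (.lf (.mk fun X Q H => (Nat.add (Nat.mul (X (nat_lit 87)) (Nat.mul (nat_lit 4) (Q (nat_lit 75)))) (Nat.add (Nat.mul (X (nat_lit 92)) (Nat.add (Nat.mul (nat_lit 16) (H (nat_lit 72))) (Nat.add (Nat.mul (nat_lit 8) (H (nat_lit 75))) (Nat.add (Nat.mul (nat_lit 16) (H (nat_lit 78))) (Nat.mul (nat_lit 8) (H (nat_lit 80))))))) (Nat.add (Nat.mul (X (nat_lit 94)) (Nat.add (Nat.mul (nat_lit 16) (H (nat_lit 72))) (Nat.add (Nat.mul (nat_lit 8) (Q (nat_lit 75))) (Nat.add (Nat.mul (nat_lit 8) (H (nat_lit 78))) (Nat.mul (nat_lit 8) (H (nat_lit 80))))))) (Nat.add (Nat.mul (X (nat_lit 95)) (Nat.add (Nat.mul (nat_lit 8) (H (nat_lit 76))) (Nat.mul (nat_lit 8) (H (nat_lit 77))))) (Nat.add (Nat.mul (X (nat_lit 96)) (Nat.add (Nat.mul (nat_lit 8) (H (nat_lit 76))) (Nat.mul (nat_lit 8) (H (nat_lit 77))))) (Nat.add (Nat.mul (X (nat_lit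 97)) (Nat.add (Nat.mul (nat_lit 8) (H (nat_lit 76))) (Nat.add (Nat.mul (nat_lit 8) (Q (nat_lit 77))) (Nat.mul (nat_lit 4) (Q (nat_lit 86)))))) (Nat.add (Nat.mul (X (nat_lit 98)) (Nat.add (Nat.mul (nat_lit 8) (H (nat_lit 76))) (Nat.mul (nat_lit 4) (H (nat_lit 77))))) (Nat.add (Nat.mul (X (nat_lit 99)) (Nat.add (Nat.mul (nat_lit 8) (H (nat_lit 76))) (Nat.mul (nat_lit 8) (H (nat_lit 77))))) (Nat.mul (X (nat_lit 103)) (Nat.mul (nat_lit 4) (Q (nat_lit 75)))))))))))))) (.nd (nat_lit 95) 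
 (.lf (.mk fun X Q H => (Nat.add (Nat.mul (X (nat_lit 88)) (Nat.mul (nat_lit 4) (H (nat_lit 75)))) (Nat.add (Nat.mul (X (nat_lit 93)) (Nat.add (Nat.mul (nat_lit 16) (H (nat_lit 72))) (Nat.add (Nat.mul (nat_lit 8) (Q (nat_lit 75))) (Nat.add (Nat.mul (nat_lit 8) (H (nat_lit 78))) (Nat.mul (nat_lit 8) (H (nat_lit 80))))))) (Nat.add (Nat.mul (X (nat_lit 95)) (Nat.mul (nat_lit 4) (H (nat_lit 85)))) (Nat.add (Nat.mul (X (nat_lit 96)) (Nat.mul (nat_lit 4) (H (nat_lit 85)))) (Nat.add (Nat.mul (X (nat_lit 97)) (Nat.add (Nat.mul (nat_lit 4) (H (nat_lit 74))) (Nat.mul (nat_lit 4) (Q (nat_lit 85))))) (Nat.add (Nat.mul (X (nat_lit 98)) (Nat.mul (nat_lit 2) (H (nat_lit 85)))) (Nat.mul (X (nat_lit 99)) (Nat.mul (nat_lit 4) (H (nat_lit 85)))))))))))) 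
 (.lf (.mk fun X _ H => (Nat.add (Nat.mul (X (nat_lit 87)) (Nat.add (Nat.mul (nat_lit 4) (H (nat_lit 74))) (Nat.mul (nat_lit 4) (H (nat_lit 83))))) (Nat.add (Nat.mul (X (nat_lit 89)) (Nat.add (Nat.mul (nat_lit 4) (H (nat_lit 74))) (Nat.mul (nat_lit 4) (H (nat_lit 83))))) (Nat.add (Nat.mul (X (nat_lit 91)) (Nat.mul (nat_lit 8) (H (nat_lit 83)))) (Nat.add (Nat.mul (X (nat_lit 92)) (Nat.mul (nat_lit 4) (H (nat_lit 85)))) (Nat.add (Nat.mul (X (nat_lit 94)) (Nat.mul (nat_lit 4) (H (nat_lit 85)))) (Nat.add (Nat.mul (X (nat_lit 88)) (Nat.mul (nat_lit 8) (H (nat_lit 73)))) (Nat.add (Nat.mul (X (nat_lit 90)) (Nat.add (Nat.mul (nat_lit 8) (H (nat_lit 73))) (Nat.mul (nat_lit 8) (H (nat_lit 84))))) (Nat.mul (X (nat_lit 93)) (Nat.add (Nat.mul (nat_lit 8) (H (nat_lit 76))) (Nat.mul (nat_lit 8) (H (nat_lit 77)))))))))))))))) (.nd (nat_lit 97) 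
 (.lf (.mk fun X _ H => (Nat.add (Nat.mul (X (nat_lit 87)) (Nat.add (Nat.mul (nat_lit 4) (H (nat_lit 74))) (Nat.mul (nat_lit 4) (H (nat_lit 83))))) (Nat.add (Nat.mul (X (nat_lit 89)) (Nat.add (Nat.mul (nat_lit 4) (H (nat_lit 74))) (Nat.mul (nat_lit 4) (H (nat_lit 83))))) (Nat.add (Nat.mul (X (nat_lit 91)) (Nat.mul (nat_lit 8) (H (nat_lit 83)))) (Nat.add (Nat.mul (X (nat_lit 92)) (Nat.mul (nat_lit 4) (H (nat_lit 85)))) (Nat.add (Nat.mul (X (nat_lit 94)) (Nat.mul (nat_lit 4) (H (nat_lit 85)))) (Nat.add (Nat.mul (X (nat_lit 88)) (Nat.mul (nat_lit 8) (H (nat_lit 73)))) (Nat.add (Nat.mul (X (nat_lit 90)) (Nat.add (Nat.mul (nat_lit 8) (H (nat_lit 73))) (Nat.mul (nat_lit 8) (H (nat_lit 84))))) (Nat.mul (X (nat_lit 93)) (Nat.add (Nat.mul (nat_lit 8) (H (nat_lit 76))) (Nat.mul (nat_lit 8) (H (nat_lit 77)))))))))))))) (.nd (nat_lit 98) 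
 (.lf (.mk fun X Q H => (Nat.add (Nat.mul (X (nat_lit 87)) (Nat.add (Nat.mul (nat_lit 8) (H (nat_lit 83))) (Nat.mul (nat_lit 2) (Q (nat_lit 85))))) (Nat.add (Nat.mul (X (nat_lit 89)) (Nat.mul (nat_lit 8) (H (nat_lit 83)))) (Nat.add (Nat.mul (X (nat_lit 91)) (Nat.mul (nat_lit 8) (H (nat_lit 83)))) (Nat.add (Nat.mul (X (nat_lit 92)) (Nat.add (Nat.mul (nat_lit 8) (H (nat_lit 74))) (Nat.mul (nat_lit 4) (H (nat_lit 85))))) (Nat.add (Nat.mul (X (nat_lit 94)) (Nat.add (Nat.mul (nat_lit 4) (H (nat_lit 74))) (Nat.mul (nat_lit 4) (Q (nat_lit 85))))) (Nat.add (Nat.mul (X (nat_lit 88)) (Nat.add (Nat.mul (nat_lit 8) (H (nat_lit 76))) (Nat.mul (nat_lit 4) (H (nat_lit 77))))) (Nat.add (Nat.mul (X (nat_lit 90)) (Nat.add (Nat.mul (nat_lit 16) (H (nat_lit 73))) (Nat.mul (nat_lit 8) (H (nat_lit 84))))) (Nat.add (Nat.mul (X (nat_lit 93)) (Nat.add (Nat.mul (nat_lit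 8) (H (nat_lit 76))) (Nat.add (Nat.mul (nat_lit 8) (Q (nat_lit 77))) (Nat.mul (nat_lit 4) (Q (nat_lit 86)))))) (Nat.mul (X (nat_lit 103)) (Nat.mul (nat_lit 2) (Q (nat_lit 85)))))))))))))) 
 (.lf (.mk fun X _ H => (Nat.add (Nat.mul (X (nat_lit 87)) (Nat.add (H (nat_lit 74)) (Nat.mul (nat_lit 4) (H (nat_lit 83))))) (Nat.add (Nat.mul (X (nat_lit 89)) (Nat.mul (nat_lit 4) (H (nat_lit 83)))) (Nat.add (Nat.mul (X (nat_lit 92)) (Nat.mul (nat_lit 4) (H (nat_lit 85)))) (Nat.add (Nat.mul (X (nat_lit 94)) (Nat.mul (nat_lit 2) (H (nat_lit 85)))) (Nat.add (Nat.mul (X (nat_lit 88)) (Nat.mul (nat_lit 8) (H (nat_lit 79)))) (Nat.add (Nat.mul (X (nat_lit 90)) (Nat.mul (nat_lit 8) (H (nat_lit 73)))) (Nat.add (Nat.mul (X (nat_lit 93)) (Nat.add (Nat.mul (nat_lit 8) (H (nat_lit 76))) (Nat.mul (nat_lit 4) (H (nat_lit 77))))) (Nat.mul (X (nat_lit 101)) (Nat.mul (nat_lit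 4) (H (nat_lit 74))))))))))))))))) (.nd (nat_lit 104) (.nd (nat_lit 101) (.nd (nat_lit 100) 
 (.lf (.mk fun X _ H => (Nat.add (Nat.mul (X (nat_lit 87)) (Nat.mul (nat_lit 8) (H (nat_lit 83)))) (Nat.add (Nat.mul (X (nat_lit 89)) (Nat.mul (nat_lit 8) (H (nat_lit 83)))) (Nat.add (Nat.mul (X (nat_lit 91)) (Nat.mul (nat_lit 8) (H (nat_lit 83)))) (Nat.add (Nat.mul (X (nat_lit 92)) (Nat.add (Nat.mul (nat_lit 8) (H (nat_lit 74))) (Nat.mul (nat_lit 4) (H (nat_lit 85))))) (Nat.add (Nat.mul (X (nat_lit 94)) (Nat.mul (nat_lit 4) (H (nat_lit 85)))) (Nat.add (Nat.mul (X (nat_lit 88)) (Nat.mul (nat_lit 8) (H (nat_lit 76)))) (Nat.add (Nat.mul (X (nat_lit 90)) (Nat.add (Nat.mul (nat_lit 16) (H (nat_lit 73))) (Nat.mul (nat_lit 8) (H (nat_lit 84))))) (Nat.mul (X (nat_lit 93)) (Nat.add (Nat.mul (nat_lit 8) (H (nat_lit 76))) (Nat.mul (nat_lit 8) (H (nat_lit 77))))))))))))))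 
 (.lf (.mk fun X _ H => (Nat.add (Nat.mul (X (nat_lit 87)) (Nat.mul (nat_lit 4) (H (nat_lit 83)))) (Nat.add (Nat.mul (X (nat_lit 89)) (Nat.mul (nat_lit 4) (H (nat_lit 83)))) (Nat.add (Nat.mul (X (nat_lit 88)) (Nat.mul (nat_lit 8) (H (nat_lit 82)))) (Nat.add (Nat.mul (X (nat_lit 90)) (Nat.mul (nat_lit 8) (H (nat_lit 73)))) (Nat.mul (X (nat_lit 102)) (Nat.mul (nat_lit 4) (H (nat_lit 74))))))))))) (.nd (nat_lit 102) 
 (.lf (.mk fun X _ H => (Nat.add (Nat.mul (X (nat_lit 88)) (Nat.mul (nat_lit 8) (H (nat_lit 78)))) (Nat.mul (X (nat_lit 98)) (Nat.mul (nat_lit 4) (H (nat_lit 74))))))) (.nd (nat_lit 103) 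
 (.lf (.mk fun X _ H => (Nat.add (Nat.mul (X (nat_lit 88)) (Nat.mul (nat_lit 8) (H (nat_lit 81)))) (Nat.mul (X (nat_lit 100)) (Nat.mul (nat_lit 4) (H (nat_lit 74))))))) 
 (.lf (.mk fun X Q _ => (Nat.add (Nat.mul (X (nat_lit 93)) (Nat.mul (nat_lit 4) (Q (nat_lit 75)))) (Nat.mul (X (nat_lit 97)) (Nat.mul (nat_lit 2) (Q (nat_lit 85)))))))))) (.nd (nat_lit 107) (.nd (nat_lit 105) 
 (.lf (.mk fun X _ H => (Nat.add (Nat.mul (X (nat_lit 105)) (Nat.add (Nat.mul (nat_lit 8) (H (nat_lit 87))) (Nat.add (Nat.mul (nat_lit 8) (H (nat_lit 90))) (Nat.add (Nat.mul (nat_lit 8) (H (nat_lit 93))) (Nat.add (Nat.mul (nat_lit 8) (H (nat_lit 94))) (Nat.mul (nat_lit 8) (H (nat_lit 95)))))))) (Nat.add (Nat.mul (X (nat_lit 110)) (Nat.add (Nat.mul (nat_lit 4) (H (nat_lit 89))) (Nat.mul (nat_lit 4) (H (nat_lit 96))))) (Nat.add (Nat.mul (X (nat_lit 111)) (Nat.add (Nat.mul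 (nat_lit 4) (H (nat_lit 89))) (Nat.mul (nat_lit 4) (H (nat_lit 96))))) (Nat.add (Nat.mul (X (nat_lit 112)) (Nat.mul (nat_lit 8) (H (nat_lit 96)))) (Nat.add (Nat.mul (X (nat_lit 113)) (Nat.mul (nat_lit 8) (H (nat_lit 96)))) (Nat.mul (X (nat_lit 114)) (Nat.mul (nat_lit 4) (H (nat_lit 96))))))))))) (.nd (nat_lit 106) 
 (.lf (.mk fun X _ H => (Nat.add (Nat.mul (X (nat_lit 104)) (Nat.add (Nat.mul (nat_lit 8) (H (nat_lit 87))) (Nat.add (Nat.mul (nat_lit 8) (H (nat_lit 90))) (Nat.add (Nat.mul (nat_lit 8) (H (nat_lit 93))) (Nat.add (Nat.mul (nat_lit 8) (H (nat_lit 94))) (Nat.mul (nat_lit 8) (H (nat_lit 95)))))))) (Nat.add (Nat.mul (X (nat_lit 106)) (Nat.add (Nat.mul (nat_lit 16) (H (nat_lit 87))) (Nat.add (Nat.mul (nat_lit 8) (H (nat_lit 90))) (Nat.mul (nat_lit 8) (H (nat_lit 94)))))) (Nat.add (Nat.mul (X (nat_lit 110)) (Nat.add (Nat.mul (nat_lit 8)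 (H (nat_lit 88))) (Nat.mul (nat_lit 8) (H (nat_lit 97))))) (Nat.add (Nat.mul (X (nat_lit 111)) (Nat.add (Nat.mul (nat_lit 8) (H (nat_lit 88))) (Nat.mul (nat_lit 8) (H (nat_lit 97))))) (Nat.add (Nat.mul (X (nat_lit 112)) (Nat.add (Nat.mul (nat_lit 16) (H (nat_lit 88))) (Nat.mul (nat_lit 8) (H (nat_lit 97))))) (Nat.add (Nat.mul (X (nat_lit 113)) (Nat.add (Nat.mul (nat_lit 16) (H (nat_lit 88))) (Nat.mul (nat_lit 8) (H (nat_lit 97))))) (Nat.mul (X (nat_lit 114)) (Nat.mul (nat_lit 8) (H (nat_lit 88)))))))))))) 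
 (.lf (.mk fun X _ H => (Nat.add (Nat.mul (X (nat_lit 105)) (Nat.add (Nat.mul (nat_lit 16) (H (nat_lit 87))) (Nat.add (Nat.mul (nat_lit 8) (H (nat_lit 90))) (Nat.mul (nat_lit 8) (H (nat_lit 94)))))) (Nat.add (Nat.mul (X (nat_lit 110)) (Nat.mul (nat_lit 8) (H (nat_lit 96)))) (Nat.add (Nat.mul (X (nat_lit 111)) (Nat.mul (nat_lit 8) (H (nat_lit 96)))) (Nat.add (Nat.mul (X (nat_lit 112)) (Nat.mul (nat_lit 8) (H (nat_lit 96)))) (Nat.mul (X (nat_lit 113)) (Nat.mul (nat_lit 8) (H (nat_lit 96)))))))))))) (.nd (nat_lit 108) 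
 (.lf (.mk fun X _ H => (Nat.add (Nat.mul (X (nat_lit 108)) (Nat.add (Nat.mul (nat_lit 16) (H (nat_lit 87))) (Nat.add (Nat.mul (nat_lit 8) (H (nat_lit 90))) (Nat.add (Nat.mul (nat_lit 16) (H (nat_lit 93))) (Nat.mul (nat_lit 8) (H (nat_lit 94))))))) (Nat.add (Nat.mul (X (nat_lit 110)) (Nat.mul (nat_lit 4) (H (nat_lit 98)))) (Nat.add (Nat.mul (X (nat_lit 111)) (Nat.mul (nat_lit 4) (H (nat_lit 98)))) (Nat.add (Nat.mul (X (nat_lit 112)) (Nat.add (Nat.mul (nat_lit 8) (H (nat_lit 89))) (Nat.mul (nat_lit 4) (H (nat_lit 98))))) (Nat.mul (X (nat_lit 113)) (Nat.add (Nat.mul (nat_lit 8) (H (nat_lit 89))) (Nat.mul (nat_lit 4) (H (nat_lit 98))))))))))) (.nd (nat_lit 109) 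
 (.lf (.mk fun X Q H => (Nat.add (Nat.mul (X (nat_lit 107)) (Nat.add (Nat.mul (nat_lit 16) (H (nat_lit 87))) (Nat.add (Nat.mul (nat_lit 8) (H (nat_lit 90))) (Nat.add (Nat.mul (nat_lit 16) (H (nat_lit 93))) (Nat.mul (nat_lit 8) (H (nat_lit 94))))))) (Nat.add (Nat.mul (X (nat_lit 109)) (Nat.add (Nat.mul (nat_lit 16) (H (nat_lit 87))) (Nat.add (Nat.mul (nat_lit 8) (Q (nat_lit 90))) (Nat.add (Nat.mul (nat_lit 8) (H (nat_lit 93))) (Nat.mul (nat_lit 8) (H (nat_lit 94))))))) (Nat.add (Nat.mul (X (nat_lit 110)) (Nat.add (Nat.mul (nat_lit 8) (H (nat_lit 91))) (Nat.mul (nat_lit 8) (H (nat_lit 92))))) (Nat.add (Nat.mul (X (nat_lit 111)) (Nat.add (Nat.mul (nat_lit 8) (H (nat_lit 91))) (Nat.mul (nat_lit 8) (H (nat_lit 92))))) (Nat.add (Nat.mul (X (nat_lit 112)) (Nat.add (Nat.mul (nat_lit 8) (H (nat_lit 91))) (Nat.add (Nat.mul (nat_lit 8) (Q (nat_lit 92)))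 (Nat.mul (nat_lit 4) (Q (nat_lit 99)))))) (Nat.add (Nat.mul (X (nat_lit 113)) (Nat.add (Nat.mul (nat_lit 8) (H (nat_lit 91))) (Nat.mul (nat_lit 8) (H (nat_lit 92))))) (Nat.mul (X (nat_lit 117)) (Nat.mul (nat_lit 4) (Q (nat_lit 90)))))))))))) 
 (.lf (.mk fun X Q H => (Nat.add (Nat.mul (X (nat_lit 108)) (Nat.add (Nat.mul (nat_lit 16) (H (nat_lit 87))) (Nat.add (Nat.mul (nat_lit 8) (Q (nat_lit 90))) (Nat.add (Nat.mul (nat_lit 8) (H (nat_lit 93))) (Nat.mul (nat_lit 8) (H (nat_lit 94))))))) (Nat.add (Nat.mul (X (nat_lit 110)) (Nat.mul (nat_lit 4) (H (nat_lit 98)))) (Nat.add (Nat.mul (X (nat_lit 111)) (Nat.mul (nat_lit 4) (H (nat_lit 98)))) (Nat.add (Nat.mul (X (nat_lit 112)) (Nat.add (Nat.mul (nat_lit 4) (H (nat_lit 89))) (Nat.mul (nat_lit 4) (Q (nat_lit 98))))) (Nat.mul (X (nat_lit 113)) (Nat.mul (nat_lit 4) (H (nat_lit 98))))))))))))))) (.nd (nat_lit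 121) (.nd (nat_lit 115) (.nd (nat_lit 112) (.nd (nat_lit 111) 
 (.lf (.mk fun X _ H => (Nat.add (Nat.mul (X (nat_lit 104)) (Nat.add (Nat.mul (nat_lit 4) (H (nat_lit 89))) (Nat.mul (nat_lit 4) (H (nat_lit 96))))) (Nat.add (Nat.mul (X (nat_lit 106)) (Nat.mul (nat_lit 8) (H (nat_lit 96)))) (Nat.add (Nat.mul (X (nat_lit 107)) (Nat.mul (nat_lit 4) (H (nat_lit 98)))) (Nat.add (Nat.mul (X (nat_lit 109)) (Nat.mul (nat_lit 4) (H (nat_lit 98)))) (Nat.add (Nat.mul (X (nat_lit 105)) (Nat.add (Nat.mul (nat_lit 8) (H (nat_lit 88))) (Nat.mul (nat_lit 8) (H (nat_lit 97))))) (Nat.mul (X (nat_lit 108)) (Nat.add (Nat.mul (nat_lit 8) (H (nat_lit 91))) (Nat.mul (nat_lit 8) (H (nat_lit 92)))))))))))) 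
 (.lf (.mk fun X _ H => (Nat.add (Nat.mul (X (nat_lit 104)) (Nat.add (Nat.mul (nat_lit 4) (H (nat_lit 89))) (Nat.mul (nat_lit 4) (H (nat_lit 96))))) (Nat.add (Nat.mul (X (nat_lit 106)) (Nat.mul (nat_lit 8) (H (nat_lit 96)))) (Nat.add (Nat.mul (X (nat_lit 107)) (Nat.mul (nat_lit 4) (H (nat_lit 98)))) (Nat.add (Nat.mul (X (nat_lit 109)) (Nat.mul (nat_lit 4) (H (nat_lit 98)))) (Nat.add (Nat.mul (X (nat_lit 105)) (Nat.add (Nat.mul (nat_lit 8) (H (nat_lit 88))) (Nat.mul (nat_lit 8) (H (nat_lit 97))))) (Nat.mul (X (nat_lit 108)) (Nat.add (Nat.mul (nat_lit 8) (H (nat_lit 91))) (Nat.mul (nat_lit 8) (H (nat_lit 92))))))))))))) (.nd (nat_lit 113) 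
 (.lf (.mk fun X Q H => (Nat.add (Nat.mul (X (nat_lit 104)) (Nat.mul (nat_lit 8) (H (nat_lit 96)))) (Nat.add (Nat.mul (X (nat_lit 106)) (Nat.mul (nat_lit 8) (H (nat_lit 96)))) (Nat.add (Nat.mul (X (nat_lit 107)) (Nat.add (Nat.mul (nat_lit 8) (H (nat_lit 89))) (Nat.mul (nat_lit 4) (H (nat_lit 98))))) (Nat.add (Nat.mul (X (nat_lit 109)) (Nat.add (Nat.mul (nat_lit 4) (H (nat_lit 89))) (Nat.mul (nat_lit 4) (Q (nat_lit 98))))) (Nat.add (Nat.mul (X (nat_lit 105)) (Nat.add (Nat.mul (nat_lit 16) (H (nat_lit 88))) (Nat.mul (nat_lit 8) (H (nat_lit 97))))) (Nat.add (Nat.mul (X (nat_lit 108)) (Nat.add (Nat.mul (nat_lit 8) (H (nat_lit 91))) (Nat.add (Nat.mul (nat_lit 8) (Q (nat_lit 92))) (Nat.mul (nat_lit 4) (Q (nat_lit 99)))))) (Nat.mul (X (nat_lit 117)) (Nat.mul (nat_lit 2) (Q (nat_lit 98)))))))))))) (.nd (nat_lit 114) 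
 (.lf (.mk fun X _ H => (Nat.add (Nat.mul (X (nat_lit 104)) (Nat.mul (nat_lit 8) (H (nat_lit 96)))) (Nat.add (Nat.mul (X (nat_lit 106)) (Nat.mul (nat_lit 8) (H (nat_lit 96)))) (Nat.add (Nat.mul (X (nat_lit 107)) (Nat.add (Nat.mul (nat_lit 8) (H (nat_lit 89))) (Nat.mul (nat_lit 4) (H (nat_lit 98))))) (Nat.add (Nat.mul (X (nat_lit 109)) (Nat.mul (nat_lit 4) (H (nat_lit 98)))) (Nat.add (Nat.mul (X (nat_lit 105)) (Nat.add (Nat.mul (nat_lit 16) (H (nat_lit 88))) (Nat.mul (nat_lit 8) (H (nat_lit 97))))) (Nat.mul (X (nat_lit 108)) (Nat.add (Nat.mul (nat_lit 8) (H (nat_lit 91))) (Nat.mul (nat_lit 8) (H (nat_lit 92)))))))))))) 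
 (.lf (.mk fun X _ H => (Nat.add (Nat.mul (X (nat_lit 104)) (Nat.mul (nat_lit 4) (H (nat_lit 96)))) (Nat.add (Nat.mul (X (nat_lit 105)) (Nat.mul (nat_lit 8) (H (nat_lit 88)))) (Nat.mul (X (nat_lit 116)) (Nat.mul (nat_lit 4) (H (nat_lit 89))))))))))) (.nd (nat_lit 118) (.nd (nat_lit 116) 
 (.lf (.mk fun _ _ _ => nat_lit 0)) (.nd (nat_lit 117) 
 (.lf (.mk fun X _ H => (Nat.mul (X (nat_lit 114)) (Nat.mul (nat_lit 4) (H (nat_lit 89)))))) 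
 (.lf (.mk fun X Q _ => (Nat.add (Nat.mul (X (nat_lit 108)) (Nat.mul (nat_lit 4) (Q (nat_lit 90)))) (Nat.mul (X (nat_lit 112)) (Nat.mul (nat_lit 2) (Q (nat_lit 98))))))))) (.nd (nat_lit 119) 
 (.lf (.mk fun X _ H => (Nat.add (Nat.mul (X (nat_lit 1)) (Nat.mul (nat_lit 8) (H (nat_lit 0)))) (Nat.mul (X (nat_lit 3)) (Nat.mul (nat_lit 4) (H (nat_lit 1))))))) (.nd (nat_lit 120) 
 (.lf (.mk fun X _ H => (Nat.add (Nat.mul (X (nat_lit 0)) (Nat.mul (nat_lit 8) (H (nat_lit 0)))) (Nat.add (Nat.mul (X (nat_lit 2)) (Nat.mul (nat_lit 8) (H (nat_lit 0)))) (Nat.mul (X (nat_lit 3)) (Nat.mul (nat_lit 8) (H (nat_lit 2)))))))) 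
 (.lf (.mk fun X _ H => (Nat.add (Nat.mul (X (nat_lit 1)) (Nat.mul (nat_lit 8) (H (nat_lit 0)))) (Nat.mul (X (nat_lit 3)) (Nat.mul (nat_lit 4) (H (nat_lit 1))))))))))) (.nd (nat_lit 126) (.nd (nat_lit 123) (.nd (nat_lit 122) 
 (.lf (.mk fun X _ H => (Nat.add (Nat.mul (X (nat_lit 0)) (Nat.mul (nat_lit 4) (H (nat_lit 1)))) (Nat.add (Nat.mul (X (nat_lit 2)) (Nat.mul (nat_lit 4) (H (nat_lit 1)))) (Nat.mul (X (nat_lit 1)) (Nat.mul (nat_lit 8) (H (nat_lit 2)))))))) 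
 (.lf (.mk fun _ _ _ => nat_lit 0))) (.nd (nat_lit 124) 
 (.lf (.mk fun X _ H => (Nat.add (Nat.mul (X (nat_lit 7)) (Nat.add (Nat.mul (nat_lit 8) (H (nat_lit 3))) (Nat.add (Nat.mul (nat_lit 8) (H (nat_lit 6))) (Nat.add (Nat.mul (nat_lit 8) (H (nat_lit 9))) (Nat.add (Nat.mul (nat_lit 8) (H (nat_lit 10))) (Nat.mul (nat_lit 8) (H (nat_lit 11)))))))) (Nat.add (Nat.mul (X (nat_lit 12)) (Nat.add (Nat.mul (nat_lit 4) (H (nat_lit 5))) (Nat.mul (nat_lit 4) (H (nat_lit 12))))) (Nat.add (Nat.mul (X (nat_lit 13)) (Nat.add (Nat.mul (nat_lit 4) (H (nat_lit 5))) (Nat.mul (nat_lit 4) (H (nat_lit 12))))) (Nat.add (Nat.mul (X (nat_lit 14)) (Nat.mul (nat_lit 8) (H (nat_lit 12)))) (Nat.add (Nat.mul (X (nat_lit 15)) (Nat.add (H (nat_lit 5)) (Nat.mul (nat_lit 4) (H (nat_lit 12))))) (Nat.add (Nat.mul (X (nat_lit 16)) (Nat.mul (nat_lit 8) (H (nat_lit 12)))) (Nat.mul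 (X (nat_lit 17)) (Nat.mul (nat_lit 4) (H (nat_lit 12)))))))))))) (.nd (nat_lit 125) 
 (.lf (.mk fun X _ H => (Nat.add (Nat.mul (X (nat_lit 7)) (Nat.add (Nat.mul (nat_lit 8) (H (nat_lit 3))) (Nat.add (Nat.mul (nat_lit 8) (H (nat_lit 6))) (Nat.add (Nat.mul (nat_lit 8) (H (nat_lit 9))) (Nat.add (Nat.mul (nat_lit 8) (H (nat_lit 10))) (Nat.mul (nat_lit 8) (H (nat_lit 11)))))))) (Nat.add (Nat.mul (X (nat_lit 12)) (Nat.add (Nat.mul (nat_lit 4) (H (nat_lit 5))) (Nat.mul (nat_lit 4) (H (nat_lit 12))))) (Nat.add (Nat.mul (X (nat_lit 13)) (Nat.add (Nat.mul (nat_lit 4) (H (nat_lit 5))) (Nat.mul (nat_lit 4) (H (nat_lit 12))))) (Nat.add (Nat.mul (X (nat_lit 14)) (Nat.mul (nat_lit 8) (H (nat_lit 12)))) (Nat.add (Nat.mul (X (nat_lit 15)) (Nat.mul (nat_lit 4) (H (nat_lit 12)))) (Nat.add (Nat.mul (X (nat_lit 16)) (Nat.mul (nat_lit 8) (H (nat_lit 12)))) (Nat.mul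 (X (nat_lit 17)) (Nat.mul (nat_lit 4) (H (nat_lit 12)))))))))))) 
 (.lf (.mk fun X Q H => (Nat.add (Nat.mul (X (nat_lit 5)) (Nat.add (Nat.mul (nat_lit 8) (H (nat_lit 3))) (Nat.add (Nat.mul (nat_lit 8) (H (nat_lit 6))) (Nat.add (Nat.mul (nat_lit 8) (H (nat_lit 9))) (Nat.add (Nat.mul (nat_lit 8) (H (nat_lit 10))) (Nat.mul (nat_lit 8) (H (nat_lit 11)))))))) (Nat.add (Nat.mul (X (nat_lit 6)) (Nat.add (Nat.mul (nat_lit 8) (H (nat_lit 3))) (Nat.add (Nat.mul (nat_lit 8) (H (nat_lit 6))) (Nat.add (Nat.mul (nat_lit 8) (H (nat_lit 9))) (Nat.add (Nat.mul (nat_lit 8) (H (nat_lit 10))) (Nat.mul (nat_lit 8) (H (nat_lit 11)))))))) (Nat.add (Nat.mul (X (nat_lit 8)) (Nat.add (Nat.mul (nat_lit 16) (H (nat_lit 3))) (Nat.add (Nat.mul (nat_lit 8) (Q (nat_lit 6))) (Nat.mul (nat_lit 8) (H (nat_lit 10)))))) (Nat.add (Nat.mul (X (nat_lit 12)) (Nat.add (Nat.mul (nat_lit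 8) (H (nat_lit 4))) (Nat.mul (nat_lit 8) (H (nat_lit 13))))) (Nat.add (Nat.mul (X (nat_lit 13)) (Nat.add (Nat.mul (nat_lit 8) (H (nat_lit 4))) (Nat.mul (nat_lit 8) (H (nat_lit 13))))) (Nat.add (Nat.mul (X (nat_lit 14)) (Nat.add (Nat.mul (nat_lit 16) (H (nat_lit 4))) (Nat.mul (nat_lit 8) (Q (nat_lit 13))))) (Nat.add (Nat.mul (X (nat_lit 15)) (Nat.mul (nat_lit 8) (H (nat_lit 4)))) (Nat.add (Nat.mul (X (nat_lit 16)) (Nat.add (Nat.mul (nat_lit 16) (H (nat_lit 4))) (Nat.mul (nat_lit 8) (H (nat_lit 13))))) (Nat.mul (X (nat_lit 17)) (Nat.mul (nat_lit 8) (H (nat_lit 4))))))))))))))))) (.nd (nat_lit 129) (.nd (nat_lit 127) 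
 (.lf (.mk fun X Q H => (Nat.add (Nat.mul (X (nat_lit 7)) (Nat.add (Nat.mul (nat_lit 16) (H (nat_lit 3))) (Nat.add (Nat.mul (nat_lit 8) (Q (nat_lit 6))) (Nat.mul (nat_lit 8) (H (nat_lit 10)))))) (Nat.add (Nat.mul (X (nat_lit 12)) (Nat.mul (nat_lit 8) (H (nat_lit 12)))) (Nat.add (Nat.mul (X (nat_lit 13)) (Nat.mul (nat_lit 8) (H (nat_lit 12)))) (Nat.add (Nat.mul (X (nat_lit 14)) (Nat.mul (nat_lit 8) (Q (nat_lit 12)))) (Nat.mul (X (nat_lit 16)) (Nat.mul (nat_lit 8) (H (nat_lit 12)))))))))) (.nd (nat_lit 128) 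
 (.lf (.mk fun X Q H => (Nat.add (Nat.mul (X (nat_lit 10)) (Nat.add (Nat.mul (nat_lit 16) (H (nat_lit 3))) (Nat.add (Nat.mul (nat_lit 8) (Q (nat_lit 6))) (Nat.add (Nat.mul (nat_lit 16) (H (nat_lit 9))) (Nat.mul (nat_lit 8) (H (nat_lit 10))))))) (Nat.add (Nat.mul (X (nat_lit 12)) (Nat.mul (nat_lit 4) (H (nat_lit 14)))) (Nat.add (Nat.mul (X (nat_lit 13)) (Nat.mul (nat_lit 4) (H (nat_lit 14)))) (Nat.add (Nat.mul (X (nat_lit 14)) (Nat.add (Nat.mul (nat_lit 8) (H (nat_lit 5))) (Nat.mul (nat_lit 4) (Q (nat_lit 14))))) (Nat.add (Nat.mul (X (nat_lit 15)) (Nat.mul (nat_lit 4) (H (nat_lit 14)))) (Nat.mul (X (nat_lit 16)) (Nat.add (Nat.mul (nat_lit 8) (H (nat_lit 5))) (Nat.mul (nat_lit 4) (H (nat_lit 14)))))))))))) 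
 (.lf (.mk fun X Q H => (Nat.add (Nat.mul (X (nat_lit 9)) (Nat.add (Nat.mul (nat_lit 16) (H (nat_lit 3))) (Nat.add (Nat.mul (nat_lit 8) (Q (nat_lit 6))) (Nat.add (Nat.mul (nat_lit 16) (H (nat_lit 9))) (Nat.mul (nat_lit 8) (H (nat_lit 10))))))) (Nat.add (Nat.mul (X (nat_lit 11)) (Nat.add (Nat.mul (nat_lit 16) (Q (nat_lit 3))) (Nat.add (Nat.mul (nat_lit 8) (Q (nat_lit 9))) (Nat.mul (nat_lit 8) (Q (nat_lit 10)))))) (Nat.add (Nat.mul (X (nat_lit 12)) (Nat.add (Nat.mul (nat_lit 8) (H (nat_lit 7))) (Nat.mul (nat_lit 8) (Q (nat_lit 8))))) (Nat.add (Nat.mul (X (nat_lit 13)) (Nat.add (Nat.mul (nat_lit 8) (H (nat_lit 7))) (Nat.mul (nat_lit 8) (Q (nat_lit 8))))) (Nat.add (Nat.mul (X (nat_lit 14)) (Nat.mul (nat_lit 8) (Q (nat_lit 7)))) (Nat.add (Nat.mul (X (nat_lit 15)) (Nat.add (Nat.mul (nat_lit 8) (H (nat_lit 7))) (Nat.mul (nat_lit 4) (Q (nat_lit 8)))))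 (Nat.mul (X (nat_lit 16)) (Nat.add (Nat.mul (nat_lit 8) (H (nat_lit 7))) (Nat.mul (nat_lit 8) (Q (nat_lit 8))))))))))))))) (.nd (nat_lit 130) 
 (.lf (.mk fun X Q _ => (Nat.add (Nat.mul (X (nat_lit 10)) (Nat.add (Nat.mul (nat_lit 16) (Q (nat_lit 3))) (Nat.add (Nat.mul (nat_lit 8) (Q (nat_lit 9))) (Nat.mul (nat_lit 8) (Q (nat_lit 10)))))) (Nat.add (Nat.mul (X (nat_lit 12)) (Nat.mul (nat_lit 4) (Q (nat_lit 14)))) (Nat.add (Nat.mul (X (nat_lit 13)) (Nat.mul (nat_lit 4) (Q (nat_lit 14)))) (Nat.add (Nat.mul (X (nat_lit 14)) (Nat.mul (nat_lit 4) (Q (nat_lit 5)))) (Nat.add (Nat.mul (X (nat_lit 15)) (Nat.mul (nat_lit 2) (Q (nat_lit 14)))) (Nat.mul (X (nat_lit 16)) (Nat.mul (nat_lit 4) (Q (nat_lit 14))))))))))) (.nd (nat_lit 131) 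
 (.lf (.mk fun X Q H => (Nat.add (Nat.mul (X (nat_lit 5)) (Nat.add (Nat.mul (nat_lit 4) (H (nat_lit 5))) (Nat.mul (nat_lit 4) (H (nat_lit 12))))) (Nat.add (Nat.mul (X (nat_lit 6)) (Nat.add (Nat.mul (nat_lit 4) (H (nat_lit 5))) (Nat.mul (nat_lit 4) (H (nat_lit 12))))) (Nat.add (Nat.mul (X (nat_lit 8)) (Nat.mul (nat_lit 8) (H (nat_lit 12)))) (Nat.add (Nat.mul (X (nat_lit 9)) (Nat.mul (nat_lit 4) (H (nat_lit 14)))) (Nat.add (Nat.mul (X (nat_lit 11)) (Nat.mul (nat_lit 4) (Q (nat_lit 14)))) (Nat.add (Nat.mul (X (nat_lit 7)) (Nat.add (Nat.mul (nat_lit 8) (H (nat_lit 4))) (Nat.mul (nat_lit 8) (H (nat_lit 13))))) (Nat.mul (X (nat_lit 10)) (Nat.add (Nat.mul (nat_lit 8) (H (nat_lit 7))) (Nat.mul (nat_lit 8) (Q (nat_lit 8))))))))))))) 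
 (.lf (.mk fun X Q H => (Nat.add (Nat.mul (X (nat_lit 5)) (Nat.add (Nat.mul (nat_lit 4) (H (nat_lit 5))) (Nat.mul (nat_lit 4) (H (nat_lit 12))))) (Nat.add (Nat.mul (X (nat_lit 6)) (Nat.add (Nat.mul (nat_lit 4) (H (nat_lit 5))) (Nat.mul (nat_lit 4) (H (nat_lit 12))))) (Nat.add (Nat.mul (X (nat_lit 8)) (Nat.mul (nat_lit 8) (H (nat_lit 12)))) (Nat.add (Nat.mul (X (nat_lit 9)) (Nat.mul (nat_lit 4) (H (nat_lit 14)))) (Nat.add (Nat.mul (X (nat_lit 11)) (Nat.mul (nat_lit 4) (Q (nat_lit 14)))) (Nat.add (Nat.mul (X (nat_lit 7)) (Nat.add (Nat.mul (nat_lit 8) (H (nat_lit 4))) (Nat.mul (nat_lit 8) (H (nat_lit 13))))) (Nat.mul (X (nat_lit 10)) (Nat.add (Nat.mul (nat_lit 8) (H (nat_lit 7))) (Nat.mul (nat_lit 8) (Q (nat_lit 8))))))))))))))))))) (.nd (nat_lit 154) (.nd (nat_lit 143) (.nd (nat_lit 137) (.nd (nat_lit 134) (.nd (nat_lit 133) 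
 (.lf (.mk fun X Q H => (Nat.add (Nat.mul (X (nat_lit 5)) (Nat.mul (nat_lit 8) (H (nat_lit 12)))) (Nat.add (Nat.mul (X (nat_lit 6)) (Nat.mul (nat_lit 8) (H (nat_lit 12)))) (Nat.add (Nat.mul (X (nat_lit 8)) (Nat.mul (nat_lit 8) (Q (nat_lit 12)))) (Nat.add (Nat.mul (X (nat_lit 9)) (Nat.add (Nat.mul (nat_lit 8) (H (nat_lit 5))) (Nat.mul (nat_lit 4) (Q (nat_lit 14))))) (Nat.add (Nat.mul (X (nat_lit 11)) (Nat.mul (nat_lit 4) (Q (nat_lit 5)))) (Nat.add (Nat.mul (X (nat_lit 7)) (Nat.add (Nat.mul (nat_lit 16) (H (nat_lit 4))) (Nat.mul (nat_lit 8) (Q (nat_lit 13))))) (Nat.mul (X (nat_lit 10)) (Nat.mul (nat_lit 8) (Q (nat_lit 7)))))))))))) 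
 (.lf (.mk fun X Q H => (Nat.add (Nat.mul (X (nat_lit 5)) (Nat.add (H (nat_lit 5)) (Nat.mul (nat_lit 4) (H (nat_lit 12))))) (Nat.add (Nat.mul (X (nat_lit 6)) (Nat.mul (nat_lit 4) (H (nat_lit 12)))) (Nat.add (Nat.mul (X (nat_lit 9)) (Nat.mul (nat_lit 4) (H (nat_lit 14)))) (Nat.add (Nat.mul (X (nat_lit 11)) (Nat.mul (nat_lit 2) (Q (nat_lit 14)))) (Nat.add (Nat.mul (X (nat_lit 7)) (Nat.mul (nat_lit 8) (H (nat_lit 4)))) (Nat.add (Nat.mul (X (nat_lit 10)) (Nat.add (Nat.mul (nat_lit 8) (H (nat_lit 7))) (Nat.mul (nat_lit 4) (Q (nat_lit 8))))) (Nat.mul (X (nat_lit 18)) (Nat.mul (nat_lit 4) (H (nat_lit 5))))))))))))) (.nd (nat_lit 135) 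
 (.lf (.mk fun X Q H => (Nat.add (Nat.mul (X (nat_lit 5)) (Nat.mul (nat_lit 8) (H (nat_lit 12)))) (Nat.add (Nat.mul (X (nat_lit 6)) (Nat.mul (nat_lit 8) (H (nat_lit 12)))) (Nat.add (Nat.mul (X (nat_lit 8)) (Nat.mul (nat_lit 8) (H (nat_lit 12)))) (Nat.add (Nat.mul (X (nat_lit 9)) (Nat.add (Nat.mul (nat_lit 8) (H (nat_lit 5))) (Nat.mul (nat_lit 4) (H (nat_lit 14))))) (Nat.add (Nat.mul (X (nat_lit 11)) (Nat.mul (nat_lit 4) (Q (nat_lit 14)))) (Nat.add (Nat.mul (X (nat_lit 7)) (Nat.add (Nat.mul (nat_lit 16) (H (nat_lit 4))) (Nat.mul (nat_lit 8) (H (nat_lit 13))))) (Nat.mul (X (nat_lit 10)) (Nat.add (Nat.mul (nat_lit 8) (H (nat_lit 7))) (Nat.mul (nat_lit 8) (Q (nat_lit 8))))))))))))) (.nd (nat_lit 136) 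
 (.lf (.mk fun X _ H => (Nat.add (Nat.mul (X (nat_lit 5)) (Nat.mul (nat_lit 4) (H (nat_lit 12)))) (Nat.add (Nat.mul (X (nat_lit 6)) (Nat.mul (nat_lit 4) (H (nat_lit 12)))) (Nat.add (Nat.mul (X (nat_lit 7)) (Nat.mul (nat_lit 8) (H (nat_lit 4)))) (Nat.mul (X (nat_lit 19)) (Nat.mul (nat_lit 4) (H (nat_lit 5))))))))) 
 (.lf (.mk fun X _ H => (Nat.mul (X (nat_lit 15)) (Nat.mul (nat_lit 4) (H (nat_lit 5))))))))) (.nd (nat_lit 140) (.nd (nat_lit 138) 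
 (.lf (.mk fun X _ H => (Nat.mul (X (nat_lit 17)) (Nat.mul (nat_lit 4) (H (nat_lit 5)))))) (.nd (nat_lit 139) 
 (.lf (.mk fun _ _ _ => nat_lit 0)) 
 (.lf (.mk fun X _ H => (Nat.add (Nat.mul (X (nat_lit 22)) (Nat.add (Nat.mul (nat_lit 8) (H (nat_lit 16))) (Nat.mul (nat_lit 2) (H (nat_lit 22))))) (Nat.add (Nat.mul (X (nat_lit 24)) (Nat.add (Nat.mul (nat_lit 8) (H (nat_lit 16))) (Nat.add (Nat.mul (nat_lit 8) (H (nat_lit 19))) (Nat.add (Nat.mul (nat_lit 8) (H (nat_lit 22))) (Nat.add (Nat.mul (nat_lit 8) (H (nat_lit 24))) (Nat.mul (nat_lit 8) (H (nat_lit 25)))))))) (Nat.add (Nat.mul (X (nat_lit 29)) (Nat.add (Nat.mul (nat_lit 4) (H (nat_lit 18))) (Nat.mul (nat_lit 4) (H (nat_lit 27))))) (Nat.add (Nat.mul (X (nat_lit 30)) (Nat.add (Nat.mul (nat_lit 4) (H (nat_lit 18))) (Nat.mul (nat_lit 4) (H (nat_lit 27))))) (Nat.add (Nat.mul (X (nat_lit 31)) (Nat.mul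 (nat_lit 8) (H (nat_lit 27)))) (Nat.add (Nat.mul (X (nat_lit 32)) (Nat.add (H (nat_lit 18)) (Nat.mul (nat_lit 4) (H (nat_lit 27))))) (Nat.add (Nat.mul (X (nat_lit 33)) (Nat.mul (nat_lit 8) (H (nat_lit 27)))) (Nat.mul (X (nat_lit 34)) (Nat.mul (nat_lit 4) (H (nat_lit 27))))))))))))))) (.nd (nat_lit 141) 
 (.lf (.mk fun X Q H => (Nat.add (Nat.mul (X (nat_lit 21)) (Nat.add (Nat.mul (nat_lit 8) (H (nat_lit 16))) (Nat.mul (nat_lit 2) (H (nat_lit 22))))) (Nat.add (Nat.mul (X (nat_lit 23)) (Nat.mul (nat_lit 8) (H (nat_lit 16)))) (Nat.add (Nat.mul (X (nat_lit 26)) (Nat.add (Nat.mul (nat_lit 8) (H (nat_lit 19))) (Nat.mul (nat_lit 8) (H (nat_lit 24))))) (Nat.add (Nat.mul (X (nat_lit 28)) (Nat.mul (nat_lit 4) (Q (nat_lit 19)))) (Nat.add (Nat.mul (X (nat_lit 29)) (Nat.mul (nat_lit 8) (H (nat_lit 17)))) (Nat.add (Nat.mul (X (nat_lit 30)) (Nat.mul (nat_lit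 8) (H (nat_lit 17)))) (Nat.add (Nat.mul (X (nat_lit 31)) (Nat.add (Nat.mul (nat_lit 8) (H (nat_lit 20))) (Nat.mul (nat_lit 4) (Q (nat_lit 21))))) (Nat.add (Nat.mul (X (nat_lit 32)) (Nat.mul (nat_lit 8) (H (nat_lit 23)))) (Nat.add (Nat.mul (X (nat_lit 33)) (Nat.mul (nat_lit 8) (H (nat_lit 20)))) (Nat.add (Nat.mul (X (nat_lit 34)) (Nat.mul (nat_lit 8) (H (nat_lit 26)))) (Nat.add (Nat.mul (X (nat_lit 35)) (Nat.mul (nat_lit 8) (H (nat_lit 22)))) (Nat.mul (X (nat_lit 36)) (Nat.mul (nat_lit 8) (H (nat_lit 25))))))))))))))))) (.nd (nat_lit 142) 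
 (.lf (.mk fun X _ H => (Nat.add (Nat.mul (X (nat_lit 22)) (Nat.mul (nat_lit 8) (H (nat_lit 16)))) (Nat.add (Nat.mul (X (nat_lit 24)) (Nat.add (Nat.mul (nat_lit 8) (H (nat_lit 16))) (Nat.add (Nat.mul (nat_lit 8) (H (nat_lit 19))) (Nat.add (Nat.mul (nat_lit 8) (H (nat_lit 22))) (Nat.add (Nat.mul (nat_lit 8) (H (nat_lit 24))) (Nat.mul (nat_lit 8) (H (nat_lit 25)))))))) (Nat.add (Nat.mul (X (nat_lit 29)) (Nat.add (Nat.mul (nat_lit 4) (H (nat_lit 18))) (Nat.mul (nat_lit 4) (H (nat_lit 27))))) (Nat.add (Nat.mul (X (nat_lit 30)) (Nat.add (Nat.mul (nat_lit 4) (H (nat_lit 18))) (Nat.mul (nat_lit 4) (H (nat_lit 27))))) (Nat.add (Nat.mul (X (nat_lit 31)) (Nat.mul (nat_lit 8) (H (nat_lit 27)))) (Nat.add (Nat.mul (X (nat_lit 32)) (Nat.mul (nat_lit 4) (H (nat_lit 27)))) (Nat.add (Nat.mul (X (nat_lit 33)) (Nat.mul (nat_lit 8) (H (nat_lit 27)))) (Nat.mul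 (X (nat_lit 34)) (Nat.mul (nat_lit 4) (H (nat_lit 27))))))))))))) 
 (.lf (.mk fun X Q H => (Nat.add (Nat.mul (X (nat_lit 21)) (Nat.add (Nat.mul (nat_lit 8) (H (nat_lit 16))) (Nat.add (Nat.mul (nat_lit 8) (H (nat_lit 19))) (Nat.add (Nat.mul (nat_lit 8) (H (nat_lit 22))) (Nat.add (Nat.mul (nat_lit 8) (H (nat_lit 24))) (Nat.mul (nat_lit 8) (H (nat_lit 25)))))))) (Nat.add (Nat.mul (X (nat_lit 23)) (Nat.add (Nat.mul (nat_lit 8) (H (nat_lit 16))) (Nat.add (Nat.mul (nat_lit 8) (H (nat_lit 19))) (Nat.add (Nat.mul (nat_lit 8) (H (nat_lit 22))) (Nat.add (Nat.mul (nat_lit 8) (H (nat_lit 24))) (Nat.mul (nat_lit 8) (H (nat_lit 25)))))))) (Nat.add (Nat.mul (X (nat_lit 25)) (Nat.add (Nat.mul (nat_lit 16) (H (nat_lit 16))) (Nat.add (Nat.mul (nat_lit 8) (Q (nat_lit 19))) (Nat.mul (nat_lit 8) (H (nat_lit 24)))))) (Nat.add (Nat.mul (X (nat_lit 29)) (Nat.add (Nat.mul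 (nat_lit 8) (H (nat_lit 17))) (Nat.mul (nat_lit 8) (H (nat_lit 28))))) (Nat.add (Nat.mul (X (nat_lit 30)) (Nat.add (Nat.mul (nat_lit 8) (H (nat_lit 17))) (Nat.mul (nat_lit 8) (H (nat_lit 28))))) (Nat.add (Nat.mul (X (nat_lit 31)) (Nat.add (Nat.mul (nat_lit 16) (H (nat_lit 17))) (Nat.mul (nat_lit 8) (Q (nat_lit 28))))) (Nat.add (Nat.mul (X (nat_lit 32)) (Nat.mul (nat_lit 8) (H (nat_lit 17)))) (Nat.add (Nat.mul (X (nat_lit 33)) (Nat.add (Nat.mul (nat_lit 16) (H (nat_lit 17))) (Nat.mul (nat_lit 8) (H (nat_lit 28))))) (Nat.mul (X (nat_lit 34)) (Nat.mul (nat_lit 8) (H (nat_lit 17)))))))))))))))))) (.nd (nat_lit 148) (.nd (nat_lit 145) (.nd (nat_lit 144) 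
 (.lf (.mk fun X Q H => (Nat.add (Nat.mul (X (nat_lit 24)) (Nat.add (Nat.mul (nat_lit 16) (H (nat_lit 16))) (Nat.add (Nat.mul (nat_lit 8) (Q (nat_lit 19))) (Nat.mul (nat_lit 8) (H (nat_lit 24)))))) (Nat.add (Nat.mul (X (nat_lit 29)) (Nat.mul (nat_lit 8) (H (nat_lit 27)))) (Nat.add (Nat.mul (X (nat_lit 30)) (Nat.mul (nat_lit 8) (H (nat_lit 27)))) (Nat.add (Nat.mul (X (nat_lit 31)) (Nat.mul (nat_lit 8) (Q (nat_lit 27)))) (Nat.mul (X (nat_lit 33)) (Nat.mul (nat_lit 8) (H (nat_lit 27)))))))))) 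
 (.lf (.mk fun X Q H => (Nat.add (Nat.mul (X (nat_lit 22)) (Nat.add (Nat.mul (nat_lit 8) (H (nat_lit 19))) (Nat.mul (nat_lit 8) (H (nat_lit 24))))) (Nat.add (Nat.mul (X (nat_lit 27)) (Nat.add (Nat.mul (nat_lit 16) (H (nat_lit 16))) (Nat.add (Nat.mul (nat_lit 8) (Q (nat_lit 19))) (Nat.add (Nat.mul (nat_lit 16) (H (nat_lit 22))) (Nat.mul (nat_lit 8) (H (nat_lit 24))))))) (Nat.add (Nat.mul (X (nat_lit 29)) (Nat.mul (nat_lit 4) (H (nat_lit 29)))) (Nat.add (Nat.mul (X (nat_lit 30)) (Nat.mul (nat_lit 4) (H (nat_lit 29)))) (Nat.add (Nat.mul (X (nat_lit 31)) (Nat.add (Nat.mul (nat_lit 8) (H (nat_lit 18))) (Nat.mul (nat_lit 4) (Q (nat_lit 29))))) (Nat.add (Nat.mul (X (nat_lit 32)) (Nat.mul (nat_lit 4) (H (nat_lit 29)))) (Nat.mul (X (nat_lit 33)) (Nat.add (Nat.mul (nat_lit 8) (H (nat_lit 18))) (Nat.mul (nat_lit 4) (H (nat_lit 29)))))))))))))) (.nd (nat_lit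 146) 
 (.lf (.mk fun X Q H => (Nat.add (Nat.mul (X (nat_lit 26)) (Nat.add (Nat.mul (nat_lit 16) (H (nat_lit 16))) (Nat.add (Nat.mul (nat_lit 8) (Q (nat_lit 19))) (Nat.add (Nat.mul (nat_lit 16) (H (nat_lit 22))) (Nat.mul (nat_lit 8) (H (nat_lit 24))))))) (Nat.add (Nat.mul (X (nat_lit 28)) (Nat.add (Nat.mul (nat_lit 16) (Q (nat_lit 16))) (Nat.add (Nat.mul (nat_lit 8) (Q (nat_lit 22))) (Nat.mul (nat_lit 8) (Q (nat_lit 24)))))) (Nat.add (Nat.mul (X (nat_lit 29)) (Nat.add (Nat.mul (nat_lit 8) (H (nat_lit 20))) (Nat.mul (nat_lit 8) (Q (nat_lit 21))))) (Nat.add (Nat.mul (X (nat_lit 30)) (Nat.add (Nat.mul (nat_lit 8) (H (nat_lit 20))) (Nat.mul (nat_lit 8) (Q (nat_lit 21))))) (Nat.add (Nat.mul (X (nat_lit 31)) (Nat.mul (nat_lit 8) (Q (nat_lit 20)))) (Nat.add (Nat.mul (X (nat_lit 32)) (Nat.add (Nat.mul (nat_lit 8) (H (nat_lit 20))) (Nat.mul (nat_lit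 4) (Q (nat_lit 21))))) (Nat.mul (X (nat_lit 33)) (Nat.add (Nat.mul (nat_lit 8) (H (nat_lit 20))) (Nat.mul (nat_lit 8) (Q (nat_lit 21))))))))))))) (.nd (nat_lit 147) 
 (.lf (.mk fun X Q _ => (Nat.add (Nat.mul (X (nat_lit 22)) (Nat.mul (nat_lit 4) (Q (nat_lit 19)))) (Nat.add (Nat.mul (X (nat_lit 27)) (Nat.add (Nat.mul (nat_lit 16) (Q (nat_lit 16))) (Nat.add (Nat.mul (nat_lit 8) (Q (nat_lit 22))) (Nat.mul (nat_lit 8) (Q (nat_lit 24)))))) (Nat.add (Nat.mul (X (nat_lit 29)) (Nat.mul (nat_lit 4) (Q (nat_lit 29)))) (Nat.add (Nat.mul (X (nat_lit 30)) (Nat.mul (nat_lit 4) (Q (nat_lit 29)))) (Nat.add (Nat.mul (X (nat_lit 31)) (Nat.mul (nat_lit 4) (Q (nat_lit 18)))) (Nat.add (Nat.mul (X (nat_lit 32)) (Nat.mul (nat_lit 2) (Q (nat_lit 29)))) (Nat.mul (X (nat_lit 33)) (Nat.mul (nat_lit 4) (Q (nat_lit 29)))))))))))) 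
 (.lf (.mk fun X Q H => (Nat.add (Nat.mul (X (nat_lit 21)) (Nat.add (Nat.mul (nat_lit 4) (H (nat_lit 18))) (Nat.mul (nat_lit 4) (H (nat_lit 27))))) (Nat.add (Nat.mul (X (nat_lit 23)) (Nat.add (Nat.mul (nat_lit 4) (H (nat_lit 18))) (Nat.mul (nat_lit 4) (H (nat_lit 27))))) (Nat.add (Nat.mul (X (nat_lit 25)) (Nat.mul (nat_lit 8) (H (nat_lit 27)))) (Nat.add (Nat.mul (X (nat_lit 26)) (Nat.mul (nat_lit 4) (H (nat_lit 29)))) (Nat.add (Nat.mul (X (nat_lit 28)) (Nat.mul (nat_lit 4) (Q (nat_lit 29)))) (Nat.add (Nat.mul (X (nat_lit 22)) (Nat.mul (nat_lit 8) (H (nat_lit 17)))) (Nat.add (Nat.mul (X (nat_lit 24)) (Nat.add (Nat.mul (nat_lit 8) (H (nat_lit 17))) (Nat.mul (nat_lit 8) (H (nat_lit 28))))) (Nat.mul (X (nat_lit 27)) (Nat.add (Nat.mul (nat_lit 8) (H (nat_lit 20))) (Nat.mul (nat_lit 8) (Q (nat_lit 21))))))))))))))))) (.nd (nat_lit 151) (.nd (nat_lit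 149) 
 (.lf (.mk fun X Q H => (Nat.add (Nat.mul (X (nat_lit 21)) (Nat.add (Nat.mul (nat_lit 4) (H (nat_lit 18))) (Nat.mul (nat_lit 4) (H (nat_lit 27))))) (Nat.add (Nat.mul (X (nat_lit 23)) (Nat.add (Nat.mul (nat_lit 4) (H (nat_lit 18))) (Nat.mul (nat_lit 4) (H (nat_lit 27))))) (Nat.add (Nat.mul (X (nat_lit 25)) (Nat.mul (nat_lit 8) (H (nat_lit 27)))) (Nat.add (Nat.mul (X (nat_lit 26)) (Nat.mul (nat_lit 4) (H (nat_lit 29)))) (Nat.add (Nat.mul (X (nat_lit 28)) (Nat.mul (nat_lit 4) (Q (nat_lit 29)))) (Nat.add (Nat.mul (X (nat_lit 22)) (Nat.mul (nat_lit 8) (H (nat_lit 17)))) (Nat.add (Nat.mul (X (nat_lit 24)) (Nat.add (Nat.mul (nat_lit 8) (H (nat_lit 17))) (Nat.mul (nat_lit 8) (H (nat_lit 28))))) (Nat.mul (X (nat_lit 27)) (Nat.add (Nat.mul (nat_lit 8) (H (nat_lit 20))) (Nat.mul (nat_lit 8) (Q (nat_lit 21)))))))))))))) (.nd (nat_lit 150) 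
 (.lf (.mk fun X Q H => (Nat.add (Nat.mul (X (nat_lit 21)) (Nat.mul (nat_lit 8) (H (nat_lit 27)))) (Nat.add (Nat.mul (X (nat_lit 23)) (Nat.mul (nat_lit 8) (H (nat_lit 27)))) (Nat.add (Nat.mul (X (nat_lit 25)) (Nat.mul (nat_lit 8) (Q (nat_lit 27)))) (Nat.add (Nat.mul (X (nat_lit 26)) (Nat.add (Nat.mul (nat_lit 8) (H (nat_lit 18))) (Nat.mul (nat_lit 4) (Q (nat_lit 29))))) (Nat.add (Nat.mul (X (nat_lit 28)) (Nat.mul (nat_lit 4) (Q (nat_lit 18)))) (Nat.add (Nat.mul (X (nat_lit 22)) (Nat.add (Nat.mul (nat_lit 8) (H (nat_lit 20))) (Nat.mul (nat_lit 4) (Q (nat_lit 21))))) (Nat.add (Nat.mul (X (nat_lit 24)) (Nat.add (Nat.mul (nat_lit 16) (H (nat_lit 17))) (Nat.mul (nat_lit 8) (Q (nat_lit 28))))) (Nat.mul (X (nat_lit 27)) (Nat.mul (nat_lit 8) (Q (nat_lit 20))))))))))))) 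
 (.lf (.mk fun X Q H => (Nat.add (Nat.mul (X (nat_lit 21)) (Nat.add (H (nat_lit 18)) (Nat.mul (nat_lit 4) (H (nat_lit 27))))) (Nat.add (Nat.mul (X (nat_lit 23)) (Nat.mul (nat_lit 4) (H (nat_lit 27)))) (Nat.add (Nat.mul (X (nat_lit 26)) (Nat.mul (nat_lit 4) (H (nat_lit 29)))) (Nat.add (Nat.mul (X (nat_lit 28)) (Nat.mul (nat_lit 2) (Q (nat_lit 29)))) (Nat.add (Nat.mul (X (nat_lit 22)) (Nat.mul (nat_lit 8) (H (nat_lit 23)))) (Nat.add (Nat.mul (X (nat_lit 24)) (Nat.mul (nat_lit 8) (H (nat_lit 17)))) (Nat.add (Nat.mul (X (nat_lit 27)) (Nat.add (Nat.mul (nat_lit 8) (H (nat_lit 20))) (Nat.mul (nat_lit 4) (Q (nat_lit 21))))) (Nat.mul (X (nat_lit 35)) (Nat.mul (nat_lit 4) (H (nat_lit 18))))))))))))))) (.nd (nat_lit 152) 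
 (.lf (.mk fun X Q H => (Nat.add (Nat.mul (X (nat_lit 21)) (Nat.mul (nat_lit 8) (H (nat_lit 27)))) (Nat.add (Nat.mul (X (nat_lit 23)) (Nat.mul (nat_lit 8) (H (nat_lit 27)))) (Nat.add (Nat.mul (X (nat_lit 25)) (Nat.mul (nat_lit 8) (H (nat_lit 27)))) (Nat.add (Nat.mul (X (nat_lit 26)) (Nat.add (Nat.mul (nat_lit 8) (H (nat_lit 18))) (Nat.mul (nat_lit 4) (H (nat_lit 29))))) (Nat.add (Nat.mul (X (nat_lit 28)) (Nat.mul (nat_lit 4) (Q (nat_lit 29)))) (Nat.add (Nat.mul (X (nat_lit 22)) (Nat.mul (nat_lit 8) (H (nat_lit 20)))) (Nat.add (Nat.mul (X (nat_lit 24)) (Nat.add (Nat.mul (nat_lit 16) (H (nat_lit 17))) (Nat.mul (nat_lit 8) (H (nat_lit 28))))) (Nat.mul (X (nat_lit 27)) (Nat.add (Nat.mul (nat_lit 8) (H (nat_lit 20))) (Nat.mul (nat_lit 8) (Q (nat_lit 21)))))))))))))) (.nd (nat_lit 153) 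
 (.lf (.mk fun X _ H => (Nat.add (Nat.mul (X (nat_lit 21)) (Nat.mul (nat_lit 4) (H (nat_lit 27)))) (Nat.add (Nat.mul (X (nat_lit 23)) (Nat.mul (nat_lit 4) (H (nat_lit 27)))) (Nat.add (Nat.mul (X (nat_lit 22)) (Nat.mul (nat_lit 8) (H (nat_lit 26)))) (Nat.add (Nat.mul (X (nat_lit 24)) (Nat.mul (nat_lit 8) (H (nat_lit 17)))) (Nat.mul (X (nat_lit 36)) (Nat.mul (nat_lit 4) (H (nat_lit 18)))))))))) 
 (.lf (.mk fun X _ H => (Nat.add (Nat.mul (X (nat_lit 22)) (Nat.mul (nat_lit 8) (H (nat_lit 22)))) (Nat.mul (X (nat_lit 32)) (Nat.mul (nat_lit 4) (H (nat_lit 18)))))))))))) (.nd (nat_lit 165) (.nd (nat_lit 159) (.nd (nat_lit 156) (.nd (nat_lit 155) 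
 (.lf (.mk fun X _ H => (Nat.add (Nat.mul (X (nat_lit 22)) (Nat.mul (nat_lit 8) (H (nat_lit 25)))) (Nat.mul (X (nat_lit 34)) (Nat.mul (nat_lit 4) (H (nat_lit 18))))))) 
 (.lf (.mk fun _ _ _ => nat_lit 0))) (.nd (nat_lit 157) 
 (.lf (.mk fun X _ H => (Nat.add (Nat.mul (X (nat_lit 40)) (Nat.add (Nat.mul (nat_lit 8) (H (nat_lit 31))) (Nat.add (Nat.mul (nat_lit 8) (H (nat_lit 34))) (Nat.add (Nat.mul (nat_lit 8) (H (nat_lit 37))) (Nat.add (Nat.mul (nat_lit 8) (H (nat_lit 38))) (Nat.mul (nat_lit 8) (H (nat_lit 39)))))))) (Nat.add (Nat.mul (X (nat_lit 45)) (Nat.add (Nat.mul (nat_lit 4) (H (nat_lit 33))) (Nat.mul (nat_lit 4) (H (nat_lit 40))))) (Nat.add (Nat.mul (X (nat_lit 46)) (Nat.add (Nat.mul (nat_lit 4) (H (nat_lit 33))) (Nat.mul (nat_lit 4) (H (nat_lit 40))))) (Nat.add (Nat.mul (X (nat_lit 47)) (Nat.mul (nat_lit 8) (H (nat_lit 40)))) (Nat.add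 (Nat.mul (X (nat_lit 48)) (Nat.add (H (nat_lit 33)) (Nat.mul (nat_lit 4) (H (nat_lit 40))))) (Nat.add (Nat.mul (X (nat_lit 49)) (Nat.mul (nat_lit 8) (H (nat_lit 40)))) (Nat.mul (X (nat_lit 50)) (Nat.mul (nat_lit 4) (H (nat_lit 40)))))))))))) (.nd (nat_lit 158) 
 (.lf (.mk fun X _ H => (Nat.add (Nat.mul (X (nat_lit 40)) (Nat.add (Nat.mul (nat_lit 8) (H (nat_lit 31))) (Nat.add (Nat.mul (nat_lit 8) (H (nat_lit 34))) (Nat.add (Nat.mul (nat_lit 8) (H (nat_lit 37))) (Nat.add (Nat.mul (nat_lit 8) (H (nat_lit 38))) (Nat.mul (nat_lit 8) (H (nat_lit 39)))))))) (Nat.add (Nat.mul (X (nat_lit 45)) (Nat.add (Nat.mul (nat_lit 4) (H (nat_lit 33))) (Nat.mul (nat_lit 4) (H (nat_lit 40))))) (Nat.add (Nat.mul (X (nat_lit 46)) (Nat.add (Nat.mul (nat_lit 4) (H (nat_lit 33))) (Nat.mul (nat_lit 4) (H (nat_lit 40))))) (Nat.add (Nat.mul (X (nat_lit 47)) (Nat.mul (nat_lit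 8) (H (nat_lit 40)))) (Nat.add (Nat.mul (X (nat_lit 48)) (Nat.mul (nat_lit 4) (H (nat_lit 40)))) (Nat.add (Nat.mul (X (nat_lit 49)) (Nat.mul (nat_lit 8) (H (nat_lit 40)))) (Nat.mul (X (nat_lit 50)) (Nat.mul (nat_lit 4) (H (nat_lit 40)))))))))))) 
 (.lf (.mk fun X Q H => (Nat.add (Nat.mul (X (nat_lit 38)) (Nat.add (Nat.mul (nat_lit 8) (H (nat_lit 31))) (Nat.add (Nat.mul (nat_lit 8) (H (nat_lit 34))) (Nat.add (Nat.mul (nat_lit 8) (H (nat_lit 37))) (Nat.add (Nat.mul (nat_lit 8) (H (nat_lit 38))) (Nat.mul (nat_lit 8) (H (nat_lit 39)))))))) (Nat.add (Nat.mul (X (nat_lit 39)) (Nat.add (Nat.mul (nat_lit 8) (H (nat_lit 31))) (Nat.add (Nat.mul (nat_lit 8) (H (nat_lit 34))) (Nat.add (Nat.mul (nat_lit 8) (H (nat_lit 37))) (Nat.add (Nat.mul (nat_lit 8) (H (nat_lit 38))) (Nat.mul (nat_lit 8) (H (nat_lit 39)))))))) (Nat.add (Nat.mul (X (nat_lit 41)) (Nat.add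 (Nat.mul (nat_lit 16) (H (nat_lit 31))) (Nat.add (Nat.mul (nat_lit 8) (Q (nat_lit 34))) (Nat.mul (nat_lit 8) (H (nat_lit 38)))))) (Nat.add (Nat.mul (X (nat_lit 45)) (Nat.add (Nat.mul (nat_lit 8) (H (nat_lit 32))) (Nat.mul (nat_lit 8) (H (nat_lit 41))))) (Nat.add (Nat.mul (X (nat_lit 46)) (Nat.add (Nat.mul (nat_lit 8) (H (nat_lit 32))) (Nat.mul (nat_lit 8) (H (nat_lit 41))))) (Nat.add (Nat.mul (X (nat_lit 47)) (Nat.add (Nat.mul (nat_lit 16) (H (nat_lit 32))) (Nat.mul (nat_lit 8) (Q (nat_lit 41))))) (Nat.add (Nat.mul (X (nat_lit 48)) (Nat.mul (nat_lit 8) (H (nat_lit 32)))) (Nat.add (Nat.mul (X (nat_lit 49)) (Nat.add (Nat.mul (nat_lit 16) (H (nat_lit 32))) (Nat.mul (nat_lit 8) (H (nat_lit 41))))) (Nat.mul (X (nat_lit 50)) (Nat.mul (nat_lit 8) (H (nat_lit 32))))))))))))))))) (.nd (nat_lit 162) (.nd (nat_lit 160) 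
 (.lf (.mk fun X Q H => (Nat.add (Nat.mul (X (nat_lit 40)) (Nat.add (Nat.mul (nat_lit 16) (H (nat_lit 31))) (Nat.add (Nat.mul (nat_lit 8) (Q (nat_lit 34))) (Nat.mul (nat_lit 8) (H (nat_lit 38)))))) (Nat.add (Nat.mul (X (nat_lit 45)) (Nat.mul (nat_lit 8) (H (nat_lit 40)))) (Nat.add (Nat.mul (X (nat_lit 46)) (Nat.mul (nat_lit 8) (H (nat_lit 40)))) (Nat.add (Nat.mul (X (nat_lit 47)) (Nat.mul (nat_lit 8) (Q (nat_lit 40)))) (Nat.mul (X (nat_lit 49)) (Nat.mul (nat_lit 8) (H (nat_lit 40)))))))))) (.nd (nat_lit 161) 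
 (.lf (.mk fun X Q H => (Nat.add (Nat.mul (X (nat_lit 43)) (Nat.add (Nat.mul (nat_lit 16) (H (nat_lit 31))) (Nat.add (Nat.mul (nat_lit 8) (Q (nat_lit 34))) (Nat.add (Nat.mul (nat_lit 16) (H (nat_lit 37))) (Nat.mul (nat_lit 8) (H (nat_lit 38))))))) (Nat.add (Nat.mul (X (nat_lit 45)) (Nat.mul (nat_lit 4) (H (nat_lit 42)))) (Nat.add (Nat.mul (X (nat_lit 46)) (Nat.mul (nat_lit 4) (H (nat_lit 42)))) (Nat.add (Nat.mul (X (nat_lit 47)) (Nat.add (Nat.mul (nat_lit 8) (H (nat_lit 33))) (Nat.mul (nat_lit 4) (Q (nat_lit 42))))) (Nat.add (Nat.mul (X (nat_lit 48)) (Nat.mul (nat_lit 4) (H (nat_lit 42)))) (Nat.mul (X (nat_lit 49)) (Nat.add (Nat.mul (nat_lit 8) (H (nat_lit 33))) (Nat.mul (nat_lit 4) (H (nat_lit 42)))))))))))) 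
 (.lf (.mk fun X Q H => (Nat.add (Nat.mul (X (nat_lit 42)) (Nat.add (Nat.mul (nat_lit 16) (H (nat_lit 31))) (Nat.add (Nat.mul (nat_lit 8) (Q (nat_lit 34))) (Nat.add (Nat.mul (nat_lit 16) (H (nat_lit 37))) (Nat.mul (nat_lit 8) (H (nat_lit 38))))))) (Nat.add (Nat.mul (X (nat_lit 44)) (Nat.add (Nat.mul (nat_lit 16) (Q (nat_lit 31))) (Nat.add (Nat.mul (nat_lit 8) (Q (nat_lit 37))) (Nat.mul (nat_lit 8) (Q (nat_lit 38)))))) (Nat.add (Nat.mul (X (nat_lit 45)) (Nat.add (Nat.mul (nat_lit 8) (H (nat_lit 35))) (Nat.mul (nat_lit 8) (Q (nat_lit 36))))) (Nat.add (Nat.mul (X (nat_lit 46)) (Nat.add (Nat.mul (nat_lit 8) (H (nat_lit 35))) (Nat.mul (nat_lit 8) (Q (nat_lit 36))))) (Nat.add (Nat.mul (X (nat_lit 47)) (Nat.mul (nat_lit 8) (Q (nat_lit 35)))) (Nat.add (Nat.mul (X (nat_lit 48)) (Nat.add (Nat.mul (nat_lit 8) (H (nat_lit 35))) (Nat.mul (nat_lit 4) (Q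 (nat_lit 36))))) (Nat.mul (X (nat_lit 49)) (Nat.add (Nat.mul (nat_lit 8) (H (nat_lit 35))) (Nat.mul (nat_lit 8) (Q (nat_lit 36))))))))))))))) (.nd (nat_lit 163) 
 (.lf (.mk fun X Q _ => (Nat.add (Nat.mul (X (nat_lit 43)) (Nat.add (Nat.mul (nat_lit 16) (Q (nat_lit 31))) (Nat.add (Nat.mul (nat_lit 8) (Q (nat_lit 37))) (Nat.mul (nat_lit 8) (Q (nat_lit 38)))))) (Nat.add (Nat.mul (X (nat_lit 45)) (Nat.mul (nat_lit 4) (Q (nat_lit 42)))) (Nat.add (Nat.mul (X (nat_lit 46)) (Nat.mul (nat_lit 4) (Q (nat_lit 42)))) (Nat.add (Nat.mul (X (nat_lit 47)) (Nat.mul (nat_lit 4) (Q (nat_lit 33)))) (Nat.add (Nat.mul (X (nat_lit 48)) (Nat.mul (nat_lit 2) (Q (nat_lit 42)))) (Nat.mul (X (nat_lit 49)) (Nat.mul (nat_lit 4) (Q (nat_lit 42))))))))))) (.nd (nat_lit 164) 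
 (.lf (.mk fun X Q H => (Nat.add (Nat.mul (X (nat_lit 38)) (Nat.add (Nat.mul (nat_lit 4) (H (nat_lit 33))) (Nat.mul (nat_lit 4) (H (nat_lit 40))))) (Nat.add (Nat.mul (X (nat_lit 39)) (Nat.add (Nat.mul (nat_lit 4) (H (nat_lit 33))) (Nat.mul (nat_lit 4) (H (nat_lit 40))))) (Nat.add (Nat.mul (X (nat_lit 41)) (Nat.mul (nat_lit 8) (H (nat_lit 40)))) (Nat.add (Nat.mul (X (nat_lit 42)) (Nat.mul (nat_lit 4) (H (nat_lit 42)))) (Nat.add (Nat.mul (X (nat_lit 44)) (Nat.mul (nat_lit 4) (Q (nat_lit 42)))) (Nat.add (Nat.mul (X (nat_lit 40)) (Nat.add (Nat.mul (nat_lit 8) (H (nat_lit 32))) (Nat.mul (nat_lit 8) (H (nat_lit 41))))) (Nat.mul (X (nat_lit 43)) (Nat.add (Nat.mul (nat_lit 8) (H (nat_lit 35))) (Nat.mul (nat_lit 8) (Q (nat_lit 36))))))))))))) 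
 (.lf (.mk fun X Q H => (Nat.add (Nat.mul (X (nat_lit 38)) (Nat.add (Nat.mul (nat_lit 4) (H (nat_lit 33))) (Nat.mul (nat_lit 4) (H (nat_lit 40))))) (Nat.add (Nat.mul (X (nat_lit 39)) (Nat.add (Nat.mul (nat_lit 4) (H (nat_lit 33))) (Nat.mul (nat_lit 4) (H (nat_lit 40))))) (Nat.add (Nat.mul (X (nat_lit 41)) (Nat.mul (nat_lit 8) (H (nat_lit 40)))) (Nat.add (Nat.mul (X (nat_lit 42)) (Nat.mul (nat_lit 4) (H (nat_lit 42)))) (Nat.add (Nat.mul (X (nat_lit 44)) (Nat.mul (nat_lit 4) (Q (nat_lit 42)))) (Nat.add (Nat.mul (X (nat_lit 40)) (Nat.add (Nat.mul (nat_lit 8) (H (nat_lit 32))) (Nat.mul (nat_lit 8) (H (nat_lit 41))))) (Nat.mul (X (nat_lit 43)) (Nat.add (Nat.mul (nat_lit 8) (H (nat_lit 35))) (Nat.mul (nat_lit 8) (Q (nat_lit 36))))))))))))))))) (.nd (nat_lit 171) (.nd (nat_lit 168) (.nd (nat_lit 166) 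
 (.lf (.mk fun X Q H => (Nat.add (Nat.mul (X (nat_lit 38)) (Nat.mul (nat_lit 8) (H (nat_lit 40)))) (Nat.add (Nat.mul (X (nat_lit 39)) (Nat.mul (nat_lit 8) (H (nat_lit 40)))) (Nat.add (Nat.mul (X (nat_lit 41)) (Nat.mul (nat_lit 8) (Q (nat_lit 40)))) (Nat.add (Nat.mul (X (nat_lit 42)) (Nat.add (Nat.mul (nat_lit 8) (H (nat_lit 33))) (Nat.mul (nat_lit 4) (Q (nat_lit 42))))) (Nat.add (Nat.mul (X (nat_lit 44)) (Nat.mul (nat_lit 4) (Q (nat_lit 33)))) (Nat.add (Nat.mul (X (nat_lit 40)) (Nat.add (Nat.mul (nat_lit 16) (H (nat_lit 32))) (Nat.mul (nat_lit 8) (Q (nat_lit 41))))) (Nat.mul (X (nat_lit 43)) (Nat.mul (nat_lit 8) (Q (nat_lit 35)))))))))))) (.nd (nat_lit 167) 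
 (.lf (.mk fun X Q H => (Nat.add (Nat.mul (X (nat_lit 38)) (Nat.add (H (nat_lit 33)) (Nat.mul (nat_lit 4) (H (nat_lit 40))))) (Nat.add (Nat.mul (X (nat_lit 39)) (Nat.mul (nat_lit 4) (H (nat_lit 40)))) (Nat.add (Nat.mul (X (nat_lit 42)) (Nat.mul (nat_lit 4) (H (nat_lit 42)))) (Nat.add (Nat.mul (X (nat_lit 44)) (Nat.mul (nat_lit 2) (Q (nat_lit 42)))) (Nat.add (Nat.mul (X (nat_lit 40)) (Nat.mul (nat_lit 8) (H (nat_lit 32)))) (Nat.add (Nat.mul (X (nat_lit 43)) (Nat.add (Nat.mul (nat_lit 8) (H (nat_lit 35))) (Nat.mul (nat_lit 4) (Q (nat_lit 36))))) (Nat.mul (X (nat_lit 51)) (Nat.mul (nat_lit 4) (H (nat_lit 33)))))))))))) 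
 (.lf (.mk fun X Q H => (Nat.add (Nat.mul (X (nat_lit 38)) (Nat.mul (nat_lit 8) (H (nat_lit 40)))) (Nat.add (Nat.mul (X (nat_lit 39)) (Nat.mul (nat_lit 8) (H (nat_lit 40)))) (Nat.add (Nat.mul (X (nat_lit 41)) (Nat.mul (nat_lit 8) (H (nat_lit 40)))) (Nat.add (Nat.mul (X (nat_lit 42)) (Nat.add (Nat.mul (nat_lit 8) (H (nat_lit 33))) (Nat.mul (nat_lit 4) (H (nat_lit 42))))) (Nat.add (Nat.mul (X (nat_lit 44)) (Nat.mul (nat_lit 4) (Q (nat_lit 42)))) (Nat.add (Nat.mul (X (nat_lit 40)) (Nat.add (Nat.mul (nat_lit 16) (H (nat_lit 32))) (Nat.mul (nat_lit 8) (H (nat_lit 41))))) (Nat.mul (X (nat_lit 43)) (Nat.add (Nat.mul (nat_lit 8) (H (nat_lit 35))) (Nat.mul (nat_lit 8) (Q (nat_lit 36))))))))))))))) (.nd (nat_lit 169) 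
 (.lf (.mk fun X _ H => (Nat.add (Nat.mul (X (nat_lit 38)) (Nat.mul (nat_lit 4) (H (nat_lit 40)))) (Nat.add (Nat.mul (X (nat_lit 39)) (Nat.mul (nat_lit 4) (H (nat_lit 40)))) (Nat.add (Nat.mul (X (nat_lit 40)) (Nat.mul (nat_lit 8) (H (nat_lit 32)))) (Nat.mul (X (nat_lit 52)) (Nat.mul (nat_lit 4) (H (nat_lit 33))))))))) (.nd (nat_lit 170) 
 (.lf (.mk fun X _ H => (Nat.mul (X (nat_lit 48)) (Nat.mul (nat_lit 4) (H (nat_lit 33)))))) 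
 (.lf (.mk fun X _ H => (Nat.mul (X (nat_lit 50)) (Nat.mul (nat_lit 4) (H (nat_lit 33))))))))) (.nd (nat_lit 174) (.nd (nat_lit 172) 
 (.lf (.mk fun _ _ _ => nat_lit 0)) (.nd (nat_lit 173) 
 (.lf (.mk fun X _ H => (Nat.add (Nat.mul (X (nat_lit 55)) (Nat.add (Nat.mul (nat_lit 8) (H (nat_lit 44))) (Nat.mul (nat_lit 2) (H (nat_lit 50))))) (Nat.add (Nat.mul (X (nat_lit 57)) (Nat.add (Nat.mul (nat_lit 8) (H (nat_lit 44))) (Nat.add (Nat.mul (nat_lit 8) (H (nat_lit 47))) (Nat.add (Nat.mul (nat_lit 8) (H (nat_lit 50))) (Nat.add (Nat.mul (nat_lit 8) (H (nat_lit 52))) (Nat.mul (nat_lit 8) (H (nat_lit 53)))))))) (Nat.add (Nat.mul (X (nat_lit 62)) (Nat.add (Nat.mul (nat_lit 4) (H (nat_lit 46))) (Nat.mul (nat_lit 4) (H (nat_lit 55))))) (Nat.add (Nat.mul (X (nat_lit 63)) (Nat.add (Nat.mul (nat_lit 4) (H (nat_lit 46))) (Nat.mul (nat_lit 4) (H (nat_lit 55)))))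 (Nat.add (Nat.mul (X (nat_lit 64)) (Nat.mul (nat_lit 8) (H (nat_lit 55)))) (Nat.add (Nat.mul (X (nat_lit 65)) (Nat.add (H (nat_lit 46)) (Nat.mul (nat_lit 4) (H (nat_lit 55))))) (Nat.add (Nat.mul (X (nat_lit 66)) (Nat.mul (nat_lit 8) (H (nat_lit 55)))) (Nat.mul (X (nat_lit 67)) (Nat.mul (nat_lit 4) (H (nat_lit 55))))))))))))) 
 (.lf (.mk fun X Q H => (Nat.add (Nat.mul (X (nat_lit 54)) (Nat.add (Nat.mul (nat_lit 8) (H (nat_lit 44))) (Nat.mul (nat_lit 2) (H (nat_lit 50))))) (Nat.add (Nat.mul (X (nat_lit 56)) (Nat.mul (nat_lit 8) (H (nat_lit 44)))) (Nat.add (Nat.mul (X (nat_lit 59)) (Nat.add (Nat.mul (nat_lit 8) (H (nat_lit 47))) (Nat.mul (nat_lit 8) (H (nat_lit 52))))) (Nat.add (Nat.mul (X (nat_lit 61)) (Nat.mul (nat_lit 4) (Q (nat_lit 47)))) (Nat.add (Nat.mul (X (nat_lit 62)) (Nat.mul (nat_lit 8) (H (nat_lit 45)))) (Nat.add (Nat.mul (X (nat_lit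 63)) (Nat.mul (nat_lit 8) (H (nat_lit 45)))) (Nat.add (Nat.mul (X (nat_lit 64)) (Nat.add (Nat.mul (nat_lit 8) (H (nat_lit 48))) (Nat.mul (nat_lit 4) (Q (nat_lit 49))))) (Nat.add (Nat.mul (X (nat_lit 65)) (Nat.mul (nat_lit 8) (H (nat_lit 51)))) (Nat.add (Nat.mul (X (nat_lit 66)) (Nat.mul (nat_lit 8) (H (nat_lit 48)))) (Nat.add (Nat.mul (X (nat_lit 67)) (Nat.mul (nat_lit 8) (H (nat_lit 54)))) (Nat.add (Nat.mul (X (nat_lit 68)) (Nat.mul (nat_lit 8) (H (nat_lit 50)))) (Nat.mul (X (nat_lit 69)) (Nat.mul (nat_lit 8) (H (nat_lit 53))))))))))))))))))) (.nd (nat_lit 175) 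
 (.lf (.mk fun X _ H => (Nat.add (Nat.mul (X (nat_lit 55)) (Nat.mul (nat_lit 8) (H (nat_lit 44)))) (Nat.add (Nat.mul (X (nat_lit 57)) (Nat.add (Nat.mul (nat_lit 8) (H (nat_lit 44))) (Nat.add (Nat.mul (nat_lit 8) (H (nat_lit 47))) (Nat.add (Nat.mul (nat_lit 8) (H (nat_lit 50))) (Nat.add (Nat.mul (nat_lit 8) (H (nat_lit 52))) (Nat.mul (nat_lit 8) (H (nat_lit 53)))))))) (Nat.add (Nat.mul (X (nat_lit 62)) (Nat.add (Nat.mul (nat_lit 4) (H (nat_lit 46))) (Nat.mul (nat_lit 4) (H (nat_lit 55))))) (Nat.add (Nat.mul (X (nat_lit 63)) (Nat.add (Nat.mul (nat_lit 4) (H (nat_lit 46))) (Nat.mul (nat_lit 4) (H (nat_lit 55))))) (Nat.add (Nat.mul (X (nat_lit 64)) (Nat.mul (nat_lit 8) (H (nat_lit 55)))) (Nat.add (Nat.mul (X (nat_lit 65)) (Nat.mul (nat_lit 4) (H (nat_lit 55)))) (Nat.add (Nat.mul (X (nat_lit 66)) (Nat.mul (nat_lit 8) (H (nat_lit 55)))) (Nat.mul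 (X (nat_lit 67)) (Nat.mul (nat_lit 4) (H (nat_lit 55))))))))))))) (.nd (nat_lit 176) 
 (.lf (.mk fun X Q H => (Nat.add (Nat.mul (X (nat_lit 54)) (Nat.add (Nat.mul (nat_lit 8) (H (nat_lit 44))) (Nat.add (Nat.mul (nat_lit 8) (H (nat_lit 47))) (Nat.add (Nat.mul (nat_lit 8) (H (nat_lit 50))) (Nat.add (Nat.mul (nat_lit 8) (H (nat_lit 52))) (Nat.mul (nat_lit 8) (H (nat_lit 53)))))))) (Nat.add (Nat.mul (X (nat_lit 56)) (Nat.add (Nat.mul (nat_lit 8) (H (nat_lit 44))) (Nat.add (Nat.mul (nat_lit 8) (H (nat_lit 47))) (Nat.add (Nat.mul (nat_lit 8) (H (nat_lit 50))) (Nat.add (Nat.mul (nat_lit 8) (H (nat_lit 52))) (Nat.mul (nat_lit 8) (H (nat_lit 53)))))))) (Nat.add (Nat.mul (X (nat_lit 58)) (Nat.add (Nat.mul (nat_lit 16) (H (nat_lit 44))) (Nat.add (Nat.mul (nat_lit 8) (Q (nat_lit 47))) (Nat.mul (nat_lit 8) (H (nat_lit 52)))))) (Nat.add (Nat.mul (X (nat_lit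 62)) (Nat.add (Nat.mul (nat_lit 8) (H (nat_lit 45))) (Nat.mul (nat_lit 8) (H (nat_lit 56))))) (Nat.add (Nat.mul (X (nat_lit 63)) (Nat.add (Nat.mul (nat_lit 8) (H (nat_lit 45))) (Nat.mul (nat_lit 8) (H (nat_lit 56))))) (Nat.add (Nat.mul (X (nat_lit 64)) (Nat.add (Nat.mul (nat_lit 16) (H (nat_lit 45))) (Nat.mul (nat_lit 8) (Q (nat_lit 56))))) (Nat.add (Nat.mul (X (nat_lit 65)) (Nat.mul (nat_lit 8) (H (nat_lit 45)))) (Nat.add (Nat.mul (X (nat_lit 66)) (Nat.add (Nat.mul (nat_lit 16) (H (nat_lit 45))) (Nat.mul (nat_lit 8) (H (nat_lit 56))))) (Nat.mul (X (nat_lit 67)) (Nat.mul (nat_lit 8) (H (nat_lit 45)))))))))))))) 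
 (.lf (.mk fun X Q H => (Nat.add (Nat.mul (X (nat_lit 57)) (Nat.add (Nat.mul (nat_lit 16) (H (nat_lit 44))) (Nat.add (Nat.mul (nat_lit 8) (Q (nat_lit 47))) (Nat.mul (nat_lit 8) (H (nat_lit 52)))))) (Nat.add (Nat.mul (X (nat_lit 62)) (Nat.mul (nat_lit 8) (H (nat_lit 55)))) (Nat.add (Nat.mul (X (nat_lit 63)) (Nat.mul (nat_lit 8) (H (nat_lit 55)))) (Nat.add (Nat.mul (X (nat_lit 64)) (Nat.mul (nat_lit 8) (Q (nat_lit 55)))) (Nat.mul (X (nat_lit 66)) (Nat.mul (nat_lit 8) (H (nat_lit 55)))))))))))))))))) (.nd (nat_lit 265) (.nd (nat_lit 221) (.nd (nat_lit 199) (.nd (nat_lit 188) (.nd (nat_lit 182) (.nd (nat_lit 179) (.nd (nat_lit 178) 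
 (.lf (.mk fun X Q H => (Nat.add (Nat.mul (X (nat_lit 55)) (Nat.add (Nat.mul (nat_lit 8) (H (nat_lit 47))) (Nat.mul (nat_lit 8) (H (nat_lit 52))))) (Nat.add (Nat.mul (X (nat_lit 60)) (Nat.add (Nat.mul (nat_lit 16) (H (nat_lit 44))) (Nat.add (Nat.mul (nat_lit 8) (Q (nat_lit 47))) (Nat.add (Nat.mul (nat_lit 16) (H (nat_lit 50))) (Nat.mul (nat_lit 8) (H (nat_lit 52))))))) (Nat.add (Nat.mul (X (nat_lit 62)) (Nat.mul (nat_lit 4) (H (nat_lit 57)))) (Nat.add (Nat.mul (X (nat_lit 63)) (Nat.mul (nat_lit 4) (H (nat_lit 57)))) (Nat.add (Nat.mul (X (nat_lit 64)) (Nat.add (Nat.mul (nat_lit 8) (H (nat_lit 46))) (Nat.mul (nat_lit 4) (Q (nat_lit 57))))) (Nat.add (Nat.mul (X (nat_lit 65)) (Nat.mul (nat_lit 4) (H (nat_lit 57)))) (Nat.mul (X (nat_lit 66)) (Nat.add (Nat.mul (nat_lit 8) (H (nat_lit 46))) (Nat.mul (nat_lit 4) (H (nat_lit 57))))))))))))) 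
 (.lf (.mk fun X Q H => (Nat.add (Nat.mul (X (nat_lit 59)) (Nat.add (Nat.mul (nat_lit 16) (H (nat_lit 44))) (Nat.add (Nat.mul (nat_lit 8) (Q (nat_lit 47))) (Nat.add (Nat.mul (nat_lit 16) (H (nat_lit 50))) (Nat.mul (nat_lit 8) (H (nat_lit 52))))))) (Nat.add (Nat.mul (X (nat_lit 61)) (Nat.add (Nat.mul (nat_lit 16) (Q (nat_lit 44))) (Nat.add (Nat.mul (nat_lit 8) (Q (nat_lit 50))) (Nat.mul (nat_lit 8) (Q (nat_lit 52)))))) (Nat.add (Nat.mul (X (nat_lit 62)) (Nat.add (Nat.mul (nat_lit 8) (H (nat_lit 48))) (Nat.mul (nat_lit 8) (Q (nat_lit 49))))) (Nat.add (Nat.mul (X (nat_lit 63)) (Nat.add (Nat.mul (nat_lit 8) (H (nat_lit 48))) (Nat.mul (nat_lit 8) (Q (nat_lit 49))))) (Nat.add (Nat.mul (X (nat_lit 64)) (Nat.mul (nat_lit 8) (Q (nat_lit 48)))) (Nat.add (Nat.mul (X (nat_lit 65)) (Nat.add (Nat.mul (nat_lit 8) (H (nat_lit 48))) (Nat.mul (nat_lit 4) (Q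 (nat_lit 49))))) (Nat.mul (X (nat_lit 66)) (Nat.add (Nat.mul (nat_lit 8) (H (nat_lit 48))) (Nat.mul (nat_lit 8) (Q (nat_lit 49)))))))))))))) (.nd (nat_lit 180) 
 (.lf (.mk fun X Q _ => (Nat.add (Nat.mul (X (nat_lit 55)) (Nat.mul (nat_lit 4) (Q (nat_lit 47)))) (Nat.add (Nat.mul (X (nat_lit 60)) (Nat.add (Nat.mul (nat_lit 16) (Q (nat_lit 44))) (Nat.add (Nat.mul (nat_lit 8) (Q (nat_lit 50))) (Nat.mul (nat_lit 8) (Q (nat_lit 52)))))) (Nat.add (Nat.mul (X (nat_lit 62)) (Nat.mul (nat_lit 4) (Q (nat_lit 57)))) (Nat.add (Nat.mul (X (nat_lit 63)) (Nat.mul (nat_lit 4) (Q (nat_lit 57)))) (Nat.add (Nat.mul (X (nat_lit 64)) (Nat.mul (nat_lit 4) (Q (nat_lit 46)))) (Nat.add (Nat.mul (X (nat_lit 65)) (Nat.mul (nat_lit 2) (Q (nat_lit 57)))) (Nat.mul (X (nat_lit 66)) (Nat.mul (nat_lit 4) (Q (nat_lit 57)))))))))))) (.nd (nat_lit 181) 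
 (.lf (.mk fun X Q H => (Nat.add (Nat.mul (X (nat_lit 54)) (Nat.add (Nat.mul (nat_lit 4) (H (nat_lit 46))) (Nat.mul (nat_lit 4) (H (nat_lit 55))))) (Nat.add (Nat.mul (X (nat_lit 56)) (Nat.add (Nat.mul (nat_lit 4) (H (nat_lit 46))) (Nat.mul (nat_lit 4) (H (nat_lit 55))))) (Nat.add (Nat.mul (X (nat_lit 58)) (Nat.mul (nat_lit 8) (H (nat_lit 55)))) (Nat.add (Nat.mul (X (nat_lit 59)) (Nat.mul (nat_lit 4) (H (nat_lit 57)))) (Nat.add (Nat.mul (X (nat_lit 61)) (Nat.mul (nat_lit 4) (Q (nat_lit 57)))) (Nat.add (Nat.mul (X (nat_lit 55)) (Nat.mul (nat_lit 8) (H (nat_lit 45)))) (Nat.add (Nat.mul (X (nat_lit 57)) (Nat.add (Nat.mul (nat_lit 8) (H (nat_lit 45))) (Nat.mul (nat_lit 8) (H (nat_lit 56))))) (Nat.mul (X (nat_lit 60)) (Nat.add (Nat.mul (nat_lit 8) (H (nat_lit 48))) (Nat.mul (nat_lit 8) (Q (nat_lit 49)))))))))))))) 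
 (.lf (.mk fun X Q H => (Nat.add (Nat.mul (X (nat_lit 54)) (Nat.add (Nat.mul (nat_lit 4) (H (nat_lit 46))) (Nat.mul (nat_lit 4) (H (nat_lit 55))))) (Nat.add (Nat.mul (X (nat_lit 56)) (Nat.add (Nat.mul (nat_lit 4) (H (nat_lit 46))) (Nat.mul (nat_lit 4) (H (nat_lit 55))))) (Nat.add (Nat.mul (X (nat_lit 58)) (Nat.mul (nat_lit 8) (H (nat_lit 55)))) (Nat.add (Nat.mul (X (nat_lit 59)) (Nat.mul (nat_lit 4) (H (nat_lit 57)))) (Nat.add (Nat.mul (X (nat_lit 61)) (Nat.mul (nat_lit 4) (Q (nat_lit 57)))) (Nat.add (Nat.mul (X (nat_lit 55)) (Nat.mul (nat_lit 8) (H (nat_lit 45)))) (Nat.add (Nat.mul (X (nat_lit 57)) (Nat.add (Nat.mul (nat_lit 8) (H (nat_lit 45))) (Nat.mul (nat_lit 8) (H (nat_lit 56))))) (Nat.mul (X (nat_lit 60)) (Nat.add (Nat.mul (nat_lit 8) (H (nat_lit 48))) (Nat.mul (nat_lit 8) (Q (nat_lit 49))))))))))))))))) (.nd (nat_lit 185) (.nd (nat_lit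 183) 
 (.lf (.mk fun X Q H => (Nat.add (Nat.mul (X (nat_lit 54)) (Nat.mul (nat_lit 8) (H (nat_lit 55)))) (Nat.add (Nat.mul (X (nat_lit 56)) (Nat.mul (nat_lit 8) (H (nat_lit 55)))) (Nat.add (Nat.mul (X (nat_lit 58)) (Nat.mul (nat_lit 8) (Q (nat_lit 55)))) (Nat.add (Nat.mul (X (nat_lit 59)) (Nat.add (Nat.mul (nat_lit 8) (H (nat_lit 46))) (Nat.mul (nat_lit 4) (Q (nat_lit 57))))) (Nat.add (Nat.mul (X (nat_lit 61)) (Nat.mul (nat_lit 4) (Q (nat_lit 46)))) (Nat.add (Nat.mul (X (nat_lit 55)) (Nat.add (Nat.mul (nat_lit 8) (H (nat_lit 48))) (Nat.mul (nat_lit 4) (Q (nat_lit 49))))) (Nat.add (Nat.mul (X (nat_lit 57)) (Nat.add (Nat.mul (nat_lit 16) (H (nat_lit 45))) (Nat.mul (nat_lit 8) (Q (nat_lit 56))))) (Nat.mul (X (nat_lit 60)) (Nat.mul (nat_lit 8) (Q (nat_lit 48))))))))))))) (.nd (nat_lit 184) 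
 (.lf (.mk fun X Q H => (Nat.add (Nat.mul (X (nat_lit 54)) (Nat.add (H (nat_lit 46)) (Nat.mul (nat_lit 4) (H (nat_lit 55))))) (Nat.add (Nat.mul (X (nat_lit 56)) (Nat.mul (nat_lit 4) (H (nat_lit 55)))) (Nat.add (Nat.mul (X (nat_lit 59)) (Nat.mul (nat_lit 4) (H (nat_lit 57)))) (Nat.add (Nat.mul (X (nat_lit 61)) (Nat.mul (nat_lit 2) (Q (nat_lit 57)))) (Nat.add (Nat.mul (X (nat_lit 55)) (Nat.mul (nat_lit 8) (H (nat_lit 51)))) (Nat.add (Nat.mul (X (nat_lit 57)) (Nat.mul (nat_lit 8) (H (nat_lit 45)))) (Nat.add (Nat.mul (X (nat_lit 60)) (Nat.add (Nat.mul (nat_lit 8) (H (nat_lit 48))) (Nat.mul (nat_lit 4) (Q (nat_lit 49))))) (Nat.mul (X (nat_lit 68)) (Nat.mul (nat_lit 4) (H (nat_lit 46))))))))))))) 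
 (.lf (.mk fun X Q H => (Nat.add (Nat.mul (X (nat_lit 54)) (Nat.mul (nat_lit 8) (H (nat_lit 55)))) (Nat.add (Nat.mul (X (nat_lit 56)) (Nat.mul (nat_lit 8) (H (nat_lit 55)))) (Nat.add (Nat.mul (X (nat_lit 58)) (Nat.mul (nat_lit 8) (H (nat_lit 55)))) (Nat.add (Nat.mul (X (nat_lit 59)) (Nat.add (Nat.mul (nat_lit 8) (H (nat_lit 46))) (Nat.mul (nat_lit 4) (H (nat_lit 57))))) (Nat.add (Nat.mul (X (nat_lit 61)) (Nat.mul (nat_lit 4) (Q (nat_lit 57)))) (Nat.add (Nat.mul (X (nat_lit 55)) (Nat.mul (nat_lit 8) (H (nat_lit 48)))) (Nat.add (Nat.mul (X (nat_lit 57)) (Nat.add (Nat.mul (nat_lit 16) (H (nat_lit 45))) (Nat.mul (nat_lit 8) (H (nat_lit 56))))) (Nat.mul (X (nat_lit 60)) (Nat.add (Nat.mul (nat_lit 8) (H (nat_lit 48))) (Nat.mul (nat_lit 8) (Q (nat_lit 49)))))))))))))))) (.nd (nat_lit 186) 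
 (.lf (.mk fun X _ H => (Nat.add (Nat.mul (X (nat_lit 54)) (Nat.mul (nat_lit 4) (H (nat_lit 55)))) (Nat.add (Nat.mul (X (nat_lit 56)) (Nat.mul (nat_lit 4) (H (nat_lit 55)))) (Nat.add (Nat.mul (X (nat_lit 55)) (Nat.mul (nat_lit 8) (H (nat_lit 54)))) (Nat.add (Nat.mul (X (nat_lit 57)) (Nat.mul (nat_lit 8) (H (nat_lit 45)))) (Nat.mul (X (nat_lit 69)) (Nat.mul (nat_lit 4) (H (nat_lit 46)))))))))) (.nd (nat_lit 187) 
 (.lf (.mk fun X _ H => (Nat.add (Nat.mul (X (nat_lit 55)) (Nat.mul (nat_lit 8) (H (nat_lit 50)))) (Nat.mul (X (nat_lit 65)) (Nat.mul (nat_lit 4) (H (nat_lit 46))))))) 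
 (.lf (.mk fun X _ H => (Nat.add (Nat.mul (X (nat_lit 55)) (Nat.mul (nat_lit 8) (H (nat_lit 53)))) (Nat.mul (X (nat_lit 67)) (Nat.mul (nat_lit 4) (H (nat_lit 46))))))))))) (.nd (nat_lit 193) (.nd (nat_lit 190) (.nd (nat_lit 189) 
 (.lf (.mk fun _ _ _ => nat_lit 0)) 
 (.lf (.mk fun X _ H => (Nat.add (Nat.mul (X (nat_lit 73)) (Nat.add (Nat.mul (nat_lit 8) (H (nat_lit 59))) (Nat.add (Nat.mul (nat_lit 8) (H (nat_lit 62))) (Nat.add (Nat.mul (nat_lit 8) (H (nat_lit 65))) (Nat.add (Nat.mul (nat_lit 8) (H (nat_lit 66))) (Nat.mul (nat_lit 8) (H (nat_lit 67)))))))) (Nat.add (Nat.mul (X (nat_lit 78)) (Nat.add (Nat.mul (nat_lit 4) (H (nat_lit 61))) (Nat.mul (nat_lit 4) (H (nat_lit 68))))) (Nat.add (Nat.mul (X (nat_lit 79)) (Nat.add (Nat.mul (nat_lit 4) (H (nat_lit 61))) (Nat.mul (nat_lit 4) (H (nat_lit 68))))) (Nat.add (Nat.mul (X (nat_lit 80)) (Nat.mul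 (nat_lit 8) (H (nat_lit 68)))) (Nat.add (Nat.mul (X (nat_lit 81)) (Nat.add (H (nat_lit 61)) (Nat.mul (nat_lit 4) (H (nat_lit 68))))) (Nat.add (Nat.mul (X (nat_lit 82)) (Nat.mul (nat_lit 8) (H (nat_lit 68)))) (Nat.mul (X (nat_lit 83)) (Nat.mul (nat_lit 4) (H (nat_lit 68))))))))))))) (.nd (nat_lit 191) 
 (.lf (.mk fun X _ H => (Nat.add (Nat.mul (X (nat_lit 73)) (Nat.add (Nat.mul (nat_lit 8) (H (nat_lit 59))) (Nat.add (Nat.mul (nat_lit 8) (H (nat_lit 62))) (Nat.add (Nat.mul (nat_lit 8) (H (nat_lit 65))) (Nat.add (Nat.mul (nat_lit 8) (H (nat_lit 66))) (Nat.mul (nat_lit 8) (H (nat_lit 67)))))))) (Nat.add (Nat.mul (X (nat_lit 78)) (Nat.add (Nat.mul (nat_lit 4) (H (nat_lit 61))) (Nat.mul (nat_lit 4) (H (nat_lit 68))))) (Nat.add (Nat.mul (X (nat_lit 79)) (Nat.add (Nat.mul (nat_lit 4) (H (nat_lit 61))) (Nat.mul (nat_lit 4) (H (nat_lit 68))))) (Nat.add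 (Nat.mul (X (nat_lit 80)) (Nat.mul (nat_lit 8) (H (nat_lit 68)))) (Nat.add (Nat.mul (X (nat_lit 81)) (Nat.mul (nat_lit 4) (H (nat_lit 68)))) (Nat.add (Nat.mul (X (nat_lit 82)) (Nat.mul (nat_lit 8) (H (nat_lit 68)))) (Nat.mul (X (nat_lit 83)) (Nat.mul (nat_lit 4) (H (nat_lit 68)))))))))))) (.nd (nat_lit 192) 
 (.lf (.mk fun X Q H => (Nat.add (Nat.mul (X (nat_lit 71)) (Nat.add (Nat.mul (nat_lit 8) (H (nat_lit 59))) (Nat.add (Nat.mul (nat_lit 8) (H (nat_lit 62))) (Nat.add (Nat.mul (nat_lit 8) (H (nat_lit 65))) (Nat.add (Nat.mul (nat_lit 8) (H (nat_lit 66))) (Nat.mul (nat_lit 8) (H (nat_lit 67)))))))) (Nat.add (Nat.mul (X (nat_lit 72)) (Nat.add (Nat.mul (nat_lit 8) (H (nat_lit 59))) (Nat.add (Nat.mul (nat_lit 8) (H (nat_lit 62))) (Nat.add (Nat.mul (nat_lit 8) (H (nat_lit 65))) (Nat.add (Nat.mul (nat_lit 8) (H (nat_lit 66))) (Nat.mul (nat_lit 8)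 (H (nat_lit 67)))))))) (Nat.add (Nat.mul (X (nat_lit 74)) (Nat.add (Nat.mul (nat_lit 16) (H (nat_lit 59))) (Nat.add (Nat.mul (nat_lit 8) (Q (nat_lit 62))) (Nat.mul (nat_lit 8) (H (nat_lit 66)))))) (Nat.add (Nat.mul (X (nat_lit 78)) (Nat.add (Nat.mul (nat_lit 8) (H (nat_lit 60))) (Nat.mul (nat_lit 8) (H (nat_lit 69))))) (Nat.add (Nat.mul (X (nat_lit 79)) (Nat.add (Nat.mul (nat_lit 8) (H (nat_lit 60))) (Nat.mul (nat_lit 8) (H (nat_lit 69))))) (Nat.add (Nat.mul (X (nat_lit 80)) (Nat.add (Nat.mul (nat_lit 16) (H (nat_lit 60))) (Nat.mul (nat_lit 8) (Q (nat_lit 69))))) (Nat.add (Nat.mul (X (nat_lit 81)) (Nat.mul (nat_lit 8) (H (nat_lit 60)))) (Nat.add (Nat.mul (X (nat_lit 82)) (Nat.add (Nat.mul (nat_lit 16) (H (nat_lit 60))) (Nat.mul (nat_lit 8) (H (nat_lit 69))))) (Nat.mul (X (nat_lit 83)) (Nat.mul (nat_lit 8) (H (nat_lit 60)))))))))))))) 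
 (.lf (.mk fun X Q H => (Nat.add (Nat.mul (X (nat_lit 73)) (Nat.add (Nat.mul (nat_lit 16) (H (nat_lit 59))) (Nat.add (Nat.mul (nat_lit 8) (Q (nat_lit 62))) (Nat.mul (nat_lit 8) (H (nat_lit 66)))))) (Nat.add (Nat.mul (X (nat_lit 78)) (Nat.mul (nat_lit 8) (H (nat_lit 68)))) (Nat.add (Nat.mul (X (nat_lit 79)) (Nat.mul (nat_lit 8) (H (nat_lit 68)))) (Nat.add (Nat.mul (X (nat_lit 80)) (Nat.mul (nat_lit 8) (Q (nat_lit 68)))) (Nat.mul (X (nat_lit 82)) (Nat.mul (nat_lit 8) (H (nat_lit 68))))))))))))) (.nd (nat_lit 196) (.nd (nat_lit 194) 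
 (.lf (.mk fun X Q H => (Nat.add (Nat.mul (X (nat_lit 76)) (Nat.add (Nat.mul (nat_lit 16) (H (nat_lit 59))) (Nat.add (Nat.mul (nat_lit 8) (Q (nat_lit 62))) (Nat.add (Nat.mul (nat_lit 16) (H (nat_lit 65))) (Nat.mul (nat_lit 8) (H (nat_lit 66))))))) (Nat.add (Nat.mul (X (nat_lit 78)) (Nat.mul (nat_lit 4) (H (nat_lit 70)))) (Nat.add (Nat.mul (X (nat_lit 79)) (Nat.mul (nat_lit 4) (H (nat_lit 70)))) (Nat.add (Nat.mul (X (nat_lit 80)) (Nat.add (Nat.mul (nat_lit 8) (H (nat_lit 61))) (Nat.mul (nat_lit 4) (Q (nat_lit 70))))) (Nat.add (Nat.mul (X (nat_lit 81)) (Nat.mul (nat_lit 4) (H (nat_lit 70)))) (Nat.mul (X (nat_lit 82)) (Nat.add (Nat.mul (nat_lit 8) (H (nat_lit 61))) (Nat.mul (nat_lit 4) (H (nat_lit 70)))))))))))) (.nd (nat_lit 195) 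
 (.lf (.mk fun X Q H => (Nat.add (Nat.mul (X (nat_lit 75)) (Nat.add (Nat.mul (nat_lit 16) (H (nat_lit 59))) (Nat.add (Nat.mul (nat_lit 8) (Q (nat_lit 62))) (Nat.add (Nat.mul (nat_lit 16) (H (nat_lit 65))) (Nat.mul (nat_lit 8) (H (nat_lit 66))))))) (Nat.add (Nat.mul (X (nat_lit 77)) (Nat.add (Nat.mul (nat_lit 16) (Q (nat_lit 59))) (Nat.add (Nat.mul (nat_lit 8) (Q (nat_lit 65))) (Nat.mul (nat_lit 8) (Q (nat_lit 66)))))) (Nat.add (Nat.mul (X (nat_lit 78)) (Nat.add (Nat.mul (nat_lit 8) (H (nat_lit 63))) (Nat.mul (nat_lit 8) (Q (nat_lit 64))))) (Nat.add (Nat.mul (X (nat_lit 79)) (Nat.add (Nat.mul (nat_lit 8) (H (nat_lit 63))) (Nat.mul (nat_lit 8) (Q (nat_lit 64))))) (Nat.add (Nat.mul (X (nat_lit 80)) (Nat.mul (nat_lit 8) (Q (nat_lit 63)))) (Nat.add (Nat.mul (X (nat_lit 81)) (Nat.add (Nat.mul (nat_lit 8) (H (nat_lit 63))) (Nat.mul (nat_lit 4) (Q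 (nat_lit 64))))) (Nat.mul (X (nat_lit 82)) (Nat.add (Nat.mul (nat_lit 8) (H (nat_lit 63))) (Nat.mul (nat_lit 8) (Q (nat_lit 64))))))))))))) 
 (.lf (.mk fun X Q _ => (Nat.add (Nat.mul (X (nat_lit 76)) (Nat.add (Nat.mul (nat_lit 16) (Q (nat_lit 59))) (Nat.add (Nat.mul (nat_lit 8) (Q (nat_lit 65))) (Nat.mul (nat_lit 8) (Q (nat_lit 66)))))) (Nat.add (Nat.mul (X (nat_lit 78)) (Nat.mul (nat_lit 4) (Q (nat_lit 70)))) (Nat.add (Nat.mul (X (nat_lit 79)) (Nat.mul (nat_lit 4) (Q (nat_lit 70)))) (Nat.add (Nat.mul (X (nat_lit 80)) (Nat.mul (nat_lit 4) (Q (nat_lit 61)))) (Nat.add (Nat.mul (X (nat_lit 81)) (Nat.mul (nat_lit 2) (Q (nat_lit 70)))) (Nat.mul (X (nat_lit 82)) (Nat.mul (nat_lit 4) (Q (nat_lit 70))))))))))))) (.nd (nat_lit 197) 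
 (.lf (.mk fun X Q H => (Nat.add (Nat.mul (X (nat_lit 71)) (Nat.add (Nat.mul (nat_lit 4) (H (nat_lit 61))) (Nat.mul (nat_lit 4) (H (nat_lit 68))))) (Nat.add (Nat.mul (X (nat_lit 72)) (Nat.add (Nat.mul (nat_lit 4) (H (nat_lit 61))) (Nat.mul (nat_lit 4) (H (nat_lit 68))))) (Nat.add (Nat.mul (X (nat_lit 74)) (Nat.mul (nat_lit 8) (H (nat_lit 68)))) (Nat.add (Nat.mul (X (nat_lit 75)) (Nat.mul (nat_lit 4) (H (nat_lit 70)))) (Nat.add (Nat.mul (X (nat_lit 77)) (Nat.mul (nat_lit 4) (Q (nat_lit 70)))) (Nat.add (Nat.mul (X (nat_lit 73)) (Nat.add (Nat.mul (nat_lit 8) (H (nat_lit 60))) (Nat.mul (nat_lit 8) (H (nat_lit 69))))) (Nat.mul (X (nat_lit 76)) (Nat.add (Nat.mul (nat_lit 8) (H (nat_lit 63))) (Nat.mul (nat_lit 8) (Q (nat_lit 64))))))))))))) (.nd (nat_lit 198) 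
 (.lf (.mk fun X Q H => (Nat.add (Nat.mul (X (nat_lit 71)) (Nat.add (Nat.mul (nat_lit 4) (H (nat_lit 61))) (Nat.mul (nat_lit 4) (H (nat_lit 68))))) (Nat.add (Nat.mul (X (nat_lit 72)) (Nat.add (Nat.mul (nat_lit 4) (H (nat_lit 61))) (Nat.mul (nat_lit 4) (H (nat_lit 68))))) (Nat.add (Nat.mul (X (nat_lit 74)) (Nat.mul (nat_lit 8) (H (nat_lit 68)))) (Nat.add (Nat.mul (X (nat_lit 75)) (Nat.mul (nat_lit 4) (H (nat_lit 70)))) (Nat.add (Nat.mul (X (nat_lit 77)) (Nat.mul (nat_lit 4) (Q (nat_lit 70)))) (Nat.add (Nat.mul (X (nat_lit 73)) (Nat.add (Nat.mul (nat_lit 8) (H (nat_lit 60))) (Nat.mul (nat_lit 8) (H (nat_lit 69))))) (Nat.mul (X (nat_lit 76)) (Nat.add (Nat.mul (nat_lit 8) (H (nat_lit 63))) (Nat.mul (nat_lit 8) (Q (nat_lit 64))))))))))))) 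
 (.lf (.mk fun X Q H => (Nat.add (Nat.mul (X (nat_lit 71)) (Nat.mul (nat_lit 8) (H (nat_lit 68)))) (Nat.add (Nat.mul (X (nat_lit 72)) (Nat.mul (nat_lit 8) (H (nat_lit 68)))) (Nat.add (Nat.mul (X (nat_lit 74)) (Nat.mul (nat_lit 8) (Q (nat_lit 68)))) (Nat.add (Nat.mul (X (nat_lit 75)) (Nat.add (Nat.mul (nat_lit 8) (H (nat_lit 61))) (Nat.mul (nat_lit 4) (Q (nat_lit 70))))) (Nat.add (Nat.mul (X (nat_lit 77)) (Nat.mul (nat_lit 4) (Q (nat_lit 61)))) (Nat.add (Nat.mul (X (nat_lit 73)) (Nat.add (Nat.mul (nat_lit 16) (H (nat_lit 60))) (Nat.mul (nat_lit 8) (Q (nat_lit 69))))) (Nat.mul (X (nat_lit 76)) (Nat.mul (nat_lit 8) (Q (nat_lit 63))))))))))))))))) (.nd (nat_lit 210) (.nd (nat_lit 204) (.nd (nat_lit 201) (.nd (nat_lit 200) 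
 (.lf (.mk fun X Q H => (Nat.add (Nat.mul (X (nat_lit 71)) (Nat.add (H (nat_lit 61)) (Nat.mul (nat_lit 4) (H (nat_lit 68))))) (Nat.add (Nat.mul (X (nat_lit 72)) (Nat.mul (nat_lit 4) (H (nat_lit 68)))) (Nat.add (Nat.mul (X (nat_lit 75)) (Nat.mul (nat_lit 4) (H (nat_lit 70)))) (Nat.add (Nat.mul (X (nat_lit 77)) (Nat.mul (nat_lit 2) (Q (nat_lit 70)))) (Nat.add (Nat.mul (X (nat_lit 73)) (Nat.mul (nat_lit 8) (H (nat_lit 60)))) (Nat.add (Nat.mul (X (nat_lit 76)) (Nat.add (Nat.mul (nat_lit 8) (H (nat_lit 63))) (Nat.mul (nat_lit 4) (Q (nat_lit 64))))) (Nat.mul (X (nat_lit 84)) (Nat.mul (nat_lit 4) (H (nat_lit 61)))))))))))) 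
 (.lf (.mk fun X Q H => (Nat.add (Nat.mul (X (nat_lit 71)) (Nat.mul (nat_lit 8) (H (nat_lit 68)))) (Nat.add (Nat.mul (X (nat_lit 72)) (Nat.mul (nat_lit 8) (H (nat_lit 68)))) (Nat.add (Nat.mul (X (nat_lit 74)) (Nat.mul (nat_lit 8) (H (nat_lit 68)))) (Nat.add (Nat.mul (X (nat_lit 75)) (Nat.add (Nat.mul (nat_lit 8) (H (nat_lit 61))) (Nat.mul (nat_lit 4) (H (nat_lit 70))))) (Nat.add (Nat.mul (X (nat_lit 77)) (Nat.mul (nat_lit 4) (Q (nat_lit 70)))) (Nat.add (Nat.mul (X (nat_lit 73)) (Nat.add (Nat.mul (nat_lit 16) (H (nat_lit 60))) (Nat.mul (nat_lit 8) (H (nat_lit 69))))) (Nat.mul (X (nat_lit 76)) (Nat.add (Nat.mul (nat_lit 8) (H (nat_lit 63))) (Nat.mul (nat_lit 8) (Q (nat_lit 64)))))))))))))) (.nd (nat_lit 202) 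
 (.lf (.mk fun X _ H => (Nat.add (Nat.mul (X (nat_lit 71)) (Nat.mul (nat_lit 4) (H (nat_lit 68)))) (Nat.add (Nat.mul (X (nat_lit 72)) (Nat.mul (nat_lit 4) (H (nat_lit 68)))) (Nat.add (Nat.mul (X (nat_lit 73)) (Nat.mul (nat_lit 8) (H (nat_lit 60)))) (Nat.mul (X (nat_lit 85)) (Nat.mul (nat_lit 4) (H (nat_lit 61))))))))) (.nd (nat_lit 203) 
 (.lf (.mk fun X _ H => (Nat.mul (X (nat_lit 81)) (Nat.mul (nat_lit 4) (H (nat_lit 61)))))) 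
 (.lf (.mk fun X _ H => (Nat.mul (X (nat_lit 83)) (Nat.mul (nat_lit 4) (H (nat_lit 61))))))))) (.nd (nat_lit 207) (.nd (nat_lit 205) 
 (.lf (.mk fun _ _ _ => nat_lit 0)) (.nd (nat_lit 206) 
 (.lf (.mk fun X _ H => (Nat.add (Nat.mul (X (nat_lit 88)) (Nat.add (Nat.mul (nat_lit 8) (H (nat_lit 72))) (Nat.mul (nat_lit 2) (H (nat_lit 78))))) (Nat.add (Nat.mul (X (nat_lit 90)) (Nat.add (Nat.mul (nat_lit 8) (H (nat_lit 72))) (Nat.add (Nat.mul (nat_lit 8) (H (nat_lit 75))) (Nat.add (Nat.mul (nat_lit 8) (H (nat_lit 78))) (Nat.add (Nat.mul (nat_lit 8) (H (nat_lit 80))) (Nat.mul (nat_lit 8) (H (nat_lit 81)))))))) (Nat.add (Nat.mul (X (nat_lit 95)) (Nat.add (Nat.mul (nat_lit 4) (H (nat_lit 74))) (Nat.mul (nat_lit 4) (H (nat_lit 83))))) (Nat.add (Nat.mul (X (nat_lit 96)) (Nat.add (Nat.mul (nat_lit 4) (H (nat_lit 74))) (Nat.mul (nat_lit 4) (H (nat_lit 83)))))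 (Nat.add (Nat.mul (X (nat_lit 97)) (Nat.mul (nat_lit 8) (H (nat_lit 83)))) (Nat.add (Nat.mul (X (nat_lit 98)) (Nat.add (H (nat_lit 74)) (Nat.mul (nat_lit 4) (H (nat_lit 83))))) (Nat.add (Nat.mul (X (nat_lit 99)) (Nat.mul (nat_lit 8) (H (nat_lit 83)))) (Nat.mul (X (nat_lit 100)) (Nat.mul (nat_lit 4) (H (nat_lit 83))))))))))))) 
 (.lf (.mk fun X Q H => (Nat.add (Nat.mul (X (nat_lit 87)) (Nat.add (Nat.mul (nat_lit 8) (H (nat_lit 72))) (Nat.mul (nat_lit 2) (H (nat_lit 78))))) (Nat.add (Nat.mul (X (nat_lit 89)) (Nat.mul (nat_lit 8) (H (nat_lit 72)))) (Nat.add (Nat.mul (X (nat_lit 92)) (Nat.add (Nat.mul (nat_lit 8) (H (nat_lit 75))) (Nat.mul (nat_lit 8) (H (nat_lit 80))))) (Nat.add (Nat.mul (X (nat_lit 94)) (Nat.mul (nat_lit 4) (Q (nat_lit 75)))) (Nat.add (Nat.mul (X (nat_lit 95)) (Nat.mul (nat_lit 8) (H (nat_lit 73)))) (Nat.add (Nat.mul (X (nat_lit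 96)) (Nat.mul (nat_lit 8) (H (nat_lit 73)))) (Nat.add (Nat.mul (X (nat_lit 97)) (Nat.add (Nat.mul (nat_lit 8) (H (nat_lit 76))) (Nat.mul (nat_lit 4) (Q (nat_lit 77))))) (Nat.add (Nat.mul (X (nat_lit 98)) (Nat.mul (nat_lit 8) (H (nat_lit 79)))) (Nat.add (Nat.mul (X (nat_lit 99)) (Nat.mul (nat_lit 8) (H (nat_lit 76)))) (Nat.add (Nat.mul (X (nat_lit 100)) (Nat.mul (nat_lit 8) (H (nat_lit 82)))) (Nat.add (Nat.mul (X (nat_lit 101)) (Nat.mul (nat_lit 8) (H (nat_lit 78)))) (Nat.mul (X (nat_lit 102)) (Nat.mul (nat_lit 8) (H (nat_lit 81))))))))))))))))))) (.nd (nat_lit 208) 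
 (.lf (.mk fun X _ H => (Nat.add (Nat.mul (X (nat_lit 88)) (Nat.mul (nat_lit 8) (H (nat_lit 72)))) (Nat.add (Nat.mul (X (nat_lit 90)) (Nat.add (Nat.mul (nat_lit 8) (H (nat_lit 72))) (Nat.add (Nat.mul (nat_lit 8) (H (nat_lit 75))) (Nat.add (Nat.mul (nat_lit 8) (H (nat_lit 78))) (Nat.add (Nat.mul (nat_lit 8) (H (nat_lit 80))) (Nat.mul (nat_lit 8) (H (nat_lit 81)))))))) (Nat.add (Nat.mul (X (nat_lit 95)) (Nat.add (Nat.mul (nat_lit 4) (H (nat_lit 74))) (Nat.mul (nat_lit 4) (H (nat_lit 83))))) (Nat.add (Nat.mul (X (nat_lit 96)) (Nat.add (Nat.mul (nat_lit 4) (H (nat_lit 74))) (Nat.mul (nat_lit 4) (H (nat_lit 83))))) (Nat.add (Nat.mul (X (nat_lit 97)) (Nat.mul (nat_lit 8) (H (nat_lit 83)))) (Nat.add (Nat.mul (X (nat_lit 98)) (Nat.mul (nat_lit 4) (H (nat_lit 83)))) (Nat.add (Nat.mul (X (nat_lit 99)) (Nat.mul (nat_lit 8) (H (nat_lit 83)))) (Nat.mul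 (X (nat_lit 100)) (Nat.mul (nat_lit 4) (H (nat_lit 83))))))))))))) (.nd (nat_lit 209) 
 (.lf (.mk fun X Q H => (Nat.add (Nat.mul (X (nat_lit 87)) (Nat.add (Nat.mul (nat_lit 8) (H (nat_lit 72))) (Nat.add (Nat.mul (nat_lit 8) (H (nat_lit 75))) (Nat.add (Nat.mul (nat_lit 8) (H (nat_lit 78))) (Nat.add (Nat.mul (nat_lit 8) (H (nat_lit 80))) (Nat.mul (nat_lit 8) (H (nat_lit 81)))))))) (Nat.add (Nat.mul (X (nat_lit 89)) (Nat.add (Nat.mul (nat_lit 8) (H (nat_lit 72))) (Nat.add (Nat.mul (nat_lit 8) (H (nat_lit 75))) (Nat.add (Nat.mul (nat_lit 8) (H (nat_lit 78))) (Nat.add (Nat.mul (nat_lit 8) (H (nat_lit 80))) (Nat.mul (nat_lit 8) (H (nat_lit 81)))))))) (Nat.add (Nat.mul (X (nat_lit 91)) (Nat.add (Nat.mul (nat_lit 16) (H (nat_lit 72))) (Nat.add (Nat.mul (nat_lit 8) (Q (nat_lit 75))) (Nat.mul (nat_lit 8) (H (nat_lit 80)))))) (Nat.add (Nat.mul (X (nat_lit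 95)) (Nat.add (Nat.mul (nat_lit 8) (H (nat_lit 73))) (Nat.mul (nat_lit 8) (H (nat_lit 84))))) (Nat.add (Nat.mul (X (nat_lit 96)) (Nat.add (Nat.mul (nat_lit 8) (H (nat_lit 73))) (Nat.mul (nat_lit 8) (H (nat_lit 84))))) (Nat.add (Nat.mul (X (nat_lit 97)) (Nat.add (Nat.mul (nat_lit 16) (H (nat_lit 73))) (Nat.mul (nat_lit 8) (Q (nat_lit 84))))) (Nat.add (Nat.mul (X (nat_lit 98)) (Nat.mul (nat_lit 8) (H (nat_lit 73)))) (Nat.add (Nat.mul (X (nat_lit 99)) (Nat.add (Nat.mul (nat_lit 16) (H (nat_lit 73))) (Nat.mul (nat_lit 8) (H (nat_lit 84))))) (Nat.mul (X (nat_lit 100)) (Nat.mul (nat_lit 8) (H (nat_lit 73)))))))))))))) 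
 (.lf (.mk fun X Q H => (Nat.add (Nat.mul (X (nat_lit 90)) (Nat.add (Nat.mul (nat_lit 16) (H (nat_lit 72))) (Nat.add (Nat.mul (nat_lit 8) (Q (nat_lit 75))) (Nat.mul (nat_lit 8) (H (nat_lit 80)))))) (Nat.add (Nat.mul (X (nat_lit 95)) (Nat.mul (nat_lit 8) (H (nat_lit 83)))) (Nat.add (Nat.mul (X (nat_lit 96)) (Nat.mul (nat_lit 8) (H (nat_lit 83)))) (Nat.add (Nat.mul (X (nat_lit 97)) (Nat.mul (nat_lit 8) (Q (nat_lit 83)))) (Nat.mul (X (nat_lit 99)) (Nat.mul (nat_lit 8) (H (nat_lit 83)))))))))))))) (.nd (nat_lit 215) (.nd (nat_lit 212) (.nd (nat_lit 211) 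
 (.lf (.mk fun X Q H => (Nat.add (Nat.mul (X (nat_lit 88)) (Nat.add (Nat.mul (nat_lit 8) (H (nat_lit 75))) (Nat.mul (nat_lit 8) (H (nat_lit 80))))) (Nat.add (Nat.mul (X (nat_lit 93)) (Nat.add (Nat.mul (nat_lit 16) (H (nat_lit 72))) (Nat.add (Nat.mul (nat_lit 8) (Q (nat_lit 75))) (Nat.add (Nat.mul (nat_lit 16) (H (nat_lit 78))) (Nat.mul (nat_lit 8) (H (nat_lit 80))))))) (Nat.add (Nat.mul (X (nat_lit 95)) (Nat.mul (nat_lit 4) (H (nat_lit 85)))) (Nat.add (Nat.mul (X (nat_lit 96)) (Nat.mul (nat_lit 4) (H (nat_lit 85)))) (Nat.add (Nat.mul (X (nat_lit 97)) (Nat.add (Nat.mul (nat_lit 8) (H (nat_lit 74))) (Nat.mul (nat_lit 4) (Q (nat_lit 85))))) (Nat.add (Nat.mul (X (nat_lit 98)) (Nat.mul (nat_lit 4) (H (nat_lit 85)))) (Nat.mul (X (nat_lit 99)) (Nat.add (Nat.mul (nat_lit 8) (H (nat_lit 74))) (Nat.mul (nat_lit 4) (H (nat_lit 85))))))))))))) 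
 (.lf (.mk fun X Q H => (Nat.add (Nat.mul (X (nat_lit 92)) (Nat.add (Nat.mul (nat_lit 16) (H (nat_lit 72))) (Nat.add (Nat.mul (nat_lit 8) (Q (nat_lit 75))) (Nat.add (Nat.mul (nat_lit 16) (H (nat_lit 78))) (Nat.mul (nat_lit 8) (H (nat_lit 80))))))) (Nat.add (Nat.mul (X (nat_lit 94)) (Nat.add (Nat.mul (nat_lit 16) (Q (nat_lit 72))) (Nat.add (Nat.mul (nat_lit 8) (Q (nat_lit 78))) (Nat.mul (nat_lit 8) (Q (nat_lit 80)))))) (Nat.add (Nat.mul (X (nat_lit 95)) (Nat.add (Nat.mul (nat_lit 8) (H (nat_lit 76))) (Nat.mul (nat_lit 8) (Q (nat_lit 77))))) (Nat.add (Nat.mul (X (nat_lit 96)) (Nat.add (Nat.mul (nat_lit 8) (H (nat_lit 76))) (Nat.mul (nat_lit 8) (Q (nat_lit 77))))) (Nat.add (Nat.mul (X (nat_lit 97)) (Nat.mul (nat_lit 8) (Q (nat_lit 76)))) (Nat.add (Nat.mul (X (nat_lit 98)) (Nat.add (Nat.mul (nat_lit 8) (H (nat_lit 76))) (Nat.mul (nat_lit 4) (Q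 (nat_lit 77))))) (Nat.mul (X (nat_lit 99)) (Nat.add (Nat.mul (nat_lit 8) (H (nat_lit 76))) (Nat.mul (nat_lit 8) (Q (nat_lit 77)))))))))))))) (.nd (nat_lit 213) 
 (.lf (.mk fun X Q _ => (Nat.add (Nat.mul (X (nat_lit 88)) (Nat.mul (nat_lit 4) (Q (nat_lit 75)))) (Nat.add (Nat.mul (X (nat_lit 93)) (Nat.add (Nat.mul (nat_lit 16) (Q (nat_lit 72))) (Nat.add (Nat.mul (nat_lit 8) (Q (nat_lit 78))) (Nat.mul (nat_lit 8) (Q (nat_lit 80)))))) (Nat.add (Nat.mul (X (nat_lit 95)) (Nat.mul (nat_lit 4) (Q (nat_lit 85)))) (Nat.add (Nat.mul (X (nat_lit 96)) (Nat.mul (nat_lit 4) (Q (nat_lit 85)))) (Nat.add (Nat.mul (X (nat_lit 97)) (Nat.mul (nat_lit 4) (Q (nat_lit 74)))) (Nat.add (Nat.mul (X (nat_lit 98)) (Nat.mul (nat_lit 2) (Q (nat_lit 85)))) (Nat.mul (X (nat_lit 99)) (Nat.mul (nat_lit 4) (Q (nat_lit 85)))))))))))) (.nd (nat_lit 214) 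
 (.lf (.mk fun X Q H => (Nat.add (Nat.mul (X (nat_lit 87)) (Nat.add (Nat.mul (nat_lit 4) (H (nat_lit 74))) (Nat.mul (nat_lit 4) (H (nat_lit 83))))) (Nat.add (Nat.mul (X (nat_lit 89)) (Nat.add (Nat.mul (nat_lit 4) (H (nat_lit 74))) (Nat.mul (nat_lit 4) (H (nat_lit 83))))) (Nat.add (Nat.mul (X (nat_lit 91)) (Nat.mul (nat_lit 8) (H (nat_lit 83)))) (Nat.add (Nat.mul (X (nat_lit 92)) (Nat.mul (nat_lit 4) (H (nat_lit 85)))) (Nat.add (Nat.mul (X (nat_lit 94)) (Nat.mul (nat_lit 4) (Q (nat_lit 85)))) (Nat.add (Nat.mul (X (nat_lit 88)) (Nat.mul (nat_lit 8) (H (nat_lit 73)))) (Nat.add (Nat.mul (X (nat_lit 90)) (Nat.add (Nat.mul (nat_lit 8) (H (nat_lit 73))) (Nat.mul (nat_lit 8) (H (nat_lit 84))))) (Nat.mul (X (nat_lit 93)) (Nat.add (Nat.mul (nat_lit 8) (H (nat_lit 76))) (Nat.mul (nat_lit 8) (Q (nat_lit 77)))))))))))))) 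
 (.lf (.mk fun X Q H => (Nat.add (Nat.mul (X (nat_lit 87)) (Nat.add (Nat.mul (nat_lit 4) (H (nat_lit 74))) (Nat.mul (nat_lit 4) (H (nat_lit 83))))) (Nat.add (Nat.mul (X (nat_lit 89)) (Nat.add (Nat.mul (nat_lit 4) (H (nat_lit 74))) (Nat.mul (nat_lit 4) (H (nat_lit 83))))) (Nat.add (Nat.mul (X (nat_lit 91)) (Nat.mul (nat_lit 8) (H (nat_lit 83)))) (Nat.add (Nat.mul (X (nat_lit 92)) (Nat.mul (nat_lit 4) (H (nat_lit 85)))) (Nat.add (Nat.mul (X (nat_lit 94)) (Nat.mul (nat_lit 4) (Q (nat_lit 85)))) (Nat.add (Nat.mul (X (nat_lit 88)) (Nat.mul (nat_lit 8) (H (nat_lit 73)))) (Nat.add (Nat.mul (X (nat_lit 90)) (Nat.add (Nat.mul (nat_lit 8) (H (nat_lit 73))) (Nat.mul (nat_lit 8) (H (nat_lit 84))))) (Nat.mul (X (nat_lit 93)) (Nat.add (Nat.mul (nat_lit 8) (H (nat_lit 76))) (Nat.mul (nat_lit 8) (Q (nat_lit 77))))))))))))))))) (.nd (nat_lit 218) (.nd (nat_lit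 216) 
 (.lf (.mk fun X Q H => (Nat.add (Nat.mul (X (nat_lit 87)) (Nat.mul (nat_lit 8) (H (nat_lit 83)))) (Nat.add (Nat.mul (X (nat_lit 89)) (Nat.mul (nat_lit 8) (H (nat_lit 83)))) (Nat.add (Nat.mul (X (nat_lit 91)) (Nat.mul (nat_lit 8) (Q (nat_lit 83)))) (Nat.add (Nat.mul (X (nat_lit 92)) (Nat.add (Nat.mul (nat_lit 8) (H (nat_lit 74))) (Nat.mul (nat_lit 4) (Q (nat_lit 85))))) (Nat.add (Nat.mul (X (nat_lit 94)) (Nat.mul (nat_lit 4) (Q (nat_lit 74)))) (Nat.add (Nat.mul (X (nat_lit 88)) (Nat.add (Nat.mul (nat_lit 8) (H (nat_lit 76))) (Nat.mul (nat_lit 4) (Q (nat_lit 77))))) (Nat.add (Nat.mul (X (nat_lit 90)) (Nat.add (Nat.mul (nat_lit 16) (H (nat_lit 73))) (Nat.mul (nat_lit 8) (Q (nat_lit 84))))) (Nat.mul (X (nat_lit 93)) (Nat.mul (nat_lit 8) (Q (nat_lit 76))))))))))))) (.nd (nat_lit 217) 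
 (.lf (.mk fun X Q H => (Nat.add (Nat.mul (X (nat_lit 87)) (Nat.add (H (nat_lit 74)) (Nat.mul (nat_lit 4) (H (nat_lit 83))))) (Nat.add (Nat.mul (X (nat_lit 89)) (Nat.mul (nat_lit 4) (H (nat_lit 83)))) (Nat.add (Nat.mul (X (nat_lit 92)) (Nat.mul (nat_lit 4) (H (nat_lit 85)))) (Nat.add (Nat.mul (X (nat_lit 94)) (Nat.mul (nat_lit 2) (Q (nat_lit 85)))) (Nat.add (Nat.mul (X (nat_lit 88)) (Nat.mul (nat_lit 8) (H (nat_lit 79)))) (Nat.add (Nat.mul (X (nat_lit 90)) (Nat.mul (nat_lit 8) (H (nat_lit 73)))) (Nat.add (Nat.mul (X (nat_lit 93)) (Nat.add (Nat.mul (nat_lit 8) (H (nat_lit 76))) (Nat.mul (nat_lit 4) (Q (nat_lit 77))))) (Nat.mul (X (nat_lit 101)) (Nat.mul (nat_lit 4) (H (nat_lit 74))))))))))))) 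
 (.lf (.mk fun X Q H => (Nat.add (Nat.mul (X (nat_lit 87)) (Nat.mul (nat_lit 8) (H (nat_lit 83)))) (Nat.add (Nat.mul (X (nat_lit 89)) (Nat.mul (nat_lit 8) (H (nat_lit 83)))) (Nat.add (Nat.mul (X (nat_lit 91)) (Nat.mul (nat_lit 8) (H (nat_lit 83)))) (Nat.add (Nat.mul (X (nat_lit 92)) (Nat.add (Nat.mul (nat_lit 8) (H (nat_lit 74))) (Nat.mul (nat_lit 4) (H (nat_lit 85))))) (Nat.add (Nat.mul (X (nat_lit 94)) (Nat.mul (nat_lit 4) (Q (nat_lit 85)))) (Nat.add (Nat.mul (X (nat_lit 88)) (Nat.mul (nat_lit 8) (H (nat_lit 76)))) (Nat.add (Nat.mul (X (nat_lit 90)) (Nat.add (Nat.mul (nat_lit 16) (H (nat_lit 73))) (Nat.mul (nat_lit 8) (H (nat_lit 84))))) (Nat.mul (X (nat_lit 93)) (Nat.add (Nat.mul (nat_lit 8) (H (nat_lit 76))) (Nat.mul (nat_lit 8) (Q (nat_lit 77)))))))))))))))) (.nd (nat_lit 219) 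
 (.lf (.mk fun X _ H => (Nat.add (Nat.mul (X (nat_lit 87)) (Nat.mul (nat_lit 4) (H (nat_lit 83)))) (Nat.add (Nat.mul (X (nat_lit 89)) (Nat.mul (nat_lit 4) (H (nat_lit 83)))) (Nat.add (Nat.mul (X (nat_lit 88)) (Nat.mul (nat_lit 8) (H (nat_lit 82)))) (Nat.add (Nat.mul (X (nat_lit 90)) (Nat.mul (nat_lit 8) (H (nat_lit 73)))) (Nat.mul (X (nat_lit 102)) (Nat.mul (nat_lit 4) (H (nat_lit 74)))))))))) (.nd (nat_lit 220) 
 (.lf (.mk fun X _ H => (Nat.add (Nat.mul (X (nat_lit 88)) (Nat.mul (nat_lit 8) (H (nat_lit 78)))) (Nat.mul (X (nat_lit 98)) (Nat.mul (nat_lit 4) (H (nat_lit 74))))))) 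
 (.lf (.mk fun X _ H => (Nat.add (Nat.mul (X (nat_lit 88)) (Nat.mul (nat_lit 8) (H (nat_lit 81)))) (Nat.mul (X (nat_lit 100)) (Nat.mul (nat_lit 4) (H (nat_lit 74))))))))))))) (.nd (nat_lit 243) (.nd (nat_lit 232) (.nd (nat_lit 226) (.nd (nat_lit 223) (.nd (nat_lit 222) 
 (.lf (.mk fun _ _ _ => nat_lit 0)) 
 (.lf (.mk fun X _ H => (Nat.add (Nat.mul (X (nat_lit 105)) (Nat.add (Nat.mul (nat_lit 8) (H (nat_lit 87))) (Nat.add (Nat.mul (nat_lit 8) (H (nat_lit 90))) (Nat.add (Nat.mul (nat_lit 8) (H (nat_lit 93))) (Nat.add (Nat.mul (nat_lit 8) (H (nat_lit 94))) (Nat.mul (nat_lit 8) (H (nat_lit 95)))))))) (Nat.add (Nat.mul (X (nat_lit 110)) (Nat.add (Nat.mul (nat_lit 4) (H (nat_lit 89))) (Nat.mul (nat_lit 4) (H (nat_lit 96))))) (Nat.add (Nat.mul (X (nat_lit 111)) (Nat.add (Nat.mul (nat_lit 4) (H (nat_lit 89))) (Nat.mul (nat_lit 4) (H (nat_lit 96)))))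 (Nat.add (Nat.mul (X (nat_lit 112)) (Nat.mul (nat_lit 8) (H (nat_lit 96)))) (Nat.add (Nat.mul (X (nat_lit 113)) (Nat.mul (nat_lit 8) (H (nat_lit 96)))) (Nat.mul (X (nat_lit 114)) (Nat.mul (nat_lit 4) (H (nat_lit 96)))))))))))) (.nd (nat_lit 224) 
 (.lf (.mk fun X Q H => (Nat.add (Nat.mul (X (nat_lit 104)) (Nat.add (Nat.mul (nat_lit 8) (H (nat_lit 87))) (Nat.add (Nat.mul (nat_lit 8) (H (nat_lit 90))) (Nat.add (Nat.mul (nat_lit 8) (H (nat_lit 93))) (Nat.add (Nat.mul (nat_lit 8) (H (nat_lit 94))) (Nat.mul (nat_lit 8) (H (nat_lit 95)))))))) (Nat.add (Nat.mul (X (nat_lit 106)) (Nat.add (Nat.mul (nat_lit 16) (H (nat_lit 87))) (Nat.add (Nat.mul (nat_lit 8) (Q (nat_lit 90))) (Nat.mul (nat_lit 8) (H (nat_lit 94)))))) (Nat.add (Nat.mul (X (nat_lit 110)) (Nat.add (Nat.mul (nat_lit 8) (H (nat_lit 88))) (Nat.mul (nat_lit 8) (H (nat_lit 97))))) (Nat.add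 (Nat.mul (X (nat_lit 111)) (Nat.add (Nat.mul (nat_lit 8) (H (nat_lit 88))) (Nat.mul (nat_lit 8) (H (nat_lit 97))))) (Nat.add (Nat.mul (X (nat_lit 112)) (Nat.add (Nat.mul (nat_lit 16) (H (nat_lit 88))) (Nat.mul (nat_lit 8) (Q (nat_lit 97))))) (Nat.add (Nat.mul (X (nat_lit 113)) (Nat.add (Nat.mul (nat_lit 16) (H (nat_lit 88))) (Nat.mul (nat_lit 8) (H (nat_lit 97))))) (Nat.mul (X (nat_lit 114)) (Nat.mul (nat_lit 8) (H (nat_lit 88)))))))))))) (.nd (nat_lit 225) 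
 (.lf (.mk fun X Q H => (Nat.add (Nat.mul (X (nat_lit 105)) (Nat.add (Nat.mul (nat_lit 16) (H (nat_lit 87))) (Nat.add (Nat.mul (nat_lit 8) (Q (nat_lit 90))) (Nat.mul (nat_lit 8) (H (nat_lit 94)))))) (Nat.add (Nat.mul (X (nat_lit 110)) (Nat.mul (nat_lit 8) (H (nat_lit 96)))) (Nat.add (Nat.mul (X (nat_lit 111)) (Nat.mul (nat_lit 8) (H (nat_lit 96)))) (Nat.add (Nat.mul (X (nat_lit 112)) (Nat.mul (nat_lit 8) (Q (nat_lit 96)))) (Nat.mul (X (nat_lit 113)) (Nat.mul (nat_lit 8) (H (nat_lit 96)))))))))) 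
 (.lf (.mk fun X Q H => (Nat.add (Nat.mul (X (nat_lit 108)) (Nat.add (Nat.mul (nat_lit 16) (H (nat_lit 87))) (Nat.add (Nat.mul (nat_lit 8) (Q (nat_lit 90))) (Nat.add (Nat.mul (nat_lit 16) (H (nat_lit 93))) (Nat.mul (nat_lit 8) (H (nat_lit 94))))))) (Nat.add (Nat.mul (X (nat_lit 110)) (Nat.mul (nat_lit 4) (H (nat_lit 98)))) (Nat.add (Nat.mul (X (nat_lit 111)) (Nat.mul (nat_lit 4) (H (nat_lit 98)))) (Nat.add (Nat.mul (X (nat_lit 112)) (Nat.add (Nat.mul (nat_lit 8) (H (nat_lit 89))) (Nat.mul (nat_lit 4) (Q (nat_lit 98))))) (Nat.mul (X (nat_lit 113)) (Nat.add (Nat.mul (nat_lit 8) (H (nat_lit 89))) (Nat.mul (nat_lit 4) (H (nat_lit 98)))))))))))))) (.nd (nat_lit 229) (.nd (nat_lit 227) 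
 (.lf (.mk fun X Q H => (Nat.add (Nat.mul (X (nat_lit 107)) (Nat.add (Nat.mul (nat_lit 16) (H (nat_lit 87))) (Nat.add (Nat.mul (nat_lit 8) (Q (nat_lit 90))) (Nat.add (Nat.mul (nat_lit 16) (H (nat_lit 93))) (Nat.mul (nat_lit 8) (H (nat_lit 94))))))) (Nat.add (Nat.mul (X (nat_lit 109)) (Nat.add (Nat.mul (nat_lit 16) (Q (nat_lit 87))) (Nat.add (Nat.mul (nat_lit 8) (Q (nat_lit 93))) (Nat.mul (nat_lit 8) (Q (nat_lit 94)))))) (Nat.add (Nat.mul (X (nat_lit 110)) (Nat.add (Nat.mul (nat_lit 8) (H (nat_lit 91))) (Nat.mul (nat_lit 8) (Q (nat_lit 92))))) (Nat.add (Nat.mul (X (nat_lit 111)) (Nat.add (Nat.mul (nat_lit 8) (H (nat_lit 91))) (Nat.mul (nat_lit 8) (Q (nat_lit 92))))) (Nat.add (Nat.mul (X (nat_lit 112)) (Nat.mul (nat_lit 8) (Q (nat_lit 91)))) (Nat.mul (X (nat_lit 113)) (Nat.add (Nat.mul (nat_lit 8) (H (nat_lit 91))) (Nat.mul (nat_lit 8) (Q (nat_lit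 92)))))))))))) (.nd (nat_lit 228) 
 (.lf (.mk fun X Q _ => (Nat.add (Nat.mul (X (nat_lit 108)) (Nat.add (Nat.mul (nat_lit 16) (Q (nat_lit 87))) (Nat.add (Nat.mul (nat_lit 8) (Q (nat_lit 93))) (Nat.mul (nat_lit 8) (Q (nat_lit 94)))))) (Nat.add (Nat.mul (X (nat_lit 110)) (Nat.mul (nat_lit 4) (Q (nat_lit 98)))) (Nat.add (Nat.mul (X (nat_lit 111)) (Nat.mul (nat_lit 4) (Q (nat_lit 98)))) (Nat.add (Nat.mul (X (nat_lit 112)) (Nat.mul (nat_lit 4) (Q (nat_lit 89)))) (Nat.mul (X (nat_lit 113)) (Nat.mul (nat_lit 4) (Q (nat_lit 98)))))))))) 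
 (.lf (.mk fun X Q H => (Nat.add (Nat.mul (X (nat_lit 104)) (Nat.add (Nat.mul (nat_lit 4) (H (nat_lit 89))) (Nat.mul (nat_lit 4) (H (nat_lit 96))))) (Nat.add (Nat.mul (X (nat_lit 106)) (Nat.mul (nat_lit 8) (H (nat_lit 96)))) (Nat.add (Nat.mul (X (nat_lit 107)) (Nat.mul (nat_lit 4) (H (nat_lit 98)))) (Nat.add (Nat.mul (X (nat_lit 109)) (Nat.mul (nat_lit 4) (Q (nat_lit 98)))) (Nat.add (Nat.mul (X (nat_lit 105)) (Nat.add (Nat.mul (nat_lit 8) (H (nat_lit 88))) (Nat.mul (nat_lit 8) (H (nat_lit 97))))) (Nat.mul (X (nat_lit 108)) (Nat.add (Nat.mul (nat_lit 8) (H (nat_lit 91))) (Nat.mul (nat_lit 8) (Q (nat_lit 92)))))))))))))) (.nd (nat_lit 230) 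
 (.lf (.mk fun X Q H => (Nat.add (Nat.mul (X (nat_lit 104)) (Nat.add (Nat.mul (nat_lit 4) (H (nat_lit 89))) (Nat.mul (nat_lit 4) (H (nat_lit 96))))) (Nat.add (Nat.mul (X (nat_lit 106)) (Nat.mul (nat_lit 8) (H (nat_lit 96)))) (Nat.add (Nat.mul (X (nat_lit 107)) (Nat.mul (nat_lit 4) (H (nat_lit 98)))) (Nat.add (Nat.mul (X (nat_lit 109)) (Nat.mul (nat_lit 4) (Q (nat_lit 98)))) (Nat.add (Nat.mul (X (nat_lit 105)) (Nat.add (Nat.mul (nat_lit 8) (H (nat_lit 88))) (Nat.mul (nat_lit 8) (H (nat_lit 97))))) (Nat.mul (X (nat_lit 108)) (Nat.add (Nat.mul (nat_lit 8) (H (nat_lit 91))) (Nat.mul (nat_lit 8) (Q (nat_lit 92)))))))))))) (.nd (nat_lit 231) 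
 (.lf (.mk fun X Q H => (Nat.add (Nat.mul (X (nat_lit 104)) (Nat.mul (nat_lit 8) (H (nat_lit 96)))) (Nat.add (Nat.mul (X (nat_lit 106)) (Nat.mul (nat_lit 8) (Q (nat_lit 96)))) (Nat.add (Nat.mul (X (nat_lit 107)) (Nat.add (Nat.mul (nat_lit 8) (H (nat_lit 89))) (Nat.mul (nat_lit 4) (Q (nat_lit 98))))) (Nat.add (Nat.mul (X (nat_lit 109)) (Nat.mul (nat_lit 4) (Q (nat_lit 89)))) (Nat.add (Nat.mul (X (nat_lit 105)) (Nat.add (Nat.mul (nat_lit 16) (H (nat_lit 88))) (Nat.mul (nat_lit 8) (Q (nat_lit 97))))) (Nat.mul (X (nat_lit 108)) (Nat.mul (nat_lit 8) (Q (nat_lit 91))))))))))) 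
 (.lf (.mk fun X Q H => (Nat.add (Nat.mul (X (nat_lit 104)) (Nat.mul (nat_lit 8) (H (nat_lit 96)))) (Nat.add (Nat.mul (X (nat_lit 106)) (Nat.mul (nat_lit 8) (H (nat_lit 96)))) (Nat.add (Nat.mul (X (nat_lit 107)) (Nat.add (Nat.mul (nat_lit 8) (H (nat_lit 89))) (Nat.mul (nat_lit 4) (H (nat_lit 98))))) (Nat.add (Nat.mul (X (nat_lit 109)) (Nat.mul (nat_lit 4) (Q (nat_lit 98)))) (Nat.add (Nat.mul (X (nat_lit 105)) (Nat.add (Nat.mul (nat_lit 16) (H (nat_lit 88))) (Nat.mul (nat_lit 8) (H (nat_lit 97))))) (Nat.mul (X (nat_lit 108)) (Nat.add (Nat.mul (nat_lit 8) (H (nat_lit 91))) (Nat.mul (nat_lit 8) (Q (nat_lit 92)))))))))))))))) (.nd (nat_lit 237) (.nd (nat_lit 234) (.nd (nat_lit 233) 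
 (.lf (.mk fun X _ H => (Nat.add (Nat.mul (X (nat_lit 104)) (Nat.mul (nat_lit 4) (H (nat_lit 96)))) (Nat.add (Nat.mul (X (nat_lit 105)) (Nat.mul (nat_lit 8) (H (nat_lit 88)))) (Nat.mul (X (nat_lit 116)) (Nat.mul (nat_lit 4) (H (nat_lit 89)))))))) 
 (.lf (.mk fun _ _ _ => nat_lit 0))) (.nd (nat_lit 235) 
 (.lf (.mk fun X _ H => (Nat.mul (X (nat_lit 114)) (Nat.mul (nat_lit 4) (H (nat_lit 89)))))) (.nd (nat_lit 236) 
 (.lf (.mk fun _ _ _ => nat_lit 0)) 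
 (.lf (.mk fun X Q _ => (Nat.add (Nat.mul (X (nat_lit 1)) (Nat.mul (nat_lit 8) (Q (nat_lit 0)))) (Nat.mul (X (nat_lit 3)) (Nat.mul (nat_lit 4) (Q (nat_lit 1)))))))))) (.nd (nat_lit 240) (.nd (nat_lit 238) 
 (.lf (.mk fun X Q _ => (Nat.add (Nat.mul (X (nat_lit 0)) (Nat.mul (nat_lit 8) (Q (nat_lit 0)))) (Nat.add (Nat.mul (X (nat_lit 2)) (Nat.mul (nat_lit 8) (Q (nat_lit 0)))) (Nat.mul (X (nat_lit 3)) (Nat.mul (nat_lit 8) (Q (nat_lit 2)))))))) (.nd (nat_lit 239) 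
 (.lf (.mk fun X Q _ => (Nat.add (Nat.mul (X (nat_lit 1)) (Nat.mul (nat_lit 8) (Q (nat_lit 0)))) (Nat.mul (X (nat_lit 3)) (Nat.mul (nat_lit 4) (Q (nat_lit 1))))))) 
 (.lf (.mk fun X Q _ => (Nat.add (Nat.mul (X (nat_lit 0)) (Nat.mul (nat_lit 4) (Q (nat_lit 1)))) (Nat.add (Nat.mul (X (nat_lit 2)) (Nat.mul (nat_lit 4) (Q (nat_lit 1)))) (Nat.mul (X (nat_lit 1)) (Nat.mul (nat_lit 8) (Q (nat_lit 2)))))))))) (.nd (nat_lit 241) 
 (.lf (.mk fun _ _ _ => nat_lit 0)) (.nd (nat_lit 242) 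
 (.lf (.mk fun X Q _ => (Nat.add (Nat.mul (X (nat_lit 7)) (Nat.add (Nat.mul (nat_lit 8) (Q (nat_lit 3))) (Nat.add (Nat.mul (nat_lit 8) (Q (nat_lit 6))) (Nat.add (Nat.mul (nat_lit 8) (Q (nat_lit 9))) (Nat.add (Nat.mul (nat_lit 8) (Q (nat_lit 10))) (Nat.mul (nat_lit 8) (Q (nat_lit 11)))))))) (Nat.add (Nat.mul (X (nat_lit 12)) (Nat.add (Nat.mul (nat_lit 4) (Q (nat_lit 5))) (Nat.mul (nat_lit 4) (Q (nat_lit 12))))) (Nat.add (Nat.mul (X (nat_lit 13)) (Nat.add (Nat.mul (nat_lit 4) (Q (nat_lit 5))) (Nat.mul (nat_lit 4) (Q (nat_lit 12))))) (Nat.add (Nat.mul (X (nat_lit 14)) (Nat.mul (nat_lit 8) (Q (nat_lit 12)))) (Nat.add (Nat.mul (X (nat_lit 15)) (Nat.add (Q (nat_lit 5)) (Nat.mul (nat_lit 4) (Q (nat_lit 12))))) (Nat.add (Nat.mul (X (nat_lit 16)) (Nat.mul (nat_lit 8) (Q (nat_lit 12)))) (Nat.mul (X (nat_lit 17)) (Nat.mul (nat_lit 4) (Q (nat_lit 12))))))))))))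 
 (.lf (.mk fun X Q _ => (Nat.add (Nat.mul (X (nat_lit 7)) (Nat.add (Nat.mul (nat_lit 8) (Q (nat_lit 3))) (Nat.add (Nat.mul (nat_lit 8) (Q (nat_lit 6))) (Nat.add (Nat.mul (nat_lit 8) (Q (nat_lit 9))) (Nat.add (Nat.mul (nat_lit 8) (Q (nat_lit 10))) (Nat.mul (nat_lit 8) (Q (nat_lit 11)))))))) (Nat.add (Nat.mul (X (nat_lit 12)) (Nat.add (Nat.mul (nat_lit 4) (Q (nat_lit 5))) (Nat.mul (nat_lit 4) (Q (nat_lit 12))))) (Nat.add (Nat.mul (X (nat_lit 13)) (Nat.add (Nat.mul (nat_lit 4) (Q (nat_lit 5))) (Nat.mul (nat_lit 4) (Q (nat_lit 12))))) (Nat.add (Nat.mul (X (nat_lit 14)) (Nat.mul (nat_lit 8) (Q (nat_lit 12)))) (Nat.add (Nat.mul (X (nat_lit 15)) (Nat.mul (nat_lit 4) (Q (nat_lit 12)))) (Nat.add (Nat.mul (X (nat_lit 16)) (Nat.mul (nat_lit 8) (Q (nat_lit 12)))) (Nat.mul (X (nat_lit 17)) (Nat.mul (nat_lit 4) (Q (nat_lit 12))))))))))))))))) (.nd (nat_lit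 254) (.nd (nat_lit 248) (.nd (nat_lit 245) (.nd (nat_lit 244) 
 (.lf (.mk fun X Q _ => (Nat.add (Nat.mul (X (nat_lit 5)) (Nat.add (Nat.mul (nat_lit 8) (Q (nat_lit 3))) (Nat.add (Nat.mul (nat_lit 8) (Q (nat_lit 6))) (Nat.add (Nat.mul (nat_lit 8) (Q (nat_lit 9))) (Nat.add (Nat.mul (nat_lit 8) (Q (nat_lit 10))) (Nat.mul (nat_lit 8) (Q (nat_lit 11)))))))) (Nat.add (Nat.mul (X (nat_lit 6)) (Nat.add (Nat.mul (nat_lit 8) (Q (nat_lit 3))) (Nat.add (Nat.mul (nat_lit 8) (Q (nat_lit 6))) (Nat.add (Nat.mul (nat_lit 8) (Q (nat_lit 9))) (Nat.add (Nat.mul (nat_lit 8) (Q (nat_lit 10))) (Nat.mul (nat_lit 8) (Q (nat_lit 11)))))))) (Nat.add (Nat.mul (X (nat_lit 8)) (Nat.add (Nat.mul (nat_lit 16) (Q (nat_lit 3))) (Nat.mul (nat_lit 8) (Q (nat_lit 10))))) (Nat.add (Nat.mul (X (nat_lit 12)) (Nat.add (Nat.mul (nat_lit 8) (Q (nat_lit 4))) (Nat.mul (nat_lit 8) (Q (nat_lit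 13))))) (Nat.add (Nat.mul (X (nat_lit 13)) (Nat.add (Nat.mul (nat_lit 8) (Q (nat_lit 4))) (Nat.mul (nat_lit 8) (Q (nat_lit 13))))) (Nat.add (Nat.mul (X (nat_lit 14)) (Nat.mul (nat_lit 16) (Q (nat_lit 4)))) (Nat.add (Nat.mul (X (nat_lit 15)) (Nat.mul (nat_lit 8) (Q (nat_lit 4)))) (Nat.add (Nat.mul (X (nat_lit 16)) (Nat.add (Nat.mul (nat_lit 16) (Q (nat_lit 4))) (Nat.mul (nat_lit 8) (Q (nat_lit 13))))) (Nat.mul (X (nat_lit 17)) (Nat.mul (nat_lit 8) (Q (nat_lit 4)))))))))))))) 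
 (.lf (.mk fun X Q _ => (Nat.add (Nat.mul (X (nat_lit 7)) (Nat.add (Nat.mul (nat_lit 16) (Q (nat_lit 3))) (Nat.mul (nat_lit 8) (Q (nat_lit 10))))) (Nat.add (Nat.mul (X (nat_lit 12)) (Nat.mul (nat_lit 8) (Q (nat_lit 12)))) (Nat.add (Nat.mul (X (nat_lit 13)) (Nat.mul (nat_lit 8) (Q (nat_lit 12)))) (Nat.mul (X (nat_lit 16)) (Nat.mul (nat_lit 8) (Q (nat_lit 12)))))))))) (.nd (nat_lit 246) 
 (.lf (.mk fun X Q _ => (Nat.add (Nat.mul (X (nat_lit 10)) (Nat.add (Nat.mul (nat_lit 16) (Q (nat_lit 3))) (Nat.add (Nat.mul (nat_lit 16) (Q (nat_lit 9))) (Nat.mul (nat_lit 8) (Q (nat_lit 10)))))) (Nat.add (Nat.mul (X (nat_lit 12)) (Nat.mul (nat_lit 4) (Q (nat_lit 14)))) (Nat.add (Nat.mul (X (nat_lit 13)) (Nat.mul (nat_lit 4) (Q (nat_lit 14)))) (Nat.add (Nat.mul (X (nat_lit 14)) (Nat.mul (nat_lit 8) (Q (nat_lit 5)))) (Nat.add (Nat.mul (X (nat_lit 15)) (Nat.mul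 (nat_lit 4) (Q (nat_lit 14)))) (Nat.mul (X (nat_lit 16)) (Nat.add (Nat.mul (nat_lit 8) (Q (nat_lit 5))) (Nat.mul (nat_lit 4) (Q (nat_lit 14)))))))))))) (.nd (nat_lit 247) 
 (.lf (.mk fun X Q _ => (Nat.add (Nat.mul (X (nat_lit 9)) (Nat.add (Nat.mul (nat_lit 16) (Q (nat_lit 3))) (Nat.add (Nat.mul (nat_lit 16) (Q (nat_lit 9))) (Nat.mul (nat_lit 8) (Q (nat_lit 10)))))) (Nat.add (Nat.mul (X (nat_lit 12)) (Nat.mul (nat_lit 8) (Q (nat_lit 7)))) (Nat.add (Nat.mul (X (nat_lit 13)) (Nat.mul (nat_lit 8) (Q (nat_lit 7)))) (Nat.add (Nat.mul (X (nat_lit 15)) (Nat.mul (nat_lit 8) (Q (nat_lit 7)))) (Nat.mul (X (nat_lit 16)) (Nat.mul (nat_lit 8) (Q (nat_lit 7)))))))))) 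
 (.lf (.mk fun _ _ _ => nat_lit 0))))) (.nd (nat_lit 251) (.nd (nat_lit 249) 
 (.lf (.mk fun X Q _ => (Nat.add (Nat.mul (X (nat_lit 5)) (Nat.add (Nat.mul (nat_lit 4) (Q (nat_lit 5))) (Nat.mul (nat_lit 4) (Q (nat_lit 12))))) (Nat.add (Nat.mul (X (nat_lit 6)) (Nat.add (Nat.mul (nat_lit 4) (Q (nat_lit 5))) (Nat.mul (nat_lit 4) (Q (nat_lit 12))))) (Nat.add (Nat.mul (X (nat_lit 8)) (Nat.mul (nat_lit 8) (Q (nat_lit 12)))) (Nat.add (Nat.mul (X (nat_lit 9)) (Nat.mul (nat_lit 4) (Q (nat_lit 14)))) (Nat.add (Nat.mul (X (nat_lit 7)) (Nat.add (Nat.mul (nat_lit 8) (Q (nat_lit 4))) (Nat.mul (nat_lit 8) (Q (nat_lit 13))))) (Nat.mul (X (nat_lit 10)) (Nat.mul (nat_lit 8) (Q (nat_lit 7))))))))))) (.nd (nat_lit 250) 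
 (.lf (.mk fun X Q _ => (Nat.add (Nat.mul (X (nat_lit 5)) (Nat.add (Nat.mul (nat_lit 4) (Q (nat_lit 5))) (Nat.mul (nat_lit 4) (Q (nat_lit 12))))) (Nat.add (Nat.mul (X (nat_lit 6)) (Nat.add (Nat.mul (nat_lit 4) (Q (nat_lit 5))) (Nat.mul (nat_lit 4) (Q (nat_lit 12))))) (Nat.add (Nat.mul (X (nat_lit 8)) (Nat.mul (nat_lit 8) (Q (nat_lit 12)))) (Nat.add (Nat.mul (X (nat_lit 9)) (Nat.mul (nat_lit 4) (Q (nat_lit 14)))) (Nat.add (Nat.mul (X (nat_lit 7)) (Nat.add (Nat.mul (nat_lit 8) (Q (nat_lit 4))) (Nat.mul (nat_lit 8) (Q (nat_lit 13))))) (Nat.mul (X (nat_lit 10)) (Nat.mul (nat_lit 8) (Q (nat_lit 7))))))))))) 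
 (.lf (.mk fun X Q _ => (Nat.add (Nat.mul (X (nat_lit 5)) (Nat.mul (nat_lit 8) (Q (nat_lit 12)))) (Nat.add (Nat.mul (X (nat_lit 6)) (Nat.mul (nat_lit 8) (Q (nat_lit 12)))) (Nat.add (Nat.mul (X (nat_lit 9)) (Nat.mul (nat_lit 8) (Q (nat_lit 5)))) (Nat.mul (X (nat_lit 7)) (Nat.mul (nat_lit 16) (Q (nat_lit 4))))))))))) (.nd (nat_lit 252) 
 (.lf (.mk fun X Q _ => (Nat.add (Nat.mul (X (nat_lit 5)) (Nat.add (Q (nat_lit 5)) (Nat.mul (nat_lit 4) (Q (nat_lit 12))))) (Nat.add (Nat.mul (X (nat_lit 6)) (Nat.mul (nat_lit 4) (Q (nat_lit 12)))) (Nat.add (Nat.mul (X (nat_lit 9)) (Nat.mul (nat_lit 4) (Q (nat_lit 14)))) (Nat.add (Nat.mul (X (nat_lit 7)) (Nat.mul (nat_lit 8) (Q (nat_lit 4)))) (Nat.add (Nat.mul (X (nat_lit 10)) (Nat.mul (nat_lit 8) (Q (nat_lit 7)))) (Nat.mul (X (nat_lit 18)) (Nat.mul (nat_lit 4) (Q (nat_lit 5))))))))))) (.nd (nat_lit 253) 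
 (.lf (.mk fun X Q _ => (Nat.add (Nat.mul (X (nat_lit 5)) (Nat.mul (nat_lit 8) (Q (nat_lit 12)))) (Nat.add (Nat.mul (X (nat_lit 6)) (Nat.mul (nat_lit 8) (Q (nat_lit 12)))) (Nat.add (Nat.mul (X (nat_lit 8)) (Nat.mul (nat_lit 8) (Q (nat_lit 12)))) (Nat.add (Nat.mul (X (nat_lit 9)) (Nat.add (Nat.mul (nat_lit 8) (Q (nat_lit 5))) (Nat.mul (nat_lit 4) (Q (nat_lit 14))))) (Nat.add (Nat.mul (X (nat_lit 7)) (Nat.add (Nat.mul (nat_lit 16) (Q (nat_lit 4))) (Nat.mul (nat_lit 8) (Q (nat_lit 13))))) (Nat.mul (X (nat_lit 10)) (Nat.mul (nat_lit 8) (Q (nat_lit 7))))))))))) 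
 (.lf (.mk fun X Q _ => (Nat.add (Nat.mul (X (nat_lit 5)) (Nat.mul (nat_lit 4) (Q (nat_lit 12)))) (Nat.add (Nat.mul (X (nat_lit 6)) (Nat.mul (nat_lit 4) (Q (nat_lit 12)))) (Nat.add (Nat.mul (X (nat_lit 7)) (Nat.mul (nat_lit 8) (Q (nat_lit 4)))) (Nat.mul (X (nat_lit 19)) (Nat.mul (nat_lit 4) (Q (nat_lit 5))))))))))))) (.nd (nat_lit 259) (.nd (nat_lit 256) (.nd (nat_lit 255) 
 (.lf (.mk fun X Q _ => (Nat.mul (X (nat_lit 15)) (Nat.mul (nat_lit 4) (Q (nat_lit 5)))))) 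
 (.lf (.mk fun X Q _ => (Nat.mul (X (nat_lit 17)) (Nat.mul (nat_lit 4) (Q (nat_lit 5))))))) (.nd (nat_lit 257) 
 (.lf (.mk fun _ _ _ => nat_lit 0)) (.nd (nat_lit 258) 
 (.lf (.mk fun X Q _ => (Nat.add (Nat.mul (X (nat_lit 22)) (Nat.add (Nat.mul (nat_lit 8) (Q (nat_lit 16))) (Nat.mul (nat_lit 2) (Q (nat_lit 22))))) (Nat.add (Nat.mul (X (nat_lit 24)) (Nat.add (Nat.mul (nat_lit 8) (Q (nat_lit 16))) (Nat.add (Nat.mul (nat_lit 8) (Q (nat_lit 19))) (Nat.add (Nat.mul (nat_lit 8) (Q (nat_lit 22))) (Nat.add (Nat.mul (nat_lit 8) (Q (nat_lit 24))) (Nat.mul (nat_lit 8) (Q (nat_lit 25)))))))) (Nat.add (Nat.mul (X (nat_lit 29)) (Nat.add (Nat.mul (nat_lit 4) (Q (nat_lit 18))) (Nat.mul (nat_lit 4) (Q (nat_lit 27))))) (Nat.add (Nat.mul (X (nat_lit 30)) (Nat.add (Nat.mul (nat_lit 4) (Q (nat_lit 18))) (Nat.mul (nat_lit 4) (Q (nat_lit 27))))) (Nat.add (Nat.mul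 (X (nat_lit 31)) (Nat.mul (nat_lit 8) (Q (nat_lit 27)))) (Nat.add (Nat.mul (X (nat_lit 32)) (Nat.add (Q (nat_lit 18)) (Nat.mul (nat_lit 4) (Q (nat_lit 27))))) (Nat.add (Nat.mul (X (nat_lit 33)) (Nat.mul (nat_lit 8) (Q (nat_lit 27)))) (Nat.mul (X (nat_lit 34)) (Nat.mul (nat_lit 4) (Q (nat_lit 27))))))))))))) 
 (.lf (.mk fun X Q _ => (Nat.add (Nat.mul (X (nat_lit 21)) (Nat.add (Nat.mul (nat_lit 8) (Q (nat_lit 16))) (Nat.mul (nat_lit 2) (Q (nat_lit 22))))) (Nat.add (Nat.mul (X (nat_lit 23)) (Nat.mul (nat_lit 8) (Q (nat_lit 16)))) (Nat.add (Nat.mul (X (nat_lit 26)) (Nat.add (Nat.mul (nat_lit 8) (Q (nat_lit 19))) (Nat.mul (nat_lit 8) (Q (nat_lit 24))))) (Nat.add (Nat.mul (X (nat_lit 29)) (Nat.mul (nat_lit 8) (Q (nat_lit 17)))) (Nat.add (Nat.mul (X (nat_lit 30)) (Nat.mul (nat_lit 8) (Q (nat_lit 17)))) (Nat.add (Nat.mul (X (nat_lit 31)) (Nat.mul (nat_lit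 8) (Q (nat_lit 20)))) (Nat.add (Nat.mul (X (nat_lit 32)) (Nat.mul (nat_lit 8) (Q (nat_lit 23)))) (Nat.add (Nat.mul (X (nat_lit 33)) (Nat.mul (nat_lit 8) (Q (nat_lit 20)))) (Nat.add (Nat.mul (X (nat_lit 34)) (Nat.mul (nat_lit 8) (Q (nat_lit 26)))) (Nat.add (Nat.mul (X (nat_lit 35)) (Nat.mul (nat_lit 8) (Q (nat_lit 22)))) (Nat.mul (X (nat_lit 36)) (Nat.mul (nat_lit 8) (Q (nat_lit 25))))))))))))))))))) (.nd (nat_lit 262) (.nd (nat_lit 260) 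
 (.lf (.mk fun X Q _ => (Nat.add (Nat.mul (X (nat_lit 22)) (Nat.mul (nat_lit 8) (Q (nat_lit 16)))) (Nat.add (Nat.mul (X (nat_lit 24)) (Nat.add (Nat.mul (nat_lit 8) (Q (nat_lit 16))) (Nat.add (Nat.mul (nat_lit 8) (Q (nat_lit 19))) (Nat.add (Nat.mul (nat_lit 8) (Q (nat_lit 22))) (Nat.add (Nat.mul (nat_lit 8) (Q (nat_lit 24))) (Nat.mul (nat_lit 8) (Q (nat_lit 25)))))))) (Nat.add (Nat.mul (X (nat_lit 29)) (Nat.add (Nat.mul (nat_lit 4) (Q (nat_lit 18))) (Nat.mul (nat_lit 4) (Q (nat_lit 27))))) (Nat.add (Nat.mul (X (nat_lit 30)) (Nat.add (Nat.mul (nat_lit 4) (Q (nat_lit 18))) (Nat.mul (nat_lit 4) (Q (nat_lit 27))))) (Nat.add (Nat.mul (X (nat_lit 31)) (Nat.mul (nat_lit 8) (Q (nat_lit 27)))) (Nat.add (Nat.mul (X (nat_lit 32)) (Nat.mul (nat_lit 4) (Q (nat_lit 27)))) (Nat.add (Nat.mul (X (nat_lit 33)) (Nat.mul (nat_lit 8) (Q (nat_lit 27)))) (Nat.mul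 (X (nat_lit 34)) (Nat.mul (nat_lit 4) (Q (nat_lit 27))))))))))))) (.nd (nat_lit 261) 
 (.lf (.mk fun X Q _ => (Nat.add (Nat.mul (X (nat_lit 21)) (Nat.add (Nat.mul (nat_lit 8) (Q (nat_lit 16))) (Nat.add (Nat.mul (nat_lit 8) (Q (nat_lit 19))) (Nat.add (Nat.mul (nat_lit 8) (Q (nat_lit 22))) (Nat.add (Nat.mul (nat_lit 8) (Q (nat_lit 24))) (Nat.mul (nat_lit 8) (Q (nat_lit 25)))))))) (Nat.add (Nat.mul (X (nat_lit 23)) (Nat.add (Nat.mul (nat_lit 8) (Q (nat_lit 16))) (Nat.add (Nat.mul (nat_lit 8) (Q (nat_lit 19))) (Nat.add (Nat.mul (nat_lit 8) (Q (nat_lit 22))) (Nat.add (Nat.mul (nat_lit 8) (Q (nat_lit 24))) (Nat.mul (nat_lit 8) (Q (nat_lit 25)))))))) (Nat.add (Nat.mul (X (nat_lit 25)) (Nat.add (Nat.mul (nat_lit 16) (Q (nat_lit 16))) (Nat.mul (nat_lit 8) (Q (nat_lit 24))))) (Nat.add (Nat.mul (X (nat_lit 29)) (Nat.add (Nat.mul (nat_lit 8) (Q (nat_lit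 17))) (Nat.mul (nat_lit 8) (Q (nat_lit 28))))) (Nat.add (Nat.mul (X (nat_lit 30)) (Nat.add (Nat.mul (nat_lit 8) (Q (nat_lit 17))) (Nat.mul (nat_lit 8) (Q (nat_lit 28))))) (Nat.add (Nat.mul (X (nat_lit 31)) (Nat.mul (nat_lit 16) (Q (nat_lit 17)))) (Nat.add (Nat.mul (X (nat_lit 32)) (Nat.mul (nat_lit 8) (Q (nat_lit 17)))) (Nat.add (Nat.mul (X (nat_lit 33)) (Nat.add (Nat.mul (nat_lit 16) (Q (nat_lit 17))) (Nat.mul (nat_lit 8) (Q (nat_lit 28))))) (Nat.mul (X (nat_lit 34)) (Nat.mul (nat_lit 8) (Q (nat_lit 17)))))))))))))) 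
 (.lf (.mk fun X Q _ => (Nat.add (Nat.mul (X (nat_lit 24)) (Nat.add (Nat.mul (nat_lit 16) (Q (nat_lit 16))) (Nat.mul (nat_lit 8) (Q (nat_lit 24))))) (Nat.add (Nat.mul (X (nat_lit 29)) (Nat.mul (nat_lit 8) (Q (nat_lit 27)))) (Nat.add (Nat.mul (X (nat_lit 30)) (Nat.mul (nat_lit 8) (Q (nat_lit 27)))) (Nat.mul (X (nat_lit 33)) (Nat.mul (nat_lit 8) (Q (nat_lit 27))))))))))) (.nd (nat_lit 263) 
 (.lf (.mk fun X Q _ => (Nat.add (Nat.mul (X (nat_lit 22)) (Nat.add (Nat.mul (nat_lit 8) (Q (nat_lit 19))) (Nat.mul (nat_lit 8) (Q (nat_lit 24))))) (Nat.add (Nat.mul (X (nat_lit 27)) (Nat.add (Nat.mul (nat_lit 16) (Q (nat_lit 16))) (Nat.add (Nat.mul (nat_lit 16) (Q (nat_lit 22))) (Nat.mul (nat_lit 8) (Q (nat_lit 24)))))) (Nat.add (Nat.mul (X (nat_lit 29)) (Nat.mul (nat_lit 4) (Q (nat_lit 29)))) (Nat.add (Nat.mul (X (nat_lit 30)) (Nat.mul (nat_lit 4) (Q (nat_lit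 29)))) (Nat.add (Nat.mul (X (nat_lit 31)) (Nat.mul (nat_lit 8) (Q (nat_lit 18)))) (Nat.add (Nat.mul (X (nat_lit 32)) (Nat.mul (nat_lit 4) (Q (nat_lit 29)))) (Nat.mul (X (nat_lit 33)) (Nat.add (Nat.mul (nat_lit 8) (Q (nat_lit 18))) (Nat.mul (nat_lit 4) (Q (nat_lit 29))))))))))))) (.nd (nat_lit 264) 
 (.lf (.mk fun X Q _ => (Nat.add (Nat.mul (X (nat_lit 26)) (Nat.add (Nat.mul (nat_lit 16) (Q (nat_lit 16))) (Nat.add (Nat.mul (nat_lit 16) (Q (nat_lit 22))) (Nat.mul (nat_lit 8) (Q (nat_lit 24)))))) (Nat.add (Nat.mul (X (nat_lit 29)) (Nat.mul (nat_lit 8) (Q (nat_lit 20)))) (Nat.add (Nat.mul (X (nat_lit 30)) (Nat.mul (nat_lit 8) (Q (nat_lit 20)))) (Nat.add (Nat.mul (X (nat_lit 32)) (Nat.mul (nat_lit 8) (Q (nat_lit 20)))) (Nat.mul (X (nat_lit 33)) (Nat.mul (nat_lit 8) (Q (nat_lit 20)))))))))) 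
 (.lf (.mk fun _ _ _ => nat_lit 0))))))))) (.nd (nat_lit 309) (.nd (nat_lit 287) (.nd (nat_lit 276) (.nd (nat_lit 270) (.nd (nat_lit 267) (.nd (nat_lit 266) 
 (.lf (.mk fun X Q _ => (Nat.add (Nat.mul (X (nat_lit 21)) (Nat.add (Nat.mul (nat_lit 4) (Q (nat_lit 18))) (Nat.mul (nat_lit 4) (Q (nat_lit 27))))) (Nat.add (Nat.mul (X (nat_lit 23)) (Nat.add (Nat.mul (nat_lit 4) (Q (nat_lit 18))) (Nat.mul (nat_lit 4) (Q (nat_lit 27))))) (Nat.add (Nat.mul (X (nat_lit 25)) (Nat.mul (nat_lit 8) (Q (nat_lit 27)))) (Nat.add (Nat.mul (X (nat_lit 26)) (Nat.mul (nat_lit 4) (Q (nat_lit 29)))) (Nat.add (Nat.mul (X (nat_lit 22)) (Nat.mul (nat_lit 8) (Q (nat_lit 17)))) (Nat.add (Nat.mul (X (nat_lit 24)) (Nat.add (Nat.mul (nat_lit 8) (Q (nat_lit 17))) (Nat.mul (nat_lit 8) (Q (nat_lit 28))))) (Nat.mul (X (nat_lit 27)) (Nat.mul (nat_lit 8) (Q (nat_lit 20))))))))))))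 
 (.lf (.mk fun X Q _ => (Nat.add (Nat.mul (X (nat_lit 21)) (Nat.add (Nat.mul (nat_lit 4) (Q (nat_lit 18))) (Nat.mul (nat_lit 4) (Q (nat_lit 27))))) (Nat.add (Nat.mul (X (nat_lit 23)) (Nat.add (Nat.mul (nat_lit 4) (Q (nat_lit 18))) (Nat.mul (nat_lit 4) (Q (nat_lit 27))))) (Nat.add (Nat.mul (X (nat_lit 25)) (Nat.mul (nat_lit 8) (Q (nat_lit 27)))) (Nat.add (Nat.mul (X (nat_lit 26)) (Nat.mul (nat_lit 4) (Q (nat_lit 29)))) (Nat.add (Nat.mul (X (nat_lit 22)) (Nat.mul (nat_lit 8) (Q (nat_lit 17)))) (Nat.add (Nat.mul (X (nat_lit 24)) (Nat.add (Nat.mul (nat_lit 8) (Q (nat_lit 17))) (Nat.mul (nat_lit 8) (Q (nat_lit 28))))) (Nat.mul (X (nat_lit 27)) (Nat.mul (nat_lit 8) (Q (nat_lit 20))))))))))))) (.nd (nat_lit 268) 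
 (.lf (.mk fun X Q _ => (Nat.add (Nat.mul (X (nat_lit 21)) (Nat.mul (nat_lit 8) (Q (nat_lit 27)))) (Nat.add (Nat.mul (X (nat_lit 23)) (Nat.mul (nat_lit 8) (Q (nat_lit 27)))) (Nat.add (Nat.mul (X (nat_lit 26)) (Nat.mul (nat_lit 8) (Q (nat_lit 18)))) (Nat.add (Nat.mul (X (nat_lit 22)) (Nat.mul (nat_lit 8) (Q (nat_lit 20)))) (Nat.mul (X (nat_lit 24)) (Nat.mul (nat_lit 16) (Q (nat_lit 17)))))))))) (.nd (nat_lit 269) 
 (.lf (.mk fun X Q _ => (Nat.add (Nat.mul (X (nat_lit 21)) (Nat.add (Q (nat_lit 18)) (Nat.mul (nat_lit 4) (Q (nat_lit 27))))) (Nat.add (Nat.mul (X (nat_lit 23)) (Nat.mul (nat_lit 4) (Q (nat_lit 27)))) (Nat.add (Nat.mul (X (nat_lit 26)) (Nat.mul (nat_lit 4) (Q (nat_lit 29)))) (Nat.add (Nat.mul (X (nat_lit 22)) (Nat.mul (nat_lit 8) (Q (nat_lit 23)))) (Nat.add (Nat.mul (X (nat_lit 24)) (Nat.mul (nat_lit 8) (Q (nat_lit 17)))) (Nat.add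 (Nat.mul (X (nat_lit 27)) (Nat.mul (nat_lit 8) (Q (nat_lit 20)))) (Nat.mul (X (nat_lit 35)) (Nat.mul (nat_lit 4) (Q (nat_lit 18)))))))))))) 
 (.lf (.mk fun X Q _ => (Nat.add (Nat.mul (X (nat_lit 21)) (Nat.mul (nat_lit 8) (Q (nat_lit 27)))) (Nat.add (Nat.mul (X (nat_lit 23)) (Nat.mul (nat_lit 8) (Q (nat_lit 27)))) (Nat.add (Nat.mul (X (nat_lit 25)) (Nat.mul (nat_lit 8) (Q (nat_lit 27)))) (Nat.add (Nat.mul (X (nat_lit 26)) (Nat.add (Nat.mul (nat_lit 8) (Q (nat_lit 18))) (Nat.mul (nat_lit 4) (Q (nat_lit 29))))) (Nat.add (Nat.mul (X (nat_lit 22)) (Nat.mul (nat_lit 8) (Q (nat_lit 20)))) (Nat.add (Nat.mul (X (nat_lit 24)) (Nat.add (Nat.mul (nat_lit 16) (Q (nat_lit 17))) (Nat.mul (nat_lit 8) (Q (nat_lit 28))))) (Nat.mul (X (nat_lit 27)) (Nat.mul (nat_lit 8) (Q (nat_lit 20))))))))))))))) (.nd (nat_lit 273) (.nd (nat_lit 271) 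
 (.lf (.mk fun X Q _ => (Nat.add (Nat.mul (X (nat_lit 21)) (Nat.mul (nat_lit 4) (Q (nat_lit 27)))) (Nat.add (Nat.mul (X (nat_lit 23)) (Nat.mul (nat_lit 4) (Q (nat_lit 27)))) (Nat.add (Nat.mul (X (nat_lit 22)) (Nat.mul (nat_lit 8) (Q (nat_lit 26)))) (Nat.add (Nat.mul (X (nat_lit 24)) (Nat.mul (nat_lit 8) (Q (nat_lit 17)))) (Nat.mul (X (nat_lit 36)) (Nat.mul (nat_lit 4) (Q (nat_lit 18)))))))))) (.nd (nat_lit 272) 
 (.lf (.mk fun X Q _ => (Nat.add (Nat.mul (X (nat_lit 22)) (Nat.mul (nat_lit 8) (Q (nat_lit 22)))) (Nat.mul (X (nat_lit 32)) (Nat.mul (nat_lit 4) (Q (nat_lit 18))))))) 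
 (.lf (.mk fun X Q _ => (Nat.add (Nat.mul (X (nat_lit 22)) (Nat.mul (nat_lit 8) (Q (nat_lit 25)))) (Nat.mul (X (nat_lit 34)) (Nat.mul (nat_lit 4) (Q (nat_lit 18))))))))) (.nd (nat_lit 274) 
 (.lf (.mk fun _ _ _ => nat_lit 0)) (.nd (nat_lit 275) 
 (.lf (.mk fun X Q _ => (Nat.add (Nat.mul (X (nat_lit 40)) (Nat.add (Nat.mul (nat_lit 8) (Q (nat_lit 31))) (Nat.add (Nat.mul (nat_lit 8) (Q (nat_lit 34))) (Nat.add (Nat.mul (nat_lit 8) (Q (nat_lit 37))) (Nat.add (Nat.mul (nat_lit 8) (Q (nat_lit 38))) (Nat.mul (nat_lit 8) (Q (nat_lit 39)))))))) (Nat.add (Nat.mul (X (nat_lit 45)) (Nat.add (Nat.mul (nat_lit 4) (Q (nat_lit 33))) (Nat.mul (nat_lit 4) (Q (nat_lit 40))))) (Nat.add (Nat.mul (X (nat_lit 46)) (Nat.add (Nat.mul (nat_lit 4) (Q (nat_lit 33))) (Nat.mul (nat_lit 4) (Q (nat_lit 40))))) (Nat.add (Nat.mul (X (nat_lit 47)) (Nat.mul (nat_lit 8) (Q (nat_lit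 40)))) (Nat.add (Nat.mul (X (nat_lit 48)) (Nat.add (Q (nat_lit 33)) (Nat.mul (nat_lit 4) (Q (nat_lit 40))))) (Nat.add (Nat.mul (X (nat_lit 49)) (Nat.mul (nat_lit 8) (Q (nat_lit 40)))) (Nat.mul (X (nat_lit 50)) (Nat.mul (nat_lit 4) (Q (nat_lit 40)))))))))))) 
 (.lf (.mk fun X Q _ => (Nat.add (Nat.mul (X (nat_lit 40)) (Nat.add (Nat.mul (nat_lit 8) (Q (nat_lit 31))) (Nat.add (Nat.mul (nat_lit 8) (Q (nat_lit 34))) (Nat.add (Nat.mul (nat_lit 8) (Q (nat_lit 37))) (Nat.add (Nat.mul (nat_lit 8) (Q (nat_lit 38))) (Nat.mul (nat_lit 8) (Q (nat_lit 39)))))))) (Nat.add (Nat.mul (X (nat_lit 45)) (Nat.add (Nat.mul (nat_lit 4) (Q (nat_lit 33))) (Nat.mul (nat_lit 4) (Q (nat_lit 40))))) (Nat.add (Nat.mul (X (nat_lit 46)) (Nat.add (Nat.mul (nat_lit 4) (Q (nat_lit 33))) (Nat.mul (nat_lit 4) (Q (nat_lit 40))))) (Nat.add (Nat.mul (X (nat_lit 47)) (Nat.mul (nat_lit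 8) (Q (nat_lit 40)))) (Nat.add (Nat.mul (X (nat_lit 48)) (Nat.mul (nat_lit 4) (Q (nat_lit 40)))) (Nat.add (Nat.mul (X (nat_lit 49)) (Nat.mul (nat_lit 8) (Q (nat_lit 40)))) (Nat.mul (X (nat_lit 50)) (Nat.mul (nat_lit 4) (Q (nat_lit 40)))))))))))))))) (.nd (nat_lit 281) (.nd (nat_lit 278) (.nd (nat_lit 277) 
 (.lf (.mk fun X Q _ => (Nat.add (Nat.mul (X (nat_lit 38)) (Nat.add (Nat.mul (nat_lit 8) (Q (nat_lit 31))) (Nat.add (Nat.mul (nat_lit 8) (Q (nat_lit 34))) (Nat.add (Nat.mul (nat_lit 8) (Q (nat_lit 37))) (Nat.add (Nat.mul (nat_lit 8) (Q (nat_lit 38))) (Nat.mul (nat_lit 8) (Q (nat_lit 39)))))))) (Nat.add (Nat.mul (X (nat_lit 39)) (Nat.add (Nat.mul (nat_lit 8) (Q (nat_lit 31))) (Nat.add (Nat.mul (nat_lit 8) (Q (nat_lit 34))) (Nat.add (Nat.mul (nat_lit 8) (Q (nat_lit 37))) (Nat.add (Nat.mul (nat_lit 8) (Q (nat_lit 38))) (Nat.mul (nat_lit 8) (Q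 (nat_lit 39)))))))) (Nat.add (Nat.mul (X (nat_lit 41)) (Nat.add (Nat.mul (nat_lit 16) (Q (nat_lit 31))) (Nat.mul (nat_lit 8) (Q (nat_lit 38))))) (Nat.add (Nat.mul (X (nat_lit 45)) (Nat.add (Nat.mul (nat_lit 8) (Q (nat_lit 32))) (Nat.mul (nat_lit 8) (Q (nat_lit 41))))) (Nat.add (Nat.mul (X (nat_lit 46)) (Nat.add (Nat.mul (nat_lit 8) (Q (nat_lit 32))) (Nat.mul (nat_lit 8) (Q (nat_lit 41))))) (Nat.add (Nat.mul (X (nat_lit 47)) (Nat.mul (nat_lit 16) (Q (nat_lit 32)))) (Nat.add (Nat.mul (X (nat_lit 48)) (Nat.mul (nat_lit 8) (Q (nat_lit 32)))) (Nat.add (Nat.mul (X (nat_lit 49)) (Nat.add (Nat.mul (nat_lit 16) (Q (nat_lit 32))) (Nat.mul (nat_lit 8) (Q (nat_lit 41))))) (Nat.mul (X (nat_lit 50)) (Nat.mul (nat_lit 8) (Q (nat_lit 32)))))))))))))) 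
 (.lf (.mk fun X Q _ => (Nat.add (Nat.mul (X (nat_lit 40)) (Nat.add (Nat.mul (nat_lit 16) (Q (nat_lit 31))) (Nat.mul (nat_lit 8) (Q (nat_lit 38))))) (Nat.add (Nat.mul (X (nat_lit 45)) (Nat.mul (nat_lit 8) (Q (nat_lit 40)))) (Nat.add (Nat.mul (X (nat_lit 46)) (Nat.mul (nat_lit 8) (Q (nat_lit 40)))) (Nat.mul (X (nat_lit 49)) (Nat.mul (nat_lit 8) (Q (nat_lit 40)))))))))) (.nd (nat_lit 279) 
 (.lf (.mk fun X Q _ => (Nat.add (Nat.mul (X (nat_lit 43)) (Nat.add (Nat.mul (nat_lit 16) (Q (nat_lit 31))) (Nat.add (Nat.mul (nat_lit 16) (Q (nat_lit 37))) (Nat.mul (nat_lit 8) (Q (nat_lit 38)))))) (Nat.add (Nat.mul (X (nat_lit 45)) (Nat.mul (nat_lit 4) (Q (nat_lit 42)))) (Nat.add (Nat.mul (X (nat_lit 46)) (Nat.mul (nat_lit 4) (Q (nat_lit 42)))) (Nat.add (Nat.mul (X (nat_lit 47)) (Nat.mul (nat_lit 8) (Q (nat_lit 33)))) (Nat.add (Nat.mul (X (nat_lit 48)) (Nat.mul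 (nat_lit 4) (Q (nat_lit 42)))) (Nat.mul (X (nat_lit 49)) (Nat.add (Nat.mul (nat_lit 8) (Q (nat_lit 33))) (Nat.mul (nat_lit 4) (Q (nat_lit 42)))))))))))) (.nd (nat_lit 280) 
 (.lf (.mk fun X Q _ => (Nat.add (Nat.mul (X (nat_lit 42)) (Nat.add (Nat.mul (nat_lit 16) (Q (nat_lit 31))) (Nat.add (Nat.mul (nat_lit 16) (Q (nat_lit 37))) (Nat.mul (nat_lit 8) (Q (nat_lit 38)))))) (Nat.add (Nat.mul (X (nat_lit 45)) (Nat.mul (nat_lit 8) (Q (nat_lit 35)))) (Nat.add (Nat.mul (X (nat_lit 46)) (Nat.mul (nat_lit 8) (Q (nat_lit 35)))) (Nat.add (Nat.mul (X (nat_lit 48)) (Nat.mul (nat_lit 8) (Q (nat_lit 35)))) (Nat.mul (X (nat_lit 49)) (Nat.mul (nat_lit 8) (Q (nat_lit 35)))))))))) 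
 (.lf (.mk fun _ _ _ => nat_lit 0))))) (.nd (nat_lit 284) (.nd (nat_lit 282) 
 (.lf (.mk fun X Q _ => (Nat.add (Nat.mul (X (nat_lit 38)) (Nat.add (Nat.mul (nat_lit 4) (Q (nat_lit 33))) (Nat.mul (nat_lit 4) (Q (nat_lit 40))))) (Nat.add (Nat.mul (X (nat_lit 39)) (Nat.add (Nat.mul (nat_lit 4) (Q (nat_lit 33))) (Nat.mul (nat_lit 4) (Q (nat_lit 40))))) (Nat.add (Nat.mul (X (nat_lit 41)) (Nat.mul (nat_lit 8) (Q (nat_lit 40)))) (Nat.add (Nat.mul (X (nat_lit 42)) (Nat.mul (nat_lit 4) (Q (nat_lit 42)))) (Nat.add (Nat.mul (X (nat_lit 40)) (Nat.add (Nat.mul (nat_lit 8) (Q (nat_lit 32))) (Nat.mul (nat_lit 8) (Q (nat_lit 41))))) (Nat.mul (X (nat_lit 43)) (Nat.mul (nat_lit 8) (Q (nat_lit 35))))))))))) (.nd (nat_lit 283) 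
 (.lf (.mk fun X Q _ => (Nat.add (Nat.mul (X (nat_lit 38)) (Nat.add (Nat.mul (nat_lit 4) (Q (nat_lit 33))) (Nat.mul (nat_lit 4) (Q (nat_lit 40))))) (Nat.add (Nat.mul (X (nat_lit 39)) (Nat.add (Nat.mul (nat_lit 4) (Q (nat_lit 33))) (Nat.mul (nat_lit 4) (Q (nat_lit 40))))) (Nat.add (Nat.mul (X (nat_lit 41)) (Nat.mul (nat_lit 8) (Q (nat_lit 40)))) (Nat.add (Nat.mul (X (nat_lit 42)) (Nat.mul (nat_lit 4) (Q (nat_lit 42)))) (Nat.add (Nat.mul (X (nat_lit 40)) (Nat.add (Nat.mul (nat_lit 8) (Q (nat_lit 32))) (Nat.mul (nat_lit 8) (Q (nat_lit 41))))) (Nat.mul (X (nat_lit 43)) (Nat.mul (nat_lit 8) (Q (nat_lit 35))))))))))) 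
 (.lf (.mk fun X Q _ => (Nat.add (Nat.mul (X (nat_lit 38)) (Nat.mul (nat_lit 8) (Q (nat_lit 40)))) (Nat.add (Nat.mul (X (nat_lit 39)) (Nat.mul (nat_lit 8) (Q (nat_lit 40)))) (Nat.add (Nat.mul (X (nat_lit 42)) (Nat.mul (nat_lit 8) (Q (nat_lit 33)))) (Nat.mul (X (nat_lit 40)) (Nat.mul (nat_lit 16) (Q (nat_lit 32))))))))))) (.nd (nat_lit 285) 
 (.lf (.mk fun X Q _ => (Nat.add (Nat.mul (X (nat_lit 38)) (Nat.add (Q (nat_lit 33)) (Nat.mul (nat_lit 4) (Q (nat_lit 40))))) (Nat.add (Nat.mul (X (nat_lit 39)) (Nat.mul (nat_lit 4) (Q (nat_lit 40)))) (Nat.add (Nat.mul (X (nat_lit 42)) (Nat.mul (nat_lit 4) (Q (nat_lit 42)))) (Nat.add (Nat.mul (X (nat_lit 40)) (Nat.mul (nat_lit 8) (Q (nat_lit 32)))) (Nat.add (Nat.mul (X (nat_lit 43)) (Nat.mul (nat_lit 8) (Q (nat_lit 35)))) (Nat.mul (X (nat_lit 51)) (Nat.mul (nat_lit 4) (Q (nat_lit 33))))))))))) (.nd (nat_lit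 286) 
 (.lf (.mk fun X Q _ => (Nat.add (Nat.mul (X (nat_lit 38)) (Nat.mul (nat_lit 8) (Q (nat_lit 40)))) (Nat.add (Nat.mul (X (nat_lit 39)) (Nat.mul (nat_lit 8) (Q (nat_lit 40)))) (Nat.add (Nat.mul (X (nat_lit 41)) (Nat.mul (nat_lit 8) (Q (nat_lit 40)))) (Nat.add (Nat.mul (X (nat_lit 42)) (Nat.add (Nat.mul (nat_lit 8) (Q (nat_lit 33))) (Nat.mul (nat_lit 4) (Q (nat_lit 42))))) (Nat.add (Nat.mul (X (nat_lit 40)) (Nat.add (Nat.mul (nat_lit 16) (Q (nat_lit 32))) (Nat.mul (nat_lit 8) (Q (nat_lit 41))))) (Nat.mul (X (nat_lit 43)) (Nat.mul (nat_lit 8) (Q (nat_lit 35))))))))))) 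
 (.lf (.mk fun X Q _ => (Nat.add (Nat.mul (X (nat_lit 38)) (Nat.mul (nat_lit 4) (Q (nat_lit 40)))) (Nat.add (Nat.mul (X (nat_lit 39)) (Nat.mul (nat_lit 4) (Q (nat_lit 40)))) (Nat.add (Nat.mul (X (nat_lit 40)) (Nat.mul (nat_lit 8) (Q (nat_lit 32)))) (Nat.mul (X (nat_lit 52)) (Nat.mul (nat_lit 4) (Q (nat_lit 33)))))))))))))) (.nd (nat_lit 298) (.nd (nat_lit 292) (.nd (nat_lit 289) (.nd (nat_lit 288) 
 (.lf (.mk fun X Q _ => (Nat.mul (X (nat_lit 48)) (Nat.mul (nat_lit 4) (Q (nat_lit 33)))))) 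
 (.lf (.mk fun X Q _ => (Nat.mul (X (nat_lit 50)) (Nat.mul (nat_lit 4) (Q (nat_lit 33))))))) (.nd (nat_lit 290) 
 (.lf (.mk fun _ _ _ => nat_lit 0)) (.nd (nat_lit 291) 
 (.lf (.mk fun X Q _ => (Nat.add (Nat.mul (X (nat_lit 55)) (Nat.add (Nat.mul (nat_lit 8) (Q (nat_lit 44))) (Nat.mul (nat_lit 2) (Q (nat_lit 50))))) (Nat.add (Nat.mul (X (nat_lit 57)) (Nat.add (Nat.mul (nat_lit 8) (Q (nat_lit 44))) (Nat.add (Nat.mul (nat_lit 8) (Q (nat_lit 47))) (Nat.add (Nat.mul (nat_lit 8) (Q (nat_lit 50))) (Nat.add (Nat.mul (nat_lit 8) (Q (nat_lit 52))) (Nat.mul (nat_lit 8) (Q (nat_lit 53)))))))) (Nat.add (Nat.mul (X (nat_lit 62)) (Nat.add (Nat.mul (nat_lit 4) (Q (nat_lit 46))) (Nat.mul (nat_lit 4) (Q (nat_lit 55))))) (Nat.add (Nat.mul (X (nat_lit 63)) (Nat.add (Nat.mul (nat_lit 4) (Q (nat_lit 46))) (Nat.mul (nat_lit 4) (Q (nat_lit 55))))) (Nat.add (Nat.mul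 (X (nat_lit 64)) (Nat.mul (nat_lit 8) (Q (nat_lit 55)))) (Nat.add (Nat.mul (X (nat_lit 65)) (Nat.add (Q (nat_lit 46)) (Nat.mul (nat_lit 4) (Q (nat_lit 55))))) (Nat.add (Nat.mul (X (nat_lit 66)) (Nat.mul (nat_lit 8) (Q (nat_lit 55)))) (Nat.mul (X (nat_lit 67)) (Nat.mul (nat_lit 4) (Q (nat_lit 55))))))))))))) 
 (.lf (.mk fun X Q _ => (Nat.add (Nat.mul (X (nat_lit 54)) (Nat.add (Nat.mul (nat_lit 8) (Q (nat_lit 44))) (Nat.mul (nat_lit 2) (Q (nat_lit 50))))) (Nat.add (Nat.mul (X (nat_lit 56)) (Nat.mul (nat_lit 8) (Q (nat_lit 44)))) (Nat.add (Nat.mul (X (nat_lit 59)) (Nat.add (Nat.mul (nat_lit 8) (Q (nat_lit 47))) (Nat.mul (nat_lit 8) (Q (nat_lit 52))))) (Nat.add (Nat.mul (X (nat_lit 62)) (Nat.mul (nat_lit 8) (Q (nat_lit 45)))) (Nat.add (Nat.mul (X (nat_lit 63)) (Nat.mul (nat_lit 8) (Q (nat_lit 45)))) (Nat.add (Nat.mul (X (nat_lit 64)) (Nat.mul (nat_lit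 8) (Q (nat_lit 48)))) (Nat.add (Nat.mul (X (nat_lit 65)) (Nat.mul (nat_lit 8) (Q (nat_lit 51)))) (Nat.add (Nat.mul (X (nat_lit 66)) (Nat.mul (nat_lit 8) (Q (nat_lit 48)))) (Nat.add (Nat.mul (X (nat_lit 67)) (Nat.mul (nat_lit 8) (Q (nat_lit 54)))) (Nat.add (Nat.mul (X (nat_lit 68)) (Nat.mul (nat_lit 8) (Q (nat_lit 50)))) (Nat.mul (X (nat_lit 69)) (Nat.mul (nat_lit 8) (Q (nat_lit 53))))))))))))))))))) (.nd (nat_lit 295) (.nd (nat_lit 293) 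
 (.lf (.mk fun X Q _ => (Nat.add (Nat.mul (X (nat_lit 55)) (Nat.mul (nat_lit 8) (Q (nat_lit 44)))) (Nat.add (Nat.mul (X (nat_lit 57)) (Nat.add (Nat.mul (nat_lit 8) (Q (nat_lit 44))) (Nat.add (Nat.mul (nat_lit 8) (Q (nat_lit 47))) (Nat.add (Nat.mul (nat_lit 8) (Q (nat_lit 50))) (Nat.add (Nat.mul (nat_lit 8) (Q (nat_lit 52))) (Nat.mul (nat_lit 8) (Q (nat_lit 53)))))))) (Nat.add (Nat.mul (X (nat_lit 62)) (Nat.add (Nat.mul (nat_lit 4) (Q (nat_lit 46))) (Nat.mul (nat_lit 4) (Q (nat_lit 55))))) (Nat.add (Nat.mul (X (nat_lit 63)) (Nat.add (Nat.mul (nat_lit 4) (Q (nat_lit 46))) (Nat.mul (nat_lit 4) (Q (nat_lit 55))))) (Nat.add (Nat.mul (X (nat_lit 64)) (Nat.mul (nat_lit 8) (Q (nat_lit 55)))) (Nat.add (Nat.mul (X (nat_lit 65)) (Nat.mul (nat_lit 4) (Q (nat_lit 55)))) (Nat.add (Nat.mul (X (nat_lit 66)) (Nat.mul (nat_lit 8) (Q (nat_lit 55)))) (Nat.mul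 (X (nat_lit 67)) (Nat.mul (nat_lit 4) (Q (nat_lit 55))))))))))))) (.nd (nat_lit 294) 
 (.lf (.mk fun X Q _ => (Nat.add (Nat.mul (X (nat_lit 54)) (Nat.add (Nat.mul (nat_lit 8) (Q (nat_lit 44))) (Nat.add (Nat.mul (nat_lit 8) (Q (nat_lit 47))) (Nat.add (Nat.mul (nat_lit 8) (Q (nat_lit 50))) (Nat.add (Nat.mul (nat_lit 8) (Q (nat_lit 52))) (Nat.mul (nat_lit 8) (Q (nat_lit 53)))))))) (Nat.add (Nat.mul (X (nat_lit 56)) (Nat.add (Nat.mul (nat_lit 8) (Q (nat_lit 44))) (Nat.add (Nat.mul (nat_lit 8) (Q (nat_lit 47))) (Nat.add (Nat.mul (nat_lit 8) (Q (nat_lit 50))) (Nat.add (Nat.mul (nat_lit 8) (Q (nat_lit 52))) (Nat.mul (nat_lit 8) (Q (nat_lit 53)))))))) (Nat.add (Nat.mul (X (nat_lit 58)) (Nat.add (Nat.mul (nat_lit 16) (Q (nat_lit 44))) (Nat.mul (nat_lit 8) (Q (nat_lit 52))))) (Nat.add (Nat.mul (X (nat_lit 62)) (Nat.add (Nat.mul (nat_lit 8) (Q (nat_lit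 45))) (Nat.mul (nat_lit 8) (Q (nat_lit 56))))) (Nat.add (Nat.mul (X (nat_lit 63)) (Nat.add (Nat.mul (nat_lit 8) (Q (nat_lit 45))) (Nat.mul (nat_lit 8) (Q (nat_lit 56))))) (Nat.add (Nat.mul (X (nat_lit 64)) (Nat.mul (nat_lit 16) (Q (nat_lit 45)))) (Nat.add (Nat.mul (X (nat_lit 65)) (Nat.mul (nat_lit 8) (Q (nat_lit 45)))) (Nat.add (Nat.mul (X (nat_lit 66)) (Nat.add (Nat.mul (nat_lit 16) (Q (nat_lit 45))) (Nat.mul (nat_lit 8) (Q (nat_lit 56))))) (Nat.mul (X (nat_lit 67)) (Nat.mul (nat_lit 8) (Q (nat_lit 45)))))))))))))) 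
 (.lf (.mk fun X Q _ => (Nat.add (Nat.mul (X (nat_lit 57)) (Nat.add (Nat.mul (nat_lit 16) (Q (nat_lit 44))) (Nat.mul (nat_lit 8) (Q (nat_lit 52))))) (Nat.add (Nat.mul (X (nat_lit 62)) (Nat.mul (nat_lit 8) (Q (nat_lit 55)))) (Nat.add (Nat.mul (X (nat_lit 63)) (Nat.mul (nat_lit 8) (Q (nat_lit 55)))) (Nat.mul (X (nat_lit 66)) (Nat.mul (nat_lit 8) (Q (nat_lit 55))))))))))) (.nd (nat_lit 296) 
 (.lf (.mk fun X Q _ => (Nat.add (Nat.mul (X (nat_lit 55)) (Nat.add (Nat.mul (nat_lit 8) (Q (nat_lit 47))) (Nat.mul (nat_lit 8) (Q (nat_lit 52))))) (Nat.add (Nat.mul (X (nat_lit 60)) (Nat.add (Nat.mul (nat_lit 16) (Q (nat_lit 44))) (Nat.add (Nat.mul (nat_lit 16) (Q (nat_lit 50))) (Nat.mul (nat_lit 8) (Q (nat_lit 52)))))) (Nat.add (Nat.mul (X (nat_lit 62)) (Nat.mul (nat_lit 4) (Q (nat_lit 57)))) (Nat.add (Nat.mul (X (nat_lit 63)) (Nat.mul (nat_lit 4) (Q (nat_lit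 57)))) (Nat.add (Nat.mul (X (nat_lit 64)) (Nat.mul (nat_lit 8) (Q (nat_lit 46)))) (Nat.add (Nat.mul (X (nat_lit 65)) (Nat.mul (nat_lit 4) (Q (nat_lit 57)))) (Nat.mul (X (nat_lit 66)) (Nat.add (Nat.mul (nat_lit 8) (Q (nat_lit 46))) (Nat.mul (nat_lit 4) (Q (nat_lit 57))))))))))))) (.nd (nat_lit 297) 
 (.lf (.mk fun X Q _ => (Nat.add (Nat.mul (X (nat_lit 59)) (Nat.add (Nat.mul (nat_lit 16) (Q (nat_lit 44))) (Nat.add (Nat.mul (nat_lit 16) (Q (nat_lit 50))) (Nat.mul (nat_lit 8) (Q (nat_lit 52)))))) (Nat.add (Nat.mul (X (nat_lit 62)) (Nat.mul (nat_lit 8) (Q (nat_lit 48)))) (Nat.add (Nat.mul (X (nat_lit 63)) (Nat.mul (nat_lit 8) (Q (nat_lit 48)))) (Nat.add (Nat.mul (X (nat_lit 65)) (Nat.mul (nat_lit 8) (Q (nat_lit 48)))) (Nat.mul (X (nat_lit 66)) (Nat.mul (nat_lit 8) (Q (nat_lit 48)))))))))) 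
 (.lf (.mk fun _ _ _ => nat_lit 0)))))) (.nd (nat_lit 303) (.nd (nat_lit 300) (.nd (nat_lit 299) 
 (.lf (.mk fun X Q _ => (Nat.add (Nat.mul (X (nat_lit 54)) (Nat.add (Nat.mul (nat_lit 4) (Q (nat_lit 46))) (Nat.mul (nat_lit 4) (Q (nat_lit 55))))) (Nat.add (Nat.mul (X (nat_lit 56)) (Nat.add (Nat.mul (nat_lit 4) (Q (nat_lit 46))) (Nat.mul (nat_lit 4) (Q (nat_lit 55))))) (Nat.add (Nat.mul (X (nat_lit 58)) (Nat.mul (nat_lit 8) (Q (nat_lit 55)))) (Nat.add (Nat.mul (X (nat_lit 59)) (Nat.mul (nat_lit 4) (Q (nat_lit 57)))) (Nat.add (Nat.mul (X (nat_lit 55)) (Nat.mul (nat_lit 8) (Q (nat_lit 45)))) (Nat.add (Nat.mul (X (nat_lit 57)) (Nat.add (Nat.mul (nat_lit 8) (Q (nat_lit 45))) (Nat.mul (nat_lit 8) (Q (nat_lit 56))))) (Nat.mul (X (nat_lit 60)) (Nat.mul (nat_lit 8) (Q (nat_lit 48)))))))))))) 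
 (.lf (.mk fun X Q _ => (Nat.add (Nat.mul (X (nat_lit 54)) (Nat.add (Nat.mul (nat_lit 4) (Q (nat_lit 46))) (Nat.mul (nat_lit 4) (Q (nat_lit 55))))) (Nat.add (Nat.mul (X (nat_lit 56)) (Nat.add (Nat.mul (nat_lit 4) (Q (nat_lit 46))) (Nat.mul (nat_lit 4) (Q (nat_lit 55))))) (Nat.add (Nat.mul (X (nat_lit 58)) (Nat.mul (nat_lit 8) (Q (nat_lit 55)))) (Nat.add (Nat.mul (X (nat_lit 59)) (Nat.mul (nat_lit 4) (Q (nat_lit 57)))) (Nat.add (Nat.mul (X (nat_lit 55)) (Nat.mul (nat_lit 8) (Q (nat_lit 45)))) (Nat.add (Nat.mul (X (nat_lit 57)) (Nat.add (Nat.mul (nat_lit 8) (Q (nat_lit 45))) (Nat.mul (nat_lit 8) (Q (nat_lit 56))))) (Nat.mul (X (nat_lit 60)) (Nat.mul (nat_lit 8) (Q (nat_lit 48))))))))))))) (.nd (nat_lit 301) 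
 (.lf (.mk fun X Q _ => (Nat.add (Nat.mul (X (nat_lit 54)) (Nat.mul (nat_lit 8) (Q (nat_lit 55)))) (Nat.add (Nat.mul (X (nat_lit 56)) (Nat.mul (nat_lit 8) (Q (nat_lit 55)))) (Nat.add (Nat.mul (X (nat_lit 59)) (Nat.mul (nat_lit 8) (Q (nat_lit 46)))) (Nat.add (Nat.mul (X (nat_lit 55)) (Nat.mul (nat_lit 8) (Q (nat_lit 48)))) (Nat.mul (X (nat_lit 57)) (Nat.mul (nat_lit 16) (Q (nat_lit 45)))))))))) (.nd (nat_lit 302) 
 (.lf (.mk fun X Q _ => (Nat.add (Nat.mul (X (nat_lit 54)) (Nat.add (Q (nat_lit 46)) (Nat.mul (nat_lit 4) (Q (nat_lit 55))))) (Nat.add (Nat.mul (X (nat_lit 56)) (Nat.mul (nat_lit 4) (Q (nat_lit 55)))) (Nat.add (Nat.mul (X (nat_lit 59)) (Nat.mul (nat_lit 4) (Q (nat_lit 57)))) (Nat.add (Nat.mul (X (nat_lit 55)) (Nat.mul (nat_lit 8) (Q (nat_lit 51)))) (Nat.add (Nat.mul (X (nat_lit 57)) (Nat.mul (nat_lit 8) (Q (nat_lit 45)))) (Nat.add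 (Nat.mul (X (nat_lit 60)) (Nat.mul (nat_lit 8) (Q (nat_lit 48)))) (Nat.mul (X (nat_lit 68)) (Nat.mul (nat_lit 4) (Q (nat_lit 46)))))))))))) 
 (.lf (.mk fun X Q _ => (Nat.add (Nat.mul (X (nat_lit 54)) (Nat.mul (nat_lit 8) (Q (nat_lit 55)))) (Nat.add (Nat.mul (X (nat_lit 56)) (Nat.mul (nat_lit 8) (Q (nat_lit 55)))) (Nat.add (Nat.mul (X (nat_lit 58)) (Nat.mul (nat_lit 8) (Q (nat_lit 55)))) (Nat.add (Nat.mul (X (nat_lit 59)) (Nat.add (Nat.mul (nat_lit 8) (Q (nat_lit 46))) (Nat.mul (nat_lit 4) (Q (nat_lit 57))))) (Nat.add (Nat.mul (X (nat_lit 55)) (Nat.mul (nat_lit 8) (Q (nat_lit 48)))) (Nat.add (Nat.mul (X (nat_lit 57)) (Nat.add (Nat.mul (nat_lit 16) (Q (nat_lit 45))) (Nat.mul (nat_lit 8) (Q (nat_lit 56))))) (Nat.mul (X (nat_lit 60)) (Nat.mul (nat_lit 8) (Q (nat_lit 48))))))))))))))) (.nd (nat_lit 306) (.nd (nat_lit 304) 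
 (.lf (.mk fun X Q _ => (Nat.add (Nat.mul (X (nat_lit 54)) (Nat.mul (nat_lit 4) (Q (nat_lit 55)))) (Nat.add (Nat.mul (X (nat_lit 56)) (Nat.mul (nat_lit 4) (Q (nat_lit 55)))) (Nat.add (Nat.mul (X (nat_lit 55)) (Nat.mul (nat_lit 8) (Q (nat_lit 54)))) (Nat.add (Nat.mul (X (nat_lit 57)) (Nat.mul (nat_lit 8) (Q (nat_lit 45)))) (Nat.mul (X (nat_lit 69)) (Nat.mul (nat_lit 4) (Q (nat_lit 46)))))))))) (.nd (nat_lit 305) 
 (.lf (.mk fun X Q _ => (Nat.add (Nat.mul (X (nat_lit 55)) (Nat.mul (nat_lit 8) (Q (nat_lit 50)))) (Nat.mul (X (nat_lit 65)) (Nat.mul (nat_lit 4) (Q (nat_lit 46))))))) 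
 (.lf (.mk fun X Q _ => (Nat.add (Nat.mul (X (nat_lit 55)) (Nat.mul (nat_lit 8) (Q (nat_lit 53)))) (Nat.mul (X (nat_lit 67)) (Nat.mul (nat_lit 4) (Q (nat_lit 46))))))))) (.nd (nat_lit 307) 
 (.lf (.mk fun _ _ _ => nat_lit 0)) (.nd (nat_lit 308) 
 (.lf (.mk fun X Q _ => (Nat.add (Nat.mul (X (nat_lit 73)) (Nat.add (Nat.mul (nat_lit 8) (Q (nat_lit 59))) (Nat.add (Nat.mul (nat_lit 8) (Q (nat_lit 62))) (Nat.add (Nat.mul (nat_lit 8) (Q (nat_lit 65))) (Nat.add (Nat.mul (nat_lit 8) (Q (nat_lit 66))) (Nat.mul (nat_lit 8) (Q (nat_lit 67)))))))) (Nat.add (Nat.mul (X (nat_lit 78)) (Nat.add (Nat.mul (nat_lit 4) (Q (nat_lit 61))) (Nat.mul (nat_lit 4) (Q (nat_lit 68))))) (Nat.add (Nat.mul (X (nat_lit 79)) (Nat.add (Nat.mul (nat_lit 4) (Q (nat_lit 61))) (Nat.mul (nat_lit 4) (Q (nat_lit 68))))) (Nat.add (Nat.mul (X (nat_lit 80)) (Nat.mul (nat_lit 8) (Q (nat_lit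 68)))) (Nat.add (Nat.mul (X (nat_lit 81)) (Nat.add (Q (nat_lit 61)) (Nat.mul (nat_lit 4) (Q (nat_lit 68))))) (Nat.add (Nat.mul (X (nat_lit 82)) (Nat.mul (nat_lit 8) (Q (nat_lit 68)))) (Nat.mul (X (nat_lit 83)) (Nat.mul (nat_lit 4) (Q (nat_lit 68)))))))))))) 
 (.lf (.mk fun X Q _ => (Nat.add (Nat.mul (X (nat_lit 73)) (Nat.add (Nat.mul (nat_lit 8) (Q (nat_lit 59))) (Nat.add (Nat.mul (nat_lit 8) (Q (nat_lit 62))) (Nat.add (Nat.mul (nat_lit 8) (Q (nat_lit 65))) (Nat.add (Nat.mul (nat_lit 8) (Q (nat_lit 66))) (Nat.mul (nat_lit 8) (Q (nat_lit 67)))))))) (Nat.add (Nat.mul (X (nat_lit 78)) (Nat.add (Nat.mul (nat_lit 4) (Q (nat_lit 61))) (Nat.mul (nat_lit 4) (Q (nat_lit 68))))) (Nat.add (Nat.mul (X (nat_lit 79)) (Nat.add (Nat.mul (nat_lit 4) (Q (nat_lit 61))) (Nat.mul (nat_lit 4) (Q (nat_lit 68))))) (Nat.add (Nat.mul (X (nat_lit 80)) (Nat.mul (nat_lit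 8) (Q (nat_lit 68)))) (Nat.add (Nat.mul (X (nat_lit 81)) (Nat.mul (nat_lit 4) (Q (nat_lit 68)))) (Nat.add (Nat.mul (X (nat_lit 82)) (Nat.mul (nat_lit 8) (Q (nat_lit 68)))) (Nat.mul (X (nat_lit 83)) (Nat.mul (nat_lit 4) (Q (nat_lit 68)))))))))))))))))) (.nd (nat_lit 331) (.nd (nat_lit 320) (.nd (nat_lit 314) (.nd (nat_lit 311) (.nd (nat_lit 310) 
 (.lf (.mk fun X Q _ => (Nat.add (Nat.mul (X (nat_lit 71)) (Nat.add (Nat.mul (nat_lit 8) (Q (nat_lit 59))) (Nat.add (Nat.mul (nat_lit 8) (Q (nat_lit 62))) (Nat.add (Nat.mul (nat_lit 8) (Q (nat_lit 65))) (Nat.add (Nat.mul (nat_lit 8) (Q (nat_lit 66))) (Nat.mul (nat_lit 8) (Q (nat_lit 67)))))))) (Nat.add (Nat.mul (X (nat_lit 72)) (Nat.add (Nat.mul (nat_lit 8) (Q (nat_lit 59))) (Nat.add (Nat.mul (nat_lit 8) (Q (nat_lit 62))) (Nat.add (Nat.mul (nat_lit 8) (Q (nat_lit 65))) (Nat.add (Nat.mul (nat_lit 8)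 (Q (nat_lit 66))) (Nat.mul (nat_lit 8) (Q (nat_lit 67)))))))) (Nat.add (Nat.mul (X (nat_lit 74)) (Nat.add (Nat.mul (nat_lit 16) (Q (nat_lit 59))) (Nat.mul (nat_lit 8) (Q (nat_lit 66))))) (Nat.add (Nat.mul (X (nat_lit 78)) (Nat.add (Nat.mul (nat_lit 8) (Q (nat_lit 60))) (Nat.mul (nat_lit 8) (Q (nat_lit 69))))) (Nat.add (Nat.mul (X (nat_lit 79)) (Nat.add (Nat.mul (nat_lit 8) (Q (nat_lit 60))) (Nat.mul (nat_lit 8) (Q (nat_lit 69))))) (Nat.add (Nat.mul (X (nat_lit 80)) (Nat.mul (nat_lit 16) (Q (nat_lit 60)))) (Nat.add (Nat.mul (X (nat_lit 81)) (Nat.mul (nat_lit 8) (Q (nat_lit 60)))) (Nat.add (Nat.mul (X (nat_lit 82)) (Nat.add (Nat.mul (nat_lit 16) (Q (nat_lit 60))) (Nat.mul (nat_lit 8) (Q (nat_lit 69))))) (Nat.mul (X (nat_lit 83)) (Nat.mul (nat_lit 8) (Q (nat_lit 60)))))))))))))) 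
 (.lf (.mk fun X Q _ => (Nat.add (Nat.mul (X (nat_lit 73)) (Nat.add (Nat.mul (nat_lit 16) (Q (nat_lit 59))) (Nat.mul (nat_lit 8) (Q (nat_lit 66))))) (Nat.add (Nat.mul (X (nat_lit 78)) (Nat.mul (nat_lit 8) (Q (nat_lit 68)))) (Nat.add (Nat.mul (X (nat_lit 79)) (Nat.mul (nat_lit 8) (Q (nat_lit 68)))) (Nat.mul (X (nat_lit 82)) (Nat.mul (nat_lit 8) (Q (nat_lit 68)))))))))) (.nd (nat_lit 312) 
 (.lf (.mk fun X Q _ => (Nat.add (Nat.mul (X (nat_lit 76)) (Nat.add (Nat.mul (nat_lit 16) (Q (nat_lit 59))) (Nat.add (Nat.mul (nat_lit 16) (Q (nat_lit 65))) (Nat.mul (nat_lit 8) (Q (nat_lit 66)))))) (Nat.add (Nat.mul (X (nat_lit 78)) (Nat.mul (nat_lit 4) (Q (nat_lit 70)))) (Nat.add (Nat.mul (X (nat_lit 79)) (Nat.mul (nat_lit 4) (Q (nat_lit 70)))) (Nat.add (Nat.mul (X (nat_lit 80)) (Nat.mul (nat_lit 8) (Q (nat_lit 61)))) (Nat.add (Nat.mul (X (nat_lit 81)) (Nat.mul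 (nat_lit 4) (Q (nat_lit 70)))) (Nat.mul (X (nat_lit 82)) (Nat.add (Nat.mul (nat_lit 8) (Q (nat_lit 61))) (Nat.mul (nat_lit 4) (Q (nat_lit 70)))))))))))) (.nd (nat_lit 313) 
 (.lf (.mk fun X Q _ => (Nat.add (Nat.mul (X (nat_lit 75)) (Nat.add (Nat.mul (nat_lit 16) (Q (nat_lit 59))) (Nat.add (Nat.mul (nat_lit 16) (Q (nat_lit 65))) (Nat.mul (nat_lit 8) (Q (nat_lit 66)))))) (Nat.add (Nat.mul (X (nat_lit 78)) (Nat.mul (nat_lit 8) (Q (nat_lit 63)))) (Nat.add (Nat.mul (X (nat_lit 79)) (Nat.mul (nat_lit 8) (Q (nat_lit 63)))) (Nat.add (Nat.mul (X (nat_lit 81)) (Nat.mul (nat_lit 8) (Q (nat_lit 63)))) (Nat.mul (X (nat_lit 82)) (Nat.mul (nat_lit 8) (Q (nat_lit 63)))))))))) 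
 (.lf (.mk fun _ _ _ => nat_lit 0))))) (.nd (nat_lit 317) (.nd (nat_lit 315) 
 (.lf (.mk fun X Q _ => (Nat.add (Nat.mul (X (nat_lit 71)) (Nat.add (Nat.mul (nat_lit 4) (Q (nat_lit 61))) (Nat.mul (nat_lit 4) (Q (nat_lit 68))))) (Nat.add (Nat.mul (X (nat_lit 72)) (Nat.add (Nat.mul (nat_lit 4) (Q (nat_lit 61))) (Nat.mul (nat_lit 4) (Q (nat_lit 68))))) (Nat.add (Nat.mul (X (nat_lit 74)) (Nat.mul (nat_lit 8) (Q (nat_lit 68)))) (Nat.add (Nat.mul (X (nat_lit 75)) (Nat.mul (nat_lit 4) (Q (nat_lit 70)))) (Nat.add (Nat.mul (X (nat_lit 73)) (Nat.add (Nat.mul (nat_lit 8) (Q (nat_lit 60))) (Nat.mul (nat_lit 8) (Q (nat_lit 69))))) (Nat.mul (X (nat_lit 76)) (Nat.mul (nat_lit 8) (Q (nat_lit 63))))))))))) (.nd (nat_lit 316) 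
 (.lf (.mk fun X Q _ => (Nat.add (Nat.mul (X (nat_lit 71)) (Nat.add (Nat.mul (nat_lit 4) (Q (nat_lit 61))) (Nat.mul (nat_lit 4) (Q (nat_lit 68))))) (Nat.add (Nat.mul (X (nat_lit 72)) (Nat.add (Nat.mul (nat_lit 4) (Q (nat_lit 61))) (Nat.mul (nat_lit 4) (Q (nat_lit 68))))) (Nat.add (Nat.mul (X (nat_lit 74)) (Nat.mul (nat_lit 8) (Q (nat_lit 68)))) (Nat.add (Nat.mul (X (nat_lit 75)) (Nat.mul (nat_lit 4) (Q (nat_lit 70)))) (Nat.add (Nat.mul (X (nat_lit 73)) (Nat.add (Nat.mul (nat_lit 8) (Q (nat_lit 60))) (Nat.mul (nat_lit 8) (Q (nat_lit 69))))) (Nat.mul (X (nat_lit 76)) (Nat.mul (nat_lit 8) (Q (nat_lit 63))))))))))) 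
 (.lf (.mk fun X Q _ => (Nat.add (Nat.mul (X (nat_lit 71)) (Nat.mul (nat_lit 8) (Q (nat_lit 68)))) (Nat.add (Nat.mul (X (nat_lit 72)) (Nat.mul (nat_lit 8) (Q (nat_lit 68)))) (Nat.add (Nat.mul (X (nat_lit 75)) (Nat.mul (nat_lit 8) (Q (nat_lit 61)))) (Nat.mul (X (nat_lit 73)) (Nat.mul (nat_lit 16) (Q (nat_lit 60))))))))))) (.nd (nat_lit 318) 
 (.lf (.mk fun X Q _ => (Nat.add (Nat.mul (X (nat_lit 71)) (Nat.add (Q (nat_lit 61)) (Nat.mul (nat_lit 4) (Q (nat_lit 68))))) (Nat.add (Nat.mul (X (nat_lit 72)) (Nat.mul (nat_lit 4) (Q (nat_lit 68)))) (Nat.add (Nat.mul (X (nat_lit 75)) (Nat.mul (nat_lit 4) (Q (nat_lit 70)))) (Nat.add (Nat.mul (X (nat_lit 73)) (Nat.mul (nat_lit 8) (Q (nat_lit 60)))) (Nat.add (Nat.mul (X (nat_lit 76)) (Nat.mul (nat_lit 8) (Q (nat_lit 63)))) (Nat.mul (X (nat_lit 84)) (Nat.mul (nat_lit 4) (Q (nat_lit 61))))))))))) (.nd (nat_lit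 319) 
 (.lf (.mk fun X Q _ => (Nat.add (Nat.mul (X (nat_lit 71)) (Nat.mul (nat_lit 8) (Q (nat_lit 68)))) (Nat.add (Nat.mul (X (nat_lit 72)) (Nat.mul (nat_lit 8) (Q (nat_lit 68)))) (Nat.add (Nat.mul (X (nat_lit 74)) (Nat.mul (nat_lit 8) (Q (nat_lit 68)))) (Nat.add (Nat.mul (X (nat_lit 75)) (Nat.add (Nat.mul (nat_lit 8) (Q (nat_lit 61))) (Nat.mul (nat_lit 4) (Q (nat_lit 70))))) (Nat.add (Nat.mul (X (nat_lit 73)) (Nat.add (Nat.mul (nat_lit 16) (Q (nat_lit 60))) (Nat.mul (nat_lit 8) (Q (nat_lit 69))))) (Nat.mul (X (nat_lit 76)) (Nat.mul (nat_lit 8) (Q (nat_lit 63))))))))))) 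
 (.lf (.mk fun X Q _ => (Nat.add (Nat.mul (X (nat_lit 71)) (Nat.mul (nat_lit 4) (Q (nat_lit 68)))) (Nat.add (Nat.mul (X (nat_lit 72)) (Nat.mul (nat_lit 4) (Q (nat_lit 68)))) (Nat.add (Nat.mul (X (nat_lit 73)) (Nat.mul (nat_lit 8) (Q (nat_lit 60)))) (Nat.mul (X (nat_lit 85)) (Nat.mul (nat_lit 4) (Q (nat_lit 61))))))))))))) (.nd (nat_lit 325) (.nd (nat_lit 322) (.nd (nat_lit 321) 
 (.lf (.mk fun X Q _ => (Nat.mul (X (nat_lit 81)) (Nat.mul (nat_lit 4) (Q (nat_lit 61)))))) 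
 (.lf (.mk fun X Q _ => (Nat.mul (X (nat_lit 83)) (Nat.mul (nat_lit 4) (Q (nat_lit 61))))))) (.nd (nat_lit 323) 
 (.lf (.mk fun _ _ _ => nat_lit 0)) (.nd (nat_lit 324) 
 (.lf (.mk fun X Q _ => (Nat.add (Nat.mul (X (nat_lit 88)) (Nat.add (Nat.mul (nat_lit 8) (Q (nat_lit 72))) (Nat.mul (nat_lit 2) (Q (nat_lit 78))))) (Nat.add (Nat.mul (X (nat_lit 90)) (Nat.add (Nat.mul (nat_lit 8) (Q (nat_lit 72))) (Nat.add (Nat.mul (nat_lit 8) (Q (nat_lit 75))) (Nat.add (Nat.mul (nat_lit 8) (Q (nat_lit 78))) (Nat.add (Nat.mul (nat_lit 8) (Q (nat_lit 80))) (Nat.mul (nat_lit 8) (Q (nat_lit 81)))))))) (Nat.add (Nat.mul (X (nat_lit 95)) (Nat.add (Nat.mul (nat_lit 4) (Q (nat_lit 74))) (Nat.mul (nat_lit 4) (Q (nat_lit 83))))) (Nat.add (Nat.mul (X (nat_lit 96)) (Nat.add (Nat.mul (nat_lit 4) (Q (nat_lit 74))) (Nat.mul (nat_lit 4) (Q (nat_lit 83))))) (Nat.add (Nat.mul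 (X (nat_lit 97)) (Nat.mul (nat_lit 8) (Q (nat_lit 83)))) (Nat.add (Nat.mul (X (nat_lit 98)) (Nat.add (Q (nat_lit 74)) (Nat.mul (nat_lit 4) (Q (nat_lit 83))))) (Nat.add (Nat.mul (X (nat_lit 99)) (Nat.mul (nat_lit 8) (Q (nat_lit 83)))) (Nat.mul (X (nat_lit 100)) (Nat.mul (nat_lit 4) (Q (nat_lit 83))))))))))))) 
 (.lf (.mk fun X Q _ => (Nat.add (Nat.mul (X (nat_lit 87)) (Nat.add (Nat.mul (nat_lit 8) (Q (nat_lit 72))) (Nat.mul (nat_lit 2) (Q (nat_lit 78))))) (Nat.add (Nat.mul (X (nat_lit 89)) (Nat.mul (nat_lit 8) (Q (nat_lit 72)))) (Nat.add (Nat.mul (X (nat_lit 92)) (Nat.add (Nat.mul (nat_lit 8) (Q (nat_lit 75))) (Nat.mul (nat_lit 8) (Q (nat_lit 80))))) (Nat.add (Nat.mul (X (nat_lit 95)) (Nat.mul (nat_lit 8) (Q (nat_lit 73)))) (Nat.add (Nat.mul (X (nat_lit 96)) (Nat.mul (nat_lit 8) (Q (nat_lit 73)))) (Nat.add (Nat.mul (X (nat_lit 97)) (Nat.mul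 (nat_lit 8) (Q (nat_lit 76)))) (Nat.add (Nat.mul (X (nat_lit 98)) (Nat.mul (nat_lit 8) (Q (nat_lit 79)))) (Nat.add (Nat.mul (X (nat_lit 99)) (Nat.mul (nat_lit 8) (Q (nat_lit 76)))) (Nat.add (Nat.mul (X (nat_lit 100)) (Nat.mul (nat_lit 8) (Q (nat_lit 82)))) (Nat.add (Nat.mul (X (nat_lit 101)) (Nat.mul (nat_lit 8) (Q (nat_lit 78)))) (Nat.mul (X (nat_lit 102)) (Nat.mul (nat_lit 8) (Q (nat_lit 81))))))))))))))))))) (.nd (nat_lit 328) (.nd (nat_lit 326) 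
 (.lf (.mk fun X Q _ => (Nat.add (Nat.mul (X (nat_lit 88)) (Nat.mul (nat_lit 8) (Q (nat_lit 72)))) (Nat.add (Nat.mul (X (nat_lit 90)) (Nat.add (Nat.mul (nat_lit 8) (Q (nat_lit 72))) (Nat.add (Nat.mul (nat_lit 8) (Q (nat_lit 75))) (Nat.add (Nat.mul (nat_lit 8) (Q (nat_lit 78))) (Nat.add (Nat.mul (nat_lit 8) (Q (nat_lit 80))) (Nat.mul (nat_lit 8) (Q (nat_lit 81)))))))) (Nat.add (Nat.mul (X (nat_lit 95)) (Nat.add (Nat.mul (nat_lit 4) (Q (nat_lit 74))) (Nat.mul (nat_lit 4) (Q (nat_lit 83))))) (Nat.add (Nat.mul (X (nat_lit 96)) (Nat.add (Nat.mul (nat_lit 4) (Q (nat_lit 74))) (Nat.mul (nat_lit 4) (Q (nat_lit 83))))) (Nat.add (Nat.mul (X (nat_lit 97)) (Nat.mul (nat_lit 8) (Q (nat_lit 83)))) (Nat.add (Nat.mul (X (nat_lit 98)) (Nat.mul (nat_lit 4) (Q (nat_lit 83)))) (Nat.add (Nat.mul (X (nat_lit 99)) (Nat.mul (nat_lit 8) (Q (nat_lit 83)))) (Nat.mul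 (X (nat_lit 100)) (Nat.mul (nat_lit 4) (Q (nat_lit 83))))))))))))) (.nd (nat_lit 327) 
 (.lf (.mk fun X Q _ => (Nat.add (Nat.mul (X (nat_lit 87)) (Nat.add (Nat.mul (nat_lit 8) (Q (nat_lit 72))) (Nat.add (Nat.mul (nat_lit 8) (Q (nat_lit 75))) (Nat.add (Nat.mul (nat_lit 8) (Q (nat_lit 78))) (Nat.add (Nat.mul (nat_lit 8) (Q (nat_lit 80))) (Nat.mul (nat_lit 8) (Q (nat_lit 81)))))))) (Nat.add (Nat.mul (X (nat_lit 89)) (Nat.add (Nat.mul (nat_lit 8) (Q (nat_lit 72))) (Nat.add (Nat.mul (nat_lit 8) (Q (nat_lit 75))) (Nat.add (Nat.mul (nat_lit 8) (Q (nat_lit 78))) (Nat.add (Nat.mul (nat_lit 8) (Q (nat_lit 80))) (Nat.mul (nat_lit 8) (Q (nat_lit 81)))))))) (Nat.add (Nat.mul (X (nat_lit 91)) (Nat.add (Nat.mul (nat_lit 16) (Q (nat_lit 72))) (Nat.mul (nat_lit 8) (Q (nat_lit 80))))) (Nat.add (Nat.mul (X (nat_lit 95)) (Nat.add (Nat.mul (nat_lit 8) (Q (nat_lit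 73))) (Nat.mul (nat_lit 8) (Q (nat_lit 84))))) (Nat.add (Nat.mul (X (nat_lit 96)) (Nat.add (Nat.mul (nat_lit 8) (Q (nat_lit 73))) (Nat.mul (nat_lit 8) (Q (nat_lit 84))))) (Nat.add (Nat.mul (X (nat_lit 97)) (Nat.mul (nat_lit 16) (Q (nat_lit 73)))) (Nat.add (Nat.mul (X (nat_lit 98)) (Nat.mul (nat_lit 8) (Q (nat_lit 73)))) (Nat.add (Nat.mul (X (nat_lit 99)) (Nat.add (Nat.mul (nat_lit 16) (Q (nat_lit 73))) (Nat.mul (nat_lit 8) (Q (nat_lit 84))))) (Nat.mul (X (nat_lit 100)) (Nat.mul (nat_lit 8) (Q (nat_lit 73)))))))))))))) 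
 (.lf (.mk fun X Q _ => (Nat.add (Nat.mul (X (nat_lit 90)) (Nat.add (Nat.mul (nat_lit 16) (Q (nat_lit 72))) (Nat.mul (nat_lit 8) (Q (nat_lit 80))))) (Nat.add (Nat.mul (X (nat_lit 95)) (Nat.mul (nat_lit 8) (Q (nat_lit 83)))) (Nat.add (Nat.mul (X (nat_lit 96)) (Nat.mul (nat_lit 8) (Q (nat_lit 83)))) (Nat.mul (X (nat_lit 99)) (Nat.mul (nat_lit 8) (Q (nat_lit 83))))))))))) (.nd (nat_lit 329) 
 (.lf (.mk fun X Q _ => (Nat.add (Nat.mul (X (nat_lit 88)) (Nat.add (Nat.mul (nat_lit 8) (Q (nat_lit 75))) (Nat.mul (nat_lit 8) (Q (nat_lit 80))))) (Nat.add (Nat.mul (X (nat_lit 93)) (Nat.add (Nat.mul (nat_lit 16) (Q (nat_lit 72))) (Nat.add (Nat.mul (nat_lit 16) (Q (nat_lit 78))) (Nat.mul (nat_lit 8) (Q (nat_lit 80)))))) (Nat.add (Nat.mul (X (nat_lit 95)) (Nat.mul (nat_lit 4) (Q (nat_lit 85)))) (Nat.add (Nat.mul (X (nat_lit 96)) (Nat.mul (nat_lit 4) (Q (nat_lit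 85)))) (Nat.add (Nat.mul (X (nat_lit 97)) (Nat.mul (nat_lit 8) (Q (nat_lit 74)))) (Nat.add (Nat.mul (X (nat_lit 98)) (Nat.mul (nat_lit 4) (Q (nat_lit 85)))) (Nat.mul (X (nat_lit 99)) (Nat.add (Nat.mul (nat_lit 8) (Q (nat_lit 74))) (Nat.mul (nat_lit 4) (Q (nat_lit 85))))))))))))) (.nd (nat_lit 330) 
 (.lf (.mk fun X Q _ => (Nat.add (Nat.mul (X (nat_lit 92)) (Nat.add (Nat.mul (nat_lit 16) (Q (nat_lit 72))) (Nat.add (Nat.mul (nat_lit 16) (Q (nat_lit 78))) (Nat.mul (nat_lit 8) (Q (nat_lit 80)))))) (Nat.add (Nat.mul (X (nat_lit 95)) (Nat.mul (nat_lit 8) (Q (nat_lit 76)))) (Nat.add (Nat.mul (X (nat_lit 96)) (Nat.mul (nat_lit 8) (Q (nat_lit 76)))) (Nat.add (Nat.mul (X (nat_lit 98)) (Nat.mul (nat_lit 8) (Q (nat_lit 76)))) (Nat.mul (X (nat_lit 99)) (Nat.mul (nat_lit 8) (Q (nat_lit 76)))))))))) 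
 (.lf (.mk fun _ _ _ => nat_lit 0))))))) (.nd (nat_lit 342) (.nd (nat_lit 336) (.nd (nat_lit 333) (.nd (nat_lit 332) 
 (.lf (.mk fun X Q _ => (Nat.add (Nat.mul (X (nat_lit 87)) (Nat.add (Nat.mul (nat_lit 4) (Q (nat_lit 74))) (Nat.mul (nat_lit 4) (Q (nat_lit 83))))) (Nat.add (Nat.mul (X (nat_lit 89)) (Nat.add (Nat.mul (nat_lit 4) (Q (nat_lit 74))) (Nat.mul (nat_lit 4) (Q (nat_lit 83))))) (Nat.add (Nat.mul (X (nat_lit 91)) (Nat.mul (nat_lit 8) (Q (nat_lit 83)))) (Nat.add (Nat.mul (X (nat_lit 92)) (Nat.mul (nat_lit 4) (Q (nat_lit 85)))) (Nat.add (Nat.mul (X (nat_lit 88)) (Nat.mul (nat_lit 8) (Q (nat_lit 73)))) (Nat.add (Nat.mul (X (nat_lit 90)) (Nat.add (Nat.mul (nat_lit 8) (Q (nat_lit 73))) (Nat.mul (nat_lit 8) (Q (nat_lit 84))))) (Nat.mul (X (nat_lit 93)) (Nat.mul (nat_lit 8) (Q (nat_lit 76)))))))))))) 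
 (.lf (.mk fun X Q _ => (Nat.add (Nat.mul (X (nat_lit 87)) (Nat.add (Nat.mul (nat_lit 4) (Q (nat_lit 74))) (Nat.mul (nat_lit 4) (Q (nat_lit 83))))) (Nat.add (Nat.mul (X (nat_lit 89)) (Nat.add (Nat.mul (nat_lit 4) (Q (nat_lit 74))) (Nat.mul (nat_lit 4) (Q (nat_lit 83))))) (Nat.add (Nat.mul (X (nat_lit 91)) (Nat.mul (nat_lit 8) (Q (nat_lit 83)))) (Nat.add (Nat.mul (X (nat_lit 92)) (Nat.mul (nat_lit 4) (Q (nat_lit 85)))) (Nat.add (Nat.mul (X (nat_lit 88)) (Nat.mul (nat_lit 8) (Q (nat_lit 73)))) (Nat.add (Nat.mul (X (nat_lit 90)) (Nat.add (Nat.mul (nat_lit 8) (Q (nat_lit 73))) (Nat.mul (nat_lit 8) (Q (nat_lit 84))))) (Nat.mul (X (nat_lit 93)) (Nat.mul (nat_lit 8) (Q (nat_lit 76))))))))))))) (.nd (nat_lit 334) 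
 (.lf (.mk fun X Q _ => (Nat.add (Nat.mul (X (nat_lit 87)) (Nat.mul (nat_lit 8) (Q (nat_lit 83)))) (Nat.add (Nat.mul (X (nat_lit 89)) (Nat.mul (nat_lit 8) (Q (nat_lit 83)))) (Nat.add (Nat.mul (X (nat_lit 92)) (Nat.mul (nat_lit 8) (Q (nat_lit 74)))) (Nat.add (Nat.mul (X (nat_lit 88)) (Nat.mul (nat_lit 8) (Q (nat_lit 76)))) (Nat.mul (X (nat_lit 90)) (Nat.mul (nat_lit 16) (Q (nat_lit 73)))))))))) (.nd (nat_lit 335) 
 (.lf (.mk fun X Q _ => (Nat.add (Nat.mul (X (nat_lit 87)) (Nat.add (Q (nat_lit 74)) (Nat.mul (nat_lit 4) (Q (nat_lit 83))))) (Nat.add (Nat.mul (X (nat_lit 89)) (Nat.mul (nat_lit 4) (Q (nat_lit 83)))) (Nat.add (Nat.mul (X (nat_lit 92)) (Nat.mul (nat_lit 4) (Q (nat_lit 85)))) (Nat.add (Nat.mul (X (nat_lit 88)) (Nat.mul (nat_lit 8) (Q (nat_lit 79)))) (Nat.add (Nat.mul (X (nat_lit 90)) (Nat.mul (nat_lit 8) (Q (nat_lit 73)))) (Nat.add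 (Nat.mul (X (nat_lit 93)) (Nat.mul (nat_lit 8) (Q (nat_lit 76)))) (Nat.mul (X (nat_lit 101)) (Nat.mul (nat_lit 4) (Q (nat_lit 74)))))))))))) 
 (.lf (.mk fun X Q _ => (Nat.add (Nat.mul (X (nat_lit 87)) (Nat.mul (nat_lit 8) (Q (nat_lit 83)))) (Nat.add (Nat.mul (X (nat_lit 89)) (Nat.mul (nat_lit 8) (Q (nat_lit 83)))) (Nat.add (Nat.mul (X (nat_lit 91)) (Nat.mul (nat_lit 8) (Q (nat_lit 83)))) (Nat.add (Nat.mul (X (nat_lit 92)) (Nat.add (Nat.mul (nat_lit 8) (Q (nat_lit 74))) (Nat.mul (nat_lit 4) (Q (nat_lit 85))))) (Nat.add (Nat.mul (X (nat_lit 88)) (Nat.mul (nat_lit 8) (Q (nat_lit 76)))) (Nat.add (Nat.mul (X (nat_lit 90)) (Nat.add (Nat.mul (nat_lit 16) (Q (nat_lit 73))) (Nat.mul (nat_lit 8) (Q (nat_lit 84))))) (Nat.mul (X (nat_lit 93)) (Nat.mul (nat_lit 8) (Q (nat_lit 76))))))))))))))) (.nd (nat_lit 339) (.nd (nat_lit 337) 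
 (.lf (.mk fun X Q _ => (Nat.add (Nat.mul (X (nat_lit 87)) (Nat.mul (nat_lit 4) (Q (nat_lit 83)))) (Nat.add (Nat.mul (X (nat_lit 89)) (Nat.mul (nat_lit 4) (Q (nat_lit 83)))) (Nat.add (Nat.mul (X (nat_lit 88)) (Nat.mul (nat_lit 8) (Q (nat_lit 82)))) (Nat.add (Nat.mul (X (nat_lit 90)) (Nat.mul (nat_lit 8) (Q (nat_lit 73)))) (Nat.mul (X (nat_lit 102)) (Nat.mul (nat_lit 4) (Q (nat_lit 74)))))))))) (.nd (nat_lit 338) 
 (.lf (.mk fun X Q _ => (Nat.add (Nat.mul (X (nat_lit 88)) (Nat.mul (nat_lit 8) (Q (nat_lit 78)))) (Nat.mul (X (nat_lit 98)) (Nat.mul (nat_lit 4) (Q (nat_lit 74))))))) 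
 (.lf (.mk fun X Q _ => (Nat.add (Nat.mul (X (nat_lit 88)) (Nat.mul (nat_lit 8) (Q (nat_lit 81)))) (Nat.mul (X (nat_lit 100)) (Nat.mul (nat_lit 4) (Q (nat_lit 74))))))))) (.nd (nat_lit 340) 
 (.lf (.mk fun _ _ _ => nat_lit 0)) (.nd (nat_lit 341) 
 (.lf (.mk fun X Q _ => (Nat.add (Nat.mul (X (nat_lit 105)) (Nat.add (Nat.mul (nat_lit 8) (Q (nat_lit 87))) (Nat.add (Nat.mul (nat_lit 8) (Q (nat_lit 90))) (Nat.add (Nat.mul (nat_lit 8) (Q (nat_lit 93))) (Nat.add (Nat.mul (nat_lit 8) (Q (nat_lit 94))) (Nat.mul (nat_lit 8) (Q (nat_lit 95)))))))) (Nat.add (Nat.mul (X (nat_lit 110)) (Nat.add (Nat.mul (nat_lit 4) (Q (nat_lit 89))) (Nat.mul (nat_lit 4) (Q (nat_lit 96))))) (Nat.add (Nat.mul (X (nat_lit 111)) (Nat.add (Nat.mul (nat_lit 4) (Q (nat_lit 89))) (Nat.mul (nat_lit 4) (Q (nat_lit 96))))) (Nat.add (Nat.mul (X (nat_lit 112)) (Nat.mul (nat_lit 8) (Q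 (nat_lit 96)))) (Nat.add (Nat.mul (X (nat_lit 113)) (Nat.mul (nat_lit 8) (Q (nat_lit 96)))) (Nat.mul (X (nat_lit 114)) (Nat.mul (nat_lit 4) (Q (nat_lit 96))))))))))) 
 (.lf (.mk fun X Q _ => (Nat.add (Nat.mul (X (nat_lit 104)) (Nat.add (Nat.mul (nat_lit 8) (Q (nat_lit 87))) (Nat.add (Nat.mul (nat_lit 8) (Q (nat_lit 90))) (Nat.add (Nat.mul (nat_lit 8) (Q (nat_lit 93))) (Nat.add (Nat.mul (nat_lit 8) (Q (nat_lit 94))) (Nat.mul (nat_lit 8) (Q (nat_lit 95)))))))) (Nat.add (Nat.mul (X (nat_lit 106)) (Nat.add (Nat.mul (nat_lit 16) (Q (nat_lit 87))) (Nat.mul (nat_lit 8) (Q (nat_lit 94))))) (Nat.add (Nat.mul (X (nat_lit 110)) (Nat.add (Nat.mul (nat_lit 8) (Q (nat_lit 88))) (Nat.mul (nat_lit 8) (Q (nat_lit 97))))) (Nat.add (Nat.mul (X (nat_lit 111)) (Nat.add (Nat.mul (nat_lit 8) (Q (nat_lit 88))) (Nat.mul (nat_lit 8) (Q (nat_lit 97))))) (Nat.add (Nat.mul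 (X (nat_lit 112)) (Nat.mul (nat_lit 16) (Q (nat_lit 88)))) (Nat.add (Nat.mul (X (nat_lit 113)) (Nat.add (Nat.mul (nat_lit 16) (Q (nat_lit 88))) (Nat.mul (nat_lit 8) (Q (nat_lit 97))))) (Nat.mul (X (nat_lit 114)) (Nat.mul (nat_lit 8) (Q (nat_lit 88)))))))))))))))) (.nd (nat_lit 348) (.nd (nat_lit 345) (.nd (nat_lit 343) 
 (.lf (.mk fun X Q _ => (Nat.add (Nat.mul (X (nat_lit 105)) (Nat.add (Nat.mul (nat_lit 16) (Q (nat_lit 87))) (Nat.mul (nat_lit 8) (Q (nat_lit 94))))) (Nat.add (Nat.mul (X (nat_lit 110)) (Nat.mul (nat_lit 8) (Q (nat_lit 96)))) (Nat.add (Nat.mul (X (nat_lit 111)) (Nat.mul (nat_lit 8) (Q (nat_lit 96)))) (Nat.mul (X (nat_lit 113)) (Nat.mul (nat_lit 8) (Q (nat_lit 96))))))))) (.nd (nat_lit 344) 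
 (.lf (.mk fun X Q _ => (Nat.add (Nat.mul (X (nat_lit 108)) (Nat.add (Nat.mul (nat_lit 16) (Q (nat_lit 87))) (Nat.add (Nat.mul (nat_lit 16) (Q (nat_lit 93))) (Nat.mul (nat_lit 8) (Q (nat_lit 94)))))) (Nat.add (Nat.mul (X (nat_lit 110)) (Nat.mul (nat_lit 4) (Q (nat_lit 98)))) (Nat.add (Nat.mul (X (nat_lit 111)) (Nat.mul (nat_lit 4) (Q (nat_lit 98)))) (Nat.add (Nat.mul (X (nat_lit 112)) (Nat.mul (nat_lit 8) (Q (nat_lit 89)))) (Nat.mul (X (nat_lit 113)) (Nat.add (Nat.mul (nat_lit 8) (Q (nat_lit 89))) (Nat.mul (nat_lit 4) (Q (nat_lit 98))))))))))) 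
 (.lf (.mk fun X Q _ => (Nat.add (Nat.mul (X (nat_lit 107)) (Nat.add (Nat.mul (nat_lit 16) (Q (nat_lit 87))) (Nat.add (Nat.mul (nat_lit 16) (Q (nat_lit 93))) (Nat.mul (nat_lit 8) (Q (nat_lit 94)))))) (Nat.add (Nat.mul (X (nat_lit 110)) (Nat.mul (nat_lit 8) (Q (nat_lit 91)))) (Nat.add (Nat.mul (X (nat_lit 111)) (Nat.mul (nat_lit 8) (Q (nat_lit 91)))) (Nat.mul (X (nat_lit 113)) (Nat.mul (nat_lit 8) (Q (nat_lit 91))))))))))) (.nd (nat_lit 346) 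
 (.lf (.mk fun _ _ _ => nat_lit 0)) (.nd (nat_lit 347) 
 (.lf (.mk fun X Q _ => (Nat.add (Nat.mul (X (nat_lit 104)) (Nat.add (Nat.mul (nat_lit 4) (Q (nat_lit 89))) (Nat.mul (nat_lit 4) (Q (nat_lit 96))))) (Nat.add (Nat.mul (X (nat_lit 106)) (Nat.mul (nat_lit 8) (Q (nat_lit 96)))) (Nat.add (Nat.mul (X (nat_lit 107)) (Nat.mul (nat_lit 4) (Q (nat_lit 98)))) (Nat.add (Nat.mul (X (nat_lit 105)) (Nat.add (Nat.mul (nat_lit 8) (Q (nat_lit 88))) (Nat.mul (nat_lit 8) (Q (nat_lit 97))))) (Nat.mul (X (nat_lit 108)) (Nat.mul (nat_lit 8) (Q (nat_lit 91)))))))))) 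
 (.lf (.mk fun X Q _ => (Nat.add (Nat.mul (X (nat_lit 104)) (Nat.add (Nat.mul (nat_lit 4) (Q (nat_lit 89))) (Nat.mul (nat_lit 4) (Q (nat_lit 96))))) (Nat.add (Nat.mul (X (nat_lit 106)) (Nat.mul (nat_lit 8) (Q (nat_lit 96)))) (Nat.add (Nat.mul (X (nat_lit 107)) (Nat.mul (nat_lit 4) (Q (nat_lit 98)))) (Nat.add (Nat.mul (X (nat_lit 105)) (Nat.add (Nat.mul (nat_lit 8) (Q (nat_lit 88))) (Nat.mul (nat_lit 8) (Q (nat_lit 97))))) (Nat.mul (X (nat_lit 108)) (Nat.mul (nat_lit 8) (Q (nat_lit 91))))))))))))) (.nd (nat_lit 351) (.nd (nat_lit 349) 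
 (.lf (.mk fun X Q _ => (Nat.add (Nat.mul (X (nat_lit 104)) (Nat.mul (nat_lit 8) (Q (nat_lit 96)))) (Nat.add (Nat.mul (X (nat_lit 107)) (Nat.mul (nat_lit 8) (Q (nat_lit 89)))) (Nat.mul (X (nat_lit 105)) (Nat.mul (nat_lit 16) (Q (nat_lit 88)))))))) (.nd (nat_lit 350) 
 (.lf (.mk fun X Q _ => (Nat.add (Nat.mul (X (nat_lit 104)) (Nat.mul (nat_lit 8) (Q (nat_lit 96)))) (Nat.add (Nat.mul (X (nat_lit 106)) (Nat.mul (nat_lit 8) (Q (nat_lit 96)))) (Nat.add (Nat.mul (X (nat_lit 107)) (Nat.add (Nat.mul (nat_lit 8) (Q (nat_lit 89))) (Nat.mul (nat_lit 4) (Q (nat_lit 98))))) (Nat.add (Nat.mul (X (nat_lit 105)) (Nat.add (Nat.mul (nat_lit 16) (Q (nat_lit 88))) (Nat.mul (nat_lit 8) (Q (nat_lit 97))))) (Nat.mul (X (nat_lit 108)) (Nat.mul (nat_lit 8) (Q (nat_lit 91)))))))))) 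
 (.lf (.mk fun X Q _ => (Nat.add (Nat.mul (X (nat_lit 104)) (Nat.mul (nat_lit 4) (Q (nat_lit 96)))) (Nat.add (Nat.mul (X (nat_lit 105)) (Nat.mul (nat_lit 8) (Q (nat_lit 88)))) (Nat.mul (X (nat_lit 116)) (Nat.mul (nat_lit 4) (Q (nat_lit 89)))))))))) (.nd (nat_lit 352) 
 (.lf (.mk fun _ _ _ => nat_lit 0)) (.nd (nat_lit 353) 
 (.lf (.mk fun X Q _ => (Nat.mul (X (nat_lit 114)) (Nat.mul (nat_lit 4) (Q (nat_lit 89)))))) 
 (.lf (.mk fun _ _ _ => nat_lit 0)))))))))))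

/-- mixing terms of receiver type `m` with rigidity `e` -/
noncomputable def mixN (e m : Nat) : Bx := mixT.get (Nat.add (Nat.mul 2 m) e)

/-- mixing terms of sender type `s` with rigidity `e` -/
noncomputable def upN (e s : Nat) : Bx := uprT.get (Nat.add (Nat.mul 2 s) e)

/-- product terms of sender type `s` in phases after `p` -/
noncomputable def ra (p s : Nat) : Bx := raT.get (Nat.add (Nat.mul 100 p) s)

/-- product terms of sender type `s` in phase `p` -/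
noncomputable def rb (p s : Nat) : Bx := rbT.get (Nat.add (Nat.mul 100 p) s)

/-- all product terms of sender type `s` -/
noncomputable def rt (s : Nat) : Bx := rtT.get s

/-- adjoint product terms of receiver type `m` in phases from `p` on -/
noncomputable def gw (p m : Nat) : B3 := gwT.get (Nat.add (Nat.mul 118 p) m)

/-- first sender type of a group -/
noncomputable def s0 (g : Nat) : Nat := dg 8 (nat_lit 0x6457483b2c1f100300) g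

/-- first receiver type of a group -/
noncomputable def m0 (g : Nat) : Nat := dg 8 (nat_lit 0x766857473626150500) g

/-- chunk of a class -/
noncomputable def cj (c : Nat) : Nat := dg 8 (nat_lit 0x3130303030303030302f30302d2e2e2f2d2d2c2f2f2f2f2f2f2f2f30302f2e2e282d2e2e2e2c2e2e2d2d2e2e2f2e2d2f2f2e2f2c2e2e1f2d2d2f292a2928292a272729282b2c2b2d282c2a2b2d2d2b2b2b2c2c2d2d2c2c2b2d2b2b2e2c1e292c2c1f272a2b2d2c2a2c1f2c2c2525262624282a2a28292a292929292a28282828272a2b27282b262b282a28282b291e1e262a29282a29282a2b1e1e1e2a292a1f292b1e29202022222124222525252522222625262622242626242424272724252722261d1d20252626252327252727261e1d1d242327262627221e1e1e182327272526241e1e1e1e1624271e1d212123222222222423212323231c1b21222324251c232323232425231d1c1d1c171725242323251d1d1d1d1d1d1c1624241d1d1d171c1c161c20202020211a20202021222221211c1b17171721212121211c1c1b1c1b1b1622201c1c1c1b171714171c1b161616121917162020211715211b1b201b1b1b17171417141b1b16161212081413122011201b171710141b161212080f0e0d0c080b0a1412090504070603020100)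 c

/-- position of a class in its chunk -/
noncomputable def ci (c : Nat) : Nat := dg 4 (nat_lit 0xb27a9435f8621fade3c3bd92e701690a85738a4b4b856c14c80de3970aacfe121dece45670363aeb4df0cb817f2fc0a5182da6f9212349d456701c64f7dd2b19b5fc6827349058d2833eb891be7485099f2845e208de8b43eaf3c5bc36f4ec77d7fb96a111306562c5bea05db3a00fcbf4a4195a706ab5017f68279d845a9a9974753ec6df1ded2dbc52e86473821039f5e963dbe606f780a0d0f64b9fce1a8cba612c19ceac572d67560942a4203745b398533482233422051001100100210000010000000000000) c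

/-- length of a chunk -/
noncomputable def cl (j : Nat) : Nat := dg 8 (nat_lit 0x10c101010101010101010101010101010100410101010010101100b01060107010101010101010101030101010101010101) j

/-- the class at a position -/
noncomputable def ca (j i : Nat) : Nat := dg 12 (nat_lit 0x19100000000000019018d18c18718e18618918b18a18f17517618817817b17e17c18217a15f17717416516117d17916215818315c15d16016716b17316616e16416f16a16d13618417213e18018116316912c15a17015914514a16814418513913d13514c13f13c13b13212916c14812b13114017f12612715e13714212d14d1411430f013a13810c10f14b14610a0f910512a0fd11611b1101560fa10011e11f0f30f510812e15214711815314f1550fc1570f10f411711a1041190ff0ee11c13315414e11510d1131711060fb1091491201070fe11411211d10e0d40b90b20b10bc11112f0d10c40c30d50c61511500a70de0e01220d90da0ca12310b0cf0c20ba0af0dd1010c90bb0b00e50e608a0e30df0910e40d20cb07e1241250820c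80c50d608b0810d30be0ae09209d0a80d70db1210d80750740e80b30bd09907f08009309a09808e08908d08f08c09c0c70a209f0ea0d00dc0b80600940e70a009e0eb0e20e104c0a106105705505e0560a409505806209b0670a30370340e905405f06406806a04b0690380cc0ed0630650310ec06b03901e01c00000000000000000000000000000000000015b1281300f20ef0f71021340f80b60ab1030f60a60aa0ad0b70c10ac0b50ce07c0880c00cd0a507107b07807a0bf07907207d08607308706e08504805005304905209006c06f09707704204a05d05c04704105103004f02e02803304e09603202f02701b01600000000000000000000000000000000000000000000006600000000000000000000000000000000000000000000003c0000000000000000000000000000000000000000000000b407008408304505904603b02d04305b02c05a02a03601a0190000000000000000a906d07603f04003e03a02502604d01500000000000000000000000000000000000000000000003500000000000000000000000000000004402902b02101700a00000000000000000000000000000000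000000000000002000000000000000000000000000003d01f02302401401300900000000000000000000000000000000000000000000001d00000000000000000000000000000000000000000000001800000000000000000000000000000000000000000000001100000000000000000000000000000000000000000000001000000000000000000000000000000000000000000000000f00000000000000000000000000000000000000000000000e00000000000000000000000000000000000000000000000c00000000000000000000000000000000000000000000000b00000000000000000000000000000000000000000000000800000000000000000000000000000000000000002200d012000000000000000000000000000000000000000000000005000000000000000000000000000000000000000000000004000000000000000000000000000000000000000000000007000000000000000000000000000000000000000000000006000000000000000000000000000000000000000000000003000000000000000000000000000000000000000000000002000000000000000000000000000000000000000000000001000000000000000000000000000000000000000000000000)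 (Nat.add (Nat.mul 16 j) i)

/-- first chunk of the classes with neighbourhood class `c` -/
noncomputable def t0 (c : Nat) : Nat := dg 8 (nat_lit 0x201b1a19171600151400131200110010000f00000000000e0000000d0c000b0a00000000000000000000000000000000000009000000080000000700000000000000000000000000000000000000000000000000000006000000000000000000000500000000000000040000000000000000000000000000000000000000000000000000000000000000000000000000000000000000000000000000000000000000000000000000000000000000000000000000000000000000000000000000000000000000000000000000000000000000000000000000000000000003000000000000000000000200000000000000000000000000000000000000000000000000000000000000000000000000000000000000000000000000000000000000000000000000000000000000000000000000000000000000000000000000000000000000000000000000000000000000000000000000000000000000000000000000000000000000000000000000000100000000000000000000000000000000000000000000000000000000000000000000)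 c

/-- end of these chunks -/
noncomputable def t1 (c : Nat) : Nat := dg 8 (nat_lit 0x32201b1a191700161500141300120011001000000000000f0000000e0d000c0b0000000000000000000000000000000000000a000000090000000800000000000000000000000000000000000000000000000000000007000000000000000000000600000000000000050000000000000000000000000000000000000000000000000000000000000000000000000000000000000000000000000000000000000000000000000000000000000000000000000000000000000000000000000000000000000000000000000000000000000000000000000000000000000004000000000000000000000300000000000000000000000000000000000000000000000000000000000000000000000000000000000000000000000000000000000000000000000000000000000000000000000000000000000000000000000000000000000000000000000000000000000000000000000000000000000000000000000000000000000000000000000000000200000000000000000000000000000000000000000000000000000000000000000001)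 c

/-- number of these classes -/
noncomputable def cn (c : Nat) : Nat := dg 12 (nat_lit 0x10d04400100101100b0000010060000010070000010000010000010000000000000000010000000000010010000010010000000000000000000000000000000000000000000000000000000010000000000030000000000010000000000000000000000000000000000000000000000000000000000000000000000000000000000010000000000000000000000000000000010000000000000000000000010000000000000000000000000000000000000000000000000000000000000000000000000000000000000000000000000000000000000000000000000000000000000000000000000000000000000000000000000000000000000000000000000000000000000000000000000000000000000000000000000000000000000000000000000000000000000000000000000000000000000000000000000000000000000000000000000000000000010000000000000000000000000000000010000000000000000000000000000000000000000000000000000000000000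00000000000000000000000000000000000000000000000000000000000000000000000000000000000000000000000000000000000000000000000000000000000000000000000000000000000000000000000000000000000000000000000000000000000000000000000000000000000000000000000000000000000000000000000000000000000000000000000000000000000000000000000000000000000000000000000000000001000000000000000000000000000000000000000000000000000000000000000000000000000000000000000000000000000001) c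

end Pool.Agent.MP_7c51ae_co
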