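import Pool.Agent.MP_7c51ae_co.ClsRaw
import Pool.Agent.MP_7c51ae_co.RowRaw
import Pool.Agent.MP_7c51ae_co.TabRaw

/-!
The checker: polynomials in the time parameter are packed into numbers with slots of 192 bits.
-/

set_option autoImplicit false

namespace Pool.Agent.MP_7c51ae_co

/-- joins two pieces of a long number -/
noncomputable def jo (w a b : Nat) : Nat := Nat.add a (Nat.shiftLeft b w)

/-- evaluate `e` first -/
noncomputable def frk (e : Nat) (f : Nat → Bool) : Bool :=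
  @Nat.rec (fun _ => Bool) false (fun k _ => f k) (Nat.add e 1)

/-- the digits `|r i|` from the number with the `n` digits `r i + 2 ^ 191` in base `2 ^ 192` -/
noncomputable def ab (n X : Nat) : Nat :=
  frc (Nat.land (Nat.shiftRight X 191) (ones 192 n)) fun S =>
    Nat.sub (Nat.add (Nat.mul 2 (Nat.land X (Nat.sub (Nat.shiftLeft S 191) S)))
      (Nat.shiftLeft (ones 192 n) 191)) X

/-- all `n` digits are below `2 ^ 160` -/
noncomputable def sml (n X : Nat) : Bool := Nat.beq (Nat.land X (Nat.mul (msk 160) (ones 192 n))) X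

/-- packed coefficients: `P` parts of `l` slots -/
structure Dat where
  P : Nat
  l : Nat
  lit : Nat → Nat → Nat
  b : Nat
  f : Nat
  o : Nat
  fam : Nat

namespace Dat

variable (d : Dat)

/-- number of slots -/
noncomputable def L : Nat := Nat.mul d.P d.l

/-- bits of a block -/
noncomputable def w : Nat := Nat.mul 192 d.L

/-- width of coefficient `k` in chunk `j` -/
noncomputable def bw (j k : Nat) : Nat := dg 8 d.b (Nat.add (Nat.mul d.L j) k)

noncomputable def fw (φ p : Nat) : Nat := dg 8 d.f (Nat.add (Nat.mul d.P φ) p)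

noncomputable def cnt (φ p : Nat) : Nat := Nat.mul d.P (Nat.div 192 (d.fw φ p))

noncomputable def li (φ s p : Nat) : Nat :=
  Nat.add (dg 8 d.o (Nat.add (Nat.mul d.P φ) p)) (Nat.div s (d.cnt φ p))

noncomputable def sh (φ s p : Nat) : Nat :=
  Nat.add (Nat.mul (Nat.mod (Nat.mod s (d.cnt φ p)) d.P) (Nat.mul 192 d.l))
    (Nat.mul (Nat.div (Nat.mod s (d.cnt φ p)) d.P) (d.fw φ p))

noncomputable def mask (j p : Nat) : Nat :=
  Nat.mul (pk 192 d.l fun r => msk (d.bw j (Nat.add (Nat.mul d.l p) r))) (ones d.w (cl j))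

noncomputable def item (j φ s p : Nat) : Nat :=
  Nat.shiftLeft (Nat.land (Nat.shiftRight (frc (d.li φ s p) (d.lit j)) (d.sh φ s p)) (d.mask j p))
    (Nat.mul (Nat.mul 192 d.l) p)

noncomputable def fix (j : Nat) : Nat :=
  Nat.mul (pk 192 d.L fun k => Nat.sub (Nat.shiftLeft 1 64)
      (Nat.div (Nat.shiftLeft 1 (d.bw j k)) 2)) (ones d.w (cl j))

/-- the coefficients of type `s` on chunk `j`, plus `2 ^ 64` -/
noncomputable def unp (j s : Nat) : Nat :=
  frc (dg 4 d.fam j) fun φ =>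
    @Nat.rec (fun _ => Nat) (d.fix j) (fun p ih => Nat.add ih (d.item j φ s p)) d.P

/-- a bound for the norm on one class of chunk `j` -/
noncomputable def b1 (j : Nat) : Nat := sm d.L fun k => Nat.shiftLeft 1 (d.bw j k)

/-- a bound for the sum of the norms over all classes -/
noncomputable def bn : Nat := sm 50 fun j => Nat.mul (cl j) (d.b1 j)

/-- there are `L` slots, the widths are small, and they vanish on the empty list -/
noncomputable def ok (L : Nat) : Bool :=
  and (Nat.beq d.L L) (and (al d.L fun k => Nat.beq (d.bw 0 k) 0)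
    (al 50 fun j => al d.L fun k => Nat.ble (d.bw j k) 64))

/-- a weighted sum of the slots of each block -/
noncomputable def slt (j w X : Nat) : Nat :=
  Nat.land (Nat.shiftRight (Nat.mul X w) (Nat.mul 192 (Nat.sub d.L 1))) (pm 192 d.L 0 1 (cl j))

/-- weights for the value at `2` -/
noncomputable def wa : Nat :=
  pk 192 d.L fun k => cnd (Nat.beq (Nat.sub (Nat.sub d.L 1) k) 0) 1 2

/-- weights of even index -/
noncomputable def we : Nat :=
  pk 192 d.L fun k => cnd (Nat.beq (Nat.sub (Nat.sub d.L 1) k) 0) 1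
    (cnd (Nat.beq (Nat.mod (Nat.sub (Nat.sub d.L 1) k) 2) 0) 2 0)

/-- weights of odd index -/
noncomputable def wo : Nat :=
  pk 192 d.L fun k => cnd (Nat.beq (Nat.mod (Nat.sub (Nat.sub d.L 1) k) 2) 0) 0 2

/-- the value of `e` at `2` is the value of `d` at `-2` (both have an even number `L` of slots) -/
noncomputable def jn (e : Dat) (j s : Nat) : Bool :=
  Nat.beq (Nat.add (d.slt j d.wa (e.unp j s)) (d.slt j d.wo (d.unp j s)))
    (Nat.add (d.slt j d.we (d.unp j s))
      (Nat.shiftLeft (Nat.mul (Nat.mul 2 d.L) (ones d.w (cl j))) 64))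

/-- the value at `2` vanishes -/
noncomputable def j0 (j s : Nat) : Bool :=
  Nat.beq (d.slt j d.wa (d.unp j s))
    (Nat.shiftLeft (Nat.mul (Nat.sub (Nat.mul 2 d.L) 1) (ones d.w (cl j))) 64)

end Dat

/-- the global constants: `dg 32 K m / 2 ^ 10` is the slack of receiver `m`; the others are in
units of `2 ^ (-40)` -/
structure Glob where
  K : Nat
  E : Nat
  R : Nat
  R3 : Nat

/-- a segment of the time axis -/
structure Seg where
  p : Nat
  q2 : Nat
  q3 : Nat
  dN : Dat
  dC : Dat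
  F : Nat
  th : Nat
  bud : Nat

/-- number of receiver types of a group -/
noncomputable def nM (g : Nat) : Nat := Nat.sub (m0 (Nat.add g 1)) (m0 g)

/-- number of sender types of a group -/
noncomputable def nS (g : Nat) : Nat := Nat.sub (s0 (Nat.add g 1)) (s0 g)

noncomputable def evn (c : Nat) : Bool := Nat.beq (Nat.mod (sz c) 2) 0

noncomputable def one1 (_ : Nat) : Nat := 1

/-- total mixing weight of a receiver type -/
noncomputable def omg (m : Nat) : Nat := Nat.add ((mixN 0 m).ap one1) ((mixN 1 m).ap one1)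

/-- total mixing weight of a sender type -/
noncomputable def omu (t : Nat) : Nat := Nat.add ((upN 0 t).ap one1) ((upN 1 t).ap one1)

noncomputable def Om (g e : Nat) : Nat :=
  Nat.mul (pk 3840 (nM g) fun i => (mixN e (Nat.add (m0 g) i)).ap one1) (Nat.shiftLeft (ones 192 20) 64)

/-- the terms of degree twenty minus the offsets -/
noncomputable def KB (m r : Nat) : Nat :=
  Nat.sub (Nat.mul (Nat.mul 384 (omg m)) (Nat.add 1 (Nat.shiftLeft 1 7680)))
    (Nat.shiftLeft (ones 192 39) (Nat.sub 308 r))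

noncomputable def K3 : Nat := Nat.shiftLeft (ones 192 87) 190

noncomputable def K1o (g : Nat) : Nat := Nat.mul (ones 8448 (nS g)) (Nat.shiftLeft (ones 192 20) 64)

noncomputable def o3 (g : Nat) : Nat := ones 192 (Nat.mul 44 (nS g))

/-- the scale of the laws inside the products: `384 * 2 ^ (54 + 22 + 3 + 12)` -/
noncomputable def vk (c : Nat) : Nat := Nat.shiftLeft (Nat.mul 384 (vv c)) 91

noncomputable def tb : Nat := Nat.shiftLeft (Nat.mul 402 (ones 192 20)) 64

noncomputable def Oc (g : Nat) : Nat :=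
  Nat.mul (pk 2304 (nS g) fun i => omu (Nat.add (s0 g) i)) (Nat.shiftLeft (ones 192 12) 90)

noncomputable def K4 (g : Nat) : Nat := Nat.shiftLeft (ones 192 (Nat.mul 12 (nS g))) 100

noncomputable def Kc (r : Nat) : Nat := Nat.shiftLeft (ones 192 23) (Nat.add 292 r)

noncomputable def bias : Nat := Nat.add 1 (Nat.shiftLeft 1 4608)

noncomputable def Ke (r : Nat) : Nat := Nat.sub bias (Kc r)

noncomputable def Ko (r : Nat) : Nat := Nat.add bias (Kc r)

noncomputable def K5 : Nat := Nat.shiftLeft (ones 192 71) 190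

noncomputable def o5 (g : Nat) : Nat := ones 192 (Nat.mul 36 (nM g))

/-- `31 * 384 * 2 ^ 117` -/
noncomputable def kc : Nat := Nat.shiftLeft 11904 117

noncomputable def adf (a b : Nat) : Nat := Nat.add (Nat.sub a b) (Nat.sub b a)

/-- the radius for receiver `m`, in units of `2 ^ (-40)` -/
noncomputable def Glob.T (G : Glob) (m : Nat) : Nat :=
  Nat.add (Nat.div (Nat.mul 2048 (Nat.add (Nat.mul 1025 G.E) 1024)) (Nat.mul 1023 (dg 32 G.K m))) 2

/-- the inequalities between the global constants -/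
noncomputable def Glob.ok (G : Glob) : Bool :=
  and (Nat.ble (Nat.add (Nat.mul 31 (Nat.add (Nat.mul 1025 G.E) 1024))
      (Nat.mul 32768 (Nat.add G.R G.R3))) (Nat.mul 32768 G.E))
    (al 118 fun m => and (Nat.ble 1 (dg 32 G.K m)) (Nat.ble (G.T m) (Nat.shiftLeft 1 39)))

namespace Seg

variable (s : Seg)

/-- `2 ^ 12 (1 - q)` -/
noncomputable def Q : Nat :=
  Nat.sub (Nat.add (Nat.add (Nat.mul s.q3 (Nat.add 1 (Nat.shiftLeft 1 1152)))
      (Nat.mul (Nat.sub 1024 s.q3) (Nat.add (Nat.shiftLeft 1 384) (Nat.shiftLeft 1 768))))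
      (Nat.shiftLeft (Nat.add 2048 (Nat.mul 2 s.q2)) 576))
    (Nat.mul s.q2 (Nat.add (Nat.shiftLeft 1 192) (Nat.shiftLeft 1 960)))

noncomputable def Bf (e j m : Nat) : Nat := (mixN e m).ap (s.dN.unp j)

noncomputable def U1 (g c : Nat) : Nat :=
  frc (cj c) fun j => pk 3840 (nM g) fun i => dg 3840 (s.Bf 1 j (Nat.add (m0 g) i)) (ci c)

noncomputable def U0 (g c : Nat) : Nat :=
  cnd (Nat.beq (t0 c) (t1 c)) 0 (pk 3840 (nM g) fun i =>
    Nat.mod (sm (Nat.sub (t1 c) (t0 c)) fun r => frc (Nat.add (t0 c) r) fun j =>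
      s.Bf 0 j (Nat.add (m0 g) i)) (msk 3840))

noncomputable def X0 (g c : Nat) : Nat :=
  Nat.sub (Nat.add (Nat.mul (vv c) (Nat.add (s.U1 g c) (s.U0 g c)))
      (Nat.shiftLeft (ones 192 (Nat.mul 20 (nM g))) 100))
    (Nat.mul (vv c) (Nat.add (Om g 1) (Nat.mul (cn c) (Om g 0))))

noncomputable def X1 (g c : Nat) : Nat := zu (s.X0 g) c

noncomputable def Xr (g c : Nat) : Nat := Nat.shiftLeft (rev5 192 2 (nM g) (s.X1 g c)) 192

noncomputable def Vf (g c m : Nat) : Nat :=
  Nat.add (Nat.add (Nat.shiftLeft (dg 3840 (s.X1 g c) (Nat.sub m (m0 g))) 3840)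
      (Nat.land (Nat.shiftRight (s.Xr g c) (Nat.mul 3840 (Nat.sub m (m0 g))))
        (Nat.shiftLeft (msk 3648) 192)))
    (frc (sz c) (KB m))

noncomputable def Wh (g c t : Nat) : Nat :=
  Nat.add (Nat.shiftLeft ((ra s.p t).ap (s.Vf g c)) 588) (Nat.mul s.Q ((rb s.p t).ap (s.Vf g c)))

noncomputable def Y (g c : Nat) : Nat :=
  cnd (evn c)
    (pk 8448 (nS g) fun i => Nat.shiftRight (Nat.add K3 (s.Wh g c (Nat.add (s0 g) i))) 8256)
    (pk 8448 (nS g) fun i => Nat.shiftRight (Nat.sub K3 (s.Wh g c (Nat.add (s0 g) i))) 8256)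

noncomputable def R (g c : Nat) : Nat := zu (s.Y g) c

noncomputable def Ow (g c : Nat) : Nat :=
  frc (cj c) fun j => pk 8448 (nS g) fun i => dg 3840 (frc (Nat.add (s0 g) i) (s.dN.unp j)) (ci c)

/-- the residual on a class of lists with at least two points -/
noncomputable def Ab (g c : Nat) : Nat :=
  frc (cnd (evn c)
    (Nat.sub (Nat.add (Nat.add (s.R g c) (Nat.shiftLeft (o3 g) 191)) (Nat.mul (vk c) (K1o g)))
      (Nat.add (Nat.mul (vk c) (s.Ow g c)) (Nat.shiftLeft (o3 g) (Nat.sub 206 (sz c)))))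
    (Nat.sub (Nat.add (Nat.add (s.R g c) (Nat.shiftLeft (o3 g) 191)) (Nat.mul (vk c) (s.Ow g c)))
      (Nat.add (Nat.mul (vk c) (K1o g)) (Nat.shiftLeft (o3 g) (Nat.sub 206 (sz c))))))
    (ab (Nat.mul 44 (nS g)))

noncomputable def Pin (g : Nat) : Nat :=
  pk 8448 (nS g) fun i => Nat.shiftRight (Nat.sub (Nat.add K3
    (Nat.shiftLeft ((rt (Nat.add (s0 g) i)).ap (s.Vf g 0)) 588)) (s.Wh g 0 (Nat.add (s0 g) i))) 8256

/-- sixteen times the residual on single points -/
noncomputable def Ab1 (g : Nat) : Nat :=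
  frc (Nat.sub (Nat.add (Nat.add (Nat.add (s.R g 0) (s.Pin g)) (Nat.shiftLeft (o3 g) 209))
      (Nat.add (Nat.mul (Nat.mul 16 (vk 1)) (K1o g)) (Nat.shiftLeft (o3 g) 191)))
    (Nat.add (Nat.add (Nat.mul 16 (s.R g 1)) (Nat.mul (Nat.mul 16 (vk 1)) (s.Ow g 1)))
      (Nat.add (Nat.shiftLeft (o3 g) 206) (Nat.shiftLeft (o3 g) 190))))
    (ab (Nat.mul 44 (nS g)))

/-- the residuals summed over all lists -/
noncomputable def As (g : Nat) : Nat :=
  Nat.add (s.Ab1 g) (sm 399 fun i => frc (Nat.add i 2) fun c =>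
    Nat.mul (Nat.div 384 (vv c)) (s.Ab g c))

/-- the weighted residual of a group is within its budget -/
noncomputable def chkR (g : Nat) : Bool :=
  and (and (al 399 fun i => frk (Nat.add i 2) fun c => sml (Nat.mul 44 (nS g)) (s.Ab g c))
      (sml (Nat.mul 44 (nS g)) (s.Ab1 g)))
    (Nat.ble (sm (nS g) fun i => Nat.mul (dg 32 s.F (Nat.add (s0 g) i))
        (Nat.mod (dg 8448 (s.As g) i) (msk 192)))
      (Nat.shiftLeft (Nat.mul 147456 (dg 32 s.bud g)) 114))

noncomputable def tot (t : Nat) : Nat := sm 50 fun j => Nat.mod (s.dN.unp j t) (msk 3840)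

/-- the total mass of type `t` -/
noncomputable def chkM (t : Nat) : Bool :=
  and (and (Nat.ble tb (s.tot t)) (Nat.ble (Nat.sub (s.tot t) tb) (Nat.shiftLeft 1 60)))
    (and (Nat.ble (Nat.mul (Nat.sub (s.tot t) tb) (massL.getD t (0, 1)).2)
        (Nat.add (Nat.shiftLeft (massL.getD t (0, 1)).1 54) (massL.getD t (0, 1)).2))
      (Nat.ble (Nat.shiftLeft (massL.getD t (0, 1)).1 54)
        (Nat.add (Nat.mul (Nat.sub (s.tot t) tb) (massL.getD t (0, 1)).2) (massL.getD t (0, 1)).2)))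

/-! potentials: twelve slots -/

noncomputable def Ff (e j t : Nat) : Nat := (upN e t).ap (s.dC.unp j)

noncomputable def F1 (g e c : Nat) : Nat :=
  frc (cj c) fun j => pk 2304 (nS g) fun i => dg 2304 (s.Ff e j (Nat.add (s0 g) i)) (ci c)

noncomputable def ff (g c : Nat) : Nat := Nat.add (s.F1 g 1 c) (frc (nc c) (s.F1 g 0))

noncomputable def H0 (g c : Nat) : Nat :=
  cnd (evn c)
    (Nat.sub (Nat.add (K4 g) (Nat.shiftLeft (frc (cnd (Nat.beq c 0) 1 c) (s.ff g)) 26)) (Oc g))
    (Nat.sub (Nat.add (K4 g) (Oc g)) (Nat.shiftLeft (s.ff g c) 26))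

noncomputable def H1 (g c : Nat) : Nat := zd (s.H0 g) c

noncomputable def Hr (g c : Nat) : Nat := Nat.shiftLeft (rev3 192 2 (nS g) (s.H1 g c)) 192

noncomputable def Hs (g c t : Nat) : Nat :=
  Nat.add (Nat.shiftLeft (dg 2304 (s.H1 g c) (Nat.sub t (s0 g))) 2304)
    (Nat.land (Nat.shiftRight (s.Hr g c) (Nat.mul 2304 (Nat.sub t (s0 g))))
      (Nat.shiftLeft (msk 2112) 192))

noncomputable def Hv (g c t : Nat) : Nat :=
  cnd (evn c) (Nat.add (s.Hs g c t) (frc (sz c) Ke)) (Nat.sub (frc (sz c) Ko) (s.Hs g c t))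

noncomputable def Hq (g c t : Nat) : Nat := Nat.mul s.Q (s.Hv g c t)

noncomputable def Ha (g c t : Nat) : Nat := Nat.shiftLeft (s.Hv g c t) 588

noncomputable def Yp (g c : Nat) : Nat :=
  pk 6912 (nM g) fun i => Nat.shiftRight (Nat.add K5
    ((gw s.p (Nat.add (m0 g) i)).ap (s.Vf g c) (s.Hq g c) (s.Ha g c))) 6720

noncomputable def G2 (g c : Nat) : Nat := zd (s.Yp g) c

noncomputable def Co (g c : Nat) : Nat :=
  frc (cj c) fun j => pk 6912 (nM g) fun i => dg 2304 (frc (Nat.add (m0 g) i) (s.dC.unp j)) (ci c)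

/-- the slope of the potential equation, times `2 ^ 20` -/
noncomputable def kk (K m : Nat) : Nat :=
  Nat.add (Nat.add (Nat.mul 1984 (dg 32 K m)) (Nat.mul 2 (dg 32 s.th m))) 16

noncomputable def Kp (K g : Nat) : Nat :=
  pk 6912 (nM g) fun i => Nat.shiftLeft (Nat.mul 384 (s.kk K (Nat.add (m0 g) i))) 112

noncomputable def Th (g : Nat) : Nat :=
  pk 6912 (nM g) fun i => Nat.shiftLeft (Nat.mul 384 (dg 32 s.th (Nat.add (m0 g) i))) 111

/-- the defect of the potential equation on class `c` -/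
noncomputable def Ap (K g c : Nat) : Nat :=
  frc (Nat.sub (Nat.add (Nat.add (Nat.mul kc (s.Co g c)) (Nat.shiftLeft (o5 g) (Nat.add 195 (sz c))))
      (Nat.add (Nat.mul 32 (s.G2 g 1)) (Nat.shiftLeft (o5 g) 191)))
    (Nat.add (Nat.add (Nat.mul 32 (s.G2 g c)) (Nat.mul (Nat.sub (sz c) 1) (s.Kp K g)))
      (Nat.add (Nat.mul kc (s.Co g 1)) (Nat.shiftLeft (o5 g) 196))))
    (ab (Nat.mul 36 (nM g)))

/-- the defect is small -/
noncomputable def chkP (K g c : Nat) : Bool :=
  frk (s.Ap K g c) fun A => and (sml (Nat.mul 36 (nM g)) A)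
    (rng (s.Th g) (Nat.land (Nat.shiftRight (Nat.mul A (ones 192 36)) 6720) (pm 192 36 0 1 (nM g)))
      (Nat.mul (msk 190) (ones 6912 (nM g))))

/-- the oscillation of the potential of sender `s0 g + i` -/
noncomputable def chkF (g i : Nat) : Bool :=
  Nat.ble (sm 12 fun k => Nat.mul (cnd (Nat.beq k 0) 1 2)
      (adf (dg 192 (s.ff g 401) (Nat.add (Nat.mul 12 i) k))
        (dg 192 (s.ff g 1) (Nat.add (Nat.mul 12 i) k))))
    (Nat.shiftLeft (dg 32 s.F (Nat.add (s0 g) i)) 11)

/-- all checks of a group -/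
noncomputable def chk (K g : Nat) : Bool :=
  and (and (s.chkR g) (al (nS g) fun i => frk (Nat.add (s0 g) i) s.chkM))
    (and (al (nS g) (s.chkF g)) (al 400 fun i => frk (Nat.add i 2) (s.chkP K g)))

/-- the checks on the constants of a segment -/
noncomputable def ok (G : Glob) : Bool :=
  and (and (and (s.dN.ok 20) (Nat.ble (Nat.add s.dN.bn 2) (Nat.shiftLeft 1 60)))
      (and (s.dC.ok 12) (al 50 fun j => Nat.ble (s.dC.b1 j) (Nat.shiftLeft 1 30))))
    (and (and (and (and (Nat.ble s.p 2) (Nat.ble s.q2 512)) (and (Nat.ble 1 s.q3) (Nat.ble s.q3 512)))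
        (or (Nat.ble (Nat.mul 4 (Nat.add s.q2 s.q3)) 1024)
          (Nat.ble (Nat.add (Nat.mul s.q2 s.q2) (Nat.mul 12 (Nat.mul s.q3 s.q3))) (Nat.mul 3072 s.q3))))
      (and (and (Nat.ble (sm 8 (dg 32 s.bud)) G.R)
          (Nat.ble (sm 100 fun t => Nat.mul (dg 32 s.F t) ((rt t).ap one1)) (Nat.shiftLeft G.R3 19)))
        (al 118 fun m => Nat.ble ((gw 0 m).ap G.T (dg 32 s.F) (dg 32 s.F))
          (Nat.shiftLeft (Nat.mul 31 (dg 32 G.K m)) 38))))

/-- the junction with the next segment `s'` on chunk `j` -/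
noncomputable def chkJ (s' : Seg) (j : Nat) : Bool :=
  and (or (Nat.beq j 49) (al 100 (s.dN.jn s'.dN j))) (al 118 (s.dC.jn s'.dC j))

noncomputable def St0 (c : Nat) : Nat :=
  frc (cj c) fun j => pk 192 118 fun m => dg 2304 (s.dC.slt j s.dC.wa (s.dC.unp j m)) (ci c)

noncomputable def K0 (K : Nat) : Nat := pk 192 118 (dg 32 K)

/-- the start: laws on the full list, potentials increasing by `dg 32 K m / 2 ^ 10` -/
noncomputable def chk0 (K : Nat) : Bool :=
  and (al 49 fun j => al 100 (s.dN.j0 j))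
    (al 400 fun i => frk (Nat.add i 1) fun c => Nat.beq ((up c).ap fun c' =>
      cnd (rng (s.St0 c') (Nat.add (s.St0 c) (K0 K)) (Nat.mul (msk 101) (ones 192 118))) 0 1) 0)

end Seg

end Pool.Agent.MP_7c51ae_co
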