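import Pool.Agent.MP_7c51ae_co.Base
import Pool.Agent.MP_7c51ae_co.N1Raw
import Pool.Agent.MP_7c51ae_co.NT2Raw

attribute [-instance] Fintype.decidableForallFintype instCoeTCOfCoe AddQuantale.instAddLeftMono
  CompletePartialOrder.toPartialOrder RKHS.instFunLike Finset.decidableDforallFinset
  NumberField.to_charZero AddQuantale.instAddRightMono littleWedderburn
  Multiset.decidableDforallMultiset Vector.instDecidableForallForallMemOfDecidablePred
  instCoeTOfCoeDep Int.decidableLTLE Option.decidableForallMem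
  Array.instDecidableForallForallMemOfDecidablePred IdemSemiring.toCanonicallyOrderedAdd
  LinearOrderedCommMonoidWithZero.toPosMulStrictMono Int.decidableLTLT
  Std.instLawfulBEqOrdOfLawfulOrderOrdOfLawfulOrderBEq Int.decidableLELE
  OmegaCompletePartialOrder.toPartialOrder Int.decidableLELT Quantale.instMulRightMono NeZero.of_gt'
  TestFunctionClass.toDFunLike Group.IsPerfect.subsingleton_of_isMulCommutative
  instCoeHTCOfCoeHeadOfCoeOTC MonTypeEquivalenceMon.monMonoid forall_prop_decidable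
  LieAdmissibleRing.toNonUnitalNonAssocRing ChainCompletePartialOrder.toPartialOrder
  DivisionRing.toRing DivisionSemiring.toSemiring instCoeHTCT ContDiffMapSupportedInClass.toDFunLike
  Invertible.toNeZero IdemSemiring.toSemiring instCoeHTCTOfCoeTailOfCoeHTC

/-!
Integer combinations of Chebyshev polynomials and their norm.
-/

set_option autoImplicit false

namespace Pool.Agent.MP_7c51ae_co

open Finset

noncomputable section

/-- `cc k (t + 1 / t) = t ^ k + 1 / t ^ k` -/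
def cc (k : ℕ) (u : ℝ) : ℝ := (Polynomial.Chebyshev.C ℝ k).eval u

/-- the function with coefficients `a 0, …, a n` -/
def chv (n : ℕ) (a : ℕ → ℤ) (u : ℝ) : ℝ := a 0 + ∑ k ∈ range n, a (k + 1) * cc (k + 1) u

/-- the norm of the coefficients -/
def nrm (n : ℕ) (a : ℕ → ℤ) : ℤ := |a 0| + 2 * ∑ k ∈ range n, |a (k + 1)|

/-- `f` has integer coefficients of norm at most `B` and degree at most `n` -/
def CP (n : ℕ) (B : ℤ) (f : ℝ → ℝ) : Prop := ∃ a : ℕ → ℤ, (∀ u, f u = chv n a u) ∧ nrm n a ≤ B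

theorem n3_cc_zero (u : ℝ) : cc 0 u = 2 := by simp [cc]

theorem n3_cc_one (u : ℝ) : cc 1 u = u := by simp [cc]

theorem n3_cc_mul (j k : ℕ) (u : ℝ) : cc j u * cc k u = cc (j + k) u + cc (Nat.dist j k) u := by
  have e : ((j : ℤ) - k).natAbs = Nat.dist j k := by
    unfold Nat.dist
    omega
  unfold cc
  rw [← Polynomial.eval_mul, Polynomial.Chebyshev.C_mul_C, Polynomial.eval_add, ← e,
    Polynomial.Chebyshev.C_natAbs, Nat.cast_add]

theorem n3_cc_inv {t : ℝ} (ht : t ≠ 0) (k : ℕ) : cc k (t + t⁻¹) = t ^ k + t⁻¹ ^ k := by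
  induction k using Nat.twoStepInduction with
  | zero => rw [n3_cc_zero]; norm_num
  | one => rw [n3_cc_one, pow_one, pow_one]
  | more k h0 h1 =>
    have e := n3_cc_mul (k + 1) 1 (t + t⁻¹)
    have e1 : Nat.dist (k + 1) 1 = k := by
      unfold Nat.dist
      omega
    rw [e1, h0, h1, n3_cc_one] at e
    linear_combination (t ^ k + t⁻¹ ^ k) * mul_inv_cancel₀ ht - e

theorem chv_congr {n : ℕ} {a b : ℕ → ℤ} (h : ∀ k ≤ n, a k = b k) (u : ℝ) :
    chv n a u = chv n b u := by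
  unfold chv
  rw [h 0 (Nat.zero_le n)]
  congr 1
  exact sum_congr rfl fun k hk => by rw [h (k + 1) (mem_range.1 hk)]

theorem chv_add (n : ℕ) (a b : ℕ → ℤ) (u : ℝ) :
    chv n (fun k => a k + b k) u = chv n a u + chv n b u := by
  simp only [chv, Int.cast_add, add_mul, sum_add_distrib]
  ring

theorem chv_sub (n : ℕ) (a b : ℕ → ℤ) (u : ℝ) :
    chv n (fun k => a k - b k) u = chv n a u - chv n b u := by
  simp only [chv, Int.cast_sub, sub_mul, sum_sub_distrib]
  ring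

theorem chv_mul (n : ℕ) (c : ℤ) (a : ℕ → ℤ) (u : ℝ) :
    chv n (fun k => c * a k) u = c * chv n a u := by
  simp only [chv, Int.cast_mul, mul_add, mul_sum, mul_assoc]

theorem chv_sum {ι : Type} (s : Finset ι) (n : ℕ) (a : ι → ℕ → ℤ) (u : ℝ) :
    chv n (fun k => ∑ i ∈ s, a i k) u = ∑ i ∈ s, chv n (a i) u := by
  simp only [chv, Int.cast_sum, sum_mul, sum_add_distrib]
  rw [sum_comm]

theorem chv_pad {n n' : ℕ} (h : n ≤ n') (a : ℕ → ℤ) (u : ℝ) :
    chv n' (fun k => if k ≤ n then a k else 0) u = chv n a u := by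
  unfold chv
  beta_reduce
  rw [if_pos (Nat.zero_le n), ← sum_subset (range_subset_range.2 h)]
  · congr 1
    exact sum_congr rfl fun k hk => by rw [if_pos (show k + 1 ≤ n from mem_range.1 hk)]
  · intro k _ hk
    rw [if_neg (show ¬ k + 1 ≤ n from fun h' => hk (mem_range.2 h')), Int.cast_zero, zero_mul]

theorem chv_single {n j : ℕ} (h1 : 1 ≤ j) (h : j ≤ n) (u : ℝ) :
    chv n (fun k => if k = j then 1 else 0) u = cc j u := by
  obtain ⟨i, rfl⟩ : ∃ i, j = i + 1 := ⟨j - 1, by omega⟩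
  unfold chv
  beta_reduce
  rw [if_neg (by omega), sum_eq_single i]
  · simp
  · intro k _ hk
    rw [if_neg (by omega), Int.cast_zero, zero_mul]
  · intro hi
    exact absurd (mem_range.2 h) hi

theorem chv_const (n : ℕ) (c : ℤ) (u : ℝ) : chv n (fun k => if k = 0 then c else 0) u = c := by
  simp [chv]

theorem abs_cc_le (k : ℕ) {u : ℝ} (h : |u| ≤ 2) : |cc k u| ≤ 2 := by
  have h1 : u = 2 * Real.cos (Real.arccos (u / 2)) := by
    rw [Real.cos_arccos (by linarith [(abs_le.1 h).1]) (by linarith only [(abs_le.1 h).2])]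
    ring
  rw [cc, h1, Polynomial.Chebyshev.C_two_mul_real_cos, abs_mul, abs_two]
  linarith only [Real.abs_cos_le_one (((k : ℤ) : ℝ) * Real.arccos (u / 2))]

theorem abs_chv_le (n : ℕ) (a : ℕ → ℤ) {u : ℝ} (h : |u| ≤ 2) : |chv n a u| ≤ nrm n a := by
  unfold chv nrm
  push_cast
  refine (abs_add_le _ _).trans (add_le_add le_rfl ((abs_sum_le_sum_abs _ _).trans ?_))
  rw [mul_sum]
  refine sum_le_sum fun k _ => ?_
  rw [abs_mul, mul_comm]
  exact mul_le_mul_of_nonneg_right (abs_cc_le _ h) (abs_nonneg _)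

theorem chv_le (n : ℕ) (a : ℕ → ℤ) {u : ℝ} (h : |u| ≤ 2) :
    chv n a u ≤ a 0 + 2 * ∑ k ∈ range n, |(a (k + 1) : ℝ)| := by
  unfold chv
  refine add_le_add le_rfl ?_
  rw [mul_sum]
  refine sum_le_sum fun k _ => (le_abs_self _).trans ?_
  rw [abs_mul, mul_comm]
  exact mul_le_mul_of_nonneg_right (abs_cc_le _ h) (abs_nonneg _)

theorem chv_cont (n : ℕ) (a : ℕ → ℤ) : Continuous (chv n a) := by
  unfold chv cc
  exact continuous_const.add (continuous_finsetSum _ fun k _ =>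
    continuous_const.mul (Polynomial.continuous _))

theorem chv_two (n : ℕ) (a : ℕ → ℤ) : chv n a 2 = a 0 + 2 * ∑ k ∈ range n, (a (k + 1) : ℝ) := by
  unfold chv cc
  rw [mul_sum]
  congr 1
  exact sum_congr rfl fun k _ => by rw [Polynomial.Chebyshev.C_eval_two, mul_comm]

theorem chv_neg_two (n : ℕ) (a : ℕ → ℤ) :
    chv n a (-2) = a 0 + 2 * ∑ k ∈ range n, (-1) ^ (k + 1) * (a (k + 1) : ℝ) := by
  unfold chv cc
  rw [mul_sum]
  congr 1
  refine sum_congr rfl fun k _ => ?_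
  rw [Polynomial.Chebyshev.C_eval_neg_two, Int.cast_negOnePow_natCast]
  ring

theorem chv_kron (n : ℕ) (a : ℕ → ℤ) {t : ℝ} (ht : t ≠ 0) :
    t ^ n * chv n a (t + t⁻¹) = ∑ i ∈ range (2 * n + 1), (a (Nat.dist i n) : ℝ) * t ^ i := by
  induction n with
  | zero => simp [chv]
  | succ n ih =>
    have e1 : chv (n + 1) a (t + t⁻¹) = chv n a (t + t⁻¹) + a (n + 1) * cc (n + 1) (t + t⁻¹) := by
      unfold chv
      rw [sum_range_succ, add_assoc]
    have e2 : Nat.dist (2 * n + 1 + 1) (n + 1) = n + 1 := by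
      unfold Nat.dist
      omega
    have e3 : ∑ i ∈ range (2 * n + 1), (a (Nat.dist (i + 1) (n + 1)) : ℝ) * t ^ (i + 1) =
        t * ∑ i ∈ range (2 * n + 1), (a (Nat.dist i n) : ℝ) * t ^ i := by
      rw [mul_sum]
      refine sum_congr rfl fun i _ => ?_
      rw [Nat.dist_add_add_right]
      ring
    have e4 : t ^ (n + 1) * t⁻¹ ^ (n + 1) = 1 := by rw [← mul_pow, mul_inv_cancel₀ ht, one_pow]
    rw [show 2 * (n + 1) + 1 = 2 * n + 1 + 1 + 1 by ring, sum_range_succ, sum_range_succ', e3, e2,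
      ← ih, e1, n3_cc_inv ht, Nat.dist_zero_left]
    linear_combination (a (n + 1) : ℝ) * e4

theorem chv_uniq {n : ℕ} {a b : ℕ → ℤ} (h : ∀ u, chv n a u = chv n b u) {k : ℕ} (hk : k ≤ n) :
    a k = b k := by
  have key : ∀ c : ℕ → ℤ, (∑ i ∈ range (2 * n + 1),
      Polynomial.monomial i (c (Nat.dist i n) : ℝ)).coeff (n + k) = c k := fun c => by
    rw [Polynomial.finsetSum_coeff, sum_eq_single (n + k)]
    · rw [Polynomial.coeff_monomial, if_pos rfl, Nat.dist_comm, Nat.dist_eq_sub_of_le (by omega),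
        Nat.add_sub_cancel_left]
    · intro i _ hi
      rw [Polynomial.coeff_monomial, if_neg hi]
    · intro hi
      exact absurd (mem_range.2 (by omega)) hi
  have hp : (∑ i ∈ range (2 * n + 1), Polynomial.monomial i (a (Nat.dist i n) : ℝ)) =
      ∑ i ∈ range (2 * n + 1), Polynomial.monomial i (b (Nat.dist i n) : ℝ) := by
    refine Polynomial.eq_of_infinite_eval_eq _ _ ((Set.Ioi_infinite (0 : ℝ)).mono fun t ht => ?_)
    have ht' : t ≠ 0 := ne_of_gt ht
    simp only [Set.mem_ofPred_eq, Polynomial.eval_finsetSum, Polynomial.eval_monomial]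
    rw [← chv_kron n a ht', ← chv_kron n b ht', h]
  have := key a
  rw [hp, key b] at this
  exact_mod_cast this.symm

theorem abs_le_nrm (n : ℕ) (a : ℕ → ℤ) {k : ℕ} (hk : k ≤ n) : |a k| ≤ nrm n a := by
  unfold nrm
  have h0 : 0 ≤ ∑ k ∈ range n, |a (k + 1)| := sum_nonneg fun _ _ => abs_nonneg _
  rcases k with _ | k
  · linarith only [h0]
  · have := single_le_sum (f := fun k => |a (k + 1)|) (fun _ _ => abs_nonneg _)
      (mem_range.2 (show k < n from hk))
    linarith only [abs_nonneg (a 0), h0, this]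

theorem nrm_nonneg (n : ℕ) (a : ℕ → ℤ) : 0 ≤ nrm n a :=
  (abs_nonneg _).trans (abs_le_nrm n a (Nat.zero_le n))

theorem nrm_le {n : ℕ} {a : ℕ → ℤ} {b : ℕ → ℤ} (h : ∀ k ≤ n, |a k| ≤ b k) :
    nrm n a ≤ 2 * ∑ k ∈ range (n + 1), b k := by
  unfold nrm
  rw [sum_range_succ']
  have h0 := h 0 (Nat.zero_le n)
  have h1 : ∑ k ∈ range n, |a (k + 1)| ≤ ∑ k ∈ range n, b (k + 1) :=
    sum_le_sum fun k hk => h (k + 1) (mem_range.1 hk)
  linarith [abs_nonneg (a 0)]


theorem CP.of (n : ℕ) (a : ℕ → ℤ) : CP n (nrm n a) (chv n a) :=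
  ⟨a, fun _ => rfl, le_rfl⟩

theorem CP.congr {n : ℕ} {B : ℤ} {f g : ℝ → ℝ} (h : CP n B f) (hg : ∀ u, g u = f u) :
    CP n B g := by
  obtain ⟨a, ha, hb⟩ := h
  exact ⟨a, fun u => (hg u).trans (ha u), hb⟩

theorem CP.mono {n n' : ℕ} {B B' : ℤ} {f : ℝ → ℝ} (h : CP n B f) (hn : n ≤ n') (hB : B ≤ B') :
    CP n' B' f := by
  obtain ⟨a, ha, hb⟩ := h
  refine ⟨fun k => if k ≤ n then a k else 0, fun u => (ha u).trans (chv_pad hn a u).symm,
    le_trans (le_of_eq ?_) (hb.trans hB)⟩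
  unfold nrm
  beta_reduce
  rw [if_pos (Nat.zero_le n), ← sum_subset (range_subset_range.2 hn)]
  · congr 2
    exact sum_congr rfl fun k hk => by rw [if_pos (show k + 1 ≤ n from mem_range.1 hk)]
  · intro k _ hk
    rw [if_neg (show ¬ k + 1 ≤ n from fun h' => hk (mem_range.2 h')), abs_zero]

theorem CP.nonneg {n : ℕ} {B : ℤ} {f : ℝ → ℝ} (h : CP n B f) : 0 ≤ B := by
  obtain ⟨a, _, hb⟩ := h
  exact (nrm_nonneg n a).trans hb

theorem CP.const (n : ℕ) (c : ℤ) : CP n |c| (fun _ => c) :=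
  ⟨fun k => if k = 0 then c else 0, fun u => (chv_const n c u).symm, by simp [nrm]⟩

theorem CP.zero (n : ℕ) : CP n 0 (fun _ => 0) := by
  simpa using CP.const n 0

theorem CP.add {n : ℕ} {B B' : ℤ} {f g : ℝ → ℝ} (h : CP n B f) (h' : CP n B' g) :
    CP n (B + B') (fun u => f u + g u) := by
  obtain ⟨a, ha, hb⟩ := h
  obtain ⟨a', ha', hb'⟩ := h'
  refine ⟨fun k => a k + a' k, fun u => by rw [chv_add, ← ha, ← ha'], le_trans ?_ (add_le_add hb hb')⟩
  unfold nrm
  have h1 : ∑ k ∈ range n, |a (k + 1) + a' (k + 1)| ≤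
      ∑ k ∈ range n, |a (k + 1)| + ∑ k ∈ range n, |a' (k + 1)| := by
    rw [← sum_add_distrib]
    exact sum_le_sum fun k _ => abs_add_le _ _
  linarith [abs_add_le (a 0) (a' 0)]

theorem CP.sub {n : ℕ} {B B' : ℤ} {f g : ℝ → ℝ} (h : CP n B f) (h' : CP n B' g) :
    CP n (B + B') (fun u => f u - g u) := by
  obtain ⟨a, ha, hb⟩ := h
  obtain ⟨a', ha', hb'⟩ := h'
  refine ⟨fun k => a k - a' k, fun u => by rw [chv_sub, ← ha, ← ha'], le_trans ?_ (add_le_add hb hb')⟩
  unfold nrm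
  have h1 : ∑ k ∈ range n, |a (k + 1) - a' (k + 1)| ≤
      ∑ k ∈ range n, |a (k + 1)| + ∑ k ∈ range n, |a' (k + 1)| := by
    rw [← sum_add_distrib]
    exact sum_le_sum fun k _ => abs_sub _ _
  linarith [abs_sub (a 0) (a' 0)]

theorem CP.smul {n : ℕ} {B : ℤ} {f : ℝ → ℝ} (c : ℤ) (h : CP n B f) :
    CP n (|c| * B) (fun u => c * f u) := by
  obtain ⟨a, ha, hb⟩ := h
  refine ⟨fun k => c * a k, fun u => by rw [chv_mul, ← ha],
    le_trans (le_of_eq ?_) (mul_le_mul_of_nonneg_left hb (abs_nonneg c))⟩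
  unfold nrm
  simp only [abs_mul, ← mul_sum]
  ring

theorem CP.sum {ι : Type} (s : Finset ι) {n : ℕ} {B : ι → ℤ} {f : ι → ℝ → ℝ}
    (h : ∀ i ∈ s, CP n (B i) (f i)) : CP n (∑ i ∈ s, B i) (fun u => ∑ i ∈ s, f i u) := by
  classical
  induction s using Finset.induction_on with
  | empty => simpa using CP.zero n
  | insert i s hi ih =>
    simp only [sum_insert hi]
    exact (h i (mem_insert_self i s)).add (ih fun j hj => h j (mem_insert_of_mem hj))

theorem CP.ite {n : ℕ} {B : ℤ} {f : ℝ → ℝ} (p : Prop) [Decidable p] (h : CP n B f) :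
    CP n (if p then B else 0) (fun u => if p then f u else 0) := by
  by_cases hp : p
  · simpa only [if_pos hp] using h
  · simpa only [if_neg hp] using CP.zero n

theorem n3_cp_cc {n j : ℕ} (h : j ≤ n) : CP n 2 (cc j) := by
  rcases Nat.eq_zero_or_pos j with rfl | h1
  · exact ((CP.const n 2).congr fun u => by rw [n3_cc_zero]; norm_num).mono le_rfl (by norm_num)
  · refine ⟨fun k => if k = j then 1 else 0, fun u => (chv_single h1 h u).symm, le_of_eq ?_⟩
    obtain ⟨i, rfl⟩ : ∃ i, j = i + 1 := ⟨j - 1, by omega⟩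
    unfold nrm
    beta_reduce
    rw [if_neg (by omega), sum_eq_single i]
    · simp
    · intro k _ hk
      rw [if_neg (by omega), abs_zero]
    · intro hi
      exact absurd (mem_range.2 h) hi

theorem n3_cp_cc_mul {n m j : ℕ} {B : ℤ} {g : ℝ → ℝ} (h : CP n B g) (hm : j + n ≤ m) :
    CP m (2 * B) (fun u => cc j u * g u) := by
  obtain ⟨b, hb, hB⟩ := h
  have h0 := (n3_cp_cc (n := m) (j := j) (by omega)).smul (b 0)
  have h1 := CP.sum (range n) (n := m) (B := fun k => |b (k + 1)| * (2 + 2))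
    (f := fun k u => b (k + 1) * (cc (j + (k + 1)) u + cc (Nat.dist j (k + 1)) u)) fun k hk => by
      have := mem_range.1 hk
      exact ((n3_cp_cc (by omega)).add (n3_cp_cc (by unfold Nat.dist; omega))).smul _
  refine ((h0.add h1).congr fun u => ?_).mono le_rfl
    (le_trans (le_of_eq ?_) (mul_le_mul_of_nonneg_left hB (by norm_num)))
  · rw [hb, chv, mul_add, mul_sum, mul_comm]
    congr 1
    exact sum_congr rfl fun k _ => by rw [← n3_cc_mul]; ring
  · rw [nrm, ← sum_mul]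
    ring

theorem CP.mul {n n' : ℕ} {B B' : ℤ} {f g : ℝ → ℝ} (h : CP n B f) (h' : CP n' B' g) :
    CP (n + n') (B * B') (fun u => f u * g u) := by
  obtain ⟨a, ha, hb⟩ := h
  have h0 := (h'.mono (Nat.le_add_left n' n) le_rfl).smul (a 0)
  have h1 := CP.sum (range n) (n := n + n') (B := fun k => |a (k + 1)| * (2 * B'))
    (f := fun k u => a (k + 1) * (cc (k + 1) u * g u)) fun k hk =>
      (n3_cp_cc_mul h' (Nat.add_le_add_right (show k + 1 ≤ n from mem_range.1 hk) n')).smul _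
  refine ((h0.add h1).congr fun u => ?_).mono le_rfl
    (le_trans (le_of_eq ?_) (mul_le_mul_of_nonneg_right hb h'.nonneg))
  · rw [ha, chv, add_mul, sum_mul]
    simp only [mul_assoc]
  · rw [nrm, ← sum_mul]
    ring

theorem CP.coef {n : ℕ} {B : ℤ} {f : ℝ → ℝ} (h : CP n B f) {a : ℕ → ℤ}
    (ha : ∀ u, f u = chv n a u) : nrm n a ≤ B := by
  obtain ⟨b, hb, hB⟩ := h
  have e : ∀ k ≤ n, a k = b k := fun k hk => chv_uniq (fun u => (ha u).symm.trans (hb u)) hk
  refine le_trans (le_of_eq ?_) hB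
  unfold nrm
  rw [e 0 (Nat.zero_le n)]
  congr 2
  exact sum_congr rfl fun k hk => by rw [e (k + 1) (mem_range.1 hk)]

theorem CP.abs_le {n : ℕ} {B : ℤ} {f : ℝ → ℝ} (h : CP n B f) {u : ℝ} (hu : |u| ≤ 2) :
    |f u| ≤ B := by
  obtain ⟨a, ha, hb⟩ := h
  rw [ha]
  exact (abs_chv_le n a hu).trans (by exact_mod_cast hb)


end

end Pool.Agent.MP_7c51ae_co

/-!
Digits.
-/

set_option autoImplicit false

namespace Pool.Agent.MP_7c51ae_co

open Finset

noncomputable section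

/-- the number with digits `d i`, `i < n`, in base `2 ^ b` -/
def ds (b n : ℕ) (d : ℕ → ℕ) : ℕ := ∑ i ∈ range n, d i * 2 ^ (b * i)

/-- the same with integer digits -/
def dz (b n : ℕ) (d : ℕ → ℤ) : ℤ := ∑ i ∈ range n, d i * 2 ^ (b * i)

theorem sm_eq (n : ℕ) (f : ℕ → ℕ) : sm n f = ∑ i ∈ range n, f i := by
  induction n with
  | zero => rfl
  | succ n ih => rw [sum_range_succ, ← ih]; rfl

theorem al_iff (n : ℕ) (f : ℕ → Bool) : al n f = true ↔ ∀ i < n, f i = true := by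
  induction n with
  | zero => exact ⟨fun _ i hi => absurd hi (Nat.not_lt_zero i), fun _ => rfl⟩
  | succ n ih =>
    have e : al (n + 1) f = (f n && al n f) := by
      show @Bool.rec (fun _ => Bool) false (al n f) (f n) = _
      cases f n <;> rfl
    rw [e, Bool.and_eq_true, ih, Nat.forall_lt_succ_right, and_comm]

theorem frc_eq (e : ℕ) (f : ℕ → ℕ) : frc e f = f e := rfl

theorem cnd_eq (b : Bool) (a c : ℕ) : cnd b a c = if b = true then a else c := by cases b <;> rfl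

theorem msk_eq (b : ℕ) : msk b = 2 ^ b - 1 := by
  show 1 <<< b - 1 = _
  rw [Nat.one_shiftLeft]

theorem dg_eq (b X i : ℕ) : dg b X i = X / 2 ^ (b * i) % 2 ^ b := by
  show (X >>> (b * i)) &&& msk b = _
  rw [msk_eq, Nat.and_two_pow_sub_one_eq_mod, Nat.shiftRight_eq_div_pow]

theorem dg_lt (b X i : ℕ) : dg b X i < 2 ^ b := by
  rw [dg_eq]
  exact Nat.mod_lt _ (Nat.two_pow_pos b)

theorem n4_succ (b n : ℕ) (d : ℕ → ℕ) : ds b (n + 1) d = ds b n d + d n * 2 ^ (b * n) :=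
  sum_range_succ _ _

theorem n4_add (b m k : ℕ) (d : ℕ → ℕ) :
    ds b (m + k) d = ds b m d + 2 ^ (b * m) * ds b k fun i => d (m + i) := by
  unfold ds
  rw [sum_range_add, mul_sum]
  exact congrArg _ (sum_congr rfl fun i _ => by ring)

theorem n4_cons (b n : ℕ) (d : ℕ → ℕ) :
    ds b (n + 1) d = 2 ^ b * ds b n (fun i => d (i + 1)) + d 0 := by
  unfold ds
  rw [sum_range_succ', mul_sum]
  exact congrArg₂ _ (sum_congr rfl fun i _ => by ring) (by simp)

theorem n4_zcons (b n : ℕ) (d : ℕ → ℤ) :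
    dz b (n + 1) d = 2 ^ b * dz b n (fun i => d (i + 1)) + d 0 := by
  unfold dz
  rw [sum_range_succ', mul_sum]
  exact congrArg₂ _ (sum_congr rfl fun i _ => by ring) (by simp)

theorem pk_eq (b n : ℕ) (f : ℕ → ℕ) : pk b n f = ds b n f := by
  induction n with
  | zero => rfl
  | succ n ih =>
    rw [n4_succ, ← ih, ← Nat.shiftLeft_eq]
    rfl

theorem ones_eq {b : ℕ} (hb : 0 < b) (n : ℕ) : ones b n = ds b n fun _ => 1 := by
  show msk (b * n) / msk b = _
  rw [msk_eq, msk_eq, pow_mul, ← Nat.geomSum_eq (Nat.one_lt_two_pow hb.ne')]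
  exact sum_congr rfl fun i _ => by rw [one_mul, pow_mul]

theorem ds_cast (b n : ℕ) (d : ℕ → ℕ) : (ds b n d : ℤ) = dz b n fun i => d i := by
  unfold ds dz
  push_cast
  rfl

theorem ds_congr {b n : ℕ} {d d' : ℕ → ℕ} (h : ∀ i < n, d i = d' i) : ds b n d = ds b n d' :=
  sum_congr rfl fun i hi => by rw [h i (mem_range.1 hi)]

theorem dz_congr {b n : ℕ} {d d' : ℕ → ℤ} (h : ∀ i < n, d i = d' i) : dz b n d = dz b n d' :=
  sum_congr rfl fun i hi => by rw [h i (mem_range.1 hi)]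

theorem ds_lt {b n : ℕ} {d : ℕ → ℕ} (h : ∀ i < n, d i < 2 ^ b) : ds b n d < 2 ^ (b * n) := by
  induction n with
  | zero => exact Nat.two_pow_pos _
  | succ n ih =>
    have h1 := ih fun i hi => h i (hi.trans n.lt_succ_self)
    have h2 := Nat.mul_le_mul_right (2 ^ (b * n)) (Nat.succ_le_of_lt (h n n.lt_succ_self))
    rw [n4_succ, mul_add_one, pow_add, mul_comm (2 ^ (b * n))]
    rw [Nat.succ_mul] at h2
    omega

theorem n4_div {b m k : ℕ} {d : ℕ → ℕ} (h : ∀ i < m + k, d i < 2 ^ b) :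
    ds b (m + k) d / 2 ^ (b * m) = ds b k fun i => d (m + i) := by
  rw [n4_add, Nat.add_mul_div_left _ _ (Nat.two_pow_pos _),
    Nat.div_eq_of_lt (ds_lt fun i hi => h i (by omega)), zero_add]

theorem dg_ds {b n : ℕ} {d : ℕ → ℕ} (h : ∀ i < n, d i < 2 ^ b) {i : ℕ} (hi : i < n) :
    dg b (ds b n d) i = d i := by
  obtain ⟨k, rfl⟩ : ∃ k, n = i + (k + 1) := ⟨n - i - 1, by omega⟩
  rw [dg_eq, n4_div h, n4_cons, Nat.mul_add_mod, Nat.mod_eq_of_lt (h _ (by omega)), add_zero]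

theorem n4_blk {R : Type} [CommSemiring R] (x : R) {L : ℕ} (hL : 0 < L) (n : ℕ) (d : ℕ → ℕ → R) :
    ∑ i ∈ range n, (∑ k ∈ range L, d i k * x ^ k) * (x ^ L) ^ i =
      ∑ j ∈ range (L * n), d (j / L) (j % L) * x ^ j := by
  induction n with
  | zero => rfl
  | succ n ih =>
    rw [sum_range_succ, ih, mul_add_one, sum_range_add, sum_mul]
    refine congrArg _ (sum_congr rfl fun k hk => ?_)
    rw [Nat.mul_add_div hL, Nat.div_eq_of_lt (mem_range.1 hk), Nat.mul_add_mod,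
      Nat.mod_eq_of_lt (mem_range.1 hk), add_zero]
    ring

/-- blocks of `L` digits -/
theorem ds_ds (b : ℕ) {L : ℕ} (hL : 0 < L) (n : ℕ) (d : ℕ → ℕ → ℕ) :
    ds (b * L) n (fun i => ds b L (d i)) = ds b (L * n) fun j => d (j / L) (j % L) := by
  simp only [ds, mul_assoc, pow_mul]
  exact n4_blk (2 ^ b) hL n d

theorem dz_dz (b : ℕ) {L : ℕ} (hL : 0 < L) (n : ℕ) (d : ℕ → ℕ → ℤ) :
    dz (b * L) n (fun i => dz b L (d i)) = dz b (L * n) fun j => d (j / L) (j % L) := by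
  simp only [dz, mul_assoc, pow_mul]
  exact n4_blk (2 ^ b) hL n d

theorem ds_pad (b : ℕ) {n n' : ℕ} (h : n ≤ n') (d : ℕ → ℕ) :
    ds b n' (fun i => if i < n then d i else 0) = ds b n d := by
  refine (sum_subset (range_mono h) fun i _ hi => ?_).symm.trans
    (sum_congr rfl fun i hi => ?_)
  · simp only [if_neg (mt mem_range.2 hi), zero_mul]
  · simp only [if_pos (mem_range.1 hi)]

theorem n4_land {W a c : ℕ} (x y : ℕ) (ha : a < 2 ^ W) (hc : c < 2 ^ W) :
    (2 ^ W * x + a) &&& (2 ^ W * y + c) = 2 ^ W * (x &&& y) + (a &&& c) := by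
  refine Nat.eq_of_testBit_eq fun j => ?_
  rw [Nat.testBit_and, Nat.testBit_two_pow_mul_add _ ha, Nat.testBit_two_pow_mul_add _ hc,
    Nat.testBit_two_pow_mul_add _ (Nat.and_lt_two_pow a hc)]
  split_ifs <;> rw [Nat.testBit_and]

theorem land_mask (W n X : ℕ) {w : ℕ → ℕ} (hw : ∀ i < n, w i ≤ W) :
    Nat.land X (ds W n fun i => 2 ^ w i - 1) = ds W n fun i => X / 2 ^ (W * i) % 2 ^ w i := by
  induction n generalizing X w with
  | zero => exact Nat.and_zero X
  | succ n ih =>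
    have h0 := hw 0 n.succ_pos
    have h1 : 2 ^ w 0 - 1 < 2 ^ W :=
      (Nat.sub_lt (Nat.two_pow_pos _) one_pos).trans_le (Nat.pow_le_pow_right two_pos h0)
    have h2 := ih (X / 2 ^ W) (w := fun i => w (i + 1)) fun i hi => hw _ (by omega)
    rw [n4_cons, n4_cons]
    refine (congrArg (fun y => y &&& _) (Nat.div_add_mod X (2 ^ W)).symm).trans ?_
    refine (n4_land _ _ (Nat.mod_lt _ (Nat.two_pow_pos W)) h1).trans ?_
    rw [Nat.and_two_pow_sub_one_eq_mod, Nat.mod_mod_of_dvd _ (pow_dvd_pow 2 h0), mul_zero,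
      pow_zero, Nat.div_one]
    refine congrArg (fun y => 2 ^ W * y + _) (h2.trans (ds_congr fun i _ => ?_))
    rw [Nat.div_div_eq_div_mul, ← pow_add, mul_add_one, add_comm]

theorem mod_sum {b n : ℕ} {d : ℕ → ℕ} (h : ∑ i ∈ range n, d i < 2 ^ b - 1) :
    Nat.mod (ds b n d) (msk b) = ∑ i ∈ range n, d i := by
  have h1 : 2 ^ b ≡ 1 [MOD 2 ^ b - 1] :=
    ((Nat.modEq_iff_dvd' Nat.one_le_two_pow).2 dvd_rfl).symm
  have h2 : ∀ m, ds b m d ≡ ∑ i ∈ range m, d i [MOD 2 ^ b - 1] := fun m => by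
    induction m with
    | zero => rfl
    | succ m ih =>
      rw [n4_succ, sum_range_succ, pow_mul]
      have h3 := (h1.pow m).mul_left (d m)
      rw [one_pow, mul_one] at h3
      exact ih.add h3
  show ds b n d % msk b = _
  rw [msk_eq]
  exact Eq.trans (h2 n) (Nat.mod_eq_of_lt h)

theorem shr_ds {b n : ℕ} {d : ℕ → ℕ} (h : ∀ i < n, d i < 2 ^ b) {m : ℕ} (hm : m ≤ n) :
    Nat.shiftRight (ds b n d) (b * m) = ds b (n - m) fun i => d (m + i) := by
  obtain ⟨k, rfl⟩ := Nat.exists_eq_add_of_le hm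
  show ds b (m + k) d >>> (b * m) = _
  rw [Nat.shiftRight_eq_div_pow, n4_div h, Nat.add_sub_cancel_left]

theorem land_ds {b n : ℕ} {d : ℕ → ℕ} (h : ∀ i < n, d i < 2 ^ b) {m : ℕ} (hm : m ≤ n) :
    Nat.land (ds b n d) (msk (b * m)) = ds b m d := by
  obtain ⟨k, rfl⟩ := Nat.exists_eq_add_of_le hm
  show ds b (m + k) d &&& msk (b * m) = _
  rw [msk_eq, Nat.and_two_pow_sub_one_eq_mod, n4_add, Nat.add_mul_mod_self_left,
    Nat.mod_eq_of_lt (ds_lt fun i hi => h i (by omega))]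

theorem dz_eq_zero {b n : ℕ} {d : ℕ → ℤ} (h : ∀ i < n, |d i| < 2 ^ b) (h0 : dz b n d = 0) :
    ∀ i < n, d i = 0 := by
  induction n generalizing d with
  | zero => exact fun i hi => absurd hi (Nat.not_lt_zero i)
  | succ n ih =>
    rw [n4_zcons] at h0
    have h1 : d 0 = 0 := Int.eq_zero_of_abs_lt_dvd
      ((dvd_add_right (dvd_mul_right _ _)).1 (h0 ▸ dvd_zero _)) (h 0 n.succ_pos)
    rw [h1, add_zero] at h0
    have h2 := ih (d := fun i => d (i + 1)) (fun i hi => h _ (by omega))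
      ((mul_eq_zero.1 h0).resolve_left (by positivity))
    rintro (_ | i) hi
    exacts [h1, h2 i (by omega)]

theorem n4_abs {b n : ℕ} {d : ℕ → ℤ} (h : ∀ i < n, |d i| < 2 ^ b) : |dz b n d| < 2 ^ (b * n) := by
  induction n with
  | zero => simp [dz]
  | succ n ih =>
    have h1 := ih fun i hi => h i (hi.trans n.lt_succ_self)
    have h2 := mul_le_mul_of_nonneg_right (Int.add_one_le_of_lt (h n n.lt_succ_self))
      (by positivity : (0 : ℤ) ≤ 2 ^ (b * n))
    have h3 : dz b (n + 1) d = dz b n d + d n * 2 ^ (b * n) := sum_range_succ _ _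
    have h4 := abs_add_le (dz b n d) (d n * 2 ^ (b * n))
    rw [abs_mul, abs_of_pos (by positivity : (0 : ℤ) < 2 ^ (b * n))] at h4
    rw [h3, mul_add_one, pow_add]
    linarith

theorem dz_nonneg {b n : ℕ} {d : ℕ → ℤ} (h : ∀ i < n, |d i| < 2 ^ b) (h1 : 1 ≤ d n) :
    0 ≤ dz b (n + 1) d := by
  have h2 := (abs_lt.1 (n4_abs h)).1
  have h3 := mul_le_mul_of_nonneg_right h1 (by positivity : (0 : ℤ) ≤ 2 ^ (b * n))
  have h4 : dz b (n + 1) d = dz b n d + d n * 2 ^ (b * n) := sum_range_succ _ _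
  linarith

/-- a number with integer digits in the right range -/
theorem ds_of_dz {b n X : ℕ} {d : ℕ → ℤ} (h0 : ∀ i < n, 0 ≤ d i) (hX : (X : ℤ) = dz b n d) :
    X = ds b n fun i => (d i).toNat := by
  refine Int.natCast_inj.1 ?_
  rw [hX, ds_cast]
  exact dz_congr fun i hi => (Int.toNat_of_nonneg (h0 i hi)).symm

/-- the range test -/
theorem rng_sound {W n a b : ℕ} {w : ℕ → ℕ} {r : ℕ → ℤ} (hw : ∀ i < n, w i + 2 ≤ W)
    (hr : ∀ i < n, |r i| ≤ 2 ^ (W - 1))
    (h : (a : ℤ) - b = dz W n fun i => r i + 2 ^ w i)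
    (ht : rng a b (ds W n fun i => 2 ^ (w i + 1) - 1) = true) : ∀ i < n, |r i| ≤ 2 ^ w i := by
  have h1 : b ≤ a ∧ Nat.land (a - b) (ds W n fun i => 2 ^ (w i + 1) - 1) = a - b := by
    unfold rng at ht
    cases hb : Nat.ble b a
    · rw [hb] at ht
      exact absurd ht Bool.false_ne_true
    · rw [hb] at ht
      exact ⟨Nat.le_of_ble_eq_true hb, Nat.eq_of_beq_eq_true ht⟩
  rw [land_mask W n (a - b) (w := fun i => w i + 1) fun i hi => by have := hw i hi; omega] at h1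
  obtain ⟨e, he, h2⟩ : ∃ e : ℕ → ℕ, (∀ i, e i < 2 ^ (w i + 1)) ∧ ds W n e = a - b :=
    ⟨_, fun i => Nat.mod_lt _ (Nat.two_pow_pos _), h1.2⟩
  have h3 : ∀ i, (e i : ℤ) < 2 * 2 ^ w i := fun i => by
    have := he i
    rw [pow_succ'] at this
    exact_mod_cast this
  have h4 : dz W n (fun i => r i + 2 ^ w i - e i) = 0 := by
    have h5 := ds_cast W n e
    rw [h2, Nat.cast_sub h1.1, h] at h5
    simp only [dz, sub_mul, sum_sub_distrib] at h5 ⊢
    exact sub_eq_zero.2 h5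
  intro i hi
  have h6 := dz_eq_zero (fun i hi => by
    obtain ⟨k, hk⟩ : ∃ k, W = k + 2 := ⟨W - 2, by have := hw i hi; omega⟩
    have h7 : (2 : ℤ) ^ w i ≤ 2 ^ k := pow_le_pow_right₀ one_le_two (by have := hw i hi; omega)
    have h8 := abs_le.1 (hr i hi)
    have h9 := h3 i
    have h10 : (0 : ℤ) < 2 ^ w i := by positivity
    have h11 : (0 : ℤ) ≤ e i := Int.natCast_nonneg _
    rw [hk, show k + 2 - 1 = k + 1 from rfl, pow_succ] at h8
    rw [hk, pow_succ, pow_succ, abs_lt]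
    constructor <;> linarith only [h8.1, h8.2, h7, h9, h10]) h4 i hi
  have h9 := h3 i
  have h11 : (0 : ℤ) ≤ e i := Int.natCast_nonneg _
  rw [abs_le]
  constructor <;> linarith only [h6, h9]

end

end Pool.Agent.MP_7c51ae_co

/-!
Masks, reversal of blocks of digits, one slot of a product.
-/

set_option autoImplicit false

namespace Pool.Agent.MP_7c51ae_co

open Finset

noncomputable section

theorem n4b_shl (a j : ℕ) : Nat.shiftLeft a j = a * 2 ^ j := Nat.shiftLeft_eq a j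

theorem n4b_shr (a j : ℕ) : Nat.shiftRight a j = a / 2 ^ j := Nat.shiftRight_eq_div_pow a j

theorem n4b_geom (W l : ℕ) : ds W l (fun _ => 2 ^ W - 1) + 1 = 2 ^ (W * l) := by
  obtain ⟨t, ht⟩ : ∃ t, 2 ^ W = t + 1 := ⟨2 ^ W - 1, (Nat.sub_add_cancel Nat.one_le_two_pow).symm⟩
  induction l with
  | zero => simp [ds]
  | succ l ih =>
    unfold ds at ih ⊢
    rw [sum_range_succ, Nat.mul_succ, pow_add, ← ih, ht, Nat.add_sub_cancel]
    ring

theorem n4b_add (W n : ℕ) (f g : ℕ → ℕ) : ds W n f + ds W n g = ds W n fun i => f i + g i := by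
  simp only [ds, add_mul, sum_add_distrib]

theorem n4b_mul (W n : ℕ) (f : ℕ → ℕ) (c : ℕ) : ds W n f * c = ds W n fun i => f i * c := by
  simp only [ds, sum_mul]
  exact sum_congr rfl fun i _ => by ring

theorem n4b_shift (W : ℕ) {p s : ℕ} (hs : s ≤ p) {f : ℕ → ℕ} (h : ∀ r < p, p ≤ r + s → f r = 0) :
    ds W p f * 2 ^ (W * s) = ds W p fun r => if s ≤ r then f (r - s) else 0 := by
  obtain ⟨m, rfl⟩ := Nat.exists_eq_add_of_le hs
  unfold ds
  have e1 : ∑ i ∈ range (s + m), f i * 2 ^ (W * i) = ∑ i ∈ range m, f i * 2 ^ (W * i) := by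
    rw [Nat.add_comm s m, sum_range_add, sum_eq_zero (s := range s), add_zero]
    intro i hi
    rw [h (m + i) (by have := mem_range.1 hi; omega) (by omega), zero_mul]
  rw [e1, sum_range_add, sum_eq_zero (s := range s), zero_add, sum_mul]
  · refine sum_congr rfl fun i _ => ?_
    simp only [if_pos (Nat.le_add_right s i), Nat.add_sub_cancel_left]
    rw [Nat.mul_add, pow_add]
    ring
  · intro i hi
    simp only [if_neg (not_le.2 (mem_range.1 hi)), zero_mul]

theorem pm_eq {W p a l : ℕ} (hW : 0 < W) (h : a + l ≤ p) (hp : 0 < p) (n : ℕ) :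
    pm W p a l n = ds W (p * n) fun i => 2 ^ (if a ≤ i % p ∧ i % p < a + l then W else 0) - 1 := by
  have e1 : msk (W * l) = ds W p fun i => if i < l then 2 ^ W - 1 else 0 := by
    rw [msk_eq, ← n4b_geom, Nat.add_sub_cancel, ds_pad W (by omega : l ≤ p)]
  have e2 : Nat.shiftLeft (msk (W * l)) (W * a) =
      ds W p fun r => 2 ^ (if a ≤ r ∧ r < a + l then W else 0) - 1 := by
    rw [n4b_shl, e1, n4b_shift W (by omega : a ≤ p) fun r _ hr => if_neg (by omega)]
    refine ds_congr fun r _ => ?_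
    by_cases h1 : a ≤ r
    · by_cases h2 : r < a + l
      · rw [if_pos h1, if_pos (by omega), if_pos ⟨h1, h2⟩]
      · rw [if_pos h1, if_neg (by omega), if_neg fun h => h2 h.2]
        rfl
    · rw [if_neg h1, if_neg fun h => h1 h.1]
      rfl
  show Nat.shiftLeft (msk (W * l)) (W * a) * ones (W * p) n = _
  rw [e2, ones_eq (Nat.mul_pos hW hp), Nat.mul_comm, n4b_mul,
    ← ds_ds W hp n fun _ r => 2 ^ (if a ≤ r ∧ r < a + l then W else 0) - 1]
  exact ds_congr fun i _ => Nat.one_mul _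

/-- `n` blocks of `p` digits -/
def n4b_bs (W p n : ℕ) (f : ℕ → ℕ → ℕ) : ℕ := ds (W * p) n fun q => ds W p (f q)

theorem n4b_bs_congr {W p n : ℕ} {f g : ℕ → ℕ → ℕ} (h : ∀ q < n, ∀ r < p, f q r = g q r) :
    n4b_bs W p n f = n4b_bs W p n g :=
  ds_congr fun q hq => ds_congr (h q hq)

theorem n4b_bs_eq (W : ℕ) {p : ℕ} (hp : 0 < p) (n : ℕ) (d : ℕ → ℕ) :
    ds W (p * n) d = n4b_bs W p n fun q r => d (p * q + r) := by
  rw [n4b_bs, ds_ds W hp]
  exact ds_congr fun i _ => by rw [Nat.div_add_mod]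

theorem n4b_bs_add (W p n : ℕ) (f g : ℕ → ℕ → ℕ) :
    n4b_bs W p n f + n4b_bs W p n g = n4b_bs W p n fun q r => f q r + g q r := by
  simp only [n4b_bs, n4b_add]

theorem n4b_bs_shl (W : ℕ) {p s : ℕ} (n : ℕ) (hs : s ≤ p) {f : ℕ → ℕ → ℕ}
    (h : ∀ q r, r < p → p ≤ r + s → f q r = 0) :
    Nat.shiftLeft (n4b_bs W p n f) (W * s) =
      n4b_bs W p n fun q r => if s ≤ r then f q (r - s) else 0 := by
  rw [n4b_shl, n4b_bs, n4b_mul]
  exact ds_congr fun q _ => n4b_shift W hs (h q)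

theorem n4b_bs_shr (W : ℕ) {p s : ℕ} (n : ℕ) (hs : s ≤ p) {f : ℕ → ℕ → ℕ}
    (h : ∀ q r, r < s → f q r = 0) :
    Nat.shiftRight (n4b_bs W p n f) (W * s) =
      n4b_bs W p n fun q r => if r + s < p then f q (r + s) else 0 := by
  have e := n4b_bs_shl W n hs (f := fun q r => if r + s < p then f q (r + s) else 0)
    fun q r _ hr => if_neg (by omega)
  have e2 : (n4b_bs W p n fun q r =>
      if s ≤ r then (if r - s + s < p then f q (r - s + s) else 0) else 0) = n4b_bs W p n f := by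
    refine n4b_bs_congr fun q _ r hr => ?_
    by_cases h1 : s ≤ r
    · rw [if_pos h1, Nat.sub_add_cancel h1, if_pos hr]
    · rw [if_neg h1, h q r (by omega)]
  rw [n4b_shr, ← e2, ← e, n4b_shl, Nat.mul_div_cancel _ (Nat.two_pow_pos _)]

theorem n4b_land {W p a l N : ℕ} (hW : 0 < W) (h : a + l ≤ p) (hp : 0 < p) {n : ℕ}
    (hN : p * n ≤ N) {d : ℕ → ℕ} (hd : ∀ i < N, d i < 2 ^ W) :
    Nat.land (ds W N d) (pm W p a l n) =
      n4b_bs W p n fun q r => if a ≤ r ∧ r < a + l then d (p * q + r) else 0 := by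
  rw [pm_eq hW h hp, land_mask W (p * n) _ fun i _ => by split_ifs <;> omega, n4b_bs, ds_ds W hp]
  refine ds_congr fun i hi => ?_
  by_cases hc : a ≤ i % p ∧ i % p < a + l
  · simp only [if_pos hc]
    rw [← dg_eq, dg_ds hd (by omega), Nat.div_add_mod]
  · simp only [if_neg hc, pow_zero, Nat.mod_one]

theorem n4b_sw3 {W p a l s a' : ℕ} (hW : 0 < W) (ha : a' = a + s) (hl : l ≤ s) (h : a' + l ≤ p)
    (hp : 0 < p) (n : ℕ) {d : ℕ → ℕ} (hd : ∀ i < p * n, d i < 2 ^ W) :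
    sw3 (pm W p a l n) (pm W p a' l n) (W * s) (ds W (p * n) d) =
      n4b_bs W p n fun q r => d (p * q + (if a ≤ r ∧ r < a + l then r + s
        else if a' ≤ r ∧ r < a' + l then r - s else r)) := by
  have e : ds W (p * n) d = (n4b_bs W p n fun q r =>
      if (a ≤ r ∧ r < a + l) ∨ (a' ≤ r ∧ r < a' + l) then 0 else d (p * q + r)) +
      (n4b_bs W p n fun q r => if a' ≤ r ∧ r < a' + l then d (p * q + r) else 0) +
      n4b_bs W p n fun q r => if a ≤ r ∧ r < a + l then d (p * q + r) else 0 := by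
    rw [n4b_bs_add, n4b_bs_add, n4b_bs_eq W hp]
    refine n4b_bs_congr fun q _ r _ => ?_
    split_ifs <;> omega
  show ds W (p * n) d - Nat.land _ _ - Nat.land _ _ +
    (Nat.shiftLeft (Nat.land _ _) _ + Nat.shiftRight (Nat.land _ _) _) = _
  rw [n4b_land hW (by omega) hp le_rfl hd, n4b_land hW h hp le_rfl hd,
    n4b_bs_shl W n (by omega) fun q r _ hr => if_neg (by omega),
    n4b_bs_shr W n (by omega) fun q r hr => if_neg (by omega), e, Nat.add_sub_cancel,
    Nat.add_sub_cancel, n4b_bs_add, n4b_bs_add]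
  refine n4b_bs_congr fun q _ r hr => ?_
  split_ifs <;> omega

theorem n4b_sw {W m : ℕ} (hW : 0 < W) (hm : 0 < m) (n : ℕ) {d : ℕ → ℕ}
    (hd : ∀ i < 2 * m * n, d i < 2 ^ W) :
    sw (pm W (2 * m) 0 m n) (W * m) (ds W (2 * m * n) d) =
      n4b_bs W (2 * m) n fun q r => d (2 * m * q + (if r < m then r + m else r - m)) := by
  have hp : 0 < 2 * m := by omega
  have e : ds W (2 * m * n) d = (n4b_bs W (2 * m) n fun q r =>
      if 0 ≤ r ∧ r < 0 + m then 0 else d (2 * m * q + r)) +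
      n4b_bs W (2 * m) n fun q r => if 0 ≤ r ∧ r < 0 + m then d (2 * m * q + r) else 0 := by
    rw [n4b_bs_add, n4b_bs_eq W hp]
    refine n4b_bs_congr fun q _ r _ => ?_
    split_ifs <;> omega
  show Nat.shiftLeft (Nat.land _ _) _ + Nat.shiftRight (ds W (2 * m * n) d - Nat.land _ _) _ = _
  rw [n4b_land hW (by omega) hp le_rfl hd,
    n4b_bs_shl W n (by omega) fun q r _ hr => if_neg (by omega), e, Nat.add_sub_cancel,
    n4b_bs_shr W n (by omega) fun q r hr => if_pos (by omega), n4b_bs_add]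
  refine n4b_bs_congr fun q _ r hr => ?_
  split_ifs <;> omega

/-- reversal of blocks of `m` digits -/
def n4b_R (m : ℕ) (d : ℕ → ℕ) (i : ℕ) : ℕ := d (m * (i / m) + (m - 1 - i % m))

theorem n4b_R_eq {m : ℕ} (d : ℕ → ℕ) (q : ℕ) {r : ℕ} (hr : r < m) :
    n4b_R m d (m * q + r) = d (m * q + (m - 1 - r)) := by
  have hm : 0 < m := by omega
  rw [n4b_R, Nat.mul_add_div hm, Nat.div_eq_of_lt hr, Nat.add_zero, Nat.mul_add_mod,
    Nat.mod_eq_of_lt hr]

theorem n4b_R_lt {W m n : ℕ} (hm : 0 < m) {d : ℕ → ℕ} (hd : ∀ i < m * n, d i < 2 ^ W) :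
    ∀ i < m * n, n4b_R m d i < 2 ^ W := by
  intro i hi
  refine hd _ ?_
  have h1 : i / m + 1 ≤ n := Nat.div_lt_of_lt_mul hi
  have h2 := Nat.mul_le_mul_left m h1
  rw [Nat.mul_add] at h2
  omega

theorem n4b_step {W m : ℕ} (hW : 0 < W) (hm : 0 < m) (n : ℕ) {d : ℕ → ℕ}
    (hd : ∀ i < 2 * m * n, d i < 2 ^ W) :
    sw (pm W (2 * m) 0 m n) (W * m) (ds W (2 * m * n) (n4b_R m d)) =
      ds W (2 * m * n) (n4b_R (2 * m) d) := by
  have e : 2 * m * n = m * (2 * n) := by ring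
  rw [n4b_sw hW hm n (by rw [e] at hd ⊢; exact n4b_R_lt hm hd), n4b_bs_eq W (by omega : 0 < 2 * m)]
  refine n4b_bs_congr fun q _ r hr => ?_
  rw [n4b_R_eq d q hr]
  have e1 : m * (2 * q + 1) = 2 * m * q + m := by ring
  have e2 : m * (2 * q) = 2 * m * q := by ring
  by_cases h : r < m
  · rw [if_pos h, show 2 * m * q + (r + m) = m * (2 * q + 1) + r by omega, n4b_R_eq d _ h]
    congr 1
    omega
  · rw [if_neg h, ← e2, n4b_R_eq d _ (by omega : r - m < m)]
    congr 1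
    omega

theorem n4b_rec {W b c r n : ℕ} (hW : 0 < W) (hb : 0 < b) (hc : c = 2 * b) {d : ℕ → ℕ}
    (hd : ∀ i < b * 2 ^ r * n, d i < 2 ^ W) {X : ℕ}
    (h0 : X = ds W (b * 2 ^ r * n) (n4b_R b d)) : ∀ j ≤ r,
    @Nat.rec (fun _ => ℕ) X (fun j ih => sw (pm W (Nat.shiftLeft c j) 0 (Nat.shiftLeft b j)
      (Nat.shiftLeft n (Nat.sub (Nat.sub r 1) j))) (Nat.mul W (Nat.shiftLeft b j)) ih) j =
      ds W (b * 2 ^ r * n) (n4b_R (b * 2 ^ j) d) := by
  intro j
  induction j with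
  | zero =>
    intro _
    rw [pow_zero 2, Nat.mul_one]
    exact h0
  | succ j ih =>
    intro hj
    obtain ⟨k, rfl⟩ : ∃ k, r = j + 1 + k := Nat.exists_eq_add_of_le hj
    have e1 : b * 2 ^ (j + 1 + k) * n = 2 * (b * 2 ^ j) * (n * 2 ^ k) := by ring
    have e2 : Nat.sub (Nat.sub (j + 1 + k) 1) j = k := by
      show j + 1 + k - 1 - j = k
      omega
    show sw _ (W * Nat.shiftLeft b j) _ = _
    rw [ih (by omega), e2, n4b_shl, n4b_shl, n4b_shl, hc, e1,
      show 2 * b * 2 ^ j = 2 * (b * 2 ^ j) by ring, show b * 2 ^ (j + 1) = 2 * (b * 2 ^ j) by ring]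
    exact n4b_step hW (Nat.mul_pos hb (Nat.two_pow_pos j)) _ (e1 ▸ hd)

theorem rev1_eq {W : ℕ} (hW : 0 < W) (r n : ℕ) {d : ℕ → ℕ} (h : ∀ i < 2 ^ r * n, d i < 2 ^ W) :
    rev1 W r n (ds W (2 ^ r * n) d) =
      ds W (2 ^ r * n) fun i => d (2 ^ r * (i / 2 ^ r) + (2 ^ r - 1 - i % 2 ^ r)) := by
  have := n4b_rec (b := 1) (c := 2) (r := r) (n := n) hW Nat.one_pos rfl (d := d)
    (by rwa [Nat.one_mul]) (X := ds W (2 ^ r * n) d)
    (by rw [Nat.one_mul]; exact ds_congr fun i _ => by simp [n4b_R]) r le_rfl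
  rw [Nat.one_mul] at this
  exact this

theorem rev3_eq {W : ℕ} (hW : 0 < W) (r n : ℕ) {d : ℕ → ℕ}
    (h : ∀ i < 3 * 2 ^ r * n, d i < 2 ^ W) :
    rev3 W r n (ds W (3 * 2 ^ r * n) d) = ds W (3 * 2 ^ r * n) fun i =>
      d (3 * 2 ^ r * (i / (3 * 2 ^ r)) + (3 * 2 ^ r - 1 - i % (3 * 2 ^ r))) := by
  refine n4b_rec (b := 3) (c := 6) hW (by omega) rfl h ?_ r le_rfl
  have e : 3 * 2 ^ r * n = 3 * (n * 2 ^ r) := by ring
  rw [e] at h ⊢
  rw [n4b_shl]
  refine (n4b_sw3 (a := 0) (s := 2) hW rfl (by omega) (by omega) (by omega) _ h).trans ?_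
  rw [n4b_bs_eq W (by omega : 0 < 3)]
  refine n4b_bs_congr fun q _ t ht => ?_
  rw [n4b_R_eq d q ht]
  congr 1
  split_ifs <;> omega

theorem rev5_eq {W : ℕ} (hW : 0 < W) (r n : ℕ) {d : ℕ → ℕ}
    (h : ∀ i < 5 * 2 ^ r * n, d i < 2 ^ W) :
    rev5 W r n (ds W (5 * 2 ^ r * n) d) = ds W (5 * 2 ^ r * n) fun i =>
      d (5 * 2 ^ r * (i / (5 * 2 ^ r)) + (5 * 2 ^ r - 1 - i % (5 * 2 ^ r))) := by
  refine n4b_rec (b := 5) (c := 10) hW (by omega) rfl h ?_ r le_rfl
  have e : 5 * 2 ^ r * n = 5 * (n * 2 ^ r) := by ring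
  rw [e] at h ⊢
  rw [n4b_shl]
  have e1 : sw3 (pm W 5 1 1 (n * 2 ^ r)) (pm W 5 3 1 (n * 2 ^ r)) (Nat.mul W 2)
      (ds W (5 * (n * 2 ^ r)) d) = ds W (5 * (n * 2 ^ r)) fun i =>
        d (if i % 5 = 1 then i + 2 else if i % 5 = 3 then i - 2 else i) := by
    refine (n4b_sw3 (a := 1) (s := 2) hW rfl (by omega) (by omega) (by omega) _ h).trans ?_
    rw [n4b_bs_eq W (by omega : 0 < 5)]
    refine n4b_bs_congr fun q _ t ht => ?_
    congr 1
    split_ifs <;> omega
  rw [e1]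
  refine (n4b_sw3 (a := 0) (s := 4) hW rfl (by omega) (by omega) (by omega) _
    fun i hi => h _ (by split_ifs <;> omega)).trans ?_
  rw [n4b_bs_eq W (by omega : 0 < 5)]
  refine n4b_bs_congr fun q _ t ht => ?_
  rw [n4b_R_eq d q ht]
  congr 1
  split_ifs <;> omega

theorem n4b_prod (W N L : ℕ) (d v : ℕ → ℕ) :
    ds W N d * ds W L v = ds W (N + L) fun t =>
      ∑ k ∈ range L, v k * if k ≤ t then (if t - k < N then d (t - k) else 0) else 0 := by
  have e : ∀ k ∈ range L, ds W N d * (v k * 2 ^ (W * k)) = ∑ t ∈ range (N + L),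
      (v k * if k ≤ t then (if t - k < N then d (t - k) else 0) else 0) * 2 ^ (W * t) := by
    intro k hk
    have hk' := mem_range.1 hk
    rw [mul_left_comm, ← ds_pad W (Nat.le_add_right N L),
      n4b_shift W (by omega : k ≤ N + L) fun r _ hr => if_neg (by omega), ds, mul_sum]
    exact sum_congr rfl fun t _ => (mul_assoc _ _ _).symm
  rw [show ds W L v = ∑ k ∈ range L, v k * 2 ^ (W * k) from rfl, mul_sum, sum_congr rfl e, sum_comm]
  exact sum_congr rfl fun t _ => (sum_mul _ _ _).symm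

/-- one slot of a product -/
theorem slot_mul {W L n : ℕ} (hL : 0 < L) {d w : ℕ → ℕ} {D B : ℕ} (hd : ∀ j < L * n, d j ≤ D)
    (hw : ∑ k ∈ range L, w k ≤ B) (hB : D * B < 2 ^ W) :
    Nat.land (Nat.shiftRight (ds W (L * n) d * ds W L fun k => w (L - 1 - k)) (W * (L - 1)))
        (pm W L 0 1 n) =
      ds (W * L) n fun i => ∑ k ∈ range L, w k * d (L * i + k) := by
  have hb : ∀ t, (∑ k ∈ range L, w (L - 1 - k) *
      if k ≤ t then (if t - k < L * n then d (t - k) else 0) else 0) < 2 ^ W := by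
    intro t
    refine lt_of_le_of_lt ?_ hB
    calc _ ≤ ∑ k ∈ range L, w (L - 1 - k) * D := by
          refine sum_le_sum fun k _ => Nat.mul_le_mul_left _ ?_
          split_ifs with h1 h2
          exacts [hd _ h2, Nat.zero_le _, Nat.zero_le _]
      _ = D * ∑ k ∈ range L, w k := by rw [← sum_mul, sum_range_reflect w L, Nat.mul_comm]
      _ ≤ D * B := Nat.mul_le_mul_left _ hw
  have hv : ∀ q < n, (∑ k ∈ range L, w (L - 1 - k) *
      if k ≤ L - 1 + L * q then (if L - 1 + L * q - k < L * n then d (L - 1 + L * q - k) else 0)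
        else 0) = ∑ k ∈ range L, w k * d (L * q + k) := by
    intro q hq
    rw [← sum_range_reflect (fun k => w k * d (L * q + k)) L]
    refine sum_congr rfl fun k hk => ?_
    have hk' := mem_range.1 hk
    have h2 := Nat.mul_le_mul_left L (show q + 1 ≤ n from hq)
    rw [Nat.mul_add] at h2
    rw [if_pos (by omega), if_pos (by omega), show L - 1 + L * q - k = L * q + (L - 1 - k) by omega]
  rw [n4b_prod]
  rcases Nat.eq_zero_or_pos W with rfl | hW
  · have z : ∀ N (f : ℕ → ℕ), (∀ i < N, f i = 0) → ds 0 N f = 0 := fun N f hf =>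
      sum_eq_zero fun i hi => by rw [hf i (mem_range.1 hi), zero_mul]
    rw [z _ _ fun t _ => Nat.lt_one_iff.1 (hb t), Nat.zero_mul, Nat.zero_mul,
      z _ _ fun q hq => (hv q hq).symm.trans (Nat.lt_one_iff.1 (hb _))]
    exact Nat.zero_and _
  rw [shr_ds (fun t _ => hb t) (by omega : L - 1 ≤ L * n + L),
    n4b_land hW (by omega) hL (by omega) fun t _ => hb _]
  refine ds_congr fun q hq => ?_
  rw [← hv q hq, ds, sum_eq_single_of_mem 0 (mem_range.2 hL)]
  · simp only [Std.le_refl, zero_add, Order.lt_one_iff, and_self, ↓ reduceIte, add_zero, mul_ite, mul_zero, pow_zero, mul_one]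
  · intro r _ hr
    exact mul_eq_zero_of_left (if_neg (by omega)) _

end

end Pool.Agent.MP_7c51ae_co

/-!
The class of a list.
-/

set_option autoImplicit false

namespace Pool.Agent.MP_7c51ae_co

open Finset

noncomputable section

namespace N1

theorem n1_sm (n : ℕ) (f : ℕ → ℕ) : sm n f = ∑ i ∈ range n, f i := by
  induction n with
  | zero => rfl
  | succ n ih => rw [sum_range_succ, ← ih]; rfl

theorem n1_al {n : ℕ} {f : ℕ → Bool} (h : al n f = true) : ∀ i < n, f i = true := by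
  induction n with
  | zero => intro i hi; omega
  | succ n ih =>
    have h' : @Bool.rec (fun _ => Bool) false (al n f) (f n) = true := h
    intro i hi
    cases hf : f n
    · rw [hf] at h'; exact absurd h' (by simp)
    · rw [hf] at h'
      rcases Nat.lt_succ_iff_lt_or_eq.1 hi with h1 | rfl
      · exact ih h' i h1
      · exact hf

theorem n1_an (a b : Bool) : an a b = true ↔ a = true ∧ b = true := by
  cases a <;> simp [an]

theorem n1_frb (e : ℕ) (f : ℕ → Bool) : frb e f = f e := rfl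
theorem n1_frc (e : ℕ) (f : ℕ → ℕ) : frc e f = f e := rfl

theorem n1_cnd (x y a c : ℕ) : cnd (Nat.beq x y) a c = if x = y then a else c := by
  by_cases h : x = y
  · rw [if_pos h, Nat.beq_eq.mpr h]; rfl
  · rw [if_neg h, (Bool.not_eq_true _).mp (fun h' => h (Nat.beq_eq.mp h'))]; rfl

theorem n1_shl (a b : ℕ) : Nat.shiftLeft a b = a * 2 ^ b := Nat.shiftLeft_eq a b

theorem n1_dg (b X i : ℕ) : dg b X i < 2 ^ b := by
  have h : 0 < 2 ^ b := by positivity
  have : dg b X i ≤ 1 * 2 ^ b - 1 := by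
    rw [← n1_shl]
    exact Nat.and_le_right
  omega

theorem bt_le (m y : ℕ) : bt m y ≤ 1 := Nat.and_le_right

theorem n1_pk (b n : ℕ) (f : ℕ → ℕ) : pk b n f = ∑ i ∈ range n, f i * 2 ^ (b * i) := by
  induction n with
  | zero => rfl
  | succ n ih => rw [sum_range_succ, ← ih, ← n1_shl]; rfl

theorem n1_lt {b n : ℕ} {d : ℕ → ℕ} (h : ∀ i < n, d i < 2 ^ b) :
    ∑ i ∈ range n, d i * 2 ^ (b * i) < 2 ^ (b * n) := by
  induction n with
  | zero => simp
  | succ n ih =>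
    have h1 := ih fun i hi => h i (by omega)
    have h2 : (d n + 1) * 2 ^ (b * n) ≤ 2 ^ b * 2 ^ (b * n) :=
      Nat.mul_le_mul_right _ (h n (by omega))
    rw [sum_range_succ, mul_add, mul_one, pow_add]
    linarith only [h1, h2]

theorem n1_tb {b n : ℕ} {d : ℕ → ℕ} (h : ∀ i < n, d i < 2 ^ b) {i j : ℕ} (hi : i < n)
    (hj : j < b) : (∑ i ∈ range n, d i * 2 ^ (b * i)).testBit (b * i + j) = (d i).testBit j := by
  induction n with
  | zero => omega
  | succ n ih =>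
    have h0 : ∀ i < n, d i < 2 ^ b := fun i hi => h i (by omega)
    rw [sum_range_succ, add_comm, mul_comm (d n), Nat.testBit_two_pow_mul_add _ (n1_lt h0)]
    rcases Nat.lt_succ_iff_lt_or_eq.1 hi with h1 | rfl
    · rw [if_pos (by nlinarith), ih h0 h1]
    · rw [if_neg (by omega), Nat.add_sub_cancel_left]

theorem n1_uq {b n : ℕ} {d e : ℕ → ℕ} (h : ∀ i < n, d i < 2 ^ b) (h' : ∀ i < n, e i < 2 ^ b)
    (he : ∑ i ∈ range n, d i * 2 ^ (b * i) = ∑ i ∈ range n, e i * 2 ^ (b * i)) {i : ℕ}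
    (hi : i < n) : d i = e i := by
  refine Nat.eq_of_testBit_eq fun j => ?_
  by_cases hj : j < b
  · rw [← n1_tb h hi hj, he, n1_tb h' hi hj]
  · have : 2 ^ b ≤ 2 ^ j := Nat.pow_le_pow_right (by norm_num) (by omega)
    rw [Nat.testBit_lt_two_pow ((h i hi).trans_le this),
      Nat.testBit_lt_two_pow ((h' i hi).trans_le this)]

/-- linear forms -/
def Lin (f : (ℕ → ℕ) → ℕ) : Prop := ∃ a : ℕ → ℕ, ∀ X, f X = ∑ i ∈ range 512, a i * X i

theorem Lin.zero : Lin fun _ => 0 := ⟨fun _ => 0, fun X => by simp⟩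

theorem Lin.var {i : ℕ} (h : i < 512) : Lin fun X => X i :=
  ⟨fun k => if k = i then 1 else 0, fun X => by simp [h]⟩

theorem Lin.add {f g : (ℕ → ℕ) → ℕ} (hf : Lin f) (hg : Lin g) : Lin fun X => f X + g X := by
  obtain ⟨a, ha⟩ := hf
  obtain ⟨b, hb⟩ := hg
  exact ⟨fun i => a i + b i, fun X => by simp only [ha, hb, add_mul, sum_add_distrib]⟩

theorem Lin.mul (k : ℕ) {f : (ℕ → ℕ) → ℕ} (hf : Lin f) : Lin fun X => k * f X := by
  obtain ⟨a, ha⟩ := hf
  exact ⟨fun i => k * a i, fun X => by simp only [ha, mul_sum, mul_assoc]⟩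

theorem Lin.sum (n : ℕ) {f : ℕ → (ℕ → ℕ) → ℕ} (hf : ∀ i < n, Lin (f i)) :
    Lin fun X => ∑ i ∈ range n, f i X := by
  induction n with
  | zero => exact Lin.zero
  | succ n ih =>
    simp only [sum_range_succ]
    exact (ih fun i hi => hf i (by omega)).add (hf n (by omega))

theorem Lin.ext {f g : (ℕ → ℕ) → ℕ} (hf : Lin f) (hg : Lin g) (h1 : f (fun _ => 1) ≤ 16)
    (h2 : g (fun _ => 1) ≤ 16) (h : f hs = g hs) (X : ℕ → ℕ) : f X = g X := by
  obtain ⟨a, ha⟩ := hf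
  obtain ⟨b, hb⟩ := hg
  have k : ∀ a : ℕ → ℕ, ∑ i ∈ range 512, a i * 1 ≤ 16 → ∀ i < 512, a i < 2 ^ 5 := fun a ha i hi => by
    have := single_le_sum (f := fun i => a i * 1) (fun _ _ => Nat.zero_le _) (mem_range.2 hi)
    omega
  rw [ha] at h1
  rw [hb] at h2
  have e : ∀ i, hs i = 2 ^ (5 * i) := fun i => (n1_shl 1 _).trans (one_mul _)
  rw [ha, hb] at h ⊢
  simp only [e] at h
  exact sum_congr rfl fun i hi => by rw [n1_uq (k a h1) (k b h2) h (mem_range.1 hi)]

theorem n1_511 (s : ℕ) : Nat.land s 511 < 512 := Nat.lt_succ_of_le Nat.and_le_right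

theorem lin_grp (n s : ℕ) : Lin fun X => grp X n s := by
  induction n generalizing s with
  | zero => exact Lin.var (n1_511 s)
  | succ n ih => exact (Lin.var (n1_511 s)).add (ih _)

theorem lin_trm (k n s : ℕ) : Lin fun X => trm X k n s := by
  unfold trm
  cases Nat.beq k 1
  · exact (lin_grp n s).mul k
  · exact Lin.var (n1_511 s)

theorem lin_row (l s : ℕ) : Lin fun X => row X l s := by
  induction l generalizing s with
  | zero => exact Lin.zero
  | succ l ih =>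
    have k : ∀ (k n t : ℕ) (b : Bool), Lin fun X =>
        @Bool.rec (fun _ => ℕ) (Nat.add (trm X k n s) (row X l t)) (trm X k n s) b := by
      intro k n t b
      cases b
      · exact (lin_trm k n s).add (ih t)
      · exact lin_trm k n s
    exact k _ _ _ _

theorem n1_lst {n : ℕ} {f g : ℕ → Bx} (h : lst n f = lst n g) : ∀ i < n, f i = g i := by
  induction n with
  | zero => intro i hi; omega
  | succ n ih =>
    have h' : f n :: lst n f = g n :: lst n g := h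
    intro i hi
    rcases Nat.lt_succ_iff_lt_or_eq.1 hi with h1 | rfl
    · exact ih (List.cons.inj h').2 i h1
    · exact (List.cons.inj h').1

theorem lin_up {c : ℕ} (h : c < 402) : Lin (up c).ap := by
  rw [n1_lst up_raw c h]
  exact lin_row _ _

theorem lin_dn {c : ℕ} (h : c < 402) : Lin (dn c).ap := by
  rw [n1_lst dn_raw c h]
  exact lin_row _ _

theorem pj_lt (j y : ℕ) : pj j y < 2 ^ 4 := n1_dg _ _ _

theorem gt_eq (g y : ℕ) : gt g y = pj (g / 16) y ^^^ g % 16 := rfl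

/-- the symmetry number `g` as a map of the cube -/
def ga (g : ℕ) (y : Fin 16) : Fin 16 :=
  ⟨gt g y, Nat.xor_lt_two_pow (n := 4) (pj_lt _ _) (Nat.mod_lt _ (by norm_num))⟩

theorem pj_all {j : ℕ} (hj : j < 24) : pi2 j < 24 ∧ ∀ y < 16, pj (pi2 j) (pj j y) = y ∧
    (∀ z < 16, pj j (y ^^^ z) = pj j y ^^^ pj j z) ∧
      ∀ i < 24, pm2 j i < 24 ∧ pj (pm2 j i) y = pj j (pj i y) := by
  have h := n1_al k6_ok j hj
  simp only [k6, n1_an, Nat.ble_eq] at h
  refine ⟨by omega, fun y hy => ?_⟩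
  have h1 := n1_al h.2 y hy
  simp only [n1_an, Nat.beq_eq] at h1
  refine ⟨h1.1, fun z hz => Nat.beq_eq.mp (n1_al h1.2.1 z hz), fun i hi => ?_⟩
  have h2 := n1_al h1.2.2 i hi
  simp only [n1_an, Nat.beq_eq, Nat.ble_eq] at h2
  exact ⟨by omega, h2.2⟩

theorem ga_comp {g h : ℕ} (hg : g < 384) (hh : h < 384) :
    ∃ k < 384, ∀ y, ga k y = ga g (ga h y) := by
  have a := (pj_all (j := g / 16) (by omega)).2
  have h1 : gt g (h % 16) < 16 := (ga g ⟨h % 16, by omega⟩).2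
  have h2 := ((a 0 (by omega)).2.2 (h / 16) (by omega)).1
  refine ⟨16 * pm2 (g / 16) (h / 16) + gt g (h % 16), by omega, fun y => Fin.ext ?_⟩
  change gt _ y = gt g (gt h y)
  rw [gt_eq _ y, gt_eq g (gt h y), gt_eq h y, (a _ (pj_lt _ _)).2.1 _ (by omega),
    ← ((a y y.2).2.2 (h / 16) (by omega)).2, Nat.xor_assoc, ← gt_eq g (h % 16),
    show (16 * pm2 (g / 16) (h / 16) + gt g (h % 16)) / 16 = pm2 (g / 16) (h / 16) by omega,
    show (16 * pm2 (g / 16) (h / 16) + gt g (h % 16)) % 16 = gt g (h % 16) by omega]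

theorem ga_inv {g : ℕ} (hg : g < 384) : ∃ k < 384, ∀ y, ga k (ga g y) = y := by
  obtain ⟨a, b⟩ := pj_all (j := g / 16) (by omega)
  have h1 : pj (pi2 (g / 16)) (g % 16) < 16 := pj_lt _ _
  refine ⟨16 * pi2 (g / 16) + pj (pi2 (g / 16)) (g % 16), by omega, fun y => Fin.ext ?_⟩
  change gt _ (gt g y) = y
  rw [gt_eq, gt_eq g, show (16 * pi2 (g / 16) + pj (pi2 (g / 16)) (g % 16)) / 16 = pi2 (g / 16) by omega,
    show (16 * pi2 (g / 16) + pj (pi2 (g / 16)) (g % 16)) % 16 = pj (pi2 (g / 16)) (g % 16) by omega,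
    ((pj_all a).2 _ (pj_lt _ _)).2.1 _ (by omega), (b y y.2).1, Nat.xor_assoc, Nat.xor_self,
    Nat.xor_zero]

theorem ga_inj {g : ℕ} (hg : g < 384) : Function.Injective (ga g) := by
  obtain ⟨k, -, h⟩ := ga_inv hg
  exact Function.LeftInverse.injective h

theorem ga_bij {g : ℕ} (hg : g < 384) : Function.Bijective (ga g) :=
  Finite.injective_iff_bijective.1 (ga_inj hg)

theorem ga_tr : ∀ t y : Fin 16, ga t y = xr t y := by decide +kernel

theorem ga_rel {g : ℕ} (hg : g < 384) (x y : Fin 16) :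
    rel false (ga g x) (ga g y) = rel false x y := by
  have k : ∀ j < 24, ∀ z < 16, decide (pj j z ^^^ 15 ∈ [0, 1, 2, 4, 8]) =
      decide (z ^^^ 15 ∈ [0, 1, 2, 4, 8]) := by decide +kernel
  have e : (ga g x).val ^^^ (ga g y).val = pj (g / 16) (x.val ^^^ y.val) := by
    change gt g x ^^^ gt g y = _
    rw [gt_eq, gt_eq, ((pj_all (j := g / 16) (by omega)).2 x x.2).2.1 y y.2, Nat.xor_comm (pj _ y),
      Nat.xor_assoc, ← Nat.xor_assoc (g % 16), Nat.xor_self, Nat.zero_xor]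
  unfold rel
  rw [e]
  exact k _ (by omega) _ (xr x y).2

/-- the image of a list -/
def act (g : ℕ) (A : St) : St := A.image (ga g)

/-- the list of a mask -/
def lm (m : ℕ) : St := univ.filter fun y => bt m y.val = 1

/-- the mask of a list -/
def ml (A : St) : ℕ := ∑ y ∈ A, 2 ^ y.val

theorem ml_inj : Function.Injective ml := fun A B h => by
  refine map_injective Fin.valEmbedding (geomSum_injective (n := 2) le_rfl ?_)
  simpa [ml] using h

theorem ml_lt (A : St) : ml A < 65536 := by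
  have : ml A ≤ ml univ := sum_le_sum_of_subset (subset_univ _)
  have e : ml univ = 65535 := by decide +kernel
  omega

theorem mem_lm (m : ℕ) (y : Fin 16) : y ∈ lm m ↔ bt m y = 1 := by simp [lm]

theorem mk_eq {g : ℕ} (hg : g < 384) (m : ℕ) : mk g m = ml (act g (lm m)) := by
  rw [mk, n1_sm, ml, act, sum_image fun x _ y _ h => ga_inj hg h, lm, sum_filter, sum_range]
  refine sum_congr rfl fun y _ => ?_
  have := bt_le m y
  rw [n1_shl]
  split_ifs with h
  · rw [h, one_mul]; rfl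
  · rw [show bt m y = 0 by omega, zero_mul]

theorem act_tr (t : Fin 16) (A : St) : act t A = tr t A := by
  unfold act tr
  rw [funext (ga_tr t)]

theorem act_zero (A : St) : act 0 A = A := by
  refine (act_tr 0 A).trans ?_
  ext y
  rw [mem_tr, show xr 0 y = y from Fin.ext (Nat.zero_xor _)]

theorem mem_act {g : ℕ} (hg : g < 384) (A : St) (y : Fin 16) : ga g y ∈ act g A ↔ y ∈ A :=
  (ga_inj hg).mem_finset_image

theorem T_act {g : ℕ} (hg : g < 384) (A : St) : T false (act g A) = act g (T false A) := by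
  ext x
  obtain ⟨x, rfl⟩ := (ga_bij hg).2 x
  rw [mem_act hg, mem_T, mem_T]
  constructor
  · rintro ⟨y, hy, hr⟩
    obtain ⟨y, rfl⟩ := (ga_bij hg).2 y
    exact ⟨y, (mem_act hg A y).1 hy, by rwa [ga_rel hg] at hr⟩
  · rintro ⟨y, hy, hr⟩
    exact ⟨_, (mem_act hg A y).2 hy, by rwa [ga_rel hg]⟩

/-- lists in the same orbit -/
def Orb (A B : St) : Prop := ∃ g < 384, act g A = B

theorem Orb.refl (A : St) : Orb A A := ⟨0, by norm_num, act_zero A⟩

theorem Orb.symm {A B : St} (h : Orb A B) : Orb B A := by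
  obtain ⟨g, hg, rfl⟩ := h
  obtain ⟨k, hk, h⟩ := ga_inv hg
  refine ⟨k, hk, ?_⟩
  rw [act, act, image_image, show ga k ∘ ga g = id from funext h, image_id]

theorem Orb.trans {A B C : St} (h : Orb A B) (h' : Orb B C) : Orb A C := by
  obtain ⟨g, hg, rfl⟩ := h
  obtain ⟨g', hg', rfl⟩ := h'
  obtain ⟨k, hk, h⟩ := ga_comp hg' hg
  refine ⟨k, hk, ?_⟩
  rw [act, act, act, image_image, show ga k = ga g' ∘ ga g from funext h]

theorem k3_all {c : ℕ} (h : c < 402) : nc c < 402 ∧ Orb (lm (rep (nc c))) (T false (lm (rep c))) ∧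
    ml (lm (rep c)) = rep c ∧ sz c = (lm (rep c)).card := by
  have h1 := n1_al k3_ok c h
  simp only [k3, n1_frb, n1_an, Nat.ble_eq, Nat.beq_eq] at h1
  obtain ⟨h1, h2, h3, h4, h5⟩ := h1
  refine ⟨by omega, ⟨ng c, by omega, ml_inj ?_⟩, ?_, ?_⟩
  · have k : ∀ x y : Fin 16, rel false x y = true ↔ y = xr x 15 ∨ y = xr x 14 ∨ y = xr x 13 ∨
        y = xr x 11 ∨ y = xr x 7 := by decide +kernel
    rw [← mk_eq (by omega), h3, nb, n1_sm, ml, T, sum_filter, sum_range]
    refine sum_congr rfl fun x _ => ?_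
    rw [n1_cnd, n1_shl, one_mul]
    simp only [k, and_or_left, exists_or, exists_eq_right, mem_lm]
    have a1 := bt_le (rep c) (xr x 15)
    have a2 := bt_le (rep c) (xr x 14)
    have a3 := bt_le (rep c) (xr x 13)
    have a4 := bt_le (rep c) (xr x 11)
    have a5 := bt_le (rep c) (xr x 7)
    change (if 0 = bt _ (xr x 15) + (bt _ (xr x 14) + (bt _ (xr x 13) + (bt _ (xr x 11) +
      bt _ (xr x 7)))) then _ else _) = _
    split_ifs <;> first | rfl | omega
  · rw [← act_zero (lm _), ← mk_eq (by norm_num), h4]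
  · rw [h5, n1_sm, lm, card_filter, sum_range]
    refine sum_congr rfl fun y _ => ?_
    have := bt_le (rep c) y
    split_ifs <;> omega

theorem k1_all {c : ℕ} (h : c < 402) (y : Fin 16) : wc c y < 402 ∧ Orb (lm (rep (wc c y)))
    (if y ∈ lm (rep c) then (lm (rep c)).erase y else insert y (lm (rep c))) := by
  have h1 := n1_al (n1_al k1_ok c h) y y.2
  simp only [k1, n1_frb, n1_an, Nat.ble_eq, Nat.beq_eq, n1_shl, Nat.add_eq] at h1
  obtain ⟨h1, h2, h3⟩ := h1
  refine ⟨by omega, wg c y, by omega, ml_inj ?_⟩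
  have e := (k3_all h).2.2.1
  have b := bt_le (rep c) y
  rw [← mk_eq (by omega)]
  split_ifs with hy
  · have : 2 ^ y.val + ml ((lm (rep c)).erase y) = ml (lm (rep c)) :=
      add_sum_erase _ (fun y : Fin 16 => 2 ^ y.val) hy
    rw [(mem_lm _ _).1 hy, pow_succ] at h3
    omega
  · have : ml (insert y (lm (rep c))) = 2 ^ y.val + ml (lm (rep c)) := sum_insert hy
    rw [mem_lm] at hy
    rw [show bt (rep c) y = 0 by omega] at h3
    omega

theorem rep_min {g c : ℕ} (hg : g < 384) (h : c < 402) : rep c ≤ mk g (rep c) := by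
  have h1 := Nat.beq_eq.mp (n1_al k2_ok g hg)
  have l1 : ∀ c, mk g (rep c) < 65536 := fun c => (mk_eq hg _).trans_lt (ml_lt _)
  have l2 : ∀ c, rep c < 2 ^ 16 := fun c => n1_dg _ _ _
  have e : Nat.sub (Nat.add (sm 16 fun y => Nat.shiftLeft (pl y) (gt g y)) hA) rA =
      ∑ c ∈ range 402, (mk g (rep c) + 65536 - rep c) * 2 ^ (32 * c) := by
    refine Nat.sub_eq_of_eq_add ?_
    simp only [pl, hA, rA, n1_pk, n1_sm, n1_shl, Nat.add_eq, sum_mul]
    rw [sum_comm, ← sum_add_distrib, ← sum_add_distrib]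
    refine sum_congr rfl fun c _ => ?_
    have := l2 c
    rw [← add_mul, Nat.sub_add_cancel (by omega), add_mul, mk, n1_sm, sum_mul]
    simp only [n1_shl, mul_right_comm]
  have h2 := congrArg (Nat.testBit · (32 * c + 16)) h1
  beta_reduce at h2
  rw [e, Nat.land_eq, Nat.testBit_and, hA, n1_pk, n1_tb (d := fun _ => 65536) (fun _ _ => by norm_num) h (by norm_num),
    n1_tb (fun c _ => by have := l1 c; omega) h (by norm_num),
    show Nat.testBit 65536 16 = true by decide, Bool.and_true] at h2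
  have := Nat.ge_two_pow_of_testBit h2
  have := l2 c
  omega

theorem k5_all {c : ℕ} (h : c < 401) : pa (c + 1) ≤ c ∧ 1 ≤ (dn (c + 1)).ap (dl (pa (c + 1))) ∧
    vv (c + 1) * (up (pa (c + 1))).ap (dl (c + 1)) =
      vv (pa (c + 1)) * (dn (c + 1)).ap (dl (pa (c + 1))) ∧
        ky c + 1 ≤ ky (c + 1) ∧ 384 % vv c = 0 := by
  have h1 := n1_al k5_ok c h
  simp only [k5, n1_frb, n1_an, Nat.ble_eq, Nat.beq_eq, Nat.add_eq, Nat.mul_eq] at h1
  exact h1

theorem rep_uniq {c d : ℕ} (hc : c < 402) (hd : d < 402)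
    (h : Orb (lm (rep c)) (lm (rep d))) : c = d := by
  have k : ∀ {c d : ℕ}, c < 402 → d < 402 → Orb (lm (rep c)) (lm (rep d)) → rep c ≤ rep d := by
    rintro c d hc hd ⟨g, hg, h⟩
    rw [← (k3_all hd).2.2.1, ← h, ← mk_eq hg]
    exact rep_min hg hc
  have e := le_antisymm (k hc hd h) (k hd hc h.symm)
  have e2 : ky c = ky d := by
    unfold ky
    rw [(k3_all hc).2.2.2, (k3_all hd).2.2.2, e]
  have m : ∀ a b : ℕ, a < b → b < 402 → ky a < ky b := by
    intro a b hab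
    induction b, hab using Nat.le_induction with
    | base => exact fun h => (k5_all (by omega)).2.2.2.1
    | succ b _ ih => exact fun h => (ih (by omega)).trans (k5_all (by omega)).2.2.2.1
  rcases lt_trichotomy c d with h | h | h
  · exact absurd e2 (m c d h hd).ne
  · exact h
  · exact absurd e2 (m d c h hc).ne'

theorem rep_ex (A : St) : ∃ c, c < 402 ∧ Orb (lm (rep c)) A := by
  induction A using Finset.induction_on with
  | empty => exact ⟨0, by norm_num, 0, by norm_num, by decide +kernel⟩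
  | insert y A hy ih =>
    obtain ⟨c, hc, g, hg, rfl⟩ := ih
    obtain ⟨y, rfl⟩ := (ga_bij hg).2 y
    obtain ⟨h1, h2⟩ := k1_all hc y
    rw [if_neg (fun h => hy ((mem_act hg _ y).2 h))] at h2
    exact ⟨_, h1, h2.trans ⟨g, hg, image_insert _ _ _⟩⟩

end N1

open N1

/-- the class of a list under the 384 symmetries of the cube -/
def cls (A : St) : ℕ := (rep_ex A).choose

theorem cls_lt (A : St) : cls A < 402 := (rep_ex A).choose_spec.1
theorem cls_orb (A : St) : Orb (lm (rep (cls A))) A := (rep_ex A).choose_spec.2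

theorem cls_of {c : ℕ} {A : St} (hc : c < 402) (h : Orb (lm (rep c)) A) : cls A = c :=
  rep_uniq (cls_lt A) hc ((cls_orb A).trans h.symm)

theorem N1.Orb.cls {A B : St} (h : Orb A B) : cls B = cls A := cls_of (cls_lt A) ((cls_orb A).trans h)

theorem cls_act {g : ℕ} (hg : g < 384) (A : St) : cls (act g A) = cls A := Orb.cls ⟨g, hg, rfl⟩

theorem cls_surj {c : ℕ} (h : c < 402) : ∃ A, cls A = c := ⟨_, cls_of h (Orb.refl _)⟩

theorem cls_card (A : St) : sz (cls A) = A.card := by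
  obtain ⟨g, hg, h⟩ := cls_orb A
  rw [(k3_all (cls_lt A)).2.2.2]
  conv_rhs => rw [← h]
  exact (card_image_of_injective _ (ga_inj hg)).symm

theorem cls_tr (t : Fin 16) (A : St) : cls (tr t A) = cls A := by
  rw [← act_tr]
  exact cls_act (by omega) A

theorem cls_T0 (A : St) : cls (T false A) = nc (cls A) := by
  obtain ⟨g, hg, h⟩ := cls_orb A
  obtain ⟨h1, h2, -⟩ := k3_all (cls_lt A)
  conv_lhs => rw [← h, T_act hg, cls_act hg]
  exact cls_of h1 h2

theorem cls_T1 (A : St) : cls (T true A) = cls A := by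
  have k : ∀ x y : Fin 16, rel true x y = true ↔ y = xr 15 x := by decide +kernel
  rw [← cls_tr 15 A]
  congr 1
  ext x
  simp only [mem_T, mem_tr, k, exists_eq_right]

theorem N1.k7_all (A : St) : (cls A = 0 ↔ A.card = 0) ∧ (cls A = 1 ↔ A.card = 1) ∧
    (cls A = 401 ↔ A.card = 16) := by
  have h := Nat.beq_eq.mp (n1_al k7_ok _ (cls_lt A))
  simp only [n1_cnd, cls_card] at h
  split_ifs at h <;> omega

theorem cls_eq_zero (A : St) : cls A = 0 ↔ A = ∅ := (k7_all A).1.trans card_eq_zero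
theorem cls_eq_one (A : St) : cls A = 1 ↔ A.card = 1 := (k7_all A).2.1
theorem cls_eq_top (A : St) : cls A = 401 ↔ A = univ :=
  (k7_all A).2.2.trans (by rw [← card_eq_iff_eq_univ, Fintype.card_fin])

theorem N1.k4_all {c : ℕ} (h : c < 402) (X : ℕ → ℕ) :
    (up c).ap X = ∑ y : Fin 16, (if y ∈ lm (rep c) then 0 else X (wc c y)) ∧
      (dn c).ap X = ∑ y : Fin 16, if y ∈ lm (rep c) then X (wc c y) else 0 := by
  have h1 := n1_al k4_ok c h
  simp only [k4, n1_an, Nat.ble_eq, Nat.beq_eq, n1_sm, n1_cnd] at h1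
  obtain ⟨h1, h2, h3, h4⟩ := h1
  have w : ∀ y < 16, wc c y < 512 := fun y hy => (k1_all h ⟨y, hy⟩).1.trans (by norm_num)
  have s : ∀ f : ℕ → ℕ, (∀ y, f y ≤ 1) → ∑ y ∈ range 16, f y ≤ 16 := fun f hf => by
    simpa using sum_le_card_nsmul (range 16) f 1 fun y _ => hf y
  constructor
  · rw [(lin_up h).ext (g := fun X => ∑ y ∈ range 16, if bt (rep c) y = 0 then X (wc c y) else 0)
      (Lin.sum 16 fun y hy => by split_ifs; exacts [Lin.var (w y hy), Lin.zero]) h3
      (s _ fun y => by split_ifs <;> simp) h1 X, sum_range]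
    refine sum_congr rfl fun y _ => ?_
    have := bt_le (rep c) y
    simp only [mem_lm]
    split_ifs <;> first | rfl | omega
  · rw [(lin_dn h).ext (g := fun X => ∑ y ∈ range 16, if bt (rep c) y = 0 then 0 else X (wc c y))
      (Lin.sum 16 fun y hy => by split_ifs; exacts [Lin.zero, Lin.var (w y hy)]) h4
      (s _ fun y => by split_ifs <;> simp) h2 X, sum_range]
    refine sum_congr rfl fun y _ => ?_
    have := bt_le (rep c) y
    simp only [mem_lm]
    split_ifs <;> first | rfl | omega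

theorem up_sum (X : ℕ → ℕ) (A : St) : (up (cls A)).ap X = ∑ y ∈ Aᶜ, X (cls (insert y A)) := by
  obtain ⟨g, hg, h⟩ := cls_orb A
  rw [(k4_all (cls_lt A) X).1, ← sum_ite_mem_eq Aᶜ, ← (ga_bij hg).sum_comp fun y => ite (y ∈ Aᶜ) _ _]
  refine sum_congr rfl fun y _ => ?_
  obtain ⟨h1, h2⟩ := k1_all (cls_lt A) y
  have e : ga g y ∈ A ↔ y ∈ lm (rep (cls A)) := by rw [← mem_act hg (lm _), h]
  by_cases hy : y ∈ lm (rep (cls A))
  · rw [if_pos hy, if_neg (by simpa [e] using hy)]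
  · rw [if_neg hy] at h2
    rw [if_neg hy, if_pos (by simpa [e] using hy)]
    exact congrArg X (cls_of h1 (h2.trans ⟨g, hg, (image_insert _ _ _).trans (congrArg _ h)⟩)).symm

theorem dn_sum (X : ℕ → ℕ) (A : St) : (dn (cls A)).ap X = ∑ y ∈ A, X (cls (A.erase y)) := by
  obtain ⟨g, hg, h⟩ := cls_orb A
  rw [(k4_all (cls_lt A) X).2, ← sum_ite_mem_eq A, ← (ga_bij hg).sum_comp fun y => ite (y ∈ A) _ _]
  refine sum_congr rfl fun y _ => ?_
  obtain ⟨h1, h2⟩ := k1_all (cls_lt A) y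
  have e : ga g y ∈ A ↔ y ∈ lm (rep (cls A)) := by rw [← mem_act hg (lm _), h]
  by_cases hy : y ∈ lm (rep (cls A))
  · rw [if_pos hy] at h2
    rw [if_pos hy, if_pos (e.2 hy)]
    exact congrArg X (cls_of h1 (h2.trans ⟨g, hg, (image_erase (ga_inj hg) _ _).trans
      (congrArg (erase · _) h)⟩)).symm
  · rw [if_neg hy, if_neg (e.not.2 hy)]

theorem vv_top : vv 401 = 384 := by decide +kernel

theorem vv_dvd {c : ℕ} (h : c < 402) : vv c ∣ 384 := by
  rcases Nat.lt_succ_iff_lt_or_eq.1 h with h | rfl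
  · exact Nat.dvd_of_mod_eq_zero (k5_all h).2.2.2.2
  · rw [vv_top]

/-- the number of lists in a class -/
def N1.cnn (c : ℕ) : ℕ := (univ.filter fun A : St => cls A = c).card

theorem N1.n1_dc (F : St → St → ℕ) :
    ∑ A : St, ∑ y ∈ Aᶜ, F A (insert y A) = ∑ B : St, ∑ y ∈ B, F (B.erase y) B := by
  rw [sum_congr rfl fun (A : St) _ => (sum_ite_mem_eq Aᶜ _).symm,
    sum_congr rfl fun (B : St) _ => (sum_ite_mem_eq B fun y => F (B.erase y) B).symm, sum_comm,
    sum_comm (s := univ) (t := univ) (f := fun (B : St) y => ite (y ∈ B) _ _)]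
  refine sum_congr rfl fun y _ => ?_
  rw [← sum_filter, ← sum_filter]
  refine sum_nbij' (insert y) (erase · y) (by simp) (by simp) ?_ ?_ ?_
  · intro A hA
    exact erase_insert (by simpa using hA)
  · intro A hA
    exact insert_erase (by simpa using hA)
  · intro A hA
    rw [erase_insert (by simpa using hA)]

theorem N1.cn_step (a d : ℕ) : cnn a * (up a).ap (dl d) = cnn d * (dn d).ap (dl a) := by
  have h := n1_dc fun A B => dl a (cls A) * dl d (cls B)
  simp only [← mul_sum, ← sum_mul, ← up_sum, ← dn_sum] at h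
  have k : ∀ (a : ℕ) (f : ℕ → ℕ), ∑ A : St, dl a (cls A) * f (cls A) = cnn a * f a := fun a f => by
    rw [cnn, card_filter, sum_mul]
    refine sum_congr rfl fun A _ => ?_
    rw [dl, n1_cnd]
    split_ifs with h
    · rw [h]
    · simp
  rw [← k a fun c => (up c).ap (dl d), ← k d fun c => (dn c).ap (dl a), h]
  simp only [mul_comm]

theorem N1.cn_vv {c : ℕ} (h : c < 402) : cnn c * vv c = 384 := by
  induction c using Nat.strong_induction_on with
  | _ c ih =>
    rcases c with _ | c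
    · rw [cnn, show vv 0 = 384 by decide +kernel]
      simp [cls_eq_zero, filter_eq']
    · obtain ⟨h1, h2, h3, -⟩ := k5_all (c := c) (by omega)
      have h4 := ih _ (Nat.lt_succ_of_le h1) (by omega)
      refine Nat.eq_of_mul_eq_mul_right h2 ?_
      rw [mul_right_comm, ← cn_step, mul_assoc, mul_comm _ (vv _), h3, ← mul_assoc, h4]

theorem tot_sum {R : Type} [CommRing R] (f : ℕ → R) :
    ∑ A : St, (vv (cls A) : R) * f (cls A) = 384 * ∑ c ∈ range 402, f c := by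
  rw [← sum_fiberwise_of_maps_to (t := range 402) (g := cls) fun A _ => mem_range.2 (cls_lt A),
    mul_sum]
  refine sum_congr rfl fun c hc => ?_
  rw [sum_congr rfl (g := fun _ => (vv c : R) * f c) fun A hA => by rw [(mem_filter.1 hA).2],
    sum_const, nsmul_eq_mul, ← mul_assoc, ← Nat.cast_mul, ← cnn, cn_vv (mem_range.1 hc)]
  norm_num

theorem push_sum (f : ℕ → ℤ) (A : St) :
    ∑ B : St, (if T false B = A then (vv (cls B) : ℤ) * f (cls B) else 0) =
      vv (cls A) * ∑ c ∈ range 402, if nc c = cls A then f c else 0 := by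
  set L : St → ℤ := fun A => ∑ B : St, if T false B = A then (vv (cls B) : ℤ) * f (cls B) else 0
    with hL
  have i : ∀ A' : St, cls A' = cls A → L A' = L A := fun A' h => by
    obtain ⟨g, hg, rfl⟩ := (cls_orb A).symm.trans (h ▸ cls_orb A')
    have b := image_injective (ga_inj hg)
    simp only [hL]
    rw [← (Finite.injective_iff_bijective.1 b).sum_comp]
    refine sum_congr rfl fun B _ => ?_
    change (if T false (act g B) = _ then (vv (cls (act g B)) : ℤ) * f (cls (act g B)) else 0) = _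
    rw [T_act hg, cls_act hg]
    exact if_congr b.eq_iff rfl rfl
  have t := tot_sum fun c => if nc c = cls A then f c else 0
  have s : ∑ A' ∈ univ.filter (fun A' : St => cls A' = cls A), L A' =
      ∑ B : St, (vv (cls B) : ℤ) * if nc (cls B) = cls A then f (cls B) else 0 := by
    simp only [hL]
    rw [sum_comm]
    refine sum_congr rfl fun B _ => ?_
    rw [sum_ite_eq, ← cls_T0]
    simp
  rw [t, sum_congr rfl fun A' hA => i A' (mem_filter.1 hA).2, sum_const, nsmul_eq_mul, ← cnn] at s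
  have v : (cnn (cls A) : ℤ) * vv (cls A) = 384 := by exact_mod_cast cn_vv (cls_lt A)
  refine mul_left_cancel₀ (a := (cnn (cls A) : ℤ)) (left_ne_zero_of_mul (v.trans_ne (by norm_num))) ?_
  rw [← mul_assoc, v]
  exact s

end

end Pool.Agent.MP_7c51ae_co

/-!
Sums over larger and smaller lists.
-/

set_option autoImplicit false

namespace Pool.Agent.MP_7c51ae_co

open Finset

noncomputable section

/-- the terms of the sum `zeta` -/
def n2_E (tb : ℕ → Bx) (X : ℕ → ℕ) : ℕ → ℕ → ℕ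
  | 0 => X
  | j + 1 => fun c => (tb c).ap (n2_E tb X j) / (j + 1)

theorem n2_zeta (tb : ℕ → Bx) (h : ℕ) (X : ℕ → ℕ) (c : ℕ) :
    zeta tb h X c = ∑ j ∈ range h, n2_E tb X j c := by
  have e : ∀ j, @Nat.rec (fun _ => ℕ → ℕ) X
      (fun j ih c => Nat.div (@Bx.rec (fun _ => Nat) (fun f => f ih) (tb c)) (Nat.succ j)) j =
      n2_E tb X j := by
    intro j
    induction j with
    | zero => rfl
    | succ j ih =>
      show (fun c => Nat.div (@Bx.rec (fun _ => Nat) (fun f => f _) (tb c)) (Nat.succ j)) = _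
      rw [ih]
      rfl
  unfold zeta
  simp only [e]
  induction h with
  | zero => rfl
  | succ h ih =>
    rw [sum_range_succ, ← ih]
    rfl

section

variable {α : Type} [Fintype α] [DecidableEq α]

theorem n2_up_step (g : Finset α → ℕ) (A : Finset α) (j : ℕ) :
    ∑ y ∈ Aᶜ, ∑ B, (if insert y A ⊆ B ∧ B.card = (insert y A).card + j then g B else 0) =
      (j + 1) * ∑ B, if A ⊆ B ∧ B.card = A.card + (j + 1) then g B else 0 := by
  rw [sum_comm, mul_sum]
  refine sum_congr rfl fun B _ => ?_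
  by_cases h : A ⊆ B ∧ B.card = A.card + (j + 1)
  · rw [if_pos h, ← sum_filter, sum_const, smul_eq_mul]
    congr 1
    have e : Aᶜ.filter (fun y => insert y A ⊆ B ∧ B.card = (insert y A).card + j) = B \ A := by
      ext y
      simp only [mem_filter, mem_compl, mem_sdiff, insert_subset_iff]
      constructor
      · rintro ⟨h1, ⟨h2, -⟩, -⟩
        exact ⟨h2, h1⟩
      · rintro ⟨h1, h2⟩
        refine ⟨h2, ⟨h1, h.1⟩, ?_⟩
        rw [card_insert_of_notMem h2, h.2]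
        omega
    rw [e, card_sdiff_of_subset h.1, h.2]
    omega
  · rw [if_neg h, mul_zero]
    refine sum_eq_zero fun y hy => if_neg fun h' => h ⟨(subset_insert y A).trans h'.1, ?_⟩
    rw [h'.2, card_insert_of_notMem (mem_compl.1 hy)]
    omega

theorem n2_dn_step (g : Finset α → ℕ) (A : Finset α) (j : ℕ) :
    ∑ y ∈ A, ∑ B, (if B ⊆ A.erase y ∧ B.card + j = (A.erase y).card then g B else 0) =
      (j + 1) * ∑ B, if B ⊆ A ∧ B.card + (j + 1) = A.card then g B else 0 := by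
  rw [sum_comm, mul_sum]
  refine sum_congr rfl fun B _ => ?_
  by_cases h : B ⊆ A ∧ B.card + (j + 1) = A.card
  · rw [if_pos h, ← sum_filter, sum_const, smul_eq_mul]
    congr 1
    have e : A.filter (fun y => B ⊆ A.erase y ∧ B.card + j = (A.erase y).card) = A \ B := by
      ext y
      simp only [mem_filter, mem_sdiff, subset_erase]
      constructor
      · rintro ⟨h1, ⟨-, h2⟩, -⟩
        exact ⟨h1, h2⟩
      · rintro ⟨h1, h2⟩
        refine ⟨h1, ⟨h.1, h2⟩, ?_⟩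
        rw [card_erase_of_mem h1, ← h.2]
        omega
    rw [e, card_sdiff_of_subset h.1, ← h.2]
    omega
  · rw [if_neg h, mul_zero]
    refine sum_eq_zero fun y hy => if_neg fun h' => h ⟨h'.1.trans (erase_subset y A), ?_⟩
    have := card_erase_add_one hy
    omega

theorem n2_alt {R : Type} [CommRing R] (D F : Finset α) :
    ∑ A, (if D ⊆ A ∧ A ⊆ F then (-1 : R) ^ A.card else 0) = if F = D then (-1) ^ D.card else 0 := by
  by_cases h : D ⊆ F
  · have e : ∑ A, (if D ⊆ A ∧ A ⊆ F then (-1 : R) ^ A.card else 0) =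
        (-1) ^ D.card * ∑ E ∈ (F \ D).powerset, (-1 : R) ^ E.card := by
      rw [← sum_filter, mul_sum]
      refine sum_nbij' (fun A => A \ D) (fun E => D ∪ E) ?_ ?_ ?_ ?_ ?_
      · intro A hA
        exact mem_powerset.2 (sdiff_subset_sdiff (mem_filter.1 hA).2.2 Subset.rfl)
      · intro E hE
        exact mem_filter.2 ⟨mem_univ _, subset_union_left,
          union_subset h ((mem_powerset.1 hE).trans sdiff_subset)⟩
      · intro A hA
        exact union_sdiff_of_subset (mem_filter.1 hA).2.1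
      · intro E hE
        exact union_sdiff_cancel_left (disjoint_of_subset_right (mem_powerset.1 hE) disjoint_sdiff)
      · intro A hA
        rw [← pow_add, add_comm, card_sdiff_add_card_eq_card (mem_filter.1 hA).2.1]
    have e2 : ∑ E ∈ (F \ D).powerset, (-1 : R) ^ E.card = if F \ D = ∅ then 1 else 0 := by
      have := congrArg (Int.cast : ℤ → R) (sum_powerset_neg_one_pow_card (x := F \ D))
      push_cast at this
      exact this
    rw [e, e2]
    by_cases h2 : F = D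
    · rw [if_pos h2, if_pos (by rw [h2, sdiff_self]; rfl), mul_one]
    · rw [if_neg h2, if_neg (fun h3 => h2 ((sdiff_eq_empty_iff_subset.1 h3).antisymm h)), mul_zero]
  · rw [if_neg (fun h2 => h (by rw [h2]))]
    exact sum_eq_zero fun A _ => if_neg fun h' => h (h'.1.trans h'.2)

theorem n2_pow {R : Type} [AddCommMonoid R] (A : Finset α) (f : Finset α → R) :
    ∑ E ∈ A.powerset, f E = ∑ E, if E ⊆ A then f E else 0 := by
  rw [← sum_filter]
  exact sum_congr (by ext E; simp) fun _ _ => rfl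

theorem n2_swap {R : Type} [CommRing R] (Z g : Finset α → R) (A : Finset α) :
    ∑ E ∈ A.powerset, g E * ∑ B ∈ univ.filter (fun B => E ⊆ B), Z B =
      ∑ B, Z B * ∑ E ∈ (A ∩ B).powerset, g E := by
  simp only [n2_pow, sum_filter, mul_sum]
  rw [sum_comm]
  refine sum_congr rfl fun E _ => ?_
  by_cases h : E ⊆ A
  · rw [if_pos h]
    refine sum_congr rfl fun B _ => ?_
    by_cases h2 : E ⊆ B
    · rw [if_pos h2, if_pos (subset_inter h h2), mul_comm]
    · rw [if_neg h2, if_neg (fun h3 => h2 (h3.trans inter_subset_right)), mul_zero, mul_zero]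
  · rw [if_neg h]
    refine (sum_eq_zero fun B _ => ?_).symm
    rw [if_neg (fun h3 => h (h3.trans inter_subset_left)), mul_zero]

theorem n2_inv {R : Type} [CommRing R] (f : Finset α → R) (C : Finset α) :
    ∑ E ∈ C.powerset, (-1) ^ E.card * ∑ F ∈ E.powerset, (-1) ^ F.card * f F = f C := by
  have e : ∀ E : Finset α, (if E ⊆ C then (-1 : R) ^ E.card *
      ∑ F, (if F ⊆ E then (-1) ^ F.card * f F else 0) else 0) =
      ∑ F, (-1) ^ F.card * f F * if F ⊆ E ∧ E ⊆ C then (-1 : R) ^ E.card else 0 := by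
    intro E
    by_cases h : E ⊆ C
    · rw [if_pos h, mul_sum]
      refine sum_congr rfl fun F _ => ?_
      by_cases h2 : F ⊆ E
      · rw [if_pos h2, if_pos ⟨h2, h⟩, mul_comm]
      · rw [if_neg h2, if_neg (fun h3 => h2 h3.1), mul_zero, mul_zero]
    · rw [if_neg h]
      refine (sum_eq_zero fun F _ => ?_).symm
      rw [if_neg (fun h3 => h h3.2), mul_zero]
  simp only [n2_pow, e]
  rw [sum_comm]
  simp only [← mul_sum, n2_alt]
  simp only [mul_ite, mul_zero, sum_ite_eq, mem_univ, if_true]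
  rw [mul_right_comm, ← mul_pow]
  simp

theorem n2_up {R : Type} [CommRing R] (Z Z' : Finset α → R) (D : Finset α) :
    ∑ A ∈ univ.filter (fun A => D ⊆ A), (-1) ^ A.card *
      ((∑ B ∈ univ.filter (fun B => A ⊆ B), Z B) * ∑ B ∈ univ.filter (fun B => A ⊆ B), Z' B) =
      (-1) ^ D.card * ∑ A, ∑ B, if A ∩ B = D then Z A * Z' B else 0 := by
  have e : ∀ A : Finset α, (if D ⊆ A then (-1 : R) ^ A.card *
      ((∑ B, if A ⊆ B then Z B else 0) * ∑ B, if A ⊆ B then Z' B else 0) else 0) =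
      ∑ B, ∑ C, Z B * Z' C * if D ⊆ A ∧ A ⊆ B ∩ C then (-1 : R) ^ A.card else 0 := by
    intro A
    by_cases h : D ⊆ A
    · rw [if_pos h, sum_mul_sum, mul_sum]
      refine sum_congr rfl fun B _ => ?_
      rw [mul_sum]
      refine sum_congr rfl fun C _ => ?_
      by_cases h2 : A ⊆ B
      · by_cases h3 : A ⊆ C
        · rw [if_pos h2, if_pos h3, if_pos ⟨h, subset_inter h2 h3⟩, mul_comm]
        · rw [if_neg h3, if_neg (fun h4 : D ⊆ A ∧ A ⊆ B ∩ C => h3 (h4.2.trans inter_subset_right)),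
            mul_zero, mul_zero, mul_zero]
      · rw [if_neg h2, if_neg (fun h4 : D ⊆ A ∧ A ⊆ B ∩ C => h2 (h4.2.trans inter_subset_left)),
          zero_mul, mul_zero, mul_zero]
    · rw [if_neg h]
      refine (sum_eq_zero fun B _ => sum_eq_zero fun C _ => ?_).symm
      rw [if_neg (fun h3 => h h3.1), mul_zero]
  simp only [sum_filter, e]
  rw [sum_comm, mul_sum]
  refine sum_congr rfl fun B _ => ?_
  rw [sum_comm, mul_sum]
  refine sum_congr rfl fun C _ => ?_
  rw [← mul_sum, n2_alt]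
  by_cases h : B ∩ C = D
  · rw [if_pos h, if_pos h, mul_comm]
  · rw [if_neg h, if_neg h, mul_zero, mul_zero]

end

theorem n2_Eup (X : ℕ → ℕ) (j : ℕ) (A : St) : n2_E up X j (cls A) =
    ∑ B : St, if A ⊆ B ∧ B.card = A.card + j then X (cls B) else 0 := by
  induction j generalizing A with
  | zero =>
    rw [sum_eq_single A (fun B _ hB => if_neg fun h => hB (eq_of_subset_of_card_le h.1 h.2.le).symm)
      (fun h => absurd (mem_univ A) h), if_pos ⟨Subset.rfl, rfl⟩]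
    rfl
  | succ j ih =>
    show (up (cls A)).ap (n2_E up X j) / (j + 1) = _
    rw [up_sum, sum_congr rfl (fun y _ => ih (insert y A)), n2_up_step (fun B => X (cls B)),
      Nat.mul_div_cancel_left _ (Nat.succ_pos j)]

theorem n2_Edn (X : ℕ → ℕ) (j : ℕ) (A : St) : n2_E dn X j (cls A) =
    ∑ B : St, if B ⊆ A ∧ B.card + j = A.card then X (cls B) else 0 := by
  induction j generalizing A with
  | zero =>
    rw [sum_eq_single A (fun B _ hB => if_neg fun h => hB (eq_of_subset_of_card_le h.1 h.2.ge))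
      (fun h => absurd (mem_univ A) h), if_pos ⟨Subset.rfl, rfl⟩]
    rfl
  | succ j ih =>
    show (dn (cls A)).ap (n2_E dn X j) / (j + 1) = _
    rw [dn_sum, sum_congr rfl (fun y _ => ih (A.erase y)), n2_dn_step (fun B => X (cls B)),
      Nat.mul_div_cancel_left _ (Nat.succ_pos j)]

theorem n2_le (B : St) : B.card ≤ 16 := (card_le_univ B).trans (Fintype.card_fin 16).le

theorem zu_eq (X : ℕ → ℕ) (A : St) :
    zu X (cls A) = ∑ B ∈ univ.filter (fun B : St => A ⊆ B), X (cls B) := by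
  unfold zu
  rw [n2_zeta, cls_card, sum_congr rfl (fun j _ => n2_Eup X j A), sum_comm, sum_filter]
  refine sum_congr rfl fun B _ => ?_
  by_cases h : A ⊆ B
  · have h1 := card_le_card h
    have h2 := n2_le B
    rw [if_pos h, sum_eq_single (B.card - A.card) (fun j _ hj => if_neg fun h' => hj (by omega))
      (fun hj => absurd (mem_range.2 (by show _ < 17 - A.card; omega)) hj), if_pos ⟨h, by omega⟩]
  · rw [if_neg h]
    exact sum_eq_zero fun j _ => if_neg fun h' => h h'.1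

theorem zd_eq (X : ℕ → ℕ) (A : St) : zd X (cls A) = ∑ B ∈ A.powerset, X (cls B) := by
  unfold zd
  rw [n2_zeta, cls_card, sum_congr rfl (fun j _ => n2_Edn X j A), sum_comm, n2_pow]
  refine sum_congr rfl fun B _ => ?_
  by_cases h : B ⊆ A
  · have h1 := card_le_card h
    rw [if_pos h, sum_eq_single (A.card - B.card) (fun j _ hj => if_neg fun h' => hj (by omega))
      (fun hj => absurd (mem_range.2 (by show _ < A.card + 1; omega)) hj), if_pos ⟨h, by omega⟩]
  · rw [if_neg h]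
    exact sum_eq_zero fun j _ => if_neg fun h' => h h'.1

theorem card_sup (A : St) : (univ.filter (fun B : St => A ⊆ B)).card = 2 ^ (16 - A.card) := by
  have e : univ.filter (fun B : St => A ⊆ B) = Icc A univ := by
    ext B
    simp only [mem_filter, mem_univ, true_and, mem_Icc, subset_univ, and_true]
  rw [e, card_Icc_finset (subset_univ A), card_univ, Fintype.card_fin]

/-- the sum over all larger lists -/
def hat {R : Type} [CommRing R] (Z : St → R) (A : St) : R :=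
  ∑ B ∈ univ.filter (fun B : St => A ⊆ B), Z B

/-- the law of the intersection -/
def cv {R : Type} [CommRing R] (Z Z' : St → R) (D : St) : R :=
  ∑ A, ∑ B, if A ∩ B = D then Z A * Z' B else 0

/-- inversion over smaller lists -/
def mob {R : Type} [CommRing R] (f : St → R) (A : St) : R :=
  (-1) ^ A.card * ∑ E ∈ A.powerset, (-1) ^ E.card * f E

theorem hat_empty (Z : St → ℝ) : hat Z ∅ = ms Z := by
  unfold hat ms
  rw [filter_true_of_mem fun B _ => empty_subset B]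
theorem mob_up {R : Type} [CommRing R] (Z Z' : St → R) (D : St) :
    hat (fun A => (-1) ^ A.card * (hat Z A * hat Z' A)) D = (-1) ^ D.card * cv Z Z' D :=
  n2_up Z Z' D
theorem mob_dn {R : Type} [CommRing R] (Z f : St → R) (A : St) :
    ∑ E ∈ A.powerset, mob f E * hat Z E = ∑ B, Z B * f (A ∩ B) :=
  (n2_swap Z (mob f) A).trans (sum_congr rfl fun B _ => congrArg (Z B * ·) (n2_inv f (A ∩ B)))
theorem bias_dn {R : Type} [CommRing R] (Z : St → R) (A : St) :
    ∑ E ∈ A.powerset, hat Z E = ∑ B, Z B * 2 ^ (A ∩ B).card := by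
  have := n2_swap Z (fun _ => 1) A
  simp only [one_mul, sum_const, card_powerset, nsmul_eq_mul, mul_one, Nat.cast_pow,
    Nat.cast_ofNat] at this
  exact this
theorem kr_cv (Z Z' : St → ℝ) {D : St} (hD : D ≠ ∅) :
    ∑ A, ∑ B, Z A * Z' B * kr (A ∩ B) D = cv Z Z' D + cv Z Z' ∅ * un D := by
  unfold cv
  rw [sum_mul, ← sum_add_distrib]
  refine sum_congr rfl fun A _ => ?_
  rw [sum_mul, ← sum_add_distrib]
  refine sum_congr rfl fun B _ => ?_
  unfold kr
  by_cases h : A ∩ B = ∅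
  · rw [if_pos h, if_pos h, if_neg (fun h' => hD (h'.symm.trans h)), zero_add]
  · rw [if_neg h, if_neg h, zero_mul, add_zero]
    by_cases h2 : A ∩ B = D
    · rw [if_pos h2, if_pos h2, mul_one]
    · rw [if_neg h2, if_neg h2, mul_zero]

end

end Pool.Agent.MP_7c51ae_co

/-!
What the numbers of the checker mean.
-/

set_option autoImplicit false

namespace Pool.Agent.MP_7c51ae_co

open Finset

noncomputable section

/-- the base of the slots -/
def tW : ℝ := 2 ^ 192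

/-- the point at which polynomials are evaluated -/
def uW : ℝ := tW + tW⁻¹

open Classical in
/-- the coefficients of a function given by a Chebyshev sum -/
def cof (n : ℕ) (f : ℝ → ℝ) : ℕ → ℤ :=
  if h : ∃ a : ℕ → ℤ, ∀ u, f u = chv n a u then h.choose else fun _ => 0

/-- weight of a mixing term, times `2048` -/
def wx (x : Fin mixL.length) : ℕ := (mixL.get x).2.2.2

/-- weight of a product term, times `8` -/
def wy (y : Fin ruleL.length) : ℕ := (ruleL.get y).2.2.2.2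

/-- sender type `t` belongs to group `g` -/
def InS (g t : ℕ) : Prop := g < 8 ∧ s0 g ≤ t ∧ t < s0 (g + 1)

/-- receiver type `m` belongs to group `g` -/
def InM (g m : ℕ) : Prop := g < 8 ∧ m0 g ≤ m ∧ m < m0 (g + 1)

/-- coefficient `k` at position `i` of chunk `j` for type `s` -/
def Dat.cg (d : Dat) (j s i k : ℕ) : ℤ := (dg 192 (dg d.w (d.unp j s) i) k : ℤ) - 2 ^ 64

/-- coefficient `k` on class `c` for type `s` -/
def Dat.cf (d : Dat) (s c k : ℕ) : ℤ := d.cg (cj c) s (ci c) k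

/-- the global constants -/
def Glob.cst (G : Glob) : Cst (Fin 118) where
  rho := 31 / 32
  eps := G.E / 2 ^ 40
  xi := 1 / 1024
  r := G.R / 2 ^ 40
  r2 := 1 / 2 ^ 40
  r3 := G.R3 / 2 ^ 40
  eM := 1 / 2 ^ 48
  B0 := 2
  kap m := dg 32 G.K m / 2 ^ 10
  tau m := G.T m / 2 ^ 40

namespace Seg

variable (s : Seg)

/-- what the a priori bounds need -/
structure Good : Prop where
  hN : s.dN.ok 20 = true
  bn : s.dN.bn + 2 ≤ 2 ^ 60
  hC : s.dC.ok 12 = true
  b1 : ∀ j < 50, s.dC.b1 j ≤ 2 ^ 30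
  p : s.p ≤ 2
  q2 : s.q2 ≤ 512
  q3 : 1 ≤ s.q3
  q3' : s.q3 ≤ 512

def qc (k : ℕ) : ℤ :=
  if k = 0 then 2048 + 2 * s.q2 else if k = 1 then 1024 - s.q3 else if k = 2 then -s.q2 else s.q3

/-- `4096 (1 - q)` in the active phase -/
def Qf (u : ℝ) : ℝ := chv 3 s.qc u

/-- the pin probabilities -/
def qf (u : ℝ) (i : Fin 3) : ℝ :=
  if i.val < s.p then 1 else if i.val = s.p then 1 - s.Qf u / 4096 else 0

/-- `4096 (1 - q)` -/
def om (u : ℝ) (i : Fin 3) : ℝ := if i.val < s.p then 0 else if i.val = s.p then s.Qf u else 4096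

/-- coefficients of the mass of class `c` for sender type `t`, times `2 ^ 54` -/
def aN (t c k : ℕ) : ℤ := if k = 20 then (if c = 401 then 1 else 0) else s.dN.cf t c k

/-- the approximate laws -/
def Nf (u : ℝ) (t : Fin 100) (D : St) : ℝ :=
  vv (cls D) * chv 20 (s.aN t (cls D)) u / (384 * 2 ^ 54)

/-- the potentials -/
def Cf (u : ℝ) (m : Fin 118) (A : St) : ℝ := chv 11 (s.dC.cf m (cls A)) u / 2 ^ 10

/-- the bounds for the oscillations -/
def Fr (t : Fin 100) : ℝ := dg 32 s.F t / 2 ^ 10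

/-- coefficients of the law of receiver `m` on a list of class `c`, times `384 * 2 ^ 65` -/
def zc (m c k : ℕ) : ℤ :=
  vv c * ∑ x, if (sys.xm x).val = m then (wx x : ℤ) *
    (if sys.xe x = true then s.aN (sys.xs x) c k
      else ∑ c' ∈ range 402, if nc c' = c then s.aN (sys.xs x) c' k else 0) else 0

def zh (m : ℕ) (A : St) (k : ℕ) : ℤ := hat (fun B => s.zc m (cls B) k) A

def Zs (u : ℝ) (m : ℕ) (A : St) : ℝ := chv 20 (s.zc m (cls A)) u

def Zh (u : ℝ) (m : ℕ) (A : St) : ℝ := chv 20 (s.zh m A) u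

/-- the products before the inversion -/
def wf (t : ℕ) (A : St) (u : ℝ) : ℝ :=
  ∑ y, if (sys.ys y).val = t then
    (wy y : ℝ) * (s.om u (sys.yi y) * (s.Zh u (sys.ya y) A * s.Zh u (sys.yb y) A)) else 0

/-- the products after the inversion -/
def vf (t : ℕ) (D : St) (u : ℝ) : ℝ :=
  ∑ y, if (sys.ys y).val = t then
    (wy y : ℝ) * (s.om u (sys.yi y) * cv (s.Zs u (sys.ya y)) (s.Zs u (sys.yb y)) D) else 0

/-- the pinned mass -/
def pf (t : ℕ) (u : ℝ) : ℝ :=
  ∑ y, if (sys.ys y).val = t then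
    (wy y : ℝ) * ((4096 - s.om u (sys.yi y)) * (s.Zh u (sys.ya y) ∅ * s.Zh u (sys.yb y) ∅)) else 0

/-- the law itself in the scale of the products -/
def ow (t : ℕ) (D : St) (u : ℝ) : ℝ := vk (cls D) * chv 20 (s.aN t (cls D)) u

/-- the residual, times `384 ^ 2 * 2 ^ 145` -/
def rf (t : ℕ) (D : St) (u : ℝ) : ℝ := s.vf t D u - s.ow t D u

/-- the residual on a single point, times `16 * 384 ^ 2 * 2 ^ 145` -/
def rf1 (t : ℕ) (u : ℝ) : ℝ := 16 * s.vf t {0} u + s.vf t ∅ u + s.pf t u - 16 * s.ow t {0} u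

/-- coefficients of the potential of sender `t` on class `c`, times `2 ^ 21` -/
def fc (t c k : ℕ) : ℤ :=
  ∑ x, if (sys.xs x).val = t then
    (wx x : ℤ) * s.dC.cf (sys.xm x) (if sys.xe x = true then c else nc c) k else 0

/-- the same on a list; the empty list counts as a point -/
def ft (t : ℕ) (E : St) (k : ℕ) : ℤ := s.fc t (if E = ∅ then 1 else cls E) k

def hv (t : ℕ) (A : St) (k : ℕ) : ℤ := if k = 12 then 1 else 2 ^ 26 * mob (fun E => s.ft t E k) A

def Hf (u : ℝ) (t : ℕ) (A : St) : ℝ := chv 12 (s.hv t A) u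

/-- the adjoint products before the summation -/
def gf (m : ℕ) (A : St) (u : ℝ) : ℝ :=
  ∑ y, ((if (sys.ya y).val = m then
      (wy y : ℝ) * (s.om u (sys.yi y) * (s.Zh u (sys.yb y) A * s.Hf u (sys.ys y) A)) else 0) +
    (if (sys.yb y).val = m then
      (wy y : ℝ) * (s.om u (sys.yi y) * (s.Zh u (sys.ya y) A * s.Hf u (sys.ys y) A)) else 0))

/-- the adjoint products -/
def g2 (m : ℕ) (A : St) (u : ℝ) : ℝ := ∑ E ∈ A.powerset, s.gf m E u

/-- the defect of the potential equation, times `384 * 2 ^ 132` -/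
def df (K m : ℕ) (A : St) (u : ℝ) : ℝ :=
  kc * (chv 11 (s.dC.cf m (cls A)) u - chv 11 (s.dC.cf m 1) u) -
    32 * (s.g2 m A u - s.g2 m {0} u) - ((A.card : ℝ) - 1) * (384 * s.kk K m * 2 ^ 112)

end Seg

end

end Pool.Agent.MP_7c51ae_co

/-!
Arithmetic of slots.
-/

set_option autoImplicit false

namespace Pool.Agent.MP_7c51ae_co

open Finset

noncomputable section

theorem frk_eq (e : ℕ) (f : ℕ → Bool) : frk e f = f e := rfl

theorem CP.cof {n : ℕ} {B : ℤ} {f : ℝ → ℝ} (h : CP n B f) :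
    (∀ u, f u = chv n (cof n f) u) ∧ nrm n (cof n f) ≤ B := by
  have h' : ∃ a : ℕ → ℤ, ∀ u, f u = chv n a u := h.imp fun _ ha => ha.1
  have e : ∀ u, f u = chv n (MP_7c51ae_co.cof n f) u := by
    unfold MP_7c51ae_co.cof
    rw [dif_pos h']
    exact h'.choose_spec
  exact ⟨e, h.coef e⟩

theorem cof_eq {n : ℕ} {f : ℝ → ℝ} {a : ℕ → ℤ} (h : ∀ u, f u = chv n a u) {k : ℕ} (hk : k ≤ n) :
    cof n f k = a k :=
  chv_uniq (fun u => (((CP.of n a).congr h).cof.1 u).symm.trans (h u)) hk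

theorem CP.cof_le {n : ℕ} {B : ℤ} {f : ℝ → ℝ} (h : CP n B f) {k : ℕ} (hk : k ≤ n) :
    |MP_7c51ae_co.cof n f k| ≤ B := (abs_le_nrm n _ hk).trans h.cof.2

/-- the value is at most twice the sum of the absolute values of the coefficients -/
theorem CP.abs_le_sum {n : ℕ} {B : ℤ} {f : ℝ → ℝ} (h : CP n B f) {u : ℝ} (hu : |u| ≤ 2) :
    |f u| ≤ 2 * ∑ k ∈ range (n + 1), ((MP_7c51ae_co.cof n f k).natAbs : ℝ) := by
  have h1 := nrm_le (n := n) (a := MP_7c51ae_co.cof n f)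
    (b := fun k => ((MP_7c51ae_co.cof n f k).natAbs : ℤ)) fun k _ => (Int.natCast_natAbs _).ge
  have h2 := (Int.cast_le (R := ℝ)).2 h1
  simp only [Int.cast_mul, Int.cast_sum, Int.cast_natCast, Int.cast_ofNat] at h2
  rw [h.cof.1 u]
  exact (abs_chv_le n _ hu).trans h2

theorem CP.pair {n n' : ℕ} {Z Z' : St → ℝ → ℝ} {B B' : St → ℤ} (h : ∀ A, CP n (B A) (Z A))
    (h' : ∀ A, CP n' (B' A) (Z' A)) (p : St → St → Prop) [∀ A C, Decidable (p A C)] :
    CP (n + n') ((∑ A, B A) * ∑ A, B' A)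
      (fun u => ∑ A, ∑ C, if p A C then Z A u * Z' C u else 0) := by
  rw [sum_mul_sum]
  refine CP.sum _ fun A _ => CP.sum _ fun C _ => (((h A).mul (h' C)).ite (p A C)).mono le_rfl ?_
  split_ifs
  exacts [le_rfl, mul_nonneg (h A).nonneg (h' C).nonneg]

theorem dz_add (b n : ℕ) (d e : ℕ → ℤ) : dz b n d + dz b n e = dz b n fun i => d i + e i := by
  simp only [dz, add_mul, sum_add_distrib]

theorem dz_sub (b n : ℕ) (d e : ℕ → ℤ) : dz b n d - dz b n e = dz b n fun i => d i - e i := by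
  simp only [dz, sub_mul, sum_sub_distrib]

theorem dz_smul (b n : ℕ) (c : ℤ) (d : ℕ → ℤ) : c * dz b n d = dz b n fun i => c * d i := by
  simp only [dz, mul_sum, mul_assoc]

theorem dz_sum {ι : Type} (S : Finset ι) (b n : ℕ) (d : ι → ℕ → ℤ) :
    ∑ x ∈ S, dz b n (d x) = dz b n fun i => ∑ x ∈ S, d x i := by
  simp only [dz, sum_mul]
  exact sum_comm

theorem dz_pad (b : ℕ) {n n' : ℕ} (h : n ≤ n') (d : ℕ → ℤ) :
    dz b n' (fun i => if i < n then d i else 0) = dz b n d := by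
  refine (sum_subset (range_mono h) fun i _ hi => ?_).symm.trans
    (sum_congr rfl fun i hi => ?_)
  · simp only [if_neg (mt mem_range.2 hi), zero_mul]
  · simp only [if_pos (mem_range.1 hi)]

theorem shl_ones (n e : ℕ) : (Nat.shiftLeft (ones 192 n) e : ℤ) = dz 192 n fun _ => 2 ^ e := by
  rw [n4b_shl, ones_eq (by omega), n4b_mul, ds_cast]
  exact dz_congr fun i _ => by rw [one_mul, Nat.cast_pow, Nat.cast_ofNat]

theorem sub_dz {a b n : ℕ} {d : ℕ → ℤ} (h0 : ∀ i < n, 0 ≤ d i) (h : (a : ℤ) - b = dz 192 n d) :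
    (Nat.sub a b : ℤ) = dz 192 n d := by
  have h1 : 0 ≤ dz 192 n d :=
    sum_nonneg fun i hi => mul_nonneg (h0 i (mem_range.1 hi)) (pow_nonneg zero_le_two _)
  rw [← h] at h1 ⊢
  exact Nat.cast_sub (Int.ofNat_le.1 (sub_nonneg.1 h1))

theorem dz_inj {n : ℕ} {d e : ℕ → ℤ} (h : ∀ i < n, |d i - e i| < 2 ^ 192)
    (he : dz 192 n d = dz 192 n e) : ∀ i < n, d i = e i := fun i hi =>
  sub_eq_zero.1 (dz_eq_zero h (by rw [← dz_sub, he, sub_self]) i hi)

theorem na_toNat {b : ℕ} {z : ℤ} (h0 : 0 ≤ z) (h : z < 2 ^ b) : z.toNat < 2 ^ b := by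
  rw [Int.toNat_lt h0, Nat.cast_pow]
  exact h

theorem dg_dz {n X : ℕ} {d : ℕ → ℤ} (h0 : ∀ i < n, 0 ≤ d i ∧ d i < 2 ^ 192)
    (hX : (X : ℤ) = dz 192 n d) {i : ℕ} (hi : i < n) : (dg 192 X i : ℤ) = d i := by
  rw [ds_of_dz (fun i hi => (h0 i hi).1) hX, dg_ds (fun j hj => na_toNat (h0 j hj).1 (h0 j hj).2) hi]
  exact Int.toNat_of_nonneg (h0 i hi).1

theorem pk_dz {L n : ℕ} (hL : 0 < L) {f : ℕ → ℕ} {d : ℕ → ℕ → ℤ}
    (h : ∀ i < n, (f i : ℤ) = dz 192 L (d i)) :
    (pk (192 * L) n f : ℤ) = dz 192 (L * n) fun j => d (j / L) (j % L) := by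
  rw [pk_eq, ds_cast, ← dz_dz 192 hL]
  exact dz_congr h

theorem dz_kron (n : ℕ) (a : ℕ → ℤ) :
    ((dz 192 (2 * n + 1) fun i => a (Nat.dist i n) : ℤ) : ℝ) = tW ^ n * chv n a uW := by
  have ht : tW ≠ 0 := pow_ne_zero _ two_ne_zero
  rw [uW, chv_kron n a ht, dz, Int.cast_sum]
  exact sum_congr rfl fun i _ => by rw [Int.cast_mul, Int.cast_pow, Int.cast_ofNat, pow_mul, tW]

theorem na_pos {a : ℤ} (h : |a| ≤ 2 ^ 190) : 0 ≤ a + 2 ^ 190 ∧ a + 2 ^ 190 < 2 ^ 192 := by
  have := abs_le.1 h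
  omega

theorem na_dist {n i : ℕ} (hi : i < 2 * n + 1) : Nat.dist i n ≤ n := by
  unfold Nat.dist
  omega

theorem na_shr {n Z : ℕ} {a : ℕ → ℤ} (ha : ∀ k ≤ n, |a k| ≤ 2 ^ 190)
    (hZ : (Z : ℤ) = dz 192 (2 * n + 1) fun i => a (Nat.dist i n) + 2 ^ 190) :
    (Nat.shiftRight Z (192 * n) : ℤ) = dz 192 (n + 1) fun k => a k + 2 ^ 190 := by
  have h0 := fun i (hi : i < 2 * n + 1) => na_pos (ha _ (na_dist hi))
  rw [ds_of_dz (fun i hi => (h0 i hi).1) hZ,
    shr_ds (fun i hi => na_toNat (h0 i hi).1 (h0 i hi).2) (by omega : n ≤ 2 * n + 1), ds_cast,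
    show 2 * n + 1 - n = n + 1 by omega]
  refine dz_congr fun i hi => ?_
  rw [Int.toNat_of_nonneg (h0 _ (by omega)).1, Nat.dist_comm, Nat.dist_eq_sub_of_le (by omega),
    Nat.add_sub_cancel_left]

theorem na_kron {n : ℕ} {B : ℤ} {f : ℝ → ℝ} (h : CP n B f) {z : ℤ} (hz : (z : ℝ) = tW ^ n * f uW) :
    dz 192 (2 * n + 1) (fun _ => 2 ^ 190) + z =
      dz 192 (2 * n + 1) fun i => cof n f (Nat.dist i n) + 2 ^ 190 := by
  rw [h.cof.1, ← dz_kron, Int.cast_inj] at hz
  rw [hz, add_comm, dz_add]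

theorem shr_add {n : ℕ} {f : ℝ → ℝ} (h : CP n (2 ^ 190) f) {X : ℕ} (hX : (X : ℝ) = tW ^ n * f uW) :
    (Nat.shiftRight (Nat.add (Nat.shiftLeft (ones 192 (2 * n + 1)) 190) X) (192 * n) : ℤ) =
      dz 192 (n + 1) fun k => cof n f k + 2 ^ 190 := by
  refine na_shr (fun k hk => h.cof_le hk) ?_
  rw [← na_kron h (z := X) (by rw [Int.cast_natCast, hX]), ← shl_ones, Nat.add_eq, Nat.cast_add]

theorem shr_sub {n : ℕ} {f : ℝ → ℝ} (h : CP n (2 ^ 190) f) {X Y : ℕ}
    (hX : (X : ℝ) - Y = tW ^ n * f uW) :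
    (Nat.shiftRight (Nat.sub (Nat.add (Nat.shiftLeft (ones 192 (2 * n + 1)) 190) X) Y) (192 * n) : ℤ) =
      dz 192 (n + 1) fun k => cof n f k + 2 ^ 190 := by
  refine na_shr (fun k hk => h.cof_le hk)
    (sub_dz (fun i hi => (na_pos (h.cof_le (na_dist hi))).1) ?_)
  rw [← na_kron h (z := X - Y) (by rw [Int.cast_sub, Int.cast_natCast, Int.cast_natCast, hX]),
    ← shl_ones, Nat.add_eq, Nat.cast_add, add_sub_assoc]

theorem ab_eq {n X : ℕ} {r : ℕ → ℤ} (hr : ∀ i < n, |r i| < 2 ^ 191)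
    (hX : (X : ℤ) = dz 192 n fun i => r i + 2 ^ 191) :
    ab n X = ds 192 n fun i => (r i).natAbs := by
  have hd : ∀ i < n, ((X / 2 ^ (192 * i) % 2 ^ 192 : ℕ) : ℤ) = r i + 2 ^ 191 := fun i hi => by
    rw [← dg_eq]
    refine dg_dz (fun j hj => ?_) hX hi
    have := abs_lt.1 (hr j hj)
    omega
  have hS : Nat.land (Nat.shiftRight X 191) (ones 192 n) =
      ds 192 n fun i => if 0 ≤ r i then 1 else 0 := by
    rw [ones_eq (by omega), n4b_shr]
    refine (land_mask 192 n _ (w := fun _ => 1) fun _ _ => by omega).trans (ds_congr fun i hi => ?_)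
    have h1 := hd i hi
    have h2 := abs_lt.1 (hr i hi)
    rw [Nat.div_div_eq_div_mul, mul_comm (2 ^ 191), ← Nat.div_div_eq_div_mul]
    generalize X / 2 ^ (192 * i) = Y at *
    split_ifs <;> omega
  have hM : Nat.sub (Nat.shiftLeft (ds 192 n fun i => if 0 ≤ r i then 1 else 0) 191)
      (ds 192 n fun i => if 0 ≤ r i then 1 else 0) =
      ds 192 n fun i => 2 ^ (if 0 ≤ r i then 191 else 0) - 1 := by
    refine Nat.sub_eq_of_eq_add ?_
    rw [n4b_shl, n4b_mul, n4b_add]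
    exact ds_congr fun i _ => by split_ifs <;> norm_num
  refine Int.natCast_inj.1 ?_
  rw [ab, frc_eq, hS, hM, land_mask 192 n X (w := fun i => if 0 ≤ r i then 191 else 0)
    fun i _ => by split_ifs <;> omega, ds_cast]
  refine sub_dz (fun i _ => Int.natCast_nonneg _) ?_
  rw [Nat.add_eq, Nat.mul_eq, Nat.cast_add, Nat.cast_mul, shl_ones, ds_cast, dz_smul, dz_add]
  refine (congrArg (_ - ·) hX).trans ((dz_sub _ _ _ _).trans (dz_congr fun i hi => ?_))
  have h1 := hd i hi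
  have h2 := abs_lt.1 (hr i hi)
  generalize X / 2 ^ (192 * i) = Y at *
  split_ifs <;> omega

theorem sml_sound {n : ℕ} {d : ℕ → ℕ} (hd : ∀ i < n, d i < 2 ^ 192)
    (h : sml n (ds 192 n d) = true) : ∀ i < n, d i < 2 ^ 160 := by
  have h1 := Nat.eq_of_beq_eq_true h
  rw [Nat.mul_eq, ones_eq (by omega), mul_comm, n4b_mul, msk_eq,
    ds_congr (d' := fun _ => 2 ^ 160 - 1) fun _ _ => one_mul _,
    land_mask 192 n _ (w := fun _ => 160) fun _ _ => by omega] at h1
  intro i hi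
  have h2 : ∀ Y : ℕ, Y % 2 ^ 160 < 2 ^ 160 := fun Y => Nat.mod_lt _ (Nat.two_pow_pos _)
  rw [← dg_ds hd hi, ← h1, dg_ds (fun j _ => (h2 _).trans (by omega)) hi]
  exact h2 _

/-- a block and its mirror image -/
theorem sym_eq {L n : ℕ} (hL : 0 < L) {d : ℕ → ℕ} (hd : ∀ j < L * n, d j < 2 ^ 192) {i : ℕ}
    (hi : i < n) :
    Nat.add (Nat.shiftLeft (dg (192 * L) (ds 192 (L * n) d) i) (192 * L))
      (Nat.land (Nat.shiftRight (Nat.shiftLeft
          (ds 192 (L * n) fun j => d (L * (j / L) + (L - 1 - j % L))) 192) (192 * L * i))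
        (Nat.shiftLeft (msk (192 * (L - 1))) 192)) =
      ds 192 (2 * L + 1) fun j => if j = 0 ∨ j = 2 * L then 0 else d (L * i + Nat.dist j L) := by
  have hi' : L * i + L ≤ L * n := (Nat.mul_succ L i).symm.le.trans (Nat.mul_le_mul_left L hi)
  have e1 : dg (192 * L) (ds 192 (L * n) d) i = ds 192 L fun k => d (L * i + k) := by
    rw [n4b_bs_eq 192 hL, n4b_bs]
    refine dg_ds (fun j hj => ds_lt fun k hk => hd _ ?_) hi
    have : L * j + L ≤ L * n := (Nat.mul_succ L j).symm.le.trans (Nat.mul_le_mul_left L hj)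
    omega
  have e2 : Nat.shiftLeft (msk (192 * (L - 1))) 192 =
      ds 192 L fun j => 2 ^ (if j = 0 then 0 else 192) - 1 := by
    obtain ⟨L, rfl⟩ : ∃ k, L = k + 1 := ⟨L - 1, by omega⟩
    rw [n4_cons, n4b_shl, msk_eq, Nat.add_sub_cancel, ← n4b_geom, Nat.add_sub_cancel, mul_comm]
    rfl
  rw [e1, e2, land_mask 192 L _ (w := fun j => if j = 0 then 0 else 192)
    fun j _ => by split_ifs <;> omega, n4b_shl (ds 192 L _), Nat.add_eq,
    show 2 * L + 1 = L + (L + 1) by omega, n4_add, n4_succ, if_pos (Or.inr (by omega)), zero_mul,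
    add_zero, add_comm, mul_comm (2 ^ (192 * L))]
  refine congrArg₂ (· + ·) (ds_congr fun j hj => ?_) (congrArg (· * _) (ds_congr fun j hj => ?_))
  · cases j with
    | zero => rw [if_pos rfl, if_pos (Or.inl rfl), pow_zero, Nat.mod_one]
    | succ k =>
      rw [if_neg k.succ_ne_zero, if_neg (by omega), n4b_shr, n4b_shl, Nat.div_div_eq_div_mul,
        ← pow_add, show 192 * L * i + 192 * (k + 1) = 192 * (L * i + k) + 192 by ring, pow_add,
        Nat.mul_div_mul_right _ _ (Nat.two_pow_pos _), ← dg_eq]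
      refine (dg_ds (n4b_R_lt hL hd) (by omega)).trans ((n4b_R_eq d i (by omega)).trans ?_)
      rw [Nat.dist_eq_sub_of_le hj.le, show L - 1 - k = L - (k + 1) by omega]
  · rw [if_neg (by omega), Nat.dist_comm, Nat.dist_eq_sub_of_le (by omega), Nat.add_sub_cancel_left]

end

end Pool.Agent.MP_7c51ae_co

/-!
Facts about the chunks and the groups.
-/

set_option autoImplicit false

namespace Pool.Agent.MP_7c51ae_co

open Finset

noncomputable section

/-- the checks on a class -/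
def nt1_kc (c : ℕ) : Bool :=
  and (and (and (Nat.ble (Nat.succ (cj c)) 50) (Nat.ble (Nat.succ (ci c)) (cl (cj c))))
      (and (Nat.beq (ca (cj c) (ci c)) c) (or (Nat.ble (cj c) 48) (Nat.beq c 401))))
    (and (and (and (Nat.ble (t0 c) (t1 c)) (Nat.ble (t1 c) 50))
        (and (Nat.ble 1 (vv c)) (Nat.ble (vv c) 384)))
      (and (and (Nat.ble (t0 (nc c)) (cj c)) (Nat.ble (Nat.succ (cj c)) (t1 (nc c))))
        (and (Nat.beq (cn c) (sm (Nat.sub (t1 c) (t0 c)) fun r => cl (Nat.add (t0 c) r)))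
          (al (Nat.sub (t1 c) (t0 c)) fun r => al (cl (Nat.add (t0 c) r)) fun i =>
            Nat.beq (nc (ca (Nat.add (t0 c) r) i)) c))))

/-- the checks on a chunk -/
def nt1_kj (j : ℕ) : Bool :=
  and (Nat.ble (cl j) 16) (al (cl j) fun i =>
    and (Nat.ble (Nat.succ (ca j i)) 402) (and (Nat.beq (cj (ca j i)) j) (Nat.beq (ci (ca j i)) i)))

/-- `a ≤ t < b` -/
def nt1_in (a t b : ℕ) : Bool := and (Nat.ble a t) (Nat.ble (Nat.succ t) b)

/-- the checks on a product term -/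
def nt1_ky (r : ℕ × ℕ × ℕ × ℕ × ℕ) : Bool :=
  al 8 fun g => and
    (nt1_in (s0 g) (Nat.mod r.1 100) (s0 (Nat.succ g)) ==
      nt1_in (m0 g) (Nat.mod r.2.1 118) (m0 (Nat.succ g)))
    (nt1_in (s0 g) (Nat.mod r.1 100) (s0 (Nat.succ g)) ==
      nt1_in (m0 g) (Nat.mod r.2.2.1 118) (m0 (Nat.succ g)))

/-- the checks on a receiver type -/
def nt1_km (m : ℕ) : Bool :=
  and (and (Nat.ble 1 (omg m)) (Nat.ble (omg m) 43008))
    (Nat.ble ((gw 0 m).ap omg one1 one1) 1048576)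

/-- the checks on a sender type -/
def nt1_kt (t : ℕ) : Bool :=
  and (and (Nat.ble (omu t) 32768) (Nat.ble ((rt t).ap omg) 8589934592))
    (Nat.ble 1 (massL.getD t (0, 1)).2)

theorem nt1_kc_ok : al 402 nt1_kc = true := by decide +kernel
theorem nt1_kj_ok : al 50 nt1_kj = true := by decide +kernel
theorem nt1_ky_ok : ruleL.all nt1_ky = true := by decide +kernel
theorem nt1_km_ok : al 118 nt1_km = true := by decide +kernel
theorem nt1_kt_ok : al 100 nt1_kt = true := by decide +kernel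

theorem nt1_s : s0 0 = 0 ∧ s0 1 = 3 ∧ s0 2 = 16 ∧ s0 3 = 31 ∧ s0 4 = 44 ∧ s0 5 = 59 ∧ s0 6 = 72 ∧
    s0 7 = 87 ∧ s0 8 = 100 := by decide +kernel

theorem nt1_m : m0 0 = 0 ∧ m0 1 = 5 ∧ m0 2 = 21 ∧ m0 3 = 38 ∧ m0 4 = 54 ∧ m0 5 = 71 ∧ m0 6 = 87 ∧
    m0 7 = 104 ∧ m0 8 = 118 := by decide +kernel

theorem nt1_c {c : ℕ} (h : c < 402) :
    ((cj c < 50 ∧ ci c < cl (cj c)) ∧ ca (cj c) (ci c) = c ∧ (cj c ≤ 48 ∨ c = 401)) ∧
      ((t0 c ≤ t1 c ∧ t1 c ≤ 50) ∧ 0 < vv c ∧ vv c ≤ 384) ∧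
        (t0 (nc c) ≤ cj c ∧ cj c < t1 (nc c)) ∧
          cn c = ∑ r ∈ range (t1 c - t0 c), cl (t0 c + r) ∧
            ∀ r < t1 c - t0 c, ∀ i < cl (t0 c + r), nc (ca (t0 c + r) i) = c := by
  have k := (al_iff _ _).1 nt1_kc_ok c h
  simp only [nt1_kc, Bool.and_eq_true, Bool.or_eq_true, Nat.ble_eq, Nat.beq_eq, al_iff, sm_eq] at k
  exact k

theorem nt1_j {j : ℕ} (h : j < 50) :
    cl j ≤ 16 ∧ ∀ i < cl j, ca j i < 402 ∧ cj (ca j i) = j ∧ ci (ca j i) = i := by
  have k := (al_iff _ _).1 nt1_kj_ok j h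
  simp only [nt1_kj, Bool.and_eq_true, Nat.ble_eq, Nat.beq_eq, al_iff] at k
  exact k

theorem cj_lt {c : ℕ} (h : c < 402) : cj c < 50 ∧ ci c < cl (cj c) := (nt1_c h).1.1

theorem cl_le {j : ℕ} (h : j < 50) : cl j ≤ 16 := (nt1_j h).1

theorem cj_zero : cj 0 = 0 := by decide +kernel

theorem cj_top {c : ℕ} (h : c < 402) : cj c = 49 ↔ c = 401 := by
  constructor
  · intro e
    have := (nt1_c h).1.2.2
    omega
  · rintro rfl
    decide +kernel

theorem chunk_sum {R : Type} [AddCommMonoid R] (f : ℕ → ℕ → R) :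
    ∑ j ∈ range 50, ∑ i ∈ range (cl j), f j i = ∑ c ∈ range 402, f (cj c) (ci c) := by
  rw [sum_sigma']
  refine sum_nbij' (fun x => ca x.1 x.2) (fun c => ⟨cj c, ci c⟩) ?_ ?_ ?_ ?_ ?_
  · rintro ⟨j, i⟩ hx
    rw [mem_sigma, mem_range, mem_range] at hx
    exact mem_range.2 ((nt1_j hx.1).2 i hx.2).1
  · intro c hc
    rw [mem_sigma, mem_range, mem_range]
    exact cj_lt (mem_range.1 hc)
  · rintro ⟨j, i⟩ hx
    rw [mem_sigma, mem_range, mem_range] at hx
    have k := ((nt1_j hx.1).2 i hx.2).2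
    show (⟨cj (ca j i), ci (ca j i)⟩ : (_ : ℕ) × ℕ) = ⟨j, i⟩
    rw [k.1, k.2]
  · intro c hc
    exact (nt1_c (mem_range.1 hc)).1.2.1
  · rintro ⟨j, i⟩ hx
    rw [mem_sigma, mem_range, mem_range] at hx
    have k := ((nt1_j hx.1).2 i hx.2).2
    show f j i = f (cj (ca j i)) (ci (ca j i))
    rw [k.1, k.2]

theorem t1_le {c : ℕ} (h : c < 402) : t0 c ≤ t1 c ∧ t1 c ≤ 50 := (nt1_c h).2.1.1

theorem nt1_nc {c c' : ℕ} (h : c < 402) (h' : c' < 402) :
    nc c' = c ↔ cj c' ∈ Ico (t0 c) (t1 c) := by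
  rw [mem_Ico]
  constructor
  · rintro rfl
    exact (nt1_c h').2.2.1
  · intro k
    have e : t0 c + (cj c' - t0 c) = cj c' := by omega
    have k2 := (nt1_c h).2.2.2.2 (cj c' - t0 c) (by omega) (ci c')
    rw [e, (nt1_c h').1.2.1] at k2
    exact k2 (cj_lt h').2

theorem pre_sum {R : Type} [AddCommMonoid R] (f : ℕ → ℕ → R) {c : ℕ} (h : c < 402) :
    ∑ r ∈ range (t1 c - t0 c), ∑ i ∈ range (cl (t0 c + r)), f (t0 c + r) i =
      ∑ c' ∈ range 402, if nc c' = c then f (cj c') (ci c') else 0 := by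
  have e := chunk_sum fun j i => if j ∈ Ico (t0 c) (t1 c) then f j i else 0
  have e2 : ∑ c' ∈ range 402, (if nc c' = c then f (cj c') (ci c') else 0) =
      ∑ c' ∈ range 402, if cj c' ∈ Ico (t0 c) (t1 c) then f (cj c') (ci c') else 0 :=
    sum_congr rfl fun c' hc => if_congr (nt1_nc h (mem_range.1 hc)) rfl rfl
  have e3 : range 50 ∩ Ico (t0 c) (t1 c) = Ico (t0 c) (t1 c) :=
    inter_eq_right.2 fun j hj => mem_range.2 ((mem_Ico.1 hj).2.trans_le (t1_le h).2)
  rw [e2, ← e, ← sum_Ico_eq_sum_range (fun j => ∑ i ∈ range (cl j), f j i), ← e3, ← sum_ite_mem]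
  refine sum_congr rfl fun j _ => ?_
  rw [e3]
  split_ifs
  · rfl
  · exact sum_const_zero.symm

theorem cn_eq {c : ℕ} (h : c < 402) : cn c = ∑ c' ∈ range 402, if nc c' = c then 1 else 0 := by
  rw [(nt1_c h).2.2.2.1, ← pre_sum (fun _ _ => 1) h]
  refine sum_congr rfl fun r _ => ?_
  rw [sum_const, card_range, smul_eq_mul, mul_one]

theorem nc_lt {c : ℕ} (h : c < 402) : nc c < 402 := (N1.k3_all h).1

theorem nc_top : nc 401 = 401 := by decide +kernel

theorem vv_le {c : ℕ} (h : c < 402) : 0 < vv c ∧ vv c ≤ 384 := (nt1_c h).2.1.2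

theorem vv_one : vv 1 = 24 := by decide +kernel

theorem evn_cls (A : St) : evn (cls A) = decide (Even A.card) := by
  rw [Bool.eq_iff_iff, decide_eq_true_iff, evn, Nat.beq_eq, cls_card, Nat.even_iff]
  rfl

theorem nt1_smono {g : ℕ} (hg : g < 8) : s0 g ≤ s0 (g + 1) ∧ s0 (g + 1) ≤ 100 := by
  obtain ⟨h0, h1, h2, h3, h4, h5, h6, h7, h8⟩ := nt1_s
  interval_cases g <;> simp only [Nat.reduceAdd] <;> omega

theorem nt1_mmono {g : ℕ} (hg : g < 8) : m0 g ≤ m0 (g + 1) ∧ m0 (g + 1) ≤ 118 := by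
  obtain ⟨h0, h1, h2, h3, h4, h5, h6, h7, h8⟩ := nt1_m
  interval_cases g <;> simp only [Nat.reduceAdd] <;> omega

theorem nt1_nS (g : ℕ) : nS g = s0 (g + 1) - s0 g := rfl

theorem nt1_nM (g : ℕ) : nM g = m0 (g + 1) - m0 g := rfl

theorem InS.lt {g t : ℕ} (h : InS g t) : t < 100 := h.2.2.trans_le (nt1_smono h.1).2

theorem InM.lt {g m : ℕ} (h : InM g m) : m < 118 := h.2.2.trans_le (nt1_mmono h.1).2

theorem InS.sub {g t : ℕ} (h : InS g t) : t - s0 g < nS g ∧ s0 g + (t - s0 g) = t := by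
  obtain ⟨_, h1, h2⟩ := h
  rw [nt1_nS]
  omega

theorem InM.sub {g m : ℕ} (h : InM g m) : m - m0 g < nM g ∧ m0 g + (m - m0 g) = m := by
  obtain ⟨_, h1, h2⟩ := h
  rw [nt1_nM]
  omega

theorem inS_add {g i : ℕ} (hg : g < 8) (h : i < nS g) : InS g (s0 g + i) := by
  rw [nt1_nS] at h
  exact ⟨hg, by omega, by omega⟩

theorem inM_add {g i : ℕ} (hg : g < 8) (h : i < nM g) : InM g (m0 g + i) := by
  rw [nt1_nM] at h
  exact ⟨hg, by omega, by omega⟩

theorem nt1_ex (a : ℕ → ℕ) {t : ℕ} (h0 : a 0 = 0) :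
    ∀ n, t < a n → ∃ g, g < n ∧ a g ≤ t ∧ t < a (g + 1) := by
  intro n
  induction n with
  | zero => intro h; omega
  | succ n ih =>
    intro h
    by_cases k : t < a n
    · obtain ⟨g, h1, h2⟩ := ih k
      exact ⟨g, by omega, h2⟩
    · exact ⟨n, by omega, by omega, h⟩

theorem exists_inS {t : ℕ} (h : t < 100) : ∃ g, InS g t :=
  nt1_ex s0 nt1_s.1 8 (by rw [nt1_s.2.2.2.2.2.2.2.2]; exact h)

theorem exists_inM {m : ℕ} (h : m < 118) : ∃ g, InM g m :=
  nt1_ex m0 nt1_m.1 8 (by rw [nt1_m.2.2.2.2.2.2.2.2]; exact h)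

theorem nt1_grp {R : Type} [AddCommMonoid R] (f : ℕ → R) :
    ∀ n ≤ 8, ∑ t ∈ range (s0 n), f t = ∑ g ∈ range n, ∑ i ∈ range (nS g), f (s0 g + i) := by
  intro n
  induction n with
  | zero => intro _; rw [nt1_s.1, range_zero, sum_empty, sum_empty]
  | succ n ih =>
    intro h
    rw [sum_range_succ, ← ih (by omega), ← sum_range_add, nt1_nS,
      Nat.add_sub_cancel' (nt1_smono h).1]

theorem grp_sum {R : Type} [AddCommMonoid R] (f : ℕ → R) :
    ∑ t : Fin 100, f t = ∑ g ∈ range 8, ∑ i ∈ range (nS g), f (s0 g + i) := by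
  rw [← nt1_grp f 8 le_rfl, nt1_s.2.2.2.2.2.2.2.2]
  exact Fin.sum_univ_eq_sum_range f 100

theorem nt1_y {g : ℕ} (hg : g < 8) (y : Fin ruleL.length) :
    (InS g (sys.ys y) ↔ InM g (sys.ya y)) ∧ (InS g (sys.ys y) ↔ InM g (sys.yb y)) := by
  have k := (al_iff _ _).1 (List.all_eq_true.1 nt1_ky_ok _ (List.get_mem ruleL y)) g hg
  rw [Bool.and_eq_true, beq_iff_eq, beq_iff_eq] at k
  have k1 := Bool.eq_iff_iff.1 k.1
  have k2 := Bool.eq_iff_iff.1 k.2
  simp only [nt1_in, Bool.and_eq_true, Nat.ble_eq] at k1 k2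
  exact ⟨and_congr_right fun _ => k1, and_congr_right fun _ => k2⟩

theorem loc_s {g : ℕ} (y : Fin ruleL.length) (h : InS g (sys.ys y)) :
    InM g (sys.ya y) ∧ InM g (sys.yb y) := ⟨(nt1_y h.1 y).1.1 h, (nt1_y h.1 y).2.1 h⟩

theorem loc_a {g : ℕ} (y : Fin ruleL.length) (h : InM g (sys.ya y)) : InS g (sys.ys y) :=
  (nt1_y h.1 y).1.2 h

theorem loc_b {g : ℕ} (y : Fin ruleL.length) (h : InM g (sys.yb y)) : InS g (sys.ys y) :=
  (nt1_y h.1 y).2.2 h

theorem nt1_mm {m : ℕ} (h : m < 118) :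
    (1 ≤ omg m ∧ omg m ≤ 43008) ∧ (gw 0 m).ap omg one1 one1 ≤ 1048576 := by
  have k := (al_iff _ _).1 nt1_km_ok m h
  simp only [nt1_km, Bool.and_eq_true, Nat.ble_eq] at k
  exact k

theorem nt1_tt {t : ℕ} (h : t < 100) :
    (omu t ≤ 32768 ∧ (rt t).ap omg ≤ 8589934592) ∧ 1 ≤ (massL.getD t (0, 1)).2 := by
  have k := (al_iff _ _).1 nt1_kt_ok t h
  simp only [nt1_kt, Bool.and_eq_true, Nat.ble_eq] at k
  exact k

theorem omg_le {m : ℕ} (h : m < 118) : 1 ≤ omg m ∧ omg m ≤ 43008 := (nt1_mm h).1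

theorem omu_le {t : ℕ} (h : t < 100) : omu t ≤ 2 ^ 15 := (nt1_tt h).1.1.trans_eq (by norm_num)

theorem rt_omg {t : ℕ} (h : t < 100) : (rt t).ap omg ≤ 2 ^ 33 :=
  (nt1_tt h).1.2.trans_eq (by norm_num)

theorem gw_omg {m : ℕ} (h : m < 118) : (gw 0 m).ap omg one1 one1 ≤ 2 ^ 20 :=
  (nt1_mm h).2.trans_eq (by norm_num)

theorem mass_den {t : ℕ} (h : t < 100) : 0 < (massL.getD t (0, 1)).2 := (nt1_tt h).2

theorem xw_eq (x : Fin mixL.length) : sys.xw x = wx x / 2048 := rfl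

theorem yw_eq (y : Fin ruleL.length) : sys.yw y = wy y / 8 := rfl

end

end Pool.Agent.MP_7c51ae_co

/-!
The boxed rows are the rows of the system.
-/

set_option autoImplicit false

namespace Pool.Agent.MP_7c51ae_co

open Finset

noncomputable section

namespace NT2

theorem an_iff {a b : Bool} : an a b = true ↔ a = true ∧ b = true := by
  cases a <;> simp [an]

theorem grp_zero (A : ℕ → ℕ) (s : ℕ) : grp A 0 s = A (ix s) := rfl
theorem grp_succ (A : ℕ → ℕ) (n s : ℕ) :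
    grp A (n + 1) s = A (ix s) + grp A n (Nat.shiftRight s 16) := rfl

theorem row_succ (l s : ℕ) : ∃ (n t : ℕ) (b : Bool), ∀ G A : ℕ → ℕ → ℕ,
    row G A (l + 1) s = G (ix s) (grp (A (ix s)) n s) + if b then 0 else row G A l t := by
  refine ⟨fd 11 31 s, Nat.shiftRight s (Nat.mul 16 (Nat.add (fd 11 31 s) 1)),
    Nat.beq (Nat.shiftRight s (Nat.mul 16 (Nat.add (fd 11 31 s) 1))) 0, fun G A => ?_⟩
  have k : ∀ (a c : ℕ) (b : Bool), @Bool.rec (fun _ => ℕ) (Nat.add a c) a b =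
      a + if b then 0 else c := fun a c b => by cases b <;> rfl
  exact k _ _ _

theorem ix_lt (s : ℕ) : ix s < 2048 :=
  lt_of_le_of_lt (Nat.sub_le _ _) (Nat.lt_succ_of_le Nat.and_le_right)

/-- linear forms -/
def Li (f : (ℕ → ℕ) → ℕ) : Prop := ∃ a : ℕ → ℕ, ∀ X, f X = ∑ i ∈ range 2048, a i * X i

theorem Li.zero : Li fun _ => 0 := ⟨fun _ => 0, fun X => by simp⟩

theorem Li.var {i : ℕ} (h : i < 2048) : Li fun X => X i :=
  ⟨fun k => if k = i then 1 else 0, fun X => by simp [h]⟩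

theorem Li.add {f g : (ℕ → ℕ) → ℕ} (hf : Li f) (hg : Li g) : Li fun X => f X + g X := by
  obtain ⟨a, ha⟩ := hf
  obtain ⟨b, hb⟩ := hg
  exact ⟨fun i => a i + b i, fun X => by simp only [ha, hb, add_mul, sum_add_distrib]⟩

theorem Li.sum (n : ℕ) {f : ℕ → (ℕ → ℕ) → ℕ} (hf : ∀ i < n, Li (f i)) :
    Li fun X => ∑ i ∈ range n, f i X := by
  induction n with
  | zero => exact Li.zero
  | succ n ih =>
    simp only [sum_range_succ]
    exact (ih fun i hi => hf i (by omega)).add (hf n (by omega))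

theorem Li.ext {f g : (ℕ → ℕ) → ℕ} (hf : Li f) (hg : Li g) (h1 : f (fun _ => 1) ≤ 2048)
    (h2 : g (fun _ => 1) ≤ 2048) (h : f hs = g hs) (X : ℕ → ℕ) : f X = g X := by
  obtain ⟨a, ha⟩ := hf
  obtain ⟨b, hb⟩ := hg
  have k : ∀ a : ℕ → ℕ, ∑ i ∈ range 2048, a i * 1 ≤ 2048 → ∀ i < 2048, a i < 2 ^ 12 :=
    fun a ha i hi => by
      have := single_le_sum (f := fun i => a i * 1) (fun _ _ => Nat.zero_le _) (mem_range.2 hi)
      omega
  rw [ha] at h1
  rw [hb] at h2
  have e : ∀ i, hs i = 2 ^ (12 * i) := fun i => (Nat.shiftLeft_eq 1 _).trans (one_mul _)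
  rw [ha, hb] at h ⊢
  simp only [e] at h
  exact sum_congr rfl fun i hi => by rw [N1.n1_uq (k a h1) (k b h2) h (mem_range.1 hi)]

theorem li_grp (n s : ℕ) : Li fun X => grp X n s := by
  induction n generalizing s with
  | zero => exact Li.var (ix_lt s)
  | succ n ih => exact (Li.var (ix_lt s)).add (ih _)

theorem li_row (l s : ℕ) : Li fun X => row i2 (fun _ => X) l s := by
  induction l generalizing s with
  | zero => exact Li.zero
  | succ l ih =>
    obtain ⟨n, t, b, h⟩ := row_succ l s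
    simp only [h, i2]
    cases b
    · exact (li_grp n s).add (ih t)
    · exact (li_grp n s).add Li.zero

theorem grp_congr {P A B : ℕ → ℕ} {c : ℕ} (h : ∀ y, P y = 0 → c * A y = B y) (n s : ℕ)
    (h0 : grp P n s = 0) : c * grp A n s = grp B n s := by
  induction n generalizing s with
  | zero => exact h _ h0
  | succ n ih =>
    rw [grp_succ, Nat.add_eq_zero_iff] at h0
    rw [grp_succ, grp_succ, mul_add, h _ h0.1, ih _ h0.2]

theorem row_congr {P G A : ℕ → ℕ → ℕ} {B c : ℕ → ℕ} (hG : ∀ y S, G y S = c y * S)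
    (h : ∀ z y, P z y = 0 → c z * A z y = B y) (l s : ℕ) (h0 : row i2 P l s = 0) :
    row G A l s = row i2 (fun _ => B) l s := by
  induction l generalizing s with
  | zero => rfl
  | succ l ih =>
    obtain ⟨n, t, b, e⟩ := row_succ l s
    simp only [e, i2, Nat.add_eq_zero_iff] at h0 ⊢
    rw [hG, grp_congr (h _) n s h0.1]
    cases b
    · exact congrArg _ (ih t h0.2)
    · rfl

theorem row_zero (l s : ℕ) : row (fun _ _ => 0) (fun _ _ => 0) l s = 0 := by
  induction l generalizing s with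
  | zero => rfl
  | succ l ih =>
    obtain ⟨n, t, b, e⟩ := row_succ l s
    simp only [e, ih, ite_self]

theorem kf_ex (r : ℕ) : ∃ l s, ∀ G A, kf G A r = row G A l s := ⟨_, _, fun _ _ => rfl⟩

theorem ck_sound {o R n : ℕ} {ρ hd : ℕ → ℕ} (hn : n ≤ 2048) (h : ck o R n ρ hd = true)
    {G : ℕ → ℕ → ℕ} {c A : ℕ → ℕ} (hG : ∀ y S, G y S = c (hd y) * S) {r : ℕ} (hr : r < R) :
    kf G (fun _ => A) (o + r) = ∑ y ∈ range n, if ρ y = r then c (hd y) * A y else 0 := by
  simp only [ck, an_iff, al_iff, sm_eq, cnd_eq, Nat.beq_eq, Nat.ble_eq] at h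
  obtain ⟨h1, h2, h3⟩ := h
  have k := Li.ext (f := fun M => ∑ r ∈ range R, kf i2 (fun _ => M) (o + r))
    (g := fun M => ∑ y ∈ range n, if R ≤ ρ y then 0 else M y)
    (Li.sum R fun r _ => by
      obtain ⟨l, s, e⟩ := kf_ex (o + r)
      simp only [e]; exact li_row l s)
    (Li.sum n fun y hy => by split_ifs; exacts [Li.zero, Li.var (by omega)]) h2
    ((sum_le_card_nsmul _ _ 1 fun y _ => by split_ifs <;> simp).trans (by simpa using hn)) h3
    fun y => if ρ y = r then c (hd y) * A y else 0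
  rw [sum_eq_single_of_mem r (mem_range.2 hr)] at k
  · obtain ⟨l, s, e⟩ := kf_ex (o + r)
    have := h1 r hr
    rw [Nat.add_eq, e] at this
    rw [e] at k ⊢
    rw [row_congr (c := fun y => c (hd y)) hG (fun z y p => ?_) l s this, k]
    · exact sum_congr rfl fun y _ => by beta_reduce; split_ifs <;> first | rfl | omega
    · split_ifs at p with q
      rw [if_pos q.1, q.2]
  · intro r' hr' ne
    obtain ⟨l, s, e⟩ := kf_ex (o + r')
    have := h1 r' (mem_range.1 hr')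
    rw [Nat.add_eq, e] at this
    rw [e, ← row_congr (G := fun _ _ => 0) (c := fun _ => 0) (A := fun _ _ => 0) (by simp)
      (fun z y p => ?_) l s this]
    · exact row_zero l s
    · split_ifs at p with q
      rw [if_neg (by omega)]

theorem lst_eq {α : Type} {n : ℕ} {f g : ℕ → α} (h : lst n f = lst n g) : ∀ i < n, f i = g i := by
  induction n with
  | zero => intro i hi; omega
  | succ n ih =>
    have h' : f n :: lst n f = g n :: lst n g := h
    intro i hi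
    rcases Nat.lt_succ_iff_lt_or_eq.1 hi with h1 | rfl
    · exact ih (List.cons.inj h').2 i h1
    · exact (List.cons.inj h').1

theorem lc_sound {α : Type} {f : ℕ → α → Bool} {l : List α} {i : ℕ} (h : lc f l i = true)
    (k : Fin l.length) : f (i + k) (l.get k) = true := by
  induction l generalizing i with
  | nil => exact k.elim0
  | cons a l ih =>
    have h' : an (f i a) (lc f l (i + 1)) = true := h
    rw [an_iff] at h'
    rcases k with ⟨_ | k, hk⟩
    · exact h'.1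
    · have := ih h'.2 ⟨k, by simpa using hk⟩
      rwa [add_assoc, add_comm 1] at this

theorem wm_eq (w S : ℕ) : wm w S = w * S := by
  simp only [wm, frc_eq, cnd_eq, Nat.beq_eq, Nat.mul_eq]
  split_ifs with h
  · rw [h, one_mul]
  · rfl

theorem xe_le (y : ℕ) : xe y ≤ 1 := Nat.and_le_right

theorem x_eq (x : Fin mixL.length) : (sys.xm x).val = xm x ∧ (sys.xs x).val = xs x ∧
    sys.xe x = (xe x == 1) ∧ wx x = xw x := by
  have := lc_sound x_ok x
  simp only [an_iff, Nat.beq_eq, zero_add] at this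
  exact ⟨this.1, this.2.1, congrArg (· == 1) this.2.2.1, this.2.2.2⟩

theorem y_eq (y : Fin ruleL.length) : (sys.ys y).val = ys y ∧ (sys.ya y).val = ya y ∧
    (sys.yb y).val = yb y ∧ (sys.yi y).val = yi y ∧ wy y = yw y := by
  have := lc_sound y_ok y
  simp only [an_iff, Nat.beq_eq, zero_add] at this
  exact this

theorem x_sum (f : ℕ → ℕ) : ∑ y ∈ range 665, f y = ∑ x : Fin mixL.length, f x := by
  rw [Fin.sum_univ_eq_sum_range, x_len]

theorem y_sum (f : ℕ → ℕ) : ∑ y ∈ range 601, f y = ∑ x : Fin ruleL.length, f x := by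
  rw [Fin.sum_univ_eq_sum_range, y_len]

theorem par {a m b e : ℕ} (hb : b ≤ 1) (he : e < 2) :
    2 * a + b = 2 * m + e ↔ a = m ∧ (b == 1) = (e == 1) := by
  interval_cases b <;> interval_cases e <;> simp <;> omega

theorem sum_two (n : ℕ) (f : ℕ → ℕ) :
    ∑ e ∈ range (2 * n), f e = ∑ y ∈ range n, (f (2 * y) + f (2 * y + 1)) := by
  induction n with
  | zero => rfl
  | succ n ih => rw [mul_add, mul_one, sum_range_succ, sum_range_succ, ih, sum_range_succ, add_assoc]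

end NT2

open NT2

theorem mix_row {e m : ℕ} (he : e < 2) (h : m < 118) (X : ℕ → ℕ) :
    (mixN e m).ap X = ∑ x, if (sys.xm x).val = m ∧ sys.xe x = (e == 1) then
      wx x * X (sys.xs x) else 0 := by
  have k := ck_sound (by norm_num) c1_ok (G := fun y => wm (xw y)) (c := id)
    (A := fun y => X (xs y)) (fun y S => wm_eq _ _) (r := 2 * m + e) (by omega)
  rw [zero_add, x_sum] at k
  rw [mixN, lst_eq mix_raw _ (by show 2 * m + e < _; omega)]
  refine k.trans (sum_congr rfl fun x _ => ?_)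
  obtain ⟨a, b, c, d⟩ := x_eq x
  rw [a, b, c, d]
  exact if_congr (par (xe_le x) he) rfl rfl


theorem up_row {e t : ℕ} (he : e < 2) (h : t < 100) (X : ℕ → ℕ) :
    (upN e t).ap X = ∑ x, if (sys.xs x).val = t ∧ sys.xe x = (e == 1) then
      wx x * X (sys.xm x) else 0 := by
  have k := ck_sound (by norm_num) c2_ok (G := fun y => wm (xw y)) (c := id)
    (A := fun y => X (xm y)) (fun y S => wm_eq _ _) (r := 2 * t + e) (by omega)
  rw [x_sum] at k
  rw [upN, lst_eq up_raw _ (by show 2 * t + e < _; omega)]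
  refine k.trans (sum_congr rfl fun x _ => ?_)
  obtain ⟨a, b, c, d⟩ := x_eq x
  rw [a, b, c, d]
  exact if_congr (par (xe_le x) he) rfl rfl


theorem ra_row {p t : ℕ} (hp : p ≤ 2) (h : t < 100) (X : ℕ → ℕ) :
    (ra p t).ap X = ∑ y, if (sys.ys y).val = t ∧ p < (sys.yi y).val then
      wy y * (X (sys.ya y) * X (sys.yb y)) else 0 := by
  have k := ck_sound (by norm_num) ((al_iff _ _).1 c3_ok p (by omega)) (G := fun y => wm (yw y))
    (c := id) (A := pr X 0) (fun y S => wm_eq _ _) h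
  rw [y_sum, Nat.add_eq, add_assoc] at k
  rw [ra, lst_eq ra_raw _ (by show 100 * p + t < _; omega)]
  refine k.trans (sum_congr rfl fun x _ => ?_)
  obtain ⟨a, b, c, d, e⟩ := y_eq x
  rw [a, b, c, d, e]
  refine if_congr ?_ rfl rfl
  simp only [rA, cnd_eq, Nat.ble_eq]
  split_ifs <;> omega


theorem rb_row {p t : ℕ} (hp : p ≤ 2) (h : t < 100) (X : ℕ → ℕ) :
    (rb p t).ap X = ∑ y, if (sys.ys y).val = t ∧ (sys.yi y).val = p then
      wy y * (X (sys.ya y) * X (sys.yb y)) else 0 := by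
  have k := ck_sound (by norm_num) ((al_iff _ _).1 c4_ok p (by omega)) (G := fun y => wm (yw y))
    (c := id) (A := pr X 0) (fun y S => wm_eq _ _) h
  rw [y_sum, Nat.add_eq, add_assoc] at k
  rw [rb, lst_eq rb_raw _ (by show 100 * p + t < _; omega)]
  refine k.trans (sum_congr rfl fun x _ => ?_)
  obtain ⟨a, b, c, d, e⟩ := y_eq x
  rw [a, b, c, d, e]
  refine if_congr ?_ rfl rfl
  simp only [rB, cnd_eq, Nat.beq_eq]
  split_ifs <;> omega


theorem rt_row {t : ℕ} (h : t < 100) (X : ℕ → ℕ) :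
    (rt t).ap X = ∑ y, if (sys.ys y).val = t then wy y * (X (sys.ya y) * X (sys.yb y)) else 0 := by
  have k := ck_sound (by norm_num) c5_ok (G := fun y => wm (yw y))
    (c := id) (A := pr X 0) (fun y S => wm_eq _ _) h
  rw [y_sum] at k
  rw [rt, lst_eq rt_raw _ h]
  refine k.trans (sum_congr rfl fun x _ => ?_)
  obtain ⟨a, b, c, d, e⟩ := y_eq x
  rw [a, b, c, e]
  rfl


theorem gw_row {p m : ℕ} (hp : p ≤ 2) (h : m < 118) (X Q H : ℕ → ℕ) :
    (gw p m).ap X Q H = ∑ y,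
      ((if (sys.ya y).val = m then wy y * (X (sys.yb y) *
        if (sys.yi y).val = p then Q (sys.ys y) else if p < (sys.yi y).val then H (sys.ys y) else 0)
        else 0) +
      (if (sys.yb y).val = m then wy y * (X (sys.ya y) *
        if (sys.yi y).val = p then Q (sys.ys y) else if p < (sys.yi y).val then H (sys.ys y) else 0)
        else 0)) := by
  have k := ck_sound (by norm_num) ((al_iff _ _).1 c6_ok p (by omega))
    (G := fun e => Nat.mul (X (ot e))) (c := X) (A := fun e => qh p Q H (e / 2))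
    (fun y S => rfl) h
  rw [sum_two 601, y_sum, Nat.add_eq, add_assoc] at k
  have e0 : Nat.div (Nat.add (Nat.mul 118 p) m) 118 = p := by
    show (118 * p + m) / 118 = p
    omega
  rw [gw, lst_eq gw_raw _ (by show 118 * p + m < _; omega), e0]
  refine k.trans (sum_congr rfl fun x _ => ?_)
  obtain ⟨a, b, c, d, e⟩ := y_eq x
  rw [a, b, c, d, e]
  have e1 : Nat.div (2 * x) 2 = x := by show 2 * x.1 / 2 = x; omega
  have e2 : Nat.div (2 * x + 1) 2 = x := by show (2 * x.1 + 1) / 2 = x; omega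
  have e3 : Nat.mod (2 * x) 2 = 0 := by show 2 * x.1 % 2 = 0; omega
  have e4 : Nat.mod (2 * x + 1) 2 = 1 := by show (2 * x.1 + 1) % 2 = 1; omega
  have e5 : 2 * x.1 / 2 = x := e1
  have e6 : (2 * x.1 + 1) / 2 = x := e2
  simp only [rG, ot, qh, wm_eq, cnd_eq, Nat.beq_eq, Nat.ble_eq, e1, e2, e3, e4, e5, e6, if_true,
    one_ne_zero, if_false]
  congr 1 <;> split_ifs <;> first | omega | ring1


theorem omg_eq {m : ℕ} (h : m < 118) : omg m = ∑ x, if (sys.xm x).val = m then wx x else 0 := by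
  rw [omg, mix_row (by norm_num) h, mix_row (by norm_num) h, Nat.add_eq, ← sum_add_distrib]
  refine sum_congr rfl fun x _ => ?_
  cases sys.xe x <;> simp [one1]


theorem omu_eq {t : ℕ} (h : t < 100) : omu t = ∑ x, if (sys.xs x).val = t then wx x else 0 := by
  rw [omu, up_row (by norm_num) h, up_row (by norm_num) h, Nat.add_eq, ← sum_add_distrib]
  refine sum_congr rfl fun x _ => ?_
  cases sys.xe x <;> simp [one1]


theorem om2_le {t : ℕ} (h : t < 100) :
    (∑ y, if (sys.ys y).val = t then wy y * (omg (sys.ya y) * omg (sys.yb y)) else 0) ≤ 2 ^ 33 :=   (rt_row h omg).ge.trans (rt_omg h)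


theorem omp_le {m : ℕ} (h : m < 118) :
    ∑ y, ((if (sys.ya y).val = m then wy y * omg (sys.yb y) else 0) +
      (if (sys.yb y).val = m then wy y * omg (sys.ya y) else 0)) ≤ 2 ^ 20 := by
  refine le_trans (le_of_eq ?_) (gw_omg h)
  rw [gw_row (by norm_num) h]
  refine sum_congr rfl fun y _ => ?_
  have : (if (sys.yi y).val = 0 then one1 (sys.ys y) else
      if 0 < (sys.yi y).val then one1 (sys.ys y) else 0) = 1 := by
    split_ifs <;> first | rfl | omega
  simp only [this, mul_one]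


theorem z0_le (m : Fin 118) : sys.z0 mass0 m ≤ 3 / 2 := by
  have k := (al_iff _ _).1 z_ok m m.2
  rw [Nat.ble_eq, mix_row (by norm_num) m.2, mix_row (by norm_num) m.2, Nat.add_eq,
    ← sum_add_distrib] at k
  have k' : (∑ x, if sys.xm x = m then (wx x : ℝ) * mu (sys.xs x) else 0) ≤ 3221225472 := by
    refine le_trans (le_of_eq ?_) (Nat.cast_le.2 k : (_ : ℝ) ≤ ((3221225472 : ℕ) : ℝ)) |>.trans
      (by norm_num)
    rw [Nat.cast_sum]
    refine sum_congr rfl fun x _ => ?_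
    cases sys.xe x <;> simp only [Fin.ext_iff, Nat.reduceBEq, and_true, BEq.rfl, Bool.false_eq_true, and_false, ↓ reduceIte, add_zero, Nat.cast_ite, Nat.cast_mul, CharP.cast_eq_zero, Bool.true_eq_false, zero_add]
  have b : ∀ s : Fin 100, mass0 s ≤ mu s / 1048576 := fun s => by
    have d := mass_den s.2
    rw [mass0, div_le_div_iff₀ (by exact_mod_cast d) (by norm_num)]
    have := Nat.lt_div_mul_add (a := (massL.getD s (0, 1)).1 * 1048576) d
    have e : (massL.getD s (0, 1)).1 * 1048576 ≤ mu s * (massL.getD s (0, 1)).2 := by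
      show _ ≤ ((massL.getD s (0, 1)).1 * 1048576 / (massL.getD s (0, 1)).2 + 1) * _
      rw [add_mul, one_mul]; exact this.le
    exact_mod_cast e
  calc _ ≤ (∑ x, if sys.xm x = m then (wx x : ℝ) * mu (sys.xs x) else 0) / 2147483648 := by
        rw [Sys.z0, sum_div]
        refine sum_le_sum fun x _ => ?_
        split_ifs
        · rw [xw_eq]
          calc _ ≤ (wx x : ℝ) / 2048 * (mu (sys.xs x) / 1048576) := by gcongr; exact b _
            _ = _ := by ring
        · simp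
    _ ≤ _ := by linarith only [k']


end

end Pool.Agent.MP_7c51ae_co

/-!
Unpacking the data.
-/

set_option autoImplicit false

namespace Pool.Agent.MP_7c51ae_co

open Finset

noncomputable section

theorem nu_rep (L n : ℕ) (f : ℕ → ℕ) :
    Nat.mul (ds 192 L f) (ones (192 * L) n) = n4b_bs 192 L n fun _ r => f r := by
  rcases Nat.eq_zero_or_pos L with rfl | hL
  · show 0 * _ = ds _ n fun _ => 0
    simp [ds]
  · show ds 192 L f * ones (192 * L) n = _
    rw [ones_eq (by omega), mul_comm, n4b_mul]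
    exact ds_congr fun _ _ => one_mul _

theorem nu_modeq (b n : ℕ) (f : ℕ → ℕ) : ds b n f ≡ ∑ i ∈ range n, f i [MOD msk b] := by
  have h1 : 2 ^ b ≡ 1 [MOD msk b] := by
    rw [msk_eq]
    exact ((Nat.modEq_iff_dvd' Nat.one_le_two_pow).2 dvd_rfl).symm
  induction n with
  | zero => rfl
  | succ n ih =>
    rw [n4_succ, sum_range_succ, pow_mul]
    refine ih.add ?_
    have h2 := (h1.pow n).mul_left (f n)
    rwa [one_pow, mul_one] at h2

theorem nu_lin {ι : Type} (S : Finset ι) (w : ι → ℕ) (b n : ℕ) (f : ι → ℕ → ℕ) :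
    ∑ x ∈ S, w x * ds b n (f x) = ds b n fun i => ∑ x ∈ S, w x * f x i := by
  simp only [ds, mul_sum, sum_mul, mul_assoc]
  exact sum_comm

theorem nu_sum {ι : Type} (S : Finset ι) (b n : ℕ) (f : ι → ℕ → ℕ) :
    ∑ x ∈ S, ds b n (f x) = ds b n fun i => ∑ x ∈ S, f x i := by
  simp only [ds, sum_mul]
  exact sum_comm

theorem nu_alt {L : ℕ} (ho : Odd L) : ∑ k ∈ range L, (-1 : ℤ) ^ (k + 1) = -1 := by
  obtain ⟨m, rfl⟩ := ho
  induction m with
  | zero => simp only [mul_zero, zero_add, range_one, Int.reduceNeg, sum_singleton, pow_one]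
  | succ m ih =>
    rw [show 2 * (m + 1) + 1 = 2 * m + 1 + 1 + 1 by ring, sum_range_succ, sum_range_succ, ih]
    ring

namespace Dat

variable {d : Dat} {L : ℕ}

theorem ok_L (h : d.ok L = true) : d.L = L ∧ d.w = 192 * L := by
  have h1 : d.L = L := Nat.eq_of_beq_eq_true (Bool.and_eq_true_iff.1 h).1
  exact ⟨h1, congrArg (fun x => 192 * x) h1⟩

theorem nu_bw (h : d.ok L = true) {j k : ℕ} (hj : j < 50) (hk : k < L) : d.bw j k ≤ 64 := by
  have h2 := (al_iff _ _).1 (Bool.and_eq_true_iff.1 (Bool.and_eq_true_iff.1 h).2).2 j hj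
  exact Nat.le_of_ble_eq_true ((al_iff _ _).1 h2 k ((ok_L h).1.symm ▸ hk))

theorem nu_bw0 (h : d.ok L = true) {k : ℕ} (hk : k < L) : d.bw 0 k = 0 :=
  Nat.eq_of_beq_eq_true ((al_iff _ _).1
    (Bool.and_eq_true_iff.1 (Bool.and_eq_true_iff.1 h).2).1 k ((ok_L h).1.symm ▸ hk))

theorem nu_item (h : d.ok L = true) (hL : 0 < L) {j p : ℕ} (hj : j < 50) (hp : p < d.P)
    (φ s : ℕ) : ∃ y : ℕ → ℕ → ℕ,
      (∀ q r, y q r < 2 ^ d.bw j r ∧ (r < d.l * p ∨ d.l * (p + 1) ≤ r → y q r = 0)) ∧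
      d.item j φ s p = n4b_bs 192 L (cl j) y := by
  have hPl : d.P * d.l = L := (ok_L h).1
  have h1 : d.l * p + d.l ≤ L := by
    rw [← hPl, mul_comm d.P, ← mul_add_one]
    exact Nat.mul_le_mul_left _ hp
  have hm : d.mask j p = ds 192 (L * cl j)
      fun i => 2 ^ (if i % L < d.l then d.bw j (d.l * p + i % L) else 0) - 1 := by
    have e : (pk 192 d.l fun r => msk (d.bw j (Nat.add (Nat.mul d.l p) r))) =
        ds 192 L fun r => 2 ^ (if r < d.l then d.bw j (d.l * p + r) else 0) - 1 := by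
      rw [pk_eq, ← ds_pad 192 (show d.l ≤ L by omega)]
      refine ds_congr fun r _ => ?_
      split_ifs
      · exact msk_eq _
      · rfl
    rw [mask, e, (ok_L h).2, nu_rep, n4b_bs, ds_ds 192 hL]
  generalize hX : Nat.shiftRight (frc (d.li φ s p) (d.lit j)) (d.sh φ s p) = X
  refine ⟨fun q r => if d.l * p ≤ r then X / 2 ^ (192 * (L * q + (r - d.l * p))) %
    2 ^ (if (L * q + (r - d.l * p)) % L < d.l ∧ r - d.l * p < L then
      d.bw j (d.l * p + (L * q + (r - d.l * p)) % L) else 0) else 0, fun q r => ?_, ?_⟩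
  · beta_reduce
    rw [Nat.mul_add_mod]
    by_cases h2 : d.l * p ≤ r
    · rw [if_pos h2]
      by_cases h3 : r - d.l * p < d.l
      · rw [Nat.mod_eq_of_lt (show r - d.l * p < L by omega), if_pos ⟨h3, by omega⟩,
          Nat.add_sub_cancel' h2]
        refine ⟨Nat.mod_lt _ (Nat.two_pow_pos _), fun h4 => ?_⟩
        rw [mul_add_one] at h4
        omega
      · rw [if_neg fun h4 => h3 (by rw [Nat.mod_eq_of_lt h4.2] at h4; exact h4.1), pow_zero,
          Nat.mod_one]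
        exact ⟨Nat.two_pow_pos _, fun _ => rfl⟩
    · rw [if_neg h2]
      exact ⟨Nat.two_pow_pos _, fun _ => rfl⟩
  · rw [item, hX, hm, land_mask 192 _ X fun i _ => by
      split_ifs with h2
      · exact (nu_bw h hj (by omega)).trans (by norm_num)
      · exact Nat.zero_le _]
    rw [n4b_bs_eq 192 hL, show Nat.mul (Nat.mul 192 d.l) p = 192 * (d.l * p) from
      Nat.mul_assoc _ _ _, n4b_bs_shl 192 _ (by omega) fun q r hr h2 => by
        rw [Nat.mul_add_mod, Nat.mod_eq_of_lt hr, if_neg (by omega), pow_zero, Nat.mod_one]]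
    refine n4b_bs_congr fun q _ r hr => ?_
    simp only [show r - d.l * p < L by omega, and_true]

theorem nu_unp (h : d.ok L = true) (hL : 0 < L) {j : ℕ} (hj : j < 50) (s : ℕ) :
    ∃ x : ℕ → ℕ → ℕ, (∀ q r, x q r < 2 ^ d.bw j r) ∧
      d.unp j s = n4b_bs 192 L (cl j) fun q r => 2 ^ 64 - 2 ^ d.bw j r / 2 + x q r := by
  have key : ∀ φ, ∀ p ≤ d.P, ∃ x : ℕ → ℕ → ℕ,
      (∀ q r, x q r < 2 ^ d.bw j r ∧ (d.l * p ≤ r → x q r = 0)) ∧
      @Nat.rec (fun _ => ℕ) (d.fix j) (fun p ih => Nat.add ih (d.item j φ s p)) p =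
        n4b_bs 192 L (cl j) fun q r => 2 ^ 64 - 2 ^ d.bw j r / 2 + x q r := by
    intro φ p
    induction p with
    | zero =>
      refine fun _ => ⟨fun _ _ => 0, fun _ _ => ⟨Nat.two_pow_pos _, fun _ => rfl⟩, ?_⟩
      show d.fix j = _
      rw [fix, (ok_L h).1, (ok_L h).2, pk_eq, nu_rep]
      refine n4b_bs_congr fun q _ r _ => ?_
      rw [n4b_shl, n4b_shl, one_mul, one_mul]
      rfl
    | succ p ih =>
      intro hp
      obtain ⟨x, hx, e⟩ := ih (by omega)
      obtain ⟨y, hy, e'⟩ := nu_item h hL hj (show p < d.P by omega) φ s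
      refine ⟨fun q r => x q r + y q r, fun q r => ?_, ?_⟩
      · beta_reduce
        by_cases h2 : d.l * p ≤ r
        · rw [(hx q r).2 h2, zero_add]
          exact ⟨(hy q r).1, fun h3 => (hy q r).2 (Or.inr h3)⟩
        · rw [(hy q r).2 (Or.inl (by omega)), add_zero]
          refine ⟨(hx q r).1, fun h3 => (hx q r).2 ?_⟩
          rw [mul_add_one] at h3
          omega
      · show @Nat.rec (fun _ => ℕ) (d.fix j) (fun p ih => Nat.add ih (d.item j φ s p)) p +
          d.item j φ s p = _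
        rw [e, e', n4b_bs_add]
        exact n4b_bs_congr fun q _ r _ => add_assoc _ _ _
  obtain ⟨x, hx, e⟩ := key (dg 4 d.fam j) d.P le_rfl
  exact ⟨x, fun q r => (hx q r).1, e⟩

/-- the digits of the data -/
def nu_E (d : Dat) (j s i k : ℕ) : ℕ := dg 192 (dg d.w (d.unp j s) i) k

theorem nu_cg (d : Dat) (j s i k : ℕ) : d.cg j s i k + 2 ^ 64 = d.nu_E j s i k :=
  sub_add_cancel _ _

theorem nu_main (h : d.ok L = true) (hL : 0 < L) {j : ℕ} (hj : j < 50) (s : ℕ) :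
    d.unp j s = n4b_bs 192 L (cl j) (d.nu_E j s) ∧ ∀ i < cl j, ∀ k < L,
      ∃ x < 2 ^ d.bw j k, d.nu_E j s i k = 2 ^ 64 - 2 ^ d.bw j k / 2 + x := by
  obtain ⟨x, hx, e⟩ := nu_unp h hL hj s
  have hb : ∀ q, ∀ r < L, 2 ^ 64 - 2 ^ d.bw j r / 2 + x q r < 2 ^ 192 := fun q r hr => by
    have h1 := hx q r
    have h2 : 2 ^ d.bw j r ≤ 2 ^ 64 := Nat.pow_le_pow_right (by norm_num) (nu_bw h hj hr)
    omega
  have hE : ∀ i < cl j, ∀ k < L, d.nu_E j s i k = 2 ^ 64 - 2 ^ d.bw j k / 2 + x i k := by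
    intro i hi k hk
    rw [nu_E, (ok_L h).2, e, n4b_bs, dg_ds (fun q _ => ds_lt (hb q)) hi, dg_ds (hb i) hk]
  exact ⟨e.trans (n4b_bs_congr fun q hq r hr => (hE q hq r hr).symm),
    fun i hi k hk => ⟨x i k, hx i k, hE i hi k hk⟩⟩

theorem nu_E_le (h : d.ok L = true) {j i k : ℕ} (hj : j < 50) (s : ℕ) (hi : i < cl j)
    (hk : k < L) : d.nu_E j s i k ≤ 2 ^ 65 := by
  obtain ⟨x, hx, e⟩ := (nu_main h (by omega) hj s).2 i hi k hk
  have h2 : 2 ^ d.bw j k ≤ 2 ^ 64 := Nat.pow_le_pow_right (by norm_num) (nu_bw h hj hk)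
  omega

theorem unp_eq (h : d.ok L = true) (hL : 0 < L) {j : ℕ} (hj : j < 50) (s : ℕ) :
    (d.unp j s : ℤ) = dz 192 (L * cl j) fun r => d.cg j s (r / L) (r % L) + 2 ^ 64 := by
  rw [(nu_main h hL hj s).1, n4b_bs, ds_ds 192 hL, ds_cast]
  exact dz_congr fun r _ => (nu_cg d j s _ _).symm

theorem cg_le (h : d.ok L = true) {j i k : ℕ} (hj : j < 50) (s : ℕ) (hi : i < cl j) (hk : k < L) :
    2 * |d.cg j s i k| ≤ 2 ^ d.bw j k ∧ |d.cg j s i k| ≤ 2 ^ 63 := by
  obtain ⟨x, hx, e⟩ := (nu_main h (by omega) hj s).2 i hi k hk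
  have h2 : 2 ^ d.bw j k ≤ 2 ^ 64 := Nat.pow_le_pow_right (by norm_num) (nu_bw h hj hk)
  have h3 := nu_cg d j s i k
  have h4 : 2 ^ d.bw j k = 1 ∨ 2 ∣ 2 ^ d.bw j k := by
    rcases Nat.eq_zero_or_pos (d.bw j k) with h0 | h0
    · exact Or.inl (by rw [h0, pow_zero])
    · exact Or.inr (dvd_pow_self 2 h0.ne')
  have h5 : ((2 : ℤ) ^ d.bw j k) = ((2 ^ d.bw j k : ℕ) : ℤ) := by push_cast; rfl
  rw [h5]
  generalize 2 ^ d.bw j k = B at *
  rcases abs_cases (d.cg j s i k) with h6 | h6 <;> omega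

theorem cf_le (h : d.ok L = true) (s : ℕ) {c k : ℕ} (hc : c < 402) (hk : k < L) :
    |d.cf s c k| ≤ 2 ^ 63 := (cg_le h (cj_lt hc).1 s (cj_lt hc).2 hk).2

theorem cf_zero (h : d.ok L = true) (s : ℕ) {k : ℕ} (hk : k < L) : d.cf s 0 k = 0 := by
  have h0 := cj_lt (show 0 < 402 by norm_num)
  have h1 := (cg_le h h0.1 s h0.2 hk).1
  have h2 : d.bw (cj 0) k = 0 := by rw [cj_zero]; exact nu_bw0 h hk
  rw [h2, pow_zero] at h1
  show d.cg (cj 0) s (ci 0) k = 0
  rcases abs_cases (d.cg (cj 0) s (ci 0) k) with h6 | h6 <;> omega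

theorem nrm_cf (h : d.ok (L + 1) = true) (s : ℕ) {c : ℕ} (hc : c < 402) :
    nrm L (d.cf s c) ≤ d.b1 (cj c) := by
  refine (nrm_le fun k _ => le_rfl).trans ?_
  rw [b1, sm_eq, (ok_L h).1, mul_sum, Nat.cast_sum]
  refine sum_le_sum fun k hk => ?_
  rw [n4b_shl, one_mul, Nat.cast_pow, Nat.cast_ofNat]
  exact (cg_le h (cj_lt hc).1 s (cj_lt hc).2 (mem_range.1 hk)).1

theorem sum_nrm (h : d.ok (L + 1) = true) (s : ℕ) :
    ∑ c ∈ range 402, nrm L (d.cf s c) ≤ d.bn := by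
  refine (sum_le_sum fun c hc => nrm_cf h s (mem_range.1 hc)).trans ?_
  rw [← chunk_sum fun j _ => (d.b1 j : ℤ), bn, sm_eq, Nat.cast_sum]
  refine sum_le_sum fun j _ => le_of_eq ?_
  rw [sum_const, card_range, nsmul_eq_mul]
  exact (Nat.cast_mul _ _).symm

theorem nu_w (h : d.ok L = true) {ι : Type} (S : Finset ι) (w t : ι → ℕ)
    (hw : ∑ x ∈ S, w x ≤ 2 ^ 16) {j i k : ℕ} (hj : j < 50) (hi : i < cl j) (hk : k < L) :
    ∑ x ∈ S, w x * d.nu_E j (t x) i k ≤ 2 ^ 81 := by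
  refine (sum_le_sum fun x _ => Nat.mul_le_mul_left (w x) (nu_E_le h hj (t x) hi hk)).trans ?_
  rw [← sum_mul]
  exact (Nat.mul_le_mul_right _ hw).trans (by norm_num)

theorem nu_lin2 (h : d.ok L = true) (hL : 0 < L) {ι : Type} (S : Finset ι) (w t : ι → ℕ)
    {j : ℕ} (hj : j < 50) : ∑ x ∈ S, w x * d.unp j (t x) =
      ds (192 * L) (cl j) fun i => ds 192 L fun k => ∑ x ∈ S, w x * d.nu_E j (t x) i k := by
  rw [sum_congr rfl fun x _ => by rw [(nu_main h hL hj (t x)).1, n4b_bs], nu_lin]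
  exact ds_congr fun i _ => nu_lin S w _ _ _

theorem blk_eq (h : d.ok L = true) (hL : 0 < L) (s : ℕ) {c : ℕ} (hc : c < 402) :
    (dg (192 * L) (d.unp (cj c) s) (ci c) : ℤ) = dz 192 L fun k => d.cf s c k + 2 ^ 64 := by
  rw [(nu_main h hL (cj_lt hc).1 s).1, n4b_bs,
    dg_ds (fun q hq => ds_lt fun k hk =>
      (nu_E_le h (cj_lt hc).1 s hq hk).trans_lt (by norm_num)) (cj_lt hc).2, ds_cast]
  exact dz_congr fun k _ => (nu_cg d _ s _ k).symm

theorem lin_dg (h : d.ok L = true) (hL : 0 < L) {ι : Type} (S : Finset ι) (w t : ι → ℕ)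
    (hw : ∑ x ∈ S, w x ≤ 2 ^ 16) {c : ℕ} (hc : c < 402) :
    (dg (192 * L) (∑ x ∈ S, w x * d.unp (cj c) (t x)) (ci c) : ℤ) =
      dz 192 L fun k => ∑ x ∈ S, (w x : ℤ) * (d.cf (t x) c k + 2 ^ 64) := by
  rw [nu_lin2 h hL S w t (cj_lt hc).1, dg_ds (fun q hq => ds_lt fun k hk =>
    (nu_w h S w t hw (cj_lt hc).1 hq hk).trans_lt (by norm_num)) (cj_lt hc).2, ds_cast]
  refine dz_congr fun k _ => ?_
  rw [Nat.cast_sum]
  exact sum_congr rfl fun x _ => by rw [Nat.cast_mul, ← nu_cg]; rfl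

theorem lin_mod (h : d.ok L = true) (hL : 0 < L) {ι : Type} (S : Finset ι) (w t : ι → ℕ)
    (hw : ∑ x ∈ S, w x ≤ 2 ^ 16) {a n : ℕ} (ha : a + n ≤ 50) :
    (Nat.mod (∑ r ∈ range n, ∑ x ∈ S, w x * d.unp (a + r) (t x)) (msk (192 * L)) : ℤ) =
      dz 192 L fun k => ∑ r ∈ range n, ∑ i ∈ range (cl (a + r)),
        ∑ x ∈ S, (w x : ℤ) * (d.cg (a + r) (t x) i k + 2 ^ 64) := by
  have hj : ∀ r ∈ range n, a + r < 50 := fun r hr => by have := mem_range.1 hr; omega
  set D : ℕ → ℕ := fun k => ∑ r ∈ range n, ∑ i ∈ range (cl (a + r)),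
    ∑ x ∈ S, w x * d.nu_E (a + r) (t x) i k with hD
  have h1 : ∑ r ∈ range n, ∑ x ∈ S, w x * d.unp (a + r) (t x) ≡ ds 192 L D
      [MOD msk (192 * L)] := by
    rw [hD, ← nu_sum]
    refine Nat.ModEq.sum fun r hr => ?_
    rw [nu_lin2 h hL S w t (hj r hr), ← nu_sum]
    exact nu_modeq _ _ _
  have h2 : ∀ k < L, D k + 1 < 2 ^ 192 := fun k hk => by
    have h3 : D k ≤ n * (16 * 2 ^ 81) := by
      refine (sum_le_card_nsmul _ _ _ fun r hr => ?_).trans (by rw [card_range, smul_eq_mul])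
      refine (sum_le_card_nsmul _ _ _ fun i hi =>
        nu_w h S w t hw (hj r hr) (mem_range.1 hi) hk).trans ?_
      rw [card_range, smul_eq_mul]
      exact Nat.mul_le_mul_right _ (cl_le (hj r hr))
    have h4 : n * (16 * 2 ^ 81) ≤ 50 * (16 * 2 ^ 81) := Nat.mul_le_mul_right _ (by omega)
    omega
  have h3 : ds 192 L D < msk (192 * L) := by
    have h4 := ds_lt h2
    rw [← n4b_add] at h4
    have h5 : 1 ≤ ds 192 L fun _ => 1 := by
      obtain ⟨m, rfl⟩ : ∃ m, L = m + 1 := ⟨L - 1, by omega⟩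
      rw [n4_cons]
      exact Nat.le_add_left _ _
    rw [msk_eq]
    omega
  rw [show Nat.mod (∑ r ∈ range n, ∑ x ∈ S, w x * d.unp (a + r) (t x)) (msk (192 * L)) =
    ds 192 L D from Eq.trans h1 (Nat.mod_eq_of_lt h3), ds_cast]
  refine dz_congr fun k _ => ?_
  simp only [hD, Nat.cast_sum, Nat.cast_mul, nu_cg]

theorem nu_slt {e : Dat} (h : d.ok (L + 1) = true) (he : e.ok (L + 1) = true) (hL : L < 20)
    {j : ℕ} (hj : j < 50) (s : ℕ) (w : ℕ → ℕ) (hw : ∀ k, w k ≤ 2) :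
    d.slt j (pk 192 d.L fun k => w (Nat.sub (Nat.sub d.L 1) k)) (e.unp j s) =
        ds (192 * (L + 1)) (cl j) (fun i => ∑ k ∈ range (L + 1), w k * e.nu_E j s i k) ∧
      ∀ i < cl j, ∑ k ∈ range (L + 1), w k * e.nu_E j s i k ≤ 2 ^ 81 := by
  have h1 : ∑ k ∈ range (L + 1), w k ≤ 40 :=
    (sum_le_card_nsmul _ _ _ fun k _ => hw k).trans (by rw [card_range, smul_eq_mul]; omega)
  refine ⟨?_, fun i hi => ?_⟩
  · rw [slt, (ok_L h).1, pk_eq, (nu_main he L.succ_pos hj s).1, n4b_bs, ds_ds 192 L.succ_pos]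
    refine (slot_mul (W := 192) (D := 2 ^ 65) L.succ_pos (fun r hr => nu_E_le he hj s
      (Nat.div_lt_of_lt_mul hr) (Nat.mod_lt _ L.succ_pos)) h1 (by norm_num)).trans
      (ds_congr fun i _ => sum_congr rfl fun k hk => ?_)
    have h2 := mem_range.1 hk
    rw [Nat.mul_add_mod, Nat.mod_eq_of_lt h2, Nat.mul_add_div L.succ_pos, Nat.div_eq_of_lt h2,
      add_zero]
  · refine (sum_le_sum fun k hk =>
      Nat.mul_le_mul_left (w k) (nu_E_le he hj s hi (mem_range.1 hk))).trans ?_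
    rw [← sum_mul]
    exact (Nat.mul_le_mul_right _ h1).trans (by norm_num)

theorem nu_big {x : ℕ} (L : ℕ) (hx : x ≤ 2 ^ 83) : x < 2 ^ (192 * (L + 1)) :=
  hx.trans_lt (Nat.pow_lt_pow_right (by norm_num) (by omega))

theorem nu_wa (s c : ℕ) :
    ((∑ k ∈ range (L + 1), cnd (Nat.beq k 0) 1 2 * d.nu_E (cj c) s (ci c) k : ℕ) : ℤ) =
      d.cf s c 0 + 2 * ∑ k ∈ range L, d.cf s c (k + 1) + (2 * L + 1) * 2 ^ 64 := by
  have e : ∀ k, ((cnd (Nat.beq (k + 1) 0) 1 2 * d.nu_E (cj c) s (ci c) (k + 1) : ℕ) : ℤ) =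
      2 * d.cf s c (k + 1) + 2 * 2 ^ 64 := fun k => by
    show ((2 * d.nu_E (cj c) s (ci c) (k + 1) : ℕ) : ℤ) = 2 * d.cg (cj c) s (ci c) (k + 1) + _
    rw [Nat.cast_mul, ← nu_cg]
    push_cast
    ring
  have e0 : ((cnd (Nat.beq 0 0) 1 2 * d.nu_E (cj c) s (ci c) 0 : ℕ) : ℤ) =
      d.cf s c 0 + 2 ^ 64 := by
    show ((1 * d.nu_E (cj c) s (ci c) 0 : ℕ) : ℤ) = d.cg (cj c) s (ci c) 0 + _
    rw [one_mul, nu_cg]
  rw [Nat.cast_sum, sum_range_succ', e0, sum_congr rfl fun k _ => e k, sum_add_distrib,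
    ← mul_sum, sum_const, card_range, nsmul_eq_mul]
  ring

theorem nu_cnd (b : Bool) {x y : ℕ} (hx : x ≤ 2) (hy : y ≤ 2) : cnd b x y ≤ 2 := by
  cases b
  · exact hy
  · exact hx

theorem nu_ones (h : d.ok (L + 1) = true) (j m : ℕ) :
    Nat.shiftLeft (Nat.mul m (ones d.w (cl j))) 64 =
      ds (192 * (L + 1)) (cl j) fun _ => m * 2 ^ 64 := by
  show Nat.shiftLeft (m * ones d.w (cl j)) 64 = _
  rw [n4b_shl, (ok_L h).2, ones_eq (by omega), mul_comm m, n4b_mul, n4b_mul]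
  exact ds_congr fun _ _ => by rw [one_mul]

theorem slt_wa (h : d.ok (L + 1) = true) (hL : L < 20) (s : ℕ) {c : ℕ} (hc : c < 402) :
    (dg (192 * (L + 1)) (d.slt (cj c) d.wa (d.unp (cj c) s)) (ci c) : ℤ) =
      d.cf s c 0 + 2 * ∑ k ∈ range L, d.cf s c (k + 1) + (2 * L + 1) * 2 ^ 64 := by
  obtain ⟨h1, h2⟩ := nu_slt h h hL (cj_lt hc).1 s (fun k => cnd (Nat.beq k 0) 1 2)
    fun k => nu_cnd _ one_le_two le_rfl
  rw [wa, h1, dg_ds (fun i hi => nu_big L ((h2 i hi).trans (by norm_num))) (cj_lt hc).2, nu_wa]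

theorem jn_sound {e : Dat} (h : d.ok (L + 1) = true) (he : e.ok (L + 1) = true) (hL : L < 20)
    (ho : Odd L) {s c : ℕ} (hc : c < 402) (hj : d.jn e (cj c) s = true) :
    chv L (e.cf s c) 2 = chv L (d.cf s c) (-2) := by
  obtain ⟨a1, a2⟩ := nu_slt h he hL (cj_lt hc).1 s (fun k => cnd (Nat.beq k 0) 1 2)
    fun k => nu_cnd _ one_le_two le_rfl
  obtain ⟨b1, b2⟩ := nu_slt h h hL (cj_lt hc).1 s (fun k => cnd (Nat.beq (Nat.mod k 2) 0) 0 2)
    fun k => nu_cnd _ zero_le_two le_rfl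
  obtain ⟨c1, c2⟩ := nu_slt h h hL (cj_lt hc).1 s
    (fun k => cnd (Nat.beq k 0) 1 (cnd (Nat.beq (Nat.mod k 2) 0) 2 0))
    fun k => nu_cnd _ one_le_two (nu_cnd _ le_rfl zero_le_two)
  have h1 : d.slt (cj c) d.wa (e.unp (cj c) s) + d.slt (cj c) d.wo (d.unp (cj c) s) =
      d.slt (cj c) d.we (d.unp (cj c) s) +
        Nat.shiftLeft (Nat.mul (Nat.mul 2 d.L) (ones d.w (cl (cj c)))) 64 :=
    Nat.eq_of_beq_eq_true hj
  rw [wa, wo, we, a1, b1, c1, nu_ones h, n4b_add, n4b_add, (ok_L h).1] at h1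
  have h2 := congrArg (fun X => dg (192 * (L + 1)) X (ci c)) h1
  have h3 : Nat.mul 2 (L + 1) * 2 ^ 64 ≤ 40 * 2 ^ 64 :=
    Nat.mul_le_mul_right _ (show 2 * (L + 1) ≤ 40 by omega)
  beta_reduce at h2
  rw [dg_ds (fun i hi => nu_big L (by have := a2 i hi; have := b2 i hi; omega)) (cj_lt hc).2,
    dg_ds (fun i hi => nu_big L (by have := c2 i hi; omega)) (cj_lt hc).2] at h2
  have h4 := congrArg (Nat.cast : ℕ → ℤ) h2
  have h5 : ∀ k, ((cnd (Nat.beq (k + 1) 0) 1 (cnd (Nat.beq (Nat.mod (k + 1) 2) 0) 2 0) *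
      d.nu_E (cj c) s (ci c) (k + 1) : ℕ) : ℤ) =
      (cnd (Nat.beq (Nat.mod (k + 1) 2) 0) 0 2 * d.nu_E (cj c) s (ci c) (k + 1) : ℕ) +
        (2 * ((-1) ^ (k + 1) * d.cf s c (k + 1)) + 2 * 2 ^ 64 * (-1) ^ (k + 1)) := fun k => by
    have h6 : d.cf s c (k + 1) + 2 ^ 64 = d.nu_E (cj c) s (ci c) (k + 1) := nu_cg _ _ _ _ _
    rcases Nat.even_or_odd (k + 1) with h7 | h7
    · rw [show Nat.mod (k + 1) 2 = 0 from Nat.even_iff.1 h7, h7.neg_one_pow]
      show ((2 * _ : ℕ) : ℤ) = ((0 * _ : ℕ) : ℤ) + _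
      push_cast
      rw [← h6]
      ring
    · rw [show Nat.mod (k + 1) 2 = 1 from Nat.odd_iff.1 h7, h7.neg_one_pow]
      show ((0 * _ : ℕ) : ℤ) = ((2 * _ : ℕ) : ℤ) + _
      push_cast
      rw [← h6]
      ring
  have h6 : ((cnd (Nat.beq 0 0) 1 (cnd (Nat.beq (Nat.mod 0 2) 0) 2 0) *
      d.nu_E (cj c) s (ci c) 0 : ℕ) : ℤ) = d.cf s c 0 + 2 ^ 64 := by
    show ((1 * d.nu_E (cj c) s (ci c) 0 : ℕ) : ℤ) = d.cg (cj c) s (ci c) 0 + _
    rw [one_mul, nu_cg]
  have h7 : ((cnd (Nat.beq (Nat.mod 0 2) 0) 0 2 * d.nu_E (cj c) s (ci c) 0 : ℕ) : ℤ) = 0 := by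
    show ((0 * d.nu_E (cj c) s (ci c) 0 : ℕ) : ℤ) = 0
    rw [zero_mul, Nat.cast_zero]
  rw [Nat.cast_add, Nat.cast_add, nu_wa, Nat.cast_sum, Nat.cast_sum, sum_range_succ',
    sum_range_succ', h6, h7, sum_congr rfl fun k _ => h5 k, sum_add_distrib, sum_add_distrib,
    ← mul_sum, ← mul_sum, nu_alt ho,
    show ((Nat.mul 2 (L + 1) * 2 ^ 64 : ℕ) : ℤ) = 2 * (L + 1) * 2 ^ 64 from by
      show ((2 * (L + 1) * 2 ^ 64 : ℕ) : ℤ) = _
      push_cast
      ring] at h4
  have h8 : e.cf s c 0 + 2 * ∑ k ∈ range L, e.cf s c (k + 1) =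
      d.cf s c 0 + 2 * ∑ k ∈ range L, (-1) ^ (k + 1) * d.cf s c (k + 1) := by linarith only [h4]
  rw [chv_two, chv_neg_two]
  exact_mod_cast h8

theorem j0_sound (h : d.ok (L + 1) = true) (hL : L < 20) {s c : ℕ} (hc : c < 402)
    (hj : d.j0 (cj c) s = true) : chv L (d.cf s c) 2 = 0 := by
  have h1 : d.slt (cj c) d.wa (d.unp (cj c) s) =
      Nat.shiftLeft (Nat.mul (Nat.sub (Nat.mul 2 d.L) 1) (ones d.w (cl (cj c)))) 64 :=
    Nat.eq_of_beq_eq_true hj
  have h2 := slt_wa h hL s hc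
  have h3 : Nat.sub (Nat.mul 2 (L + 1)) 1 = 2 * L + 1 := by
    show 2 * (L + 1) - 1 = _
    omega
  have h4 : (2 * L + 1) * 2 ^ 64 ≤ 40 * 2 ^ 64 := Nat.mul_le_mul_right _ (by omega)
  rw [h1, nu_ones h, (ok_L h).1, h3, dg_ds (fun _ _ => nu_big L (by omega)) (cj_lt hc).2] at h2
  have h5 : d.cf s c 0 + 2 * ∑ k ∈ range L, d.cf s c (k + 1) = 0 := by
    push_cast at h2
    linarith only [h2]
  rw [chv_two]
  exact_mod_cast h5

end Dat

end

end Pool.Agent.MP_7c51ae_co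

/-!
The laws seen by the receivers.
-/

set_option autoImplicit false

namespace Pool.Agent.MP_7c51ae_co

open Finset

noncomputable section

theorem nv1_nrm_sum {ι : Type} (S : Finset ι) (n : ℕ) (a : ι → ℕ → ℤ) :
    nrm n (fun k => ∑ i ∈ S, a i k) ≤ ∑ i ∈ S, nrm n (a i) :=
  (CP.sum S fun i _ => CP.of n (a i)).coef fun u => (chv_sum S n a u).symm

theorem nv1_nrm_mul (n c : ℕ) (a : ℕ → ℤ) : nrm n (fun k => (c : ℤ) * a k) = c * nrm n a := by
  simp only [nrm, abs_mul, Nat.abs_cast, ← mul_sum]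
  ring

theorem nv1_nrm_ite (n : ℕ) (p : Prop) [Decidable p] (a : ℕ → ℤ) :
    nrm n (fun k => if p then a k else 0) = if p then nrm n a else 0 := by
  split_ifs
  · rfl
  · simp [nrm]

theorem nv1_chv_ite (n : ℕ) (p : Prop) [Decidable p] (a : ℕ → ℤ) (u : ℝ) :
    chv n (fun k => if p then a k else 0) u = if p then chv n a u else 0 := by
  split_ifs
  · rfl
  · simp [chv]

theorem nv1_T (A : St) : T true A = tr 15 A := by
  have h : ∀ x y : Fin 16, rel true x y = true ↔ y = xr 15 x := by decide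
  ext x
  simp [mem_T, mem_tr, h]

theorem nv1_push (e : Bool) (f : ℕ → ℤ) (A : St) :
    vv (cls A) * (if e = true then f (cls A) else
      ∑ c ∈ range 402, if nc c = cls A then f c else 0) =
      ∑ B : St, if T e B = A then (vv (cls B) : ℤ) * f (cls B) else 0 := by
  cases e
  · rw [push_sum, if_neg Bool.false_ne_true]
  · rw [if_pos rfl, sum_eq_single (tr 15 A), nv1_T, tr_tr, if_pos rfl, cls_tr]
    · intro B _ hB
      exact if_neg fun h => hB (by rw [← h, nv1_T, tr_tr])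
    · exact fun h => absurd (mem_univ _) h

namespace Seg

variable {s : Seg}

theorem nv1_zc (s : Seg) (m : ℕ) (A : St) : s.zc m (cls A) = fun k =>
    ∑ x, if (sys.xm x).val = m then (wx x : ℤ) * ∑ B : St,
      if T (sys.xe x) B = A then (vv (cls B) : ℤ) * s.aN (sys.xs x) (cls B) k else 0 else 0 := by
  funext k
  rw [zc, mul_sum]
  refine sum_congr rfl fun x _ => ?_
  by_cases h : (sys.xm x).val = m
  · rw [if_pos h, if_pos h, mul_left_comm, nv1_push (sys.xe x) (fun c => s.aN (sys.xs x) c k)]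
  · rw [if_neg h, if_neg h, mul_zero]

theorem aN_nrm (h : s.Good) (t : ℕ) : ∑ c ∈ range 402, nrm 20 (s.aN t c) ≤ 2 ^ 60 := by
  have h1 : ∀ c, nrm 20 (s.aN t c) = nrm 19 (s.dN.cf t c) + if c = 401 then 2 else 0 := fun c => by
    have : ∑ k ∈ range 19, |s.aN t c (k + 1)| = ∑ k ∈ range 19, |s.dN.cf t c (k + 1)| :=
      sum_congr rfl fun k hk => by rw [aN, if_neg (by have := mem_range.1 hk; omega)]
    rw [nrm, nrm, sum_range_succ, this, aN, aN, if_neg (by norm_num), if_pos rfl]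
    split_ifs
    · rw [abs_one]; ring
    · rw [abs_zero]; ring
  have h2 := Dat.sum_nrm (L := 19) h.hN t
  have h3 : ((s.dN.bn + 2 : ℕ) : ℤ) ≤ (2 ^ 60 : ℕ) := Int.ofNat_le.2 h.bn
  rw [sum_congr rfl fun c _ => h1 c, sum_add_distrib, sum_ite_eq', if_pos (by simp)]
  push_cast at h3
  linarith only [h2, h3]

theorem zc_l1 (h : s.Good) {m : ℕ} (hm : m < 118) :
    ∑ A : St, nrm 20 (s.zc m (cls A)) ≤ 384 * omg m * 2 ^ 60 := by
  have h1 : ∀ A : St, nrm 20 (s.zc m (cls A)) ≤ ∑ x, if (sys.xm x).val = m then (wx x : ℤ) *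
      ∑ B : St, if T (sys.xe x) B = A then
        (vv (cls B) : ℤ) * nrm 20 (s.aN (sys.xs x) (cls B)) else 0 else 0 := fun A => by
    rw [nv1_zc]
    refine (nv1_nrm_sum _ _ _).trans (sum_le_sum fun x _ => ?_)
    rw [nv1_nrm_ite, nv1_nrm_mul]
    split_ifs
    · refine mul_le_mul_of_nonneg_left ((nv1_nrm_sum _ _ _).trans (sum_le_sum fun B _ => ?_))
        (Int.natCast_nonneg _)
      rw [nv1_nrm_ite, nv1_nrm_mul]
    · exact le_rfl
  refine (sum_le_sum fun A _ => h1 A).trans ?_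
  rw [sum_comm, omg_eq hm, Nat.cast_sum, mul_sum, sum_mul]
  refine sum_le_sum fun x _ => ?_
  by_cases p : (sys.xm x).val = m
  · simp only [if_pos p]
    rw [← mul_sum, sum_comm]
    simp only [sum_ite_eq, mem_univ, if_true]
    rw [tot_sum (R := ℤ) fun c => nrm 20 (s.aN (sys.xs x) c)]
    have := mul_le_mul_of_nonneg_left (aN_nrm h (sys.xs x)) (Int.natCast_nonneg (wx x))
    linarith only [this]
  · simp only [if_neg p, sum_const_zero, Nat.cast_zero, mul_zero, zero_mul, le_refl]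

theorem Z_eq (s : Seg) (u : ℝ) (m : Fin 118) (A : St) :
    sys.Z (s.Nf u) m A = s.Zs u m A / (384 * 2 ^ 65) := by
  rw [Zs, nv1_zc, chv_sum, sum_div, Sys.Z]
  refine sum_congr rfl fun x _ => ?_
  rw [nv1_chv_ite, chv_mul, chv_sum]
  by_cases p : sys.xm x = m
  · rw [if_pos p, if_pos (congrArg Fin.val p), xw_eq, mul_sum, mul_sum, sum_div]
    refine sum_congr rfl fun B _ => ?_
    rw [nv1_chv_ite, chv_mul, Nf]
    split_ifs
    · push_cast; ring
    · simp
  · rw [if_neg p, if_neg fun q => p (Fin.ext q), zero_div]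

theorem nv1_zh (s : Seg) (m : ℕ) (A : St) :
    s.zh m A = fun k => ∑ B ∈ univ.filter (fun B : St => A ⊆ B), s.zc m (cls B) k := by
  funext k
  rw [zh, hat]

theorem Zh_eq (s : Seg) (u : ℝ) (m : ℕ) (A : St) : s.Zh u m A = hat (s.Zs u m) A := by
  rw [Zh, nv1_zh, chv_sum, hat]
  exact sum_congr rfl fun B _ => by rw [Zs]

theorem zh_top (s : Seg) {m : ℕ} (hm : m < 118) (A : St) : s.zh m A 20 = 384 * omg m := by
  have h1 : ∀ B : St, s.zc m (cls B) 20 = if B = univ then 384 * (omg m : ℤ) else 0 := fun B => by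
    have h2 : ∀ x, (∑ C : St, if T (sys.xe x) C = B then
        (vv (cls C) : ℤ) * s.aN (sys.xs x) (cls C) 20 else 0) = if B = univ then 384 else 0 :=
      fun x => by
        rw [sum_eq_single univ, T_univ, aN, if_pos rfl, (cls_eq_top _).2 rfl, if_pos rfl, vv_top]
        · simp only [eq_comm (a := B), mul_one, Nat.cast_ofNat]
        · intro C _ hC
          rw [aN, if_pos rfl, if_neg fun q => hC ((cls_eq_top _).1 q), mul_zero, ite_self]
        · exact fun h => absurd (mem_univ _) h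
    rw [nv1_zc]
    simp only [h2]
    rw [omg_eq hm, Nat.cast_sum, mul_sum]
    by_cases p : B = univ
    · simp only [if_pos p]
      exact sum_congr rfl fun x _ => by split_ifs <;> simp [mul_comm]
    · simp only [if_neg p, mul_zero, ite_self, sum_const_zero]
  rw [zh, hat]
  simp only [h1]
  rw [sum_ite_eq', if_pos (mem_filter.2 ⟨mem_univ _, subset_univ _⟩)]

theorem zh_nrm (h : s.Good) {m : ℕ} (hm : m < 118) (A : St) :
    nrm 20 (s.zh m A) ≤ 384 * omg m * 2 ^ 60 := by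
  rw [nv1_zh]
  refine (nv1_nrm_sum _ _ _).trans (le_trans ?_ (zc_l1 h hm))
  exact sum_le_sum_of_subset_of_nonneg (subset_univ _) fun _ _ _ => nrm_nonneg _ _

theorem Zs_inv (s : Seg) (u : ℝ) (m : ℕ) : InvT (s.Zs u m) := fun t A => by
  rw [Zs, Zs, cls_tr]

theorem nv1_Q {t a b : ℕ} (ht : 1024 ≤ t) (ha : a ≤ 512) (hb : 1 ≤ b) (hb' : b ≤ 512) :
    ((b * (1 + 1 * t ^ 6) + (1024 - b) * (1 * t ^ 2 + 1 * t ^ 4) + (2048 + 2 * a) * t ^ 3 -
      a * (1 * t ^ 1 + 1 * t ^ 5) : ℕ) : ℝ) = b * (1 + t ^ 6) + (1024 - b) * (t ^ 2 + t ^ 4) +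
      (2048 + 2 * a) * t ^ 3 - a * (t + t ^ 5) := by
  have h1 : t ^ 1 ≤ t ^ 5 := Nat.pow_le_pow_right (by omega) (by norm_num)
  have h2 : a * (1 * t ^ 1 + 1 * t ^ 5) ≤ b * (1 + 1 * t ^ 6) :=
    calc _ ≤ 512 * (2 * t ^ 5) := Nat.mul_le_mul ha (by omega)
      _ = 1024 * t ^ 5 := by ring
      _ ≤ t * t ^ 5 := Nat.mul_le_mul_right _ ht
      _ = t ^ 6 := by ring
      _ ≤ 1 * (1 + 1 * t ^ 6) := by omega
      _ ≤ _ := Nat.mul_le_mul_right _ hb
  rw [Nat.cast_sub (by omega)]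
  push_cast [Nat.cast_sub (show b ≤ 1024 by omega)]
  ring

theorem Q_eq (h : s.Good) : (s.Q : ℝ) = tW ^ 3 * s.Qf uW := by
  have e : ∀ a j : ℕ, Nat.shiftLeft a (192 * j) = a * (2 ^ 192) ^ j := fun a j => by
    rw [n4b_shl, pow_mul]
  have h1 : s.Q = s.q3 * (1 + Nat.shiftLeft 1 (192 * 6)) +
      (1024 - s.q3) * (Nat.shiftLeft 1 (192 * 2) + Nat.shiftLeft 1 (192 * 4)) +
      Nat.shiftLeft (2048 + 2 * s.q2) (192 * 3) -
      s.q2 * (Nat.shiftLeft 1 (192 * 1) + Nat.shiftLeft 1 (192 * 5)) := rfl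
  have h2 : ((2 ^ 192 : ℕ) : ℝ) = tW := by rw [tW, Nat.cast_pow, Nat.cast_ofNat]
  have h3 : tW ≠ 0 := by rw [tW]; positivity
  rw [h1, e, e, e, e, e, e, nv1_Q (by norm_num) h.q2 h.q3 h.q3', h2, Qf, uW, chv_kron _ _ h3]
  simp only [sum_range_succ, range_zero, sum_empty, qc, Nat.dist]
  norm_num only [ite_false, Int.cast_natCast, pow_zero, mul_one, zero_add, ite_true, Int.cast_neg, pow_one, neg_mul, Int.cast_sub, Int.cast_add, Int.cast_mul]
  ring

theorem om_cp (h : s.Good) (i : Fin 3) : CP 3 (2 ^ 13) fun u => s.om u i := by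
  unfold om
  split_ifs
  · exact (CP.zero 3).mono le_rfl (by norm_num)
  · refine (CP.of 3 s.qc).mono le_rfl ?_
    have h1 := h.q2
    have h2 := h.q3'
    simp only [nrm, sum_range_succ, range_zero, sum_empty, qc]
    norm_num
    rw [abs_of_nonneg (by positivity), abs_of_nonneg (by omega)]
    omega
  · exact ((CP.const 3 4096).mono le_rfl (by norm_num)).congr fun _ => by norm_num

theorem om_eq (s : Seg) (u : ℝ) (i : Fin 3) : 1 - s.qf u i = s.om u i / 4096 := by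
  unfold qf om
  split_ifs <;> ring

theorem Nf_inv (s : Seg) (u : ℝ) (t : Fin 100) : InvT (s.Nf u t) := fun r A => by
  rw [Nf, Nf, cls_tr]

theorem Nf_empty (h : s.Good) (u : ℝ) (t : Fin 100) : s.Nf u t ∅ = 0 := by
  rw [Nf, (cls_eq_zero _).2 rfl, chv_congr (b := fun _ => 0) fun k hk => ?_]
  · simp [chv]
  · rw [aN, if_neg (show ¬ (0 = 401) by norm_num)]
    split_ifs with p
    · rfl
    · exact Dat.cf_zero h.hN t (by omega)

theorem Cf_inv (s : Seg) (u : ℝ) (m : Fin 118) : InvT (s.Cf u m) := fun r A => by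
  rw [Cf, Cf, cls_tr]

end Seg

end

end Pool.Agent.MP_7c51ae_co

/-!
The packed laws of the receivers.
-/

set_option autoImplicit false

namespace Pool.Agent.MP_7c51ae_co

open Finset

noncomputable section

/-- the mixing weight of term `x` in row `e` of receiver `m` -/
def nv2_w (e : Bool) (m : ℕ) (x : Fin mixL.length) : ℕ :=
  if (sys.xm x).val = m ∧ sys.xe x = e then wx x else 0

theorem nv2_row {e m : ℕ} (he : e < 2) (h : m < 118) (X : ℕ → ℕ) :
    (mixN e m).ap X = ∑ x, nv2_w (e == 1) m x * X (sys.xs x) := by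
  rw [mix_row he h]
  refine sum_congr rfl fun x _ => ?_
  rw [nv2_w, ite_mul, zero_mul]

theorem nv2_le (e : Bool) {m : ℕ} (h : m < 118) : ∑ x, nv2_w e m x ≤ 2 ^ 16 := by
  have h1 : ∑ x, nv2_w e m x ≤ omg m := by
    rw [omg_eq h]
    refine sum_le_sum fun x _ => ?_
    rw [nv2_w]
    by_cases p : (sys.xm x).val = m
    · rw [if_pos p]
      split_ifs
      · exact le_rfl
      · exact Nat.zero_le _
    · rw [if_neg p, if_neg fun q => p q.1]
  have := (omg_le h).2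
  omega

theorem nv2_div {g j : ℕ} (hj : j < 20 * nM g) : j / 20 < nM g := by omega

theorem nv2_Om {g e : ℕ} (hg : g < 8) (he : e < 2) : (Om g e : ℤ) = dz 192 (20 * nM g) fun j =>
    ((∑ x, nv2_w (e == 1) (m0 g + j / 20) x : ℕ) : ℤ) * 2 ^ 64 := by
  have h1 : Om g e = pk (192 * 20) (nM g) (fun i => (mixN e (m0 g + i)).ap one1) *
      Nat.shiftLeft (ones 192 20) 64 := rfl
  have h2 : pk (192 * 20) (nM g) (fun i => (mixN e (m0 g + i)).ap one1) *
      Nat.shiftLeft (ones 192 20) 64 = pk (192 * 20) (nM g)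
        (fun i => (mixN e (m0 g + i)).ap one1 * Nat.shiftLeft (ones 192 20) 64) := by
    rw [pk_eq, pk_eq, n4b_mul]
  rw [h1, h2]
  refine pk_dz (L := 20) (by norm_num) (d := fun i _ =>
    ((∑ x, nv2_w (e == 1) (m0 g + i) x : ℕ) : ℤ) * 2 ^ 64) fun i hi => ?_
  rw [Nat.cast_mul, shl_ones, dz_smul, nv2_row he (inM_add hg hi).lt]
  simp only [one1, mul_one]

theorem nv2_KB {m r : ℕ} (hm : m < 118) (hr : r ≤ 16) : (KB m r : ℤ) = dz 192 41 fun j =>
    if j = 0 ∨ j = 40 then 384 * (omg m : ℤ) else -2 ^ (116 - r) := by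
  have h1 : KB m r = 384 * omg m * (1 + Nat.shiftLeft 1 (192 * 40)) -
      Nat.shiftLeft (ones 192 39) (308 - r) := rfl
  have h2 : (Nat.shiftLeft (ones 192 39) (308 - r) : ℤ) =
      2 ^ 192 * dz 192 39 fun _ => 2 ^ (116 - r) := by
    rw [shl_ones, dz_smul, show 308 - r = 192 + (116 - r) by omega, pow_add]
  have h3 : ((384 * omg m * (1 + Nat.shiftLeft 1 (192 * 40)) : ℕ) : ℤ) -
      Nat.shiftLeft (ones 192 39) (308 - r) = dz 192 (40 + 1) fun j =>
        if j = 0 ∨ j = 40 then 384 * (omg m : ℤ) else -2 ^ (116 - r) := by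
    have h4 : dz 192 39 (fun i => if i + 1 = 0 ∨ i + 1 = 40 then 384 * (omg m : ℤ)
        else -2 ^ (116 - r)) = -1 * dz 192 39 fun _ => 2 ^ (116 - r) := by
      rw [dz_smul]
      exact dz_congr fun i hi => by rw [if_neg (by omega), neg_one_mul]
    have h5 := n4_zcons 192 39 fun j =>
        if j = 0 ∨ j = 40 then 384 * (omg m : ℤ) else -2 ^ (116 - r)
    rw [h4, if_pos (Or.inl rfl)] at h5
    have h8 : ∀ d : ℕ → ℤ, dz 192 (40 + 1) d = dz 192 (39 + 1) d + d 40 * 2 ^ (192 * 40) :=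
      fun d => sum_range_succ _ _
    rw [h2, h8, if_pos (Or.inr rfl), h5, n4b_shl, Nat.cast_mul,
      Nat.cast_mul, Nat.cast_add, Nat.cast_mul, Nat.cast_pow, Nat.cast_one, Nat.cast_ofNat,
      Nat.cast_ofNat]
    generalize (2 : ℤ) ^ (192 * 40) = a
    generalize (2 : ℤ) ^ 192 = b
    ring
  have h6 : (1 : ℤ) ≤ 384 * omg m ∧ |384 * (omg m : ℤ)| < 2 ^ 192 := by
    have := omg_le hm
    clear h1 h2 h3
    rw [abs_of_nonneg (by omega)]
    omega
  have h7 : |-(2 : ℤ) ^ (116 - r)| < 2 ^ 192 := by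
    rw [abs_neg, abs_pow, abs_two]
    exact pow_lt_pow_right₀ one_lt_two (by clear h1 h2 h3; omega)
  rw [h1, Nat.cast_sub, h3]
  rw [← Int.ofNat_le, ← sub_nonneg, h3]
  refine dz_nonneg (fun i _ => ?_) ?_
  · split_ifs
    · exact h6.2
    · exact h7
  · rw [if_pos (Or.inr rfl)]
    exact h6.1

namespace Seg

variable {s : Seg}

theorem nv2_U1 (h : s.Good) {g c : ℕ} (hg : g < 8) (hc : c < 402) :
    (s.U1 g c : ℤ) = dz 192 (20 * nM g) fun j => ∑ x, (nv2_w true (m0 g + j / 20) x : ℤ) *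
      (s.dN.cf (sys.xs x) c (j % 20) + 2 ^ 64) := by
  have h1 : s.U1 g c = pk (192 * 20) (nM g) fun i =>
      dg (192 * 20) ((mixN 1 (m0 g + i)).ap (s.dN.unp (cj c))) (ci c) := rfl
  rw [h1]
  refine pk_dz (L := 20) (by norm_num) (d := fun i k => ∑ x, (nv2_w true (m0 g + i) x : ℤ) *
      (s.dN.cf (sys.xs x) c k + 2 ^ 64)) fun i hi => ?_
  have hm := (inM_add hg hi).lt
  rw [nv2_row (by norm_num) hm]
  exact Dat.lin_dg h.hN (by norm_num) univ _ _ (nv2_le _ hm) hc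

theorem nv2_U0 (h : s.Good) {g c : ℕ} (hg : g < 8) (hc : c < 402) :
    (s.U0 g c : ℤ) = dz 192 (20 * nM g) fun j => ∑ c' ∈ range 402, if nc c' = c then
      ∑ x, (nv2_w false (m0 g + j / 20) x : ℤ) * (s.dN.cf (sys.xs x) c' (j % 20) + 2 ^ 64)
      else 0 := by
  have h1 : s.U0 g c = cnd (Nat.beq (t0 c) (t1 c)) 0 (pk (192 * 20) (nM g) fun i =>
      Nat.mod (sm (t1 c - t0 c) fun r => (mixN 0 (m0 g + i)).ap (s.dN.unp (t0 c + r)))
        (msk (192 * 20))) := rfl
  have h2 : ∀ m k : ℕ, (∑ c' ∈ range 402, if nc c' = c then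
      ∑ x, (nv2_w false m x : ℤ) * (s.dN.cf (sys.xs x) c' k + 2 ^ 64) else 0) =
      ∑ r ∈ range (t1 c - t0 c), ∑ i ∈ range (cl (t0 c + r)), ∑ x, (nv2_w false m x : ℤ) *
        (s.dN.cg (t0 c + r) (sys.xs x) i k + 2 ^ 64) := fun m k =>
    (pre_sum (fun j i => ∑ x, (nv2_w false m x : ℤ) * (s.dN.cg j (sys.xs x) i k + 2 ^ 64)) hc).symm
  rw [h1, cnd_eq]
  simp only [h2]
  split_ifs with p
  · rw [Nat.eq_of_beq_eq_true p, Nat.sub_self]
    simp only [range_zero, sum_empty, dz, zero_mul, sum_const_zero, Nat.cast_zero]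
  · refine pk_dz (L := 20) (by norm_num) (d := fun m k => ∑ r ∈ range (t1 c - t0 c),
      ∑ i ∈ range (cl (t0 c + r)), ∑ x, (nv2_w false (m0 g + m) x : ℤ) *
        (s.dN.cg (t0 c + r) (sys.xs x) i k + 2 ^ 64)) fun i hi => ?_
    have hm := (inM_add hg hi).lt
    have ht := t1_le hc
    rw [sm_eq, sum_congr rfl fun r _ => nv2_row (by norm_num) hm _]
    exact Dat.lin_mod h.hN (by norm_num) univ _ _ (nv2_le _ hm) (by omega)

theorem nv2_zc (s : Seg) (m : ℕ) {c k : ℕ} (hc : c < 402) (hk : k < 20) :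
    (vv c : ℤ) * ((∑ x, (nv2_w true m x : ℤ) * (s.dN.cf (sys.xs x) c k + 2 ^ 64)) +
      ∑ c' ∈ range 402, if nc c' = c then
        ∑ x, (nv2_w false m x : ℤ) * (s.dN.cf (sys.xs x) c' k + 2 ^ 64) else 0) -
      vv c * (((∑ x, nv2_w true m x : ℕ) : ℤ) * 2 ^ 64 +
        cn c * (((∑ x, nv2_w false m x : ℕ) : ℤ) * 2 ^ 64)) = s.zc m c k := by
  have h1 : ∀ t c', s.aN t c' k = s.dN.cf t c' k := fun t c' => by rw [aN, if_neg hk.ne]
  have h2 : (∑ c' ∈ range 402, if nc c' = c then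
        ∑ x, (nv2_w false m x : ℤ) * (s.dN.cf (sys.xs x) c' k + 2 ^ 64) else 0) =
      (∑ x, (nv2_w false m x : ℤ) * ∑ c' ∈ range 402, if nc c' = c then
        s.dN.cf (sys.xs x) c' k else 0) + cn c * (((∑ x, nv2_w false m x : ℕ) : ℤ) * 2 ^ 64) := by
    simp only [mul_sum]
    rw [sum_comm, cn_eq hc, Nat.cast_sum (range 402), sum_mul, ← sum_add_distrib]
    refine sum_congr rfl fun c' _ => ?_
    split_ifs
    · rw [Nat.cast_one, one_mul, Nat.cast_sum, sum_mul, ← sum_add_distrib]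
      exact sum_congr rfl fun x _ => mul_add _ _ _
    · simp only [mul_zero, sum_const_zero, Nat.cast_zero, zero_mul, add_zero]
  have h3 : (∑ x, (nv2_w true m x : ℤ) * (s.dN.cf (sys.xs x) c k + 2 ^ 64)) =
      (∑ x, (nv2_w true m x : ℤ) * s.dN.cf (sys.xs x) c k) +
        ((∑ x, nv2_w true m x : ℕ) : ℤ) * 2 ^ 64 := by
    rw [Nat.cast_sum, sum_mul, ← sum_add_distrib]
    exact sum_congr rfl fun x _ => mul_add _ _ _
  rw [h2, h3, ← mul_sub, add_add_add_comm, add_sub_cancel_right, zc, ← sum_add_distrib]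
  refine congrArg _ (sum_congr rfl fun x _ => ?_)
  simp only [h1, nv2_w]
  by_cases p : (sys.xm x).val = m
  · rw [if_pos p]
    cases q : sys.xe x
    · rw [if_neg fun r => Bool.false_ne_true r.2, if_pos ⟨p, rfl⟩, if_neg Bool.false_ne_true,
        Nat.cast_zero, zero_mul, zero_add]
    · rw [if_pos ⟨p, rfl⟩, if_neg fun r => Bool.false_ne_true r.2.symm, if_pos rfl,
        Nat.cast_zero, zero_mul, add_zero]
  · rw [if_neg p, if_neg fun r => p r.1, if_neg fun r => p r.1, Nat.cast_zero, zero_mul, zero_mul,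
      add_zero]

theorem nv2_bd {m : ℕ} (hm : m < 118) : 384 * (omg m : ℤ) * 2 ^ 60 ≤ 2 ^ 100 := by
  have := (omg_le hm).2
  omega

theorem nv2_zc_le (h : s.Good) {m c k : ℕ} (hm : m < 118) (hc : c < 402) (hk : k ≤ 20) :
    |s.zc m c k| ≤ 2 ^ 100 := by
  obtain ⟨A, rfl⟩ := cls_surj hc
  exact (abs_le_nrm 20 _ hk).trans (((single_le_sum (f := fun A : St => nrm 20 (s.zc m (cls A)))
    (fun _ _ => nrm_nonneg _ _) (mem_univ A)).trans (zc_l1 h hm)).trans (nv2_bd hm))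

theorem X0_eq (h : s.Good) {g c : ℕ} (hg : g < 8) (hc : c < 402) :
    (s.X0 g c : ℤ) = dz 192 (20 * nM g) fun j => s.zc (m0 g + j / 20) c (j % 20) + 2 ^ 100 := by
  have h1 : s.X0 g c = Nat.sub (vv c * (s.U1 g c + s.U0 g c) +
      Nat.shiftLeft (ones 192 (20 * nM g)) 100) (vv c * (Om g 1 + cn c * Om g 0)) := rfl
  rw [h1]
  refine sub_dz (fun j hj => ?_) ?_
  · have := abs_le.1 (nv2_zc_le h (inM_add hg (nv2_div hj)).lt hc
      (Nat.mod_lt j (show 0 < 20 by norm_num)).le)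
    linarith only [this.1]
  · rw [Nat.cast_add, Nat.cast_mul, Nat.cast_mul, Nat.cast_add, Nat.cast_add, Nat.cast_mul,
      shl_ones, nv2_U1 h hg hc, nv2_U0 h hg hc, nv2_Om hg (by norm_num), nv2_Om hg (by norm_num),
      dz_add, dz_smul, dz_smul, dz_add, dz_add, dz_smul, dz_sub]
    refine dz_congr fun j _ => ?_
    rw [add_sub_right_comm]
    exact congrArg (· + 2 ^ 100) (nv2_zc s _ hc (Nat.mod_lt j (by norm_num)))

theorem X1_eq (h : s.Good) {g : ℕ} (hg : g < 8) (A : St) :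
    (s.X1 g (cls A) : ℤ) = dz 192 (20 * nM g) fun j =>
      s.zh (m0 g + j / 20) A (j % 20) + 2 ^ (116 - A.card) := by
  have hA := n2_le A
  rw [X1, zu_eq, Nat.cast_sum, sum_congr rfl fun B _ => X0_eq h hg (cls_lt B), dz_sum]
  refine dz_congr fun j _ => ?_
  rw [sum_add_distrib, sum_const, card_sup, nv1_zh, nsmul_eq_mul, Nat.cast_pow, Nat.cast_ofNat,
    ← pow_add, show 16 - A.card + 100 = 116 - A.card by omega]

theorem Vf_eq (h : s.Good) {g m : ℕ} (hm : InM g m) (A : St) :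
    (s.Vf g (cls A) m : ℝ) = tW ^ 20 * s.Zh uW m A := by
  have hA := n2_le A
  have hg := hm.1
  obtain ⟨D, hD⟩ : ∃ D : ℕ → ℤ, D = fun j =>
      s.zh (m0 g + j / 20) A (j % 20) + 2 ^ (116 - A.card) := ⟨_, rfl⟩
  have hb : ∀ j < 20 * nM g, 0 ≤ D j ∧ D j < 2 ^ 192 := fun j hj => by
    have hm' := (inM_add hg (nv2_div hj)).lt
    have h1 := abs_le.1 ((abs_le_nrm 20 (s.zh (m0 g + j / 20) A)
      (Nat.mod_lt j (show 0 < 20 by norm_num)).le).trans ((zh_nrm h hm' A).trans (nv2_bd hm')))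
    have h2 : (2 : ℤ) ^ 100 ≤ 2 ^ (116 - A.card) := pow_le_pow_right₀ (by norm_num) (by omega)
    have h3 : (2 : ℤ) ^ (116 - A.card) ≤ 2 ^ 116 := pow_le_pow_right₀ (by norm_num) (by omega)
    rw [hD]
    constructor
    · linarith only [h1.1, h2]
    · linarith only [h1.2, h3]
  have h1 : s.X1 g (cls A) = ds 192 (20 * nM g) fun j => (D j).toNat :=
    ds_of_dz (fun j hj => (hb j hj).1) (hD ▸ X1_eq h hg A)
  have h2 : ∀ j < 20 * nM g, (D j).toNat < 2 ^ 192 := fun j hj => by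
    have := hb j hj
    omega
  have h3 : rev5 192 2 (nM g) (ds 192 (20 * nM g) fun j => (D j).toNat) =
      ds 192 (20 * nM g) fun j => (D (20 * (j / 20) + (20 - 1 - j % 20))).toNat :=
    rev5_eq (by norm_num) 2 (nM g) h2
  have h4 : s.Vf g (cls A) m = Nat.add (Nat.shiftLeft (dg (192 * 20) (s.X1 g (cls A)) (m - m0 g))
      (192 * 20)) (Nat.land (Nat.shiftRight (Nat.shiftLeft (rev5 192 2 (nM g) (s.X1 g (cls A))) 192)
        (192 * 20 * (m - m0 g))) (Nat.shiftLeft (msk (192 * (20 - 1))) 192)) +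
      KB m (sz (cls A)) := rfl
  have h5 : (s.Vf g (cls A) m : ℤ) = dz 192 (2 * 20 + 1) fun j => s.zh m A (Nat.dist j 20) := by
    rw [h4, h1, h3, sym_eq (L := 20) (by norm_num) h2 hm.sub.1, cls_card, Nat.cast_add,
      nv2_KB hm.lt hA, ds_cast, dz_add]
    refine dz_congr fun j hj => ?_
    by_cases p : j = 0 ∨ j = 40
    · rw [if_pos p, if_pos p, Nat.cast_zero, zero_add,
        show Nat.dist j 20 = 20 by rcases p with p | p <;> rw [p] <;> rfl, zh_top s hm.lt]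
    · have h6 : Nat.dist j 20 < 20 := by rw [Nat.dist]; omega
      have h7 := hm.sub
      rw [if_neg p, if_neg p, Int.toNat_of_nonneg (hb _ (by omega)).1, hD]
      simp only []
      rw [show (20 * (m - m0 g) + Nat.dist j 20) / 20 = m - m0 g by omega,
        show (20 * (m - m0 g) + Nat.dist j 20) % 20 = Nat.dist j 20 by omega, h7.2,
        add_neg_cancel_right]
  rw [Zh, ← dz_kron, ← h5, Int.cast_natCast]

end Seg

end

end Pool.Agent.MP_7c51ae_co

/-!
The packed products.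
-/

set_option autoImplicit false

namespace Pool.Agent.MP_7c51ae_co

open Finset

noncomputable section

theorem nw_cp {t : ℕ} (ht : t < 100) {c : ℤ} {o F : Fin ruleL.length → ℝ → ℝ}
    (ho : ∀ y, CP 3 c (o y)) (hF : ∀ y, CP (20 + 20)
      (384 * omg (sys.ya y) * 2 ^ 60 * (384 * omg (sys.yb y) * 2 ^ 60)) (F y)) (hc : 0 ≤ c) :
    CP 43 (c * 384 ^ 2 * 2 ^ 153)
      (fun u => ∑ y, if (sys.ys y).val = t then (wy y : ℝ) * (o y u * F y u) else 0) := by
  have k := CP.sum univ fun y _ => (((ho y).mul (hF y)).smul (wy y)).ite ((sys.ys y).val = t)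
  refine (k.mono le_rfl ?_).congr fun u => sum_congr rfl fun y _ => by rw [Int.cast_natCast]
  have h2 : ((∑ y, if (sys.ys y).val = t then wy y * (omg (sys.ya y) * omg (sys.yb y)) else 0 :
      ℕ) : ℤ) ≤ (2 ^ 33 : ℕ) := Int.ofNat_le.2 (om2_le ht)
  rw [Nat.cast_sum] at h2
  have h3 := mul_le_mul_of_nonneg_left h2 (show 0 ≤ c * 384 ^ 2 * 2 ^ 120 by positivity)
  rw [mul_sum] at h3
  refine le_trans (le_of_eq (sum_congr rfl fun y _ => ?_)) (h3.trans (le_of_eq ?_))
  · split_ifs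
    · rw [Nat.abs_cast, Nat.cast_mul, Nat.cast_mul]; ring
    · rw [Nat.cast_zero, mul_zero]
  · push_cast; ring

theorem nw_shl (X : ℕ) : (Nat.shiftLeft X 588 : ℝ) = tW ^ 3 * 4096 * X := by
  rw [n4b_shl, Nat.cast_mul, Nat.cast_pow, tW, ← pow_mul, show 588 = 192 * 3 + 12 from rfl,
    pow_add, Nat.cast_ofNat, show (2 : ℝ) ^ 12 = 4096 by norm_num, mul_comm]

namespace Seg

variable {s : Seg}

theorem nw_zh (h : s.Good) (A : St) (y : Fin ruleL.length) : CP (20 + 20)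
    (384 * omg (sys.ya y) * 2 ^ 60 * (384 * omg (sys.yb y) * 2 ^ 60))
    fun u => s.Zh u (sys.ya y) A * s.Zh u (sys.yb y) A :=
  ((CP.of 20 _).mono le_rfl (zh_nrm h (sys.ya y).2 A)).mul
    ((CP.of 20 _).mono le_rfl (zh_nrm h (sys.yb y).2 A))

theorem wf_cp (h : s.Good) {t : ℕ} (ht : t < 100) (A : St) : CP 43 (2 ^ 184) (s.wf t A) :=
  (nw_cp ht (fun y => om_cp h (sys.yi y)) (nw_zh h A) (by norm_num)).mono le_rfl (by norm_num)

theorem vf_cp (h : s.Good) {t : ℕ} (ht : t < 100) (D : St) : CP 43 (2 ^ 184) (s.vf t D) := by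
  refine (nw_cp ht (fun y => om_cp h (sys.yi y)) (F := fun y u =>
    cv (s.Zs u (sys.ya y)) (s.Zs u (sys.yb y)) D) (fun y => ?_) (by norm_num)).mono le_rfl
    (by norm_num)
  refine (CP.pair (fun A => CP.of 20 (s.zc (sys.ya y) (cls A)))
    (fun A => CP.of 20 (s.zc (sys.yb y) (cls A))) fun A C => A ∩ C = D).mono le_rfl ?_
  exact mul_le_mul (zc_l1 h (sys.ya y).2) (zc_l1 h (sys.yb y).2)
    (sum_nonneg fun _ _ => nrm_nonneg _ _) (by positivity)

theorem pf_cp (h : s.Good) {t : ℕ} (ht : t < 100) : CP 43 (2 ^ 185) (s.pf t) :=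
  ((nw_cp ht (fun y => (CP.const 3 4096).sub (om_cp h (sys.yi y))) (nw_zh h ∅)
    (by norm_num)).mono le_rfl (by norm_num)).congr fun u =>
    sum_congr rfl fun y _ => by rw [Int.cast_ofNat]

theorem nw_vv (h : s.Good) {g t : ℕ} (ht : InS g t) (A : St) {y : Fin ruleL.length}
    (e : (sys.ys y).val = t) :
    ((wy y * (s.Vf g (cls A) (sys.ya y) * s.Vf g (cls A) (sys.yb y)) : ℕ) : ℝ) =
      wy y * (tW ^ 40 * (s.Zh uW (sys.ya y) A * s.Zh uW (sys.yb y) A)) := by
  have l := loc_s y (e ▸ ht)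
  rw [Nat.cast_mul, Nat.cast_mul, Vf_eq h l.1, Vf_eq h l.2]
  ring

theorem Wh_eq (h : s.Good) {g t : ℕ} (ht : InS g t) (A : St) :
    (s.Wh g (cls A) t : ℝ) = tW ^ 43 * s.wf t A uW := by
  rw [Wh, Nat.add_eq, Nat.mul_eq, Nat.cast_add, Nat.cast_mul, nw_shl, ra_row h.p ht.lt,
    rb_row h.p ht.lt, Q_eq h, wf, Nat.cast_sum, Nat.cast_sum, mul_sum, mul_sum, mul_sum,
    ← sum_add_distrib]
  refine sum_congr rfl fun y _ => ?_
  by_cases e : (sys.ys y).val = t
  · rw [if_pos e, om]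
    rcases lt_trichotomy (sys.yi y).val s.p with p | p | p
    · rw [if_neg (fun k => by omega), if_neg (fun k => by omega), if_pos p, Nat.cast_zero]
      ring
    · rw [if_neg (fun k => by omega), if_pos ⟨e, p⟩, if_neg (by omega), if_pos p, nw_vv h ht A e,
        Nat.cast_zero]
      ring
    · rw [if_pos ⟨e, p⟩, if_neg (fun k => by omega), if_neg (by omega), if_neg (by omega),
        nw_vv h ht A e, Nat.cast_zero]
      ring
  · rw [if_neg e, if_neg fun k => e k.1, if_neg fun k => e k.1, Nat.cast_zero]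
    ring

theorem Y_eq (h : s.Good) {g : ℕ} (hg : g < 8) (A : St) :
    (s.Y g (cls A) : ℤ) = dz 192 (44 * nS g) fun j =>
      (-1) ^ A.card * cof 43 (s.wf (s0 g + j / 44) A) (j % 44) + 2 ^ 190 := by
  have cp : ∀ i < nS g, CP 43 (2 ^ 190) (s.wf (s0 g + i) A) := fun i hi =>
    (wf_cp h (inS_add hg hi).lt A).mono le_rfl (by norm_num)
  rw [Y, cnd_eq, evn_cls, show 8448 = 192 * 44 from rfl]
  refine (apply_ite Nat.cast _ _ _).trans ?_
  split_ifs with e
  · rw [(of_decide_eq_true e).neg_one_pow]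
    simp only [one_mul]
    exact pk_dz (d := fun i k => cof 43 (s.wf (s0 g + i) A) k + 2 ^ 190) (by norm_num) fun i hi =>
      shr_add (cp i hi) (Wh_eq h (inS_add hg hi) A)
  · rw [(Nat.not_even_iff_odd.1 fun k => e (decide_eq_true k)).neg_one_pow]
    refine pk_dz (d := fun i k => -1 * cof 43 (s.wf (s0 g + i) A) k + 2 ^ 190) (by norm_num)
      fun i hi => ?_
    have c1 := (cp i hi).smul (-1)
    rw [abs_neg, abs_one, one_mul] at c1
    refine (shr_sub c1 (X := 0) (Y := s.Wh g (cls A) (s0 g + i)) ?_).trans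
      (dz_congr fun k hk => ?_)
    · rw [Wh_eq h (inS_add hg hi) A]; push_cast; ring
    · rw [cof_eq (a := fun k => -1 * cof 43 (s.wf (s0 g + i) A) k)
        (fun u => by rw [chv_mul, ← (cp i hi).cof.1]) (by omega)]

theorem nw_inv (s : Seg) (t : ℕ) (A : St) (u : ℝ) :
    ∑ B ∈ univ.filter (fun B : St => A ⊆ B), (-1) ^ B.card * s.wf t B u =
      (-1) ^ A.card * s.vf t A u := by
  simp only [wf, vf, mul_sum]
  rw [sum_comm]
  refine sum_congr rfl fun y _ => ?_
  split_ifs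
  · have := mob_up (s.Zs u (sys.ya y)) (s.Zs u (sys.yb y)) A
    rw [hat] at this
    rw [mul_left_comm, mul_left_comm ((-1) ^ A.card), ← this, mul_sum, mul_sum]
    refine sum_congr rfl fun B _ => ?_
    rw [Zh_eq, Zh_eq]
    ring
  · simp only [mul_zero, sum_const_zero]

theorem R_eq (h : s.Good) {g : ℕ} (hg : g < 8) (A : St) :
    (s.R g (cls A) : ℤ) = dz 192 (44 * nS g) fun j =>
      (-1) ^ A.card * cof 43 (s.vf (s0 g + j / 44) A) (j % 44) + 2 ^ (206 - A.card) := by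
  rw [R, zu_eq, Nat.cast_sum, sum_congr rfl fun B _ => Y_eq h hg B, dz_sum]
  refine dz_congr fun j hj => ?_
  have ht := (inS_add hg (show j / 44 < nS g by omega)).lt
  have c := n2_le A
  rw [sum_add_distrib, sum_const, card_sup, nsmul_eq_mul, Nat.cast_pow, Nat.cast_ofNat, ← pow_add,
    show 16 - A.card + 190 = 206 - A.card by omega]
  refine congrArg (· + _) (chv_uniq (n := 43) (a := fun k => ∑ B ∈ univ.filter
    (fun B : St => A ⊆ B), (-1) ^ B.card * cof 43 (s.wf (s0 g + j / 44) B) k) (b := fun k =>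
    (-1) ^ A.card * cof 43 (s.vf (s0 g + j / 44) A) k) (fun u => ?_) (by omega))
  rw [chv_sum, chv_mul, ← (vf_cp h ht A).cof.1, Int.cast_pow, Int.cast_neg, Int.cast_one, ← nw_inv]
  refine sum_congr rfl fun B _ => ?_
  rw [chv_mul, ← (wf_cp h ht B).cof.1, Int.cast_pow, Int.cast_neg, Int.cast_one]

theorem Pin_eq (h : s.Good) {g : ℕ} (hg : g < 8) :
    (s.Pin g : ℤ) = dz 192 (44 * nS g) fun j =>
      cof 43 (s.pf (s0 g + j / 44)) (j % 44) + 2 ^ 190 := by
  rw [Pin, show 8448 = 192 * 44 from rfl]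
  refine pk_dz (d := fun i k => cof 43 (s.pf (s0 g + i)) k + 2 ^ 190) (by norm_num) fun i hi => ?_
  have ht := inS_add hg hi
  refine shr_sub ((pf_cp h ht.lt).mono le_rfl (by norm_num))
    (X := Nat.shiftLeft ((rt (s0 g + i)).ap (s.Vf g 0)) 588) (Y := s.Wh g 0 (s0 g + i)) ?_
  rw [← (cls_eq_zero ∅).2 rfl, Wh_eq h ht, nw_shl, rt_row ht.lt, wf, pf, Nat.cast_sum, mul_sum,
    mul_sum, mul_sum, ← sum_sub_distrib]
  refine sum_congr rfl fun y _ => ?_
  split_ifs with e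
  · rw [nw_vv h ht ∅ e]; ring
  · rw [Nat.cast_zero]; ring

end Seg

end

end Pool.Agent.MP_7c51ae_co

/-!
The packed residuals.
-/

set_option autoImplicit false

namespace Pool.Agent.MP_7c51ae_co

open Finset

noncomputable section

theorem nr1_vk (c : ℕ) : vk c = 384 * vv c * 2 ^ 91 := n4b_shl (384 * vv c) 91

theorem nr1_o3 (g e : ℕ) :
    (Nat.shiftLeft (o3 g) e : ℤ) = dz 192 (44 * nS g) fun _ => 2 ^ e := shl_ones (44 * nS g) e

theorem nr1_K1o (g : ℕ) :
    (K1o g : ℤ) = dz 192 (44 * nS g) fun j => if j % 44 < 20 then 2 ^ 64 else 0 := by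
  have e : K1o g = pk (192 * 44) (nS g) fun _ => Nat.shiftLeft (ones 192 20) 64 := by
    show ones (192 * 44) (nS g) * Nat.shiftLeft (ones 192 20) 64 = _
    rw [ones_eq (b := 192 * 44) (by norm_num), n4b_mul, pk_eq]
    exact ds_congr fun _ _ => Nat.one_mul _
  rw [e]
  exact pk_dz (L := 44) (by norm_num) (d := fun _ k => if k < 20 then 2 ^ 64 else 0) fun i _ => by
    rw [shl_ones, dz_pad 192 (by norm_num : 20 ≤ 44)]

theorem nr1_lt {g j : ℕ} (hg : g < 8) (hj : j < 44 * nS g) : s0 g + j / 44 < 100 :=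
  (inS_add hg (Nat.div_lt_of_lt_mul hj)).lt

theorem nr1_mod (j : ℕ) : j % 44 ≤ 43 := Nat.le_of_lt_succ (Nat.mod_lt j (by norm_num))

/-- absolute values from a difference with an offset -/
theorem nr1_ab {n a b : ℕ} {r : ℕ → ℤ} (hr : ∀ i < n, |r i| ≤ 2 ^ 189)
    (h : (a : ℤ) - b = dz 192 n fun i => r i + 2 ^ 191) :
    ab n (Nat.sub a b) = ds 192 n fun i => (r i).natAbs := by
  refine ab_eq (fun i hi => (hr i hi).trans_lt (by norm_num)) (sub_dz (fun i hi => ?_) h)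
  have h1 := (abs_le.1 (hr i hi)).1
  have h2 : (2 : ℤ) ^ 189 ≤ 2 ^ 191 := by norm_num
  linarith only [h1]

namespace Seg

variable {s : Seg}

theorem ow_cp (h : s.Good) (t : ℕ) (D : St) : CP 43 (2 ^ 170) (s.ow t D) := by
  have h1 : nrm 20 (s.aN t (cls D)) ≤ 2 ^ 60 :=
    (single_le_sum (f := fun c => nrm 20 (s.aN t c)) (fun c _ => nrm_nonneg _ _)
      (mem_range.2 (cls_lt D))).trans (aN_nrm h t)
  have h2 : (vk (cls D) : ℤ) ≤ 2 ^ 110 := by
    have h3 : (vv (cls D) : ℤ) ≤ 384 := by exact_mod_cast (vv_le (cls_lt D)).2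
    rw [nr1_vk]
    push_cast
    linarith only [h3]
  refine (((CP.of 20 (s.aN t (cls D))).smul (vk (cls D) : ℤ)).mono (by norm_num) ?_).congr
    fun u => by rw [ow, Int.cast_natCast]
  rw [Nat.abs_cast]
  exact (mul_le_mul h2 h1 (nrm_nonneg _ _) (by norm_num)).trans (by norm_num)

theorem rf_cp (h : s.Good) {t : ℕ} (ht : t < 100) (D : St) : CP 43 (2 ^ 185) (s.rf t D) :=
  (((vf_cp h ht D).sub (ow_cp h t D)).mono le_rfl (by norm_num)).congr fun u => by rw [rf]

theorem rf1_cp (h : s.Good) {t : ℕ} (ht : t < 100) : CP 43 (2 ^ 189) (s.rf1 t) :=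
  ((((((vf_cp h ht {0}).smul 16).add (vf_cp h ht ∅)).add (pf_cp h ht)).sub
    ((ow_cp h t {0}).smul 16)).mono le_rfl (by norm_num)).congr fun u => by
      rw [rf1, Int.cast_ofNat]

theorem nr1_cof_ow (s : Seg) (t : ℕ) {D : St} (hD : D ≠ univ) {k : ℕ} (hk : k ≤ 43) :
    cof 43 (s.ow t D) k = vk (cls D) * if k < 20 then s.dN.cf t (cls D) k else 0 := by
  rw [cof_eq (a := fun k => (vk (cls D) : ℤ) * if k ≤ 20 then s.aN t (cls D) k else 0)
    (fun u => by rw [chv_mul, chv_pad (by norm_num : 20 ≤ 43), ow, Int.cast_natCast]) hk]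
  refine congrArg _ ?_
  rcases lt_trichotomy k 20 with p | p | p
  · rw [if_pos p.le, if_pos p, aN, if_neg p.ne]
  · rw [if_pos p.le, if_neg p.not_lt, aN, if_pos p, if_neg fun q => hD ((cls_eq_top D).1 q)]
  · rw [if_neg p.not_ge, if_neg p.not_gt]

theorem nr1_cof_rf (h : s.Good) {t : ℕ} (ht : t < 100) (D : St) {k : ℕ} (hk : k ≤ 43) :
    cof 43 (s.rf t D) k = cof 43 (s.vf t D) k - cof 43 (s.ow t D) k :=
  cof_eq (a := fun k => cof 43 (s.vf t D) k - cof 43 (s.ow t D) k) (fun u => by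
    rw [chv_sub, ← (vf_cp h ht D).cof.1, ← (ow_cp h t D).cof.1, rf]) hk

theorem nr1_cof_rf1 (h : s.Good) {t : ℕ} (ht : t < 100) {k : ℕ} (hk : k ≤ 43) :
    cof 43 (s.rf1 t) k = 16 * cof 43 (s.vf t {0}) k + cof 43 (s.vf t ∅) k + cof 43 (s.pf t) k -
      16 * cof 43 (s.ow t {0}) k :=
  cof_eq (a := fun k => 16 * cof 43 (s.vf t {0}) k + cof 43 (s.vf t ∅) k + cof 43 (s.pf t) k -
      16 * cof 43 (s.ow t {0}) k) (fun u => by
    rw [chv_sub, chv_add, chv_add, chv_mul, chv_mul, ← (vf_cp h ht {0}).cof.1,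
      ← (vf_cp h ht ∅).cof.1, ← (pf_cp h ht).cof.1, ← (ow_cp h t {0}).cof.1, rf1,
      Int.cast_ofNat]) hk

theorem Ow_eq (h : s.Good) (g : ℕ) {D : St} (hD : D ≠ univ) :
    (vk (cls D) : ℤ) * s.Ow g (cls D) - vk (cls D) * K1o g = dz 192 (44 * nS g) fun j =>
      cof 43 (s.ow (s0 g + j / 44) D) (j % 44) := by
  have e : s.Ow g (cls D) = pk (192 * 44) (nS g) fun i =>
      dg (192 * 20) (s.dN.unp (cj (cls D)) (s0 g + i)) (ci (cls D)) := rfl
  rw [e, pk_dz (L := 44) (by norm_num)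
    (d := fun i k => if k < 20 then s.dN.cf (s0 g + i) (cls D) k + 2 ^ 64 else 0) fun i _ => by
      rw [Dat.blk_eq h.hN (by norm_num) _ (cls_lt D), dz_pad 192 (by norm_num : 20 ≤ 44)],
    nr1_K1o, ← mul_sub, dz_sub, dz_smul]
  refine dz_congr fun j _ => ?_
  rw [nr1_cof_ow s _ hD (nr1_mod j)]
  split_ifs
  · rw [add_sub_cancel_right]
  · rw [sub_self]

theorem Ab_eq (h : s.Good) {g : ℕ} (hg : g < 8) {D : St} (hD : D ≠ univ) :
    s.Ab g (cls D) = ds 192 (44 * nS g) fun j =>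
      (cof 43 (s.rf (s0 g + j / 44) D) (j % 44)).natAbs := by
  have hb : ∀ j < 44 * nS g, |cof 43 (s.rf (s0 g + j / 44) D) (j % 44)| ≤ 2 ^ 189 := fun j hj =>
    ((rf_cp h (nr1_lt hg hj) D).cof_le (nr1_mod j)).trans (by norm_num)
  have hO := Ow_eq h g hD
  have hR := R_eq h hg D
  have h1 := nr1_o3 g 191
  have h2 := nr1_o3 g (206 - D.card)
  rw [Ab, frc_eq, cnd_eq, evn_cls, cls_card]
  by_cases p : Even D.card
  · rw [if_pos (decide_eq_true p)]
    refine nr1_ab hb ?_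
    have e : (s.R g (cls D) : ℤ) + Nat.shiftLeft (o3 g) 191 - Nat.shiftLeft (o3 g) (206 - D.card) -
        (vk (cls D) * s.Ow g (cls D) - vk (cls D) * K1o g) = dz 192 (44 * nS g) fun j =>
          cof 43 (s.rf (s0 g + j / 44) D) (j % 44) + 2 ^ 191 := by
      rw [hO, hR, h1, h2, dz_add, dz_sub, dz_sub]
      refine dz_congr fun j hj => ?_
      rw [nr1_cof_rf h (nr1_lt hg hj) D (nr1_mod j), p.neg_one_pow]
      ring
    refine Eq.trans ?_ e
    simp only [Nat.add_eq, Nat.mul_eq, Nat.sub_eq, Nat.cast_add, Nat.cast_mul]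
    ring
  · rw [if_neg fun q => p (of_decide_eq_true q)]
    refine (nr1_ab (r := fun j => -cof 43 (s.rf (s0 g + j / 44) D) (j % 44))
      (fun j hj => (abs_neg _).trans_le (hb j hj)) ?_).trans
      (ds_congr fun j _ => Int.natAbs_neg _)
    have e : (s.R g (cls D) : ℤ) + Nat.shiftLeft (o3 g) 191 - Nat.shiftLeft (o3 g) (206 - D.card) +
        (vk (cls D) * s.Ow g (cls D) - vk (cls D) * K1o g) = dz 192 (44 * nS g) fun j =>
          -cof 43 (s.rf (s0 g + j / 44) D) (j % 44) + 2 ^ 191 := by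
      rw [hO, hR, h1, h2, dz_add, dz_sub, dz_add]
      refine dz_congr fun j hj => ?_
      rw [nr1_cof_rf h (nr1_lt hg hj) D (nr1_mod j), (Nat.not_even_iff_odd.1 p).neg_one_pow]
      ring
    refine Eq.trans ?_ e
    simp only [Nat.add_eq, Nat.mul_eq, Nat.sub_eq, Nat.cast_add, Nat.cast_mul]
    ring

theorem Ab1_eq (h : s.Good) {g : ℕ} (hg : g < 8) :
    s.Ab1 g = ds 192 (44 * nS g) fun j =>
      (cof 43 (s.rf1 (s0 g + j / 44)) (j % 44)).natAbs := by
  have c0 : cls ∅ = 0 := (cls_eq_zero _).2 rfl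
  have c1 : cls {0} = 1 := (cls_eq_one _).2 (card_singleton _)
  have hO := Ow_eq h g (D := {0}) fun q => absurd (((cls_eq_top _).2 q).symm.trans c1) (by norm_num)
  have hR0 := R_eq h hg ∅
  have hR1 := R_eq h hg {0}
  rw [c0, card_empty] at hR0
  rw [c1, card_singleton] at hR1
  rw [c1] at hO
  have e : (s.R g 0 : ℤ) + s.Pin g + Nat.shiftLeft (o3 g) 209 + Nat.shiftLeft (o3 g) 191 -
      16 * s.R g 1 - Nat.shiftLeft (o3 g) 206 - Nat.shiftLeft (o3 g) 190 -
      16 * (vk 1 * s.Ow g 1 - vk 1 * K1o g) = dz 192 (44 * nS g) fun j =>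
        cof 43 (s.rf1 (s0 g + j / 44)) (j % 44) + 2 ^ 191 := by
    rw [hO, hR0, hR1, Pin_eq h hg, nr1_o3, nr1_o3, nr1_o3, nr1_o3, dz_smul, dz_smul, dz_add,
      dz_add, dz_add, dz_sub, dz_sub, dz_sub, dz_sub]
    refine dz_congr fun j hj => ?_
    rw [nr1_cof_rf1 h (nr1_lt hg hj) (nr1_mod j)]
    ring
  rw [Ab1, frc_eq]
  refine nr1_ab (fun j hj => (rf1_cp h (nr1_lt hg hj)).cof_le (nr1_mod j)) (Eq.trans ?_ e)
  generalize vk 1 = v
  simp only [Nat.add_eq, Nat.mul_eq, Nat.cast_add, Nat.cast_mul, Nat.cast_ofNat]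
  ring

end Seg

end

end Pool.Agent.MP_7c51ae_co

/-!
The residual and the masses.
-/

set_option autoImplicit false

namespace Pool.Agent.MP_7c51ae_co

open Finset

noncomputable section

theorem nr2_cv (Z Z' : St → ℝ) (c : ℝ) (D : St) :
    cv (fun A => Z A / c) (fun A => Z' A / c) D = cv Z Z' D / (c * c) := by
  unfold cv
  rw [sum_div]
  refine sum_congr rfl fun A _ => ?_
  rw [sum_div]
  refine sum_congr rfl fun B _ => ?_
  split_ifs
  · rw [div_mul_div_comm]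
  · rw [zero_div]

theorem nr2_ms (Z : St → ℝ) (c : ℝ) : ms (fun A => Z A / c) = ms Z / c := by
  unfold ms
  rw [sum_div]

theorem nr2_vk (c : ℕ) : (vk c : ℝ) = 384 * vv c * 2 ^ 91 := by
  have : vk c = 384 * vv c * 2 ^ 91 := n4b_shl _ _
  rw [this]
  push_cast
  ring

/-- the digits of block `i` -/
theorem nr2_blk {n : ℕ} {d : ℕ → ℕ} (hd : ∀ j < 44 * n, d j < 2 ^ 178) {i : ℕ} (hi : i < n) :
    Nat.mod (dg 8448 (ds 192 (44 * n) d) i) (msk 192) = ∑ k ∈ range 44, d (44 * i + k) := by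
  have hl : ∀ i < n, ∀ k < 44, d (44 * i + k) < 2 ^ 178 := fun i hi k hk => hd _ (by omega)
  have e : ds 192 (44 * n) d = ds (192 * 44) n fun i => ds 192 44 fun k => d (44 * i + k) := by
    rw [ds_ds 192 (by norm_num) n fun i k => d (44 * i + k)]
    exact ds_congr fun j _ => by rw [Nat.div_add_mod]
  have e2 : dg (192 * 44) (ds 192 (44 * n) d) i = ds 192 44 fun k => d (44 * i + k) := by
    rw [e]
    exact dg_ds (d := fun i => ds 192 44 fun k => d (44 * i + k))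
      (fun i hi => ds_lt fun k hk => (hl i hi k hk).trans (by norm_num)) hi
  change Nat.mod (dg (192 * 44) (ds 192 (44 * n) d) i) (msk 192) = _
  rw [e2]
  refine mod_sum ?_
  have : ∑ k ∈ range 44, d (44 * i + k) ≤ (range 44).card • 2 ^ 178 :=
    sum_le_card_nsmul _ _ _ fun k hk => (hl i hi k (mem_range.1 hk)).le
  rw [card_range, smul_eq_mul] at this
  exact this.trans_lt (by norm_num)

theorem nr2_ds_sum (W n m : ℕ) (w : ℕ → ℕ) (d : ℕ → ℕ → ℕ) :
    ∑ i ∈ range m, w i * ds W n (d i) = ds W n fun j => ∑ i ∈ range m, w i * d i j := by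
  unfold ds
  simp only [mul_sum, sum_mul]
  rw [sum_comm]
  exact sum_congr rfl fun j _ => sum_congr rfl fun i _ => (mul_assoc _ _ _).symm

/-- sums over lists as sums over classes -/
theorem nr2_tot (H : ℕ → ℝ) :
    ∑ A : St, H (cls A) = ∑ c ∈ range 402, ((384 / vv c : ℕ) : ℝ) * H c := by
  have h := tot_sum fun c => ((384 / vv c : ℕ) : ℝ) * H c
  have h2 : ∀ A : St, (vv (cls A) : ℝ) * (((384 / vv (cls A) : ℕ) : ℝ) * H (cls A)) =
      384 * H (cls A) := fun A => by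
    rw [← mul_assoc, ← Nat.cast_mul, Nat.mul_div_cancel' (vv_dvd (cls_lt A))]
    norm_num
  rw [sum_congr rfl fun A _ => h2 A, ← mul_sum] at h
  exact mul_left_cancel₀ (by norm_num) h

theorem nr2_core {n : ℕ} {A1 : ℕ} {A : ℕ → ℕ} {w : ℕ → ℕ} (hw : ∀ c, w c ≤ 384)
    (h1 : A1 = ds 192 (44 * n) (dg 192 A1)) (hA : ∀ c < 399, A c = ds 192 (44 * n) (dg 192 (A c)))
    (s1 : sml (44 * n) A1 = true) (sA : ∀ c < 399, sml (44 * n) (A c) = true) {i : ℕ}
    (hi : i < n) :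
    Nat.mod (dg 8448 (A1 + ∑ c ∈ range 399, w c * A c) i) (msk 192) = ∑ k ∈ range 44,
      (dg 192 A1 (44 * i + k) + ∑ c ∈ range 399, w c * dg 192 (A c) (44 * i + k)) := by
  have e : A1 + ∑ c ∈ range 399, w c * A c = ds 192 (44 * n) fun j =>
      dg 192 A1 j + ∑ c ∈ range 399, w c * dg 192 (A c) j := by
    rw [← n4b_add, ← nr2_ds_sum, ← h1]
    exact congrArg _ (sum_congr rfl fun c hc => congrArg _ (hA c (mem_range.1 hc)))
  rw [e]
  refine nr2_blk (d := fun j => dg 192 A1 j + ∑ c ∈ range 399, w c * dg 192 (A c) j)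
    (fun j hj => ?_) hi
  have b1 := sml_sound (fun j _ => dg_lt 192 A1 j) (h1 ▸ s1) j hj
  have b2 : ∑ c ∈ range 399, w c * dg 192 (A c) j ≤ (range 399).card • (384 * 2 ^ 160) :=
    sum_le_card_nsmul _ _ _ fun c hc => Nat.mul_le_mul (hw c) (sml_sound
      (fun j _ => dg_lt 192 (A c) j) (hA c (mem_range.1 hc) ▸ sA c (mem_range.1 hc)) j hj).le
  rw [card_range, smul_eq_mul] at b2
  exact (Nat.add_lt_add_of_lt_of_le b1 b2).trans_le (by norm_num)

theorem nr2_abs {B : ℕ} (hB : B < 192) {f : ℝ → ℝ} (h : CP 43 (2 ^ B) f) (j : ℕ) :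
    (cof 43 f (j % 44)).natAbs < 2 ^ 192 := by
  have h1 := h.cof_le (k := j % 44) (by omega)
  rw [← Int.natCast_natAbs] at h1
  have h2 : (cof 43 f (j % 44)).natAbs ≤ 2 ^ B := by exact_mod_cast h1
  exact h2.trans_lt (Nat.pow_lt_pow_right (by norm_num) hB)

theorem nr2_idx {g j : ℕ} (hg : g < 8) (hj : j < 44 * nS g) : s0 g + j / 44 < 100 :=
  (inS_add hg (by omega)).lt

namespace Seg

variable {s : Seg}

theorem nr2_Ab (h : s.Good) {g : ℕ} (hg : g < 8) {D : St} (hD : D ≠ univ) {j : ℕ}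
    (hj : j < 44 * nS g) :
    dg 192 (s.Ab g (cls D)) j = (cof 43 (s.rf (s0 g + j / 44) D) (j % 44)).natAbs := by
  rw [Ab_eq h hg hD]
  exact dg_ds (d := fun j => (cof 43 (s.rf (s0 g + j / 44) D) (j % 44)).natAbs)
    (fun j hj => nr2_abs (by norm_num) (rf_cp h (nr2_idx hg hj) D) j) hj

theorem nr2_Ab1 (h : s.Good) {g : ℕ} (hg : g < 8) {j : ℕ} (hj : j < 44 * nS g) :
    dg 192 (s.Ab1 g) j = (cof 43 (s.rf1 (s0 g + j / 44)) (j % 44)).natAbs := by
  rw [Ab1_eq h hg]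
  exact dg_ds (d := fun j => (cof 43 (s.rf1 (s0 g + j / 44)) (j % 44)).natAbs)
    (fun j hj => nr2_abs (by norm_num) (rf1_cp h (nr2_idx hg hj)) j) hj

theorem nr2_Ab_ds (h : s.Good) {g : ℕ} (hg : g < 8) {c : ℕ} (hc : c < 401) :
    s.Ab g c = ds 192 (44 * nS g) (dg 192 (s.Ab g c)) := by
  obtain ⟨D, rfl⟩ := cls_surj (c := c) (by omega)
  have hD : D ≠ univ := fun e => by
    have := (cls_eq_top D).2 e
    omega
  exact (Ab_eq h hg hD).trans (ds_congr fun j hj => (nr2_Ab h hg hD hj).symm)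

theorem nr2_Ab1_ds (h : s.Good) {g : ℕ} (hg : g < 8) :
    s.Ab1 g = ds 192 (44 * nS g) (dg 192 (s.Ab1 g)) :=
  (Ab1_eq h hg).trans (ds_congr fun _ hj => (nr2_Ab1 h hg hj).symm)

/-- the sum of the digits of block `i` -/
def nr2_S (s : Seg) (g i : ℕ) : ℕ := ∑ k ∈ range 44, (dg 192 (s.Ab1 g) (44 * i + k) +
  ∑ c ∈ range 399, 384 / vv (c + 2) * dg 192 (s.Ab g (c + 2)) (44 * i + k))

theorem nr2_chk (h : s.Good) {g : ℕ} (hg : g < 8) (hc : s.chkR g = true) :
    ∑ i ∈ range (nS g), dg 32 s.F (s0 g + i) * s.nr2_S g i ≤ 147456 * dg 32 s.bud g * 2 ^ 114 := by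
  unfold chkR at hc
  rw [Bool.and_eq_true, Bool.and_eq_true, al_iff, Nat.ble_eq, sm_eq, n4b_shl] at hc
  obtain ⟨⟨h1, h2⟩, h3⟩ := hc
  have e : s.As g = s.Ab1 g + ∑ c ∈ range 399, 384 / vv (c + 2) * s.Ab g (c + 2) := by
    unfold As
    rw [sm_eq]
    exact congrArg (s.Ab1 g + ·) (sum_congr rfl fun c _ => frc_eq _ _)
  refine le_of_eq_of_le (sum_congr rfl fun i hi => ?_) h3
  refine congrArg (dg 32 s.F (s0 g + i) * ·) ?_
  rw [e]
  refine (nr2_core (A := fun c => s.Ab g (c + 2)) (w := fun c => 384 / vv (c + 2))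
    (fun c => Nat.div_le_self _ _) (nr2_Ab1_ds h hg) (fun c hc => nr2_Ab_ds h hg (by omega)) h2
    (fun c hc => ?_) (mem_range.1 hi)).symm
  have := h1 c hc
  rw [frk_eq] at this
  exact this

theorem nr2_Z (s : Seg) (u : ℝ) (m : Fin 118) :
    sys.Z (s.Nf u) m = fun A => s.Zs u m A / (384 * 2 ^ 65) := funext fun A => Z_eq s u m A

theorem nr2_N (s : Seg) (u : ℝ) (t : Fin 100) (D : St) :
    s.Nf u t D = s.ow t D u / (384 ^ 2 * 2 ^ 145) := by
  unfold Nf ow
  rw [nr2_vk]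
  field_simp

theorem nr2_Phi (s : Seg) (u : ℝ) (t : Fin 100) {D : St} (hD : D ≠ ∅) :
    sys.Phi (s.qf u) (sys.Z (s.Nf u)) t D =
      (s.vf t D u + (s.vf t ∅ u + s.pf t u) * un D) / (384 ^ 2 * 2 ^ 145) := by
  unfold Sys.Phi vf pf
  rw [← sum_add_distrib, sum_mul, ← sum_add_distrib, sum_div]
  refine sum_congr rfl fun y _ => ?_
  by_cases hy : sys.ys y = t
  · have hy' : (sys.ys y).val = t.val := congrArg Fin.val hy
    have hq : s.qf u (sys.yi y) = 1 - s.om u (sys.yi y) / 4096 := by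
      rw [← om_eq]
      ring
    rw [if_pos hy, if_pos hy', if_pos hy', if_pos hy', kr_cv _ _ hD, hq, yw_eq, nr2_Z, nr2_Z,
      nr2_cv, nr2_cv, nr2_ms, nr2_ms, Zh_eq, Zh_eq, hat_empty, hat_empty]
    field_simp
    ring
  · have hy' : ¬ (sys.ys y).val = t.val := fun e => hy (Fin.ext e)
    rw [if_neg hy, if_neg hy', if_neg hy', if_neg hy']
    norm_num

theorem res_two (s : Seg) (u : ℝ) (t : Fin 100) {D : St} (hD : 2 ≤ D.card) :
    sys.Phi (s.qf u) (sys.Z (s.Nf u)) t D - s.Nf u t D = s.rf t D u / (384 ^ 2 * 2 ^ 145) := by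
  have h0 : D ≠ ∅ := by
    rintro rfl
    simp at hD
  have hu : un D = 0 := if_neg (by omega)
  rw [nr2_Phi s u t h0, nr2_N, hu, rf]
  ring

theorem res_one (s : Seg) (u : ℝ) (t : Fin 100) {D : St} (hD : D.card = 1) :
    sys.Phi (s.qf u) (sys.Z (s.Nf u)) t D - s.Nf u t D =
      s.rf1 t u / (16 * (384 ^ 2 * 2 ^ 145)) := by
  obtain ⟨y, rfl⟩ := card_eq_one.1 hD
  have hu : un {0} = 1 / 16 := if_pos (card_singleton _)
  rw [(sys.Phi_inv (s.qf u) (sys.Z_inv (Nf_inv s u)) t).single y, (Nf_inv s u t).single y,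
    nr2_Phi s u t (singleton_ne_empty 0), nr2_N, hu, rf1]
  ring

theorem res_zero (h : s.Good) (u : ℝ) (t : Fin 100) :
    sys.Phi (s.qf u) (sys.Z (s.Nf u)) t ∅ - s.Nf u t ∅ = 0 := by
  rw [Sys.Phi_empty, Nf_empty h, sub_zero]

theorem nr2_row (h : s.Good) {g i : ℕ} (hg : g < 8) (hi : i < nS g) (t : Fin 100)
    (ht : t.val = s0 g + i) {u : ℝ} (hu : |u| ≤ 2) :
    ∑ D ∈ univ.erase univ, |sys.Phi (s.qf u) (sys.Z (s.Nf u)) t D - s.Nf u t D| ≤
      2 * s.nr2_S g i / (384 ^ 2 * 2 ^ 145) := by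
  obtain ⟨E, hE⟩ : ∃ E : ℕ → ℝ, ∀ c, E c = ∑ k ∈ range 44, (dg 192 (s.Ab g c) (44 * i + k) : ℝ) :=
    ⟨_, fun _ => rfl⟩
  obtain ⟨E1, hE1⟩ : ∃ E1 : ℝ, E1 = ∑ k ∈ range 44, (dg 192 (s.Ab1 g) (44 * i + k) : ℝ) :=
    ⟨_, rfl⟩
  obtain ⟨H, hH⟩ : ∃ H : ℕ → ℝ, ∀ c, H c =
      if c = 401 then 0 else if c = 0 then 0 else if c = 1 then E1 / 16 else E c :=
    ⟨_, fun _ => rfl⟩
  have hj : ∀ k ∈ range 44, 44 * i + k < 44 * nS g ∧ s0 g + (44 * i + k) / 44 = t.val ∧
      (44 * i + k) % 44 = k := fun k hk => by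
    have := mem_range.1 hk
    omega
  have h1 : ∀ D ∈ (univ : Finset St).erase univ,
      |sys.Phi (s.qf u) (sys.Z (s.Nf u)) t D - s.Nf u t D| ≤
        2 * H (cls D) / (384 ^ 2 * 2 ^ 145) := fun D hD => by
    have hD' : D ≠ univ := ne_of_mem_erase hD
    rw [hH, if_neg (mt (cls_eq_top D).1 hD')]
    by_cases h0 : D = ∅
    · rw [if_pos ((cls_eq_zero D).2 h0), h0, res_zero h]
      norm_num
    rw [if_neg (mt (cls_eq_zero D).1 h0)]
    by_cases hc1 : D.card = 1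
    · rw [if_pos ((cls_eq_one D).2 hc1), res_one s u t hc1, abs_div,
        abs_of_pos (by positivity : (0 : ℝ) < 16 * (384 ^ 2 * 2 ^ 145))]
      have b := (rf1_cp h t.isLt).abs_le_sum hu
      have e : E1 = ∑ k ∈ range (43 + 1), ((cof 43 (s.rf1 t) k).natAbs : ℝ) := by
        rw [hE1]
        refine sum_congr rfl fun k hk => ?_
        obtain ⟨a1, a2, a3⟩ := hj k hk
        rw [nr2_Ab1 h hg a1, a2, a3]
      rw [← e] at b
      calc _ ≤ 2 * E1 / (16 * (384 ^ 2 * 2 ^ 145)) := by gcongr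
        _ = _ := by ring
    · have h2 : 2 ≤ D.card := by
        have := card_pos.2 (nonempty_iff_ne_empty.2 h0)
        omega
      rw [if_neg (mt (cls_eq_one D).1 hc1), res_two s u t h2, abs_div,
        abs_of_pos (by positivity : (0 : ℝ) < 384 ^ 2 * 2 ^ 145)]
      have b := (rf_cp h t.isLt D).abs_le_sum hu
      have e : E (cls D) = ∑ k ∈ range (43 + 1), ((cof 43 (s.rf t D) k).natAbs : ℝ) := by
        rw [hE]
        refine sum_congr rfl fun k hk => ?_
        obtain ⟨a1, a2, a3⟩ := hj k hk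
        rw [nr2_Ab h hg hD' a1, a2, a3]
      rw [← e] at b
      gcongr
  have h2 : ∑ D ∈ (univ : Finset St).erase univ, H (cls D) = s.nr2_S g i := by
    have hu0 : H (cls univ) = 0 := by rw [hH, if_pos ((cls_eq_top _).2 rfl)]
    rw [sum_erase (f := fun D => H (cls D)) _ hu0, nr2_tot, show 402 = 399 + 1 + 1 + 1 from rfl, sum_range_succ,
      sum_range_succ', sum_range_succ', hH (399 + 1 + 1), if_pos rfl, hH 0, if_neg (by omega),
      if_pos rfl, hH (0 + 1), if_neg (by omega), if_neg (by omega), if_pos rfl, zero_add, vv_one,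
      nr2_S, Nat.cast_sum]
    simp only [Nat.cast_add, Nat.cast_sum, Nat.cast_mul]
    rw [sum_add_distrib, ← hE1, sum_comm]
    have : ∀ c ∈ range 399, ((384 / vv (c + 1 + 1) : ℕ) : ℝ) * H (c + 1 + 1) = ∑ k ∈ range 44,
        ((384 / vv (c + 2) : ℕ) : ℝ) * (dg 192 (s.Ab g (c + 2)) (44 * i + k) : ℝ) := fun c hc => by
      have := mem_range.1 hc
      rw [hH, if_neg (by omega), if_neg (by omega), if_neg (by omega), hE, mul_sum]
    rw [sum_congr rfl this]
    norm_num only [mul_zero, add_zero]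
    ring
  refine (sum_le_sum h1).trans_eq ?_
  rw [← sum_div, ← mul_sum, h2]

theorem res_sound (h : s.Good) (hc : ∀ g < 8, s.chkR g = true) {u : ℝ} (hu : |u| ≤ 2) :
    ∑ t, s.Fr t * ∑ D ∈ univ.erase univ, |sys.Phi (s.qf u) (sys.Z (s.Nf u)) t D - s.Nf u t D| ≤
      (sm 8 (dg 32 s.bud) : ℕ) / 2 ^ 40 := by
  obtain ⟨G, hG⟩ : ∃ G : Fin 100 → ℝ, ∀ t, G t =
      ∑ D ∈ univ.erase univ, |sys.Phi (s.qf u) (sys.Z (s.Nf u)) t D - s.Nf u t D| :=
    ⟨_, fun _ => rfl⟩
  obtain ⟨f, hf⟩ : ∃ f : ℕ → ℝ, ∀ t : Fin 100, f t = s.Fr t * G t :=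
    ⟨fun t => if ht : t < 100 then s.Fr ⟨t, ht⟩ * G ⟨t, ht⟩ else 0, fun t => dif_pos t.isLt⟩
  rw [sum_congr rfl fun t _ => (congrArg (s.Fr t * ·) (hG t).symm).trans (hf t).symm, grp_sum f,
    sm_eq, Nat.cast_sum, sum_div]
  refine sum_le_sum fun g hg => ?_
  have hg' := mem_range.1 hg
  have h1 : ∀ i ∈ range (nS g), f (s0 g + i) ≤
      ((dg 32 s.F (s0 g + i) * s.nr2_S g i : ℕ) : ℝ) / (384 ^ 2 * 2 ^ 154) := fun i hi => by
    have hi' := mem_range.1 hi
    have e := hf ⟨s0 g + i, (inS_add hg' hi').lt⟩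
    have b := nr2_row h hg' hi' ⟨s0 g + i, (inS_add hg' hi').lt⟩ rfl hu
    rw [← hG] at b
    refine e.trans_le ((mul_le_mul_of_nonneg_left b (by unfold Fr; positivity)).trans_eq ?_)
    unfold Fr
    push_cast
    ring
  refine (sum_le_sum h1).trans ?_
  rw [← sum_div, ← Nat.cast_sum]
  have h2 : ((∑ i ∈ range (nS g), dg 32 s.F (s0 g + i) * s.nr2_S g i : ℕ) : ℝ) ≤
      ((147456 * dg 32 s.bud g * 2 ^ 114 : ℕ) : ℝ) := Nat.cast_le.2 (nr2_chk h hg' (hc g hg'))
  refine (div_le_div_of_nonneg_right h2 (by positivity)).trans_eq ?_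
  push_cast
  ring

end Seg

end

end Pool.Agent.MP_7c51ae_co

/-!
Masses, junctions and the start.
-/

set_option autoImplicit false

namespace Pool.Agent.MP_7c51ae_co

open Finset

noncomputable section

namespace Seg

variable {s : Seg}

theorem nm_chv (s : Seg) (t c : ℕ) (u : ℝ) :
    chv 20 (s.aN t c) u = chv 19 (s.dN.cf t c) u + (if c = 401 then 1 else 0) * cc 20 u := by
  rw [← chv_congr (n := 19) (a := s.aN t c) fun k hk => if_neg (by omega)]
  unfold chv
  rw [sum_range_succ _ 19, add_assoc]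
  congr 3
  unfold aN
  rw [if_pos rfl]
  split_ifs <;> simp

theorem nm_tot (h : s.Good) (t : ℕ) :
    (s.tot t : ℤ) = dz 192 20 fun k => ∑ c ∈ range 402, (s.dN.cf t c k + 2 ^ 64) := by
  have e : ∀ j ∈ range 50, ((Nat.mod (s.dN.unp j t) (msk 3840) : ℕ) : ℤ) =
      dz 192 20 fun k => ∑ i ∈ range (cl j), (s.dN.cg j t i k + 2 ^ 64) := fun j hj => by
    have := Dat.lin_mod h.hN (by norm_num) (univ : Finset Unit) (fun _ => 1) (fun _ => t)
      (by simp) (a := j) (n := 1) (mem_range.1 hj)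
    simp only [sum_range_one, Fintype.sum_unique, add_zero, one_mul, Nat.cast_one] at this
    exact this
  rw [tot, sm_eq, Nat.cast_sum, sum_congr rfl e, dz_sum]
  exact dz_congr fun k _ => chunk_sum fun j i => s.dN.cg j t i k + 2 ^ 64

theorem nm_tb : (tb : ℤ) = dz 192 20 fun _ => 402 * 2 ^ 64 := by
  have k : ∀ o : ℕ, ((Nat.shiftLeft (Nat.mul 402 o) 64 : ℕ) : ℤ) = 402 * (Nat.shiftLeft o 64 : ℕ) :=
    fun o => by
      rw [n4b_shl, n4b_shl, Nat.mul_eq]
      push_cast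
      ring
  exact (k _).trans ((congrArg (402 * ·) (shl_ones 20 64)).trans (dz_smul 192 20 402 _))

theorem chkM_sound (h : s.Good) (t : Fin 100) (hc : s.chkM t = true) {u : ℝ} (hu : |u| ≤ 2) :
    |ms (s.Nf u t) - mass0 t| ≤ 3 / 2 ^ 54 := by
  have e1 : ms (s.Nf u t) = (∑ c ∈ range 402, chv 20 (s.aN t c) u) / 2 ^ 54 := by
    unfold ms Nf
    rw [← sum_div, tot_sum fun c => chv 20 (s.aN t c) u, mul_div_mul_left _ _ (by norm_num)]
  unfold chkM at hc
  simp only [Bool.and_eq_true, Nat.ble_eq, n4b_shl, Nat.mul_eq, Nat.add_eq] at hc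
  obtain ⟨⟨h1, h2⟩, h3, h4⟩ := hc
  have hd := mass_den t.isLt
  have e2 : ((Nat.sub (s.tot t) tb : ℕ) : ℤ) = dz 192 20 fun k => ∑ c ∈ range 402, s.dN.cf t c k := by
    rw [show Nat.sub (s.tot t) tb = s.tot t - tb from rfl, Nat.cast_sub h1, nm_tot h, nm_tb, dz_sub]
    refine dz_congr fun k _ => ?_
    rw [sum_add_distrib, sum_const, card_range, nsmul_eq_mul]
    push_cast
    ring
  unfold mass0
  generalize Nat.sub (s.tot t) tb = x at h2 h3 h4 e2
  generalize (massL.getD t (0, 1)).1 = a at h3 h4 ⊢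
  generalize (massL.getD t (0, 1)).2 = b at h3 h4 hd ⊢
  have e3 : (x : ℤ) = dz 192 20 fun k => if k < 1 then (x : ℤ) else 0 := by
    rw [dz_pad 192 (by norm_num : 1 ≤ 20) fun _ => (x : ℤ)]
    simp [dz]
  have e4 := dz_inj (fun k hk => by
    have b1 : |∑ c ∈ range 402, s.dN.cf t c k| ≤ ∑ c ∈ range 402, (2 : ℤ) ^ 63 :=
      (abs_sum_le_sum_abs _ _).trans
        (sum_le_sum fun c hc => Dat.cf_le h.hN t (mem_range.1 hc) hk)
    rw [sum_const, card_range] at b1
    have b2 : (x : ℤ) ≤ 1 * 2 ^ 60 := by exact_mod_cast h2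
    have b3 : (0 : ℤ) ≤ x := Int.natCast_nonneg x
    rw [abs_le] at b1
    rw [abs_lt]
    norm_num only [Int.nsmul_eq_mul, Nat.cast_le_ofNat, Order.lt_one_iff, neg_lt_sub_iff_lt_add] at b1 b2 ⊢
    split_ifs <;> omega) (e2.symm.trans e3)
  have e5 : ∑ c ∈ range 402, chv 20 (s.aN t c) u = x + cc 20 u := by
    simp only [nm_chv, sum_add_distrib, ← sum_mul]
    rw [← chv_sum, chv_congr (b := fun k => if k = 0 then (x : ℤ) else 0) fun k hk => by
      rw [e4 k (by omega)]; simp, chv_const, sum_ite_eq']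
    simp
  have b4 := abs_le.1 (abs_cc_le 20 hu)
  have h3' : (x : ℝ) * b ≤ a * 2 ^ 54 + b := by exact_mod_cast h3
  have h4' : (a : ℝ) * 2 ^ 54 ≤ x * b + b := by exact_mod_cast h4
  have hb : (0 : ℝ) < b := by exact_mod_cast hd
  have e6 : (x + cc 20 u) / 2 ^ 54 - (a : ℝ) / b = ((x * b - a * 2 ^ 54) / b + cc 20 u) / 2 ^ 54 := by
    field_simp
    ring
  have b5 : (x * b - a * 2 ^ 54 : ℝ) / b ≤ 1 := (div_le_one hb).2 (by linarith only [h3'])
  have b6 : -1 ≤ (x * b - a * 2 ^ 54 : ℝ) / b := (le_div_iff₀ hb).2 (by linarith only [h4'])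
  rw [e1, e5, e6, abs_div, abs_of_pos (by positivity : (0 : ℝ) < 2 ^ 54)]
  exact div_le_div_of_nonneg_right (abs_le.2 ⟨by linarith only [b4, b6], by linarith only [b4, b5]⟩) (by positivity)

theorem mass_sound (h : s.Good) (hc : ∀ t < 100, s.chkM t = true) {u : ℝ} (hu : |u| ≤ 2)
    (m : Fin 118) : |ms (sys.Z (s.Nf u) m) - sys.z0 mass0 m| ≤ 1 / 2 ^ 48 := by
  have e1 : ms (sys.Z (s.Nf u) m) =
      ∑ x, if sys.xm x = m then sys.xw x * ms (s.Nf u (sys.xs x)) else 0 := by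
    unfold ms Sys.Z
    rw [sum_comm]
    refine sum_congr rfl fun x _ => ?_
    split_ifs
    · rw [← mul_sum, sum_comm]
      simp only [sum_ite_eq, mem_univ, if_true]
    · exact sum_const_zero
  have e2 : (omg m : ℝ) = ∑ x, if sys.xm x = m then (wx x : ℝ) else 0 := by
    rw [omg_eq m.isLt, Nat.cast_sum]
    refine sum_congr rfl fun x _ => ?_
    simp only [Fin.val_inj, Nat.cast_ite, Nat.cast_zero]
  have b : (omg m : ℝ) ≤ 43008 := by exact_mod_cast (omg_le m.isLt).2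
  rw [e1, Sys.z0, ← sum_sub_distrib]
  refine (abs_sum_le_sum_abs _ _).trans (le_trans (sum_le_sum (g := fun x =>
    (if sys.xm x = m then (wx x : ℝ) else 0) * (3 / 2 ^ 65)) fun x _ => ?_) ?_)
  · split_ifs
    · have := chkM_sound h (sys.xs x) (hc _ (sys.xs x).isLt) hu
      have w : (0 : ℝ) ≤ wx x / 2048 := div_nonneg (Nat.cast_nonneg _) (by norm_num)
      rw [← mul_sub, abs_mul, xw_eq, abs_of_nonneg w]
      refine (mul_le_mul_of_nonneg_left this w).trans (le_of_eq ?_)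
      ring
    · simp
  · rw [← sum_mul, ← e2]
    refine (mul_le_mul_of_nonneg_right b (by positivity)).trans ?_
    norm_num

theorem nm_cj {D : St} (hD : D ≠ univ) : cls D ≠ 401 ∧ cj (cls D) < 49 := by
  have e := (cls_eq_top D).not.2 hD
  have := (cj_top (cls_lt D)).not.2 e
  have := (cj_lt (cls_lt D)).1
  exact ⟨e, by omega⟩

theorem chkJ_N {s' : Seg} (h : s.Good) (h' : s'.Good) (hc : ∀ j < 50, s.chkJ s' j = true)
    (t : Fin 100) {D : St} (hD : D ≠ univ) : s'.Nf 2 t D = s.Nf (-2) t D := by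
  obtain ⟨e, l⟩ := nm_cj hD
  have k := hc _ (cj_lt (cls_lt D)).1
  unfold chkJ at k
  simp only [Bool.and_eq_true, Bool.or_eq_true, Nat.beq_eq, al_iff] at k
  unfold Nf
  rw [nm_chv, nm_chv, if_neg e, zero_mul, zero_mul, Dat.jn_sound (L := 19) h.hN h'.hN (by norm_num)
    (by decide) (cls_lt D) (k.1.resolve_left l.ne t t.isLt)]

theorem chkJ_C {s' : Seg} (h : s.Good) (h' : s'.Good) (hc : ∀ j < 50, s.chkJ s' j = true)
    (m : Fin 118) (A : St) : s'.Cf 2 m A = s.Cf (-2) m A := by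
  have k := hc _ (cj_lt (cls_lt A)).1
  unfold chkJ at k
  simp only [Bool.and_eq_true, al_iff] at k
  unfold Cf
  rw [Dat.jn_sound (L := 11) h.hC h'.hC (by norm_num) (by decide) (cls_lt A) (k.2 m m.isLt)]

theorem chk0_N (h : s.Good) {K : ℕ} (hc : s.chk0 K = true) (t : Fin 100) {D : St}
    (hD : D ≠ univ) : s.Nf 2 t D = 0 := by
  obtain ⟨e, l⟩ := nm_cj hD
  unfold chk0 at hc
  simp only [Bool.and_eq_true, al_iff] at hc
  unfold Nf
  rw [nm_chv, if_neg e, Dat.j0_sound (L := 19) h.hN (by norm_num) (cls_lt D) (hc.1 _ l t t.isLt)]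
  simp

/-- the value of a potential at the start -/
def nm_v (s : Seg) (c m : ℕ) : ℤ := s.dC.cf m c 0 + 2 * ∑ k ∈ range 11, s.dC.cf m c (k + 1)

theorem nm_St0 (h : s.Good) {c : ℕ} (hc : c < 402) :
    (s.St0 c : ℤ) = dz 192 118 fun m => s.nm_v c m + 23 * 2 ^ 64 := by
  rw [St0, frc_eq, pk_eq, ds_cast]
  exact dz_congr fun m _ => Dat.slt_wa (L := 11) h.hC (by norm_num) m hc

theorem nm_v_le (h : s.Good) {c : ℕ} (hc : c < 402) (m : ℕ) : |s.nm_v c m| ≤ 23 * 2 ^ 63 := by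
  have b1 : |∑ k ∈ range 11, s.dC.cf m c (k + 1)| ≤ ∑ k ∈ range 11, (2 : ℤ) ^ 63 :=
    (abs_sum_le_sum_abs _ _).trans
      (sum_le_sum fun k hk => Dat.cf_le h.hC m hc (Nat.succ_lt_succ (mem_range.1 hk)))
  have b2 := Dat.cf_le h.hC m hc (k := 0) (by norm_num)
  rw [sum_const, card_range] at b1
  rw [abs_le] at b1 b2 ⊢
  unfold nm_v
  norm_num only [Int.nsmul_eq_mul] at b1 b2 ⊢
  omega

theorem chk0_C (h : s.Good) {K : ℕ} (hc : s.chk0 K = true) (m : Fin 118) (A : St) (y : Fin 16)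
    (hA : A.Nonempty) (hy : y ∉ A) :
    (dg 32 K m : ℝ) / 2 ^ 10 ≤ s.Cf 2 m (insert y A) - s.Cf 2 m A := by
  have c0 := (cls_eq_zero A).not.2 hA.ne_empty
  have c1 := (cls_eq_top A).not.2 fun e => hy (e ▸ mem_univ y)
  have c2 := cls_lt A
  have c3 := cls_lt (insert y A)
  unfold chk0 at hc
  simp only [Bool.and_eq_true, al_iff] at hc
  have k := hc.2 (cls A - 1) (by omega)
  rw [frk_eq, show Nat.add (cls A - 1) 1 = cls A from Nat.sub_add_cancel (by omega), Nat.beq_eq,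
    up_sum, sum_eq_zero_iff] at k
  have k1 := k y (mem_compl.2 hy)
  rw [cnd_eq, ite_eq_left_iff] at k1
  have k2 := not_not.1 fun e => one_ne_zero (k1 e)
  have em : Nat.mul (msk 101) (ones 192 118) = ds 192 118 fun _ => 2 ^ (100 + 1) - 1 := by
    rw [Nat.mul_eq, mul_comm, ones_eq (by norm_num), msk_eq, n4b_mul]
    exact ds_congr fun _ _ => one_mul _
  rw [em] at k2
  have k3 := rng_sound (W := 192) (w := fun _ => 100) (r := fun m => s.nm_v (cls (insert y A)) m -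
      s.nm_v (cls A) m - dg 32 K m - 2 ^ 100) (fun _ _ => by norm_num) (fun i _ => by
    have b1 := abs_le.1 (nm_v_le h c2 i)
    have b2 := abs_le.1 (nm_v_le h c3 i)
    have b3 := dg_lt 32 K i
    rw [abs_le]
    norm_num only [neg_le_sub_iff_le_add, tsub_le_iff_right] at b1 b2 b3 ⊢
    omega) (by
    rw [show Nat.add (s.St0 (cls A)) (K0 K) = s.St0 (cls A) + K0 K from rfl, Nat.cast_add,
      nm_St0 h c2, nm_St0 h c3, K0, pk_eq, ds_cast, dz_add, dz_sub]
    exact dz_congr fun i _ => by ring) k2 m m.isLt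
  have k4 : (dg 32 K m : ℤ) ≤ s.nm_v (cls (insert y A)) m - s.nm_v (cls A) m := by
    have := (abs_le.1 k3).1
    linarith only [this]
  have k5 : (dg 32 K m : ℝ) ≤ s.nm_v (cls (insert y A)) m - s.nm_v (cls A) m := by exact_mod_cast k4
  unfold Cf
  rw [chv_two, chv_two, ← sub_div]
  refine div_le_div_of_nonneg_right (k5.trans (le_of_eq ?_)) (by positivity)
  unfold nm_v
  push_cast
  rfl

end Seg

end

end Pool.Agent.MP_7c51ae_co

/-!
The potentials of the senders.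
-/

set_option autoImplicit false

namespace Pool.Agent.MP_7c51ae_co

open Finset

noncomputable section

theorem nh_mob (n : ℕ) (a : St → ℕ → ℤ) (A : St) (u : ℝ) :
    chv n (fun k => mob (fun E => a E k) A) u = mob (fun E => chv n (a E) u) A := by
  unfold mob
  rw [chv_mul, chv_sum]
  simp only [chv_mul]
  push_cast
  rfl

theorem nh_sub {a b : ℕ} {d : ℕ → ℤ} (hd : ∀ i < 24, |d i| < 2 ^ 192) (h1 : 1 ≤ d 24)
    (h : (a : ℤ) - b = dz 192 25 d) : (Nat.sub a b : ℤ) = dz 192 25 d := by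
  have := dz_nonneg hd h1
  rw [← h] at this ⊢
  exact Int.ofNat_sub (by omega)

theorem nh_bias : (bias : ℤ) = dz 192 25 fun j => if j = 0 ∨ j = 24 then 1 else 0 := by
  have h : bias = 1 + Nat.shiftLeft 1 (192 * 24) := rfl
  rw [h, n4b_shl, dz, sum_range_succ, sum_eq_single 0]
  · simp only [true_or, or_true, if_true, mul_zero, pow_zero, one_mul, Nat.cast_add, Nat.cast_one,
      Nat.cast_pow, Nat.cast_ofNat]
  · intro j hj h0
    rw [if_neg (by have := mem_range.1 hj; omega), zero_mul]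
  · exact fun h => absurd (mem_range.2 (by norm_num)) h

theorem nh_Kc (r : ℕ) :
    (Kc r : ℤ) = dz 192 25 fun j => if j = 0 ∨ j = 24 then 0 else 2 ^ (100 + r) := by
  have h : Kc r = Nat.shiftLeft (ones 192 23) (292 + r) := rfl
  rw [h, shl_ones, n4_zcons 192 24, if_pos (Or.inl rfl), add_zero, dz_smul,
    ← dz_pad 192 (show 23 ≤ 24 by norm_num)]
  refine dz_congr fun i hi => ?_
  by_cases p : i < 23
  · rw [if_pos p, if_neg (by omega), ← pow_add, show 192 + (100 + r) = 292 + r by omega]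
  · rw [if_neg p, if_pos (by omega), mul_zero]

theorem nh_Oc (g : ℕ) :
    (Oc g : ℤ) = dz 192 (12 * nS g) fun j => omu (s0 g + j / 12) * 2 ^ 90 := by
  have h : Oc g = pk (192 * 12) (nS g) (fun i => omu (s0 g + i)) *
    Nat.shiftLeft (ones 192 12) 90 := rfl
  rw [h, pk_eq, n4b_mul, ← pk_eq]
  exact pk_dz (d := fun i _ => omu (s0 g + i) * 2 ^ 90) (by norm_num) fun i _ => by
    rw [Nat.cast_mul, shl_ones, dz_smul]

theorem nh_lt {g j : ℕ} (hg : g < 8) (hj : j < 12 * nS g) : s0 g + j / 12 < 100 :=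
  (inS_add hg (by omega)).lt

namespace Seg

variable {s : Seg}

theorem nh_fc (h : s.Good) {t c : ℕ} (ht : t < 100) (hc : c < 402) :
    nrm 11 (s.fc t c) ≤ omu t * 2 ^ 30 := by
  refine (nv1_nrm_sum _ _ _).trans ?_
  rw [omu_eq ht, Nat.cast_sum, sum_mul]
  refine sum_le_sum fun x _ => ?_
  rw [nv1_nrm_ite, nv1_nrm_mul]
  by_cases p : (sys.xs x).val = t
  · rw [if_pos p, if_pos p]
    have h1 : (if sys.xe x = true then c else nc c) < 402 := by
      split_ifs
      exacts [hc, nc_lt hc]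
    refine mul_le_mul_of_nonneg_left ((Dat.nrm_cf (L := 11) h.hC _ h1).trans ?_)
      (Int.natCast_nonneg _)
    exact_mod_cast h.b1 _ (cj_lt h1).1
  · rw [if_neg p, if_neg p, Nat.cast_zero, zero_mul]

theorem fc_nrm (h : s.Good) {t c : ℕ} (ht : t < 100) (hc : c < 402) :
    nrm 11 (s.fc t c) ≤ 2 ^ 45 := by
  have h1 : (omu t : ℤ) ≤ 2 ^ 15 := by exact_mod_cast omu_le ht
  have := nh_fc h ht hc
  linarith only [h1, this]

theorem ft_nrm (h : s.Good) {t : ℕ} (ht : t < 100) (E : St) : nrm 11 (s.ft t E) ≤ 2 ^ 45 := by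
  refine fc_nrm h ht ?_
  split_ifs
  exacts [by norm_num, cls_lt E]

theorem Up_eq (s : Seg) (u : ℝ) (t : Fin 100) (C : St) :
    sys.Up (s.Cf u) t C = chv 11 (s.fc t (cls C)) u / 2 ^ 21 := by
  unfold fc
  rw [chv_sum, sum_div, Sys.Up]
  refine sum_congr rfl fun x _ => ?_
  rw [nv1_chv_ite, chv_mul]
  by_cases p : sys.xs x = t
  · rw [if_pos p, if_pos (congrArg Fin.val p), xw_eq, Cf,
      show cls (T (sys.xe x) C) = if sys.xe x = true then cls C else nc (cls C) by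
        cases sys.xe x
        exacts [cls_T0 C, cls_T1 C]]
    push_cast
    ring
  · rw [if_neg p, if_neg fun q => p (Fin.ext q), zero_div]

theorem tl_Up_eq (s : Seg) (u : ℝ) (t : Fin 100) (E : St) :
    tl (sys.Up (s.Cf u) t) E = chv 11 (s.ft t E) u / 2 ^ 21 := by
  unfold tl ft
  split_ifs
  · rw [Up_eq, (cls_eq_one _).2 (card_singleton _)]
  · rw [Up_eq]

theorem nh_F1 (h : s.Good) {g e c : ℕ} (hg : g < 8) (he : e < 2) (hc : c < 402) :
    (s.F1 g e c : ℤ) = dz 192 (12 * nS g) fun j =>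
      ∑ x, if (sys.xs x).val = s0 g + j / 12 ∧ sys.xe x = (e == 1) then
        (wx x : ℤ) * (s.dC.cf (sys.xm x) c (j % 12) + 2 ^ 64) else 0 := by
  have h1 : s.F1 g e c = pk (192 * 12) (nS g) fun i =>
    dg (192 * 12) ((upN e (s0 g + i)).ap (s.dC.unp (cj c))) (ci c) := rfl
  rw [h1]
  refine pk_dz (d := fun i k => ∑ x, if (sys.xs x).val = s0 g + i ∧ sys.xe x = (e == 1) then
    (wx x : ℤ) * (s.dC.cf (sys.xm x) c k + 2 ^ 64) else 0) (by norm_num) fun i hi => ?_
  have ht := (inS_add hg hi).lt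
  rw [up_row he ht, ← sum_filter, Dat.lin_dg h.hC (by norm_num) _ wx (fun x => sys.xm x) ?_ hc]
  · exact dz_congr fun k _ => sum_filter _ _
  · refine le_trans ?_ ((omu_le ht).trans (by norm_num))
    rw [omu_eq ht, sum_filter]
    refine sum_le_sum fun x _ => ?_
    by_cases p : (sys.xs x).val = s0 g + i ∧ sys.xe x = (e == 1)
    · rw [if_pos p, if_pos p.1]
    · rw [if_neg p]
      exact Nat.zero_le _

theorem ff_eq (h : s.Good) {g c : ℕ} (hg : g < 8) (hc : c < 402) :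
    (s.ff g c : ℤ) = dz 192 (12 * nS g) fun j =>
      s.fc (s0 g + j / 12) c (j % 12) + omu (s0 g + j / 12) * 2 ^ 64 := by
  have h1 : s.ff g c = s.F1 g 1 c + s.F1 g 0 (nc c) := rfl
  rw [h1, Nat.cast_add, nh_F1 h hg (by norm_num) hc, nh_F1 h hg (by norm_num) (nc_lt hc), dz_add]
  refine dz_congr fun j hj => ?_
  rw [fc, omu_eq (nh_lt hg hj), Nat.cast_sum, sum_mul, ← sum_add_distrib, ← sum_add_distrib]
  refine sum_congr rfl fun x _ => ?_
  by_cases p : (sys.xs x).val = s0 g + j / 12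
  · simp only [p, true_and, if_true]
    cases sys.xe x
    · rw [if_neg (by decide), if_pos (by decide), if_neg Bool.false_ne_true]
      ring
    · rw [if_pos (by decide), if_neg (by decide), if_pos rfl]
      ring
  · simp only [p, false_and, if_false, Nat.cast_zero, zero_mul, add_zero]

theorem Hf_eq (s : Seg) (u : ℝ) (t : ℕ) (A : St) :
    s.Hf u t A = 2 ^ 26 * mob (fun E => chv 11 (s.ft t E) u) A + cc 12 u := by
  have h1 := chv_mul 11 (2 ^ 26) (fun k => mob (fun E => s.ft t E k) A) u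
  rw [← chv_congr (a := s.hv t A) (fun k hk => if_neg (by omega)), nh_mob] at h1
  push_cast at h1
  rw [Hf, show (2 : ℝ) ^ 26 = 67108864 by norm_num, ← h1, chv, chv, sum_range_succ,
    show s.hv t A (11 + 1) = 1 from if_pos rfl]
  push_cast
  ring

theorem hv_nrm (h : s.Good) {t : ℕ} (ht : t < 100) (A : St) : nrm 12 (s.hv t A) ≤ 2 ^ 88 := by
  have h1 : CP 11 (∑ E ∈ A.powerset, 2 ^ 45) fun u =>
      ∑ E ∈ A.powerset, (((-1) ^ E.card : ℤ) : ℝ) * chv 11 (s.ft t E) u :=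
    CP.sum _ fun E _ => ((CP.of 11 (s.ft t E)).smul _).mono le_rfl (by
      rw [abs_neg_one_pow, one_mul]
      exact ft_nrm h ht E)
  have h2 : (∑ E ∈ A.powerset, 2 ^ 45 : ℤ) ≤ 2 ^ 61 := by
    rw [sum_const, card_powerset, nsmul_eq_mul, Nat.cast_pow, Nat.cast_ofNat, ← pow_add]
    exact pow_le_pow_right₀ (by norm_num) (by have := n2_le A; omega)
  have h3 := (((h1.mono (show 11 ≤ 12 by norm_num) h2).smul ((-1) ^ A.card)).smul (2 ^ 26)).add
    (n3_cp_cc (le_refl 12))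
  rw [abs_neg_one_pow] at h3
  refine (h3.coef fun u => ?_).trans (by norm_num)
  rw [← Hf, Hf_eq, mob]
  push_cast
  norm_num only []

theorem nh_H0 (h : s.Good) {g : ℕ} (hg : g < 8) (E : St) :
    (s.H0 g (cls E) : ℤ) = dz 192 (12 * nS g) fun j =>
      2 ^ 100 + 2 ^ 26 * ((-1) ^ E.card * s.ft (s0 g + j / 12) E (j % 12)) := by
  have h1 : s.H0 g (cls E) = cnd (evn (cls E))
    (Nat.sub (K4 g + Nat.shiftLeft (s.ff g (cnd (Nat.beq (cls E) 0) 1 (cls E))) 26) (Oc g))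
    (Nat.sub (K4 g + Oc g) (Nat.shiftLeft (s.ff g (cls E)) 26)) := rfl
  have h2 : (K4 g : ℤ) = dz 192 (12 * nS g) fun _ => 2 ^ 100 := shl_ones _ _
  have h3 : ∀ j < 12 * nS g,
      0 ≤ 2 ^ 100 + 2 ^ 26 * ((-1) ^ E.card * s.ft (s0 g + j / 12) E (j % 12)) := fun j hj => by
    have h4 := (abs_le_nrm 11 _ (show j % 12 ≤ 11 by omega)).trans (ft_nrm h (nh_lt hg hj) E)
    rw [← one_mul |_|, ← abs_neg_one_pow E.card, ← abs_mul] at h4
    linarith only [neg_le_of_abs_le h4]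
  have h5 : cnd (Nat.beq (cls E) 0) 1 (cls E) = if E = ∅ then 1 else cls E := by
    rw [N1.n1_cnd]
    exact if_congr (cls_eq_zero E) rfl rfl
  have h6 : (if E = ∅ then 1 else cls E) < 402 := by
    split_ifs
    exacts [by norm_num, cls_lt E]
  rw [h1, cnd_eq, evn_cls, h5]
  by_cases p : Even E.card
  · rw [if_pos (decide_eq_true p)]
    refine sub_dz h3 ?_
    rw [Nat.cast_add, n4b_shl, Nat.cast_mul, h2, nh_Oc, ff_eq h hg h6, mul_comm (dz _ _ _), dz_smul,
      dz_add, dz_sub]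
    refine dz_congr fun j _ => ?_
    rw [p.neg_one_pow, ft]
    push_cast
    ring
  · rw [if_neg (by simpa only [decide_eq_true_eq, Nat.not_even_iff_odd] using p)]
    refine sub_dz h3 ?_
    rw [Nat.cast_add, n4b_shl, Nat.cast_mul, h2, nh_Oc, ff_eq h hg (cls_lt E), mul_comm (dz _ _ _),
      dz_smul, dz_add, dz_sub]
    refine dz_congr fun j _ => ?_
    rw [(Nat.not_even_iff_odd.1 p).neg_one_pow, ft, if_neg (by rintro rfl; simp only [card_empty, Even.zero, not_true_eq_false] at p)]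
    push_cast
    ring

theorem nh_H1 (h : s.Good) {g : ℕ} (hg : g < 8) (A : St) :
    (s.H1 g (cls A) : ℤ) = dz 192 (12 * nS g) fun j =>
      2 ^ (100 + A.card) + (-1) ^ A.card * s.hv (s0 g + j / 12) A (j % 12) := by
  rw [H1, zd_eq, Nat.cast_sum, sum_congr rfl fun E _ => nh_H0 h hg E, dz_sum]
  refine dz_congr fun j _ => ?_
  rw [hv, if_neg (by omega), mob, sum_add_distrib, sum_const, card_powerset, ← mul_sum,
    mul_left_comm, ← mul_assoc ((-1) ^ A.card), ← mul_pow, nsmul_eq_mul]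
  push_cast
  ring

theorem Hv_eq (h : s.Good) {g t : ℕ} (ht : InS g t) (A : St) :
    (s.Hv g (cls A) t : ℝ) = tW ^ 12 * s.Hf uW t A := by
  have hg := ht.1
  have hA := n2_le A
  have b1 : (2 : ℤ) ^ 100 ≤ 2 ^ (100 + A.card) := pow_le_pow_right₀ (by norm_num) (by omega)
  have b2 : (2 : ℤ) ^ (100 + A.card) ≤ 2 ^ 116 := pow_le_pow_right₀ (by norm_num) (by omega)
  have b3 : ∀ r < 100, ∀ k ≤ 12, |s.hv r A k| ≤ 2 ^ 88 := fun r hr k hk =>
    (abs_le_nrm 12 _ hk).trans (hv_nrm h hr A)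
  obtain ⟨D, hD⟩ : ∃ D : ℕ → ℤ, D = fun j =>
    2 ^ (100 + A.card) + (-1) ^ A.card * s.hv (s0 g + j / 12) A (j % 12) := ⟨_, rfl⟩
  have b4 : ∀ j < 12 * nS g, 0 ≤ D j ∧ D j < 2 ^ 192 := fun j hj => by
    have h4 := b3 _ (nh_lt hg hj) (j % 12) (by omega)
    rw [← one_mul |_|, ← abs_neg_one_pow A.card, ← abs_mul, abs_le] at h4
    rw [hD]
    constructor <;> linarith only [h4.1, h4.2, b1, b2]
  have e1 := ds_of_dz (fun j hj => (b4 j hj).1) (hD ▸ nh_H1 h hg A)
  have b5 : ∀ j < 12 * nS g, (D j).toNat < 2 ^ 192 := fun j hj => by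
    have := b4 j hj
    rw [Int.toNat_lt this.1]
    exact_mod_cast this.2
  have e2 : s.Hs g (cls A) t = Nat.add (Nat.shiftLeft (dg (192 * 12) (s.H1 g (cls A)) (t - s0 g))
      (192 * 12)) (Nat.land (Nat.shiftRight (Nat.shiftLeft (rev3 192 2 (nS g) (s.H1 g (cls A))) 192)
        (192 * 12 * (t - s0 g))) (Nat.shiftLeft (msk (192 * (12 - 1))) 192)) := rfl
  have e3 := rev3_eq (W := 192) (by norm_num) 2 (nS g) (d := fun j => (D j).toNat) b5
  rw [show 3 * 2 ^ 2 = 12 from rfl] at e3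
  rw [e1, e3, sym_eq (by norm_num) b5 ht.sub.1] at e2
  have e4 : (s.Hs g (cls A) t : ℤ) = dz 192 25 fun j => if j = 0 ∨ j = 24 then 0 else
      2 ^ (100 + A.card) + (-1) ^ A.card * s.hv t A (Nat.dist j 12) := by
    rw [e2, ds_cast]
    refine dz_congr fun j hj => ?_
    by_cases p : j = 0 ∨ j = 24
    · rw [if_pos p, if_pos p, Nat.cast_zero]
    · have q : Nat.dist j 12 < 12 := by unfold Nat.dist; omega
      have := ht.sub
      rw [if_neg p, if_neg p, Int.toNat_of_nonneg (b4 _ (by omega)).1, hD]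
      dsimp only
      rw [show (12 * (t - s0 g) + Nat.dist j 12) / 12 = t - s0 g by omega, this.2,
        show (12 * (t - s0 g) + Nat.dist j 12) % 12 = Nat.dist j 12 by omega]
  have e5 : ∀ j < 25, j = 0 ∨ j = 24 → s.hv t A (Nat.dist j 12) = 1 := fun j _ p =>
    if_pos (by unfold Nat.dist; omega)
  have e6 : s.Hv g (cls A) t = cnd (evn (cls A))
    (s.Hs g (cls A) t + Nat.sub bias (Kc (sz (cls A))))
    (Nat.sub (bias + Kc (sz (cls A))) (s.Hs g (cls A) t)) := rfl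
  have e7 : (s.Hv g (cls A) t : ℤ) = dz 192 (2 * 12 + 1) fun j => s.hv t A (Nat.dist j 12) := by
    rw [e6, cnd_eq, evn_cls, cls_card]
    by_cases p : Even A.card
    · rw [if_pos (decide_eq_true p), Nat.cast_add, e4,
        nh_sub (d := fun j => if j = 0 ∨ j = 24 then 1 else -2 ^ (100 + A.card)), dz_add]
      · refine dz_congr fun j hj => ?_
        by_cases q : j = 0 ∨ j = 24
        · rw [if_pos q, if_pos q, e5 j hj q, zero_add]
        · rw [if_neg q, if_neg q, p.neg_one_pow]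
          ring
      · intro j _
        split_ifs
        · norm_num
        · rw [abs_neg, abs_of_nonneg (by positivity)]
          linarith only [b2]
      · exact (if_pos (Or.inr rfl)).ge
      · rw [nh_bias, nh_Kc, dz_sub]
        exact dz_congr fun j _ => by split_ifs <;> ring
    · rw [if_neg (by simpa only [decide_eq_true_eq, Nat.not_even_iff_odd] using p)]
      refine nh_sub (fun j hj => ?_) (e5 24 (by norm_num) (Or.inr rfl)).ge ?_
      · exact (b3 t ht.lt _ (by unfold Nat.dist; omega)).trans_lt (by norm_num)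
      · rw [Nat.cast_add, nh_bias, nh_Kc, e4, dz_add, dz_sub]
        refine dz_congr fun j hj => ?_
        by_cases q : j = 0 ∨ j = 24
        · rw [if_pos q, if_pos q, if_pos q, e5 j hj q]
          ring
        · rw [if_neg q, if_neg q, if_neg q, (Nat.not_even_iff_odd.1 p).neg_one_pow]
          ring
  rw [Hf, ← dz_kron, ← e7, Int.cast_natCast]

theorem osc_sound (h : s.Good) (hc : ∀ g < 8, ∀ i < nS g, s.chkF g i = true) {u : ℝ}
    (hu : |u| ≤ 2) (t : Fin 100) :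
    sys.Up (s.Cf u) t univ - sys.Up (s.Cf u) t {0} ≤ s.Fr t := by
  obtain ⟨g, hg⟩ := exists_inS t.2
  obtain ⟨h1, h2⟩ := hg.sub
  have h3 : ∀ c < 402, ∀ k < 12, (dg 192 (s.ff g c) (12 * (t - s0 g) + k) : ℤ) =
      s.fc t c k + omu t * 2 ^ 64 := fun c hc k hk => by
    rw [dg_dz (fun j hj => ?_) (ff_eq h hg.1 hc) (by omega),
      show (12 * (t - s0 g) + k) / 12 = t - s0 g by omega, h2,
      show (12 * (t - s0 g) + k) % 12 = k by omega]
    have a1 := nh_lt hg.1 hj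
    have a2 := abs_le.1 ((abs_le_nrm 11 _ (show j % 12 ≤ 11 by omega)).trans (nh_fc h a1 hc))
    have a3 : (omu (s0 g + j / 12) : ℤ) ≤ 2 ^ 15 := by exact_mod_cast omu_le a1
    have a4 := Int.natCast_nonneg (omu (s0 g + j / 12))
    constructor <;> linarith only [a2.1, a2.2, a3]
  have h4 : ∀ a b : ℕ, (adf a b : ℤ) = |(a : ℤ) - b| := fun a b => by
    change ((a - b + (b - a) : ℕ) : ℤ) = _
    rcases abs_cases ((a : ℤ) - b) with p | p <;> omega
  have h5 : sm 12 (fun k => cnd (Nat.beq k 0) 1 2 *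
      adf (dg 192 (s.ff g 401) (12 * (t - s0 g) + k)) (dg 192 (s.ff g 1) (12 * (t - s0 g) + k))) ≤
      Nat.shiftLeft (dg 32 s.F (s0 g + (t - s0 g))) 11 := Nat.le_of_ble_eq_true (hc g hg.1 _ h1)
  rw [sm_eq, n4b_shl, h2] at h5
  have h6 : nrm 11 (fun k => s.fc t 401 k - s.fc t 1 k) ≤ dg 32 s.F t * 2 ^ 11 := by
    refine le_trans (le_of_eq ?_) ((Int.ofNat_le.2 h5).trans_eq (by push_cast; rfl))
    rw [Nat.cast_sum, sum_range_succ', nrm, mul_sum, add_comm]
    refine congrArg₂ (· + ·) (sum_congr rfl fun k hk => ?_) ?_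
    · have := mem_range.1 hk
      rw [N1.n1_cnd, if_neg (by omega), Nat.cast_mul, h4, h3 _ (by norm_num) _ (by omega),
        h3 _ (by norm_num) _ (by omega), add_sub_add_right_eq_sub, Nat.cast_ofNat]
    · rw [N1.n1_cnd, if_pos rfl, one_mul, h4, h3 _ (by norm_num) _ (by norm_num),
        h3 _ (by norm_num) _ (by norm_num), add_sub_add_right_eq_sub]
  have h7 := (le_abs_self _).trans ((abs_chv_le 11 _ hu).trans (Int.cast_le.2 h6))
  rw [Up_eq, Up_eq, (cls_eq_top _).2 rfl, (cls_eq_one _).2 (card_singleton _), ← sub_div,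
    ← chv_sub, Fr, div_le_iff₀ (by positivity)]
  push_cast at h7
  linarith only [h7]

end Seg

end

end Pool.Agent.MP_7c51ae_co

/-!
The adjoint products.
-/

set_option autoImplicit false

namespace Pool.Agent.MP_7c51ae_co

open Finset

noncomputable section

namespace Seg

variable {s : Seg}

/-- the sum over the product terms with one child of type `m` -/
def ngT (s : Seg) (Ψ : ℕ → ℕ → ℝ → ℝ) (m : ℕ) (u : ℝ) : ℝ :=
  ∑ y, ((if (sys.ya y).val = m then
      (wy y : ℝ) * (s.om u (sys.yi y) * Ψ (sys.yb y) (sys.ys y) u) else 0) +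
    (if (sys.yb y).val = m then
      (wy y : ℝ) * (s.om u (sys.yi y) * Ψ (sys.ya y) (sys.ys y) u) else 0))

theorem ng_cp (h : s.Good) {Ψ : ℕ → ℕ → ℝ → ℝ} {c B : ℤ} (hc : 0 ≤ c)
    (hΨ : ∀ m < 118, ∀ t < 100, CP 32 (omg m * c) (Ψ m t)) {m : ℕ} (hm : m < 118)
    (hB : 2 ^ 33 * c ≤ B) : CP 35 B (s.ngT Ψ m) := by
  have k : ∀ y (p : Prop) [Decidable p] (a : Fin 118), CP 35
      (((if p then wy y * omg a else 0 : ℕ) : ℤ) * (2 ^ 13 * c))
      fun u => if p then (wy y : ℝ) * (s.om u (sys.yi y) * Ψ a (sys.ys y) u) else 0 :=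
    fun y p _ a => by
      have := CP.ite p (((om_cp h (sys.yi y)).mul (hΨ a a.2 _ (sys.ys y).2)).smul (wy y : ℤ))
      refine (this.mono le_rfl (le_of_eq ?_)).congr fun u => by rw [Int.cast_natCast]
      split_ifs
      · rw [Nat.abs_cast]; push_cast; ring
      · rw [Nat.cast_zero, zero_mul]
  refine (CP.sum univ fun y _ => (k y _ (sys.yb y)).add (k y _ (sys.ya y))).mono le_rfl ?_
  have e : ((_ : ℕ) : ℤ) ≤ ((2 ^ 20 : ℕ) : ℤ) := Int.ofNat_le.2 (omp_le hm)
  simp only [← add_mul, ← sum_mul, ← Nat.cast_add, ← Nat.cast_sum]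
  refine (mul_le_mul_of_nonneg_right e (by positivity)).trans (le_trans (le_of_eq ?_) hB)
  push_cast; ring

theorem ng_Z (h : s.Good) {Φ : St → ℝ → ℝ} {b : ℤ} (hb : 0 ≤ b) (hΦ : ∀ B, CP 12 b (Φ B)) {m : ℕ}
    (hm : m < 118) : CP 32 (omg m * (384 * 2 ^ 60 * b)) fun u => ∑ B, s.Zs u m B * Φ B u := by
  refine (CP.sum univ fun B _ => (CP.of 20 (s.zc m (cls B))).mul (hΦ B)).mono le_rfl ?_
  rw [← sum_mul]
  exact (mul_le_mul_of_nonneg_right (zc_l1 h hm) hb).trans (le_of_eq (by ring))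

theorem ng_bias (E : St) : CP 12 (2 ^ 17) fun u => 2 ^ E.card * cc 12 u := by
  refine (((n3_cp_cc (le_refl 12)).smul (2 ^ E.card)).mono le_rfl ?_).congr fun u => by
    push_cast; rfl
  rw [abs_of_nonneg (by positivity), ← pow_succ]
  exact pow_le_pow_right₀ (by norm_num) (Nat.succ_le_succ (n2_le E))

theorem ng_g2 (s : Seg) (m : ℕ) (A : St) (u : ℝ) : s.g2 m A u =
    s.ngT (fun a t u => ∑ B, s.Zs u a B * (2 ^ 26 * chv 11 (s.ft t (A ∩ B)) u)) m u +
      s.ngT (fun a _ u => ∑ B, s.Zs u a B * (2 ^ (A ∩ B).card * cc 12 u)) m u := by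
  have k : ∀ (p : Prop) [Decidable p] (w o : ℝ) (a t : ℕ),
      (∑ E ∈ A.powerset, if p then w * (o * (s.Zh u a E * s.Hf u t E)) else 0) =
      (if p then w * (o * ∑ B, s.Zs u a B * (2 ^ 26 * chv 11 (s.ft t (A ∩ B)) u)) else 0) +
        if p then w * (o * ∑ B, s.Zs u a B * (2 ^ (A ∩ B).card * cc 12 u)) else 0 :=
    fun p _ w o a t => by
      split_ifs
      · have e1 := mob_dn (s.Zs u a) (fun E => chv 11 (s.ft t E) u) A
        have e2 := bias_dn (s.Zs u a) A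
        rw [← mul_sum, ← mul_sum, ← mul_add, ← mul_add]
        congr 2
        simp only [Zh_eq, Hf_eq, mul_left_comm _ ((2 : ℝ) ^ 26),
          ← mul_assoc _ _ (cc 12 u), ← mul_sum, ← sum_mul, ← e1, ← e2]
        rw [mul_sum, sum_mul, ← sum_add_distrib]
        exact sum_congr rfl fun E _ => by ring
      · rw [sum_const_zero, add_zero]
  rw [g2, ngT, ngT, ← sum_add_distrib]
  simp only [gf]
  rw [sum_comm]
  refine sum_congr rfl fun y _ => ?_
  rw [sum_add_distrib, k, k, add_add_add_comm]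

theorem gf_cp (h : s.Good) {m : ℕ} (hm : m < 118) (A : St) : CP 35 (2 ^ 190) (s.gf m A) :=
  ng_cp h (Ψ := fun a t u => s.Zh u a A * s.Hf u t A) (c := 384 * 2 ^ 60 * 2 ^ 88) (by positivity)
    (fun a ha t ht => (((CP.of 20 (s.zh a A)).mono le_rfl (zh_nrm h ha A)).mul
      ((CP.of 12 (s.hv t A)).mono le_rfl (hv_nrm h ht A))).mono le_rfl (le_of_eq (by ring)))
    hm (by norm_num)

theorem ng_b (h : s.Good) {m : ℕ} (hm : m < 118) (A : St) : CP 35 (384 * 2 ^ 110)
    (s.ngT (fun a _ u => ∑ B, s.Zs u a B * (2 ^ (A ∩ B).card * cc 12 u)) m) :=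
  ng_cp h (c := 384 * 2 ^ 60 * 2 ^ 17) (by positivity)
    (fun _ ha _ _ => ng_Z h (by positivity) (fun B => ng_bias (A ∩ B)) ha) hm (by norm_num)

theorem g2_cp (h : s.Good) {m : ℕ} (hm : m < 118) (A : St) : CP 35 (2 ^ 174) (s.g2 m A) := by
  have k : CP 35 (384 * 2 ^ 164)
      (s.ngT (fun a t u => ∑ B, s.Zs u a B * (2 ^ 26 * chv 11 (s.ft t (A ∩ B)) u)) m) :=
    ng_cp h (c := 384 * 2 ^ 60 * 2 ^ 71) (by positivity) (fun _ ha t ht => ng_Z h (by positivity)
      (fun B => ((((CP.of 11 (s.ft t (A ∩ B))).mono (by norm_num : 11 ≤ 12)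
        (ft_nrm h ht _)).smul (2 ^ 26)).mono le_rfl (by norm_num)).congr fun u => by
          rw [Int.cast_pow, Int.cast_ofNat]) ha) hm (by norm_num)
  exact ((k.add (ng_b h hm A)).mono le_rfl (by norm_num)).congr (ng_g2 s m A)

theorem ng_Ha (s : Seg) (g c t : ℕ) : (s.Ha g c t : ℝ) = s.Hv g c t * (tW ^ 3 * 4096) := by
  have e : ∀ a n : ℕ, (Nat.shiftLeft a (192 * n + 12) : ℝ) = a * (tW ^ n * 4096) := fun a n => by
    rw [n4b_shl, Nat.cast_mul, Nat.cast_pow, pow_add, pow_mul, tW]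
    norm_num only
  exact e _ 3

theorem ng_gw (h : s.Good) {g m : ℕ} (hm : InM g m) (A : St) :
    ((gw s.p m).ap (s.Vf g (cls A)) (s.Hq g (cls A)) (s.Ha g (cls A)) : ℝ) =
      tW ^ 35 * s.gf m A uW := by
  have k : ∀ (t : ℕ) (i : Fin 3), InS g t → ((if i.val = s.p then s.Hq g (cls A) t else
      if s.p < i.val then s.Ha g (cls A) t else 0 : ℕ) : ℝ) = tW ^ 15 * (s.om uW i * s.Hf uW t A) :=
    fun t i ht => by
      unfold om
      by_cases p : i.val = s.p
      · rw [if_pos p, if_neg (by omega), if_pos p,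
          show s.Hq g (cls A) t = s.Q * s.Hv g (cls A) t from rfl, Nat.cast_mul, Q_eq h, Hv_eq h ht]
        ring
      · rw [if_neg p]
        by_cases q : s.p < i.val
        · rw [if_pos q, if_neg (by omega), if_neg p, ng_Ha, Hv_eq h ht]
          ring
        · rw [if_neg q, if_pos (by omega), Nat.cast_zero, zero_mul, mul_zero]
  rw [gw_row h.p hm.lt, Nat.cast_sum, gf, mul_sum]
  refine sum_congr rfl fun y _ => ?_
  rw [Nat.cast_add, mul_add]
  congr 1
  · by_cases p : (sys.ya y).val = m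
    · have ht := loc_a y (p ▸ hm)
      rw [if_pos p, if_pos p, Nat.cast_mul, Nat.cast_mul, k _ _ ht, Vf_eq h (loc_s y ht).2]
      ring
    · rw [if_neg p, if_neg p, Nat.cast_zero, mul_zero]
  · by_cases p : (sys.yb y).val = m
    · have ht := loc_b y (p ▸ hm)
      rw [if_pos p, if_pos p, Nat.cast_mul, Nat.cast_mul, k _ _ ht, Vf_eq h (loc_s y ht).1]
      ring
    · rw [if_neg p, if_neg p, Nat.cast_zero, mul_zero]

theorem Yp_eq (h : s.Good) {g : ℕ} (hg : g < 8) (A : St) :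
    (s.Yp g (cls A) : ℤ) = dz 192 (36 * nM g) fun j =>
      cof 35 (s.gf (m0 g + j / 36) A) (j % 36) + 2 ^ 190 :=
  pk_dz (L := 36) (d := fun i k => cof 35 (s.gf (m0 g + i) A) k + 2 ^ 190) (by norm_num)
    fun _ hi => shr_add (n := 35) (gf_cp h (inM_add hg hi).lt A) (ng_gw h (inM_add hg hi) A)

theorem G2_eq (h : s.Good) {g : ℕ} (hg : g < 8) (A : St) :
    (s.G2 g (cls A) : ℤ) = dz 192 (36 * nM g) fun j =>
      cof 35 (s.g2 (m0 g + j / 36) A) (j % 36) + 2 ^ (190 + A.card) := by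
  rw [G2, zd_eq, Nat.cast_sum, sum_congr rfl fun B _ => Yp_eq h hg B, dz_sum]
  refine dz_congr fun j hj => ?_
  have hm : m0 g + j / 36 < 118 := (inM_add hg (Nat.div_lt_of_lt_mul hj)).lt
  rw [sum_add_distrib, sum_const, card_powerset, cof_eq (f := s.g2 (m0 g + j / 36) A)
    (a := fun k => ∑ B ∈ A.powerset, cof 35 (s.gf (m0 g + j / 36) B) k)
    (fun u => by rw [chv_sum]; exact sum_congr rfl fun B _ => (gf_cp h hm B).cof.1 u)
    (by omega), nsmul_eq_mul, Nat.cast_pow, Nat.cast_ofNat, pow_add, mul_comm]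

theorem g2_near (h : s.Good) {u : ℝ} (hu : |u| ≤ 2) (m : Fin 118) (A : St) :
    |s.g2 m A u / (384 * 2 ^ 127) -
      sys.Psi2 (s.qf u) (sys.Z (s.Nf u)) (sys.Up (s.Cf u)) m A| ≤ 1 / 2 ^ 17 := by
  have k : ∀ y (a b : Fin 118), (if b = m then sys.yw y * ((1 - s.qf u (sys.yi y)) *
      ∑ B, sys.Z (s.Nf u) a B * tl (sys.Up (s.Cf u) (sys.ys y)) (A ∩ B)) else 0) =
      (if b.val = m.val then (wy y : ℝ) * (s.om u (sys.yi y) * ∑ B, s.Zs u a B *
        (2 ^ 26 * chv 11 (s.ft (sys.ys y) (A ∩ B)) u)) else 0) / (384 * 2 ^ 127) := fun y a b => by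
    by_cases p : b = m
    · rw [if_pos p, if_pos (congrArg Fin.val p), yw_eq, om_eq]
      simp only [mul_sum, sum_div, Z_eq, tl_Up_eq]
      exact sum_congr rfl fun B _ => by ring
    · rw [if_neg p, if_neg fun q => p (Fin.ext q), zero_div]
  have e : sys.Psi2 (s.qf u) (sys.Z (s.Nf u)) (sys.Up (s.Cf u)) m A =
      s.ngT (fun a t u => ∑ B, s.Zs u a B * (2 ^ 26 * chv 11 (s.ft t (A ∩ B)) u)) m u /
        (384 * 2 ^ 127) := by
    rw [Sys.Psi2, Sys.PsiM, Sys.PsiM, ← sum_add_distrib, ngT, sum_div]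
    refine sum_congr rfl fun y _ => ?_
    rw [add_div, ← k, ← k]
    rfl
  have b := (ng_b h m.2 A).abs_le hu
  rw [e, ng_g2, add_div, add_sub_cancel_left, abs_div, abs_of_pos (a := (384 * 2 ^ 127 : ℝ))
    (by positivity), div_le_iff₀ (by positivity)]
  refine b.trans (le_of_eq ?_)
  push_cast; norm_num

end Seg

end

end Pool.Agent.MP_7c51ae_co

/-!
The potential inequality.
-/

set_option autoImplicit false

namespace Pool.Agent.MP_7c51ae_co

open Finset

noncomputable section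

theorem np_kc : kc = 11904 * 2 ^ 117 := n4b_shl _ _

theorem np_one : cls {0} = 1 := (cls_eq_one _).2 (card_singleton _)

theorem np_dz0 (z : ℤ) : z = dz 192 36 fun k => if k = 0 then z else 0 := by
  rw [show 36 = 35 + 1 from rfl, n4_zcons, if_pos rfl,
    dz_congr (d' := fun _ => 0) fun i _ => if_neg (Nat.succ_ne_zero i)]
  simp only [dz, zero_mul, sum_const_zero, mul_zero, zero_add]

theorem np_rng {n : ℕ} {d T : ℕ → ℕ} (hd : ∀ j < 36 * n, d j < 2 ^ 192) (hT : ∀ i, T i ≤ 2 ^ 189)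
    (h1 : sml (36 * n) (ds 192 (36 * n) d) = true)
    (h2 : rng (pk 6912 n T) (Nat.land (Nat.shiftRight (Nat.mul (ds 192 (36 * n) d) (ones 192 36))
      6720) (pm 192 36 0 1 n)) (Nat.mul (msk 190) (ones 6912 n)) = true) {i : ℕ} (hi : i < n) :
    ∑ k ∈ range 36, d (36 * i + k) ≤ T i := by
  have h3 := sml_sound hd h1
  have h4 : Nat.land (Nat.shiftRight (Nat.mul (ds 192 (36 * n) d) (ones 192 36)) 6720)
      (pm 192 36 0 1 n) = ds 6912 n fun i => ∑ k ∈ range 36, 1 * d (36 * i + k) := by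
    rw [ones_eq (by omega), Nat.mul_eq, show 6720 = 192 * (36 - 1) from rfl,
      show 6912 = 192 * 36 from rfl]
    exact slot_mul (w := fun _ => 1) (D := 2 ^ 160) (B := 36) (by omega)
      (fun j hj => (h3 j hj).le) (by simp) (by norm_num)
  have h5 : Nat.mul (msk 190) (ones 6912 n) = ds 6912 n fun _ => 2 ^ (189 + 1) - 1 := by
    rw [Nat.mul_eq, ones_eq (by omega), mul_comm, n4b_mul, msk_eq]
    exact ds_congr fun _ _ => one_mul _
  have h6 : ∀ i < n, ∑ k ∈ range 36, d (36 * i + k) ≤ 36 * 2 ^ 160 := fun i hi => by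
    refine (sum_le_card_nsmul _ _ (2 ^ 160) fun k hk => ?_).trans (by simp)
    have := mem_range.1 hk
    exact (h3 _ (by omega)).le
  simp only [one_mul] at h4
  rw [h4, h5, pk_eq] at h2
  have h7 := rng_sound (W := 6912) (w := fun _ => 189) (r := fun i =>
    (T i : ℤ) - (∑ k ∈ range 36, d (36 * i + k) : ℕ) - 2 ^ 189)
    (fun _ _ => by omega) (fun i hi => ?_) ?_ h2 i hi
  · have := abs_le.1 h7
    omega
  · have a1 := h6 i hi
    have a2 := hT i
    refine le_trans (b := 2 ^ 190) (abs_le.2 ⟨by omega, by omega⟩) ?_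
    exact pow_le_pow_right₀ one_le_two (by omega)
  · rw [ds_cast, ds_cast, dz_sub]
    exact dz_congr fun i _ => (sub_add_cancel _ _).symm

namespace Seg

variable {s : Seg}

theorem np_kk (s : Seg) (K m : ℕ) : s.kk K m = 1984 * dg 32 K m + 2 * dg 32 s.th m + 16 := rfl

theorem np_kk_le (s : Seg) (K m : ℕ) : s.kk K m ≤ 2 ^ 43 := by
  have h1 := dg_lt 32 K m
  have h2 := dg_lt 32 s.th m
  rw [np_kk]
  omega

theorem np_cf (h : s.Good) (m : ℕ) {c : ℕ} (hc : c < 402) : nrm 11 (s.dC.cf m c) ≤ 2 ^ 30 :=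
  (Dat.nrm_cf (L := 11) h.hC m hc).trans (by exact_mod_cast h.b1 _ (cj_lt hc).1)

theorem df_cp (h : s.Good) (K : ℕ) {m : ℕ} (hm : m < 118) (A : St) :
    CP 35 (2 ^ 182) (s.df K m A) := by
  have h1 := (((CP.of 11 (s.dC.cf m (cls A))).mono (n' := 35) (by omega)
    (np_cf h m (cls_lt A))).sub ((CP.of 11 (s.dC.cf m 1)).mono (n' := 35) (by omega)
    (np_cf h m (by omega)))).smul (kc : ℤ)
  have h2 := ((g2_cp h hm A).sub (g2_cp h hm {0})).smul 32
  have h3 := CP.const 35 (((A.card : ℤ) - 1) * (384 * s.kk K m * 2 ^ 112))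
  refine (((h1.sub h2).sub h3).congr fun u => ?_).mono le_rfl ?_
  · simp only [df, Int.cast_mul, Int.cast_sub, Int.cast_natCast, Int.cast_ofNat, Int.cast_one,
      Int.cast_pow]
  · have h4 : |(A.card : ℤ) - 1| ≤ 16 := by
      have := n2_le A
      rw [abs_le]
      omega
    have h5 : (s.kk K m : ℤ) ≤ 2 ^ 43 := by exact_mod_cast np_kk_le s K m
    have h0 : (0 : ℤ) ≤ s.kk K m := Int.natCast_nonneg _
    have h6 : |((A.card : ℤ) - 1) * (384 * s.kk K m * 2 ^ 112)| ≤ 16 * 2 ^ 164 :=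
      (abs_mul _ _).trans_le (mul_le_mul h4 (abs_le.2 ⟨by omega, by omega⟩) (abs_nonneg _)
        (by norm_num))
    rw [np_kc]
    refine (add_le_add le_rfl h6).trans ?_
    norm_num

theorem np_cof (h : s.Good) (K : ℕ) {m : ℕ} (hm : m < 118) (A : St) {k : ℕ} (hk : k ≤ 35) :
    cof 35 (s.df K m A) k =
      kc * ((if k ≤ 11 then s.dC.cf m (cls A) k else 0) - if k ≤ 11 then s.dC.cf m 1 k else 0) -
        32 * (cof 35 (s.g2 m A) k - cof 35 (s.g2 m {0}) k) -
        ((A.card : ℤ) - 1) * if k = 0 then 384 * (s.kk K m : ℤ) * 2 ^ 112 else 0 := by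
  refine cof_eq (a := fun k => kc * ((if k ≤ 11 then s.dC.cf m (cls A) k else 0) -
      if k ≤ 11 then s.dC.cf m 1 k else 0) -
        32 * (cof 35 (s.g2 m A) k - cof 35 (s.g2 m {0}) k) -
        ((A.card : ℤ) - 1) * if k = 0 then 384 * (s.kk K m : ℤ) * 2 ^ 112 else 0) (fun u => ?_) hk
  rw [chv_sub, chv_sub, chv_mul, chv_mul, chv_mul, chv_sub, chv_sub, chv_pad (by omega),
    chv_pad (by omega), chv_const, ← (g2_cp h hm A).cof.1, ← (g2_cp h hm {0}).cof.1]
  simp only [df, Int.cast_mul, Int.cast_sub, Int.cast_natCast, Int.cast_ofNat, Int.cast_one,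
    Int.cast_pow]

theorem np_Co (h : s.Good) (g : ℕ) {c : ℕ} (hc : c < 402) :
    (s.Co g c : ℤ) = dz 192 (36 * nM g) fun j =>
      if j % 36 < 12 then s.dC.cf (m0 g + j / 36) c (j % 36) + 2 ^ 64 else 0 := by
  rw [Co, frc_eq]
  refine pk_dz (L := 36) (by omega) (d := fun i k =>
    if k < 12 then s.dC.cf (m0 g + i) c k + 2 ^ 64 else 0) fun i _ => ?_
  rw [frc_eq, dz_pad 192 (by omega)]
  exact Dat.blk_eq (L := 12) h.hC (by omega) _ hc

theorem np_Kp (s : Seg) (K g : ℕ) :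
    (s.Kp K g : ℤ) = dz 192 (36 * nM g) fun j =>
      if j % 36 = 0 then 384 * s.kk K (m0 g + j / 36) * 2 ^ 112 else 0 := by
  refine pk_dz (L := 36) (by omega) (d := fun i k =>
    if k = 0 then 384 * s.kk K (m0 g + i) * 2 ^ 112 else 0) fun i _ => ?_
  rw [← np_dz0, n4b_shl, Nat.mul_eq, Nat.add_eq]
  push_cast
  rfl

theorem np_lt {g j : ℕ} (hg : g < 8) (hj : j < 36 * nM g) : m0 g + j / 36 < 118 :=
  (inM_add hg (Nat.div_lt_of_lt_mul hj)).lt

theorem np_le (h : s.Good) (K : ℕ) {g j : ℕ} (hg : g < 8) (A : St) (hj : j < 36 * nM g) :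
    |cof 35 (s.df K (m0 g + j / 36) A) (j % 36)| ≤ 2 ^ 182 :=
  (df_cp h K (np_lt hg hj) A).cof_le (by omega)

theorem Ap_eq (h : s.Good) (K : ℕ) {g : ℕ} (hg : g < 8) {A : St} (hA : A.Nonempty) :
    s.Ap K g (cls A) = ds 192 (36 * nM g) fun j =>
      (cof 35 (s.df K (m0 g + j / 36) A) (j % 36)).natAbs := by
  rw [Ap, frc_eq]
  refine ab_eq (n := 36 * nM g) (fun j hj => (np_le h K hg A hj).trans_lt (by norm_num))
    (sub_dz (fun j hj => ?_) ?_)
  · have := abs_le.1 (np_le h K hg A hj)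
    omega
  have h1 := G2_eq h hg {0}
  have h2 : ((Nat.sub A.card 1 : ℕ) : ℤ) = A.card - 1 := Nat.cast_sub (card_pos.2 hA)
  have h3 : ∀ e, (Nat.shiftLeft (o5 g) e : ℤ) = dz 192 (36 * nM g) fun _ => 2 ^ e :=
    fun e => shl_ones _ e
  rw [np_one, card_singleton] at h1
  simp only [Nat.add_eq, Nat.mul_eq, Nat.cast_add, Nat.cast_mul]
  rw [cls_card, h1, h2, h3, h3, h3, G2_eq h hg A, np_Co h g (cls_lt A), np_Co h g (by omega), np_Kp]
  simp only [dz_smul, dz_add, dz_sub]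
  refine dz_congr fun j hj => ?_
  rw [np_cof h K (np_lt hg hj) A (by omega), show 195 + A.card = 190 + A.card + 5 by omega,
    pow_add _ _ 5]
  by_cases h4 : j % 36 < 12
  · rw [if_pos h4, if_pos h4, if_pos (show j % 36 ≤ 11 by omega),
      if_pos (show j % 36 ≤ 11 by omega)]
    push_cast
    ring
  · rw [if_neg h4, if_neg h4, if_neg (show ¬ j % 36 ≤ 11 by omega),
      if_neg (show ¬ j % 36 ≤ 11 by omega)]
    push_cast
    ring

theorem df_one (h : s.Good) (K : ℕ) {m : ℕ} (hm : m < 118) {A : St} (hA : A.card = 1) (u : ℝ) :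
    s.df K m A u = 0 := by
  obtain ⟨g, hg⟩ := exists_inM hm
  have h1 := (cls_eq_one A).2 hA
  have h2 := G2_eq h hg.1 A
  rw [h1, ← np_one, G2_eq h hg.1 {0}, hA, card_singleton] at h2
  have h3 := dz_inj (fun j hj => by
    have a1 := abs_le.1 ((g2_cp h (np_lt hg.1 hj) A).cof_le (k := j % 36) (by omega))
    have a2 := abs_le.1 ((g2_cp h (np_lt hg.1 hj) {0}).cof_le (k := j % 36) (by omega))
    rw [abs_lt]
    omega) h2
  have h4 : s.g2 m A u = s.g2 m {0} u := by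
    rw [(g2_cp h hm A).cof.1, (g2_cp h hm {0}).cof.1]
    refine chv_congr (fun k hk => ?_) u
    have h5 := hg.sub
    have h6 := h3 (36 * (m - m0 g) + k) (by omega)
    rw [show (36 * (m - m0 g) + k) / 36 = m - m0 g by omega,
      show (36 * (m - m0 g) + k) % 36 = k by omega, h5.2] at h6
    exact (add_right_cancel h6).symm
  rw [df, h1, h4, hA]
  simp only [sub_self, mul_zero, Nat.cast_one, zero_mul]

theorem chkP_sound (h : s.Good) {K g m : ℕ} (hm : InM g m) {A : St} (hA : A.Nonempty)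
    (hc : s.chkP K g (cls A) = true) {u : ℝ} (hu : |u| ≤ 2) :
    |s.df K m A u| ≤ 384 * dg 32 s.th m * 2 ^ 112 := by
  rw [chkP, frk_eq, Ap_eq h K hm.1 hA, Bool.and_eq_true, Th] at hc
  have h8 := np_rng (fun j hj => by
    have := np_le h K hm.1 A hj
    rw [Int.abs_eq_natAbs] at this
    omega) (fun i => ?_) hc.1 hc.2 hm.sub.1
  · have h9 : ∑ k ∈ range 36, (cof 35 (s.df K (m0 g + (36 * (m - m0 g) + k) / 36) A)
        ((36 * (m - m0 g) + k) % 36)).natAbs =
        ∑ k ∈ range (35 + 1), (cof 35 (s.df K m A) k).natAbs := sum_congr rfl fun k hk => by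
      have := mem_range.1 hk
      rw [show (36 * (m - m0 g) + k) / 36 = m - m0 g by omega,
        show (36 * (m - m0 g) + k) % 36 = k by omega, hm.sub.2]
    rw [h9, n4b_shl, Nat.mul_eq, Nat.add_eq, hm.sub.2] at h8
    have h10 := (Nat.cast_le (α := ℝ)).2 h8
    have h11 := (df_cp h K hm.lt A).abs_le_sum hu
    rw [Nat.cast_sum, Nat.cast_mul, Nat.cast_mul, Nat.cast_pow, Nat.cast_ofNat,
      Nat.cast_ofNat] at h10
    linarith only [h10, h11]
  · have a2 := dg_lt 32 s.th (Nat.add (m0 g) i)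
    rw [n4b_shl, Nat.mul_eq]
    omega

theorem cov_sound (h : s.Good) (G : Glob)
    (hc : ∀ g < 8, ∀ c, 2 ≤ c → c < 402 → s.chkP G.K g c = true) {u : ℝ} (hu : |u| ≤ 2)
    (m : Fin 118) (A : St) (y : Fin 16) (hA : A.Nonempty) (hy : y ∉ A) :
    2 * (G.cst.rho * G.cst.kap m) ≤ G.cst.rho * (s.Cf u m (insert y A) - s.Cf u m A) -
      (sys.Psi2 (s.qf u) (sys.Z (s.Nf u)) (sys.Up (s.Cf u)) m (insert y A) -
        sys.Psi2 (s.qf u) (sys.Z (s.Nf u)) (sys.Up (s.Cf u)) m A) := by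
  obtain ⟨g, hg⟩ := exists_inM m.isLt
  have h1 : ∀ B : St, B.Nonempty → |s.df G.K m B u| ≤ 384 * dg 32 s.th m * 2 ^ 112 := fun B hB => by
    by_cases h2 : B.card = 1
    · rw [df_one h _ m.isLt h2, abs_zero]
      positivity
    · have h3 := mt (cls_eq_one B).1 h2
      have h4 := mt (cls_eq_zero B).1 hB.ne_empty
      exact chkP_sound h hg hB (hc g hg.1 _ (by omega) (cls_lt B)) hu
  have a1 := abs_le.1 (h1 A hA)
  have a2 := abs_le.1 (h1 _ (insert_nonempty y A))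
  have b1 := abs_le.1 (g2_near h hu m A)
  have b2 := abs_le.1 (g2_near h hu m (insert y A))
  rw [df, np_kc, np_kk] at a1 a2
  rw [card_insert_of_notMem hy] at a2
  show 2 * (31 / 32 * ((dg 32 G.K m : ℝ) / 2 ^ 10)) ≤ 31 / 32 *
    (chv 11 (s.dC.cf m (cls (insert y A))) u / 2 ^ 10 - chv 11 (s.dC.cf m (cls A)) u / 2 ^ 10) - _
  push_cast at a1 a2
  linarith [a1.2, a2.1, b1.1, b2.2]

end Seg

end

end Pool.Agent.MP_7c51ae_co

/-!
The certificate from the checks.
-/

set_option autoImplicit false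

namespace Pool.Agent.MP_7c51ae_co

open Finset

noncomputable section

theorem Glob.cst_ok {G : Glob} (h : G.ok = true) : G.cst.Ok sys mass0 := by
  unfold Glob.ok at h
  simp only [Bool.and_eq_true, Nat.ble_eq, n4b_shl, Nat.mul_eq, Nat.add_eq, al_iff] at h
  obtain ⟨h1, h2⟩ := h
  have k1 : (31 * (1025 * G.E + 1024) + 32768 * (G.R + G.R3) : ℝ) ≤ 32768 * G.E := by
    exact_mod_cast h1
  have k2 : ∀ m : Fin 118, (1 : ℝ) ≤ dg 32 G.K m := fun m => by exact_mod_cast (h2 m m.isLt).1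
  refine ⟨by norm_num only [cst, div_pos_iff_of_pos_left], by norm_num only [cst], ?_, by norm_num [cst], by norm_num only [cst],
    by norm_num [cst], by norm_num only [cst], fun m => ?_, ?_, fun m => ?_, fun m => ?_⟩
  · exact div_nonneg (Nat.cast_nonneg _) (by norm_num)
  · exact div_pos (one_pos.trans_le (k2 m)) (by norm_num)
  · simp only [cst]
    linarith
  · have k := k2 m
    have e := Nat.lt_div_mul_add (a := 2048 * (1025 * G.E + 1024)) (b := 1023 * dg 32 G.K m)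
      (Nat.mul_pos (by norm_num) (h2 m m.isLt).1)
    have eT : G.T m = 2048 * (1025 * G.E + 1024) / (1023 * dg 32 G.K m) + 2 := rfl
    simp only [cst, eT]
    generalize 2048 * (1025 * G.E + 1024) / (1023 * dg 32 G.K m) = d at e
    generalize dg 32 G.K m = x at e k
    have e' : (2048 * (1025 * G.E + 1024) : ℝ) < d * (1023 * x) + 1023 * x := by exact_mod_cast e
    have : 2 * ((1 + 1 / 1024) * ((G.E : ℝ) / 2 ^ 40) + 1 / 2 ^ 40) / ((1 - 1 / 1024) * (x / 2 ^ 10)) ≤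
        (d + 1) / 2 ^ 40 := by
      rw [div_le_iff₀ (by positivity)]
      linarith only [e']
    push_cast
    linarith only [this]
  · have k : (G.T m : ℝ) ≤ 1 * 2 ^ 39 := by exact_mod_cast (h2 m m.isLt).2
    have := z0_le m
    simp only [cst]
    linarith

namespace Seg

variable {s : Seg} {G : Glob}

theorem nc_ok (h : s.ok G = true) : s.Good ∧
    (4 * (s.q2 + s.q3) ≤ 1024 ∨ s.q2 * s.q2 + 12 * (s.q3 * s.q3) ≤ 3072 * s.q3) ∧
    sm 8 (dg 32 s.bud) ≤ G.R ∧ (sm 100 fun t => dg 32 s.F t * (rt t).ap one1) ≤ G.R3 * 2 ^ 19 ∧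
    ∀ m < 118, (gw 0 m).ap G.T (dg 32 s.F) (dg 32 s.F) ≤ 31 * dg 32 G.K m * 2 ^ 38 := by
  unfold ok at h
  simp only [Bool.and_eq_true, Bool.or_eq_true, Nat.ble_eq, n4b_shl, Nat.mul_eq, Nat.add_eq, al_iff,
    one_mul] at h
  obtain ⟨⟨⟨h1, h2⟩, h3, h4⟩, ⟨⟨⟨h5, h6⟩, h7, h8⟩, h9⟩, ⟨h10, h11⟩, h12⟩ := h
  exact ⟨⟨h1, h2, h3, h4, h5, h6, h7, h8⟩, h9, h10, h11, h12⟩

theorem good (h : s.ok G = true) : s.Good := (nc_ok h).1

theorem err_sound (h : s.ok G = true) (m : Fin 118) :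
    ∑ y, ((if sys.ya y = m then sys.yw y * (G.cst.tau (sys.yb y) * s.Fr (sys.ys y)) else 0) +
      (if sys.yb y = m then sys.yw y * (G.cst.tau (sys.ya y) * s.Fr (sys.ys y)) else 0)) ≤
      G.cst.rho * G.cst.kap m := by
  have k := (nc_ok h).2.2.2.2 m m.isLt
  have e : ∀ (i : Fin 3) (x : ℕ), (if i.val = 0 then x else if 0 < i.val then x else 0) = x :=
    fun i x => by split_ifs <;> omega
  rw [gw_row (by norm_num) m.isLt] at k
  simp only [e, Fin.val_inj] at k
  have k' := (Nat.cast_le (α := ℝ)).2 k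
  rw [Nat.cast_sum] at k'
  refine le_trans (le_of_eq ?_) ((div_le_div_of_nonneg_right k'
    (by norm_num : (0 : ℝ) ≤ 2 ^ 53)).trans (le_of_eq ?_))
  · rw [sum_div]
    refine sum_congr rfl fun y _ => ?_
    simp only [yw_eq, Glob.cst, Fr, Nat.cast_add, Nat.cast_ite, Nat.cast_mul, Nat.cast_zero]
    split_ifs <;> ring
  · simp only [Glob.cst]
    push_cast
    ring

theorem r3_sound (h : s.ok G = true) :
    2 * G.cst.eM * G.cst.B0 * ∑ y, sys.yw y * s.Fr (sys.ys y) ≤ G.cst.r3 := by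
  have k := (nc_ok h).2.2.2.1
  have e : (sm 100 fun t => dg 32 s.F t * (rt t).ap one1) = ∑ y, wy y * dg 32 s.F (sys.ys y) := by
    rw [sm_eq, sum_congr rfl fun t ht => by rw [rt_row (mem_range.1 ht), mul_sum], sum_comm]
    refine sum_congr rfl fun y _ => ?_
    simp only [mul_ite, mul_zero, sum_ite_eq, mem_range, (sys.ys y).isLt, if_true, one1, mul_one]
    exact mul_comm _ _
  rw [e] at k
  have k' := (Nat.cast_le (α := ℝ)).2 k
  have e' : ∑ y, sys.yw y * s.Fr (sys.ys y) =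
      ((∑ y, wy y * dg 32 s.F (sys.ys y) : ℕ) : ℝ) / 2 ^ 13 := by
    rw [Nat.cast_sum, sum_div]
    refine sum_congr rfl fun y _ => ?_
    simp only [yw_eq, Fr, Nat.cast_mul]
    ring
  rw [e']
  generalize ((∑ y, wy y * dg 32 s.F (sys.ys y) : ℕ) : ℝ) = x at k'
  simp only [Glob.cst]
  push_cast at k'
  linarith only [k']

theorem nc_Qf (s : Seg) (u : ℝ) : s.Qf u = 2048 + 2 * s.q2 + (1024 - s.q3) * u - s.q2 * (u ^ 2 - 2) +
    s.q3 * (u ^ 3 - 3 * u) := by
  have e2 := n3_cc_mul 1 1 u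
  have e3 := n3_cc_mul 2 1 u
  rw [show Nat.dist 1 1 = 0 from rfl, n3_cc_zero, n3_cc_one] at e2
  rw [show Nat.dist 2 1 = 1 from rfl, n3_cc_one] at e3
  simp only [Qf, chv, sum_range_succ, sum_range_zero, qc, n3_cc_one, zero_add]
  norm_num only [ite_false, ite_true, Int.cast_add, Int.cast_mul, Int.cast_natCast, Int.cast_sub, Int.cast_neg, neg_mul] at e2 e3 ⊢
  linear_combination (s.q2 - s.q3 * u : ℝ) * e2 - s.q3 * e3

theorem Qf_mono (h : s.ok G = true) : MonotoneOn s.Qf (Set.Icc (-2) 2) := by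
  intro a ha b hb ab
  have q3 : (1 : ℝ) ≤ s.q3 := by exact_mod_cast (good h).q3
  have q2 : (0 : ℝ) ≤ s.q2 := Nat.cast_nonneg _
  have k : 0 ≤ 1024 - 4 * (s.q3 : ℝ) - s.q2 * (a + b) + 3 / 4 * s.q3 * (a + b) ^ 2 := by
    rcases (nc_ok h).2.1 with k | k
    · have k' : 4 * ((s.q2 : ℝ) + s.q3) ≤ 1024 := by exact_mod_cast k
      have := mul_nonneg q2 (by linarith only [ha.2, hb.2] : 0 ≤ 4 - (a + b))
      have : 0 ≤ s.q3 * (a + b) ^ 2 := by positivity
      linarith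
    · have k' : (s.q2 : ℝ) * s.q2 + 12 * (s.q3 * s.q3) ≤ 3072 * s.q3 := by exact_mod_cast k
      refine nonneg_of_mul_nonneg_right (a := (s.q3 : ℝ)) ?_ (by linarith only [q3])
      nlinarith [sq_nonneg (3 / 2 * s.q3 * (a + b) - s.q2)]
  have k2 : 0 ≤ s.q3 * (b - a) ^ 2 := by positivity
  have := mul_nonneg (sub_nonneg.2 ab) (add_nonneg k (div_nonneg k2 (by norm_num : (0 : ℝ) ≤ 4)))
  rw [nc_Qf, nc_Qf]
  linarith only [this]

theorem Qf_two (s : Seg) : s.Qf 2 = 4096 ∧ s.Qf (-2) = 0 := by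
  rw [nc_Qf, nc_Qf]
  constructor <;> ring

theorem pt_ok (h : s.ok G = true) (hc : ∀ g < 8, s.chk G.K g = true) {u : ℝ} (hu : |u| ≤ 2) :
    PtOk sys mass0 G.cst (s.qf u) (s.Nf u) (s.Cf u) s.Fr := by
  have hg := good h
  unfold chk at hc
  simp only [Bool.and_eq_true, al_iff, Nat.add_eq] at hc
  refine ⟨Nf_inv s u, Nf_empty hg u, mass_sound hg (fun t ht => ?_) hu, Cf_inv s u,
    osc_sound hg (fun g l => (hc g l).2.1) hu,
    (res_sound hg (fun g l => (hc g l).1.1) hu).trans (div_le_div_of_nonneg_right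
      (Nat.cast_le.2 (nc_ok h).2.2.1) (by norm_num)),
    cov_sound hg G (fun g l c c1 c2 => ?_) hu, err_sound h, r3_sound h⟩
  · obtain ⟨g, k⟩ := exists_inS ht
    have := (hc g k.1).1.2 _ k.sub.1
    rwa [frk_eq, k.sub.2] at this
  · have := (hc g l).2.2 (c - 2) (by omega)
    rwa [frk_eq, Nat.sub_add_cancel c1] at this

theorem nc_abs {x : ℝ} (hx : x ∈ Set.Icc (-1 : ℝ) 1) : |-2 * x| ≤ 2 :=
  abs_le.2 ⟨by linarith [hx.2], by linarith [hx.1]⟩

theorem nc_cont (n : ℕ) (a : ℕ → ℤ) : Continuous fun x : ℝ => chv n a (-2 * x) :=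
  (chv_cont n a).comp (continuous_const.mul continuous_id)

theorem nc_q (h : s.ok G = true) (i : Fin 3) :
    MonotoneOn (fun x => s.qf (-2 * x) i) (Set.Icc (-1) 1) ∧
      ContinuousOn (fun x => s.qf (-2 * x) i) (Set.Icc (-1) 1) := by
  unfold qf
  split_ifs
  · exact ⟨monotoneOn_const, continuousOn_const⟩
  · refine ⟨fun x hx y hy xy => ?_,
      (continuous_const.sub ((nc_cont 3 s.qc).div_const _)).continuousOn⟩
    have := Qf_mono h (abs_le.1 (nc_abs hy)) (abs_le.1 (nc_abs hx)) (by linarith only [xy])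
    beta_reduce
    linarith only [this]
  · exact ⟨monotoneOn_const, continuousOn_const⟩

theorem nc_j {s' : Seg} (p : s'.p = s.p + 1) : s.qf (-2 * 1) = s'.qf (-2 * -1) := by
  funext i
  rw [show (-2 * 1 : ℝ) = -2 by norm_num, show (-2 * -1 : ℝ) = 2 by norm_num]
  unfold qf
  rw [(Qf_two s).2, (Qf_two s').1, p]
  split_ifs <;> first | omega | norm_num

end Seg

open Seg in
theorem cert_of {G : Glob} {a b c : Seg} (hG : G.ok = true) (ha : a.ok G = true)
    (hb : b.ok G = true) (hc : c.ok G = true) (pa : a.p = 0) (pb : b.p = 1) (pc : c.p = 2)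
    (ka : ∀ g < 8, a.chk G.K g = true) (kb : ∀ g < 8, b.chk G.K g = true)
    (kc : ∀ g < 8, c.chk G.K g = true) (jab : ∀ j < 50, a.chkJ b j = true)
    (jbc : ∀ j < 50, b.chkJ c j = true) (h0 : a.chk0 G.K = true) : Cert sys mass0 := by
  obtain ⟨S, s0, s1, s2⟩ : ∃ S : ℕ → Seg, S 0 = a ∧ S 1 = b ∧ S 2 = c :=
    ⟨fun j => if j = 0 then a else if j = 1 then b else c, rfl, rfl, rfl⟩
  have ok : ∀ j ≤ 2, (S j).ok G = true ∧ ∀ g < 8, (S j).chk G.K g = true := fun j hj => by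
    obtain rfl | rfl | rfl : j = 0 ∨ j = 1 ∨ j = 2 := by omega
    exacts [s0 ▸ ⟨ha, ka⟩, s1 ▸ ⟨hb, kb⟩, s2 ▸ ⟨hc, kc⟩]
  have jn : ∀ j < 2, (S (j + 1)).p = (S j).p + 1 ∧ ∀ i < 50, (S j).chkJ (S (j + 1)) i = true :=
    fun j hj => by
      obtain rfl | rfl : j = 0 ∨ j = 1 := by omega
      · rw [s0, s1, pa, pb]; exact ⟨rfl, jab⟩
      · rw [s1, s2, pb, pc]; exact ⟨rfl, jbc⟩
  have co := Glob.cst_ok hG
  have n1 : (-2 * 1 : ℝ) = -2 := by norm_num
  have n2 : (-2 * -1 : ℝ) = 2 := by norm_num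
  refine ⟨2, G.cst, fun j x => (S j).qf (-2 * x), fun j x => (S j).Nf (-2 * x),
    fun j x => (S j).Cf (-2 * x), fun j => (S j).Fr, co,
    fun j s => div_nonneg (Nat.cast_nonneg _) (by norm_num),
    fun j hj x hx => pt_ok (ok j hj).1 (ok j hj).2 (nc_abs hx), fun j hj => nc_q (ok j hj).1,
    fun j _ s D => ((continuous_const.mul (nc_cont 20 _)).div_const _).continuousOn,
    fun j _ m A => ((nc_cont 11 _).div_const _).continuousOn, fun i => ?_, fun i => ?_,
    fun j hj => nc_j (jn j hj).1, fun j hj m A => ?_, fun j hj => ?_, fun m A y hA hy => ?_, ?_⟩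
  · beta_reduce
    unfold qf
    rw [n2, (Qf_two _).1, s0, pa]
    split_ifs <;> first | omega | norm_num
  · beta_reduce
    unfold qf
    rw [n1, (Qf_two _).2, s2, pc]
    split_ifs <;> first | omega | norm_num
  · beta_reduce
    rw [n1, n2, chkJ_C (good (ok j hj.le).1) (good (ok _ hj).1) (jn j hj).2, sub_self, abs_zero]
    exact div_nonneg (mul_nonneg co.xi0.le (co.kap0 m).le) (by norm_num)
  · beta_reduce
    rw [n1, n2, sum_eq_zero fun s _ => ?_]
    · exact div_nonneg co.r20.le (by norm_num)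
    rw [sum_eq_zero fun D hD => ?_, mul_zero]
    rw [chkJ_N (good (ok j hj.le).1) (good (ok _ hj).1) (jn j hj).2 s (ne_of_mem_erase hD), sub_self,
      abs_zero]
  · beta_reduce
    rw [n2, s0]
    exact chk0_C (good ha) h0 m A y hA hy
  · beta_reduce
    rw [n2, s0, sum_eq_zero fun s _ => ?_]
    · exact co.eps0
    rw [sum_eq_zero fun D hD => ?_, mul_zero]
    rw [chk0_N (good ha) h0 s (ne_of_mem_erase hD), abs_zero]

end

end Pool.Agent.MP_7c51ae_co
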